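import Pool.Agent.Mg.F2fc7fa.G9cb2cd

section

/-! Two lines of the family with two common points: calculus lemmas. -/

open scoped ContDiff ComplexConjugate Topology
open Set Complex Filter Metric Asymptotics

noncomputable section

namespace Pool.Agent.MP_2fc7fa_gt.N

lemma mk2_H2 (y z : W) (h : det2 y z ≠ 0) :
    ∃ g : W ≃L[ℂ] W, ∀ q : W, g q = q.1 • y + q.2 • z := by
  let L : W →ₗ[ℂ] W := (LinearMap.fst ℂ ℂ ℂ).smulRight y + (LinearMap.snd ℂ ℂ ℂ).smulRight z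
  have hL : ∀ q : W, L q = q.1 • y + q.2 • z := fun q => rfl
  have hinj : Function.Injective L := by
    rw [injective_iff_map_eq_zero]
    intro q hq
    rw [hL] at hq
    have h1 : q.1 * y.1 + q.2 * z.1 = 0 := congrArg Prod.fst hq
    have h2 : q.1 * y.2 + q.2 * z.2 = 0 := congrArg Prod.snd hq
    have e1 : q.1 * det2 y z = 0 := by unfold det2; linear_combination z.2 * h1 - z.1 * h2
    have e2 : q.2 * det2 y z = 0 := by unfold det2; linear_combination y.1 * h2 - y.2 * h1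
    exact Prod.ext ((mul_eq_zero.1 e1).resolve_right h) ((mul_eq_zero.1 e2).resolve_right h)
  exact ⟨(LinearEquiv.ofInjectiveEndo L hinj).toContinuousLinearEquiv, hL⟩

lemma mk1_H2 (y : W) (hy : y ≠ 0) : ∃ g : W ≃L[ℂ] W, g (1, 0) = y := by
  by_cases h1 : y.1 = 0
  · have h2 : y.2 ≠ 0 := fun h2 => hy (Prod.ext h1 h2)
    obtain ⟨g, hg⟩ := mk2_H2 y (1, 0) (by simpa [det2] using h2)
    exact ⟨g, by simp [hg]⟩
  · obtain ⟨g, hg⟩ := mk2_H2 y (0, 1) (by simpa [det2] using h1)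
    exact ⟨g, by simp [hg]⟩

lemma e0_ne_H2 : ((1, 0) : W) ≠ 0 := by simp

lemma diff_H2 {U : W → V} (h : ContDiffOn ℝ 1 U {0}ᶜ) {q : W} (hq : q ≠ 0) :
    DifferentiableAt ℝ U q :=
  (h.contDiffAt (isOpen_compl_singleton.mem_nhds hq)).differentiableAt one_ne_zero

lemma fd_comp_H2 {U : W → V} (h : ContDiffOn ℝ 1 U {0}ᶜ) (g : W ≃L[ℂ] W) {e : W} (he : e ≠ 0)
    (k : W) : fderiv ℝ (U ∘ g) e k = fderiv ℝ U (g e) (g k) := by
  have hge : g e ≠ 0 := fun h0 => he (by simpa using h0)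
  have h1 : HasFDerivAt g ((g : W →L[ℂ] W).restrictScalars ℝ) e :=
    ((g : W →L[ℂ] W).restrictScalars ℝ).hasFDerivAt
  rw [((diff_H2 h hge).hasFDerivAt.comp e h1).fderiv]
  rfl

lemma zero_H2 {U : W → V} (h : ∀ (c : ℂ) q, U (c • q) = c • U q) : U 0 = 0 := by
  simpa using h 0 0

lemma euler_H2 {U : W → V} (h1 : ContDiffOn ℝ 1 U {0}ᶜ) (h : ∀ (c : ℂ) q, U (c • q) = c • U q)
    {q : W} (hq : q ≠ 0) (c : ℂ) : fderiv ℝ U q (c • q) = c • U q := by
  have e1 : HasDerivAt (fun t : ℝ => q + t • (c • q)) (c • q) 0 := by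
    simpa using ((hasDerivAt_id (0 : ℝ)).smul_const (c • q)).const_add q
  have e2 : HasDerivAt (fun t : ℝ => U (q + t • (c • q))) (fderiv ℝ U q (c • q)) 0 := by
    have : HasFDerivAt U (fderiv ℝ U q) (q + (0 : ℝ) • (c • q)) := by
      simpa using (diff_H2 h1 hq).hasFDerivAt
    exact this.comp_hasDerivAt (0 : ℝ) e1
  have e3 : HasDerivAt (fun t : ℝ => U q + t • (c • U q)) (c • U q) 0 := by
    simpa using ((hasDerivAt_id (0 : ℝ)).smul_const (c • U q)).const_add (U q)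
  have e4 : (fun t : ℝ => U (q + t • (c • q))) = fun t : ℝ => U q + t • (c • U q) := by
    funext t
    have : q + t • (c • q) = (1 + (t : ℂ) * c) • q := by
      rw [add_smul, one_smul, mul_smul, Complex.coe_smul]
    rw [this, h, add_smul, one_smul, mul_smul, Complex.coe_smul]
  rw [e4] at e2
  exact e2.unique e3

lemma clin_H2 (T : W →L[ℝ] V) (hT : ∀ h, T (I • h) = I • T h) (c : ℂ) (h : W) :
    T (c • h) = c • T h := by
  have e : ∀ {E : Type} [AddCommGroup E] [Module ℂ E] (x : E),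
      c • x = (c.re : ℂ) • x + (c.im : ℂ) • I • x := fun x => by
    rw [smul_smul, ← add_smul, re_add_im]
  rw [e h, e (T h), map_add, Complex.coe_smul, Complex.coe_smul, Complex.coe_smul,
    Complex.coe_smul, map_smul, map_smul, hT]

lemma avert_H2 (φ : Fr) {x : V} (hx : x ≠ 0) (c : ℂ) : φ.A x (c • x) = c • x := by
  conv_lhs => rw [← φ.vert x hx c]
  exact φ.AB x hx _

lemma tau_H2 {φ : Fr} {U : W → V} (h : IsLine φ.J U) (k : W) :
    φ.A (U (1, 0)) (fderiv ℝ U (1, 0) k) =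
      k.1 • U (1, 0) + k.2 • φ.A (U (1, 0)) (fderiv ℝ U (1, 0) (0, 1)) := by
  have hx := h.ne _ e0_ne_H2
  have hT : ∀ k, ((φ.A (U (1, 0))).comp (fderiv ℝ U (1, 0))) (I • k) =
      I • ((φ.A (U (1, 0))).comp (fderiv ℝ U (1, 0))) k := fun k => by
    simp only [ContinuousLinearMap.comp_apply]
    rw [h.hol _ e0_ne_H2, Fr.J, φ.AB _ hx]
  have e : k = k.1 • ((1, 0) : W) + k.2 • ((0, 1) : W) := by ext <;> simp
  have h2 := clin_H2 _ hT k.2 (0, 1)
  simp only [ContinuousLinearMap.comp_apply] at h2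
  conv_lhs => rw [e, map_add, map_add, euler_H2 h.c1 h.hom e0_ne_H2, avert_H2 φ hx, h2]

/-- A curve that is locally contained in an immersed branch is tangent to it. -/
lemma tang_H2 {U : W → V} {L : W →L[ℝ] V} {q : W} (hU : HasFDerivAt U L q)
    (hL : Function.Injective L) : ∃ δ : ℝ, 0 < δ ∧ ∀ (w : W → V) (M : W →L[ℝ] V) (r : W),
      HasFDerivAt w M r → U q = w r → (∀ᶠ r' in 𝓝 r, w r' ∈ U '' ball q δ) →
      ∀ h, ∃ k, M h = L k := by
  obtain ⟨K, -, hK⟩ := LinearMap.exists_antilipschitzWith (L : W →ₗ[ℝ] V)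
    (LinearMap.ker_eq_bot.2 hL)
  have hind : Topology.IsInducing L := (hK.isInducing L.continuous)
  obtain ⟨C, hC⟩ := (hU.isTheta_sub hind).isBigO_symm.bound
  obtain ⟨δ, hδ, hb⟩ := Metric.eventually_nhds_iff_ball.1 hC
  refine ⟨δ, hδ, fun w M r hw e hev h => ?_⟩
  classical
  let σ : W → W := fun r' => if h : w r' ∈ U '' ball q δ then h.choose else q
  have hσ : ∀ᶠ r' in 𝓝 r, σ r' ∈ ball q δ ∧ U (σ r') = w r' := hev.mono fun r' hr' => by
    simp only [σ, dif_pos hr']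
    exact hr'.choose_spec
  have h1 : (fun r' => σ r' - q) =O[𝓝 r] fun r' => r' - r := by
    refine IsBigO.trans (IsBigO.of_bound C ?_) hw.isBigO_sub
    refine hσ.mono fun r' hr' => ?_
    have := hb _ hr'.1
    rwa [hr'.2, e] at this
  have h2 : Tendsto σ (𝓝 r) (𝓝 q) := by
    have h0 : Tendsto (fun r' : W => r' - r) (𝓝 r) (𝓝 0) := tendsto_sub_nhds_zero_iff.2 tendsto_id
    exact tendsto_sub_nhds_zero_iff.1 (h1.trans_tendsto h0)
  have h3 : (fun r' => w r' - w r - L (σ r' - q)) =o[𝓝 r] fun r' => r' - r := by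
    have := (hU.isLittleO.comp_tendsto h2).trans_isBigO h1
    refine this.congr' (hσ.mono fun r' hr' => ?_) EventuallyEq.rfl
    simp only [Function.comp_apply, hr'.2, e]
  by_contra hn
  have hx : M h ∉ LinearMap.range (L : W →ₗ[ℝ] V) := fun ⟨k, hk⟩ => hn ⟨k, hk.symm⟩
  obtain ⟨f, hf, hf'⟩ := Submodule.exists_dual_map_eq_bot_of_notMem hx inferInstance
  let l : V →L[ℝ] ℝ := LinearMap.toContinuousLinearMap f
  have hl : ∀ k, l (L k) = 0 := fun k => by
    have : f (L k) ∈ (LinearMap.range (L : W →ₗ[ℝ] V)).map f := ⟨L k, ⟨k, rfl⟩, rfl⟩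
    rw [hf'] at this
    exact this
  have h4 : HasFDerivAt (l ∘ w) (0 : W →L[ℝ] ℝ) r := by
    rw [hasFDerivAt_iff_isLittleO]
    refine ((l.isBigO_comp _ _).trans_isLittleO h3).congr_left fun r' => ?_
    simp [hl]
  have h5 := (l.hasFDerivAt.comp r hw).unique h4
  exact hf (congrArg (fun T : W →L[ℝ] ℝ => T h) h5)

lemma near_H2 {P : Type} [TopologicalSpace P] {u : P → W → V} (h : Fam {0}ᶜ 1 V u) (p₀ : P)
    {ε : ℝ} (hε : 0 < ε) : ∀ᶠ p in 𝓝 p₀, Near ε (u p) (u p₀) := by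
  have hO : IsOpen ({0}ᶜ : Set W) := isOpen_compl_singleton
  have h1 : Fam {0}ᶜ 0 (W →L[ℝ] V) fun p => fderiv ℝ (u p) :=
    (h.fderivWithin hO.uniqueDiffOn).congr fun p x hx => (fderivWithin_of_isOpen hO hx).symm
  have key : ∀ {E : Type} [NormedAddCommGroup E] {F : P → W → E}, JC {0}ᶜ F →
      ∀ y ∈ sphere (0 : W) 1, ∀ᶠ z : P × W in 𝓝 (p₀, y), ‖F z.1 z.2 - F p₀ z.2‖ ≤ ε := by
    intro E _ F hF y hy
    have hy0 : y ∈ ({0}ᶜ : Set W) := by
      rintro rfl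
      simp at hy
    have c1 : ContinuousAt (fun z : P × W => F z.1 z.2) (p₀, y) :=
      hF.continuousAt ((isOpen_univ.prod hO).mem_nhds ⟨mem_univ _, hy0⟩)
    have c2 : ContinuousAt (fun z : P × W => F p₀ z.2) (p₀, y) :=
      ContinuousAt.comp (f := Prod.snd) ((hF.at p₀).continuousAt (hO.mem_nhds hy0))
        continuousAt_snd
    have c3 : Tendsto (fun z : P × W => ‖F z.1 z.2 - F p₀ z.2‖) (𝓝 (p₀, y)) (𝓝 0) := by
      simpa using (c1.sub c2).norm.tendsto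
    exact c3.eventually (ge_mem_nhds hε)
  have := (isCompact_sphere (0 : W) 1).eventually_forall_of_forall_eventually
    (P := fun p y => ‖u p y - u p₀ y‖ ≤ ε ∧ ‖fderiv ℝ (u p) y - fderiv ℝ (u p₀) y‖ ≤ ε)
    (x₀ := p₀) fun y hy => (key h.jc y hy).and (key h1.jc y hy)
  exact this.mono fun p hp q hq => hp q (by simpa using hq)

end Pool.Agent.MP_2fc7fa_gt.N

end
end

section

/-! Two lines of the family with two common points have the same image. -/

open scoped ContDiff ComplexConjugate Topology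
open Set Complex Filter Metric

noncomputable section

namespace Pool.Agent.MP_2fc7fa_gt.N

variable {φ : UI → Fr} {U : UI × Jet → W → V}

lemma same0_H2 (hC : CStmt) (hF : FrFam φ) (hS : Std φ) (hG : Good φ U) (s : UI) (j j' : Jet)
    (h0 : U (s, j') (1, 0) = U (s, j) (1, 0)) (k : W)
    (h1 : fderiv ℝ (U (s, j')) (1, 0) (0, 1) = fderiv ℝ (U (s, j)) (1, 0) k) :
    ∃ G : W ≃L[ℂ] W, U (s, j') = U (s, j) ∘ G := by
  obtain ⟨hl, -, -⟩ := hG.2 (s, j)
  obtain ⟨-, -, hj'⟩ := hG.2 (s, j')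
  have hk : k.2 ≠ 0 := fun hk => by
    have e : k = k.1 • ((1, 0) : W) := by ext <;> simp [hk]
    rw [e, euler_H2 hl.c1 hl.hom e0_ne_H2, ← h0] at h1
    have h2 := j'.2.2 k.1
    have h3 : jet (U (s, j')) = j' := hj'
    rw [← h3] at h2
    exact h2 h1
  obtain ⟨g, hg⟩ := mk2_H2 (1, 0) k (by simpa [det2] using hk)
  obtain ⟨j'', hj''⟩ := hC φ U hF hS hG s j g
  have g0 : g (1, 0) = (1, 0) := by simp [hg]
  have g1 : g (0, 1) = k := by simp [hg]
  have e1 : jet (U (s, j'')) = j'' := (hG.2 (s, j'')).2.2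
  have e2 : jet (U (s, j')) = j' := hj'
  have e3 : j'' = j' := by
    apply Subtype.ext
    rw [← e1, ← e2, ← hj'', jet, jet, fd_comp_H2 hl.c1 g e0_ne_H2, Function.comp_apply, g0, g1,
      h0, h1]
  exact ⟨g, by rw [hj'', e3]⟩

lemma same_H2 (hC : CStmt) (hF : FrFam φ) (hS : Std φ) (hG : Good φ U) (s : UI) (j j' : Jet)
    {q r : W} (hq : q ≠ 0) (hr : r ≠ 0) (h0 : U (s, j) q = U (s, j') r)
    (h1 : ∀ h, ∃ k, fderiv ℝ (U (s, j')) r h = fderiv ℝ (U (s, j)) q k) :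
    ∃ G : W ≃L[ℂ] W, U (s, j') = U (s, j) ∘ G := by
  obtain ⟨g, hg⟩ := mk1_H2 q hq
  obtain ⟨g', hg'⟩ := mk1_H2 r hr
  obtain ⟨i, hi⟩ := hC φ U hF hS hG s j g
  obtain ⟨i', hi'⟩ := hC φ U hF hS hG s j' g'
  obtain ⟨k, hk⟩ := h1 (g' (0, 1))
  obtain ⟨G, hG'⟩ := same0_H2 hC hF hS hG s i i'
    (by rw [← hi, ← hi', Function.comp_apply, Function.comp_apply, hg, hg', h0]) (g.symm k)
    (by rw [← hi, ← hi', fd_comp_H2 (hG.2 (s, j)).1.c1 g e0_ne_H2,
      fd_comp_H2 (hG.2 (s, j')).1.c1 g' e0_ne_H2, hg, hg', hk, g.apply_symm_apply])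
  refine ⟨g'.symm.trans (G.trans g), funext fun z => ?_⟩
  have := congrFun hG' (g'.symm z)
  rw [← hi, ← hi'] at this
  simpa using this

lemma val_H2 (hG : Good φ U) (s : UI) (j : Jet) : U (s, j) (1, 0) = j.1.1 :=
  congrArg Prod.fst (hG.2 (s, j)).2.2

lemma der_H2 (hG : Good φ U) (s : UI) (j : Jet) : fderiv ℝ (U (s, j)) (1, 0) (0, 1) = j.1.2 :=
  congrArg Prod.snd (hG.2 (s, j)).2.2

lemma taub_H2 (hG : Good φ U) (s : UI) (j : Jet) (k : W) :
    (φ s).A j.1.1 (fderiv ℝ (U (s, j)) (1, 0) k) = k.1 • j.1.1 + k.2 • (φ s).A j.1.1 j.1.2 := by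
  have := tau_H2 (hG.2 (s, j)).1 k
  rwa [val_H2 hG, der_H2 hG] at this

/-- The jets `(x, B_t x v)`. -/
def jt_H2 (φ : UI → Fr) {x v : V} (hx : x ≠ 0) (hv : ∀ c : ℂ, v ≠ c • x) (t : UI) : Jet :=
  ⟨(x, (φ t).B x v), hx, fun c hc => hv c (by
    have := congrArg ((φ t).A x) hc
    rwa [(φ t).AB x hx, avert_H2 _ hx] at this)⟩

lemma jt_cont_H2 (hF : FrFam φ) {x v : V} (hx : x ≠ 0) (hv : ∀ c : ℂ, v ≠ c • x) :
    Continuous (jt_H2 φ hx hv) := by
  refine Continuous.subtype_mk (continuous_const.prodMk ?_) _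
  have h1 : ContinuousOn (fun q : UI × V => (φ q.1).B q.2) (univ ×ˢ {0}ᶜ) := (hF 0).1
  have h2 : Continuous fun t : UI => (φ t).B x :=
    h1.comp_continuous (f := fun t : UI => (t, x)) (by fun_prop) fun t => ⟨mem_univ _, hx⟩
  exact h2.clm_apply continuous_const

lemma main_H2 (hC : CStmt) (hP : GPersistStmt) (hT : TransStmt) (hL : LinStmt) (hF : FrFam φ)
    (hS : Std φ) (hG : Good φ U) {x v v' : V} (hx : x ≠ 0) (hv : ∀ c : ℂ, v ≠ c • x)
    (hv' : ∀ a b : ℂ, v' ≠ a • x + b • v) (hw : ∀ c : ℂ, v' ≠ c • x) (t : UI) :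
    OnlyAt (U (t, jt_H2 φ hx hv t)) (U (t, jt_H2 φ hx hw t)) := by
  set u : UI → W → V := fun t => U (t, jt_H2 φ hx hv t) with hu
  set w : UI → W → V := fun t => U (t, jt_H2 φ hx hw t) with hw'
  have fu : Fam {0}ᶜ 1 V u := hG.1.param (continuous_id.prodMk (jt_cont_H2 hF hx hv))
  have fw : Fam {0}ᶜ 1 V w := hG.1.param (continuous_id.prodMk (jt_cont_H2 hF hx hw))
  have lu : ∀ t, IsLine (φ t).J (u t) := fun t => (hG.2 (t, jt_H2 φ hx hv t)).1
  have lw : ∀ t, IsLine (φ t).J (w t) := fun t => (hG.2 (t, jt_H2 φ hx hw t)).1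
  have eu : ∀ t, IsEmb (u t) := fun t => (hG.2 (t, jt_H2 φ hx hv t)).2.1
  have ew : ∀ t, IsEmb (w t) := fun t => (hG.2 (t, jt_H2 φ hx hw t)).2.1
  have u0 : ∀ t, u t (1, 0) = x := fun t => val_H2 hG t _
  have w0 : ∀ t, w t (1, 0) = x := fun t => val_H2 hG t _
  have tu : ∀ t k, (φ t).A x (fderiv ℝ (u t) (1, 0) k) = k.1 • x + k.2 • v := fun t k => by
    have := taub_H2 hG t (jt_H2 φ hx hv t) k
    simp only [jt_H2] at this
    rwa [(φ t).AB x hx] at this
  have tw : ∀ t k, (φ t).A x (fderiv ℝ (w t) (1, 0) k) = k.1 • x + k.2 • v' := fun t k => by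
    have := taub_H2 hG t (jt_H2 φ hx hw t) k
    simp only [jt_H2] at this
    rwa [(φ t).AB x hx] at this
  have ind : ∀ a b c : ℂ, a • x + b • v = c • v' → b = 0 := fun a b c h => by
    by_cases hc : c = 0
    · by_contra hb
      refine hv (-(a / b)) ?_
      rw [hc, zero_smul] at h
      have : v = b⁻¹ • (b • v) := by rw [smul_smul, inv_mul_cancel₀ hb, one_smul]
      rw [this, eq_neg_of_add_eq_zero_right h, smul_neg, smul_smul, neg_smul, div_eq_inv_mul]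
    · exfalso
      refine hv' (c⁻¹ * a) (c⁻¹ * b) ?_
      rw [mul_smul, mul_smul, ← smul_add, h, smul_smul, inv_mul_cancel₀ hc, one_smul]
  let S : Set UI := {t | OnlyAt (u t) (w t)}
  have h1 : (1 : UI) ∈ S := by
    intro q r hq hr e
    have a1 := hL _ _ hS (lu 1)
    have a2 := hL _ _ hS (lw 1)
    have d1 : ∀ k, fderiv ℝ (u 1) (1, 0) k = u 1 k := fun k => by
      have : u 1 = fun q : W => q.1 • (jet (u 1)).1 + q.2 • (jet (u 1)).2 := funext a1
      let T : W →L[ℂ] V := (ContinuousLinearMap.fst ℂ ℂ ℂ).smulRight (jet (u 1)).1 +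
        (ContinuousLinearMap.snd ℂ ℂ ℂ).smulRight (jet (u 1)).2
      have h2 : HasFDerivAt (u 1) (T.restrictScalars ℝ) (1, 0) := by
        rw [this]
        exact (T.restrictScalars ℝ).hasFDerivAt
      rw [h2.fderiv, a1 k]
      rfl
    have d2 : ∀ k, fderiv ℝ (w 1) (1, 0) k = w 1 k := fun k => by
      have : w 1 = fun q : W => q.1 • (jet (w 1)).1 + q.2 • (jet (w 1)).2 := funext a2
      let T : W →L[ℂ] V := (ContinuousLinearMap.fst ℂ ℂ ℂ).smulRight (jet (w 1)).1 +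
        (ContinuousLinearMap.snd ℂ ℂ ℂ).smulRight (jet (w 1)).2
      have h2 : HasFDerivAt (w 1) (T.restrictScalars ℝ) (1, 0) := by
        rw [this]
        exact (T.restrictScalars ℝ).hasFDerivAt
      rw [h2.fderiv, a2 k]
      rfl
    have b1 := tu 1 q
    have b2 := tw 1 r
    rw [d1, e] at b1
    rw [d2, b1] at b2
    refine ind (q.1 - r.1) q.2 r.2 ?_
    rw [sub_smul]
    linear_combination (exp := 1) b2
  have hop : IsOpen S := by
    rw [isOpen_iff_mem_nhds]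
    intro t ht
    obtain ⟨ε, hε, h⟩ := hT (u t) (w t) ⟨(lu t).c1, (lu t).hom⟩ ⟨(lw t).c1, (lw t).hom⟩
      (lu t).ne (lw t).ne (eu t) (ew t) ((u0 t).trans (w0 t).symm) ht (fun h k e => by
        have b1 := tu t (0, h)
        have b2 := tw t k
        rw [e, b2] at b1
        refine ind (-k.1) h k.2 ?_
        simp only [zero_smul, zero_add] at b1
        rw [neg_smul, ← b1]
        abel)
    filter_upwards [near_H2 fu t hε, near_H2 fw t hε] with t' n1 n2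
    exact h _ _ ⟨(lu t').c1, (lu t').hom⟩ ⟨(lw t').c1, (lw t').hom⟩ n1 n2
      ((u0 t').trans (w0 t').symm)
  have hcl : IsClosed S := by
    rw [← isOpen_compl_iff, isOpen_iff_mem_nhds]
    intro t ht
    simp only [S, OnlyAt, mem_compl_iff, mem_ofPred_eq, not_forall] at ht
    obtain ⟨q, r, hq, hr, e, hq2⟩ := ht
    obtain ⟨δ, hδ, htan⟩ := tang_H2 (diff_H2 (lu t).c1 hq).hasFDerivAt ((eu t).imm q hq)
    have hq2' : 0 < ‖q.2‖ := norm_pos_iff.2 hq2
    have hr' : 0 < ‖r‖ := norm_pos_iff.2 hr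
    rcases hP (φ t) (u t) (w t) q r (lu t) (lw t) hq hr e ((eu t).imm q hq)
      (min δ (min ‖q.2‖ ‖r‖)) (lt_min hδ (lt_min hq2' hr')) with h | ⟨-, ε, hε, h⟩
    · exfalso
      have h2 := htan (w t) _ r (diff_H2 (lw t).c1 hr).hasFDerivAt e
        (h.mono fun r' hr' => image_mono (ball_subset_ball (min_le_left _ _)) hr')
      obtain ⟨G, hG'⟩ := same_H2 hC hF hS hG t _ _ hq hr e h2
      have hG'' : w t = u t ∘ G := hG'
      have g0 : G (1, 0) = (1, 0) := by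
        refine (eu t).inj (fun h0 => e0_ne_H2 (by simpa using h0)) e0_ne_H2 ?_
        rw [u0, ← w0 t, hG'']
        rfl
      have b2 := tw t (0, 1)
      rw [hG'', fd_comp_H2 (lu t).c1 G e0_ne_H2, g0, tu] at b2
      refine hv' (G (0, 1)).1 (G (0, 1)).2 ?_
      simpa using b2.symm
    · filter_upwards [near_H2 fu t hε, near_H2 fw t hε] with t' n1 n2 ht'
      obtain ⟨q', hq', r', hr'', e'⟩ := h _ _ ⟨(lu t').c1, (lu t').hom⟩ ⟨(lw t').c1, (lw t').hom⟩
        n1 n2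
      rw [mem_ball, dist_eq_norm, lt_min_iff, lt_min_iff] at hq' hr''
      have h3 : q'.2 ≠ 0 := fun h0 => by
        have := (norm_snd_le (q' - q)).trans_lt hq'.2.1
        simp [h0] at this
      have h4 : r' ≠ 0 := fun h0 => by
        have := hr''.2.2
        simp [h0] at this
      exact h3 (ht' q' r' (fun h0 => h3 (by simp [h0])) h4 e')
  have := IsClopen.eq_univ ⟨hcl, hop⟩ ⟨1, h1⟩
  exact (this ▸ mem_univ t : t ∈ S)

theorem h2 (hC : CStmt) (hP : GPersistStmt) (hT : TransStmt) (hL : LinStmt) : H2Stmt := by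
  intro φ U hF hS hG s j j' q q' r r' hq hq' e e'
  have hr : r ≠ 0 := fun h0 => (hG.2 (s, j)).1.ne q hq (by
    rw [e, h0, zero_H2 (hG.2 (s, j')).1.hom])
  have hr' : r' ≠ 0 := fun h0 => (hG.2 (s, j)).1.ne q' hq' (by
    rw [e', h0, zero_H2 (hG.2 (s, j')).1.hom])
  obtain ⟨g, hg⟩ := mk1_H2 q hq
  obtain ⟨g', hg'⟩ := mk1_H2 r hr
  obtain ⟨i, hi⟩ := hC φ U hF hS hG s j g
  obtain ⟨i', hi'⟩ := hC φ U hF hS hG s j' g'
  have h0 : U (s, i') (1, 0) = U (s, i) (1, 0) := by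
    rw [← hi, ← hi', Function.comp_apply, Function.comp_apply, hg, hg', e]
  have hx : i.1.1 ≠ 0 := i.2.1
  have hxx : i'.1.1 = i.1.1 := by rw [← val_H2 hG s, ← val_H2 hG s, h0]
  by_cases hsp : ∃ a b : ℂ, (φ s).A i.1.1 i'.1.2 = a • i.1.1 + b • (φ s).A i.1.1 i.1.2
  · right
    obtain ⟨a, b, hab⟩ := hsp
    obtain ⟨G, hG'⟩ := same0_H2 hC hF hS hG s i i' h0 (a, b) (by
      rw [der_H2 hG, ← (φ s).BA _ hx i'.1.2, hab, ← taub_H2 hG s i (a, b), (φ s).BA _ hx])
    have r1 : range (U (s, j)) = range (U (s, i)) := by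
      rw [← hi, g.surjective.range_comp]
    have r2 : range (U (s, j')) = range (U (s, i')) := by
      rw [← hi', g'.surjective.range_comp]
    rw [r1, r2, hG', G.surjective.range_comp]
  · left
    have hv : ∀ c : ℂ, (φ s).A i.1.1 i.1.2 ≠ c • i.1.1 := fun c hc => i.2.2 c (by
      rw [← (φ s).BA _ hx i.1.2, hc, (φ s).vert _ hx])
    have hw : ∀ c : ℂ, (φ s).A i.1.1 i'.1.2 ≠ c • i.1.1 := fun c hc => hsp ⟨c, 0, by simp [hc]⟩
    have hm := main_H2 hC hP hT hL hF hS hG hx hv (fun a b h => hsp ⟨a, b, h⟩) hw s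
    have k1 : jt_H2 φ hx hv s = i := Subtype.ext (Prod.ext rfl ((φ s).BA _ hx _))
    have k2 : jt_H2 φ hx hw s = i' := Subtype.ext (Prod.ext hxx.symm ((φ s).BA _ hx _))
    rw [k1, k2, ← hi, ← hi'] at hm
    have h3 := hm (g.symm q') (g'.symm r') (fun h0 => hq' (by simpa using h0))
      (fun h0 => hr' (by simpa using h0)) (by simpa using e')
    refine ⟨(g.symm q').1, ?_⟩
    have : g.symm q' = (g.symm q').1 • ((1, 0) : W) := by ext <;> simp [h3]
    rw [← hg, ← map_smul, ← this, g.apply_symm_apply]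

end Pool.Agent.MP_2fc7fa_gt.N

end
end
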