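import Pool.Agent.Mg.F2fc7fa.G9cb2cd

section

/-! Uniform bounds and moduli of continuity for families of functions on discs. -/

open scoped ContDiff Topology
open Set Complex Filter Metric MeasureTheory

noncomputable section

namespace Pool.Agent.MP_2fc7fa_gt.N

/-- Uniformly bounded, with a uniform modulus of continuity `w`. -/
def UB_Est {T E : Type} [NormedAddCommGroup E] (w : ℝ → ℝ) (S : T → Set ℂ) (f : T → ℂ → E) :
    Prop :=
  ∃ K : ℝ, 0 ≤ K ∧ ∀ t, (∀ z ∈ S t, ‖f t z‖ ≤ K) ∧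
    ∀ z ∈ S t, ∀ z' ∈ S t, ‖f t z - f t z'‖ ≤ K * w ‖z - z'‖

variable {T E F : Type} [NormedAddCommGroup E] [NormedAddCommGroup F] {w : ℝ → ℝ}
  {S S' : T → Set ℂ}

theorem ub_mk_Est {f : T → ℂ → E} (hw : ∀ d, 0 ≤ d → 0 ≤ w d) (K K' : ℝ) (hK : 0 ≤ K)
    (hK' : 0 ≤ K') (h : ∀ t, ∀ z ∈ S t, ‖f t z‖ ≤ K)
    (h' : ∀ t, ∀ z ∈ S t, ∀ z' ∈ S t, ‖f t z - f t z'‖ ≤ K' * w ‖z - z'‖) : UB_Est w S f :=
  ⟨K + K', add_nonneg hK hK', fun t => ⟨fun z hz => (h t z hz).trans (le_add_of_nonneg_right hK'),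
    fun z hz z' hz' => (h' t z hz z' hz').trans
      (mul_le_mul_of_nonneg_right (le_add_of_nonneg_left hK) (hw _ (norm_nonneg _)))⟩⟩

theorem UB_Est.mono {f : T → ℂ → E} (h : UB_Est w S f) (hS : ∀ t, S' t ⊆ S t) :
    UB_Est w S' f := by
  obtain ⟨K, h0, h⟩ := h
  exact ⟨K, h0, fun t => ⟨fun z hz => (h t).1 z (hS t hz),
    fun z hz z' hz' => (h t).2 z (hS t hz) z' (hS t hz')⟩⟩

theorem UB_Est.congr {f g : T → ℂ → E} (h : UB_Est w S f) (e : ∀ t, ∀ z ∈ S t, g t z = f t z) :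
    UB_Est w S g := by
  obtain ⟨K, h0, h⟩ := h
  refine ⟨K, h0, fun t => ⟨fun z hz => ?_, fun z hz z' hz' => ?_⟩⟩
  · rw [e t z hz]
    exact (h t).1 z hz
  · rw [e t z hz, e t z' hz']
    exact (h t).2 z hz z' hz'

theorem UB_Est.add {f g : T → ℂ → E} (h : UB_Est w S f) (h' : UB_Est w S g) :
    UB_Est w S fun t z => f t z + g t z := by
  obtain ⟨K, h0, h⟩ := h
  obtain ⟨K', h0', h'⟩ := h'
  refine ⟨K + K', add_nonneg h0 h0', fun t => ⟨fun z hz =>
    (norm_add_le _ _).trans (add_le_add ((h t).1 z hz) ((h' t).1 z hz)), fun z hz z' hz' => ?_⟩⟩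
  rw [add_sub_add_comm, add_mul]
  exact (norm_add_le _ _).trans (add_le_add ((h t).2 z hz z' hz') ((h' t).2 z hz z' hz'))

theorem UB_Est.sqrt {f : T → ℂ → E} (h : UB_Est id S f) : UB_Est Real.sqrt S f := by
  obtain ⟨K, h0, h⟩ := h
  refine ub_mk_Est (fun d _ => Real.sqrt_nonneg d) K (2 * K) h0 (by positivity)
    (fun t => (h t).1) fun t z hz z' hz' => ?_
  have hs := Real.sqrt_nonneg ‖z - z'‖
  by_cases hd : ‖z - z'‖ ≤ 1
  · have h1 : ‖z - z'‖ ≤ √‖z - z'‖ := by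
      refine Real.le_sqrt_of_sq_le ?_
      nlinarith [norm_nonneg (z - z')]
    have h2 := (h t).2 z hz z' hz'
    rw [id] at h2
    nlinarith
  · have h1 : 1 ≤ √‖z - z'‖ := Real.one_le_sqrt.2 (not_le.1 hd).le
    have h2 := norm_sub_le (f t z) (f t z')
    have h3 := (h t).1 z hz
    have h4 := (h t).1 z' hz'
    nlinarith

section
variable [NormedSpace ℝ E] [NormedSpace ℝ F]

theorem UB_Est.clm {f : T → ℂ → E} (h : UB_Est w S f) (L : E →L[ℝ] F) :
    UB_Est w S fun t z => L (f t z) := by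
  obtain ⟨K, h0, h⟩ := h
  refine ⟨‖L‖ * K, by positivity, fun t => ⟨fun z hz => L.le_of_opNorm_le_of_le le_rfl
    ((h t).1 z hz), fun z hz z' hz' => ?_⟩⟩
  rw [← map_sub, mul_assoc]
  exact L.le_of_opNorm_le_of_le le_rfl ((h t).2 z hz z' hz')

theorem UB_Est.app {f : T → ℂ → E →L[ℝ] F} {g : T → ℂ → E} (h : UB_Est w S f)
    (h' : UB_Est w S g) (hw : ∀ d, 0 ≤ d → 0 ≤ w d) : UB_Est w S fun t z => f t z (g t z) := by
  obtain ⟨K, h0, h⟩ := h
  obtain ⟨K', h0', h'⟩ := h'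
  refine ub_mk_Est hw (K * K') (2 * (K * K')) (by positivity) (by positivity)
    (fun t z hz => (f t z).le_of_opNorm_le_of_le ((h t).1 z hz) ((h' t).1 z hz))
    fun t z hz z' hz' => ?_
  have e : f t z (g t z) - f t z' (g t z') = f t z (g t z - g t z') + (f t z - f t z') (g t z') := by
    rw [map_sub, sub_apply]
    abel
  have h1 := (f t z).le_of_opNorm_le_of_le ((h t).1 z hz) ((h' t).2 z hz z' hz')
  have h2 := (f t z - f t z').le_of_opNorm_le_of_le ((h t).2 z hz z' hz') ((h' t).1 z' hz')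
  rw [e]
  refine (norm_add_le _ _).trans ?_
  linarith

theorem ub_deriv_Est {f : T → ℂ → E} {c : T → ℂ} {R : ℝ} (K K' : ℝ) (hK : 0 ≤ K) (hK' : 0 ≤ K')
    (h : ∀ t, ∀ z ∈ ball (c t) R,
      ‖f t z‖ ≤ K ∧ DifferentiableAt ℝ (f t) z ∧ ‖fderiv ℝ (f t) z‖ ≤ K') :
    UB_Est id (fun t => ball (c t) R) f :=
  ub_mk_Est (fun _ hd => hd) K K' hK hK' (fun t z hz => (h t z hz).1) fun t _ hz _ hz' =>
    (convex_ball (c t) R).norm_image_sub_le_of_norm_fderiv_le (fun z hz => (h t z hz).2.1)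
      (fun z hz => (h t z hz).2.2) hz' hz

end

theorem ub_hol_Est [NormedSpace ℂ E] {f : T → ℂ → E} {c : T → ℂ} {R R' : ℝ} (hR : R' < R) (K : ℝ)
    (hK : 0 ≤ K) (hd : ∀ t, DifferentiableOn ℂ (f t) (ball (c t) R))
    (h : ∀ t, ∀ z ∈ ball (c t) R, ‖f t z‖ ≤ K) : UB_Est id (fun t => ball (c t) R') f := by
  have hδ : 0 < R - R' := sub_pos.2 hR
  have hb : ∀ t, ∀ z ∈ ball (c t) R, ∀ z' ∈ ball (c t) R, ‖f t z - f t z'‖ ≤ 2 * K :=
    fun t z hz z' hz' => (norm_sub_le _ _).trans (by linarith [h t z hz, h t z' hz'])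
  refine ub_mk_Est (fun _ hd => hd) K (2 * K / (R - R')) hK (by positivity)
    (fun t z hz => h t z (ball_subset_ball hR.le hz)) fun t z hz z' hz' => ?_
  by_cases hzz : ‖z - z'‖ < R - R'
  · have hs : ball z' (R - R') ⊆ ball (c t) R :=
      ball_subset_ball' (by linarith [mem_ball.1 hz'])
    have h1 := dist_le_div_mul_dist_of_mapsTo_ball (R₂ := 2 * K) ((hd t).mono hs)
      (fun y hy => mem_closedBall_iff_norm.2 (hb t y (hs hy) z' (ball_subset_ball hR.le hz')))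
      (mem_ball_iff_norm.2 hzz)
    rwa [dist_eq_norm, dist_eq_norm] at h1
  · refine (hb t z (ball_subset_ball hR.le hz) z' (ball_subset_ball hR.le hz')).trans ?_
    rw [id, div_mul_eq_mul_div, le_div_iff₀ hδ]
    exact mul_le_mul_of_nonneg_left (not_lt.1 hzz) (by positivity)

theorem hol_cont_Est {h : ℂ → E} {K : ℝ} (hh : Hol K h univ) : Continuous h := by
  refine continuous_iff_continuousAt.2 fun z => tendsto_iff_norm_sub_tendsto_zero.2 ?_
  have h1 : Tendsto (fun y : ℂ => K * √‖y - z‖) (𝓝 z) (𝓝 (K * √‖z - z‖)) :=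
    Continuous.tendsto (by fun_prop) z
  rw [sub_self, norm_zero, Real.sqrt_zero, mul_zero] at h1
  exact squeeze_zero (fun _ => norm_nonneg _) (fun y => hh y trivial z trivial) h1

theorem cut_Est (c : T → ℂ) {R R' : ℝ} (hR : R' < R) : ∃ χ : T → ℂ → ℝ,
    UB_Est Real.sqrt (fun _ => univ) χ ∧ (∀ t, ∀ z ∈ ball (c t) R', χ t z = 1) ∧
      ∀ t z, z ∉ ball (c t) R → χ t z = 0 := by
  have hδ : 0 < R - R' := sub_pos.2 hR
  refine ⟨fun t z => max (min ((R - ‖z - c t‖) / (R - R')) 1) 0, UB_Est.sqrt ?_,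
    fun t z hz => ?_, fun t z hz => ?_⟩
  · refine ub_mk_Est (fun _ hd => hd) 1 (1 / (R - R')) zero_le_one (by positivity)
      (fun t z _ => ?_) fun t z _ z' _ => ?_
    · rw [Real.norm_of_nonneg (le_max_right _ _)]
      exact max_le (min_le_right _ _) zero_le_one
    · refine (abs_max_sub_max_le_abs _ _ _).trans ((abs_min_sub_min_le_max _ _ _ _).trans ?_)
      rw [sub_self, abs_zero, max_eq_left (abs_nonneg _), ← sub_div, abs_div, abs_of_pos hδ, id,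
        one_div_mul_eq_div, sub_sub_sub_cancel_left, abs_sub_comm]
      refine div_le_div_of_nonneg_right ((abs_norm_sub_norm_le _ _).trans_eq ?_) hδ.le
      rw [sub_sub_sub_cancel_right]
  · have h1 : 1 ≤ (R - ‖z - c t‖) / (R - R') := by
      rw [le_div_iff₀ hδ]
      linarith [mem_ball_iff_norm.1 hz]
    simp only [min_eq_right h1, max_eq_left zero_le_one]
  · have h1 : (R - ‖z - c t‖) / (R - R') ≤ 0 :=
      div_nonpos_of_nonpos_of_nonneg (sub_nonpos.2 (not_lt.1 (mt mem_ball_iff_norm.2 hz))) hδ.le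
    exact max_eq_right ((min_le_left _ _).trans h1)

theorem UB_Est.cut [NormedSpace ℝ E] {f : T → ℂ → E} {χ : T → ℂ → ℝ} (h : UB_Est w S f)
    (hχ : UB_Est w (fun _ => univ) χ) (h0 : ∀ t z, z ∉ S t → χ t z = 0)
    (hw : ∀ d, 0 ≤ d → 0 ≤ w d) : UB_Est w (fun _ => univ) fun t z => χ t z • f t z := by
  obtain ⟨K, k0, hK⟩ := ((hχ.mono fun t => subset_univ (S t)).clm
    (ContinuousLinearMap.lsmul ℝ ℝ : ℝ →L[ℝ] E →L[ℝ] E)).app h hw
  obtain ⟨K1, k1, hK1⟩ := h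
  obtain ⟨K2, k2, hK2⟩ := hχ
  have key : ∀ t, ∀ z ∈ S t, ∀ z', z' ∉ S t →
      ‖χ t z • f t z - χ t z' • f t z'‖ ≤ (K + K2 * K1) * w ‖z - z'‖ := by
    intro t z hz z' hz'
    have h1 := (hK2 t).2 z trivial z' trivial
    have h2 := hw _ (norm_nonneg (z - z'))
    rw [h0 t z' hz', sub_zero] at h1
    rw [h0 t z' hz', zero_smul, sub_zero, norm_smul]
    calc _ ≤ K2 * w ‖z - z'‖ * K1 := mul_le_mul h1 ((hK1 t).1 z hz) (norm_nonneg _) (by positivity)
      _ ≤ _ := by nlinarith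
  refine ub_mk_Est hw K (K + K2 * K1) k0 (by positivity) (fun t z _ => ?_) fun t z _ z' _ => ?_
  · by_cases hz : z ∈ S t
    · exact (hK t).1 z hz
    · rwa [h0 t z hz, zero_smul, norm_zero]
  · have h2 := hw _ (norm_nonneg (z - z'))
    by_cases hz : z ∈ S t <;> by_cases hz' : z' ∈ S t
    · exact ((hK t).2 z hz z' hz').trans
        (mul_le_mul_of_nonneg_right (le_add_of_nonneg_right (by positivity)) h2)
    · exact key t z hz z' hz'
    · rw [norm_sub_rev, norm_sub_rev z]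
      exact key t z' hz' z hz
    · rw [h0 t z hz, h0 t z' hz', zero_smul, zero_smul, sub_zero, norm_zero]
      positivity

section
variable [NormedSpace ℂ E] [CompleteSpace E]

theorem stepA_Est (h1 : T1Stmt) (h2 : T2Stmt) {τ Γ : T → ℂ → E} {c : T → ℂ} {R R' : ℝ}
    (h0 : 0 < R) (hR : R' < R) (K K' : ℝ) (hK : 0 ≤ K) (hK' : 0 ≤ K')
    (hτ : ∀ t, ContDiffOn ℝ 1 (τ t) (ball (c t) R)) (hΓ : ∀ t, ContinuousOn (Γ t) (ball (c t) R))
    (h : ∀ t, ∀ z ∈ ball (c t) R, ‖τ t z‖ ≤ K ∧ ‖Γ t z‖ ≤ K' ∧ dbar (τ t) z = Γ t z) :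
    UB_Est Real.sqrt (fun t => ball (c t) R') τ := by
  obtain ⟨C, c0, hC⟩ := h1
  have hb : ∀ t, Bdd ((ball (c t) R).indicator (Γ t)) (c t) R K' := fun t =>
    ⟨(aestronglyMeasurable_indicator_iff measurableSet_ball).2
      ((hΓ t).aestronglyMeasurable measurableSet_ball), fun z => by
        by_cases hz : z ∈ ball (c t) R
        · rw [indicator_of_mem hz]
          exact (h t z hz).2.1
        · rwa [indicator_of_notMem hz, norm_zero],
      fun z hz => indicator_of_notMem (fun hz' => (mem_ball_iff_norm.1 hz').not_ge hz) _⟩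
  have a1 : UB_Est Real.sqrt (fun t => ball (c t) R')
      fun t => cT ((ball (c t) R).indicator (Γ t)) :=
    ub_mk_Est (fun d _ => Real.sqrt_nonneg d) (C * R * K') (C * √R * K') (by positivity)
      (by positivity) (fun t z _ => (hC E _ _ R K' h0 (hb t)).1 z)
      fun t z _ z' _ => (hC E _ _ R K' h0 (hb t)).2 z trivial z' trivial
  have a2 := ub_hol_Est (f := fun t z => τ t z - cT ((ball (c t) R).indicator (Γ t)) z) hR
    (K + C * R * K') (by positivity)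
    (fun t => h2 E _ _ _ R K' _ (hb t) isOpen_ball (hτ t) fun z hz => by
      rw [indicator_of_mem hz, (h t z hz).2.2])
    fun t z hz => (norm_sub_le _ _).trans (add_le_add (h t z hz).1 ((hC E _ _ R K' h0 (hb t)).1 z))
  exact (a2.sqrt.add a1).congr fun t z _ => (sub_add_cancel _ _).symm

theorem stepB_Est (h1 : T1Stmt) (h2 : T2Stmt) (h3 : T3Stmt) {τ Γ : T → ℂ → E} {c : T → ℂ}
    {R R' : ℝ} (h0 : 0 < R) (hR : R' < R) (K : ℝ) (hK : 0 ≤ K)
    (hτ : ∀ t, ContDiffOn ℝ 1 (τ t) (ball (c t) R))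
    (hΓ : UB_Est Real.sqrt (fun t => ball (c t) R) Γ)
    (h : ∀ t, ∀ z ∈ ball (c t) R, ‖τ t z‖ ≤ K ∧ dbar (τ t) z = Γ t z) :
    UB_Est id (fun t => ball (c t) R') τ := by
  obtain ⟨C, c0, hC⟩ := h1
  obtain ⟨C', c0', hC'⟩ := h3 R h0
  have r1 : (R + R') / 2 < R := by linarith
  obtain ⟨χ, x1, x2, x3⟩ := cut_Est c r1
  obtain ⟨K', hK', hb'⟩ := hΓ.cut x1 x3 fun d _ => Real.sqrt_nonneg d
  have hh : ∀ t, Hol K' (fun z => χ t z • Γ t z) univ := fun t => (hb' t).2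
  have hb : ∀ t, Bdd (fun z => χ t z • Γ t z) (c t) R K' := fun t =>
    ⟨(hol_cont_Est (hh t)).aestronglyMeasurable, fun z => (hb' t).1 z trivial, fun z hz => by
      beta_reduce
      rw [x3 t z fun hz' => (mem_ball_iff_norm.1 hz').not_ge hz, zero_smul]⟩
  have a1 : UB_Est id (fun t => ball (c t) R') fun t => cT fun z => χ t z • Γ t z :=
    ub_deriv_Est (C * R * K') (C' * (K' + K')) (by positivity) (by positivity) fun t z _ =>
      ⟨(hC E _ _ R K' h0 (hb t)).1 z,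
        (hC' E _ _ K' K' (hb t) hK' (hh t)).1.differentiable one_ne_zero z,
        (hC' E _ _ K' K' (hb t) hK' (hh t)).2.2.1 z⟩
  have a2 := ub_hol_Est (f := fun t z => τ t z - cT (fun z => χ t z • Γ t z) z)
    (show R' < (R + R') / 2 by linarith) (K + C * R * K') (by positivity)
    (fun t => h2 E _ _ _ R K' _ (hb t) isOpen_ball ((hτ t).mono (ball_subset_ball r1.le))
      fun z hz => by rw [x2 t z hz, one_smul, (h t z (ball_subset_ball r1.le hz)).2])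
    fun t z hz => (norm_sub_le _ _).trans
      (add_le_add (h t z (ball_subset_ball r1.le hz)).1 ((hC E _ _ R K' h0 (hb t)).1 z))
  exact (a2.add a1).congr fun t z _ => (sub_add_cancel _ _).symm

end

end Pool.Agent.MP_2fc7fa_gt.N

end
end

section

/-! The a priori Lipschitz bound for the derivative of a holomorphic curve. -/

open scoped ContDiff Topology
open Set Complex Filter Metric MeasureTheory

set_option maxSynthPendingDepth 3

noncomputable section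

namespace Pool.Agent.MP_2fc7fa_gt.N

section
variable {T E : Type} [NormedAddCommGroup E] [NormedSpace ℂ E]

theorem dbar_Est {A : E → E →L[ℝ] E} {u : ℂ → E} {z : ℂ} (hA : DifferentiableAt ℝ A (u z))
    (hu : ContDiffAt ℝ 2 u z)
    (hc : ∀ᶠ y in 𝓝 z, A (u y) (fderiv ℝ u y I) = I • A (u y) (fderiv ℝ u y 1)) :
    dbar (fun y => A (u y) (fderiv ℝ u y 1)) z =
      (-I / 2) • (fderiv ℝ A (u z) (fderiv ℝ u z 1) (fderiv ℝ u z I) -
        fderiv ℝ A (u z) (fderiv ℝ u z I) (fderiv ℝ u z 1)) := by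
  have hD : DifferentiableAt ℝ (fderiv ℝ u) z :=
    (hu.fderiv_right (m := 1) (by norm_num)).differentiableAt one_ne_zero
  have hu1 : DifferentiableAt ℝ u z := hu.differentiableAt two_ne_zero
  have key := fun v : ℂ => (hA.hasFDerivAt.comp z hu1.hasFDerivAt).clm_apply
    (hD.hasFDerivAt.clm_apply (hasFDerivAt_const v z))
  have key2 : ∀ v h : ℂ, fderiv ℝ (fun y => A (u y) (fderiv ℝ u y v)) z h =
      A (u z) (fderiv ℝ (fderiv ℝ u) z h v) +
        fderiv ℝ A (u z) (fderiv ℝ u z h) (fderiv ℝ u z v) := fun v h => by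
    have h1 := DFunLike.congr_fun (key v).fderiv h
    simpa using h1
  have e1 : fderiv ℝ (fun y => A (u y) (fderiv ℝ u y I)) z =
      I • fderiv ℝ (fun y => A (u y) (fderiv ℝ u y 1)) z := by
    rw [EventuallyEq.fderiv_eq hc]
    exact ((key 1).differentiableAt.hasFDerivAt.const_smul I).fderiv
  have e2 := DFunLike.congr_fun e1 1
  rw [key2, smul_apply, hu.isSymmSndFDerivAt (by simp) 1 I] at e2
  rw [dbar, key2 1 I, eq_sub_of_add_eq' e2]
  match_scalars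
  · linear_combination (1 / 2) * I_mul_I
  · ring
  · ring

theorem comp_Est {F : Type} [NormedAddCommGroup F] [NormedSpace ℝ F] {G : T → E → F}
    {u : T → ℂ → E} {c : T → ℂ} {R M L : ℝ} (hM : 0 ≤ M) (hL : 0 ≤ L)
    (h : ∀ t, ∀ z ∈ ball (c t) R, DifferentiableAt ℝ (u t) z ∧ ‖fderiv ℝ (u t) z‖ ≤ M ∧
      DifferentiableAt ℝ (G t) (u t z) ∧ ‖G t (u t z)‖ ≤ L ∧ ‖fderiv ℝ (G t) (u t z)‖ ≤ L) :
    UB_Est id (fun t => ball (c t) R) fun t z => G t (u t z) := by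
  refine ub_deriv_Est L (L * M) hL (by positivity) fun t z hz => ?_
  obtain ⟨h1, h2, h3, h4, h5⟩ := h t z hz
  refine ⟨h4, h3.comp z h1, ?_⟩
  rw [show fderiv ℝ (fun z => G t (u t z)) z = _ from (h3.hasFDerivAt.comp z h1.hasFDerivAt).fderiv]
  exact (ContinuousLinearMap.opNorm_comp_le _ _).trans (mul_le_mul h5 h2 (norm_nonneg _) hL)

theorem fderiv_eq_Est (D : ℂ →L[ℝ] E) :
    D = ContinuousLinearMap.smulRightL ℝ ℂ E reCLM (D 1) +
      ContinuousLinearMap.smulRightL ℝ ℂ E imCLM (D I) := by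
  refine ContinuousLinearMap.ext fun h => ?_
  have e : h = h.re • (1 : ℂ) + h.im • I := by simp
  conv_lhs => rw [e, map_add, map_smul, map_smul]
  rfl

theorem main_Est [FiniteDimensional ℂ E] (h1 : T1Stmt) (h2 : T2Stmt) (h3 : T3Stmt) (hR : RegStmt)
    {Ω : Set E} (hΩ : IsOpen Ω) (A B : T → E → E →L[ℝ] E) (u : T → ℂ → E) (c : T → ℂ)
    {r M L : ℝ} (hr : 0 < r) (hM : 0 ≤ M) (hL : 0 ≤ L) (hA : ∀ t, ContDiffOn ℝ ∞ (A t) Ω)
    (hB : ∀ t, ContDiffOn ℝ ∞ (B t) Ω) (BA : ∀ t, ∀ x ∈ Ω, ∀ v, B t x (A t x v) = v)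
    (hu : ∀ t, ContDiffOn ℝ 1 (u t) (ball (c t) (2 * r)))
    (hm : ∀ t, MapsTo (u t) (ball (c t) (2 * r)) Ω)
    (hc : ∀ t, CR (A t) (u t) (ball (c t) (2 * r)))
    (hb : ∀ t, ∀ z ∈ ball (c t) (2 * r), ‖fderiv ℝ (u t) z‖ ≤ M ∧ ‖A t (u t z)‖ ≤ L ∧
      ‖fderiv ℝ (A t) (u t z)‖ ≤ L ∧ ‖fderiv ℝ (fderiv ℝ (A t)) (u t z)‖ ≤ L ∧
      ‖B t (u t z)‖ ≤ L ∧ ‖fderiv ℝ (B t) (u t z)‖ ≤ L) :
    UB_Est id (fun t => ball (c t) r) fun t => fderiv ℝ (u t) := by
  have : CompleteSpace E := FiniteDimensional.complete ℂ E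
  have hs : ∀ t, ContDiffOn ℝ ∞ (u t) (ball (c t) (2 * r)) := fun t =>
    hR E (A t) Ω (u t) _ ⟨hΩ, hA t, fun x hx => Function.LeftInverse.injective (BA t x hx)⟩
      isOpen_ball (hu t) (hm t) (hc t)
  have su : ∀ t, ∀ z ∈ ball (c t) (2 * r), ContDiffAt ℝ ∞ (u t) z := fun t z hz =>
    (hs t).contDiffAt (isOpen_ball.mem_nhds hz)
  have sD : ∀ t, ∀ z ∈ ball (c t) (2 * r), ContDiffAt ℝ ∞ (fderiv ℝ (u t)) z := fun t z hz =>
    (su t z hz).fderiv_right (by simp)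
  have sA : ∀ t, ∀ z ∈ ball (c t) (2 * r), ContDiffAt ℝ ∞ (A t) (u t z) := fun t z hz =>
    (hA t).contDiffAt (hΩ.mem_nhds (hm t hz))
  have sB : ∀ t, ∀ z ∈ ball (c t) (2 * r), ContDiffAt ℝ ∞ (B t) (u t z) := fun t z hz =>
    (hB t).contDiffAt (hΩ.mem_nhds (hm t hz))
  have sA' : ∀ t, ∀ z ∈ ball (c t) (2 * r), ContDiffAt ℝ ∞ (fderiv ℝ (A t)) (u t z) :=
    fun t z hz => (sA t z hz).fderiv_right (by simp)
  have uB : UB_Est id (fun t => ball (c t) (2 * r)) fun t z => B t (u t z) :=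
    comp_Est hM hL fun t z hz => ⟨(su t z hz).differentiableAt (by simp), (hb t z hz).1,
      (sB t z hz).differentiableAt (by simp), (hb t z hz).2.2.2.2⟩
  have uA : UB_Est id (fun t => ball (c t) (2 * r)) fun t z => fderiv ℝ (A t) (u t z) :=
    comp_Est hM hL fun t z hz => ⟨(su t z hz).differentiableAt (by simp), (hb t z hz).1,
      (sA' t z hz).differentiableAt (by simp), (hb t z hz).2.2.1, (hb t z hz).2.2.2.1⟩
  obtain ⟨τ, hτ⟩ : ∃ τ : T → ℂ → E, τ = fun t z => A t (u t z) (fderiv ℝ (u t) z 1) := ⟨_, rfl⟩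
  obtain ⟨Γ, hΓ⟩ : ∃ Γ : T → ℂ → E, Γ = fun t z => (-I / 2) •
      (fderiv ℝ (A t) (u t z) (fderiv ℝ (u t) z 1) (fderiv ℝ (u t) z I) -
        fderiv ℝ (A t) (u t z) (fderiv ℝ (u t) z I) (fderiv ℝ (u t) z 1)) := ⟨_, rfl⟩
  have n1 : ∀ t, ∀ z ∈ ball (c t) (2 * r), ∀ v : ℂ, ‖v‖ = 1 → ‖fderiv ℝ (u t) z v‖ ≤ M :=
    fun t z hz v hv => by
      simpa [hv] using (fderiv ℝ (u t) z).le_of_opNorm_le (hb t z hz).1 v
  have τ1 : ∀ t, ContDiffOn ℝ 1 (τ t) (ball (c t) (2 * r)) := fun t z hz => by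
    rw [hτ]
    exact ((((sA t z hz).comp z (su t z hz)).clm_apply
      ((sD t z hz).clm_apply contDiffAt_const)).of_le (by simp)).contDiffWithinAt
  have τ2 : ∀ t, ∀ z ∈ ball (c t) (2 * r), ‖τ t z‖ ≤ L * M := fun t z hz => by
    rw [hτ]
    exact (A t (u t z)).le_of_opNorm_le_of_le (hb t z hz).2.1 (n1 t z hz 1 norm_one)
  have τ3 : ∀ t, ∀ z ∈ ball (c t) (2 * r), dbar (τ t) z = Γ t z := fun t z hz => by
    rw [hτ, hΓ]
    exact dbar_Est ((sA t z hz).differentiableAt (by simp)) ((su t z hz).of_le (by norm_cast))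
      (eventually_of_mem (isOpen_ball.mem_nhds hz) (hc t))
  have Γ1 : ∀ t, ContinuousOn (Γ t) (ball (c t) (2 * r)) := fun t z hz => by
    have a1 := ((sA' t z hz).comp z (su t z hz)).continuousAt
    have a2 : ∀ v : ℂ, ContinuousAt (fun z => fderiv ℝ (u t) z v) z := fun v =>
      (sD t z hz).continuousAt.clm_apply continuousAt_const
    rw [hΓ]
    exact ((((a1.clm_apply (a2 1)).clm_apply (a2 I)).sub
      ((a1.clm_apply (a2 I)).clm_apply (a2 1))).const_smul (-I / 2)).continuousWithinAt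
  have Γ2 : ∀ t, ∀ z ∈ ball (c t) (2 * r), ‖Γ t z‖ ≤ ‖-I / 2‖ * (L * M * M + L * M * M) :=
    fun t z hz => by
      have a1 : ∀ v v' : ℂ, ‖v‖ = 1 → ‖v'‖ = 1 →
          ‖fderiv ℝ (A t) (u t z) (fderiv ℝ (u t) z v) (fderiv ℝ (u t) z v')‖ ≤ L * M * M :=
        fun v v' hv hv' => ContinuousLinearMap.le_of_opNorm_le_of_le _
          ((fderiv ℝ (A t) (u t z)).le_of_opNorm_le_of_le (hb t z hz).2.2.1 (n1 t z hz v hv))
          (n1 t z hz v' hv')
      rw [hΓ]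
      exact (norm_smul_le _ _).trans (mul_le_mul_of_nonneg_left ((norm_sub_le _ _).trans
        (add_le_add (a1 1 I norm_one norm_I) (a1 I 1 norm_I norm_one))) (norm_nonneg _))
  have back : ∀ (w : ℝ → ℝ) (R : ℝ), R ≤ 2 * r → (∀ d, 0 ≤ d → 0 ≤ w d) →
      UB_Est w (fun t => ball (c t) (2 * r)) (fun t z => B t (u t z)) →
      UB_Est w (fun t => ball (c t) R) τ →
      UB_Est w (fun t => ball (c t) R) (fun t z => fderiv ℝ (u t) z 1) ∧
        UB_Est w (fun t => ball (c t) R) fun t z => fderiv ℝ (u t) z I := by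
    intro w R hR hw b1 b2
    have b3 := b1.mono fun t => ball_subset_ball (x := c t) hR
    refine ⟨(b3.app b2 hw).congr fun t z hz => ?_, (b3.app (b2.clm
      (ContinuousLinearMap.lsmul ℝ ℂ I : E →L[ℝ] E)) hw).congr fun t z hz => ?_⟩
    · rw [hτ, BA t _ (hm t (ball_subset_ball hR hz))]
    · rw [hτ, ContinuousLinearMap.lsmul_apply, ← hc t z (ball_subset_ball hR hz),
        BA t _ (hm t (ball_subset_ball hR hz))]
  have hw : ∀ d : ℝ, 0 ≤ d → 0 ≤ √d := fun d _ => Real.sqrt_nonneg d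
  have r1 : 3 / 2 * r ≤ 2 * r := by linarith
  have s1 := stepA_Est h1 h2 (by positivity) (show 3 / 2 * r < 2 * r by linarith) _ _
    (by positivity) (by positivity) τ1 Γ1 fun t z hz => ⟨τ2 t z hz, Γ2 t z hz, τ3 t z hz⟩
  obtain ⟨s2, s3⟩ := back _ _ r1 hw uB.sqrt s1
  have s4 := uA.sqrt.mono fun t => ball_subset_ball (x := c t) r1
  have s5 : UB_Est Real.sqrt (fun t => ball (c t) (3 / 2 * r)) Γ :=
    ((((s4.app s2 hw).app s3 hw).clm (ContinuousLinearMap.lsmul ℝ ℂ (-I / 2) : E →L[ℝ] E)).add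
      (((s4.app s3 hw).app s2 hw).clm
        (ContinuousLinearMap.lsmul ℝ ℂ (-(-I / 2)) : E →L[ℝ] E))).congr fun t z _ => by
      rw [hΓ, ContinuousLinearMap.lsmul_apply, ContinuousLinearMap.lsmul_apply, neg_smul,
        ← sub_eq_add_neg, ← smul_sub]
  have s6 := stepB_Est h1 h2 h3 (by positivity) (show r < 3 / 2 * r by linarith) _
    (by positivity) (fun t => (τ1 t).mono (ball_subset_ball r1)) s5
    fun t z hz => ⟨τ2 t z (ball_subset_ball r1 hz), τ3 t z (ball_subset_ball r1 hz)⟩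
  obtain ⟨s7, s8⟩ := back _ _ (by linarith) (fun _ hd => hd) uB s6
  exact ((s7.clm (ContinuousLinearMap.smulRightL ℝ ℂ E reCLM)).add
    (s8.clm (ContinuousLinearMap.smulRightL ℝ ℂ E imCLM))).congr fun t z _ => fderiv_eq_Est _

end

theorem tube_Est {P X F : Type} [TopologicalSpace P] [NormedAddCommGroup X]
    [NormedAddCommGroup F] {U K : Set X} {G : P → X → F} (hU : IsOpen U) (h : JC U G)
    (hK : IsCompact K) (hKU : K ⊆ U) (p₀ : P) :
    ∃ L : ℝ, ∀ L', L ≤ L' → ∀ᶠ p in 𝓝 p₀, ∀ x ∈ K, ‖G p x‖ ≤ L' := by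
  obtain ⟨L, hL⟩ := hK.exists_bound_of_continuousOn ((h.at p₀).mono hKU)
  refine ⟨L + 1, fun L' hL' => hK.eventually_forall_of_forall_eventually fun y hy => ?_⟩
  have h1 : ContinuousAt (fun q : P × X => G q.1 q.2) (p₀, y) :=
    ContinuousOn.continuousAt h ((isOpen_univ.prod hU).mem_nhds ⟨trivial, hKU hy⟩)
  exact (h1.norm.eventually_lt_const (u := L + 1) (by linarith [hL y hy])).mono
    fun q hq => hq.le.trans hL'

theorem fam_fderiv_Est {P X F : Type} [TopologicalSpace P] [NormedAddCommGroup X]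
    [NormedSpace ℝ X] [NormedAddCommGroup F] [NormedSpace ℝ F] {U : Set X} {n : ℕ}
    {G : P → X → F} (h : Fam U (n + 1) F G) (hU : IsOpen U) :
    Fam U n (X →L[ℝ] F) fun p => fderiv ℝ (G p) :=
  (h.fderivWithin hU.uniqueDiffOn).congr fun _ _ hx => (fderivWithin_of_isOpen hU hx).symm

theorem est (h1 : T1Stmt) (h2 : T2Stmt) (h3 : T3Stmt) (h4 : T4Stmt) (hG : GreenStmt)
    (hR : RegStmt) : EstStmt := by
  have _ := h4
  have _ := hG
  intro P _ φ p₀ M r hφ hr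
  have hU : IsOpen ({0}ᶜ : Set V) := isOpen_compl_singleton
  obtain ⟨K, hK⟩ : ∃ K : Set V, K = {x | 1 ≤ M * ‖x‖ ∧ ‖x‖ ≤ M} := ⟨_, rfl⟩
  have k1 : IsCompact K := by
    refine (isCompact_closedBall (0 : V) M).of_isClosed_subset ?_ fun x hx => ?_
    · rw [hK]
      exact (isClosed_le continuous_const (continuous_const.mul continuous_norm)).inter
        (isClosed_le continuous_norm continuous_const)
    · rw [hK] at hx
      exact mem_closedBall_zero_iff.2 hx.2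
  have k2 : K ⊆ {0}ᶜ := by
    rintro x hx rfl
    rw [hK] at hx
    have := hx.1
    rw [norm_zero, mul_zero] at this
    linarith
  obtain ⟨L1, l1⟩ := tube_Est hU (hφ 0).2.jc k1 k2 p₀
  obtain ⟨L2, l2⟩ := tube_Est hU (fam_fderiv_Est (hφ 1).2 hU).jc k1 k2 p₀
  obtain ⟨L3, l3⟩ := tube_Est hU (fam_fderiv_Est (fam_fderiv_Est (hφ 2).2 hU) hU).jc k1 k2 p₀
  obtain ⟨L4, l4⟩ := tube_Est hU (hφ 0).1.jc k1 k2 p₀
  obtain ⟨L5, l5⟩ := tube_Est hU (fam_fderiv_Est (hφ 1).1 hU).jc k1 k2 p₀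
  obtain ⟨L, hL⟩ : ∃ L : ℝ, 0 ≤ L ∧ L1 ≤ L ∧ L2 ≤ L ∧ L3 ≤ L ∧ L4 ≤ L ∧ L5 ≤ L :=
    ⟨max 0 (max L1 (max L2 (max L3 (max L4 L5)))), by simp, by simp, by simp, by simp, by simp,
      by simp⟩
  let T : Type := {q : P × (ℂ → V) × ℂ // (∀ x ∈ K, ‖(φ q.1).A x‖ ≤ L ∧
      ‖fderiv ℝ (φ q.1).A x‖ ≤ L ∧ ‖fderiv ℝ (fderiv ℝ (φ q.1).A) x‖ ≤ L ∧ ‖(φ q.1).B x‖ ≤ L ∧
      ‖fderiv ℝ (φ q.1).B x‖ ≤ L) ∧ ContDiffOn ℝ 1 q.2.1 (ball q.2.2 (2 * r)) ∧
    CR (φ q.1).A q.2.1 (ball q.2.2 (2 * r)) ∧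
    ∀ z ∈ ball q.2.2 (2 * r), q.2.1 z ∈ K ∧ ‖fderiv ℝ q.2.1 z‖ ≤ max M 0}
  obtain ⟨C, -, hC⟩ := main_Est (T := T) h1 h2 h3 hR hU (fun t => (φ t.1.1).A)
    (fun t => (φ t.1.1).B) (fun t => t.1.2.1) (fun t => t.1.2.2) hr (le_max_right M 0) hL.1
    (fun t => (φ t.1.1).smoothA) (fun t => (φ t.1.1).smoothB) (fun t => (φ t.1.1).BA)
    (fun t => t.2.2.1) (fun t z hz => k2 (t.2.2.2.2 z hz).1) (fun t => t.2.2.2.1)
    fun t z hz => ⟨(t.2.2.2.2 z hz).2, t.2.1 _ (t.2.2.2.2 z hz).1⟩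
  refine ⟨C, ?_⟩
  filter_upwards [l1 L hL.2.1, l2 L hL.2.2.1, l3 L hL.2.2.2.1, l4 L hL.2.2.2.2.1,
    l5 L hL.2.2.2.2.2] with p a1 a2 a3 a4 a5 u c b1 b2 b3
  exact (hC ⟨(p, u, c), fun x hx => ⟨a1 x hx, a2 x hx, a3 x hx, a4 x hx, a5 x hx⟩, b1, b2,
    fun z hz => ⟨by rw [hK]; exact ⟨(b3 z hz).1, (b3 z hz).2.1⟩,
      (b3 z hz).2.2.trans (le_max_left M 0)⟩⟩).2

end Pool.Agent.MP_2fc7fa_gt.N

end
end

section

/-! The inversion `w ↦ w • v (1 / w)` of a function that is holomorphic near infinity. -/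

open scoped ContDiff ComplexConjugate Topology
open Set Complex Filter Metric MeasureTheory

noncomputable section

namespace Pool.Agent.MP_2fc7fa_gt.N

variable {T E : Type} [NormedAddCommGroup E]

/-- The annulus `1 / 5 < ‖z‖ < 3`. -/
def ann_SOp : Set ℂ := {z | 1 / 5 < ‖z‖ ∧ ‖z‖ < 3}

theorem glue_SOp {f : T → ℂ → E} (h : UB_Est Real.sqrt (fun _ => ball 0 (1 / 4)) f)
    (h' : UB_Est Real.sqrt (fun _ => ann_SOp) f) : UB_Est Real.sqrt (fun _ => ball 0 3) f := by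
  obtain ⟨K, k, h⟩ := h
  obtain ⟨K', k', h'⟩ := h'
  have hb : ∀ t, ∀ z ∈ ball (0 : ℂ) 3, ‖f t z‖ ≤ K + K' := fun t z hz => by
    by_cases h1 : ‖z‖ < 1 / 4
    · linarith [(h t).1 z (mem_ball_zero_iff.2 h1)]
    · linarith [(h' t).1 z ⟨by linarith, mem_ball_zero_iff.1 hz⟩]
  refine ub_mk_Est (fun d _ => Real.sqrt_nonneg d) (K + K') (10 * (K + K')) (by positivity)
    (by positivity) hb fun t z hz z' hz' => ?_
  have hs := Real.sqrt_nonneg ‖z - z'‖
  by_cases h1 : ‖z‖ < 1 / 4 ∧ ‖z'‖ < 1 / 4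
  · have := (h t).2 z (mem_ball_zero_iff.2 h1.1) z' (mem_ball_zero_iff.2 h1.2)
    nlinarith
  by_cases h2 : 1 / 5 < ‖z‖ ∧ 1 / 5 < ‖z'‖
  · have := (h' t).2 z ⟨h2.1, mem_ball_zero_iff.1 hz⟩ z' ⟨h2.2, mem_ball_zero_iff.1 hz'⟩
    nlinarith
  have h3 : 1 / 5 ≤ √‖z - z'‖ := by
    refine Real.le_sqrt_of_sq_le ?_
    have h4 := norm_sub_norm_le z z'
    have h5 := norm_sub_norm_le z' z
    rw [norm_sub_rev] at h5
    rcases not_and_or.1 h1 with h1 | h1 <;> rcases not_and_or.1 h2 with h2 | h2 <;> linarith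
  have h4 := norm_sub_le (f t z) (f t z')
  have h5 := hb t z hz
  have h6 := hb t z' hz'
  nlinarith

theorem inv_SOp {z z' : ℂ} (hz : z ∈ ann_SOp) (hz' : z' ∈ ann_SOp) :
    ‖z⁻¹ - z'⁻¹‖ ≤ 25 * ‖z - z'‖ := by
  have h1 := hz.1
  have h2 := hz'.1
  have h3 : z ≠ 0 := norm_pos_iff.1 (by linarith)
  have h4 : z' ≠ 0 := norm_pos_iff.1 (by linarith)
  rw [inv_sub_inv h3 h4, norm_div, norm_mul, norm_sub_rev, div_le_iff₀ (by positivity)]
  have h5 : 1 ≤ 25 * (‖z‖ * ‖z'‖) := by nlinarith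
  nlinarith [norm_nonneg (z - z')]

theorem ub_inv_SOp : UB_Est Real.sqrt (fun _ : T => ann_SOp) fun _ z => z⁻¹ :=
  (ub_mk_Est (w := id) (fun _ hd => hd) 5 25 (by norm_num) (by norm_num) (fun _ z hz => by
    rw [norm_inv]
    exact (inv_le_comm₀ (by linarith [hz.1]) (by norm_num)).2 (by linarith [hz.1]))
    fun _ _ hz _ hz' => inv_SOp hz hz').sqrt

theorem ub_comp_SOp {f : T → ℂ → E} (h : UB_Est Real.sqrt (fun _ => univ) f) :
    UB_Est Real.sqrt (fun _ => ann_SOp) fun t z => f t z⁻¹ := by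
  obtain ⟨K, k, h⟩ := h
  refine ub_mk_Est (fun d _ => Real.sqrt_nonneg d) K (K * 5) k (by positivity)
    (fun t z _ => (h t).1 _ trivial) fun t z hz z' hz' => ((h t).2 _ trivial _ trivial).trans ?_
  rw [mul_assoc]
  refine mul_le_mul_of_nonneg_left ((Real.sqrt_le_sqrt (inv_SOp hz hz')).trans_eq ?_) k
  rw [Real.sqrt_mul (by norm_num), show (25 : ℝ) = 5 ^ 2 by norm_num, Real.sqrt_sq (by norm_num)]

theorem ub_id_SOp : UB_Est Real.sqrt (fun _ : T => ball 0 3) fun _ z => z :=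
  (ub_mk_Est (w := id) (fun _ hd => hd) 3 1 (by norm_num) (by norm_num)
    (fun _ z hz => (mem_ball_zero_iff.1 hz).le) fun _ _ _ _ _ => (one_mul _).ge).sqrt

theorem ub_const_SOp {S : T → Set ℂ} {a : T → E} {K : ℝ} (hK : 0 ≤ K) (h : ∀ t, ‖a t‖ ≤ K) :
    UB_Est Real.sqrt S fun t _ => a t :=
  ub_mk_Est (fun d _ => Real.sqrt_nonneg d) K 0 hK le_rfl (fun t _ _ => h t)
    fun t z _ z' _ => by simp

variable [NormedSpace ℂ E]

theorem ub_smul_SOp {S : T → Set ℂ} {a : T → ℂ → ℂ} {f : T → ℂ → E} (ha : UB_Est Real.sqrt S a)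
    (hf : UB_Est Real.sqrt S f) : UB_Est Real.sqrt S fun t z => a t z • f t z :=
  (ha.clm (ContinuousLinearMap.lsmul ℝ ℂ : ℂ →L[ℝ] E →L[ℝ] E)).app hf
    fun d _ => Real.sqrt_nonneg d

theorem ub_clm_SOp {S : T → Set ℂ} {D : T → ℂ → ℂ →L[ℝ] E}
    (h : ∀ x, UB_Est Real.sqrt S fun t z => D t z x) : UB_Est Real.sqrt S D :=
  (((h 1).clm (ContinuousLinearMap.smulRightL ℝ ℂ E reCLM)).add
    ((h I).clm (ContinuousLinearMap.smulRightL ℝ ℂ E imCLM))).congr
      fun t z _ => fderiv_eq_Est (D t z)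

theorem real_SOp {f : ℂ → E} {z : ℂ} (hf : DifferentiableAt ℂ f z) (x : ℂ) :
    fderiv ℝ f z x = x • deriv f z := by
  rw [(hf.hasDerivAt.hasFDerivAt.restrictScalars ℝ).fderiv]
  rfl

theorem dbar_zero_SOp {f : ℂ → E} {z : ℂ} (hf : DifferentiableAt ℂ f z) : dbar f z = 0 := by
  rw [dbar, real_SOp hf, real_SOp hf, smul_smul, I_mul_I, ← add_smul]
  simp

theorem hol_SOp {f : ℂ → E} {z : ℂ} (hf : DifferentiableAt ℝ f z) (h : dbar f z = 0) :
    DifferentiableAt ℂ f z := by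
  refine differentiableAt_complex_iff_differentiableAt_real.2 ⟨hf, ?_⟩
  have h1 := (smul_eq_zero.1 h).resolve_left (by norm_num)
  rw [eq_neg_of_add_eq_zero_left h1, smul_neg, smul_smul, I_mul_I]
  simp

theorem conj_SOp (L : ℂ →L[ℝ] E) (a : ℂ) :
    L (a * 1) + I • L (a * I) = conj a • (L 1 + I • L I) := by
  have e1 : a * 1 = a.re • (1 : ℂ) + a.im • I := by simp
  have e2 : a * I = (-a.im) • (1 : ℂ) + a.re • I := by
    apply Complex.ext <;> simp
  have e3 : conj a = (a.re : ℂ) - a.im * I := by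
    apply Complex.ext <;> simp
  rw [e1, e2, e3, map_add, map_add, map_smul, map_smul, map_smul, map_smul]
  simp only [← Complex.coe_smul]
  match_scalars
  · ring
  · linear_combination (a.im : ℂ) * I_mul_I

/-- The inversion of a section of `O(1)`. -/
def inv1_SOp (v : ℂ → E) (w : ℂ) : E := w • v w⁻¹

theorem fd_inv_SOp {v : ℂ → E} {z : ℂ} (hz : z ≠ 0) (hv : DifferentiableAt ℝ v z⁻¹) (x : ℂ) :
    fderiv ℝ (inv1_SOp v) z x = x • v z⁻¹ + z • fderiv ℝ v z⁻¹ (-(z⁻¹ * z⁻¹) * x) := by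
  have h1 := (hasFDerivAt_id (𝕜 := ℝ) z).smul (hv.hasFDerivAt.comp z
    ((hasDerivAt_inv hz).hasFDerivAt.restrictScalars ℝ))
  rw [show fderiv ℝ (inv1_SOp v) z = _ from h1.fderiv, add_comm]
  show x • v z⁻¹ + z • fderiv ℝ v z⁻¹ (x • -(z ^ 2)⁻¹) = _
  rw [smul_eq_mul, mul_comm, sq, mul_inv]

theorem dbar_inv_SOp {v : ℂ → E} {z : ℂ} (hz : z ≠ 0) (hv : DifferentiableAt ℝ v z⁻¹) :
    dbar (inv1_SOp v) z = -(z / conj z ^ 2) • dbar v z⁻¹ := by
  have h1 := conj_SOp (fderiv ℝ v z⁻¹) (-(z⁻¹ * z⁻¹))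
  rw [dbar, dbar, fd_inv_SOp hz hv, fd_inv_SOp hz hv, eq_sub_of_add_eq h1, map_neg, map_mul,
    map_inv₀]
  match_scalars
  · linear_combination (1 / 2) * I_mul_I
  · ring
  · ring
  · ring

variable [CompleteSpace E]

theorem hol_inv_SOp {v : ℂ → E} {K : ℝ} (hv : Differentiable ℝ v) (hK : ∀ z, ‖v z‖ ≤ K)
    (h0 : ∀ z, 3 ≤ ‖z‖ → dbar v z = 0) : DifferentiableOn ℂ (inv1_SOp v) (ball 0 (1 / 3)) := by
  refine (differentiableOn_compl_singleton_and_continuousAt_iff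
    (ball_mem_nhds (0 : ℂ) (by norm_num))).1 ⟨fun z hz => ?_, ?_⟩
  · have h1 : z ≠ 0 := hz.2
    have h2 : 3 ≤ ‖z⁻¹‖ := by
      rw [norm_inv]
      exact (le_inv_comm₀ (by norm_num) (norm_pos_iff.2 h1)).2
        (by linarith [mem_ball_zero_iff.1 hz.1])
    exact (differentiableAt_id.smul ((hol_SOp (hv _) (h0 _ h2)).comp z
      (differentiableAt_inv h1))).differentiableWithinAt
  · rw [ContinuousAt, inv1_SOp, zero_smul]
    refine squeeze_zero_norm (a := fun z => ‖z‖ * K) (fun z => ?_) ?_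
    · rw [inv1_SOp, norm_smul]
      exact mul_le_mul_of_nonneg_left (hK _) (norm_nonneg _)
    · exact Continuous.tendsto' (by fun_prop) 0 0 (by simp)

theorem c1_inv_SOp {v : ℂ → E} {K : ℝ} (hv : ContDiff ℝ 1 v) (hK : ∀ z, ‖v z‖ ≤ K)
    (h0 : ∀ z, 3 ≤ ‖z‖ → dbar v z = 0) : ContDiff ℝ 1 (inv1_SOp v) := by
  refine contDiff_iff_contDiffAt.2 fun z => ?_
  by_cases hz : z = 0
  · have h1 := (hol_inv_SOp (hv.differentiable one_ne_zero) hK h0).analyticAt
      (ball_mem_nhds (0 : ℂ) (by norm_num))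
    rw [hz]
    exact h1.contDiffAt.restrict_scalars ℝ
  · exact contDiffAt_id.smul (hv.contDiffAt.comp z (contDiffAt_inv ℝ hz))

theorem ub_inv1_SOp {v : T → ℂ → E} (hv : ∀ t, Differentiable ℝ (v t))
    (h0 : ∀ t z, 3 ≤ ‖z‖ → dbar (v t) z = 0) (h1 : UB_Est Real.sqrt (fun _ => univ) v)
    (h2 : UB_Est Real.sqrt (fun _ => univ) fun t => fderiv ℝ (v t)) :
    (UB_Est Real.sqrt (fun _ => ball 0 3) fun t => inv1_SOp (v t)) ∧
      UB_Est Real.sqrt (fun _ => ball 0 3) fun t => fderiv ℝ (inv1_SOp (v t)) := by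
  have hs : ∀ _ : T, ann_SOp ⊆ ball 0 3 := fun _ z hz => mem_ball_zero_iff.2 hz.2
  have a1 := ub_comp_SOp h1
  have a2 := ub_comp_SOp h2
  obtain ⟨K, k, hK⟩ := h1
  have hd := fun t => hol_inv_SOp (hv t) (fun z => (hK t).1 z trivial) (h0 t)
  have b1 := ub_hol_Est (c := fun _ => 0) (R' := 3 / 10) (by norm_num) K k hd fun t z hz => by
    rw [inv1_SOp, norm_smul]
    have := mem_ball_zero_iff.1 hz
    have := (hK t).1 z⁻¹ trivial
    nlinarith [norm_nonneg z, norm_nonneg (v t z⁻¹)]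
  refine ⟨glue_SOp (b1.sqrt.mono fun _ => ball_subset_ball (by norm_num))
    (ub_smul_SOp (ub_id_SOp.mono hs) a1), ub_clm_SOp fun x => glue_SOp ?_ ?_⟩
  · obtain ⟨L, l, hL⟩ := b1
    have b2 := ub_hol_Est (c := fun _ => 0) (R := 3 / 10) (R' := 1 / 4) (by norm_num) L l
      (fun t => ((hd t).deriv isOpen_ball).mono (ball_subset_ball (by norm_num))) fun t z hz =>
        norm_deriv_le_of_lip' l (mem_of_superset (isOpen_ball.mem_nhds hz)
          fun y hy => (hL t).2 y hy z hz)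
    exact (ub_smul_SOp (ub_const_SOp (norm_nonneg x) fun _ => le_rfl) b2.sqrt).congr
      fun t z hz => real_SOp ((hd t).differentiableAt
        (isOpen_ball.mem_nhds (ball_subset_ball (by norm_num) hz))) x
  · have c1 : UB_Est Real.sqrt (fun _ : T => ann_SOp) fun _ z => -(z⁻¹ * z⁻¹) * x :=
      (ub_smul_SOp (ub_smul_SOp ub_inv_SOp ub_inv_SOp)
        (ub_const_SOp (norm_nonneg (-x)) fun _ => le_rfl)).congr fun _ z _ => by
          simp only [smul_eq_mul, neg_mul, mul_neg]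
    exact ((ub_smul_SOp (ub_const_SOp (norm_nonneg x) fun _ => le_rfl) a1).add
      (ub_smul_SOp (ub_id_SOp.mono hs) (a2.app c1 fun d _ => Real.sqrt_nonneg d))).congr
        fun t z hz => fd_inv_SOp (norm_pos_iff.1 (by linarith [hz.1])) (hv t _) x

end Pool.Agent.MP_2fc7fa_gt.N

end
end

section

/-! The difference quotient of a solution of the Cauchy-Riemann equation. -/

open scoped ContDiff ComplexConjugate Topology
open Set Complex Filter Metric

noncomputable section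

namespace Pool.Agent.MP_2fc7fa_gt.N

/-- The derivative in the coframe. -/
def tau_Cusp (A : W → W →L[ℝ] W) (u : ℂ → W) (z : ℂ) : W := A (u z) (fderiv ℝ u z 1)

/-- The difference quotient in the coframe at the first point. -/
def dq_Cusp (A : W → W →L[ℝ] W) (u : ℂ → W) (q : W) : W :=
  if q.2 = q.1 then tau_Cusp A u q.1 else (q.2 - q.1)⁻¹ • A (u q.1) (u q.2 - u q.1)

theorem lin_Cusp {A : W → W →L[ℝ] W} {u : ℂ → W} {O : Set ℂ} (h : CR A u O) {z : ℂ} (hz : z ∈ O)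
    (c : ℂ) : A (u z) (fderiv ℝ u z c) = c • tau_Cusp A u z := by
  have hc : c = c.re • (1 : ℂ) + c.im • I := by
    simp [Complex.re_add_im]
  have h1 := h z hz
  conv_lhs => rw [hc]
  rw [map_add, map_smul, map_smul, map_add, map_smul, map_smul, h1]
  unfold tau_Cusp
  conv_rhs => rw [hc]
  rw [add_smul, smul_assoc, smul_assoc, one_smul]

theorem low_Cusp (A : W → W →L[ℝ] W) (Ω K : Set W) (hA : Cofr A Ω) (hK : IsCompact K)
    (hKΩ : K ⊆ Ω) : ∃ C : ℝ, 0 ≤ C ∧ ∀ p ∈ K, ∀ v : W, ‖v‖ ≤ C * ‖A p v‖ := by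
  have hc : ContinuousOn (fun q : W × W => ‖A q.1 q.2‖) (K ×ˢ sphere (0 : W) 1) := by
    have h1 : ContinuousOn (fun q : W × W => A q.1) (K ×ˢ sphere (0 : W) 1) :=
      hA.2.1.continuousOn.comp continuous_fst.continuousOn (fun q hq => hKΩ hq.1)
    exact (h1.clm_apply continuous_snd.continuousOn).norm
  obtain ⟨a, ha, hle⟩ := (hK.prod (isCompact_sphere (0 : W) 1)).exists_forall_le' hc (a := 0) (by
    rintro ⟨p, v⟩ ⟨hp, hv⟩
    have hv' : ‖v‖ = 1 := by simpa using hv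
    refine norm_pos_iff.2 (fun h0 => ?_)
    have : v = 0 := hA.2.2 p (hKΩ hp) (by simpa using h0)
    rw [this] at hv'
    simp at hv')
  refine ⟨a⁻¹, by positivity, fun p hp v => ?_⟩
  rcases eq_or_ne v 0 with rfl | hv
  · simp
  · have hn : 0 < ‖v‖ := norm_pos_iff.2 hv
    have hs : (‖v‖⁻¹ • v) ∈ sphere (0 : W) 1 := by
      simp [norm_smul, hn.ne']
    have h1 := hle (p, ‖v‖⁻¹ • v) ⟨hp, hs⟩
    simp only [map_smul, norm_smul, norm_inv, norm_norm] at h1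
    rw [inv_mul_eq_div, le_div_iff₀ hn] at h1
    rw [inv_mul_eq_div, le_div_iff₀ ha]
    linarith

/-- Mean value inequality for the comparison of two maps. -/
theorem mv_Cusp {E : Type} [NormedAddCommGroup E] [NormedSpace ℝ E] (L L' : W →L[ℝ] E)
    {u u' : ℂ → W} {S : Set ℂ} {e : ℝ} (hS : Convex ℝ S) (he : 0 ≤ e)
    (hu : ∀ s ∈ S, DifferentiableAt ℝ u s) (hu' : ∀ s ∈ S, DifferentiableAt ℝ u' s)
    (h : ∀ s ∈ S, ∀ c, ‖L (fderiv ℝ u s c) - L' (fderiv ℝ u' s c)‖ ≤ e * ‖c‖) {s s' : ℂ}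
    (hs : s ∈ S) (hs' : s' ∈ S) : ‖L (u s - u s') - L' (u' s - u' s')‖ ≤ e * ‖s - s'‖ := by
  have hd : ∀ t ∈ S, HasFDerivWithinAt (fun t => L (u t) - L' (u' t))
      (L.comp (fderiv ℝ u t) - L'.comp (fderiv ℝ u' t)) S t := fun t ht =>
    ((L.hasFDerivAt.comp t (hu t ht).hasFDerivAt).sub
      (L'.hasFDerivAt.comp t (hu' t ht).hasFDerivAt)).hasFDerivWithinAt
  have hb : ∀ t ∈ S, ‖L.comp (fderiv ℝ u t) - L'.comp (fderiv ℝ u' t)‖ ≤ e := fun t ht =>
    ContinuousLinearMap.opNorm_le_bound _ he (fun c => h t ht c)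
  have := hS.norm_image_sub_le_of_norm_hasFDerivWithin_le hd hb hs' hs
  have e1 : L (u s - u s') - L' (u' s - u' s') = L (u s) - L' (u' s) - (L (u s') - L' (u' s')) := by
    rw [map_sub, map_sub]; abel
  rw [e1]
  exact this

theorem dq_close_Cusp {A A' : W → W →L[ℝ] W} {u u' : ℂ → W} {S : Set ℂ} {e : ℝ} (hS : Convex ℝ S)
    (he : 0 ≤ e) (hu : ∀ s ∈ S, DifferentiableAt ℝ u s) (hu' : ∀ s ∈ S, DifferentiableAt ℝ u' s)
    {q : W} (h1 : q.1 ∈ S) (h2 : q.2 ∈ S)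
    (h : ∀ s ∈ S, ∀ c, ‖A (u q.1) (fderiv ℝ u s c) - A' (u' q.1) (fderiv ℝ u' s c)‖ ≤ e * ‖c‖) :
    ‖dq_Cusp A u q - dq_Cusp A' u' q‖ ≤ e := by
  unfold dq_Cusp
  split_ifs with hq
  · simpa [tau_Cusp] using h q.1 h1 1
  · have hne : q.2 - q.1 ≠ 0 := sub_ne_zero.2 hq
    have hpos : 0 < ‖q.2 - q.1‖ := norm_pos_iff.2 hne
    rw [← smul_sub, norm_smul, norm_inv, inv_mul_le_iff₀ hpos, mul_comm]
    exact mv_Cusp _ _ hS he hu hu' h h2 h1

theorem fd_lin_Cusp (t : W) (z c : ℂ) : fderiv ℝ (fun s : ℂ => s • t) z c = c • t := by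
  have : HasFDerivAt (fun s : ℂ => s • t) ((ContinuousLinearMap.id ℝ ℂ).smulRight t) z :=
    ((ContinuousLinearMap.id ℝ ℂ).smulRight t).hasFDerivAt
  rw [this.fderiv]
  rfl

theorem dq_lin_Cusp (t : W) (q : W) :
    dq_Cusp (fun _ => ContinuousLinearMap.id ℝ W) (fun s => s • t) q = t := by
  unfold dq_Cusp tau_Cusp
  split_ifs with hq
  · simp [fd_lin_Cusp]
  · have hne : q.2 - q.1 ≠ 0 := sub_ne_zero.2 hq
    simp only [ContinuousLinearMap.id_apply]
    rw [← sub_smul, smul_smul, inv_mul_cancel₀ hne, one_smul]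

theorem mem_ball_Cusp {r : ℝ} {q : W} (hq : q ∈ ball (0 : W) r) :
    q.1 ∈ ball (0 : ℂ) r ∧ q.2 ∈ ball (0 : ℂ) r := by
  simp only [mem_ball_zero_iff] at hq ⊢
  exact ⟨(norm_fst_le q).trans_lt hq, (norm_snd_le q).trans_lt hq⟩

theorem dq_cont_Cusp {A : W → W →L[ℝ] W} {Ω : Set W} {u : ℂ → W} {r : ℝ} (hA : Cofr A Ω)
    (hu : ContDiffOn ℝ 1 u (ball 0 r)) (hm : MapsTo u (ball 0 r) Ω) (hCR : CR A u (ball 0 r)) :
    ContinuousOn (dq_Cusp A u) (ball 0 r) := by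
  intro q hq
  obtain ⟨h1, h2⟩ := mem_ball_Cusp hq
  have hcu : ∀ z ∈ ball (0 : ℂ) r, ContinuousAt u z := fun z hz =>
    hu.continuousOn.continuousAt (isOpen_ball.mem_nhds hz)
  have hcA : ∀ z ∈ ball (0 : ℂ) r, ContinuousAt (fun t => A (u t)) z := fun z hz =>
    ContinuousAt.comp (hA.2.1.continuousOn.continuousAt (hA.1.mem_nhds (hm hz))) (hcu z hz)
  refine ContinuousAt.continuousWithinAt ?_
  have a1 : ContinuousAt (fun p : W => A (u p.1)) q := (hcA _ h1).comp continuousAt_fst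
  by_cases hq' : q.2 = q.1
  · have hcd : ContinuousAt (fderiv ℝ u) q.2 :=
      (hu.continuousOn_fderiv_of_isOpen isOpen_ball le_rfl).continuousAt (isOpen_ball.mem_nhds h2)
    have a2 : ContinuousAt (fun p : W => (A (u p.1)).comp (fderiv ℝ u p.2)) q :=
      a1.clm_comp (hcd.comp continuousAt_snd)
    rw [Metric.continuousAt_iff]
    intro e he
    obtain ⟨d, hd, hde⟩ := Metric.continuousAt_iff.1 a2 (e / 2) (by positivity)
    obtain ⟨d', hd', hsub⟩ := Metric.isOpen_iff.1 isOpen_ball q.1 h1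
    refine ⟨min d d', lt_min hd hd', fun p hp => ?_⟩
    have hdif : ∀ s ∈ ball q.1 (min d d'), DifferentiableAt ℝ u s := fun s hs =>
      (hu.contDiffAt (isOpen_ball.mem_nhds (hsub (ball_subset_ball (min_le_right _ _) hs)))
        ).differentiableAt one_ne_zero
    have hp1 : dist p.1 q.1 < min d d' := (le_max_left _ _).trans_lt hp
    have hp2 : dist p.2 q.1 < min d d' := by
      rw [← hq']; exact (le_max_right _ _).trans_lt hp
    have key := dq_close_Cusp (A := A) (A' := fun _ => ContinuousLinearMap.id ℝ W) (u := u)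
      (u' := fun s => s • tau_Cusp A u q.1) (e := e / 2) (convex_ball q.1 (min d d'))
      (by positivity) hdif (fun s _ => by fun_prop) (q := p) hp1 hp2 (by
        intro s hs c
        have hs' : dist ((p.1, s) : W) q < d := by
          rw [Prod.dist_eq]
          refine max_lt (hp1.trans_le (min_le_left _ _)) ?_
          rw [hq']
          exact (mem_ball.1 hs).trans_le (min_le_left _ _)
        have b1 := hde hs'
        rw [dist_eq_norm] at b1
        have b2 := (((A (u p.1)).comp (fderiv ℝ u s) -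
          (A (u q.1)).comp (fderiv ℝ u q.2)).le_opNorm c).trans
          (mul_le_mul_of_nonneg_right b1.le (norm_nonneg c))
        rw [fd_lin_Cusp, ContinuousLinearMap.id_apply, ← lin_Cusp hCR h1]
        rw [hq'] at b2
        simpa using b2)
    rw [dq_lin_Cusp] at key
    have e0 : dq_Cusp A u q = tau_Cusp A u q.1 := if_pos hq'
    rw [dist_eq_norm, e0]
    linarith
  · have hev : ∀ᶠ p : W in 𝓝 q, p.2 ≠ p.1 :=
      (isOpen_ne_fun continuous_snd continuous_fst).mem_nhds hq'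
    have a3 : ContinuousAt (fun p : W => (p.2 - p.1)⁻¹ • A (u p.1) (u p.2 - u p.1)) q := by
      refine ContinuousAt.smul ((continuousAt_snd.sub continuousAt_fst).inv₀ (sub_ne_zero.2 hq')) ?_
      exact a1.clm_apply (((hcu _ h2).comp continuousAt_snd).sub ((hcu _ h1).comp continuousAt_fst))
    refine a3.congr (hev.mono fun p hp => ?_)
    exact (if_neg hp).symm

theorem dq_ne_Cusp {A : W → W →L[ℝ] W} {Ω : Set W} {u : ℂ → W} {r : ℝ} (hA : Cofr A Ω)
    (hm : MapsTo u (ball 0 r) Ω) (hi : InjOn u (ball 0 r))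
    (hd : ∀ z ∈ ball (0 : ℂ) r, fderiv ℝ u z 1 ≠ 0) {q : W} (hq : q ∈ ball (0 : W) r) :
    dq_Cusp A u q ≠ 0 := by
  obtain ⟨h1, h2⟩ := mem_ball_Cusp hq
  have hinj := hA.2.2 _ (hm h1)
  unfold dq_Cusp tau_Cusp
  split_ifs with hq'
  · exact fun h => hd _ h1 (hinj (by rw [h, map_zero]))
  · intro h
    rcases smul_eq_zero.1 h with h | h
    · exact hq' (sub_eq_zero.1 (inv_eq_zero.1 h))
    · have : u q.2 - u q.1 = 0 := hinj (by rw [h, map_zero])
      exact hq' (hi h2 h1 (sub_eq_zero.1 this))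

/-- The difference quotients of a convergent sequence converge uniformly. -/
theorem dq_conv_Cusp {A : W → W →L[ℝ] W} {An : ℕ → W → W →L[ℝ] W} {Ω : Set W} {u : ℂ → W}
    {un : ℕ → ℂ → W} {r ρ e : ℝ} (hA : Cofr A Ω) (hAn : TendstoLocallyUniformlyOn An A atTop Ω)
    (hρ : ρ < r) (he : 0 < e) (hu : ContDiffOn ℝ 1 u (ball 0 r)) (hm : MapsTo u (ball 0 r) Ω)
    (hun : ∀ n, ContDiffOn ℝ 1 (un n) (ball 0 r))
    (h0 : TendstoUniformlyOn un u atTop (ball 0 r))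
    (h1 : TendstoUniformlyOn (fun n => fderiv ℝ (un n)) (fderiv ℝ u) atTop (ball 0 r)) :
    ∃ n, ∀ q ∈ closedBall (0 : W) ρ, ‖dq_Cusp (An n) (un n) q - dq_Cusp A u q‖ ≤ e := by
  have hsub : closedBall (0 : ℂ) ρ ⊆ ball 0 r := closedBall_subset_ball hρ
  have hK0 : IsCompact (u '' closedBall 0 ρ) :=
    (isCompact_closedBall 0 ρ).image_of_continuousOn (hu.continuousOn.mono hsub)
  have hK0Ω : u '' closedBall 0 ρ ⊆ Ω := by
    rintro _ ⟨z, hz, rfl⟩
    exact hm (hsub hz)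
  obtain ⟨d, hd, hdΩ⟩ := hK0.exists_cthickening_subset_open hA.1 hK0Ω
  set K := cthickening d (u '' closedBall 0 ρ)
  have hK : IsCompact K := hK0.cthickening
  have hAK : ContinuousOn A K := hA.2.1.continuousOn.mono hdΩ
  obtain ⟨M1, hM1⟩ := hK.exists_bound_of_continuousOn hAK
  obtain ⟨M2, hM2⟩ := (isCompact_closedBall (0 : ℂ) ρ).exists_bound_of_continuousOn
    ((hu.continuousOn_fderiv_of_isOpen isOpen_ball le_rfl).mono hsub)
  set t := min 1 (e / (2 * (|M1| + |M2| + 1) + 1)) with ht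
  have ht0 : 0 < t := lt_min one_pos (by positivity)
  have ht1 : t ≤ 1 := min_le_left _ _
  have ht2 : t * (2 * (|M1| + |M2| + 1) + 1) ≤ e :=
    (le_div_iff₀ (by positivity)).1 (min_le_right _ _)
  obtain ⟨d', hd', hunif⟩ := Metric.uniformContinuousOn_iff.1
    (hK.uniformContinuousOn_of_continuous hAK) t ht0
  have c1 := Metric.tendstoUniformlyOn_iff.1
    ((tendstoLocallyUniformlyOn_iff_tendstoUniformlyOn_of_compact hK).1 (hAn.mono hdΩ)) t ht0
  have c2 := Metric.tendstoUniformlyOn_iff.1 h0 (min d d') (lt_min hd hd')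
  have c3 := Metric.tendstoUniformlyOn_iff.1 h1 t ht0
  obtain ⟨n, n1, n2, n3⟩ := (c1.and (c2.and c3)).exists
  refine ⟨n, fun q hq => ?_⟩
  have q1 : q.1 ∈ closedBall (0 : ℂ) ρ := by
    simp only [mem_closedBall_zero_iff] at hq ⊢
    exact (norm_fst_le q).trans hq
  have q2 : q.2 ∈ closedBall (0 : ℂ) ρ := by
    simp only [mem_closedBall_zero_iff] at hq ⊢
    exact (norm_snd_le q).trans hq
  refine dq_close_Cusp (convex_closedBall 0 ρ) he.le
    (fun s hs => ((hun n).contDiffAt (isOpen_ball.mem_nhds (hsub hs))).differentiableAt one_ne_zero)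
    (fun s hs => (hu.contDiffAt (isOpen_ball.mem_nhds (hsub hs))).differentiableAt one_ne_zero)
    q1 q2 fun s hs c => ?_
  have k1 : u q.1 ∈ K := self_subset_cthickening _ ⟨_, q1, rfl⟩
  have d1 := n2 _ (hsub q1)
  have k2 : un n q.1 ∈ K := by
    refine mem_cthickening_of_dist_le _ (u q.1) _ _ ⟨_, q1, rfl⟩ ?_
    rw [dist_comm]
    exact (d1.trans_le (min_le_left _ _)).le
  have b1 : ‖An n (un n q.1) - A (un n q.1)‖ ≤ t := by
    rw [norm_sub_rev, ← dist_eq_norm]; exact (n1 _ k2).le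
  have b2 : ‖A (un n q.1) - A (u q.1)‖ ≤ t := by
    rw [norm_sub_rev, ← dist_eq_norm]
    exact (hunif _ k1 _ k2 (d1.trans_le (min_le_right _ _))).le
  have b3 : ‖fderiv ℝ (un n) s - fderiv ℝ u s‖ ≤ t := by
    rw [norm_sub_rev, ← dist_eq_norm]; exact (n3 _ (hsub hs)).le
  have b4 : ‖An n (un n q.1) - A (u q.1)‖ ≤ 2 * t := by
    have := norm_sub_le_norm_sub_add_norm_sub (An n (un n q.1)) (A (un n q.1)) (A (u q.1))
    linarith
  have b5 : ‖fderiv ℝ (un n) s‖ ≤ |M2| + 1 := by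
    have := norm_le_norm_add_norm_sub' (fderiv ℝ (un n) s) (fderiv ℝ u s)
    have := (hM2 s hs).trans (le_abs_self _)
    linarith
  have b6 : ‖A (u q.1)‖ ≤ |M1| := (hM1 _ k1).trans (le_abs_self _)
  have e1 : An n (un n q.1) (fderiv ℝ (un n) s c) - A (u q.1) (fderiv ℝ u s c) =
      (An n (un n q.1) - A (u q.1)) (fderiv ℝ (un n) s c) +
        A (u q.1) ((fderiv ℝ (un n) s - fderiv ℝ u s) c) := by
    simp
  have b7 : ‖(An n (un n q.1) - A (u q.1)) (fderiv ℝ (un n) s c)‖ ≤ 2 * t * ((|M2| + 1) * ‖c‖) :=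
    (ContinuousLinearMap.le_opNorm _ _).trans (mul_le_mul b4
      ((ContinuousLinearMap.le_opNorm _ _).trans (mul_le_mul_of_nonneg_right b5 (norm_nonneg _)))
      (norm_nonneg _) (by positivity))
  have b8 : ‖A (u q.1) ((fderiv ℝ (un n) s - fderiv ℝ u s) c)‖ ≤ |M1| * (t * ‖c‖) :=
    (ContinuousLinearMap.le_opNorm _ _).trans (mul_le_mul b6
      ((ContinuousLinearMap.le_opNorm _ _).trans (mul_le_mul_of_nonneg_right b3 (norm_nonneg _)))
      (norm_nonneg _) (by positivity))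
  rw [e1]
  refine (norm_add_le _ _).trans ((add_le_add b7 b8).trans ?_)
  have : 2 * t * ((|M2| + 1) * ‖c‖) + |M1| * (t * ‖c‖) = (t * (2 * (|M2| + 1) + |M1|)) * ‖c‖ := by
    ring
  rw [this]
  refine mul_le_mul_of_nonneg_right (le_trans ?_ ht2) (norm_nonneg _)
  have := abs_nonneg M1
  exact mul_le_mul_of_nonneg_left (by linarith) ht0.le

end Pool.Agent.MP_2fc7fa_gt.N

end
end

section

/-! The leading term of a solution of the Cauchy-Riemann equation at a critical point. -/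

open scoped ContDiff ComplexConjugate Topology
open Set Complex Filter Metric

noncomputable section

namespace Pool.Agent.MP_2fc7fa_gt.N

/-- A smooth solution on a disc. -/
structure Sm_Cusp (A : W → W →L[ℝ] W) (Ω : Set W) (u : ℂ → W) (r : ℝ) : Prop where
  cofr : Cofr A Ω
  pos : 0 < r
  sm : ContDiffOn ℝ ∞ u (ball 0 r)
  maps : MapsTo u (ball 0 r) Ω
  cr : CR A u (ball 0 r)

variable {A : W → W →L[ℝ] W} {Ω : Set W} {u : ℂ → W} {r : ℝ}

theorem Sm_Cusp.uAt (h : Sm_Cusp A Ω u r) {z : ℂ} (hz : z ∈ ball (0 : ℂ) r) :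
    ContDiffAt ℝ ∞ u z := h.sm.contDiffAt (isOpen_ball.mem_nhds hz)

theorem Sm_Cusp.AAt (h : Sm_Cusp A Ω u r) {z : ℂ} (hz : z ∈ ball (0 : ℂ) r) :
    ContDiffAt ℝ ∞ A (u z) := h.cofr.2.1.contDiffAt (h.cofr.1.mem_nhds (h.maps hz))

theorem Sm_Cusp.duAt (h : Sm_Cusp A Ω u r) {z : ℂ} (hz : z ∈ ball (0 : ℂ) r) :
    ContDiffAt ℝ ∞ (fderiv ℝ u) z := (h.uAt hz).fderiv_right (m := ∞) (by simp)

theorem Sm_Cusp.tauAt (h : Sm_Cusp A Ω u r) {z : ℂ} (hz : z ∈ ball (0 : ℂ) r) :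
    ContDiffAt ℝ ∞ (tau_Cusp A u) z :=
  ((h.AAt hz).comp z (h.uAt hz)).clm_apply ((h.duAt hz).clm_apply contDiffAt_const)

theorem Sm_Cusp.dbar_tau (h : Sm_Cusp A Ω u r) {z : ℂ} (hz : z ∈ ball (0 : ℂ) r) :
    dbar (tau_Cusp A u) z = (I / 2) • (fderiv ℝ A (u z) (fderiv ℝ u z I) (fderiv ℝ u z 1) -
      fderiv ℝ A (u z) (fderiv ℝ u z 1) (fderiv ℝ u z I)) := by
  have hA : HasFDerivAt (fun t => A (u t)) ((fderiv ℝ A (u z)).comp (fderiv ℝ u z)) z :=
    ((h.AAt hz).differentiableAt (by simp)).hasFDerivAt.comp z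
      ((h.uAt hz).differentiableAt (by simp)).hasFDerivAt
  have hD : HasFDerivAt (fderiv ℝ u) (fderiv ℝ (fderiv ℝ u) z) z :=
    ((h.duAt hz).differentiableAt (by simp)).hasFDerivAt
  have hT : ∀ c k : ℂ, fderiv ℝ (fun t => A (u t) (fderiv ℝ u t c)) z k =
      fderiv ℝ A (u z) (fderiv ℝ u z k) (fderiv ℝ u z c) +
        A (u z) (fderiv ℝ (fderiv ℝ u) z k c) := by
    intro c k
    have h1 := hD.clm_apply (hasFDerivAt_const c z)
    rw [(hA.clm_apply h1).fderiv]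
    simp [add_comm]
  have hsymm : fderiv ℝ (fderiv ℝ u) z 1 I = fderiv ℝ (fderiv ℝ u) z I 1 :=
    ((h.uAt hz).isSymmSndFDerivAt (by simpa using WithTop.coe_le_coe.2 (le_top : (2 : ℕ∞) ≤ ⊤))) 1 I
  have hev : (fun t => A (u t) (fderiv ℝ u t I)) =ᶠ[𝓝 z] fun t => I • tau_Cusp A u t :=
    Filter.eventually_of_mem (isOpen_ball.mem_nhds hz) fun t ht => lin_Cusp h.cr ht I
  have hτ : DifferentiableAt ℝ (tau_Cusp A u) z := (h.tauAt hz).differentiableAt (by simp)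
  have e1 : fderiv ℝ (fun t => A (u t) (fderiv ℝ u t I)) z 1 = I • fderiv ℝ (tau_Cusp A u) z 1 := by
    rw [hev.fderiv_eq, (hτ.hasFDerivAt.fun_const_smul I).fderiv]
    rfl
  have e2 : fderiv ℝ (tau_Cusp A u) z I = _ := hT 1 I
  rw [hT I 1, hsymm] at e1
  have e3 : fderiv ℝ (tau_Cusp A u) z 1 = (-I) • (I • fderiv ℝ (tau_Cusp A u) z 1) := by
    rw [smul_smul]; simp
  unfold dbar
  rw [e3, ← e1, e2]
  module

/-- Uniform bounds on a smaller closed disc. -/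
theorem Sm_Cusp.bounds (h : Sm_Cusp A Ω u r) {ρ : ℝ} (hρ : ρ < r) : ∃ C : ℝ, 0 < C ∧
    ∀ z : ℂ, ‖z‖ ≤ ρ → (∀ v, ‖v‖ ≤ C * ‖A (u z) v‖) ∧ ‖fderiv ℝ A (u z)‖ ≤ C ∧
      ‖fderiv ℝ u z‖ ≤ C ∧ ‖A (u z)‖ ≤ C ∧ ‖u z‖ ≤ C := by
  have hsub : closedBall (0 : ℂ) ρ ⊆ ball 0 r := closedBall_subset_ball hρ
  have hK : IsCompact (u '' closedBall 0 ρ) :=
    (isCompact_closedBall 0 ρ).image_of_continuousOn (h.sm.continuousOn.mono hsub)
  have hKΩ : u '' closedBall 0 ρ ⊆ Ω := by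
    rintro _ ⟨z, hz, rfl⟩
    exact h.maps (hsub hz)
  obtain ⟨C0, hC0, h0⟩ := low_Cusp A Ω _ h.cofr hK hKΩ
  obtain ⟨C1, h1⟩ : ∃ C1 : ℝ, ∀ p ∈ u '' closedBall 0 ρ, ‖fderiv ℝ A p‖ ≤ C1 :=
    IsCompact.exists_bound_of_continuousOn (E := W →L[ℝ] W →L[ℝ] W) hK
      ((h.cofr.2.1.continuousOn_fderiv_of_isOpen h.cofr.1 (by simp)).mono hKΩ)
  obtain ⟨C2, h2⟩ := (isCompact_closedBall (0 : ℂ) ρ).exists_bound_of_continuousOn
    ((h.sm.continuousOn_fderiv_of_isOpen isOpen_ball (by simp)).mono hsub)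
  obtain ⟨C3, h3⟩ := hK.exists_bound_of_continuousOn (h.cofr.2.1.continuousOn.mono hKΩ)
  obtain ⟨C4, h4⟩ := (isCompact_closedBall (0 : ℂ) ρ).exists_bound_of_continuousOn
    (h.sm.continuousOn.mono hsub)
  have p1 := abs_nonneg C1
  have p2 := abs_nonneg C2
  have p3 := abs_nonneg C3
  have p4 := abs_nonneg C4
  refine ⟨C0 + |C1| + |C2| + |C3| + |C4| + 1, by positivity, fun z hz => ?_⟩
  have hz' : z ∈ closedBall (0 : ℂ) ρ := mem_closedBall_zero_iff.2 hz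
  refine ⟨fun v => (h0 _ ⟨z, hz', rfl⟩ v).trans
    (mul_le_mul_of_nonneg_right (by linarith) (norm_nonneg _)), ?_, ?_, ?_, ?_⟩
  · have := (h1 _ ⟨z, hz', rfl⟩).trans (le_abs_self _); linarith
  · have := (h2 _ hz').trans (le_abs_self _); linarith
  · have := (h3 _ ⟨z, hz', rfl⟩).trans (le_abs_self _); linarith
  · have := (h4 _ hz').trans (le_abs_self _); linarith

theorem Sm_Cusp.lead (h : Sm_Cusp A Ω u r) (hW : HWStmt) (hi : InjOn u (ball 0 r))
    (h0 : fderiv ℝ u 0 1 = 0) : ∃ (m : ℕ) (a : W), 1 ≤ m ∧ a ≠ 0 ∧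
      Tendsto (fun z => (z ^ m)⁻¹ • tau_Cusp A u z) (𝓝[≠] 0) (𝓝 a) := by
  have hr := h.pos
  obtain ⟨C, hC, hb⟩ := h.bounds (ρ := r / 2) (by linarith)
  have hsub : ball (0 : ℂ) (r / 2) ⊆ ball 0 r := ball_subset_ball (by linarith)
  have key := hW W (tau_Cusp A u) 0 (r / 2) (C * C * C) (C * C) (by positivity)
    (fun z hz => ((h.tauAt (hsub hz.1)).of_le (by simp)).contDiffWithinAt) (by
      intro z hz
      obtain ⟨b0, b1, b2, b3, -⟩ := hb z (mem_ball_zero_iff.1 hz.1).le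
      have u1 : ‖fderiv ℝ u z 1‖ ≤ C := by simpa using ((fderiv ℝ u z).le_opNorm 1).trans (by simpa)
      have uI : ‖fderiv ℝ u z I‖ ≤ C := by simpa using ((fderiv ℝ u z).le_opNorm I).trans (by simpa)
      have u2 : ‖fderiv ℝ u z 1‖ ≤ C * ‖tau_Cusp A u z‖ := b0 _
      refine ⟨((A (u z)).le_opNorm _).trans (mul_le_mul b3 u1 (norm_nonneg _) hC.le), ?_⟩
      rw [h.dbar_tau (hsub hz.1), norm_smul]
      have t1 : ‖fderiv ℝ A (u z) (fderiv ℝ u z I) (fderiv ℝ u z 1)‖ ≤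
          C * C * (C * ‖tau_Cusp A u z‖) :=
        ((fderiv ℝ A (u z)).le_opNorm₂ _ _).trans
          (mul_le_mul (mul_le_mul b1 uI (norm_nonneg _) hC.le) u2 (norm_nonneg _) (by positivity))
      have t2 : ‖fderiv ℝ A (u z) (fderiv ℝ u z 1) (fderiv ℝ u z I)‖ ≤
          C * (C * ‖tau_Cusp A u z‖) * C :=
        ((fderiv ℝ A (u z)).le_opNorm₂ _ _).trans
          (mul_le_mul (mul_le_mul b1 u2 (norm_nonneg _) hC.le) uI (norm_nonneg _) (by positivity))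
      have t3 := norm_sub_le (fderiv ℝ A (u z) (fderiv ℝ u z I) (fderiv ℝ u z 1))
        (fderiv ℝ A (u z) (fderiv ℝ u z 1) (fderiv ℝ u z I))
      have t4 : ‖I / 2‖ = 1 / 2 := by simp
      rw [t4]
      nlinarith)
  rcases key with key | ⟨m, a, ha, key⟩
  · exfalso
    obtain ⟨d, hd, hdz⟩ := Metric.eventually_nhds_iff.1 (eventually_nhdsWithin_iff.1 key)
    set e := min d r / 4 with he
    have he0 : 0 < e := by positivity
    have hed : 4 * e ≤ d := by have := min_le_left d r; linarith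
    have her : 4 * e ≤ r := by have := min_le_right d r; linarith
    have hin : ∀ z ∈ closedBall ((2 * e : ℝ) : ℂ) e, ‖z‖ ≤ 3 * e ∧ z ≠ 0 := by
      intro z hz
      rw [mem_closedBall, dist_eq_norm] at hz
      have n2 : ‖((2 * e : ℝ) : ℂ)‖ = 2 * e := by
        rw [Complex.norm_real, Real.norm_eq_abs, abs_of_pos (by linarith)]
      refine ⟨?_, ?_⟩
      · have := norm_le_norm_add_norm_sub' z ((2 * e : ℝ) : ℂ)
        linarith
      · rintro rfl
        rw [zero_sub, norm_neg, n2] at hz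
        linarith
    have hbl : ∀ z ∈ closedBall ((2 * e : ℝ) : ℂ) e, z ∈ ball (0 : ℂ) r := fun z hz =>
      mem_ball_zero_iff.2 (by have := (hin z hz).1; linarith)
    have hz1 : ((2 * e : ℝ) : ℂ) ∈ closedBall ((2 * e : ℝ) : ℂ) e := mem_closedBall_self he0.le
    have hz2 : ((3 * e : ℝ) : ℂ) ∈ closedBall ((2 * e : ℝ) : ℂ) e := by
      rw [mem_closedBall, dist_eq_norm, ← Complex.ofReal_sub, Complex.norm_real, Real.norm_eq_abs,
        abs_of_pos (by linarith)]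
      linarith
    have hmv := (convex_closedBall ((2 * e : ℝ) : ℂ) e).norm_image_sub_le_of_norm_fderiv_le
      (𝕜 := ℝ) (f := u) (C := 0)
      (fun z hz => (h.uAt (hbl z hz)).differentiableAt (by simp)) (by
        intro z hz
        have t0 : tau_Cusp A u z = 0 :=
          hdz (by rw [dist_zero_right]; have := (hin z hz).1; linarith) (hin z hz).2
        refine ContinuousLinearMap.opNorm_le_bound _ le_rfl fun c => ?_
        have : fderiv ℝ u z c = 0 := h.cofr.2.2 _ (h.maps (hbl z hz)) (by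
          rw [lin_Cusp h.cr (hbl z hz), t0, smul_zero, map_zero])
        simp [this]) hz1 hz2
    rw [zero_mul, norm_le_zero_iff, sub_eq_zero] at hmv
    have := hi (hbl _ hz2) (hbl _ hz1) hmv
    have := Complex.ofReal_injective this
    linarith
  · simp only [sub_zero] at key
    refine ⟨m, a, ?_, ha, key⟩
    by_contra hm
    obtain rfl : m = 0 := by omega
    simp only [pow_zero, inv_one, one_smul] at key
    have hc : Tendsto (tau_Cusp A u) (𝓝[≠] 0) (𝓝 (tau_Cusp A u 0)) :=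
      (h.tauAt (mem_ball_self hr)).continuousAt.tendsto.mono_left nhdsWithin_le_nhds
    have := tendsto_nhds_unique key hc
    rw [tau_Cusp, h0, map_zero] at this
    exact ha this

/-- The model map. -/
def mod_Cusp (m : ℕ) (s : ℂ) : W := (s ^ (m + 1), 0)

theorem fd_mod_Cusp (m : ℕ) (s c : ℂ) :
    fderiv ℝ (mod_Cusp m) s c = (((m + 1 : ℕ) : ℂ) * s ^ m * c, 0) := by
  have h1 : HasFDerivAt (fun s : ℂ => s ^ (m + 1))
      ((ContinuousLinearMap.toSpanSingleton ℂ (((m + 1 : ℕ) : ℂ) * s ^ m)).restrictScalars ℝ) s :=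
    (by simpa using (hasDerivAt_pow (m + 1) s).hasFDerivAt :
      HasFDerivAt (fun s : ℂ => s ^ (m + 1))
        (ContinuousLinearMap.toSpanSingleton ℂ (((m + 1 : ℕ) : ℂ) * s ^ m)) s).restrictScalars ℝ
  have h2 := h1.prodMk (hasFDerivAt_const (0 : ℂ) s)
  have : fderiv ℝ (mod_Cusp m) s = _ := h2.fderiv
  rw [this]
  simp [mul_comm]

theorem diff_mod_Cusp (m : ℕ) (s : ℂ) : DifferentiableAt ℝ (mod_Cusp m) s := by
  unfold mod_Cusp
  fun_prop

theorem dq_mod_Cusp (m : ℕ) (q : W) :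
    dq_Cusp (fun _ => ContinuousLinearMap.id ℝ W) (mod_Cusp m) q =
      (∑ i ∈ Finset.range (m + 1), q.2 ^ i * q.1 ^ (m + 1 - 1 - i), 0) := by
  unfold dq_Cusp tau_Cusp
  split_ifs with hq
  · rw [ContinuousLinearMap.id_apply, fd_mod_Cusp, hq, geom_sum₂_self]
    simp
  · have hne : q.2 - q.1 ≠ 0 := sub_ne_zero.2 hq
    rw [ContinuousLinearMap.id_apply, mod_Cusp, mod_Cusp, Prod.mk_sub_mk, Prod.smul_mk,
      ← Commute.mul_geom_sum₂ (Commute.all q.2 q.1), smul_eq_mul, ← mul_assoc,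
      inv_mul_cancel₀ hne, one_mul]
    simp

/-- The basic estimate at a critical point with normalised leading term. -/
theorem Sm_Cusp.est (h : Sm_Cusp A Ω u r) {m : ℕ} (hm : 1 ≤ m) (h0 : fderiv ℝ u 0 1 = 0)
    (hl : Tendsto (fun z => (z ^ m)⁻¹ • tau_Cusp A u z) (𝓝[≠] 0) (𝓝 (((m + 1 : ℕ) : ℂ), 0)))
    {ε : ℝ} (hε : 0 < ε) : ∃ ρ : ℝ, 0 < ρ ∧ ρ < r ∧ ∀ z s : ℂ, ‖z‖ ≤ ρ → ‖s‖ ≤ ρ → ∀ c,
      ‖A (u z) (fderiv ℝ u s c) - fderiv ℝ (mod_Cusp m) s c‖ ≤ ε * ‖s‖ ^ m * ‖c‖ := by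
  have hr := h.pos
  obtain ⟨C, hC, hb⟩ := h.bounds (ρ := r / 2) (by linarith)
  set e1 := min 1 (ε / 2)
  have he1 : 0 < e1 := lt_min one_pos (by positivity)
  set e2 := ε / (4 * C * (m + 2))
  have he2 : 0 < e2 := by positivity
  obtain ⟨d1, hd1, h1⟩ := Metric.eventually_nhds_iff.1
    (eventually_nhdsWithin_iff.1 (Metric.tendsto_nhds.1 hl e1 he1))
  have hcA : ContinuousAt (fun t => A (u t)) 0 :=
    ((h.AAt (mem_ball_self hr)).comp 0 (h.uAt (mem_ball_self hr))).continuousAt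
  obtain ⟨d2, hd2, h2⟩ := Metric.continuousAt_iff.1 hcA e2 he2
  refine ⟨min (r / 2) (min d1 d2 / 2), by positivity, (min_le_left _ _).trans_lt (by linarith),
    fun z s hz hs c => ?_⟩
  have sm : ∀ t : ℂ, ‖t‖ ≤ min (r / 2) (min d1 d2 / 2) →
      ‖t‖ ≤ r / 2 ∧ dist t 0 < d1 ∧ dist t 0 < d2 := by
    intro t ht
    have a1 := ht.trans (min_le_right _ _)
    have a2 := min_le_left d1 d2
    have a3 := min_le_right d1 d2
    have a4 : 0 < min d1 d2 := lt_min hd1 hd2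
    rw [dist_zero_right]
    exact ⟨ht.trans (min_le_left _ _), by linarith, by linarith⟩
  have hsb : s ∈ ball (0 : ℂ) r := mem_ball_zero_iff.2 (by have := (sm s hs).1; linarith)
  have t1 : ‖tau_Cusp A u s - (((m + 1 : ℕ) : ℂ) * s ^ m, 0)‖ ≤ e1 * ‖s‖ ^ m := by
    rcases eq_or_ne s 0 with rfl | hs0
    · have : m ≠ 0 := by omega
      simp [tau_Cusp, h0, this]
    · have a1 := h1 (sm s hs).2.1 hs0
      rw [dist_eq_norm] at a1
      have hp : s ^ m ≠ 0 := pow_ne_zero _ hs0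
      have a2 : tau_Cusp A u s - (((m + 1 : ℕ) : ℂ) * s ^ m, 0) =
          s ^ m • ((s ^ m)⁻¹ • tau_Cusp A u s - (((m + 1 : ℕ) : ℂ), 0)) := by
        rw [smul_sub, smul_smul, mul_inv_cancel₀ hp, one_smul]
        simp [mul_comm]
      rw [a2, norm_smul, norm_pow, mul_comm]
      exact mul_le_mul_of_nonneg_right a1.le (by positivity)
  have t2 : ‖tau_Cusp A u s‖ ≤ (m + 2) * ‖s‖ ^ m := by
    have a1 := norm_le_norm_add_norm_sub' (tau_Cusp A u s) (((m + 1 : ℕ) : ℂ) * s ^ m, 0)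
    have a2 : ‖((((m + 1 : ℕ) : ℂ) * s ^ m, 0) : W)‖ = (m + 1) * ‖s‖ ^ m := by
      rw [Prod.norm_def, norm_zero, max_eq_left (norm_nonneg _), norm_mul, norm_pow,
        Complex.norm_natCast]
      push_cast
      rfl
    have a3 : e1 * ‖s‖ ^ m ≤ 1 * ‖s‖ ^ m :=
      mul_le_mul_of_nonneg_right (min_le_left _ _) (by positivity)
    linarith
  have t3 : ‖fderiv ℝ u s c‖ ≤ C * (‖c‖ * ((m + 2) * ‖s‖ ^ m)) := by
    refine ((hb s (sm s hs).1).1 _).trans (mul_le_mul_of_nonneg_left ?_ hC.le)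
    rw [lin_Cusp h.cr hsb, norm_smul]
    exact mul_le_mul_of_nonneg_left t2 (norm_nonneg _)
  have t4 : ‖A (u z) - A (u s)‖ ≤ 2 * e2 := by
    have a1 := h2 (sm z hz).2.2
    have a2 := h2 (sm s hs).2.2
    have a3 := dist_triangle_right (A (u z)) (A (u s)) (A (u 0))
    rw [← dist_eq_norm]
    linarith
  have e0 : A (u z) (fderiv ℝ u s c) - fderiv ℝ (mod_Cusp m) s c =
      (A (u z) - A (u s)) (fderiv ℝ u s c) +
        c • (tau_Cusp A u s - (((m + 1 : ℕ) : ℂ) * s ^ m, 0)) := by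
    rw [smul_sub, ← lin_Cusp h.cr hsb, fd_mod_Cusp]
    simp [mul_comm]
  have t5 : ‖(A (u z) - A (u s)) (fderiv ℝ u s c)‖ ≤ 2 * e2 * (C * (‖c‖ * ((m + 2) * ‖s‖ ^ m))) :=
    (ContinuousLinearMap.le_opNorm _ _).trans (mul_le_mul t4 t3 (norm_nonneg _) (by positivity))
  have t6 : 2 * e2 * (C * (‖c‖ * ((m + 2) * ‖s‖ ^ m))) = ε / 2 * ‖s‖ ^ m * ‖c‖ := by
    simp only [e2]
    field_simp
    ring
  have t7 : ‖c • (tau_Cusp A u s - (((m + 1 : ℕ) : ℂ) * s ^ m, 0))‖ ≤ ε / 2 * ‖s‖ ^ m * ‖c‖ := by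
    rw [norm_smul, mul_comm]
    exact mul_le_mul_of_nonneg_right
      (t1.trans (mul_le_mul_of_nonneg_right (min_le_right _ _) (by positivity))) (norm_nonneg _)
  rw [e0]
  refine (norm_add_le _ _).trans ?_
  linarith

end Pool.Agent.MP_2fc7fa_gt.N

end
end

section

/-! The branches of the self-intersection locus near a critical point. -/

open scoped ContDiff ComplexConjugate Topology
open Set Complex Filter Metric

noncomputable section

namespace Pool.Agent.MP_2fc7fa_gt.N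

theorem fix_Cusp {g : ℂ → ℂ} {κ c : ℂ} {R : ℝ} (hκ : κ ≠ 0) (hR : 0 ≤ R)
    (h1 : ∀ s ∈ closedBall c R, ∀ s' ∈ closedBall c R,
      ‖g s - g s' - κ * (s - s')‖ ≤ ‖κ‖ / 2 * ‖s - s'‖) (h2 : ‖g c‖ ≤ ‖κ‖ * (R / 4)) :
    ∃ w, ‖w - c‖ ≤ 3 / 4 * R ∧ g w = 0 ∧ ∀ s ∈ closedBall c R, g s = 0 → s = w := by
  have hk : 0 < ‖κ‖ := norm_pos_iff.2 hκ
  set T : ℂ → ℂ := fun s => s - κ⁻¹ * g s with hT
  have l1 : ∀ s ∈ closedBall c R, ∀ s' ∈ closedBall c R, ‖T s - T s'‖ ≤ 1 / 2 * ‖s - s'‖ := by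
    intro s hs s' hs'
    have e : T s - T s' = -κ⁻¹ * (g s - g s' - κ * (s - s')) := by
      simp only [hT]; field_simp; ring
    rw [e, norm_mul, norm_neg, norm_inv, inv_mul_le_iff₀ hk]
    have := h1 s hs s' hs'
    linarith
  have l2 : ∀ s ∈ closedBall c R, ‖T s - c‖ ≤ 3 / 4 * R := by
    intro s hs
    have a1 := l1 s hs c (mem_closedBall_self hR)
    have a2 : ‖T c - c‖ ≤ R / 4 := by
      have e : T c - c = -κ⁻¹ * g c := by simp only [hT]; ring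
      rw [e, norm_mul, norm_neg, norm_inv, inv_mul_le_iff₀ hk]
      exact h2
    have a3 := norm_sub_le_norm_sub_add_norm_sub (T s) (T c) c
    rw [mem_closedBall, dist_eq_norm] at hs
    linarith
  have hm : MapsTo T (closedBall c R) (closedBall c R) := fun s hs => by
    rw [mem_closedBall, dist_eq_norm]
    have := l2 s hs
    linarith
  have hc : ContractingWith (1 / 2) (hm.restrict T _ _) := by
    refine ⟨by norm_num, LipschitzWith.of_dist_le_mul fun x y => ?_⟩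
    have := l1 x x.2 y y.2
    simpa [Subtype.dist_eq, dist_eq_norm] using this
  obtain ⟨w, hw, hfix, -⟩ := hc.exists_fixedPoint' isClosed_closedBall.isComplete hm
    (mem_closedBall_self hR) (edist_ne_top _ _)
  have fx : ∀ s, g s = 0 ↔ T s = s := fun s => by simp [hT, hκ]
  refine ⟨w, by have := l2 w hw; rwa [hfix.eq] at this, (fx w).2 hfix, fun s hs h0 => ?_⟩
  have := l1 s hs w hw
  rw [(fx s).1 h0, hfix.eq] at this
  have := norm_nonneg (s - w)
  exact sub_eq_zero.1 (norm_eq_zero.1 (by linarith))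

theorem imp_Cusp {G : W → ℂ} {q : W} (hG : ContDiffAt ℝ 1 G q)
    (hi : ∀ c, fderiv ℝ G q (0, c) = 0 → c = 0) : ∃ ψ : ℂ → ℂ, ContDiffAt ℝ 1 ψ q.1 ∧
      ψ q.1 = q.2 ∧ ∀ᶠ z in 𝓝 q.1, G (z, ψ z) = G q := by
  have hinj : Function.Injective (fderiv ℝ G q ∘L ContinuousLinearMap.inr ℝ ℂ ℂ) :=
    (injective_iff_map_eq_zero _).2 fun c hc => hi c hc
  have hinv : (fderiv ℝ G q ∘L ContinuousLinearMap.inr ℝ ℂ ℂ).IsInvertible :=
    ⟨(LinearEquiv.ofInjectiveEndo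
      (fderiv ℝ G q ∘L ContinuousLinearMap.inr ℝ ℂ ℂ).toLinearMap hinj).toContinuousLinearEquiv,
      ContinuousLinearMap.ext fun _ => rfl⟩
  exact ⟨hG.implicitFunction one_ne_zero hinv, hG.contDiffAt_implicitFunction _ _,
    hG.implicitFunction_apply_self _ _, hG.eventually_apply_implicitFunction _ _⟩

theorem cone_Cusp {v : W} {m : ℕ} {s c : ℂ} {ε : ℝ} (hm : 1 ≤ m) (hε : ε ≤ 1 / 4)
    (h : ‖v - fderiv ℝ (mod_Cusp m) s c‖ ≤ ε * ‖s‖ ^ m * ‖c‖) :
    ‖v.2‖ ≤ ‖v.1‖ ∧ ‖s‖ ^ m * ‖c‖ ≤ ‖v.1‖ := by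
  rw [fd_mod_Cusp] at h
  have a1 := (norm_fst_le _).trans h
  have a2 := (norm_snd_le _).trans h
  simp only [Prod.fst_sub, Prod.snd_sub, sub_zero] at a1 a2
  have a3 : ‖((m + 1 : ℕ) : ℂ) * s ^ m * c‖ = (m + 1) * (‖s‖ ^ m * ‖c‖) := by
    rw [norm_mul, norm_mul, norm_pow, Complex.norm_natCast]
    push_cast
    ring
  have a4 := norm_le_norm_add_norm_sub v.1 (((m + 1 : ℕ) : ℂ) * s ^ m * c)
  have a5 : (1 : ℝ) ≤ m := by exact_mod_cast hm
  have a6 : 0 ≤ ‖s‖ ^ m * ‖c‖ := by positivity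
  have a7 : ε * ‖s‖ ^ m * ‖c‖ ≤ 1 / 4 * (‖s‖ ^ m * ‖c‖) := by
    rw [mul_assoc]; exact mul_le_mul_of_nonneg_right hε a6
  constructor <;> nlinarith

theorem eta_Cusp (m : ℕ) : ∃ η : ℝ, 0 < η ∧ η ≤ 1 / 2 ∧ ∀ σ : ℂ, ‖σ - 1‖ ≤ η → ‖σ ^ m - 1‖ ≤ 1 / 4 := by
  obtain ⟨d, hd, h⟩ := Metric.continuousAt_iff.1
    ((continuous_pow m (M := ℂ)).continuousAt (x := 1)) (1 / 4) (by norm_num)
  refine ⟨min (d / 2) (1 / 2), by positivity, min_le_right _ _, fun σ hσ => ?_⟩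
  have := h (x := σ) (by
    rw [dist_eq_norm]
    have := hσ.trans (min_le_left _ _)
    linarith)
  rw [dist_eq_norm, one_pow] at this
  exact this.le

variable {A : W → W →L[ℝ] W} {Ω : Set W} {u : ℂ → W} {r : ℝ}

/-- The basic estimate holds on the closed disc of radius `ρ`. -/
def Est_Cusp (A : W → W →L[ℝ] W) (u : ℂ → W) (m : ℕ) (ε ρ : ℝ) : Prop :=
  ∀ z s : ℂ, ‖z‖ ≤ ρ → ‖s‖ ≤ ρ → ∀ c,
    ‖A (u z) (fderiv ℝ u s c) - fderiv ℝ (mod_Cusp m) s c‖ ≤ ε * ‖s‖ ^ m * ‖c‖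

theorem Sm_Cusp.est2 (h : Sm_Cusp A Ω u r) {m : ℕ} {ε ρ R : ℝ} (hE : Est_Cusp A u m ε ρ)
    (hε : 0 ≤ ε) (hρ : ρ < r) (hR : R ≤ ρ) {z s : ℂ} (hz : ‖z‖ ≤ R) (hs : ‖s‖ ≤ R) :
    ‖A (u z) (u s - u z) - (s ^ (m + 1) - z ^ (m + 1), 0)‖ ≤ ε * R ^ m * ‖s - z‖ := by
  have hR0 : 0 ≤ R := (norm_nonneg _).trans hz
  have := mv_Cusp (A (u z)) (ContinuousLinearMap.id ℝ W) (u := u) (u' := mod_Cusp m)
    (e := ε * R ^ m) (convex_closedBall (0 : ℂ) R) (by positivity)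
    (fun t ht => (h.uAt (mem_ball_zero_iff.2 (by
      have := mem_closedBall_zero_iff.1 ht; linarith))).differentiableAt (by simp))
    (fun t _ => diff_mod_Cusp m t) (fun t ht c => by
      have ht' := mem_closedBall_zero_iff.1 ht
      refine (hE z t (hz.trans hR) (ht'.trans hR) c).trans ?_
      gcongr) (mem_closedBall_zero_iff.2 hs) (mem_closedBall_zero_iff.2 hz)
  simpa [mod_Cusp] using this

/-- Existence, uniqueness and smoothness of the branch that belongs to a root of unity. -/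
theorem Sm_Cusp.branch (h : Sm_Cusp A Ω u r) {m : ℕ} {ε ρ η : ℝ} (hm : 1 ≤ m)
    (hE : Est_Cusp A u m ε ρ) (hε0 : 0 ≤ ε) (hε : ε ≤ η / 4) (hρ : ρ < r) (hη0 : 0 < η)
    (hη : η ≤ 1 / 2) (hp : ∀ σ : ℂ, ‖σ - 1‖ ≤ η → ‖σ ^ m - 1‖ ≤ 1 / 4) {om : ℂ}
    (hom : om ^ (m + 1) = 1) : ∃ w : ℂ → ℂ, ∀ z, z ≠ 0 → 2 * ‖z‖ < ρ →
      ‖w z - om * z‖ ≤ η * ‖z‖ ∧ (A (u z) (u (w z) - u z)).1 = 0 ∧
      (∀ s, ‖s - om * z‖ ≤ η * ‖z‖ → (A (u z) (u s - u z)).1 = 0 → s = w z) ∧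
      ContDiffAt ℝ 1 w z := by
  have hn : ‖om‖ = 1 := norm_eq_one_of_pow_eq_one hom (by omega)
  have hm' : (1 : ℝ) ≤ m := by exact_mod_cast hm
  have sz : ∀ z s : ℂ, ‖s - om * z‖ ≤ η * ‖z‖ → ‖s‖ ≤ 2 * ‖z‖ ∧ ‖z‖ ≤ 2 * ‖s‖ := by
    intro z s hs
    have a1 := norm_le_norm_add_norm_sub' s (om * z)
    have a2 := norm_le_norm_add_norm_sub s (om * z)
    rw [norm_mul, hn, one_mul] at a1 a2
    have a3 : η * ‖z‖ ≤ 1 / 2 * ‖z‖ := mul_le_mul_of_nonneg_right hη (norm_nonneg _)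
    have := norm_nonneg z
    constructor <;> linarith
  have key : ∀ z : ℂ, ∃ w : ℂ, z ≠ 0 → 2 * ‖z‖ < ρ → ‖w - om * z‖ ≤ 3 / 4 * (η * ‖z‖) ∧
      (A (u z) (u w - u z)).1 = 0 ∧
      ∀ s ∈ closedBall (om * z) (η * ‖z‖), (A (u z) (u s - u z)).1 = 0 → s = w := by
    intro z
    by_cases hz : z ≠ 0 ∧ 2 * ‖z‖ < ρ
    swap
    · exact ⟨0, fun a b => absurd ⟨a, b⟩ hz⟩
    obtain ⟨hz0, hz⟩ := hz
    have hzp : 0 < ‖z‖ := norm_pos_iff.2 hz0
    have hoz : om * z ≠ 0 := mul_ne_zero (norm_pos_iff.1 (by rw [hn]; exact one_pos)) hz0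
    have hκ : ‖((m + 1 : ℕ) : ℂ) * (om * z) ^ m‖ = (m + 1) * ‖z‖ ^ m := by
      rw [norm_mul, norm_pow, norm_mul, hn, one_mul, Complex.norm_natCast]
      push_cast
      rfl
    obtain ⟨w, hw⟩ := fix_Cusp (g := fun s => (A (u z) (u s - u z)).1)
      (κ := ((m + 1 : ℕ) : ℂ) * (om * z) ^ m) (c := om * z) (R := η * ‖z‖)
      (norm_pos_iff.1 (by rw [hκ]; positivity)) (by positivity) (by
        intro s hs s' hs'
        have := mv_Cusp ((ContinuousLinearMap.fst ℝ ℂ ℂ).comp (A (u z)))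
          (ContinuousLinearMap.fst ℝ ℂ ℂ) (u := u)
          (u' := fun s => s • ((((m + 1 : ℕ) : ℂ) * (om * z) ^ m, 0) : W))
          (e := ‖((m + 1 : ℕ) : ℂ) * (om * z) ^ m‖ / 2) (convex_closedBall (om * z) (η * ‖z‖))
          (by positivity) (fun t ht => (h.uAt (mem_ball_zero_iff.2 (by
            have := (sz z t (by rwa [mem_closedBall, dist_eq_norm] at ht)).1
            linarith))).differentiableAt (by simp)) (fun t _ => by fun_prop) (by
            intro t ht c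
            rw [mem_closedBall, dist_eq_norm] at ht
            have b1 := (norm_fst_le _).trans (hE z t (by linarith) (by have := (sz z t ht).1; linarith) c)
            rw [fd_mod_Cusp] at b1
            have b2 : ‖(t / (om * z)) ^ m - 1‖ ≤ 1 / 4 := hp _ (by
              rw [div_sub_one hoz, norm_div, norm_mul, hn, one_mul, div_le_iff₀ hzp]
              exact ht)
            have b3 : ‖t ^ m - (om * z) ^ m‖ ≤ 1 / 4 * ‖z‖ ^ m := by
              rw [div_pow, div_sub_one (pow_ne_zero _ hoz), norm_div, norm_pow, norm_mul, hn,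
                one_mul, div_le_iff₀ (by positivity)] at b2
              exact b2
            have b4 : ‖t‖ ^ m ≤ 5 / 4 * ‖z‖ ^ m := by
              have := norm_le_norm_add_norm_sub' (t ^ m) ((om * z) ^ m)
              rw [norm_pow, norm_pow, norm_mul, hn, one_mul] at this
              linarith
            have b5 : ‖((m + 1 : ℕ) : ℂ) * t ^ m * c - c * (((m + 1 : ℕ) : ℂ) * (om * z) ^ m)‖ ≤
                (m + 1) * (1 / 4 * ‖z‖ ^ m) * ‖c‖ := by
              have e : ((m + 1 : ℕ) : ℂ) * t ^ m * c - c * (((m + 1 : ℕ) : ℂ) * (om * z) ^ m) =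
                  ((m + 1 : ℕ) : ℂ) * (t ^ m - (om * z) ^ m) * c := by ring
              rw [e, norm_mul, norm_mul, Complex.norm_natCast]
              push_cast
              gcongr
            have b6 := norm_sub_le_norm_sub_add_norm_sub (A (u z) (fderiv ℝ u t c)).1
              (((m + 1 : ℕ) : ℂ) * t ^ m * c) (c * (((m + 1 : ℕ) : ℂ) * (om * z) ^ m))
            have b7 : ε * ‖t‖ ^ m * ‖c‖ ≤ 1 / 8 * (5 / 4 * ‖z‖ ^ m) * ‖c‖ := by
              gcongr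
              linarith
            have b8 : 0 ≤ ‖z‖ ^ m * ‖c‖ := by positivity
            rw [fd_lin_Cusp, hκ]
            simp only [Prod.fst_sub] at b1
            change ‖(A (u z) (fderiv ℝ u t c)).1 - c * (((m + 1 : ℕ) : ℂ) * (om * z) ^ m)‖ ≤ _
            nlinarith) hs hs'
        refine le_trans (le_of_eq ?_) this
        congr 1
        simp
        ring) (by
        have b1 := (norm_fst_le _).trans (h.est2 hE hε0 hρ (R := ‖z‖) (z := z) (s := om * z)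
          (by linarith) le_rfl (by rw [norm_mul, hn, one_mul]))
        have b2 : ‖om * z - z‖ ≤ 2 * ‖z‖ := by
          have := norm_sub_le (om * z) z
          rw [norm_mul, hn, one_mul] at this
          linarith
        simp only [mul_pow, hom, one_mul, sub_self, Prod.fst_sub, sub_zero] at b1
        rw [hκ]
        have b3 : ε * ‖z‖ ^ m * ‖om * z - z‖ ≤ η / 4 * ‖z‖ ^ m * (2 * ‖z‖) := by gcongr
        have b4 : 0 ≤ η * ‖z‖ * ‖z‖ ^ m := by positivity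
        nlinarith)
    exact ⟨w, fun _ _ => hw⟩
  choose w hw using key
  refine ⟨w, fun z hz0 hz => ?_⟩
  obtain ⟨w1, w2, w3⟩ := hw z hz0 hz
  have hzp : 0 < ‖z‖ := norm_pos_iff.2 hz0
  have hpos : 0 < η * ‖z‖ := by positivity
  have w4 : ‖w z - om * z‖ ≤ η * ‖z‖ := by linarith
  refine ⟨w4, w2, fun s hs => w3 s (by rwa [mem_closedBall, dist_eq_norm]), ?_⟩
  have hzb : z ∈ ball (0 : ℂ) r := mem_ball_zero_iff.2 (by linarith)
  have hwb : w z ∈ ball (0 : ℂ) r := mem_ball_zero_iff.2 (by have := (sz z _ w4).1; linarith)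
  have c1 : ContDiffAt ℝ ∞ (fun q : W => u q.1) (z, w z) := (h.uAt hzb).comp _ contDiffAt_fst
  have c2 : ContDiffAt ℝ ∞ (fun q : W => u q.2) (z, w z) := ContDiffAt.comp (g := u) (f := Prod.snd) (z, w z)
    (h.uAt hwb) contDiffAt_snd
  have c3 : ContDiffAt ℝ ∞ (fun q : W => A (u q.1)) (z, w z) :=
    ContDiffAt.comp (g := A) (f := fun q : W => u q.1) (z, w z) (h.AAt hzb) c1
  have hG : ContDiffAt ℝ 1 (fun q : W => (A (u q.1) (u q.2 - u q.1)).1) (z, w z) :=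
    ((c3.clm_apply (c2.sub c1)).fst).of_le (by simp)
  obtain ⟨ψ, p1, p2, p3⟩ := imp_Cusp hG (by
    intro c hc
    have d1 : HasFDerivAt (fun s : ℂ => ((z, s) : W)) (ContinuousLinearMap.inr ℝ ℂ ℂ) (w z) :=
      hasFDerivAt_prodMk_right z (w z)
    have d2 := (hG.differentiableAt one_ne_zero).hasFDerivAt.comp (w z) d1
    have d3 : HasFDerivAt (fun s : ℂ => (A (u z) (u s - u z)).1)
        ((ContinuousLinearMap.fst ℝ ℂ ℂ).comp ((A (u z)).comp (fderiv ℝ u (w z)))) (w z) :=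
      ((A (u z)).hasFDerivAt.comp (w z)
        (((h.uAt hwb).differentiableAt (by simp)).hasFDerivAt.sub_const (u z))).fst
    have d4 : (A (u z) (fderiv ℝ u (w z) c)).1 = 0 :=
      (congrArg (fun L : ℂ →L[ℝ] ℂ => L c) (d3.unique d2)).trans hc
    have d5 := (cone_Cusp hm (by linarith)
      (hE z (w z) (by linarith) (by have := (sz z _ w4).1; linarith) c)).2
    rw [d4, norm_zero] at d5
    have d6 : 0 < ‖w z‖ ^ m := pow_pos (by have := (sz z _ w4).2; linarith) _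
    exact norm_eq_zero.1 (le_antisymm (by by_contra hh; nlinarith [mul_pos d6 (not_le.1 hh)])
      (norm_nonneg _)))
  refine p1.congr_of_eventuallyEq ?_
  have o1 : ∀ᶠ t in 𝓝 z, t ≠ 0 := isOpen_ne.mem_nhds hz0
  have o2 : ∀ᶠ t : ℂ in 𝓝 z, 2 * ‖t‖ < ρ :=
    (ContinuousAt.eventually_lt (by fun_prop) continuousAt_const hz)
  have o3 : ∀ᶠ t : ℂ in 𝓝 z, ‖ψ t - om * t‖ < η * ‖t‖ := by
    have q1 : ContinuousAt ψ z := p1.continuousAt
    refine ContinuousAt.eventually_lt (by fun_prop) (by fun_prop) ?_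
    rw [show ψ z = w z from p2]
    linarith
  filter_upwards [o1, o2, o3, p3] with t t1 t2 t3 t4
  exact ((hw t t1 t2).2.2 _ (by rw [mem_closedBall, dist_eq_norm]; exact t3.le)
    (t4.trans w2)).symm

end Pool.Agent.MP_2fc7fa_gt.N

end
end

section

/-! The degree argument of the cusp lemma. -/

open scoped Topology
open Set Complex Filter Metric

noncomputable section

namespace Pool.Agent.MP_2fc7fa_gt.N

def clampCT (t : ℝ) : ℝ := max 0 (min 1 t)

lemma clampCT_cont : Continuous clampCT := by unfold clampCT; fun_prop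

lemma clampCT_one {t : ℝ} (h : 1 ≤ t) : clampCT t = 1 := by
  unfold clampCT; rw [min_eq_left h]; simp

lemma clampCT_zero {t : ℝ} (h : t ≤ 0) : clampCT t = 0 := by
  unfold clampCT; exact max_eq_left (le_trans (min_le_right _ _) h)

lemma clampCT_id {t : ℝ} (h0 : 0 ≤ t) (h1 : t ≤ 1) : clampCT t = t := by
  unfold clampCT; rw [min_eq_right h1, max_eq_right h0]

lemma clampCT_abs (t : ℝ) : |clampCT t| ≤ 1 := by
  unfold clampCT
  rw [abs_le]
  constructor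
  · exact le_trans (by norm_num) (le_max_left _ _)
  · exact max_le (by norm_num) (min_le_left _ _)

/-- A chain of three linear homotopies. -/
theorem chain3 (hD : DegStmt) (E : Type) [NormedAddCommGroup E] [NormedSpace ℂ E]
    [FiniteDimensional ℂ E] (K : Set E) (F0 F1 F2 F3 : E → E) (hK : IsCompact K)
    (c0 : ContinuousOn F0 K) (c1 : ContinuousOn F1 K) (c2 : ContinuousOn F2 K)
    (c3 : ContinuousOn F3 K)
    (h01 : ∀ s ∈ Icc (0 : ℝ) 1, ∀ x ∈ frontier K, (1 - (s : ℂ)) • F0 x + (s : ℂ) • F1 x ≠ 0)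
    (h12 : ∀ s ∈ Icc (0 : ℝ) 1, ∀ x ∈ frontier K, (1 - (s : ℂ)) • F1 x + (s : ℂ) • F2 x ≠ 0)
    (h23 : ∀ s ∈ Icc (0 : ℝ) 1, ∀ x ∈ frontier K, (1 - (s : ℂ)) • F2 x + (s : ℂ) • F3 x ≠ 0)
    (hf : {x ∈ K | F3 x = 0}.Finite) (hn : {x ∈ K | F3 x = 0}.Nonempty)
    (hd : ∀ x ∈ K, F3 x = 0 → ∃ L : E →L[ℂ] E, Function.Injective L ∧ HasFDerivAt F3 L x) :
    ∃ x ∈ K, F0 x = 0 := by
  let H : ℝ → E → E := fun s x => F0 x + (clampCT (3 * s) : ℂ) • (F1 x - F0 x) +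
    (clampCT (3 * s - 1) : ℂ) • (F2 x - F1 x) + (clampCT (3 * s - 2) : ℂ) • (F3 x - F2 x)
  have H1 : H 1 = F3 := by
    funext x
    simp only [H]
    rw [clampCT_one (by norm_num), clampCT_one (by norm_num), clampCT_one (by norm_num)]
    simp
  have H0 : H 0 = F0 := by
    funext x
    simp only [H]
    rw [clampCT_zero (by norm_num), clampCT_zero (by norm_num), clampCT_zero (by norm_num)]
    simp
  have key := hD E K H hK ?_ ?_ (by rw [H1]; exact hf) (by rw [H1]; exact hn) ?_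
  · rwa [H0] at key
  · have d : ∀ {F : E → E}, ContinuousOn F K →
        ContinuousOn (fun a : ℝ × E => F a.2) (Icc 0 1 ×ˢ K) := fun hF =>
      hF.comp continuousOn_snd fun a ha => ha.2
    have e : ∀ b : ℝ, ContinuousOn (fun a : ℝ × E => (clampCT (3 * a.1 - b) : ℂ)) (Icc 0 1 ×ˢ K) :=
      fun b => (continuous_ofReal.comp (clampCT_cont.comp (by fun_prop))).continuousOn
    have e0 : ContinuousOn (fun a : ℝ × E => (clampCT (3 * a.1) : ℂ)) (Icc 0 1 ×ˢ K) :=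
      (continuous_ofReal.comp (clampCT_cont.comp (by fun_prop))).continuousOn
    exact (((d c0).add (e0.smul ((d c1).sub (d c0)))).add ((e 1).smul ((d c2).sub (d c1)))).add
      ((e 2).smul ((d c3).sub (d c2)))
  · intro s hs x hx
    simp only [H]
    rcases le_total (3 * s) 1 with h | h
    · rw [clampCT_id (by linarith [hs.1]) h, clampCT_zero (by linarith), clampCT_zero (by linarith)]
      have := h01 (3 * s) ⟨by linarith [hs.1], h⟩ x hx
      convert this using 1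
      push_cast
      module
    · rcases le_total (3 * s) 2 with h' | h'
      · rw [clampCT_one h, clampCT_id (by linarith) (by linarith), clampCT_zero (by linarith)]
        have := h12 (3 * s - 1) ⟨by linarith, by linarith⟩ x hx
        convert this using 1
        push_cast
        module
      · rw [clampCT_one h, clampCT_one (by linarith), clampCT_id (by linarith) (by linarith [hs.2])]
        have := h23 (3 * s - 2) ⟨by linarith, by linarith [hs.2]⟩ x hx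
        convert this using 1
        push_cast
        module
  · intro x hx h0
    rw [H1] at h0 ⊢
    obtain ⟨L, hL, hd⟩ := hd x hx h0
    refine ⟨(LinearEquiv.ofInjectiveEndo (L : E →ₗ[ℂ] E) hL).toContinuousLinearEquiv, ?_⟩
    convert hd.restrictScalars ℝ using 1
    rfl

lemma pos_lb_CT {α : Type} (s : Finset α) (f : α → ℝ) (h : ∀ x ∈ s, 0 < f x) :
    ∃ d : ℝ, 0 < d ∧ ∀ x ∈ s, d ≤ f x := by
  classical
  induction s using Finset.induction_on with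
  | empty => exact ⟨1, one_pos, by simp⟩
  | insert a s _ ih =>
    obtain ⟨d, hd, h'⟩ := ih fun x hx => h x (Finset.mem_insert_of_mem hx)
    refine ⟨min d (f a), lt_min hd (h a (Finset.mem_insert_self _ _)), fun x hx => ?_⟩
    rcases Finset.mem_insert.1 hx with rfl | hx
    · exact min_le_right _ _
    · exact le_trans (min_le_left _ _) (h' x hx)

/-- The polynomial `(ζ ^ k - z ^ k) / (ζ - z)`. -/
def geoCT (k : ℕ) (q : W) : ℂ := ∑ i ∈ Finset.range k, q.2 ^ i * q.1 ^ (k - 1 - i)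

lemma geoCT_mul (k : ℕ) (q : W) : geoCT k q * (q.2 - q.1) = q.2 ^ k - q.1 ^ k :=
  geom_sum₂_mul _ _ _

lemma geoCT_diff (k : ℕ) : Differentiable ℂ (geoCT k) := by
  unfold geoCT; fun_prop

lemma geoCT_smul (k : ℕ) (c : ℂ) (q : W) : geoCT k (c • q) = c ^ (k - 1) * geoCT k q := by
  unfold geoCT
  rw [Finset.mul_sum]
  refine Finset.sum_congr rfl fun i hi => ?_
  have hi' : i + (k - 1 - i) = k - 1 := by have := Finset.mem_range.1 hi; omega
  simp only [Prod.smul_fst, Prod.smul_snd, smul_eq_mul, mul_pow]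
  conv_rhs => rw [← hi', pow_add]
  rw [hi']
  ring

/-- The roots of unity of order dividing `k` other than `1`. -/
def rtsCT (k : ℕ) : Finset ℂ := (Polynomial.nthRootsFinset k (1 : ℂ)).erase 1

lemma mem_rtsCT {k : ℕ} (hk : 2 ≤ k) {w : ℂ} : w ∈ rtsCT k ↔ w ^ k = 1 ∧ w ≠ 1 := by
  unfold rtsCT
  rw [Finset.mem_erase, Polynomial.mem_nthRootsFinset (by omega)]
  tauto

lemma norm_rt_CT {k : ℕ} (hk : 2 ≤ k) {w : ℂ} (h : w ^ k = 1) : ‖w‖ = 1 := by
  have : ‖w‖ ^ k = 1 := by rw [← norm_pow, h, norm_one]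
  exact (pow_eq_one_iff_of_nonneg (norm_nonneg _) (by omega)).1 this

lemma geoCT_zero {k : ℕ} (hk : 2 ≤ k) {q : W} (hq : q ≠ 0) (h : geoCT k q = 0) :
    q.1 ≠ 0 ∧ ∃ w ∈ rtsCT k, q.2 = w * q.1 := by
  have h1 : q.2 ^ k = q.1 ^ k := by
    have := geoCT_mul k q
    rw [h, zero_mul] at this
    exact sub_eq_zero.1 this.symm
  have hz : q.1 ≠ 0 := by
    intro h0
    rw [h0, zero_pow (by omega)] at h1
    exact hq (Prod.ext h0 (pow_eq_zero_iff (by omega) |>.1 h1))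
  refine ⟨hz, q.2 / q.1, (mem_rtsCT hk).2 ⟨?_, ?_⟩, by field_simp⟩
  · rw [div_pow, h1, div_self (pow_ne_zero _ hz)]
  · intro h2
    have h3 : q.2 = q.1 := by field_simp at h2; exact h2
    unfold geoCT at h
    rw [h3, geom_sum₂_self] at h
    have : (k : ℂ) ≠ 0 := by exact_mod_cast (by omega : k ≠ 0)
    exact mul_ne_zero this (pow_ne_zero _ hz) h

lemma geoCT_lb {k : ℕ} (hk : 2 ≤ k) {η : ℝ} (hη : 0 < η) : ∃ ε : ℝ, 0 < ε ∧
    ∀ q : W, q ≠ 0 → ‖geoCT k q‖ ≤ ε * ‖q‖ ^ (k - 1) →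
      ∃ w ∈ rtsCT k, ‖q.2 - w * q.1‖ < η * ‖q.1‖ := by
  have hS : IsCompact (sphere (0 : W) 1 ∩ {q | ∀ w ∈ rtsCT k, η * ‖q.1‖ ≤ ‖q.2 - w * q.1‖}) := by
    refine (isCompact_sphere _ _).inter_right ?_
    simp only [ofPred_forall]
    exact isClosed_iInter fun w => isClosed_iInter fun _ =>
      isClosed_le (by fun_prop) (by fun_prop)
  obtain ⟨c, hc, hc'⟩ := hS.exists_forall_le' (f := fun q => ‖geoCT k q‖) (a := 0)
    (geoCT_diff k).continuous.norm.continuousOn (by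
      rintro q ⟨hq, hq'⟩
      rw [norm_pos_iff]
      intro h
      have hq0 : q ≠ 0 := by rintro rfl; simp at hq
      obtain ⟨hz, w, hw, h2⟩ := geoCT_zero hk hq0 h
      have := hq' w hw
      rw [h2, sub_self, norm_zero] at this
      have := mul_pos hη (norm_pos_iff.2 hz)
      linarith)
  refine ⟨c / 2, by linarith, fun q hq h => ?_⟩
  by_contra hcon
  push Not at hcon
  have hn : 0 < ‖q‖ := norm_pos_iff.2 hq
  have h1 : c ≤ ‖geoCT k (((‖q‖⁻¹ : ℝ) : ℂ) • q)‖ := by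
    refine hc' _ ⟨?_, fun w hw => ?_⟩
    · rw [mem_sphere_zero_iff_norm, norm_smul, norm_real, norm_inv, norm_norm]
      field_simp
    · simp only [Prod.smul_fst, Prod.smul_snd, smul_eq_mul]
      have e : ((‖q‖⁻¹ : ℝ) : ℂ) * q.2 - w * (((‖q‖⁻¹ : ℝ) : ℂ) * q.1) =
          ((‖q‖⁻¹ : ℝ) : ℂ) * (q.2 - w * q.1) := by ring
      rw [e, norm_mul, norm_mul, mul_left_comm]
      exact mul_le_mul_of_nonneg_left (hcon w hw) (norm_nonneg _)
  rw [geoCT_smul, norm_mul, norm_pow, norm_real, norm_inv, norm_norm, inv_pow] at h1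
  have hp : 0 < ‖q‖ ^ (k - 1) := pow_pos hn _
  rw [le_inv_mul_iff₀ hp] at h1
  nlinarith

/-- The first coordinate, cut off outside a cone about the line `ζ = w z`. -/
def coneCT (η : ℝ) (w : ℂ) (q : W) : ℂ := q.1 * (clampCT (2 - ‖q.2 - w * q.1‖ / ‖q.1‖ / η) : ℂ)

lemma coneCT_cont (η : ℝ) (w : ℂ) : Continuous (coneCT η w) := by
  rw [continuous_iff_continuousAt]
  intro q
  by_cases h : q.1 = 0
  · have h0 : coneCT η w q = 0 := by simp [coneCT, h]
    rw [ContinuousAt, h0]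
    refine squeeze_zero_norm (a := fun p : W => ‖p.1‖) (fun p => ?_) ?_
    · unfold coneCT
      rw [norm_mul, norm_real, Real.norm_eq_abs]
      exact mul_le_of_le_one_right (norm_nonneg _) (clampCT_abs _)
    · have : ContinuousAt (fun p : W => ‖p.1‖) q := by fun_prop
      simpa [ContinuousAt, h] using this
  · unfold coneCT
    refine continuousAt_fst.mul (continuous_ofReal.continuousAt.comp
      (clampCT_cont.continuousAt.comp ?_))
    have : ‖q.1‖ ≠ 0 := norm_ne_zero_iff.2 h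
    exact continuousAt_const.sub (((by fun_prop : ContinuousAt
      (fun p : W => ‖p.2 - w * p.1‖) q).div (by fun_prop) this).div_const _)

lemma coneCT_in {η : ℝ} (hη : 0 < η) {w : ℂ} {q : W} (h : ‖q.2 - w * q.1‖ ≤ η * ‖q.1‖) :
    coneCT η w q = q.1 := by
  unfold coneCT
  by_cases h0 : q.1 = 0
  · simp [h0]
  have hn : 0 < ‖q.1‖ := norm_pos_iff.2 h0
  rw [clampCT_one]
  · simp
  · have : ‖q.2 - w * q.1‖ / ‖q.1‖ / η ≤ 1 := by
      rw [div_le_one hη, div_le_iff₀ hn]; exact h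
    linarith

lemma coneCT_out {η : ℝ} (hη : 0 < η) {w : ℂ} {q : W} (h : 2 * η * ‖q.1‖ ≤ ‖q.2 - w * q.1‖) :
    coneCT η w q = 0 := by
  unfold coneCT
  by_cases h0 : q.1 = 0
  · simp [h0]
  have hn : 0 < ‖q.1‖ := norm_pos_iff.2 h0
  rw [clampCT_zero]
  · simp
  · have : 2 ≤ ‖q.2 - w * q.1‖ / ‖q.1‖ / η := by
      rw [le_div_iff₀ hη, le_div_iff₀ hn]; exact h
    linarith

/-- The model for the second component. -/
def gCT (k : ℕ) (η : ℝ) (c : ℂ → ℂ) (M : ℂ → ℕ) (q : W) : ℂ :=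
  ∑ w ∈ rtsCT k, c w / (w - 1) * q.1 ^ (M w - 2) * coneCT η w q

lemma gCT_cont (k : ℕ) (η : ℝ) (c : ℂ → ℂ) (M : ℂ → ℕ) : Continuous (gCT k η c M) := by
  unfold gCT
  exact continuous_finsetSum _ fun w _ =>
    (by fun_prop : Continuous fun q : W => c w / (w - 1) * q.1 ^ (M w - 2)).mul (coneCT_cont η w)

lemma gCT_in {k : ℕ} (hk : 2 ≤ k) {η : ℝ} (hη : 0 < η) (c : ℂ → ℂ) (M : ℂ → ℕ)
    (hsep : ∀ w w' : ℂ, w ^ k = 1 → w' ^ k = 1 → w ≠ w' → 4 * η ≤ ‖w - w'‖) {w : ℂ}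
    (hw : w ∈ rtsCT k) (hM : 2 ≤ M w) {q : W} (h : ‖q.2 - w * q.1‖ ≤ η * ‖q.1‖) :
    gCT k η c M q = c w / (w - 1) * q.1 ^ (M w - 1) := by
  unfold gCT
  rw [Finset.sum_eq_single_of_mem w hw, coneCT_in hη h, mul_assoc, ← pow_succ]
  · congr 2; omega
  · intro w' hw' hne
    rw [coneCT_out hη, mul_zero]
    have h1 := hsep w w' ((mem_rtsCT hk).1 hw).1 ((mem_rtsCT hk).1 hw').1 hne.symm
    have h2 : ‖(w - w') * q.1‖ ≤ ‖q.2 - w' * q.1‖ + ‖q.2 - w * q.1‖ := by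
      have : (w - w') * q.1 = (q.2 - w' * q.1) - (q.2 - w * q.1) := by ring
      rw [this]
      exact norm_sub_le _ _
    rw [norm_mul] at h2
    nlinarith [norm_nonneg q.1]

lemma conv_ne_CT {E : Type} [NormedAddCommGroup E] [NormedSpace ℂ E] {X Y D : E} {s : ℝ}
    (hs : s ∈ Icc (0 : ℝ) 1) (hX : ‖X - D‖ < ‖D‖) (hY : ‖Y - D‖ < ‖D‖) :
    (1 - (s : ℂ)) • X + (s : ℂ) • Y ≠ 0 := by
  intro h
  have e : D = -(((1 - s : ℝ) : ℂ) • (X - D) + (s : ℂ) • (Y - D)) := by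
    push_cast
    linear_combination (norm := module) h
  have h1 : ‖D‖ ≤ (1 - s) * ‖X - D‖ + s * ‖Y - D‖ := by
    conv_lhs => rw [e]
    rw [norm_neg]
    refine (norm_add_le _ _).trans ?_
    rw [norm_smul, norm_smul, norm_real, norm_real, Real.norm_of_nonneg (by linarith [hs.2]),
      Real.norm_of_nonneg hs.1]
  rcases eq_or_lt_of_le hs.1 with h0 | h0
  · rw [← h0] at h1; linarith
  · nlinarith [hs.2]

lemma sep_CT {k : ℕ} (hk : 2 ≤ k) : ∃ d : ℝ, 0 < d ∧ d ≤ 1 ∧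
    ∀ w w' : ℂ, w ^ k = 1 → w' ^ k = 1 → w ≠ w' → 4 * d ≤ ‖w - w'‖ := by
  classical
  obtain ⟨d, hd, h⟩ := pos_lb_CT (Polynomial.nthRootsFinset k (1 : ℂ)).offDiag
    (fun a => ‖a.1 - a.2‖) fun a ha => norm_pos_iff.2 (sub_ne_zero.2 (Finset.mem_offDiag.1 ha).2.2)
  refine ⟨min (d / 4) 1, lt_min (by linarith) one_pos, min_le_right _ _, fun w w' hw hw' hne => ?_⟩
  have := h (w, w') (Finset.mem_offDiag.2 ⟨(Polynomial.mem_nthRootsFinset (by omega) _).2 hw,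
    (Polynomial.mem_nthRootsFinset (by omega) _).2 hw', hne⟩)
  have := min_le_left (d / 4) 1
  simp only at *
  linarith

lemma rtsCT_nonempty {k : ℕ} (hk : 2 ≤ k) : (rtsCT k).Nonempty :=
  ⟨_, (mem_rtsCT hk).2 ⟨(Complex.isPrimitiveRoot_exp k (by omega)).pow_eq_one,
    (Complex.isPrimitiveRoot_exp k (by omega)).ne_one (by omega)⟩⟩

/-- The zeros of the final map. -/
lemma final_CT {k : ℕ} (hk : 2 ≤ k) {η : ℝ} (hη : 0 < η) (c : ℂ → ℂ) (M : ℂ → ℕ)
    (hsep : ∀ w w' : ℂ, w ^ k = 1 → w' ^ k = 1 → w ≠ w' → 4 * η ≤ ‖w - w'‖)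
    (hc : ∀ w ∈ rtsCT k, c w ≠ 0 ∧ 2 ≤ M w) {a : ℂ} (ha : a ≠ 0) :
    {q : W | (geoCT k q, gCT k η c M q - a) = 0}.Finite ∧
      ∀ q : W, (geoCT k q, gCT k η c M q - a) = 0 → ∃ L : W →L[ℂ] W, Function.Injective L ∧
        HasFDerivAt (fun q : W => (geoCT k q, gCT k η c M q - a)) L q := by
  have key : ∀ q : W, (geoCT k q, gCT k η c M q - a) = 0 → geoCT k q = 0 ∧ q.1 ≠ 0 ∧
      ∃ w ∈ rtsCT k, q.2 = w * q.1 ∧ c w / (w - 1) * q.1 ^ (M w - 1) = a := by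
    intro q hq
    rw [Prod.mk_eq_zero, sub_eq_zero] at hq
    have hq0 : q ≠ 0 := by
      rintro rfl
      apply ha
      rw [← hq.2]
      simp [gCT, coneCT]
    obtain ⟨hz, w, hw, h2⟩ := geoCT_zero hk hq0 hq.1
    refine ⟨hq.1, hz, w, hw, h2, ?_⟩
    rw [← hq.2, gCT_in hk hη c M hsep hw (hc w hw).2]
    rw [h2, sub_self, norm_zero]
    positivity
  have hcw : ∀ w ∈ rtsCT k, c w / (w - 1) ≠ 0 := fun w hw =>
    div_ne_zero (hc w hw).1 (sub_ne_zero.2 ((mem_rtsCT hk).1 hw).2)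
  constructor
  · refine ((rtsCT k).finite_toSet.biUnion fun w _ => ((Polynomial.nthRootsFinset (M w - 1)
      (a / (c w / (w - 1)))).finite_toSet.image fun z : ℂ => ((z, w * z) : W))).subset ?_
    intro q hq
    obtain ⟨-, -, w, hw, h2, h3⟩ := key q hq
    refine mem_biUnion hw ⟨q.1, ?_, Prod.ext rfl h2.symm⟩
    have := (hc w hw).2
    rw [Finset.mem_coe, Polynomial.mem_nthRootsFinset (by omega), ← h3,
      mul_div_cancel_left₀ _ (hcw w hw)]
  · intro q hq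
    obtain ⟨h0, hz, w, hw, h2, -⟩ := key q hq
    have hM := (hc w hw).2
    have hP := (geoCT_diff k q).hasFDerivAt
    have hG : HasFDerivAt (fun p : W => c w / (w - 1) * p.1 ^ (M w - 1) - a)
        ((c w / (w - 1) * (((M w - 1 : ℕ) : ℂ) * q.1 ^ (M w - 1 - 1))) •
          ContinuousLinearMap.fst ℂ ℂ ℂ) q := by
      have h1 : HasDerivAt (fun z : ℂ => c w / (w - 1) * z ^ (M w - 1) - a)
          (c w / (w - 1) * (((M w - 1 : ℕ) : ℂ) * q.1 ^ (M w - 1 - 1))) q.1 :=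
        ((hasDerivAt_pow (M w - 1) q.1).const_mul _).sub_const a
      exact h1.comp_hasFDerivAt q hasFDerivAt_fst
    refine ⟨_, ?_, (hP.prodMk hG).congr_of_eventuallyEq ?_⟩
    · rw [injective_iff_map_eq_zero]
      intro h hh
      simp only [ContinuousLinearMap.prod_apply, Prod.mk_eq_zero, smul_apply,
        ContinuousLinearMap.coe_fst', smul_eq_mul] at hh
      have hM' : ((M w - 1 : ℕ) : ℂ) ≠ 0 := by exact_mod_cast (by omega : M w - 1 ≠ 0)
      have h1 : h.1 = 0 := (mul_eq_zero.1 hh.2).resolve_left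
        (mul_ne_zero (hcw w hw) (mul_ne_zero hM' (pow_ne_zero _ hz)))
      have d1 := hP.mul (hasFDerivAt_snd.sub hasFDerivAt_fst :
        HasFDerivAt (fun p : W => p.2 - p.1) _ q)
      have d2 := ((hasDerivAt_pow k q.2).comp_hasFDerivAt q
        (hasFDerivAt_snd (𝕜 := ℂ) (E := ℂ) (F := ℂ))).sub
        ((hasDerivAt_pow k q.1).comp_hasFDerivAt q (hasFDerivAt_fst (𝕜 := ℂ) (E := ℂ) (F := ℂ)))
      have e := d1.unique (d2.congr_of_eventuallyEq (Eventually.of_forall fun p => geoCT_mul k p))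
      have e' := congrArg (fun L : W →L[ℂ] ℂ => L h) e
      simp [hh.1, h0, h1] at e'
      have hw0 : w ≠ 0 := by
        rintro rfl
        have := ((mem_rtsCT hk).1 hw).1
        rw [zero_pow (by omega)] at this
        exact zero_ne_one this
      rcases e' with (e' | e') | e'
      · omega
      · rw [h2] at e'
        exact absurd e'.1 (mul_ne_zero hw0 hz)
      · exact Prod.ext h1 e'
    · have : ∀ᶠ p : W in 𝓝 q, ‖p.2 - w * p.1‖ < η * ‖p.1‖ := by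
        refine ContinuousAt.eventually_lt (by fun_prop) (by fun_prop) ?_
        rw [h2, sub_self, norm_zero]
        exact mul_pos hη (norm_pos_iff.2 hz)
      filter_upwards [this] with p hp
      rw [gCT_in hk hη c M hsep hw hM hp.le]

/-- The topological half of the cusp lemma. -/
theorem cuspTop (hD : DegStmt) (k : ℕ) (hk : 2 ≤ k) : ∃ η₀ : ℝ, 0 < η₀ ∧ ∀ η : ℝ, 0 < η →
    η ≤ η₀ → ∃ ε : ℝ, 0 < ε ∧ ∀ (ρ : ℝ) (F : W → W) (c : ℂ → ℂ) (M : ℂ → ℕ), 0 < ρ →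
    ContinuousOn F (closedBall 0 ρ) →
    (∀ q : W, ‖q‖ = ρ →
      ‖(F q).1 - ∑ i ∈ Finset.range k, q.2 ^ i * q.1 ^ (k - 1 - i)‖ ≤ ε * ρ ^ (k - 1)) →
    (∀ w : ℂ, w ^ k = 1 → w ≠ 1 → c w ≠ 0 ∧ 2 ≤ M w ∧ ∀ q : W, ‖q‖ = ρ →
      ‖q.2 - w * q.1‖ ≤ η * ‖q.1‖ → (F q).1 = 0 →
      ‖(q.2 - q.1) * (F q).2 - c w * q.1 ^ M w‖ ≤ ‖c w * q.1 ^ M w‖ / 4) →
    ∃ e : ℝ, 0 < e ∧ ∀ F' : W → W, ContinuousOn F' (closedBall 0 ρ) →
      (∀ q ∈ closedBall (0 : W) ρ, ‖F' q - F q‖ ≤ e) → ∃ q ∈ closedBall (0 : W) ρ, F' q = 0 := by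
  obtain ⟨η₀, h0, h1, hsep₀⟩ := sep_CT hk
  refine ⟨η₀, h0, fun η hη hle => ?_⟩
  have hsep : ∀ w w' : ℂ, w ^ k = 1 → w' ^ k = 1 → w ≠ w' → 4 * η ≤ ‖w - w'‖ :=
    fun w w' a b c => le_trans (by linarith) (hsep₀ w w' a b c)
  obtain ⟨ε, hε, hlb⟩ := geoCT_lb hk hη
  refine ⟨ε, hε, fun ρ F c M hρ hF hP hb => ?_⟩
  change ∀ q : W, ‖q‖ = ρ → ‖(F q).1 - geoCT k q‖ ≤ ε * ρ ^ (k - 1) at hP
  have hc : ∀ w ∈ rtsCT k, c w ≠ 0 ∧ 2 ≤ M w := fun w hw =>
    have := hb w ((mem_rtsCT hk).1 hw).1 ((mem_rtsCT hk).1 hw).2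
    ⟨this.1, this.2.1⟩
  have hw1 : ∀ w ∈ rtsCT k, w - 1 ≠ 0 := fun w hw => sub_ne_zero.2 ((mem_rtsCT hk).1 hw).2
  have cone : ∀ q : W, ‖q‖ = ρ → ‖geoCT k q‖ ≤ ε * ρ ^ (k - 1) → ρ / 2 ≤ ‖q.1‖ ∧
      ∃ w ∈ rtsCT k, ‖q.2 - w * q.1‖ ≤ η * ‖q.1‖ := by
    intro q hq h
    obtain ⟨w, hw, h'⟩ := hlb q (by rw [← norm_pos_iff, hq]; exact hρ) (by rwa [hq])
    refine ⟨?_, w, hw, h'.le⟩
    have h2 : ‖q.2‖ ≤ ‖q.2 - w * q.1‖ + ‖w * q.1‖ := by
      simpa using norm_add_le (q.2 - w * q.1) (w * q.1)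
    rw [norm_mul, norm_rt_CT hk ((mem_rtsCT hk).1 hw).1] at h2
    rw [← hq, Prod.norm_def]
    have := norm_nonneg q.1
    rcases max_cases ‖q.1‖ ‖q.2‖ with h3 | h3 <;> rw [h3.1] <;> nlinarith
  have stepA : ∀ s ∈ Icc (0 : ℝ) 1, ∀ q : W, ‖q‖ = ρ → (F q).1 = 0 →
      (1 - (s : ℂ)) • (F q).2 + (s : ℂ) • gCT k η c M q ≠ 0 := by
    intro s hs q hq h hz
    obtain ⟨hn, w, hw, hcone⟩ := cone q hq (by simpa [h] using hP q hq)
    have hq1 : q.1 ≠ 0 := by rw [← norm_pos_iff]; linarith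
    have hM := (hc w hw).2
    have hD : 0 < ‖c w * q.1 ^ M w‖ := norm_pos_iff.2 (mul_ne_zero (hc w hw).1 (pow_ne_zero _ hq1))
    have hX := (hb w ((mem_rtsCT hk).1 hw).1 ((mem_rtsCT hk).1 hw).2).2.2 q hq hcone h
    refine conv_ne_CT (X := (q.2 - q.1) * (F q).2) (Y := (q.2 - q.1) * gCT k η c M q)
      (D := c w * q.1 ^ M w) hs (by linarith) ?_ ?_
    · rw [gCT_in hk hη c M hsep hw hM hcone]
      have e0 : q.1 ^ M w = q.1 ^ (M w - 1) * q.1 := by rw [← pow_succ]; congr 1; omega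
      have e : (q.2 - q.1) * (c w / (w - 1) * q.1 ^ (M w - 1)) - c w * q.1 ^ M w =
          c w * q.1 ^ (M w - 1) * ((q.2 - w * q.1) / (w - 1)) := by
        have := hw1 w hw
        rw [e0]; field_simp; ring
      rw [e, e0, ← mul_assoc, norm_mul, norm_mul _ q.1]
      refine mul_lt_mul_of_pos_left ?_
        (norm_pos_iff.2 (mul_ne_zero (hc w hw).1 (pow_ne_zero _ hq1)))
      have h4 := hsep w 1 ((mem_rtsCT hk).1 hw).1 (one_pow _) ((mem_rtsCT hk).1 hw).2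
      rw [norm_div, div_lt_iff₀ (by linarith)]
      nlinarith [norm_pos_iff.2 hq1]
    · simp only [smul_eq_mul] at hz ⊢
      linear_combination (q.2 - q.1) * hz
  obtain ⟨e, he, he'⟩ := (isCompact_sphere (0 : W) ρ).exists_forall_le' (f := fun q => ‖F q‖)
    (a := 0) (hF.mono sphere_subset_closedBall).norm (by
      intro q hq
      rw [norm_pos_iff]
      intro h
      have := stepA 0 ⟨le_rfl, zero_le_one⟩ q (mem_sphere_zero_iff_norm.1 hq) (by rw [h]; rfl)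
      simp [h] at this)
  obtain ⟨a, ha, ha'⟩ := pos_lb_CT (rtsCT k) (fun w => ‖c w / (w - 1)‖ * (ρ / 2) ^ (M w - 1))
    fun w hw => mul_pos (norm_pos_iff.2 (div_ne_zero (hc w hw).1 (hw1 w hw))) (by positivity)
  have ha0 : ((a / 2 : ℝ) : ℂ) ≠ 0 := by exact_mod_cast (by linarith : a / 2 ≠ 0)
  obtain ⟨hfin, hder⟩ := final_CT hk hη c M hsep hc ha0
  have hfr : ∀ q ∈ frontier (closedBall (0 : W) ρ), ‖q‖ = ρ := fun q hq =>
    mem_sphere_zero_iff_norm.1 (frontier_closedBall_subset_sphere hq)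
  refine ⟨e / 2, by linarith, fun F' hF' hclose => chain3 hD W (closedBall 0 ρ) F' F
    (fun q => ((F q).1, gCT k η c M q)) (fun q => (geoCT k q, gCT k η c M q - (a / 2 : ℝ)))
    (isCompact_closedBall _ _) hF' hF (hF.fst.prodMk (gCT_cont k η c M).continuousOn)
    ((geoCT_diff k).continuous.prodMk ((gCT_cont k η c M).sub continuous_const)).continuousOn
    ?_ ?_ ?_ (hfin.subset fun q hq => hq.2) ?_ fun q _ hq => hder q hq⟩
  · intro s hs q hq
    have h2 := he' q (mem_sphere_zero_iff_norm.2 (hfr q hq))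
    have h3 := hclose q (mem_closedBall_zero_iff.2 (hfr q hq).le)
    exact conv_ne_CT (D := F q) hs (by linarith) (by simp only [sub_self, norm_zero]; linarith)
  · intro s hs q hq h
    refine stepA s hs q (hfr q hq) ?_ (congrArg Prod.snd h)
    have := congrArg Prod.fst h
    simp only [Prod.fst_add, Prod.smul_fst, smul_eq_mul, Prod.fst_zero] at this
    linear_combination this
  · intro s hs q hq h
    have e1 := congrArg Prod.fst h
    have e2 := congrArg Prod.snd h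
    simp only [Prod.fst_add, Prod.smul_fst, smul_eq_mul, Prod.fst_zero, Prod.snd_add,
      Prod.smul_snd, Prod.snd_zero] at e1 e2
    have e3 : geoCT k q = -(((1 - s : ℝ) : ℂ) * ((F q).1 - geoCT k q)) := by
      push_cast; linear_combination e1
    obtain ⟨hn, w, hw, hcone⟩ := cone q (hfr q hq) (by
      rw [e3, norm_neg, norm_mul, norm_real, Real.norm_of_nonneg (by linarith [hs.2])]
      exact le_trans (mul_le_of_le_one_left (norm_nonneg _) (by linarith [hs.1])) (hP q (hfr q hq)))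
    have e4 : gCT k η c M q = ((s * (a / 2) : ℝ) : ℂ) := by
      push_cast at e2 ⊢; linear_combination e2
    have e5 := congrArg norm e4
    rw [gCT_in hk hη c M hsep hw (hc w hw).2 hcone, norm_mul, norm_pow, norm_real,
      Real.norm_of_nonneg (mul_nonneg hs.1 (by linarith))] at e5
    have h5 := ha' w hw
    have h6 : (ρ / 2) ^ (M w - 1) ≤ ‖q.1‖ ^ (M w - 1) := pow_le_pow_left₀ (by linarith) hn _
    nlinarith [hs.2, mul_le_mul_of_nonneg_left h6 (norm_nonneg (c w / (w - 1)))]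
  · obtain ⟨w, hw⟩ := rtsCT_nonempty hk
    have hM := (hc w hw).2
    have hcw : c w / (w - 1) ≠ 0 := div_ne_zero (hc w hw).1 (hw1 w hw)
    obtain ⟨z, hz⟩ := IsAlgClosed.exists_pow_nat_eq (((a / 2 : ℝ) : ℂ) / (c w / (w - 1)))
      (by omega : 0 < M w - 1)
    have hwk := ((mem_rtsCT hk).1 hw).1
    have hzn : ‖z‖ ≤ ρ := by
      by_contra hcon
      have h6 : (ρ / 2) ^ (M w - 1) ≤ ‖z‖ ^ (M w - 1) :=
        pow_le_pow_left₀ (by linarith) (by linarith) _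
      rw [← norm_pow, hz, norm_div, norm_real, Real.norm_of_nonneg (by linarith),
        le_div_iff₀ (norm_pos_iff.2 hcw)] at h6
      have h5 := ha' w hw
      linarith
    refine ⟨(z, w * z), ?_, ?_⟩
    · rw [mem_closedBall_zero_iff, Prod.norm_def, norm_mul, norm_rt_CT hk hwk]
      simpa using hzn
    · have hz0 : z ≠ 0 := by
        rintro rfl
        rw [zero_pow (by omega)] at hz
        exact div_ne_zero ha0 hcw hz.symm
      rw [Prod.mk_eq_zero, gCT_in hk hη c M hsep hw hM (by simp; positivity)]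
      constructor
      · have := geoCT_mul k (z, w * z)
        simp only [mul_pow, hwk, one_mul, sub_self] at this
        refine (mul_eq_zero.1 this).resolve_right ?_
        rw [show w * z - z = (w - 1) * z by ring]
        exact mul_ne_zero (hw1 w hw) hz0
      · simp only
        rw [hz, mul_div_cancel₀ _ hcw, sub_self]

end Pool.Agent.MP_2fc7fa_gt.N

end
end

section

/-! An injective limit of embedded curves has no cusp. -/

open scoped ContDiff ComplexConjugate Topology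
open Set Complex Filter Metric

noncomputable section

namespace Pool.Agent.MP_2fc7fa_gt.N

variable {A : W → W →L[ℝ] W} {Ω : Set W} {u : ℂ → W} {r : ℝ}

/-- The leading term of the gap between the curve and one of its branches. -/
theorem Sm_Cusp.gap (h : Sm_Cusp A Ω u r) (hW : HWStmt) (hF : DiffStmt) (hi : InjOn u (ball 0 r))
    {m : ℕ} {ε ρ η : ℝ} (hm : 1 ≤ m) (hE : Est_Cusp A u m ε ρ) (hε0 : 0 ≤ ε) (hε : ε ≤ η / 4)
    (hρ0 : 0 < ρ) (hρ : ρ < r) (hη0 : 0 < η) (hη : η ≤ 1 / 2)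
    (hp : ∀ σ : ℂ, ‖σ - 1‖ ≤ η → ‖σ ^ m - 1‖ ≤ 1 / 4) {K : Set W} (hK : IsCompact K)
    (hKc : Convex ℝ K) (hKΩ : K ⊆ Ω) (huK : ∀ z : ℂ, ‖z‖ ≤ ρ → u z ∈ K) {om : ℂ}
    (hom : om ^ (m + 1) = 1) (hsep : η < ‖om - 1‖) : ∃ (c : ℂ) (M : ℕ), c ≠ 0 ∧ 2 ≤ M ∧
      ∀ᶠ z in 𝓝[≠] (0 : ℂ), ∀ s, ‖s - om * z‖ ≤ η * ‖z‖ → (A (u z) (u s - u z)).1 = 0 →
        ‖(A (u z) (u s - u z)).2 - c * z ^ M‖ ≤ ‖c * z ^ M‖ / 4 := by
  obtain ⟨w, hw⟩ := h.branch hm hE hε0 hε hρ hη0 hη hp hom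
  obtain ⟨C, hC, hb⟩ := h.bounds hρ
  have hn : ‖om‖ = 1 := norm_eq_one_of_pow_eq_one hom (by omega)
  have hin : ∀ z ∈ ball (0 : ℂ) (ρ / 2) \ {0}, z ≠ 0 ∧ 2 * ‖z‖ < ρ ∧ ‖z‖ ≤ ρ ∧
      ‖w z‖ ≤ 2 * ‖z‖ ∧ ‖z‖ ≤ 2 * ‖w z‖ ∧ ‖w z‖ ≤ ρ := by
    intro z hz
    have a0 : 2 * ‖z‖ < ρ := by have := mem_ball_zero_iff.1 hz.1; linarith
    have hs := (hw z hz.2 a0).1
    have a1 := norm_le_norm_add_norm_sub' (w z) (om * z)
    have a2 := norm_le_norm_add_norm_sub (w z) (om * z)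
    rw [norm_mul, hn, one_mul] at a1 a2
    have a3 : η * ‖z‖ ≤ 1 / 2 * ‖z‖ := mul_le_mul_of_nonneg_right hη (norm_nonneg _)
    have := norm_nonneg z
    refine ⟨hz.2, a0, ?_, ?_, ?_, ?_⟩ <;> linarith
  have hbl : ∀ z : ℂ, ‖z‖ ≤ ρ → z ∈ ball (0 : ℂ) r := fun z hz =>
    mem_ball_zero_iff.2 (hz.trans_lt hρ)
  have hopen : IsOpen (ball (0 : ℂ) (ρ / 2) \ {0}) := isOpen_ball.sdiff isClosed_singleton
  have hmem : ball (0 : ℂ) (ρ / 2) \ {0} ∈ 𝓝[≠] (0 : ℂ) :=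
    sdiff_mem_nhdsWithin_compl (ball_mem_nhds _ (by positivity)) _
  obtain ⟨C', hC'⟩ := hF A Ω K 1 (C * (C * C + C * C * (2 * C)) + C) h.cofr hK hKc hKΩ
  have key := hW ℂ (fun z => (A (u z) (u (w z) - u z)).2) 0 (ρ / 2) C' (C * (2 * C))
    (by positivity) (by
      intro z hz
      obtain ⟨a0, a1, a2, -, -, a5⟩ := hin z hz
      have c1 : ContDiffAt ℝ 1 u z := (h.uAt (hbl z a2)).of_le (by simp)
      have c2 : ContDiffAt ℝ 1 (fun t => u (w t)) z :=
        ((h.uAt (hbl _ a5)).of_le (by simp)).comp z (hw z a0 a1).2.2.2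
      have c3 : ContDiffAt ℝ 1 (fun t => A (u t)) z := ((h.AAt (hbl z a2)).of_le (by simp)).comp z c1
      exact (c3.clm_apply (c2.sub c1)).snd.contDiffWithinAt) (by
      intro z hz
      obtain ⟨a0, a1, a2, a3, a4, a5⟩ := hin z hz
      obtain ⟨b0, b1, b2, b3, b4⟩ := hb z a2
      have b5 : ‖u (w z) - u z‖ ≤ 2 * C := by
        have := norm_sub_le (u (w z)) (u z)
        have := (hb _ a5).2.2.2.2
        linarith
      refine ⟨(norm_snd_le _).trans (((A (u z)).le_opNorm _).trans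
        (mul_le_mul b3 b5 (norm_nonneg _) hC.le)), ?_⟩
      have du : HasFDerivAt u (fderiv ℝ u z) z :=
        ((h.uAt (hbl z a2)).differentiableAt (by simp)).hasFDerivAt
      have dw : HasFDerivAt w (fderiv ℝ w z) z :=
        ((hw z a0 a1).2.2.2.differentiableAt one_ne_zero).hasFDerivAt
      have dx : HasFDerivAt (fun t => u (w t)) ((fderiv ℝ u (w z)).comp (fderiv ℝ w z)) z :=
        ((h.uAt (hbl _ a5)).differentiableAt (by simp)).hasFDerivAt.comp z dw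
      have dA : HasFDerivAt (fun t => A (u t)) ((fderiv ℝ A (u z)).comp (fderiv ℝ u z)) z :=
        ((h.AAt (hbl z a2)).differentiableAt (by simp)).hasFDerivAt.comp z du
      have hev : ∀ᶠ t in 𝓝 z, (A (u t) (u (w t) - u t)).1 = 0 := by
        filter_upwards [hopen.mem_nhds hz] with t ht
        exact (hw t (hin t ht).1 (hin t ht).2.1).2.1
      have dY := ((dA.clm_apply (dx.sub du)).fst).unique
        ((hasFDerivAt_const (0 : ℂ) z).congr_of_eventuallyEq hev)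
      refine hC' u (fun t => u (w t)) z du.differentiableAt dx.differentiableAt (huK z a2)
        (huK _ a5) (b2.trans (by nlinarith [mul_pos hC hC, mul_pos (mul_pos hC hC) hC])) ?_
        (fun t ht => h.cr t (by rw [ht]; exact hbl z a2)) ?_ hev
      · rw [dx.fderiv]
        refine ContinuousLinearMap.opNorm_le_bound _ (by positivity) fun c => ?_
        have e1 := congrArg (fun L : ℂ →L[ℝ] ℂ => L c) dY
        have e2 : (A (u z) (fderiv ℝ u (w z) (fderiv ℝ w z c))).1 = (A (u z) (fderiv ℝ u z c)).1 -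
            (fderiv ℝ A (u z) (fderiv ℝ u z c) (u (w z) - u z)).1 := by
          simp only [ContinuousLinearMap.comp_apply, add_apply, sub_apply,
            ContinuousLinearMap.flip_apply, map_sub, map_add, ContinuousLinearMap.coe_fst',
            zero_apply, Pi.sub_apply] at e1
          simp only [map_sub, Prod.fst_sub]
          linear_combination e1
        have e3 := (cone_Cusp hm (by linarith) (hE z (w z) a2 a5 (fderiv ℝ w z c))).1
        have e4 : ‖fderiv ℝ u z c‖ ≤ C * ‖c‖ :=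
          ((fderiv ℝ u z).le_opNorm c).trans (mul_le_mul_of_nonneg_right b2 (norm_nonneg _))
        have e5 : ‖(A (u z) (fderiv ℝ u z c)).1‖ ≤ C * (C * ‖c‖) :=
          (norm_fst_le _).trans (((A (u z)).le_opNorm _).trans
            (mul_le_mul b3 e4 (norm_nonneg _) hC.le))
        have e6 : ‖(fderiv ℝ A (u z) (fderiv ℝ u z c) (u (w z) - u z)).1‖ ≤
            C * (C * ‖c‖) * (2 * C) :=
          (norm_fst_le _).trans (((fderiv ℝ A (u z)).le_opNorm₂ _ _).trans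
            (mul_le_mul (mul_le_mul b1 e4 (norm_nonneg _) hC.le) b5 (norm_nonneg _)
              (by positivity)))
        have e7 : ‖A (u z) (fderiv ℝ u (w z) (fderiv ℝ w z c))‖ ≤
            C * (C * ‖c‖) + C * (C * ‖c‖) * (2 * C) := by
          rw [Prod.norm_def, max_eq_left e3, e2]
          exact (norm_sub_le _ _).trans (add_le_add e5 e6)
        have e8 := (b0 (fderiv ℝ u (w z) (fderiv ℝ w z c))).trans
          (mul_le_mul_of_nonneg_left e7 hC.le)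
        have e9 : 0 ≤ C * ‖c‖ := by positivity
        rw [ContinuousLinearMap.comp_apply]
        nlinarith
      · obtain ⟨e1, e2⟩ := cone_Cusp hm (by linarith) (hE (w z) (w z) a5 a5 1)
        have e3 : 0 < ‖w z‖ ^ m * ‖(1 : ℂ)‖ := by
          have : 0 < ‖w z‖ := by have := norm_pos_iff.2 a0; linarith
          simp only [norm_one, mul_one]
          positivity
        have e4 : 0 < ‖(tau_Cusp A u (w z)).1‖ := e3.trans_le e2
        refine ⟨(tau_Cusp A u (w z)).2 / (tau_Cusp A u (w z)).1, ?_, fun c => ?_⟩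
        · rw [norm_div, div_le_one e4]
          exact e1
        · rw [dx.fderiv, ContinuousLinearMap.comp_apply, lin_Cusp h.cr (hbl _ a5)]
          have := norm_pos_iff.1 e4
          simp only [Prod.smul_snd, Prod.smul_fst, smul_eq_mul]
          field_simp)
  rcases key with key | ⟨M, c, hc, key⟩
  · exfalso
    obtain ⟨z, z1, z2⟩ := (key.and hmem).exists
    obtain ⟨a0, a1, a2, a3, a4, a5⟩ := hin z z2
    obtain ⟨w1, w2, -⟩ := hw z a0 a1
    have e1 : u (w z) - u z = 0 := h.cofr.2.2 _ (h.maps (hbl z a2)) (by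
      rw [map_zero]; exact Prod.ext w2 z1)
    rw [hi (hbl _ a5) (hbl _ a2) (sub_eq_zero.1 e1), show z - om * z = -((om - 1) * z) by ring,
      norm_neg, norm_mul] at w1
    have := mul_lt_mul_of_pos_right hsep (norm_pos_iff.2 a0)
    linarith
  simp only [sub_zero, smul_eq_mul] at key
  refine ⟨c, M, hc, ?_, ?_⟩
  · by_contra hM
    have lim : Tendsto (fun z => (z ^ M)⁻¹ * (A (u z) (u (w z) - u z)).2) (𝓝[≠] 0) (𝓝 0) := by
      have l0 : Tendsto (fun z : ℂ => ε * 2 ^ m * 3 * ‖z‖) (𝓝[≠] 0) (𝓝 0) := by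
        have : Continuous fun z : ℂ => ε * 2 ^ m * 3 * ‖z‖ := by fun_prop
        simpa using (this.tendsto 0).mono_left nhdsWithin_le_nhds
      refine squeeze_zero_norm' ?_ l0
      filter_upwards [hmem, mem_nhdsWithin_of_mem_nhds (ball_mem_nhds (0 : ℂ) one_pos)] with z hz hz1
      obtain ⟨a0, a1, a2, a3, a4, a5⟩ := hin z hz
      have hzp := norm_pos_iff.2 a0
      have e1 := (norm_snd_le _).trans (h.est2 hE hε0 hρ a1.le (z := z) (by linarith) a3)
      simp only [Prod.snd_sub, sub_zero] at e1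
      have e2 : ‖w z - z‖ ≤ 3 * ‖z‖ := by
        have := norm_sub_le (w z) z
        linarith
      have e3 : ‖z‖ ^ m ≤ ‖z‖ ^ M :=
        pow_le_pow_of_le_one hzp.le (mem_ball_zero_iff.1 hz1).le (by omega)
      rw [norm_mul, norm_inv, norm_pow, inv_mul_le_iff₀ (by positivity)]
      refine e1.trans ?_
      rw [mul_pow]
      calc ε * (2 ^ m * ‖z‖ ^ m) * ‖w z - z‖ ≤ ε * (2 ^ m * ‖z‖ ^ M) * (3 * ‖z‖) := by gcongr
        _ = _ := by ring
    exact hc (tendsto_nhds_unique key lim)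
  · filter_upwards [hmem, Metric.tendsto_nhds.1 key (‖c‖ / 4) (by positivity)] with z hz hz1 s s1 s2
    obtain ⟨a0, a1, -⟩ := hin z hz
    rw [(hw z a0 a1).2.2.1 s s1 s2]
    have hp : z ^ M ≠ 0 := pow_ne_zero _ a0
    have e : (A (u z) (u (w z) - u z)).2 - c * z ^ M =
        ((z ^ M)⁻¹ * (A (u z) (u (w z) - u z)).2 - c) * z ^ M := by field_simp
    rw [dist_eq_norm] at hz1
    rw [e, norm_mul, norm_mul]
    nlinarith [norm_nonneg (z ^ M)]

theorem Sm_Cusp.core (h : Sm_Cusp A Ω u r) (hW : HWStmt) (hD : DegStmt) (hF : DiffStmt)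
    (hi : InjOn u (ball 0 r)) {m : ℕ} (hm : 1 ≤ m) (h0 : fderiv ℝ u 0 1 = 0)
    (hl : Tendsto (fun z => (z ^ m)⁻¹ • tau_Cusp A u z) (𝓝[≠] 0) (𝓝 (((m + 1 : ℕ) : ℂ), 0))) :
    ∃ ρ : ℝ, 0 < ρ ∧ ρ < r ∧ ∃ e : ℝ, 0 < e ∧ ∀ F' : W → W, ContinuousOn F' (closedBall 0 ρ) →
      (∀ q ∈ closedBall (0 : W) ρ, ‖F' q - dq_Cusp A u q‖ ≤ e) →
      ∃ q ∈ closedBall (0 : W) ρ, F' q = 0 := by
  have hr := h.pos
  obtain ⟨η₀, p0, hT⟩ := cuspTop hD (m + 1) (by omega)
  obtain ⟨η₁, p1, p1', hp⟩ := eta_Cusp m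
  obtain ⟨η₂, p2, -, hsep⟩ := sep_CT (k := m + 1) (by omega)
  set η := min η₀ (min η₁ η₂)
  have q0 : 0 < η := by positivity
  have q1 : η ≤ η₁ := (min_le_right _ _).trans (min_le_left _ _)
  have q2 : η ≤ η₂ := (min_le_right _ _).trans (min_le_right _ _)
  obtain ⟨ε₀, pε, hT⟩ := hT η q0 (min_le_left _ _)
  have qε : 0 < min ε₀ (η / 4) := by positivity
  obtain ⟨ρ₀, r0, r1, hE⟩ := h.est hm h0 hl qε
  obtain ⟨d, hd, hdΩ⟩ := Metric.nhds_basis_closedBall.mem_iff.1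
    (h.cofr.1.mem_nhds (h.maps (mem_ball_self hr)))
  obtain ⟨d', hd', hu⟩ := Metric.continuousAt_iff.1 (h.uAt (mem_ball_self hr)).continuousAt d hd
  have hE1 : Est_Cusp A u m (min ε₀ (η / 4)) (min ρ₀ (d' / 2)) := fun z s hz hs =>
    hE z s (hz.trans (min_le_left _ _)) (hs.trans (min_le_left _ _))
  have r2 : min ρ₀ (d' / 2) < r := (min_le_left _ _).trans_lt r1
  have hg : ∀ om : ℂ, ∃ (c : ℂ) (M : ℕ), om ^ (m + 1) = 1 → om ≠ 1 → c ≠ 0 ∧ 2 ≤ M ∧
      ∀ᶠ z in 𝓝[≠] (0 : ℂ), ∀ s, ‖s - om * z‖ ≤ η * ‖z‖ → (A (u z) (u s - u z)).1 = 0 →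
        ‖(A (u z) (u s - u z)).2 - c * z ^ M‖ ≤ ‖c * z ^ M‖ / 4 := by
    intro om
    by_cases ho : om ^ (m + 1) = 1 ∧ om ≠ 1
    · obtain ⟨c, M, hcM⟩ := h.gap hW hF hi hm hE1 qε.le (min_le_right _ _) (by positivity) r2 q0
        (q1.trans p1') (fun σ hσ => hp σ (hσ.trans q1)) (isCompact_closedBall (u 0) d)
        (convex_closedBall _ _) hdΩ (fun z hz => (hu (by
          have := hz.trans (min_le_right _ _)
          rw [dist_zero_right]
          linarith)).le) ho.1 (by have := hsep om 1 ho.1 (one_pow _) ho.2; linarith)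
      exact ⟨c, M, fun _ _ => hcM⟩
    · exact ⟨0, 0, fun a b => absurd ⟨a, b⟩ ho⟩
  choose c M hg using hg
  have hfin : {om : ℂ | om ^ (m + 1) = 1 ∧ om ≠ 1}.Finite :=
    (Polynomial.nthRootsFinset (m + 1) (1 : ℂ)).finite_toSet.subset fun om ho =>
      (Polynomial.mem_nthRootsFinset (by omega) _).2 ho.1
  have hall := (eventually_all_finite hfin).2 fun om ho => (hg om ho.1 ho.2).2.2
  obtain ⟨d₂, hd₂, hall⟩ := Metric.eventually_nhds_iff.1 (eventually_nhdsWithin_iff.1 hall)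
  set ρ := min (min ρ₀ (d' / 2)) (d₂ / 2)
  have s0 : 0 < ρ := by positivity
  have s1 : ρ ≤ min ρ₀ (d' / 2) := min_le_left _ _
  have s2 : ρ < d₂ := (min_le_right _ _).trans_lt (by linarith)
  refine ⟨ρ, s0, s1.trans_lt r2, hT ρ (dq_Cusp A u) c M s0 ((dq_cont_Cusp h.cofr
    (h.sm.of_le (by simp)) h.maps h.cr).mono (closedBall_subset_ball (s1.trans_lt r2))) ?_ ?_⟩
  · intro q hq
    have a1 : ‖q.1‖ ≤ ρ := hq ▸ norm_fst_le q
    have a2 : ‖q.2‖ ≤ ρ := hq ▸ norm_snd_le q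
    have := dq_close_Cusp (A := A) (A' := fun _ => ContinuousLinearMap.id ℝ W) (u := u)
      (u' := mod_Cusp m) (e := ε₀ * ρ ^ m) (convex_closedBall (0 : ℂ) ρ) (by positivity)
      (fun t ht => (h.uAt (closedBall_subset_ball (s1.trans_lt r2) ht)).differentiableAt (by simp))
      (fun t _ => diff_mod_Cusp m t) (mem_closedBall_zero_iff.2 a1) (mem_closedBall_zero_iff.2 a2)
      (fun t ht c => by
        have ht' := mem_closedBall_zero_iff.1 ht
        refine (hE1 q.1 t (a1.trans s1) (ht'.trans s1) c).trans ?_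
        gcongr
        exact min_le_left _ _)
    rw [dq_mod_Cusp] at this
    exact (norm_fst_le _).trans this
  · intro om o1 o2
    refine ⟨(hg om o1 o2).1, (hg om o1 o2).2.1, fun q hq b1 b2 => ?_⟩
    have a1 : ‖q.1‖ ≤ ρ := hq ▸ norm_fst_le q
    have z0 : q.1 ≠ 0 := by
      intro z0
      rw [z0, mul_zero, sub_zero, norm_zero, mul_zero, norm_le_zero_iff] at b1
      rw [Prod.norm_def, z0, b1, norm_zero, max_self] at hq
      linarith
    have z1 : q.2 ≠ q.1 := by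
      intro z1
      rw [z1, show q.1 - om * q.1 = -((om - 1) * q.1) by ring, norm_neg, norm_mul] at b1
      have := hsep om 1 o1 (one_pow _) o2
      have := le_of_mul_le_mul_right b1 (norm_pos_iff.2 z0)
      linarith
    have z2 : q.2 - q.1 ≠ 0 := sub_ne_zero.2 z1
    rw [dq_Cusp, if_neg z1] at b2 ⊢
    rw [Prod.smul_fst, smul_eq_mul, mul_eq_zero, inv_eq_zero, or_iff_right z2] at b2
    rw [Prod.smul_snd, smul_eq_mul, ← mul_assoc, mul_inv_cancel₀ z2, one_mul]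
    exact hall (by rw [dist_zero_right]; linarith) z0 om ⟨o1, o2⟩ q.2 b1 b2

theorem norm_Cusp {a : W} (ha : a ≠ 0) (k : ℂ) (hk : k ≠ 0) :
    ∃ L : W →L[ℂ] W, Function.Injective L ∧ L a = (k, 0) := by
  have hk' : ((k, 0) : W) ≠ 0 := fun h => hk (congrArg Prod.fst h)
  obtain ⟨L, hL⟩ := SeparatingDual.exists_continuousLinearEquiv_apply_eq (R := ℂ) ha hk'
  exact ⟨L, L.injective, hL⟩

theorem cusp (hW : HWStmt) (hD : DegStmt) (hF : DiffStmt) : CuspStmt := by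
  intro A An Ω u un r hA hAn hconv hr hu hm hCR hi hun c0 c1 h0
  obtain ⟨m, a, hm1, ha, hl⟩ := Sm_Cusp.lead ⟨hA, hr, hu, hm, hCR⟩ hW hi h0
  obtain ⟨L, hL, hLa⟩ := norm_Cusp ha ((m + 1 : ℕ) : ℂ) (by exact_mod_cast m.succ_ne_zero)
  set T : (W →L[ℝ] W) →L[ℝ] (W →L[ℝ] W) :=
    ContinuousLinearMap.compL ℝ W W W (L.restrictScalars ℝ)
  have hT : ∀ B v, T B v = L (B v) := fun _ _ => rfl
  have cof : ∀ B, Cofr B Ω → Cofr (fun x => T (B x)) Ω := fun B hB =>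
    ⟨hB.1, T.contDiff.comp_contDiffOn hB.2.1, fun x hx => hL.comp (hB.2.2 x hx)⟩
  have cr : ∀ B v, CR B v (ball 0 r) → CR (fun x => T (B x)) v (ball 0 r) := fun B v hB z hz => by
    rw [hT, hT, hB z hz, map_smul]
  obtain ⟨ρ, r0, r1, e, he, key⟩ := Sm_Cusp.core ⟨cof A hA, hr, hu, hm, cr A u hCR⟩ hW hD hF hi hm1
    h0 (by
      have := (L.continuous.tendsto a).comp hl
      rw [hLa] at this
      exact this.congr fun z => L.map_smul _ _)
  obtain ⟨n, hn⟩ := dq_conv_Cusp (An := fun n x => T (An n x)) (un := un) (cof A hA)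
    (T.uniformContinuous.comp_tendstoLocallyUniformlyOn hconv) r1 he (hu.of_le (by simp)) hm
    (fun n => (hun n).1) c0 c1
  obtain ⟨n1, n2, n3, n4, n5⟩ := hun n
  obtain ⟨q, hq, hq0⟩ := key _ ((dq_cont_Cusp (cof _ (hAn n)) n1 n2 (cr _ _ n3)).mono
    (closedBall_subset_ball r1)) hn
  exact dq_ne_Cusp (cof _ (hAn n)) n2 n4 n5 (closedBall_subset_ball r1 hq) hq0

end Pool.Agent.MP_2fc7fa_gt.N

end
end
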