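import Pool.Agent.Mg.F2fc7fa.G9cb2cd

section

/-! The local Pompeiu formula. -/

open scoped ContDiff Topology Interval
open Set Complex Filter MeasureTheory

namespace Pool.Agent.MP_2fc7fa_gt.N

variable {E : Type} [NormedAddCommGroup E] [NormedSpace ℂ E]

omit [NormedSpace ℂ E] in
theorem cont_T2 {K : ℝ} {v : ℂ → E} (h : Hol K v univ) : Continuous v := by
  refine continuous_iff_continuousAt.2 fun z => tendsto_iff_norm_sub_tendsto_zero.2 ?_
  refine squeeze_zero (fun _ => norm_nonneg _) (fun w => h w trivial z trivial) ?_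
  have h1 : Continuous fun w : ℂ => K * √‖w - z‖ := by fun_prop
  simpa using h1.tendsto z

theorem swap1_T2 (v : ℂ → E) (a b c d : ℝ) : rectInt v b a c d = -rectInt v a b c d := by
  simp only [rectInt, intervalIntegral.integral_symm a b]
  abel

theorem swap2_T2 (v : ℂ → E) (a b c d : ℝ) : rectInt v a b d c = -rectInt v a b c d := by
  simp only [rectInt, intervalIntegral.integral_symm c d, smul_neg]
  abel

theorem all_T2 {u h : ℂ → E} (H : ∀ a b c d : ℝ, a ≤ b → c ≤ d →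
    rectInt u a b c d = (2 * I) • ∫ x in a..b, ∫ y in c..d, h (x + y * I)) (a b c d : ℝ) :
    rectInt u a b c d = (2 * I) • ∫ x in a..b, ∫ y in c..d, h (x + y * I) := by
  have H' : ∀ a b : ℝ, a ≤ b →
      rectInt u a b c d = (2 * I) • ∫ x in a..b, ∫ y in c..d, h (x + y * I) := fun a b hab => by
    rcases le_total c d with h1 | h1
    · exact H a b c d hab h1
    · rw [swap2_T2, H a b d c hab h1]
      simp only [intervalIntegral.integral_symm d c, intervalIntegral.integral_neg, smul_neg]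
  rcases le_total a b with h1 | h1
  · exact H' a b h1
  · rw [swap1_T2, H' b a h1, intervalIntegral.integral_symm b a, smul_neg]

theorem sub_T2 {u v : ℂ → E} {a b c d : ℝ} (hu : ContinuousOn u ([[a, b]] ×ℂ [[c, d]]))
    (hv : ContinuousOn v ([[a, b]] ×ℂ [[c, d]])) :
    rectInt (fun z => u z - v z) a b c d = rectInt u a b c d - rectInt v a b c d := by
  have h1 : ∀ w : ℂ → E, ContinuousOn w ([[a, b]] ×ℂ [[c, d]]) → ∀ y ∈ [[c, d]],
      IntervalIntegrable (fun x : ℝ => w (x + y * I)) volume a b := fun w hw y hy =>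
    (hw.comp (by fun_prop) fun x hx => by simpa [mem_reProdIm, hy] using hx).intervalIntegrable
  have h2 : ∀ w : ℂ → E, ContinuousOn w ([[a, b]] ×ℂ [[c, d]]) → ∀ x ∈ [[a, b]],
      IntervalIntegrable (fun y : ℝ => w (x + y * I)) volume c d := fun w hw x hx =>
    (hw.comp (by fun_prop) fun y hy => by simpa [mem_reProdIm, hx] using hy).intervalIntegrable
  simp only [rectInt]
  rw [intervalIntegral.integral_sub (h1 u hu c left_mem_uIcc) (h1 v hv c left_mem_uIcc),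
    intervalIntegral.integral_sub (h1 u hu d right_mem_uIcc) (h1 v hv d right_mem_uIcc),
    intervalIntegral.integral_sub (h2 u hu a left_mem_uIcc) (h2 v hv a left_mem_uIcc),
    intervalIntegral.integral_sub (h2 u hu b right_mem_uIcc) (h2 v hv b right_mem_uIcc),
    smul_sub, smul_sub]
  abel

theorem t2 (h1 : T1Stmt) (h4 : T4Stmt) (hG : GreenStmt) : T2Stmt := by
  intro E _ _ _ h v c R M O hb hO hv hd
  obtain ⟨C, -, hC⟩ := h1
  have hc : Continuous (cT h) := cont_T2 (hC E h c (max R 1) M (by positivity)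
    ⟨hb.1, hb.2.1, fun z hz => hb.2.2 z ((le_max_left _ _).trans hz)⟩).2
  refine (isConservativeOn_and_continuousOn_iff_isDifferentiableOn hO).1
    ⟨fun z w hzw => ?_, hv.continuousOn.sub hc.continuousOn⟩
  have hf : ContinuousOn (fderiv ℝ v) O := hv.continuousOn_fderiv_of_isOpen hO le_rfl
  have hi : ContinuousOn (fun z => I • fderiv ℝ v z 1 - fderiv ℝ v z I) O :=
    ((hf.clm_apply continuousOn_const).const_smul I).sub (hf.clm_apply continuousOn_const)
  have e := integral_boundary_rect_of_differentiableOn_real v z w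
    ((hv.differentiableOn one_ne_zero).mono hzw)
    ((hi.mono hzw).integrableOn_compact (isCompact_uIcc.reProdIm isCompact_uIcc))
  rw [← add_eq_zero_iff_eq_neg, wedgeIntegral_add_wedgeIntegral_eq]
  change rectInt (fun z => v z - cT h z) z.re w.re z.im w.im = 0
  rw [sub_T2 (hv.continuousOn.mono hzw) hc.continuousOn, all_T2 (h4 E h c R M hb), rectInt, e,
    sub_eq_zero, ← intervalIntegral.integral_smul]
  refine intervalIntegral.integral_congr fun x hx => ?_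
  simp only [← intervalIntegral.integral_smul]
  refine intervalIntegral.integral_congr fun y hy => ?_
  rw [← hd _ (hzw (by simpa [Rectangle, mem_reProdIm, hx] using hy)), dbar, smul_smul, smul_add,
    smul_smul, show 2 * I * (1 / 2) = I by ring, I_mul_I, neg_one_smul, sub_eq_add_neg]

end Pool.Agent.MP_2fc7fa_gt.N

end

section

/-! Schauder estimate, part A: convolution with one smooth compactly supported kernel. -/

open scoped ContDiff ComplexConjugate Topology Convolution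
open Set Complex Filter Metric MeasureTheory

noncomputable section

namespace Pool.Agent.MP_2fc7fa_gt.N

theorem ball_bound_T3 {G : Type} [NormedAddCommGroup G] [NormedSpace ℝ G] (F : ℂ → G) (z : ℂ)
    (r B : ℝ) (hr : 0 ≤ r) (h0 : ∀ ζ, r < ‖ζ - z‖ → F ζ = 0)
    (hB : ∀ ζ, ‖ζ - z‖ ≤ r → ‖F ζ‖ ≤ B) : ‖∫ ζ, F ζ‖ ≤ B * (Real.pi * r ^ 2) := by
  have e : ∫ ζ in closedBall z r, F ζ = ∫ ζ, F ζ := by
    apply setIntegral_eq_integral_of_forall_compl_eq_zero
    intro ζ hζ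
    apply h0
    simpa [mem_closedBall, dist_eq_norm] using hζ
  rw [← e]
  have hv : (volume : Measure ℂ).real (closedBall z r) = Real.pi * r ^ 2 := by
    rw [Measure.real, Complex.volume_closedBall]
    simp [ENNReal.toReal_ofReal hr, mul_comm]
  rw [← hv]
  apply norm_setIntegral_le_of_norm_le_const (measure_closedBall_lt_top)
  intro ζ hζ
  apply hB
  simpa [mem_closedBall, dist_eq_norm] using hζ

theorem supp_T3 {F : Type} [NormedAddCommGroup F] {g : ℂ → F} {r : ℝ}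
    (h0 : ∀ w, r < ‖w‖ → g w = 0) : HasCompactSupport g := by
  apply HasCompactSupport.intro (isCompact_closedBall (0 : ℂ) r)
  intro w hw
  apply h0
  simpa using hw

theorem hol_cont_T3 {E : Type} [NormedAddCommGroup E] {K : ℝ} {h : ℂ → E} (hh : Hol K h univ) :
    Continuous h := by
  rw [continuous_iff_continuousAt]
  intro z
  rw [ContinuousAt, tendsto_iff_norm_sub_tendsto_zero]
  have hc : Continuous fun w : ℂ => K * √‖w - z‖ := by fun_prop
  have ht : Tendsto (fun w : ℂ => K * √‖w - z‖) (𝓝 z) (𝓝 0) := by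
    simpa using hc.tendsto z
  exact squeeze_zero (fun _ => norm_nonneg _) (fun w => hh w (mem_univ _) z (mem_univ _)) ht

section
variable {E F G : Type} [NormedAddCommGroup E] [NormedSpace ℝ E] [NormedAddCommGroup F]
  [NormedSpace ℝ F] [NormedAddCommGroup G] [NormedSpace ℝ G]

theorem integrable_T3 (L : E →L[ℝ] F →L[ℝ] G) {h : ℂ → E} {g : ℂ → F} (hh : Continuous h)
    (hg : Continuous g) {r : ℝ} (h0 : ∀ w, r < ‖w‖ → g w = 0) (z : ℂ) :
    Integrable (fun ζ => L (h ζ) (g (z - ζ))) :=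
  (supp_T3 h0).convolutionExists_right L hh.locallyIntegrable hg z

theorem cancel_T3 [CompleteSpace F] [CompleteSpace G] (L : E →L[ℝ] F →L[ℝ] G)
    (hL : ∀ a b, ‖L a b‖ ≤ ‖a‖ * ‖b‖) {h : ℂ → E} {g : ℂ → F} {K B r : ℝ} (hK : 0 ≤ K) (hh : Hol K h univ)
    (hg : Continuous g) (hr : 0 ≤ r) (h0 : ∀ w, r < ‖w‖ → g w = 0) (hB : ∀ w, ‖g w‖ ≤ B)
    (hi : ∫ w, g w = 0) (z : ℂ) :
    ‖∫ ζ, L (h ζ) (g (z - ζ))‖ ≤ K * √r * B * (Real.pi * r ^ 2) := by
  have hc := hol_cont_T3 hh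
  have i1 := integrable_T3 L hc hg h0 z
  have i2 := integrable_T3 L (h := fun _ => h z) continuous_const hg h0 z
  have i3 : Integrable (fun ζ => g (z - ζ)) :=
    (hg.integrable_of_hasCompactSupport (supp_T3 h0)).comp_sub_left z
  have e2 : ∫ ζ, L (h z) (g (z - ζ)) = 0 := by
    rw [ContinuousLinearMap.integral_comp_comm _ i3, integral_sub_left_eq_self g volume z, hi,
      map_zero]
  have e : ∫ ζ, L (h ζ) (g (z - ζ)) = ∫ ζ, L (h ζ - h z) (g (z - ζ)) := by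
    rw [← sub_zero (∫ ζ, L (h ζ) (g (z - ζ))), ← e2, ← integral_sub i1 i2]
    simp
  rw [e]
  apply ball_bound_T3 _ z r _ hr
  · intro ζ hζ
    rw [h0 (z - ζ) (by rwa [norm_sub_rev]), map_zero]
  · intro ζ hζ
    have h1 : ‖h ζ - h z‖ ≤ K * √r :=
      (hh ζ (mem_univ _) z (mem_univ _)).trans
        (mul_le_mul_of_nonneg_left (Real.sqrt_le_sqrt hζ) hK)
    exact (hL _ _).trans (mul_le_mul h1 (hB _) (norm_nonneg _) (by positivity))

end

theorem integral_fderiv_T3 {g : ℂ → ℂ} (hg : ContDiff ℝ 1 g) (hs : HasCompactSupport g) :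
    ∫ w, fderiv ℝ g w = 0 := by
  have h1 := hs.hasFDerivAt_convolution_right (μ := volume)
    (ContinuousLinearMap.lsmul ℝ ℝ : ℝ →L[ℝ] ℂ →L[ℝ] ℂ) (f := fun _ => (1 : ℝ))
    (continuous_const.locallyIntegrable) hg 0
  have e : ((fun _ : ℂ => (1 : ℝ)) ⋆[(ContinuousLinearMap.lsmul ℝ ℝ : ℝ →L[ℝ] ℂ →L[ℝ] ℂ), volume] g)
      = fun _ => ∫ w, g w := by
    funext x
    rw [convolution_def]
    simp only [ContinuousLinearMap.lsmul_apply, one_smul]
    exact integral_sub_left_eq_self g volume x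
  rw [e] at h1
  have h2 := h1.unique (hasFDerivAt_const _ _)
  rw [convolution_def] at h2
  rw [← integral_sub_left_eq_self (fderiv ℝ g) volume 0, ← h2]
  congr 1
  funext t
  ext <;> simp

theorem ker_T3 {E : Type} [NormedAddCommGroup E] [NormedSpace ℂ E] [CompleteSpace E]
    {g : ℂ → ℂ} (hg : ContDiff ℝ 1 g) {ρ B0 B1 B2 : ℝ} (hρ : 0 < ρ)
    (hs : ∀ w, ρ ^ 2 < ‖w‖ → g w = 0) (h0 : ∀ w, ‖g w‖ ≤ B0) (h1 : ∀ w, ‖fderiv ℝ g w‖ ≤ B1)
    (hB2 : 0 ≤ B2) (h2 : ∀ w w', ‖fderiv ℝ g w - fderiv ℝ g w'‖ ≤ B2 * ‖w - w'‖)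
    {h : ℂ → E} {c : ℂ} {R M K : ℝ} (hR : 0 < R) (hb : Bdd h c R M) (hK : 0 ≤ K)
    (hh : Hol K h univ) :
    ∃ D : ℂ → ℂ →L[ℝ] E, (∀ z, HasFDerivAt (fun z => ∫ ζ, g (z - ζ) • h ζ) (D z) z) ∧
      (∀ z, Integrable (fun ζ => g (z - ζ) • h ζ)) ∧
      (∀ z, ∫ ζ, ‖g (z - ζ) • h ζ‖ ≤ B0 * M * (Real.pi * ρ ^ 4)) ∧
      (∀ z, ∫ ζ, ‖g (z - ζ) • h ζ‖ ≤ B0 * M * (Real.pi * R ^ 2)) ∧
      (∀ z, ‖D z‖ ≤ B1 * K * (Real.pi * ρ ^ 5)) ∧
      (∀ z, ‖D z‖ ≤ B1 * M * (Real.pi * R ^ 2)) ∧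
      ∀ z z', ‖z - z'‖ ≤ ρ ^ 2 → ‖D z - D z'‖ ≤ 8 * B2 * K * (Real.pi * ρ ^ 5) * ‖z - z'‖ := by
  have hc := hol_cont_T3 hh
  have hM : 0 ≤ M := (norm_nonneg _).trans (hb.2.1 0)
  have hB0 : 0 ≤ B0 := (norm_nonneg _).trans (h0 0)
  have hB1 : 0 ≤ B1 := (norm_nonneg _).trans (h1 0)
  let L : E →L[ℝ] ℂ →L[ℝ] E := (ContinuousLinearMap.lsmul ℝ ℂ : ℂ →L[ℝ] E →L[ℝ] E).flip
  have hL2 : ∀ a b, ‖L.precompR ℂ a b‖ ≤ ‖a‖ * ‖b‖ := by
    intro a b
    apply ContinuousLinearMap.opNorm_le_bound _ (by positivity)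
    intro x
    show ‖b x • a‖ ≤ _
    rw [norm_smul]
    have := mul_le_mul_of_nonneg_right (b.le_opNorm x) (norm_nonneg a)
    linarith
  have hs' : ∀ w, ρ ^ 2 < ‖w‖ → fderiv ℝ g w = 0 := by
    intro w hw
    have : g =ᶠ[𝓝 w] fun _ => 0 := by
      have ho : IsOpen {w : ℂ | ρ ^ 2 < ‖w‖} := isOpen_lt continuous_const continuous_norm
      filter_upwards [ho.mem_nhds hw] with x hx using hs x hx
    rw [this.fderiv_eq, fderiv_fun_const]
    rfl
  have hcd : Continuous (fderiv ℝ g) := hg.continuous_fderiv one_ne_zero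
  have hi := integral_fderiv_T3 hg (supp_T3 hs)
  have hsq : √(ρ ^ 2) = ρ := Real.sqrt_sq hρ.le
  refine ⟨fun z => ∫ ζ, L.precompR ℂ (h ζ) (fderiv ℝ g (z - ζ)), ?_, ?_, ?_, ?_, ?_, ?_, ?_⟩
  · intro z
    exact (supp_T3 hs).hasFDerivAt_convolution_right (μ := volume) L hc.locallyIntegrable hg z
  · intro z
    exact integrable_T3 L hc hg.continuous hs z
  · intro z
    refine (le_abs_self _).trans ?_
    have := ball_bound_T3 (fun ζ => ‖g (z - ζ) • h ζ‖) z (ρ ^ 2) (B0 * M) (by positivity)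
      (fun ζ hζ => by rw [hs (z - ζ) (by rwa [norm_sub_rev]), zero_smul, norm_zero])
      (fun ζ _ => by
        rw [norm_norm, norm_smul]
        exact mul_le_mul (h0 _) (hb.2.1 _) (norm_nonneg _) hB0)
    rw [Real.norm_eq_abs] at this
    refine this.trans (le_of_eq ?_)
    ring
  · intro z
    refine (le_abs_self _).trans ?_
    have := ball_bound_T3 (fun ζ => ‖g (z - ζ) • h ζ‖) c R (B0 * M) hR.le
      (fun ζ hζ => by rw [hb.2.2 ζ hζ.le, smul_zero, norm_zero])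
      (fun ζ _ => by
        rw [norm_norm, norm_smul]
        exact mul_le_mul (h0 _) (hb.2.1 _) (norm_nonneg _) hB0)
    rwa [Real.norm_eq_abs] at this
  · intro z
    have := cancel_T3 (L.precompR ℂ) hL2 hK hh hcd (by positivity) hs' h1 hi z
    rw [hsq] at this
    refine this.trans (le_of_eq ?_)
    ring
  · intro z
    apply ball_bound_T3 _ c R (B1 * M) hR.le
    · intro ζ hζ
      rw [hb.2.2 ζ hζ.le, map_zero]
      rfl
    · intro ζ _
      rw [mul_comm B1 M]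
      exact (hL2 _ _).trans (mul_le_mul (hb.2.1 ζ) (h1 _) (norm_nonneg _) hM)
  · intro z z' hz
    have i1 := integrable_T3 (L.precompR ℂ) hc hcd hs' z
    have i2 := integrable_T3 (L.precompR ℂ) hc hcd hs' z'
    have j1 : Integrable (fderiv ℝ g) := hcd.integrable_of_hasCompactSupport (supp_T3 hs')
    let G : ℂ → ℂ →L[ℝ] ℂ := fun w => fderiv ℝ g w - fderiv ℝ g (w + (z' - z))
    have hGc : Continuous G := hcd.sub (hcd.comp (continuous_id.add continuous_const))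
    have hG0 : ∀ w, 2 * ρ ^ 2 < ‖w‖ → G w = 0 := by
      intro w hw
      have a1 : ρ ^ 2 < ‖w‖ := by nlinarith [sq_nonneg ρ]
      have a2 : ρ ^ 2 < ‖w + (z' - z)‖ := by
        have := norm_sub_le (w + (z' - z)) (z' - z)
        rw [add_sub_cancel_right, norm_sub_rev z' z] at this
        linarith
      simp only [G, hs' _ a1, hs' _ a2, sub_zero]
    have hGB : ∀ w, ‖G w‖ ≤ B2 * ‖z - z'‖ := by
      intro w
      have := h2 w (w + (z' - z))
      rwa [show w - (w + (z' - z)) = z - z' by ring] at this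
    have hGi : ∫ w, G w = 0 := by
      simp only [G]
      rw [integral_sub j1 (j1.comp_add_right _), integral_add_right_eq_self (fderiv ℝ g), sub_self]
    have := cancel_T3 (L.precompR ℂ) hL2 hK hh hGc (by positivity) hG0 hGB hGi z
    have e : (∫ ζ, L.precompR ℂ (h ζ) (fderiv ℝ g (z - ζ))) -
        ∫ ζ, L.precompR ℂ (h ζ) (fderiv ℝ g (z' - ζ)) =
        ∫ ζ, L.precompR ℂ (h ζ) (G (z - ζ)) := by
      rw [← integral_sub i1 i2]
      congr 1
      funext ζ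
      simp only [G, map_sub]
      rw [show z - ζ + (z' - z) = z' - ζ by ring]
    show ‖(∫ ζ, L.precompR ℂ (h ζ) (fderiv ℝ g (z - ζ))) -
        ∫ ζ, L.precompR ℂ (h ζ) (fderiv ℝ g (z' - ζ))‖ ≤ _
    rw [e]
    refine this.trans ?_
    have s2 : √(2 * ρ ^ 2) ≤ 2 * ρ := by
      rw [Real.sqrt_le_left (by positivity)]
      nlinarith [sq_nonneg ρ]
    calc K * √(2 * ρ ^ 2) * (B2 * ‖z - z'‖) * (Real.pi * (2 * ρ ^ 2) ^ 2)
        ≤ K * (2 * ρ) * (B2 * ‖z - z'‖) * (Real.pi * (2 * ρ ^ 2) ^ 2) := by gcongr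
      _ = 8 * B2 * K * (Real.pi * ρ ^ 5) * ‖z - z'‖ := by ring

end Pool.Agent.MP_2fc7fa_gt.N

end
end

section

/-! Schauder estimate, part B: the dyadic decomposition of the Cauchy kernel, and the
differentiated form of the integrated equation. -/

open scoped ContDiff ComplexConjugate Topology
open Set Complex Filter Metric MeasureTheory

noncomputable section

namespace Pool.Agent.MP_2fc7fa_gt.N

theorem tele_T3 (a : ℤ → ℝ) (N : ℕ) (h0 : ∀ n : ℕ, N ≤ n → a n = 0)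
    (h1 : ∀ n : ℕ, N ≤ n → a (-n) = 1) : HasSum (fun j : ℤ => a j - a (j + 1)) 1 := by
  have A : HasSum (fun n : ℕ => a n - a ((n + 1 : ℕ) : ℤ)) (a 0) := by
    have := hasSum_sum_of_ne_finset_zero (L := SummationFilter.unconditional ℕ)
      (f := fun n : ℕ => a n - a ((n + 1 : ℕ) : ℤ)) (s := Finset.range N) (by
        intro n hn
        have hn' : N ≤ n := by simpa using hn
        rw [h0 n hn', h0 (n + 1) (by omega), sub_zero])
    rw [Finset.sum_range_sub' (fun n : ℕ => a n), h0 N le_rfl] at this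
    simpa using this
  have B : HasSum (fun n : ℕ => a (-((n + 1 : ℕ) : ℤ)) - a (-(n : ℤ))) (1 - a 0) := by
    have := hasSum_sum_of_ne_finset_zero (L := SummationFilter.unconditional ℕ)
      (f := fun n : ℕ => a (-((n + 1 : ℕ) : ℤ)) - a (-(n : ℤ))) (s := Finset.range N) (by
        intro n hn
        have hn' : N ≤ n := by simpa using hn
        rw [h1 n hn', h1 (n + 1) (by omega), sub_self])
    rw [Finset.sum_range_sub (fun n : ℕ => a (-(n : ℤ))), h1 N le_rfl] at this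
    simpa using this
  have := HasSum.of_nat_of_neg_add_one (f := fun j : ℤ => a j - a (j + 1)) (by simpa using A)
    (by simpa using B)
  simpa using this

theorem exists_kap_T3 : ∃ (κ : ℂ → ℂ) (b : ℝ), 0 ≤ b ∧ ContDiff ℝ 1 κ ∧
    (∀ w, 1 < ‖w‖ → κ w = 0) ∧ (∀ w, ‖κ w‖ ≤ b) ∧ (∀ w, ‖fderiv ℝ κ w‖ ≤ b) ∧
    (∀ w w', ‖fderiv ℝ κ w - fderiv ℝ κ w'‖ ≤ b * ‖w - w'‖) ∧
    ∀ w, HasSum (fun j : ℤ => ((2 : ℝ) ^ j) ^ 2 • κ (((2 : ℝ) ^ j) ^ 2 • w))
      ((Real.pi : ℂ) * w)⁻¹ := by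
  let ψ : ContDiffBump (0 : ℂ) := ⟨1 / 2, 1, by norm_num, by norm_num⟩
  have ψ1 : ∀ w : ℂ, ‖w‖ ≤ 1 / 2 → ψ w = 1 := fun w hw =>
    ψ.one_of_mem_closedBall (mem_closedBall_zero_iff.2 hw)
  have ψ0 : ∀ w : ℂ, 1 ≤ ‖w‖ → ψ w = 0 := fun w hw =>
    ψ.zero_of_le_dist (by rw [dist_zero_right]; exact hw)
  let κ : ℂ → ℂ := fun w => ((Real.pi : ℂ) * w)⁻¹ * ((ψ w - ψ ((4 : ℝ) • w) : ℝ) : ℂ)
  have hπ : (Real.pi : ℂ) ≠ 0 := ofReal_ne_zero.2 Real.pi_ne_zero
  have n4 : ∀ w : ℂ, ‖(4 : ℝ) • w‖ = 4 * ‖w‖ := fun w => by rw [norm_smul]; norm_num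
  have hκ : ContDiff ℝ 2 κ := by
    rw [contDiff_iff_contDiffAt]
    intro w
    by_cases hw : w = 0
    · have : κ =ᶠ[𝓝 w] fun _ => 0 := by
        subst hw
        filter_upwards [ball_mem_nhds (0 : ℂ) (show (0 : ℝ) < 1 / 8 by norm_num)] with x hx
        have hx' : ‖x‖ < 1 / 8 := by simpa using hx
        simp only [κ]
        rw [ψ1 x (by linarith), ψ1 _ (by rw [n4]; linarith)]
        simp
      exact contDiffAt_const.congr_of_eventuallyEq this
    · apply ContDiffAt.mul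
      · apply ContDiffAt.inv (contDiffAt_const.mul contDiffAt_id) (mul_ne_zero hπ hw)
      · apply ContDiff.contDiffAt
        exact ofRealCLM.contDiff.comp (ψ.contDiff.sub (ψ.contDiff.comp (contDiff_const_smul _)))
  have hs : ∀ w, 1 < ‖w‖ → κ w = 0 := by
    intro w hw
    simp only [κ]
    rw [ψ0 w hw.le, ψ0 _ (by rw [n4]; linarith)]
    simp
  have hcs := supp_T3 hs
  obtain ⟨b0, hb0⟩ := hcs.exists_bound_of_continuous hκ.continuous
  have hd : ContDiff ℝ 1 (fderiv ℝ κ) := hκ.fderiv_right (by norm_num)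
  obtain ⟨b1, hb1⟩ := (hcs.fderiv ℝ).exists_bound_of_continuous hd.continuous
  obtain ⟨b2, hb2⟩ := hd.lipschitzWith_of_hasCompactSupport (hcs.fderiv ℝ) one_ne_zero
  have p0 : 0 ≤ b0 := (norm_nonneg _).trans (hb0 0)
  have p1 : 0 ≤ b1 := (norm_nonneg _).trans (hb1 0)
  have p2 : (0 : ℝ) ≤ b2 := b2.2
  refine ⟨κ, b0 + b1 + b2, by positivity, hκ.of_le (by norm_num), hs, fun w => ?_, fun w => ?_,
    fun w w' => ?_, fun w => ?_⟩
  · linarith [hb0 w]
  · linarith [hb1 w]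
  · have := hb2.dist_le_mul w w'
    rw [dist_eq_norm, dist_eq_norm] at this
    refine this.trans (mul_le_mul_of_nonneg_right (by linarith) (norm_nonneg _))
  · by_cases hw : w = 0
    · subst hw
      simp only [κ, smul_zero, mul_zero, inv_zero, zero_mul]
      exact hasSum_zero
    · have hw' : 0 < ‖w‖ := norm_pos_iff.2 hw
      obtain ⟨N, hN⟩ := pow_unbounded_of_one_lt (‖w‖⁻¹ + 2 * ‖w‖) (show (1 : ℝ) < 2 by norm_num)
      have big : ∀ n : ℕ, N ≤ n → ‖w‖⁻¹ + 2 * ‖w‖ ≤ ((2 : ℝ) ^ n) ^ 2 := by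
        intro n hn
        have a1 : (2 : ℝ) ^ N ≤ 2 ^ n := pow_le_pow_right₀ (by norm_num) hn
        have a2 : (1 : ℝ) ≤ 2 ^ n := one_le_pow₀ (by norm_num)
        nlinarith
      have T := tele_T3 (fun j => ψ (((2 : ℝ) ^ j) ^ 2 • w)) N (by
          intro n hn
          apply ψ0
          rw [norm_smul, Real.norm_of_nonneg (by positivity), zpow_natCast]
          have := big n hn
          have e : ‖w‖⁻¹ * ‖w‖ = 1 := inv_mul_cancel₀ hw'.ne'
          nlinarith [mul_le_mul_of_nonneg_right this hw'.le, mul_pos hw' hw']) (by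
          intro n hn
          apply ψ1
          rw [norm_smul, Real.norm_of_nonneg (by positivity), zpow_neg, zpow_natCast, inv_pow,
            inv_mul_le_iff₀ (by positivity)]
          have := big n hn
          have : 0 < ‖w‖⁻¹ := by positivity
          linarith)
      have T2 := (Complex.hasSum_ofReal.2 T).mul_left ((Real.pi : ℂ) * w)⁻¹
      rw [ofReal_one, mul_one] at T2
      refine (congrArg (fun F => HasSum F ((Real.pi : ℂ) * w)⁻¹) (funext fun j => ?_)).mpr T2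
      have hj : (((2 : ℝ) ^ j : ℝ) : ℂ) ≠ 0 := ofReal_ne_zero.2 (by positivity)
      have e : (4 : ℝ) • ((2 : ℝ) ^ j) ^ 2 • w = ((2 : ℝ) ^ (j + 1)) ^ 2 • w := by
        rw [smul_smul, zpow_add_one₀ (by norm_num)]
        congr 1
        ring
      simp only [κ]
      rw [e, real_smul, real_smul (x := ((2 : ℝ) ^ j) ^ 2) (z := w), ofReal_pow]
      field_simp

theorem scale_T3 {κ : ℂ → ℂ} {b : ℝ} (hκ : ContDiff ℝ 1 κ) (hs : ∀ w, 1 < ‖w‖ → κ w = 0)
    (h0 : ∀ w, ‖κ w‖ ≤ b) (h1 : ∀ w, ‖fderiv ℝ κ w‖ ≤ b)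
    (h2 : ∀ w w', ‖fderiv ℝ κ w - fderiv ℝ κ w'‖ ≤ b * ‖w - w'‖) {t : ℝ} (ht : 0 < t)
    (g : ℂ → ℂ) (hg : g = fun w => t ^ 2 • κ (t ^ 2 • w)) :
    ContDiff ℝ 1 g ∧ (∀ w, t⁻¹ ^ 2 < ‖w‖ → g w = 0) ∧ (∀ w, ‖g w‖ ≤ b * t ^ 2) ∧
      (∀ w, ‖fderiv ℝ g w‖ ≤ b * t ^ 4) ∧
      ∀ w w', ‖fderiv ℝ g w - fderiv ℝ g w'‖ ≤ b * t ^ 6 * ‖w - w'‖ := by
  have hd : ∀ w, fderiv ℝ g w = t ^ 4 • fderiv ℝ κ (t ^ 2 • w) := by
    intro w
    have a := ((hκ.differentiable one_ne_zero (t ^ 2 • w)).hasFDerivAt.comp w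
      ((hasFDerivAt_id w).const_smul (t ^ 2))).const_smul (t ^ 2)
    rw [hg]
    refine a.fderiv.trans ?_
    apply ContinuousLinearMap.ext
    intro x
    simp only [ContinuousLinearMap.smul_apply, ContinuousLinearMap.comp_apply,
      ContinuousLinearMap.id_apply, map_smul, smul_smul]
    congr 1
    ring
  refine ⟨?_, ?_, ?_, ?_, ?_⟩
  · rw [hg]
    exact (hκ.comp (contDiff_const_smul _)).const_smul _
  · intro w hw
    rw [hg]
    simp only
    rw [hs, smul_zero]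
    rw [norm_smul, Real.norm_of_nonneg (by positivity)]
    rw [inv_pow, inv_lt_iff_one_lt_mul₀' (by positivity)] at hw
    exact hw
  · intro w
    rw [hg]
    simp only
    rw [norm_smul, Real.norm_of_nonneg (by positivity), mul_comm]
    exact mul_le_mul_of_nonneg_right (h0 _) (by positivity)
  · intro w
    rw [hd, norm_smul, Real.norm_of_nonneg (by positivity), mul_comm]
    exact mul_le_mul_of_nonneg_right (h1 _) (by positivity)
  · intro w w'
    rw [hd, hd, ← smul_sub, norm_smul, Real.norm_of_nonneg (by positivity)]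
    have := h2 (t ^ 2 • w) (t ^ 2 • w')
    rw [← smul_sub, norm_smul, Real.norm_of_nonneg (by positivity)] at this
    calc t ^ 4 * ‖fderiv ℝ κ (t ^ 2 • w) - fderiv ℝ κ (t ^ 2 • w')‖
        ≤ t ^ 4 * (b * (t ^ 2 * ‖w - w'‖)) := by gcongr
      _ = b * t ^ 6 * ‖w - w'‖ := by ring

section
variable {E : Type} [NormedAddCommGroup E] [NormedSpace ℂ E] [CompleteSpace E]

theorem zero_of_int_T3 {f : ℝ → E} (hf : Continuous f)
    (h : ∀ a b : ℝ, a ≤ b → ∫ x in a..b, f x = 0) (x : ℝ) : f x = 0 := by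
  have d := (hf.integral_hasStrictDerivAt (x - 1) x).hasDerivAt
  have e : (fun u => ∫ y in (x - 1)..u, f y) =ᶠ[𝓝 x] fun _ => 0 := by
    filter_upwards [Ioi_mem_nhds (show x - 1 < x by linarith)] with u hu
    exact h _ _ (le_of_lt hu)
  exact (d.congr_of_eventuallyEq e.symm).unique (hasDerivAt_const x 0)

theorem zero_of_int2_T3 {f : ℂ → E} (hf : Continuous f)
    (h : ∀ a b c d : ℝ, a ≤ b → c ≤ d → ∫ x in a..b, ∫ y in c..d, f (x + y * I) = 0) (z : ℂ) :
    f z = 0 := by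
  have A : ∀ x c d : ℝ, c ≤ d → ∫ y in c..d, f (x + y * I) = 0 := by
    intro x c d hcd
    refine zero_of_int_T3 (f := fun x : ℝ => ∫ y in c..d, f (x + y * I)) ?_
      (fun a b hab => h a b c d hab hcd) x
    apply intervalIntegral.continuous_parametric_intervalIntegral_of_continuous'
    exact hf.comp (by fun_prop : Continuous fun p : ℝ × ℝ => (p.1 : ℂ) + p.2 * I)
  have := zero_of_int_T3 (f := fun y : ℝ => f (z.re + y * I)) (hf.comp (by fun_prop))
    (fun c d hcd => A z.re c d hcd) z.im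
  simpa using this

theorem dbar_T3 {v h : ℂ → E} (hv : ContDiff ℝ 1 v) (hh : Continuous h)
    (H : ∀ a b c d : ℝ, a ≤ b → c ≤ d →
      rectInt v a b c d = (2 * I) • ∫ x in a..b, ∫ y in c..d, h (x + y * I)) (z : ℂ) :
    dbar v z = h z := by
  have hd : Continuous (fderiv ℝ v) := hv.continuous_fderiv one_ne_zero
  let f : ℂ → E := fun z => I • fderiv ℝ v z 1 - fderiv ℝ v z I
  have hf : Continuous f := by
    simp only [f]
    fun_prop
  have key : f z - (2 * I) • h z = 0 := by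
    refine zero_of_int2_T3 (f := fun z => f z - (2 * I) • h z) (by fun_prop) ?_ z
    intro a b c d hab hcd
    have G := Complex.integral_boundary_rect_of_differentiableOn_real v ⟨a, c⟩ ⟨b, d⟩
      (hv.differentiable one_ne_zero).differentiableOn
      (hf.continuousOn.integrableOn_compact (isCompact_uIcc.reProdIm isCompact_uIcc))
    have G' : rectInt v a b c d = ∫ x in a..b, ∫ y in c..d, f (x + y * I) := G
    have c1 : ∀ g : ℂ → E, Continuous g → Continuous fun x : ℝ => ∫ y in c..d, g (x + y * I) := by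
      intro g hg
      apply intervalIntegral.continuous_parametric_intervalIntegral_of_continuous'
      exact hg.comp (by fun_prop : Continuous fun p : ℝ × ℝ => (p.1 : ℂ) + p.2 * I)
    have e : ∀ x : ℝ, ∫ y in c..d, (f (x + y * I) - (2 * I) • h (x + y * I)) =
        (∫ y in c..d, f (x + y * I)) - (2 * I) • ∫ y in c..d, h (x + y * I) := by
      intro x
      rw [intervalIntegral.integral_sub, intervalIntegral.integral_smul]
      · exact (by fun_prop : Continuous fun y : ℝ => f (x + y * I)).intervalIntegrable _ _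
      · exact (by fun_prop : Continuous fun y : ℝ => (2 * I) • h (x + y * I)).intervalIntegrable _ _
    simp only [e]
    have c2 : Continuous fun x : ℝ => (2 * I) • ∫ y in c..d, h (x + y * I) :=
      (c1 h hh).const_smul (2 * I)
    rw [intervalIntegral.integral_sub ((c1 f hf).intervalIntegrable _ _)
      (c2.intervalIntegrable _ _), intervalIntegral.integral_smul,
      ← G', H a b c d hab hcd, sub_self]
  rw [sub_eq_zero] at key
  have e : h z = (2 * I)⁻¹ • f z := by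
    rw [key, smul_smul, inv_mul_cancel₀ (mul_ne_zero two_ne_zero I_ne_zero), one_smul]
  have e1 : (2 * I)⁻¹ * I = 1 / 2 := by field_simp
  have e2 : (2 * I)⁻¹ = -(1 / 2 * I) := by
    rw [mul_inv, inv_I]
    ring
  rw [e, dbar]
  simp only [f]
  rw [smul_sub, smul_smul, e1, e2, neg_smul, sub_neg_eq_add, smul_add, smul_smul]

end

end Pool.Agent.MP_2fc7fa_gt.N

end
end

section

/-! The Schauder estimate for the Cauchy transform. -/

open scoped ContDiff ComplexConjugate Topology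
open Set Complex Filter Metric MeasureTheory

noncomputable section

namespace Pool.Agent.MP_2fc7fa_gt.N

/-- The weights of the dyadic decomposition. -/
def wgt_T3 (j : ℤ) : ℝ := min ((2 : ℝ) ^ j) ((2 : ℝ) ^ j)⁻¹

theorem wgt_nonneg_T3 (j : ℤ) : 0 ≤ wgt_T3 j := le_min (by positivity) (by positivity)

theorem wgt_summable_T3 : Summable wgt_T3 := by
  apply Summable.of_nat_of_neg
  · refine Summable.of_nonneg_of_le (fun n => wgt_nonneg_T3 _) (fun n => ?_) summable_geometric_two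
    refine (min_le_right _ _).trans (le_of_eq ?_)
    rw [zpow_natCast, one_div, inv_pow]
  · refine Summable.of_nonneg_of_le (fun n => wgt_nonneg_T3 _) (fun n => ?_) summable_geometric_two
    refine (min_le_left _ _).trans (le_of_eq ?_)
    rw [zpow_neg, zpow_natCast, one_div, inv_pow]

theorem le_min_T3 {t x P Q : ℝ} (ht : 0 < t) (hP : 0 ≤ P) (hQ : 0 ≤ Q) {m n : ℕ}
    (h1 : x ≤ P * t⁻¹ ^ (m + 1)) (h2 : x ≤ Q * t ^ (n + 1)) : x ≤ (P + Q) * min t t⁻¹ := by
  have ht' : 0 < t⁻¹ := inv_pos.2 ht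
  rcases le_total t 1 with h | h
  · have a : t ≤ t⁻¹ := h.trans ((one_le_inv₀ ht).2 h)
    rw [min_eq_left a]
    have b : t ^ (n + 1) ≤ t := pow_le_of_le_one ht.le h (by omega)
    nlinarith [mul_le_mul_of_nonneg_left b hQ, mul_nonneg hP ht.le]
  · have h' : t⁻¹ ≤ 1 := inv_le_one_of_one_le₀ h
    rw [min_eq_right (h'.trans h)]
    have b : t⁻¹ ^ (m + 1) ≤ t⁻¹ := pow_le_of_le_one ht'.le h' (by omega)
    nlinarith [mul_le_mul_of_nonneg_left b hP, mul_nonneg hQ ht'.le]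

theorem hol_term_T3 {τ u s x P : ℝ} (hτ : 0 < τ) (hu : 0 < u) (hs : 0 < s) (hP : 0 ≤ P)
    (h1 : u * s ≤ 1) (h2 : 1 ≤ 2 * (u * s))
    (ha : s ^ 2 ≤ (τ * u)⁻¹ ^ 2 → x ≤ 8 * P * (τ * u) * s ^ 2) (hb : x ≤ 2 * P * (τ * u)⁻¹) :
    x ≤ 16 * P * s * min τ τ⁻¹ := by
  have hτu : 0 < τ * u := mul_pos hτ hu
  have hτ' : 0 < τ⁻¹ := inv_pos.2 hτ
  have e1 : τ * τ⁻¹ = 1 := mul_inv_cancel₀ hτ.ne'
  set y := τ * u * s with hy
  have hy0 : 0 < y := mul_pos hτu hs
  have y1 : y ≤ τ := by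
    rw [hy, mul_assoc]
    exact mul_le_of_le_one_right hτ.le h1
  have y2 : τ ≤ 2 * y := by
    rw [hy]
    nlinarith [mul_le_mul_of_nonneg_left h2 hτ.le]
  rcases le_total y 1 with h | h
  · have a : s ≤ (τ * u)⁻¹ := by
      rw [← one_div, le_div_iff₀ hτu]
      linarith [mul_comm s (τ * u)]
    have b := ha (pow_le_pow_left₀ hs.le a 2)
    have c : y ≤ 2 * min τ τ⁻¹ := by
      rcases le_total τ τ⁻¹ with k | k
      · rw [min_eq_left k]
        linarith
      · rw [min_eq_right k]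
        nlinarith [mul_le_mul_of_nonneg_right y2 hτ'.le, mul_le_mul_of_nonneg_right h hτ'.le]
    calc x ≤ 8 * P * (τ * u) * s ^ 2 := b
      _ = 8 * P * s * y := by rw [hy]; ring
      _ ≤ 8 * P * s * (2 * min τ τ⁻¹) := by gcongr
      _ = 16 * P * s * min τ τ⁻¹ := by ring
  · have y' : 0 < y⁻¹ := inv_pos.2 hy0
    have e2 : y * y⁻¹ = 1 := mul_inv_cancel₀ hy0.ne'
    have c : y⁻¹ ≤ 2 * min τ τ⁻¹ := by
      rcases le_total τ τ⁻¹ with k | k
      · rw [min_eq_left k]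
        have : y⁻¹ ≤ 1 := inv_le_one_of_one_le₀ h
        linarith
      · rw [min_eq_right k]
        have := mul_le_mul_of_nonneg_right y2 (mul_pos hτ' y').le
        have l : τ * (τ⁻¹ * y⁻¹) = y⁻¹ := by rw [← mul_assoc, e1, one_mul]
        have r : 2 * y * (τ⁻¹ * y⁻¹) = 2 * τ⁻¹ := by
          rw [show 2 * y * (τ⁻¹ * y⁻¹) = 2 * τ⁻¹ * (y * y⁻¹) by ring, e2, mul_one]
        linarith
    have e3 : (τ * u)⁻¹ = s * y⁻¹ := by
      rw [hy]
      field_simp
    have m0 : 0 ≤ min τ τ⁻¹ := le_min hτ.le hτ'.le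
    calc x ≤ 2 * P * (τ * u)⁻¹ := hb
      _ = 2 * P * s * y⁻¹ := by rw [e3]; ring
      _ ≤ 2 * P * s * (2 * min τ τ⁻¹) := by gcongr
      _ = 4 * (P * s * min τ τ⁻¹) := by ring
      _ ≤ 16 * (P * s * min τ τ⁻¹) := by gcongr; norm_num
      _ = 16 * P * s * min τ τ⁻¹ := by ring

theorem t3 (h1 : T1Stmt) (h4 : T4Stmt) (hG : GreenStmt) : T3Stmt := by
  intro R hR
  obtain ⟨κ, b, hb0, hκ, ks, k0, k1, k2, ksum⟩ := exists_kap_T3
  have hS : 0 ≤ ∑' j, wgt_T3 j := tsum_nonneg wgt_nonneg_T3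
  set S := ∑' j, wgt_T3 j with hSdef
  have hπ := Real.pi_pos
  refine ⟨b * Real.pi * S * (16 + R ^ 2) + 1, by positivity, ?_⟩
  intro E _ _ _ h c M K hb hK hh
  have hM : 0 ≤ M := (norm_nonneg _).trans (hb.2.1 0)
  let g : ℤ → ℂ → ℂ := fun j w => ((2 : ℝ) ^ j) ^ 2 • κ (((2 : ℝ) ^ j) ^ 2 • w)
  have tp : ∀ j : ℤ, 0 < (2 : ℝ) ^ j := fun j => by positivity
  have K0 := fun j : ℤ => by
    obtain ⟨a1, a2, a3, a4, a5⟩ := scale_T3 hκ ks k0 k1 k2 (tp j) (g j) rfl
    exact ker_T3 a1 (inv_pos.2 (tp j)) a2 a3 a4 (by positivity) a5 hR hb hK hh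
  choose D hD hI hN1 hN2 hD1 hD2 hD3 using K0
  have n1 : ∀ j z, ∫ ζ, ‖g j (z - ζ) • h ζ‖ ≤
      (b * M * Real.pi + b * M * Real.pi * R ^ 2) * wgt_T3 j := by
    intro j z
    have := (tp j).ne'
    refine le_min_T3 (m := 1) (n := 1) (tp j) (by positivity) (by positivity)
      ((hN1 j z).trans (le_of_eq ?_)) ((hN2 j z).trans (le_of_eq ?_))
    · rw [show (1 + 1 : ℕ) = 2 from rfl]
      field_simp
    · ring
  have d1 : ∀ j z, ‖D j z‖ ≤ b * K * Real.pi * ((2 : ℝ) ^ j)⁻¹ := by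
    intro j z
    have := (tp j).ne'
    refine (hD1 j z).trans (le_of_eq ?_)
    field_simp
  have n2 : ∀ j z, ‖D j z‖ ≤ (b * K * Real.pi + b * M * Real.pi * R ^ 2) * wgt_T3 j := by
    intro j z
    refine le_min_T3 (m := 0) (n := 3) (tp j) (by positivity) (by positivity)
      ((d1 j z).trans (le_of_eq ?_)) ((hD2 j z).trans (le_of_eq ?_))
    · ring
    · ring
  have hsum : ∀ z, HasSum (fun j => ∫ ζ, g j (z - ζ) • h ζ) (cT h z) := by
    intro z
    have := hasSum_integral_of_summable_integral_norm (fun j => hI j z)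
      (Summable.of_nonneg_of_le (fun j => integral_nonneg fun _ => norm_nonneg _)
        (fun j => n1 j z) (wgt_summable_T3.mul_left _))
    have e : (fun ζ => ∑' j, g j (z - ζ) • h ζ) =
        fun ζ => ((Real.pi : ℂ) * (z - ζ))⁻¹ • h ζ :=
      funext fun ζ => ((ksum (z - ζ)).smul_const (h ζ)).tsum_eq
    rw [e] at this
    exact this
  have ecT : cT h = fun z => ∑' j, ∫ ζ, g j (z - ζ) • h ζ := funext fun z => (hsum z).tsum_eq.symm
  have hder : ∀ z, HasFDerivAt (cT h) (∑' j, D j z) z := by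
    intro z
    rw [ecT]
    exact hasFDerivAt_tsum (wgt_summable_T3.mul_left _) hD n2 (hsum 0).summable z
  have sD : ∀ z, Summable fun j => D j z := fun z =>
    Summable.of_norm_bounded (wgt_summable_T3.mul_left _) (fun j => n2 j z)
  have hsup : ∀ z, ‖fderiv ℝ (cT h) z‖ ≤ (b * Real.pi * S * (16 + R ^ 2) + 1) * (M + K) := by
    intro z
    rw [(hder z).fderiv]
    refine (tsum_of_norm_bounded (wgt_summable_T3.hasSum.mul_left _) (fun j => n2 j z)).trans ?_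
    rw [← hSdef]
    have a : 0 ≤ b * Real.pi * S := by positivity
    nlinarith [mul_nonneg a hM, mul_nonneg a hK, mul_nonneg (mul_nonneg a hK) (sq_nonneg R)]
  have hhol : Hol ((b * Real.pi * S * (16 + R ^ 2) + 1) * (M + K)) (fderiv ℝ (cT h)) univ := by
    intro z _ z' _
    rcases eq_or_ne z z' with rfl | hne
    · simp
    have hδ : 0 < ‖z - z'‖ := norm_pos_iff.2 (sub_ne_zero.2 hne)
    have hs : 0 < √‖z - z'‖ := Real.sqrt_pos.2 hδ
    have hs2 : √‖z - z'‖ ^ 2 = ‖z - z'‖ := Real.sq_sqrt hδ.le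
    set s := √‖z - z'‖ with hsdef
    obtain ⟨j0, hj1, hj2⟩ := exists_mem_Ico_zpow (inv_pos.2 hs) (show (1 : ℝ) < 2 by norm_num)
    have e0 : s⁻¹ * s = 1 := inv_mul_cancel₀ hs.ne'
    have u1 : (2 : ℝ) ^ j0 * s ≤ 1 := by nlinarith [mul_le_mul_of_nonneg_right hj1 hs.le]
    have u2 : 1 ≤ 2 * ((2 : ℝ) ^ j0 * s) := by
      rw [zpow_add_one₀ (by norm_num)] at hj2
      nlinarith [mul_le_mul_of_nonneg_right hj2.le hs.le]
    have term : ∀ j, ‖D j z - D j z'‖ ≤ 16 * (b * K * Real.pi) * s * wgt_T3 (j - j0) := by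
      intro j
      have ej : (2 : ℝ) ^ (j - j0) * 2 ^ j0 = 2 ^ j := by
        rw [← zpow_add₀ (by norm_num), sub_add_cancel]
      have := (tp j).ne'
      refine hol_term_T3 (tp (j - j0)) (tp j0) hs (by positivity) u1 u2 ?_ ?_
      · rw [ej, hs2]
        intro hz
        refine (hD3 j z z' hz).trans (le_of_eq ?_)
        field_simp
      · rw [ej]
        refine (norm_sub_le _ _).trans ?_
        linarith [d1 j z, d1 j z']
    have sh : HasSum (fun j => wgt_T3 (j - j0)) S :=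
      (Equiv.subRight j0).hasSum_iff.2 wgt_summable_T3.hasSum
    rw [(hder z).fderiv, (hder z').fderiv, ← (sD z).tsum_sub (sD z')]
    refine (tsum_of_norm_bounded (sh.mul_left _) term).trans ?_
    have a : 0 ≤ b * Real.pi * S := by positivity
    have a2 : 16 * (b * K * Real.pi) * S ≤ (b * Real.pi * S * (16 + R ^ 2) + 1) * (M + K) := by
      nlinarith [mul_nonneg a hM, mul_nonneg a hK, mul_nonneg (mul_nonneg a hK) (sq_nonneg R),
        mul_nonneg (mul_nonneg a hM) (sq_nonneg R)]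
    calc 16 * (b * K * Real.pi) * s * S = 16 * (b * K * Real.pi) * S * s := by ring
      _ ≤ _ := mul_le_mul_of_nonneg_right a2 hs.le
  have hc1 : ContDiff ℝ 1 (cT h) :=
    contDiff_one_iff_fderiv.2 ⟨fun z => (hder z).differentiableAt, hol_cont_T3 hhol⟩
  exact ⟨hc1, dbar_T3 hc1 (hol_cont_T3 hh) (h4 E h c R M hb), hsup, hhol⟩

end Pool.Agent.MP_2fc7fa_gt.N

end
end

section

/-! The Cauchy transform solves the `∂̄` equation in integrated form. -/

open scoped ContDiff ComplexConjugate Topology Interval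
open Set Complex Filter Metric MeasureTheory

noncomputable section

namespace Pool.Agent.MP_2fc7fa_gt.N

variable {E : Type} [NormedAddCommGroup E] [NormedSpace ℂ E]

theorem ker_int_T4 (r : ℝ) :
    Integrable ((ball (0 : ℂ) r).indicator fun u : ℂ => ‖((Real.pi : ℂ) * u)⁻¹‖) := by
  rw [integrable_indicator_iff measurableSet_ball]
  refine integrableOn_ball_of_norm_le_rpow (C := Real.pi⁻¹) (α := 1) (by simp) (by simp)
    (Eventually.of_forall fun u => le_of_eq ?_) (Measurable.aestronglyMeasurable (by fun_prop))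
  rw [norm_norm, norm_inv, norm_mul, Real.rpow_neg_one, mul_inv, norm_real,
    Real.norm_of_nonneg Real.pi_pos.le]

theorem int_T4 {h : ℂ → E} {c : ℂ} {R M : ℝ} (hh : Bdd h c R M) {γ : ℝ → ℂ} (hγ : Continuous γ)
    (a b : ℝ) :
    Integrable (Function.uncurry fun (x : ℝ) (ζ : ℂ) => ((Real.pi : ℂ) * (γ x - ζ))⁻¹ • h ζ)
      ((volume.restrict (uIoc a b)).prod volume) := by
  obtain ⟨ρ, hρ⟩ := (isCompact_uIcc (a := a) (b := b)).exists_bound_of_continuousOn
    (f := fun x => γ x - c) (by fun_prop)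
  have hM : 0 ≤ M := (norm_nonneg _).trans (hh.2.1 0)
  set g : ℂ → ℝ := (ball (0 : ℂ) (ρ + R)).indicator fun u : ℂ => ‖((Real.pi : ℂ) * u)⁻¹‖ with hg
  have hgi : Integrable g := ker_int_T4 _
  have hgm : Measurable g := Measurable.indicator (by fun_prop) measurableSet_ball
  have hG : Integrable (fun p : ℝ × ℂ => g (γ p.1 - p.2))
      ((volume.restrict (uIoc a b)).prod volume) := by
    rw [integrable_prod_iff (Measurable.aestronglyMeasurable (by fun_prop))]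
    refine ⟨Eventually.of_forall fun x => hgi.comp_sub_left (γ x), ?_⟩
    have e : ∀ x, ∫ ζ, ‖g (γ x - ζ)‖ = ∫ ζ, ‖g ζ‖ := fun x =>
      integral_sub_left_eq_self (fun ζ => ‖g ζ‖) volume (γ x)
    simp only [e]
    exact integrableOn_const (by simp [uIoc])
  refine (hG.const_mul M).mono' ?_ ?_
  · exact (Measurable.aestronglyMeasurable (by fun_prop)).smul hh.1.comp_snd
  · filter_upwards [Measure.quasiMeasurePreserving_fst.ae
      (ae_restrict_mem (μ := volume) (s := uIoc a b) measurableSet_uIoc)] with p hp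
    change ‖((Real.pi : ℂ) * (γ p.1 - p.2))⁻¹ • h p.2‖ ≤ _
    rcases le_or_gt R ‖p.2 - c‖ with h1 | h1
    · rw [hh.2.2 _ h1, smul_zero, norm_zero]
      exact mul_nonneg hM (indicator_nonneg (fun _ _ => norm_nonneg _) _)
    · have h2 : γ p.1 - p.2 ∈ ball (0 : ℂ) (ρ + R) := by
        rw [mem_ball_zero_iff]
        have h3 := hρ p.1 (uIoc_subset_uIcc hp)
        have h4 := norm_sub_le (γ p.1 - c) (p.2 - c)
        rw [sub_sub_sub_cancel_right] at h4
        linarith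
      rw [hg, indicator_of_mem h2, norm_smul, mul_comm]
      exact mul_le_mul_of_nonneg_right (hh.2.1 _) (norm_nonneg _)

variable [CompleteSpace E]

theorem side_T4 {h : ℂ → E} {c : ℂ} {R M : ℝ} (hh : Bdd h c R M) {γ : ℝ → ℂ} (hγ : Continuous γ)
    (a b : ℝ) :
    Integrable (fun ζ => (∫ x in a..b, ((Real.pi : ℂ) * (γ x - ζ))⁻¹) • h ζ) ∧
      ∫ x in a..b, cT h (γ x) = ∫ ζ, (∫ x in a..b, ((Real.pi : ℂ) * (γ x - ζ))⁻¹) • h ζ := by
  have h1 := int_T4 hh hγ a b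
  refine ⟨?_, ?_⟩
  · have h2 := h1.integral_prod_right.smul (if a ≤ b then (1 : ℝ) else -1)
    refine h2.congr (Eventually.of_forall fun ζ => ?_)
    simp only [← intervalIntegral.integral_smul_const]
    rw [intervalIntegral.intervalIntegral_eq_integral_uIoc]
    rfl
  · simp only [← intervalIntegral.integral_smul_const]
    exact intervalIntegral_integral_swap h1

theorem fub_T4 {h : ℂ → E} {c : ℂ} {R M : ℝ} (hh : Bdd h c R M) (a b c' d : ℝ) :
    rectInt (cT h) a b c' d =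
      ∫ ζ, rectInt (fun z => ((Real.pi : ℂ) * (z - ζ))⁻¹) a b c' d • h ζ := by
  obtain ⟨i1, e1⟩ := side_T4 hh (γ := fun x => x + c' * I) (by fun_prop) a b
  obtain ⟨i2, e2⟩ := side_T4 hh (γ := fun x => x + d * I) (by fun_prop) a b
  obtain ⟨i3, e3⟩ := side_T4 hh (γ := fun y => b + y * I) (by fun_prop) c' d
  obtain ⟨i4, e4⟩ := side_T4 hh (γ := fun y => a + y * I) (by fun_prop) c' d
  simp only [rectInt, sub_smul, add_smul, smul_assoc]
  rw [e1, e2, e3, e4, integral_sub, integral_add, integral_sub i1 i2, integral_smul, integral_smul]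
  exacts [i1.sub i2, i3.smul I, (i1.sub i2).add (i3.smul I), i4.smul I]

theorem log_T4 {γ : ℝ → ℂ} {v : ℂ} (hγ : ∀ t, HasDerivAt γ v t) (hs : ∀ t, γ t ∈ slitPlane)
    (a b : ℝ) : v * ∫ t in a..b, (γ t)⁻¹ = log (γ b) - log (γ a) := by
  have hc : Continuous γ := continuous_iff_continuousAt.2 fun t => (hγ t).continuousAt
  rw [← intervalIntegral.integral_const_mul]
  refine intervalIntegral.integral_eq_sub_of_hasDerivAt (f := fun t => log (γ t))
    (fun t _ => (hγ t).clog_real (hs t)) (Continuous.intervalIntegrable ?_ _ _)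
  exact continuous_const.mul (hc.inv₀ fun t => slitPlane_ne_zero (hs t))

theorem log_neg_pos_T4 {u : ℂ} (hu : 0 < u.im) : log (-u) = log u - Real.pi * I := by
  rw [log, log, norm_neg, arg_neg_eq_arg_sub_pi_of_im_pos hu]
  push_cast
  ring

theorem log_neg_neg_T4 {u : ℂ} (hu : u.im < 0) : log (-u) = log u + Real.pi * I := by
  rw [log, log, norm_neg, arg_neg_eq_arg_add_pi_of_im_neg hu]
  push_cast
  ring

theorem inside_T4 {a b c d : ℝ} {w : ℂ} (ha : a < w.re) (hb : w.re < b) (hc : c < w.im)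
    (hd : w.im < d) : rectInt (fun z => ((Real.pi : ℂ) * (z - w))⁻¹) a b c d = 2 * I := by
  have hx : ∀ (p : ℂ) (t : ℝ), HasDerivAt (fun x : ℝ => (x : ℂ) + p - w) 1 t := fun p t =>
    ((hasDerivAt_id t).ofReal_comp.add_const p).sub_const w
  have hy : ∀ (p : ℂ) (t : ℝ), HasDerivAt (fun y : ℝ => p + (y : ℂ) * I - w) I t := fun p t => by
    simpa using (((hasDerivAt_id t).ofReal_comp.mul_const I).const_add p).sub_const w
  have e1 := log_T4 (hx (c * I)) (fun t => Or.inr (by simp; linarith)) a b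
  have e2 := log_T4 (hx (d * I)) (fun t => Or.inr (by simp; linarith)) a b
  have e3 := log_T4 (hy b) (fun t => Or.inl (by simp; linarith)) c d
  have e4 := log_T4 (fun t => (hy a t).neg) (fun t => Or.inl (by simp; linarith)) c d
  simp only [Pi.neg_apply, inv_neg, intervalIntegral.integral_neg, neg_mul_neg] at e4
  rw [log_neg_pos_T4 (by simp; linarith), log_neg_neg_T4 (by simp; linarith)] at e4
  have hπ : (Real.pi : ℂ) ≠ 0 := ofReal_ne_zero.2 Real.pi_ne_zero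
  simp only [rectInt, mul_inv, intervalIntegral.integral_const_mul, smul_eq_mul]
  linear_combination (Real.pi : ℂ)⁻¹ * (e1 - e2 + e3 - e4) + 2 * I * inv_mul_cancel₀ hπ

theorem outside_T4 {a b c d : ℝ} (hab : a ≤ b) (hcd : c ≤ d) {w : ℂ}
    (hw : ¬ (w.re ∈ Icc a b ∧ w.im ∈ Icc c d)) :
    rectInt (fun z => ((Real.pi : ℂ) * (z - w))⁻¹) a b c d = 0 := by
  refine integral_boundary_rect_eq_zero_of_differentiableOn
    (fun z => ((Real.pi : ℂ) * (z - w))⁻¹) ⟨a, c⟩ ⟨b, d⟩ fun z hz => ?_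
  have h1 : z - w ≠ 0 := by
    rw [sub_ne_zero]
    rintro rfl
    rw [uIcc_of_le hab, uIcc_of_le hcd] at hz
    exact hw hz
  refine DifferentiableAt.differentiableWithinAt (DifferentiableAt.inv (by fun_prop) ?_)
  exact mul_ne_zero (ofReal_ne_zero.2 Real.pi_ne_zero) h1

theorem t4 (h1 : T1Stmt) : T4Stmt := by
  intro E _ _ _ h c R M hh a b c' d hab hcd
  have hre : ∀ t : ℝ, ∀ᵐ w : ℂ, w.re ≠ t := fun t =>
    (Measure.quasiMeasurePreserving_fst.comp
      volume_preserving_equiv_real_prod.quasiMeasurePreserving).ae (Measure.ae_ne volume t)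
  have him : ∀ t : ℝ, ∀ᵐ w : ℂ, w.im ≠ t := fun t =>
    (Measure.quasiMeasurePreserving_snd.comp
      volume_preserving_equiv_real_prod.quasiMeasurePreserving).ae (Measure.ae_ne volume t)
  have hS : MeasurableSet (measurableEquivRealProd ⁻¹' (Ioc a b ×ˢ Ioc c' d)) :=
    measurableEquivRealProd.measurable (measurableSet_Ioc.prod measurableSet_Ioc)
  have e1 : ∀ᵐ w : ℂ, rectInt (fun z => ((Real.pi : ℂ) * (z - w))⁻¹) a b c' d • h w =
      (2 * I) • (measurableEquivRealProd ⁻¹' (Ioc a b ×ˢ Ioc c' d)).indicator h w := by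
    filter_upwards [hre a, hre b, him c', him d] with w h2 h3 h4 h5
    by_cases hw : w.re ∈ Icc a b ∧ w.im ∈ Icc c' d
    · have h6 := lt_of_le_of_ne hw.1.1 h2.symm
      have h7 := lt_of_le_of_ne hw.2.1 h4.symm
      rw [inside_T4 h6 (lt_of_le_of_ne hw.1.2 h3) h7 (lt_of_le_of_ne hw.2.2 h5),
        indicator_of_mem]
      exact ⟨⟨h6, hw.1.2⟩, ⟨h7, hw.2.2⟩⟩
    · rw [outside_T4 hab hcd hw, zero_smul, indicator_of_notMem, smul_zero]
      exact fun h6 => hw ⟨Ioc_subset_Icc_self h6.1, Ioc_subset_Icc_self h6.2⟩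
  rw [fub_T4 hh, integral_congr_ae e1, integral_smul, integral_indicator hS]
  congr 1
  have hi : IntegrableOn (fun p : ℝ × ℝ => h (p.1 + p.2 * I)) (Ioc a b ×ˢ Ioc c' d)
      (volume.prod volume) := by
    have hm : AEStronglyMeasurable (fun p : ℝ × ℝ => h (p.1 + p.2 * I)) (volume.prod volume) := by
      have h2 := hh.1.comp_quasiMeasurePreserving
        volume_preserving_equiv_real_prod.symm.quasiMeasurePreserving
      refine h2.congr (Eventually.of_forall fun p => ?_)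
      simp [measurableEquivRealProd_symm_apply, mk_eq_add_mul_I]
    refine Measure.integrableOn_of_bounded (M := M) ?_ hm
      (Eventually.of_forall fun p => hh.2.1 _)
    rw [Measure.prod_prod]
    exact ENNReal.mul_ne_top (by simp) (by simp)
  have e2 := volume_preserving_equiv_real_prod.setIntegral_preimage_emb
    measurableEquivRealProd.measurableEmbedding (fun p : ℝ × ℝ => h (p.1 + p.2 * I))
    (Ioc a b ×ˢ Ioc c' d)
  simp only [measurableEquivRealProd_apply, re_add_im] at e2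
  rw [e2, intervalIntegral.integral_of_le hab]
  simp only [intervalIntegral.integral_of_le hcd]
  exact setIntegral_prod _ hi

end Pool.Agent.MP_2fc7fa_gt.N

end
end

section

/-! The zero count for sections of `O(1)` that satisfy a Cauchy-Riemann inequality. -/

open scoped ContDiff Topology
open Set Complex Filter Metric Bornology

namespace Pool.Agent.MP_2fc7fa_gt.N

lemma const_Zero {g g' : ℝ → ℂ} (hg : Continuous g) (hg' : Continuous g')
    (h : ∀ x, exp (g x) = exp (g' x)) (x y : ℝ) : g x - g' x = g y - g' y := by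
  have h1 : ∀ x, exp (g x - g' x) = 1 := fun x => by
    rw [exp_sub, h x, div_self (exp_ne_zero _)]
  exact isCoveringMap_exp.constOn_of_comp isPreconnected_univ (g := fun x => g x - g' x)
    (hg.sub hg').continuousOn (fun a _ b _ => Subtype.ext ((h1 a).trans (h1 b).symm))
    (mem_univ x) (mem_univ y)

lemma log_Zero {f : ℂ → ℂ} (hf : Continuous f) (h0 : ∀ x, f x ≠ 0) :
    ∃ L : ℂ → ℂ, Continuous L ∧ ∀ x, exp (L x) = f x := by
  have hs : IsSimplyConnected (univ : Set ℂ) :=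
    (Homeomorph.Set.univ ℂ).toHomotopyEquiv.simplyConnectedSpace_iff.2 inferInstance
  obtain ⟨L, hL, hL'⟩ := exists_continuousOn_eqOn_exp_comp hs isOpen_univ hf.continuousOn
    (by rintro ⟨x, -, hx⟩; exact h0 x hx)
  exact ⟨L, continuousOn_univ.1 hL, fun x => hL' (mem_univ x)⟩

/-- `v` has order `k` at `c`. -/
def Ord_Zero (v : ℂ → ℂ) (c : ℂ) (k : ℕ) : Prop :=
  ∃ a : ℂ, a ≠ 0 ∧ Tendsto (fun z => ((z - c) ^ k)⁻¹ * v z) (𝓝[≠] c) (𝓝 a)

/-- `v` is continuous, has an order at each zero and grows like `z ^ d`. -/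
structure Good_Zero (v : ℂ → ℂ) (d : ℤ) : Prop where
  cont : Continuous v
  loc : ∀ c, v c = 0 → ∃ k, Ord_Zero v c k
  inf : ∃ a : ℂ, a ≠ 0 ∧ Tendsto (fun z => (z ^ d)⁻¹ * v z) (cobounded ℂ) (𝓝 a)

lemma Ord_Zero.ne {v : ℂ → ℂ} {c : ℂ} {k : ℕ} (h : Ord_Zero v c k) : ∀ᶠ z in 𝓝[≠] c, v z ≠ 0 := by
  obtain ⟨a, ha, h⟩ := h
  exact (h.eventually_ne ha).mono fun z hz => right_ne_zero_of_mul hz

lemma Good_Zero.base {v : ℂ → ℂ} {d : ℤ} (h : Good_Zero v d) (h0 : ∀ z, v z ≠ 0) : d = 0 := by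
  obtain ⟨L, hL, hL'⟩ := log_Zero h.cont h0
  obtain ⟨a, ha, hi⟩ := h.inf
  have h1 : Tendsto (fun z => a⁻¹ * ((z ^ d)⁻¹ * v z)) (cobounded ℂ) (𝓝 1) := by
    simpa only [inv_mul_cancel₀ ha] using hi.const_mul a⁻¹
  have h2 := h1.eventually_mem (isOpen_slitPlane.mem_nhds one_mem_slitPlane)
  obtain ⟨R, -, hR⟩ := hasBasis_cobounded_norm.eventually_iff.1 h2
  have hz : ∀ t : ℝ, a⁻¹ * ((exp (R + t * I) ^ d)⁻¹ * v (exp (R + t * I))) ∈ slitPlane := fun t =>
    hR (by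
      simp only [mem_ofPred_eq, norm_exp, add_re, ofReal_re, mul_re, I_re, I_im, ofReal_im,
        mul_zero, mul_one, sub_zero, add_zero]
      linarith [Real.add_one_le_exp R])
  have hc := h.cont
  have key := const_Zero (g := fun t : ℝ => L (exp (R + t * I)) - d * (R + t * I))
    (g' := fun t : ℝ => log a + log (a⁻¹ * ((exp (R + t * I) ^ d)⁻¹ * v (exp (R + t * I)))))
    (by fun_prop)
    (continuous_const.add (Continuous.clog (continuous_const.mul (Continuous.mul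
      (Continuous.inv₀ (Continuous.zpow₀ (by fun_prop) d fun t => Or.inl (exp_ne_zero _))
        fun t => zpow_ne_zero _ (exp_ne_zero _)) (by fun_prop))) hz))
    (fun t => by
      rw [exp_sub, hL', exp_add (log a), exp_log ha, exp_log (slitPlane_ne_zero (hz t)),
        exp_int_mul, mul_inv_cancel_left₀ ha, div_eq_inv_mul]) 0 (2 * Real.pi)
  have e : exp (R + ((2 * Real.pi : ℝ) : ℂ) * I) = exp (R + ((0 : ℝ) : ℂ) * I) := by
    rw [exp_add, exp_add]; push_cast; rw [exp_two_pi_mul_I]; simp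
  simp only [e] at key
  have : (d : ℂ) * (2 * Real.pi * I) = 0 := by
    push_cast at key
    linear_combination key
  exact_mod_cast (mul_eq_zero.1 this).resolve_right two_pi_I_ne_zero

lemma Good_Zero.step {v : ℂ → ℂ} {d : ℤ} (h : Good_Zero v d) {c : ℂ} {k : ℕ}
    (hk : Ord_Zero v c k) : ∃ g, Good_Zero g (d - k) ∧ ∀ z, g z = 0 → z ≠ c ∧ v z = 0 := by
  classical
  obtain ⟨a, ha, hk⟩ := hk
  have hc := h.cont
  have hz : ∀ z, Function.update (fun z => ((z - c) ^ k)⁻¹ * v z) c a z = 0 → z ≠ c ∧ v z = 0 := by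
    intro z hz
    have hzc : z ≠ c := by
      rintro rfl
      exact ha (by simpa using hz)
    rw [Function.update_of_ne hzc] at hz
    exact ⟨hzc, (mul_eq_zero.1 hz).resolve_left (inv_ne_zero (pow_ne_zero _ (sub_ne_zero.2 hzc)))⟩
  have hu : ∀ z, z ≠ c → ContinuousAt (fun z : ℂ => ((z - c) ^ k)⁻¹) z := fun z hz =>
    ContinuousAt.inv₀ (by fun_prop) (pow_ne_zero _ (sub_ne_zero.2 hz))
  refine ⟨Function.update (fun z => ((z - c) ^ k)⁻¹ * v z) c a,
    ⟨continuous_iff_continuousAt.2 fun z => ?_, fun z h0 => ?_, ?_⟩, hz⟩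
  · by_cases hzc : z = c
    · subst hzc
      exact continuousAt_update_same.2 hk
    · exact (continuousAt_update_of_ne hzc).2 ((hu z hzc).mul hc.continuousAt)
  · obtain ⟨hzc, h0⟩ := hz z h0
    obtain ⟨j, b, hb, hj⟩ := h.loc z h0
    refine ⟨j, ((z - c) ^ k)⁻¹ * b,
      mul_ne_zero (inv_ne_zero (pow_ne_zero _ (sub_ne_zero.2 hzc))) hb, ?_⟩
    refine (((hu z hzc).tendsto.mono_left nhdsWithin_le_nhds).mul hj).congr' ?_
    filter_upwards [nhdsWithin_le_nhds (eventually_ne_nhds hzc)] with w hw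
    rw [Function.update_of_ne hw]
    ring
  · obtain ⟨b, hb, hi⟩ := h.inf
    have h1 : Tendsto (fun z : ℂ => ((1 - c * z⁻¹) ^ k)⁻¹) (cobounded ℂ) (𝓝 ((1 - c * 0) ^ k)⁻¹) :=
      (((tendsto_inv₀_cobounded.const_mul c).const_sub 1).pow k).inv₀ (by simp)
    refine ⟨((1 - c * 0) ^ k)⁻¹ * b, by simpa using hb, (h1.mul hi).congr' ?_⟩
    filter_upwards [eventually_ne_cobounded c, eventually_ne_cobounded 0] with w hw hw0
    have h2 : w - c ≠ 0 := sub_ne_zero.2 hw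
    have h3 : 1 - c * w⁻¹ = (w - c) / w := by field_simp
    rw [Function.update_of_ne hw, zpow_sub₀ hw0, zpow_natCast, h3, div_pow]
    have := zpow_ne_zero d hw0
    field_simp

lemma Good_Zero.finite {v : ℂ → ℂ} {d : ℤ} (h : Good_Zero v d) : {z | v z = 0}.Finite := by
  obtain ⟨a, ha, hi⟩ := h.inf
  refine (isCompact_of_isClosed_isBounded (isClosed_eq h.cont continuous_const) ?_).finite
    (isDiscrete_iff_nhdsNE.2 fun z hz => ?_)
  · exact (hi.eventually_ne ha).mono fun z hz => right_ne_zero_of_mul hz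
  · obtain ⟨k, hk⟩ := h.loc z hz
    exact inf_principal_eq_bot.2 hk.ne

lemma Good_Zero.nonneg {v : ℂ → ℂ} {d : ℤ} (h : Good_Zero v d) : 0 ≤ d := by
  classical
  suffices H : ∀ s : Finset ℂ, ∀ v d, Good_Zero v d → (∀ z, v z = 0 → z ∈ s) → 0 ≤ d from
    H h.finite.toFinset v d h fun z hz => by simpa using hz
  intro s
  induction s using Finset.induction_on with
  | empty => exact fun v d h h0 => (h.base fun z hz => by simpa using h0 z hz).ge
  | insert c s _ ih =>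
    intro v d h h0
    by_cases hc : v c = 0
    · obtain ⟨k, hk⟩ := h.loc c hc
      obtain ⟨g, hg, hz⟩ := h.step hk
      have := ih g _ hg fun z h1 => (Finset.mem_insert.1 (h0 z (hz z h1).2)).resolve_left (hz z h1).1
      omega
    · exact ih v d h fun z h1 => (Finset.mem_insert.1 (h0 z h1)).resolve_left fun e => hc (e ▸ h1)

lemma Ord_Zero.pos {v : ℂ → ℂ} {c : ℂ} {k : ℕ} (h : Ord_Zero v c k) (hv : Continuous v)
    (h0 : v c = 0) : k ≠ 0 := by
  rintro rfl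
  obtain ⟨a, ha, h⟩ := h
  simp only [pow_zero, inv_one, one_mul] at h
  exact ha ((tendsto_nhds_unique h
    (hv.continuousAt.tendsto.mono_left nhdsWithin_le_nhds)).trans h0)

lemma dich_Zero (h : HWStmt) {v : ℂ → ℂ} {C : ℝ} (hv : ContDiff ℝ 1 v)
    (hC : ∀ z, ‖dbar v z‖ ≤ C * ‖v z‖) : (∀ z, v z = 0) ∨ ∀ c, ∃ k, Ord_Zero v c k := by
  have hc := hv.continuous
  have hw : ∀ c, (∀ᶠ z in 𝓝 c, v z = 0) ∨ ∃ k, Ord_Zero v c k := fun c => by
    obtain ⟨M, hM⟩ := (isCompact_closedBall c 1).exists_bound_of_continuousOn hc.continuousOn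
    refine (h ℂ v c 1 C M one_pos hv.contDiffOn
      fun z hz => ⟨hM z (ball_subset_closedBall hz.1), hC z⟩).imp_left fun h0 => ?_
    have : v c = 0 := tendsto_nhds_unique (hc.continuousAt.tendsto.mono_left nhdsWithin_le_nhds)
      (tendsto_const_nhds.congr' (h0.mono fun z hz => hz.symm))
    exact eventually_nhdsWithin_iff.1 h0 |>.mono fun z hz => by
      by_cases e : z = c
      · exact e ▸ this
      · exact hz e
  have ho : IsClopen {c | ∀ᶠ z in 𝓝 c, v z = 0} := by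
    refine ⟨isOpen_compl_iff.1 (isOpen_iff_mem_nhds.2 fun c hc => ?_), isOpen_setOfPred_eventually_nhds⟩
    obtain ⟨k, hk⟩ := (hw c).resolve_left hc
    refine (eventually_nhdsWithin_iff.1 hk.ne).mono fun z hz h0 => ?_
    by_cases e : z = c
    · exact hc (e ▸ h0)
    · exact hz e h0.self_of_nhds
  rcases isClopen_iff.1 ho with e | e
  · exact Or.inr fun c => (hw c).resolve_left fun h0 => (e ▸ h0 : c ∈ (∅ : Set ℂ))
  · exact Or.inl fun z => Eventually.self_of_nhds (p := fun z => v z = 0)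
      (e.ge (mem_univ z) : z ∈ {c | ∀ᶠ z in 𝓝 c, v z = 0})

lemma line_Zero {n : W → ℂ} (hn : ContDiffOn ℝ 1 n {0}ᶜ) (hh : ∀ (c : ℂ) q, n (c • q) = c * n q)
    {C : ℝ} (hC : ∀ q, ‖q‖ = 1 → ∀ h,
      ‖fderiv ℝ n q (I • h) - I * fderiv ℝ n q h‖ ≤ C * ‖n q‖ * ‖h‖) {a b : W} (hb : ‖b‖ = 1)
    (hab : ∀ z : ℂ, 1 ≤ ‖a + z • b‖) :
    ContDiff ℝ 1 (fun z : ℂ => n (a + z • b)) ∧
      (∀ z w, fderiv ℝ (fun z : ℂ => n (a + z • b)) z w = fderiv ℝ n (a + z • b) (w • b)) ∧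
      ∀ z, ‖dbar (fun z : ℂ => n (a + z • b)) z‖ ≤ |C| * ‖n (a + z • b)‖ := by
  have h0 : ∀ z : ℂ, a + z • b ≠ 0 := fun z => norm_pos_iff.1 (one_pos.trans_le (hab z))
  have hd : ∀ q, q ≠ 0 → DifferentiableAt ℝ n q := fun q hq =>
    (hn.contDiffAt (isOpen_compl_singleton.mem_nhds hq)).differentiableAt one_ne_zero
  have hf : ∀ z w, fderiv ℝ (fun z : ℂ => n (a + z • b)) z w = fderiv ℝ n (a + z • b) (w • b) := by
    intro z w
    have := (hd _ (h0 z)).hasFDerivAt.comp z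
      ((((ContinuousLinearMap.id ℂ ℂ).smulRight b).restrictScalars ℝ).hasFDerivAt.const_add a)
    exact congrArg (fun L : ℂ →L[ℝ] ℂ => L w) this.fderiv
  refine ⟨hn.comp_contDiff (by fun_prop) h0, hf, fun z => ?_⟩
  obtain ⟨r, hr⟩ : ∃ r, r = ‖a + z • b‖ := ⟨_, rfl⟩
  have h1 : 1 ≤ r := hr ▸ hab z
  have h2 : r ≠ 0 := by positivity
  obtain ⟨q, hq⟩ : ∃ q, q = r⁻¹ • (a + z • b) := ⟨_, rfl⟩
  have h3 : a + z • b = r • q := by rw [hq, smul_inv_smul₀ h2]
  have h4 : ‖q‖ = 1 := by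
    rw [hq, norm_smul, ← hr, norm_inv, Real.norm_of_nonneg (by positivity), inv_mul_cancel₀ h2]
  have h5 : ∀ x, n (r • x) = r • n x := fun x => hh r x
  have h6 : ∀ w, fderiv ℝ n (r • q) w = fderiv ℝ n q w := fun w => by
    have e1 := (hd (r • q) (h3 ▸ h0 z)).hasFDerivAt.comp q ((hasFDerivAt_id q).const_smul r)
    have e2 := (hd q (norm_ne_zero_iff.1 (by simp [h4]))).hasFDerivAt.const_smul r
    have e3 := congrArg (fun L : W →L[ℝ] ℂ => L w) (e1.unique (by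
      simpa only [Function.comp_def, id, h5, Pi.smul_def] using e2))
    simpa [h2] using e3
  have h7 := hC q h4 b
  rw [dbar, hf, hf, h3, h6, h6, h5, one_smul,
    show fderiv ℝ n q b + I • fderiv ℝ n q (I • b) =
      I * (fderiv ℝ n q (I • b) - I * fderiv ℝ n q b) by
        rw [smul_eq_mul]; linear_combination (fderiv ℝ n q b) * I_mul_I,
    norm_smul, norm_smul, norm_mul, norm_I, Real.norm_of_nonneg (by positivity : 0 ≤ r)]
  rw [hb] at h7
  have h8 := mul_le_mul_of_nonneg_right (le_abs_self C) (norm_nonneg (n q))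
  have h9 := mul_nonneg (abs_nonneg C) (norm_nonneg (n q))
  have : ‖(1 / 2 : ℂ)‖ = 1 / 2 := by simp
  rw [this]
  nlinarith [norm_nonneg (fderiv ℝ n q (I • b) - I * fderiv ℝ n q b)]

theorem zero (h : HWStmt) : ZeroStmt := by
  rintro n hn hh ⟨C, hC⟩ h0 h1
  obtain ⟨m1, m2, m3⟩ := line_Zero hn hh hC (a := (1, 0)) (b := (0, 1)) (by simp)
    fun z => by simp [Prod.norm_def]
  obtain ⟨p1, -, p3⟩ := line_Zero hn hh hC (a := (0, 1)) (b := (1, 0)) (by simp)
    fun z => by simp [Prod.norm_def]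
  have e1 : ∀ z : ℂ, ((1, 0) : W) + z • ((0, 1) : W) = (1, z) := fun z => by simp
  have e2 : ∀ z : ℂ, ((0, 1) : W) + z • ((1, 0) : W) = (z, 1) := fun z => by simp
  simp only [e1, e2] at m1 m2 m3 p1 p3
  have e3 : ∀ z : ℂ, z ≠ 0 → n (1, z) = z * n (z⁻¹, 1) := fun z hz => by
    rw [← hh]; simp [hz]
  have e4 : ∀ z : ℂ, z ≠ 0 → n (z, 1) = z * n (1, z⁻¹) := fun z hz => by
    rw [← hh]; simp [hz]
  rcases dich_Zero h m1 m3 with hm | hm <;> rcases dich_Zero h p1 p3 with hp | hp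
  · rintro ⟨x, y⟩
    by_cases hx : x = 0
    · rw [show ((x, y) : W) = y • ((0, 1) : W) by simp [hx], hh, hp, mul_zero]
    · rw [show ((x, y) : W) = x • ((1, y / x) : W) by simp [mul_div_cancel₀ _ hx], hh, hm, mul_zero]
  · obtain ⟨k, hk⟩ := hp 0
    obtain ⟨z, hz, hz'⟩ := (hk.ne.and self_mem_nhdsWithin).exists
    exact absurd (by rw [e4 z hz', hm, mul_zero]) hz
  · obtain ⟨k, hk⟩ := hm 0
    obtain ⟨z, hz, hz'⟩ := (hk.ne.and self_mem_nhdsWithin).exists
    exact absurd (by rw [e3 z hz', hp, mul_zero]) hz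
  exfalso
  obtain ⟨k, hk⟩ := hm 0
  obtain ⟨j, hj⟩ := hp 0
  have hg : Good_Zero (fun z => n (1, z)) (1 - j) := by
    refine ⟨m1.continuous, fun c _ => hm c, ?_⟩
    obtain ⟨a, ha, hj⟩ := hj
    refine ⟨a, ha, (hj.comp tendsto_inv₀_cobounded').congr' ?_⟩
    filter_upwards [eventually_ne_cobounded 0] with z hz
    rw [Function.comp_apply, e3 z hz, zpow_sub₀ hz, zpow_natCast, zpow_one, sub_zero, inv_pow]
    field_simp
  obtain ⟨g, hg', -⟩ := hg.step hk
  have h2 := hg'.nonneg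
  have h3 := hk.pos m1.continuous h0
  rcases h1 with h1 | h1
  · have := hj.pos p1.continuous h1
    omega
  · obtain rfl : k = 1 := by omega
    have h4 := m3 0
    rw [h0, norm_zero, mul_zero, norm_le_zero_iff, dbar, m2 0 1, one_smul, h1, zero_add] at h4
    have h5 : fderiv ℝ (fun z : ℂ => n (1, z)) 0 = 0 := by
      refine ContinuousLinearMap.ext fun w => ?_
      have e5 : fderiv ℝ (fun z : ℂ => n (1, z)) 0 1 = 0 := by rw [m2, one_smul, h1]
      have e6 : fderiv ℝ (fun z : ℂ => n (1, z)) 0 I = 0 := by simpa using h4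
      rw [show w = w.re • (1 : ℂ) + w.im • I by simp, map_add, map_smul, map_smul, e5, e6]
      simp
    have h6 := (m1.differentiable one_ne_zero 0).hasFDerivAt.isLittleO.tendsto_div_nhds_zero
    obtain ⟨a, ha, hk⟩ := hk
    refine ha (tendsto_nhds_unique hk ((h6.mono_left nhdsWithin_le_nhds).congr fun z => ?_))
    simp [h5, h0, div_eq_inv_mul]

end Pool.Agent.MP_2fc7fa_gt.N

end

section

/-! Linear algebra and calculus for the kernel statement. -/

open scoped ContDiff ComplexConjugate Topology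
open Set Complex Filter

noncomputable section

namespace Pool.Agent.MP_2fc7fa_gt.N

/-- The cross product. -/
def cr_Ker (a b : V) : V := fun i => a (i + 1) * b (i + 2) - a (i + 2) * b (i + 1)

/-- The determinant of three vectors. -/
def d3_Ker (a b c : V) : ℂ :=
  a 0 * b 1 * c 2 + a 1 * b 2 * c 0 + a 2 * b 0 * c 1 -
    a 2 * b 1 * c 0 - a 1 * b 0 * c 2 - a 0 * b 2 * c 1

/-- The normal vector. -/
def nu_Ker (a b : V) : V := (d3_Ker a b (star (cr_Ker a b)))⁻¹ • star (cr_Ker a b)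

/-- The failure of the derivative to be complex linear. -/
def dl_Ker {E : Type} [NormedAddCommGroup E] [NormedSpace ℂ E] (f : W → E) (q h : W) : E :=
  fderiv ℝ f q (I • h) - I • fderiv ℝ f q h

/-- The zero order term. -/
def R_Ker (da : V →L[ℝ] V →L[ℝ] V) (du : W →L[ℝ] V) (h : W) (x : V) : V :=
  da (du (I • h)) x - I • da (du h) x - (da x (du (I • h)) - I • da x (du h))

theorem cramer_Ker (a b n y : V) :
    d3_Ker a b n • y = d3_Ker y b n • a + d3_Ker a y n • b + d3_Ker a b y • n := by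
  ext i
  fin_cases i <;> simp [d3_Ker] <;> ring

theorem d3_smul_Ker (a b c : V) (r : ℂ) : d3_Ker a b (r • c) = r * d3_Ker a b c := by
  simp [d3_Ker]; ring

theorem sq_ne_Ker {a b : V} (h : ∀ c d : ℂ, c • a + d • b = 0 → c = 0 ∧ d = 0) :
    d3_Ker a b (star (cr_Ker a b)) ≠ 0 := by
  intro h0
  have e : d3_Ker a b (star (cr_Ker a b)) =
      ((normSq (cr_Ker a b 0) + normSq (cr_Ker a b 1) + normSq (cr_Ker a b 2) : ℝ) : ℂ) := by
    push_cast
    simp only [← mul_conj, d3_Ker, Pi.star_apply, RCLike.star_def]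
    generalize conj (cr_Ker a b 0) = x, conj (cr_Ker a b 1) = y, conj (cr_Ker a b 2) = z
    simp [cr_Ker]
    ring
  rw [e, ofReal_eq_zero] at h0
  have p0 := normSq_nonneg (cr_Ker a b 0)
  have p1 := normSq_nonneg (cr_Ker a b 1)
  have p2 := normSq_nonneg (cr_Ker a b 2)
  have z0 : cr_Ker a b 0 = 0 := normSq_eq_zero.1 (by linarith)
  have z1 : cr_Ker a b 1 = 0 := normSq_eq_zero.1 (by linarith)
  have z2 : cr_Ker a b 2 = 0 := normSq_eq_zero.1 (by linarith)
  simp [cr_Ker] at z0 z1 z2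
  have key : ∀ i, a i = 0 := by
    intro i
    have := (h (b i) (-a i) (by
      ext j
      fin_cases i <;> fin_cases j <;> simp <;>
        first
          | linear_combination z0
          | linear_combination -z0
          | linear_combination z1
          | linear_combination -z1
          | linear_combination z2
          | linear_combination -z2
          | ring)).2
    simpa using this
  have := (h 1 0 (by ext j; simp [key j])).1
  simp at this

theorem d3_nu_Ker {a b : V} (h : ∀ c d : ℂ, c • a + d • b = 0 → c = 0 ∧ d = 0) :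
    d3_Ker a b (nu_Ker a b) = 1 := by
  rw [nu_Ker, d3_smul_Ker, inv_mul_cancel₀ (sq_ne_Ker h)]

section Cont

variable {X : Type} [TopologicalSpace X] {x : X}

theorem cont_d3_Ker {a b c : X → V} (ha : ContinuousAt a x) (hb : ContinuousAt b x)
    (hc : ContinuousAt c x) : ContinuousAt (fun y => d3_Ker (a y) (b y) (c y)) x := by
  have ha' := continuousAt_pi.1 ha
  have hb' := continuousAt_pi.1 hb
  have hc' := continuousAt_pi.1 hc
  unfold d3_Ker
  fun_prop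

theorem cont_nu_Ker {a b : X → V} (ha : ContinuousAt a x) (hb : ContinuousAt b x)
    (h : d3_Ker (a x) (b x) (star (cr_Ker (a x) (b x))) ≠ 0) :
    ContinuousAt (fun y => nu_Ker (a y) (b y)) x := by
  have ha' := continuousAt_pi.1 ha
  have hb' := continuousAt_pi.1 hb
  have h1 : ContinuousAt (fun y => star (cr_Ker (a y) (b y))) x :=
    ContinuousAt.star (continuousAt_pi.2 fun i => by
      unfold cr_Ker
      fun_prop)
  exact ((cont_d3_Ker ha hb h1).inv₀ h).smul h1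

theorem cont_R_Ker {da : X → V →L[ℝ] V →L[ℝ] V} {du : X → W →L[ℝ] V} {h : X → W} {v : X → V}
    (h1 : ContinuousAt da x) (h2 : ContinuousAt du x) (h3 : ContinuousAt h x)
    (h4 : ContinuousAt v x) : ContinuousAt (fun y => R_Ker (da y) (du y) (h y) (v y)) x := by
  have a1 := h2.clm_apply (h3.const_smul I)
  have a2 := h2.clm_apply h3
  exact (((h1.clm_apply a1).clm_apply h4).sub
    (((h1.clm_apply a2).clm_apply h4).const_smul I)).sub
    (((h1.clm_apply h4).clm_apply a1).sub (((h1.clm_apply h4).clm_apply a2).const_smul I))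

end Cont

theorem contDiff_d3_Ker {a b c : W → V} {q : W} (ha : ContDiffAt ℝ 1 a q)
    (hb : ContDiffAt ℝ 1 b q) (hc : ContDiffAt ℝ 1 c q) :
    ContDiffAt ℝ 1 (fun y => d3_Ker (a y) (b y) (c y)) q := by
  have ha' := contDiffAt_pi.1 ha
  have hb' := contDiffAt_pi.1 hb
  have hc' := contDiffAt_pi.1 hc
  unfold d3_Ker
  fun_prop

theorem diff_d3_Ker {a b c : W → V} {q : W} (ha : DifferentiableAt ℝ a q)
    (hb : DifferentiableAt ℝ b q) (hc : DifferentiableAt ℝ c q) :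
    DifferentiableAt ℝ (fun y => d3_Ker (a y) (b y) (c y)) q := by
  have ha' := differentiableAt_pi.1 ha
  have hb' := differentiableAt_pi.1 hb
  have hc' := differentiableAt_pi.1 hc
  unfold d3_Ker
  fun_prop

theorem diff_nu_Ker {a b : W → V} {q : W} (ha : DifferentiableAt ℝ a q)
    (hb : DifferentiableAt ℝ b q) (h : d3_Ker (a q) (b q) (star (cr_Ker (a q) (b q))) ≠ 0) :
    DifferentiableAt ℝ (fun y => nu_Ker (a y) (b y)) q := by
  have ha' := differentiableAt_pi.1 ha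
  have hb' := differentiableAt_pi.1 hb
  have h1 : DifferentiableAt ℝ (fun y => star (cr_Ker (a y) (b y))) q :=
    DifferentiableAt.star (differentiableAt_pi.2 fun i => by
      unfold cr_Ker
      fun_prop)
  exact ((diff_d3_Ker ha hb h1).inv h).smul h1

theorem fderiv_d3_Ker {a b c : W → V} {q : W} (ha : DifferentiableAt ℝ a q)
    (hb : DifferentiableAt ℝ b q) (hc : DifferentiableAt ℝ c q) (h : W) :
    fderiv ℝ (fun y => d3_Ker (a y) (b y) (c y)) q h =
      d3_Ker (fderiv ℝ a q h) (b q) (c q) + d3_Ker (a q) (fderiv ℝ b q h) (c q) +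
        d3_Ker (a q) (b q) (fderiv ℝ c q h) := by
  have ha' := hasFDerivAt_pi'.1 ha.hasFDerivAt
  have hb' := hasFDerivAt_pi'.1 hb.hasFDerivAt
  have hc' := hasFDerivAt_pi'.1 hc.hasFDerivAt
  have m := fun i j k => ((ha' i).fun_mul (hb' j)).fun_mul (hc' k)
  have := (((((m 0 1 2).fun_add (m 1 2 0)).fun_add (m 2 0 1)).fun_sub (m 2 1 0)).fun_sub
    (m 1 0 2)).fun_sub (m 0 2 1)
  unfold d3_Ker
  rw [this.fderiv]
  simp
  ring

theorem dl_d3_Ker {a b c : W → V} {q : W} (ha : DifferentiableAt ℝ a q)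
    (hb : DifferentiableAt ℝ b q) (hc : DifferentiableAt ℝ c q) (h : W) :
    dl_Ker (fun y => d3_Ker (a y) (b y) (c y)) q h =
      d3_Ker (dl_Ker a q h) (b q) (c q) + d3_Ker (a q) (dl_Ker b q h) (c q) +
        d3_Ker (a q) (b q) (dl_Ker c q h) := by
  simp only [dl_Ker, fderiv_d3_Ker ha hb hc]
  simp [d3_Ker]
  ring

theorem dl_comb_Ker {c d : W → ℂ} {a b : W → V} {q : W} (hc : DifferentiableAt ℝ c q)
    (hd : DifferentiableAt ℝ d q) (ha : DifferentiableAt ℝ a q) (hb : DifferentiableAt ℝ b q)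
    (h : W) :
    dl_Ker (fun y => c y • a y + d y • b y) q h =
      c q • dl_Ker a q h + d q • dl_Ker b q h + (dl_Ker c q h • a q + dl_Ker d q h • b q) := by
  have := (hc.hasFDerivAt.fun_smul ha.hasFDerivAt).fun_add (hd.hasFDerivAt.fun_smul hb.hasFDerivAt)
  simp only [dl_Ker, this.fderiv]
  ext i
  simp
  ring

theorem dl_congr_Ker {f g : W → V} {q : W} (hq : q ≠ 0) (e : ∀ y, y ≠ 0 → f y = g y) (h : W) :
    dl_Ker f q h = dl_Ker g q h := by
  have : f =ᶠ[𝓝 q] g := (eventually_ne_nhds hq).mono e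
  simp only [dl_Ker, this.fderiv_eq]

theorem clin_Ker {T : W → V} (h1 : ∀ x y, T (x + y) = T x + T y)
    (h2 : ∀ (r : ℝ) x, T (r • x) = r • T x) (h3 : ∀ x, T (I • x) = I • T x) (c : ℂ) (x : W) :
    T (c • x) = c • T x := by
  have e : c • x = c.re • x + c.im • (I • x) := by
    conv_lhs => rw [← re_add_im c]
    rw [add_smul, mul_smul, coe_smul, coe_smul]
  rw [e, h1, h2, h2, h3]
  conv_rhs => rw [← re_add_im c]
  rw [add_smul, mul_smul, coe_smul, coe_smul]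

/-- A uniform bound for a continuous function that is homogeneous in two variables. -/
theorem bound_Ker (G : W → W → ℂ → ℂ)
    (hc : ∀ p : W × W × ℂ, p.1 ≠ 0 → ContinuousAt (fun p : W × W × ℂ => G p.1 p.2.1 p.2.2) p)
    (h1 : ∀ q (r : ℝ) h m, G q (r • h) m = r * G q h m)
    (h2 : ∀ q (r : ℝ) h m, G q h (r • m) = r * G q h m) :
    ∃ C : ℝ, ∀ q, ‖q‖ = 1 → ∀ h m, ‖G q h m‖ ≤ C * ‖m‖ * ‖h‖ := by
  have hK : IsCompact (Metric.sphere (0 : W) 1 ×ˢ Metric.closedBall (0 : W) 1 ×ˢ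
      Metric.closedBall (0 : ℂ) 1) :=
    (isCompact_sphere _ _).prod ((isCompact_closedBall _ _).prod (isCompact_closedBall _ _))
  obtain ⟨C, hC⟩ := hK.exists_bound_of_continuousOn
    (f := fun p : W × W × ℂ => G p.1 p.2.1 p.2.2) fun p hp =>
      (hc p (by
        intro h0
        have := hp.1
        rw [h0] at this
        simp at this)).continuousWithinAt
  refine ⟨C, fun q hq h m => ?_⟩
  have unit : ∀ {E : Type} [NormedAddCommGroup E] [NormedSpace ℝ E] (v : E),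
      ∃ u : E, ‖u‖ ≤ 1 ∧ v = ‖v‖ • u := by
    intro E _ _ v
    by_cases hv : v = 0
    · exact ⟨0, by simp, by simp [hv]⟩
    · have hn : ‖v‖ ≠ 0 := norm_ne_zero_iff.2 hv
      exact ⟨‖v‖⁻¹ • v, by simp [norm_smul, hn], by rw [smul_inv_smul₀ hn]⟩
  obtain ⟨u, hu, eu⟩ := unit h
  obtain ⟨w, hw, ew⟩ := unit m
  have hb := hC (q, u, w) ⟨by simpa using hq, by simpa using hu, by simpa using hw⟩
  have e : G q h m = ‖h‖ * (‖m‖ * G q u w) := by
    conv_lhs => rw [eu, h1, ew, h2]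
  rw [e, norm_mul, norm_mul, norm_real, norm_real, norm_norm, norm_norm]
  calc ‖h‖ * (‖m‖ * ‖G q u w‖) ≤ ‖h‖ * (‖m‖ * C) := by gcongr
    _ = C * ‖m‖ * ‖h‖ := by ring

/-- A holomorphic function on the punctured plane that is homogeneous of degree one is linear. -/
theorem linear_Ker {f : W → ℂ} (hd : ∀ q, q ≠ 0 → DifferentiableAt ℝ f q)
    (hl : ∀ q, q ≠ 0 → ∀ h, dl_Ker f q h = 0)
    (hh : ∀ (c : ℂ) q, c ≠ 0 → q ≠ 0 → f (c • q) = c * f q) :
    ∀ q, q ≠ 0 → f q = q.1 * f (1, 0) + q.2 * f (0, 1) := by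
  have n1 : ∀ z : ℂ, ((1, z) : W) ≠ 0 := fun z h => one_ne_zero (congrArg Prod.fst h)
  have n2 : ∀ z : ℂ, ((z, 1) : W) ≠ 0 := fun z h => one_ne_zero (congrArg Prod.snd h)
  have hg : Differentiable ℂ fun z : ℂ => f (1, z) := by
    intro z
    have h1 : HasFDerivAt (fun z : ℂ => f (1, z))
        ((fderiv ℝ f (1, z)).comp (ContinuousLinearMap.inr ℝ ℂ ℂ)) z :=
      (hd _ (n1 z)).hasFDerivAt.comp z (hasFDerivAt_prodMk_right (1 : ℂ) z)
    rw [differentiableAt_complex_iff_differentiableAt_real]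
    refine ⟨h1.differentiableAt, ?_⟩
    have h2 := hl _ (n1 z) (0, 1)
    rw [dl_Ker, sub_eq_zero] at h2
    rw [h1.fderiv]
    simpa using h2
  have hs : Differentiable ℂ (dslope (fun z : ℂ => f (1, z)) 0) := by
    rw [← differentiableOn_univ, differentiableOn_dslope univ_mem, differentiableOn_univ]
    exact hg
  have hinv : Tendsto (fun z : ℂ => z⁻¹) (cocompact ℂ) (𝓝 0) := by
    rw [← Metric.cobounded_eq_cocompact]
    exact tendsto_inv₀_cobounded
  have hk : Tendsto (fun z : ℂ => f (z⁻¹, 1) - z⁻¹ * f (1, 0)) (cocompact ℂ) (𝓝 (f (0, 1))) := by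
    have h1 : ContinuousAt (fun w : ℂ => f (w, 1) - w * f (1, 0)) 0 :=
      (ContinuousAt.comp (f := fun w : ℂ => ((w, 1) : W)) (hd _ (n2 0)).continuousAt
        (by fun_prop)).sub (by fun_prop)
    simpa [Function.comp_def] using h1.tendsto.comp hinv
  have hlim : Tendsto (dslope (fun z : ℂ => f (1, z)) 0) (cocompact ℂ) (𝓝 (f (0, 1))) := by
    refine hk.congr' ?_
    filter_upwards [(isCompact_singleton (x := (0 : ℂ))).compl_mem_cocompact] with z hz
    have hz' : z ≠ 0 := hz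
    have e : f (z⁻¹, 1) = z⁻¹ * f (1, z) := by
      rw [← hh _ _ (inv_ne_zero hz') (n1 z)]
      simp [hz']
    rw [dslope_of_ne _ hz', slope_def_field, e, sub_zero, div_eq_inv_mul, mul_sub]
  have hz : ∀ z : ℂ, f (1, z) = f (1, 0) + z * f (0, 1) := by
    intro z
    have h1 := sub_smul_dslope (fun z : ℂ => f (1, z)) 0 z
    rw [hs.apply_eq_of_tendsto_cocompact z hlim] at h1
    simp only [sub_zero, smul_eq_mul] at h1
    rw [h1]
    ring
  rintro ⟨x, y⟩ hq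
  by_cases hx : x = 0
  · subst hx
    have hy : y ≠ 0 := fun h => hq (by simp [h])
    have := hh y (0, 1) hy (n2 0)
    simpa using this
  · have := hh x (1, y / x) hx (n1 _)
    rw [hz] at this
    have e : x • ((1, y / x) : W) = (x, y) := by
      simp [mul_div_cancel₀, hx]
    rw [e] at this
    rw [this]
    field_simp

end Pool.Agent.MP_2fc7fa_gt.N

end
end

section

/-! The kernel of the linearised operator with constraints is trivial. -/

open scoped ContDiff ComplexConjugate Topology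
open Set Complex Filter

noncomputable section

namespace Pool.Agent.MP_2fc7fa_gt.N

/-- A vector field along `U`, read in the coframe. -/
def eta_Ker (φ : Fr) (U ξ : W → V) (q : W) : V := φ.A (U q) (ξ q)

/-- The derivative of `U` in a fixed direction, read in the coframe. -/
def tau_Ker (φ : Fr) (U : W → V) (c : W) : W → V := eta_Ker φ U fun q => fderiv ℝ U q c

/-- The linearised equation at a point. -/
def Lin_Ker (φ : Fr) (U ξ : W → V) (q h : W) : Prop :=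
  fderiv ℝ φ.A (U q) (ξ q) (fderiv ℝ U q (I • h)) + φ.A (U q) (fderiv ℝ ξ q (I • h)) =
    I • (fderiv ℝ φ.A (U q) (ξ q) (fderiv ℝ U q h) + φ.A (U q) (fderiv ℝ ξ q h))

/-- The right hand side of the equation for the determinant. -/
def G_Ker (φ : Fr) (U : W → V) (q h : W) (m : ℂ) : ℂ :=
  m * (d3_Ker (R_Ker (fderiv ℝ φ.A (U q)) (fderiv ℝ U q) h (fderiv ℝ U q (1, 0)))
        (tau_Ker φ U (0, 1) q) (nu_Ker (tau_Ker φ U (1, 0) q) (tau_Ker φ U (0, 1) q)) +
      d3_Ker (tau_Ker φ U (1, 0) q)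
        (R_Ker (fderiv ℝ φ.A (U q)) (fderiv ℝ U q) h (fderiv ℝ U q (0, 1)))
        (nu_Ker (tau_Ker φ U (1, 0) q) (tau_Ker φ U (0, 1) q))) +
    d3_Ker (tau_Ker φ U (1, 0) q) (tau_Ker φ U (0, 1) q)
      (R_Ker (fderiv ℝ φ.A (U q)) (fderiv ℝ U q) h
        (φ.B (U q) (m • nu_Ker (tau_Ker φ U (1, 0) q) (tau_Ker φ U (0, 1) q))))

theorem R_smul_Ker (da : V →L[ℝ] V →L[ℝ] V) (du : W →L[ℝ] V) (r : ℝ) (h : W) (x : V) :
    R_Ker da du (r • h) x = (r : ℂ) • R_Ker da du h x := by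
  simp only [R_Ker, smul_comm I r, map_smul, smul_apply, coe_smul, smul_sub]

theorem R_smul'_Ker (da : V →L[ℝ] V →L[ℝ] V) (du : W →L[ℝ] V) (r : ℝ) (h : W) (x : V) :
    R_Ker da du h (r • x) = (r : ℂ) • R_Ker da du h x := by
  simp only [R_Ker, smul_comm I r, map_smul, smul_apply, coe_smul, smul_sub]

theorem R_add_Ker (da : V →L[ℝ] V →L[ℝ] V) (du : W →L[ℝ] V) (h : W) (x y : V) :
    R_Ker da du h (x + y) = R_Ker da du h x + R_Ker da du h y := by
  simp only [R_Ker, map_add, add_apply, smul_add]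
  abel

variable {φ : Fr} {U ξ : W → V} {q : W}

theorem A_smul_Ker (φ : Fr) {x : V} (hx : x ≠ 0) {c : ℂ} (hc : c ≠ 0) (v : V) :
    φ.A (c • x) (c • v) = c • φ.A x v := by
  have h := φ.scale x hx c hc (φ.A x v)
  rw [φ.BA x hx] at h
  rw [← h, φ.AB _ (smul_ne_zero hc hx)]

theorem cA_Ker (φ : Fr) {x : V} (hx : x ≠ 0) : ContDiffAt ℝ ∞ φ.A x :=
  φ.smoothA.contDiffAt (isOpen_compl_singleton.mem_nhds hx)

theorem fd_eta_Ker (hx : U q ≠ 0) (hU : DifferentiableAt ℝ U q) (hξ : DifferentiableAt ℝ ξ q)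
    (h : W) : fderiv ℝ (eta_Ker φ U ξ) q h =
      fderiv ℝ φ.A (U q) (fderiv ℝ U q h) (ξ q) + φ.A (U q) (fderiv ℝ ξ q h) := by
  have hA := ((cA_Ker φ hx).differentiableAt (by simp)).hasFDerivAt
  have := (hA.comp q hU.hasFDerivAt).clm_apply hξ.hasFDerivAt
  have e : fderiv ℝ (eta_Ker φ U ξ) q = _ := this.fderiv
  rw [e]
  simp [add_comm]

theorem dl_eta_Ker (hx : U q ≠ 0) (hU : DifferentiableAt ℝ U q) (hξ : DifferentiableAt ℝ ξ q)
    {h : W} (hl : Lin_Ker φ U ξ q h) :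
    dl_Ker (eta_Ker φ U ξ) q h = R_Ker (fderiv ℝ φ.A (U q)) (fderiv ℝ U q) h (ξ q) := by
  rw [dl_Ker, fd_eta_Ker hx hU hξ, fd_eta_Ker hx hU hξ, R_Ker]
  rw [Lin_Ker, smul_add] at hl
  rw [smul_add, eq_sub_of_add_eq' hl]
  abel

theorem tau_I_Ker (hU : IsLine φ.J U) (hq : q ≠ 0) (h : W) :
    tau_Ker φ U (I • h) q = I • tau_Ker φ U h q := by
  simp only [tau_Ker, eta_Ker, hU.hol q hq, Fr.J, φ.AB _ (hU.ne q hq)]

theorem tau_smul_Ker (hU : IsLine φ.J U) (hq : q ≠ 0) (c : ℂ) (h : W) :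
    tau_Ker φ U (c • h) q = c • tau_Ker φ U h q :=
  clin_Ker (T := fun h => tau_Ker φ U h q) (fun x y => by simp only [tau_Ker, eta_Ker, map_add])
    (fun r x => by simp only [tau_Ker, eta_Ker, map_smul]) (tau_I_Ker hU hq) c h

theorem tau_comb_Ker (hU : IsLine φ.J U) (hq : q ≠ 0) (c d : ℂ) :
    tau_Ker φ U (c, d) q = c • tau_Ker φ U (1, 0) q + d • tau_Ker φ U (0, 1) q := by
  rw [← tau_smul_Ker hU hq, ← tau_smul_Ker hU hq]
  simp only [tau_Ker, eta_Ker, ← map_add]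
  simp

theorem dU_Ker (hU : IsLine φ.J U) (hq : q ≠ 0) : DifferentiableAt ℝ U q :=
  (hU.c1.contDiffAt (isOpen_compl_singleton.mem_nhds hq)).differentiableAt (by simp)

theorem tau_hom_Ker (hU : IsLine φ.J U) (hq : q ≠ 0) {c : ℂ} (hc : c ≠ 0) (h : W) :
    tau_Ker φ U h (c • q) = tau_Ker φ U h q := by
  have hcq : c • q ≠ 0 := smul_ne_zero hc hq
  have h1 := (dU_Ker hU hcq).hasFDerivAt.comp q ((hasFDerivAt_id q).const_smul c)
  have h2 := (dU_Ker hU hq).hasFDerivAt.const_smul c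
  have e : U ∘ HSMul.hSMul c = c • U := funext fun y => hU.hom c y
  rw [e] at h1
  have h3 : fderiv ℝ U (c • q) (c • h) = c • fderiv ℝ U q h := by
    simpa using congrArg (fun T : W →L[ℝ] V => T h) (h1.unique h2)
  have h4 := tau_smul_Ker hU hcq c h
  have h5 : tau_Ker φ U (c • h) (c • q) = c • tau_Ker φ U h q := by
    simp only [tau_Ker, eta_Ker]
    rw [h3, hU.hom, A_smul_Ker φ (hU.ne q hq) hc]
  exact smul_right_injective V hc (h4.symm.trans h5)

theorem indep_Ker (hU : IsLine φ.J U) (hE : IsEmb U) (hq : q ≠ 0) (c d : ℂ)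
    (h : c • tau_Ker φ U (1, 0) q + d • tau_Ker φ U (0, 1) q = 0) : c = 0 ∧ d = 0 := by
  rw [← tau_comb_Ker hU hq] at h
  have h1 := φ.BA _ (hU.ne q hq) (fderiv ℝ U q (c, d))
  have h2 : φ.A (U q) (fderiv ℝ U q (c, d)) = 0 := h
  rw [h2, map_zero, ← map_zero (fderiv ℝ U q)] at h1
  have := hE.imm q hq h1
  exact ⟨(congrArg Prod.fst this).symm, (congrArg Prod.snd this).symm⟩

theorem two_le_Ker : (2 : WithTop ℕ∞) ≤ ∞ := WithTop.coe_le_coe.2 (le_top (a := (2 : ℕ∞)))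

theorem cfd_Ker (hs : ContDiffAt ℝ ∞ U q) : ContDiffAt ℝ 1 (fderiv ℝ U) q :=
  hs.fderiv_right (one_add_one_eq_two.trans_le two_le_Ker)

theorem ceta_Ker (hx : U q ≠ 0) (hs : ContDiffAt ℝ ∞ U q) (hξ : ContDiffAt ℝ 1 ξ q) :
    ContDiffAt ℝ 1 (eta_Ker φ U ξ) q :=
  (((cA_Ker φ hx).comp q hs).of_le (by exact_mod_cast le_top)).clm_apply hξ

theorem ctau_Ker (hx : U q ≠ 0) (hs : ContDiffAt ℝ ∞ U q) (c : W) :
    ContDiffAt ℝ 1 (tau_Ker φ U c) q :=
  ceta_Ker hx hs ((cfd_Ker hs).clm_apply contDiffAt_const)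

theorem dl_tau_Ker (hU : IsLine φ.J U) (hq : q ≠ 0) (hs : ContDiffAt ℝ ∞ U q) (c h : W) :
    dl_Ker (tau_Ker φ U c) q h =
      R_Ker (fderiv ℝ φ.A (U q)) (fderiv ℝ U q) h (fderiv ℝ U q c) := by
  have hx := hU.ne q hq
  have hd := (cfd_Ker hs).differentiableAt (by simp)
  have hd' : ∀ v : W, DifferentiableAt ℝ (fun y => fderiv ℝ U y v) q :=
    fun v => hd.clm_apply (differentiableAt_const v)
  have h2 : ∀ v w : W, fderiv ℝ (fun y => fderiv ℝ U y v) q w = fderiv ℝ (fderiv ℝ U) q w v := by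
    intro v w
    rw [fderiv_clm_apply hd (differentiableAt_const v)]
    simp
  have hsym := hs.isSymmSndFDerivAt (by simpa using two_le_Ker)
  refine dl_eta_Ker hx (dU_Ker hU hq) (hd' c) ?_
  have e : tau_Ker φ U (I • h) =ᶠ[𝓝 q] I • tau_Ker φ U h :=
    (eventually_ne_nhds hq).mono fun y hy => tau_I_Ker hU hy h
  have h3 := congrArg (fun T : W →L[ℝ] V => T c) e.fderiv_eq
  rw [fderiv_const_smul ((ctau_Ker hx hs h).differentiableAt (by simp))] at h3
  simp only [smul_apply, tau_Ker] at h3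
  rw [fd_eta_Ker hx (dU_Ker hU hq) (hd' _), fd_eta_Ker hx (dU_Ker hU hq) (hd' _), h2, h2] at h3
  rw [Lin_Ker, h2, h2, hsym.eq (I • h) c, hsym.eq h c]
  exact h3

theorem R_comb_Ker (hU : IsLine φ.J U) (hs : ContDiffOn ℝ ∞ U {0}ᶜ) (hq : q ≠ 0) (c d : ℂ)
    (h : W) : R_Ker (fderiv ℝ φ.A (U q)) (fderiv ℝ U q) h (fderiv ℝ U q (c, d)) =
      c • dl_Ker (tau_Ker φ U (1, 0)) q h + d • dl_Ker (tau_Ker φ U (0, 1)) q h := by
  have hs' := hs.contDiffAt (isOpen_compl_singleton.mem_nhds hq)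
  have ht := fun v => (ctau_Ker (φ := φ) (hU.ne q hq) hs' v).differentiableAt (by simp)
  rw [← dl_tau_Ker hU hq hs', dl_congr_Ker hq (fun y hy => tau_comb_Ker hU hy c d),
    dl_comb_Ker (differentiableAt_const c) (differentiableAt_const d) (ht _) (ht _)]
  simp [dl_Ker]

theorem G_bound_Ker (hU : IsLine φ.J U) (hE : IsEmb U) (hs : ContDiffOn ℝ ∞ U {0}ᶜ) :
    ∃ C : ℝ, ∀ q, ‖q‖ = 1 → ∀ h m, ‖G_Ker φ U q h m‖ ≤ C * ‖m‖ * ‖h‖ := by
  refine bound_Ker (G_Ker φ U) (fun p hp => ?_) (fun q r h m => ?_) (fun q r h m => ?_)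
  · have hs' := hs.contDiffAt (isOpen_compl_singleton.mem_nhds hp)
    have hx := hU.ne _ hp
    have f1 : ContinuousAt (fun p : W × W × ℂ => p.1) p := continuousAt_fst
    have fh : ContinuousAt (fun p : W × W × ℂ => p.2.1) p := by fun_prop
    have fm : ContinuousAt (fun p : W × W × ℂ => p.2.2) p := by fun_prop
    have u0 : ContinuousAt (fun p : W × W × ℂ => U p.1) p := hs'.continuousAt.comp f1
    have du : ContinuousAt (fun p : W × W × ℂ => fderiv ℝ U p.1) p :=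
      (cfd_Ker hs').continuousAt.comp f1
    have da : ContinuousAt (fun p : W × W × ℂ => fderiv ℝ φ.A (U p.1)) p :=
      ContinuousAt.comp (f := fun p : W × W × ℂ => U p.1)
        ((cA_Ker φ hx).continuousAt_fderiv (by simp)) u0
    have hb : ContinuousAt (fun p : W × W × ℂ => φ.B (U p.1)) p :=
      ContinuousAt.comp (f := fun p : W × W × ℂ => U p.1)
        (φ.smoothB.contDiffAt (isOpen_compl_singleton.mem_nhds hx)).continuousAt u0
    have ht : ∀ c, ContinuousAt (fun p : W × W × ℂ => tau_Ker φ U c p.1) p := fun c =>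
      (ctau_Ker hx hs' c).continuousAt.comp f1
    have hn := cont_nu_Ker (ht (1, 0)) (ht (0, 1)) (sq_ne_Ker (indep_Ker hU hE hp))
    exact (fm.mul ((cont_d3_Ker (cont_R_Ker da du fh (du.clm_apply continuousAt_const)) (ht _)
      hn).add (cont_d3_Ker (ht _) (cont_R_Ker da du fh (du.clm_apply continuousAt_const))
      hn))).add (cont_d3_Ker (ht _) (ht _) (cont_R_Ker da du fh (hb.clm_apply (fm.smul hn))))
  · simp only [G_Ker, R_smul_Ker, d3_Ker, Pi.smul_apply, smul_eq_mul]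
    ring
  · simp only [G_Ker, smul_assoc, map_smul, R_smul'_Ker, d3_smul_Ker]
    rw [real_smul]
    ring

theorem ker (hS : LineSmoothStmt) (hZ : ZeroStmt) : KerStmt := by
  intro φ U ξ b hU hE hξ hhom hlin hcon
  have hs := hS φ U hU
  have hs' := fun q (hq : q ≠ 0) => hs.contDiffAt (isOpen_compl_singleton.mem_nhds hq)
  have hξ' := fun q (hq : q ≠ 0) => hξ.contDiffAt (isOpen_compl_singleton.mem_nhds hq)
  have hξ0 : ξ 0 = 0 := by simpa using hhom 0 0
  set t0 := tau_Ker φ U (1, 0) with ht0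
  set t1 := tau_Ker φ U (0, 1) with ht1
  set η := eta_Ker φ U ξ with hη
  have c0 := fun q (hq : q ≠ 0) => ctau_Ker (φ := φ) (hU.ne q hq) (hs' q hq) (1, 0)
  have c1 := fun q (hq : q ≠ 0) => ctau_Ker (φ := φ) (hU.ne q hq) (hs' q hq) (0, 1)
  have ce := fun q (hq : q ≠ 0) => ceta_Ker (φ := φ) (hU.ne q hq) (hs' q hq) (hξ' q hq)
  have d0 : ∀ q, q ≠ 0 → DifferentiableAt ℝ t0 q := fun q hq =>
    (c0 q hq).differentiableAt (by simp)
  have d1 : ∀ q, q ≠ 0 → DifferentiableAt ℝ t1 q := fun q hq =>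
    (c1 q hq).differentiableAt (by simp)
  have de : ∀ q, q ≠ 0 → DifferentiableAt ℝ η q := fun q hq =>
    (ce q hq).differentiableAt (by simp)
  have dn : ∀ q, q ≠ 0 → DifferentiableAt ℝ (fun y => nu_Ker (t0 y) (t1 y)) q := fun q hq =>
    diff_nu_Ker (d0 q hq) (d1 q hq) (sq_ne_Ker (indep_Ker hU hE hq))
  have hη0 : η 0 = 0 := by simp only [hη, eta_Ker, hξ0, map_zero]
  have hηh : ∀ (c : ℂ) q, c ≠ 0 → q ≠ 0 → η (c • q) = c • η q := fun c q hc hq => by
    simp only [hη, eta_Ker]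
    rw [hU.hom, hhom, A_smul_Ker φ (hU.ne q hq) hc]
  have hB : ∀ q, q ≠ 0 → φ.B (U q) (η q) = ξ q := fun q hq => φ.BA _ (hU.ne q hq) _
  have hdl : ∀ q, q ≠ 0 → ∀ h, dl_Ker η q h =
      R_Ker (fderiv ℝ φ.A (U q)) (fderiv ℝ U q) h (ξ q) := fun q hq h =>
    dl_eta_Ker (hU.ne q hq) (dU_Ker hU hq) ((hξ' q hq).differentiableAt (by simp)) (hlin q hq h)
  -- the coefficients of `η`
  let a : W → ℂ := fun q => d3_Ker (η q) (t1 q) (nu_Ker (t0 q) (t1 q))
  let c : W → ℂ := fun q => d3_Ker (t0 q) (η q) (nu_Ker (t0 q) (t1 q))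
  let n : W → ℂ := fun q => d3_Ker (t0 q) (t1 q) (η q)
  have hdec : ∀ q, q ≠ 0 → η q = a q • t0 q + c q • t1 q + n q • nu_Ker (t0 q) (t1 q) := by
    intro q hq
    have := cramer_Ker (t0 q) (t1 q) (nu_Ker (t0 q) (t1 q)) (η q)
    rwa [d3_nu_Ker (indep_Ker hU hE hq), one_smul] at this
  have hdl' : ∀ q, q ≠ 0 → ∀ h, dl_Ker η q h = a q • dl_Ker t0 q h + c q • dl_Ker t1 q h +
      R_Ker (fderiv ℝ φ.A (U q)) (fderiv ℝ U q) h (φ.B (U q) (n q • nu_Ker (t0 q) (t1 q))) := by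
    intro q hq h
    have e : ξ q = fderiv ℝ U q (a q, c q) + φ.B (U q) (n q • nu_Ker (t0 q) (t1 q)) := by
      rw [← hB q hq, hdec q hq, map_add, ← tau_comb_Ker hU hq]
      congr 1
      exact φ.BA _ (hU.ne q hq) _
    rw [hdl q hq, e, R_add_Ker, R_comb_Ker hU hs hq]
  have e10 : ((1, 0) : W) ≠ 0 := fun h => one_ne_zero (congrArg Prod.fst h)
  have e01 : ((0, 1) : W) ≠ 0 := fun h => one_ne_zero (congrArg Prod.snd h)
  have k1 : η (1, 0) = 0 := by
    have : ξ (1, 0) = 0 := by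
      cases b <;> exact congrArg Prod.fst hcon
    simp only [hη, eta_Ker, this, map_zero]
  have k2 : η (0, 1) = 0 ∨ fderiv ℝ η (1, 0) (0, 1) = 0 := by
    cases b
    · have h1 : ξ (1, 0) = 0 := congrArg Prod.fst hcon
      have h2 : fderiv ℝ ξ (1, 0) (0, 1) = 0 := congrArg Prod.snd hcon
      right
      rw [hη, fd_eta_Ker (hU.ne _ e10) (dU_Ker hU e10) ((hξ' _ e10).differentiableAt (by simp)),
        h1, h2, map_zero, map_zero, add_zero]
    · have h2 : ξ (0, 1) = 0 := congrArg Prod.snd hcon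
      left
      simp only [hη, eta_Ker, h2, map_zero]
  have hn : ∀ q, n q = 0 := by
    obtain ⟨C, hC⟩ := G_bound_Ker hU hE hs
    refine hZ n (fun q hq => (contDiff_d3_Ker (c0 q hq) (c1 q hq) (ce q hq)).contDiffWithinAt)
      (fun r q => ?_) ⟨C, fun q hq h => ?_⟩ (by simp [n, k1, d3_Ker]) (k2.imp ?_ ?_)
    · by_cases hr : r = 0
      · simp [n, hr, hη0, d3_Ker]
      by_cases hq : q = 0
      · simp [n, hq, hη0, d3_Ker]
      simp only [n, ht0, ht1, tau_hom_Ker hU hq hr, hηh r q hr hq, d3_smul_Ker]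
    · have hq' : q ≠ 0 := by
        rintro rfl
        simp at hq
      have e : dl_Ker n q h = G_Ker φ U q h (n q) := by
        rw [dl_d3_Ker (d0 q hq') (d1 q hq') (de q hq'), hdl' q hq', G_Ker,
          ← dl_tau_Ker hU hq' (hs' q hq'), ← dl_tau_Ker hU hq' (hs' q hq'), ← ht0, ← ht1,
          hdec q hq']
        generalize R_Ker _ _ _ _ = r, nu_Ker _ _ = ν, n q = m, a q = x, c q = y
        simp [d3_Ker]
        ring
      have := hC q hq h (n q)
      rwa [← e] at this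
    · intro h
      simp [n, h, d3_Ker]
    · intro h
      rw [fderiv_d3_Ker (d0 _ e10) (d1 _ e10) (de _ e10), k1, h]
      simp [d3_Ker]
  have hdec' : ∀ q, q ≠ 0 → η q = a q • t0 q + c q • t1 q := fun q hq => by
    rw [hdec q hq, hn, zero_smul, add_zero]
  have da : ∀ q, q ≠ 0 → DifferentiableAt ℝ a q := fun q hq =>
    diff_d3_Ker (de q hq) (d1 q hq) (dn q hq)
  have dc : ∀ q, q ≠ 0 → DifferentiableAt ℝ c q := fun q hq =>
    diff_d3_Ker (d0 q hq) (de q hq) (dn q hq)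
  have hol : ∀ q, q ≠ 0 → ∀ h, dl_Ker a q h = 0 ∧ dl_Ker c q h = 0 := by
    intro q hq h
    refine indep_Ker hU hE hq _ _ ?_
    have h1 := hdl' q hq h
    rw [dl_congr_Ker hq hdec', dl_comb_Ker (da q hq) (dc q hq) (d0 q hq) (d1 q hq), hn,
      zero_smul, map_zero, add_right_inj] at h1
    rw [h1]
    simp [R_Ker]
  have lin0 : ∀ f : W → ℂ, (∀ q, q ≠ 0 → DifferentiableAt ℝ f q) →
      (∀ q, q ≠ 0 → ∀ h, dl_Ker f q h = 0) →
      (∀ (r : ℂ) q, r ≠ 0 → q ≠ 0 → f (r • q) = r * f q) → f (1, 0) = 0 →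
      (f (0, 1) = 0 ∨ fderiv ℝ f (1, 0) (0, 1) = 0) → ∀ q, q ≠ 0 → f q = 0 := by
    intro f h1 h2 h3 h4 h5 q hq
    have hl := linear_Ker h1 h2 h3
    have h6 : f (0, 1) = 0 := by
      refine h5.elim id fun h5 => ?_
      have e : f =ᶠ[𝓝 (1, 0)] fun y => y.2 * f (0, 1) :=
        (eventually_ne_nhds e10).mono fun y hy => by rw [hl y hy, h4, mul_zero, zero_add]
      have hd : HasFDerivAt (fun y : W => y.2 * f (0, 1)) _ (1, 0) :=
        (hasFDerivAt_snd (𝕜 := ℝ)).mul_const (f (0, 1))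
      rw [e.fderiv_eq, hd.fderiv] at h5
      simpa using h5
    rw [hl q hq, h4, h6]
    simp
  have ha : ∀ q, q ≠ 0 → a q = 0 := by
    refine lin0 a da (fun q hq h => (hol q hq h).1) (fun r q hr hq => ?_)
      (by simp [a, k1, d3_Ker]) (k2.imp (fun h => by simp [a, h, d3_Ker]) fun h => ?_)
    · simp only [a, ht0, ht1, tau_hom_Ker hU hq hr, hηh r q hr hq]
      simp [d3_Ker]
      ring
    · rw [fderiv_d3_Ker (de _ e10) (d1 _ e10) (dn _ e10), k1, h]
      simp [d3_Ker]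
  have hc : ∀ q, q ≠ 0 → c q = 0 := by
    refine lin0 c dc (fun q hq h => (hol q hq h).2) (fun r q hr hq => ?_)
      (by simp [c, k1, d3_Ker]) (k2.imp (fun h => by simp [c, h, d3_Ker]) fun h => ?_)
    · simp only [c, ht0, ht1, tau_hom_Ker hU hq hr, hηh r q hr hq]
      simp [d3_Ker]
      ring
    · rw [fderiv_d3_Ker (d0 _ e10) (de _ e10) (dn _ e10), k1, h]
      simp [d3_Ker]
  intro q
  by_cases hq : q = 0
  · rw [hq, hξ0]
  · rw [← hB q hq, hdec' q hq, ha q hq, hc q hq]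
    simp

end Pool.Agent.MP_2fc7fa_gt.N

end
end

section

/-! The chord lemma for a compact family of embedded homogeneous maps. -/

open scoped ContDiff ComplexConjugate Topology
open Set Complex Filter Metric

noncomputable section

namespace Pool.Agent.MP_2fc7fa_gt.N

lemma core_Chord (U : W → V) (D : W →L[ℝ] V) (q₀ : W) (ρ κ ε : ℝ) (hε : 0 ≤ ε)
    (hlin : ∀ a ∈ ball q₀ ρ, ∀ b ∈ ball q₀ ρ, ‖U a - U b - D (a - b)‖ ≤ ε * ‖a - b‖)
    (hκ : ∀ v, κ * ‖v‖ ≤ ‖D v‖) (r r₁ r₂ : W) (hr : r ∈ ball q₀ ρ) (h₁ : r₁ ∈ ball q₀ ρ)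
    (h₂ : r₂ ∈ ball q₀ ρ) (u : ℝ) (hu : u ∈ Icc (0 : ℝ) 1)
    (e : U r = (1 - u) • U r₁ + u • U r₂) :
    (κ - ε) * ‖r - ((1 - u) • r₁ + u • r₂)‖ ≤ ε * ‖r₁ - r₂‖ := by
  set s := (1 - u) • r₁ + u • r₂ with hs
  have hu0 : 0 ≤ u := hu.1
  have hu1 : 0 ≤ 1 - u := by linarith [hu.2]
  have hsb : s ∈ ball q₀ ρ := convex_ball q₀ ρ h₁ h₂ hu1 hu0 (by ring)
  have a0 := hlin r hr s hsb
  have a1 := hlin r₁ h₁ s hsb
  have a2 := hlin r₂ h₂ s hsb
  have e1 : r₁ - s = u • (r₁ - r₂) := by rw [hs]; module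
  have e2 : r₂ - s = (1 - u) • (r₂ - r₁) := by rw [hs]; module
  have n1 : ‖r₁ - s‖ = u * ‖r₁ - r₂‖ := by rw [e1, norm_smul, Real.norm_of_nonneg hu0]
  have n2 : ‖r₂ - s‖ = (1 - u) * ‖r₁ - r₂‖ := by
    rw [e2, norm_smul, Real.norm_of_nonneg hu1, norm_sub_rev]
  have e3 : U r - U s = (1 - u) • (U r₁ - U s - D (r₁ - s)) + u • (U r₂ - U s - D (r₂ - s)) := by
    rw [e, e1, e2, map_smul, map_smul, map_sub, map_sub]; module
  have b1 : ‖U r - U s‖ ≤ ε * ‖r₁ - r₂‖ := by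
    rw [e3]
    refine (norm_add_le _ _).trans ?_
    rw [norm_smul, norm_smul, Real.norm_of_nonneg hu0, Real.norm_of_nonneg hu1]
    have c1 := mul_le_mul_of_nonneg_left a1 hu1
    have c2 := mul_le_mul_of_nonneg_left a2 hu0
    rw [n1] at c1
    rw [n2] at c2
    have t : 0 ≤ ε * ‖r₁ - r₂‖ := by positivity
    have t2 : (1 - u) * u ≤ 1 / 2 := by nlinarith
    nlinarith
  have b2 : ‖D (r - s)‖ ≤ ‖U r - U s‖ + ‖U r - U s - D (r - s)‖ := by
    have : D (r - s) = (U r - U s) - (U r - U s - D (r - s)) := by abel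
    conv_lhs => rw [this]
    exact norm_sub_le _ _
  have b3 := hκ (r - s)
  nlinarith

lemma det_le_Chord (x y : W) : ‖det2 x y‖ ≤ 2 * ‖x‖ * ‖y‖ := by
  unfold det2
  refine (norm_sub_le _ _).trans ?_
  rw [norm_mul, norm_mul]
  have a1 := mul_le_mul (norm_fst_le x) (norm_snd_le y) (norm_nonneg _) (norm_nonneg _)
  have a2 := mul_le_mul (norm_snd_le x) (norm_fst_le y) (norm_nonneg _) (norm_nonneg _)
  linarith

lemma coord_Chord (q₀ h : W) (hd : det2 q₀ h ≠ 0) : ∃ K : ℝ, 0 < K ∧ ∀ α β : ℂ,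
    ‖α‖ ≤ K * ‖α • q₀ + β • h‖ ∧ ‖β‖ ≤ K * ‖α • q₀ + β • h‖ := by
  have hd' : 0 < ‖det2 q₀ h‖ := norm_pos_iff.2 hd
  refine ⟨(2 * ‖q₀‖ + 2 * ‖h‖ + 1) / ‖det2 q₀ h‖, by positivity, fun α β => ?_⟩
  have e1 : det2 (α • q₀ + β • h) h = α * det2 q₀ h := by simp [det2]; ring
  have e2 : det2 q₀ (α • q₀ + β • h) = β * det2 q₀ h := by simp [det2]; ring
  have a1 := det_le_Chord (α • q₀ + β • h) h
  have a2 := det_le_Chord q₀ (α • q₀ + β • h)
  rw [e1, norm_mul] at a1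
  rw [e2, norm_mul] at a2
  have n0 := norm_nonneg (α • q₀ + β • h)
  have n1 := norm_nonneg q₀
  have n2 := norm_nonneg h
  constructor
  · rw [div_mul_eq_mul_div, le_div_iff₀ hd']; nlinarith
  · rw [div_mul_eq_mul_div, le_div_iff₀ hd']; nlinarith

section
variable {P : Type} [TopologicalSpace P] [CompactSpace P]

lemma low_Chord (G : P → W → V) (hc : ContinuousOn (fun a : P × W => G a.1 a.2) (univ ×ˢ {0}ᶜ))
    (hs : ∀ p (t : ℝ) q, G p (t • q) = t • G p q) (hn : ∀ p q, q ≠ 0 → G p q ≠ 0) :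
    ∃ κ : ℝ, 0 < κ ∧ ∀ p v, κ * ‖v‖ ≤ ‖G p v‖ := by
  have hK : IsCompact ((univ : Set P) ×ˢ sphere (0 : W) 1) :=
    isCompact_univ.prod (isCompact_sphere _ _)
  have hsub : ((univ : Set P) ×ˢ sphere (0 : W) 1) ⊆ univ ×ˢ {0}ᶜ := by
    refine prod_mono subset_rfl fun q hq h0 => ?_
    rw [mem_singleton_iff] at h0
    simp [h0] at hq
  obtain ⟨κ, hκ, H⟩ := hK.exists_forall_le' (f := fun a : P × W => ‖G a.1 a.2‖) (a := 0)
    (hc.mono hsub).norm fun b hb => norm_pos_iff.2 (hn _ _ (hsub hb).2)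
  refine ⟨κ, hκ, fun p v => ?_⟩
  rcases eq_or_ne v 0 with rfl | hv
  · simp
  have hv' : 0 < ‖v‖ := norm_pos_iff.2 hv
  have h1 := H (p, ‖v‖⁻¹ • v) ⟨mem_univ _, by simp [norm_smul, hv'.ne']⟩
  simp only [hs, norm_smul, norm_inv, norm_norm] at h1
  rwa [inv_mul_eq_div, le_div_iff₀ hv'] at h1

lemma inj_Chord (U : P → W → V) (q₀ : W) (hq : q₀ ≠ 0)
    (hc : ContinuousOn (fun a : P × W => U a.1 a.2) (univ ×ˢ {0}ᶜ))
    (hs : ∀ p (t : ℝ) q, U p (t • q) = t • U p q) (hn : ∀ p q, q ≠ 0 → U p q ≠ 0)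
    (hi : ∀ p, InjOn (U p) {0}ᶜ) (ρ : ℝ) (hρ : 0 < ρ) :
    ∃ τ : ℝ, 0 < τ ∧ ∀ p r, ‖U p r - U p q₀‖ < τ → r ∈ ball q₀ ρ := by
  obtain ⟨κ, hκ, Hκ⟩ := low_Chord U hc hs hn
  have hc0 : Continuous fun p => U p q₀ :=
    hc.comp_continuous (f := fun p : P => (p, q₀)) (by fun_prop) fun p => ⟨mem_univ _, hq⟩
  obtain ⟨M, hM⟩ := isCompact_univ.exists_bound_of_continuousOn hc0.continuousOn
  let K : Set (P × W × ℝ) :=
    (univ ×ˢ sphere (0 : W) 1 ×ˢ Icc 0 ((M + 1) / κ)) ∩ {a | ρ ≤ ‖a.2.2 • a.2.1 - q₀‖}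
  have hK : IsCompact K :=
    (isCompact_univ.prod ((isCompact_sphere _ _).prod isCompact_Icc)).inter_right
      (isClosed_le continuous_const (by fun_prop))
  have hne : ∀ a ∈ K, a.2.1 ≠ 0 := fun a ha h0 => by
    have := ha.1.2.1
    simp [h0] at this
  have hcont : ContinuousOn (fun a : P × W × ℝ => ‖a.2.2 • U a.1 a.2.1 - U a.1 q₀‖) K := by
    have c1 : ContinuousOn (fun a : P × W × ℝ => U a.1 a.2.1) K :=
      hc.comp (f := fun a : P × W × ℝ => (a.1, a.2.1)) (by fun_prop)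
        fun a ha => ⟨mem_univ _, hne a ha⟩
    have c2 : ContinuousOn (fun a : P × W × ℝ => U a.1 q₀) K :=
      (hc0.comp continuous_fst).continuousOn
    have c3 : ContinuousOn (fun a : P × W × ℝ => a.2.2) K := by fun_prop
    exact ((c3.smul c1).sub c2).norm
  obtain ⟨τ, hτ, H⟩ := hK.exists_forall_le' (a := 0) hcont fun a ha => by
    refine norm_pos_iff.2 (sub_ne_zero.2 fun e => ?_)
    rw [← hs] at e
    have h0 : a.2.2 • a.2.1 ≠ 0 := fun h0 => by
      have h1 := hs a.1 0 q₀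
      rw [zero_smul, zero_smul, ← h0, e] at h1
      exact hn _ _ hq h1
    have h2 := hi a.1 h0 hq e
    have h3 : ρ ≤ ‖a.2.2 • a.2.1 - q₀‖ := ha.2
    rw [h2, sub_self, norm_zero] at h3
    linarith
  refine ⟨min (min τ 1) (κ * ‖q₀‖), lt_min (lt_min hτ one_pos)
    (mul_pos hκ (norm_pos_iff.2 hq)), fun p r hr => ?_⟩
  have r1 : ‖U p r - U p q₀‖ < τ := hr.trans_le ((min_le_left _ _).trans (min_le_left _ _))
  have r2 : ‖U p r - U p q₀‖ < 1 := hr.trans_le ((min_le_left _ _).trans (min_le_right _ _))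
  have r3 : ‖U p r - U p q₀‖ < κ * ‖q₀‖ := hr.trans_le (min_le_right _ _)
  rcases eq_or_ne r 0 with rfl | hv
  · have h1 := hs p 0 q₀
    rw [zero_smul, zero_smul] at h1
    rw [h1, zero_sub, norm_neg] at r3
    linarith [Hκ p q₀]
  have hv' : 0 < ‖r‖ := norm_pos_iff.2 hv
  by_contra hb
  rw [mem_ball_iff_norm, not_lt] at hb
  have er : ‖r‖ • ‖r‖⁻¹ • r = r := by rw [smul_smul, mul_inv_cancel₀ hv'.ne', one_smul]
  have hb2 : ‖r‖ ≤ (M + 1) / κ := by
    rw [le_div_iff₀ hκ]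
    have h1 := Hκ p r
    have h2 := hM p (mem_univ _)
    have h3 := norm_sub_norm_le (U p r) (U p q₀)
    linarith
  have h4 := H (p, ‖r‖⁻¹ • r, ‖r‖) ⟨⟨mem_univ _, by simp [norm_smul, hv'.ne'], hv'.le, hb2⟩,
    by simpa only [mem_ofPred_eq, er] using hb⟩
  simp only [← hs, er] at h4
  linarith

lemma lin_Chord (U : P → W → V) (F : P → W → W →L[ℝ] V) (q₀ : W) (hq : q₀ ≠ 0)
    (hd : ∀ p q, q ≠ 0 → HasFDerivAt (U p) (F p q) q)
    (hc : ContinuousOn (fun a : P × W => F a.1 a.2) (univ ×ˢ {0}ᶜ)) (ε : ℝ) (hε : 0 < ε) :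
    ∃ ρ : ℝ, 0 < ρ ∧ ∀ p, ∀ a ∈ ball q₀ ρ, ∀ b ∈ ball q₀ ρ,
      ‖U p a - U p b - F p q₀ (a - b)‖ ≤ ε * ‖a - b‖ := by
  have hc0 : Continuous fun p => F p q₀ :=
    hc.comp_continuous (f := fun p : P => (p, q₀)) (by fun_prop) fun p => ⟨mem_univ _, hq⟩
  have ho : IsOpen ((univ : Set P) ×ˢ ({0}ᶜ : Set W)) := isOpen_univ.prod isOpen_compl_singleton
  have h1 : ∀ᶠ x in 𝓝 q₀, ∀ p ∈ (univ : Set P), ‖F p x - F p q₀‖ < ε := by
    refine isCompact_univ.eventually_forall_of_forall_eventually fun p _ => ?_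
    have h2 : ContinuousAt (fun a : P × W => F a.1 a.2) (p, q₀) :=
      hc.continuousAt (ho.mem_nhds ⟨mem_univ _, hq⟩)
    have h3 : ContinuousAt (fun z : W × P => ‖F z.2 z.1 - F z.2 q₀‖) (q₀, p) := by
      refine ContinuousAt.norm (ContinuousAt.sub ?_ (hc0.comp continuous_snd).continuousAt)
      exact ContinuousAt.comp (f := fun z : W × P => (z.2, z.1)) (x := (q₀, p)) h2 (by fun_prop)
    exact h3.eventually_lt continuousAt_const (by simpa using hε)
  have h4 : ∀ᶠ x in 𝓝 q₀, x ≠ 0 := isOpen_compl_singleton.mem_nhds hq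
  obtain ⟨ρ, hρ, H⟩ := Metric.eventually_nhds_iff_ball.1 (h1.and h4)
  refine ⟨ρ, hρ, fun p a ha b hb => ?_⟩
  exact (convex_ball q₀ ρ).norm_image_sub_le_of_norm_hasFDerivWithin_le' (f' := F p)
    (fun x hx => (hd p x (H x hx).2).hasFDerivWithinAt) (fun x hx => ((H x hx).1 p (mem_univ _)).le)
    hb ha

end

/-- The final estimate. -/
lemma fin_Chord (z z₁ z₂ c b₁ b₂ : ℂ) (u E t δ : ℝ) (hu : u ∈ Icc (0 : ℝ) 1) (hc : 1 / 2 ≤ ‖c‖)
    (h1 : ‖c - (((1 - u : ℝ) : ℂ) * b₁ + u * b₂)‖ ≤ E)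
    (h2 : ‖c * z - (((1 - u : ℝ) : ℂ) * (b₁ * z₁) + u * (b₂ * z₂))‖ ≤ E)
    (hb : ‖b₁ - b₂‖ ≤ t) (hz₁ : ‖z₁‖ ≤ δ) (hz₂ : ‖z₂‖ ≤ δ) (hδ : δ ≤ 1) :
    ‖z - (((1 - u : ℝ) : ℂ) * z₁ + u * z₂)‖ ≤ 4 * E + 2 * t * ‖z₁ - z₂‖ := by
  have hu0 : 0 ≤ u := hu.1
  have hu1 : 0 ≤ 1 - u := by linarith [hu.2]
  set w := ((1 - u : ℝ) : ℂ) * z₁ + u * z₂ with hw
  have hw1 : ‖w‖ ≤ 1 := by
    refine (norm_add_le _ _).trans ?_
    rw [norm_mul, norm_mul, norm_real, norm_real, Real.norm_of_nonneg hu0, Real.norm_of_nonneg hu1]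
    nlinarith
  have e : c * (z - w) = (c * z - (((1 - u : ℝ) : ℂ) * (b₁ * z₁) + u * (b₂ * z₂))) +
      ((u * (1 - u) : ℝ) : ℂ) * ((b₁ - b₂) * (z₁ - z₂)) -
      (c - (((1 - u : ℝ) : ℂ) * b₁ + u * b₂)) * w := by
    rw [hw]; push_cast; ring
  have hE : 0 ≤ E := (norm_nonneg _).trans h1
  have ht : 0 ≤ t := (norm_nonneg _).trans hb
  have a1 : ‖((u * (1 - u) : ℝ) : ℂ) * ((b₁ - b₂) * (z₁ - z₂))‖ ≤ t * ‖z₁ - z₂‖ := by
    rw [norm_mul, norm_mul, norm_real, Real.norm_of_nonneg (mul_nonneg hu0 hu1)]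
    have : u * (1 - u) ≤ 1 := by nlinarith
    have h3 : ‖b₁ - b₂‖ * ‖z₁ - z₂‖ ≤ t * ‖z₁ - z₂‖ := by gcongr
    have h4 : 0 ≤ ‖b₁ - b₂‖ * ‖z₁ - z₂‖ := by positivity
    nlinarith
  have a2 : ‖(c - (((1 - u : ℝ) : ℂ) * b₁ + u * b₂)) * w‖ ≤ E := by
    rw [norm_mul]
    calc _ ≤ E * 1 := by gcongr
      _ = E := mul_one E
  have a3 : ‖c‖ * ‖z - w‖ ≤ E + t * ‖z₁ - z₂‖ + E := by
    rw [← norm_mul, e]
    exact (norm_sub_le _ _).trans (add_le_add ((norm_add_le _ _).trans (add_le_add h2 a1)) a2)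
  have a4 := norm_nonneg (z - w)
  nlinarith

theorem chord : ChordStmt := by
  intro P _ _ U q₀ h hF hU hd η hη m hm
  obtain ⟨hc, F, hF1, hF2⟩ := hF
  have hq : q₀ ≠ 0 := by
    rintro rfl
    simp [det2] at hd
  have hD : ∀ p q, q ≠ 0 → HasFDerivAt (U p) (F p q) q := fun p q hq =>
    (hF1 p q hq).hasFDerivAt (isOpen_compl_singleton.mem_nhds hq)
  have hs : ∀ p (t : ℝ) q, U p (t • q) = t • U p q := fun p t q => by
    simpa only [Complex.coe_smul] using (hU p).1.2 (t : ℂ) q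
  have hc0 : Continuous fun p => F p q₀ :=
    ContinuousOn.comp_continuous (g := fun a : P × W => F a.1 a.2) hF2
      (f := fun p : P => (p, q₀)) (by fun_prop) fun p => ⟨mem_univ _, hq⟩
  obtain ⟨κ, hκ, Hκ⟩ := low_Chord (fun p v => F p q₀ v)
    ((hc0.comp continuous_fst).clm_apply continuous_snd).continuousOn
    (fun p t q => map_smul _ _ _) fun p q hq' e => by
      have hi := (hU p).2.1.imm q₀ hq
      rw [(hD p q₀ hq).fderiv] at hi
      exact hq' (hi (e.trans (map_zero _).symm))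
  obtain ⟨M₀, hM₀⟩ := isCompact_univ.exists_bound_of_continuousOn hc0.continuousOn
  obtain ⟨K, hK, HK⟩ := coord_Chord q₀ h hd
  set M := |M₀| + 1 with hM
  have hM1 : 1 ≤ M := by rw [hM]; linarith [abs_nonneg M₀]
  set L := 4 * M * (‖h‖ + 1) / m with hL
  have hL0 : 0 < L := by positivity
  set N := L * ‖q₀‖ + (2 + L) * ‖h‖ + 1 with hN
  have hN0 : 0 < N := by positivity
  set ε := min (min 1 (κ / 2)) (η * κ / (16 * K * N)) with hε
  have hε0 : 0 < ε := lt_min (lt_min one_pos (by positivity)) (by positivity)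
  have hε1 : ε ≤ 1 := (min_le_left _ _).trans (min_le_left _ _)
  have hε2 : ε ≤ κ / 2 := (min_le_left _ _).trans (min_le_right _ _)
  have hε3 : ε * (16 * K * N) ≤ η * κ := (le_div_iff₀ (by positivity)).1 (min_le_right _ _)
  obtain ⟨ρ₀, hρ₀, Hρ₀⟩ := lin_Chord U F q₀ hq hD hF2 ε hε0
  set ρ := min ρ₀ (1 / (2 * K)) with hρ
  have hρ0 : 0 < ρ := lt_min hρ₀ (by positivity)
  have hρ1 : ρ * (2 * K) ≤ 1 := (le_div_iff₀ (by positivity)).1 (min_le_right _ _)
  have Hρ : ∀ p, ∀ a ∈ ball q₀ ρ, ∀ b ∈ ball q₀ ρ,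
      ‖U p a - U p b - F p q₀ (a - b)‖ ≤ ε * ‖a - b‖ := fun p a ha b hb =>
    Hρ₀ p a (ball_subset_ball (min_le_left _ _) ha) b (ball_subset_ball (min_le_left _ _) hb)
  have Lip : ∀ p, ∀ a ∈ ball q₀ ρ, ∀ b ∈ ball q₀ ρ, ‖U p a - U p b‖ ≤ M * ‖a - b‖ := by
    intro p a ha b hb
    have h1 := Hρ p a ha b hb
    have h2 := (F p q₀).le_opNorm (a - b)
    have h3 := (hM₀ p (mem_univ _)).trans (le_abs_self M₀)
    have h4 := norm_sub_norm_le (U p a - U p b) (F p q₀ (a - b))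
    have h5 := norm_nonneg (a - b)
    rw [hM]
    linarith only [h1, h2, h4, mul_le_mul_of_nonneg_right h3 h5, mul_le_mul_of_nonneg_right hε1 h5]
  obtain ⟨τ, hτ, Hτ⟩ := inj_Chord U q₀ hq hc hs (fun p => (hU p).2.2) (fun p => (hU p).2.1.inj) ρ hρ0
  set δ := min (min 1 (ρ / (2 * N))) (min (τ / (2 * M * N)) (min (1 / L) (η / (8 * L)))) with hδ
  have hδ0 : 0 < δ := lt_min (lt_min one_pos (by positivity))
    (lt_min (by positivity) (lt_min (by positivity) (by positivity)))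
  have hδ1 : δ ≤ 1 := (min_le_left _ _).trans (min_le_left _ _)
  have hδ2 : δ * (2 * N) ≤ ρ :=
    (le_div_iff₀ (by positivity)).1 ((min_le_left _ _).trans (min_le_right _ _))
  have hδ3 : δ * (2 * M * N) ≤ τ :=
    (le_div_iff₀ (by positivity)).1 ((min_le_right _ _).trans (min_le_left _ _))
  have hδ4 : δ * L ≤ 1 := (le_div_iff₀ hL0).1
    ((min_le_right _ _).trans ((min_le_right _ _).trans (min_le_left _ _)))
  have hδ5 : δ * (8 * L) ≤ η := (le_div_iff₀ (by positivity)).1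
    ((min_le_right _ _).trans ((min_le_right _ _).trans (min_le_right _ _)))
  clear_value δ ρ ε
  refine ⟨δ, hδ0, fun p l z z₁ z₂ u hl hlm hz₁ hz₂ hu ⟨c, hcz⟩ => ?_⟩
  have nq := norm_nonneg q₀
  have nh := norm_nonneg h
  have hmL : m * L = 4 * M * (‖h‖ + 1) := by rw [hL]; field_simp
  have ball1 : ∀ w : ℂ, ‖w‖ ≤ δ → q₀ + w • h ∈ ball q₀ ρ := fun w hw => by
    rw [mem_ball_iff_norm, add_sub_cancel_left, norm_smul]
    have : ‖w‖ * ‖h‖ ≤ δ * ‖h‖ := by gcongr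
    have h2 : ‖h‖ ≤ N := by rw [hN]; linarith only [mul_nonneg hL0.le nq, mul_nonneg hL0.le nh, nh]
    have h3 : δ * ‖h‖ ≤ δ * N := by gcongr
    linarith only [this, h3, hδ2, hρ0]
  have lipl : ∀ w w' : ℂ, ‖w‖ ≤ δ → ‖w'‖ ≤ δ →
      4 * ‖l (U p (q₀ + w • h)) - l (U p (q₀ + w' • h))‖ ≤ m * L * ‖w - w'‖ := by
    intro w w' hw hw'
    have h1 := Lip p _ (ball1 w hw) _ (ball1 w' hw')
    rw [add_sub_add_left_eq_sub, ← sub_smul, norm_smul] at h1
    rw [← map_sub, hmL]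
    have h2 := l.le_opNorm (U p (q₀ + w • h) - U p (q₀ + w' • h))
    have h3 := norm_nonneg (U p (q₀ + w • h) - U p (q₀ + w' • h))
    have h4 := norm_nonneg (w - w')
    have h5 : 0 ≤ M * ‖w - w'‖ := by positivity
    linarith only [h1, h2, h5, mul_le_mul_of_nonneg_right hl h3]
  set a := l (U p q₀) with ha
  have la : ∀ w : ℂ, ‖w‖ ≤ δ → 4 * ‖l (U p (q₀ + w • h)) - a‖ ≤ m * L * δ := fun w hw => by
    have h1 := lipl w 0 hw (by simpa using hδ0.le)
    rw [zero_smul, add_zero, sub_zero] at h1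
    refine h1.trans ?_
    gcongr
  have low : ∀ w : ℂ, ‖w‖ ≤ δ → m / 2 ≤ ‖l (U p (q₀ + w • h))‖ := fun w hw => by
    have h1 := la w hw
    have h2 := norm_sub_norm_le a (l (U p (q₀ + w • h)))
    rw [norm_sub_rev] at h2
    have h3 : m * L * δ ≤ m := by linarith only [mul_le_mul_of_nonneg_left hδ4 hm.le]
    linarith
  set y₁ := l (U p (q₀ + z₁ • h)) with hy₁
  set y₂ := l (U p (q₀ + z₂ • h)) with hy₂
  have y1 : m / 2 ≤ ‖y₁‖ := low z₁ hz₁
  have y2 : m / 2 ≤ ‖y₂‖ := low z₂ hz₂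
  have y1' : y₁ ≠ 0 := norm_pos_iff.1 (by linarith)
  have y2' : y₂ ≠ 0 := norm_pos_iff.1 (by linarith)
  have near : ∀ y : ℂ, m / 2 ≤ ‖y‖ → 4 * ‖y - a‖ ≤ m * L * δ → ‖a / y - 1‖ ≤ L * δ := by
    intro y hy h1
    have hy0 : 0 < ‖y‖ := by linarith
    have hy' : y ≠ 0 := norm_pos_iff.1 hy0
    have : a / y - 1 = (a - y) / y := by field_simp
    rw [this, norm_div, div_le_iff₀ hy0, norm_sub_rev]
    have h2 : 0 ≤ L * δ := by positivity
    linarith only [h1, mul_le_mul_of_nonneg_left hy h2, mul_nonneg hm.le h2]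
  have b1 := near y₁ y1 (la z₁ hz₁)
  have b2 := near y₂ y2 (la z₂ hz₂)
  have b12 : ‖a / y₁ - a / y₂‖ ≤ L * ‖z₁ - z₂‖ * 1 ∧ ‖a / y₁‖ ≤ 2 ∧ ‖a / y₂‖ ≤ 2 := by
    have c1 : ‖a / y₁‖ ≤ 2 := by
      have := norm_sub_norm_le (a / y₁) 1
      rw [norm_one] at this
      linarith
    have c2 : ‖a / y₂‖ ≤ 2 := by
      have := norm_sub_norm_le (a / y₂) 1
      rw [norm_one] at this
      linarith
    refine ⟨?_, c1, c2⟩
    have e : a / y₁ - a / y₂ = a / y₁ * (y₂ - y₁) / y₂ := by field_simp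
    have hy0 : 0 < ‖y₂‖ := by linarith
    rw [e, norm_div, div_le_iff₀ hy0, norm_mul, norm_sub_rev]
    have h1 := lipl z₁ z₂ hz₁ hz₂
    rw [← hy₁, ← hy₂] at h1
    have h2 : 0 ≤ L * ‖z₁ - z₂‖ := by positivity
    have h3 : ‖a / y₁‖ * ‖y₁ - y₂‖ ≤ 2 * ‖y₁ - y₂‖ := by gcongr
    linarith only [h1, h3, mul_le_mul_of_nonneg_left y2 h2]
  obtain ⟨b12, c1, c2⟩ := b12
  rw [mul_one] at b12
  set b₁ := a / y₁ with hb₁
  set b₂ := a / y₂ with hb₂
  have rr : ∀ b w : ℂ, ‖b - 1‖ ≤ L * δ → ‖b‖ ≤ 2 → ‖w‖ ≤ δ →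
      ‖b • (q₀ + w • h) - q₀‖ ≤ N * δ := by
    intro b w hb hb2 hw
    have e : b • (q₀ + w • h) - q₀ = (b - 1) • q₀ + (b * w) • h := by module
    rw [e]
    refine (norm_add_le _ _).trans ?_
    rw [norm_smul, norm_smul, norm_mul, hN]
    have h1 : ‖b - 1‖ * ‖q₀‖ ≤ L * δ * ‖q₀‖ := by gcongr
    have h2 : ‖b‖ * ‖w‖ * ‖h‖ ≤ 2 * δ * ‖h‖ := by gcongr
    have h3 : 0 ≤ L * δ * ‖h‖ := by positivity
    linarith only [h1, h2, h3, hδ0]
  have r1 := rr b₁ z₁ b1 c1 hz₁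
  have r2 := rr b₂ z₂ b2 c2 hz₂
  have hNδ : N * δ < ρ := by linarith only [hδ2, hρ0]
  have r1' : b₁ • (q₀ + z₁ • h) ∈ ball q₀ ρ := mem_ball_iff_norm.2 (r1.trans_lt hNδ)
  have r2' : b₂ • (q₀ + z₂ • h) ∈ ball q₀ ρ := mem_ball_iff_norm.2 (r2.trans_lt hNδ)
  have hu0 : 0 ≤ u := hu.1
  have hu1 : 0 ≤ 1 - u := by linarith [hu.2]
  have eU : U p ((a * c) • (q₀ + z • h)) =
      (1 - u) • U p (b₁ • (q₀ + z₁ • h)) + u • U p (b₂ • (q₀ + z₂ • h)) := by
    rw [(hU p).1.2, (hU p).1.2, (hU p).1.2, mul_smul, hcz, ← Complex.coe_smul, ← Complex.coe_smul,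
      hb₁, hb₂, div_eq_mul_inv, div_eq_mul_inv]
    module
  have r0 : (a * c) • (q₀ + z • h) ∈ ball q₀ ρ := by
    refine Hτ p _ ?_
    have e : U p ((a * c) • (q₀ + z • h)) - U p q₀ =
        (1 - u) • (U p (b₁ • (q₀ + z₁ • h)) - U p q₀) + u • (U p (b₂ • (q₀ + z₂ • h)) - U p q₀) := by
      rw [eU]; module
    rw [e]
    refine (norm_add_le _ _).trans_lt ?_
    rw [norm_smul, norm_smul, Real.norm_of_nonneg hu0, Real.norm_of_nonneg hu1]
    have h1 : ‖U p (b₁ • (q₀ + z₁ • h)) - U p q₀‖ ≤ M * (N * δ) :=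
      (Lip p _ r1' _ (mem_ball_self hρ0)).trans (by gcongr)
    have h2 : ‖U p (b₂ • (q₀ + z₂ • h)) - U p q₀‖ ≤ M * (N * δ) :=
      (Lip p _ r2' _ (mem_ball_self hρ0)).trans (by gcongr)
    have h3 := mul_le_mul_of_nonneg_left h1 hu1
    have h4 := mul_le_mul_of_nonneg_left h2 hu0
    have h5 : 0 < M * (N * δ) := by positivity
    linarith only [h3, h4, h5, hδ3]
  have core := core_Chord (U p) (F p q₀) q₀ ρ κ ε hε0.le (Hρ p) (Hκ p) _ _ _ r0 r1' r2' u hu eU
  have d12 : ‖b₁ • (q₀ + z₁ • h) - b₂ • (q₀ + z₂ • h)‖ ≤ N * ‖z₁ - z₂‖ := by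
    have e : b₁ • (q₀ + z₁ • h) - b₂ • (q₀ + z₂ • h) =
        (b₁ - b₂) • q₀ + (b₁ * (z₁ - z₂)) • h + ((b₁ - b₂) * z₂) • h := by module
    rw [e]
    refine ((norm_add_le _ _).trans (add_le_add_left (norm_add_le _ _) _)).trans ?_
    rw [norm_smul, norm_smul, norm_smul, norm_mul, norm_mul, hN]
    have h0 := norm_nonneg (z₁ - z₂)
    have h1 : ‖b₁ - b₂‖ * ‖q₀‖ ≤ L * ‖z₁ - z₂‖ * ‖q₀‖ := by gcongr
    have h2 : ‖b₁‖ * ‖z₁ - z₂‖ * ‖h‖ ≤ 2 * ‖z₁ - z₂‖ * ‖h‖ := by gcongr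
    have h3 : ‖b₁ - b₂‖ * ‖z₂‖ * ‖h‖ ≤ L * ‖z₁ - z₂‖ * 1 * ‖h‖ := by
      have := hz₂.trans hδ1
      gcongr
    linarith only [h0, h1, h2, h3]
  have ec : (a * c) • (q₀ + z • h) - ((1 - u) • b₁ • (q₀ + z₁ • h) + u • b₂ • (q₀ + z₂ • h)) =
      (a * c - (((1 - u : ℝ) : ℂ) * b₁ + u * b₂)) • q₀ +
        (a * c * z - (((1 - u : ℝ) : ℂ) * (b₁ * z₁) + u * (b₂ * z₂))) • h := by
    rw [← Complex.coe_smul, ← Complex.coe_smul]; module
  obtain ⟨k1, k2⟩ := HK (a * c - (((1 - u : ℝ) : ℂ) * b₁ + u * b₂))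
    (a * c * z - (((1 - u : ℝ) : ℂ) * (b₁ * z₁) + u * (b₂ * z₂)))
  rw [← ec] at k1 k2
  have hac : 1 / 2 ≤ ‖a * c‖ := by
    have e : (a * c) • (q₀ + z • h) - q₀ = (a * c - 1) • q₀ + (a * c * z) • h := by module
    have h1 := (HK (a * c - 1) (a * c * z)).1
    rw [← e] at h1
    have h2 := mem_ball_iff_norm.1 r0
    have h3 := norm_sub_norm_le 1 (a * c)
    rw [norm_one, norm_sub_rev] at h3
    linarith only [h1, h3, hρ1, mul_le_mul_of_nonneg_left h2.le hK.le]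
  have t12 : ‖b₁ - b₂‖ ≤ 2 * (L * δ) := by
    have : b₁ - b₂ = (b₁ - 1) - (b₂ - 1) := by ring
    rw [this]
    exact (norm_sub_le _ _).trans (by linarith)
  refine (fin_Chord z z₁ z₂ (a * c) b₁ b₂ u _ _ δ hu hac k1 k2 t12 hz₁ hz₂ hδ1).trans ?_
  set E := ‖(a * c) • (q₀ + z • h) - ((1 - u) • b₁ • (q₀ + z₁ • h) + u • b₂ • (q₀ + z₂ • h))‖
  set Z := ‖z₁ - z₂‖
  have hE : 0 ≤ E := norm_nonneg _
  have hZ : 0 ≤ Z := norm_nonneg _
  have f1 : κ / 2 * E ≤ ε * (N * Z) := by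
    have h1 : κ / 2 * E ≤ (κ - ε) * E := by gcongr; linarith
    exact h1.trans (core.trans (by gcongr))
  have f2 : κ * (8 * K * E) ≤ κ * (η * Z) := by
    have h1 := mul_le_mul_of_nonneg_left f1 (by positivity : 0 ≤ 16 * K)
    have h2 := mul_le_mul_of_nonneg_right hε3 hZ
    linarith only [h1, h2]
  have f3 := le_of_mul_le_mul_left f2 hκ
  have f4 := mul_le_mul_of_nonneg_right hδ5 hZ
  linarith only [f3, f4]

end Pool.Agent.MP_2fc7fa_gt.N

end
end
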