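import Pool.Agent.Mg.F2fc7fa.Gd54744
import Mathlib

section

/-! Interface statements inside part B (Gromov theory), see PROOF.md. -/

open scoped ContDiff ComplexConjugate Topology
open Set Complex Filter Metric MeasureTheory

noncomputable section

namespace Pool.Agent.MP_2fc7fa_gt.N

section
variable {E : Type} [NormedAddCommGroup E] [NormedSpace ℂ E]

/-- The Cauchy transform. -/
def cT (h : ℂ → E) (z : ℂ) : E := ∫ ζ : ℂ, ((Real.pi : ℂ) * (z - ζ))⁻¹ • h ζ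

/-- The operator `∂ / ∂ z̄`. -/
def dbar (v : ℂ → E) (z : ℂ) : E := (1 / 2 : ℂ) • (fderiv ℝ v z 1 + I • fderiv ℝ v z I)

/-- The contour integral of `v dz` along the boundary of the rectangle `[a, b] × [c, d]`. -/
def rectInt (v : ℂ → E) (a b c d : ℝ) : E :=
  (∫ x in a..b, v (x + c * I)) - (∫ x in a..b, v (x + d * I)) +
    I • (∫ y in c..d, v (b + y * I)) - I • ∫ y in c..d, v (a + y * I)

end

/-- `h` is measurable, bounded by `M` and vanishes outside the ball of radius `R` about `c`. -/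
def Bdd {E : Type} [NormedAddCommGroup E] (h : ℂ → E) (c : ℂ) (R M : ℝ) : Prop :=
  AEStronglyMeasurable h volume ∧ (∀ z, ‖h z‖ ≤ M) ∧ ∀ z, R ≤ ‖z - c‖ → h z = 0

/-- Hoelder continuity with exponent one half on a set. -/
def Hol {E : Type} [NormedAddCommGroup E] (K : ℝ) (v : ℂ → E) (S : Set ℂ) : Prop :=
  ∀ z ∈ S, ∀ z' ∈ S, ‖v z - v z'‖ ≤ K * √‖z - z'‖

/-- B1: sup norm and Hoelder bounds of the Cauchy transform of a bounded function. -/
def T1Stmt : Prop := ∃ C : ℝ, 0 < C ∧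
  ∀ (E : Type) [NormedAddCommGroup E] [NormedSpace ℂ E] [CompleteSpace E] (h : ℂ → E) (c : ℂ)
    (R M : ℝ), 0 < R → Bdd h c R M →
    (∀ z, ‖cT h z‖ ≤ C * R * M) ∧ Hol (C * √R * M) (cT h) univ

/-- B1: the Cauchy transform solves the `∂̄` equation in integrated form. -/
def T4Stmt : Prop :=
  ∀ (E : Type) [NormedAddCommGroup E] [NormedSpace ℂ E] [CompleteSpace E] (h : ℂ → E) (c : ℂ)
    (R M : ℝ), Bdd h c R M → ∀ a b c' d : ℝ, a ≤ b → c' ≤ d →
    rectInt (cT h) a b c' d = (2 * I) • ∫ x in a..b, ∫ y in c'..d, h (x + y * I)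

/-- B1: local Pompeiu formula. -/
def T2Stmt : Prop :=
  ∀ (E : Type) [NormedAddCommGroup E] [NormedSpace ℂ E] [CompleteSpace E] (h v : ℂ → E) (c : ℂ)
    (R M : ℝ) (O : Set ℂ), Bdd h c R M → IsOpen O → ContDiffOn ℝ 1 v O →
    (∀ z ∈ O, dbar v z = h z) → DifferentiableOn ℂ (fun z => v z - cT h z) O

/-- B1: the Schauder estimate. -/
def T3Stmt : Prop := ∀ R : ℝ, 0 < R → ∃ C : ℝ, 0 < C ∧
  ∀ (E : Type) [NormedAddCommGroup E] [NormedSpace ℂ E] [CompleteSpace E] (h : ℂ → E) (c : ℂ)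
    (M K : ℝ), Bdd h c R M → 0 ≤ K → Hol K h univ →
    ContDiff ℝ 1 (cT h) ∧ (∀ z, dbar (cT h) z = h z) ∧
      (∀ z, ‖fderiv ℝ (cT h) z‖ ≤ C * (M + K)) ∧ Hol (C * (M + K)) (fderiv ℝ (cT h)) univ

/-- Green's formula on rectangles for the pull-back of a smooth 1-form by a `C¹` map. -/
def GreenStmt : Prop :=
  ∀ (E F : Type) [NormedAddCommGroup E] [NormedSpace ℝ E] [FiniteDimensional ℝ E]
    [NormedAddCommGroup F] [NormedSpace ℝ F] [CompleteSpace F]
    (β : E → E →L[ℝ] F) (Ω : Set E) (u : ℂ → E) (O : Set ℂ) (a b c d : ℝ),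
    IsOpen Ω → ContDiffOn ℝ 1 β Ω → IsOpen O → ContDiffOn ℝ 1 u O → MapsTo u O Ω → a ≤ b → c ≤ d →
    (∀ x ∈ Icc a b, ∀ y ∈ Icc c d, (x + y * I : ℂ) ∈ O) →
    (∫ x in a..b, β (u (x + c * I)) (fderiv ℝ u (x + c * I) 1)) -
      (∫ x in a..b, β (u (x + d * I)) (fderiv ℝ u (x + d * I) 1)) +
      (∫ y in c..d, β (u (b + y * I)) (fderiv ℝ u (b + y * I) I)) -
      (∫ y in c..d, β (u (a + y * I)) (fderiv ℝ u (a + y * I) I)) =
    ∫ x in a..b, ∫ y in c..d,
      (fderiv ℝ β (u (x + y * I)) (fderiv ℝ u (x + y * I) 1) (fderiv ℝ u (x + y * I) I) -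
        fderiv ℝ β (u (x + y * I)) (fderiv ℝ u (x + y * I) I) (fderiv ℝ u (x + y * I) 1))

/-- `A (u z) ∘ du` is complex linear on `O`: the Cauchy-Riemann equation in a coframe `A`. -/
def CR {E : Type} [NormedAddCommGroup E] [NormedSpace ℂ E] (A : E → E →L[ℝ] E) (u : ℂ → E)
    (O : Set ℂ) : Prop :=
  ∀ z ∈ O, A (u z) (fderiv ℝ u z I) = I • A (u z) (fderiv ℝ u z 1)

/-- A smooth coframe on the open set `Ω`. -/
def Cofr {E : Type} [NormedAddCommGroup E] [NormedSpace ℂ E] (A : E → E →L[ℝ] E) (Ω : Set E) :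
    Prop :=
  IsOpen Ω ∧ ContDiffOn ℝ ∞ A Ω ∧ ∀ x ∈ Ω, Function.Injective (A x)

/-- B2: `C¹` solutions are smooth. -/
def RegStmt : Prop :=
  ∀ (E : Type) [NormedAddCommGroup E] [NormedSpace ℂ E] [FiniteDimensional ℂ E]
    (A : E → E →L[ℝ] E) (Ω : Set E) (u : ℂ → E) (O : Set ℂ), Cofr A Ω → IsOpen O →
    ContDiffOn ℝ 1 u O → MapsTo u O Ω → CR A u O → ContDiffOn ℝ ∞ u O

/-- Lines are smooth. -/
def LineSmoothStmt : Prop :=
  ∀ (φ : Fr) (U : W → V), IsLine φ.J U → ContDiffOn ℝ ∞ U {0}ᶜ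

/-- B2: a priori Lipschitz bound of the derivative, locally uniform in a family of frames. -/
def EstStmt : Prop :=
  ∀ (P : Type) [TopologicalSpace P] (φ : P → Fr) (p₀ : P) (M r : ℝ), FrFam φ → 0 < r →
    ∃ C : ℝ, ∀ᶠ p in 𝓝 p₀, ∀ (u : ℂ → V) (c : ℂ), ContDiffOn ℝ 1 u (ball c (2 * r)) →
      CR (φ p).A u (ball c (2 * r)) →
      (∀ z ∈ ball c (2 * r), 1 ≤ M * ‖u z‖ ∧ ‖u z‖ ≤ M ∧ ‖fderiv ℝ u z‖ ≤ M) →
      ∀ z ∈ ball c r, ∀ z' ∈ ball c r, ‖fderiv ℝ u z - fderiv ℝ u z'‖ ≤ C * ‖z - z'‖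

/-- B3: Hartman-Wintner on a punctured disc. -/
def HWStmt : Prop :=
  ∀ (E : Type) [NormedAddCommGroup E] [NormedSpace ℂ E] [CompleteSpace E] (v : ℂ → E) (c : ℂ)
    (r C M : ℝ), 0 < r → ContDiffOn ℝ 1 v (ball c r \ {c}) →
    (∀ z ∈ ball c r \ {c}, ‖v z‖ ≤ M ∧ ‖dbar v z‖ ≤ C * ‖v z‖) →
    (∀ᶠ z in 𝓝[≠] c, v z = 0) ∨
      ∃ (k : ℕ) (a : E), a ≠ 0 ∧ Tendsto (fun z => ((z - c) ^ k)⁻¹ • v z) (𝓝[≠] c) (𝓝 a)

/-- B3: a section of `O(1)` that satisfies a Cauchy-Riemann inequality and has two zeros, or a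
double zero, vanishes. -/
def ZeroStmt : Prop :=
  ∀ n : W → ℂ, ContDiffOn ℝ 1 n {0}ᶜ → (∀ (c : ℂ) q, n (c • q) = c * n q) →
    (∃ C : ℝ, ∀ q, ‖q‖ = 1 → ∀ h,
      ‖fderiv ℝ n q (I • h) - I * fderiv ℝ n q h‖ ≤ C * ‖n q‖ * ‖h‖) →
    n (1, 0) = 0 → (n (0, 1) = 0 ∨ fderiv ℝ n (1, 0) (0, 1) = 0) → ∀ q, n q = 0

/-- `C¹` closeness on the unit sphere. -/
def Near (ε : ℝ) (U U' : W → V) : Prop :=
  ∀ q, ‖q‖ = 1 → ‖U q - U' q‖ ≤ ε ∧ ‖fderiv ℝ U q - fderiv ℝ U' q‖ ≤ ε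

/-- `C¹` convergence. -/
def Conv (U : ℕ → W → V) (U' : W → V) : Prop := ∀ ε : ℝ, 0 < ε → ∀ᶠ n in atTop, Near ε (U n) U'

/-- The two kinds of constraints: the jet at `(1, 0)`, or the values at `(1, 0)` and `(0, 1)`. -/
def con (b : Bool) (U : W → V) : V × V := if b then (U (1, 0), U (0, 1)) else jet U

/-- Being embedded is an open condition. -/
def EmbOpenStmt : Prop :=
  ∀ U₀ : W → V, ContDiffOn ℝ 1 U₀ {0}ᶜ → (∀ (c : ℂ) q, U₀ (c • q) = c • U₀ q) →
    (∀ q, q ≠ 0 → U₀ q ≠ 0) → IsEmb U₀ → ∃ ε : ℝ, 0 < ε ∧ ∀ U : W → V, ContDiffOn ℝ 1 U {0}ᶜ →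
      (∀ (c : ℂ) q, U (c • q) = c • U q) → Near ε U U₀ → IsEmb U

/-- B4: the kernel of the linearised operator with constraints is trivial. Here `η` is the
variation `ξ = δU` itself and the hypothesis is the derivative of the equation
`A (U) dU (I h) = I A (U) dU h` in the direction `ξ`. -/
def KerStmt : Prop :=
  ∀ (φ : Fr) (U ξ : W → V) (b : Bool), IsLine φ.J U → IsEmb U → ContDiffOn ℝ 1 ξ {0}ᶜ →
    (∀ (c : ℂ) q, ξ (c • q) = c • ξ q) →
    (∀ q, q ≠ 0 → ∀ h,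
      fderiv ℝ φ.A (U q) (ξ q) (fderiv ℝ U q (I • h)) + φ.A (U q) (fderiv ℝ ξ q (I • h)) =
      I • (fderiv ℝ φ.A (U q) (ξ q) (fderiv ℝ U q h) + φ.A (U q) (fderiv ℝ ξ q h))) →
    con b ξ = 0 → ∀ q, ξ q = 0

/-- B4: the implicit function theorem for embedded lines. -/
def IFTStmt : Prop :=
  ∀ (P : Type) [TopologicalSpace P] (φ : P → Fr) (p₀ : P) (U₀ : W → V) (b : Bool), FrFam φ →
    IsLine (φ p₀).J U₀ → IsEmb U₀ →
    ∃ N ∈ 𝓝 (p₀, con b U₀), ∃ ε : ℝ, 0 < ε ∧ ∃ S : P × (V × V) → W → V,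
      Fam {0}ᶜ 1 V (fun a : N => S a) ∧ S (p₀, con b U₀) = U₀ ∧
      (∀ a ∈ N, IsLine (φ a.1).J (S a) ∧ IsEmb (S a) ∧ con b (S a) = a.2) ∧
      ∀ a ∈ N, ∀ U, IsLine (φ a.1).J U → con b U = a.2 → Near ε U U₀ → U = S a

/-- The energy density of `u : ℂ → ℂ³ ∖ 0`. -/
def dens (σ : Symp 1) (u : ℂ → V) (z : ℂ) : ℝ := σ.form (u z) ![fderiv ℝ u z 1, fderiv ℝ u z I]

/-- B5: the energy of a line. -/
def EnLineStmt : Prop :=
  ∀ (φ : Fr) (σ : Symp 1) (U : W → V), IsLine φ.J U →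
    Integrable (dens σ fun z => U (1, z)) ∧ ∫ z, dens σ (fun z => U (1, z)) z = 2 * Real.pi

/-- B5: quantisation of the energy of entire curves. -/
def EnPlaneStmt : Prop :=
  ∀ (φ : Fr) (σ : Symp 1) (u : ℂ → V), Tame φ.J σ → ContDiff ℝ 1 u → (∀ z, u z ≠ 0) →
    CR φ.A u univ → Integrable (dens σ u) → ∃ k : ℤ, ∫ z, dens σ u z = 2 * Real.pi * k

/-- B6: compactness modulo reparametrisation. -/
def CompactStmt : Prop :=
  ∀ (P : Type) [TopologicalSpace P] (φ : P → Fr) (om : P → Symp 1) (p : ℕ → P) (p₀ : P)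
    (U : ℕ → W → V), FrFam φ → Continuous om → (∀ a, Tame (φ a).J (om a)) →
    Tendsto p atTop (𝓝 p₀) → (∀ n, IsLine (φ (p n)).J (U n)) →
    ∃ (ψ : ℕ → ℕ) (g : ℕ → W ≃L[ℂ] W) (U' : W → V), StrictMono ψ ∧ IsLine (φ p₀).J U' ∧
      Conv (fun n => U (ψ n) ∘ g n) U'

/-- Degree theory: a map with finitely many zeros, at least one, all with invertible complex
linear derivative, cannot be deformed to a map without zeros through maps without zeros on the
frontier. -/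
def DegStmt : Prop :=
  ∀ (E : Type) [NormedAddCommGroup E] [NormedSpace ℂ E] [FiniteDimensional ℂ E] (K : Set E)
    (H : ℝ → E → E), IsCompact K → ContinuousOn (fun a : ℝ × E => H a.1 a.2) (Icc 0 1 ×ˢ K) →
    (∀ s ∈ Icc (0 : ℝ) 1, ∀ x ∈ frontier K, H s x ≠ 0) →
    {x ∈ K | H 1 x = 0}.Finite → {x ∈ K | H 1 x = 0}.Nonempty →
    (∀ x ∈ K, H 1 x = 0 → ∃ L : E ≃L[ℂ] E,
      HasFDerivAt (H 1) ((L : E →L[ℂ] E).restrictScalars ℝ) x) →
    ∃ x ∈ K, H 0 x = 0

/-- B7: the difference lemma, in a two-dimensional chart. `x` solves the Cauchy-Riemann equation,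
`x'` moves in complex lines of slope at most `S`, and their difference is vertical. -/
def DiffStmt : Prop :=
  ∀ (A : W → W →L[ℝ] W) (Ω K : Set W) (S M : ℝ), Cofr A Ω → IsCompact K → Convex ℝ K → K ⊆ Ω →
    ∃ C : ℝ, ∀ (x x' : ℂ → W) (z : ℂ), DifferentiableAt ℝ x z → DifferentiableAt ℝ x' z →
      x z ∈ K → x' z ∈ K → ‖fderiv ℝ x z‖ ≤ M → ‖fderiv ℝ x' z‖ ≤ M → CR A x {z} →
      (∃ l : ℂ, ‖l‖ ≤ S ∧ ∀ h, (A (x' z) (fderiv ℝ x' z h)).2 = l * (A (x' z) (fderiv ℝ x' z h)).1) →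
      (∀ᶠ t in 𝓝 z, (A (x t) (x' t - x t)).1 = 0) →
      ‖dbar (fun t => (A (x t) (x' t - x t)).2) z‖ ≤ C * ‖(A (x z) (x' z - x z)).2‖

/-- B7: an intersection of an immersed branch with another curve persists, unless the second
curve is locally contained in the first. -/
def PersistStmt : Prop :=
  ∀ (A : W → W →L[ℝ] W) (Ω : Set W) (u w : ℂ → W) (z₀ ζ₀ : ℂ) (r : ℝ), Cofr A Ω → 0 < r →
    ContDiffOn ℝ ∞ u (ball z₀ r) → ContDiffOn ℝ ∞ w (ball ζ₀ r) → MapsTo u (ball z₀ r) Ω →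
    MapsTo w (ball ζ₀ r) Ω → CR A u (ball z₀ r) → CR A w (ball ζ₀ r) → u z₀ = w ζ₀ →
    fderiv ℝ u z₀ 1 ≠ 0 →
    (∀ᶠ ζ in 𝓝 ζ₀, w ζ ∈ u '' ball z₀ r) ∨
      (∃ δ' : ℝ, 0 < δ' ∧ ∀ᶠ ζ in 𝓝[≠] ζ₀, w ζ ∉ u '' ball z₀ δ') ∧
      ∀ δ : ℝ, 0 < δ → ∃ ε : ℝ, 0 < ε ∧ ∀ u' w' : ℂ → W, ContinuousOn u' (ball z₀ r) →
        ContinuousOn w' (ball ζ₀ r) → (∀ z ∈ ball z₀ r, ‖u' z - u z‖ ≤ ε) →
        (∀ ζ ∈ ball ζ₀ r, ‖w' ζ - w ζ‖ ≤ ε) → ∃ z ∈ ball z₀ δ, ∃ ζ ∈ ball ζ₀ δ, u' z = w' ζ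

/-- B7: an injective limit of embedded curves has no cusp. -/
def CuspStmt : Prop :=
  ∀ (A : W → W →L[ℝ] W) (An : ℕ → W → W →L[ℝ] W) (Ω : Set W) (u : ℂ → W) (un : ℕ → ℂ → W)
    (r : ℝ), Cofr A Ω → (∀ n, Cofr (An n) Ω) → TendstoLocallyUniformlyOn An A atTop Ω → 0 < r →
    ContDiffOn ℝ ∞ u (ball 0 r) → MapsTo u (ball 0 r) Ω → CR A u (ball 0 r) →
    InjOn u (ball 0 r) →
    (∀ n, ContDiffOn ℝ 1 (un n) (ball 0 r) ∧ MapsTo (un n) (ball 0 r) Ω ∧
      CR (An n) (un n) (ball 0 r) ∧ InjOn (un n) (ball 0 r) ∧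
      ∀ z ∈ ball (0 : ℂ) r, fderiv ℝ (un n) z 1 ≠ 0) →
    TendstoUniformlyOn un u atTop (ball 0 r) →
    TendstoUniformlyOn (fun n => fderiv ℝ (un n)) (fderiv ℝ u) atTop (ball 0 r) →
    fderiv ℝ u 0 1 ≠ 0

end Pool.Agent.MP_2fc7fa_gt.N

end
end

section

open scoped Topology Interval
open Set Complex Filter MeasureTheory

namespace Pool.Agent.MP_2fc7fa_gt.N

section
variable {E F : Type} [NormedAddCommGroup E] [NormedSpace ℝ E] [NormedAddCommGroup F]
  [NormedSpace ℝ F] {a b c d : ℝ}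

/-- joint continuity on the rectangle -/
def Rc_Green (a b c d : ℝ) {G : Type} [TopologicalSpace G] (f : ℝ → ℝ → G) : Prop :=
  ContinuousOn (fun q : ℝ × ℝ => f q.1 q.2) (Icc a b ×ˢ Icc c d)

lemma right_Green {G : Type} [TopologicalSpace G] {f : ℝ → ℝ → G} (h : Rc_Green a b c d f)
    {x : ℝ} (hx : x ∈ Icc a b) : ContinuousOn (f x) (Icc c d) :=
  ContinuousOn.comp (g := fun q : ℝ × ℝ => f q.1 q.2) h (Continuous.prodMk_right x).continuousOn
    fun _ hy => ⟨hx, hy⟩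

lemma left_Green {G : Type} [TopologicalSpace G] {f : ℝ → ℝ → G} (h : Rc_Green a b c d f)
    {y : ℝ} (hy : y ∈ Icc c d) : ContinuousOn (fun x => f x y) (Icc a b) :=
  ContinuousOn.comp (g := fun q : ℝ × ℝ => f q.1 q.2) h (Continuous.prodMk_left y).continuousOn
    fun _ hx => ⟨hx, hy⟩

omit [NormedSpace ℝ E] in
lemma bound_Green {f : ℝ → ℝ → E} (h : Rc_Green a b c d f) :
    ∃ M, 0 ≤ M ∧ ∀ x ∈ Icc a b, ∀ y ∈ Icc c d, ‖f x y‖ ≤ M := by
  obtain ⟨M, hM⟩ := (isCompact_Icc.prod isCompact_Icc).exists_bound_of_continuousOn h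
  exact ⟨max M 0, le_max_right _ _, fun x hx y hy => (hM (x, y) ⟨hx, hy⟩).trans (le_max_left _ _)⟩

omit [NormedSpace ℝ E] in
lemma meas_Green (hcd : c ≤ d) {f : ℝ → E} (h : ContinuousOn f (Icc c d)) :
    AEStronglyMeasurable f (volume.restrict (Ι c d)) :=
  (intervalIntegrable_iff.1 (h.intervalIntegrable_of_Icc hcd)).aestronglyMeasurable

lemma cont_Green (hcd : c ≤ d) {f : ℝ → ℝ → F} (h : Rc_Green a b c d f) :
    ContinuousOn (fun x => ∫ y in c..d, f x y) (Icc a b) := fun x hx => by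
  obtain ⟨M, -, hM⟩ := bound_Green h
  have hs : Ι c d ⊆ Icc c d := by
    rw [uIoc_of_le hcd]
    exact Ioc_subset_Icc_self
  refine intervalIntegral.continuousWithinAt_of_dominated_interval (bound := fun _ => M) ?_ ?_
    intervalIntegrable_const (ae_of_all _ fun y hy => left_Green h (hs hy) x hx)
  · filter_upwards [self_mem_nhdsWithin] with t ht using meas_Green hcd (right_Green h ht)
  · filter_upwards [self_mem_nhdsWithin] with t ht using ae_of_all _ fun y hy => hM t ht y (hs hy)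

lemma prod_Green {φ : ℝ → E →L[ℝ] F} {φ' : E →L[ℝ] F} {w : ℝ → E} {x : ℝ}
    (h : HasDerivAt φ φ' x) (hw : ContinuousAt w x) :
    HasDerivAt (fun t => (φ t - φ x) (w t)) (φ' (w x)) x := by
  rw [hasDerivAt_iff_tendsto_slope] at h ⊢
  refine (((isBoundedBilinearMap_apply (𝕜 := ℝ) (E := E) (F := F)).continuous.tendsto
    (φ', w x)).comp (h.prodMk_nhds (hw.tendsto.mono_left nhdsWithin_le_nhds))).congr fun t => ?_
  simp [slope]

lemma par_Green (hcd : c ≤ d) {f : ℝ → ℝ → F} {f' : ℝ → F} {x C : ℝ} (hx : x ∈ Ioo a b)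
    (h : ∀ t ∈ Icc a b, ContinuousOn (f t) (Icc c d))
    (hl : ∀ t ∈ Icc a b, ∀ y ∈ Icc c d, ‖f t y - f x y‖ ≤ C * ‖t - x‖)
    (hd : ∀ y ∈ Icc c d, HasDerivAt (fun t => f t y) (f' y) x) :
    HasDerivAt (fun t => ∫ y in c..d, f t y) (∫ y in c..d, f' y) x := by
  have hs : Ι c d ⊆ Icc c d := by
    rw [uIoc_of_le hcd]
    exact Ioc_subset_Icc_self
  have hn : ∀ᶠ t in 𝓝[≠] x, t ∈ Icc a b := nhdsWithin_le_nhds (Icc_mem_nhds hx.1 hx.2)
  have hx' := Ioo_subset_Icc_self hx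
  rw [hasDerivAt_iff_tendsto_slope]
  refine (intervalIntegral.tendsto_integral_filter_of_dominated_convergence (μ := volume)
    (F := fun t y => (t - x)⁻¹ • (f t y - f x y)) (fun _ => C) ?_ ?_ intervalIntegrable_const
    (ae_of_all _ fun y hy => hasDerivAt_iff_tendsto_slope.1 (hd y (hs hy)))).congr' ?_
  · filter_upwards [hn] with t ht using
      meas_Green hcd (((h t ht).sub (h x hx')).const_smul (t - x)⁻¹)
  · filter_upwards [hn, self_mem_nhdsWithin] with t ht htx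
    refine ae_of_all _ fun y hy => ?_
    rw [norm_smul, norm_inv, inv_mul_le_iff₀ (norm_pos_iff.2 (sub_ne_zero.2 htx)), mul_comm]
    exact hl t ht y (hs hy)
  · filter_upwards [hn] with t ht
    rw [intervalIntegral.integral_smul, intervalIntegral.integral_sub
      ((h t ht).intervalIntegrable_of_Icc hcd) ((h x hx').intervalIntegrable_of_Icc hcd)]
    rfl

variable [CompleteSpace F] {U Ux Uy : ℝ → ℝ → E} {B Bx By : ℝ → ℝ → E →L[ℝ] F}

lemma var_Green (hcd : c ≤ d)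
    (hU : ∀ x ∈ Icc a b, ∀ y ∈ Icc c d,
      HasDerivAt (fun t => U t y) (Ux x y) x ∧ HasDerivAt (U x) (Uy x y) y)
    (hB : ∀ x ∈ Icc a b, ∀ y ∈ Icc c d,
      HasDerivAt (fun t => B t y) (Bx x y) x ∧ HasDerivAt (B x) (By x y) y)
    (cU : Rc_Green a b c d U) (cUx : Rc_Green a b c d Ux) (cUy : Rc_Green a b c d Uy)
    (cB : Rc_Green a b c d B) (cBx : Rc_Green a b c d Bx) (cBy : Rc_Green a b c d By)
    {x : ℝ} (hx : x ∈ Ioo a b) :
    HasDerivAt (fun t => ∫ y in c..d, B t y (Uy t y))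
      ((∫ y in c..d, (Bx x y (Uy x y) - By x y (Ux x y))) +
        (B x d (Ux x d) - B x c (Ux x c))) x := by
  have hx' := Ioo_subset_Icc_self hx
  have hn : Icc a b ∈ 𝓝 x := Icc_mem_nhds hx.1 hx.2
  obtain ⟨M1, -, h1⟩ := bound_Green cUx
  obtain ⟨M2, p2, h2⟩ := bound_Green cUy
  obtain ⟨M3, p3, h3⟩ := bound_Green cBx
  obtain ⟨M4, p4, h4⟩ := bound_Green cBy
  have hf := par_Green (f := fun t y => (B t y - B x y) (Uy t y) - By x y (U t y))
    (f' := fun y => Bx x y (Uy x y) - By x y (Ux x y)) (C := M3 * M2 + M4 * M1) hcd hx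
    (fun t ht => (((right_Green cB ht).sub (right_Green cB hx')).clm_apply
      (right_Green cUy ht)).sub ((right_Green cBy hx').clm_apply (right_Green cU ht)))
    (fun t ht y hy => by
      have a1 := (convex_Icc a b).norm_image_sub_le_of_norm_hasDerivWithin_le
        (fun s hs => (hU s hs y hy).1.hasDerivWithinAt) (fun s hs => h1 s hs y hy) hx' ht
      have a2 := (convex_Icc a b).norm_image_sub_le_of_norm_hasDerivWithin_le
        (fun s hs => (hB s hs y hy).1.hasDerivWithinAt) (fun s hs => h3 s hs y hy) hx' ht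
      have a3 := (B t y - B x y).le_of_opNorm_le_of_le a2 (h2 t ht y hy)
      have a4 := (By x y).le_of_opNorm_le_of_le (h4 x hx' y hy) a1
      have e : (B t y - B x y) (Uy t y) - By x y (U t y) -
          ((B x y - B x y) (Uy x y) - By x y (U x y)) =
          (B t y - B x y) (Uy t y) - By x y (U t y - U x y) := by
        rw [sub_self, ContinuousLinearMap.zero_apply, map_sub]
        abel
      rw [e]
      refine (norm_sub_le _ _).trans ((add_le_add a3 a4).trans_eq ?_)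
      ring)
    fun y hy => (prod_Green (hB x hx' y hy).1 ((left_Green cUy hy).continuousAt hn)).sub
      ((By x y).hasFDerivAt.comp_hasDerivAt x (hU x hx' y hy).1)
  refine (hf.add (((B x d).hasFDerivAt.comp_hasDerivAt x
    (hU x hx' d (right_mem_Icc.2 hcd)).1).sub ((B x c).hasFDerivAt.comp_hasDerivAt x
    (hU x hx' c (left_mem_Icc.2 hcd)).1))).congr_of_eventuallyEq ?_
  filter_upwards [hn] with t ht
  have i1 := ((right_Green cBy hx').clm_apply (right_Green cU ht)).add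
    ((right_Green cB hx').clm_apply (right_Green cUy ht))
  have e := intervalIntegral.integral_eq_sub_of_hasDerivAt (a := c) (b := d)
    (f := fun y => B x y (U t y)) (f' := fun y => By x y (U t y) + B x y (Uy t y))
    (fun y hy => (hB x hx' y (uIcc_of_le hcd ▸ hy)).2.clm_apply
      (hU t ht y (uIcc_of_le hcd ▸ hy)).2) (i1.intervalIntegrable_of_Icc hcd)
  refine Eq.trans ?_ (congrArg (_ + ·) e)
  refine Eq.trans ?_ (intervalIntegral.integral_add
    (ContinuousOn.intervalIntegrable_of_Icc hcd ((((right_Green cB ht).sub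
      (right_Green cB hx')).clm_apply (right_Green cUy ht)).sub
      ((right_Green cBy hx').clm_apply (right_Green cU ht)))) (i1.intervalIntegrable_of_Icc hcd))
  refine intervalIntegral.integral_congr fun y _ => ?_
  simp only [ContinuousLinearMap.sub_apply, Pi.add_apply, Pi.sub_apply]
  abel

lemma main_Green (hab : a ≤ b) (hcd : c ≤ d)
    (hU : ∀ x ∈ Icc a b, ∀ y ∈ Icc c d,
      HasDerivAt (fun t => U t y) (Ux x y) x ∧ HasDerivAt (U x) (Uy x y) y)
    (hB : ∀ x ∈ Icc a b, ∀ y ∈ Icc c d,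
      HasDerivAt (fun t => B t y) (Bx x y) x ∧ HasDerivAt (B x) (By x y) y)
    (cU : Rc_Green a b c d U) (cUx : Rc_Green a b c d Ux) (cUy : Rc_Green a b c d Uy)
    (cB : Rc_Green a b c d B) (cBx : Rc_Green a b c d Bx) (cBy : Rc_Green a b c d By) :
    (∫ x in a..b, B x c (Ux x c)) - (∫ x in a..b, B x d (Ux x d)) +
      (∫ y in c..d, B b y (Uy b y)) - (∫ y in c..d, B a y (Uy a y)) =
      ∫ x in a..b, ∫ y in c..d, (Bx x y (Uy x y) - By x y (Ux x y)) := by
  have i1 : IntervalIntegrable (fun x => ∫ y in c..d, (Bx x y (Uy x y) - By x y (Ux x y)))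
      volume a b := (cont_Green hcd (f := fun x y => Bx x y (Uy x y) - By x y (Ux x y))
        ((cBx.clm_apply cUy).sub (cBy.clm_apply cUx))).intervalIntegrable_of_Icc hab
  have i2 : ∀ y ∈ Icc c d, IntervalIntegrable (fun x => B x y (Ux x y)) volume a b := fun y hy =>
    ((left_Green cB hy).clm_apply (left_Green cUx hy)).intervalIntegrable_of_Icc hab
  have i3 := i2 d (right_mem_Icc.2 hcd)
  have i4 := i2 c (left_mem_Icc.2 hcd)
  have e := intervalIntegral.integral_eq_sub_of_hasDerivAt_of_le hab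
    (cont_Green hcd (f := fun x y => B x y (Uy x y)) (cB.clm_apply cUy))
    (fun x hx => var_Green hcd hU hB cU cUx cUy cB cBx cBy hx) (i1.add (i3.sub i4))
  rw [intervalIntegral.integral_add i1 (i3.sub i4), intervalIntegral.integral_sub i3 i4] at e
  rw [add_sub_assoc, ← e]
  abel

end

theorem green : GreenStmt := by
  intro E F _ _ _ _ _ _ β Ω u O a b c d hΩ hβ hO hu hm hab hcd hR
  have hp : ContinuousOn (fun q : ℝ × ℝ => (q.1 + q.2 * I : ℂ)) (Icc a b ×ˢ Icc c d) := by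
    fun_prop
  have hpO : MapsTo (fun q : ℝ × ℝ => (q.1 + q.2 * I : ℂ)) (Icc a b ×ˢ Icc c d) O :=
    fun q hq => hR _ hq.1 _ hq.2
  have c1 := hu.continuousOn.comp hp hpO
  have c2 := (hu.continuousOn_fderiv_of_isOpen hO le_rfl).comp hp hpO
  have c3 := hβ.continuousOn.comp c1 (hm.comp hpO)
  have c4 := (hβ.continuousOn_fderiv_of_isOpen hΩ le_rfl).comp c1 (hm.comp hpO)
  have c5 := c2.clm_apply (continuousOn_const (c := (1 : ℂ)))
  have c6 := c2.clm_apply (continuousOn_const (c := I))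
  have hU : ∀ x ∈ Icc a b, ∀ y ∈ Icc c d,
      HasDerivAt (fun t : ℝ => u (t + y * I)) (fderiv ℝ u (x + y * I) 1) x ∧
      HasDerivAt (fun t : ℝ => u (x + t * I)) (fderiv ℝ u (x + y * I) I) y := fun x hx y hy => by
    have h1 := ((hu.differentiableOn one_ne_zero).differentiableAt
      (hO.mem_nhds (hR x hx y hy))).hasFDerivAt
    have h2 : HasDerivAt (fun t : ℝ => (t + y * I : ℂ)) 1 x :=
      (ofRealCLM.hasDerivAt (x := x)).add_const _
    have h3 : HasDerivAt (fun t : ℝ => (x + t * I : ℂ)) I y := by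
      simpa using ((ofRealCLM.hasDerivAt (x := y)).mul_const I).const_add (x : ℂ)
    exact ⟨h1.comp_hasDerivAt x h2, h1.comp_hasDerivAt y h3⟩
  refine main_Green (U := fun x y => u (x + y * I)) (B := fun x y => β (u (x + y * I)))
    (Ux := fun x y => fderiv ℝ u (x + y * I) 1) (Uy := fun x y => fderiv ℝ u (x + y * I) I)
    (Bx := fun x y => fderiv ℝ β (u (x + y * I)) (fderiv ℝ u (x + y * I) 1))
    (By := fun x y => fderiv ℝ β (u (x + y * I)) (fderiv ℝ u (x + y * I) I)) hab hcd hU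
    (fun x hx y hy => ?_) c1 c5 c6 c3 (c4.clm_apply c5) (c4.clm_apply c6)
  have h1 := ((hβ.differentiableOn one_ne_zero).differentiableAt
    (hΩ.mem_nhds (hm (hR x hx y hy)))).hasFDerivAt
  exact ⟨h1.comp_hasDerivAt x (hU x hx y hy).1, h1.comp_hasDerivAt y (hU x hx y hy).2⟩

end Pool.Agent.MP_2fc7fa_gt.N

end

section

/-! Local regularity from the integrated form of the inhomogeneous Cauchy-Riemann equation. -/

open scoped ContDiff ComplexConjugate Topology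
open Set Complex Filter Metric MeasureTheory

noncomputable section

namespace Pool.Agent.MP_2fc7fa_gt.N

section
variable {E : Type} [NormedAddCommGroup E] [NormedSpace ℂ E]

theorem rectInt_swap1_Reg (v : ℂ → E) (a b c d : ℝ) :
    rectInt v b a c d = - rectInt v a b c d := by
  simp only [rectInt, intervalIntegral.integral_symm a b]
  abel

theorem rectInt_swap2_Reg (v : ℂ → E) (a b c d : ℝ) :
    rectInt v a b d c = - rectInt v a b c d := by
  simp only [rectInt, intervalIntegral.integral_symm c d, smul_neg]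
  abel

theorem morera_Reg [CompleteSpace E] {f : ℂ → E} {U : Set ℂ} (hU : IsOpen U)
    (hf : ContinuousOn f U)
    (h : ∀ a b c d : ℝ, a ≤ b → c ≤ d →
      (∀ x ∈ Icc a b, ∀ y ∈ Icc c d, (x + y * I : ℂ) ∈ U) → rectInt f a b c d = 0) :
    DifferentiableOn ℂ f U := by
  refine (isConservativeOn_and_continuousOn_iff_isDifferentiableOn hU).1 ⟨?_, hf⟩
  intro z w hzw
  rw [← add_eq_zero_iff_eq_neg, wedgeIntegral_add_wedgeIntegral_eq]
  change rectInt f z.re w.re z.im w.im = 0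
  have hm : ∀ x ∈ uIcc z.re w.re, ∀ y ∈ uIcc z.im w.im, (x + y * I : ℂ) ∈ U := by
    intro x hx y hy
    apply hzw
    simp only [Rectangle, mem_reProdIm]
    constructor
    · simpa using hx
    · simpa using hy
  rcases le_total z.re w.re with h1 | h1 <;> rcases le_total z.im w.im with h2 | h2
  · exact h _ _ _ _ h1 h2 (by rwa [uIcc_of_le h1, uIcc_of_le h2] at hm)
  · rw [rectInt_swap2_Reg, h _ _ _ _ h1 h2 (by rwa [uIcc_of_le h1, uIcc_of_ge h2] at hm), neg_zero]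
  · rw [rectInt_swap1_Reg, h _ _ _ _ h1 h2 (by rwa [uIcc_of_ge h1, uIcc_of_le h2] at hm), neg_zero]
  · rw [rectInt_swap1_Reg, rectInt_swap2_Reg,
      h _ _ _ _ h1 h2 (by rwa [uIcc_of_ge h1, uIcc_of_ge h2] at hm), neg_zero, neg_zero]

theorem intH_Reg {F : Type} [NormedAddCommGroup F] {f : ℂ → F} {U : Set ℂ} (hf : ContinuousOn f U)
    {a b y : ℝ} (hab : a ≤ b) (hm : ∀ x ∈ Icc a b, (x + y * I : ℂ) ∈ U) :
    IntervalIntegrable (fun x : ℝ => f (x + y * I)) volume a b := by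
  apply ContinuousOn.intervalIntegrable
  rw [uIcc_of_le hab]
  exact hf.comp (by fun_prop) hm

theorem intV_Reg {F : Type} [NormedAddCommGroup F] {f : ℂ → F} {U : Set ℂ} (hf : ContinuousOn f U)
    {c d x : ℝ} (hcd : c ≤ d) (hm : ∀ y ∈ Icc c d, (x + y * I : ℂ) ∈ U) :
    IntervalIntegrable (fun y : ℝ => f (x + y * I)) volume c d := by
  apply ContinuousOn.intervalIntegrable
  rw [uIcc_of_le hcd]
  exact hf.comp (by fun_prop) hm

theorem rectInt_sub_Reg {f g : ℂ → E} {U : Set ℂ} (hf : ContinuousOn f U) (hg : ContinuousOn g U)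
    {a b c d : ℝ} (hab : a ≤ b) (hcd : c ≤ d)
    (hm : ∀ x ∈ Icc a b, ∀ y ∈ Icc c d, (x + y * I : ℂ) ∈ U) :
    rectInt (fun z => f z - g z) a b c d = rectInt f a b c d - rectInt g a b c d := by
  have hc : c ∈ Icc c d := left_mem_Icc.2 hcd
  have hd : d ∈ Icc c d := right_mem_Icc.2 hcd
  have ha : a ∈ Icc a b := left_mem_Icc.2 hab
  have hb : b ∈ Icc a b := right_mem_Icc.2 hab
  simp only [rectInt]
  rw [intervalIntegral.integral_sub (intH_Reg hf hab fun x hx => hm x hx c hc)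
      (intH_Reg hg hab fun x hx => hm x hx c hc),
    intervalIntegral.integral_sub (intH_Reg hf hab fun x hx => hm x hx d hd)
      (intH_Reg hg hab fun x hx => hm x hx d hd),
    intervalIntegral.integral_sub (intV_Reg hf hcd (hm b hb)) (intV_Reg hg hcd (hm b hb)),
    intervalIntegral.integral_sub (intV_Reg hf hcd (hm a ha)) (intV_Reg hg hcd (hm a ha))]
  simp only [smul_sub]
  abel

end

/-- A Lipschitz cutoff function. -/
def cut_Reg (c : ℂ) (r : ℝ) (z : ℂ) : ℝ := max 0 (min 1 (2 - ‖z - c‖ / r))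

theorem cut_cont_Reg (c : ℂ) (r : ℝ) : Continuous (cut_Reg c r) := by
  unfold cut_Reg
  fun_prop

theorem cut_nonneg_Reg (c : ℂ) (r : ℝ) (z : ℂ) : 0 ≤ cut_Reg c r z := le_max_left _ _

theorem cut_le_Reg (c : ℂ) (r : ℝ) (z : ℂ) : cut_Reg c r z ≤ 1 :=
  max_le zero_le_one (min_le_left _ _)

theorem cut_one_Reg {c : ℂ} {r : ℝ} (hr : 0 < r) {z : ℂ} (hz : z ∈ ball c r) :
    cut_Reg c r z = 1 := by
  have h : ‖z - c‖ / r ≤ 1 := by
    rw [div_le_one hr]
    exact (mem_ball_iff_norm.1 hz).le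
  unfold cut_Reg
  rw [min_eq_left (by linarith), max_eq_right zero_le_one]

theorem cut_zero_Reg {c : ℂ} {r : ℝ} (hr : 0 < r) {z : ℂ} (hz : 2 * r ≤ ‖z - c‖) :
    cut_Reg c r z = 0 := by
  have h : 2 ≤ ‖z - c‖ / r := by
    rw [le_div_iff₀ hr]
    exact hz
  unfold cut_Reg
  exact max_eq_left ((min_le_right _ _).trans (by linarith))

theorem cut_lip_Reg {c : ℂ} {r : ℝ} (hr : 0 < r) (z z' : ℂ) :
    |cut_Reg c r z - cut_Reg c r z'| ≤ √‖z - z'‖ / √r := by
  have h1 : |cut_Reg c r z - cut_Reg c r z'| ≤ 1 := by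
    have := cut_nonneg_Reg c r z
    have := cut_nonneg_Reg c r z'
    have := cut_le_Reg c r z
    have := cut_le_Reg c r z'
    rw [abs_le]
    constructor <;> linarith
  have h2 : |cut_Reg c r z - cut_Reg c r z'| ≤ ‖z - z'‖ / r := by
    have h3 : |‖z - c‖ / r - ‖z' - c‖ / r| ≤ ‖z - z'‖ / r := by
      rw [← sub_div, abs_div, abs_of_pos hr]
      apply div_le_div_of_nonneg_right _ hr.le
      have := abs_norm_sub_norm_le (z - c) (z' - c)
      rwa [sub_sub_sub_cancel_right] at this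
    unfold cut_Reg
    rw [abs_le] at h3 ⊢
    obtain ⟨h4, h5⟩ := h3
    have h6 : 0 ≤ ‖z - z'‖ / r := by positivity
    generalize ‖z - c‖ / r = s at *
    generalize ‖z' - c‖ / r = t at *
    generalize ‖z - z'‖ / r = w at *
    simp only [max_def, min_def]
    split_ifs <;> constructor <;> linarith
  rw [← Real.sqrt_div (norm_nonneg _)]
  apply Real.le_sqrt_of_sq_le
  have h0 := abs_nonneg (cut_Reg c r z - cut_Reg c r z')
  nlinarith

/-- Local Hoelder continuity at a point. -/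
def LH_Reg {F : Type} [NormedAddCommGroup F] (f : ℂ → F) (z : ℂ) : Prop :=
  ∃ K r : ℝ, 0 ≤ K ∧ 0 < r ∧ Hol K f (ball z r)

theorem LH_congr_Reg {F : Type} [NormedAddCommGroup F] {f g : ℂ → F} {z : ℂ} (hf : LH_Reg f z)
    (h : f =ᶠ[𝓝 z] g) : LH_Reg g z := by
  obtain ⟨K, r, hK, hr, hH⟩ := hf
  obtain ⟨s, hs, hb⟩ := Metric.eventually_nhds_iff_ball.1 h
  refine ⟨K, min r s, hK, lt_min hr hs, fun x hx y hy => ?_⟩
  rw [← hb x (ball_subset_ball (min_le_right _ _) hx),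
    ← hb y (ball_subset_ball (min_le_right _ _) hy)]
  exact hH x (ball_subset_ball (min_le_left _ _) hx) y (ball_subset_ball (min_le_left _ _) hy)

theorem LH_id_Reg (z : ℂ) : LH_Reg (fun x : ℂ => x) z := by
  refine ⟨1, 1 / 2, zero_le_one, by norm_num, fun x hx y hy => ?_⟩
  have h1 : ‖x - y‖ ≤ 1 := by
    have h2 := mem_ball_iff_norm.1 hx
    have h3 := mem_ball_iff_norm.1 hy
    have h4 := norm_sub_le (x - z) (y - z)
    rw [sub_sub_sub_cancel_right] at h4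
    linarith
  rw [one_mul]
  apply Real.le_sqrt_of_sq_le
  have := norm_nonneg (x - y)
  nlinarith

theorem LH_comp_Reg {F G : Type} [NormedAddCommGroup F] [NormedSpace ℝ F] [NormedAddCommGroup G]
    [NormedSpace ℝ G] {f : ℂ → F} {Φ : F → G} {z : ℂ} (hΦ : ContDiffAt ℝ 1 Φ (f z))
    (hc : ContinuousAt f z) (hf : LH_Reg f z) : LH_Reg (fun x => Φ (f x)) z := by
  obtain ⟨K, r, hK, hr, hH⟩ := hf
  obtain ⟨L, t, ht, hL⟩ := hΦ.exists_lipschitzOnWith
  obtain ⟨s, hs, hb⟩ := Metric.eventually_nhds_iff_ball.1 (hc.eventually_mem ht)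
  refine ⟨L * K, min r s, by positivity, lt_min hr hs, fun x hx y hy => ?_⟩
  have h1 := hL.norm_sub_le (hb x (ball_subset_ball (min_le_right _ _) hx))
    (hb y (ball_subset_ball (min_le_right _ _) hy))
  have h2 := hH x (ball_subset_ball (min_le_left _ _) hx) y (ball_subset_ball (min_le_left _ _) hy)
  calc ‖Φ (f x) - Φ (f y)‖ ≤ L * ‖f x - f y‖ := h1
    _ ≤ L * (K * √‖x - y‖) := mul_le_mul_of_nonneg_left h2 L.2
    _ = L * K * √‖x - y‖ := by ring

theorem LH_of_contDiffAt_Reg {G : Type} [NormedAddCommGroup G] [NormedSpace ℝ G] {f : ℂ → G}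
    {z : ℂ} (hf : ContDiffAt ℝ 1 f z) : LH_Reg f z :=
  LH_comp_Reg (f := fun x : ℂ => x) hf continuousAt_id (LH_id_Reg z)

theorem LH_pair_Reg {F G : Type} [NormedAddCommGroup F] [NormedAddCommGroup G] {f : ℂ → F}
    {g : ℂ → G} {z : ℂ} (hf : LH_Reg f z) (hg : LH_Reg g z) :
    LH_Reg (fun x => (f x, g x)) z := by
  obtain ⟨K, r, hK, hr, hH⟩ := hf
  obtain ⟨L, s, hL, hs, hG⟩ := hg
  refine ⟨max K L, min r s, le_max_of_le_left hK, lt_min hr hs, fun x hx y hy => ?_⟩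
  have h1 := hH x (ball_subset_ball (min_le_left _ _) hx) y (ball_subset_ball (min_le_left _ _) hy)
  have h2 := hG x (ball_subset_ball (min_le_right _ _) hx) y
    (ball_subset_ball (min_le_right _ _) hy)
  have h3 := Real.sqrt_nonneg ‖x - y‖
  rw [Prod.mk_sub_mk, Prod.norm_mk]
  exact max_le (h1.trans (mul_le_mul_of_nonneg_right (le_max_left _ _) h3))
    (h2.trans (mul_le_mul_of_nonneg_right (le_max_right _ _) h3))

theorem Hol_cont_Reg {F : Type} [NormedAddCommGroup F] {f : ℂ → F} {K : ℝ} (h : Hol K f univ) :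
    Continuous f := by
  rw [continuous_iff_continuousAt]
  intro z
  rw [ContinuousAt, tendsto_iff_norm_sub_tendsto_zero]
  have h0 : Tendsto (fun x : ℂ => K * √‖x - z‖) (𝓝 z) (𝓝 0) := by
    have h1 : Continuous fun x : ℂ => K * √‖x - z‖ := by fun_prop
    simpa using h1.tendsto z
  exact squeeze_zero (fun _ => norm_nonneg _) (fun x => h x (mem_univ _) z (mem_univ _)) h0

section
variable {E : Type} [NormedAddCommGroup E] [NormedSpace ℂ E]

/-- The function `g` cut off outside a ball. -/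
def cg_Reg (g : ℂ → E) (c : ℂ) (r : ℝ) (z : ℂ) : E := ((cut_Reg c r z : ℝ) : ℂ) • g z

theorem cg_bdd_Reg {g : ℂ → E} {c : ℂ} {r M : ℝ} (hr : 0 < r)
    (hg : ContinuousOn g (closedBall c (2 * r))) (hM : ∀ z ∈ closedBall c (2 * r), ‖g z‖ ≤ M) :
    Bdd (cg_Reg g c r) c (2 * r) M := by
  have hM0 : 0 ≤ M := (norm_nonneg _).trans (hM c (mem_closedBall_self (by positivity)))
  have hz : ∀ z, 2 * r ≤ ‖z - c‖ → cg_Reg g c r z = 0 := fun z hz => by
    simp [cg_Reg, cut_zero_Reg hr hz]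
  refine ⟨?_, fun z => ?_, hz⟩
  · have h1 : ContinuousOn (cg_Reg g c r) (closedBall c (2 * r)) :=
      ((continuous_ofReal.comp (cut_cont_Reg c r)).continuousOn).smul hg
    have h2 : cg_Reg g c r = (closedBall c (2 * r)).indicator (cg_Reg g c r) := by
      funext z
      by_cases h : z ∈ closedBall c (2 * r)
      · rw [indicator_of_mem h]
      · rw [indicator_of_notMem h]
        exact hz z (le_of_lt (by simpa [dist_eq_norm] using h))
    rw [h2, aestronglyMeasurable_indicator_iff measurableSet_closedBall]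
    exact h1.aestronglyMeasurable measurableSet_closedBall
  · by_cases h : z ∈ closedBall c (2 * r)
    · rw [cg_Reg, norm_smul, Complex.norm_real, Real.norm_of_nonneg (cut_nonneg_Reg c r z)]
      have := cut_le_Reg c r z
      have := hM z h
      have := norm_nonneg (g z)
      nlinarith
    · rw [hz z (le_of_lt (by simpa [dist_eq_norm] using h)), norm_zero]
      exact hM0

theorem cg_hol_Reg {g : ℂ → E} {c : ℂ} {r M K : ℝ} (hr : 0 < r) (hK : 0 ≤ K)
    (hM : ∀ z ∈ closedBall c (2 * r), ‖g z‖ ≤ M) (hH : Hol K g (closedBall c (2 * r))) :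
    Hol (K + M / √r) (cg_Reg g c r) univ := by
  have hM0 : 0 ≤ M := (norm_nonneg _).trans (hM c (mem_closedBall_self (by positivity)))
  have hA : ∀ z ∈ closedBall c (2 * r), ∀ z' : ℂ,
      ‖((cut_Reg c r z - cut_Reg c r z' : ℝ) : ℂ) • g z‖ ≤ M / √r * √‖z - z'‖ := by
    intro z hz z'
    rw [norm_smul, Complex.norm_real, Real.norm_eq_abs]
    calc |cut_Reg c r z - cut_Reg c r z'| * ‖g z‖ ≤ √‖z - z'‖ / √r * M :=
          mul_le_mul (cut_lip_Reg hr z z') (hM z hz) (norm_nonneg _) (by positivity)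
      _ = M / √r * √‖z - z'‖ := by ring
  have hB : ∀ z ∈ closedBall c (2 * r), ∀ z' : ℂ,
      ‖cg_Reg g c r z - cg_Reg g c r z'‖ ≤ (K + M / √r) * √‖z - z'‖ := by
    intro z hz z'
    have hs := Real.sqrt_nonneg ‖z - z'‖
    by_cases h : z' ∈ closedBall c (2 * r)
    · have e : cg_Reg g c r z - cg_Reg g c r z' =
          ((cut_Reg c r z - cut_Reg c r z' : ℝ) : ℂ) • g z +
            ((cut_Reg c r z' : ℝ) : ℂ) • (g z - g z') := by
        simp only [cg_Reg, ofReal_sub, sub_smul, smul_sub]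
        abel
      have h1 : ‖((cut_Reg c r z' : ℝ) : ℂ) • (g z - g z')‖ ≤ K * √‖z - z'‖ := by
        rw [norm_smul, Complex.norm_real, Real.norm_of_nonneg (cut_nonneg_Reg c r z')]
        have := cut_le_Reg c r z'
        have := hH z hz z' h
        have := norm_nonneg (g z - g z')
        nlinarith
      rw [e]
      have h2 := hA z hz z'
      have h3 := norm_add_le (((cut_Reg c r z - cut_Reg c r z' : ℝ) : ℂ) • g z)
        (((cut_Reg c r z' : ℝ) : ℂ) • (g z - g z'))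
      linarith [add_mul K (M / √r) √‖z - z'‖]
    · have h0 : cut_Reg c r z' = 0 :=
        cut_zero_Reg hr (le_of_lt (by simpa [dist_eq_norm] using h))
      have e : cg_Reg g c r z - cg_Reg g c r z' =
          ((cut_Reg c r z - cut_Reg c r z' : ℝ) : ℂ) • g z := by
        simp [cg_Reg, h0]
      rw [e]
      have h2 := hA z hz z'
      have h3 : 0 ≤ K * √‖z - z'‖ := by positivity
      linarith [add_mul K (M / √r) √‖z - z'‖]
  intro z _ z' _
  by_cases h : z ∈ closedBall c (2 * r)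
  · exact hB z h z'
  · by_cases h' : z' ∈ closedBall c (2 * r)
    · rw [norm_sub_rev, norm_sub_rev z z']
      exact hB z' h' z
    · have h0 : cut_Reg c r z = 0 :=
        cut_zero_Reg hr (le_of_lt (by simpa [dist_eq_norm] using h))
      have h1 : cut_Reg c r z' = 0 :=
        cut_zero_Reg hr (le_of_lt (by simpa [dist_eq_norm] using h'))
      simp only [cg_Reg, h0, h1, ofReal_zero, zero_smul, sub_self, norm_zero]
      positivity

/-- The integrated form of `∂̄ τ = g` on `O`. -/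
def Weak_Reg (τ g : ℂ → E) (O : Set ℂ) : Prop :=
  ∀ a b c d : ℝ, a ≤ b → c ≤ d → (∀ x ∈ Icc a b, ∀ y ∈ Icc c d, (x + y * I : ℂ) ∈ O) →
    rectInt τ a b c d = (2 * I) • ∫ x in a..b, ∫ y in c..d, g (x + y * I)

theorem decomp_Reg [CompleteSpace E] (h1 : T1Stmt) (h4 : T4Stmt) {τ g : ℂ → E} {O : Set ℂ}
    (hτ : ContinuousOn τ O) (hW : Weak_Reg τ g O) {c : ℂ} {r M : ℝ} (hr : 0 < r)
    (hO : ball c r ⊆ O) (hB : Bdd (cg_Reg g c r) c (2 * r) M) :
    DifferentiableOn ℂ (fun z => τ z - cT (cg_Reg g c r) z) (ball c r) := by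
  obtain ⟨C, -, hC⟩ := h1
  have hc : Continuous (cT (cg_Reg g c r)) :=
    Hol_cont_Reg (hC E _ c (2 * r) M (by positivity) hB).2
  refine morera_Reg isOpen_ball ((hτ.mono hO).sub hc.continuousOn) fun a b c' d hab hcd hm => ?_
  rw [rectInt_sub_Reg (hτ.mono hO) hc.continuousOn hab hcd hm,
    hW a b c' d hab hcd fun x hx y hy => hO (hm x hx y hy), h4 E _ c (2 * r) M hB a b c' d hab hcd,
    sub_eq_zero]
  congr 1
  refine intervalIntegral.integral_congr fun x hx => ?_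
  refine intervalIntegral.integral_congr fun y hy => ?_
  rw [uIcc_of_le hab] at hx
  rw [uIcc_of_le hcd] at hy
  simp [cg_Reg, cut_one_Reg hr (hm x hx y hy)]

theorem contDiffAt_of_hol_Reg [CompleteSpace E] {f : ℂ → E} {c : ℂ} {r : ℝ} (hr : 0 < r)
    (hf : DifferentiableOn ℂ f (ball c r)) : ContDiffAt ℝ 1 f c :=
  ((hf.analyticAt (ball_mem_nhds c hr)).contDiffAt (n := 1)).restrict_scalars ℝ

theorem weak_LH_Reg [CompleteSpace E] (h1 : T1Stmt) (h4 : T4Stmt) {τ g : ℂ → E} {O : Set ℂ}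
    (hO : IsOpen O) (hτ : ContinuousOn τ O) (hg : ContinuousOn g O) (hW : Weak_Reg τ g O) {c : ℂ}
    (hc : c ∈ O) : LH_Reg τ c := by
  obtain ⟨ρ, hρ, hb⟩ := Metric.isOpen_iff.1 hO c hc
  have hr : 0 < ρ / 3 := by positivity
  have hs : closedBall c (2 * (ρ / 3)) ⊆ O :=
    (closedBall_subset_ball (by linarith)).trans hb
  obtain ⟨M, hM⟩ := (isCompact_closedBall c (2 * (ρ / 3))).exists_bound_of_continuousOn
    (hg.mono hs)
  have hB := cg_bdd_Reg hr (hg.mono hs) hM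
  have hd := decomp_Reg h1 h4 hτ hW hr ((ball_subset_ball (by linarith)).trans hb) hB
  obtain ⟨C, hC0, hC⟩ := h1
  have hH := (hC E _ c _ M (by positivity) hB).2
  have hM0 : 0 ≤ M := (norm_nonneg _).trans (hM c (mem_closedBall_self (by positivity)))
  have l1 : LH_Reg (cT (cg_Reg g c (ρ / 3))) c :=
    ⟨_, 1, by positivity, one_pos, fun x _ y _ => hH x (mem_univ _) y (mem_univ _)⟩
  have l2 := LH_of_contDiffAt_Reg (contDiffAt_of_hol_Reg hr hd)
  have l3 := LH_comp_Reg (Φ := fun p : E × E => p.1 + p.2) (by fun_prop)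
    ((Hol_cont_Reg hH).continuousAt.prodMk (contDiffAt_of_hol_Reg hr hd).continuousAt)
    (LH_pair_Reg l1 l2)
  exact LH_congr_Reg l3 (Eventually.of_forall fun x => by simp)

theorem dbar_hol_Reg {f : ℂ → E} {c : ℂ} (hf : DifferentiableAt ℂ f c) :
    fderiv ℝ f c 1 + I • fderiv ℝ f c I = 0 := by
  rw [hf.fderiv_restrictScalars ℝ]
  have h : fderiv ℂ f c I = I • fderiv ℂ f c 1 := by
    rw [← map_smul, smul_eq_mul, mul_one]
  simp only [ContinuousLinearMap.coe_restrictScalars', h, smul_smul, I_mul_I, neg_smul, one_smul,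
    add_neg_cancel]

theorem weak_C1_Reg [CompleteSpace E] (h1 : T1Stmt) (h3 : T3Stmt) (h4 : T4Stmt) {τ g : ℂ → E}
    {O : Set ℂ} (hO : IsOpen O) (hτ : ContinuousOn τ O) (hg : ContinuousOn g O)
    (hW : Weak_Reg τ g O) {c : ℂ} (hc : c ∈ O) (hL : LH_Reg g c) :
    ContDiffAt ℝ 1 τ c ∧ dbar τ c = g c := by
  obtain ⟨ρ₀, hρ₀, hb₀⟩ := Metric.isOpen_iff.1 hO c hc
  obtain ⟨K, ρ₁, hK, hρ₁, hH⟩ := hL
  set ρ := min ρ₀ ρ₁ with hρd
  have hρ : 0 < ρ := lt_min hρ₀ hρ₁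
  have hb : ball c ρ ⊆ O := (ball_subset_ball (min_le_left _ _)).trans hb₀
  have hr : 0 < ρ / 3 := by positivity
  have hs' : closedBall c (2 * (ρ / 3)) ⊆ ball c ρ := closedBall_subset_ball (by linarith)
  have hs : closedBall c (2 * (ρ / 3)) ⊆ O := hs'.trans hb
  have hs1 : closedBall c (2 * (ρ / 3)) ⊆ ball c ρ₁ :=
    hs'.trans (ball_subset_ball (min_le_right _ _))
  obtain ⟨M, hM⟩ := (isCompact_closedBall c (2 * (ρ / 3))).exists_bound_of_continuousOn
    (hg.mono hs)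
  have hM0 : 0 ≤ M := (norm_nonneg _).trans (hM c (mem_closedBall_self (by positivity)))
  have hB := cg_bdd_Reg hr (hg.mono hs) hM
  have hd := decomp_Reg h1 h4 hτ hW hr ((ball_subset_ball (by linarith)).trans hb) hB
  have hH' := cg_hol_Reg hr hK hM fun x hx y hy => hH x (hs1 hx) y (hs1 hy)
  obtain ⟨C, -, hC⟩ := h3 (2 * (ρ / 3)) (by positivity)
  obtain ⟨k1, k2, -, -⟩ := hC E _ c M _ hB (by positivity) hH'
  have k3 := contDiffAt_of_hol_Reg hr hd
  have e : τ = fun z => cT (cg_Reg g c (ρ / 3)) z + (τ z - cT (cg_Reg g c (ρ / 3)) z) := by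
    funext z
    simp
  refine ⟨by rw [e]; exact k1.contDiffAt.add k3, ?_⟩
  have k4 := dbar_hol_Reg (hd.differentiableAt (ball_mem_nhds c hr))
  have k5 := k2 c
  have k6 : fderiv ℝ τ c = fderiv ℝ (cT (cg_Reg g c (ρ / 3))) c +
      fderiv ℝ (fun z => τ z - cT (cg_Reg g c (ρ / 3)) z) c := by
    conv_lhs => rw [e]
    exact fderiv_fun_add (k1.contDiffAt.differentiableAt one_ne_zero)
      (k3.differentiableAt one_ne_zero)
  have k7 : cg_Reg g c (ρ / 3) c = g c := by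
    simp [cg_Reg, cut_one_Reg hr (mem_ball_self hr)]
  rw [← k7, ← k5, dbar, dbar, k6]
  congr 1
  simp only [add_apply, smul_add]
  rw [add_add_add_comm, k4, add_zero]

end

end Pool.Agent.MP_2fc7fa_gt.N

end
end

section

/-! `C¹` solutions of the Cauchy-Riemann equation in a smooth coframe are smooth. -/

open scoped ContDiff ComplexConjugate Topology
open Set Complex Filter Metric MeasureTheory

noncomputable section

namespace Pool.Agent.MP_2fc7fa_gt.N

section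
variable {E : Type} [NormedAddCommGroup E] [NormedSpace ℂ E]

/-- The exterior derivative of the coframe. -/
def Qf_Reg (A : E → E →L[ℝ] E) (x a : E) : E →L[ℝ] E :=
  fderiv ℝ A x a - (fderiv ℝ A x).flip a

theorem Qf_apply_Reg (A : E → E →L[ℝ] E) (x a b : E) :
    Qf_Reg A x a b = fderiv ℝ A x a b - fderiv ℝ A x b a := rfl

/-- The derivative of `u` in the coframe. -/
def tau_Reg (A : E → E →L[ℝ] E) (u : ℂ → E) (z : ℂ) : E := A (u z) (fderiv ℝ u z 1)

/-- The right hand side of the equation for `tau_Reg`. -/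
def Gam_Reg (A : E → E →L[ℝ] E) (p : E × E) : E :=
  (2 * I)⁻¹ • Qf_Reg A p.1 ((A p.1).inverse p.2) ((A p.1).inverse (I • p.2))

/-- The prolonged coframe. -/
def pro_Reg (A : E → E →L[ℝ] E) (p : E × E) : E × E →L[ℝ] E × E :=
  ((A p.1).comp (ContinuousLinearMap.fst ℝ E E)).prod
    (ContinuousLinearMap.snd ℝ E E +
      (Qf_Reg A p.1 ((A p.1).inverse p.2)).comp (ContinuousLinearMap.fst ℝ E E))

theorem pro_apply_Reg (A : E → E →L[ℝ] E) (p q : E × E) :
    pro_Reg A p q = (A p.1 q.1, q.2 + Qf_Reg A p.1 ((A p.1).inverse p.2) q.1) := rfl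

variable [FiniteDimensional ℂ E]

theorem inv_Reg {L : E →L[ℝ] E} (h : Function.Injective L) : L.IsInvertible :=
  ⟨(LinearEquiv.ofInjectiveEndo (L : E →ₗ[ℝ] E) h).toContinuousLinearEquiv, by
    ext v
    rfl⟩

theorem invSm_Reg {A : E → E →L[ℝ] E} {Ω : Set E} (h : Cofr A Ω) :
    ContDiffOn ℝ ∞ (fun x => (A x).inverse) Ω := by
  have : CompleteSpace E := FiniteDimensional.complete ℂ E
  intro x hx
  exact (inv_Reg (h.2.2 x hx)).contDiffAt_map_inverse.comp_contDiffWithinAt x (h.2.1 x hx)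

omit [FiniteDimensional ℂ E] in
theorem dSm_Reg {A : E → E →L[ℝ] E} {Ω : Set E} (h : Cofr A Ω) :
    ContDiffOn ℝ ∞ (fderiv ℝ A) Ω :=
  h.2.1.fderiv_of_isOpen h.1 le_rfl

omit [FiniteDimensional ℂ E] in
theorem QSm_Reg {A : E → E →L[ℝ] E} {Ω : Set E} (h : Cofr A Ω) {a b : E × E → E}
    (ha : ContDiffOn ℝ ∞ a (Ω ×ˢ univ)) (hb : ContDiffOn ℝ ∞ b (Ω ×ˢ univ)) :
    ContDiffOn ℝ ∞ (fun p : E × E => Qf_Reg A p.1 (a p) (b p)) (Ω ×ˢ univ) := by
  have h1 : ContDiffOn ℝ ∞ (fun p : E × E => fderiv ℝ A p.1) (Ω ×ˢ univ) :=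
    (dSm_Reg h).comp contDiffOn_fst fun p hp => hp.1
  simp only [Qf_apply_Reg]
  exact ((h1.clm_apply ha).clm_apply hb).sub ((h1.clm_apply hb).clm_apply ha)

theorem invSm2_Reg {A : E → E →L[ℝ] E} {Ω : Set E} (h : Cofr A Ω) :
    ContDiffOn ℝ ∞ (fun p : E × E => (A p.1).inverse) (Ω ×ˢ univ) :=
  (invSm_Reg h).comp contDiffOn_fst fun _ hp => hp.1

theorem GamSm_Reg {A : E → E →L[ℝ] E} {Ω : Set E} (h : Cofr A Ω) :
    ContDiffOn ℝ ∞ (Gam_Reg A) (Ω ×ˢ univ) :=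
  (QSm_Reg h ((invSm2_Reg h).clm_apply contDiffOn_snd)
    ((invSm2_Reg h).clm_apply (contDiffOn_snd.const_smul I))).const_smul _

theorem proCofr_Reg {A : E → E →L[ℝ] E} {Ω : Set E} (h : Cofr A Ω) :
    Cofr (pro_Reg A) (Ω ×ˢ univ) := by
  refine ⟨h.1.prod isOpen_univ, ?_, fun p hp => ?_⟩
  · rw [contDiffOn_clm_apply]
    intro q
    simp only [pro_apply_Reg]
    have h1 : ContDiffOn ℝ ∞ (fun p : E × E => A p.1) (Ω ×ˢ univ) :=
      h.2.1.comp contDiffOn_fst fun p hp => hp.1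
    exact (h1.clm_apply contDiffOn_const).prodMk (contDiffOn_const.add
      (QSm_Reg h ((invSm2_Reg h).clm_apply contDiffOn_snd) contDiffOn_const))
  · rw [injective_iff_map_eq_zero]
    intro q hq
    rw [pro_apply_Reg, Prod.mk_eq_zero] at hq
    have h1 : q.1 = 0 := (injective_iff_map_eq_zero _).1 (h.2.2 p.1 hp.1) _ hq.1
    have h2 := hq.2
    rw [h1, map_zero, add_zero] at h2
    exact Prod.ext h1 h2

theorem fder_Reg {A : E → E →L[ℝ] E} {Ω : Set E} {u : ℂ → E} {O : Set ℂ} (h : Cofr A Ω)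
    (hm : MapsTo u O Ω) (hcr : CR A u O) {z : ℂ} (hz : z ∈ O) (w : ℂ) :
    fderiv ℝ u z w = (A (u z)).inverse (w • tau_Reg A u z) := by
  have h1 : A (u z) (fderiv ℝ u z w) = w • tau_Reg A u z := by
    have e : w = w.re • (1 : ℂ) + w.im • I := by
      simp [re_add_im]
    have e2 : w • tau_Reg A u z = w.re • tau_Reg A u z + w.im • I • tau_Reg A u z := by
      conv_lhs => rw [e]
      rw [add_smul, smul_assoc, smul_assoc, one_smul]
    rw [e2]
    conv_lhs => rw [e]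
    rw [map_add, map_smul, map_smul, map_add, map_smul, map_smul, hcr z hz]
    rfl
  rw [← h1, (inv_Reg (h.2.2 _ (hm hz))).inverse_apply_self]

omit [FiniteDimensional ℂ E] in
theorem tauCont_Reg {A : E → E →L[ℝ] E} {Ω : Set E} {u : ℂ → E} {O : Set ℂ} (h : Cofr A Ω)
    (hO : IsOpen O) (hu : ContDiffOn ℝ 1 u O) (hm : MapsTo u O Ω) :
    ContinuousOn (tau_Reg A u) O :=
  (h.2.1.continuousOn.comp hu.continuousOn hm).clm_apply
    ((hu.continuousOn_fderiv_of_isOpen hO le_rfl).clm_apply continuousOn_const)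

theorem Gam_eq_Reg {A : E → E →L[ℝ] E} {Ω : Set E} {u : ℂ → E} {O : Set ℂ} (h : Cofr A Ω)
    (hm : MapsTo u O Ω) (hcr : CR A u O) {z : ℂ} (hz : z ∈ O) :
    (2 * I) • Gam_Reg A (u z, tau_Reg A u z) =
      Qf_Reg A (u z) (fderiv ℝ u z 1) (fderiv ℝ u z I) := by
  rw [fder_Reg h hm hcr hz 1, fder_Reg h hm hcr hz I, one_smul, Gam_Reg, smul_smul,
    mul_inv_cancel₀ (by simp), one_smul]

theorem weak_Reg (hG : GreenStmt) {A : E → E →L[ℝ] E} {Ω : Set E} {u : ℂ → E} {O : Set ℂ}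
    (h : Cofr A Ω) (hO : IsOpen O) (hu : ContDiffOn ℝ 1 u O) (hm : MapsTo u O Ω)
    (hcr : CR A u O) :
    Weak_Reg (tau_Reg A u) (fun z => Gam_Reg A (u z, tau_Reg A u z)) O := by
  have : CompleteSpace E := FiniteDimensional.complete ℂ E
  intro a b c d hab hcd hin
  have g := hG E E A Ω u O a b c d h.1 (h.2.1.of_le (by exact_mod_cast le_top)) hO hu hm hab hcd hin
  have hV : ∀ x ∈ Icc a b, (∫ y in c..d, A (u (x + y * I)) (fderiv ℝ u (x + y * I) I)) =
      I • ∫ y in c..d, tau_Reg A u (x + y * I) := by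
    intro x hx
    rw [← intervalIntegral.integral_smul]
    refine intervalIntegral.integral_congr fun y hy => ?_
    rw [uIcc_of_le hcd] at hy
    exact hcr _ (hin x hx y hy)
  rw [hV a (left_mem_Icc.2 hab), hV b (right_mem_Icc.2 hab)] at g
  refine g.trans ?_
  rw [← intervalIntegral.integral_smul]
  refine intervalIntegral.integral_congr fun x hx => ?_
  rw [uIcc_of_le hab] at hx
  simp only
  rw [← intervalIntegral.integral_smul]
  refine intervalIntegral.integral_congr fun y hy => ?_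
  rw [uIcc_of_le hcd] at hy
  exact (Gam_eq_Reg h hm hcr (hin x hx y hy)).symm

theorem step_Reg (h1 : T1Stmt) (h3 : T3Stmt) (h4 : T4Stmt) (hG : GreenStmt)
    {A : E → E →L[ℝ] E} {Ω : Set E} {u : ℂ → E} {O : Set ℂ}
    (h : Cofr A Ω) (hO : IsOpen O) (hu : ContDiffOn ℝ 1 u O) (hm : MapsTo u O Ω)
    (hcr : CR A u O) {z : ℂ} (hz : z ∈ O) :
    ContDiffAt ℝ 1 (tau_Reg A u) z ∧
      dbar (tau_Reg A u) z = Gam_Reg A (u z, tau_Reg A u z) := by
  have : CompleteSpace E := FiniteDimensional.complete ℂ E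
  have hτ := tauCont_Reg h hO hu hm
  have hp : ContinuousOn (fun z => (u z, tau_Reg A u z)) O := hu.continuousOn.prodMk hτ
  have hg : ContinuousOn (fun z => Gam_Reg A (u z, tau_Reg A u z)) O :=
    (GamSm_Reg h).continuousOn.comp hp fun z hz => ⟨hm hz, mem_univ _⟩
  have hW := weak_Reg hG h hO hu hm hcr
  refine weak_C1_Reg h1 h3 h4 hO hτ hg hW hz ?_
  have l1 := weak_LH_Reg h1 h4 hO hτ hg hW hz
  have l2 := LH_of_contDiffAt_Reg (hu.contDiffAt (hO.mem_nhds hz))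
  have l3 : ContDiffAt ℝ 1 (Gam_Reg A) (u z, tau_Reg A u z) :=
    ((GamSm_Reg h).contDiffAt ((h.1.prod isOpen_univ).mem_nhds ⟨hm hz, mem_univ _⟩)).of_le
      (by exact_mod_cast le_top)
  exact LH_comp_Reg (f := fun z => (u z, tau_Reg A u z)) l3 (hp.continuousAt (hO.mem_nhds hz))
    (LH_pair_Reg l2 l1)

theorem proCR_Reg (h1 : T1Stmt) (h3 : T3Stmt) (h4 : T4Stmt) (hG : GreenStmt)
    {A : E → E →L[ℝ] E} {Ω : Set E} {u : ℂ → E} {O : Set ℂ}
    (h : Cofr A Ω) (hO : IsOpen O) (hu : ContDiffOn ℝ 1 u O) (hm : MapsTo u O Ω)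
    (hcr : CR A u O) : CR (pro_Reg A) (fun z => (u z, tau_Reg A u z)) O := by
  intro z hz
  obtain ⟨k1, k2⟩ := step_Reg h1 h3 h4 hG h hO hu hm hcr hz
  have d1 : DifferentiableAt ℝ u z :=
    (hu.contDiffAt (hO.mem_nhds hz)).differentiableAt one_ne_zero
  have d2 := k1.differentiableAt one_ne_zero
  have e1 : (A (u z)).inverse (tau_Reg A u z) = fderiv ℝ u z 1 := by
    rw [fder_Reg h hm hcr hz 1, one_smul]
  have e2 := Gam_eq_Reg h hm hcr hz
  rw [← k2, dbar, smul_smul, smul_add, smul_smul] at e2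
  have e3 : (2 * I * (1 / 2) : ℂ) = I := by ring
  rw [e3, I_mul_I] at e2
  rw [d1.fderiv_prodMk d2]
  simp only [pro_apply_Reg, ContinuousLinearMap.prod_apply, Prod.smul_mk, e1]
  refine Prod.ext (hcr z hz) ?_
  simp only
  rw [← e2, Qf_apply_Reg, sub_self, add_zero, neg_smul, one_smul]
  abel

end

theorem ind_Reg (h1 : T1Stmt) (h3 : T3Stmt) (h4 : T4Stmt) (hG : GreenStmt) (k : ℕ) :
    ∀ (E : Type) [NormedAddCommGroup E] [NormedSpace ℂ E] [FiniteDimensional ℂ E]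
      (A : E → E →L[ℝ] E) (Ω : Set E) (u : ℂ → E) (O : Set ℂ), Cofr A Ω → IsOpen O →
      ContDiffOn ℝ 1 u O → MapsTo u O Ω → CR A u O → ContDiffOn ℝ k u O := by
  induction k with
  | zero =>
    intro E _ _ _ A Ω u O _ _ hu _ _
    exact hu.of_le (by simp)
  | succ k ih =>
    intro E _ _ _ A Ω u O h hO hu hm hcr
    have hτ : ContDiffOn ℝ 1 (tau_Reg A u) O := fun z hz =>
      (step_Reg h1 h3 h4 hG h hO hu hm hcr hz).1.contDiffWithinAt
    have k1 := ih (E × E) (pro_Reg A) (Ω ×ˢ univ) (fun z => (u z, tau_Reg A u z)) O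
      (proCofr_Reg h) hO (hu.prodMk hτ) (fun z hz => ⟨hm hz, mem_univ _⟩)
      (proCR_Reg h1 h3 h4 hG h hO hu hm hcr)
    rw [Nat.cast_succ, contDiffOn_succ_iff_fderiv_of_isOpen hO]
    refine ⟨hu.differentiableOn one_ne_zero, by simp, ?_⟩
    rw [contDiffOn_clm_apply]
    intro w
    have k2 : ContDiffOn ℝ k (fun z => (A (u z)).inverse) O :=
      ((invSm_Reg h).of_le (by exact_mod_cast le_top)).comp k1.fst hm
    exact (k2.clm_apply (k1.snd.const_smul w)).congr fun z hz => fder_Reg h hm hcr hz w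

theorem reg (h1 : T1Stmt) (_h2 : T2Stmt) (h3 : T3Stmt) (h4 : T4Stmt) (hG : GreenStmt) :
    RegStmt := by
  intro E _ _ _ A Ω u O h hO hu hm hcr
  rw [contDiffOn_infty]
  exact fun k => ind_Reg h1 h3 h4 hG k E A Ω u O h hO hu hm hcr

theorem chart_Reg (h : RegStmt) (φ : Fr) (U : W → V) (hU : IsLine φ.J U) (p e : W)
    (hne : ∀ z : ℂ, p + z • e ≠ 0) : ContDiff ℝ ∞ fun z : ℂ => U (p + z • e) := by
  have hl : ∀ z : ℂ, HasFDerivAt (fun z : ℂ => p + z • e)
      (((ContinuousLinearMap.id ℂ ℂ).smulRight e).restrictScalars ℝ) z := fun z =>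
    ((((ContinuousLinearMap.id ℂ ℂ).smulRight e).restrictScalars ℝ).hasFDerivAt).const_add p
  have hc : ContDiff ℝ 1 fun z : ℂ => p + z • e := by fun_prop
  have hd : ∀ z w : ℂ, fderiv ℝ (fun z : ℂ => U (p + z • e)) z w =
      fderiv ℝ U (p + z • e) (w • e) := by
    intro z w
    have d1 : DifferentiableAt ℝ U (p + z • e) :=
      (hU.c1.contDiffAt (isOpen_compl_singleton.mem_nhds (hne z))).differentiableAt one_ne_zero
    exact DFunLike.congr_fun (d1.hasFDerivAt.comp z (hl z) :).fderiv w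
  rw [← contDiffOn_univ]
  refine h V φ.A {0}ᶜ _ univ ⟨isOpen_compl_singleton, φ.smoothA, fun x hx => ?_⟩ isOpen_univ
    (hU.c1.comp hc.contDiffOn fun z _ => hne z) (fun z _ => hU.ne _ (hne z)) fun z _ => ?_
  · exact Function.LeftInverse.injective (φ.BA x hx)
  · rw [hd, hd, one_smul, hU.hol _ (hne z), Fr.J, φ.AB _ (hU.ne _ (hne z))]

theorem lineSmooth (h : RegStmt) : LineSmoothStmt := by
  intro φ U hU q hq
  apply ContDiffAt.contDiffWithinAt
  by_cases h1 : q.1 = 0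
  · have h2 : q.2 ≠ 0 := fun h2 => hq (Prod.ext h1 h2)
    have k := chart_Reg h φ U hU (0, 1) (1, 0) fun z hz => by simpa using congrArg Prod.snd hz
    have k1 : ContDiffAt ℝ ∞ (fun x : W => x.1 / x.2) q :=
      ((contDiffAt_fst (𝕜 := ℂ)).div contDiffAt_snd h2).restrict_scalars ℝ
    have k2 : ContDiffAt ℝ ∞
        (fun x : W => x.2 • U (((0, 1) : W) + (x.1 / x.2) • ((1, 0) : W))) q :=
      contDiffAt_snd.smul (k.contDiffAt.comp q k1)
    refine k2.congr_of_eventuallyEq ?_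
    filter_upwards [continuous_snd.continuousAt.eventually_ne h2] with x hx
    rw [← hU.hom]
    congr 1
    ext <;> simp [mul_div_cancel₀, hx]
  · have k := chart_Reg h φ U hU (1, 0) (0, 1) fun z hz => by simpa using congrArg Prod.fst hz
    have k1 : ContDiffAt ℝ ∞ (fun x : W => x.2 / x.1) q :=
      ((contDiffAt_snd (𝕜 := ℂ)).div contDiffAt_fst h1).restrict_scalars ℝ
    have k2 : ContDiffAt ℝ ∞
        (fun x : W => x.1 • U (((1, 0) : W) + (x.2 / x.1) • ((0, 1) : W))) q :=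
      contDiffAt_fst.smul (k.contDiffAt.comp q k1)
    refine k2.congr_of_eventuallyEq ?_
    filter_upwards [continuous_fst.continuousAt.eventually_ne h1] with x hx
    rw [← hU.hom]
    congr 1
    ext <;> simp [mul_div_cancel₀, hx]

end Pool.Agent.MP_2fc7fa_gt.N

end
end

section

open scoped ContDiff Topology
open Set Complex Filter Metric MeasureTheory

namespace Pool.Agent.MP_2fc7fa_gt.N

section
variable {E : Type} [NormedAddCommGroup E] [NormedSpace ℂ E]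

theorem dbar_smul_HW {f : ℂ → ℂ} {φ : ℂ → E} {z : ℂ} (hf : DifferentiableAt ℂ f z)
    (hφ : DifferentiableAt ℝ φ z) : dbar (fun w => f w • φ w) z = f z • dbar φ z := by
  have h1 : fderiv ℝ f z I = I * fderiv ℝ f z 1 := by
    rw [hf.fderiv_restrictScalars ℝ]
    simp only [ContinuousLinearMap.coe_restrictScalars']
    rw [← smul_eq_mul, ← map_smul, smul_eq_mul, mul_one]
  rw [dbar, dbar, fderiv_fun_smul (hf.restrictScalars ℝ) hφ]
  simp only [add_apply, smul_apply,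
    ContinuousLinearMap.smulRight_apply, h1, smul_add, smul_smul, ← mul_assoc]
  simp only [mul_assoc _ I I, I_mul_I]
  module

/-- solutions of the differential inequality -/
def Good_HW (C : ℝ) (φ : ℂ → E) (c : ℂ) (ρ : ℝ) : Prop :=
  ContDiffOn ℝ 1 φ (ball c ρ \ {c}) ∧ ∀ z ∈ ball c ρ \ {c}, ‖dbar φ z‖ ≤ C * ‖φ z‖

theorem mono_HW {C ρ ρ' : ℝ} {φ : ℂ → E} {c : ℂ} (h : Good_HW C φ c ρ) (hρ : ρ' ≤ ρ) :
    Good_HW C φ c ρ' :=
  ⟨h.1.mono (sdiff_subset_sdiff_left (ball_subset_ball hρ)),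
    fun z hz => h.2 z (sdiff_subset_sdiff_left (ball_subset_ball hρ) hz)⟩

theorem open_HW (c : ℂ) (ρ : ℝ) : IsOpen (ball c ρ \ {c}) := isOpen_ball.sdiff isClosed_singleton

theorem pow_HW {C ρ : ℝ} {φ : ℂ → E} {c : ℂ} (h : Good_HW C φ c ρ) (k : ℕ) :
    Good_HW C (fun z => ((z - c) ^ k)⁻¹ • φ z) c ρ := by
  have h1 : ContDiffOn ℂ 1 (fun z : ℂ => ((z - c) ^ k)⁻¹) (ball c ρ \ {c}) :=
    ((contDiffOn_id.sub contDiffOn_const).pow k).inv fun z hz => pow_ne_zero _ (sub_ne_zero.2 hz.2)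
  refine ⟨(h1.restrict_scalars ℝ).smul h.1, fun z hz => ?_⟩
  have h2 := (open_HW c ρ).mem_nhds hz
  rw [dbar_smul_HW ((h1.contDiffAt h2).differentiableAt one_ne_zero)
    ((h.1.contDiffAt h2).differentiableAt one_ne_zero), norm_smul, norm_smul, mul_left_comm]
  exact mul_le_mul_of_nonneg_left (h.2 z hz) (norm_nonneg _)

variable (E) in
/-- decomposition into a holomorphic and a small continuous part -/
def Dec_HW (B : ℝ) : Prop :=
  ∀ (φ : ℂ → E) (c : ℂ) (ρ C S : ℝ), 0 < ρ → 0 ≤ C → 0 ≤ S → Good_HW C φ c ρ →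
    (∀ z ∈ ball c ρ \ {c}, ‖φ z‖ ≤ S) → ∃ h u : ℂ → E, DifferentiableOn ℂ h (ball c ρ) ∧
      Continuous u ∧ (∀ z, ‖u z‖ ≤ B * ρ * (C * S)) ∧ ∀ z ∈ ball c ρ \ {c}, φ z = h z + u z

theorem dec_HW [CompleteSpace E] (h1 : T1Stmt) (h2 : T2Stmt) : ∃ B, 0 < B ∧ Dec_HW E B := by
  obtain ⟨B, hB, h1⟩ := h1
  refine ⟨B, hB, fun φ c ρ C S hρ hC hS hG hb => ?_⟩
  have hO := open_HW c ρ
  have hc : ContinuousOn (dbar φ) (ball c ρ \ {c}) := by
    have h3 := hG.1.continuousOn_fderiv_of_isOpen hO le_rfl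
    exact ((h3.clm_apply continuousOn_const).add
      ((h3.clm_apply continuousOn_const).const_smul I)).const_smul (1 / 2 : ℂ)
  have hg : Bdd ((ball c ρ \ {c}).indicator (dbar φ)) c ρ (C * S) := by
    refine ⟨(aestronglyMeasurable_indicator_iff hO.measurableSet).2
      (hc.aestronglyMeasurable hO.measurableSet), fun z => ?_, fun z hz => ?_⟩
    · by_cases hz : z ∈ ball c ρ \ {c}
      · rw [indicator_of_mem hz]
        exact (hG.2 z hz).trans (mul_le_mul_of_nonneg_left (hb z hz) hC)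
      · rw [indicator_of_notMem hz, norm_zero]
        positivity
    · exact indicator_of_notMem (fun h => not_lt.2 hz (mem_ball_iff_norm.1 h.1)) _
  obtain ⟨u1, u2⟩ := h1 E _ c ρ _ hρ hg
  have h3 := h2 E _ φ c ρ _ _ hg hO hG.1 fun z hz => (indicator_of_mem hz _).symm
  set u := cT ((ball c ρ \ {c}).indicator (dbar φ))
  have h4 := differentiableOn_update_limUnder_of_bddAbove (ball_mem_nhds c hρ) h3
    ⟨S + B * ρ * (C * S), by
      rintro _ ⟨z, hz, rfl⟩
      exact norm_sub_le_of_le (hb z hz) (u1 z)⟩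
  refine ⟨_, u, h4, continuous_iff_continuousAt.2 fun z => ?_, u1, fun z hz => ?_⟩
  · rw [ContinuousAt, tendsto_iff_norm_sub_tendsto_zero]
    refine squeeze_zero (fun _ => norm_nonneg _) (fun w => u2 w trivial z trivial) ?_
    have h5 : Continuous fun w : ℂ => B * √ρ * (C * S) * √‖w - z‖ := by fun_prop
    simpa using h5.tendsto z
  · rw [Function.update_of_ne hz.2, sub_add_cancel]

variable {B C : ℝ} {φ : ℂ → E} {c : ℂ}

theorem lim_HW {ρ : ℝ} (hρ : 0 < ρ) {h u : ℂ → E} (hh : DifferentiableOn ℂ h (ball c ρ))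
    (hu : Continuous u) (he : ∀ z ∈ ball c ρ \ {c}, φ z = h z + u z) :
    Tendsto φ (𝓝[≠] c) (𝓝 (h c + u c)) := by
  have h1 : ContinuousAt (fun z => h z + u z) c :=
    (hh.continuousOn.continuousAt (ball_mem_nhds c hρ)).add hu.continuousAt
  refine (h1.tendsto.mono_left nhdsWithin_le_nhds).congr' ?_
  filter_upwards [sdiff_mem_nhdsWithin_compl (ball_mem_nhds c hρ) {c}] with z hz
  exact (he z hz).symm

theorem half_HW (hD : Dec_HW E B) (hB : 0 < B) (hC : 0 ≤ C) {ρ S : ℝ} (hρ : 0 < ρ) (hS : 0 ≤ S)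
    (hG : Good_HW C φ c ρ) (h0 : Tendsto φ (𝓝[≠] c) (𝓝 0))
    (hb : ∀ z ∈ ball c ρ \ {c}, ‖φ z‖ ≤ S) :
    ∀ z ∈ ball c (ρ / 2) \ {c}, ‖φ z‖ ≤ S / 2 * (1 + 6 * B * C * ρ) := by
  obtain ⟨h, u, hh, hu, hs, he⟩ := hD φ c ρ C S hρ hC hS hG hb
  have h1 : h c + u c = 0 := tendsto_nhds_unique (lim_HW hρ hh hu he) h0
  have h2 : ∀ z, ‖u z - u c‖ ≤ B * ρ * (C * S) + B * ρ * (C * S) := fun z =>
    norm_sub_le_of_le (hs z) (hs c)
  have h3 : ∀ z ∈ ball c ρ \ {c}, φ z = h z - h c + (u z - u c) := fun z hz => by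
    rw [he z hz, eq_neg_of_add_eq_zero_left h1]
    abel
  have h4 : 0 ≤ B * ρ * (C * S) := by positivity
  have h5 : MapsTo h (ball c ρ) (closedBall (h c) (S + (B * ρ * (C * S) + B * ρ * (C * S)))) :=
    fun z hz => by
      by_cases e : z = c
      · rw [e]
        exact mem_closedBall_self (by positivity)
      · rw [mem_closedBall_iff_norm, ← sub_eq_iff_eq_add.2 (h3 z ⟨hz, e⟩)]
        exact norm_sub_le_of_le (hb z ⟨hz, e⟩) (h2 z)
  intro z hz
  have hz' : z ∈ ball c ρ := ball_subset_ball (by linarith) hz.1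
  have h6 := dist_le_div_mul_dist_of_mapsTo_ball hh h5 hz'
  have h7 : (S + (B * ρ * (C * S) + B * ρ * (C * S))) / ρ * dist z c ≤
      (S + (B * ρ * (C * S) + B * ρ * (C * S))) / ρ * (ρ / 2) :=
    mul_le_mul_of_nonneg_left (le_of_lt hz.1) (by positivity)
  rw [dist_eq_norm] at h6
  rw [h3 z ⟨hz', hz.2⟩]
  refine (norm_add_le_of_le (h6.trans h7) (h2 z)).trans (le_of_eq ?_)
  field_simp
  ring

theorem iter_HW (hD : Dec_HW E B) (hB : 0 < B) (hC : 0 ≤ C) {ρ S : ℝ} (hρ : 0 < ρ) (hS : 0 ≤ S)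
    (hG : Good_HW C φ c ρ) (h0 : Tendsto φ (𝓝[≠] c) (𝓝 0))
    (hb : ∀ z ∈ ball c ρ \ {c}, ‖φ z‖ ≤ S) (n : ℕ) :
    ∀ z ∈ ball c (ρ * (1 / 2) ^ n) \ {c},
      ‖φ z‖ ≤ S * (1 / 2) ^ n * Real.exp (12 * B * C * ρ * (1 - (1 / 2) ^ n)) := by
  induction n with
  | zero => simpa using hb
  | succ n ih =>
    intro z hz
    have h1 : (1 / 2 : ℝ) ^ n ≤ 1 := pow_le_one₀ (by norm_num) (by norm_num)
    have h2 := half_HW hD hB hC (by positivity) (by positivity)
      (mono_HW hG (mul_le_of_le_one_right hρ.le h1)) h0 ih z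
      (by rwa [pow_succ, ← mul_assoc, mul_one_div] at hz)
    refine h2.trans ?_
    have h3 := Real.add_one_le_exp (6 * B * C * (ρ * (1 / 2) ^ n))
    have h4 : Real.exp (12 * B * C * ρ * (1 - (1 / 2) ^ (n + 1))) =
        Real.exp (12 * B * C * ρ * (1 - (1 / 2) ^ n)) *
          Real.exp (6 * B * C * (ρ * (1 / 2) ^ n)) := by
      rw [← Real.exp_add]
      congr 1
      ring
    rw [h4, add_comm 1]
    refine (mul_le_mul_of_nonneg_left h3 (by positivity)).trans (le_of_eq ?_)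
    ring

theorem lin_HW (hD : Dec_HW E B) (hB : 0 < B) (hC : 0 ≤ C) {ρ S : ℝ} (hρ : 0 < ρ) (hS : 0 ≤ S)
    (hG : Good_HW C φ c ρ) (h0 : Tendsto φ (𝓝[≠] c) (𝓝 0))
    (hb : ∀ z ∈ ball c ρ \ {c}, ‖φ z‖ ≤ S) :
    ∃ K, 0 ≤ K ∧ ∀ z ∈ ball c ρ \ {c}, ‖φ z‖ ≤ K * ‖z - c‖ := by
  refine ⟨2 * S * Real.exp (12 * B * C * ρ) / ρ, by positivity, fun z hz => ?_⟩
  have h1 : 0 < ‖z - c‖ := norm_pos_iff.2 (sub_ne_zero.2 hz.2)
  obtain ⟨n, hn⟩ := exists_pow_lt_of_lt_one (div_pos h1 hρ) (show (1 / 2 : ℝ) < 1 by norm_num)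
  have hn' : ρ * (1 / 2) ^ n ≤ ‖z - c‖ := by
    rw [lt_div_iff₀ hρ, mul_comm] at hn
    exact hn.le
  clear hn
  induction n with
  | zero =>
    rw [pow_zero, mul_one] at hn'
    exact absurd (mem_ball_iff_norm.1 hz.1) (not_lt.2 hn')
  | succ n ih =>
    by_cases h2 : ρ * (1 / 2) ^ n ≤ ‖z - c‖
    · exact ih h2
    refine (iter_HW hD hB hC hρ hS hG h0 hb n z
      ⟨mem_ball_iff_norm.2 (not_le.1 h2), hz.2⟩).trans ?_
    have h3 : Real.exp (12 * B * C * ρ * (1 - (1 / 2) ^ n)) ≤ Real.exp (12 * B * C * ρ) :=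
      Real.exp_le_exp.2 (mul_le_of_le_one_right (by positivity) (sub_le_self _ (by positivity)))
    refine (mul_le_mul_of_nonneg_left h3 (by positivity)).trans
      (le_trans (le_of_eq ?_) (mul_le_mul_of_nonneg_left hn' (by positivity)))
    field_simp
    ring

theorem max_HW (hD : Dec_HW E B) (hC : 0 ≤ C) {ρ S A : ℝ} (hρ : 0 < ρ)
    (hs : B * ρ * C ≤ 1 / 4) (hS : 0 ≤ S) (hA : 0 ≤ A) (hG : Good_HW C φ c ρ)
    (hb : ∀ z ∈ ball c ρ \ {c}, ‖φ z‖ ≤ S)
    (ha : ∀ z ∈ ball c ρ, ρ / 2 ≤ ‖z - c‖ → ‖φ z‖ ≤ A) :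
    ∀ z ∈ ball c ρ \ {c}, ‖φ z‖ ≤ 2 * A := by
  have step : ∀ S, 0 ≤ S → (∀ z ∈ ball c ρ \ {c}, ‖φ z‖ ≤ S) →
      ∀ z ∈ ball c ρ \ {c}, ‖φ z‖ ≤ A + S / 2 := fun S hS hb z hz => by
    by_cases h1 : ρ / 2 ≤ ‖z - c‖
    · exact (ha z hz.1 h1).trans (le_add_of_nonneg_right (by positivity))
    obtain ⟨h, u, hh, -, hu, he⟩ := hD φ c ρ C S hρ hC hS hG hb
    have hu' : ∀ z, ‖u z‖ ≤ S / 4 := fun z => (hu z).trans (by
      rw [← mul_assoc]
      exact (mul_le_mul_of_nonneg_right hs hS).trans (le_of_eq (by ring)))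
    have h2 : closedBall c (ρ / 2) ⊆ ball c ρ := closedBall_subset_ball (by linarith)
    have h3 : ‖h z‖ ≤ A + S / 4 := by
      refine norm_le_of_forall_mem_frontier_norm_le isBounded_ball (hh.diffContOnCl_ball h2)
        (fun w hw => ?_) (subset_closure (mem_ball_iff_norm.2 (not_le.1 h1)))
      rw [frontier_ball c (by positivity)] at hw
      have h4 := mem_sphere_iff_norm.1 hw
      have h5 : w ∈ ball c ρ := h2 (sphere_subset_closedBall hw)
      have h6 : w ≠ c := fun e => by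
        rw [e, sub_self, norm_zero] at h4
        linarith
      rw [← sub_eq_iff_eq_add.2 (he w ⟨h5, h6⟩)]
      exact norm_sub_le_of_le (ha w h5 h4.ge) (hu' w)
    rw [he z hz]
    exact (norm_add_le_of_le h3 (hu' z)).trans (le_of_eq (by ring))
  have h1 : ∀ n : ℕ, ∀ z ∈ ball c ρ \ {c}, ‖φ z‖ ≤ 2 * A + S * (1 / 2) ^ n := fun n => by
    induction n with
    | zero => exact fun z hz => (hb z hz).trans (by simpa using hA)
    | succ n ih => exact fun z hz => (step _ (by positivity) ih z hz).trans (le_of_eq (by ring))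
  intro z hz
  have h2 := ((tendsto_pow_atTop_nhds_zero_of_lt_one (show (0 : ℝ) ≤ 1 / 2 by norm_num)
    (by norm_num)).const_mul S).const_add (2 * A)
  rw [mul_zero, add_zero] at h2
  exact ge_of_tendsto' h2 fun n => h1 n z hz

end

theorem hw (h1 : T1Stmt) (h2 : T2Stmt) : HWStmt := by
  intro E _ _ _ v c r C M hr hv hb
  obtain ⟨B, hB, hD⟩ := dec_HW (E := E) h1 h2
  have hC := abs_nonneg C
  have hM := abs_nonneg M
  obtain ⟨ρ, hρ, hρr, hs⟩ : ∃ ρ, 0 < ρ ∧ ρ ≤ r ∧ B * ρ * |C| ≤ 1 / 4 := by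
    refine ⟨min r (1 / (4 * (B * |C| + 1))), by positivity, min_le_left _ _, ?_⟩
    have h3 : B * |C| * min r (1 / (4 * (B * |C| + 1))) ≤ B * |C| * (1 / (4 * (B * |C| + 1))) :=
      mul_le_mul_of_nonneg_left (min_le_right _ _) (by positivity)
    rw [mul_right_comm]
    refine h3.trans ?_
    rw [mul_one_div, div_le_div_iff₀ (by positivity) (by positivity)]
    linarith
  have hG : Good_HW |C| v c ρ := mono_HW ⟨hv, fun z hz => (hb z hz).2.trans
    (mul_le_mul_of_nonneg_right (le_abs_self C) (norm_nonneg _))⟩ hρr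
  have hb' : ∀ z ∈ ball c ρ \ {c}, ‖v z‖ ≤ |M| := fun z hz =>
    (hb z (sdiff_subset_sdiff_left (ball_subset_ball hρr) hz)).1.trans (le_abs_self M)
  refine or_iff_not_imp_right.2 fun hn => ?_
  have h3 : ∀ k : ℕ, ∃ S, 0 ≤ S ∧ ∀ z ∈ ball c ρ \ {c}, ‖((z - c) ^ k)⁻¹ • v z‖ ≤ S := fun k => by
    induction k with
    | zero => exact ⟨|M|, hM, by simpa using hb'⟩
    | succ k ih =>
      obtain ⟨S, hS, ih⟩ := ih
      obtain ⟨h, u, hh, hu, -, he⟩ := hD _ c ρ _ S hρ hC hS (pow_HW hG k) ih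
      have h4 := lim_HW hρ hh hu he
      have h5 : h c + u c = 0 := by_contra fun e => hn ⟨k, _, e, h4⟩
      rw [h5] at h4
      obtain ⟨K, hK, h6⟩ := lin_HW hD hB hC hρ hS (pow_HW hG k) h4 ih
      refine ⟨K, hK, fun z hz => ?_⟩
      have h7 : 0 < ‖z - c‖ := norm_pos_iff.2 (sub_ne_zero.2 hz.2)
      rw [pow_succ', mul_inv, mul_smul, norm_smul, norm_inv, inv_mul_le_iff₀ h7, mul_comm]
      exact h6 z hz
  have h4 : ∀ (k : ℕ), ∀ z ∈ ball c ρ \ {c},
      ‖((z - c) ^ k)⁻¹ • v z‖ ≤ 2 * (((ρ / 2) ^ k)⁻¹ * |M|) := fun k => by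
    obtain ⟨S, hS, h5⟩ := h3 k
    refine max_HW hD hC hρ hs hS (by positivity) (pow_HW hG k) h5 fun z hz h6 => ?_
    have h7 : z ≠ c := fun e => by
      rw [e, sub_self, norm_zero] at h6
      linarith
    rw [norm_smul, norm_inv, norm_pow]
    exact mul_le_mul (inv_anti₀ (by positivity) (pow_le_pow_left₀ (by positivity) h6 k))
      (hb' z ⟨hz, h7⟩) (norm_nonneg _) (by positivity)
  filter_upwards [sdiff_mem_nhdsWithin_compl (ball_mem_nhds c (half_pos hρ)) {c}] with z hz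
  have h5 : 0 < ‖z - c‖ := norm_pos_iff.2 (sub_ne_zero.2 hz.2)
  have h6 := (tendsto_pow_atTop_nhds_zero_of_lt_one (div_pos h5 (half_pos hρ)).le
    ((div_lt_one (half_pos hρ)).2 (mem_ball_iff_norm.1 hz.1))).const_mul (2 * |M|)
  rw [mul_zero] at h6
  refine norm_le_zero_iff.1 (ge_of_tendsto' h6 fun k => ?_)
  have h7 := h4 k z ⟨ball_subset_ball (by linarith) hz.1, hz.2⟩
  rw [norm_smul, norm_inv, norm_pow, inv_mul_le_iff₀ (by positivity)] at h7
  refine h7.trans (le_of_eq ?_)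
  rw [div_pow _ (ρ / 2)]
  ring

end Pool.Agent.MP_2fc7fa_gt.N

end

section

/-! Being embedded is an open condition. -/

open scoped Topology
open Set Filter Metric

namespace Pool.Agent.MP_2fc7fa_gt.N

section
variable {E F : Type} [NormedAddCommGroup E] [NormedSpace ℝ E] [NormedAddCommGroup F]
  [NormedSpace ℝ F] {U : E → F}

theorem unit_EmbOpen {q : E} (hq : q ≠ 0) : ∃ (c : ℝ) (u : E), 0 < c ∧ ‖u‖ = 1 ∧ q = c • u :=
  ⟨‖q‖, ‖q‖⁻¹ • q, norm_pos_iff.2 hq, norm_smul_inv_norm hq,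
    (smul_inv_smul₀ (norm_ne_zero_iff.2 hq) q).symm⟩

theorem bound_EmbOpen (hU : ∀ (c : ℝ) q, U (c • q) = c • U q) {C : ℝ}
    (h : ∀ q, ‖q‖ = 1 → ‖U q‖ ≤ C) (q : E) : ‖U q‖ ≤ C * ‖q‖ := by
  rcases eq_or_ne q 0 with rfl | hq
  · simpa using hU 0 0
  obtain ⟨c, u, hc, hu, rfl⟩ := unit_EmbOpen hq
  rw [hU, norm_smul, norm_smul, hu, mul_one, mul_comm]
  exact mul_le_mul_of_nonneg_right (h u hu) (norm_nonneg c)

theorem fderiv_EmbOpen (hU : ∀ (c : ℝ) q, U (c • q) = c • U q) {c : ℝ} (hc : c ≠ 0) (q : E) :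
    fderiv ℝ U (c • q) = fderiv ℝ U q := by
  have h := fderiv_comp_smul (𝕜 := ℝ) (f := U) (x := q) c
  rw [show (fun x => U (c • x)) = c • U from funext (hU c), fderiv_const_smul_field] at h
  exact (smul_right_injective _ hc h).symm

theorem lip_EmbOpen (hU : ∀ (c : ℝ) q, U (c • q) = c • U q)
    (hd : ∀ q, q ≠ 0 → DifferentiableAt ℝ U q) {C : ℝ}
    (h : ∀ q, ‖q‖ = 1 → ‖U q‖ ≤ C ∧ ‖fderiv ℝ U q‖ ≤ C) (x y : E) : ‖U y - U x‖ ≤ C * ‖y - x‖ := by
  by_cases h0 : 0 ∈ segment ℝ x y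
  · obtain ⟨a, b, -, -, hab, h1⟩ := h0
    obtain rfl : a = 1 - b := eq_sub_of_add_eq hab
    have h2 := hU (-b) (y - x)
    have h3 := hU (1 - b) (y - x)
    rw [show (-b) • (y - x) = x by linear_combination (norm := module) -h1] at h2
    rw [show (1 - b) • (y - x) = y by linear_combination (norm := module) -h1] at h3
    rw [show U y - U x = U (y - x) by rw [h2, h3]; module]
    exact bound_EmbOpen hU (fun q hq => (h q hq).1) _
  · refine (convex_segment x y).norm_image_sub_le_of_norm_fderiv_le (𝕜 := ℝ)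
      (fun q hq => hd q (by rintro rfl; exact h0 hq)) (fun q hq => ?_) (left_mem_segment ℝ x y)
      (right_mem_segment ℝ x y)
    obtain ⟨c, u, hc, hu, rfl⟩ := unit_EmbOpen (q := q) (by rintro rfl; exact h0 hq)
    rw [fderiv_EmbOpen hU hc.ne']
    exact (h u hu).2

theorem imm_EmbOpen {m : ℝ} (hm : 0 < m) (h : ∀ x y, m * ‖x - y‖ ≤ ‖U x - U y‖) {q : E}
    (hd : DifferentiableAt ℝ U q) : Function.Injective (fderiv ℝ U q) := by
  refine (injective_iff_map_eq_zero _).2 fun v hv => ?_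
  have h1 := (hd.hasFDerivAt.hasLineDerivAt v).tendsto_slope_zero.norm
  rw [hv, norm_zero] at h1
  have h2 : m * ‖v‖ ≤ 0 := ge_of_tendsto h1 (eventually_nhdsWithin_of_forall fun t ht => by
    have h3 := h (q + t • v) q
    rw [add_sub_cancel_left, norm_smul, mul_left_comm] at h3
    rw [norm_smul, norm_inv, le_inv_mul_iff₀ (norm_pos_iff.2 ht)]
    exact h3)
  exact norm_le_zero_iff.1 (nonpos_of_mul_nonpos_right h2 hm)

theorem low_EmbOpen [FiniteDimensional ℝ E] (hU : ∀ (c : ℝ) q, U (c • q) = c • U q)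
    (hd : ∀ q, q ≠ 0 → ContDiffAt ℝ 1 U q) (hi : Function.Injective U)
    (hm : ∀ q, q ≠ 0 → Function.Injective (fderiv ℝ U q)) :
    ∃ m : ℝ, 0 < m ∧ ∀ x y, m * ‖x - y‖ ≤ ‖U x - U y‖ := by
  have : ProperSpace E := FiniteDimensional.proper_real E
  have hc : Continuous U := by
    obtain ⟨C, hC⟩ := (isCompact_sphere (0 : E) 1).exists_bound_of_continuousOn (f := U)
      fun q hq => (hd q (ne_zero_of_mem_unit_sphere ⟨q, hq⟩)).continuousAt.continuousWithinAt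
    refine continuous_iff_continuousAt.2 fun q => ?_
    rcases eq_or_ne q 0 with rfl | hq
    · rw [ContinuousAt, show U 0 = 0 by simpa using hU 0 0]
      exact squeeze_zero_norm (bound_EmbOpen hU fun q hq => hC q (by simpa using hq))
        (by simpa using (tendsto_norm_zero (E := E)).const_mul C)
    · exact (hd q hq).continuousAt
  obtain ⟨m, m0, hm⟩ : ∃ m : ℝ, 0 < m ∧ ∀ z ∈ sphere (0 : E × E) 1,
      m * ‖z.1 - z.2‖ ≤ ‖U z.1 - U z.2‖ := by
    refine (isCompact_sphere (0 : E × E) 1).induction_on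
      (p := fun s => ∃ m : ℝ, 0 < m ∧ ∀ z ∈ s, m * ‖z.1 - z.2‖ ≤ ‖U z.1 - U z.2‖)
      ⟨1, one_pos, by simp⟩ (fun s t hst ⟨m, m0, h⟩ => ⟨m, m0, fun z hz => h z (hst hz)⟩)
      (fun s t ⟨m, m0, h⟩ ⟨n, n0, h'⟩ => ⟨min m n, lt_min m0 n0, fun z hz => hz.elim
        (fun hz => le_trans (by gcongr; exact min_le_left _ _) (h z hz))
        fun hz => le_trans (by gcongr; exact min_le_right _ _) (h' z hz)⟩) fun ⟨a, b⟩ hz => ?_
    suffices h : ∃ m : ℝ, 0 < m ∧ ∀ᶠ z in 𝓝 (a, b), m * ‖z.1 - z.2‖ ≤ ‖U z.1 - U z.2‖ by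
      obtain ⟨m, m0, h⟩ := h
      exact ⟨_, mem_nhdsWithin_of_mem_nhds h, m, m0, fun _ h => h⟩
    rcases eq_or_ne a b with rfl | hab
    · have ha : a ≠ 0 := by rintro rfl; simp at hz
      obtain ⟨K, K0, hK⟩ := (fderiv ℝ U a).toLinearMap.exists_antilipschitzWith
        (LinearMap.ker_eq_bot.2 (hm a ha))
      have K1 : (0 : ℝ) < (2 * K : ℝ)⁻¹ := by positivity
      refine ⟨_, K1, ?_⟩
      filter_upwards [((hd a ha).hasStrictFDerivAt one_ne_zero).isLittleO.def K1] with z h1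
      have h2 : ‖z.1 - z.2‖ ≤ K * ‖fderiv ℝ U a (z.1 - z.2)‖ :=
        ZeroHomClass.bound_of_antilipschitz _ hK _
      have h3 := norm_sub_norm_le (fderiv ℝ U a (z.1 - z.2)) (U z.1 - U z.2)
      rw [norm_sub_rev (fderiv ℝ U a _)] at h3
      have h4 : 2 * ((2 * K : ℝ)⁻¹ * ‖z.1 - z.2‖) ≤ ‖fderiv ℝ U a (z.1 - z.2)‖ := by
        have K2 : (0 : ℝ) < K := K0
        rw [← mul_assoc, show 2 * (2 * K : ℝ)⁻¹ = (K : ℝ)⁻¹ by field_simp, inv_mul_le_iff₀ K2]
        exact h2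
      linarith
    · have h1 : 0 < ‖U a - U b‖ := norm_pos_iff.2 (sub_ne_zero.2 (hi.ne hab))
      have h2 : 0 < ‖a - b‖ := norm_pos_iff.2 (sub_ne_zero.2 hab)
      refine ⟨‖U a - U b‖ / 2 / ‖a - b‖, by positivity, (ContinuousAt.eventually_lt
        (by fun_prop) (by fun_prop) ?_).mono fun _ h => h.le⟩
      rw [div_mul_cancel₀ _ h2.ne']
      exact half_lt_self h1
  refine ⟨m, m0, fun x y => ?_⟩
  rcases eq_or_ne (x, y) 0 with h | h
  · obtain ⟨rfl, rfl⟩ := Prod.mk_eq_zero.1 h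
    simp
  obtain ⟨c, u, c0, hu, h1⟩ := unit_EmbOpen h
  obtain ⟨rfl, rfl⟩ := Prod.ext_iff.1 h1
  rw [Prod.smul_fst, Prod.smul_snd, hU, hU, ← smul_sub, ← smul_sub, norm_smul, norm_smul,
    mul_left_comm]
  exact mul_le_mul_of_nonneg_left (hm u (by simpa using hu)) (norm_nonneg c)

end

theorem embOpen : EmbOpenStmt := by
  intro U₀ c₀ h₀ n₀ e₀
  have hr : ∀ {U : W → V}, (∀ (c : ℂ) q, U (c • q) = c • U q) →
      ∀ (c : ℝ) q, U (c • q) = c • U q := fun h c q => by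
    simpa only [Complex.coe_smul] using h c q
  have hd : ∀ {U : W → V}, ContDiffOn ℝ 1 U {0}ᶜ → ∀ q, q ≠ 0 → ContDiffAt ℝ 1 U q :=
    fun h q hq => h.contDiffAt (isOpen_compl_singleton.mem_nhds hq)
  have z₀ : U₀ 0 = 0 := by simpa using h₀ 0 0
  obtain ⟨m, m0, hm⟩ := low_EmbOpen (hr h₀) (hd c₀) (fun x y h => by
    rcases eq_or_ne x 0 with rfl | hx <;> rcases eq_or_ne y 0 with rfl | hy
    exacts [rfl, absurd (h.symm.trans z₀) (n₀ y hy), absurd (h.trans z₀) (n₀ x hx),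
      e₀.inj hx hy h]) e₀.imm
  refine ⟨m / 2, half_pos m0, fun U c h hn => ?_⟩
  have d₀ := fun q hq => (hd c₀ q hq).differentiableAt one_ne_zero
  have d := fun q hq => (hd c q hq).differentiableAt one_ne_zero
  have h1 := lip_EmbOpen (U := U - U₀) (fun c q => by
    simp only [Pi.sub_apply, hr h, hr h₀, smul_sub]) (fun q hq => (d q hq).sub (d₀ q hq))
    (C := m / 2) fun q hq => by
      have q0 : q ≠ 0 := by rintro rfl; simp at hq
      rw [fderiv_sub (d q q0) (d₀ q q0)]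
      exact hn q hq
  have h2 : ∀ x y, m / 2 * ‖x - y‖ ≤ ‖U x - U y‖ := fun x y => by
    have h3 := norm_sub_le (U x - U y) ((U - U₀) x - (U - U₀) y)
    rw [show U x - U y - ((U - U₀) x - (U - U₀) y) = U₀ x - U₀ y by simp only [Pi.sub_apply]; abel]
      at h3
    linarith [hm x y, h1 y x]
  refine ⟨fun q hq => imm_EmbOpen (half_pos m0) h2 (d q hq), fun x _ y _ hxy => ?_⟩
  have h3 := h2 x y
  rw [hxy, sub_self (U y), norm_zero] at h3
  exact sub_eq_zero.1 (norm_le_zero_iff.1 (nonpos_of_mul_nonpos_right h3 (half_pos m0)))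

end Pool.Agent.MP_2fc7fa_gt.N

end

section

open scoped ContDiff ComplexConjugate Topology
open Set Complex Filter Metric

noncomputable section

namespace Pool.Agent.MP_2fc7fa_gt.N

theorem low_Diff (A : W → W →L[ℝ] W) (Ω K : Set W) (hA : Cofr A Ω) (hK : IsCompact K)
    (hKΩ : K ⊆ Ω) : ∃ C : ℝ, 0 ≤ C ∧ ∀ p ∈ K, ∀ v : W, ‖v‖ ≤ C * ‖A p v‖ := by
  have hc : ContinuousOn (fun q : W × W => ‖A q.1 q.2‖) (K ×ˢ sphere (0 : W) 1) := by
    have h1 : ContinuousOn (fun q : W × W => A q.1) (K ×ˢ sphere (0 : W) 1) :=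
      hA.2.1.continuousOn.comp continuous_fst.continuousOn (fun q hq => hKΩ hq.1)
    exact (h1.clm_apply continuous_snd.continuousOn).norm
  obtain ⟨a, ha, hle⟩ := (hK.prod (isCompact_sphere (0 : W) 1)).exists_forall_le' hc (a := 0) (by
    rintro ⟨p, v⟩ ⟨hp, hv⟩
    have hv' : ‖v‖ = 1 := by simpa using hv
    refine norm_pos_iff.2 (fun h0 => ?_)
    have : v = 0 := hA.2.2 p (hKΩ hp) (by simpa using h0)
    rw [this] at hv'
    simp at hv')
  refine ⟨a⁻¹, by positivity, fun p hp v => ?_⟩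
  rcases eq_or_ne v 0 with rfl | hv
  · simp
  · have hn : 0 < ‖v‖ := norm_pos_iff.2 hv
    have hs : (‖v‖⁻¹ • v) ∈ sphere (0 : W) 1 := by
      simp [norm_smul, hn.ne']
    have h1 := hle (p, ‖v‖⁻¹ • v) ⟨hp, hs⟩
    simp only [map_smul, norm_smul, norm_inv, norm_norm] at h1
    rw [inv_mul_eq_div, le_div_iff₀ hn] at h1
    rw [inv_mul_eq_div, le_div_iff₀ ha]
    linarith

theorem alg_Diff (E1 EI a1 aI b1 bI Y1 YI : W) (l : ℂ) (S e : ℝ) (hl : ‖l‖ ≤ S)
    (h1 : Y1 = E1 + b1 - a1) (hI : YI = EI + bI - aI) (ha : aI = I • a1)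
    (hb1 : b1.2 = l * b1.1) (hbI : bI.2 = l * bI.1) (hY1 : Y1.1 = 0) (hYI : YI.1 = 0)
    (hE1 : ‖E1‖ ≤ e) (hEI : ‖EI‖ ≤ e) :
    ‖(1 / 2 : ℂ) • (Y1.2 + I • YI.2)‖ ≤ (1 + S) * e := by
  have e1 : b1.1 = a1.1 - E1.1 := by
    have : Y1.1 = E1.1 + b1.1 - a1.1 := by rw [h1]; rfl
    rw [hY1] at this
    linear_combination -this
  have eI : bI.1 = I * a1.1 - EI.1 := by
    have : YI.1 = EI.1 + bI.1 - I * a1.1 := by rw [hI, ha]; rfl
    rw [hYI] at this
    linear_combination -this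
  have f1 : Y1.2 = E1.2 + b1.2 - a1.2 := by rw [h1]; rfl
  have fI : YI.2 = EI.2 + bI.2 - I * a1.2 := by rw [hI, ha]; rfl
  have key : (1 / 2 : ℂ) • (Y1.2 + I • YI.2) =
      (1 / 2 : ℂ) * ((E1.2 - l * E1.1) + I * (EI.2 - l * EI.1)) := by
    rw [f1, fI, hb1, hbI, e1, eI]
    simp only [smul_eq_mul]
    have := I_mul_I
    linear_combination (1 / 2 : ℂ) * (l * a1.1 - a1.2) * this
  have bd : ∀ E : W, ‖E‖ ≤ e → ‖E.2 - l * E.1‖ ≤ (1 + S) * e := by
    intro E hE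
    have p1 : ‖E.1‖ ≤ e := (norm_fst_le E).trans hE
    have p2 : ‖E.2‖ ≤ e := (norm_snd_le E).trans hE
    have p3 : ‖l * E.1‖ ≤ S * e := by
      rw [norm_mul]
      exact mul_le_mul hl p1 (norm_nonneg _) ((norm_nonneg _).trans hl)
    have := norm_sub_le E.2 (l * E.1)
    linarith
  rw [key, norm_mul]
  have q1 := bd E1 hE1
  have qI := bd EI hEI
  have q2 := norm_add_le (E1.2 - l * E1.1) (I * (EI.2 - l * EI.1))
  rw [norm_mul, norm_I, one_mul] at q2
  have q3 : ‖(1 / 2 : ℂ)‖ = 1 / 2 := by simp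
  rw [q3]
  linarith

theorem diff : DiffStmt := by
  intro A Ω K S M hA hK hconv hKΩ
  obtain ⟨C0, hC0, hlow⟩ := low_Diff A Ω K hA hK hKΩ
  have hdA : ∀ p ∈ K, DifferentiableAt ℝ A p := fun p hp =>
    (hA.2.1.contDiffAt (hA.1.mem_nhds (hKΩ hp))).differentiableAt (by simp)
  have hcf : ContinuousOn (fderiv ℝ A) K :=
    (hA.2.1.continuousOn_fderiv_of_isOpen hA.1 (by simp)).mono hKΩ
  obtain ⟨C1, hC1⟩ : ∃ C1 : ℝ, ∀ p ∈ K, ‖fderiv ℝ A p‖ ≤ C1 :=
    IsCompact.exists_bound_of_continuousOn (E := W →L[ℝ] W →L[ℝ] W) hK hcf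
  refine ⟨(1 + S) * (2 * C1 * M * C0), ?_⟩
  intro x x' z hx hx' hxK hx'K hM hM' hCR hl hev
  obtain ⟨l, hlS, hl⟩ := hl
  have hC1' : 0 ≤ C1 := ((fderiv ℝ A (x z)).opNorm_nonneg).trans (hC1 _ hxK)
  have hM0 : 0 ≤ M := (norm_nonneg _).trans hM
  have hS0 : 0 ≤ S := (norm_nonneg _).trans hlS
  have hAx : HasFDerivAt (fun t => A (x t)) ((fderiv ℝ A (x z)).comp (fderiv ℝ x z)) z :=
    (hdA _ hxK).hasFDerivAt.comp z hx.hasFDerivAt
  have hd : HasFDerivAt (fun t => x' t - x t) (fderiv ℝ x' z - fderiv ℝ x z) z :=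
    hx'.hasFDerivAt.sub hx.hasFDerivAt
  have hy := hAx.clm_apply hd
  set Y := (A (x z)).comp (fderiv ℝ x' z - fderiv ℝ x z) +
    ((fderiv ℝ A (x z)).comp (fderiv ℝ x z)).flip (x' z - x z) with hYdef
  have hY : ∀ h, Y h = (fderiv ℝ A (x z) (fderiv ℝ x z h) (x' z - x z) +
      (A (x z) - A (x' z)) (fderiv ℝ x' z h)) + A (x' z) (fderiv ℝ x' z h) -
      A (x z) (fderiv ℝ x z h) := by
    intro h
    simp only [hYdef, add_apply, ContinuousLinearMap.comp_apply,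
      sub_apply, ContinuousLinearMap.flip_apply, map_sub]
    abel
  have hY1 : ∀ h, (Y h).1 = 0 := by
    intro h
    have h1 : HasFDerivAt (fun t => (A (x t) (x' t - x t)).1)
        ((ContinuousLinearMap.fst ℝ ℂ ℂ).comp Y) z := hy.fst
    have h2 : HasFDerivAt (fun t => (A (x t) (x' t - x t)).1) (0 : ℂ →L[ℝ] ℂ) z :=
      (hasFDerivAt_const (0 : ℂ) z).congr_of_eventuallyEq hev
    have h3 := h1.unique h2
    have := congrArg (fun L : ℂ →L[ℝ] ℂ => L h) h3
    simpa using this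
  have hY2 : fderiv ℝ (fun t => (A (x t) (x' t - x t)).2) z =
      (ContinuousLinearMap.snd ℝ ℂ ℂ).comp Y := hy.snd.fderiv
  have hy0 : (A (x z) (x' z - x z)).1 = 0 := hev.self_of_nhds
  have hnorm : ‖A (x z) (x' z - x z)‖ = ‖(A (x z) (x' z - x z)).2‖ := by
    rw [Prod.norm_def, hy0]
    simp
  have hdle : ‖x' z - x z‖ ≤ C0 * ‖(A (x z) (x' z - x z)).2‖ := hnorm ▸ hlow _ hxK _
  have hLip : ‖A (x z) - A (x' z)‖ ≤ C1 * ‖x' z - x z‖ := by
    rw [norm_sub_rev (x' z)]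
    exact hconv.norm_image_sub_le_of_norm_fderiv_le hdA hC1 hx'K hxK
  have hE : ∀ h : ℂ, ‖h‖ = 1 → ‖fderiv ℝ A (x z) (fderiv ℝ x z h) (x' z - x z) +
      (A (x z) - A (x' z)) (fderiv ℝ x' z h)‖ ≤
      2 * C1 * M * C0 * ‖(A (x z) (x' z - x z)).2‖ := by
    intro h hh
    have a1 : ‖fderiv ℝ x z h‖ ≤ M := by
      have := (fderiv ℝ x z).le_opNorm h
      rw [hh] at this
      linarith
    have a2 : ‖fderiv ℝ x' z h‖ ≤ M := by
      have := (fderiv ℝ x' z).le_opNorm h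
      rw [hh] at this
      linarith
    have a3 : ‖fderiv ℝ A (x z) (fderiv ℝ x z h)‖ ≤ C1 * M :=
      ((fderiv ℝ A (x z)).le_opNorm _).trans
        (mul_le_mul (hC1 _ hxK) a1 (norm_nonneg _) hC1')
    have a4 : ‖fderiv ℝ A (x z) (fderiv ℝ x z h) (x' z - x z)‖ ≤ C1 * M * ‖x' z - x z‖ :=
      ((fderiv ℝ A (x z) (fderiv ℝ x z h)).le_opNorm _).trans
        (mul_le_mul_of_nonneg_right a3 (norm_nonneg _))
    have a5 : ‖(A (x z) - A (x' z)) (fderiv ℝ x' z h)‖ ≤ C1 * ‖x' z - x z‖ * M :=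
      ((A (x z) - A (x' z)).le_opNorm _).trans
        (mul_le_mul hLip a2 (norm_nonneg _) (by positivity))
    have a6 := norm_add_le (fderiv ℝ A (x z) (fderiv ℝ x z h) (x' z - x z))
      ((A (x z) - A (x' z)) (fderiv ℝ x' z h))
    have a7 : 2 * C1 * M * ‖x' z - x z‖ ≤ 2 * C1 * M * (C0 * ‖(A (x z) (x' z - x z)).2‖) :=
      mul_le_mul_of_nonneg_left hdle (by positivity)
    linarith
  have hfin := alg_Diff _ _ _ _ _ _ (Y 1) (Y I) l S _ hlS (hY 1) (hY I) (hCR z rfl) (hl 1) (hl I)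
    (hY1 1) (hY1 I) (hE 1 (by simp)) (hE I (by simp))
  unfold dbar
  rw [hY2]
  simp only [ContinuousLinearMap.comp_apply, ContinuousLinearMap.coe_snd']
  linarith

end Pool.Agent.MP_2fc7fa_gt.N

end
end

section

/-! Interface statements for the continuity method (PROOF.md, B7 and B8). -/

open scoped ContDiff ComplexConjugate Topology
open Set Complex Filter Metric

noncomputable section

namespace Pool.Agent.MP_2fc7fa_gt.N

/-- The affine chart number `a`. -/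
def ch (a : Fin 3) (x : V) : W := (x (a + 1) / x a, x (a + 2) / x a)

/-- The vector with coordinate `c` at `a` and the coordinates of `y` at the other places. -/
def unch (a : Fin 3) (c : ℂ) (y : W) : V := fun j => if j = a then c else if j = a + 1 then y.1 else y.2

/-- A coframe `A` on the chart number `a` that is induced by the frame `φ`. -/
def IsChart (φ : Fr) (a : Fin 3) (A : W → W →L[ℝ] W) : Prop :=
  ∀ y h, A y h =
    (φ.A (unch a 1 y) (unch a 0 h) (a + 1) - φ.A (unch a 1 y) (unch a 0 h) a * y.1,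
      φ.A (unch a 1 y) (unch a 0 h) (a + 2) - φ.A (unch a 1 y) (unch a 0 h) a * y.2)

/-- Passage to an affine chart. -/
def ChartStmt : Prop :=
  (∀ (φ : Fr) (a : Fin 3), ∃ A, IsChart φ a A) ∧
  (∀ (φ : Fr) (a : Fin 3) A, IsChart φ a A → Cofr A univ ∧
    ∀ (u : ℂ → V) (z : ℂ), DifferentiableAt ℝ u z → u z a ≠ 0 → CR φ.A u {z} →
      CR A (ch a ∘ u) {z} ∧ (fderiv ℝ (ch a ∘ u) z 1 = 0 ↔ ∃ c : ℂ, fderiv ℝ u z 1 = c • u z)) ∧
  ∀ (P : Type) [TopologicalSpace P] (φ : P → Fr) (p : ℕ → P) (p₀ : P) (a : Fin 3)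
    (An : ℕ → W → W →L[ℝ] W) (A : W → W →L[ℝ] W), FrFam φ → Tendsto p atTop (𝓝 p₀) →
    (∀ n, IsChart (φ (p n)) a (An n)) → IsChart (φ p₀) a A →
    TendstoLocallyUniformlyOn An A atTop univ

/-- `S` is contained in finitely many complex lines through the origin. -/
def FewLines (S : Set W) : Prop := ∃ F : Set W, F.Finite ∧ ∀ q ∈ S, ∃ f ∈ F, ∃ c : ℂ, q = c • f

/-- A line has finitely many critical points and finite fibres. -/
def FinStmt : Prop :=
  ∀ (φ : Fr) (U : W → V), IsLine φ.J U →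
    FewLines {q | ¬ Function.Injective (fderiv ℝ U q)} ∧
      ∀ x : V, FewLines {q | ∃ c : ℂ, U q = c • x}

/-- A homogeneous `C¹` map. -/
def Hom1 (U : W → V) : Prop := ContDiffOn ℝ 1 U {0}ᶜ ∧ ∀ (c : ℂ) q, U (c • q) = c • U q

/-- Persistence of intersections of lines. -/
def GPersistStmt : Prop :=
  ∀ (φ : Fr) (U w : W → V) (q₀ r₀ : W), IsLine φ.J U → IsLine φ.J w → q₀ ≠ 0 → r₀ ≠ 0 →
    U q₀ = w r₀ → Function.Injective (fderiv ℝ U q₀) → ∀ δ : ℝ, 0 < δ →
    (∀ᶠ r in 𝓝 r₀, w r ∈ U '' ball q₀ δ) ∨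
      (∃ δ' : ℝ, 0 < δ' ∧ ∀ᶠ r in 𝓝 r₀, w r ∈ U '' ball q₀ δ' → ∃ c : ℂ, r = c • r₀) ∧
      ∃ ε : ℝ, 0 < ε ∧ ∀ U' w', Hom1 U' → Hom1 w' → Near ε U' U → Near ε w' w →
        ∃ q ∈ ball q₀ δ, ∃ r ∈ ball r₀ δ, U' q = w' r

/-- The two maps meet only along the line through `(1, 0)`. -/
def OnlyAt (U w : W → V) : Prop := ∀ q r, q ≠ 0 → r ≠ 0 → U q = w r → q.2 = 0

/-- A unique transverse intersection stays unique. -/
def TransStmt : Prop :=
  ∀ (U w : W → V), Hom1 U → Hom1 w → (∀ q, q ≠ 0 → U q ≠ 0) → (∀ q, q ≠ 0 → w q ≠ 0) →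
    IsEmb U → IsEmb w → U (1, 0) = w (1, 0) → OnlyAt U w →
    (∀ (h : ℂ) (k : W), fderiv ℝ U (1, 0) (0, h) = fderiv ℝ w (1, 0) k → h = 0) →
    ∃ ε : ℝ, 0 < ε ∧ ∀ U' w', Hom1 U' → Hom1 w' → Near ε U' U → Near ε w' w →
      U' (1, 0) = w' (1, 0) → OnlyAt U' w'

/-- The structure at time `1` is the standard one. -/
def Std (φ : UI → Fr) : Prop := ∀ x, x ≠ 0 → ∀ v, (φ 1).J x v = I • v

/-- A continuous family of embedded lines with all jets along a path. -/
def Good (φ : UI → Fr) (U : UI × Jet → W → V) : Prop :=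
  Fam {0}ᶜ 1 V U ∧ ∀ a, IsLine (φ a.1).J (U a) ∧ IsEmb (U a) ∧ jet (U a) = a.2

/-- A continuous family of embedded lines with a given jet along a path. -/
def Lift (φ : UI → Fr) (j : V × V) (u : UI → W → V) : Prop :=
  Fam {0}ᶜ 1 V u ∧ ∀ s, IsLine (φ s).J (u s) ∧ IsEmb (u s) ∧ jet (u s) = j

/-- The family is closed under reparametrisation. -/
def CStmt : Prop :=
  ∀ φ U, FrFam φ → Std φ → Good φ U → ∀ (s : UI) (j : Jet) (g : W ≃L[ℂ] W),
    ∃ j' : Jet, U (s, j) ∘ g = U (s, j')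

/-- Two lines of the family with two common points have the same image. -/
def H2Stmt : Prop :=
  ∀ φ U, FrFam φ → Std φ → Good φ U → ∀ (s : UI) (j j' : Jet) (q q' r r' : W), q ≠ 0 → q' ≠ 0 →
    U (s, j) q = U (s, j') r → U (s, j) q' = U (s, j') r' →
    (∃ c : ℂ, q' = c • q) ∨ range (U (s, j)) = range (U (s, j'))

/-- Two points lie on a line of the family. -/
def H1Stmt : Prop :=
  ∀ φ U, FrFam φ → Std φ → Good φ U → ∀ (s : UI) (x y : V), x ≠ 0 → (∀ c : ℂ, y ≠ c • x) →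
    ∃ j : Jet, U (s, j) (1, 0) = x ∧ y ∈ range (U (s, j))

/-- Lifts depend continuously on parameters. -/
def JointStmt : Prop :=
  ∀ (P : Type) [TopologicalSpace P] (φ : P × UI → Fr) (U : (P × UI) × Jet → W → V), FrFam φ →
    (∀ p, Std fun s => φ (p, s)) →
    (∀ p (j : Jet), Lift (fun s => φ (p, s)) j fun s => U ((p, s), j)) → Fam {0}ᶜ 1 V U

/-- A limit of embedded lines is embedded, if the approximating structures have enough lines. -/
def EmbLimitStmt : Prop :=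
  ∀ (P : Type) [TopologicalSpace P] (φ : P → Fr) (om : P → Symp 1) (p : ℕ → P) (p₀ : P)
    (U : ℕ → W → V) (U' : W → V), FrFam φ → Continuous om → (∀ a, Tame (φ a).J (om a)) →
    Tendsto p atTop (𝓝 p₀) → (∀ n, IsLine (φ (p n)).J (U n) ∧ IsEmb (U n)) →
    IsLine (φ p₀).J U' → Conv U U' →
    (∀ n (x y : V), x ≠ 0 → (∀ c : ℂ, y ≠ c • x) → ∃ w, IsLine (φ (p n)).J w ∧
      x ∈ range w ∧ y ∈ range w ∧ ∀ q q' r r' : W, q ≠ 0 → q' ≠ 0 → U n q = w r → U n q' = w r' →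
        (∃ c : ℂ, q' = c • q) ∨ y ∈ range (U n)) →
    IsEmb U'

/-- If lines with a fixed jet converge to an embedded line after reparametrisation, they converge
without reparametrisation. -/
def ConvJetStmt : Prop :=
  ∀ (P : Type) [TopologicalSpace P] (φ : P → Fr) (p : ℕ → P) (p₀ : P) (U : ℕ → W → V)
    (g : ℕ → W ≃L[ℂ] W) (U' : W → V) (j : V × V), FrFam φ → Tendsto p atTop (𝓝 p₀) → j ∈ Jet →
    (∀ n, IsLine (φ (p n)).J (U n) ∧ jet (U n) = j) → IsLine (φ p₀).J U' → IsEmb U' →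
    Conv (fun n => U n ∘ g n) U' →
    ∃ (ψ : ℕ → ℕ) (U'' : W → V), StrictMono ψ ∧ IsLine (φ p₀).J U'' ∧ IsEmb U'' ∧ jet U'' = j ∧
      Conv (fun n => U (ψ n)) U''

/-- All jets have lifts along the path stopped at `s₀`. -/
def Reach (φ : UI → Fr) (s₀ : UI) : Prop := ∀ j ∈ Jet, ∃ u, Lift (fun s => φ (max s s₀)) j u

def OpenStmt : Prop :=
  ∀ φ, FrFam φ → Std φ → ∀ s₀, Reach φ s₀ → ∃ δ : ℝ, 0 < δ ∧ ∀ s₁ : UI, (s₀ : ℝ) - δ < s₁ → Reach φ s₁

def ClosedStmt : Prop :=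
  ∀ (φ : UI → Fr) (om : UI → Symp 1), FrFam φ → Continuous om → (∀ a, Tame (φ a).J (om a)) →
    Std φ → ∀ s₀ : UI, s₀ < 1 → (∀ s₁, s₀ < s₁ → Reach φ s₁) → Reach φ s₀

/-- The chord lemma for a compact family of embedded homogeneous maps: a point of the image that
lies on the chord between two nearby points, in the affine chart `l = 1`, comes from a point close
to the chord between their parameters. The parameters are taken on the affine line `q₀ + z h`. -/
def ChordStmt : Prop :=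
  ∀ (P : Type) [TopologicalSpace P] [CompactSpace P] (U : P → W → V) (q₀ h : W),
    Fam {0}ᶜ 1 V U → (∀ p, Hom1 (U p) ∧ IsEmb (U p) ∧ ∀ q, q ≠ 0 → U p q ≠ 0) → det2 q₀ h ≠ 0 →
    ∀ η : ℝ, 0 < η → ∀ m : ℝ, 0 < m → ∃ δ : ℝ, 0 < δ ∧ ∀ (p : P) (l : V →L[ℂ] ℂ) (z z₁ z₂ : ℂ) (u : ℝ),
      ‖l‖ ≤ 1 → m ≤ ‖l (U p q₀)‖ → ‖z₁‖ ≤ δ → ‖z₂‖ ≤ δ → u ∈ Icc (0 : ℝ) 1 →
      (∃ c : ℂ, c • U p (q₀ + z • h) = ((1 - u : ℝ) : ℂ) • (l (U p (q₀ + z₁ • h)))⁻¹ • U p (q₀ + z₁ • h) +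
        (u : ℂ) • (l (U p (q₀ + z₂ • h)))⁻¹ • U p (q₀ + z₂ • h)) →
      ‖z - (((1 - u : ℝ) : ℂ) * z₁ + u * z₂)‖ ≤ η * ‖z₁ - z₂‖

end Pool.Agent.MP_2fc7fa_gt.N

end
end

section

/-! Passage to an affine chart. -/

open scoped ContDiff ComplexConjugate Topology
open Set Complex Filter Metric

noncomputable section

namespace Pool.Agent.MP_2fc7fa_gt.N

theorem ne1_Chart (a : Fin 3) : a + 1 ≠ a := by revert a; decide
theorem ne2_Chart (a : Fin 3) : a + 2 ≠ a := by revert a; decide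
theorem ne3_Chart (a : Fin 3) : a + 2 ≠ a + 1 := by revert a; decide
theorem cases_Chart (a j : Fin 3) : j = a ∨ j = a + 1 ∨ j = a + 2 := by revert a j; decide

theorem un0_Chart (a : Fin 3) (c : ℂ) (y : W) : unch a c y a = c := if_pos rfl

theorem un1_Chart (a : Fin 3) (c : ℂ) (y : W) : unch a c y (a + 1) = y.1 :=
  (if_neg (ne1_Chart a)).trans (if_pos rfl)

theorem un2_Chart (a : Fin 3) (c : ℂ) (y : W) : unch a c y (a + 2) = y.2 :=
  (if_neg (ne2_Chart a)).trans (if_neg (ne3_Chart a))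

theorem ext_Chart (a : Fin 3) {v w : V} (h0 : v a = w a) (h1 : v (a + 1) = w (a + 1))
    (h2 : v (a + 2) = w (a + 2)) : v = w := by
  funext j
  rcases cases_Chart a j with rfl | rfl | rfl
  exacts [h0, h1, h2]

theorem ne_Chart (a : Fin 3) (y : W) : unch a 1 y ≠ 0 := fun h =>
  one_ne_zero ((un0_Chart a 1 y).symm.trans (congrFun h a))

theorem smooth_un_Chart (a : Fin 3) (c : ℂ) : ContDiff ℝ ∞ (unch a c) := by
  refine contDiff_pi.2 fun j => ?_
  rcases cases_Chart a j with rfl | rfl | rfl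
  · simp only [un0_Chart]; exact contDiff_const
  · simp only [un1_Chart]; exact contDiff_fst
  · simp only [un2_Chart]; exact contDiff_snd

/-- The map `h ↦ unch a 0 h`. -/
def un_Chart (a : Fin 3) : W →ₗ[ℝ] V where
  toFun := unch a 0
  map_add' _ _ := ext_Chart a (by simp [un0_Chart]) (by simp [un1_Chart]) (by simp [un2_Chart])
  map_smul' _ _ := ext_Chart a (by simp [un0_Chart]) (by simp [un1_Chart]) (by simp [un2_Chart])

/-- The projection along `unch a 1 y`. -/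
def pj_Chart (a : Fin 3) (y : W) : V →ₗ[ℂ] W where
  toFun v := (v (a + 1) - v a * y.1, v (a + 2) - v a * y.2)
  map_add' _ _ := Prod.ext (by simp; ring) (by simp; ring)
  map_smul' _ _ := Prod.ext (by simp; ring) (by simp; ring)

theorem pj_apply_Chart (a : Fin 3) (y : W) (v : V) :
    pj_Chart a y v = (v (a + 1) - v a * y.1, v (a + 2) - v a * y.2) := rfl

theorem pj_un_Chart (a : Fin 3) (y : W) : pj_Chart a y (unch a 1 y) = 0 := by
  simp [pj_apply_Chart, un0_Chart, un1_Chart, un2_Chart]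

theorem un_pj_Chart (a : Fin 3) (y : W) (w : V) :
    unch a 0 (pj_Chart a y w) = w - w a • unch a 1 y :=
  ext_Chart a (by simp [un0_Chart]) (by simp [un1_Chart, pj_apply_Chart])
    (by simp [un2_Chart, pj_apply_Chart])

theorem pj_zero_Chart {a : Fin 3} {y : W} {w : V} (h : pj_Chart a y w = 0) :
    w = w a • unch a 1 y := by
  rw [← sub_eq_zero, ← un_pj_Chart, h]
  exact map_zero (un_Chart a)

theorem un_ch_Chart {a : Fin 3} {x : V} (h : x a ≠ 0) : unch a 1 (ch a x) = (x a)⁻¹ • x :=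
  ext_Chart a (by simp [un0_Chart, h]) (by simp [un1_Chart, ch, div_eq_inv_mul])
    (by simp [un2_Chart, ch, div_eq_inv_mul])

theorem A_vert_Chart (φ : Fr) {x : V} (hx : x ≠ 0) (c : ℂ) : φ.A x (c • x) = c • x := by
  conv_lhs => rw [← φ.vert x hx c]
  exact φ.AB x hx _

theorem A_scale_Chart (φ : Fr) {x : V} (hx : x ≠ 0) {c : ℂ} (hc : c ≠ 0) (v : V) :
    φ.A (c • x) (c • v) = c • φ.A x v := by
  conv_lhs => rw [← φ.BA x hx v, ← φ.scale x hx c hc]
  exact φ.AB _ (smul_ne_zero hc hx) _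

theorem fderiv_ch_Chart {a : Fin 3} {u : ℂ → V} {z : ℂ} (hu : DifferentiableAt ℝ u z)
    (h : u z a ≠ 0) (k : ℂ) :
    fderiv ℝ (ch a ∘ u) z k = pj_Chart a (ch a (u z)) ((u z a)⁻¹ • fderiv ℝ u z k) := by
  have h0 := fun j => hasFDerivAt_pi'.1 hu.hasFDerivAt j
  have h1 := (hasDerivAt_inv h).comp_hasFDerivAt z (h0 a)
  have h2 : HasFDerivAt (ch a ∘ u) _ z :=
    (((h0 (a + 1)).mul h1).prodMk ((h0 (a + 2)).mul h1)).congr_of_eventuallyEq
      (Eventually.of_forall fun t => by simp [ch, div_eq_mul_inv])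
  rw [h2.fderiv, pj_apply_Chart]
  refine Prod.ext ?_ ?_ <;> simp [ch] <;> field_simp <;> ring

theorem exists_Chart (φ : Fr) (a : Fin 3) : ∃ A, IsChart φ a A :=
  ⟨fun y => LinearMap.toContinuousLinearMap
    ((pj_Chart a y).restrictScalars ℝ ∘ₗ (φ.A (unch a 1 y)).toLinearMap ∘ₗ un_Chart a),
    fun _ _ => rfl⟩

theorem cofr_Chart {φ : Fr} {a : Fin 3} {A : W → W →L[ℝ] W} (hA : IsChart φ a A) :
    Cofr A univ := by
  refine ⟨isOpen_univ, ContDiff.contDiffOn (contDiff_clm_apply_iff.2 fun h => ?_), fun y _ => ?_⟩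
  · have h1 : ContDiff ℝ ∞ fun y => φ.A (unch a 1 y) (unch a 0 h) :=
      (φ.smoothA.comp_contDiff (smooth_un_Chart a 1) (ne_Chart a)).clm_apply contDiff_const
    have h2 := contDiff_pi.1 h1
    simp only [hA _ h]
    exact ((h2 _).sub ((h2 _).mul contDiff_fst)).prodMk ((h2 _).sub ((h2 _).mul contDiff_snd))
  · rw [injective_iff_map_eq_zero]
    intro h hh
    have h1 := pj_zero_Chart ((hA y h).symm.trans hh :
      pj_Chart a y (φ.A (unch a 1 y) (unch a 0 h)) = 0)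
    have h2 := congrArg (φ.B (unch a 1 y)) h1
    rw [φ.BA _ (ne_Chart a y), φ.vert _ (ne_Chart a y)] at h2
    have h3 := congrFun h2 a
    rw [un0_Chart, Pi.smul_apply, un0_Chart, smul_eq_mul, mul_one] at h3
    rw [← h3, zero_smul] at h2
    exact Prod.ext ((un1_Chart a 0 h).symm.trans (congrFun h2 _))
      ((un2_Chart a 0 h).symm.trans (congrFun h2 _))

theorem cr_Chart {φ : Fr} {a : Fin 3} {A : W → W →L[ℝ] W} (hA : IsChart φ a A) {u : ℂ → V}
    {z : ℂ} (hu : DifferentiableAt ℝ u z) (h : u z a ≠ 0) (hc : CR φ.A u {z}) :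
    CR A (ch a ∘ u) {z} := by
  have hx : u z ≠ 0 := fun e => h (congrFun e a)
  have key : ∀ k, A (ch a (u z)) (fderiv ℝ (ch a ∘ u) z k) =
      pj_Chart a (ch a (u z)) ((u z a)⁻¹ • φ.A (u z) (fderiv ℝ u z k)) := fun k => by
    rw [hA, ← pj_apply_Chart, fderiv_ch_Chart hu h, un_pj_Chart, map_sub,
      A_vert_Chart φ (ne_Chart _ _), map_sub, map_smul _ _ (unch a 1 _), pj_un_Chart, smul_zero,
      sub_zero, un_ch_Chart h, A_scale_Chart φ hx (inv_ne_zero h)]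
  rintro _ rfl
  rw [Function.comp_apply, key, key, hc _ rfl, smul_comm, map_smul]

theorem zero_iff_Chart {a : Fin 3} {u : ℂ → V} {z : ℂ} (hu : DifferentiableAt ℝ u z)
    (h : u z a ≠ 0) : fderiv ℝ (ch a ∘ u) z 1 = 0 ↔ ∃ c : ℂ, fderiv ℝ u z 1 = c • u z := by
  rw [fderiv_ch_Chart hu h]
  refine ⟨fun e => ⟨((u z a)⁻¹ • fderiv ℝ u z 1) a, ?_⟩, ?_⟩
  · have h1 := pj_zero_Chart e
    rw [un_ch_Chart h, smul_comm] at h1
    exact smul_right_injective V (inv_ne_zero h) h1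
  · rintro ⟨c, e⟩
    rw [e, smul_comm, ← un_ch_Chart h, map_smul, pj_un_Chart, smul_zero]

theorem conv_Chart {P : Type} [TopologicalSpace P] {φ : P → Fr} {p : ℕ → P} {p₀ : P} {a : Fin 3}
    {An : ℕ → W → W →L[ℝ] W} {A : W → W →L[ℝ] W} (hφ : FrFam φ) (hp : Tendsto p atTop (𝓝 p₀))
    (hn : ∀ n, IsChart (φ (p n)) a (An n)) (hA : IsChart (φ p₀) a A) :
    TendstoLocallyUniformlyOn An A atTop univ := by
  choose G hG using fun q => exists_Chart (φ q) a
  have hc : Continuous fun q : P × W => G q.1 q.2 := by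
    refine continuous_clm_apply.2 fun h => ?_
    have h0 : Continuous fun q : P × W => (φ q.1).A (unch a 1 q.2) :=
      ContinuousOn.comp_continuous (f := fun q : P × W => (q.1, unch a 1 q.2)) (hφ 0).2
        (continuous_fst.prodMk ((smooth_un_Chart a 1).continuous.comp continuous_snd))
        fun q => ⟨mem_univ _, ne_Chart a q.2⟩
    have h2 := continuous_pi_iff.1 (h0.clm_apply (continuous_const (y := unch a 0 h)))
    simp only [hG _ _ h]
    exact ((h2 _).sub ((h2 _).mul continuous_snd.fst)).prodMk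
      ((h2 _).sub ((h2 _).mul continuous_snd.snd))
  obtain rfl : An = fun n => G (p n) :=
    funext fun n => funext fun y => ContinuousLinearMap.ext fun h => (hn n y h).trans (hG _ y h).symm
  obtain rfl : A = G p₀ :=
    funext fun y => ContinuousLinearMap.ext fun h => (hA y h).trans (hG _ y h).symm
  rw [tendstoLocallyUniformlyOn_iff_forall_tendsto]
  intro y _
  rw [nhdsWithin_univ]
  have h1 : Tendsto (fun q : ℕ × W => G p₀ q.2) (atTop ×ˢ 𝓝 y) (𝓝 (G p₀ y)) :=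
    (hc.tendsto (p₀, y)).comp (tendsto_const_nhds.prodMk_nhds tendsto_snd)
  have h2 : Tendsto (fun q : ℕ × W => G (p q.1) q.2) (atTop ×ˢ 𝓝 y) (𝓝 (G p₀ y)) :=
    (hc.tendsto (p₀, y)).comp ((hp.comp tendsto_fst).prodMk_nhds tendsto_snd)
  exact (h1.prodMk_nhds h2).mono_right (nhds_le_uniformity _)

theorem chart : ChartStmt :=
  ⟨exists_Chart, fun _ _ _ hA => ⟨cofr_Chart hA, fun _ _ hu h hc =>
    ⟨cr_Chart hA hu h hc, zero_iff_Chart hu h⟩⟩,
    fun _ _ _ _ _ _ _ _ hφ hp hn hA => conv_Chart hφ hp hn hA⟩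

end Pool.Agent.MP_2fc7fa_gt.N

end
end

section

/-! Lines of the standard structure are linear. -/

open scoped Topology
open Set Complex Filter Metric

namespace Pool.Agent.MP_2fc7fa_gt.N

theorem deriv_Lin {U : W → V} {q : W} (h1 : DifferentiableAt ℝ U q)
    (h2 : ∀ h, fderiv ℝ U q (I • h) = I • fderiv ℝ U q h) :
    HasDerivAt (fun z => U (q.1, z)) (fderiv ℝ U q (0, 1)) q.2 := by
  have h3 : HasFDerivAt (fun z : ℂ => U (q.1, z))
      ((fderiv ℝ U q).comp (ContinuousLinearMap.inr ℝ ℂ ℂ)) q.2 :=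
    HasFDerivAt.comp (g := U) (f := fun z : ℂ => (q.1, z)) q.2 h1.hasFDerivAt
      (hasFDerivAt_prodMk_right q.1 q.2)
  refine hasFDerivAt_of_restrictScalars ℝ h3 (ContinuousLinearMap.ext fun w => ?_)
  have e : ((0, w) : W) = w.re • ((0, 1) : W) + w.im • I • ((0, 1) : W) := by simp
  change w • fderiv ℝ U q (0, 1) = fderiv ℝ U q (0, w)
  rw [e, map_add, map_smul, map_smul, h2, ← Complex.coe_smul, ← Complex.coe_smul, smul_smul,
    ← add_smul, re_add_im]

theorem liou_Lin {g : ℂ → V} (hg : Differentiable ℂ g) {C : ℝ} (h : ∀ z, ‖g z‖ ≤ C * (1 + ‖z‖))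
    (z : ℂ) : g z = g 0 + z • deriv g 0 := by
  have h1 : Differentiable ℂ (dslope g 0) := differentiableOn_univ.1
    ((Complex.differentiableOn_dslope univ_mem).2 hg.differentiableOn)
  have hC : 0 ≤ C := by simpa using (norm_nonneg _).trans (h 0)
  have h2 : Bornology.IsBounded (range (dslope g 0)) := by
    refine ((((isCompact_closedBall (0 : ℂ) 1).image h1.continuous).isBounded).union
      (isBounded_closedBall (x := (0 : V)) (r := 3 * C))).subset ?_
    rintro _ ⟨w, rfl⟩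
    by_cases hw : ‖w‖ ≤ 1
    · exact Or.inl ⟨w, by simpa using hw, rfl⟩
    · refine Or.inr (mem_closedBall_zero_iff.2 ?_)
      have h3 := congrArg norm (sub_smul_dslope g 0 w)
      rw [sub_zero, norm_smul] at h3
      have h4 := norm_sub_le (g w) (g 0)
      have h5 := h w
      have h6 := h 0
      rw [norm_zero] at h6
      refine le_of_mul_le_mul_left (a := ‖w‖) ?_ (by linarith)
      nlinarith
  have h3 := sub_smul_dslope g 0 z
  rw [h1.apply_eq_apply_of_bounded h2 z 0, dslope_same, sub_zero] at h3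
  rw [h3, add_sub_cancel]

theorem lin : LinStmt := by
  intro J U hJ hU
  have hd : ∀ q, q ≠ 0 → DifferentiableAt ℝ U q := fun q hq =>
    (hU.c1.contDiffAt (isOpen_compl_singleton.mem_nhds hq)).differentiableAt one_ne_zero
  have h1 : ∀ z : ℂ, ((1, z) : W) ≠ 0 := fun z h => one_ne_zero (congrArg Prod.fst h)
  have h2 : ∀ z : ℂ, HasDerivAt (fun z => U (1, z)) (fderiv ℝ U (1, z) (0, 1)) z := fun z =>
    deriv_Lin (hd _ (h1 z)) fun h => (hU.hol _ (h1 z) h).trans (hJ _ (hU.ne _ (h1 z)) _)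
  obtain ⟨C, hC⟩ := (isCompact_sphere (0 : W) 1).exists_bound_of_continuousOn
    (hU.c1.continuousOn.mono fun q hq (h : q = 0) => by simp [h] at hq)
  have h3 : ∀ z : ℂ, ‖U (1, z)‖ ≤ C * (1 + ‖z‖) := by
    intro z
    have h4 : ‖((1, z) : W)‖ ≠ 0 := norm_ne_zero_iff.2 (h1 z)
    have h5 := hC (((‖((1, z) : W)‖ : ℂ))⁻¹ • (1, z)) (by
      rw [mem_sphere_zero_iff_norm, norm_smul, norm_inv, norm_real, norm_norm, inv_mul_cancel₀ h4])
    have hC0 := (norm_nonneg _).trans h5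
    rw [hU.hom, norm_smul, norm_inv, norm_real, norm_norm,
      inv_mul_le_iff₀ (norm_pos_iff.2 (h1 z)), mul_comm] at h5
    refine h5.trans (mul_le_mul_of_nonneg_left ?_ hC0)
    rw [Prod.norm_def, norm_one]
    exact max_le (by linarith [norm_nonneg z]) (by simp)
  have h4 : ∀ z : ℂ, U (1, z) = (jet U).1 + z • (jet U).2 := fun z => by
    have := liou_Lin (fun z => (h2 z).differentiableAt) h3 z
    rwa [(h2 0).deriv] at this
  have h5 : ∀ a b : ℂ, a ≠ 0 → U (a, b) = a • (jet U).1 + b • (jet U).2 := fun a b ha => by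
    have e : ((a, b) : W) = a • ((1, a⁻¹ * b) : W) := by simp [ha]
    rw [e, hU.hom, h4, smul_add, smul_smul, mul_inv_cancel_left₀ ha]
  rintro ⟨a, b⟩
  by_cases ha : a = 0
  · subst ha
    by_cases hb : b = 0
    · subst hb
      simpa [Prod.mk_zero_zero] using hU.hom 0 (0, 0)
    · have h6 : ContinuousAt (fun t : ℂ => U (t, b)) 0 :=
        ContinuousAt.comp (g := U) (f := fun t : ℂ => (t, b))
          (hd _ fun h => hb (congrArg Prod.snd h)).continuousAt (by fun_prop)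
      have h7 : ContinuousAt (fun t : ℂ => t • (jet U).1 + b • (jet U).2) 0 := by fun_prop
      exact tendsto_nhds_unique_of_eventuallyEq (l := 𝓝[≠] (0 : ℂ)) (h6.mono_left nhdsWithin_le_nhds)
        (h7.mono_left nhdsWithin_le_nhds) (eventually_nhdsWithin_of_forall fun t ht => h5 t b ht)
  · exact h5 a b ha

end Pool.Agent.MP_2fc7fa_gt.N

end

section

/-! A unique transverse intersection stays unique. -/

open scoped ContDiff ComplexConjugate Topology
open Set Complex Filter Metric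

noncomputable section

namespace Pool.Agent.MP_2fc7fa_gt.N

theorem unit_Trans {X : Type} [NormedAddCommGroup X] [NormedSpace ℝ X] {q : X} (hq : q ≠ 0) :
    ∃ (t : ℝ) (u : X), 0 < t ∧ t = ‖q‖ ∧ ‖u‖ = 1 ∧ q = t • u :=
  ⟨‖q‖, ‖q‖⁻¹ • q, norm_pos_iff.2 hq, rfl, norm_smul_inv_norm hq,
    (smul_inv_smul₀ (norm_ne_zero_iff.2 hq) q).symm⟩

theorem rsmul_Trans {U : W → V} (h : Hom1 U) (t : ℝ) (q : W) : U (t • q) = t • U q := by
  rw [← Complex.coe_smul, h.2, Complex.coe_smul]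

theorem zero_Trans {U : W → V} (h : Hom1 U) : U 0 = 0 := by
  simpa using h.2 0 0

theorem fderiv_Trans {U : W → V} (h : Hom1 U) {t : ℝ} (ht : t ≠ 0) (q : W) :
    fderiv ℝ U (t • q) = fderiv ℝ U q := by
  have h1 := fderiv_comp_smul (𝕜 := ℝ) (f := U) (x := q) t
  have h2 : (fun x => U (t • x)) = t • U := funext fun x => rsmul_Trans h t x
  rw [h2, fderiv_const_smul_field] at h1
  exact (smul_right_injective _ ht h1).symm

theorem val_Trans {U U' : W → V} (h : Hom1 U) (h' : Hom1 U') {ε : ℝ} (hn : Near ε U' U) (q : W) :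
    ‖U' q - U q‖ ≤ ε * ‖q‖ := by
  by_cases hq : q = 0
  · subst hq; simp [zero_Trans h, zero_Trans h']
  obtain ⟨t, u, ht, htq, hu, e⟩ := unit_Trans hq
  rw [← htq, e, rsmul_Trans h, rsmul_Trans h', ← smul_sub, norm_smul, Real.norm_of_nonneg ht.le,
    mul_comm]
  exact mul_le_mul_of_nonneg_right (hn u hu).1 ht.le

theorem der_Trans {U U' : W → V} (h : Hom1 U) (h' : Hom1 U') {ε : ℝ} (hn : Near ε U' U) {q : W}
    (hq : q ≠ 0) : ‖fderiv ℝ U' q - fderiv ℝ U q‖ ≤ ε := by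
  obtain ⟨t, u, ht, -, hu, e⟩ := unit_Trans hq
  rw [e, fderiv_Trans h ht.ne', fderiv_Trans h' ht.ne']
  exact (hn u hu).2

theorem cont_Trans {U : W → V} (h : Hom1 U) : Continuous U := by
  obtain ⟨M, hM⟩ := (isCompact_sphere (0 : W) 1).exists_bound_of_continuousOn
    (h.1.continuousOn.mono fun q hq e => by
      rw [mem_singleton_iff.1 e] at hq
      simp at hq)
  have hb : ∀ q, ‖U q‖ ≤ M * ‖q‖ := fun q => by
    by_cases hq : q = 0
    · subst hq; simp [zero_Trans h]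
    obtain ⟨t, u, ht, htq, hu, e⟩ := unit_Trans hq
    rw [← htq, e, rsmul_Trans h, norm_smul, Real.norm_of_nonneg ht.le, mul_comm]
    exact mul_le_mul_of_nonneg_right (hM u (by simpa using hu)) ht.le
  refine continuous_iff_continuousAt.2 fun q => ?_
  by_cases hq : q = 0
  · subst hq
    rw [ContinuousAt, zero_Trans h]
    refine squeeze_zero_norm hb ?_
    have : Continuous fun q : W => M * ‖q‖ := by fun_prop
    simpa using this.tendsto 0
  · exact h.1.continuousOn.continuousAt (isOpen_compl_singleton.mem_nhds hq)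

theorem loc_Trans {U : W → V} (h : Hom1 U) {η : ℝ} (hη : 0 < η) :
    ∃ δ : ℝ, 0 < δ ∧ ∀ U', Hom1 U' → Near η U' U → ∀ q ∈ ball ((1, 0) : W) δ,
      ‖U' q - U' (1, 0) - fderiv ℝ U (1, 0) (q - (1, 0))‖ ≤ 2 * η * ‖q - (1, 0)‖ := by
  have h0 : ((1, 0) : W) ≠ 0 := by simp
  have hO : ({0}ᶜ : Set W) ∈ 𝓝 ((1, 0) : W) := isOpen_compl_singleton.mem_nhds h0
  have hc : ContinuousAt (fderiv ℝ U) (1, 0) :=
    (h.1.continuousOn_fderiv_of_isOpen isOpen_compl_singleton le_rfl).continuousAt hO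
  obtain ⟨δ, hδ, hb⟩ := Metric.eventually_nhds_iff_ball.1
    ((Metric.tendsto_nhds.1 hc η hη).and hO)
  refine ⟨δ, hδ, fun U' h' hn q hq => ?_⟩
  refine (convex_ball _ δ).norm_image_sub_le_of_norm_fderiv_le' (𝕜 := ℝ) (fun x hx => ?_)
    (fun x hx => ?_) (mem_ball_self hδ) hq
  · exact (h'.1.differentiableOn one_ne_zero).differentiableAt
      (isOpen_compl_singleton.mem_nhds (hb x hx).2)
  · have h1 := der_Trans h h' hn (hb x hx).2
    have h2 := (hb x hx).1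
    rw [dist_eq_norm] at h2
    calc _ ≤ ‖fderiv ℝ U' x - fderiv ℝ U x‖ + ‖fderiv ℝ U x - fderiv ℝ U (1, 0)‖ :=
          norm_sub_le_norm_sub_add_norm_sub _ _ _
      _ ≤ 2 * η := by linarith

theorem lin_Trans (A B : W →L[ℝ] V) (hB : Function.Injective B)
    (h : ∀ (h : ℂ) (k : W), A (0, h) = B k → h = 0) :
    ∃ K : ℝ, 0 < K ∧ ∀ (z : ℂ) (k : W), ‖(z, k)‖ ≤ K * ‖A (0, z) - B k‖ := by
  let L : ℂ × W →ₗ[ℝ] V :=
    (A : W →ₗ[ℝ] V) ∘ₗ LinearMap.inr ℝ ℂ ℂ ∘ₗ LinearMap.fst ℝ ℂ W -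
      (B : W →ₗ[ℝ] V) ∘ₗ LinearMap.snd ℝ ℂ W
  have hL : ∀ z k, L (z, k) = A (0, z) - B k := fun _ _ => rfl
  have hi : Function.Injective L := by
    rw [injective_iff_map_eq_zero]
    rintro ⟨z, k⟩ e
    rw [hL, sub_eq_zero] at e
    have hz := h z k e
    subst hz
    have : k = 0 := hB (by rw [← e, map_zero]; exact map_zero A)
    subst this
    rfl
  obtain ⟨K, hK, hA⟩ := L.injective_iff_antilipschitz.1 hi
  refine ⟨K, hK, fun z k => ?_⟩
  rw [← hL]
  exact ZeroHomClass.bound_of_antilipschitz L hA _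

theorem far_Trans {U w : W → V} (hU : Hom1 U) (hw : Hom1 w) (nU : ∀ q, q ≠ 0 → U q ≠ 0)
    (nw : ∀ q, q ≠ 0 → w q ≠ 0) (iw : InjOn w {0}ᶜ) (e : U (1, 0) = w (1, 0)) (ho : OnlyAt U w)
    {δ : ℝ} (hδ : 0 < δ) : ∃ m : ℝ, 0 < m ∧ ∀ q r : W, ‖(q, r)‖ = 1 → ‖U q - w r‖ < m →
      ‖q.2‖ < δ * ‖q.1‖ ∧ ‖r - q.1 • ((1, 0) : W)‖ < δ * ‖q.1‖ := by
  let O : Set (W × W) := {a | ‖a.1.2‖ < δ * ‖a.1.1‖} ∩
    {a | ‖a.2 - a.1.1 • ((1, 0) : W)‖ < δ * ‖a.1.1‖}
  have hO : IsOpen O :=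
    (isOpen_lt (by fun_prop) (by fun_prop)).inter (isOpen_lt (by fun_prop) (by fun_prop))
  have cU := cont_Trans hU
  have cw := cont_Trans hw
  obtain ⟨m, hm, H⟩ := ((isCompact_sphere (0 : W × W) 1).diff hO).exists_forall_le'
    (f := fun a => ‖U a.1 - w a.2‖) (a := 0) (Continuous.continuousOn (by fun_prop)) (by
      rintro ⟨q, r⟩ ⟨h1, h2⟩
      refine norm_pos_iff.2 fun h3 => h2 ?_
      have h3 : U q = w r := sub_eq_zero.1 h3
      have hq : q ≠ 0 := by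
        rintro rfl
        have hr : r = 0 := by
          by_contra hr
          exact nw r hr (h3.symm.trans (zero_Trans hU))
        subst hr
        simp at h1
      have hr : r ≠ 0 := by
        rintro rfl
        exact nU q hq (h3.trans (zero_Trans hw))
      have h4 : q.2 = 0 := ho q r hq hr h3
      have h5 : q = q.1 • ((1, 0) : W) := Prod.ext (by simp) (by simp [h4])
      have h6 : q.1 ≠ 0 := fun h => hq (Prod.ext h h4)
      have h7 : r = q := iw hr hq (by rw [← h3, h5, hU.2, hw.2, e])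
      have h8 : 0 < δ * ‖q.1‖ := mul_pos hδ (norm_pos_iff.2 h6)
      refine ⟨?_, ?_⟩
      · show ‖q.2‖ < δ * ‖q.1‖
        rwa [h4, norm_zero]
      · show ‖r - q.1 • ((1, 0) : W)‖ < δ * ‖q.1‖
        rwa [h7, ← h5, sub_self, norm_zero])
  refine ⟨m, hm, fun q r h1 h2 => ?_⟩
  by_contra h3
  exact absurd (H (q, r) ⟨by simpa using h1, h3⟩) (not_le.2 h2)

theorem trans : TransStmt := by
  intro U w hU hw nU nw _ ew e ho ht
  obtain ⟨K, hK, HK⟩ := lin_Trans _ _ (ew.imm (1, 0) (by simp)) ht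
  have hη : 0 < 1 / (8 * K) := by positivity
  obtain ⟨δ₁, h1, H1⟩ := loc_Trans hU hη
  obtain ⟨δ₂, h2, H2⟩ := loc_Trans hw hη
  obtain ⟨m, hm, Hm⟩ := far_Trans hU hw nU nw ew.inj e ho (lt_min h1 h2)
  refine ⟨min (1 / (8 * K)) (m / 4), lt_min hη (by positivity), fun U' w' hU' hw' n1 n2 e' => ?_⟩
  have mono : ∀ {F F' : W → V}, Near (min (1 / (8 * K)) (m / 4)) F' F →
      Near (1 / (8 * K)) F' F ∧ Near (m / 4) F' F := fun h =>
    ⟨fun q hq => ⟨(h q hq).1.trans (min_le_left _ _), (h q hq).2.trans (min_le_left _ _)⟩,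
      fun q hq => ⟨(h q hq).1.trans (min_le_right _ _), (h q hq).2.trans (min_le_right _ _)⟩⟩
  have loc : ∀ (z : ℂ) (r : W), ‖z‖ < min δ₁ δ₂ → ‖r - (1, 0)‖ < min δ₁ δ₂ →
      U' (1, z) = w' r → z = 0 := by
    intro z r hz hr h
    have e1 : ((1, z) : W) - (1, 0) = (0, z) := by simp
    have e2 : ‖((0, z) : W)‖ = ‖z‖ := by simp
    have a1 := H1 U' hU' (mono n1).1 (1, z) (by
      rw [mem_ball_iff_norm, e1, e2]; exact hz.trans_le (min_le_left _ _))
    have a2 := H2 w' hw' (mono n2).1 r (by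
      rw [mem_ball_iff_norm]; exact hr.trans_le (min_le_right _ _))
    rw [e1, e2, h, e'] at a1
    have a3 := HK z (r - (1, 0))
    set k := r - (1, 0)
    have a4 : ‖fderiv ℝ U (1, 0) (0, z) - fderiv ℝ w (1, 0) k‖ ≤
        2 * (1 / (8 * K)) * ‖k‖ + 2 * (1 / (8 * K)) * ‖z‖ := by
      refine le_trans ?_ (add_le_add a2 a1)
      refine le_trans (le_of_eq ?_) (norm_sub_le _ _)
      congr 1
      abel
    have a5 : ‖z‖ ≤ ‖(z, k)‖ := norm_fst_le (z, k)
    have a6 : ‖k‖ ≤ ‖(z, k)‖ := norm_snd_le (z, k)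
    have a7 : K * (2 * (1 / (8 * K)) * ‖k‖ + 2 * (1 / (8 * K)) * ‖z‖) = (‖k‖ + ‖z‖) / 4 := by
      field_simp
      ring
    have a8 := mul_le_mul_of_nonneg_left a4 hK.le
    have a9 := norm_nonneg z
    exact norm_eq_zero.1 (by linarith)
  have key : ∀ q r : W, ‖(q, r)‖ = 1 → U' q = w' r → q.2 = 0 := by
    intro q r hn h
    have b1 := val_Trans hU hU' (mono n1).2 q
    have b2 := val_Trans hw hw' (mono n2).2 r
    have b3 : ‖q‖ ≤ 1 := hn ▸ norm_fst_le (q, r)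
    have b4 : ‖r‖ ≤ 1 := hn ▸ norm_snd_le (q, r)
    have b5 : ‖U q - w r‖ ≤ ‖w' r - w r‖ + ‖U' q - U q‖ := by
      refine le_trans (le_of_eq ?_) (norm_sub_le _ _)
      rw [h]
      congr 1
      abel
    obtain ⟨c1, c2⟩ := Hm q r hn (by nlinarith)
    have c3 : 0 < ‖q.1‖ := by
      by_contra c3
      have := mul_nonpos_of_nonneg_of_nonpos (lt_min h1 h2).le (not_lt.1 c3)
      linarith [norm_nonneg q.2]
    have c4 : q.1 ≠ 0 := norm_pos_iff.1 c3
    have c5 : q.1⁻¹ • q = (1, q.1⁻¹ * q.2) := Prod.ext (by simp [c4]) rfl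
    have c6 := loc (q.1⁻¹ * q.2) (q.1⁻¹ • r)
      (by rw [norm_mul, norm_inv, inv_mul_lt_iff₀ c3, mul_comm]; exact c1)
      (by
        have : q.1⁻¹ • r - (1, 0) = q.1⁻¹ • (r - q.1 • ((1, 0) : W)) := by
          rw [smul_sub, inv_smul_smul₀ c4]
        rw [this, norm_smul, norm_inv, inv_mul_lt_iff₀ c3, mul_comm]; exact c2)
      (by rw [← c5, hU'.2, hw'.2, h])
    exact (mul_eq_zero.1 c6).resolve_left (inv_ne_zero c4)
  intro q r hq _ h
  obtain ⟨t, ⟨q', r'⟩, ht, -, hu, e2⟩ := unit_Trans (q := (q, r)) fun h => hq (congrArg Prod.fst h)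
  have e3 : q = t • q' := congrArg Prod.fst e2
  have e4 : r = t • r' := congrArg Prod.snd e2
  rw [e3, e4, rsmul_Trans hU', rsmul_Trans hw'] at h
  rw [e3, Prod.smul_snd, key q' r' hu (smul_right_injective _ ht.ne' h), smul_zero]

end Pool.Agent.MP_2fc7fa_gt.N

end
end

section

/-! Persistence of intersections: the local inverse and the degree argument. -/

open scoped ContDiff Topology
open Set Complex Filter Metric

noncomputable section

namespace Pool.Agent.MP_2fc7fa_gt.N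

theorem inv_Persist {Ψ : W → W} {a : W} (h1 : ContDiffAt ℝ 1 Ψ a)
    (h2 : Function.Injective (fderiv ℝ Ψ a)) :
    ∃ G : W → W, ContDiffAt ℝ 1 G (Ψ a) ∧ G (Ψ a) = a ∧ (∀ᶠ y in 𝓝 (Ψ a), Ψ (G y) = y) ∧
      ∀ᶠ x in 𝓝 a, G (Ψ x) = x := by
  let L : W ≃L[ℝ] W :=
    (LinearEquiv.ofInjectiveEndo (fderiv ℝ Ψ a).toLinearMap h2).toContinuousLinearEquiv
  have hL : (L : W →L[ℝ] W) = fderiv ℝ Ψ a := ContinuousLinearMap.ext fun _ => rfl
  have hd : HasFDerivAt Ψ (L : W →L[ℝ] W) a := by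
    rw [hL]
    exact (h1.differentiableAt one_ne_zero).hasFDerivAt
  refine ⟨h1.localInverse hd one_ne_zero, h1.to_localInverse hd one_ne_zero,
    h1.localInverse_apply_image hd one_ne_zero, ?_, ?_⟩
  · exact (h1.hasStrictFDerivAt' hd one_ne_zero).eventually_right_inverse
  · exact (h1.hasStrictFDerivAt' hd one_ne_zero).eventually_left_inverse

theorem fin_Persist (t₀ b : ℂ) (k : ℕ) (hk : k ≠ 0) : {t : ℂ | (t - t₀) ^ k = b}.Finite := by
  have h : {s : ℂ | s ^ k = b}.Finite := by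
    refine (Polynomial.nthRoots k b).toFinset.finite_toSet.subset fun s hs => ?_
    simpa [Polynomial.mem_nthRoots (Nat.pos_of_ne_zero hk)] using hs
  exact h.preimage (f := fun t => t - t₀) (sub_left_injective.injOn)

theorem deg_Persist (hD : DegStmt) (G : W → ℂ) (t₀ a : ℂ) (d : ℝ) (k : ℕ) (hd : 0 < d)
    (hk : k ≠ 0) (ha : a ≠ 0) (hG : ContinuousOn G (closedBall (0, t₀) d))
    (hδ : ∀ t, ‖t - t₀‖ = d → ‖G (0, t) - a * (t - t₀) ^ k‖ < ‖a‖ * d ^ k / 2) :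
    ∃ m : ℝ, 0 < m ∧ ∀ F : W → W, ContinuousOn F (closedBall (0, t₀) d) →
      (∀ x ∈ closedBall ((0 : ℂ), t₀) d, ‖F x - (x.1, G x)‖ < m) →
      ∃ x ∈ closedBall ((0 : ℂ), t₀) d, F x = 0 := by
  set K : Set W := closedBall (0, t₀) d with hK
  let ρ : ℂ := ((d / 2 : ℝ) : ℂ)
  let Q : W → ℂ := fun x => a * ((x.2 - t₀) ^ k - ρ ^ k)
  have hQ : Continuous Q := by fun_prop
  let H₀ : ℝ × W → W := fun p => (p.2.1, (1 - p.1) • G p.2 + p.1 • Q p.2)
  have hapos : 0 < ‖a‖ := norm_pos_iff.2 ha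
  have hρ : ‖ρ‖ = d / 2 := by
    simp only [ρ, Complex.norm_real, Real.norm_eq_abs]
    exact abs_of_pos (by positivity)
  have hρk : ‖ρ ^ k‖ ≤ d ^ k / 2 := by
    rw [norm_pow, hρ, div_pow]
    have h2 : (2 : ℝ) ≤ 2 ^ k := by
      calc (2 : ℝ) = 2 ^ 1 := by norm_num
        _ ≤ 2 ^ k := pow_le_pow_right₀ (by norm_num) (Nat.one_le_iff_ne_zero.2 hk)
    exact div_le_div_of_nonneg_left (by positivity) (by norm_num) h2
  have hfr : frontier K = sphere (0, t₀) d := frontier_closedBall _ hd.ne'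
  have hH₀c : ContinuousOn H₀ (Icc 0 1 ×ˢ K) := by
    have h1 : ContinuousOn (fun p : ℝ × W => G p.2) (Icc 0 1 ×ˢ K) :=
      hG.comp continuous_snd.continuousOn fun p hp => hp.2
    refine ContinuousOn.prodMk (by fun_prop) (ContinuousOn.add ?_ ?_)
    · exact ContinuousOn.smul (f := fun p : ℝ × W => 1 - p.1) (by fun_prop) h1
    · exact Continuous.continuousOn (by fun_prop)
  have hH₀n : ∀ p ∈ Icc (0 : ℝ) 1 ×ˢ sphere ((0 : ℂ), t₀) d, H₀ p ≠ 0 := by
    rintro ⟨s, y, t⟩ ⟨hs, hx⟩ h0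
    have h1 : y = 0 := congrArg Prod.fst h0
    subst h1
    have h2 : (1 - s) • G (0, t) + s • Q (0, t) = 0 := congrArg Prod.snd h0
    have ht : ‖t - t₀‖ = d := by
      have := mem_sphere_iff_norm.1 hx
      simpa [Prod.norm_def] using this
    have h3 := hδ t ht
    have h4 : a * (t - t₀) ^ k =
        -((1 - s) • (G (0, t) - a * (t - t₀) ^ k)) + s • (a * ρ ^ k) := by
      simp only [Q, real_smul] at h2 ⊢
      push_cast at h2 ⊢
      linear_combination h2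
    have h5 : ‖a * (t - t₀) ^ k‖ = ‖a‖ * d ^ k := by rw [norm_mul, norm_pow, ht]
    have h6 : ‖a * ρ ^ k‖ ≤ ‖a‖ * d ^ k / 2 := by
      rw [norm_mul, mul_div_assoc]
      exact mul_le_mul_of_nonneg_left hρk hapos.le
    have h7 : ‖a * (t - t₀) ^ k‖ ≤
        (1 - s) * ‖G (0, t) - a * (t - t₀) ^ k‖ + s * ‖a * ρ ^ k‖ := by
      calc ‖a * (t - t₀) ^ k‖ =
            ‖-((1 - s) • (G (0, t) - a * (t - t₀) ^ k)) + s • (a * ρ ^ k)‖ := congrArg _ h4
        _ ≤ ‖-((1 - s) • (G (0, t) - a * (t - t₀) ^ k))‖ + ‖s • (a * ρ ^ k)‖ := norm_add_le _ _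
        _ = _ := by
          rw [norm_neg, norm_smul, norm_smul, Real.norm_of_nonneg (sub_nonneg.2 hs.2),
            Real.norm_of_nonneg hs.1]
    have hp : 0 < ‖a‖ * d ^ k := by positivity
    have hs0 : 0 ≤ s := hs.1
    have hs1 : s ≤ 1 := hs.2
    nlinarith [mul_le_mul_of_nonneg_left h3.le (sub_nonneg.2 hs1),
      mul_le_mul_of_nonneg_left h6 hs0]
  have hcomp : IsCompact (Icc (0 : ℝ) 1 ×ˢ sphere ((0 : ℂ), t₀) d) :=
    isCompact_Icc.prod (isCompact_sphere _ _)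
  obtain ⟨m, hm, hmin⟩ : ∃ m : ℝ, 0 < m ∧
      ∀ p ∈ Icc (0 : ℝ) 1 ×ˢ sphere ((0 : ℂ), t₀) d, m ≤ ‖H₀ p‖ :=
    hcomp.exists_forall_le' (a := 0)
      ((hH₀c.mono (prod_mono_right sphere_subset_closedBall)).norm)
      fun p hp => norm_pos_iff.2 (hH₀n p hp)
  refine ⟨m, hm, fun F hF hFm => ?_⟩
  let H : ℝ → W → W := fun s x => H₀ (s, x) + (1 - s) • (F x - (x.1, G x))
  have hH1 : H 1 = fun x => (x.1, Q x) := by
    funext x
    simp [H, H₀]
  have hH0 : ∀ x, H 0 x = F x := by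
    intro x
    simp [H, H₀]
  have key := hD W K H (isCompact_closedBall _ _) ?_ ?_ ?_ ?_ ?_
  · obtain ⟨x, hx, h0⟩ := key
    exact ⟨x, hx, by rw [← hH0, h0]⟩
  · have h1 : ContinuousOn (fun p : ℝ × W => G p.2) (Icc 0 1 ×ˢ K) :=
      hG.comp continuous_snd.continuousOn fun p hp => hp.2
    have h2 : ContinuousOn (fun p : ℝ × W => F p.2) (Icc 0 1 ×ˢ K) :=
      hF.comp continuous_snd.continuousOn fun p hp => hp.2
    refine hH₀c.add (ContinuousOn.smul (f := fun p : ℝ × W => 1 - p.1) (by fun_prop)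
      (h2.sub ?_))
    exact ContinuousOn.prodMk (by fun_prop) h1
  · intro s hs x hx h0
    rw [hfr] at hx
    have h1 := hmin (s, x) ⟨hs, hx⟩
    have h2 := hFm x (sphere_subset_closedBall hx)
    have h3 : H₀ (s, x) = -((1 - s) • (F x - (x.1, G x))) := eq_neg_of_add_eq_zero_left h0
    rw [h3, norm_neg, norm_smul, Real.norm_of_nonneg (sub_nonneg.2 hs.2)] at h1
    nlinarith [hs.1, hs.2, norm_nonneg (F x - (x.1, G x))]
  · refine ((fin_Persist t₀ (ρ ^ k) k hk).image fun t => ((0 : ℂ), t)).subset ?_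
    rintro ⟨y, t⟩ ⟨-, h0⟩
    rw [hH1] at h0
    have h1 : y = 0 := congrArg Prod.fst h0
    have h2 : a * ((t - t₀) ^ k - ρ ^ k) = 0 := congrArg Prod.snd h0
    exact ⟨t, sub_eq_zero.1 ((mul_eq_zero.1 h2).resolve_left ha), by rw [h1]⟩
  · refine ⟨(0, t₀ + ρ), ?_, ?_⟩
    · rw [hK, mem_closedBall_iff_norm]
      simp only [Prod.mk_sub_mk, sub_self, add_sub_cancel_left, Prod.norm_def, norm_zero, hρ]
      exact max_le hd.le (by linarith)
    · rw [hH1]
      simp [Q]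
  · rintro ⟨y, t⟩ - h0
    rw [hH1] at h0 ⊢
    have h2 : a * ((t - t₀) ^ k - ρ ^ k) = 0 := congrArg Prod.snd h0
    have h3 : (t - t₀) ^ k = ρ ^ k := sub_eq_zero.1 ((mul_eq_zero.1 h2).resolve_left ha)
    have hρ0 : ρ ≠ 0 := by
      rw [← norm_pos_iff, hρ]
      positivity
    have ht : t - t₀ ≠ 0 := by
      intro h
      rw [h, zero_pow hk] at h3
      exact pow_ne_zero k hρ0 h3.symm
    have hc : a * (k * (t - t₀) ^ (k - 1)) ≠ 0 :=
      mul_ne_zero ha (mul_ne_zero (Nat.cast_ne_zero.2 hk) (pow_ne_zero _ ht))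
    refine ⟨(ContinuousLinearEquiv.refl ℂ ℂ).prodCongr
      (ContinuousLinearEquiv.unitsEquivAut ℂ (Units.mk0 _ hc)), ?_⟩
    apply HasFDerivAt.restrictScalars
    have h4 : HasDerivAt (fun s : ℂ => a * ((s - t₀) ^ k - ρ ^ k))
        (a * (k * (t - t₀) ^ (k - 1))) t := by
      have := ((((hasDerivAt_id t).sub_const t₀).fun_pow k).sub_const (ρ ^ k)).const_mul a
      simpa using this
    have h5 := (hasFDerivAt_fst (𝕜 := ℂ) (p := (y, t))).prodMk
      (h4.hasFDerivAt.comp (y, t) (hasFDerivAt_snd (𝕜 := ℂ) (p := (y, t))))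
    refine h5.congr_fderiv ?_
    ext <;> simp

end Pool.Agent.MP_2fc7fa_gt.N

end
end

section

/-! Persistence of intersections of an immersed branch with another curve (PROOF.md, B7). -/

open scoped ContDiff Topology
open Set Complex Filter Metric

noncomputable section

namespace Pool.Agent.MP_2fc7fa_gt.N

theorem lin_Persist (L : ℂ →L[ℝ] W) (B : W →L[ℝ] W) (h : B (L I) = I • B (L 1)) (z : ℂ) :
    B (L z) = z • B (L 1) := by
  have hz : z = z.re • (1 : ℂ) + z.im • I := by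
    simp
  conv_lhs => rw [hz, map_add, map_add, map_smul, map_smul, map_smul, map_smul, h]
  conv_rhs => rw [hz, add_smul, smul_assoc, smul_assoc, one_smul]

/-- Straightening of the first component of the difference. -/
theorem str_Persist {A : W → W →L[ℝ] W} {u w : ℂ → W} {z₀ ζ₀ : ℂ}
    (hA : ContDiffAt ℝ 1 A (w ζ₀)) (hu : ContDiffAt ℝ 1 u z₀) (hw : ContDiffAt ℝ 1 w ζ₀)
    (he : u z₀ = w ζ₀)
    (hc : A (u z₀) (fderiv ℝ u z₀ I) = I • A (u z₀) (fderiv ℝ u z₀ 1))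
    (h1 : (A (u z₀) (fderiv ℝ u z₀ 1)).1 ≠ 0) :
    ∃ G : W → ℂ, ContDiffAt ℝ 1 G (0, ζ₀) ∧ G (0, ζ₀) = z₀ ∧
      (∀ᶠ y in 𝓝 ((0 : ℂ), ζ₀), (A (w y.2) (u (G y) - w y.2)).1 = y.1) ∧
      ∀ᶠ x in 𝓝 (z₀, ζ₀), (A (w x.2) (u x.1 - w x.2)).1 = 0 → G (0, x.2) = x.1 := by
  let Ψ : W → W := fun x => ((A (w x.2) (u x.1 - w x.2)).1, x.2)
  have hw' : ContDiffAt ℝ 1 (fun x : W => w x.2) (z₀, ζ₀) :=
    ContDiffAt.comp (z₀, ζ₀) (g := w) hw contDiffAt_snd
  have hu' : ContDiffAt ℝ 1 (fun x : W => u x.1) (z₀, ζ₀) :=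
    ContDiffAt.comp (z₀, ζ₀) (g := u) hu contDiffAt_fst
  have hA' : ContDiffAt ℝ 1 (fun x : W => A (w x.2)) (z₀, ζ₀) :=
    ContDiffAt.comp (z₀, ζ₀) (g := A) hA hw'
  have hΨ : ContDiffAt ℝ 1 Ψ (z₀, ζ₀) :=
    (hA'.clm_apply (hu'.sub hw')).fst.prodMk contDiffAt_snd
  have hΨ0 : Ψ (z₀, ζ₀) = (0, ζ₀) := by simp [Ψ, he]
  have hD := (hΨ.differentiableAt one_ne_zero).hasFDerivAt
  set D := fderiv ℝ Ψ (z₀, ζ₀)
  have hD2 : ∀ v, (D v).2 = v.2 := by
    intro v
    have h2 : HasFDerivAt (fun x : W => (Ψ x).2) (ContinuousLinearMap.snd ℝ ℂ ℂ) (z₀, ζ₀) :=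
      hasFDerivAt_snd
    exact congrArg (fun T : W →L[ℝ] ℂ => T v) (hD.snd.unique h2)
  have hD1 : ∀ h : ℂ, (D (h, 0)).1 = h * (A (u z₀) (fderiv ℝ u z₀ 1)).1 := by
    intro h
    have h2 : HasFDerivAt (fun z : ℂ => (Ψ (z, ζ₀)).1)
        ((ContinuousLinearMap.fst ℝ ℂ ℂ).comp (D.comp (ContinuousLinearMap.inl ℝ ℂ ℂ))) z₀ :=
      (HasFDerivAt.comp z₀ (g := Ψ) hD (hasFDerivAt_prodMk_left z₀ ζ₀)).fst
    have h3 : HasFDerivAt (fun z : ℂ => (Ψ (z, ζ₀)).1)
        ((ContinuousLinearMap.fst ℝ ℂ ℂ).comp ((A (w ζ₀)).comp (fderiv ℝ u z₀))) z₀ :=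
      ((A (w ζ₀)).hasFDerivAt.comp z₀
        ((hu.differentiableAt one_ne_zero).hasFDerivAt.sub_const (w ζ₀))).fst
    have h4 : (D (h, 0)).1 = (A (w ζ₀) (fderiv ℝ u z₀ h)).1 :=
      congrArg (fun T : ℂ →L[ℝ] ℂ => T h) (h2.unique h3)
    rw [h4, ← he, lin_Persist _ _ hc h]
    rfl
  have hinj : Function.Injective D := by
    rw [injective_iff_map_eq_zero]
    rintro ⟨h, k⟩ h0
    have hk : k = 0 := by simpa [h0] using (hD2 (h, k)).symm
    subst hk
    have := hD1 h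
    rw [h0] at this
    have hh : h = 0 := (mul_eq_zero.1 this.symm).resolve_right h1
    rw [hh]
    rfl
  obtain ⟨G, hG, hG0, hr, hl⟩ := inv_Persist hΨ hinj
  rw [hΨ0] at hG hG0 hr
  refine ⟨fun y => (G y).1, hG.fst, by simp [hG0], ?_, ?_⟩
  · filter_upwards [hr] with y hy
    have e2 : (G y).2 = y.2 := (Prod.ext_iff.1 hy).2
    have e1 : (A (w (G y).2) (u (G y).1 - w (G y).2)).1 = y.1 := (Prod.ext_iff.1 hy).1
    rwa [e2] at e1
  · filter_upwards [hl] with x hx h0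
    have : Ψ x = (0, x.2) := Prod.ext h0 rfl
    rw [this] at hx
    rw [hx]

/-- The Cauchy-Riemann inequality for the vertical difference. -/
theorem ineq_Persist (hF : DiffStmt) {A : W → W →L[ℝ] W} {Ω : Set W} {u w : ℂ → W} {z₀ ζ₀ : ℂ}
    {r : ℝ} (hA : Cofr A Ω) (hr : 0 < r) (hu : ContDiffOn ℝ ∞ u (ball z₀ r))
    (hw : ContDiffOn ℝ ∞ w (ball ζ₀ r)) (hΩ : w ζ₀ ∈ Ω) (cu : CR A u (ball z₀ r))
    (cw : CR A w (ball ζ₀ r)) (he : u z₀ = w ζ₀)
    (h1 : (A (u z₀) (fderiv ℝ u z₀ 1)).1 ≠ 0) {g : ℂ → ℂ} (hg : ContDiffAt ℝ 1 g ζ₀)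
    (hg0 : g ζ₀ = z₀) (hz : ∀ᶠ t in 𝓝 ζ₀, (A (w t) (u (g t) - w t)).1 = 0) :
    ∃ C : ℝ, ∀ᶠ t in 𝓝 ζ₀, ‖dbar (fun t => (A (w t) (u (g t) - w t)).2) t‖ ≤
      C * ‖(A (w t) (u (g t) - w t)).2‖ := by
  obtain ⟨ρ, hρ, hK⟩ := nhds_basis_closedBall.mem_iff.1 (hA.1.mem_nhds hΩ)
  have hu1 : ContDiffAt ℝ 1 u z₀ :=
    (hu.contDiffAt (ball_mem_nhds _ hr)).of_le (by exact_mod_cast le_top)
  have hw1 : ContDiffAt ℝ 1 w ζ₀ :=
    (hw.contDiffAt (ball_mem_nhds _ hr)).of_le (by exact_mod_cast le_top)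
  have hug : ContDiffAt ℝ 1 (fun t => u (g t)) ζ₀ :=
    ContDiffAt.comp ζ₀ (g := u) (by rwa [hg0]) hg
  have hA0 : ContinuousAt A (u z₀) := by
    rw [he]
    exact (hA.2.1.contDiffAt (hA.1.mem_nhds hΩ)).continuousAt
  have hgt : Tendsto g (𝓝 ζ₀) (𝓝 z₀) := hg0 ▸ hg.continuousAt.tendsto
  let τ : ℂ → W := fun z => A (u z) (fderiv ℝ u z 1)
  have hτ : ContinuousAt τ z₀ :=
    (ContinuousAt.comp (g := A) hA0 hu1.continuousAt).clm_apply
      ((hu1.continuousAt_fderiv one_ne_zero).clm_apply continuousAt_const)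
  have hl : ContinuousAt (fun z => (τ z).2 / (τ z).1) z₀ := hτ.snd.div hτ.fst h1
  have b1 := (hw1.continuousAt_fderiv one_ne_zero).norm.eventually_lt_const
    (lt_add_one ‖fderiv ℝ w ζ₀‖)
  have b2 := (hug.continuousAt_fderiv one_ne_zero).norm.eventually_lt_const
    (lt_add_one ‖fderiv ℝ (fun t => u (g t)) ζ₀‖)
  have b3 := hgt.eventually (hl.norm.eventually_lt_const (lt_add_one ‖(τ z₀).2 / (τ z₀).1‖))
  have b4 := hgt.eventually (hτ.fst.eventually_ne h1)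
  have b5 : ∀ᶠ t in 𝓝 ζ₀, w t ∈ closedBall (w ζ₀) ρ :=
    hw1.continuousAt.eventually (closedBall_mem_nhds _ hρ)
  have b6 : ∀ᶠ t in 𝓝 ζ₀, u (g t) ∈ closedBall (w ζ₀) ρ := by
    have : Tendsto (fun t => u (g t)) (𝓝 ζ₀) (𝓝 (w ζ₀)) := by
      rw [← he]
      exact hu1.continuousAt.tendsto.comp hgt
    exact this.eventually (closedBall_mem_nhds _ hρ)
  have b7 := hgt.eventually (ball_mem_nhds z₀ hr)
  have b8 := hg.eventually (by simp)
  have b9 := hw1.eventually (by simp)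
  have b10 := hgt.eventually (hu1.eventually (by simp))
  obtain ⟨C, hC⟩ := hF A Ω (closedBall (w ζ₀) ρ) (‖(τ z₀).2 / (τ z₀).1‖ + 1)
    (‖fderiv ℝ w ζ₀‖ + 1 + (‖fderiv ℝ (fun t => u (g t)) ζ₀‖ + 1)) hA (isCompact_closedBall _ _)
    (convex_closedBall _ _) hK
  refine ⟨C, ?_⟩
  filter_upwards [b1, b2, b3, b4, b5, b6, b7, b8, b9, b10, ball_mem_nhds ζ₀ hr,
    hz.eventually_nhds] with t b1 b2 b3 b4 b5 b6 b7 b8 b9 b10 b11 b12
  have d1 := b8.differentiableAt one_ne_zero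
  have d2 := b10.differentiableAt one_ne_zero
  refine hC w (fun t => u (g t)) t (b9.differentiableAt one_ne_zero)
    (DifferentiableAt.comp t (g := u) d2 d1) b5 b6 ?_ ?_ ?_ ⟨_, b3.le, fun h => ?_⟩ b12
  · linarith [norm_nonneg (fderiv ℝ (fun t => u (g t)) ζ₀)]
  · linarith [norm_nonneg (fderiv ℝ w ζ₀)]
  · intro z hz
    rw [mem_singleton_iff.1 hz]
    exact cw t b11
  · have e : fderiv ℝ (fun t => u (g t)) t h = fderiv ℝ u (g t) (fderiv ℝ g t h) := by
      have := fderiv_comp t d2 d1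
      exact congrArg (fun T : ℂ →L[ℝ] W => T h) this
    rw [e, lin_Persist _ _ (cu _ b7)]
    change fderiv ℝ g t h * (τ (g t)).2 =
      (τ (g t)).2 / (τ (g t)).1 * (fderiv ℝ g t h * (τ (g t)).1)
    field_simp

theorem core_Persist (hW : HWStmt) (hD : DegStmt) (hF : DiffStmt) {A : W → W →L[ℝ] W} {Ω : Set W}
    {u w : ℂ → W} {z₀ ζ₀ : ℂ} {r : ℝ} (hA : Cofr A Ω) (hr : 0 < r)
    (hu : ContDiffOn ℝ ∞ u (ball z₀ r)) (hw : ContDiffOn ℝ ∞ w (ball ζ₀ r))
    (mw : MapsTo w (ball ζ₀ r) Ω) (cu : CR A u (ball z₀ r)) (cw : CR A w (ball ζ₀ r))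
    (he : u z₀ = w ζ₀) (h1 : (A (u z₀) (fderiv ℝ u z₀ 1)).1 ≠ 0) :
    (∀ᶠ ζ in 𝓝 ζ₀, w ζ ∈ u '' ball z₀ r) ∨
      (∃ δ' : ℝ, 0 < δ' ∧ ∀ᶠ ζ in 𝓝[≠] ζ₀, w ζ ∉ u '' ball z₀ δ') ∧
      ∀ δ : ℝ, 0 < δ → ∃ ε : ℝ, 0 < ε ∧ ∀ u' w' : ℂ → W, ContinuousOn u' (ball z₀ r) →
        ContinuousOn w' (ball ζ₀ r) → (∀ z ∈ ball z₀ r, ‖u' z - u z‖ ≤ ε) →
        (∀ ζ ∈ ball ζ₀ r, ‖w' ζ - w ζ‖ ≤ ε) →
        ∃ z ∈ ball z₀ δ, ∃ ζ ∈ ball ζ₀ δ, u' z = w' ζ := by
  have hΩ : w ζ₀ ∈ Ω := mw (mem_ball_self hr)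
  have hu1 : ContDiffAt ℝ 1 u z₀ :=
    (hu.contDiffAt (ball_mem_nhds _ hr)).of_le (by exact_mod_cast le_top)
  have hw1 : ContDiffAt ℝ 1 w ζ₀ :=
    (hw.contDiffAt (ball_mem_nhds _ hr)).of_le (by exact_mod_cast le_top)
  have hA1 : ContDiffAt ℝ 1 A (w ζ₀) :=
    (hA.2.1.contDiffAt (hA.1.mem_nhds hΩ)).of_le (by exact_mod_cast le_top)
  obtain ⟨G, hG, hG0, hR, hL⟩ := str_Persist hA1 hu1 hw1 he (cu _ (mem_ball_self hr)) h1
  have hi : ContDiffAt ℝ 1 (fun t : ℂ => ((0 : ℂ), t)) ζ₀ := by fun_prop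
  let g : ℂ → ℂ := fun t => G (0, t)
  have hg : ContDiffAt ℝ 1 g ζ₀ := ContDiffAt.comp ζ₀ (g := G) hG hi
  have hg0 : g ζ₀ = z₀ := hG0
  have hgt : Tendsto g (𝓝 ζ₀) (𝓝 z₀) := hg0 ▸ hg.continuousAt.tendsto
  have hz : ∀ᶠ t in 𝓝 ζ₀, (A (w t) (u (g t) - w t)).1 = 0 :=
    hi.continuousAt.tendsto.eventually hR
  let v : ℂ → ℂ := fun t => (A (w t) (u (g t) - w t)).2
  have hv : ContDiffAt ℝ 1 v ζ₀ :=
    ((ContDiffAt.comp ζ₀ (g := A) hA1 hw1).clm_apply
      ((ContDiffAt.comp ζ₀ (g := u) (by rwa [hg0]) hg).sub hw1)).snd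
  have hv0 : v ζ₀ = 0 := by simp [v, hg0, he]
  obtain ⟨C, hC⟩ := ineq_Persist hF hA hr hu hw hΩ cu cw he h1 hg hg0 hz
  obtain ⟨r', hr', hb⟩ := Metric.eventually_nhds_iff_ball.1
    (hC.and ((hv.eventually (by simp)).and
      (hv.continuousAt.norm.eventually_lt_const (lt_add_one ‖v ζ₀‖))))
  rcases hW ℂ v ζ₀ r' C (‖v ζ₀‖ + 1) hr'
    (fun t ht => (hb t ht.1).2.1.contDiffWithinAt)
    (fun t ht => ⟨(hb t ht.1).2.2.le, (hb t ht.1).1⟩) with h0 | ⟨k, a, ha, hlim⟩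
  · left
    have h0' : ∀ᶠ t in 𝓝 ζ₀, v t = 0 := by
      rw [← nhdsNE_sup_pure ζ₀, eventually_sup]
      exact ⟨h0, by simpa using hv0⟩
    filter_upwards [h0', hz, ball_mem_nhds ζ₀ hr, hgt.eventually (ball_mem_nhds z₀ hr)]
      with t e2 e1 ht hgt
    refine ⟨g t, hgt, sub_eq_zero.1 (hA.2.2 _ (mw ht) ?_)⟩
    rw [map_zero]
    exact Prod.ext e1 e2
  right
  have hk : k ≠ 0 := by
    rintro rfl
    have h2 : Tendsto v (𝓝[≠] ζ₀) (𝓝 0) :=
      hv0 ▸ hv.continuousAt.tendsto.mono_left nhdsWithin_le_nhds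
    simp only [pow_zero, inv_one, one_smul] at hlim
    exact ha (tendsto_nhds_unique hlim h2)
  have hapos : 0 < ‖a‖ := norm_pos_iff.2 ha
  have hap : ∀ᶠ t in 𝓝[≠] ζ₀, ‖v t - a * (t - ζ₀) ^ k‖ < ‖a‖ * ‖t - ζ₀‖ ^ k / 2 := by
    filter_upwards [hlim.eventually (ball_mem_nhds a (half_pos hapos)), self_mem_nhdsWithin]
      with t ht hne
    have h3 : (t - ζ₀) ^ k ≠ 0 := pow_ne_zero _ (sub_ne_zero.2 hne)
    have h4 : v t - a * (t - ζ₀) ^ k = (((t - ζ₀) ^ k)⁻¹ • v t - a) * (t - ζ₀) ^ k := by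
      rw [smul_eq_mul]
      field_simp
    have h5 : 0 < ‖t - ζ₀‖ ^ k := pow_pos (norm_pos_iff.2 (sub_ne_zero.2 hne)) _
    rw [h4, norm_mul, norm_pow]
    rw [dist_eq_norm] at ht
    nlinarith
  refine ⟨?_, fun δ hδ => ?_⟩
  · rw [nhds_prod_eq, eventually_prod_iff] at hL
    obtain ⟨pa, hpa, pb, hpb, hab⟩ := hL
    obtain ⟨δ', hδ', hball⟩ := Metric.eventually_nhds_iff_ball.1 hpa
    refine ⟨δ', hδ', ?_⟩
    filter_upwards [hap, mem_nhdsWithin_of_mem_nhds hpb, self_mem_nhdsWithin] with t h2 h3 hne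
    rintro ⟨z, hz, e⟩
    have h4 : g t = z := hab (hball z hz) h3 (by simp [e])
    have h5 : v t = 0 := by simp [v, h4, e]
    have h6 : 0 < ‖t - ζ₀‖ ^ k := pow_pos (norm_pos_iff.2 (sub_ne_zero.2 hne)) _
    rw [h5, zero_sub, norm_neg, norm_mul, norm_pow] at h2
    nlinarith [mul_pos hapos h6]
  have hGt : Tendsto G (𝓝 (0, ζ₀)) (𝓝 z₀) := hG0 ▸ hG.continuousAt.tendsto
  have hst : Tendsto (fun y : W => y.2) (𝓝 (0, ζ₀)) (𝓝 ζ₀) := continuous_snd.tendsto _
  have hAw : ContinuousAt (fun t => A (w t)) ζ₀ :=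
    (ContDiffAt.comp ζ₀ (g := A) hA1 hw1).continuousAt
  obtain ⟨d₁, hd₁, hb₁⟩ := Metric.eventually_nhds_iff_ball.1
    (hR.and ((hG.eventually (by simp)).and
      ((hGt.eventually (ball_mem_nhds z₀ (lt_min hδ hr))).and
      ((hst.eventually (ball_mem_nhds ζ₀ (lt_min hδ hr))).and
      (hst.eventually (hAw.norm.eventually_lt_const (lt_add_one ‖A (w ζ₀)‖)))))))
  obtain ⟨d₂, hd₂, hb₂⟩ := Metric.eventually_nhds_iff_ball.1 (eventually_nhdsWithin_iff.1 hap)
  have hd : 0 < min d₁ d₂ / 2 := half_pos (lt_min hd₁ hd₂)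
  set d := min d₁ d₂ / 2 with hdd
  have hd1 : d < d₁ := by linarith [min_le_left d₁ d₂]
  have hd2 : d < d₂ := by linarith [min_le_right d₁ d₂]
  have hK : ∀ x ∈ closedBall ((0 : ℂ), ζ₀) d, _ := fun x hx => hb₁ x (closedBall_subset_ball hd1 hx)
  have m1 : MapsTo G (closedBall ((0 : ℂ), ζ₀) d) (ball z₀ r) := fun x hx =>
    ball_subset_ball (min_le_right _ _) (hK x hx).2.2.1
  have m2 : MapsTo (fun y : W => y.2) (closedBall ((0 : ℂ), ζ₀) d) (ball ζ₀ r) := fun x hx =>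
    ball_subset_ball (min_le_right _ _) (hK x hx).2.2.2.1
  have cG : ContinuousOn G (closedBall ((0 : ℂ), ζ₀) d) := fun x hx =>
    (hK x hx).2.1.continuousAt.continuousWithinAt
  have cont : ∀ u' w' : ℂ → W, ContinuousOn u' (ball z₀ r) → ContinuousOn w' (ball ζ₀ r) →
      ContinuousOn (fun y : W => A (w y.2) (u' (G y) - w' y.2)) (closedBall ((0 : ℂ), ζ₀) d) :=
    fun u' w' h h' =>
      ((hA.2.1.continuousOn.comp hw.continuousOn mw).comp continuous_snd.continuousOn m2).clm_apply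
        ((h.comp cG m1).sub (h'.comp continuous_snd.continuousOn m2))
  obtain ⟨m, hm, hdeg⟩ := deg_Persist hD (fun y => (A (w y.2) (u (G y) - w y.2)).2) ζ₀ a d k hd hk
    ha (cont u w hu.continuousOn hw.continuousOn).snd (fun t ht => by
      have h2 := hb₂ t (by rw [mem_ball_iff_norm, ht]; exact hd2) (by
        rintro rfl
        simp only [sub_self, norm_zero] at ht
        exact hd.ne ht)
      rwa [ht] at h2)
  have hN : 0 < ‖A (w ζ₀)‖ + 1 := by positivity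
  refine ⟨m / (4 * (‖A (w ζ₀)‖ + 1)), by positivity, fun u' w' cu' cw' nu nw => ?_⟩
  obtain ⟨x, hx, h0⟩ := hdeg _ (cont u' w' cu' cw') fun x hx => by
    have e : (x.1, (A (w x.2) (u (G x) - w x.2)).2) = A (w x.2) (u (G x) - w x.2) :=
      Prod.ext (hK x hx).1.symm rfl
    rw [e, ← map_sub]
    have h2 : ‖u' (G x) - w' x.2 - (u (G x) - w x.2)‖ ≤ 2 * (m / (4 * (‖A (w ζ₀)‖ + 1))) := by
      rw [sub_sub_sub_comm]
      exact (norm_sub_le _ _).trans (by linarith [nu _ (m1 hx), nw _ (m2 hx)])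
    calc _ ≤ ‖A (w x.2)‖ * ‖u' (G x) - w' x.2 - (u (G x) - w x.2)‖ :=
          ContinuousLinearMap.le_opNorm _ _
      _ ≤ (‖A (w ζ₀)‖ + 1) * (2 * (m / (4 * (‖A (w ζ₀)‖ + 1)))) :=
          mul_le_mul (hK x hx).2.2.2.2.le h2 (norm_nonneg _) hN.le
      _ = m / 2 := by field_simp; norm_num
      _ < m := half_lt_self hm
  refine ⟨G x, ball_subset_ball (min_le_left _ _) (hK x hx).2.2.1, x.2,
    ball_subset_ball (min_le_left _ _) (hK x hx).2.2.2.1,
    sub_eq_zero.1 (hA.2.2 _ (mw (m2 hx)) ?_)⟩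
  rw [map_zero]
  exact h0

theorem persist (hW : HWStmt) (hD : DegStmt) (hF : DiffStmt) : PersistStmt := by
  intro A Ω u w z₀ ζ₀ r hA hr hu hw mu mw cu cw he h0
  by_cases h1 : (A (u z₀) (fderiv ℝ u z₀ 1)).1 = 0
  swap
  · exact core_Persist hW hD hF hA hr hu hw mw cu cw he h1
  let S : W →L[ℝ] W := (ContinuousLinearEquiv.prodComm ℝ ℂ ℂ : W →L[ℝ] W)
  have hS : ∀ x : W, S x = (x.2, x.1) := fun _ => rfl
  have hcr : ∀ (f : ℂ → W) (O : Set ℂ), CR A f O → CR (fun x => S.comp (A x)) f O := by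
    intro f O h z hz
    simp only [ContinuousLinearMap.comp_apply, h z hz, hS]
    rfl
  refine core_Persist hW hD hF (A := fun x => S.comp (A x)) (Ω := Ω)
    ⟨hA.1, contDiffOn_const.clm_comp hA.2.1, fun x hx =>
      (ContinuousLinearEquiv.prodComm ℝ ℂ ℂ).injective.comp (hA.2.2 x hx)⟩ hr hu hw mw
    (hcr _ _ cu) (hcr _ _ cw) he fun h2 => h0 (hA.2.2 _ (mu (mem_ball_self hr)) ?_)
  rw [map_zero]
  exact Prod.ext h1 h2

end Pool.Agent.MP_2fc7fa_gt.N

end
end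

section

/-! A line has finitely many critical points and finite fibres. -/

open scoped ContDiff Topology
open Set Complex Filter Metric

namespace Pool.Agent.MP_2fc7fa_gt.N

theorem key_Fin (hW : HWStmt) {a : ℂ → W →L[ℝ] W} {g : ℂ → W} {c : ℂ} (ha : ContDiffAt ℝ 1 a c)
    (hi : Function.Injective (a c)) (hg : ContDiffAt ℝ 1 g c)
    (hb : ∀ᶠ z in 𝓝 c, ∃ y, ‖a z y‖ ≤ ‖a z (g z)‖ ∧
      ‖dbar (fun z => a z (g z)) z‖ ≤ ‖fderiv ℝ a z 1 y‖ + ‖fderiv ℝ a z I (g z)‖) :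
    (∀ᶠ z in 𝓝 c, g z = 0) ∨ ∀ᶠ z in 𝓝[≠] c, g z ≠ 0 := by
  obtain ⟨K, hK, hK'⟩ := (a c : W →ₗ[ℝ] W).exists_antilipschitzWith (LinearMap.ker_eq_bot.2 hi)
  have hK0 : (0 : ℝ) < K := hK
  have h1 : ∀ᶠ z in 𝓝 c, ∀ y, ‖y‖ ≤ 2 * K * ‖a z y‖ := by
    filter_upwards [ha.continuousAt.eventually
      (closedBall_mem_nhds (a c) (show (0 : ℝ) < (2 * K)⁻¹ by positivity))] with z hz y
    have e1 : ‖y‖ ≤ K * ‖a c y‖ := ZeroHomClass.bound_of_antilipschitz _ hK' y
    have e2 : ‖a z y - a c y‖ ≤ (2 * K : ℝ)⁻¹ * ‖y‖ :=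
      (a z - a c).le_of_opNorm_le (mem_closedBall_iff_norm.1 hz) y
    have e3 := norm_sub_norm_le (a c y) (a z y)
    rw [norm_sub_rev] at e3
    have e4 : K * ((2 * K : ℝ)⁻¹ * ‖y‖) = ‖y‖ / 2 := by field_simp
    nlinarith
  have hv : ContDiffAt ℝ 1 (fun z => a z (g z)) c := ha.clm_apply hg
  have h2 := (ha.continuousAt_fderiv one_ne_zero).norm.eventually
    (eventually_le_nhds (lt_add_one ‖fderiv ℝ a c‖))
  have h3 := hv.continuousAt.norm.eventually (eventually_le_nhds (lt_add_one ‖a c (g c)‖))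
  obtain ⟨r, hr, h4⟩ := Metric.eventually_nhds_iff_ball.1
    (((hv.eventually (by simp)).and h3).and (h1.and (h2.and hb)))
  rcases hW W (fun z => a z (g z)) c r (2 * ((‖fderiv ℝ a c‖ + 1) * (2 * K))) _ hr
    (fun z hz => (h4 z hz.1).1.1.contDiffWithinAt) (fun z hz => ⟨(h4 z hz.1).1.2, by
      obtain ⟨-, e1, e2, y, e3, e4⟩ := h4 z hz.1
      have e5 : ∀ (k : ℂ) y, ‖k‖ = 1 → ‖a z y‖ ≤ ‖a z (g z)‖ →
          ‖fderiv ℝ a z k y‖ ≤ (‖fderiv ℝ a c‖ + 1) * (2 * K) * ‖a z (g z)‖ := fun k y hk hy => by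
        refine ((fderiv ℝ a z).le_opNorm₂ k y).trans ?_
        rw [hk, mul_one, mul_assoc]
        gcongr
        exact (e1 y).trans (by gcongr)
      have := e5 1 y norm_one e3
      have := e5 I _ norm_I le_rfl
      linarith⟩) with h | ⟨k, b, hb, h⟩
  · left
    have h5 : ∀ᶠ z in 𝓝[≠] c, g z = 0 := by
      filter_upwards [h, nhdsWithin_le_nhds h1] with z hz e
      simpa [hz] using e (g z)
    have h6 : g c = 0 := tendsto_nhds_unique (hg.continuousAt.tendsto.mono_left nhdsWithin_le_nhds)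
      (tendsto_const_nhds.congr' (h5.mono fun z hz => hz.symm))
    rw [← nhdsNE_sup_pure, eventually_sup]
    exact ⟨h5, h6⟩
  · right
    filter_upwards [h.eventually_ne hb] with z hz e
    simp [e] at hz

section
variable {A : W → W →L[ℝ] W} {w : ℂ → W} {c : ℂ}

theorem fibLoc_Fin (hW : HWStmt) (hA : Cofr A univ)
    (hw : ∀ᶠ z in 𝓝 c, ContDiffAt ℝ ∞ w z ∧ CR A w {z}) (y : W) :
    (∀ᶠ z in 𝓝 c, w z = y) ∨ ∀ᶠ z in 𝓝[≠] c, w z ≠ y := by
  have h1 : ∀ {z}, ContDiffAt ℝ ∞ w z → ContDiffAt ℝ 1 (fun z => A (w z)) z := fun h =>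
    ((contDiffOn_univ.1 hA.2.1).contDiffAt.comp _ h).of_le (mod_cast le_top)
  simp only [← sub_eq_zero (b := y), ne_eq]
  refine key_Fin hW (h1 hw.self_of_nhds.1) (hA.2.2 _ trivial)
    ((hw.self_of_nhds.1.of_le (mod_cast le_top)).sub contDiffAt_const) ?_
  filter_upwards [hw] with z hz
  refine ⟨_, le_rfl, ?_⟩
  have h2 := (((h1 hz.1).differentiableAt one_ne_zero).hasFDerivAt.clm_apply
    ((hz.1.differentiableAt (by simp)).hasFDerivAt.sub_const y)).fderiv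
  have h3 : dbar (fun z => A (w z) (w z - y)) z = (1 / 2 : ℂ) •
      (fderiv ℝ (fun z => A (w z)) z 1 (w z - y) + I • fderiv ℝ (fun z => A (w z)) z I (w z - y)) := by
    rw [dbar, h2]
    simp only [add_apply, ContinuousLinearMap.comp_apply,
      ContinuousLinearMap.flip_apply, hz.2 z rfl, smul_add, smul_smul]
    match_scalars <;> simp
  rw [h3, norm_smul]
  refine (mul_le_of_le_one_left (norm_nonneg _) (by norm_num)).trans ((norm_add_le _ _).trans ?_)
  rw [norm_smul, norm_I, one_mul]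

theorem critLoc_Fin (hW : HWStmt) (hA : Cofr A univ)
    (hw : ∀ᶠ z in 𝓝 c, ContDiffAt ℝ ∞ w z ∧ CR A w {z}) :
    (∀ᶠ z in 𝓝 c, w z = w c) ∨ ∀ᶠ z in 𝓝[≠] c, fderiv ℝ w z 1 ≠ 0 := by
  have h1 : ∀ {z}, ContDiffAt ℝ ∞ w z → ContDiffAt ℝ 1 (fun z => A (w z)) z := fun h =>
    ((contDiffOn_univ.1 hA.2.1).contDiffAt.comp _ h).of_le (mod_cast le_top)
  have h0 : ∀ {z}, ContDiffAt ℝ ∞ w z → ContDiffAt ℝ 1 (fderiv ℝ w) z := fun h =>
    h.fderiv_right (one_add_one_eq_two.trans_le ENat.LEInfty.out)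
  refine (key_Fin hW (g := fun z => fderiv ℝ w z 1) (h1 hw.self_of_nhds.1) (hA.2.2 _ trivial)
    ((h0 hw.self_of_nhds.1).clm_apply contDiffAt_const) ?_).imp_left fun h => ?_
  · filter_upwards [hw.eventually_nhds] with z hz'
    have hz := hz'.self_of_nhds
    refine ⟨fderiv ℝ w z I, by rw [hz.2 z rfl, norm_smul, norm_I, one_mul], ?_⟩
    have h2 := fun k : ℂ => ((h1 hz.1).differentiableAt one_ne_zero).hasFDerivAt.clm_apply
      (((h0 hz.1).differentiableAt one_ne_zero).hasFDerivAt.clm_apply (hasFDerivAt_const k z))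
    have h4 := DFunLike.congr_fun ((h2 I).unique (((h2 1).const_smul I).congr_of_eventuallyEq
      (hz'.mono fun t ht => ht.2 t rfl))) 1
    have h5 := (hz.1.isSymmSndFDerivAt (by simpa using ENat.LEInfty.out)).eq 1 I
    have h3 : dbar (fun z => A (w z) (fderiv ℝ w z 1)) z = (I / 2 : ℂ) •
        (fderiv ℝ (fun z => A (w z)) z I (fderiv ℝ w z 1) -
          fderiv ℝ (fun z => A (w z)) z 1 (fderiv ℝ w z I)) := by
      rw [dbar, (h2 1).fderiv]
      simp only [add_apply, ContinuousLinearMap.comp_apply,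
        ContinuousLinearMap.flip_apply, smul_apply,
        zero_apply, map_zero, zero_add, h5] at h4 ⊢
      linear_combination (norm := skip) (I / 2 : ℂ) • h4
      match_scalars <;> grind [I_mul_I]
    rw [h3, norm_smul]
    refine (mul_le_of_le_one_left (norm_nonneg _) (by norm_num)).trans ((norm_sub_le _ _).trans ?_)
    rw [add_comm]
  · obtain ⟨r, hr, h2⟩ := Metric.eventually_nhds_iff_ball.1 (h.and hw)
    filter_upwards [ball_mem_nhds c hr] with z hz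
    refine isOpen_ball.is_const_of_fderiv_eq_zero (𝕜 := ℝ) (convex_ball c r).isPreconnected
      (fun t ht => ((h2 t ht).2.1.differentiableAt (by simp)).differentiableWithinAt)
      (fun t ht => ?_) hz (mem_ball_self hr)
    have e1 := (h2 t ht).1
    have e2 : fderiv ℝ w t I = 0 := hA.2.2 (w t) trivial (by
      rw [(h2 t ht).2.2 t rfl, e1, map_zero, smul_zero])
    refine ContinuousLinearMap.ext fun k => ?_
    have e : k = k.re • (1 : ℂ) + k.im • I := by simp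
    rw [e, map_add, map_smul, map_smul, e1, e2]
    simp

end

section
variable {φ : Fr} {u : ℂ → V} {c : ℂ}

theorem chart_Fin (hC : ChartStmt) (hu : ContDiff ℝ ∞ u) (h : CR φ.A u univ) {a : Fin 3}
    (ha : u c a ≠ 0) : ∃ A, Cofr A univ ∧ (∀ᶠ z in 𝓝 c, u z a ≠ 0) ∧
      (∀ᶠ z in 𝓝 c, ContDiffAt ℝ ∞ (ch a ∘ u) z ∧ CR A (ch a ∘ u) {z}) ∧
      ∀ᶠ z in 𝓝 c, fderiv ℝ (ch a ∘ u) z 1 = 0 ↔ ∃ k : ℂ, fderiv ℝ u z 1 = k • u z := by
  obtain ⟨A, hA⟩ := hC.1 φ a
  obtain ⟨h1, h2⟩ := hC.2.1 φ a A hA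
  have h3 : ∀ᶠ z in 𝓝 c, u z a ≠ 0 :=
    ((continuous_apply a).comp hu.continuous).continuousAt.eventually_ne ha
  have h4 := fun z hz => h2 u z (hu.differentiable (by simp) z) hz fun t _ => h t trivial
  refine ⟨A, h1, h3, h3.mono fun z hz => ⟨?_, (h4 z hz).1⟩, h3.mono fun z hz => (h4 z hz).2⟩
  have h5 := fun j => (contDiff_pi.1 hu j).contDiffAt (x := z)
  exact ((h5 _).mul ((h5 a).inv hz)).prodMk ((h5 _).mul ((h5 a).inv hz))

theorem ch_Fin {a : Fin 3} {x y : V} (hx : x a ≠ 0) (hy : y a ≠ 0) :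
    ch a x = ch a y ↔ ∃ k : ℂ, x = k • y := by
  constructor
  · intro h
    refine ⟨x a / y a, funext fun j => ?_⟩
    have h1 := congrArg Prod.fst h
    have h2 := congrArg Prod.snd h
    simp only [ch] at h1 h2
    have : ∀ j a : Fin 3, j = a ∨ j = a + 1 ∨ j = a + 2 := by decide
    rcases this j a with rfl | rfl | rfl <;> simp only [Pi.smul_apply, smul_eq_mul] <;> grind
  · rintro ⟨k, rfl⟩
    have : k ≠ 0 := fun h => by simp [h] at hx
    simp [ch, mul_div_mul_left _ _ this]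

theorem fibU_Fin (hW : HWStmt) (hC : ChartStmt) (hu : ContDiff ℝ ∞ u) (h : CR φ.A u univ)
    (h0 : u c ≠ 0) (x : V) :
    (∀ᶠ z in 𝓝 c, ∃ k : ℂ, u z = k • x) ∨ ∀ᶠ z in 𝓝[≠] c, ¬∃ k : ℂ, u z = k • x := by
  obtain ⟨a, ha⟩ := Function.ne_iff.1 h0
  obtain ⟨A, h1, h2, h3, -⟩ := chart_Fin hC hu h ha
  by_cases hx : x a = 0
  · right
    filter_upwards [nhdsWithin_le_nhds h2] with z hz
    rintro ⟨k, hk⟩
    simp [hk, hx] at hz
  refine (fibLoc_Fin hW h1 h3 (ch a x)).imp (fun h4 => ?_) fun h4 => ?_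
  · filter_upwards [h2, h4] with z e1 e2 using (ch_Fin e1 hx).1 e2
  · filter_upwards [nhdsWithin_le_nhds h2, h4] with z e1 e2 e3 using e2 ((ch_Fin e1 hx).2 e3)

theorem critU_Fin (hW : HWStmt) (hC : ChartStmt) (hu : ContDiff ℝ ∞ u) (h : CR φ.A u univ)
    (h0 : u c ≠ 0) :
    (∀ᶠ z in 𝓝 c, ∃ k : ℂ, u z = k • u c) ∨
      ∀ᶠ z in 𝓝[≠] c, ¬∃ k : ℂ, fderiv ℝ u z 1 = k • u z := by
  obtain ⟨a, ha⟩ := Function.ne_iff.1 h0
  obtain ⟨A, h1, h2, h3, h5⟩ := chart_Fin hC hu h ha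
  refine (critLoc_Fin hW h1 h3).imp (fun h4 => ?_) fun h4 => ?_
  · filter_upwards [h2, h4] with z e1 e2 using (ch_Fin e1 ha).1 e2
  · filter_upwards [nhdsWithin_le_nhds h5, h4] with z e1 e2 e3 using e2 (e1.2 e3)

end

theorem few_Fin {S : Set W} (hS : ∀ c : ℂ, c ≠ 0 → ∀ q, c • q ∈ S → q ∈ S)
    (h0 : ∀ c : ℂ, ∀ᶠ z in 𝓝[≠] c, (1, z) ∉ S) (h1 : ∀ᶠ z in 𝓝[≠] (0 : ℂ), (z, 1) ∉ S) :
    FewLines S := by
  obtain ⟨r, hr, h2⟩ := Metric.eventually_nhds_iff_ball.1 (eventually_nhdsWithin_iff.1 h1)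
  have h3 : {z : ℂ | (1, z) ∈ S}.Finite := by
    by_contra h
    obtain ⟨c, -, hc⟩ := Set.Infinite.exists_accPt_of_subset_isCompact h
      (isCompact_closedBall (0 : ℂ) r⁻¹) fun z hz => by
        by_contra h4
        rw [mem_closedBall_zero_iff, not_le] at h4
        have h5 : z ≠ 0 := norm_pos_iff.1 ((inv_pos.2 hr).trans h4)
        refine h2 z⁻¹ ?_ (inv_ne_zero h5) (hS z h5 _ (by simpa [h5] using hz))
        rw [mem_ball_zero_iff, norm_inv]
        exact inv_lt_of_inv_lt₀ hr h4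
    exact accPt_iff_frequently_nhdsNE.1 hc (h0 c)
  refine ⟨insert (0, 1) ((fun z => (1, z)) '' _), (h3.image _).insert _, fun q hq => ?_⟩
  by_cases h : q.1 = 0
  · exact ⟨_, mem_insert _ _, q.2, by ext <;> simp [h]⟩
  have e : q = q.1 • ((1, q.1⁻¹ * q.2) : W) := by ext <;> simp [h]
  exact ⟨_, mem_insert_of_mem _ ⟨_, hS _ h _ (e ▸ hq), rfl⟩, _, e⟩

section
variable {φ : Fr} {U : W → V}

theorem diff_Fin (hU : IsLine φ.J U) {q : W} (hq : q ≠ 0) : DifferentiableAt ℝ U q :=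
  (hU.c1.contDiffAt (isOpen_compl_singleton.mem_nhds hq)).differentiableAt one_ne_zero

theorem ne_Fin (z : ℂ) : ((1, z) : W) ≠ 0 := fun h => one_ne_zero (congrArg Prod.fst h)

theorem swap_Fin (hU : IsLine φ.J U) :
    IsLine φ.J (U ∘ ContinuousLinearEquiv.prodComm ℝ ℂ ℂ) := by
  have h0 : ∀ q : W, q ≠ 0 → ContinuousLinearEquiv.prodComm ℝ ℂ ℂ q ≠ 0 := fun q hq =>
    (map_ne_zero_iff _ (ContinuousLinearEquiv.injective _)).2 hq
  refine ⟨hU.c1.comp (ContinuousLinearEquiv.contDiff _).contDiffOn h0, fun q hq => hU.ne _ (h0 q hq),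
    fun c q => hU.hom c q.swap, fun q hq h => ?_⟩
  rw [ContinuousLinearEquiv.comp_right_fderiv]
  exact hU.hol _ (h0 q hq) h.swap

theorem vert_Fin (φ : Fr) {x : V} (hx : x ≠ 0) (k : ℂ) : φ.A x (k • x) = k • x := by
  rw [← φ.vert x hx, φ.AB x hx, φ.vert x hx]

theorem tau_Fin (hU : IsLine φ.J U) {q : W} (hq : q ≠ 0) (k : ℂ) (h : W) :
    φ.A (U q) (fderiv ℝ U q (k • h)) = k • φ.A (U q) (fderiv ℝ U q h) := by
  have e : k • h = k.re • h + k.im • I • h := by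
    rw [← Complex.coe_smul, ← Complex.coe_smul, smul_smul, ← add_smul, re_add_im]
  rw [e, map_add, map_add, map_smul, map_smul, map_smul, map_smul, hU.hol q hq, Fr.J,
    φ.AB _ (hU.ne q hq), ← Complex.coe_smul, ← Complex.coe_smul, smul_smul, ← add_smul, re_add_im]

theorem fd_Fin (hU : IsLine φ.J U) (z k : ℂ) :
    fderiv ℝ (fun z => U (1, z)) z k = fderiv ℝ U (1, z) (0, k) :=
  DFunLike.congr_fun (HasFDerivAt.comp (g := U) (f := fun z : ℂ => ((1 : ℂ), z)) z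
    (diff_Fin hU (ne_Fin z)).hasFDerivAt (hasFDerivAt_prodMk_right 1 z)).fderiv k

theorem cr_Fin (hU : IsLine φ.J U) : CR φ.A (fun z => U (1, z)) univ := fun z _ => by
  rw [fd_Fin hU, fd_Fin hU, ← tau_Fin hU (ne_Fin z)]
  simp

theorem sm_Fin (hS : LineSmoothStmt) (hU : IsLine φ.J U) : ContDiff ℝ ∞ fun z : ℂ => U (1, z) :=
  (hS φ U hU).comp_contDiff (contDiff_const.prodMk contDiff_id) ne_Fin

theorem inj_Fin (hU : IsLine φ.J U) {z : ℂ}
    (h : ¬∃ k : ℂ, fderiv ℝ (fun z => U (1, z)) z 1 = k • U (1, z)) :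
    Function.Injective (fderiv ℝ U (1, z)) := by
  have hq := ne_Fin z
  have hx := hU.ne _ hq
  have h1 : fderiv ℝ U (1, z) (1, z) = U (1, z) := by
    have e1 : HasDerivAt (fun t : ℝ => t • ((1, z) : W)) ((1 : ℝ) • ((1, z) : W)) 1 :=
      (hasDerivAt_id _).smul_const _
    have e2 := HasFDerivAt.comp_hasDerivAt_of_eq (hl := (diff_Fin hU hq).hasFDerivAt) (hf := e1)
      (hy := (one_smul _ _).symm)
    have e3 : HasDerivAt (fun t : ℝ => t • U (1, z)) ((1 : ℝ) • U (1, z)) 1 :=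
      (hasDerivAt_id _).smul_const _
    simpa using e2.unique (e3.congr_of_eventuallyEq (.of_forall fun t => hU.hom t _))
  refine (injective_iff_map_eq_zero _).2 fun y hy => ?_
  have e : y = y.1 • ((1, z) : W) + (y.2 - y.1 * z) • ((0, 1) : W) := by ext <;> simp
  have h2 := congrArg (φ.A (U (1, z))) hy
  rw [e, map_add, map_add, tau_Fin hU hq, tau_Fin hU hq, h1, map_zero] at h2
  have h3 := vert_Fin φ hx 1
  rw [one_smul] at h3
  rw [h3] at h2
  by_cases h4 : y.2 - y.1 * z = 0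
  · rw [h4, zero_smul, add_zero, smul_eq_zero_iff_left hx] at h2
    rw [e, h4, h2]
    simp
  refine (h ⟨-(y.2 - y.1 * z)⁻¹ * y.1, ?_⟩).elim
  rw [fd_Fin hU, ← φ.BA _ hx (fderiv ℝ U _ _), ← φ.vert _ hx]
  congr 1
  linear_combination (norm := skip) (y.2 - y.1 * z)⁻¹ • h2
  match_scalars <;> grind

theorem liou_Fin (hU : IsLine φ.J U) (x : V) : ¬∀ z : ℂ, ∃ k : ℂ, U (1, z) = k • x := fun h => by
  have hx : x ≠ 0 := by
    rintro rfl
    obtain ⟨k, hk⟩ := h 0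
    exact hU.ne _ (ne_Fin 0) (by simpa using hk)
  obtain ⟨a, ha⟩ := Function.ne_iff.1 hx
  replace ha : x a ≠ 0 := ha
  have h1 : ∀ z : ℂ, U (1, z) = (U (1, z) a * (x a)⁻¹) • x := fun z => by
    obtain ⟨k, hk⟩ := h z
    simp [hk, ha]
  have h2 : ∀ z : ℂ, U (1, z) a ≠ 0 := fun z e => hU.ne _ (ne_Fin z) (by rw [h1, e]; simp)
  have h3 : Differentiable ℂ fun z : ℂ => U (1, z) := fun z => by
    have e1 : DifferentiableAt ℝ (fun z : ℂ => U (1, z)) z :=
      DifferentiableAt.comp (g := U) z (diff_Fin hU (ne_Fin z)) (by fun_prop)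
    refine differentiableAt_complex_iff_differentiableAt_real.2 ⟨e1, ?_⟩
    have e2 := DFunLike.congr_fun (e1.hasFDerivAt.unique
      ((((hasFDerivAt_pi'.1 e1.hasFDerivAt a).mul_const (x a)⁻¹).smul_const x).congr_of_eventuallyEq
      (.of_forall h1))) 1
    obtain ⟨k, e4⟩ : ∃ k : ℂ, fderiv ℝ (fun z : ℂ => U (1, z)) z 1 = k • x := ⟨_, e2⟩
    have e3 : fderiv ℝ (fun z : ℂ => U (1, z)) z 1 = (k * x a * (U (1, z) a)⁻¹) • U (1, z) := by
      rw [e4]
      nth_rw 2 [h1 z]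
      have := h2 z
      match_scalars
      grind
    have hz := hU.ne _ (ne_Fin z)
    rw [← φ.BA _ hz (fderiv ℝ _ z I), cr_Fin hU z trivial, e3, vert_Fin φ hz, smul_smul, φ.vert _ hz]
  have h4 : ContinuousAt (fun t : ℂ => U (t, 1)) 0 :=
    ContinuousAt.comp (g := U) (diff_Fin hU fun e => one_ne_zero (congrArg Prod.snd e)).continuousAt
      (by fun_prop)
  have h5 : ∀ z : ℂ, z ≠ 0 → U (1, z) = z • U (z⁻¹, 1) := fun z hz => by
    rw [← hU.hom]
    simp [hz]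
  have h6 : ContinuousAt (fun t : ℂ => U (t, 1) a) 0 := continuousAt_pi.1 h4 a
  have h7 : U (0, 1) a ≠ 0 := fun e => hU.ne (0, 1) (fun e => one_ne_zero (congrArg Prod.snd e)) (by
    have e1 : U (0, 1) = (U (0, 1) a * (x a)⁻¹) • x :=
      tendsto_nhds_unique_of_eventuallyEq (l := 𝓝[≠] 0) (h4.tendsto.mono_left nhdsWithin_le_nhds)
        (((h6.tendsto.mul_const _).smul_const x).mono_left nhdsWithin_le_nhds) (by
          filter_upwards [self_mem_nhdsWithin] with t ht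
          have := h1 t⁻¹
          rw [h5 _ (inv_ne_zero ht), inv_inv, Pi.smul_apply, smul_eq_mul, mul_assoc, mul_smul] at this
          exact smul_right_injective _ (inv_ne_zero ht) this)
    rw [e1, e]
    simp)
  have h8 : Tendsto (fun z : ℂ => (U (1, z) a)⁻¹) (cocompact ℂ) (𝓝 (0 * (U (0, 1) a)⁻¹)) := by
    rw [← cobounded_eq_cocompact]
    refine (((continuousAt_id.mul (h6.inv₀ h7)).tendsto).comp tendsto_inv₀_cobounded).congr' ?_
    filter_upwards [Bornology.eventually_ne_cobounded 0] with z hz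
    simp [h5 z hz, mul_comm]
  have := ((differentiable_pi.1 h3 a).inv h2).apply_eq_of_tendsto_cocompact 0 h8
  simp [h2] at this

theorem fib_Fin (hS : LineSmoothStmt) (hW : HWStmt) (hC : ChartStmt) (hU : IsLine φ.J U) (x : V)
    (c : ℂ) : ∀ᶠ z in 𝓝[≠] c, ¬∃ k : ℂ, U (1, z) = k • x := by
  refine ((isPreconnected_univ.subset_or_subset (u := {c | ∀ᶠ z in 𝓝 c, ∃ k : ℂ, U (1, z) = k • x})
    (v := {c | ∀ᶠ z in 𝓝[≠] c, ¬∃ k : ℂ, U (1, z) = k • x}) isOpen_setOfPred_eventually_nhds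
    (isOpen_iff_eventually.2 fun c hc => ?_) (disjoint_left.2 fun c h1 h2 => ?_)
    fun c _ => fibU_Fin hW hC (sm_Fin hS hU) (cr_Fin hU) (hU.ne _ (ne_Fin c)) x).resolve_left
    fun h => liou_Fin hU x fun z => (mem_ofPred.1 (h (mem_univ z))).self_of_nhds) (mem_univ c)
  · rw [← nhdsNE_sup_pure, eventually_sup]
    exact ⟨(eventually_nhdsNE_eventually_nhds_iff.2 hc).mono fun y hy => nhdsWithin_le_nhds hy, hc⟩
  · obtain ⟨z, e1, e2⟩ := (Eventually.and (nhdsWithin_le_nhds h1) h2).exists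
    exact e2 e1

theorem crit_Fin (hS : LineSmoothStmt) (hW : HWStmt) (hC : ChartStmt) (hU : IsLine φ.J U)
    (c : ℂ) : ∀ᶠ z in 𝓝[≠] c, Function.Injective (fderiv ℝ U (1, z)) := by
  refine ((critU_Fin hW hC (sm_Fin hS hU) (cr_Fin hU) (hU.ne _ (ne_Fin c))).resolve_left
    fun h => ?_).mono fun z => inj_Fin hU
  obtain ⟨z, e1, e2⟩ := (Eventually.and (nhdsWithin_le_nhds h) (fib_Fin hS hW hC hU _ c)).exists
  exact e2 e1

end

theorem finS (hS : LineSmoothStmt) (hW : HWStmt) (hC : ChartStmt) : FinStmt := by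
  refine fun φ U hU => ⟨few_Fin (fun c hc q hq h => hq ?_)
    (fun c => (crit_Fin hS hW hC hU c).mono fun z hz h => h hz)
    ((crit_Fin hS hW hC (swap_Fin hU) 0).mono fun z hz h => h ?_), fun x => few_Fin ?_
    (fib_Fin hS hW hC hU x) (fib_Fin hS hW hC (swap_Fin hU) x 0)⟩
  · by_cases h0 : q = 0
    · rwa [h0, smul_zero, ← h0]
    have e1 : HasFDerivAt (fun p : W => c⁻¹ • p) (c⁻¹ • ContinuousLinearMap.id ℝ W) (c • q) :=
      (hasFDerivAt_id (c • q)).const_smul c⁻¹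
    have e2 := (HasFDerivAt.comp (g := U) (g' := fderiv ℝ U q) _
      (by rw [inv_smul_smul₀ hc]; exact (diff_Fin hU h0).hasFDerivAt) e1).const_smul c
    rw [(e2.congr_of_eventuallyEq (.of_forall fun p => by
      simp [hU.hom, hc])).fderiv]
    exact (smul_right_injective _ hc).comp (h.comp (smul_right_injective _ (inv_ne_zero hc)))
  · rw [ContinuousLinearEquiv.comp_right_fderiv] at hz
    exact Function.Injective.of_comp_right hz (ContinuousLinearEquiv.surjective _)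
  · rintro c hc q ⟨k, hk⟩
    exact ⟨c⁻¹ * k, by rw [mul_smul, ← hk, hU.hom, inv_smul_smul₀ hc]⟩

end Pool.Agent.MP_2fc7fa_gt.N

end

section

/-! Persistence of intersections of lines. -/

open scoped ContDiff ComplexConjugate Topology
open Set Complex Filter Metric

namespace Pool.Agent.MP_2fc7fa_gt.N

theorem trans_GPersist {q : W} (hq : q ≠ 0) : ∃ h, det2 q h = 1 := by
  by_cases h1 : q.1 = 0
  · have h2 : q.2 ≠ 0 := fun h2 => hq (Prod.ext h1 h2)
    exact ⟨(-q.2⁻¹, 0), by simp [det2, h2]⟩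
  · exact ⟨(0, q.1⁻¹), by simp [det2, h1]⟩

theorem ne_GPersist {q h : W} (hh : det2 q h = 1) (z : ℂ) : q + z • h ≠ 0 := by
  intro e
  have h1 : q.1 + z * h.1 = 0 := congrArg Prod.fst e
  have h2 : q.2 + z * h.2 = 0 := congrArg Prod.snd e
  unfold det2 at hh
  have : (1 : ℂ) = 0 := by linear_combination h.2 * h1 - h.1 * h2 - hh
  exact one_ne_zero this

/-- Coordinates near `q`. -/
theorem coord_GPersist {q h : W} (hh : det2 q h = 1) : ∃ c t : W → ℂ,
    Tendsto c (𝓝 q) (𝓝 1) ∧ Tendsto t (𝓝 q) (𝓝 0) ∧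
      ∀ᶠ r in 𝓝 q, c r ≠ 0 ∧ r = c r • (q + t r • h) := by
  have h1 : Tendsto (fun r => det2 r h) (𝓝 q) (𝓝 1) :=
    Continuous.tendsto' (by unfold det2; fun_prop) _ _ hh
  have h2 : Tendsto (fun r => det2 q r) (𝓝 q) (𝓝 0) :=
    Continuous.tendsto' (by unfold det2; fun_prop) _ _ (by unfold det2; ring)
  refine ⟨fun r => det2 r h, fun r => det2 q r / det2 r h, h1,
    (h2.div h1 one_ne_zero).trans (by rw [zero_div]), (h1.eventually_ne one_ne_zero).mono fun r hr => ⟨hr, ?_⟩⟩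
  rw [smul_add, smul_smul, mul_div_cancel₀ _ hr]
  unfold det2 at hh ⊢
  refine Prod.ext ?_ ?_
  · simp only [Prod.fst_add, Prod.smul_fst, smul_eq_mul]
    linear_combination (-r.1) * hh
  · simp only [Prod.snd_add, Prod.smul_snd, smul_eq_mul]
    linear_combination (-r.2) * hh

theorem ch_smul_GPersist (a : Fin 3) {c : ℂ} (hc : c ≠ 0) (x : V) : ch a (c • x) = ch a x := by
  simp [ch, mul_div_mul_left _ _ hc]

theorem ch_eq_GPersist {a : Fin 3} {x y : V} (hx : x a ≠ 0) (hy : y a ≠ 0) (h : ch a x = ch a y) :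
    y = (y a / x a) • x := by
  have h1 : x (a + 1) / x a = y (a + 1) / y a := congrArg Prod.fst h
  have h2 : x (a + 2) / x a = y (a + 2) / y a := congrArg Prod.snd h
  have h3 : ∀ a j : Fin 3, j = a ∨ j = a + 1 ∨ j = a + 2 := by decide
  funext j
  rw [Pi.smul_apply, smul_eq_mul, div_mul_comm]
  rcases h3 a j with rfl | rfl | rfl
  · rw [div_self hx, one_mul]
  · rw [h1, div_mul_cancel₀ _ hy]
  · rw [h2, div_mul_cancel₀ _ hy]

theorem ch_smooth_GPersist {a : Fin 3} {x : V} (hx : x a ≠ 0) : ContDiffAt ℝ ∞ (ch a) x := by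
  have h1 : ∀ j, ContDiffAt ℝ ∞ (fun y : V => y j) x := fun j => contDiffAt_apply ℝ ℂ j x
  have h2 : ch a = fun y : V => (y (a + 1) * (y a)⁻¹, y (a + 2) * (y a)⁻¹) := rfl
  rw [h2]
  exact ((h1 _).mul ((h1 _).inv hx)).prodMk ((h1 _).mul ((h1 _).inv hx))

theorem near_GPersist {U U' : W → V} {ε : ℝ} (hU : ∀ (c : ℂ) q, U (c • q) = c • U q)
    (hU' : ∀ (c : ℂ) q, U' (c • q) = c • U' q) (h : Near ε U' U) {q : W} (hq : q ≠ 0) :
    ‖U' q - U q‖ ≤ ‖q‖ * ε := by
  have h0 : (‖q‖ : ℂ) ≠ 0 := by simpa using hq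
  have h1 := (h ((‖q‖ : ℂ)⁻¹ • q) (by simp [norm_smul, hq])).1
  conv_lhs => rw [← smul_inv_smul₀ h0 q, hU, hU', ← smul_sub, norm_smul]
  simpa using mul_le_mul_of_nonneg_left h1 (norm_nonneg q)

theorem diff_GPersist {U : W → V} (hU : ContDiffOn ℝ 1 U {0}ᶜ) {q : W} (hq : q ≠ 0) :
    DifferentiableAt ℝ U q :=
  (hU.contDiffAt (isOpen_compl_singleton.mem_nhds hq)).differentiableAt one_ne_zero

theorem euler_GPersist {U : W → V} (hU : Hom1 U) {q : W} (hq : q ≠ 0) (c : ℂ) :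
    fderiv ℝ U q (c • q) = c • U q := by
  have h1 : HasDerivAt (fun s : ℝ => 1 + (s : ℂ) * c) c 0 := by
    simpa using (((hasDerivAt_id (0 : ℝ)).ofReal_comp).mul_const c).const_add 1
  have h2 := (diff_GPersist hU.1 hq).hasFDerivAt.comp_hasDerivAt_of_eq 0 (h1.smul_const q)
    (by simp)
  refine h2.unique ((h1.smul_const (U q)).congr_of_eventuallyEq (Eventually.of_forall fun s => ?_))
  exact hU.2 _ _

theorem slice_GPersist {U : W → V} {q h : W} {z : ℂ} (hU : DifferentiableAt ℝ U (q + z • h))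
    (v : ℂ) : fderiv ℝ (fun z : ℂ => U (q + z • h)) z v = fderiv ℝ U (q + z • h) (v • h) := by
  have h1 : HasFDerivAt (fun z : ℂ => q + z • h)
      ((ContinuousLinearMap.id ℝ ℂ).smulRight h) z := ((hasFDerivAt_id z).smul_const h).const_add q
  exact congrArg (· v) (hU.hasFDerivAt.comp z h1).fderiv

theorem cr_GPersist {φ : Fr} {U : W → V} (hU : IsLine φ.J U) {q h : W} (hh : det2 q h = 1)
    (z : ℂ) : CR φ.A (fun z : ℂ => U (q + z • h)) {z} := by
  intro y hy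
  rw [mem_singleton_iff.1 hy]
  have h0 := ne_GPersist hh z
  have h1 := diff_GPersist hU.c1 h0
  rw [slice_GPersist h1, slice_GPersist h1, hU.hol _ h0, one_smul, Fr.J, φ.AB _ (hU.ne _ h0)]

theorem smooth_GPersist {n : WithTop ℕ∞} {U : W → V} (hU : ContDiffOn ℝ n U {0}ᶜ) {q h : W}
    (hh : det2 q h = 1) : ContDiff ℝ n fun z : ℂ => U (q + z • h) :=
  hU.comp_contDiff (by fun_prop) (ne_GPersist hh)

theorem gpersist (hS : LineSmoothStmt) (hC : ChartStmt) (hP : PersistStmt) : GPersistStmt := by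
  intro φ U w q₀ r₀ hU hw hq hr he hi δ hδ
  obtain ⟨a, ha⟩ : ∃ a, U q₀ a ≠ 0 := Function.ne_iff.1 (hU.ne _ hq)
  obtain ⟨h, hh⟩ := trans_GPersist hq
  obtain ⟨k, hk⟩ := trans_GPersist hr
  obtain ⟨A, hA⟩ := hC.1 φ a
  obtain ⟨hA1, hA2⟩ := hC.2.1 φ a A hA
  have su := smooth_GPersist (hS φ U hU) hh
  have sw := smooth_GPersist (hS φ w hw) hk
  obtain ⟨η, hη, h1⟩ : ∃ η : ℝ, 0 < η ∧ ∀ c x y z, c ∈ closedBall (1 : ℂ) η →
      x ∈ closedBall (U q₀) η → y ∈ closedBall (U q₀) η → z ∈ closedBall (0 : ℂ) η →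
      x a ≠ 0 ∧ (c * (y a / x a)) • (q₀ + z • h) ∈ ball q₀ δ := by
    have c1 : ContinuousAt (fun p : ℂ × V × V × ℂ => p.2.1 a) (1, U q₀, U q₀, 0) := by fun_prop
    have c2 : ContinuousAt (fun p : ℂ × V × V × ℂ =>
        (p.1 * (p.2.2.1 a / p.2.1 a)) • (q₀ + p.2.2.2 • h)) (1, U q₀, U q₀, 0) := by
      fun_prop (disch := exact ha)
    obtain ⟨η, hη, h1⟩ := nhds_basis_closedBall.eventually_iff.1
      ((c1.eventually_ne ha).and (c2.eventually_mem (s := ball q₀ δ)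
        (by simpa [ha] using ball_mem_nhds q₀ hδ)))
    refine ⟨η, hη, fun c x y z b1 b2 b3 b4 => h1 (x := (c, x, y, z)) ?_⟩
    rw [← closedBall_prod_same, ← closedBall_prod_same, ← closedBall_prod_same]
    exact ⟨b1, b2, b3, b4⟩
  have h1' : ∀ x ∈ closedBall (U q₀) η, x a ≠ 0 := fun x hx =>
    (h1 1 x x 0 (mem_closedBall_self hη.le) hx hx (mem_closedBall_self hη.le)).1
  obtain ⟨r, hr0, h2⟩ : ∃ r : ℝ, 0 < r ∧ ∀ z ∈ ball (0 : ℂ) r, z ∈ closedBall (0 : ℂ) η ∧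
      U (q₀ + z • h) ∈ closedBall (U q₀) (η / 2) ∧ w (r₀ + z • k) ∈ closedBall (U q₀) (η / 2) ∧
      q₀ + z • h ∈ ball q₀ 1 ∧ r₀ + z • k ∈ ball r₀ 1 ∧ r₀ + z • k ∈ ball r₀ δ := by
    have c1 := su.continuous.tendsto' 0 (U q₀) (by simp)
    have c2 := sw.continuous.tendsto' 0 (U q₀) (by simp [he])
    have c3 : Tendsto (fun z : ℂ => q₀ + z • h) (𝓝 0) (𝓝 q₀) :=
      Continuous.tendsto' (by fun_prop) _ _ (by simp)
    have c4 : Tendsto (fun z : ℂ => r₀ + z • k) (𝓝 0) (𝓝 r₀) :=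
      Continuous.tendsto' (by fun_prop) _ _ (by simp)
    exact nhds_basis_ball.eventually_iff.1 (Eventually.and (closedBall_mem_nhds _ hη)
      ((c1.eventually_mem (closedBall_mem_nhds _ (half_pos hη))).and
      ((c2.eventually_mem (closedBall_mem_nhds _ (half_pos hη))).and
      ((c3.eventually_mem (ball_mem_nhds _ one_pos)).and
      ((c4.eventually_mem (ball_mem_nhds _ one_pos)).and
      (c4.eventually_mem (ball_mem_nhds _ hδ)))))))
  have hsub : closedBall (U q₀) (η / 2) ⊆ closedBall (U q₀) η :=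
    closedBall_subset_closedBall (half_le_self hη.le)
  have nu := fun z hz => h1' _ (hsub (h2 z hz).2.1)
  have nw := fun z hz => h1' _ (hsub (h2 z hz).2.2.1)
  have du := fun z => su.differentiable (by simp) z
  have dw := fun z => sw.differentiable (by simp) z
  obtain ⟨c, t, c1, c2, c3⟩ := coord_GPersist hh
  obtain ⟨c', t', c1', c2', c3'⟩ := coord_GPersist hk
  rcases hP A univ (ch a ∘ fun z : ℂ => U (q₀ + z • h)) (ch a ∘ fun z : ℂ => w (r₀ + z • k)) 0 0 r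
    hA1 hr0
    (fun z hz => ((ch_smooth_GPersist (nu z hz)).comp z su.contDiffAt).contDiffWithinAt)
    (fun z hz => ((ch_smooth_GPersist (nw z hz)).comp z sw.contDiffAt).contDiffWithinAt)
    (mapsTo_univ _ _) (mapsTo_univ _ _)
    (fun z hz => (hA2 _ z (du z) (nu z hz) (cr_GPersist hU hh z)).1 z rfl)
    (fun z hz => (hA2 _ z (dw z) (nw z hz) (cr_GPersist hw hk z)).1 z rfl)
    (by simp [he]) (fun e => by
      obtain ⟨b, hb⟩ := (hA2 _ 0 (du 0) (nu 0 (mem_ball_self hr0)) (cr_GPersist hU hh 0)).2.1 e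
      rw [slice_GPersist (diff_GPersist hU.c1 (ne_GPersist hh 0)), zero_smul, add_zero, one_smul,
        ← euler_GPersist ⟨hU.c1, hU.hom⟩ hq] at hb
      rw [hi hb] at hh
      simp [det2, mul_left_comm, mul_comm] at hh) with h3 | ⟨⟨δ', hδ', h3⟩, h4⟩
  · left
    filter_upwards [c3', c2'.eventually h3, c1'.eventually_mem (closedBall_mem_nhds _ hη),
      c2'.eventually_mem (ball_mem_nhds _ hr0)] with s b1 ⟨z, hz, b2⟩ b3 b4
    refine ⟨_, (h1 _ _ _ _ b3 (hsub (h2 z hz).2.1) (hsub (h2 _ b4).2.2.1) (h2 z hz).1).2, ?_⟩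
    rw [hU.hom, mul_smul, ← ch_eq_GPersist (nu z hz) (nw _ b4) b2, ← hw.hom, ← b1.2]
  · refine Or.inr ⟨?_, ?_⟩
    · obtain ⟨ρ, hρ, h5⟩ := nhds_basis_ball.eventually_iff.1
        (c3.and (c2.eventually_mem (ball_mem_nhds _ hδ')))
      refine ⟨ρ, hρ, ?_⟩
      filter_upwards [c3', c2'.eventually (eventually_nhdsWithin_iff.1 h3)] with s b1 b2 ⟨q, b3, b4⟩
      obtain ⟨⟨b5, b6⟩, b7⟩ := h5 b3
      refine ⟨c' s, ?_⟩
      by_cases b8 : t' s = 0
      · simpa [b8] using b1.2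
      · refine absurd ⟨t q, b7, ?_⟩ (b2 b8)
        rw [b6, b1.2, hU.hom, hw.hom] at b4
        simpa [ch_smul_GPersist, b5, b1.1] using congrArg (ch a) b4
    · obtain ⟨ε, hε, h5⟩ := h4 r hr0
      have uc := (isCompact_closedBall (U q₀) η).uniformContinuousOn_of_continuous
        fun x hx => (ch_smooth_GPersist (h1' x hx)).continuousAt.continuousWithinAt
      obtain ⟨ε', hε', h6⟩ := Metric.uniformContinuousOn_iff_le.1 uc ε hε
      have hm : 0 < min ε' (η / 2) := lt_min hε' (half_pos hη)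
      have hM : 0 < ‖q₀‖ + ‖r₀‖ + 1 := by positivity
      have key : ∀ {f f' : W → V} {p l : W}, det2 p l = 1 → ‖p‖ ≤ ‖q₀‖ + ‖r₀‖ →
          (∀ (c : ℂ) q, f (c • q) = c • f q) → Hom1 f' →
          Near (min ε' (η / 2) / (‖q₀‖ + ‖r₀‖ + 1)) f' f →
          (∀ z ∈ ball (0 : ℂ) r, f (p + z • l) ∈ closedBall (U q₀) (η / 2) ∧
            p + z • l ∈ ball p 1) →
          (∀ z ∈ ball (0 : ℂ) r, f' (p + z • l) ∈ closedBall (U q₀) η) ∧
          ContinuousOn (ch a ∘ fun z : ℂ => f' (p + z • l)) (ball 0 r) ∧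
          ∀ z ∈ ball (0 : ℂ) r, ‖ch a (f' (p + z • l)) - ch a (f (p + z • l))‖ ≤ ε := by
        intro f f' p l b1 b2 b3 b4 b5 b6
        have b7 : ∀ z ∈ ball (0 : ℂ) r, dist (f' (p + z • l)) (f (p + z • l)) ≤ min ε' (η / 2) := by
          intro z hz
          have b8 := norm_lt_of_mem_ball (b6 z hz).2
          rw [dist_eq_norm]
          refine (near_GPersist b3 b4.2 b5 (ne_GPersist b1 z)).trans ?_
          rw [mul_div_assoc', div_le_iff₀ hM, mul_comm]
          exact mul_le_mul_of_nonneg_left (by linarith) hm.le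
        have b8 : ∀ z ∈ ball (0 : ℂ) r, f' (p + z • l) ∈ closedBall (U q₀) η := fun z hz => by
          have := (dist_triangle _ _ _).trans
            (add_le_add ((b7 z hz).trans (min_le_right _ _)) (b6 z hz).1)
          rwa [add_halves] at this
        refine ⟨b8, fun z hz => ((ch_smooth_GPersist (h1' _ (b8 z hz))).continuousAt.comp
          (f := fun z : ℂ => f' (p + z • l))
          (smooth_GPersist b4.1 b1).continuous.continuousAt).continuousWithinAt, fun z hz => ?_⟩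
        rw [← dist_eq_norm]
        exact h6 _ (b8 z hz) _ (hsub (b6 z hz).1) ((b7 z hz).trans (min_le_left _ _))
      refine ⟨_, div_pos hm hM, fun U' w' b1 b2 b3 b4 => ?_⟩
      obtain ⟨u1, u2, u3⟩ := key hh (le_add_of_nonneg_right (norm_nonneg _)) hU.hom b1 b3
        fun z hz => ⟨(h2 z hz).2.1, (h2 z hz).2.2.2.1⟩
      obtain ⟨w1, w2, w3⟩ := key hk (le_add_of_nonneg_left (norm_nonneg _)) hw.hom b2 b4
        fun z hz => ⟨(h2 z hz).2.2.1, (h2 z hz).2.2.2.2.1⟩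
      obtain ⟨z, hz, ζ, hζ, e⟩ := h5 _ _ u2 w2 u3 w3
      refine ⟨_, (h1 1 _ _ _ (mem_closedBall_self hη.le) (u1 z hz) (w1 ζ hζ) (h2 z hz).1).2,
        _, (h2 ζ hζ).2.2.2.2.2, ?_⟩
      rw [b1.2, one_mul, ← ch_eq_GPersist (h1' _ (u1 z hz)) (h1' _ (w1 ζ hζ)) e]

end Pool.Agent.MP_2fc7fa_gt.N

end

section

/-! Uniqueness of families of embedded lines, and closure under reparametrisation. -/

open scoped ContDiff Topology
open Set Complex Filter Metric

namespace Pool.Agent.MP_2fc7fa_gt.N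

variable {P : Type} [TopologicalSpace P]

lemma jcD_Uniq {U : P → W → V} (h : Fam {0}ᶜ 1 V U) : JC {0}ᶜ fun p => fderiv ℝ (U p) :=
  ((h.fderivWithin isOpen_compl_singleton.uniqueDiffOn).congr fun _ _ hx =>
    (fderivWithin_of_isOpen isOpen_compl_singleton hx).symm).jc

lemma cont_Uniq {E : Type} [TopologicalSpace E] {F : P → W → E} (h : JC {0}ᶜ F) {q : W}
    (hq : q ≠ 0) : Continuous fun p => F p q :=
  ContinuousOn.comp_continuous (g := fun z : P × W => F z.1 z.2) (f := fun p => (p, q)) h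
    (by fun_prop) fun _ => ⟨mem_univ _, hq⟩

lemma ev_Uniq {E : Type} [NormedAddCommGroup E] {F : P → W → E} (h : JC {0}ᶜ F) (p₀ : P) {ε : ℝ}
    (hε : 0 < ε) : ∀ᶠ p in 𝓝 p₀, ∀ q ∈ sphere (0 : W) 1, ‖F p q - F p₀ q‖ ≤ ε := by
  refine (isCompact_sphere (0 : W) 1).eventually_forall_of_forall_eventually
    (P := fun p q => ‖F p q - F p₀ q‖ ≤ ε) fun q hq => ?_
  have hq0 : q ≠ 0 := ne_zero_of_mem_sphere one_ne_zero ⟨q, hq⟩
  have h1 : ContinuousAt (fun z : P × W => F z.1 z.2) (p₀, q) :=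
    ContinuousOn.continuousAt h ((isOpen_univ.prod isOpen_compl_singleton).mem_nhds ⟨trivial, hq0⟩)
  have h2 : ContinuousAt (fun z : P × W => F p₀ z.2) (p₀, q) :=
    ContinuousAt.comp (g := F p₀) (f := Prod.snd)
      ((h.at p₀).continuousAt (isOpen_compl_singleton.mem_nhds hq0)) continuousAt_snd
  exact ((h1.sub h2).norm.eventually_lt continuousAt_const (by simpa using hε)).mono
    fun _ hz => hz.le

lemma near_Uniq {U : P → W → V} (h : Fam {0}ᶜ 1 V U) (p₀ : P) {ε : ℝ} (hε : 0 < ε) :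
    ∀ᶠ p in 𝓝 p₀, Near ε (U p) (U p₀) := by
  filter_upwards [ev_Uniq h.jc p₀ hε, ev_Uniq (jcD_Uniq h) p₀ hε] with p h1 h2 q hq
  exact ⟨h1 q (mem_sphere_zero_iff_norm.2 hq), h2 q (mem_sphere_zero_iff_norm.2 hq)⟩

lemma e1_Uniq : ((1, 0) : W) ≠ 0 := fun h => one_ne_zero (congrArg Prod.fst h)

lemma jet_Uniq {U : P → W → V} (h : Fam {0}ᶜ 1 V U) : Continuous fun p => jet (U p) :=
  (cont_Uniq h.jc e1_Uniq).prodMk ((cont_Uniq (jcD_Uniq h) e1_Uniq).clm_apply continuous_const)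

lemma zero_Uniq {J : V → V → V} {U : W → V} (h : IsLine J U) : U 0 = 0 := by
  simpa using h.hom 0 0

lemma diff_Uniq {J : V → V → V} {U : W → V} (h : IsLine J U) {q : W} (hq : q ≠ 0) :
    DifferentiableAt ℝ U q :=
  (h.c1.contDiffAt (isOpen_compl_singleton.mem_nhds hq)).differentiableAt one_ne_zero

theorem uniq (hI : IFTStmt) : UniqStmt := by
  intro φ U U' hφ hU hU' h h1
  have hc : IsClopen {s | U s = U' s} := by
    refine ⟨?_, isOpen_iff_mem_nhds.2 fun s₀ hs => ?_⟩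
    · have : {s | U s = U' s} = ⋂ q ∈ ({0}ᶜ : Set W), {s | U s q = U' s q} := by
        ext s
        simp only [mem_ofPred_eq, mem_iInter]
        refine ⟨fun e q _ => congrFun e q, fun e => funext fun q => ?_⟩
        by_cases hq : q = 0
        · rw [hq, zero_Uniq (h s).1, zero_Uniq (h s).2.2.1]
        · exact e q hq
      rw [this]
      exact isClosed_biInter fun q hq => isClosed_eq (cont_Uniq hU.jc hq) (cont_Uniq hU'.jc hq)
    · obtain ⟨N, hN, ε, hε, S, -, -, -, hS⟩ := hI UI φ s₀ (U s₀) false hφ (h s₀).1 (h s₀).2.1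
      have hm : ∀ᶠ s in 𝓝 s₀, (s, jet (U s)) ∈ N :=
        (continuous_id.prodMk (jet_Uniq hU)).continuousAt.preimage_mem_nhds hN
      filter_upwards [hm, near_Uniq hU s₀ hε, near_Uniq hU' s₀ hε] with s a1 a2 a3
      rw [← show U s₀ = U' s₀ from hs] at a3
      exact (hS _ a1 _ (h s).1 rfl a2).trans (hS _ a1 _ (h s).2.2.1 (h s).2.2.2.symm a3).symm
  funext s
  exact (hc.eq_univ ⟨1, h1⟩).ge (mem_univ s)

lemma euler_Uniq {J : V → V → V} {U : W → V} (h : IsLine J U) {q : W} (hq : q ≠ 0) (c : ℂ) :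
    fderiv ℝ U q (c • q) = c • U q := by
  let L : ℂ →L[ℝ] W := (ContinuousLinearMap.toSpanSingleton ℂ q).restrictScalars ℝ
  let L' : ℂ →L[ℝ] V := (ContinuousLinearMap.toSpanSingleton ℂ (U q)).restrictScalars ℝ
  have e : L 1 = q := one_smul ℂ q
  have h1 : HasFDerivAt (U ∘ L) ((fderiv ℝ U q).comp L) 1 :=
    HasFDerivAt.comp 1 (by rw [e]; exact (diff_Uniq h hq).hasFDerivAt) L.hasFDerivAt
  have h2 : U ∘ L = L' := funext fun z => h.hom z q
  rw [h2] at h1
  exact congrArg (fun T : ℂ →L[ℝ] V => T c) (h1.unique L'.hasFDerivAt)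

lemma mem_Uniq {J : V → V → V} {U : W → V} (h : IsLine J U) (h' : IsEmb U) : jet U ∈ Jet := by
  refine ⟨h.ne _ e1_Uniq, fun c hc => ?_⟩
  have := h'.imm _ e1_Uniq (hc.trans (euler_Uniq h e1_Uniq c).symm)
  simpa using congrArg Prod.snd this

lemma comp_Uniq {J : V → V → V} {U : W → V} (h : IsLine J U) (h' : IsEmb U) (g : W ≃L[ℂ] W) :
    IsLine J (U ∘ g) ∧ IsEmb (U ∘ g) := by
  let L : W →L[ℝ] W := (g : W →L[ℂ] W).restrictScalars ℝ
  have hg : ∀ {q}, q ≠ 0 → g q ≠ 0 := fun hq e => hq (g.map_eq_zero_iff.1 e)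
  have hd : ∀ q, q ≠ 0 → ∀ v, fderiv ℝ (U ∘ g) q v = fderiv ℝ U (g q) (g v) := fun q hq v =>
    congrArg (fun T : W →L[ℝ] V => T v)
      (HasFDerivAt.comp (f := L) q (diff_Uniq h (hg hq)).hasFDerivAt L.hasFDerivAt).fderiv
  refine ⟨⟨h.c1.comp L.contDiff.contDiffOn fun _ hq => hg hq, fun q hq => h.ne _ (hg hq),
    fun c q => ?_, fun q hq v => ?_⟩, fun q hq a b e => ?_, fun a ha b hb e => ?_⟩
  · rw [Function.comp_apply, map_smul, h.hom, Function.comp_apply]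
  · rw [hd q hq, hd q hq, map_smul, h.hol _ (hg hq), Function.comp_apply]
  · rw [hd q hq, hd q hq] at e
    exact g.injective (h'.imm _ (hg hq) e)
  · exact g.injective (h'.inj (hg ha) (hg hb) e)

theorem cS (hU : UniqStmt) (hL : LinStmt) : CStmt := by
  intro φ U hφ hs ⟨hF, hG⟩ s j g
  let u : UI → W → V := fun s => U (s, j) ∘ g
  have h1 : ∀ s, IsLine (φ s).J (u s) ∧ IsEmb (u s) := fun s =>
    comp_Uniq (hG (s, j)).1 (hG (s, j)).2.1 g
  have h2 : Fam {0}ᶜ 1 V u :=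
    (hF.param (g := fun s : UI => (s, j)) (by fun_prop)).comp
      (fam_id.clm ((g : W →L[ℂ] W).restrictScalars ℝ))
      fun _ q hq e => hq (g.map_eq_zero_iff.1 e)
  let js : UI → Jet := fun s => ⟨jet (u s), mem_Uniq (h1 s).1 (h1 s).2⟩
  have h3 : Continuous js := (jet_Uniq h2).subtype_mk _
  have h4 := hU φ u (fun s => U (s, js s)) hφ h2
    (hF.param (g := fun s : UI => (s, js s)) (continuous_id.prodMk h3))
    (fun s => ⟨(h1 s).1, (h1 s).2, (hG (s, js s)).1, (hG (s, js s)).2.2.symm⟩) (funext fun q => by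
      rw [hL _ _ hs (h1 1).1 q, hL _ _ hs (hG (1, js 1)).1 q, (hG (1, js 1)).2.2])
  exact ⟨js s, congrFun h4 s⟩

end Pool.Agent.MP_2fc7fa_gt.N

end

section

/-! Two points lie on a line of the family. -/

open scoped ContDiff Topology
open Set Complex Filter Metric

noncomputable section

namespace Pool.Agent.MP_2fc7fa_gt.N

section
variable {P : Type} [TopologicalSpace P] {F : P → W → V}

theorem fam_fderiv_H1 (h : Fam {0}ᶜ 1 V F) : JC {0}ᶜ fun p => fderiv ℝ (F p) :=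
  ((h.fderivWithin isOpen_compl_singleton.uniqueDiffOn).congr fun _ _ hx =>
    (fderivWithin_of_isOpen isOpen_compl_singleton hx).symm).jc

theorem jc_at_H1 {E : Type} [TopologicalSpace E] {G : P → W → E} (h : JC {0}ᶜ G) (p : P) {q : W}
    (hq : q ≠ 0) : ContinuousAt (fun a : P × W => G a.1 a.2) (p, q) :=
  ContinuousOn.continuousAt h ((isOpen_univ.prod isOpen_compl_singleton).mem_nhds ⟨trivial, hq⟩)

theorem jc_near_H1 {E : Type} [NormedAddCommGroup E] {G : P → W → E} (h : JC {0}ᶜ G) (p : P)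
    {q : W} (hq : q ≠ 0) {ε : ℝ} (hε : 0 < ε) :
    ∀ᶠ a : P × W in 𝓝 (p, q), ‖G a.1 a.2 - G p a.2‖ ≤ ε := by
  have h1 : ContinuousAt (fun a : P × W => G p a.2) (p, q) :=
    ContinuousAt.comp (g := fun a : P × W => G a.1 a.2) (f := fun a : P × W => (p, a.2))
      (jc_at_H1 h p hq) (by fun_prop)
  exact (((jc_at_H1 h p hq).sub h1).norm.eventually (ge_mem_nhds (by simpa using hε)))

theorem near_H1 (h : Fam {0}ᶜ 1 V F) (p : P) {ε : ℝ} (hε : 0 < ε) :
    ∀ᶠ p' in 𝓝 p, Near ε (F p') (F p) := by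
  have h1 := (isCompact_sphere (0 : W) 1).eventually_forall_of_forall_eventually
    (x₀ := p) (P := fun p' q => ‖F p' q - F p q‖ ≤ ε ∧ ‖fderiv ℝ (F p') q - fderiv ℝ (F p) q‖ ≤ ε)
    (fun q hq => by
      have hq' : q ≠ 0 := ne_of_mem_sphere hq one_ne_zero
      exact (jc_near_H1 h.jc p hq' hε).and (jc_near_H1 (fam_fderiv_H1 h) p hq' hε))
  exact h1.mono fun p' hp q hq => hp q (mem_sphere_zero_iff_norm.2 hq)

theorem e0_H1 : ((1, 0) : W) ≠ 0 := by simp

theorem jet_cont_H1 (h : Fam {0}ᶜ 1 V F) : Continuous fun p => jet (F p) := by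
  refine continuous_iff_continuousAt.2 fun p => ContinuousAt.prodMk ?_ ?_
  · exact ContinuousAt.comp (g := fun a : P × W => F a.1 a.2) (f := fun p : P => (p, ((1, 0) : W)))
      (jc_at_H1 h.jc p e0_H1) (by fun_prop)
  · exact (ContinuousAt.comp (g := fun a : P × W => fderiv ℝ (F a.1) a.2)
      (f := fun p : P => (p, ((1, 0) : W))) (jc_at_H1 (fam_fderiv_H1 h) p e0_H1)
      (by fun_prop)).clm_apply continuousAt_const

end

/-- The reparametrisation that fixes the first basis vector. -/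
def shear_H1 (a b : ℂ) (hb : b ≠ 0) : W ≃L[ℂ] W :=
  LinearEquiv.toContinuousLinearEquiv
    { toFun := fun q => (q.1 + a * q.2, b * q.2)
      invFun := fun q => (q.1 - a * (b⁻¹ * q.2), b⁻¹ * q.2)
      map_add' := fun q r => Prod.ext (by simp; ring) (by simp; ring)
      map_smul' := fun c q => Prod.ext (by simp; ring) (by simp; ring)
      left_inv := fun q => Prod.ext (by simp [hb]) (by simp [hb])
      right_inv := fun q => Prod.ext (by simp) (by simp [hb]) }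

theorem shear_apply_H1 (a b : ℂ) (hb : b ≠ 0) (q : W) :
    shear_H1 a b hb q = (q.1 + a * q.2, b * q.2) := rfl

variable {J : V → V → V} {U : W → V}

theorem diff_H1 (h : IsLine J U) : DifferentiableAt ℝ U (1, 0) :=
  (h.c1.contDiffAt (isOpen_compl_singleton.mem_nhds e0_H1)).differentiableAt one_ne_zero

theorem vert_H1 (h : IsLine J U) (c : ℂ) : fderiv ℝ U (1, 0) (c, 0) = c • U (1, 0) := by
  have h1 : HasDerivAt (fun t : ℝ => ((1, 0) : W) + t • ((c, 0) : W)) (c, 0) 0 := by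
    simpa using ((hasDerivAt_id (0 : ℝ)).smul_const ((c, 0) : W)).const_add ((1, 0) : W)
  have h2 := (diff_H1 h).hasFDerivAt.comp_hasDerivAt_of_eq (0 : ℝ) h1 (by simp)
  have h3 : HasDerivAt (fun t : ℝ => U (1, 0) + t • c • U (1, 0)) (c • U (1, 0)) 0 := by
    simpa using ((hasDerivAt_id (0 : ℝ)).smul_const (c • U (1, 0))).const_add (U (1, 0))
  refine h2.unique (h3.congr_of_eventuallyEq (Eventually.of_forall fun t => ?_))
  have e : ((1, 0) : W) + t • ((c, 0) : W) = (1 + t * c : ℂ) • ((1, 0) : W) := by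
    ext <;> simp
  show U (((1, 0) : W) + t • ((c, 0) : W)) = U (1, 0) + t • c • U (1, 0)
  rw [e, h.hom, add_smul, one_smul, mul_smul, Complex.coe_smul]

theorem jet_mem_H1 (h : IsLine J U) (he : IsEmb U) : jet U ∈ Jet := by
  refine ⟨h.ne _ e0_H1, fun c hc => ?_⟩
  have h1 := he.imm _ e0_H1 (hc.trans (vert_H1 h c).symm)
  simpa using congrArg Prod.snd h1

theorem jet_shear_H1 (h : IsLine J U) (a : ℂ) (b : ℝ) (hb : (b : ℂ) ≠ 0) :
    jet (U ∘ shear_H1 a b hb) = ((jet U).1, a • (jet U).1 + b • (jet U).2) := by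
  have e0 : shear_H1 a b hb (1, 0) = (1, 0) := by simp [shear_apply_H1]
  have h1 : HasFDerivAt (shear_H1 a b hb)
      ((shear_H1 a b hb : W →L[ℂ] W).restrictScalars ℝ) (1, 0) :=
    ((shear_H1 a b hb : W →L[ℂ] W).restrictScalars ℝ).hasFDerivAt
  have h2 : HasFDerivAt U (fderiv ℝ U (1, 0)) (shear_H1 a b hb (1, 0)) :=
    e0.symm ▸ (diff_H1 h).hasFDerivAt
  have e1 : shear_H1 a b hb (0, 1) = (a, 0) + b • ((0, 1) : W) := by
    simp [shear_apply_H1]
  refine Prod.ext (congrArg U e0) ?_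
  show fderiv ℝ (U ∘ shear_H1 a b hb) (1, 0) (0, 1) = _
  rw [(h2.comp _ h1).fderiv]
  show fderiv ℝ U (1, 0) (shear_H1 a b hb (0, 1)) = _
  rw [e1, map_add, map_smul, vert_H1 h]
  rfl

theorem closed_H1 (hC : CStmt) {φ : UI → Fr} {U : UI × Jet → W → V} (hφ : FrFam φ) (hS : Std φ)
    (hG : Good φ U) {x y : V} (hx : x ≠ 0) :
    IsClosed {s : UI | ∃ j : Jet, U (s, j) (1, 0) = x ∧ y ∈ range (U (s, j)) ∧ y ≠ 0} := by
  obtain ⟨i, hi⟩ := Function.ne_iff.1 hx
  have hi' : x i ≠ 0 := hi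
  let K : Set V := {ξ | ξ i = 0} ∩ sphere 0 1
  have hK : IsCompact K :=
    (isCompact_sphere 0 1).inter_left (isClosed_eq (continuous_apply i) continuous_const)
  have : CompactSpace K := isCompact_iff_compactSpace.1 hK
  have hm : ∀ ξ : K, (x, ξ.1) ∈ Jet := fun ξ => ⟨hx, fun c hc => by
    have h1 : ξ.1 = c • x := hc
    have h2 : c * x i = 0 := (congrFun h1 i).symm.trans ξ.2.1
    rw [(mul_eq_zero.1 h2).resolve_right hi', zero_smul] at h1
    exact ne_of_mem_sphere ξ.2.2 one_ne_zero h1⟩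
  let G : UI × (K × sphere (0 : W) 1) → V := fun a => U (a.1, ⟨(x, a.2.1.1), hm a.2.1⟩) a.2.2.1
  have hGc : Continuous G :=
    ContinuousOn.comp_continuous (g := fun q : (UI × Jet) × W => U q.1 q.2) hG.1.jc
      (f := fun a : UI × (K × sphere (0 : W) 1) =>
        ((a.1, (⟨(x, a.2.1.1), hm a.2.1⟩ : Jet)), a.2.2.1)) (by fun_prop)
      fun a => ⟨trivial, ne_of_mem_sphere a.2.2.2 one_ne_zero⟩
  by_cases hy : y = 0
  · simp [hy]
  have h1 := isClosedMap_fst_of_compactSpace _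
    ((Submodule.closed_of_finiteDimensional (Submodule.span ℂ {y})).preimage hGc)
  convert h1 using 1
  ext s
  constructor
  · rintro ⟨j, h2, ⟨r, hr⟩, -⟩
    obtain ⟨hl, -, hj⟩ := hG.2 (s, j)
    have hj1 : j.1.1 = x := (congrArg Prod.fst hj).symm.trans h2
    set η : V := j.1.2 - (j.1.2 i / x i) • x with hη
    have hη0 : η ≠ 0 := fun e => j.2.2 (j.1.2 i / x i) (hj1.symm ▸ sub_eq_zero.1 e)
    have hn : ‖η‖ ≠ 0 := norm_ne_zero_iff.2 hη0
    have hb : ((‖η‖⁻¹ : ℝ) : ℂ) ≠ 0 := Complex.ofReal_ne_zero.2 (inv_ne_zero hn)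
    let ξ : K := ⟨‖η‖⁻¹ • η, by simp [hη, hi'], by simp [norm_smul, hn]⟩
    obtain ⟨j', hj'⟩ := hC φ U hφ hS hG s j
      (shear_H1 (-((‖η‖⁻¹ : ℝ) * (j.1.2 i / x i))) (‖η‖⁻¹ : ℝ) hb)
    have e : j' = ⟨(x, ξ.1), hm ξ⟩ := by
      refine Subtype.ext (((hG.2 (s, j')).2.2).symm.trans ?_)
      rw [← hj', jet_shear_H1 hl, hj, hj1]
      refine Prod.ext rfl ?_
      show _ = ‖η‖⁻¹ • (j.1.2 - (j.1.2 i / x i) • x)
      rw [smul_sub, neg_smul, mul_smul, Complex.coe_smul, neg_add_eq_sub]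
    obtain ⟨r', rfl⟩ := (shear_H1 (-((‖η‖⁻¹ : ℝ) * (j.1.2 i / x i))) (‖η‖⁻¹ : ℝ) hb).surjective r
    have h3 : U (s, j') r' = y := (congrFun hj' r').symm.trans hr
    have hl' := (hG.2 (s, j')).1
    have hr0 : r' ≠ 0 := by
      rintro rfl
      have h4 := hl'.hom 0 0
      rw [zero_smul, zero_smul] at h4
      exact hy (h3.symm.trans h4)
    have hrn : ‖r'‖ ≠ 0 := norm_ne_zero_iff.2 hr0
    refine ⟨(s, ξ, ⟨((‖r'‖⁻¹ : ℝ) : ℂ) • r', by simp [norm_smul, hrn]⟩), ?_, rfl⟩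
    show U (s, ⟨(x, ξ.1), hm ξ⟩) (((‖r'‖⁻¹ : ℝ) : ℂ) • r') ∈ Submodule.span ℂ {y}
    rw [← e, hl'.hom, h3]
    exact Submodule.smul_mem _ _ (Submodule.mem_span_singleton_self y)
  · rintro ⟨⟨s, ξ, q⟩, h2, rfl⟩
    obtain ⟨c, hc⟩ := Submodule.mem_span_singleton.1 h2
    obtain ⟨hl, -, hj⟩ := hG.2 (s, ⟨(x, ξ.1), hm ξ⟩)
    have hc' : c • y = U (s, ⟨(x, ξ.1), hm ξ⟩) q.1 := hc
    have hc0 : c ≠ 0 := by
      rintro rfl
      exact hl.ne _ (ne_of_mem_sphere q.2 one_ne_zero) (hc'.symm.trans (zero_smul _ _))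
    refine ⟨⟨(x, ξ.1), hm ξ⟩, congrArg Prod.fst hj, ⟨c⁻¹ • q.1, ?_⟩, hy⟩
    rw [hl.hom, ← hc', inv_smul_smul₀ hc0]

theorem open_H1 (hI : IFTStmt) (hC : CStmt) {φ : UI → Fr} {U : UI × Jet → W → V} (hφ : FrFam φ)
    (hS : Std φ) (hG : Good φ U) {x y : V} (hy : ∀ c : ℂ, y ≠ c • x) :
    IsOpen {s : UI | ∃ j : Jet, U (s, j) (1, 0) = x ∧ y ∈ range (U (s, j)) ∧ y ≠ 0} := by
  refine isOpen_iff_mem_nhds.2 ?_
  rintro s₀ ⟨j, h1, ⟨r, hr⟩, hy0⟩
  have hr2 : r.2 ≠ 0 := fun e => hy r.1 (by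
    rw [← hr, ← h1, ← (hG.2 (s₀, j)).1.hom]
    exact congrArg _ (Prod.ext (by simp) (by simp [e])))
  obtain ⟨j₀, hj₀⟩ := hC φ U hφ hS hG s₀ j (shear_H1 r.1 r.2 hr2)
  obtain ⟨hl, he, hj⟩ := hG.2 (s₀, j₀)
  have hc : con true (U (s₀, j₀)) = (x, y) := by
    rw [← hj₀, ← h1, ← hr]
    simp [con, shear_apply_H1]
  obtain ⟨N₁, hN₁, -, -, S₁, hF₁, hS₁, hL₁, -⟩ := hI UI φ s₀ (U (s₀, j₀)) true hφ hl he
  obtain ⟨N₂, hN₂, ε, hε, S₂, -, -, -, hU₂⟩ := hI UI φ s₀ (U (s₀, j₀)) false hφ hl he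
  rw [hc] at hN₁ hS₁
  have hc' : ∀ u : W → V, con false u = jet u := fun _ => rfl
  rw [hc', hj] at hN₂
  have ht : Tendsto (fun s : UI => (s, (x, y))) (𝓝 s₀) (𝓝 (s₀, (x, y))) :=
    (by fun_prop : Continuous fun s : UI => (s, (x, y))).tendsto s₀
  have a1 : ∀ᶠ a in 𝓝 (s₀, (x, y)), Near ε (S₁ a) (U (s₀, j₀)) := by
    have h2 := near_H1 hF₁ ⟨(s₀, (x, y)), mem_of_mem_nhds hN₁⟩ hε
    rw [eventually_nhds_subtype_iff N₁ _ (fun a => Near ε (S₁ a) (S₁ (s₀, (x, y)))),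
      nhdsWithin_eq_nhds.2 hN₁, hS₁] at h2
    exact h2
  have a2 : Tendsto (fun s : UI => (s, jet (S₁ (s, (x, y))))) (𝓝 s₀) (𝓝 (s₀, j₀.1)) := by
    have h2 : ContinuousOn (fun a => jet (S₁ a)) N₁ :=
      continuousOn_iff_continuous_domRestrict.2 (jet_cont_H1 hF₁)
    have h3 := (h2.continuousAt hN₁).tendsto
    rw [hS₁, hj] at h3
    exact tendsto_id.prodMk_nhds (h3.comp ht)
  have a3 : ∀ᶠ b in 𝓝 (s₀, j₀.1), ∀ a : UI × Jet, Prod.map id Subtype.val a = b →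
      Near ε (U a) (U (s₀, j₀)) := by
    have h2 := near_H1 hG.1 (s₀, j₀) hε
    rwa [(Topology.IsInducing.id.prodMap Topology.IsInducing.subtypeVal).nhds_eq_comap,
      eventually_comap] at h2
  filter_upwards [ht.eventually hN₁, ht.eventually a1, a2.eventually hN₂, a2.eventually a3]
    with s b1 b2 b3 b4
  obtain ⟨c1, c2, c3⟩ := hL₁ _ b1
  let j' : Jet := ⟨jet (S₁ (s, (x, y))), jet_mem_H1 c1 c2⟩
  have e : U (s, j') = S₁ (s, (x, y)) :=
    (hU₂ _ b3 _ (hG.2 (s, j')).1 (hG.2 (s, j')).2.2 (b4 (s, j') rfl)).trans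
      (hU₂ _ b3 _ c1 rfl b2).symm
  exact ⟨j', e ▸ congrArg Prod.fst c3, ⟨(0, 1), e ▸ congrArg Prod.snd c3⟩, hy0⟩

theorem h1S (hI : IFTStmt) (hC : CStmt) (hL : LinStmt) : H1Stmt := by
  intro φ U hφ hS hG s x y hx hy
  have hy0 : y ≠ 0 := fun e => hy 0 (e.trans (zero_smul _ _).symm)
  have h1 := IsClopen.eq_univ ⟨closed_H1 hC hφ hS hG (y := y) hx, open_H1 hI hC hφ hS hG hy⟩
    ⟨1, ⟨(x, y), hx, hy⟩, by
      obtain ⟨hl, -, hj⟩ := hG.2 (1, ⟨(x, y), hx, hy⟩)
      refine ⟨congrArg Prod.fst hj, ⟨(0, 1), ?_⟩, hy0⟩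
      rw [hL _ _ hS hl, hj]
      simp⟩
  obtain ⟨j, h2, h3, -⟩ := h1.ge (mem_univ s)
  exact ⟨j, h2, h3⟩

end Pool.Agent.MP_2fc7fa_gt.N

end
end

section

/-! The set of times that are reached by the continuity method is open. -/

open scoped ContDiff Topology
open Set Complex Filter Metric

namespace Pool.Agent.MP_2fc7fa_gt.N

theorem jc_OpenS {P E : Type} [TopologicalSpace P] [NormedAddCommGroup E] {G : P → W → E}
    (h : JC {0}ᶜ G) (p₀ : P) {ε : ℝ} (hε : 0 < ε) :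
    ∀ᶠ p in 𝓝 p₀, ∀ q ∈ sphere (0 : W) 1, ‖G p q - G p₀ q‖ ≤ ε := by
  refine (isCompact_sphere (0 : W) 1).eventually_forall_of_forall_eventually
    (P := fun p q => ‖G p q - G p₀ q‖ ≤ ε) fun q hq => ?_
  have hq0 : q ∈ ({0}ᶜ : Set W) := by
    rintro rfl
    simp at hq
  have h1 : ContinuousAt (fun z : P × W => G z.1 z.2) (p₀, q) :=
    ContinuousOn.continuousAt h
      ((isOpen_univ.prod isOpen_compl_singleton).mem_nhds ⟨mem_univ _, hq0⟩)
  have h2 : ContinuousAt (fun z : P × W => G p₀ z.2) (p₀, q) :=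
    ContinuousAt.comp (g := G p₀) (f := Prod.snd)
      ((h.at p₀).continuousAt (isOpen_compl_singleton.mem_nhds hq0)) continuousAt_snd
  have h3 : Tendsto (fun z : P × W => ‖G z.1 z.2 - G p₀ z.2‖) (𝓝 (p₀, q)) (𝓝 0) := by
    have := (h1.sub h2).norm.tendsto
    simpa using this
  exact h3.eventually (eventually_le_nhds hε)

theorem near_OpenS {P : Type} [TopologicalSpace P] {F : P → W → V} (h : Fam {0}ᶜ 1 V F) (p₀ : P)
    {ε : ℝ} (hε : 0 < ε) : ∀ᶠ p in 𝓝 p₀, Near ε (F p) (F p₀) := by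
  have h1 : Fam {0}ᶜ 0 (W →L[ℝ] V) fun p => fderiv ℝ (F p) :=
    (h.fderivWithin isOpen_compl_singleton.uniqueDiffOn).congr fun p x hx =>
      (fderivWithin_of_isOpen isOpen_compl_singleton hx).symm
  filter_upwards [jc_OpenS h.jc p₀ hε, jc_OpenS h1.jc p₀ hε] with p a b q hq
  have hq' : q ∈ sphere (0 : W) 1 := mem_sphere_zero_iff_norm.2 hq
  exact ⟨a q hq', b q hq'⟩

theorem diff_OpenS {J : V → V → V} {U : W → V} (h : IsLine J U) {q : W} (hq : q ≠ 0) :
    HasFDerivAt U (fderiv ℝ U q) q :=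
  ((h.c1.contDiffAt (isOpen_compl_singleton.mem_nhds hq)).differentiableAt
    one_ne_zero).hasFDerivAt

theorem fd_comp_OpenS {J : V → V → V} {U : W → V} (h : IsLine J U) (G : W →L[ℂ] W) {q : W}
    (hq : G q ≠ 0) (k : W) : fderiv ℝ (U ∘ G) q k = fderiv ℝ U (G q) (G k) := by
  have := (diff_OpenS h hq).comp q (G.restrictScalars ℝ).hasFDerivAt
  exact congrArg (fun L : W →L[ℝ] V => L k) this.fderiv

theorem fd_smul_OpenS {J : V → V → V} {U : W → V} (h : IsLine J U) {c : ℂ} (hc : c ≠ 0) {q : W}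
    (hq : q ≠ 0) (k : W) : fderiv ℝ U (c • q) (c • k) = c • fderiv ℝ U q k := by
  have h1 := fd_comp_OpenS h (c • ContinuousLinearMap.id ℂ W) (q := q) (smul_ne_zero hc hq) k
  have h2 : U ∘ (c • ContinuousLinearMap.id ℂ W : W →L[ℂ] W) = c • U := funext fun x => h.hom c x
  rw [h2, ((diff_OpenS h hq).const_smul c).fderiv] at h1
  exact h1.symm

theorem fd_rad_OpenS {J : V → V → V} {U : W → V} (h : IsLine J U) {q : W} (hq : q ≠ 0) (a : ℂ) :
    fderiv ℝ U q (a • q) = a • U q := by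
  let L : ℂ →L[ℝ] W := (ContinuousLinearMap.toSpanSingleton ℂ q).restrictScalars ℝ
  let M : ℂ →L[ℝ] V := (ContinuousLinearMap.toSpanSingleton ℂ (U q)).restrictScalars ℝ
  have e : L 1 = q := one_smul ℂ q
  have h1 : HasFDerivAt (U ∘ L) ((fderiv ℝ U q).comp L) 1 :=
    HasFDerivAt.comp 1 (by rw [e]; exact diff_OpenS h hq) L.hasFDerivAt
  have h2 : U ∘ L = M := funext fun z => h.hom z q
  rw [h2] at h1
  exact congrArg (fun T : ℂ →L[ℝ] V => T a) (h1.unique M.hasFDerivAt)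

theorem lift_comp_OpenS {ψ : UI → Fr} {x ξ : V} {u : UI → W → V} (h : Lift ψ (x, ξ) u) {c : ℂ}
    (hc : c ≠ 0) (a : ℂ) {b : ℝ} (hb : b ≠ 0) :
    ∃ u', Lift ψ (c • x, c • (a • x + b • ξ)) u' := by
  let G : W →L[ℂ] W := c • (ContinuousLinearMap.fst ℂ ℂ ℂ + a • ContinuousLinearMap.snd ℂ ℂ ℂ).prod
    ((b : ℂ) • ContinuousLinearMap.snd ℂ ℂ ℂ)
  have hG : ∀ q : W, G q = c • (q.1 + a * q.2, b * q.2) := fun _ => rfl
  have hne : ∀ q : W, q ≠ 0 → G q ≠ 0 := by
    intro q hq h0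
    rw [hG, smul_eq_zero, Prod.mk_eq_zero] at h0
    obtain ⟨h1, h2⟩ := h0.resolve_left hc
    have h3 : q.2 = 0 := (mul_eq_zero.1 h2).resolve_left (ofReal_ne_zero.2 hb)
    rw [h3, mul_zero, add_zero] at h1
    exact hq (Prod.ext h1 h3)
  have hinj : Function.Injective G := (injective_iff_map_eq_zero G).2 fun q hq => by
    by_contra h0
    exact hne q h0 hq
  have he : ((1, 0) : W) ≠ 0 := by simp
  refine ⟨fun s => u s ∘ G, h.1.comp (fam_id.clm (G.restrictScalars ℝ)) fun _ q hq => hne q hq,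
    fun s => ?_⟩
  obtain ⟨h1, h2, h3⟩ := h.2 s
  refine ⟨⟨?_, fun q hq => h1.ne _ (hne q hq), fun c q => ?_, fun q hq k => ?_⟩,
    ⟨fun q hq k k' hk => ?_, fun q hq q' hq' e => hinj (h2.inj (hne q hq) (hne q' hq') e)⟩, ?_⟩
  · exact h1.c1.comp (G.restrictScalars ℝ).contDiff.contDiffOn fun q hq => hne q hq
  · simp only [Function.comp, map_smul, h1.hom]
  · rw [fd_comp_OpenS h1 G (hne q hq), fd_comp_OpenS h1 G (hne q hq), map_smul,
      h1.hol _ (hne q hq)]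
    rfl
  · rw [fd_comp_OpenS h1 G (hne q hq), fd_comp_OpenS h1 G (hne q hq)] at hk
    exact hinj (h2.imm _ (hne q hq) hk)
  · have e1 : u s (1, 0) = x := congrArg Prod.fst h3
    have e2 : fderiv ℝ (u s) (1, 0) (0, 1) = ξ := congrArg Prod.snd h3
    have g1 : G (1, 0) = c • ((1, 0) : W) := by simp [hG]
    have g2 : G (0, 1) = c • (a • ((1, 0) : W) + b • ((0, 1) : W)) := by simp [hG]
    refine Prod.ext ?_ ?_
    · change u s (G (1, 0)) = c • x
      rw [g1, h1.hom, e1]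
    · change fderiv ℝ (u s ∘ G) (1, 0) (0, 1) = c • (a • x + b • ξ)
      rw [fd_comp_OpenS h1 G (hne _ he), g1, g2, fd_smul_OpenS h1 hc he, map_add,
        fd_rad_OpenS h1 he, map_smul, e1, e2]

/-- A compact set of normalised jets. -/
def K_OpenS : Set (V × V) := {p | (∃ i, p.1 i = 1 ∧ p.2 i = 0) ∧ ‖p.1‖ ≤ 1 ∧ ‖p.2‖ = 1}

theorem K_compact_OpenS : IsCompact K_OpenS := by
  refine isCompact_of_isClosed_isBounded ?_ ?_
  · have h1 : IsClosed {p : V × V | ∃ i, p.1 i = 1 ∧ p.2 i = 0} := by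
      rw [Set.ofPred_exists]
      exact isClosed_iUnion_of_finite fun i =>
        (isClosed_eq (by fun_prop) continuous_const).inter
          (isClosed_eq (by fun_prop) continuous_const)
    exact h1.inter ((isClosed_le continuous_fst.norm continuous_const).inter
      (isClosed_eq continuous_snd.norm continuous_const))
  · refine isBounded_iff_forall_norm_le.2 ⟨1, fun p hp => ?_⟩
    rw [Prod.norm_def]
    exact max_le hp.2.1 hp.2.2.le

theorem K_sub_OpenS : K_OpenS ⊆ Jet := by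
  rintro p ⟨⟨i, h1, h2⟩, -, h3⟩
  refine ⟨fun h => ?_, fun c h => ?_⟩
  · rw [h] at h1
    simp at h1
  · rw [h, Pi.smul_apply, h1, smul_eq_mul, mul_one] at h2
    rw [h, h2, zero_smul, norm_zero] at h3
    exact zero_ne_one h3

theorem K_dec_OpenS {j : V × V} (hj : j ∈ Jet) : ∃ (x ξ : V) (c a : ℂ) (b : ℝ),
    (x, ξ) ∈ K_OpenS ∧ c ≠ 0 ∧ b ≠ 0 ∧ j = (c • x, c • (a • x + b • ξ)) := by
  obtain ⟨y, η⟩ := j
  obtain ⟨h1, h2⟩ := hj
  obtain ⟨i, hi⟩ := Finite.exists_max fun i => ‖y i‖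
  have hc : y i ≠ 0 := fun h => h1 (funext fun k => norm_le_zero_iff.1 (by
    simpa [h] using hi k))
  set c := y i with hcd
  have hz : c⁻¹ • η - (c⁻¹ * η i) • c⁻¹ • y ≠ 0 := by
    intro h
    refine h2 (c⁻¹ * η i) ?_
    have := congrArg (fun v : V => c • v) (sub_eq_zero.1 h)
    simp only [smul_inv_smul₀ hc] at this
    rw [smul_comm, smul_inv_smul₀ hc] at this
    exact this
  set z := c⁻¹ • η - (c⁻¹ * η i) • c⁻¹ • y with hzd
  have hb : ‖z‖ ≠ 0 := norm_ne_zero_iff.2 hz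
  refine ⟨c⁻¹ • y, ‖z‖⁻¹ • z, c, c⁻¹ * η i, ‖z‖, ⟨⟨i, ?_, ?_⟩, ?_, ?_⟩, hc, hb, ?_⟩
  · exact inv_mul_cancel₀ hc
  · have : z i = 0 := by
      simp only [hzd, Pi.sub_apply, Pi.smul_apply, smul_eq_mul, ← hcd, inv_mul_cancel₀ hc,
        mul_one, sub_self]
    simp only [Pi.smul_apply, this, smul_zero]
  · refine (pi_norm_le_iff_of_nonneg zero_le_one).2 fun k => ?_
    change ‖c⁻¹ • y k‖ ≤ 1
    rw [norm_smul, norm_inv]
    exact inv_mul_le_one_of_le₀ (hi k) (norm_nonneg _)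
  · rw [norm_smul, norm_inv, norm_norm, inv_mul_cancel₀ hb]
  · rw [smul_inv_smul₀ hc, smul_inv_smul₀ hb, hzd, add_sub_cancel, smul_inv_smul₀ hc]

theorem mono_OpenS {φ : UI → Fr} {s₀ s₁ : UI} (h : s₀ ≤ s₁) {j : V × V} {u : UI → W → V}
    (hu : Lift (fun s => φ (max s s₀)) j u) :
    Lift (fun s => φ (max s s₁)) j fun s => u (max s s₁) := by
  refine ⟨hu.1.param (continuous_id.max continuous_const), fun s => ?_⟩
  have := hu.2 (max s s₁)
  simp only [max_eq_left (h.trans (le_max_right s s₁))] at this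
  exact this

theorem loc_OpenS (hI : IFTStmt) {φ : UI → Fr} (hφ : FrFam φ) {s₀ : UI} {u : Jet → UI → W → V}
    (hu : ∀ j : Jet, Lift (fun s => φ (max s s₀)) j (u j)) (hF : Fam {0}ᶜ 1 V fun j => u j s₀)
    (j₀ : Jet) :
    ∀ᶠ z : UI × Jet in 𝓝 (s₀, j₀), ∃ v, Lift (fun s => φ (max s z.1)) z.2 v := by
  have h0 : ∀ j : Jet, IsLine (φ s₀).J (u j s₀) ∧ IsEmb (u j s₀) ∧ jet (u j s₀) = j := fun j => by
    have := (hu j).2 s₀
    simp only [max_self] at this
    exact this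
  obtain ⟨N, hN, ε, hε, S, hS, -, hS1, hS2⟩ :=
    hI UI φ s₀ (u j₀ s₀) false hφ (h0 j₀).1 (h0 j₀).2.1
  have e0 : con false (u j₀ s₀) = j₀ := (h0 j₀).2.2
  rw [e0, mem_nhds_prod_iff] at hN
  obtain ⟨A, hA, B, hB, hAB⟩ := hN
  obtain ⟨δ, hδ, hA'⟩ := Metric.mem_nhds_iff.1 hA
  have hB' : ∀ᶠ j : Jet in 𝓝 j₀, (j : V × V) ∈ B := continuous_subtype_val.continuousAt hB
  have hb : ∀ᶠ s in 𝓝 s₀, s ∈ ball s₀ δ := ball_mem_nhds s₀ hδ
  have hev := hb.prod_nhds (hB'.and (near_OpenS hF j₀ hε))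
  filter_upwards [hev]
  rintro ⟨s₁, j⟩ ⟨hs₁, hj, hn⟩
  rcases le_total s₀ s₁ with h | h
  · exact ⟨_, mono_OpenS h (hu j)⟩
  have hmem : ∀ s : UI, s₁ ≤ s → s ≤ s₀ → (s, (j : V × V)) ∈ N := by
    intro s h1 h2
    refine hAB ⟨hA' ?_, hj⟩
    have a1 : (s₁ : ℝ) ≤ s := h1
    have a2 : (s : ℝ) ≤ s₀ := h2
    have a3 : |(s₁ : ℝ) - s₀| < δ := hs₁
    change |(s : ℝ) - s₀| < δ
    rw [abs_lt] at a3 ⊢
    constructor <;> linarith [a3.1]
  have e1 : u j s₀ = S (s₀, j) := hS2 _ (hmem s₀ h le_rfl) _ (h0 j).1 (h0 j).2.2 hn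
  let g : UI → N := fun s => ⟨(min (max s s₁) s₀, j),
    hmem _ (le_min (le_max_right _ _) h) (min_le_right _ _)⟩
  have hg : Continuous g := by
    refine Continuous.subtype_mk ?_ _
    fun_prop
  refine ⟨fun s q => u j (max s s₀) q + S (g s) q - u j s₀ q, ?_, fun s => ?_⟩
  · have hm : Continuous fun s : UI => max s s₀ := continuous_id.max continuous_const
    refine ((((hu j).1.param hm).add (hS.param hg)).add
      (((hu j).1.param (continuous_const (y := s₀))).clm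
        (-ContinuousLinearMap.id ℝ V))).congr fun s q _ => ?_
    simp [sub_eq_add_neg]
  · rcases le_total s₀ s with h' | h'
    · have e2 : (fun q => u j (max s s₀) q + S (g s) q - u j s₀ q) = u j s := by
        funext q
        simp only [g, max_eq_left h', min_eq_right (h'.trans (le_max_left s s₁)), ← e1,
          add_sub_cancel_right]
      have := (hu j).2 s
      simp only [max_eq_left h'] at this
      simp only [e2, max_eq_left (h.trans h')]
      exact this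
    · have e2 : (fun q => u j (max s s₀) q + S (g s) q - u j s₀ q) = S (max s s₁, j) := by
        funext q
        simp only [g, max_eq_right h', min_eq_left (max_le h' h), add_sub_cancel_left]
      simp only [e2]
      exact hS1 _ (hmem _ (le_max_right _ _) (max_le h' h))

theorem openS (hI : IFTStmt) (hJ : JointStmt) (hC : CStmt) : OpenStmt := by
  intro φ hφ hstd s₀ hR
  choose u hu using fun j : Jet => hR j j.2
  have hc : Continuous fun a : Unit × UI => max a.2 s₀ := continuous_snd.max continuous_const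
  have hU := hJ Unit (fun a => φ (max a.2 s₀)) (fun a => u a.2 a.1.2)
    (fun n => ⟨(hφ n).1.param hc, (hφ n).2.param hc⟩)
    (fun _ x hx v => by
      simp only [max_eq_left (unitInterval.le_one' (t := s₀))]
      exact hstd x hx v) fun _ j => hu j
  have hF : Fam {0}ᶜ 1 V fun j => u j s₀ :=
    hU.param (g := fun j : Jet => (((), s₀), j)) (by fun_prop)
  have hK : IsCompact (Subtype.val ⁻¹' K_OpenS : Set Jet) :=
    Topology.IsInducing.subtypeVal.isCompact_preimage' K_compact_OpenS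
      (by rw [Subtype.range_coe]; exact K_sub_OpenS)
  have hev := hK.eventually_forall_of_forall_eventually
    (P := fun (s₁ : UI) (j : Jet) => ∃ v, Lift (fun s => φ (max s s₁)) j v)
    fun j _ => loc_OpenS hI hφ hu hF j
  obtain ⟨δ, hδ, h⟩ := Metric.eventually_nhds_iff.1 hev
  refine ⟨δ, hδ, fun s₁ hs₁ j hj => ?_⟩
  rcases le_total s₀ s₁ with h' | h'
  · exact ⟨_, mono_OpenS h' (hu ⟨j, hj⟩)⟩
  · obtain ⟨x, ξ, c, a, b, hk, hc, hb, rfl⟩ := K_dec_OpenS hj
    have hd : dist s₁ s₀ < δ := by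
      have a1 : (s₁ : ℝ) ≤ s₀ := h'
      change |(s₁ : ℝ) - s₀| < δ
      rw [abs_lt]
      constructor <;> linarith
    obtain ⟨v, hv⟩ := h hd ⟨(x, ξ), K_sub_OpenS hk⟩ hk
    exact lift_comp_OpenS hv hc a hb

end Pool.Agent.MP_2fc7fa_gt.N

end

section

/-! The closedness step of the continuity method, and the existence of the family of lines. -/

open scoped ContDiff Topology
open Set Complex Filter Metric

noncomputable section

namespace Pool.Agent.MP_2fc7fa_gt.N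

theorem ite_ClosedS {X : Type} [NormedAddCommGroup X] [NormedSpace ℝ X] {O : Set X}
    (hO : UniqueDiffOn ℝ O) (t : UI) {n : ℕ} {E : Type} [NormedAddCommGroup E] [NormedSpace ℝ E]
    {F G : UI → X → E} (hF : Fam O n E F) (hG : Fam O n E G) (h : ∀ x ∈ O, F t x = G t x) :
    Fam O n E fun s x => if t ≤ s then F s x else G s x := by
  have key : ∀ {E : Type} [TopologicalSpace E] {F G : UI → X → E}, JC O F → JC O G →
      (∀ x ∈ O, F t x = G t x) → JC O fun s x => if t ≤ s then F s x else G s x := by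
    intro E _ F G hF hG h
    refine ContinuousOn.if (fun a ha => ?_) (hF.mono inter_subset_left) (hG.mono inter_subset_left)
    have e : t = a.1 := frontier_le_subset_eq continuous_const continuous_fst ha.2
    rw [← e]
    exact h _ ha.1.2
  induction n generalizing E with
  | zero => exact key hF hG h
  | succ n ih =>
    obtain ⟨h1, F', h2, h3⟩ := hF
    obtain ⟨h4, G', h5, h6⟩ := hG
    refine ⟨key h1 h4 h, fun s x => if t ≤ s then F' s x else G' s x, fun s x hx => ?_,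
      ih h3 h6 fun x hx => (hO x hx).eq (h2 t x hx) ((h5 t x hx).congr h (h x hx))⟩
    by_cases hs : t ≤ s
    · simpa only [if_pos hs] using h2 s x hx
    · simpa only [if_neg hs] using h5 s x hx

theorem fderiv_ClosedS {U : W → V} (hU : ContDiffOn ℝ 1 U {0}ᶜ) (g : W ≃L[ℂ] W) {q : W}
    (hq : q ≠ 0) (h : W) : fderiv ℝ (U ∘ g) q h = fderiv ℝ U (g q) (g h) := by
  have h1 : DifferentiableAt ℝ U (g q) :=
    (hU.contDiffAt (isOpen_compl_singleton.mem_nhds (g.map_ne_zero_iff.2 hq))).differentiableAt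
      one_ne_zero
  have h2 : HasFDerivAt g ((g : W →L[ℂ] W).restrictScalars ℝ) q :=
    ((g : W →L[ℂ] W).restrictScalars ℝ).hasFDerivAt
  rw [(h1.hasFDerivAt.comp q h2).fderiv]
  rfl

theorem line_ClosedS {J : V → V → V} {U : W → V} (hU : IsLine J U) (g : W ≃L[ℂ] W) :
    IsLine J (U ∘ g) where
  c1 := hU.c1.comp ((g : W →L[ℂ] W).restrictScalars ℝ).contDiff.contDiffOn
    fun _ hq => g.map_ne_zero_iff.2 hq
  ne q hq := hU.ne _ (g.map_ne_zero_iff.2 hq)
  hom c q := by rw [Function.comp_apply, map_smul, hU.hom, Function.comp_apply]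
  hol q hq h := by
    rw [fderiv_ClosedS hU.c1 g hq, fderiv_ClosedS hU.c1 g hq, map_smul,
      hU.hol (g q) (g.map_ne_zero_iff.2 hq), Function.comp_apply]

theorem emb_ClosedS {U : W → V} (h1 : ContDiffOn ℝ 1 U {0}ᶜ) (hU : IsEmb U) (g : W ≃L[ℂ] W) :
    IsEmb (U ∘ g) where
  imm q hq a b e := by
    rw [fderiv_ClosedS h1 g hq, fderiv_ClosedS h1 g hq] at e
    exact g.injective (hU.imm _ (g.map_ne_zero_iff.2 hq) e)
  inj := hU.inj.comp g.injective.injOn fun _ hq => g.map_ne_zero_iff.2 hq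

theorem param_ClosedS {P Q : Type} [TopologicalSpace P] [TopologicalSpace Q] {φ : P → Fr}
    (h : FrFam φ) {g : Q → P} (hg : Continuous g) : FrFam fun q => φ (g q) :=
  fun n => ⟨(h n).1.param hg, (h n).2.param hg⟩

theorem good_ClosedS (hJ : JointStmt) {φ : UI → Fr} (hφ : FrFam φ) (hs : Std φ)
    (h : ∀ j ∈ Jet, ∃ u, Lift φ j u) : ∃ U, Good φ U := by
  choose u hu using h
  refine ⟨fun a => u a.2 a.2.2 a.1, ?_, fun a => (hu a.2 a.2.2).2 a.1⟩
  exact (hJ Unit (fun a => φ a.2) (fun a => u a.2 a.2.2 a.1.2) (param_ClosedS hφ continuous_snd)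
    (fun _ => hs) fun _ j => hu j j.2).param (g := fun a : UI × Jet => (((), a.1), a.2))
      (by fun_prop)

theorem closedS (hI : IFTStmt) (hJ : JointStmt) (hU : UniqStmt) (hL : LinStmt) (h1 : H1Stmt)
    (h2 : H2Stmt) (hK : CompactStmt) (hE : EmbLimitStmt) (hV : ConvJetStmt) : ClosedStmt := by
  intro φ om hφ hom ht hs s₀ hs₀ hR j hj
  obtain ⟨s, -, hs1, hs2⟩ := exists_seq_strictAnti_tendsto' hs₀
  have hf : ∀ n, FrFam fun r => φ (max r (s n)) := fun n => param_ClosedS hφ (by fun_prop)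
  have hstd : ∀ n, Std fun r => φ (max r (s n)) := fun n => by
    unfold Std
    beta_reduce
    rw [max_eq_left (hs1 n).2.le]
    exact hs
  choose U hG using fun n => good_ClosedS hJ (hf n) (hstd n) (hR (s n) (hs1 n).1)
  have hW : ∀ n (j : Jet), IsLine (φ (s n)).J (U n (s n, j)) ∧ IsEmb (U n (s n, j)) ∧
      jet (U n (s n, j)) = j := fun n j => by
    simpa only [max_self] using (hG n).2 (s n, j)
  obtain ⟨ψ, g, U', hψ, hU', hc⟩ := hK UI φ om s s₀ (fun n => U n (s n, ⟨j, hj⟩)) hφ hom ht hs2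
    fun n => (hW n _).1
  have hs3 : Tendsto (fun n => s (ψ n)) atTop (𝓝 s₀) := hs2.comp hψ.tendsto_atTop
  have he : IsEmb U' := hE UI φ om (fun n => s (ψ n)) s₀ _ U' hφ hom ht hs3
    (fun n => ⟨line_ClosedS (hW _ _).1 _, emb_ClosedS (hW _ _).1.c1 (hW _ _).2.1 _⟩) hU' hc
    fun n x y hx hy => by
      obtain ⟨j', e1, e2⟩ := h1 _ _ (hf (ψ n)) (hstd _) (hG _) (s (ψ n)) x y hx hy
      refine ⟨_, (hW _ j').1, ⟨_, e1⟩, e2, fun q q' r r' hq hq' e3 e4 => ?_⟩
      refine (h2 _ _ (hf (ψ n)) (hstd _) (hG _) (s (ψ n)) ⟨j, hj⟩ j' (g n q) (g n q') r r'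
        ((g n).map_ne_zero_iff.2 hq) ((g n).map_ne_zero_iff.2 hq') e3 e4).imp
        (fun ⟨c, hc⟩ => ⟨c, (g n).injective (by rw [hc, map_smul])⟩) fun e => ?_
      rwa [(g n).surjective.range_comp, e]
  obtain ⟨χ, U₀, hχ, l0, e0, j0, hc0⟩ := hV UI φ (fun n => s (ψ n)) s₀
    (fun n => U (ψ n) (s (ψ n), ⟨j, hj⟩)) g U' j hφ hs3 hj
    (fun n => ⟨(hW _ _).1, (hW _ _).2.2⟩) hU' he hc
  obtain ⟨N, hN, ε, hε, S, f1, -, f2, f3⟩ := hI UI φ s₀ U₀ false hφ l0 e0
  have hcon : ∀ U, con false U = jet U := fun _ => rfl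
  simp only [hcon, j0] at hN f2 f3
  obtain ⟨b, hb, hb'⟩ := exists_Ico_subset_of_mem_nhds
    ((continuous_id.prodMk continuous_const).continuousAt.preimage_mem_nhds hN) ⟨1, hs₀⟩
  obtain ⟨n, hn1, hn2⟩ := (((hs3.comp hχ.tendsto_atTop).eventually (gt_mem_nhds hb)).and
    (hc0 ε hε)).exists
  set m := ψ (χ n)
  have hm : ∀ r : UI, (min (max r s₀) (s m), j) ∈ N := fun r =>
    hb' ⟨le_min (le_max_right _ _) (hs1 m).1.le, (min_le_right _ _).trans_lt hn1⟩
  have hmm : min (max (s m) s₀) (s m) = s m := min_eq_right (le_max_left _ _)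
  refine ⟨fun r x => if s m ≤ r then U m (r, ⟨j, hj⟩) x else S (min (max r s₀) (s m), j) x,
    ite_ClosedS isOpen_compl_singleton.uniqueDiffOn _
      ((hG m).1.param (g := fun r : UI => (r, (⟨j, hj⟩ : Jet))) (by fun_prop))
      (f1.param (g := fun r : UI => (⟨_, hm r⟩ : N)) (by fun_prop)) fun x _ => ?_, fun r => ?_⟩
  · rw [hmm, ← f3 (s m, j) (hmm ▸ hm (s m)) _ (hW m _).1 (hW m _).2.2 hn2]
  · by_cases hr : s m ≤ r
    · simpa only [if_pos hr, max_eq_left hr, max_eq_left ((hs1 m).1.le.trans hr)] using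
        (hG m).2 (r, ⟨j, hj⟩)
    · simpa only [if_neg hr, min_eq_left (max_le (not_le.1 hr).le (hs1 m).1.le)] using f2 _ (hm r)

theorem one_ClosedS {φ : UI → Fr} (hs : Std φ) : Reach φ 1 := by
  intro j hj
  let L : W →L[ℂ] V := (ContinuousLinearMap.fst ℂ ℂ ℂ).smulRight j.1 +
    (ContinuousLinearMap.snd ℂ ℂ ℂ).smulRight j.2
  have hL : ∀ q, L q = q.1 • j.1 + q.2 • j.2 := fun _ => rfl
  have hd : ∀ q h, fderiv ℝ L q h = L h := fun q h => by
    rw [show fderiv ℝ L q = L.restrictScalars ℝ from (L.restrictScalars ℝ).fderiv]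
    rfl
  have hi : Function.Injective L := (injective_iff_map_eq_zero L).2 fun q hq => by
    rw [hL] at hq
    by_cases h : q.2 = 0
    · rw [h, zero_smul, add_zero, smul_eq_zero_iff_left hj.1] at hq
      exact Prod.ext hq h
    · refine absurd ?_ (hj.2 (-(q.2⁻¹ * q.1)))
      rw [neg_smul, mul_smul, ← smul_neg, neg_eq_of_add_eq_zero_right hq, inv_smul_smul₀ h]
  have hne : ∀ q, q ≠ 0 → L q ≠ 0 := fun q hq h => hq (hi (h.trans (map_zero L).symm))
  refine ⟨fun _ => L, fam_of_contDiffOn isOpen_compl_singleton.uniqueDiffOn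
    (L.restrictScalars ℝ).contDiff.contDiffOn, fun s =>
    ⟨⟨(L.restrictScalars ℝ).contDiff.contDiffOn, hne, fun c q => map_smul L c q,
      fun q hq h => ?_⟩, ⟨fun q _ a b e => hi ?_, hi.injOn⟩, ?_⟩⟩
  · beta_reduce
    rw [max_eq_right unitInterval.le_one', hs _ (hne q hq), hd, hd, map_smul]
  · rwa [hd, hd] at e
  · beta_reduce
    rw [jet, hd, hL, hL]
    simp

theorem gromov (hO : OpenStmt) (hC : ClosedStmt) (hJ : JointStmt) : GromovStmt := by
  intro P _ φ om hφ hom ht hs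
  have key : ∀ p, ∀ j ∈ Jet, ∃ u, Lift (fun s => φ (p, s)) j u := fun p => by
    have hf : FrFam fun s => φ (p, s) := param_ClosedS hφ (by fun_prop)
    have hone : Reach (fun s => φ (p, s)) 1 := one_ClosedS (φ := fun s => φ (p, s)) (hs p)
    have hup : ∀ a b : UI, a ≤ b → Reach (fun s => φ (p, s)) a → Reach (fun s => φ (p, s)) b :=
      fun a b hab ha => by
        obtain ⟨δ, h1, h2⟩ := hO _ hf (hs p) a ha
        exact h2 b ((sub_lt_self _ h1).trans_le hab)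
    have h1 : IsClopen {s₀ | Reach (fun s => φ (p, s)) s₀} := by
      refine ⟨isOpen_compl_iff.1 (isOpen_iff_mem_nhds.2 fun a ha => ?_),
        isOpen_iff_mem_nhds.2 fun a ha => ?_⟩
      · have h2 : a < 1 := lt_of_le_of_ne unitInterval.le_one' fun e => ha (e ▸ hone)
        obtain ⟨b, h3, h4⟩ : ∃ b, a < b ∧ ¬ Reach (fun s => φ (p, s)) b := by
          by_contra h
          push Not at h
          exact ha (hC _ (fun s => om (p, s)) hf (by fun_prop) (fun s => ht _) (hs p) a h2 h)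
        exact mem_of_superset (gt_mem_nhds h3) fun c hc h => h4 (hup c b (le_of_lt hc) h)
      · obtain ⟨δ, h2, h3⟩ := hO _ hf (hs p) a ha
        exact mem_of_superset ((isOpen_lt continuous_const continuous_subtype_val).mem_nhds
          (sub_lt_self _ h2)) h3
    have h2 : Reach (fun s => φ (p, s)) 0 := (h1.eq_univ ⟨1, hone⟩).ge (mem_univ 0)
    simpa only [Reach, max_eq_left unitInterval.nonneg'] using h2
  choose u hu using key
  exact ⟨fun a => u a.1.1 a.2 a.2.2 a.1.2, hJ P φ _ hφ hs fun p j => hu p j j.2,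
    fun a => (hu a.1.1 a.2 a.2.2).2 a.1.2⟩

end Pool.Agent.MP_2fc7fa_gt.N

end
end

section

/-! Lifts depend continuously on parameters. -/

open scoped Topology
open Set Complex Filter Metric

namespace Pool.Agent.MP_2fc7fa_gt.N

theorem jc_Joint {Q : Type} [TopologicalSpace Q] {F : Q → W → V} (h : Fam {0}ᶜ 1 V F) :
    JC {0}ᶜ fun a q => (F a q, fderiv ℝ (F a) q) := by
  have h1 : Fam {0}ᶜ 0 (W →L[ℝ] V) fun p => fderiv ℝ (F p) :=
    (h.fderivWithin isOpen_compl_singleton.uniqueDiffOn).congr fun p x hx =>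
      (fderivWithin_of_isOpen isOpen_compl_singleton hx).symm
  exact ContinuousOn.prodMk h.jc h1.jc

theorem near_Joint {Q : Type} [TopologicalSpace Q] {F : Q → W → V} {a₀ : Q}
    (h : ∀ q : W, q ≠ 0 →
      ContinuousAt (fun z : Q × W => (F z.1 z.2, fderiv ℝ (F z.1) z.2)) (a₀, q))
    {ε : ℝ} (hε : 0 < ε) : ∀ᶠ a in 𝓝 a₀, Near ε (F a) (F a₀) := by
  have key := (isCompact_sphere (0 : W) 1).eventually_forall_of_forall_eventually (x₀ := a₀)
    (P := fun a q => ‖F a q - F a₀ q‖ ≤ ε ∧ ‖fderiv ℝ (F a) q - fderiv ℝ (F a₀) q‖ ≤ ε) ?_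
  · exact key.mono fun a ha q hq => ha q (mem_sphere_zero_iff_norm.2 hq)
  intro q hq
  have hq0 : q ≠ 0 := fun e => by simp [e] at hq
  have h1 := h q hq0
  have h2 : ContinuousAt (fun z : Q × W => (F a₀ z.2, fderiv ℝ (F a₀) z.2)) (a₀, q) :=
    ContinuousAt.comp (g := fun z : Q × W => (F z.1 z.2, fderiv ℝ (F z.1) z.2))
      (f := fun z : Q × W => (a₀, z.2)) (x := (a₀, q)) h1 (by fun_prop)
  have h3 := (h1.sub h2).norm.eventually (eventually_le_nhds (b := ε) (by simpa using hε))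
  refine h3.mono fun z hz => ?_
  exact ⟨(norm_fst_le _).trans hz, (norm_snd_le _).trans hz⟩

theorem ca_Joint {Q : Type} [TopologicalSpace Q] {F : Q → W → V} (h : Fam {0}ᶜ 1 V F) (a₀ : Q)
    (q : W) (hq : q ≠ 0) :
    ContinuousAt (fun z : Q × W => (F z.1 z.2, fderiv ℝ (F z.1) z.2)) (a₀, q) :=
  (jc_Joint h).continuousAt ((isOpen_univ.prod isOpen_compl_singleton).mem_nhds ⟨mem_univ _, hq⟩)

theorem nearF_Joint {Q : Type} [TopologicalSpace Q] {F : Q → W → V} (h : Fam {0}ᶜ 1 V F) (a₀ : Q)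
    {ε : ℝ} (hε : 0 < ε) : ∀ᶠ a in 𝓝 a₀, Near ε (F a) (F a₀) :=
  near_Joint (ca_Joint h a₀) hε

theorem caN_Joint {Q : Type} [TopologicalSpace Q] {F : Q → W → V} {N : Set Q}
    (h : Fam {0}ᶜ 1 V fun a : N => F a) {a₀ : Q} (hN : N ∈ 𝓝 a₀) (q : W) (hq : q ≠ 0) :
    ContinuousAt (fun z : Q × W => (F z.1 z.2, fderiv ℝ (F z.1) z.2)) (a₀, q) := by
  have h1 : ContinuousOn (fun z : Q × W => (F z.1 z.2, fderiv ℝ (F z.1) z.2)) (N ×ˢ {0}ᶜ) := by
    rw [continuousOn_iff_continuous_domRestrict]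
    exact ContinuousOn.comp_continuous (jc_Joint h)
      (f := fun z : (N ×ˢ ({0}ᶜ : Set W) : Set (Q × W)) => ((⟨z.1.1, z.2.1⟩ : N), z.1.2))
      (by fun_prop) fun z => ⟨mem_univ _, z.2.2⟩
  exact h1.continuousAt (prod_mem_nhds hN (isOpen_compl_singleton.mem_nhds hq))

theorem tri_Joint {ε δ : ℝ} {U₁ U₂ U₃ : W → V} (h : Near ε U₁ U₂) (h' : Near δ U₂ U₃) :
    Near (ε + δ) U₁ U₃ := fun q hq =>
  ⟨(norm_sub_le_norm_sub_add_norm_sub _ _ _).trans (add_le_add (h q hq).1 (h' q hq).1),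
    (norm_sub_le_norm_sub_add_norm_sub _ _ _).trans (add_le_add (h q hq).2 (h' q hq).2)⟩

theorem zero_Joint {J : V → V → V} {U : W → V} (h : IsLine J U) : U 0 = 0 := by
  simpa using h.hom 0 0

/-- The local step: near a time `s₁`, continuity at one time gives agreement with the local
solution at all nearby times. -/
theorem step_Joint (hI : IFTStmt) {P : Type} [TopologicalSpace P] {φ : P × UI → Fr}
    {U : (P × UI) × Jet → W → V} (hφ : FrFam φ)
    (hU : ∀ p (j : Jet), Lift (fun s => φ (p, s)) j fun s => U ((p, s), j))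
    (x₀ : P × Jet) (s₁ : UI) :
    ∃ O ∈ 𝓝 s₁, ∀ s₀ ∈ O,
      (∀ ε : ℝ, 0 < ε → ∀ᶠ x : P × Jet in 𝓝 x₀,
        Near ε (U ((x.1, s₀), x.2)) (U ((x₀.1, s₀), x₀.2))) →
      ∀ s ∈ O, ∀ q : W, q ≠ 0 → ContinuousAt
        (fun z : ((P × UI) × Jet) × W => (U z.1 z.2, fderiv ℝ (U z.1) z.2))
        (((x₀.1, s), x₀.2), q) := by
  obtain ⟨hl, he, hj⟩ := (hU x₀.1 x₀.2).2 s₁
  obtain ⟨N, hN, ε, hε, S, hS, hS0, hS1, hS2⟩ := hI _ φ (x₀.1, s₁) _ false hφ hl he
  have hc : con false (U ((x₀.1, s₁), x₀.2)) = x₀.2 := hj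
  rw [hc] at hN hS0
  have hε2 : 0 < ε / 2 := half_pos hε
  have h1 := near_Joint (caN_Joint hS hN) hε2
  rw [hS0] at h1
  have hι : Continuous fun z : (P × Jet) × UI => ((z.1.1, z.2), (z.1.2 : V × V)) := by fun_prop
  have h2 := (hι.tendsto (x₀, s₁)).eventually (Filter.Eventually.and
    (p := fun a => a ∈ interior N) (interior_mem_nhds.2 hN) h1)
  rw [nhds_prod_eq, eventually_prod_iff] at h2
  obtain ⟨pa, hpa, pb, hpb, h2⟩ := h2
  have h3 := nearF_Joint (hU x₀.1 x₀.2).1 s₁ hε2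
  obtain ⟨O, hO1, hO2, hO3, hO4⟩ : ∃ O : Set UI, O ∈ 𝓝 s₁ ∧ IsOpen O ∧ IsPreconnected O ∧
      ∀ s ∈ O, pb s ∧ Near (ε / 2) (U ((x₀.1, s), x₀.2)) (U ((x₀.1, s₁), x₀.2)) := by
    have : LocallyPathConnectedSpace UI := (convex_Icc (0 : ℝ) 1).locallyPathConnectedSpace
    obtain ⟨O, ⟨h4, h5, h6⟩, h7⟩ := (LocallyConnectedSpace.open_connected_basis s₁).mem_iff.1
      (hpb.and h3)
    exact ⟨O, h4.mem_nhds h5, h4, h6.isPreconnected, h7⟩
  refine ⟨O, hO1, fun s₀ hs₀ hQ s hs q hq => ?_⟩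
  have h4 : ∀ᶠ x : P × Jet in 𝓝 x₀, ∀ t ∈ O,
      U ((x.1, t), x.2) = S ((x.1, t), (x.2 : V × V)) := by
    filter_upwards [hpa, hQ _ hε2] with x hx hx'
    have h5 : ∀ t ∈ O, Near (ε / 2 + ε / 2) (U ((x.1, t), x.2)) (U ((x₀.1, s₁), x₀.2)) →
        U ((x.1, t), x.2) = S ((x.1, t), (x.2 : V × V)) := fun t ht h =>
      hS2 _ (interior_subset (h2 hx (hO4 t ht).1).1) _ ((hU x.1 x.2).2 t).1
        ((hU x.1 x.2).2 t).2.2 (by rwa [add_halves] at h)
    let A : Set UI := {t | U ((x.1, t), x.2) = S ((x.1, t), (x.2 : V × V))}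
    have h6 : IsOpen (O ∩ A) := by
      refine isOpen_iff_mem_nhds.2 fun t ht => ?_
      filter_upwards [hO2.mem_nhds ht.1, nearF_Joint (hU x.1 x.2).1 t hε2] with t' h h'
      refine ⟨h, h5 t' h (tri_Joint h' ?_)⟩
      have e : U ((x.1, t), x.2) = S ((x.1, t), (x.2 : V × V)) := ht.2
      rw [e]
      exact (h2 hx (hO4 t ht.1).1).2
    have h7 : IsOpen (O ∩ Aᶜ) := by
      refine isOpen_iff_mem_nhds.2 fun t ht => ?_
      have hN' := (h2 hx (hO4 t ht.1).1).1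
      obtain ⟨r, hr⟩ := Function.ne_iff.1 ht.2
      have hr0 : r ≠ 0 := by
        rintro rfl
        exact hr ((zero_Joint ((hU x.1 x.2).2 t).1).trans
          (zero_Joint (hS1 _ (interior_subset hN')).1).symm)
      have c1 : ContinuousAt (fun t' : UI => U ((x.1, t'), x.2) r) t :=
        ContinuousAt.comp (f := fun t' : UI => (t', r)) (x := t)
          (ca_Joint (hU x.1 x.2).1 t r hr0).fst (by fun_prop)
      have c2 : ContinuousAt (fun t' : UI => S ((x.1, t'), (x.2 : V × V)) r) t :=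
        ContinuousAt.comp (f := fun t' : UI => (((x.1, t'), (x.2 : V × V)), r)) (x := t)
          (caN_Joint hS (mem_interior_iff_mem_nhds.1 hN') r hr0).fst (by fun_prop)
      filter_upwards [hO2.mem_nhds ht.1, (c1.sub c2).eventually_ne (sub_ne_zero.2 hr)] with t' h h'
      exact ⟨h, fun e => h' (sub_eq_zero.2 (congrFun e r))⟩
    intro t ht
    have h8 := hO3.subset_left_of_subset_union h6 h7
      (disjoint_compl_right.mono inter_subset_right inter_subset_right)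
      (fun t' ht' => by by_cases h : t' ∈ A; exacts [Or.inl ⟨ht', h⟩, Or.inr ⟨ht', h⟩])
      ⟨s₀, hs₀, hs₀, h5 s₀ hs₀ (tri_Joint hx' (hO4 s₀ hs₀).2)⟩
    exact (h8 ht).2
  have hN' := (h2 hpa.self_of_nhds (hO4 s hs).1).1
  have h5 : ContinuousAt (fun z : ((P × UI) × Jet) × W =>
      (S (z.1.1, (z.1.2 : V × V)) z.2, fderiv ℝ (S (z.1.1, (z.1.2 : V × V))) z.2))
      (((x₀.1, s), x₀.2), q) :=
    ContinuousAt.comp (f := fun z : ((P × UI) × Jet) × W => ((z.1.1, (z.1.2 : V × V)), z.2))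
      (x := (((x₀.1, s), x₀.2), q)) (caN_Joint hS (mem_interior_iff_mem_nhds.1 hN') q hq)
      (by fun_prop)
  refine h5.congr ?_
  have t1 : Tendsto (fun z : ((P × UI) × Jet) × W => (z.1.1.1, z.1.2))
      (𝓝 (((x₀.1, s), x₀.2), q)) (𝓝 x₀) := (by fun_prop : Continuous _).tendsto' _ _ rfl
  have t2 : Tendsto (fun z : ((P × UI) × Jet) × W => z.1.1.2)
      (𝓝 (((x₀.1, s), x₀.2), q)) (𝓝 s) := (by fun_prop : Continuous _).tendsto' _ _ rfl
  filter_upwards [t1.eventually h4, t2.eventually (hO2.mem_nhds hs)] with z hz hz'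
  have e : U z.1 = S (z.1.1, (z.1.2 : V × V)) := hz _ hz'
  rw [e]

theorem fam_lin_Joint :
    Fam {0}ᶜ 1 V fun (j : V × V) (q : W) => q.1 • j.1 + q.2 • j.2 := by
  have h1 : Fam {0}ᶜ 1 ℂ fun (_ : V × V) (q : W) => q.1 :=
    fam_id.clm (ContinuousLinearMap.fst ℝ ℂ ℂ)
  have h2 : Fam {0}ᶜ 1 ℂ fun (_ : V × V) (q : W) => q.2 :=
    fam_id.clm (ContinuousLinearMap.snd ℝ ℂ ℂ)
  exact (h1.bilin (fam_const continuous_fst) (ContinuousLinearMap.lsmul ℝ ℂ)).add
    (h2.bilin (fam_const continuous_snd) (ContinuousLinearMap.lsmul ℝ ℂ))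

theorem joint (hI : IFTStmt) (hL : LinStmt) : JointStmt := by
  intro P _ φ U hφ hs hU
  have key : ∀ (x₀ : P × Jet) (s : UI) (q : W), q ≠ 0 → ContinuousAt
      (fun z : ((P × UI) × Jet) × W => (U z.1 z.2, fderiv ℝ (U z.1) z.2))
      (((x₀.1, s), x₀.2), q) := by
    intro x₀
    let A : Set UI := {s | ∀ ε : ℝ, 0 < ε → ∀ᶠ x : P × Jet in 𝓝 x₀,
      Near ε (U ((x.1, s), x.2)) (U ((x₀.1, s), x₀.2))}
    have h1 : (1 : UI) ∈ A := by
      intro ε hε
      have e : ∀ x : P × Jet, U ((x.1, 1), x.2) =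
          fun q : W => q.1 • (x.2 : V × V).1 + q.2 • (x.2 : V × V).2 := fun x => by
        funext q
        have e1 := hL _ _ (hs x.1) ((hU x.1 x.2).2 1).1 q
        rw [((hU x.1 x.2).2 1).2.2] at e1
        exact e1
      simp only [e]
      exact nearF_Joint (fam_lin_Joint.param
        (g := fun x : P × Jet => (x.2 : V × V)) (by fun_prop)) x₀ hε
    have h2 : ∀ s₁, ∃ O ∈ 𝓝 s₁, ∀ s₀ ∈ O, s₀ ∈ A → ∀ s ∈ O, s ∈ A := by
      intro s₁
      obtain ⟨O, hO, h⟩ := step_Joint hI hφ hU x₀ s₁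
      refine ⟨O, hO, fun s₀ h0 h0' s h' ε hε => ?_⟩
      have t1 : Tendsto (fun x : P × Jet => ((x.1, s), x.2)) (𝓝 x₀) (𝓝 ((x₀.1, s), x₀.2)) :=
        (by fun_prop : Continuous _).tendsto' _ _ rfl
      exact t1.eventually (near_Joint (h s₀ h0 h0' s h') hε)
    have h3 : IsClopen A := by
      refine ⟨isOpen_compl_iff.1 (isOpen_iff_mem_nhds.2 fun s h => ?_),
        isOpen_iff_mem_nhds.2 fun s h => ?_⟩
      · obtain ⟨O, hO, h'⟩ := h2 s
        exact mem_of_superset hO fun t ht ht' => h (h' t ht ht' s (mem_of_mem_nhds hO))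
      · obtain ⟨O, hO, h'⟩ := h2 s
        exact mem_of_superset hO (h' s (mem_of_mem_nhds hO) h)
    intro s
    obtain ⟨O, hO, h⟩ := step_Joint hI hφ hU x₀ s
    exact h s (mem_of_mem_nhds hO) (h3.eq_univ ⟨1, h1⟩ ▸ mem_univ s : s ∈ A) s
      (mem_of_mem_nhds hO)
  have hjc : JC {0}ᶜ fun a q => (U a q, fderiv ℝ (U a) q) := fun z hz =>
    (key (z.1.1.1, z.1.2) z.1.1.2 z.2 hz.2).continuousWithinAt
  refine ⟨hjc.comp_cont continuous_fst, fun a => fderiv ℝ (U a), fun a q hq => ?_,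
    hjc.comp_cont continuous_snd⟩
  exact ((((hU a.1.1 a.2).2 a.1.2).1.c1.contDiffAt
    (isOpen_compl_singleton.mem_nhds hq)).differentiableAt
      one_ne_zero).hasFDerivAt.hasFDerivWithinAt

end Pool.Agent.MP_2fc7fa_gt.N

end

section

/-! Limits of embedded lines, first part: two immersed points with the same image are
proportional. -/

open scoped ContDiff ComplexConjugate Topology
open Set Complex Filter Metric

namespace Pool.Agent.MP_2fc7fa_gt.N

theorem unit_EmbLimit {X : Type} [NormedAddCommGroup X] [NormedSpace ℝ X] {q : X} (hq : q ≠ 0) :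
    ∃ (t : ℝ) (u : X), 0 < t ∧ t = ‖q‖ ∧ ‖u‖ = 1 ∧ q = t • u :=
  ⟨‖q‖, ‖q‖⁻¹ • q, norm_pos_iff.2 hq, rfl, norm_smul_inv_norm hq,
    (smul_inv_smul₀ (norm_ne_zero_iff.2 hq) q).symm⟩

theorem rsmul_EmbLimit {U : W → V} (h : Hom1 U) (t : ℝ) (q : W) : U (t • q) = t • U q := by
  rw [← Complex.coe_smul, h.2, Complex.coe_smul]

theorem zero_EmbLimit {U : W → V} (h : Hom1 U) : U 0 = 0 := by
  simpa using h.2 0 0

theorem fderiv_EmbLimit {U : W → V} (h : Hom1 U) {t : ℝ} (ht : t ≠ 0) (q : W) :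
    fderiv ℝ U (t • q) = fderiv ℝ U q := by
  have h1 := fderiv_comp_smul (𝕜 := ℝ) (f := U) (x := q) t
  have h2 : (fun x => U (t • x)) = t • U := funext fun x => rsmul_EmbLimit h t x
  rw [h2, fderiv_const_smul_field] at h1
  exact (smul_right_injective _ ht h1).symm

theorem val_EmbLimit {U U' : W → V} (h : Hom1 U) (h' : Hom1 U') {ε : ℝ} (hn : Near ε U' U) (q : W) :
    ‖U' q - U q‖ ≤ ε * ‖q‖ := by
  by_cases hq : q = 0
  · subst hq; simp [zero_EmbLimit h, zero_EmbLimit h']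
  obtain ⟨t, u, ht, htq, hu, e⟩ := unit_EmbLimit hq
  rw [← htq, e, rsmul_EmbLimit h, rsmul_EmbLimit h', ← smul_sub, norm_smul, Real.norm_of_nonneg ht.le,
    mul_comm]
  exact mul_le_mul_of_nonneg_right (hn u hu).1 ht.le

theorem der_EmbLimit {U U' : W → V} (h : Hom1 U) (h' : Hom1 U') {ε : ℝ} (hn : Near ε U' U) {q : W}
    (hq : q ≠ 0) : ‖fderiv ℝ U' q - fderiv ℝ U q‖ ≤ ε := by
  obtain ⟨t, u, ht, -, hu, e⟩ := unit_EmbLimit hq
  rw [e, fderiv_EmbLimit h ht.ne', fderiv_EmbLimit h' ht.ne']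
  exact (hn u hu).2

theorem cont_EmbLimit {U : W → V} (h : Hom1 U) : Continuous U := by
  obtain ⟨M, hM⟩ := (isCompact_sphere (0 : W) 1).exists_bound_of_continuousOn
    (h.1.continuousOn.mono fun q hq e => by
      rw [mem_singleton_iff.1 e] at hq
      simp at hq)
  have hb : ∀ q, ‖U q‖ ≤ M * ‖q‖ := fun q => by
    by_cases hq : q = 0
    · subst hq; simp [zero_EmbLimit h]
    obtain ⟨t, u, ht, htq, hu, e⟩ := unit_EmbLimit hq
    rw [← htq, e, rsmul_EmbLimit h, norm_smul, Real.norm_of_nonneg ht.le, mul_comm]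
    exact mul_le_mul_of_nonneg_right (hM u (by simpa using hu)) ht.le
  refine continuous_iff_continuousAt.2 fun q => ?_
  by_cases hq : q = 0
  · subst hq
    rw [ContinuousAt, zero_EmbLimit h]
    refine squeeze_zero_norm hb ?_
    have : Continuous fun q : W => M * ‖q‖ := by fun_prop
    simpa using this.tendsto 0
  · exact h.1.continuousOn.continuousAt (isOpen_compl_singleton.mem_nhds hq)

theorem hom_EmbLimit {J : V → V → V} {U : W → V} (h : IsLine J U) : Hom1 U := ⟨h.c1, h.hom⟩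

theorem low_EmbLimit {U : W → V} (h : Hom1 U) (hn : ∀ q, q ≠ 0 → U q ≠ 0) :
    ∃ m : ℝ, 0 < m ∧ ∀ q, m * ‖q‖ ≤ ‖U q‖ := by
  obtain ⟨u, hu, hm⟩ := (isCompact_sphere (0 : W) 1).exists_isMinOn
    (NormedSpace.sphere_nonempty.2 zero_le_one) (cont_EmbLimit h).norm.continuousOn
  have hu0 : u ≠ 0 := fun e => by simp [e] at hu
  refine ⟨‖U u‖, norm_pos_iff.2 (hn u hu0), fun q => ?_⟩
  by_cases hq : q = 0
  · simp [hq]
  obtain ⟨t, v, ht, htq, hv, e⟩ := unit_EmbLimit hq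
  rw [← htq, e, rsmul_EmbLimit h, norm_smul, Real.norm_of_nonneg ht.le, mul_comm]
  exact mul_le_mul_of_nonneg_left (hm (by simpa using hv)) ht.le

theorem closedMap_EmbLimit {U : W → V} (h : Hom1 U) (hn : ∀ q, q ≠ 0 → U q ≠ 0) :
    IsClosedMap U := by
  obtain ⟨m, hm, H⟩ := low_EmbLimit h hn
  refine (isProperMap_iff_tendsto_cocompact.2 ⟨cont_EmbLimit h, ?_⟩).isClosedMap
  rw [← cobounded_eq_cocompact, ← cobounded_eq_cocompact, ← tendsto_norm_atTop_iff_cobounded]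
  exact tendsto_atTop_mono H ((tendsto_norm_cobounded_atTop (E := W)).const_mul_atTop hm)

theorem closedRange_EmbLimit {U : W → V} (h : Hom1 U) (hn : ∀ q, q ≠ 0 → U q ≠ 0) :
    IsClosed (range U) := (closedMap_EmbLimit h hn).isClosed_range

/-- Points in the images of the approximants lie in the image of the limit. -/
theorem rangeLim_EmbLimit {v : ℕ → W → V} {w : W → V} (hv : ∀ n, Hom1 (v n)) (h : Hom1 w)
    (hn : ∀ q, q ≠ 0 → w q ≠ 0) (hc : Conv v w) {y : V} (hy : ∀ᶠ n in atTop, y ∈ range (v n)) :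
    y ∈ range w := by
  obtain ⟨m, hm, H⟩ := low_EmbLimit h hn
  rw [← (closedRange_EmbLimit h hn).closure_eq, Metric.mem_closure_iff]
  intro ε hε
  have h1 : 0 < ‖y‖ + 1 := by positivity
  obtain ⟨n, hn1, hn2, q, hq⟩ := ((hc (m / 2) (by positivity)).and
    ((hc (ε * m / (2 * (‖y‖ + 1))) (by positivity)).and hy)).exists
  have h2 := val_EmbLimit h (hv n) hn1 q
  have h3 := val_EmbLimit h (hv n) hn2 q
  rw [hq] at h2 h3
  have h4 := H q
  have h5 : ‖w q‖ ≤ ‖y‖ + ‖y - w q‖ := by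
    simpa using norm_sub_le y (y - w q)
  have h6 : m * ‖q‖ < 2 * (‖y‖ + 1) := by linarith
  refine ⟨w q, mem_range_self q, ?_⟩
  rw [dist_eq_norm]
  refine h3.trans_lt ?_
  rw [div_mul_eq_mul_div, div_lt_iff₀ (by positivity), mul_assoc]
  exact mul_lt_mul_of_pos_left h6 hε

theorem notRange_EmbLimit {U : W → V} (h : Hom1 U) : ∃ y, y ∉ range U := by
  have h1 : dimH (U '' {0}ᶜ) ≤ dimH ({0}ᶜ : Set W) :=
    dimH_image_le_of_locally_lipschitzOn fun x hx => by
      obtain ⟨K, t, ht, hK⟩ := (h.1.contDiffAt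
        (isOpen_compl_singleton.mem_nhds hx)).exists_lipschitzOnWith
      exact ⟨K, t, mem_nhdsWithin_of_mem_nhds ht, hK⟩
  have h2 : dimH ({0}ᶜ : Set W) ≤ Module.finrank ℝ W :=
    (dimH_mono (subset_univ _)).trans (Real.dimH_univ_eq_finrank W).le
  have h3 : range U = U '' {0}ᶜ ∪ {U 0} := by
    rw [← image_singleton (f := U), ← image_union, compl_union_self, image_univ]
  have h4 : dimH (range U) < Module.finrank ℝ V := by
    rw [h3, dimH_union, dimH_singleton]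
    have e1 : Module.finrank ℝ W = 4 := by simp [W, Module.finrank_prod]
    have e2 : Module.finrank ℝ V = 6 := by
      rw [Module.finrank_pi_fintype]; simp
    rw [e1] at h2
    rw [e2]
    refine max_lt ((h1.trans h2).trans_lt ?_) ?_
    · exact_mod_cast (by norm_num : 4 < 6)
    · exact_mod_cast (by norm_num : 0 < 6)
  exact (dense_compl_of_dimH_lt_finrank h4).nonempty

theorem prop_EmbLimit {q r : W} (hq : q ≠ 0) (h : det2 q r = 0) : ∃ c : ℂ, r = c • q := by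
  unfold det2 at h
  by_cases h1 : q.1 = 0
  · have h2 : q.2 ≠ 0 := fun h2 => hq (Prod.ext h1 h2)
    refine ⟨r.2 / q.2, Prod.ext ?_ ?_⟩
    · simp only [Prod.smul_fst, smul_eq_mul]
      field_simp
      linear_combination -h
    · simp only [Prod.smul_snd, smul_eq_mul]
      field_simp
  · refine ⟨r.1 / q.1, Prod.ext ?_ ?_⟩
    · simp only [Prod.smul_fst, smul_eq_mul]
      field_simp
    · simp only [Prod.smul_snd, smul_eq_mul]
      field_simp
      linear_combination h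

theorem ne_EmbLimit {q h : W} (hh : det2 q h ≠ 0) (z : ℂ) : q + z • h ≠ 0 := by
  intro e
  have h1 : q.1 + z * h.1 = 0 := congrArg Prod.fst e
  have h2 : q.2 + z * h.2 = 0 := congrArg Prod.snd e
  exact hh (by unfold det2; linear_combination h.2 * h1 - h.1 * h2)

theorem par_EmbLimit {q h f : W} (hh : det2 q h ≠ 0) {z z' c c' : ℂ} (e : q + z • h = c • f)
    (e' : q + z' • h = c' • f) : z = z' := by
  have h1 : q.1 + z * h.1 = c * f.1 := congrArg Prod.fst e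
  have h2 : q.2 + z * h.2 = c * f.2 := congrArg Prod.snd e
  have h3 : q.1 + z' * h.1 = c' * f.1 := congrArg Prod.fst e'
  have h4 : q.2 + z' * h.2 = c' * f.2 := congrArg Prod.snd e'
  refine mul_right_cancel₀ hh ?_
  unfold det2
  linear_combination (q.1 + z' * h.1) * h2 - (q.2 + z' * h.2) * h1 + c * f.2 * h3 - c * f.1 * h4

/-- An affine line that misses the origin meets finitely many lines in a finite set. -/
theorem few_EmbLimit {S : Set W} (hS : FewLines S) {q h : W} (hh : det2 q h ≠ 0) :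
    {z : ℂ | ∃ c : ℂ, c ≠ 0 ∧ c • (q + z • h) ∈ S}.Finite := by
  obtain ⟨F, hF, H⟩ := hS
  refine (hF.biUnion (t := fun f => {z : ℂ | ∃ c : ℂ, q + z • h = c • f}) fun f _ =>
    Set.Subsingleton.finite fun z ⟨c, e⟩ z' ⟨c', e'⟩ => par_EmbLimit hh e e').subset ?_
  rintro z ⟨c, hc, hz⟩
  obtain ⟨f, hf, d, e⟩ := H _ hz
  exact mem_biUnion hf ⟨c⁻¹ * d, by rw [mul_smul, ← e, inv_smul_smul₀ hc]⟩

theorem fibre_EmbLimit (hF : FinStmt) {φ : Fr} {U : W → V} (hU : IsLine φ.J U) {x : V}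
    (hx : x ≠ 0) : {q | U q = x}.Finite := by
  obtain ⟨F, hF, H⟩ := (hF φ U hU).2 x
  refine (hF.biUnion (t := fun f => {q | U q = x ∧ ∃ c : ℂ, q = c • f}) fun f _ =>
    Set.Subsingleton.finite ?_).subset ?_
  · rintro _ ⟨e, c, rfl⟩ _ ⟨e', c', rfl⟩
    rw [hU.hom] at e e'
    have h0 : U f ≠ 0 := fun h0 => hx (by rw [← e, h0, smul_zero])
    rw [smul_left_injective ℂ h0 (e.trans e'.symm)]
  · intro q hq
    obtain ⟨f, hf, c, e⟩ := H q ⟨1, by rw [one_smul]; exact hq⟩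
    exact mem_biUnion hf ⟨hq, c, e⟩

/-- Unique continuation: a line that is locally contained in another one is contained in it. -/
theorem uc_EmbLimit (hF : FinStmt) (hP : GPersistStmt) {φ : Fr} {U w : W → V}
    (hU : IsLine φ.J U) (hw : IsLine φ.J w) {r h : W} (hh : det2 r h ≠ 0)
    (h0 : ∀ᶠ s in 𝓝 r, w s ∈ range U) (z : ℂ) : w (r + z • h) ∈ range U := by
  have hL : Continuous fun t : ℂ => r + t • h := by fun_prop
  have hcl := closedRange_EmbLimit (hom_EmbLimit hU) hU.ne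
  have hwc := (cont_EmbLimit (hom_EmbLimit hw)).comp hL
  have hcR : IsClosed {t : ℂ | w (r + t • h) ∈ range U} := hcl.preimage hwc
  obtain ⟨F, hFf, HF⟩ := (hF φ U hU).1
  let T : Set ℂ := ⋃ f ∈ F, {t : ℂ | ∃ c : ℂ, c ≠ 0 ∧
    c • (r + t • h) ∈ {s | ∃ d : ℂ, w s = d • U f}}
  have hT : T.Finite := hFf.biUnion fun f _ => few_EmbLimit ((hF φ w hw).2 (U f)) hh
  let S : Set ℂ := interior {t : ℂ | w (r + t • h) ∈ range U}
  have hS0 : (0 : ℂ) ∈ S := mem_interior_iff_mem_nhds.2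
    ((hL.tendsto' 0 r (by simp)).eventually h0)
  have hd : Dense Tᶜ := hT.countable.dense_compl ℝ
  have hc : IsPreconnected Tᶜ :=
    (hT.countable.isConnected_compl_of_one_lt_rank (by simp)).isPreconnected
  have key : closure S ∩ Tᶜ ⊆ S := by
    rintro t ⟨ht, htT⟩
    by_contra hn
    have hs0 := ne_EmbLimit hh t
    have hfin := fibre_EmbLimit hF hU (hw.ne _ hs0)
    have hq0 : ∀ q, U q = w (r + t • h) → q ≠ 0 := fun q hq e =>
      hw.ne _ hs0 (by rw [← hq, e, zero_EmbLimit (hom_EmbLimit hU)])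
    have H : ∀ q, ∃ δ : ℝ, 0 < δ ∧ (U q = w (r + t • h) → ∀ᶠ s in 𝓝 (r + t • h),
        w s ∈ U '' ball q δ → ∃ c : ℂ, s = c • (r + t • h)) := by
      intro q
      by_cases hq : U q = w (r + t • h)
      swap
      · exact ⟨1, one_pos, fun e => (hq e).elim⟩
      have hi : Function.Injective (fderiv ℝ U q) := by
        by_contra hi
        obtain ⟨f, hf, c, e⟩ := HF q hi
        exact htT (mem_biUnion hf ⟨1, one_ne_zero, c, by rw [one_smul, ← hq, e, hU.hom]⟩)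
      rcases hP φ U w q _ hU hw (hq0 q hq) hs0 hq hi 1 one_pos with h1 | ⟨⟨δ, hδ, h1⟩, -⟩
      · exact (hn (mem_interior_iff_mem_nhds.2 ((hL.tendsto t).eventually
          (h1.mono fun s hs => image_subset_range _ _ hs)))).elim
      · exact ⟨δ, hδ, fun _ => h1⟩
    choose δ hδ H using H
    have hO : IsOpen (⋃ q ∈ {q | U q = w (r + t • h)}, ball q (δ q)) :=
      isOpen_biUnion fun _ _ => isOpen_ball
    have h2 : ∀ᶠ s in 𝓝 (r + t • h),
        w s ∉ U '' (⋃ q ∈ {q | U q = w (r + t • h)}, ball q (δ q))ᶜ := by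
      refine (cont_EmbLimit (hom_EmbLimit hw)).continuousAt.eventually
        ((closedMap_EmbLimit (hom_EmbLimit hU) hU.ne _ hO.isClosed_compl).isOpen_compl.mem_nhds ?_)
      rintro ⟨q, hq, e⟩
      exact hq (mem_biUnion e (mem_ball_self (hδ q)))
    have h3 := (hL.tendsto t).eventually (h2.and ((hfin.eventually_all).2 fun q hq => H q hq))
    obtain ⟨t', ⟨h4, h5⟩, ht'⟩ := mem_closure_iff_nhds.1 ht _ h3
    obtain ⟨q, hq⟩ := interior_subset ht'
    have h6 : q ∈ ⋃ q ∈ {q | U q = w (r + t • h)}, ball q (δ q) := by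
      by_contra h6
      exact h4 ⟨q, h6, hq⟩
    obtain ⟨q', hq', h7⟩ := mem_iUnion₂.1 h6
    obtain ⟨c, e⟩ := h5 q' hq' ⟨q, h7, hq⟩
    exact hn (par_EmbLimit hh e (one_smul ℂ _).symm ▸ ht')
  have h1 : Tᶜ ⊆ S := hc.subset_of_closure_inter_subset isOpen_interior
    (by rw [inter_comm]; exact hd.inter_open_nonempty _ isOpen_interior ⟨0, hS0⟩) key
  exact hcR.closure_subset_iff.2 (h1.trans interior_subset) (hd z)

theorem homc_EmbLimit {U : W → V} (h : Hom1 U) (g : W ≃L[ℂ] W) : Hom1 (U ∘ g) :=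
  ⟨h.1.comp ((g : W →L[ℂ] W).restrictScalars ℝ).contDiff.contDiffOn
    fun _ hq e => hq (g.map_eq_zero_iff.1 e), fun c q => by simp [h.2]⟩

/-- Two immersed points of the limit with the same image are proportional. -/
theorem two_EmbLimit (hK : CompactStmt) (hF : FinStmt) (hP : GPersistStmt)
    {P : Type} [TopologicalSpace P] {φ : P → Fr} {om : P → Symp 1} {p : ℕ → P} {p₀ : P}
    {U : ℕ → W → V} {U' : W → V} (hφ : FrFam φ) (hom : Continuous om)
    (ht : ∀ a, Tame (φ a).J (om a)) (hp : Tendsto p atTop (𝓝 p₀))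
    (hU : ∀ n, Hom1 (U n)) (hU' : IsLine (φ p₀).J U') (hc : Conv U U')
    (H : ∀ n (x y : V), x ≠ 0 → (∀ c : ℂ, y ≠ c • x) → ∃ w, IsLine (φ (p n)).J w ∧
      x ∈ range w ∧ y ∈ range w ∧ ∀ q q' r r' : W, q ≠ 0 → q' ≠ 0 → U n q = w r → U n q' = w r' →
        (∃ c : ℂ, q' = c • q) ∨ y ∈ range (U n))
    {q₁ q₂ : W} (h₁ : q₁ ≠ 0) (h₂ : q₂ ≠ 0) (i₁ : Function.Injective (fderiv ℝ U' q₁))
    (i₂ : Function.Injective (fderiv ℝ U' q₂)) (e : U' q₁ = U' q₂) : det2 q₁ q₂ = 0 := by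
  by_contra hd
  obtain ⟨y, hy⟩ := notRange_EmbLimit (hom_EmbLimit hU')
  have hx := hU'.ne _ h₁
  have hyx : ∀ c : ℂ, y ≠ c • U' q₁ := fun c e => hy ⟨c • q₁, by rw [hU'.hom, e]⟩
  choose w hw hwx hwy hw2 using fun n => H n _ y hx hyx
  obtain ⟨ψ, g, w', hψ, hw', hcw⟩ := hK P φ om p p₀ w hφ hom ht hp hw
  have hg : ∀ n, Hom1 (w (ψ n) ∘ g n) := fun n => homc_EmbLimit (hom_EmbLimit (hw _)) _
  have hr : ∀ z : V, (∀ n, z ∈ range (w n)) → z ∈ range w' := fun z hz =>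
    rangeLim_EmbLimit hg (hom_EmbLimit hw') hw'.ne hcw (Eventually.of_forall fun n => by
      rw [(g n).surjective.range_comp]; exact hz _)
  obtain ⟨r₀, hr₀⟩ := hr _ hwx
  obtain ⟨r₁, hr₁⟩ := hr _ hwy
  have h0 : r₀ ≠ 0 := fun e => hx (by rw [← hr₀, e, zero_EmbLimit (hom_EmbLimit hw')])
  have hdr : det2 r₀ (r₁ - r₀) ≠ 0 := fun e => by
    obtain ⟨c, hc⟩ := prop_EmbLimit h0 e
    exact hyx (c + 1) (by rw [← hr₁, ← hr₀, ← hw'.hom, add_smul, ← hc, one_smul, sub_add_cancel])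
  have huc : ¬ ∀ᶠ s in 𝓝 r₀, w' s ∈ range U' := fun h => hy (by
    have := uc_EmbLimit hF hP hU' hw' hdr h 1
    rwa [one_smul, add_sub_cancel, hr₁] at this)
  obtain ⟨δ, hδ, Hδ⟩ : ∃ δ : ℝ, 0 < δ ∧ ∀ q ∈ ball q₁ δ, ∀ q' ∈ ball q₂ δ, det2 q q' ≠ 0 := by
    have h1 : Continuous fun a : W × W => det2 a.1 a.2 := by unfold det2; fun_prop
    obtain ⟨δ, hδ, H⟩ := Metric.eventually_nhds_iff_ball.1
      ((h1.continuousAt (x := (q₁, q₂))).eventually_ne hd)
    exact ⟨δ, hδ, fun q hq q' hq' => H (q, q') (by rw [← ball_prod_same]; exact ⟨hq, hq'⟩)⟩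
  rcases hP _ U' w' q₁ r₀ hU' hw' h₁ h0 hr₀.symm i₁ δ hδ with h1 | ⟨-, ε₁, hε₁, H₁⟩
  · exact huc (h1.mono fun s hs => image_subset_range _ _ hs)
  rcases hP _ U' w' q₂ r₀ hU' hw' h₂ h0 (e.symm.trans hr₀.symm) i₂ δ hδ with h1 | ⟨-, ε₂, hε₂, H₂⟩
  · exact huc (h1.mono fun s hs => image_subset_range _ _ hs)
  have hcU : Conv (fun n => U (ψ n)) U' := fun ε hε => hψ.tendsto_atTop.eventually (hc ε hε)
  refine hy (rangeLim_EmbLimit (fun n => hU (ψ n)) (hom_EmbLimit hU') hU'.ne hcU ?_)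
  filter_upwards [hcU ε₁ hε₁, hcU ε₂ hε₂, hcw ε₁ hε₁, hcw ε₂ hε₂] with n a1 a2 b1 b2
  obtain ⟨q, hq, r, -, e1⟩ := H₁ _ _ (hU _) (hg n) a1 b1
  obtain ⟨q', hq', r', -, e2⟩ := H₂ _ _ (hU _) (hg n) a2 b2
  have h3 := Hδ q hq q' hq'
  refine (hw2 (ψ n) q q' _ _ (fun e => h3 (by simp [det2, e])) (fun e => h3 (by simp [det2, e]))
    e1 e2).resolve_left ?_
  rintro ⟨c, rfl⟩
  exact h3 (by simp only [det2, Prod.smul_fst, Prod.smul_snd, smul_eq_mul]; ring)

end Pool.Agent.MP_2fc7fa_gt.N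

end

section

/-! A limit of embedded lines is embedded. -/

open scoped ContDiff ComplexConjugate Topology
open Set Complex Filter Metric

namespace Pool.Agent.MP_2fc7fa_gt.N

theorem ch_eq_EmbLimit {a : Fin 3} {x y : V} (hx : x a ≠ 0) (hy : y a ≠ 0) (h : ch a x = ch a y) :
    y = (y a / x a) • x := by
  have h1 : x (a + 1) / x a = y (a + 1) / y a := congrArg Prod.fst h
  have h2 : x (a + 2) / x a = y (a + 2) / y a := congrArg Prod.snd h
  have h3 : ∀ a j : Fin 3, j = a ∨ j = a + 1 ∨ j = a + 2 := by decide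
  funext j
  rw [Pi.smul_apply, smul_eq_mul, div_mul_comm]
  rcases h3 a j with rfl | rfl | rfl
  · rw [div_self hx, one_mul]
  · rw [h1, div_mul_cancel₀ _ hy]
  · rw [h2, div_mul_cancel₀ _ hy]

theorem ch_smooth_EmbLimit {a : Fin 3} {x : V} (hx : x a ≠ 0) : ContDiffAt ℝ ∞ (ch a) x := by
  have h1 : ∀ j, ContDiffAt ℝ ∞ (fun y : V => y j) x := fun j => contDiffAt_apply ℝ ℂ j x
  have h2 : ch a = fun y : V => (y (a + 1) * (y a)⁻¹, y (a + 2) * (y a)⁻¹) := rfl
  rw [h2]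
  exact ((h1 _).mul ((h1 _).inv hx)).prodMk ((h1 _).mul ((h1 _).inv hx))

theorem diff_EmbLimit {U : W → V} (hU : ContDiffOn ℝ 1 U {0}ᶜ) {q : W} (hq : q ≠ 0) :
    DifferentiableAt ℝ U q :=
  (hU.contDiffAt (isOpen_compl_singleton.mem_nhds hq)).differentiableAt one_ne_zero

theorem euler_EmbLimit {U : W → V} (hU : Hom1 U) {q : W} (hq : q ≠ 0) (c : ℂ) :
    fderiv ℝ U q (c • q) = c • U q := by
  have h1 : HasDerivAt (fun s : ℝ => 1 + (s : ℂ) * c) c 0 := by
    simpa using (((hasDerivAt_id (0 : ℝ)).ofReal_comp).mul_const c).const_add 1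
  have h2 := (diff_EmbLimit hU.1 hq).hasFDerivAt.comp_hasDerivAt_of_eq 0 (h1.smul_const q)
    (by simp)
  refine h2.unique ((h1.smul_const (U q)).congr_of_eventuallyEq (Eventually.of_forall fun s => ?_))
  exact hU.2 _ _

theorem slice_EmbLimit {U : W → V} {q h : W} {z : ℂ} (hU : DifferentiableAt ℝ U (q + z • h))
    (v : ℂ) : fderiv ℝ (fun z : ℂ => U (q + z • h)) z v = fderiv ℝ U (q + z • h) (v • h) := by
  have h1 : HasFDerivAt (fun z : ℂ => q + z • h)
      ((ContinuousLinearMap.id ℝ ℂ).smulRight h) z := ((hasFDerivAt_id z).smul_const h).const_add q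
  exact congrArg (· v) (hU.hasFDerivAt.comp z h1).fderiv

theorem cr_EmbLimit {φ : Fr} {U : W → V} (hU : IsLine φ.J U) {q h : W} (hh : det2 q h ≠ 0)
    (z : ℂ) : CR φ.A (fun z : ℂ => U (q + z • h)) {z} := by
  intro y hy
  rw [mem_singleton_iff.1 hy]
  have h0 := ne_EmbLimit hh z
  have h1 := diff_EmbLimit hU.c1 h0
  rw [slice_EmbLimit h1, slice_EmbLimit h1, hU.hol _ h0, one_smul, Fr.J, φ.AB _ (hU.ne _ h0)]

theorem smooth_EmbLimit {n : WithTop ℕ∞} {U : W → V} (hU : ContDiffOn ℝ n U {0}ᶜ) {q h : W}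
    (hh : det2 q h ≠ 0) : ContDiff ℝ n fun z : ℂ => U (q + z • h) :=
  hU.comp_contDiff (by fun_prop) (ne_EmbLimit hh)

theorem unif_EmbLimit {X Y Z : Type} [UniformSpace Y] [UniformSpace Z] {G : Y → Z} {K : Set Y}
    (hK : IsCompact K) (hG : ∀ y ∈ K, ContinuousAt G y) {F : ℕ → X → Y} {f : X → Y} {S : Set X}
    (hf : MapsTo f S K) (h : TendstoUniformlyOn F f atTop S) :
    TendstoUniformlyOn (fun n x => G (F n x)) (fun x => G (f x)) atTop S := fun _ hu =>
  (h _ (hK.uniformContinuousAt_of_continuousAt G hG hu)).mono fun _ hn x hx => hn x hx (hf hx)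

theorem inj_EmbLimit {U : W → V} (hU : Hom1 U) {q h : W} {a : Fin 3} {z z' : ℂ}
    (h1 : U (q + z • h) a ≠ 0) (h2 : U (q + z' • h) a ≠ 0)
    (e : ch a (U (q + z • h)) = ch a (U (q + z' • h))) :
    ∃ c : ℂ, c ≠ 0 ∧ U (q + z' • h) = U (c • (q + z • h)) :=
  ⟨_, div_ne_zero h2 h1, by rw [hU.2]; exact ch_eq_EmbLimit h1 h2 e⟩

/-- `C¹` convergence of the slices. -/
theorem slconv_EmbLimit {U : ℕ → W → V} {U' : W → V} (hU : ∀ n, Hom1 (U n)) (hU' : Hom1 U')
    (hc : Conv U U') {q h : W} (hh : det2 q h ≠ 0) {r : ℝ} (hr : 0 < r) :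
    TendstoUniformlyOn (fun n z => ((fun z : ℂ => U n (q + z • h)) z,
        fderiv ℝ (fun z : ℂ => U n (q + z • h)) z))
      (fun z => ((fun z : ℂ => U' (q + z • h)) z, fderiv ℝ (fun z : ℂ => U' (q + z • h)) z))
      atTop (ball 0 r) := by
  rw [Metric.tendstoUniformlyOn_iff]
  intro ε hε
  have h1 : 0 < ‖q‖ + (r + 1) * ‖h‖ + 1 := by positivity
  have h2 : 0 < ε / (‖q‖ + (r + 1) * ‖h‖ + 1) := by positivity
  have h3 : ∀ t : ℝ, t ≤ ‖q‖ + (r + 1) * ‖h‖ → ε / (‖q‖ + (r + 1) * ‖h‖ + 1) * t < ε := fun t ht => by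
    rw [div_mul_eq_mul_div, div_lt_iff₀ h1]
    exact mul_lt_mul_of_pos_left (by linarith) hε
  filter_upwards [hc _ h2] with n hn z hz
  have hz' : ‖z‖ * ‖h‖ ≤ r * ‖h‖ :=
    mul_le_mul_of_nonneg_right (mem_ball_zero_iff.1 hz).le (norm_nonneg h)
  have h0 := ne_EmbLimit hh z
  rw [dist_comm, Prod.dist_eq, dist_eq_norm, dist_eq_norm]
  refine max_lt ((val_EmbLimit hU' (hU n) hn _).trans_lt (h3 _ ?_)) (lt_of_le_of_lt ?_ (h3 ‖h‖ ?_))
  · have := norm_add_le q (z • h)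
    rw [norm_smul] at this
    nlinarith [norm_nonneg h]
  · refine ContinuousLinearMap.opNorm_le_bound _ (by positivity) fun v => ?_
    rw [sub_apply, slice_EmbLimit (diff_EmbLimit (hU n).1 h0),
      slice_EmbLimit (diff_EmbLimit hU'.1 h0), ← sub_apply]
    refine (ContinuousLinearMap.le_opNorm _ _).trans ?_
    rw [norm_smul, mul_comm ‖v‖, ← mul_assoc]
    gcongr
    exact der_EmbLimit hU' (hU n) hn h0
  · nlinarith [norm_nonneg h, norm_nonneg q]

theorem imm_EmbLimit (hS : LineSmoothStmt) (hF : FinStmt) (hC : ChartStmt) (hCu : CuspStmt)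
    {P : Type} [TopologicalSpace P] {φ : P → Fr} {p : ℕ → P} {p₀ : P}
    {U : ℕ → W → V} {U' : W → V} (hφ : FrFam φ) (hp : Tendsto p atTop (𝓝 p₀))
    (hU : ∀ n, IsLine (φ (p n)).J (U n) ∧ IsEmb (U n)) (hU' : IsLine (φ p₀).J U') (hc : Conv U U')
    (H : ∀ q₁ q₂ : W, q₁ ≠ 0 → q₂ ≠ 0 → Function.Injective (fderiv ℝ U' q₁) →
      Function.Injective (fderiv ℝ U' q₂) → U' q₁ = U' q₂ → det2 q₁ q₂ = 0)
    {q : W} (hq : q ≠ 0) : Function.Injective (fderiv ℝ U' q) := by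
  refine (injective_iff_map_eq_zero _).2 fun h hk => by_contra fun hk0 => ?_
  have hh : det2 q h ≠ 0 := fun e => by
    obtain ⟨c, rfl⟩ := prop_EmbLimit hq e
    rw [euler_EmbLimit (hom_EmbLimit hU') hq, smul_eq_zero] at hk
    exact hk0 (by rw [hk.resolve_right (hU'.ne _ hq), zero_smul])
  obtain ⟨a, ha⟩ : ∃ a, U' q a ≠ 0 := Function.ne_iff.1 (hU'.ne _ hq)
  obtain ⟨A, hA⟩ := hC.1 (φ p₀) a
  choose An hAn using fun n => hC.1 (φ (p n)) a
  have hv := smooth_EmbLimit (hS _ _ hU') hh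
  have hvn := fun n => smooth_EmbLimit (hU n).1.c1 hh
  have hT := ((few_EmbLimit (hF _ _ hU').1 hh).union
    (few_EmbLimit ((hF _ _ hU').2 (U' q)) hh)).subset (sdiff_subset (t := {0}))
  obtain ⟨r, hr, Hr⟩ : ∃ r : ℝ, 0 < r ∧ ∀ z ∈ closedBall (0 : ℂ) r, U' (q + z • h) a ≠ 0 ∧
      (z ≠ 0 → ∀ c : ℂ, c ≠ 0 → Function.Injective (fderiv ℝ U' (c • (q + z • h))) ∧
        ∀ d : ℂ, U' (c • (q + z • h)) ≠ d • U' q) := by
    have h1 : ∀ᶠ z in 𝓝 (0 : ℂ), U' (q + z • h) a ≠ 0 :=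
      ((continuous_apply a).comp hv.continuous).continuousAt.eventually_ne (by simpa using ha)
    have h2 := hT.isClosed.isOpen_compl.mem_nhds (x := 0) (fun e => e.2 rfl)
    obtain ⟨r, hr, H⟩ := Metric.nhds_basis_closedBall.eventually_iff.1 (h1.and h2)
    refine ⟨r, hr, fun z hz => ⟨(H hz).1, fun h0 c hc => ⟨by_contra fun hi => ?_, fun d e => ?_⟩⟩⟩
    · exact (H hz).2 ⟨Or.inl ⟨c, hc, hi⟩, h0⟩
    · exact (H hz).2 ⟨Or.inr ⟨c, hc, d, e⟩, h0⟩
  have hsl := slconv_EmbLimit (fun n => hom_EmbLimit (hU n).1) (hom_EmbLimit hU') hc hh hr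
  have hcont : Continuous fun z => ((fun z : ℂ => U' (q + z • h)) z,
      fderiv ℝ (fun z : ℂ => U' (q + z • h)) z) :=
    hv.continuous.prodMk (hv.continuous_fderiv (by simp))
  have hK := (isCompact_closedBall (0 : ℂ) r).image hcont
  have hKa : ∀ y ∈ (fun z => ((fun z : ℂ => U' (q + z • h)) z,
      fderiv ℝ (fun z : ℂ => U' (q + z • h)) z)) '' closedBall 0 r, y.1 a ≠ 0 := by
    rintro _ ⟨z, hz, rfl⟩
    exact (Hr z hz).1
  have hmap := (mapsTo_image (fun z => ((fun z : ℂ => U' (q + z • h)) z,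
      fderiv ℝ (fun z : ℂ => U' (q + z • h)) z)) (closedBall 0 r)).mono_left ball_subset_closedBall
  have hO : IsOpen {y : V × (ℂ →L[ℝ] V) | y.1 a ≠ 0} :=
    isOpen_ne_fun (by fun_prop) continuous_const
  obtain ⟨ε, hε, Hε⟩ := hK.exists_thickening_subset_open hO hKa
  obtain ⟨N, hN⟩ := eventually_atTop.1 (Metric.tendstoUniformlyOn_iff.1 hsl ε hε)
  have hne : ∀ n, ∀ z ∈ ball (0 : ℂ) r, U (n + N) (q + z • h) a ≠ 0 := fun n z hz =>
    Hε (mem_thickening_iff.2 ⟨_, hmap hz, by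
      rw [dist_comm]; exact hN (n + N) (Nat.le_add_left _ _) z hz⟩)
  have hsh := tendsto_add_atTop_nat N
  have hsl' := hsl.seq_tendstoUniformlyOn _ hsh
  have hder : ∀ {u : ℂ → V} {z : ℂ}, ContDiff ℝ 1 u → u z a ≠ 0 →
      fderiv ℝ (ch a ∘ u) z = (fderiv ℝ (ch a) (u z)).comp (fderiv ℝ u z) := fun hu hz =>
    fderiv_comp _ ((ch_smooth_EmbLimit hz).differentiableAt (by simp))
      (hu.differentiable one_ne_zero _)
  have hv1 : ContDiff ℝ 1 fun z : ℂ => U' (q + z • h) := hv.of_le (by simp)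
  have hb : ∀ z ∈ ball (0 : ℂ) r, U' (q + z • h) a ≠ 0 := fun z hz =>
    (Hr z (ball_subset_closedBall hz)).1
  refine hCu A (fun n => An (n + N)) univ (ch a ∘ fun z : ℂ => U' (q + z • h))
    (fun n => ch a ∘ fun z : ℂ => U (n + N) (q + z • h)) r (hC.2.1 _ a A hA).1
    (fun n => (hC.2.1 _ a _ (hAn _)).1)
    (hC.2.2 P φ (fun n => p (n + N)) p₀ a _ A hφ (hp.comp hsh) (fun n => hAn _) hA) hr
    (fun z hz => ((ch_smooth_EmbLimit (hb z hz)).comp z hv.contDiffAt).contDiffWithinAt)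
    (mapsTo_univ _ _) (fun z hz => ((hC.2.1 _ a A hA).2 _ z (hv1.differentiable one_ne_zero z)
      (hb z hz) (cr_EmbLimit hU' hh z)).1 z rfl) ?_ (fun n => ⟨fun z hz =>
      (((ch_smooth_EmbLimit (hne n z hz)).of_le (by simp)).comp z
        (hvn _).contDiffAt).contDiffWithinAt, mapsTo_univ _ _, fun z hz =>
      ((hC.2.1 _ a _ (hAn _)).2 _ z ((hvn _).differentiable one_ne_zero z)
        (hne n z hz) (cr_EmbLimit (hU _).1 hh z)).1 z rfl, ?_, ?_⟩) ?_ ?_ ?_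
  · intro z hz z' hz' e
    obtain ⟨c, hc0, e1⟩ := inj_EmbLimit (hom_EmbLimit hU') (hb z hz) (hb z' hz') e
    have h1 := (Hr z (ball_subset_closedBall hz)).2
    have h2 := (Hr z' (ball_subset_closedBall hz')).2
    by_cases h3 : z = 0
    · by_contra h4
      refine (h2 (fun e => h4 (h3.trans e.symm)) 1 one_ne_zero).2 c ?_
      rw [one_smul, e1, h3, zero_smul, add_zero, hU'.hom]
    by_cases h4 : z' = 0
    · refine ((h1 h3 c hc0).2 1 ?_).elim
      rw [← e1, h4, zero_smul, add_zero, one_smul]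
    have h5 := (h2 h4 1 one_ne_zero).1
    rw [one_smul] at h5
    have h6 := smul_ne_zero hc0 (ne_EmbLimit hh z)
    obtain ⟨d, hd⟩ := prop_EmbLimit h6 (H _ _ h6 (ne_EmbLimit hh z') (h1 h3 c hc0).1 h5 e1.symm)
    rw [smul_smul] at hd
    exact par_EmbLimit hh (one_smul ℂ _).symm hd
  · intro z hz z' hz' e
    obtain ⟨c, hc0, e1⟩ := inj_EmbLimit (hom_EmbLimit (hU _).1) (hne n z hz) (hne n z' hz') e
    exact par_EmbLimit hh (one_smul ℂ _).symm ((hU _).2.inj (ne_EmbLimit hh z')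
      (smul_ne_zero hc0 (ne_EmbLimit hh z)) e1)
  · intro z hz e
    have h0 := ne_EmbLimit hh z
    obtain ⟨c, e1⟩ := ((hC.2.1 _ a _ (hAn _)).2 _ z ((hvn _).differentiable one_ne_zero z)
        (hne n z hz) (cr_EmbLimit (hU _).1 hh z)).2.1 e
    rw [slice_EmbLimit (diff_EmbLimit (hU _).1.c1 h0), one_smul,
      ← euler_EmbLimit (hom_EmbLimit (hU _).1) h0] at e1
    have e2 := (hU _).2.imm _ h0 e1
    have h1 : h.1 = c * (q.1 + z * h.1) := congrArg Prod.fst e2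
    have h2 : h.2 = c * (q.2 + z * h.2) := congrArg Prod.snd e2
    refine hh ?_
    unfold det2
    linear_combination (q.1 + z * h.1) * h2 - (q.2 + z * h.2) * h1
  · exact unif_EmbLimit (G := fun y : V × (ℂ →L[ℝ] V) => ch a y.1) hK (fun y hy =>
      (ch_smooth_EmbLimit (hKa y hy)).continuousAt.comp continuousAt_fst) hmap hsl'
  · have h1 := unif_EmbLimit (G := fun y : V × (ℂ →L[ℝ] V) => (fderiv ℝ (ch a) y.1).comp y.2) hK
      (fun y hy =>
      (((ch_smooth_EmbLimit (hKa y hy)).continuousAt_fderiv (by simp)).comp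
        continuousAt_fst).clm_comp continuousAt_snd) hmap hsl'
    refine (h1.congr (Eventually.of_forall fun n z hz => ?_)).congr_right fun z hz => ?_
    · exact (hder (hvn _) (hne n z hz)).symm
    · exact (hder hv1 (hb z hz)).symm
  · refine ((hC.2.1 _ a A hA).2 _ 0 (hv1.differentiable one_ne_zero 0)
      (hb 0 (mem_ball_self hr)) (cr_EmbLimit hU' hh 0)).2.2 ⟨0, ?_⟩
    rw [slice_EmbLimit (diff_EmbLimit hU'.c1 (ne_EmbLimit hh 0)), zero_smul, zero_smul, add_zero,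
      one_smul, hk]

theorem embLimit (hS : LineSmoothStmt) (hK : CompactStmt) (hF : FinStmt) (hP : GPersistStmt)
    (hC : ChartStmt) (hU : CuspStmt) : EmbLimitStmt := by
  intro P _ φ om p p₀ U U' hφ hom ht hp hn hU' hc H
  have h1 : ∀ q₁ q₂ : W, q₁ ≠ 0 → q₂ ≠ 0 → Function.Injective (fderiv ℝ U' q₁) →
      Function.Injective (fderiv ℝ U' q₂) → U' q₁ = U' q₂ → det2 q₁ q₂ = 0 :=
    fun _ _ => two_EmbLimit hK hF hP hφ hom ht hp (fun n => hom_EmbLimit (hn n).1) hU' hc H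
  have h2 : ∀ q, q ≠ 0 → Function.Injective (fderiv ℝ U' q) := fun _ =>
    imm_EmbLimit hS hF hC hU hφ hp hn hU' hc h1
  refine ⟨h2, fun q hq q' hq' e => ?_⟩
  obtain ⟨c, rfl⟩ := prop_EmbLimit hq (h1 q q' hq hq' (h2 q hq) (h2 q' hq') e)
  rw [hU'.hom] at e
  rw [smul_left_injective ℂ (hU'.ne q hq) (e.symm.trans (one_smul ℂ _).symm), one_smul]

end Pool.Agent.MP_2fc7fa_gt.N

end

section

/-! Convergence of lines with a fixed jet without reparametrisation. -/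

open scoped ContDiff ComplexConjugate Topology
open Set Complex Filter Metric

noncomputable section

namespace Pool.Agent.MP_2fc7fa_gt.N

variable {F F' : W → V}

theorem diff_ConvJet (h : Hom1 F) {q : W} (hq : q ≠ 0) : DifferentiableAt ℝ F q :=
  (h.1.differentiableOn one_ne_zero q hq).differentiableAt (isOpen_compl_singleton.mem_nhds hq)

theorem cont_ConvJet (h : Hom1 F) : ContinuousOn (fderiv ℝ F) {0}ᶜ :=
  h.1.continuousOn_fderiv_of_isOpen isOpen_compl_singleton le_rfl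

theorem scale_ConvJet (h : Hom1 F) {t : ℝ} (ht : t ≠ 0) (q : W) :
    fderiv ℝ F (t • q) = fderiv ℝ F q := by
  have e : (fun x => F (t • x)) = t • F := funext fun x => h.2 t x
  have h1 := fderiv_comp_smul (𝕜 := ℝ) (f := F) (x := q) t
  rw [e, fderiv_const_smul_field] at h1
  exact smul_right_injective _ ht h1.symm

theorem unit_ConvJet {q : W} (hq : q ≠ 0) :
    ∃ q' : W, ‖q'‖ = 1 ∧ ∀ F, Hom1 F → fderiv ℝ F q = fderiv ℝ F q' :=
  ⟨(‖q‖⁻¹ : ℝ) • q, norm_smul_inv_norm (𝕜 := ℝ) hq,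
    fun _ h => (scale_ConvJet h (inv_ne_zero (norm_ne_zero_iff.2 hq)) q).symm⟩

theorem euler_ConvJet (h : Hom1 F) {q : W} (hq : q ≠ 0) (c : ℂ) :
    fderiv ℝ F q (c • q) = c • F q := by
  have h0 : HasDerivAt (fun t : ℝ => 1 + t • c) c 0 := by
    simpa using ((hasDerivAt_id (0 : ℝ)).smul_const c).const_add 1
  have h1 : HasDerivAt (fun t : ℝ => F ((1 + t • c) • q)) (fderiv ℝ F q (c • q)) 0 :=
    HasFDerivAt.comp_hasDerivAt_of_eq (l := F) _ (diff_ConvJet h hq).hasFDerivAt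
      (h0.smul_const q) (by simp)
  simp only [h.2] at h1
  exact h1.unique (h0.smul_const _)

theorem euler1_ConvJet (h : Hom1 F) {q : W} (hq : q ≠ 0) : fderiv ℝ F q q = F q := by
  simpa using euler_ConvJet h hq 1

theorem near_ConvJet (h : Hom1 F) (h' : Hom1 F') {ε : ℝ} :
    Near ε F F' ↔ ∀ q, q ≠ 0 → ‖fderiv ℝ F q - fderiv ℝ F' q‖ ≤ ε := by
  refine ⟨fun hn q hq => ?_, fun hn q hq => ?_⟩
  · obtain ⟨q', h1, h2⟩ := unit_ConvJet hq
    rw [h2 F h, h2 F' h']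
    exact (hn q' h1).2
  · have h0 : q ≠ 0 := norm_ne_zero_iff.1 (by rw [hq]; exact one_ne_zero)
    refine ⟨?_, hn q h0⟩
    rw [← euler1_ConvJet h h0, ← euler1_ConvJet h' h0, ← sub_apply]
    simpa [hq] using (fderiv ℝ F q - fderiv ℝ F' q).le_of_opNorm_le (hn q h0) q

theorem upper_ConvJet (h : Hom1 F) : ∃ M : ℝ, ∀ q, q ≠ 0 → ‖fderiv ℝ F q‖ ≤ M := by
  obtain ⟨M, hM⟩ := (isCompact_sphere (0 : W) 1).exists_bound_of_continuousOn
    ((cont_ConvJet h).mono fun q hq => ne_of_mem_sphere hq one_ne_zero)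
  refine ⟨M, fun q hq => ?_⟩
  obtain ⟨q', h1, h2⟩ := unit_ConvJet hq
  rw [h2 F h]
  exact hM q' (by simpa using h1)

theorem lower_ConvJet (h : Hom1 F) (he : IsEmb F) :
    ∃ m : ℝ, 0 < m ∧ ∀ q, q ≠ 0 → ∀ v, m * ‖v‖ ≤ ‖fderiv ℝ F q v‖ := by
  have c1 : ContinuousOn (fun a : W × W => fderiv ℝ F a.1) (sphere 0 1 ×ˢ sphere 0 1) :=
    (cont_ConvJet h).comp continuousOn_fst fun a ha => ne_of_mem_sphere ha.1 one_ne_zero
  have c2 : ContinuousOn (fun a : W × W => ‖fderiv ℝ F a.1 a.2‖) (sphere 0 1 ×ˢ sphere 0 1) :=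
    (c1.clm_apply continuousOn_snd).norm
  obtain ⟨m, m0, hm⟩ := ((isCompact_sphere (0 : W) 1).prod
    (isCompact_sphere (0 : W) 1)).exists_forall_le' (a := 0) c2
    fun a ha => norm_pos_iff.2 fun e => ne_of_mem_sphere ha.2 one_ne_zero
      (he.imm a.1 (ne_of_mem_sphere ha.1 one_ne_zero) (e.trans (map_zero _).symm))
  refine ⟨m, m0, fun q hq v => ?_⟩
  obtain ⟨q', h1, h2⟩ := unit_ConvJet hq
  rw [h2 F h]
  by_cases hv : v = 0
  · simp [hv]
  have h3 := hm (q', (‖v‖⁻¹ : ℝ) • v)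
    ⟨by simpa using h1, by simpa using norm_smul_inv_norm (𝕜 := ℝ) hv⟩
  simp only [map_smul, norm_smul, norm_inv, norm_norm] at h3
  rwa [le_inv_mul_iff₀ (norm_pos_iff.2 hv), mul_comm] at h3

theorem hom_ConvJet (h : Hom1 F) {k : W →L[ℂ] W} (hk : ∀ q, q ≠ 0 → k q ≠ 0) : Hom1 (F ∘ k) :=
  ⟨h.1.comp (k.restrictScalars ℝ).contDiff.contDiffOn hk,
    fun c q => by simp only [Function.comp_apply, map_smul, h.2]⟩

theorem comp_ConvJet (h : Hom1 F) {k : W →L[ℂ] W} {q : W} (hk : k q ≠ 0) :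
    fderiv ℝ (F ∘ k) q = (fderiv ℝ F (k q)).comp (k.restrictScalars ℝ) :=
  ((diff_ConvJet h hk).hasFDerivAt.comp q (k.restrictScalars ℝ).hasFDerivAt).fderiv

theorem lim_ConvJet {Fn : ℕ → W → V} (hn : ∀ n, Hom1 (Fn n)) (h : Hom1 F) (hc : Conv Fn F)
    {ι : Type} {l : Filter ι} {ν : ι → ℕ} {x : ι → W} {x₀ : W} (hν : Tendsto ν l atTop)
    (hx : Tendsto x l (𝓝 x₀)) (h0 : x₀ ≠ 0) :
    Tendsto (fun i => fderiv ℝ (Fn (ν i)) (x i)) l (𝓝 (fderiv ℝ F x₀)) := by
  refine TendstoUniformlyOn.tendsto_comp (F := fun i => fderiv ℝ (Fn (ν i))) (s := {0}ᶜ)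
    (Metric.tendstoUniformlyOn_iff.2 fun ε hε => ?_) (cont_ConvJet h x₀ h0)
    (tendsto_nhdsWithin_iff.2 ⟨hx, hx.eventually (isOpen_compl_singleton.mem_nhds h0)⟩)
  filter_upwards [hν.eventually (hc (ε / 2) (half_pos hε))] with i hi q hq
  rw [dist_comm, dist_eq_norm]
  exact ((near_ConvJet (hn _) h).1 hi q hq).trans_lt (half_lt_self hε)

theorem conv_ConvJet {Fn : ℕ → W → V} (hn : ∀ n, Hom1 (Fn n)) (h : Hom1 F)
    (hl : ∀ q, q ≠ 0 → Tendsto (fun y : ℕ × W => fderiv ℝ (Fn y.1) y.2) (atTop ×ˢ 𝓝 q)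
      (𝓝 (fderiv ℝ F q))) : Conv Fn F := by
  have h1 : TendstoUniformlyOn (fun n => fderiv ℝ (Fn n)) (fderiv ℝ F) atTop (sphere 0 1) := by
    refine (tendstoLocallyUniformlyOn_iff_tendstoUniformlyOn_of_compact (isCompact_sphere _ _)).1
      (tendstoLocallyUniformlyOn_iff_forall_tendsto.2 fun q hq => ?_)
    have h0 : q ≠ 0 := ne_of_mem_sphere hq one_ne_zero
    refine Tendsto.mono_left ?_ (prod_mono le_rfl nhdsWithin_le_nhds)
    exact ((((cont_ConvJet h).continuousAt (isOpen_compl_singleton.mem_nhds h0)).tendsto.comp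
      tendsto_snd).prodMk_nhds (hl q h0)).mono_right (nhds_le_uniformity _)
  intro ε hε
  filter_upwards [Metric.tendstoUniformlyOn_iff.1 h1 ε hε] with n hq
  refine (near_ConvJet (hn n) h).2 fun q h0 => ?_
  obtain ⟨q', h2, h3⟩ := unit_ConvJet h0
  rw [h3 _ h, h3 _ (hn n), ← dist_eq_norm, dist_comm]
  exact (hq q' (by simpa using h2)).le

theorem convJet : ConvJetStmt := by
  intro P _ φ p p₀ U g U' j _ _ hj hU hU' hE hC
  have H : ∀ n, Hom1 (U n) := fun n => ⟨(hU n).1.c1, (hU n).1.hom⟩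
  have H' : Hom1 U' := ⟨hU'.c1, hU'.hom⟩
  have HV : ∀ n, Hom1 (U n ∘ g n) := fun n =>
    hom_ConvJet (k := (g n : W →L[ℂ] W)) (H n) fun q hq => (g n).map_ne_zero_iff.2 hq
  obtain ⟨k, hk, hD⟩ : ∃ k : ℕ → W →L[ℂ] W, (∀ n q, q ≠ 0 → k n q ≠ 0) ∧ ∀ n q, q ≠ 0 →
      fderiv ℝ (U n) q = (fderiv ℝ (U n ∘ g n) (k n q)).comp ((k n).restrictScalars ℝ) := by
    refine ⟨fun n => (g n).symm, fun n q hq => (g n).symm.map_ne_zero_iff.2 hq, fun n q hq => ?_⟩
    rw [← comp_ConvJet (HV n) ((g n).symm.map_ne_zero_iff.2 hq)]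
    congr 1
    funext x
    simp
  have e0 : ((1, 0) : W) ≠ 0 := by simp
  have j1 : ∀ n, fderiv ℝ (U n ∘ g n) (k n (1, 0)) (k n (1, 0)) = j.1 := fun n => by
    rw [← (hU n).2, jet, ← euler1_ConvJet (H n) e0, hD n _ e0]
    rfl
  have j2 : ∀ n, fderiv ℝ (U n ∘ g n) (k n (1, 0)) (k n (0, 1)) = j.2 := fun n => by
    rw [← (hU n).2, jet, hD n _ e0]
    rfl
  have dec : ∀ (L : W →L[ℂ] W) (q : W), L q = q.1 • L (1, 0) + q.2 • L (0, 1) := fun L q => by
    rw [← map_smul, ← map_smul, ← map_add]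
    simp
  obtain ⟨M, hM⟩ := upper_ConvJet H'
  obtain ⟨m, m0, hm⟩ := lower_ConvJet H' hE
  have hb : ∀ᶠ n in atTop, k n ∈ closedBall (0 : W →L[ℂ] W) (2 * (‖j.1‖ + ‖j.2‖) / m) := by
    filter_upwards [hC (m / 2) (half_pos m0)] with n hn
    have h1 := (near_ConvJet (HV n) H').1 hn _ (hk n _ e0)
    have h2 : ∀ v, m / 2 * ‖v‖ ≤ ‖fderiv ℝ (U n ∘ g n) (k n (1, 0)) v‖ := fun v => by
      have h3 := ContinuousLinearMap.le_of_opNorm_le _ h1 v
      have h4 := hm _ (hk n _ e0) v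
      have h5 := norm_sub_norm_le (fderiv ℝ U' (k n (1, 0)) v)
        (fderiv ℝ (U n ∘ g n) (k n (1, 0)) v)
      rw [sub_apply, norm_sub_rev] at h3
      linarith
    have h3 := h2 (k n (1, 0))
    have h4 := h2 (k n (0, 1))
    rw [j1] at h3
    rw [j2] at h4
    rw [mem_closedBall_zero_iff]
    refine ContinuousLinearMap.opNorm_le_bound _ (by positivity) fun q => ?_
    have h5 : ‖k n (1, 0)‖ + ‖k n (0, 1)‖ ≤ 2 * (‖j.1‖ + ‖j.2‖) / m := by
      rw [le_div_iff₀ m0]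
      linarith
    rw [dec]
    calc _ ≤ ‖q.1‖ * ‖k n (1, 0)‖ + ‖q.2‖ * ‖k n (0, 1)‖ :=
          (norm_add_le _ _).trans_eq (by rw [norm_smul, norm_smul])
      _ ≤ ‖q‖ * ‖k n (1, 0)‖ + ‖q‖ * ‖k n (0, 1)‖ := by
          gcongr
          · exact norm_fst_le q
          · exact norm_snd_le q
      _ ≤ _ := by
          rw [← mul_add, mul_comm]
          gcongr
  have _ : ProperSpace (W →L[ℂ] W) := FiniteDimensional.proper ℂ _
  obtain ⟨K, -, ψ, hψ, hK⟩ := tendsto_subseq_of_frequently_bounded isBounded_closedBall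
    hb.frequently
  have hKq : ∀ q, Tendsto (fun n => k (ψ n) q) atTop (𝓝 (K q)) := fun q =>
    ((continuous_eval_const q).tendsto K).comp hK
  have a0 : K (1, 0) ≠ 0 := fun h0 => by
    have h1 : Tendsto (fun n => (M + 1) * ‖k (ψ n) (1, 0)‖) atTop (𝓝 ((M + 1) * ‖K (1, 0)‖)) :=
      (hKq _).norm.const_mul _
    rw [h0, norm_zero, mul_zero] at h1
    refine hj.1 (norm_le_zero_iff.1 (ge_of_tendsto h1 ?_))
    filter_upwards [hψ.tendsto_atTop.eventually (hC 1 one_pos)] with n hn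
    rw [← j1 (ψ n)]
    refine ContinuousLinearMap.le_of_opNorm_le _ ?_ _
    have h2 := (near_ConvJet (HV _) H').1 hn _ (hk (ψ n) _ e0)
    have h3 := hM _ (hk (ψ n) _ e0)
    have h4 := norm_sub_norm_le (fderiv ℝ (U (ψ n) ∘ g (ψ n)) (k (ψ n) (1, 0)))
      (fderiv ℝ U' (k (ψ n) (1, 0)))
    linarith
  have hL := lim_ConvJet HV H' hC hψ.tendsto_atTop (hKq (1, 0)) a0
  have ap : ∀ q, Tendsto (fun n => fderiv ℝ (U (ψ n) ∘ g (ψ n)) (k (ψ n) (1, 0)) (k (ψ n) q))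
      atTop (𝓝 (fderiv ℝ U' (K (1, 0)) (K q))) := fun q =>
    (isBoundedBilinearMap_apply.continuous.tendsto (_, _)).comp (hL.prodMk_nhds (hKq q))
  have l1 : U' (K (1, 0)) = j.1 := by
    have h1 := ap (1, 0)
    simp only [j1] at h1
    rw [← euler1_ConvJet H' a0]
    exact tendsto_nhds_unique h1 tendsto_const_nhds
  have l2 : fderiv ℝ U' (K (1, 0)) (K (0, 1)) = j.2 := by
    have h1 := ap (0, 1)
    simp only [j2] at h1
    exact tendsto_nhds_unique h1 tendsto_const_nhds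
  have K0 : ∀ q, q ≠ 0 → K q ≠ 0 := fun q hq h0 => by
    rw [dec] at h0
    by_cases h2 : q.2 = 0
    · rw [h2, zero_smul, add_zero, smul_eq_zero] at h0
      exact hq (Prod.ext (h0.resolve_right a0) h2)
    · refine hj.2 (-(q.1 / q.2)) ?_
      rw [← l1, ← l2, ← euler_ConvJet H' a0]
      congr 1
      refine smul_right_injective _ h2 ?_
      simp only [smul_smul]
      rw [eq_neg_of_add_eq_zero_right h0, mul_neg, mul_div_cancel₀ _ h2, neg_smul]
  have Ki : Function.Injective K :=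
    (injective_iff_map_eq_zero K).2 fun q h0 => by_contra fun hq => K0 q hq h0
  have HK := hom_ConvJet H' K0
  refine ⟨ψ, U' ∘ K, hψ, ⟨HK.1, fun q hq => hU'.ne _ (K0 q hq), HK.2, fun q hq v => ?_⟩,
    ⟨fun q hq => ?_, fun q hq q' hq' e => Ki (hE.inj (K0 q hq) (K0 q' hq') e)⟩, ?_,
    conv_ConvJet (fun n => H (ψ n)) HK fun q hq => ?_⟩
  · rw [comp_ConvJet H' (K0 q hq)]
    simpa using hU'.hol _ (K0 q hq) (K v)
  · rw [comp_ConvJet H' (K0 q hq)]
    exact (hE.imm _ (K0 q hq)).comp Ki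
  · rw [jet, comp_ConvJet H' a0]
    exact Prod.ext l1 l2
  · have h1 : Tendsto (fun y : ℕ × W => k (ψ y.1)) (atTop ×ˢ 𝓝 q) (𝓝 K) := hK.comp tendsto_fst
    have h2 : Tendsto (fun y : ℕ × W => k (ψ y.1) y.2) (atTop ×ˢ 𝓝 q) (𝓝 (K q)) :=
      (isBoundedBilinearMap_apply.continuous.tendsto (_, _)).comp (h1.prodMk_nhds tendsto_snd)
    have h3 := lim_ConvJet HV H' hC (hψ.tendsto_atTop.comp tendsto_fst) h2 (K0 q hq)
    have h4 := ((ContinuousLinearMap.continuous_restrictScalars ℝ).tendsto K).comp h1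
    rw [comp_ConvJet H' (K0 q hq)]
    refine ((isBoundedBilinearMap_comp.continuous.tendsto (_, _)).comp
      (h3.prodMk_nhds h4)).congr' ?_
    filter_upwards [tendsto_snd.eventually (isOpen_compl_singleton.mem_nhds hq)] with y hy
    exact (hD _ _ hy).symm

end Pool.Agent.MP_2fc7fa_gt.N

end
end

section

/-! The Jacobian determinant is a null Lagrangian. -/

open scoped Topology
open Metric Set MeasureTheory Filter

noncomputable section

namespace Pool.Agent.MP_2fc7fa_gt.N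

variable {E : Type} [NormedAddCommGroup E] [NormedSpace ℝ E] [FiniteDimensional ℝ E]

lemma det_interp_Deg (t : Fin (Module.finrank ℝ E + 1) → ℝ) (ht : Function.Injective t) :
    ∃ c : Fin (Module.finrank ℝ E + 1) → ℝ, ∑ k, c k = 1 ∧ ∀ A : E →L[ℝ] E,
      (ContinuousLinearMap.id ℝ E + A).det
        = ∑ k, c k * (ContinuousLinearMap.id ℝ E + t k • A).det := by
  classical
  refine ⟨fun k => (Lagrange.basis Finset.univ t k).eval 1, ?_, ?_⟩
  · rw [← Polynomial.eval_finsetSum, Lagrange.sum_basis ht.injOn Finset.univ_nonempty]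
    simp
  · intro A
    let b := Module.finBasis ℝ E
    let M := LinearMap.toMatrix b b (A : E →ₗ[ℝ] E)
    let p : Polynomial ℝ := Matrix.det ((Polynomial.X : Polynomial ℝ) • M.map Polynomial.C
      + (1 : Matrix (Fin (Module.finrank ℝ E)) (Fin (Module.finrank ℝ E)) ℝ).map Polynomial.C)
    have hp : ∀ s : ℝ, p.eval s = (ContinuousLinearMap.id ℝ E + s • A).det := by
      intro s
      have h1 : p.eval s = (Polynomial.evalRingHom s) p := rfl
      rw [h1, RingHom.map_det, ContinuousLinearMap.det, ← LinearMap.det_toMatrix b]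
      congr 1
      ext i j
      simp [M, Matrix.one_apply, add_comm]
      split_ifs <;> simp [mul_comm]
    have hdeg : p.degree < (Finset.univ : Finset (Fin (Module.finrank ℝ E + 1))).card := by
      have h := Polynomial.natDegree_det_X_add_C_le M
        (1 : Matrix (Fin (Module.finrank ℝ E)) (Fin (Module.finrank ℝ E)) ℝ)
      rw [Fintype.card_fin] at h
      rw [Finset.card_univ, Fintype.card_fin]
      refine lt_of_le_of_lt Polynomial.degree_le_natDegree ?_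
      exact_mod_cast Nat.lt_succ_of_le h
    have h2 := Lagrange.eq_interpolate ht.injOn hdeg
    have h3 := hp 1
    rw [one_smul] at h3
    rw [← h3, h2, Lagrange.interpolate_apply, Polynomial.eval_finsetSum]
    refine Finset.sum_congr rfl fun k _ => ?_
    rw [Polynomial.eval_mul, Polynomial.eval_C, hp, mul_comm]

/-- The integral of the Jacobian of a compactly supported perturbation of the identity. -/
theorem int_det_Deg [MeasurableSpace E] [BorelSpace E] (μ : Measure E) [μ.IsAddHaarMeasure]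
    {R : ℝ} (g : E → E) (hg : ContDiff ℝ 1 g) (hs : HasCompactSupport g)
    (h0 : ∀ x, R ≤ ‖x‖ → g x = 0) :
    ∫ x in ball (0 : E) R, (ContinuousLinearMap.id ℝ E + fderiv ℝ g x).det ∂μ
      = μ.real (ball (0 : E) R) := by
  have := FiniteDimensional.complete ℝ E
  have := FiniteDimensional.proper_real E
  have hgd : Differentiable ℝ g := hg.differentiable one_ne_zero
  have hDg : Continuous (fderiv ℝ g) := hg.continuous_fderiv one_ne_zero
  obtain ⟨L0, hL0⟩ := hDg.bounded_above_of_compact_support (hs.fderiv ℝ)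
  set L := max L0 1 with hLdef
  have hL : ∀ x, ‖fderiv ℝ g x‖ ≤ L := fun x => le_trans (hL0 x) (le_max_left _ _)
  have hL1 : 1 ≤ L := le_max_right _ _
  obtain ⟨ε, hε, hdet⟩ : ∃ ε > 0, ∀ A : E →L[ℝ] E, ‖A‖ < ε →
      0 < (ContinuousLinearMap.id ℝ E + A).det := by
    have hc : Continuous fun A : E →L[ℝ] E => (ContinuousLinearMap.id ℝ E + A).det :=
      ContinuousLinearMap.continuous_det.comp (continuous_const.add continuous_id)
    have h0 : (0:ℝ) < (ContinuousLinearMap.id ℝ E + (0 : E →L[ℝ] E)).det := by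
      simp [ContinuousLinearMap.det]
    have := hc.continuousAt.eventually (lt_mem_nhds h0)
    obtain ⟨ε, hε, h⟩ := Metric.eventually_nhds_iff.mp this
    exact ⟨ε, hε, fun A hA => h (by simpa using hA)⟩
  set t0 : ℝ := min ε (1 / 2) / (2 * L) with ht0
  have hmin : 0 < min ε (1 / 2) := lt_min hε (by norm_num)
  have ht0pos : 0 < t0 := by positivity
  have ht0L : t0 * L = min ε (1 / 2) / 2 := by rw [ht0]; field_simp
  have key : ∀ t : ℝ, 0 < t → t ≤ t0 →
      ∫ x in ball (0:E) R, (ContinuousLinearMap.id ℝ E + t • fderiv ℝ g x).det ∂μ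
        = μ.real (ball (0:E) R) := by
    intro t ht htt
    have htL : t * L ≤ min ε (1 / 2) / 2 := by
      rw [← ht0L]; exact mul_le_mul_of_nonneg_right htt (by linarith)
    have hm1 := min_le_left ε (1 / 2)
    have hm2 := min_le_right ε (1 / 2)
    let f : E → E := fun x => x + t • g x
    have hfd : ∀ x, HasFDerivAt f (ContinuousLinearMap.id ℝ E + t • fderiv ℝ g x) x := fun x =>
      (hasFDerivAt_id x).add ((hgd x).hasFDerivAt.const_smul t)
    have happ : ApproximatesLinearOn f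
        ((ContinuousLinearEquiv.refl ℝ E : E ≃L[ℝ] E) : E →L[ℝ] E) univ (1 / 2) := by
      intro x _ y _
      have h1 := (convex_univ (𝕜 := ℝ) (E := E)).norm_image_sub_le_of_norm_fderiv_le
        (fun z _ => hgd z) (fun z _ => hL z) (mem_univ y) (mem_univ x)
      have h2 : f x - f y - ((ContinuousLinearEquiv.refl ℝ E : E ≃L[ℝ] E) : E →L[ℝ] E) (x - y)
          = t • (g x - g y) := by
        simp [f, smul_sub]
        abel
      rw [h2, norm_smul, Real.norm_of_nonneg ht.le]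
      have h3 := norm_nonneg (x - y)
      have : t * ‖g x - g y‖ ≤ t * (L * ‖x - y‖) := mul_le_mul_of_nonneg_left h1 ht.le
      push_cast
      nlinarith
    have hc : Subsingleton E ∨ (1 / 2 : NNReal)
        < ‖((ContinuousLinearEquiv.refl ℝ E : E ≃L[ℝ] E).symm : E →L[ℝ] E)‖₊⁻¹ := by
      rcases subsingleton_or_nontrivial E with h | h
      · exact Or.inl h
      · right
        simp
        norm_num
    have hinj : Function.Injective f := injOn_univ.1 (happ.injOn hc)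
    have hsurj : Function.Surjective f := happ.surjective hc
    have hout : ∀ x, x ∉ ball (0 : E) R → f x = x := fun x hx => by
      simp [f, h0 x (by simpa using hx)]
    have himg : f '' ball (0:E) R = ball (0:E) R := by
      refine Subset.antisymm ?_ fun y hy => ?_
      · rintro _ ⟨x, hx, rfl⟩
        by_contra hcon
        exact hcon (by rw [hinj (hout _ hcon)]; exact hx)
      · obtain ⟨x, rfl⟩ := hsurj y
        by_cases hx : x ∈ ball (0 : E) R
        · exact mem_image_of_mem _ hx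
        · rw [hout x hx] at hy
          exact absurd hy hx
    have hcv := integral_image_eq_integral_abs_det_fderiv_smul μ (measurableSet_ball (x := (0 : E))
      (ε := R)) (fun x _ => (hfd x).hasFDerivWithinAt) hinj.injOn (fun _ => (1:ℝ))
    rw [himg] at hcv
    simp only [integral_const, smul_eq_mul, mul_one, MeasurableSet.univ,
      measureReal_restrict_apply, univ_inter] at hcv
    rw [hcv]
    refine setIntegral_congr_fun measurableSet_ball fun x hx => ?_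
    refine (abs_of_pos (hdet _ ?_)).symm
    rw [norm_smul, Real.norm_of_nonneg ht.le]
    have := mul_le_mul_of_nonneg_left (hL x) ht.le
    linarith
  let t : Fin (Module.finrank ℝ E + 1) → ℝ := fun k => t0 / (k.val + 1)
  have ht : Function.Injective t := by
    intro k l hkl
    have h1 : (k.val : ℝ) + 1 = l.val + 1 := by
      have hk : (0:ℝ) < k.val + 1 := by positivity
      have hl : (0:ℝ) < l.val + 1 := by positivity
      simp only [t] at hkl
      rw [div_eq_div_iff hk.ne' hl.ne'] at hkl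
      exact (mul_left_cancel₀ ht0pos.ne' hkl).symm
    have h2 : (k.val : ℝ) = l.val := by linarith
    exact Fin.ext (by exact_mod_cast h2)
  obtain ⟨c, hc1, hc2⟩ := det_interp_Deg t ht
  have hint : ∀ s : ℝ, IntegrableOn
      (fun x => (ContinuousLinearMap.id ℝ E + s • fderiv ℝ g x).det) (ball (0:E) R) μ := by
    intro s
    have hc : Continuous fun x => (ContinuousLinearMap.id ℝ E + s • fderiv ℝ g x).det :=
      ContinuousLinearMap.continuous_det.comp (continuous_const.add (hDg.const_smul s))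
    exact (hc.continuousOn.integrableOn_compact (isCompact_closedBall (0:E) R)).mono_set
      ball_subset_closedBall
  have e : (fun x => (ContinuousLinearMap.id ℝ E + fderiv ℝ g x).det) = fun x =>
      ∑ k, c k * (ContinuousLinearMap.id ℝ E + t k • fderiv ℝ g x).det :=
    funext fun x => hc2 _
  rw [e, integral_finsetSum _ (fun k _ => (hint (t k)).const_mul (c k))]
  have : ∀ k, ∫ x in ball (0:E) R, c k * (ContinuousLinearMap.id ℝ E + t k • fderiv ℝ g x).det ∂μ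
      = c k * μ.real (ball (0:E) R) := by
    intro k
    rw [integral_const_mul, key (t k) (by positivity)]
    exact div_le_self ht0pos.le (by linarith [Nat.cast_nonneg (α := ℝ) k.val])
  simp only [this]
  rw [← Finset.sum_mul, hc1, one_mul]

/-- Two `C¹` maps that agree outside a compact set have the same integral of the Jacobian. -/
theorem null_lag_Deg [MeasurableSpace E] [BorelSpace E] (μ : Measure E) [μ.IsAddHaarMeasure]
    (A B : E → E) (hA : ContDiff ℝ 1 A) (hB : ContDiff ℝ 1 B) {S : Set E} (hS : IsCompact S)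
    (h : ∀ x, x ∉ S → A x = B x) :
    ∫ x, ((fderiv ℝ A x).det - (fderiv ℝ B x).det) ∂μ = 0 := by
  have := FiniteDimensional.proper_real E
  obtain ⟨R, hR, hSR⟩ := hS.isBounded.subset_ball_lt 0 (0 : E)
  let χ : ContDiffBump (0 : E) := ⟨R, 2 * R, hR, by linarith⟩
  have hz : ∀ (G : E → E) x, 2 * R ≤ ‖x‖ → χ x • (G x - x) = 0 := fun G x hx => by
    rw [χ.zero_of_le_dist (by simpa using hx), zero_smul]
  have hcd : ∀ {G : E → E}, ContDiff ℝ 1 G → ContDiff ℝ 1 fun x => χ x • (G x - x) := fun hG =>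
    χ.contDiff.smul (hG.sub contDiff_id)
  have hI : ∀ {G : E → E}, ContDiff ℝ 1 G →
      ∫ x in ball (0 : E) (2 * R), (ContinuousLinearMap.id ℝ E +
        fderiv ℝ (fun x => χ x • (G x - x)) x).det ∂μ = μ.real (ball (0 : E) (2 * R)) := fun hG =>
    int_det_Deg μ _ (hcd hG) χ.hasCompactSupport.smul_right (hz _)
  have hint : ∀ {G : E → E}, ContDiff ℝ 1 G → IntegrableOn (fun x => (ContinuousLinearMap.id ℝ E +
      fderiv ℝ (fun x => χ x • (G x - x)) x).det) (ball (0 : E) (2 * R)) μ := fun hG =>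
    ((ContinuousLinearMap.continuous_det.comp (continuous_const.add
      ((hcd hG).continuous_fderiv one_ne_zero))).continuousOn.integrableOn_compact
      (isCompact_closedBall (0 : E) (2 * R))).mono_set ball_subset_closedBall
  have hin : ∀ {G : E → E}, ContDiff ℝ 1 G → ∀ x ∈ S, ContinuousLinearMap.id ℝ E +
      fderiv ℝ (fun x => χ x • (G x - x)) x = fderiv ℝ G x := by
    intro G hG x hx
    have e : (fun x => χ x • (G x - x)) =ᶠ[𝓝 x] fun x => G x - x := by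
      filter_upwards [isOpen_ball.mem_nhds (hSR hx)] with y hy
      rw [χ.one_of_mem_closedBall (ball_subset_closedBall hy), one_smul]
    have e' : HasFDerivAt (fun x => G x - x) (fderiv ℝ G x - ContinuousLinearMap.id ℝ E) x :=
      (hG.differentiable one_ne_zero x).hasFDerivAt.sub (hasFDerivAt_id x)
    rw [e.fderiv_eq, e'.fderiv]
    abel
  have hout : ∀ x, x ∉ S → A =ᶠ[𝓝 x] B := fun x hx => by
    filter_upwards [hS.isClosed.isOpen_compl.mem_nhds hx] with y hy using h y hy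
  rw [← setIntegral_eq_integral_of_forall_compl_eq_zero (s := ball (0 : E) (2 * R))]
  · rw [← sub_self (μ.real (ball (0 : E) (2 * R)))]
    conv_rhs => enter [1]; rw [← hI hA]
    conv_rhs => enter [2]; rw [← hI hB]
    rw [← integral_sub (hint hA) (hint hB)]
    refine setIntegral_congr_fun measurableSet_ball fun x _ => ?_
    by_cases hx : x ∈ S
    · simp only [hin hA x hx, hin hB x hx]
    · have e : (fun x => χ x • (A x - x)) =ᶠ[𝓝 x] fun x => χ x • (B x - x) := by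
        filter_upwards [hout x hx] with y hy
        rw [hy]
      simp only [(hout x hx).fderiv_eq, e.fderiv_eq, sub_self]
  · intro x hx
    rw [(hout x fun hx' => hx (ball_subset_ball (by linarith) (hSR hx'))).fderiv_eq, sub_self]

/-- A map whose Jacobian is a bump function. -/
theorem theta_Deg {δ : ℝ} (hδ : 0 < δ) : ∃ Θ : E → E, ContDiff ℝ 1 Θ ∧
    (∀ y, 0 ≤ (fderiv ℝ Θ y).det) ∧ (∀ y, δ ≤ ‖y‖ → (fderiv ℝ Θ y).det = 0) ∧
    0 < (fderiv ℝ Θ 0).det := by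
  classical
  let b := Module.finBasis ℝ E
  let e := b.equivFunL
  obtain ⟨C, hC, hCe⟩ := (e.symm : (Fin (Module.finrank ℝ E) → ℝ) →L[ℝ] E).bound
  let a : ℝ → ℝ := fun s => max 0 (δ / (2 * C) - |s|)
  have ha : Continuous a := by fun_prop
  let α : ℝ → ℝ := fun t => ∫ s in (0 : ℝ)..t, a s
  have hα : ∀ t, HasDerivAt α (a t) t := fun t => (ha.integral_hasStrictDerivAt 0 t).hasDerivAt
  have hα1 : ContDiff ℝ 1 α := by
    rw [contDiff_one_iff_deriv]
    refine ⟨fun t => (hα t).differentiableAt, ?_⟩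
    rw [show deriv α = a from funext fun t => (hα t).deriv]
    exact ha
  have hdet : ∀ y, (fderiv ℝ (fun y => e.symm fun i => α (e y i)) y).det = ∏ i, a (e y i) := by
    intro y
    have h1 : HasFDerivAt (fun y => e.symm fun i => α (e y i))
        ((e.symm : (Fin (Module.finrank ℝ E) → ℝ) →L[ℝ] E).comp (ContinuousLinearMap.pi fun i =>
          a (e y i) • (ContinuousLinearMap.proj i).comp
            (e : E →L[ℝ] (Fin (Module.finrank ℝ E) → ℝ)))) y :=
      e.symm.hasFDerivAt.comp y (hasFDerivAt_pi.2 fun i => (hα (e y i)).comp_hasFDerivAt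
        (f := fun y => e y i) y ((ContinuousLinearMap.proj (R := ℝ) i).comp
          (e : E →L[ℝ] (Fin (Module.finrank ℝ E) → ℝ))).hasFDerivAt)
    rw [h1.fderiv, ContinuousLinearMap.det, ← LinearMap.det_toMatrix b, ← Matrix.det_diagonal]
    congr 1
    ext i j
    have h2 : ∀ v, b.repr (e.symm v) i = v i := fun v => congrFun (e.apply_symm_apply v) i
    have h3 : e (b j) i = if i = j then 1 else 0 := by
      simp [e, Finsupp.single_apply, eq_comm]
    simp [LinearMap.toMatrix_apply, Matrix.diagonal_apply, h2, h3]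
  refine ⟨fun y => e.symm fun i => α (e y i), e.symm.contDiff.comp (contDiff_pi.2 fun i =>
    hα1.comp ((contDiff_apply ℝ ℝ i).comp e.contDiff)), fun y => ?_, fun y hy => ?_, ?_⟩
  · rw [hdet]
    exact Finset.prod_nonneg fun i _ => le_max_left _ _
  · rw [hdet]
    by_contra hne
    have h1 : ‖e y‖ ≤ δ / (2 * C) := by
      refine (pi_norm_le_iff_of_nonneg (by positivity)).2 fun i => ?_
      by_contra hcon
      refine hne (Finset.prod_eq_zero (Finset.mem_univ i) (max_eq_left ?_))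
      rw [Real.norm_eq_abs] at hcon
      linarith
    have h2 := hCe (e y)
    simp only [ContinuousLinearEquiv.coe_coe, ContinuousLinearEquiv.symm_apply_apply] at h2
    have h3 : C * ‖e y‖ ≤ C * (δ / (2 * C)) := mul_le_mul_of_nonneg_left h1 hC.le
    have h4 : C * (δ / (2 * C)) = δ / 2 := by field_simp
    linarith
  · rw [hdet]
    refine Finset.prod_pos fun i _ => lt_max_of_lt_right ?_
    simp
    positivity

end Pool.Agent.MP_2fc7fa_gt.N

end
end

section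

/-! Degree theory: positivity of the degree. -/

open scoped Topology Manifold
open Metric Set MeasureTheory Filter

noncomputable section

namespace Pool.Agent.MP_2fc7fa_gt.N

section

variable {E : Type} [NormedAddCommGroup E] [NormedSpace ℝ E] [FiniteDimensional ℝ E]

lemma lin_close_Deg {g : E → E} {L : E →L[ℝ] E} {x : E} (hL : 0 < L.det) (h0 : g x = 0)
    (hd : HasFDerivAt g L x) : ∀ᶠ y in 𝓝 x, ‖L (y - x) - g y‖ ≤ ‖g y‖ / 2 := by
  have hinj : Function.Injective L := by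
    have hu : IsUnit (L : E →ₗ[ℝ] E) :=
      (LinearMap.isUnit_iff_isUnit_det _).mpr (isUnit_iff_ne_zero.mpr hL.ne')
    exact ((Module.End.isUnit_iff _).mp hu).1
  obtain ⟨C, hC, hanti⟩ := (L : E →ₗ[ℝ] E).exists_antilipschitzWith (LinearMap.ker_eq_bot.2 hinj)
  have hC' : (0 : ℝ) < C := hC
  filter_upwards [hd.isLittleO.bound (c := 1 / (3 * C)) (by positivity)] with y hy
  have h1 : ‖y - x‖ ≤ C * ‖L (y - x)‖ := by simpa using hanti.le_mul_dist (y - x) 0
  rw [h0, sub_zero] at hy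
  have h2 : ‖g y - L (y - x)‖ ≤ ‖L (y - x)‖ / 3 := by
    refine hy.trans ((mul_le_mul_of_nonneg_left h1 (by positivity)).trans (le_of_eq ?_))
    field_simp
  have h3 := norm_sub_norm_le (L (y - x)) (g y)
  rw [norm_sub_rev] at h2
  linarith

omit [NormedSpace ℝ E] [FiniteDimensional ℝ E] in
lemma const_close_Deg {g : E → E} {K : Set E} {x : E} (hg : ContinuousWithinAt g K x)
    (h0 : g x ≠ 0) : ∀ᶠ y in 𝓝 x, y ∈ K → ‖g x - g y‖ ≤ ‖g y‖ / 2 := by
  rw [← eventually_nhdsWithin_iff]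
  have h1 : ContinuousWithinAt (fun y => ‖g y‖ / 2 - ‖g x - g y‖) K x :=
    (hg.norm.div_const 2).sub (continuousWithinAt_const.sub hg).norm
  have h2 : 0 < ‖g x‖ / 2 - ‖g x - g x‖ := by simpa using h0
  filter_upwards [h1.eventually (lt_mem_nhds h2)] with y hy
  linarith

theorem core_Deg {K S : Set E} {g g' : E → E} (hK : IsCompact K) (hS : IsCompact S)
    (hSK : S ⊆ interior K) (hg : ContinuousOn g K) (hg' : ContinuousOn g' K)
    (he : ∀ x ∈ K, x ∉ interior S → g x = g' x) (hne : ∀ x ∈ K, g x ≠ 0)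
    (hf : {x ∈ K | g' x = 0}.Finite) (hn : {x ∈ K | g' x = 0}.Nonempty)
    (hd : ∀ x ∈ K, g' x = 0 → ∃ L : E →L[ℝ] E, 0 < L.det ∧ HasFDerivAt g' L x) : False := by
  classical
  borelize E
  set Z := {x ∈ K | g' x = 0} with hZ
  choose! L hL hLd using hd
  have hZS : ∀ z ∈ Z, z ∈ interior S := fun z hz => by
    by_contra h
    exact hne z hz.1 ((he z hz.1 h).trans hz.2)
  obtain ⟨r, hr1, hr⟩ : ∃ r : ℝ, (∀ z ∈ Z, (∀ y ∈ ball z (2 * r), y ∈ interior S ∧
      ‖L z (y - z) - g' y‖ ≤ ‖g' y‖ / 2) ∧ ∀ z' ∈ Z, z ≠ z' → 3 * r < dist z z') ∧ 0 < r := by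
    refine ((hf.eventually_all.2 fun z hz => Eventually.and ?_
      (hf.eventually_all.2 fun z' _ => ?_)).and
      (self_mem_nhdsWithin (s := Ioi (0 : ℝ)) (a := 0))).exists
    · obtain ⟨ε, hε, h⟩ := Metric.eventually_nhds_iff_ball.1
        ((isOpen_interior.eventually_mem (hZS z hz)).and
          (lin_close_Deg (hL z hz.1 hz.2) hz.2 (hLd z hz.1 hz.2)))
      filter_upwards [nhdsWithin_le_nhds (gt_mem_nhds (half_pos hε))] with r hr y hy
      exact h y (ball_subset_ball (by linarith) hy)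
    · by_cases h : z = z'
      · exact Eventually.of_forall fun r h' => absurd h h'
      · have : 0 < dist z z' / 3 := by have := dist_pos.2 h; linarith
        filter_upwards [nhdsWithin_le_nhds (gt_mem_nhds this)] with r hr _
        linarith
  obtain ⟨G, hG⟩ := exists_contMDiffMap_forall_mem_convex_of_local (n := 1) 𝓘(ℝ, E)
    (t := fun x : E => {pq : E × E | (x ∈ K → ‖pq.1 - g' x‖ ≤ ‖g' x‖ / 2 ∧
      ‖pq.2 - g x‖ ≤ ‖g x‖ / 2) ∧ (∀ z ∈ Z, x ∈ ball z r → pq.1 = L z (x - z)) ∧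
      (x ∉ S → pq.1 = pq.2)}) (by
      intro x p hp q hq a b ha hb hab
      refine ⟨fun hx => ⟨?_, ?_⟩, fun z hz hx => ?_, fun hx => ?_⟩
      · exact mem_closedBall_iff_norm.1 (convex_closedBall _ _
          (mem_closedBall_iff_norm.2 (hp.1 hx).1) (mem_closedBall_iff_norm.2 (hq.1 hx).1) ha hb hab)
      · exact mem_closedBall_iff_norm.1 (convex_closedBall _ _
          (mem_closedBall_iff_norm.2 (hp.1 hx).2) (mem_closedBall_iff_norm.2 (hq.1 hx).2) ha hb hab)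
      · change a • p.1 + b • q.1 = _
        rw [hp.2.1 z hz hx, hq.2.1 z hz hx, ← add_smul, hab, one_smul]
      · change a • p.1 + b • q.1 = a • p.2 + b • q.2
        rw [hp.2.2 hx, hq.2.2 hx]) (by
      intro x
      by_cases hx : x ∈ K
      · have h2 := const_close_Deg (hg x hx) (hne x hx)
        by_cases hb : ∃ z ∈ Z, x ∈ ball z (2 * r)
        · obtain ⟨z, hz, hxz⟩ := hb
          refine ⟨_, h2.and (isOpen_ball.eventually_mem hxz), fun y => (L z (y - z), g x), ?_,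
            fun y hy => ⟨fun hyK => ⟨((hr1 z hz).1 y hy.2).2, hy.1 hyK⟩, fun z' hz' hy' => ?_,
              fun hyS => absurd (interior_subset ((hr1 z hz).1 y hy.2).1) hyS⟩⟩
          · exact (by fun_prop : ContDiff ℝ 1 fun y => (L z (y - z), g x)).contMDiff.contMDiffOn
          · by_cases h : z = z'
            · rw [h]
            · have := (hr1 z hz).2 z' hz' h
              have h3 := dist_triangle_left z z' y
              have h4 := mem_ball.1 hy.2
              have h5 := mem_ball.1 hy'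
              linarith
        · push Not at hb
          have h3 := const_close_Deg (hg' x hx) fun h => hb x ⟨hx, h⟩ (mem_ball_self (by linarith))
          have h4 : ∀ᶠ y in 𝓝 x, ∀ z ∈ Z, y ∉ closedBall z r := hf.eventually_all.2 fun z hz =>
            isClosed_closedBall.isOpen_compl.eventually_mem fun h =>
              hb z hz (closedBall_subset_ball (by linarith) h)
          have h5 : ∀ᶠ y in 𝓝 x, y ∉ S → g' x = g x := by
            by_cases h : x ∈ interior S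
            · filter_upwards [isOpen_interior.mem_nhds h] with y hy hy'
              exact absurd (interior_subset hy) hy'
            · exact Eventually.of_forall fun _ _ => (he x hx h).symm
          exact ⟨_, h2.and (h3.and (h4.and h5)), fun _ => (g' x, g x), contMDiffOn_const,
            fun y hy => ⟨fun hyK => ⟨hy.2.1 hyK, hy.1 hyK⟩,
              fun z hz hy' => absurd (ball_subset_closedBall hy') (hy.2.2.1 z hz), hy.2.2.2⟩⟩
      · refine ⟨Kᶜ, hK.isClosed.isOpen_compl.mem_nhds hx, fun _ => 0, contMDiffOn_const,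
          fun y hy => ⟨fun h => absurd h hy, fun z hz hy' => absurd ?_ hy, fun _ => rfl⟩⟩
        exact interior_subset (hSK (interior_subset ((hr1 z hz).1 y
          (ball_subset_ball (by linarith) hy')).1)))
  have hGc : ContDiff ℝ 1 G := G.contMDiff.contDiff
  obtain ⟨m, hm, hm'⟩ := hK.exists_forall_le' (f := fun x => ‖g x‖) (a := 0) hg.norm
    fun x hx => norm_pos_iff.2 (hne x hx)
  obtain ⟨m', hm1, hm1'⟩ := (hK.diff (isOpen_biUnion fun z (_ : z ∈ Z) =>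
    isOpen_ball (x := z) (ε := r))).exists_forall_le' (f := fun x => ‖g' x‖) (a := 0)
    (hg'.mono sdiff_subset).norm fun x hx => norm_pos_iff.2 fun h =>
      hx.2 (mem_biUnion (show x ∈ Z from ⟨hx.1, h⟩) (mem_ball_self hr))
  obtain ⟨Θ, hΘ, hΘ0, hΘ1, hΘ2⟩ := theta_Deg (E := E) (half_pos (lt_min hm hm1))
  have hA : ContDiff ℝ 1 fun x => Θ (G x).1 := hΘ.comp hGc.fst
  have hB : ContDiff ℝ 1 fun x => Θ (G x).2 := hΘ.comp hGc.snd
  have hAB : ∀ x, x ∉ S → Θ (G x).1 = Θ (G x).2 := fun x hx => by rw [(hG x).2.2 hx]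
  have hI := null_lag_Deg Measure.addHaar _ _ hA hB hS hAB
  have hdet : ∀ {p : E → E}, ContDiff ℝ 1 p → ∀ x, (fderiv ℝ (fun x => Θ (p x)) x).det =
      (fderiv ℝ Θ (p x)).det * (fderiv ℝ p x).det := by
    intro p hp x
    rw [fderiv_fun_comp x (hΘ.differentiable one_ne_zero _) (hp.differentiable one_ne_zero _)]
    exact LinearMap.det_comp _ _
  have hB0 : ∀ x ∈ K, (fderiv ℝ (fun x => Θ (G x).2) x).det = 0 := by
    intro x hx
    rw [hdet hGc.snd, hΘ1, zero_mul]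
    have h1 := ((hG x).1 hx).2
    have h2 := norm_sub_norm_le (g x) (G x).2
    have h3 := hm' x hx
    have h4 := min_le_left m m'
    rw [norm_sub_rev] at h1
    linarith
  have hball : ∀ z ∈ Z, ∀ x ∈ ball z r, fderiv ℝ (fun x => (G x).1) x = L z := by
    intro z hz x hx
    have e : (fun x => (G x).1) =ᶠ[𝓝 x] fun x => L z (x - z) := by
      filter_upwards [isOpen_ball.mem_nhds hx] with y hy using (hG y).2.1 z hz hy
    have e' : HasFDerivAt (fun x => L z (x - z)) (L z) x :=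
      (L z).hasFDerivAt.comp x ((hasFDerivAt_id x).sub_const z)
    rw [e.fderiv_eq, e'.fderiv]
  have hout : ∀ x, x ∉ S →
      (fderiv ℝ (fun x => Θ (G x).1) x).det - (fderiv ℝ (fun x => Θ (G x).2) x).det = 0 := by
    intro x hx
    have e : (fun x => Θ (G x).1) =ᶠ[𝓝 x] fun x => Θ (G x).2 := by
      filter_upwards [hS.isClosed.isOpen_compl.mem_nhds hx] with y hy using hAB y hy
    rw [e.fderiv_eq, sub_self]
  obtain ⟨z, hz⟩ := hn
  refine (Continuous.integral_pos_of_hasCompactSupport_nonneg_nonzero (x := z) ?_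
    (HasCompactSupport.intro hS hout) (fun x => ?_) ?_).ne' hI
  · exact (ContinuousLinearMap.continuous_det.comp (hA.continuous_fderiv one_ne_zero)).sub
      (ContinuousLinearMap.continuous_det.comp (hB.continuous_fderiv one_ne_zero))
  · by_cases hx : x ∈ S
    · have hxK := interior_subset (hSK hx)
      simp only [Pi.zero_apply]
      rw [hB0 x hxK, sub_zero, hdet hGc.fst]
      by_cases hb : x ∈ ⋃ z ∈ Z, ball z r
      · obtain ⟨z, hz, hxz⟩ := mem_iUnion₂.1 hb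
        rw [hball z hz x hxz]
        exact mul_nonneg (hΘ0 _) (hL z hz.1 hz.2).le
      · rw [hΘ1, zero_mul]
        have h1 := ((hG x).1 hxK).1
        have h2 := norm_sub_norm_le (g' x) (G x).1
        have h3 := hm1' x ⟨hxK, hb⟩
        have h4 := min_le_right m m'
        rw [norm_sub_rev] at h1
        linarith
    · exact (hout x hx).ge
  · rw [hB0 z hz.1, sub_zero, hdet hGc.fst, hball z hz z (mem_ball_self hr),
      (hG z).2.1 z hz (mem_ball_self hr), sub_self, map_zero]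
    exact (mul_pos hΘ2 (hL z hz.1 hz.2)).ne'

/-- Positivity of the degree, real version. -/
theorem degReal (K : Set E) (H : ℝ → E → E) (hK : IsCompact K)
    (hH : ContinuousOn (fun a : ℝ × E => H a.1 a.2) (Icc 0 1 ×ˢ K))
    (hfr : ∀ s ∈ Icc (0 : ℝ) 1, ∀ x ∈ frontier K, H s x ≠ 0)
    (hf : {x ∈ K | H 1 x = 0}.Finite) (hn : {x ∈ K | H 1 x = 0}.Nonempty)
    (hd : ∀ x ∈ K, H 1 x = 0 → ∃ L : E →L[ℝ] E, 0 < L.det ∧ HasFDerivAt (H 1) L x) :
    ∃ x ∈ K, H 0 x = 0 := by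
  have := FiniteDimensional.proper_real E
  by_contra hcon
  push Not at hcon
  have hZ : IsCompact (Prod.snd '' ((Icc (0 : ℝ) 1 ×ˢ K) ∩ (fun a : ℝ × E => H a.1 a.2) ⁻¹' {0})) :=
    ((isCompact_Icc.prod hK).of_isClosed_subset (hH.preimage_isClosed_of_isClosed
      (isCompact_Icc.prod hK).isClosed isClosed_singleton) inter_subset_left).image continuous_snd
  obtain ⟨S, hS, hZS, hSK⟩ := exists_compact_between hZ isOpen_interior (U := interior K) (by
    rintro _ ⟨a, ha, rfl⟩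
    by_contra h
    exact hfr a.1 ha.1.1 a.2 ⟨subset_closure ha.1.2, h⟩ ha.2)
  obtain ⟨l, hl0, hl1, hl⟩ := exists_continuous_zero_one_of_isClosed hZ.isClosed
    (isOpen_interior (s := S)).isClosed_compl (disjoint_compl_right_iff_subset.2 hZS)
  refine core_Deg (g := fun x => H (l x) x) hK hS hSK
    (hH.comp (l.continuous.prodMk continuous_id).continuousOn fun x hx => ⟨hl x, hx⟩)
    (hH.comp (continuous_const.prodMk continuous_id).continuousOn
      fun x hx => ⟨⟨zero_le_one, le_rfl⟩, hx⟩) (fun x _ hx => ?_) (fun x hx h => ?_) hf hn hd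
  · rw [hl1 hx]; rfl
  · have h0 : l x = 0 := hl0 ⟨(l x, x), ⟨⟨hl x, hx⟩, h⟩, rfl⟩
    rw [h0] at h
    exact hcon x hx h

end

theorem deg : DegStmt := by
  intro E _ _ _ K H hK hH hfr hf hn hd
  have : FiniteDimensional ℝ E := Module.Finite.trans ℂ E
  refine degReal K H hK hH hfr hf hn fun x hx h => ?_
  obtain ⟨L, hL⟩ := hd x hx h
  refine ⟨_, ?_, hL⟩
  have e : ((L : E →L[ℂ] E).restrictScalars ℝ).det =
      Algebra.norm ℝ (LinearMap.det (L.toLinearEquiv : E →ₗ[ℂ] E)) :=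
    LinearMap.det_restrictScalars
  rw [e, Algebra.norm_complex_apply]
  exact Complex.normSq_pos.2 L.toLinearEquiv.isUnit_det'.ne_zero

end Pool.Agent.MP_2fc7fa_gt.N

end
end

section

/-! Energy of curves, part A: the primitive of the symplectic form and the taming bound. -/

open scoped ContDiff ComplexConjugate Topology
open Set Complex Filter Metric MeasureTheory

noncomputable section

namespace Pool.Agent.MP_2fc7fa_gt.N

/-- A one-form at a point as a linear map. -/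
def lin_EnLine : (V [⋀^Fin 1]→L[ℝ] ℝ) →L[ℝ] V →L[ℝ] ℝ :=
  (ContinuousAlternatingMap.ofSubsingletonLIE (𝕜 := ℝ) (E := V) (F := ℝ)
    (0 : Fin 1)).symm.toContinuousLinearEquiv.toContinuousLinearMap

/-- A two-form at a point as a bilinear map. -/
def bil_EnLine : (V [⋀^Fin 2]→L[ℝ] ℝ) →L[ℝ] V →L[ℝ] V →L[ℝ] ℝ :=
  (ContinuousLinearMap.compL ℝ V _ _ lin_EnLine) ∘L
    (ContinuousAlternatingMap.curryLeftLI (n := 1)).toContinuousLinearMap

lemma lin_apply_EnLine (φ : V [⋀^Fin 1]→L[ℝ] ℝ) (u : V) : lin_EnLine φ u = φ ![u] := by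
  change φ (fun _ => u) = _
  congr 1
  ext1 i
  fin_cases i
  rfl

lemma bil_apply_EnLine (φ : V [⋀^Fin 2]→L[ℝ] ℝ) (u v : V) : bil_EnLine φ u v = φ ![u, v] := by
  change lin_EnLine (φ.curryLeft u) v = _
  rw [lin_apply_EnLine]
  rfl

lemma eq_lin_EnLine (φ : V [⋀^Fin 1]→L[ℝ] ℝ) (v : Fin 1 → V) : φ v = lin_EnLine φ (v 0) := by
  rw [lin_apply_EnLine]
  congr 1
  ext1 i
  fin_cases i
  rfl

lemma bil_self_EnLine (φ : V [⋀^Fin 2]→L[ℝ] ℝ) (u : V) : bil_EnLine φ u u = 0 := by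
  rw [bil_apply_EnLine]
  exact φ.map_eq_zero_of_eq _ (i := 0) (j := 1) rfl (by decide)

lemma bil_skew_EnLine (φ : V [⋀^Fin 2]→L[ℝ] ℝ) (u v : V) :
    bil_EnLine φ u v = -bil_EnLine φ v u := by
  have h := bil_self_EnLine φ (u + v)
  simp only [map_add, add_apply, bil_self_EnLine] at h
  linarith

lemma bil_extDeriv_EnLine (β : Form 1) (z u v : V) :
    bil_EnLine (extDeriv β z) u v =
      lin_EnLine (fderiv ℝ β z u) v - lin_EnLine (fderiv ℝ β z v) u := by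
  rw [bil_apply_EnLine, extDeriv, ContinuousAlternatingMap.alternatizeUncurryFin_apply]
  simp [Fin.sum_univ_two, eq_lin_EnLine, Fin.removeNth, sub_eq_add_neg]

/-- The Hermitian product. -/
def her_EnLine (y u : V) : ℂ := ∑ j, conj (y j) * u j

/-- The squared Euclidean norm. -/
def nn_EnLine (z : V) : ℝ := ∑ j, ‖z j‖ ^ 2

/-- The component of `v` along `x`. -/
def lam_EnLine (x v : V) : ℂ := ((nn_EnLine x)⁻¹ : ℝ) * her_EnLine x v

/-- The component of `v` orthogonal to `x`. -/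
def perp_EnLine (x v : V) : V := v - lam_EnLine x v • x

/-- The inverse of the Euclidean norm. -/
def rr_EnLine (x : V) : ℝ := Real.exp (-(1 / 2) * Real.log (nn_EnLine x))

/-- The projective length of the tangent vector `v` at `x`. -/
def sp_EnLine (x v : V) : ℝ := rr_EnLine x * ‖perp_EnLine x v‖

lemma her_smul_EnLine (c : ℂ) (y u : V) : her_EnLine (c • y) u = conj c * her_EnLine y u := by
  simp [her_EnLine, Finset.mul_sum, mul_assoc]

lemma her_smul'_EnLine (c : ℂ) (y u : V) : her_EnLine y (c • u) = c * her_EnLine y u := by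
  simp [her_EnLine, Finset.mul_sum, mul_left_comm]

lemma her_sub_EnLine (y u w : V) : her_EnLine y (u - w) = her_EnLine y u - her_EnLine y w := by
  simp [her_EnLine, mul_sub]

lemma her_self_EnLine (z : V) : her_EnLine z z = nn_EnLine z := by
  simp [her_EnLine, nn_EnLine, Complex.conj_mul']

lemma nn_pos_EnLine {z : V} (hz : z ≠ 0) : 0 < nn_EnLine z := by
  obtain ⟨j, hj⟩ := Function.ne_iff.1 hz
  exact Finset.sum_pos' (fun _ _ => sq_nonneg _)
    ⟨j, Finset.mem_univ _, pow_pos (norm_pos_iff.2 hj) 2⟩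

lemma nn_smul_EnLine (c : ℂ) (z : V) : nn_EnLine (c • z) = ‖c‖ ^ 2 * nn_EnLine z := by
  simp [nn_EnLine, Finset.mul_sum, mul_pow]

lemma nn_le_EnLine (z : V) : nn_EnLine z ≤ 3 * ‖z‖ ^ 2 := by
  have h : ∀ j, ‖z j‖ ^ 2 ≤ ‖z‖ ^ 2 := fun j => by
    gcongr
    exact norm_le_pi_norm z j
  have := h 0
  have := h 1
  have := h 2
  simp only [nn_EnLine, Fin.sum_univ_three]
  linarith

lemma le_nn_EnLine (z : V) : ‖z‖ ^ 2 ≤ nn_EnLine z := by
  have h0 : 0 ≤ nn_EnLine z := Finset.sum_nonneg fun _ _ => sq_nonneg _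
  rw [← Real.le_sqrt (norm_nonneg _) h0]
  refine (pi_norm_le_iff_of_nonneg (Real.sqrt_nonneg _)).2 fun j => ?_
  rw [Real.le_sqrt (norm_nonneg _) h0]
  exact Finset.single_le_sum (f := fun j => ‖z j‖ ^ 2) (fun _ _ => sq_nonneg _)
    (Finset.mem_univ j)

lemma rr_pos_EnLine (x : V) : 0 < rr_EnLine x := Real.exp_pos _

lemma rr_sq_EnLine {x : V} (hx : x ≠ 0) : rr_EnLine x ^ 2 * nn_EnLine x = 1 := by
  have h := nn_pos_EnLine hx
  rw [rr_EnLine, ← Real.exp_nat_mul]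
  nth_rewrite 2 [← Real.exp_log h]
  rw [← Real.exp_add, Real.exp_eq_one_iff]
  push_cast
  ring

lemma rr_le_EnLine {x : V} (hx : x ≠ 0) : rr_EnLine x * ‖x‖ ≤ 1 := by
  have h1 := rr_sq_EnLine hx
  have h2 := le_nn_EnLine x
  have h3 : (rr_EnLine x * ‖x‖) ^ 2 ≤ 1 ^ 2 := by
    rw [mul_pow, one_pow, ← h1]
    gcongr
  exact (pow_le_pow_iff_left₀ (mul_nonneg (rr_pos_EnLine x).le (norm_nonneg _)) zero_le_one
    two_ne_zero).1 h3

lemma le_rr_EnLine {x : V} (hx : x ≠ 0) : 1 / 2 ≤ rr_EnLine x * ‖x‖ := by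
  have h1 := rr_sq_EnLine hx
  have h2 := nn_le_EnLine x
  have h3 : (1 / 2 : ℝ) ^ 2 ≤ (rr_EnLine x * ‖x‖) ^ 2 := by
    have := mul_le_mul_of_nonneg_left h2 (sq_nonneg (rr_EnLine x))
    rw [mul_pow]
    nlinarith
  exact (pow_le_pow_iff_left₀ (by norm_num) (mul_nonneg (rr_pos_EnLine x).le (norm_nonneg _))
    two_ne_zero).1 h3

lemma sp_nonneg_EnLine (x v : V) : 0 ≤ sp_EnLine x v :=
  mul_nonneg (rr_pos_EnLine x).le (norm_nonneg _)

lemma her_perp_EnLine {x : V} (hx : x ≠ 0) (v : V) : her_EnLine x (perp_EnLine x v) = 0 := by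
  have h : (nn_EnLine x : ℂ) ≠ 0 := by exact_mod_cast (nn_pos_EnLine hx).ne'
  rw [perp_EnLine, her_sub_EnLine, her_smul'_EnLine, her_self_EnLine, lam_EnLine]
  push_cast
  field_simp
  ring

lemma perp_add_EnLine (x v : V) : v = perp_EnLine x v + lam_EnLine x v • x := by
  rw [perp_EnLine, sub_add_cancel]

lemma nn_unit_EnLine {x : V} (hx : x ≠ 0) : nn_EnLine ((rr_EnLine x : ℂ) • x) = 1 := by
  rw [nn_smul_EnLine, Complex.norm_real, Real.norm_eq_abs, sq_abs, rr_sq_EnLine hx]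

lemma contDiff_nn_EnLine : ContDiff ℝ ∞ nn_EnLine :=
  ContDiff.sum fun j _ => (contDiff_norm_sq ℝ).comp (contDiff_apply ℝ ℂ j)

lemma compact_EnLine : IsCompact {x : V | nn_EnLine x = 1} := by
  refine (isCompact_closedBall (0 : V) 1).of_isClosed_subset
    (isClosed_eq contDiff_nn_EnLine.continuous continuous_const) fun x hx => ?_
  have h := le_nn_EnLine x
  rw [show nn_EnLine x = 1 from hx] at h
  rw [mem_closedBall_zero_iff]
  nlinarith [norm_nonneg x]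

lemma ne_of_nn_EnLine {x : V} (hx : nn_EnLine x = 1) : x ≠ 0 := by
  rintro rfl
  simp [nn_EnLine] at hx

lemma lin_theta_EnLine (z u : V) : lin_EnLine (theta z) u = (lam_EnLine z u).im := by
  have h : ∀ y, lin_EnLine (cov y) u = (her_EnLine y u).im := fun y => by
    simp [lin_EnLine, cov, her_EnLine]
  rw [theta, h, ← Complex.coe_smul, her_smul_EnLine, conj_ofReal]
  rfl

lemma contDiffOn_theta_EnLine : ContDiffOn ℝ ∞ theta {0}ᶜ := by
  have h : ContDiff ℝ ∞ cov :=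
    (ContinuousAlternatingMap.ofSubsingletonLIE (𝕜 := ℝ) (E := V) (F := ℝ)
      (0 : Fin 1)).contDiff.comp (ContDiff.sum fun j _ => contDiff_const.clm_comp
        ((((ContinuousLinearMap.mul ℝ ℂ).contDiff.comp (Complex.conjCLE.contDiff.comp
          (contDiff_apply ℝ ℂ j)))).clm_comp contDiff_const))
  exact h.comp_contDiffOn ((contDiff_nn_EnLine.contDiffOn.inv
    fun _ hz => (nn_pos_EnLine hz).ne').smul contDiffOn_id)

/-- A connection form whose differential is `σ`. -/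
structure Prim_EnLine (σ : Symp 1) (β : V → V →L[ℝ] ℝ) : Prop where
  c1 : ContDiffOn ℝ 1 β {0}ᶜ
  dd : ∀ x, x ≠ 0 → ∀ v w, fderiv ℝ β x v w - fderiv ℝ β x w v = σ.form x ![v, w]
  scale : ∀ x, x ≠ 0 → ∀ c : ℂ, c ≠ 0 → ∀ v, β (c • x) (c • v) = β x v
  vert : ∀ x, x ≠ 0 → ∀ c : ℂ, β x (c • x) = c.im

lemma prim_EnLine (σ : Symp 1) : ∃ β, Prim_EnLine σ β := by
  obtain ⟨α, hα, h⟩ := σ.cls
  have hs : ContDiffOn ℝ ∞ (fun z => theta z + α z) {0}ᶜ := contDiffOn_theta_EnLine.add hα.smooth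
  have hd : ∀ {b : Form 1}, ContDiffOn ℝ ∞ b {0}ᶜ → ∀ x, x ≠ 0 → DifferentiableAt ℝ b x :=
    fun hb x hx => (hb.contDiffAt (isOpen_compl_singleton.mem_nhds hx)).differentiableAt (by simp)
  refine ⟨fun z => lin_EnLine (theta z + α z),
    (lin_EnLine.contDiff.comp_contDiffOn hs).of_le (by simp), ?_, ?_, ?_⟩
  · intro x hx v w
    have h1 : fderiv ℝ (fun z => lin_EnLine (theta z + α z)) x =
        lin_EnLine ∘L fderiv ℝ (fun z => theta z + α z) x :=
      (lin_EnLine.hasFDerivAt.comp x (hd hs x hx).hasFDerivAt).fderiv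
    rw [h1, ← bil_apply_EnLine, h x hx, one_smul,
      ← extDeriv_fun_add (hd contDiffOn_theta_EnLine x hx) (hd hα.smooth x hx),
      bil_extDeriv_EnLine]
    rfl
  · intro x hx c hc v
    have h1 : lin_EnLine (α (c • x)) (c • v) = lin_EnLine (α x) v := by
      have := hα.scale c hc x ![v]
      rwa [eq_lin_EnLine, eq_lin_EnLine (α x)] at this
    have h2 : lam_EnLine (c • x) (c • v) = lam_EnLine x v := by
      have h3 : (nn_EnLine x : ℂ) ≠ 0 := by exact_mod_cast (nn_pos_EnLine hx).ne'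
      have h4 : (‖c‖ : ℂ) ≠ 0 := by simpa using hc
      rw [lam_EnLine, lam_EnLine, her_smul_EnLine, her_smul'_EnLine, nn_smul_EnLine,
        ← mul_assoc (conj c), Complex.conj_mul']
      push_cast
      field_simp
    simp only [map_add, add_apply, lin_theta_EnLine, h1, h2]
  · intro x hx c
    have h1 : lin_EnLine (α x) (c • x) = 0 := by
      rw [lin_apply_EnLine]
      exact hα.horiz x _ 0 c rfl
    have h2 : lam_EnLine x (c • x) = c := by
      have h3 : (nn_EnLine x : ℂ) ≠ 0 := by exact_mod_cast (nn_pos_EnLine hx).ne'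
      rw [lam_EnLine, her_smul'_EnLine, her_self_EnLine]
      push_cast
      field_simp
    simp only [map_add, add_apply, lin_theta_EnLine, h1, h2, add_zero]

lemma bound_EnLine {σ : Symp 1} {β : V → V →L[ℝ] ℝ} (h : Prim_EnLine σ β) :
    ∃ C : ℝ, 0 ≤ C ∧ ∀ x, x ≠ 0 → ∀ v, |β x v - (lam_EnLine x v).im| ≤ C * sp_EnLine x v := by
  obtain ⟨C, hC⟩ := compact_EnLine.exists_bound_of_continuousOn
    (h.c1.continuousOn.mono fun x hx => ne_of_nn_EnLine hx)
  refine ⟨max C 0, le_max_right _ _, fun x hx v => ?_⟩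
  have hr : (rr_EnLine x : ℂ) ≠ 0 := by exact_mod_cast (rr_pos_EnLine x).ne'
  have h1 : β x v - (lam_EnLine x v).im =
      β ((rr_EnLine x : ℂ) • x) ((rr_EnLine x : ℂ) • perp_EnLine x v) := by
    rw [h.scale x hx _ hr, perp_EnLine, map_sub, h.vert x hx]
  rw [h1, ← Real.norm_eq_abs]
  refine (ContinuousLinearMap.le_opNorm _ _).trans ?_
  rw [norm_smul, Complex.norm_real, Real.norm_of_nonneg (rr_pos_EnLine x).le]
  exact mul_le_mul_of_nonneg_right ((hC _ (nn_unit_EnLine hx)).trans (le_max_left _ _))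
    (sp_nonneg_EnLine x v)

lemma bil_scale_EnLine (σ : Symp 1) {c : ℂ} (hc : c ≠ 0) (x v w : V) :
    bil_EnLine (σ.form (c • x)) (c • v) (c • w) = bil_EnLine (σ.form x) v w := by
  rw [bil_apply_EnLine, bil_apply_EnLine, ← σ.isForm.scale c hc x ![v, w]]
  congr 1
  ext1 i
  fin_cases i <;> rfl

lemma bil_left_EnLine (σ : Symp 1) (c : ℂ) (x w : V) : bil_EnLine (σ.form x) (c • x) w = 0 := by
  rw [bil_apply_EnLine]
  exact σ.isForm.horiz x _ 0 c rfl

lemma bil_right_EnLine (σ : Symp 1) (c : ℂ) (x w : V) : bil_EnLine (σ.form x) w (c • x) = 0 := by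
  rw [bil_apply_EnLine]
  exact σ.isForm.horiz x _ 1 c rfl

lemma tame_EnLine {φ : Fr} {σ : Symp 1} (hT : Tame φ.J σ) :
    ∃ c : ℝ, 0 < c ∧ ∀ x, x ≠ 0 → ∀ v,
      c * sp_EnLine x v ^ 2 ≤ bil_EnLine (σ.form x) v (φ.J x v) := by
  let Q : V → V → ℝ := fun x v => bil_EnLine (σ.form x) v (φ.B x (I • φ.A x v))
  have hK : IsCompact (({x : V | nn_EnLine x = 1} ×ˢ sphere (0 : V) 1) ∩
      {p : V × V | her_EnLine p.1 p.2 = 0}) :=
    (compact_EnLine.prod (isCompact_sphere _ _)).inter_right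
      (isClosed_eq (by unfold her_EnLine; fun_prop) continuous_const)
  have hm : ∀ {G : Type} [TopologicalSpace G] {f : V → G}, ContinuousOn f {0}ᶜ →
      ContinuousOn (fun p : V × V => f p.1) (({x : V | nn_EnLine x = 1} ×ˢ sphere (0 : V) 1) ∩
        {p : V × V | her_EnLine p.1 p.2 = 0}) :=
    fun hf => hf.comp continuousOn_fst fun p hp => ne_of_nn_EnLine hp.1.1
  have hc : ContinuousOn (fun p : V × V => Q p.1 p.2) _ :=
    ((bil_EnLine.continuous.comp_continuousOn (hm σ.isForm.smooth.continuousOn)).clm_apply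
      continuousOn_snd).clm_apply ((hm φ.smoothB.continuousOn).clm_apply
        (((hm φ.smoothA.continuousOn).clm_apply continuousOn_snd).const_smul I))
  obtain ⟨c, hc0, hc1⟩ := hK.exists_forall_le' hc (a := 0) (by
    rintro ⟨x, w⟩ ⟨⟨hx, hw⟩, hxw⟩
    have := hT x (ne_of_nn_EnLine hx) w (by
      rintro c rfl
      have h1 : her_EnLine x (c • x) = 0 := hxw
      rw [her_smul'_EnLine, her_self_EnLine, show nn_EnLine x = 1 from hx] at h1
      have h2 : c = 0 := by simpa using h1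
      simp [h2] at hw)
    rwa [← bil_apply_EnLine] at this)
  refine ⟨c, hc0, fun x hx v => ?_⟩
  change _ ≤ Q x v
  have hA : ∀ μ : ℂ, φ.A x (μ • x) = μ • x := fun μ => by
    conv_lhs => rw [← φ.vert x hx μ]
    exact φ.AB x hx _
  have h1 : Q x v = Q x (perp_EnLine x v) := by
    simp only [Q]
    conv_lhs => rw [perp_add_EnLine x v]
    simp only [map_add, add_apply, smul_add, hA, smul_smul, φ.vert x hx,
      bil_left_EnLine, bil_right_EnLine, add_zero]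
  have h2 : ∀ (t : ℝ) (y w : V), Q y (t • w) = t ^ 2 * Q y w := fun t y w => by
    simp only [Q, map_smul, smul_comm I t, smul_apply, smul_eq_mul]
    ring
  have h3 : ∀ (r : ℂ) (w : V), r ≠ 0 → Q (r • x) (r • w) = Q x w := fun r w hr => by
    have h4 : φ.A (r • x) (r • w) = r • φ.A x w := by
      conv_lhs => rw [← φ.BA x hx w, ← φ.scale x hx r hr]
      exact φ.AB _ (smul_ne_zero hr hx) _
    simp only [Q]
    rw [h4, smul_comm I r, φ.scale x hx r hr, bil_scale_EnLine σ hr]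
  have hr : (rr_EnLine x : ℂ) ≠ 0 := by exact_mod_cast (rr_pos_EnLine x).ne'
  rw [h1, sp_EnLine]
  have h5 := her_perp_EnLine hx v
  generalize perp_EnLine x v = w at h5
  rcases eq_or_ne w 0 with rfl | hw
  · simp [Q]
  · have hn : ‖w‖ ≠ 0 := norm_ne_zero_iff.2 hw
    have h6 : (rr_EnLine x : ℂ) • w = (rr_EnLine x * ‖w‖) • (‖w‖⁻¹ • w) := by
      rw [smul_smul, mul_assoc, mul_inv_cancel₀ hn, mul_one, Complex.coe_smul]
    rw [← h3 _ w hr, h6, h2, mul_comm]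
    refine mul_le_mul_of_nonneg_left (hc1 (_, _) ⟨⟨nn_unit_EnLine hx, ?_⟩, ?_⟩) (sq_nonneg _)
    · simp [norm_smul, hn]
    · change her_EnLine _ _ = 0
      rw [her_smul_EnLine, ← Complex.coe_smul, her_smul'_EnLine, h5, mul_zero, mul_zero]

end Pool.Agent.MP_2fc7fa_gt.N

end
end

section

/-! Energy of curves, part B: rectangles, tails of integrals and holonomy along paths. -/

open scoped ContDiff ComplexConjugate Topology
open Set Complex Filter Metric MeasureTheory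

noncomputable section

namespace Pool.Agent.MP_2fc7fa_gt.N

lemma rect_EnLine {e : ℂ → ℝ} (he : Integrable e) {a b c d : ℝ} (hab : a ≤ b) (hcd : c ≤ d) :
    (∫ x in a..b, ∫ y in c..d, e (x + y * I)) = ∫ z in Ioc a b ×ℂ Ioc c d, e z ∧
    (∫ y in c..d, ∫ x in a..b, e (x + y * I)) = ∫ z in Ioc a b ×ℂ Ioc c d, e z := by
  have hm := Complex.volume_preserving_equiv_real_prod
  have h0 : ∀ p : ℝ × ℝ, Complex.measurableEquivRealProd.symm p = p.1 + p.2 * I := fun p => by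
    rw [Complex.measurableEquivRealProd_symm_apply, Complex.mk_eq_add_mul_I]
  have h1 : Integrable (fun p : ℝ × ℝ => e (p.1 + p.2 * I)) := by
    have := (hm.symm _).integrable_comp_emb (MeasurableEquiv.measurableEmbedding _) |>.2 he
    refine this.congr (Eventually.of_forall fun p => ?_)
    simp only [Function.comp_apply, h0]
  have h2 : (∫ x in a..b, ∫ y in c..d, e (x + y * I)) = ∫ z in Ioc a b ×ℂ Ioc c d, e z := by
    have h3 := hm.setIntegral_preimage_emb (MeasurableEquiv.measurableEmbedding _)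
      (fun p : ℝ × ℝ => e (p.1 + p.2 * I)) (Ioc a b ×ˢ Ioc c d)
    rw [Measure.volume_eq_prod, setIntegral_prod _ (by exact h1.integrableOn)] at h3
    simp only [intervalIntegral.integral_of_le hab, intervalIntegral.integral_of_le hcd]
    rw [← h3]
    simp only [Complex.measurableEquivRealProd_apply, Complex.re_add_im]
    rfl
  refine ⟨h2, ?_⟩
  rw [← h2]
  exact (intervalIntegral_intervalIntegral_swap (F := fun x y : ℝ => e (x + y * I))
    h1.integrableOn).symm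

lemma tail_EnLine {e : ℂ → ℝ} (he : Integrable e) {ε : ℝ} (hε : 0 < ε) :
    ∃ R : ℝ, 1 ≤ R ∧ ∀ S : Set ℂ, (∀ z ∈ S, R ≤ ‖z‖) → |∫ z in S, e z| ≤ ε := by
  have h1 := tendsto_setIntegral_of_antitone (μ := volume) (f := fun z => ‖e z‖)
    (s := fun n : ℕ => {z : ℂ | (n : ℝ) ≤ ‖z‖})
    (fun n => (isClosed_le continuous_const continuous_norm).measurableSet)
    (fun m n hmn z (hz : (n : ℝ) ≤ ‖z‖) => (le_trans (Nat.cast_le.2 hmn) hz : (m : ℝ) ≤ ‖z‖))
    ⟨0, he.norm.integrableOn⟩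
  have h2 : (⋂ n : ℕ, {z : ℂ | (n : ℝ) ≤ ‖z‖}) = ∅ := by
    refine eq_empty_of_forall_notMem fun z hz => ?_
    obtain ⟨n, hn⟩ := exists_nat_gt ‖z‖
    exact absurd (mem_iInter.1 hz n) (not_le.2 hn)
  rw [h2, setIntegral_empty] at h1
  obtain ⟨n, hn, hn1⟩ := ((h1.eventually_le_const hε).and (eventually_ge_atTop 1)).exists
  refine ⟨n, by exact_mod_cast hn1, fun S hS => ?_⟩
  rw [← Real.norm_eq_abs]
  refine (norm_integral_le_integral_norm _).trans (le_trans ?_ hn)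
  exact setIntegral_mono_set he.norm.integrableOn (Eventually.of_forall fun _ => norm_nonneg _)
    (LE.le.eventuallyLE hS)

lemma big_EnLine {e : ℂ → ℝ} (he : Integrable e) {ε R : ℝ}
    (h : ∀ S : Set ℂ, (∀ z ∈ S, R ≤ ‖z‖) → |∫ z in S, e z| ≤ ε) {a b c d : ℝ}
    (ha : a ≤ -R) (hb : R ≤ b) (hc : c ≤ -R) (hd : R ≤ d) :
    |(∫ z, e z) - ∫ z in Ioc a b ×ℂ Ioc c d, e z| ≤ ε := by
  have hm : MeasurableSet (Ioc a b ×ℂ Ioc c d) :=
    (measurableSet_Ioc.preimage Complex.measurable_re).inter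
      (measurableSet_Ioc.preimage Complex.measurable_im)
  rw [← setIntegral_compl hm he]
  refine h _ fun z hz => ?_
  by_contra hlt
  have h1 := abs_lt.1 ((Complex.abs_re_le_norm z).trans_lt (not_le.1 hlt))
  have h2 := abs_lt.1 ((Complex.abs_im_le_norm z).trans_lt (not_le.1 hlt))
  exact hz ⟨⟨by linarith, by linarith⟩, ⟨by linarith, by linarith⟩⟩

lemma pick_EnLine {g : ℝ → ℝ} (hg : Continuous g) {p R ε : ℝ} (hR : 0 < R)
    (h : |∫ t in p..p + R, g t| ≤ ε) : ∃ t ∈ Icc p (p + R), R * g t ≤ ε := by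
  have hp : p ≤ p + R := by linarith
  obtain ⟨t, ht, hmin⟩ := isCompact_Icc.exists_isMinOn (nonempty_Icc.2 hp) hg.continuousOn
  refine ⟨t, ht, le_trans ?_ ((le_abs_self _).trans h)⟩
  have := intervalIntegral.integral_mono_on (μ := volume) hp
    (continuous_const.intervalIntegrable p (p + R)) (hg.intervalIntegrable _ _)
    fun x hx => hmin hx
  simpa using this

/-- The unit vector in the direction of `x`. -/
def nv_EnLine (x : V) : V := (rr_EnLine x : ℂ) • x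

lemma nv_norm_EnLine {x : V} (hx : x ≠ 0) : 1 / 2 ≤ ‖nv_EnLine x‖ := by
  rw [nv_EnLine, norm_smul, Complex.norm_real, Real.norm_of_nonneg (rr_pos_EnLine x).le]
  exact le_rr_EnLine hx

lemma path_EnLine {γ γ' : ℝ → V} {w k : ℝ → ℝ} (hγ : ∀ t, HasDerivAt γ (γ' t) t)
    (hne : ∀ t, γ t ≠ 0) (hw : Continuous w) (hk : Continuous k)
    (hb : ∀ t, sp_EnLine (γ t) (γ' t) + |w t - (lam_EnLine (γ t) (γ' t)).im| ≤ k t) {a b : ℝ}
    (hab : a ≤ b) :
    ‖exp (-(I * (∫ t in a..b, w t : ℝ))) • nv_EnLine (γ b) - nv_EnLine (γ a)‖ ≤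
      ∫ t in a..b, k t := by
  let E : ℝ → ℂ := fun t => -(I * (∫ s in a..t, w s : ℝ)) +
    ((-(1 / 2) * Real.log (nn_EnLine (γ t)) : ℝ) : ℂ)
  have hE : ∀ t, exp (E t) • γ t = exp (-(I * (∫ s in a..t, w s : ℝ))) • nv_EnLine (γ t) :=
    fun t => by
      simp only [E, nv_EnLine, rr_EnLine, exp_add, smul_smul, Complex.ofReal_exp]
  have hn : ∀ t, ‖exp (E t)‖ = rr_EnLine (γ t) := fun t => by
    simp only [E, rr_EnLine, Complex.norm_exp, add_re, neg_re, mul_re, I_re, I_im, ofReal_re,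
      ofReal_im, zero_mul, mul_zero, sub_zero, neg_zero, zero_add]
  have hnn : ∀ t, HasDerivAt (fun t => nn_EnLine (γ t)) (2 * (her_EnLine (γ t) (γ' t)).re) t :=
    fun t => by
      have h1 := HasDerivAt.fun_sum (u := Finset.univ)
        fun j _ => (hasDerivAt_pi.1 (hγ t) j).norm_sq
      refine h1.congr_deriv ?_
      simp [her_EnLine, Finset.mul_sum, mul_comm]
  have hd : ∀ t, HasDerivAt (fun t => exp (E t) • γ t)
      (exp (E t) • perp_EnLine (γ t) (γ' t) +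
        (exp (E t) * (I * ((lam_EnLine (γ t) (γ' t)).im - w t : ℝ))) • γ t) t := fun t => by
    have h2 : HasDerivAt (fun t => ∫ s in a..t, w s) (w t) t :=
      (hw.integral_hasStrictDerivAt a t).hasDerivAt
    have h3 := ((hnn t).log (nn_pos_EnLine (hne t)).ne').const_mul (-(1 / 2) : ℝ)
    have h4 : HasDerivAt E _ t := (h2.ofReal_comp.const_mul I).fun_neg.fun_add h3.ofReal_comp
    refine (h4.cexp.smul (hγ t)).congr_deriv ?_
    have h5 : ((-(1 / 2) * (2 * (her_EnLine (γ t) (γ' t)).re / nn_EnLine (γ t)) : ℝ) : ℂ) =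
        -(lam_EnLine (γ t) (γ' t)).re := by
      rw [lam_EnLine, re_ofReal_mul, ← ofReal_neg]
      congr 1
      ring
    rw [h5, perp_EnLine, smul_sub, smul_smul, sub_add, ← sub_smul, sub_eq_add_neg, ← neg_smul]
    congr 2
    have h6 := Complex.re_add_im (lam_EnLine (γ t) (γ' t))
    push_cast
    linear_combination (-exp (E t)) * h6
  have h := norm_sub_le_integral_of_norm_deriv_le_of_le (f := fun t => exp (E t) • γ t) hab
    (fun t _ => (hd t).continuousAt.continuousWithinAt)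
    (fun t _ => (hd t).differentiableAt.differentiableWithinAt)
    (Eventually.of_forall fun t _ => by
      rw [(hd t).deriv]
      refine (norm_add_le _ _).trans (le_trans ?_ (hb t))
      rw [norm_smul, norm_smul, norm_mul, norm_mul, hn, norm_I, one_mul, Complex.norm_real,
        Real.norm_eq_abs, abs_sub_comm, mul_right_comm]
      exact add_le_add le_rfl (mul_le_of_le_one_left (abs_nonneg _) (rr_le_EnLine (hne t))))
    (hk.intervalIntegrable a b)
  simp only [hE] at h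
  simpa using h

lemma loop_EnLine {P Q R S : V} {t₁ t₂ t₃ t₄ L : ℝ} (hR : 1 / 2 ≤ ‖R‖)
    (h1 : ‖exp (-(I * t₁)) • Q - P‖ ≤ L) (h2 : ‖exp (-(I * t₂)) • R - S‖ ≤ L)
    (h3 : ‖exp (-(I * t₃)) • R - Q‖ ≤ L) (h4 : ‖exp (-(I * t₄)) • S - P‖ ≤ L) :
    ‖exp (I * (t₁ - t₂ + t₃ - t₄ : ℝ)) - 1‖ ≤ 8 * L := by
  have hu : ∀ t : ℝ, ‖exp (-(I * t))‖ = 1 := fun t => by simp [Complex.norm_exp]
  have e1 : (exp (-(I * t₁)) * exp (-(I * t₃)) * (exp (I * (t₁ - t₂ + t₃ - t₄ : ℝ)) - 1)) • R =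
      (exp (-(I * t₄)) • (exp (-(I * t₂)) • R - S) + (exp (-(I * t₄)) • S - P)) -
      (exp (-(I * t₁)) • (exp (-(I * t₃)) • R - Q) + (exp (-(I * t₁)) • Q - P)) := by
    have e2 : exp (-(I * t₁)) * exp (-(I * t₃)) * exp (I * (t₁ - t₂ + t₃ - t₄ : ℝ)) =
        exp (-(I * t₄)) * exp (-(I * t₂)) := by
      simp only [← exp_add]
      congr 1
      push_cast
      ring
    rw [mul_sub, e2]
    module
  have e3 := congrArg norm e1
  rw [norm_smul, norm_mul, norm_mul, hu, hu, one_mul, one_mul] at e3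
  have e4 := norm_sub_le
    (exp (-(I * t₄)) • (exp (-(I * t₂)) • R - S) + (exp (-(I * t₄)) • S - P))
    (exp (-(I * t₁)) • (exp (-(I * t₃)) • R - Q) + (exp (-(I * t₁)) • Q - P))
  have e5 := norm_add_le (exp (-(I * t₄)) • (exp (-(I * t₂)) • R - S)) (exp (-(I * t₄)) • S - P)
  have e6 := norm_add_le (exp (-(I * t₁)) • (exp (-(I * t₃)) • R - Q)) (exp (-(I * t₁)) • Q - P)
  rw [norm_smul, hu, one_mul] at e5 e6
  have e7 := mul_le_mul_of_nonneg_left hR (norm_nonneg (exp (I * (t₁ - t₂ + t₃ - t₄ : ℝ)) - 1))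
  linarith

lemma green_EnLine (hG : GreenStmt) {σ : Symp 1} {β : V → V →L[ℝ] ℝ} (hβ : Prim_EnLine σ β)
    {u : ℂ → V} (hu : ContDiff ℝ 1 u) (hne : ∀ z, u z ≠ 0) (hi : Integrable (dens σ u))
    {a b c d : ℝ} (hab : a ≤ b) (hcd : c ≤ d) :
    (∫ x in a..b, β (u (x + c * I)) (fderiv ℝ u (x + c * I) 1)) -
      (∫ x in a..b, β (u (x + d * I)) (fderiv ℝ u (x + d * I) 1)) +
      (∫ y in c..d, β (u (b + y * I)) (fderiv ℝ u (b + y * I) I)) -
      (∫ y in c..d, β (u (a + y * I)) (fderiv ℝ u (a + y * I) I)) =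
    ∫ z in Ioc a b ×ℂ Ioc c d, dens σ u z := by
  rw [hG V ℝ β {0}ᶜ u univ a b c d isOpen_compl_singleton hβ.c1 isOpen_univ hu.contDiffOn
    (fun z _ => hne z) hab hcd (fun _ _ _ _ => mem_univ _), ← (rect_EnLine hi hab hcd).1]
  simp only [hβ.dd _ (hne _), dens]

lemma cont_dens_EnLine (σ : Symp 1) {u : ℂ → V} (hu : ContDiff ℝ 1 u) (hne : ∀ z, u z ≠ 0) :
    Continuous (dens σ u) := by
  have h1 := hu.continuous_fderiv one_ne_zero
  have h2 : Continuous fun z => bil_EnLine (σ.form (u z)) (fderiv ℝ u z 1) (fderiv ℝ u z I) :=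
    ((bil_EnLine.continuous.comp (σ.isForm.smooth.continuousOn.comp_continuous hu.continuous
      hne)).clm_apply (h1.clm_apply continuous_const)).clm_apply (h1.clm_apply continuous_const)
  exact h2.congr fun z => bil_apply_EnLine _ _ _

lemma cont_beta_EnLine {σ : Symp 1} {β : V → V →L[ℝ] ℝ} (hβ : Prim_EnLine σ β) {u : ℂ → V}
    (hu : ContDiff ℝ 1 u) (hne : ∀ z, u z ≠ 0) (h : ℂ) :
    Continuous fun z => β (u z) (fderiv ℝ u z h) :=
  (hβ.c1.continuousOn.comp_continuous hu.continuous hne).clm_apply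
    ((hu.continuous_fderiv one_ne_zero).clm_apply continuous_const)

end Pool.Agent.MP_2fc7fa_gt.N

end
end

section

/-! Energy of lines and of entire curves. -/

open scoped ContDiff ComplexConjugate Topology
open Set Complex Filter Metric MeasureTheory

noncomputable section

namespace Pool.Agent.MP_2fc7fa_gt.N

lemma side_EnLine {σ : Symp 1} {β : V → V →L[ℝ] ℝ} (hβ : Prim_EnLine σ β) {C c η R : ℝ}
    (hC0 : 0 ≤ C)
    (hC : ∀ x, x ≠ 0 → ∀ v, |β x v - (lam_EnLine x v).im| ≤ C * sp_EnLine x v)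
    (hc : 0 < c) (hη : 0 < η) (hR : 0 < R) {u : ℂ → V} (hu : ContDiff ℝ 1 u)
    (hne : ∀ z, u z ≠ 0) {e : ℂ → ℝ} (he : Continuous e) {h : ℂ}
    (hs : ∀ z, c * sp_EnLine (u z) (fderiv ℝ u z h) ^ 2 ≤ e z) {l : ℝ → ℂ}
    (hl : ∀ t, HasDerivAt l h t) (hint : R * ∫ t in -(2 * R)..2 * R, e (l t) ≤ c * η ^ 2)
    {a b : ℝ} (ha : -(2 * R) ≤ a) (hab : a ≤ b) (hb : b ≤ 2 * R) :
    ‖exp (-(I * (∫ t in a..b, β (u (l t)) (fderiv ℝ u (l t) h) : ℝ))) • nv_EnLine (u (l b)) -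
      nv_EnLine (u (l a))‖ ≤ (1 + C) * (5 * η) := by
  have hlc : Continuous l := continuous_iff_continuousAt.2 fun t => (hl t).continuousAt
  have hel : Continuous fun t => e (l t) := he.comp hlc
  have he0 : ∀ z, 0 ≤ e z := fun z => le_trans (by positivity) (hs z)
  refine (path_EnLine (γ := fun t => u (l t)) (γ' := fun t => fderiv ℝ u (l t) h)
    (w := fun t => β (u (l t)) (fderiv ℝ u (l t) h))
    (k := fun t => (1 + C) * (η / R + R / (η * c) * e (l t)))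
    (fun t => ((hu.differentiable one_ne_zero) (l t)).hasFDerivAt.comp_hasDerivAt t (hl t))
    (fun t => hne _) ((cont_beta_EnLine hβ hu hne h).comp hlc) (by fun_prop) (fun t => ?_)
    hab).trans ?_
  · have h1 := hC _ (hne (l t)) (fderiv ℝ u (l t) h)
    have h2 := hs (l t)
    have h3 := sp_nonneg_EnLine (u (l t)) (fderiv ℝ u (l t) h)
    generalize sp_EnLine (u (l t)) (fderiv ℝ u (l t) h) = s at h1 h2 h3
    have h4 : s ≤ η / R + R / (η * c) * e (l t) := by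
      have h5 : R / (η * c) * (c * s ^ 2) ≤ R / (η * c) * e (l t) := by gcongr
      have h6 : η / R + R / (η * c) * (c * s ^ 2) - s =
          ((η - R * s) ^ 2 + η * R * s) / (η * R) := by
        field_simp
        ring
      have h7 : 0 ≤ ((η - R * s) ^ 2 + η * R * s) / (η * R) := by positivity
      linarith
    nlinarith
  · rw [intervalIntegral.integral_const_mul, intervalIntegral.integral_add
      (continuous_const.intervalIntegrable _ _) ((hel.intervalIntegrable _ _).const_mul _),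
      intervalIntegral.integral_const, intervalIntegral.integral_const_mul, smul_eq_mul]
    have h1 : ∫ t in a..b, e (l t) ≤ ∫ t in -(2 * R)..2 * R, e (l t) :=
      intervalIntegral.integral_mono_interval ha hab hb (Eventually.of_forall fun t => he0 _)
        (hel.intervalIntegrable _ _)
    have h2 : (b - a) * (η / R) ≤ 4 * η := by
      have : (b - a) * (η / R) ≤ (4 * R) * (η / R) := by
        gcongr
        linarith
      refine this.trans (le_of_eq ?_)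
      field_simp
    have h3 : R / (η * c) * ∫ t in a..b, e (l t) ≤ η := by
      rw [div_mul_eq_mul_div, div_le_iff₀ (by positivity)]
      nlinarith
    gcongr
    linarith

theorem enPlane (hG : GreenStmt) : EnPlaneStmt := by
  intro φ σ u hT hu hne hCR hi
  obtain ⟨β, hβ⟩ := prim_EnLine σ
  obtain ⟨C, hC0, hC⟩ := bound_EnLine hβ
  obtain ⟨c, hc, hct⟩ := tame_EnLine hT
  have he := cont_dens_EnLine σ hu hne
  have h1 : ∀ z, c * sp_EnLine (u z) (fderiv ℝ u z 1) ^ 2 ≤ dens σ u z := fun z => by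
    have h := hct _ (hne z) (fderiv ℝ u z 1)
    rwa [Fr.J, ← hCR z (mem_univ _), φ.BA _ (hne z), bil_apply_EnLine] at h
  have h2 : ∀ z, c * sp_EnLine (u z) (fderiv ℝ u z I) ^ 2 ≤ dens σ u z := fun z => by
    have h := hct _ (hne z) (fderiv ℝ u z I)
    rwa [Fr.J, hCR z (mem_univ _), smul_smul, I_mul_I, neg_one_smul, map_neg, φ.BA _ (hne z),
      map_neg, ← bil_skew_EnLine, bil_apply_EnLine] at h
  have key : ∀ η : ℝ, 0 < η →
      ‖exp (I * (∫ z, dens σ u z : ℝ)) - 1‖ ≤ (1 + 40 * (1 + C)) * η := by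
    intro η hη
    obtain ⟨R, hR1, hR⟩ := tail_EnLine hi (lt_min hη (by positivity : 0 < c * η ^ 2))
    have hR0 : 0 < R := by linarith
    have h22 : -(2 * R) ≤ 2 * R := by linarith
    have pH : ∀ p : ℝ, (∀ y ∈ Ioc p (p + R), R ≤ |y|) → ∃ d ∈ Icc p (p + R),
        R * ∫ t in -(2 * R)..2 * R, dens σ u (t + d * I) ≤ c * η ^ 2 := fun p hp => by
      refine pick_EnLine (intervalIntegral.continuous_parametric_intervalIntegral_of_continuous'
        (f := fun y t : ℝ => dens σ u (t + y * I)) (he.comp (by fun_prop)) _ _) hR0 ?_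
      rw [(rect_EnLine hi h22 (by linarith)).2]
      exact (hR _ fun z hz => (hp _ hz.2).trans (Complex.abs_im_le_norm z)).trans (min_le_right _ _)
    have pV : ∀ p : ℝ, (∀ y ∈ Ioc p (p + R), R ≤ |y|) → ∃ d ∈ Icc p (p + R),
        R * ∫ t in -(2 * R)..2 * R, dens σ u (d + t * I) ≤ c * η ^ 2 := fun p hp => by
      refine pick_EnLine (intervalIntegral.continuous_parametric_intervalIntegral_of_continuous'
        (f := fun x t : ℝ => dens σ u (x + t * I)) (he.comp (by fun_prop)) _ _) hR0 ?_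
      rw [(rect_EnLine hi (by linarith) h22).1]
      exact (hR _ fun z hz => (hp _ hz.1).trans (Complex.abs_re_le_norm z)).trans (min_le_right _ _)
    have q1 : ∀ y ∈ Ioc R (R + R), R ≤ |y| := fun y hy => hy.1.le.trans (le_abs_self y)
    have q2 : ∀ y ∈ Ioc (-(2 * R)) (-(2 * R) + R), R ≤ |y| := fun y hy =>
      le_trans (by linarith [hy.2]) (neg_le_abs y)
    obtain ⟨d, hd, hd'⟩ := pH _ q1
    obtain ⟨c', hc', hc''⟩ := pH _ q2
    obtain ⟨b, hb, hb'⟩ := pV _ q1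
    obtain ⟨a, ha, ha'⟩ := pV _ q2
    have hab : a ≤ b := by linarith [ha.2, hb.1]
    have hcd : c' ≤ d := by linarith [hc'.2, hd.1]
    have lH : ∀ (y t : ℝ), HasDerivAt (fun t : ℝ => (t + y * I : ℂ)) 1 t := fun y t =>
      (hasDerivAt_id t).ofReal_comp.add_const _
    have lV : ∀ (x t : ℝ), HasDerivAt (fun t : ℝ => (x + t * I : ℂ)) I t := fun x t => by
      simpa using ((hasDerivAt_id t).ofReal_comp.mul_const I).const_add (x : ℂ)
    have s1 := side_EnLine hβ hC0 hC hc hη hR0 hu hne he h1 (lH c') hc'' ha.1 hab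
      (by linarith [hb.2])
    have s2 := side_EnLine hβ hC0 hC hc hη hR0 hu hne he h1 (lH d) hd' ha.1 hab
      (by linarith [hb.2])
    have s3 := side_EnLine hβ hC0 hC hc hη hR0 hu hne he h2 (lV b) hb' hc'.1 hcd
      (by linarith [hd.2])
    have s4 := side_EnLine hβ hC0 hC hc hη hR0 hu hne he h2 (lV a) ha' hc'.1 hcd
      (by linarith [hd.2])
    have s5 := loop_EnLine (nv_norm_EnLine (hne _)) s1 s2 s3 s4
    rw [green_EnLine hG hβ hu hne hi hab hcd] at s5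
    have s6 := (big_EnLine hi hR (a := a) (c := c') (by linarith [ha.2]) hb.1
      (by linarith [hc'.2]) hd.1).trans (min_le_left _ _)
    generalize (∫ z in Ioc a b ×ℂ Ioc c' d, dens σ u z) = E₀ at s5 s6
    generalize (∫ z, dens σ u z) = E at s6
    have s7 : exp (I * E) - 1 = exp (I * E₀) * (exp (I * (E - E₀ : ℝ)) - 1) + (exp (I * E₀) - 1) := by
      rw [mul_sub, ← exp_add]
      push_cast
      ring_nf
    have s8 := Real.norm_exp_I_mul_ofReal_sub_one_le (x := E - E₀)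
    rw [s7]
    refine (norm_add_le _ _).trans ?_
    rw [norm_mul, Complex.norm_exp_I_mul_ofReal, one_mul]
    rw [Real.norm_eq_abs] at s8
    linarith
  have h3 : exp (I * (∫ z, dens σ u z : ℝ)) = 1 := by
    rw [← sub_eq_zero, ← norm_le_zero_iff]
    refine le_of_forall_pos_le_add fun ε hε => ?_
    have h4 := key (ε / (1 + 40 * (1 + C))) (by positivity)
    rwa [mul_div_cancel₀ _ (by positivity), ← zero_add ε] at h4
  obtain ⟨n, hn⟩ := Complex.exp_eq_one_iff.1 h3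
  refine ⟨n, ?_⟩
  have h5 := congrArg Complex.im hn
  simp at h5
  linarith

lemma far_EnLine {φ : Fr} {U : W → V} (hU : IsLine φ.J U) :
    ∃ (Y : ℂ → V) (M : ℝ), Continuous Y ∧ (∀ w, Y w ≠ 0) ∧ 0 ≤ M ∧ ∀ z : ℂ, 1 ≤ ‖z‖ →
      U (1, z) = z • Y z⁻¹ ∧ ∀ h : ℂ, ∃ v : V, ‖v‖ ≤ M * ‖h‖ / ‖z‖ ^ 2 ∧
        fderiv ℝ (fun z => U (1, z)) z h = z • ((h / z) • Y z⁻¹ + v) := by
  have hY : ContDiff ℝ 1 fun w : ℂ => U (w, 1) :=
    hU.c1.comp_contDiff (by fun_prop) fun w => by simp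
  obtain ⟨M, hM⟩ := (isCompact_closedBall (0 : ℂ) 1).exists_bound_of_continuousOn
    (hY.continuous_fderiv one_ne_zero).continuousOn
  have h0 : ∀ z : ℂ, z ≠ 0 → U (1, z) = z • U (z⁻¹, 1) := fun z hz => by
    rw [← hU.hom]
    simp [hz]
  refine ⟨fun w => U (w, 1), M, hY.continuous, fun w => hU.ne _ (by simp),
    (norm_nonneg _).trans (hM 0 (by simp)), fun z hz => ?_⟩
  have hz0 : z ≠ 0 := by
    rintro rfl
    norm_num at hz
  refine ⟨h0 z hz0, fun h => ⟨fderiv ℝ (fun w : ℂ => U (w, 1)) z⁻¹ (h * -(z ^ 2)⁻¹), ?_, ?_⟩⟩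
  · refine (ContinuousLinearMap.le_opNorm _ _).trans ?_
    rw [norm_mul, norm_neg, norm_inv, norm_pow, mul_div_assoc, div_eq_mul_inv]
    gcongr
    refine hM _ ?_
    rw [mem_closedBall_zero_iff, norm_inv]
    exact inv_le_one_of_one_le₀ hz
  · have h1 := ((hasDerivAt_inv hz0).hasFDerivAt.restrictScalars ℝ)
    have h2 := ((hY.differentiable one_ne_zero) z⁻¹).hasFDerivAt.comp z h1
    have h3 := (hasFDerivAt_id (𝕜 := ℝ) z).smul h2
    have h4 : (fun z => U (1, z)) =ᶠ[𝓝 z] fun z : ℂ => z • U (z⁻¹, 1) :=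
      (isOpen_ne.eventually_mem hz0).mono fun w hw => h0 w hw
    rw [(h3.congr_of_eventuallyEq h4).fderiv, smul_add, smul_smul, mul_div_cancel₀ _ hz0, add_comm]
    simp

theorem enLine (hG : GreenStmt) : EnLineStmt := by
  intro φ σ U hU
  obtain ⟨β, hβ⟩ := prim_EnLine σ
  obtain ⟨Y, M, hY, hY0, hM, hfar⟩ := far_EnLine hU
  have hu : ContDiff ℝ 1 fun z : ℂ => U (1, z) :=
    hU.c1.comp_contDiff (by fun_prop) fun w => by simp
  have hne : ∀ z : ℂ, U (1, z) ≠ 0 := fun z => hU.ne _ (by simp)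
  have he := cont_dens_EnLine σ hu hne
  have hball : ∀ z : ℂ, 1 ≤ ‖z‖ → z⁻¹ ∈ closedBall (0 : ℂ) 1 := fun z hz => by
    rw [mem_closedBall_zero_iff, norm_inv]
    exact inv_le_one_of_one_le₀ hz
  have hz0 : ∀ z : ℂ, 1 ≤ ‖z‖ → z ≠ 0 := by
    rintro z hz rfl
    norm_num at hz
  obtain ⟨C₁, hC₁⟩ := (isCompact_closedBall (0 : ℂ) 1).exists_bound_of_continuousOn
    (hβ.c1.continuousOn.comp_continuous hY hY0).continuousOn
  obtain ⟨C₂, hC₂⟩ := (isCompact_closedBall (0 : ℂ) 1).exists_bound_of_continuousOn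
    (σ.isForm.smooth.continuousOn.comp_continuous hY hY0).continuousOn
  have hC₁0 : 0 ≤ C₁ := (norm_nonneg _).trans (hC₁ 0 (by simp))
  have hC₂0 : 0 ≤ C₂ := (norm_nonneg _).trans (hC₂ 0 (by simp))
  have hi : Integrable (dens σ fun z => U (1, z)) := by
    refine he.locallyIntegrable.integrable_of_isBigO_cocompact
      (g := fun z : ℂ => (1 + ‖z‖) ^ (-(4 : ℝ))) ?_
      ((integrable_one_add_norm (by simp; norm_num)).integrableAtFilter _)
    refine Asymptotics.IsBigO.of_bound (16 * C₂ * M ^ 2)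
      (((tendsto_norm_cocompact_atTop (E := ℂ)).eventually_ge_atTop 1).mono fun z hz => ?_)
    obtain ⟨h1, h2⟩ := hfar z hz
    obtain ⟨v, hv, hv'⟩ := h2 1
    obtain ⟨w, hw, hw'⟩ := h2 I
    have h3 : dens σ (fun z => U (1, z)) z = bil_EnLine (σ.form (Y z⁻¹)) v w := by
      rw [dens, ← bil_apply_EnLine, hv', hw', h1, bil_scale_EnLine σ (hz0 z hz)]
      simp only [map_add, add_apply, bil_left_EnLine, bil_right_EnLine, zero_add]
    rw [norm_one, mul_one] at hv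
    rw [norm_I, mul_one] at hw
    have h4 : ‖bil_EnLine (σ.form (Y z⁻¹)) v w‖ ≤ C₂ * (M / ‖z‖ ^ 2) * (M / ‖z‖ ^ 2) := by
      rw [bil_apply_EnLine, mul_assoc]
      refine (ContinuousAlternatingMap.le_opNorm _ _).trans ?_
      rw [Fin.prod_univ_two]
      exact mul_le_mul (hC₂ _ (hball z hz)) (mul_le_mul hv hw (norm_nonneg _) (by positivity))
        (by positivity) hC₂0
    have h5 : ‖(1 + ‖z‖) ^ (-(4 : ℝ))‖ = ((1 + ‖z‖) ^ 4)⁻¹ := by
      rw [Real.norm_of_nonneg (by positivity), Real.rpow_neg (by positivity)]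
      norm_cast
    have h6 : (1 + ‖z‖) ^ 4 ≤ (2 * ‖z‖) ^ 4 := by
      gcongr
      linarith
    rw [h3, h5]
    refine h4.trans ?_
    calc C₂ * (M / ‖z‖ ^ 2) * (M / ‖z‖ ^ 2) = 16 * C₂ * M ^ 2 * ((2 * ‖z‖) ^ 4)⁻¹ := by
          field_simp
          ring
      _ ≤ _ := by gcongr
  refine ⟨hi, ?_⟩
  have hs : ∀ z h : ℂ, 1 ≤ ‖z‖ → ‖h‖ = 1 →
      |β (U (1, z)) (fderiv ℝ (fun z => U (1, z)) z h) - (h / z).im| ≤ C₁ * M / ‖z‖ ^ 2 := by
    intro z h hz hh
    obtain ⟨h1, h2⟩ := hfar z hz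
    obtain ⟨v, hv, hv'⟩ := h2 h
    rw [hv', h1, hβ.scale _ (hY0 _) _ (hz0 z hz), map_add, hβ.vert _ (hY0 _), add_sub_cancel_left,
      ← Real.norm_eq_abs, mul_div_assoc]
    rw [hh, mul_one] at hv
    refine (ContinuousLinearMap.le_opNorm _ _).trans ?_
    gcongr
    exact hC₁ _ (hball z hz)
  have hside : ∀ (R s : ℝ) (l : ℝ → ℂ) (h : ℂ), 1 ≤ R → Continuous l → ‖h‖ = 1 →
      (∀ t, R ≤ ‖l t‖) → (∀ t, (h / l t).im = s * (R / (R ^ 2 + t ^ 2))) →
      |(∫ t in (-R)..R, β (U (1, l t)) (fderiv ℝ (fun z => U (1, z)) (l t) h)) -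
        s * (Real.pi / 2)| ≤ 2 * (C₁ * M / R) := by
    intro R s l h hR hl hh hlR him
    have hR0 : 0 < R := by linarith
    have h1 : ∫ t in (-R)..R, s * (R / (R ^ 2 + t ^ 2)) = s * (Real.pi / 2) := by
      rw [intervalIntegral.integral_const_mul, integral_div_sq_add_sq, neg_div, div_self hR0.ne',
        Real.arctan_neg, Real.arctan_one]
      ring
    have h2 : Continuous fun t : ℝ => s * (R / (R ^ 2 + t ^ 2)) :=
      continuous_const.mul (continuous_const.div (by fun_prop) fun t => by positivity)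
    have h3 : Continuous fun t => β (U (1, l t)) (fderiv ℝ (fun z => U (1, z)) (l t) h) :=
      (cont_beta_EnLine hβ hu hne h).comp hl
    rw [← h1, ← intervalIntegral.integral_sub (h3.intervalIntegrable _ _)
      (h2.intervalIntegrable _ _), ← Real.norm_eq_abs]
    refine (intervalIntegral.norm_integral_le_of_norm_le_const (C := C₁ * M / R ^ 2)
      fun t _ => ?_).trans (le_of_eq ?_)
    · rw [← him, Real.norm_eq_abs]
      refine (hs _ _ (hR.trans (hlR t)) hh).trans ?_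
      gcongr
      exact hlR t
    · rw [abs_of_pos (by linarith)]
      field_simp
      ring
  refine eq_of_forall_dist_le fun ε hε => ?_
  obtain ⟨R₀, hR₀, hR⟩ := tail_EnLine hi (half_pos hε)
  obtain ⟨R, hR1, hR2⟩ : ∃ R, R₀ ≤ R ∧ C₁ * M / R ≤ ε / 16 := by
    refine ⟨max R₀ (16 * (C₁ * M) / ε), le_max_left _ _, ?_⟩
    rw [div_le_iff₀ (lt_max_of_lt_left (by linarith))]
    have := mul_le_mul_of_nonneg_left (le_max_right R₀ (16 * (C₁ * M) / ε))
      (by positivity : 0 ≤ ε / 16)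
    refine le_trans (le_of_eq ?_) this
    field_simp
  have hR3 : 1 ≤ R := hR₀.trans hR1
  have hR0 : 0 < R := by linarith
  have hRR : -R ≤ R := by linarith
  have s1 := hside R 1 (fun t => t + (-R : ℝ) * I) 1 hR3 (by fun_prop) norm_one
    (fun t => le_trans (by simp [abs_of_pos hR0]) (Complex.abs_im_le_norm _))
    (fun t => by simp [Complex.normSq_apply]; ring)
  have s2 := hside R (-1) (fun t => t + R * I) 1 hR3 (by fun_prop) norm_one
    (fun t => le_trans (by simp [abs_of_pos hR0]) (Complex.abs_im_le_norm _))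
    (fun t => by simp [Complex.normSq_apply]; ring)
  have s3 := hside R 1 (fun t => R + t * I) I hR3 (by fun_prop) norm_I
    (fun t => le_trans (by simp [abs_of_pos hR0]) (Complex.abs_re_le_norm _))
    (fun t => by simp [Complex.div_im, Complex.normSq_apply]; ring)
  have s4 := hside R (-1) (fun t => (-R : ℝ) + t * I) I hR3 (by fun_prop) norm_I
    (fun t => le_trans (by simp [abs_of_pos hR0]) (Complex.abs_re_le_norm _))
    (fun t => by simp [Complex.div_im, Complex.normSq_apply]; ring)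
  have s5 := green_EnLine hG hβ hu hne hi hRR hRR
  have s6 := big_EnLine hi hR (a := -R) (b := R) (c := -R) (d := R) (by linarith) hR1
    (by linarith) hR1
  rw [← s5] at s6
  rw [Real.dist_eq]
  rw [abs_le] at s1 s2 s3 s4 s6 ⊢
  constructor <;> linarith [s1.1, s1.2, s2.1, s2.2, s3.1, s3.2, s4.1, s4.2, s6.1, s6.2]

end Pool.Agent.MP_2fc7fa_gt.N

end
end
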