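import Pool.Agent.Mg.F2fc7fa.G9cb2cd

section

/-! Interface statements inside the compactness theorem (PROOF.md, B6). -/

open scoped ContDiff ComplexConjugate Topology
open Set Complex Filter Metric MeasureTheory

noncomputable section

namespace Pool.Agent.MP_2fc7fa_gt.N

/-- The coefficient of the orthogonal projection on the line through `x`. -/
def vc (x : V) : V →L[ℝ] ℂ :=
  (∑ j, x j * conj (x j))⁻¹ •
    ∑ j, conj (x j) • (ContinuousLinearMap.proj j : V →L[ℂ] ℂ).restrictScalars ℝ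

/-- The component of `v` orthogonal to `x`. -/
def hp (x v : V) : V := v - vc x v • x

/-- The connection form of a frame. -/
def cf (φ : Fr) (x : V) : V →L[ℝ] ℂ := (vc x).comp (φ.A x)

/-- The pull-back of the connection form by a solution `u` is `al φ u z dz`. -/
def al (φ : Fr) (u : ℂ → V) (z : ℂ) : ℂ := cf φ (u z) (fderiv ℝ u z 1)

/-- The two affine charts of a homogeneous map. -/
def c0 (U : W → V) (z : ℂ) : V := U (1, z)

def c1 (U : W → V) (w : ℂ) : V := U (w, 1)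

/-- `C¹` convergence, uniform on every ball. -/
def LConv (w : ℕ → ℂ → V) (u : ℂ → V) : Prop :=
  ∀ r : ℝ, TendstoUniformlyOn w u atTop (ball 0 r) ∧
    TendstoUniformlyOn (fun n => fderiv ℝ (w n)) (fderiv ℝ u) atTop (ball 0 r)

theorem vc_apply (x v : V) : vc x v = (∑ j, x j * conj (x j))⁻¹ * ∑ j, conj (x j) * v j := by
  simp [vc]

theorem sq_ne_zero_K {x : V} (hx : x ≠ 0) : (∑ j, x j * conj (x j)) ≠ 0 := by
  have h : (∑ j, x j * conj (x j)) = ((∑ j, normSq (x j) : ℝ) : ℂ) := by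
    simp [mul_conj]
  rw [h, ofReal_ne_zero]
  intro h0
  apply hx
  funext j
  have := (Finset.sum_eq_zero_iff_of_nonneg (fun j _ => normSq_nonneg (x j))).1 h0 j
    (Finset.mem_univ j)
  simpa using this

theorem vc_smul (x v : V) (c : ℂ) : vc x (c • v) = c * vc x v := by
  simp only [vc_apply, Pi.smul_apply, smul_eq_mul, Fin.sum_univ_three]
  ring

theorem vc_self {x : V} (hx : x ≠ 0) : vc x x = 1 := by
  rw [vc_apply]
  have := sq_ne_zero_K hx
  rw [show (∑ j, conj (x j) * x j) = ∑ j, x j * conj (x j) from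
    Finset.sum_congr rfl fun j _ => mul_comm _ _]
  exact inv_mul_cancel₀ this

theorem vc_scale {c : ℂ} (hc : c ≠ 0) (x v : V) : vc (c • x) (c • v) = vc x v := by
  have hc' : conj c ≠ 0 := by simpa using hc
  have e : (∑ j, (c • x) j * conj ((c • x) j)) = (c * conj c) * ∑ j, x j * conj (x j) := by
    simp only [Pi.smul_apply, smul_eq_mul, Fin.sum_univ_three, map_mul]
    ring
  have e' : (∑ j, conj ((c • x) j) * (c • v) j) = (c * conj c) * ∑ j, conj (x j) * v j := by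
    simp only [Pi.smul_apply, smul_eq_mul, Fin.sum_univ_three, map_mul]
    ring
  rw [vc_apply, vc_apply, e, e', mul_inv]
  field_simp

theorem vc_hp {x : V} (hx : x ≠ 0) (v : V) : vc x (hp x v) = 0 := by
  rw [hp, map_sub, vc_smul, vc_self hx, mul_one, sub_self]

theorem hp_smul (x v : V) (c : ℂ) : hp x (c • v) = c • hp x v := by
  rw [hp, hp, vc_smul, smul_sub, mul_smul]

theorem Fr.A_vert (φ : Fr) {x : V} (hx : x ≠ 0) (c : ℂ) : φ.A x (c • x) = c • x := by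
  conv_lhs => rw [← φ.vert x hx c]
  exact φ.AB x hx _

theorem Fr.A_scale (φ : Fr) {x : V} (hx : x ≠ 0) {c : ℂ} (hc : c ≠ 0) (v : V) :
    φ.A (c • x) (c • v) = c • φ.A x v := by
  have h : c • v = φ.B (c • x) (c • φ.A x v) := by rw [φ.scale x hx c hc, φ.BA x hx]
  rw [h, φ.AB _ (smul_ne_zero hc hx)]

theorem cf_vert (φ : Fr) {x : V} (hx : x ≠ 0) (c : ℂ) : cf φ x (c • x) = c := by
  rw [cf, ContinuousLinearMap.comp_apply, φ.A_vert hx, vc_smul, vc_self hx, mul_one]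

theorem cf_scale (φ : Fr) {x : V} (hx : x ≠ 0) {c : ℂ} (hc : c ≠ 0) (v : V) :
    cf φ (c • x) (c • v) = cf φ x v := by
  rw [cf, cf, ContinuousLinearMap.comp_apply, ContinuousLinearMap.comp_apply, φ.A_scale hx hc,
    vc_scale hc]

theorem vc_smooth : ContDiffOn ℝ ∞ vc {0}ᶜ := by
  have hc : ∀ j, ContDiff ℝ ∞ fun x : V => conj (x j) := fun j =>
    conjCLE.contDiff.comp (contDiff_apply ℝ ℂ j)
  refine ContDiffOn.smul (ContDiffOn.inv ?_ fun x hx => sq_ne_zero_K hx) ?_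
  · exact (ContDiff.sum fun j _ => (contDiff_apply ℝ ℂ j).mul (hc j)).contDiffOn
  · exact (ContDiff.sum fun j _ => (hc j).smul contDiff_const).contDiffOn

theorem cf_smooth (φ : Fr) : ContDiffOn ℝ ∞ (cf φ) {0}ᶜ :=
  vc_smooth.clm_comp φ.smoothA

/-- K1: joint continuity of a continuous family of forms. -/
def FormStmt : Prop :=
  ∀ (P : Type) [TopologicalSpace P] (om : P → Symp 1), Continuous om →
    JC {0}ᶜ fun p => (om p).form

/-- K2: uniform taming. -/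
def TameKStmt : Prop :=
  ∀ (P : Type) [TopologicalSpace P] (φ : P → Fr) (om : P → Symp 1) (p₀ : P), FrFam φ →
    Continuous om → (∀ a, Tame (φ a).J (om a)) →
    ∃ C : ℝ, 0 < C ∧ ∀ᶠ p in 𝓝 p₀, ∀ x : V, x ≠ 0 → ∀ v,
      ‖hp x ((φ p).A x v)‖ ^ 2 ≤ C * ‖x‖ ^ 2 * (om p).form x ![v, (φ p).J x v]

/-- K3: the differential of the connection form is basic, with uniform bounds. -/
def CurvStmt : Prop :=
  ∀ (P : Type) [TopologicalSpace P] (φ : P → Fr) (p₀ : P), FrFam φ →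
    ∃ C : ℝ, 0 < C ∧ ∀ᶠ p in 𝓝 p₀, ∀ x : V, x ≠ 0 → ‖(φ p).B x‖ ≤ C ∧ ∀ a b : V,
      ‖fderiv ℝ (cf (φ p)) x a b - fderiv ℝ (cf (φ p)) x b a‖ * ‖x‖ ^ 2 ≤
        C * ‖hp x ((φ p).A x a)‖ * ‖hp x ((φ p).A x b)‖

/-- K4: the `∂̄` derivative of `al`. -/
def DbarStmt : Prop :=
  ∀ (φ : Fr) (u : ℂ → V) (O : Set ℂ), IsOpen O → ContDiffOn ℝ ∞ u O → (∀ z ∈ O, u z ≠ 0) →
    CR φ.A u O → ContDiffOn ℝ 1 (al φ u) O ∧ ∀ z ∈ O, 2 * I * dbar (al φ u) z =
      fderiv ℝ (cf φ) (u z) (fderiv ℝ u z 1) (fderiv ℝ u z I) -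
        fderiv ℝ (cf φ) (u z) (fderiv ℝ u z I) (fderiv ℝ u z 1)

/-- K5: the energy density controls `∂̄ al`, and with `al` the full derivative. -/
def AlphaStmt : Prop :=
  ∀ (P : Type) [TopologicalSpace P] (φ : P → Fr) (om : P → Symp 1) (p₀ : P), FrFam φ →
    Continuous om → (∀ a, Tame (φ a).J (om a)) →
    ∃ C : ℝ, 0 < C ∧ ∀ᶠ p in 𝓝 p₀, ∀ (u : ℂ → V) (O : Set ℂ), IsOpen O → ContDiffOn ℝ 1 u O →
      (∀ z ∈ O, u z ≠ 0) → CR (φ p).A u O → ContDiffOn ℝ 1 (al (φ p) u) O ∧ ∀ z ∈ O,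
        ‖dbar (al (φ p) u) z‖ ≤ C * dens (om p) u z ∧
        ‖fderiv ℝ u z‖ ≤ C * (1 + ‖al (φ p) u z‖ + dens (om p) u z) * ‖u z‖

/-- K6: holomorphic change of gauge and of parameter. -/
def TransfStmt : Prop :=
  ∀ (φ : Fr) (σ : Symp 1) (u : ℂ → V) (f g : ℂ → ℂ) (f' g' w : ℂ), HasDerivAt f f' w →
    HasDerivAt g g' w → f w ≠ 0 → DifferentiableAt ℝ u (g w) → u (g w) ≠ 0 → CR φ.A u {g w} →
    CR φ.A (fun t => f t • u (g t)) {w} ∧
      al φ (fun t => f t • u (g t)) w = f' / f w + g' * al φ u (g w) ∧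
      dens σ (fun t => f t • u (g t)) w = ‖g'‖ ^ 2 * dens σ u (g w)

/-- K7: sign, continuity and convergence of the energy density. -/
def DensStmt : Prop :=
  (∀ (φ : Fr) (σ : Symp 1) (u : ℂ → V) (z : ℂ), Tame φ.J σ → u z ≠ 0 → CR φ.A u {z} →
    0 ≤ dens σ u z) ∧
  (∀ (σ : Symp 1) (u : ℂ → V) (O : Set ℂ), IsOpen O → ContDiffOn ℝ 1 u O → (∀ z ∈ O, u z ≠ 0) →
    ContinuousOn (dens σ u) O) ∧
  ∀ (P : Type) [TopologicalSpace P] (om : P → Symp 1) (p : ℕ → P) (p₀ : P) (w : ℕ → ℂ → V)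
    (u : ℂ → V), Continuous om → Tendsto p atTop (𝓝 p₀) → LConv w u → ∀ z, u z ≠ 0 →
    Tendsto (fun n => dens (om (p n)) (w n) z) atTop (𝓝 (dens (om p₀) u z))

/-- K8: lines in the two charts. -/
def LineStmt : Prop :=
  ∀ (φ : Fr) (σ : Symp 1) (U : W → V), IsLine φ.J U →
    (∀ g : W ≃L[ℂ] W, IsLine φ.J (U ∘ g)) ∧
    (ContDiff ℝ 1 (c0 U) ∧ (∀ z, c0 U z ≠ 0) ∧ CR φ.A (c0 U) univ) ∧
    (ContDiff ℝ 1 (c1 U) ∧ (∀ z, c1 U z ≠ 0) ∧ CR φ.A (c1 U) univ) ∧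
    ∀ z : ℂ, z ≠ 0 → al φ (c0 U) z = z⁻¹ - (z ^ 2)⁻¹ * al φ (c1 U) z⁻¹ ∧
      dens σ (c0 U) z = (‖z‖ ^ 4)⁻¹ * dens σ (c1 U) z⁻¹ ∧
      dens σ (c1 U) z = (‖z‖ ^ 4)⁻¹ * dens σ (c0 U) z⁻¹

/-- K9: a holomorphic gauge that makes the connection form bounded. -/
def GaugeStmt : Prop := ∃ C : ℝ, 0 < C ∧
  ∀ (α : ℂ → ℂ) (R K E : ℝ), 0 < R → ContDiffOn ℝ 1 α (ball 0 R) →
    (∀ z ∈ ball (0 : ℂ) R, ‖dbar α z‖ ≤ K) → ∫ z in ball (0 : ℂ) R, ‖dbar α z‖ ≤ E →
    ∃ f : ℂ → ℂ, DifferentiableOn ℂ f (ball 0 R) ∧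
      ∀ z ∈ ball (0 : ℂ) R, f z ≠ 0 ∧ ‖deriv f z / f z + α z‖ ≤ C * (K + E)

/-- K10: the maximum principle in the two charts. -/
def AMPStmt : Prop := ∃ C : ℝ, 0 < C ∧
  ∀ (α β : ℂ → ℂ) (K : ℝ), ContDiff ℝ 1 α → ContDiff ℝ 1 β →
    (∀ z, ‖dbar α z‖ ≤ K ∧ ‖dbar β z‖ ≤ K) →
    (∀ z : ℂ, z ≠ 0 → α z = z⁻¹ - (z ^ 2)⁻¹ * β z⁻¹) →
    ∀ z, ‖α z‖ ≤ C * (1 + K) ∧ ‖β z‖ ≤ C * (1 + K)

/-- K11: Arzela-Ascoli on the plane. -/
def AAStmt : Prop :=
  ∀ (E : Type) [NormedAddCommGroup E] [ProperSpace E] (F : ℕ → ℂ → E),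
    (∀ r : ℝ, ∃ L : ℝ, ∀ᶠ n in atTop, ∀ z ∈ ball (0 : ℂ) r, ‖F n z‖ ≤ L ∧
      ∀ z' ∈ ball (0 : ℂ) r, ‖F n z - F n z'‖ ≤ L * ‖z - z'‖) →
    ∃ (ψ : ℕ → ℕ) (G : ℂ → E), StrictMono ψ ∧ Continuous G ∧
      ∀ r : ℝ, TendstoUniformlyOn (fun n => F (ψ n)) G atTop (ball 0 r)

/-- K12: the Harnack inequality. -/
def HarnackStmt : Prop :=
  ∀ (w : ℂ → V) (r C : ℝ), 0 ≤ C → DifferentiableOn ℝ w (ball 0 r) →
    (∀ z ∈ ball (0 : ℂ) r, ‖fderiv ℝ w z‖ ≤ C * ‖w z‖) →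
    ∀ z ∈ ball (0 : ℂ) r, ∀ z' ∈ ball (0 : ℂ) r, ‖w z‖ ≤ Real.exp (C * ‖z - z'‖) * ‖w z'‖

/-- K13: `C¹` limits on the plane. -/
def LimitStmt : Prop :=
  ∀ (P : Type) [TopologicalSpace P] (φ : P → Fr) (p : ℕ → P) (p₀ : P) (w : ℕ → ℂ → V) (z₀ : ℂ)
    (C : ℝ), FrFam φ → Tendsto p atTop (𝓝 p₀) → 0 ≤ C → (∀ᶠ n in atTop, ‖w n z₀‖ = 1) →
    (∀ r : ℝ, ∀ᶠ n in atTop, ContDiffOn ℝ 1 (w n) (ball 0 r) ∧ CR (φ (p n)).A (w n) (ball 0 r) ∧
      ∀ z ∈ ball (0 : ℂ) r, ‖fderiv ℝ (w n) z‖ ≤ C * ‖w n z‖) →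
    ∃ (ψ : ℕ → ℕ) (u : ℂ → V), StrictMono ψ ∧ ContDiff ℝ 1 u ∧ (∀ z, u z ≠ 0) ∧
      CR (φ p₀).A u univ ∧ LConv (fun n => w (ψ n)) u

/-- Solutions on growing discs with energy density at most `1` and bounded energy. -/
def Grow {P : Type} (φ : P → Fr) (om : P → Symp 1) (p : ℕ → P) (u : ℕ → ℂ → V) (R : ℕ → ℝ)
    (E : ℝ) : Prop :=
  Tendsto R atTop atTop ∧ ∀ᶠ n in atTop, ContDiffOn ℝ 1 (u n) (ball 0 (R n)) ∧
    (∀ z ∈ ball (0 : ℂ) (R n), u n z ≠ 0 ∧ dens (om (p n)) (u n) z ≤ 1) ∧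
    CR (φ (p n)).A (u n) (ball 0 (R n)) ∧ dens (om (p n)) (u n) 0 = 1 ∧
    ∫ z in ball (0 : ℂ) (R n), dens (om (p n)) (u n) z ≤ E

/-- K14: a good gauge on growing discs. -/
def RegaugeStmt : Prop :=
  ∀ (P : Type) [TopologicalSpace P] (φ : P → Fr) (om : P → Symp 1) (p : ℕ → P) (p₀ : P)
    (u : ℕ → ℂ → V) (R : ℕ → ℝ) (E : ℝ), FrFam φ → Continuous om → (∀ a, Tame (φ a).J (om a)) →
    Tendsto p atTop (𝓝 p₀) → Grow φ om p u R E →
    ∃ (w : ℕ → ℂ → V) (C : ℝ), 0 ≤ C ∧ ∀ᶠ n in atTop, ‖w n 0‖ = 1 ∧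
      ContDiffOn ℝ 1 (w n) (ball 0 (R n)) ∧ CR (φ (p n)).A (w n) (ball 0 (R n)) ∧
      ∀ z ∈ ball (0 : ℂ) (R n), ‖fderiv ℝ (w n) z‖ ≤ C * ‖w n z‖ ∧
        dens (om (p n)) (w n) z = dens (om (p n)) (u n) z

/-- K15: the measure theory of the bubble. -/
def QuantStmt : Prop :=
  ∀ (e : ℕ → ℂ → ℝ) (e' : ℂ → ℝ) (R : ℕ → ℝ) (E : ℝ), Tendsto R atTop atTop → Continuous e' →
    (∀ z, Tendsto (fun n => e n z) atTop (𝓝 (e' z))) →
    (∀ᶠ n in atTop, ContinuousOn (e n) (ball 0 (R n)) ∧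
      (∀ z ∈ ball (0 : ℂ) (R n), 0 ≤ e n z ∧ e n z ≤ 1) ∧ e n 0 = 1 ∧
      ∫ z in ball (0 : ℂ) (R n), e n z ≤ E) →
    Integrable e' ∧ ((∃ k : ℤ, ∫ z, e' z = 2 * Real.pi * k) → ∀ ε : ℝ, 0 < ε →
      ∃ r : ℝ, 0 < r ∧ ∀ᶠ n in atTop, 2 * Real.pi - ε ≤ ∫ z in ball (0 : ℂ) r, e n z)

/-- K16: a bubble carries at least the energy of a line. -/
def BubbleStmt : Prop :=
  ∀ (P : Type) [TopologicalSpace P] (φ : P → Fr) (om : P → Symp 1) (p : ℕ → P) (p₀ : P)
    (u : ℕ → ℂ → V) (R : ℕ → ℝ) (E : ℝ), FrFam φ → Continuous om → (∀ a, Tame (φ a).J (om a)) →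
    Tendsto p atTop (𝓝 p₀) → Grow φ om p u R E → ∀ ε : ℝ, 0 < ε →
    ∃ r : ℝ, 0 < r ∧ ∃ᶠ n in atTop,
      2 * Real.pi - ε ≤ ∫ z in ball (0 : ℂ) r, dens (om (p n)) (u n) z

/-- K17: holomorphic change of variables. -/
def CoVStmt : Prop :=
  ∀ (e : ℂ → ℝ) (g g' : ℂ → ℂ) (S : Set ℂ), MeasurableSet S → (∀ z ∈ S, HasDerivAt g (g' z) z) →
    InjOn g S → ∫ z in g '' S, e z = ∫ z in S, ‖g' z‖ ^ 2 * e (g z)

/-- K18: normalisation at the maximum of the energy density. -/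
def NormStmt : Prop :=
  ∀ (φ : Fr) (σ : Symp 1) (U : W → V), Tame φ.J σ → IsLine φ.J U →
    ∃ g : W ≃L[ℂ] W, (∀ z, dens σ (c0 (U ∘ g)) z ≤ 1) ∧ dens σ (c0 (U ∘ g)) 0 = 1 ∧
      ‖U (g (1, 1))‖ = 1

/-- K19: the energy near infinity. -/
def InvStmt : Prop :=
  ∀ (φ : Fr) (σ : Symp 1) (U : W → V) (r : ℝ), Tame φ.J σ → IsLine φ.J U → 0 < r →
    Integrable (dens σ (c1 U)) ∧ ∫ z, dens σ (c1 U) z = 2 * Real.pi ∧
      (∫ z in ball (0 : ℂ) r⁻¹, dens σ (c1 U) z) + ∫ z in ball (0 : ℂ) r, dens σ (c0 U) z ≤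
        2 * Real.pi

/-- K20: no bubbling at infinity. -/
def OuterStmt : Prop :=
  ∀ (P : Type) [TopologicalSpace P] (φ : P → Fr) (om : P → Symp 1) (p : ℕ → P) (p₀ : P)
    (U : ℕ → W → V) (r : ℝ), FrFam φ → Continuous om → (∀ a, Tame (φ a).J (om a)) →
    Tendsto p atTop (𝓝 p₀) → 0 < r → (∀ n, IsLine (φ (p n)).J (U n)) →
    (∀ n z, dens (om (p n)) (c0 (U n)) z ≤ 1) →
    (∀ n, ∫ z in ball (0 : ℂ) r, dens (om (p n)) (c1 (U n)) z ≤ Real.pi) →
    ∃ M : ℝ, ∃ᶠ n in atTop, ∀ z, dens (om (p n)) (c1 (U n)) z ≤ M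

/-- K21: gluing two charts. -/
def GlueAStmt : Prop :=
  ∀ (φ : Fr) (u v : ℂ → V), ContDiff ℝ 1 u → ContDiff ℝ 1 v → (∀ z, u z ≠ 0) → (∀ z, v z ≠ 0) →
    CR φ.A u univ → CR φ.A v univ → (∀ z : ℂ, z ≠ 0 → u z = z • v z⁻¹) →
    ∃ U, IsLine φ.J U ∧ c0 U = u ∧ c1 U = v

/-- K22: convergence in the two charts. -/
def GlueBStmt : Prop :=
  ∀ (U : ℕ → W → V) (U' : W → V),
    (∀ n, ContDiffOn ℝ 1 (U n) {0}ᶜ ∧ ∀ (c : ℂ) q, U n (c • q) = c • U n q) →
    ContDiffOn ℝ 1 U' {0}ᶜ → (∀ (c : ℂ) q, U' (c • q) = c • U' q) →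
    LConv (fun n => c0 (U n)) (c0 U') → LConv (fun n => c1 (U n)) (c1 U') → Conv U U'

end Pool.Agent.MP_2fc7fa_gt.N

end
end

section

/-! Assembly of the compactness theorem from the K statements. -/

open scoped ContDiff ComplexConjugate Topology
open Set Complex Filter Metric MeasureTheory

noncomputable section

namespace Pool.Agent.MP_2fc7fa_gt.N

theorem grad_KMain (hE : EnLineStmt) (hL : LineStmt) (hD : DensStmt) (hB : BubbleStmt)
    (hN : NormStmt) (hI : InvStmt) (hO : OuterStmt)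
    (P : Type) [TopologicalSpace P] (φ : P → Fr) (om : P → Symp 1) (p : ℕ → P) (p₀ : P)
    (U : ℕ → W → V) (hφ : FrFam φ) (hom : Continuous om) (hT : ∀ a, Tame (φ a).J (om a))
    (hp : Tendsto p atTop (𝓝 p₀)) (hU : ∀ n, IsLine (φ (p n)).J (U n)) :
    ∃ (ψ : ℕ → ℕ) (g : ℕ → W ≃L[ℂ] W) (M : ℝ), StrictMono ψ ∧ ∀ n,
      ‖U (ψ n) (g n (1, 1))‖ = 1 ∧ ∀ z, dens (om (p (ψ n))) (c0 (U (ψ n) ∘ g n)) z ≤ M ∧
        dens (om (p (ψ n))) (c1 (U (ψ n) ∘ g n)) z ≤ M := by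
  choose g hg1 hg0 hgn using fun n => hN (φ (p n)) (om (p n)) (U n) (hT _) (hU n)
  have hU' : ∀ n, IsLine (φ (p n)).J (U n ∘ g n) := fun n =>
    (hL (φ (p n)) (om (p n)) (U n) (hU n)).1 (g n)
  have hG : Grow φ om p (fun n => c0 (U n ∘ g n)) (fun n => (n : ℝ)) (2 * Real.pi) := by
    refine ⟨tendsto_natCast_atTop_atTop, Eventually.of_forall fun n => ?_⟩
    obtain ⟨-, ⟨h1, h2, h3⟩, -⟩ := hL (φ (p n)) (om (p n)) _ (hU' n)
    obtain ⟨hi, he⟩ := hE (φ (p n)) (om (p n)) _ (hU' n)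
    refine ⟨h1.contDiffOn, fun z _ => ⟨h2 z, hg1 n z⟩, fun z _ => h3 z trivial, hg0 n, ?_⟩
    rw [← he]
    exact setIntegral_le_integral hi (Eventually.of_forall fun z =>
      hD.1 (φ (p n)) (om (p n)) _ z (hT _) (h2 z) fun t _ => h3 t trivial)
  obtain ⟨r, hr, hfr⟩ := hB P φ om p p₀ _ _ _ hφ hom hT hp hG Real.pi Real.pi_pos
  obtain ⟨ψ₁, hψ₁, h₁⟩ := extraction_of_frequently_atTop hfr
  obtain ⟨M, hM⟩ := hO P φ om (fun n => p (ψ₁ n)) p₀ (fun n => U (ψ₁ n) ∘ g (ψ₁ n)) r⁻¹ hφ hom hT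
    (hp.comp hψ₁.tendsto_atTop) (inv_pos.2 hr) (fun n => hU' _) (fun n z => hg1 _ z) fun n => by
      have h := (hI (φ (p (ψ₁ n))) (om (p (ψ₁ n))) _ r (hT _) (hU' (ψ₁ n)) hr).2.2
      have h' := h₁ n
      linarith
  obtain ⟨ψ₂, hψ₂, h₂⟩ := extraction_of_frequently_atTop hM
  exact ⟨fun n => ψ₁ (ψ₂ n), fun n => g (ψ₁ (ψ₂ n)), max M 1, hψ₁.comp hψ₂, fun n =>
    ⟨hgn _, fun z => ⟨(hg1 _ z).trans (le_max_right _ _), (h₂ n z).trans (le_max_left _ _)⟩⟩⟩

theorem LConv.sub_KMain {w : ℕ → ℂ → V} {u : ℂ → V} (h : LConv w u) {ψ : ℕ → ℕ}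
    (hψ : StrictMono ψ) : LConv (fun n => w (ψ n)) u := fun r =>
  ⟨fun s hs => hψ.tendsto_atTop.eventually ((h r).1 s hs),
    fun s hs => hψ.tendsto_atTop.eventually ((h r).2 s hs)⟩

theorem LConv.at_KMain {w : ℕ → ℂ → V} {u : ℂ → V} (h : LConv w u) (z : ℂ) :
    Tendsto (fun n => w n z) atTop (𝓝 (u z)) :=
  (h (‖z‖ + 1)).1.tendsto_at (by simp)

theorem kMain (hE : EnLineStmt) (hL : LineStmt) (hD : DensStmt) (hB : BubbleStmt)
    (hN : NormStmt) (hI : InvStmt) (hO : OuterStmt) (hA : AlphaStmt) (hM : AMPStmt)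
    (hLim : LimitStmt) (hGA : GlueAStmt) (hGB : GlueBStmt) : CompactStmt := by
  intro P _ φ om p p₀ U hφ hom hT hp hU
  obtain ⟨ψ, g, M, hψ, hg⟩ := grad_KMain hE hL hD hB hN hI hO P φ om p p₀ U hφ hom hT hp hU
  obtain ⟨C, hC, hev⟩ := hA P φ om p₀ hφ hom hT
  obtain ⟨C', hC', hM⟩ := hM
  have hp' : Tendsto (fun n => p (ψ n)) atTop (𝓝 p₀) := hp.comp hψ.tendsto_atTop
  have hU' : ∀ n, IsLine (φ (p (ψ n))).J (U (ψ n) ∘ g n) := fun n =>
    (hL (φ (p (ψ n))) (om (p (ψ n))) _ (hU _)).1 (g n)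
  set K := C * (1 + |C' * (1 + C * M)| + |M|) with hK
  have hK0 : 0 ≤ K := by positivity
  have key : ∀ᶠ n in atTop,
      (∀ z, ‖fderiv ℝ (c0 (U (ψ n) ∘ g n)) z‖ ≤ K * ‖c0 (U (ψ n) ∘ g n) z‖) ∧
      ∀ z, ‖fderiv ℝ (c1 (U (ψ n) ∘ g n)) z‖ ≤ K * ‖c1 (U (ψ n) ∘ g n) z‖ := by
    filter_upwards [hp'.eventually hev] with n hn
    obtain ⟨-, ⟨a1, a2, a3⟩, ⟨b1, b2, b3⟩, hrel⟩ := hL (φ (p (ψ n))) (om (p (ψ n))) _ (hU' n)
    obtain ⟨a4, a5⟩ := hn _ univ isOpen_univ a1.contDiffOn (fun z _ => a2 z) a3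
    obtain ⟨b4, b5⟩ := hn _ univ isOpen_univ b1.contDiffOn (fun z _ => b2 z) b3
    have hb := hM _ _ (C * M) (contDiffOn_univ.1 a4) (contDiffOn_univ.1 b4)
      (fun z => ⟨(a5 z trivial).1.trans (mul_le_mul_of_nonneg_left ((hg n).2 z).1 hC.le),
        (b5 z trivial).1.trans (mul_le_mul_of_nonneg_left ((hg n).2 z).2 hC.le)⟩)
      fun z hz => (hrel z hz).1
    refine ⟨fun z => (a5 z trivial).2.trans ?_, fun z => (b5 z trivial).2.trans ?_⟩
    · refine mul_le_mul_of_nonneg_right (mul_le_mul_of_nonneg_left ?_ hC.le) (norm_nonneg _)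
      have := (hb z).1.trans (le_abs_self _)
      have := ((hg n).2 z).1.trans (le_abs_self _)
      linarith
    · refine mul_le_mul_of_nonneg_right (mul_le_mul_of_nonneg_left ?_ hC.le) (norm_nonneg _)
      have := (hb z).2.trans (le_abs_self _)
      have := ((hg n).2 z).2.trans (le_abs_self _)
      linarith
  obtain ⟨ψ₁, u, hψ₁, u1, u2, u3, u4⟩ := hLim P φ (fun n => p (ψ n)) p₀
    (fun n => c0 (U (ψ n) ∘ g n)) 1 K hφ hp' hK0 (Eventually.of_forall fun n => (hg n).1)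
    fun r => key.mono fun n hn => by
      obtain ⟨-, ⟨a1, -, a3⟩, -⟩ := hL (φ (p (ψ n))) (om (p (ψ n))) _ (hU' n)
      exact ⟨a1.contDiffOn, fun z _ => a3 z trivial, fun z _ => hn.1 z⟩
  obtain ⟨ψ₂, v, hψ₂, v1, v2, v3, v4⟩ := hLim P φ (fun n => p (ψ (ψ₁ n))) p₀
    (fun n => c1 (U (ψ (ψ₁ n)) ∘ g (ψ₁ n))) 1 K hφ (hp'.comp hψ₁.tendsto_atTop) hK0
    (Eventually.of_forall fun n => (hg (ψ₁ n)).1)
    fun r => (hψ₁.tendsto_atTop.eventually key).mono fun n hn => by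
      obtain ⟨-, -, ⟨b1, -, b3⟩, -⟩ := hL (φ (p (ψ (ψ₁ n)))) (om (p (ψ (ψ₁ n)))) _ (hU' (ψ₁ n))
      exact ⟨b1.contDiffOn, fun z _ => b3 z trivial, fun z _ => hn.2 z⟩
  have u5 := u4.sub_KMain hψ₂
  have hrel : ∀ z : ℂ, z ≠ 0 → u z = z • v z⁻¹ := fun z hz => by
    refine tendsto_nhds_unique (u5.at_KMain z) (((v4.at_KMain z⁻¹).const_smul z).congr fun n => ?_)
    rw [c1, ← (hU' _).hom, c0]
    simp [hz]
  obtain ⟨U', hl, e0, e1⟩ := hGA (φ p₀) u v u1 v1 u2 v2 u3 v3 hrel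
  refine ⟨fun n => ψ (ψ₁ (ψ₂ n)), fun n => g (ψ₁ (ψ₂ n)), U', hψ.comp (hψ₁.comp hψ₂), hl, ?_⟩
  exact hGB _ U' (fun n => ⟨(hU' _).c1, (hU' _).hom⟩) hl.c1 hl.hom (e0 ▸ u5) (e1 ▸ v4)

end Pool.Agent.MP_2fc7fa_gt.N

end
end

section

/-! Joint continuity of a continuous family of forms. -/

open scoped ContDiff ComplexConjugate Topology
open Set Complex Filter Metric MeasureTheory

namespace Pool.Agent.MP_2fc7fa_gt.N

theorem kForm : FormStmt := by
  intro P _ om h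
  have hU : IsOpen ({0}ᶜ : Set V) := isOpen_compl_singleton
  have := hU.locallyCompactSpace
  have h2 : Continuous fun σ : Symp 1 => σ.jet 0 :=
    continuous_iInf_dom (i := 0) continuous_induced_dom
  have h3 : JC {0}ᶜ fun p => iteratedFDeriv ℝ 0 (om p).form := by
    rw [JC, continuousOn_iff_continuous_domRestrict]
    exact continuous_eval.comp (f := fun q : (univ ×ˢ {0}ᶜ : Set (P × V)) =>
      ((om q.1.1).jet 0, (⟨q.1.2, q.2.2⟩ : ({0}ᶜ : Set V)))) (by fun_prop)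
  exact (continuous_eval_const (0 : Fin 0 → V)).comp_continuousOn h3

end Pool.Agent.MP_2fc7fa_gt.N

end

section

/-! Uniform taming. -/

open scoped Topology
open Set Complex Filter Metric

namespace Pool.Agent.MP_2fc7fa_gt.N

theorem hor_KTame (σ : Symp 1) (x a b : V) (c d : ℂ) :
    σ.form x ![c • x + a, d • x + b] = σ.form x ![a, b] := by
  have e : ∀ y, ![a, y] = Function.update ![a, 0] 1 y := fun y => by
    ext1 i
    fin_cases i <;> rfl
  rw [ContinuousAlternatingMap.vecCons_add, σ.isForm.horiz x _ 0 c rfl, zero_add, e,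
    ContinuousAlternatingMap.map_update_add, ← e, ← e, σ.isForm.horiz x _ 1 d rfl, zero_add]

theorem red_KTame (φ : Fr) (σ : Symp 1) {x : V} (hx : x ≠ 0) (v : V) :
    σ.form x ![v, φ.J x v] =
      σ.form x ![φ.B x (hp x (φ.A x v)), φ.B x (I • hp x (φ.A x v))] := by
  rw [← hor_KTame σ x (φ.B x _) _ (vc x (φ.A x v)) (I * vc x (φ.A x v)), ← φ.vert x hx,
    ← φ.vert x hx (I * _), ← map_add, ← map_add, hp, smul_sub, smul_smul, add_sub_cancel,
    add_sub_cancel, φ.BA x hx, Fr.J]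

theorem scale_KTame (φ : Fr) (σ : Symp 1) {x : V} (hx : x ≠ 0) {s : ℝ} (hs : s ≠ 0) (m : ℝ)
    (a b : V) : s ^ 2 * σ.form (s • x) ![φ.B (s • x) (m • a), φ.B (s • x) (m • b)] =
      m ^ 2 * σ.form x ![φ.B x a, φ.B x b] := by
  have hs' : (s : ℂ) ≠ 0 := ofReal_ne_zero.2 hs
  have h1 : ∀ a, φ.B (s • x) (m • a) = (s : ℂ) • (m / s) • φ.B x a := fun a => by
    rw [← map_smul, ← φ.scale x hx s hs', Complex.coe_smul, Complex.coe_smul, smul_smul,
      mul_div_cancel₀ _ hs]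
  have h2 := σ.isForm.scale s hs' x fun i => (m / s) • ![φ.B x a, φ.B x b] i
  rw [ContinuousAlternatingMap.map_smul_univ _ (fun _ => m / s), Complex.coe_smul] at h2
  rw [h1, h1, show ![(s : ℂ) • (m / s) • φ.B x a, (s : ℂ) • (m / s) • φ.B x b] =
    (s : ℂ) • fun i => (m / s) • ![φ.B x a, φ.B x b] i from by
      ext1 i
      fin_cases i <;> rfl, h2]
  simp only [Finset.prod_const, Finset.card_univ, Fintype.card_fin, smul_eq_mul]
  field_simp

theorem kTame (hF : FormStmt) : TameKStmt := by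
  intro P _ φ om p₀ hφ hom hT
  have hne : ∀ {x : V}, x ∈ sphere (0 : V) 1 → x ≠ 0 := fun h e => by simp [e] at h
  obtain ⟨K, hK⟩ : ∃ K : Set (V × V),
      K = sphere 0 1 ×ˢ sphere 0 1 ∩ (fun k => vc k.1 k.2) ⁻¹' {0} := ⟨_, rfl⟩
  have hc := (isCompact_sphere (0 : V) 1).prod (isCompact_sphere (0 : V) 1)
  have h1 : IsCompact K := hK ▸ hc.of_isClosed_subset (ContinuousOn.preimage_isClosed_of_isClosed
    ((vc_smooth.continuousOn.comp continuousOn_fst fun k hk => hne hk.1).clm_apply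
      continuousOn_snd) hc.isClosed isClosed_singleton) inter_subset_left
  have h0 : ∀ {E : Type} [TopologicalSpace E] {G : P → V → E}, JC {0}ᶜ G → ∀ k ∈ K,
      ContinuousAt (fun z : P × V × V => G z.1 z.2.1) (p₀, k) := fun hG k hk =>
    ContinuousAt.comp (f := fun z : P × V × V => (z.1, z.2.1)) (hG.continuousAt
      ((isOpen_univ.prod isOpen_compl_singleton).mem_nhds ⟨trivial, hne (hK ▸ hk).1.1⟩))
      (by fun_prop)
  have h2 : ∀ k ∈ K, ContinuousAt (fun z : P × V × V => (om z.1).form z.2.1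
      ![(φ z.1).B z.2.1 z.2.2, (φ z.1).B z.2.1 (I • z.2.2)]) (p₀, k) := fun k hk => by
    have hB := h0 (hφ 0).1.jc k hk
    refine (h0 (hF P om hom) k hk).eval (continuousAt_pi.2 fun i => ?_)
    fin_cases i
    · exact hB.clm_apply (by fun_prop)
    · exact hB.clm_apply (by fun_prop)
  obtain ⟨c, hc0, h3⟩ := h1.exists_forall_le' (a := 0) (f := fun k : V × V => (om p₀).form k.1
      ![(φ p₀).B k.1 k.2, (φ p₀).B k.1 (I • k.2)])
    (fun k hk => (ContinuousAt.comp (f := fun k => (p₀, k)) (h2 k hk)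
      (by fun_prop)).continuousWithinAt) fun k hk => by
      obtain ⟨⟨e1, e2⟩, e3⟩ := hK ▸ hk
      have := hT p₀ k.1 (hne e1) ((φ p₀).B k.1 k.2) fun d hd => by
        have e4 := congrArg ((φ p₀).A k.1) hd
        rw [Fr.AB _ _ (hne e1), Fr.A_vert _ (hne e1)] at e4
        have e5 : vc k.1 k.2 = 0 := e3
        rw [e4, vc_smul, vc_self (hne e1), mul_one] at e5
        exact hne e2 (by rw [e4, e5, zero_smul])
      rwa [Fr.J, Fr.AB _ _ (hne e1)] at this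
  refine ⟨2 / c, by positivity, ?_⟩
  filter_upwards [h1.eventually_forall_of_forall_eventually (x₀ := p₀) (P := fun p k => c / 2 <
    (om p).form k.1 ![(φ p).B k.1 k.2, (φ p).B k.1 (I • k.2)]) fun k hk =>
      (h2 k hk).eventually (lt_mem_nhds ((half_lt_self hc0).trans_le (h3 k hk)))] with p h4 x hx v
  rw [red_KTame _ _ hx]
  have h5 := vc_hp hx ((φ p).A x v)
  generalize hp x ((φ p).A x v) = t at h5 ⊢
  have hs := norm_ne_zero_iff.2 hx
  have hx1 : ‖x‖⁻¹ • x ≠ 0 := smul_ne_zero (inv_ne_zero hs) hx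
  have h6 := scale_KTame (φ p) (om p) hx1 hs ‖t‖ (‖t‖⁻¹ • t) (I • ‖t‖⁻¹ • t)
  by_cases ht : t = 0
  · rw [(om p).isForm.horiz x _ 0 0 (by simp [ht]), ht]
    simp
  have hm := norm_ne_zero_iff.2 ht
  rw [smul_inv_smul₀ hs, smul_inv_smul₀ hm, smul_comm _ I, smul_inv_smul₀ hm] at h6
  have h7 := h4 (‖x‖⁻¹ • x, ‖t‖⁻¹ • t) (hK ▸ ⟨⟨by simp [norm_smul, hs], by simp [norm_smul, hm]⟩, by
    have := vc_scale (ofReal_ne_zero.2 (inv_ne_zero hs)) x t
    rw [vc_smul, h5, Complex.coe_smul, mul_eq_zero_iff_left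
      (ofReal_ne_zero.2 (inv_ne_zero hs))] at this
    change vc _ (_ • t) = 0
    rw [map_smul, this, smul_zero]⟩)
  rw [mul_assoc, h6, mul_left_comm]
  refine le_mul_of_one_le_right (sq_nonneg _) ?_
  rw [div_mul_eq_mul_div, one_le_div hc0]
  linarith

end Pool.Agent.MP_2fc7fa_gt.N

end

section

/-! The differential of the connection form is basic, with uniform bounds. -/

open scoped ContDiff ComplexConjugate Topology
open Set Complex Filter Metric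

noncomputable section

namespace Pool.Agent.MP_2fc7fa_gt.N

theorem bound_KCurv {P E : Type} [TopologicalSpace P] [NormedAddCommGroup E] {F : P → V → E}
    (h : JC {0}ᶜ F) (p₀ : P) :
    ∃ M : ℝ, 0 < M ∧ ∀ᶠ p in 𝓝 p₀, ∀ x : V, ‖x‖ = 1 → ‖F p x‖ ≤ M := by
  have hs : sphere (0 : V) 1 ⊆ {0}ᶜ := by
    rintro x hx rfl
    simp at hx
  obtain ⟨C, hC⟩ := (isCompact_sphere (0 : V) 1).exists_bound_of_continuousOn
    ((h.at p₀).mono hs)
  refine ⟨|C| + 1, by positivity, ?_⟩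
  have := (isCompact_sphere (0 : V) 1).eventually_forall_of_forall_eventually (x₀ := p₀)
    (P := fun p x => ‖F p x‖ ≤ |C| + 1) fun x hx => by
      have h1 : ContinuousAt (fun q : P × V => F q.1 q.2) (p₀, x) :=
        ContinuousOn.continuousAt h ((isOpen_univ.prod isOpen_compl_singleton).mem_nhds
          ⟨mem_univ _, hs hx⟩)
      exact h1.norm.eventually_le_const
        (lt_of_le_of_lt ((hC x hx).trans (le_abs_self C)) (lt_add_one _))
  exact this.mono fun p hp x hx => hp x (by simpa using hx)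

theorem dcf_KCurv (φ : Fr) {x : V} (hx : x ≠ 0) :
    HasFDerivAt (cf φ) (fderiv ℝ (cf φ) x) x :=
  (((cf_smooth φ).contDiffAt (isOpen_compl_singleton.mem_nhds hx)).differentiableAt
    (by simp)).hasFDerivAt

theorem right_KCurv (φ : Fr) {x : V} (hx : x ≠ 0) (c : ℂ) (b : V) :
    fderiv ℝ (cf φ) x b (c • x) = -cf φ x (c • b) := by
  have h1 := (dcf_KCurv φ hx).clm_apply ((hasFDerivAt_id x).const_smul c)
  have h2 : HasFDerivAt (fun y : V => cf φ y (c • y)) (0 : V →L[ℝ] ℂ) x :=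
    (hasFDerivAt_const c x).congr_of_eventuallyEq
      ((eventually_ne_nhds hx).mono fun y hy => cf_vert φ hy c)
  have h3 := congrArg (fun T : V →L[ℝ] ℂ => T b) (h1.unique h2)
  simp at h3
  exact eq_neg_of_add_eq_zero_right h3

theorem left_KCurv (φ : Fr) {x : V} (hx : x ≠ 0) (c : ℂ) (b : V) :
    fderiv ℝ (cf φ) x (c • x) b = -cf φ x (c • b) := by
  have h0 : HasFDerivAt (cf φ) (fderiv ℝ (cf φ) x) ((1 : ℂ) • x) := by
    rw [one_smul]
    exact dcf_KCurv φ hx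
  have h1 := (h0.comp (1 : ℂ) ((hasFDerivAt_id (𝕜 := ℝ) (1 : ℂ)).smul_const x)).clm_apply
    ((hasFDerivAt_id (𝕜 := ℝ) (1 : ℂ)).smul_const b)
  have h2 : HasFDerivAt (fun s : ℂ => cf φ (s • x) (s • b)) (0 : ℂ →L[ℝ] ℂ) 1 :=
    (hasFDerivAt_const (cf φ x b) (1 : ℂ)).congr_of_eventuallyEq
      ((eventually_ne_nhds one_ne_zero).mono fun s hs => cf_scale φ hx hs b)
  have h3 := congrArg (fun T : ℂ →L[ℝ] ℂ => T c) (h1.unique h2)
  simp at h3
  exact eq_neg_of_add_eq_zero_right h3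

theorem scale_KCurv (φ : Fr) {x : V} (hx : x ≠ 0) {c : ℂ} (hc : c ≠ 0) (a b : V) :
    fderiv ℝ (cf φ) (c • x) (c • a) (c • b) = fderiv ℝ (cf φ) x a b := by
  have h1 := ((dcf_KCurv φ (smul_ne_zero hc hx)).comp x
    ((hasFDerivAt_id x).const_smul c)).clm_apply (hasFDerivAt_const (c • b) x)
  have h2 : HasFDerivAt (fun y : V => cf φ (c • y) (c • b)) _ x :=
    ((dcf_KCurv φ hx).clm_apply (hasFDerivAt_const b x)).congr_of_eventuallyEq
      ((eventually_ne_nhds hx).mono fun y hy => cf_scale φ hy hc b)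
  simpa using congrArg (fun T : V →L[ℝ] ℂ => T a) (h1.unique h2)

theorem split_KCurv (φ : Fr) {x : V} (hx : x ≠ 0) (a : V) :
    a = vc x (φ.A x a) • x + φ.B x (hp x (φ.A x a)) := by
  rw [hp, map_sub, φ.BA x hx, φ.vert x hx, add_sub_cancel]

theorem basic_KCurv (φ : Fr) {x : V} (hx : x ≠ 0) (c d : ℂ) (a b : V) :
    fderiv ℝ (cf φ) x (c • x + a) (d • x + b) - fderiv ℝ (cf φ) x (d • x + b) (c • x + a) =
      fderiv ℝ (cf φ) x a b - fderiv ℝ (cf φ) x b a := by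
  simp only [map_add, add_apply, left_KCurv φ hx, right_KCurv φ hx, smul_comm c d x]
  ring

theorem kCurv : CurvStmt := by
  intro P _ φ p₀ hφ
  have hU : UniqueDiffOn ℝ ({0}ᶜ : Set V) := isOpen_compl_singleton.uniqueDiffOn
  have f1 : Fam {0}ᶜ 1 (V →L[ℝ] ℂ) fun p => cf (φ p) :=
    (fam_of_contDiffOn (P := P) hU vc_smooth).bilin (hφ 1).2 (ContinuousLinearMap.compL ℝ V V ℂ)
  have f2 : JC {0}ᶜ fun p => fderiv ℝ (cf (φ p)) :=
    ((f1.fderivWithin hU).congr fun p x hx =>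
      (fderivWithin_of_isOpen isOpen_compl_singleton hx).symm).jc
  obtain ⟨M, hM, h1⟩ := bound_KCurv (E := V →L[ℝ] V →L[ℝ] ℂ) f2 p₀
  obtain ⟨K, hK, h2⟩ := bound_KCurv (hφ 0).1.jc p₀
  refine ⟨K + 2 * M * K ^ 2, by positivity, ?_⟩
  filter_upwards [h1, h2] with p h1 h2 x hx
  have hs : 0 < ‖x‖ := norm_pos_iff.2 hx
  have hs' : ((‖x‖ : ℝ) : ℂ) ≠ 0 := ofReal_ne_zero.2 hs.ne'
  obtain ⟨y, hy, e⟩ : ∃ y : V, ‖y‖ = 1 ∧ x = ((‖x‖ : ℝ) : ℂ) • y :=
    ⟨((‖x‖ : ℝ) : ℂ)⁻¹ • x, by simp [norm_smul, hs.ne'], by rw [smul_inv_smul₀ hs']⟩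
  have hy0 : y ≠ 0 := by
    rintro rfl
    simp at hy
  have hB : (φ p).B x = (φ p).B y := by
    ext1 v
    have := (φ p).scale y hy0 _ hs' v
    rw [← e, coe_smul, coe_smul, map_smul] at this
    exact smul_right_injective V hs.ne' this
  have hB' : ‖(φ p).B x‖ ≤ K := hB ▸ h2 y hy
  have hD : ∀ a b : V, ‖fderiv ℝ (cf (φ p)) x a b‖ * ‖x‖ ^ 2 ≤ M * ‖a‖ * ‖b‖ := by
    intro a b
    have := scale_KCurv (φ p) hy0 hs' a b
    rw [← e, coe_smul, coe_smul, map_smul, map_smul, smul_apply] at this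
    calc ‖fderiv ℝ (cf (φ p)) x a b‖ * ‖x‖ ^ 2 = ‖fderiv ℝ (cf (φ p)) y a b‖ := by
          rw [← this, norm_smul, norm_smul, norm_norm]
          ring
      _ ≤ ‖fderiv ℝ (cf (φ p)) y‖ * ‖a‖ * ‖b‖ := ContinuousLinearMap.le_opNorm₂ _ _ _
      _ ≤ M * ‖a‖ * ‖b‖ := by
          gcongr
          exact h1 y hy
  refine ⟨hB'.trans (le_add_of_nonneg_right (by positivity)), fun a b => ?_⟩
  have e1 := basic_KCurv (φ p) hx (vc x ((φ p).A x a)) (vc x ((φ p).A x b))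
    ((φ p).B x (hp x ((φ p).A x a))) ((φ p).B x (hp x ((φ p).A x b)))
  rw [← split_KCurv (φ p) hx, ← split_KCurv (φ p) hx] at e1
  rw [e1]
  generalize hp x ((φ p).A x a) = a', hp x ((φ p).A x b) = b'
  have ha : ‖(φ p).B x a'‖ ≤ K * ‖a'‖ := (ContinuousLinearMap.le_of_opNorm_le _ hB' a')
  have hb : ‖(φ p).B x b'‖ ≤ K * ‖b'‖ := (ContinuousLinearMap.le_of_opNorm_le _ hB' b')
  have h3 := hD ((φ p).B x a') ((φ p).B x b')
  have h4 := hD ((φ p).B x b') ((φ p).B x a')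
  have h5 : M * ‖(φ p).B x a'‖ * ‖(φ p).B x b'‖ ≤ M * (K * ‖a'‖) * (K * ‖b'‖) := by gcongr
  have h6 := mul_le_mul_of_nonneg_right (norm_sub_le
    (fderiv ℝ (cf (φ p)) x ((φ p).B x a') ((φ p).B x b'))
    (fderiv ℝ (cf (φ p)) x ((φ p).B x b') ((φ p).B x a'))) (sq_nonneg ‖x‖)
  have h7 : 0 ≤ K * ‖a'‖ * ‖b'‖ := by positivity
  nlinarith

end Pool.Agent.MP_2fc7fa_gt.N

end
end

section

open scoped ContDiff ComplexConjugate Topology
open Set Complex Filter Metric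

noncomputable section

namespace Pool.Agent.MP_2fc7fa_gt.N

theorem two_KDbar : (2 : WithTop ℕ∞) ≤ ∞ := ENat.LEInfty.out

theorem der_KDbar (φ : Fr) (u : ℂ → V) (z : ℂ) (hu : ContDiffAt ℝ ∞ u z) (hne : u z ≠ 0)
    (h k : ℂ) :
    DifferentiableAt ℝ (fun t => cf φ (u t) (fderiv ℝ u t h)) z ∧
    fderiv ℝ (fun t => cf φ (u t) (fderiv ℝ u t h)) z k =
      fderiv ℝ (cf φ) (u z) (fderiv ℝ u z k) (fderiv ℝ u z h) +
        cf φ (u z) (fderiv ℝ (fderiv ℝ u) z k h) := by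
  have h1 : DifferentiableAt ℝ (cf φ) (u z) :=
    ((cf_smooth φ).contDiffAt (isOpen_compl_singleton.mem_nhds hne)).differentiableAt (by simp)
  have h2 : DifferentiableAt ℝ u z := hu.differentiableAt (by simp)
  have h3 : DifferentiableAt ℝ (fderiv ℝ u) z :=
    (hu.fderiv_right (m := 1) (by rw [one_add_one_eq_two]; exact two_KDbar)).differentiableAt (by simp)
  have a1 : HasFDerivAt (fun t => cf φ (u t)) ((fderiv ℝ (cf φ) (u z)).comp (fderiv ℝ u z)) z :=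
    h1.hasFDerivAt.comp z h2.hasFDerivAt
  have a2 := h3.hasFDerivAt.clm_apply (hasFDerivAt_const h z)
  have a3 := a1.clm_apply a2
  refine ⟨a3.differentiableAt, ?_⟩
  rw [a3.fderiv]
  simp [add_comm]

theorem kDbar : DbarStmt := by
  intro φ u O hO hu hne hCR
  refine ⟨?_, fun z hz => ?_⟩
  · have h1 : ContDiffOn ℝ ∞ (fun t => cf φ (u t)) O :=
      (cf_smooth φ).comp hu (fun t ht => hne t ht)
    have h2 : ContDiffOn ℝ 1 (fderiv ℝ u) O :=
      hu.fderiv_of_isOpen hO (by rw [one_add_one_eq_two]; exact two_KDbar)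
    exact (h1.of_le (by exact_mod_cast le_top)).clm_apply (h2.clm_apply contDiffOn_const)
  · have hz' : O ∈ 𝓝 z := hO.mem_nhds hz
    have huz : ContDiffAt ℝ ∞ u z := hu.contDiffAt hz'
    have hev : (fun t => cf φ (u t) (fderiv ℝ u t I)) =ᶠ[𝓝 z]
        fun t => I • cf φ (u t) (fderiv ℝ u t 1) := by
      filter_upwards [hz'] with t ht
      simp only [cf, ContinuousLinearMap.comp_apply, smul_eq_mul]
      rw [hCR t ht, vc_smul]
    obtain ⟨d1, e1⟩ := der_KDbar φ u z huz (hne z hz) 1 I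
    obtain ⟨-, e2⟩ := der_KDbar φ u z huz (hne z hz) I 1
    have e3 : fderiv ℝ (fun t => cf φ (u t) (fderiv ℝ u t I)) z 1 =
        I * fderiv ℝ (fun t => cf φ (u t) (fderiv ℝ u t 1)) z 1 := by
      rw [hev.fderiv_eq, (d1.hasFDerivAt.fun_const_smul I).fderiv]
      simp
    have hs : fderiv ℝ (fderiv ℝ u) z 1 I = fderiv ℝ (fderiv ℝ u) z I 1 :=
      (huz.isSymmSndFDerivAt (by simpa using two_KDbar)).eq 1 I
    have hal : al φ u = fun t => cf φ (u t) (fderiv ℝ u t 1) := rfl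
    rw [hal]
    unfold dbar
    rw [hs] at e2
    simp only [smul_eq_mul]
    have hI := I_mul_I
    linear_combination -e3 + e2 - e1 +
      fderiv ℝ (fun t => cf φ (u t) (fderiv ℝ u t 1)) z I * hI

end Pool.Agent.MP_2fc7fa_gt.N

end
end

section

/-! The energy density controls the connection form and the derivative. -/

open scoped ContDiff ComplexConjugate Topology
open Set Complex Filter Metric

noncomputable section

namespace Pool.Agent.MP_2fc7fa_gt.N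

lemma opn_KAlpha (L : ℂ →L[ℝ] V) : ‖L‖ ≤ ‖L 1‖ + ‖L I‖ := by
  refine L.opNorm_le_bound (by positivity) fun h => ?_
  have e : h = h.re • (1 : ℂ) + h.im • I := by simp
  have e1 : L h = h.re • L 1 + h.im • L I := by
    conv_lhs => rw [e, map_add, map_smul, map_smul]
  rw [e1, add_mul]
  refine (norm_add_le _ _).trans (add_le_add ?_ ?_)
  · rw [norm_smul, mul_comm]
    exact mul_le_mul_of_nonneg_left (abs_re_le_norm h) (norm_nonneg _)
  · rw [norm_smul, mul_comm]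
    exact mul_le_mul_of_nonneg_left (abs_im_le_norm h) (norm_nonneg _)

theorem kAlpha (hR : RegStmt) (hT : TameKStmt) (hC : CurvStmt) (hD : DbarStmt) : AlphaStmt := by
  intro P _ φ om p₀ hF hom ht
  obtain ⟨C₁, h1, e1⟩ := hT P φ om p₀ hF hom ht
  obtain ⟨C₂, h2, e2⟩ := hC P φ p₀ hF
  refine ⟨2 * C₂ * (C₁ + 1), by positivity, ?_⟩
  filter_upwards [e1, e2] with p e1 e2 u O hO hu hne hcr
  have hcof : Cofr (φ p).A {0}ᶜ := ⟨isOpen_compl_singleton, (φ p).smoothA, fun x hx =>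
    Function.LeftInverse.injective ((φ p).BA x hx)⟩
  have hs := hR V _ _ u O hcof hO hu hne hcr
  obtain ⟨d1, d2⟩ := hD (φ p) u O hO hs hne hcr
  refine ⟨d1, fun z hz => ?_⟩
  have hx := hne z hz
  have hx' : 0 < ‖u z‖ := norm_pos_iff.2 hx
  set τ := (φ p).A (u z) (fderiv ℝ u z 1) with hτ
  have a1 : (φ p).A (u z) (fderiv ℝ u z I) = I • τ := hcr z hz
  have a2 : fderiv ℝ u z I = (φ p).J (u z) (fderiv ℝ u z 1) := by
    rw [Fr.J, ← hτ, ← a1, (φ p).BA _ hx]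
  have a3 := e1 (u z) hx (fderiv ℝ u z 1)
  rw [← a2, ← hτ] at a3
  change _ ≤ C₁ * ‖u z‖ ^ 2 * dens (om p) u z at a3
  set e := dens (om p) u z
  have he : 0 ≤ e := by
    by_contra hn
    have : C₁ * ‖u z‖ ^ 2 * e < 0 := mul_neg_of_pos_of_neg (by positivity) (not_le.1 hn)
    nlinarith [sq_nonneg ‖hp (u z) τ‖]
  obtain ⟨b1, b2⟩ := e2 (u z) hx
  constructor
  · have b3 := b2 (fderiv ℝ u z 1) (fderiv ℝ u z I)
    rw [← d2 z hz, a1, ← hτ, hp_smul, norm_smul, norm_mul, norm_mul, norm_I, Complex.norm_two] at b3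
    have b4 : 2 * ‖dbar (al (φ p) u) z‖ * ‖u z‖ ^ 2 ≤ C₂ * C₁ * e * ‖u z‖ ^ 2 := by
      nlinarith [mul_le_mul_of_nonneg_left a3 h2.le]
    have b5 := le_of_mul_le_mul_right b4 (by positivity)
    nlinarith [mul_nonneg h2.le he, mul_nonneg (mul_nonneg h2.le h1.le) he,
      norm_nonneg (dbar (al (φ p) u) z)]
  · have c1 : ‖hp (u z) τ‖ ≤ (C₁ + 1) * (1 + e) * ‖u z‖ := by
      refine abs_le_of_sq_le_sq' ?_ (by positivity) |>.2
      refine a3.trans ?_
      have : C₁ * e ≤ ((C₁ + 1) * (1 + e)) ^ 2 := by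
        have k1 : C₁ * e ≤ (C₁ + 1) * (1 + e) := by nlinarith
        have k2 : 1 ≤ (C₁ + 1) * (1 + e) := by nlinarith [mul_nonneg h1.le he]
        nlinarith
      nlinarith [mul_le_mul_of_nonneg_right this (sq_nonneg ‖u z‖)]
    have c2 : τ = al (φ p) u z • u z + hp (u z) τ := by
      rw [hp]
      exact (add_sub_cancel _ _).symm
    have c3 : ‖τ‖ ≤ (C₁ + 1) * (1 + ‖al (φ p) u z‖ + e) * ‖u z‖ := by
      have := (congrArg norm c2).trans_le (norm_add_le _ _)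
      rw [norm_smul] at this
      nlinarith [mul_nonneg h1.le (mul_nonneg (norm_nonneg (al (φ p) u z)) hx'.le)]
    have c4 : ‖fderiv ℝ u z 1‖ ≤ C₂ * ‖τ‖ := by
      rw [← (φ p).BA _ hx (fderiv ℝ u z 1), ← hτ]
      exact ((φ p).B (u z)).le_of_opNorm_le b1 _
    have c5 : ‖fderiv ℝ u z I‖ ≤ C₂ * ‖τ‖ := by
      rw [← (φ p).BA _ hx (fderiv ℝ u z I), a1]
      refine (((φ p).B (u z)).le_of_opNorm_le b1 _).trans_eq ?_
      rw [norm_smul, norm_I, one_mul]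
    refine (opn_KAlpha _).trans ?_
    nlinarith [mul_le_mul_of_nonneg_left c3 h2.le]

end Pool.Agent.MP_2fc7fa_gt.N

end
end

section

open scoped ContDiff ComplexConjugate Topology
open Set Complex Filter Metric MeasureTheory

noncomputable section

namespace Pool.Agent.MP_2fc7fa_gt.N

theorem lin_KTransf (L : ℂ →L[ℝ] V) (k : ℂ) : L k = k.re • L 1 + k.im • L I := by
  rw [← map_smul, ← map_smul, ← map_add]
  congr 1
  simp

/-- A real alternating two-form as a bilinear function. -/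
theorem add_left_KTransf (β : V [⋀^Fin 2]→L[ℝ] ℝ) (a a' b : V) :
    β ![a + a', b] = β ![a, b] + β ![a', b] :=
  β.toContinuousMultilinearMap.cons_add ![b] a a'

theorem smul_left_KTransf (β : V [⋀^Fin 2]→L[ℝ] ℝ) (c : ℝ) (a b : V) :
    β ![c • a, b] = c * β ![a, b] :=
  β.toContinuousMultilinearMap.cons_smul ![b] c a

theorem swap_KTransf (β : V [⋀^Fin 2]→L[ℝ] ℝ) (a b : V) : β ![a, b] = -β ![b, a] := by
  have h := β.toAlternatingMap.map_swap ![b, a] (i := 0) (j := 1) (by decide)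
  have e : ![b, a] ∘ Equiv.swap (0 : Fin 2) 1 = ![a, b] := by
    funext i
    fin_cases i <;> rfl
  rw [e] at h
  exact h

theorem self_KTransf (β : V [⋀^Fin 2]→L[ℝ] ℝ) (a : V) : β ![a, a] = 0 := by
  have := swap_KTransf β a a
  linarith

theorem add_right_KTransf (β : V [⋀^Fin 2]→L[ℝ] ℝ) (a b b' : V) :
    β ![a, b + b'] = β ![a, b] + β ![a, b'] := by
  rw [swap_KTransf, add_left_KTransf, swap_KTransf β a b, swap_KTransf β a b']
  ring

theorem smul_right_KTransf (β : V [⋀^Fin 2]→L[ℝ] ℝ) (c : ℝ) (a b : V) :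
    β ![a, c • b] = c * β ![a, b] := by
  rw [swap_KTransf, smul_left_KTransf, swap_KTransf β a b]
  ring

theorem form_KTransf (σ : Symp 1) {x : V} {f : ℂ} (hf : f ≠ 0) (a b : V) (c c' : ℂ) :
    σ.form (f • x) ![f • a + c • x, f • b + c' • x] = σ.form x ![a, b] := by
  have h0 : ∀ (v : V) (c : ℂ), σ.form (f • x) ![c • x, v] = 0 := fun v c =>
    σ.isForm.horiz _ _ 0 (c / f) (by simp [smul_smul, hf])
  have h1 : ∀ (v : V) (c : ℂ), σ.form (f • x) ![v, c • x] = 0 := fun v c => by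
    rw [swap_KTransf, h0, neg_zero]
  rw [add_left_KTransf, h0, add_zero, add_right_KTransf, h1, add_zero,
    ← σ.isForm.scale f hf x ![a, b]]
  congr 1
  funext i
  fin_cases i <;> rfl

theorem kTransf : TransfStmt := by
  intro φ σ u f g f' g' w hf hg hf0 hu hu0 hCR
  have hcr := hCR (g w) rfl
  set x := u (g w) with hx
  set L := fderiv ℝ u (g w) with hL
  have hd : ∀ h : ℂ, fderiv ℝ (fun t => f t • u (g t)) w h = f w • L (g' * h) + (f' * h) • x := by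
    intro h
    have h1 := hf.hasFDerivAt.restrictScalars ℝ
    have h2 := hu.hasFDerivAt.comp w (hg.hasFDerivAt.restrictScalars ℝ)
    have h3 := (h1.smul h2).fderiv
    have e : (fun t => f t • u (g t)) = f • (u ∘ g) := rfl
    rw [e, h3]
    simp [mul_comm, hL, hx]
  have hA : ∀ k : ℂ, φ.A x (L k) = k • φ.A x (L 1) := by
    intro k
    rw [lin_KTransf L k, map_add, map_smul, map_smul, hcr]
    conv_rhs => rw [← re_add_im k, add_smul, mul_smul]
    simp only [Complex.coe_smul]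
  have hv : ∀ c : ℂ, c • x = (c / f w) • f w • x := fun c => by
    rw [smul_smul, div_mul_cancel₀ _ hf0]
  have hx0 : f w • x ≠ 0 := smul_ne_zero hf0 hu0
  have hA' : ∀ h : ℂ, φ.A (f w • x) (fderiv ℝ (fun t => f t • u (g t)) w h) =
      h • (f w • g' • φ.A x (L 1) + f' • x) := by
    intro h
    rw [hd, map_add, φ.A_scale hu0 hf0, hA, hv (f' * h), φ.A_vert hx0, ← hv]
    module
  refine ⟨fun z hz => ?_, ?_, ?_⟩
  · obtain rfl : z = w := hz
    beta_reduce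
    rw [← hx, hA', hA', one_smul]
  · simp only [al]
    rw [← hx, ← hL, cf, cf, ContinuousLinearMap.comp_apply, ContinuousLinearMap.comp_apply, hA',
      one_smul, map_add, vc_scale hf0, vc_smul, hv f', vc_smul, vc_self hx0]
    ring
  · simp only [dens]
    rw [← hx, ← hL, hd, hd, form_KTransf σ hf0, lin_KTransf L (g' * 1), lin_KTransf L (g' * I)]
    simp only [add_left_KTransf, add_right_KTransf, smul_left_KTransf, smul_right_KTransf,
      self_KTransf, swap_KTransf _ (L I) (L 1), Complex.sq_norm, normSq_apply]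
    simp
    ring

end Pool.Agent.MP_2fc7fa_gt.N

end
end

section

/-! Sign, continuity and convergence of the energy density. -/

open scoped ContDiff ComplexConjugate Topology
open Set Complex Filter Metric

noncomputable section

namespace Pool.Agent.MP_2fc7fa_gt.N

theorem cont_KDens : Continuous fun a : (V [⋀^Fin 2]→L[ℝ] ℝ) × (ℂ →L[ℝ] V) =>
    a.1 ![a.2 1, a.2 I] := by
  have h : Continuous fun a : (V [⋀^Fin 2]→L[ℝ] ℝ) × (ℂ →L[ℝ] V) => ![a.2 1, a.2 I] := by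
    fun_prop
  exact continuous_eval.comp (continuous_fst.prodMk h)

theorem kDens (hF : FormStmt) : DensStmt := by
  refine ⟨fun φ σ u z hT hz hC => ?_, fun σ u O hO hu hn => ?_,
    fun P _ om p p₀ w u hom hp hw z hz => ?_⟩
  · have h1 : fderiv ℝ u z I = φ.J (u z) (fderiv ℝ u z 1) := by
      rw [Fr.J, ← hC z rfl, φ.BA _ hz]
    by_cases h : ∃ c : ℂ, fderiv ℝ u z 1 = c • u z
    · obtain ⟨c, hc⟩ := h
      exact (σ.isForm.horiz (u z) _ 0 c hc).ge
    · rw [dens, h1]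
      exact (hT _ hz _ fun c hc => h ⟨c, hc⟩).le
  · exact cont_KDens.comp_continuousOn
      ((σ.isForm.smooth.continuousOn.comp hu.continuousOn hn).prodMk
        (hu.continuousOn_fderiv_of_isOpen hO le_rfl))
  · have hz' : z ∈ ball (0 : ℂ) (‖z‖ + 1) := by simp
    have h1 := (hw (‖z‖ + 1)).1.tendsto_at hz'
    have h2 := (hw (‖z‖ + 1)).2.tendsto_at hz'
    have h3 : ContinuousAt (fun q : P × V => (om q.1).form q.2) (p₀, u z) :=
      ContinuousOn.continuousAt (hF P om hom)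
        ((isOpen_univ.prod isOpen_compl_singleton).mem_nhds ⟨mem_univ _, hz⟩)
    exact (cont_KDens.tendsto _).comp ((h3.tendsto.comp (hp.prodMk_nhds h1)).prodMk_nhds h2)

end Pool.Agent.MP_2fc7fa_gt.N

end
end

section

/-! Lines in the two affine charts. -/

open scoped ContDiff ComplexConjugate Topology
open Set Complex Filter Metric MeasureTheory

noncomputable section

namespace Pool.Agent.MP_2fc7fa_gt.N

theorem diff_KLine {J : V → V → V} {U : W → V} (h : IsLine J U) {q : W} (hq : q ≠ 0) :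
    DifferentiableAt ℝ U q :=
  (h.c1.contDiffAt (isOpen_compl_singleton.mem_nhds hq)).differentiableAt one_ne_zero

theorem comp_KLine {J : V → V → V} {U : W → V} (h : IsLine J U) (g : W ≃L[ℂ] W) :
    IsLine J (U ∘ g) := by
  have hg : ∀ q, q ≠ 0 → g q ≠ 0 := fun q hq => g.map_ne_zero_iff.2 hq
  have hd : ∀ q, q ≠ 0 → ∀ v, fderiv ℝ (U ∘ g) q v = fderiv ℝ U (g q) (g v) := fun q hq v => by
    have h1 : HasFDerivAt g ((g : W →L[ℂ] W).restrictScalars ℝ) q :=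
      ((g : W →L[ℂ] W).restrictScalars ℝ).hasFDerivAt
    rw [((diff_KLine h (hg q hq)).hasFDerivAt.comp q h1).fderiv]
    rfl
  refine ⟨h.c1.comp ((g : W →L[ℂ] W).restrictScalars ℝ).contDiff.contDiffOn fun q hq => hg q hq,
    fun q hq => h.ne _ (hg q hq), fun c q => ?_, fun q hq v => ?_⟩
  · rw [Function.comp_apply, Function.comp_apply, map_smul, h.hom]
  · rw [hd q hq, hd q hq, map_smul, h.hol _ (hg q hq), Function.comp_apply]

theorem chart_KLine {φ : Fr} {U : W → V} (h : IsLine φ.J U) :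
    ContDiff ℝ 1 (c0 U) ∧ (∀ z, c0 U z ≠ 0) ∧ CR φ.A (c0 U) univ := by
  have hne : ∀ z : ℂ, (((1 : ℂ), z) : W) ≠ 0 := fun z e => one_ne_zero (congrArg Prod.fst e)
  have hd : ∀ z v : ℂ, fderiv ℝ (c0 U) z v = fderiv ℝ U (1, z) (0, v) := fun z v => by
    have h1 : HasFDerivAt (c0 U) _ z :=
      (diff_KLine h (hne z)).hasFDerivAt.comp z (hasFDerivAt_prodMk_right (𝕜 := ℝ) (1 : ℂ) z)
    rw [h1.fderiv]
    rfl
  refine ⟨h.c1.comp_contDiff (contDiff_const.prodMk contDiff_id) hne, fun z => h.ne _ (hne z),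
    fun z _ => ?_⟩
  have e : (((0 : ℂ), I) : W) = I • (((0 : ℂ), (1 : ℂ)) : W) := by simp
  rw [hd, hd, e, h.hol _ (hne z), Fr.J]
  exact φ.AB _ (h.ne _ (hne z)) _

theorem rel_KLine (hT : TransfStmt) (φ : Fr) (σ : Symp 1) {u v : ℂ → V} (hv : ContDiff ℝ 1 v)
    (hne : ∀ z, v z ≠ 0) (hc : CR φ.A v univ) (h : ∀ t : ℂ, t ≠ 0 → u t = t • v t⁻¹) {z : ℂ}
    (hz : z ≠ 0) : al φ u z = z⁻¹ - (z ^ 2)⁻¹ * al φ v z⁻¹ ∧
      dens σ u z = (‖z‖ ^ 4)⁻¹ * dens σ v z⁻¹ := by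
  have he : u =ᶠ[𝓝 z] fun t => t • v t⁻¹ := by
    filter_upwards [isOpen_compl_singleton.mem_nhds hz] with t ht using h t ht
  obtain ⟨-, h1, h2⟩ := hT φ σ v (fun t => t) (fun t => t⁻¹) 1 (-(z ^ 2)⁻¹) z (hasDerivAt_id' z)
    (hasDerivAt_inv hz) hz (hv.differentiable one_ne_zero _) (hne _) fun t _ => hc t trivial
  constructor
  · have e : al φ u z = al φ (fun t => t • v t⁻¹) z := by
      rw [al, al, he.fderiv_eq, he.eq_of_nhds]
    rw [e, h1, one_div, neg_mul, sub_eq_add_neg]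
  · have e : dens σ u z = dens σ (fun t => t • v t⁻¹) z := by
      rw [dens, dens, he.fderiv_eq, he.eq_of_nhds]
    rw [e, h2, norm_neg, norm_inv, norm_pow, inv_pow, ← pow_mul]

theorem kLine (hT : TransfStmt) : LineStmt := by
  intro φ σ U h
  have h0 := chart_KLine h
  have h1 : ContDiff ℝ 1 (c1 U) ∧ (∀ z, c1 U z ≠ 0) ∧ CR φ.A (c1 U) univ :=
    chart_KLine (comp_KLine h (ContinuousLinearEquiv.prodComm ℂ ℂ ℂ))
  refine ⟨comp_KLine h, h0, h1, fun z hz => ?_⟩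
  have e0 : ∀ t : ℂ, t ≠ 0 → c0 U t = t • c1 U t⁻¹ := fun t ht => by
    rw [c0, c1, ← h.hom, Prod.smul_mk, smul_eq_mul, smul_eq_mul, mul_inv_cancel₀ ht, mul_one]
  have e1 : ∀ t : ℂ, t ≠ 0 → c1 U t = t • c0 U t⁻¹ := fun t ht => by
    rw [c0, c1, ← h.hom, Prod.smul_mk, smul_eq_mul, smul_eq_mul, mul_inv_cancel₀ ht, mul_one]
  obtain ⟨a, b⟩ := rel_KLine hT φ σ h1.1 h1.2.1 h1.2.2 e0 hz
  exact ⟨a, b, (rel_KLine hT φ σ h0.1 h0.2.1 h0.2.2 e1 hz).2⟩

end Pool.Agent.MP_2fc7fa_gt.N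

end
end

section

/-! A holomorphic gauge that makes the connection form bounded. -/

open scoped Topology
open Set Complex Filter Metric MeasureTheory

noncomputable section

namespace Pool.Agent.MP_2fc7fa_gt.N

/-- The truncated kernel. -/
def ker_KGauge (w : ℂ) : ℝ := (ball (0 : ℂ) 1).indicator (fun w => ‖w‖ ^ (-1 : ℝ)) w

theorem ker_nonneg_KGauge (w : ℂ) : 0 ≤ ker_KGauge w :=
  indicator_nonneg (fun w _ => Real.rpow_nonneg (norm_nonneg w) _) w

theorem ker_int_KGauge : Integrable ker_KGauge := by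
  unfold ker_KGauge
  rw [integrable_indicator_iff measurableSet_ball]
  refine integrableOn_ball_of_norm_le_rpow (C := 1) (α := 1) ?_ ?_ ?_ ?_
  · rw [Complex.finrank_real_complex]; norm_num
  · rw [Complex.finrank_real_complex]; norm_num
  · refine Eventually.of_forall fun w => ?_
    rw [Real.norm_eq_abs, abs_of_nonneg (Real.rpow_nonneg (norm_nonneg w) _), one_mul]
  · exact (measurable_norm.pow_const _).aestronglyMeasurable

theorem bound_KGauge {h : ℂ → ℂ} {K : ℝ} (hK : ∀ z, ‖h z‖ ≤ K) (hi : Integrable h) (z : ℂ) :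
    ‖cT h z‖ ≤ (∫ w, ker_KGauge w) * K + ∫ w, ‖h w‖ := by
  have i1 : Integrable fun ζ => ker_KGauge (z - ζ) * K :=
    (ker_int_KGauge.comp_sub_left z).mul_const K
  have hK0 : 0 ≤ K := (norm_nonneg _).trans (hK 0)
  refine (norm_integral_le_of_norm_le (i1.add hi.norm) (Eventually.of_forall fun ζ => ?_)).trans_eq
    ?_
  · have h1 : ‖((Real.pi : ℂ) * (z - ζ))⁻¹‖ ≤ ‖z - ζ‖⁻¹ := by
      rw [mul_inv, norm_mul, norm_inv, norm_inv, Complex.norm_real, Real.norm_eq_abs,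
        abs_of_pos Real.pi_pos]
      refine mul_le_of_le_one_left (inv_nonneg.2 (norm_nonneg _)) (inv_le_one_of_one_le₀ ?_)
      linarith [Real.pi_gt_three]
    rw [norm_smul, Pi.add_apply]
    refine (mul_le_mul_of_nonneg_right h1 (norm_nonneg _)).trans ?_
    by_cases hz : ‖z - ζ‖ < 1
    · have hk : ker_KGauge (z - ζ) = ‖z - ζ‖⁻¹ := by
        unfold ker_KGauge
        rw [indicator_of_mem (mem_ball_zero_iff.2 hz), Real.rpow_neg_one]
      rw [hk]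
      exact le_add_of_le_of_nonneg
        (mul_le_mul_of_nonneg_left (hK ζ) (inv_nonneg.2 (norm_nonneg _))) (norm_nonneg _)
    · exact le_add_of_nonneg_of_le (mul_nonneg (ker_nonneg_KGauge _) hK0)
        (mul_le_of_le_one_left (norm_nonneg _) (inv_le_one_of_one_le₀ (not_lt.1 hz)))
  · simp only [Pi.add_apply]
    rw [integral_add i1 hi.norm, integral_mul_const, integral_sub_left_eq_self ker_KGauge volume z]

theorem kGauge (h1 : T1Stmt) (h2 : T2Stmt) : GaugeStmt := by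
  have hA : 0 ≤ ∫ w, ker_KGauge w := integral_nonneg ker_nonneg_KGauge
  refine ⟨(∫ w, ker_KGauge w) + 1, by linarith, fun α R K E hR hα hK hE => ?_⟩
  have hK0 : 0 ≤ K := (norm_nonneg _).trans (hK 0 (mem_ball_self hR))
  have hE0 : 0 ≤ E := (integral_nonneg fun _ => norm_nonneg _).trans hE
  have hc : ContinuousOn (dbar α) (ball 0 R) := by
    have := hα.continuousOn_fderiv_of_isOpen isOpen_ball le_rfl
    exact ((this.clm_apply continuousOn_const).add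
      ((this.clm_apply continuousOn_const).const_smul I)).const_smul (1 / 2 : ℂ)
  set h : ℂ → ℂ := (ball (0 : ℂ) R).indicator (dbar α) with hh
  have hm : AEStronglyMeasurable (dbar α) (volume.restrict (ball (0 : ℂ) R)) :=
    hc.aestronglyMeasurable measurableSet_ball
  have hb : ∀ z, ‖h z‖ ≤ K := fun z => by
    by_cases hz : z ∈ ball (0 : ℂ) R
    · rw [hh, indicator_of_mem hz]
      exact hK z hz
    · rw [hh, indicator_of_notMem hz, norm_zero]
      exact hK0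
  have hB : Bdd h 0 R K :=
    ⟨(aestronglyMeasurable_indicator_iff measurableSet_ball).2 hm, hb, fun z hz =>
      indicator_of_notMem (fun hz' => (mem_ball_iff_norm.1 hz').not_ge hz) _⟩
  have hi : Integrable h := by
    rw [hh, integrable_indicator_iff measurableSet_ball]
    exact Measure.integrableOn_of_bounded measure_ball_lt_top.ne
      (M := K) hB.1 (Eventually.of_forall hb) |>.congr_fun
        (fun z hz => indicator_of_mem hz _) measurableSet_ball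
  have hI : ∫ w, ‖h w‖ ≤ E := by
    refine le_of_eq_of_le ?_ hE
    rw [← integral_indicator measurableSet_ball]
    congr 1
    funext w
    exact norm_indicator_eq_indicator_norm _ _
  have hd := h2 ℂ h α 0 R K (ball 0 R) hB isOpen_ball hα fun z hz => (indicator_of_mem hz _).symm
  obtain ⟨H, hH⟩ := hd.isExactOn_ball
  have hf : ∀ z ∈ ball (0 : ℂ) R, HasDerivAt (fun z => exp (-H z))
      (exp (-H z) * -(α z - cT h z)) z := fun z hz => (hH z hz).neg.cexp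
  refine ⟨fun z => exp (-H z), fun z hz => (hf z hz).differentiableAt.differentiableWithinAt,
    fun z hz => ⟨exp_ne_zero _, ?_⟩⟩
  rw [(hf z hz).deriv, mul_div_cancel_left₀ _ (exp_ne_zero _), neg_sub, sub_add_cancel]
  refine (bound_KGauge hb hi z).trans ?_
  nlinarith [mul_nonneg hA hE0]

end Pool.Agent.MP_2fc7fa_gt.N

end
end

section

/-! The maximum principle in the two charts. -/

open scoped ContDiff ComplexConjugate Topology
open Set Complex Filter Metric MeasureTheory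

noncomputable section

namespace Pool.Agent.MP_2fc7fa_gt.N

lemma disc_KAMP (h2 : T2Stmt) {C K m : ℝ}
    (hC : ∀ h : ℂ → ℂ, Bdd h 0 2 K → ∀ z, ‖cT h z‖ ≤ C * 2 * K) {γ : ℂ → ℂ}
    (hγ : ContDiff ℝ 1 γ) (hK : ∀ z, ‖dbar γ z‖ ≤ K) (hm : ∀ z, 3 / 2 ≤ ‖z‖ → ‖γ z‖ ≤ m) :
    ∀ z ∈ closedBall (0 : ℂ) (3 / 2), ‖γ z‖ ≤ m + 4 * (C * K) := by
  have hf := hγ.continuous_fderiv one_ne_zero
  have hc : Continuous (dbar γ) :=
    ((hf.clm_apply continuous_const).add ((hf.clm_apply continuous_const).const_smul I)).const_smul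
      (1 / 2 : ℂ)
  have hB : Bdd (indicator (ball (0 : ℂ) 2) (dbar γ)) 0 2 K :=
    ⟨hc.aestronglyMeasurable.indicator measurableSet_ball,
      fun z => (norm_indicator_le_norm_self _ _).trans (hK z),
      fun z hz => indicator_of_notMem (by simpa using hz) _⟩
  have hd := h2 ℂ _ γ 0 2 K (ball 0 2) hB isOpen_ball hγ.contDiffOn
    fun z hz => (indicator_of_mem hz _).symm
  intro z hz
  have h3 := Complex.norm_le_of_forall_mem_frontier_norm_le (C := m + C * 2 * K) isBounded_ball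
    (hd.diffContOnCl_ball (c := 0) (R := 3 / 2) (closedBall_subset_ball (by norm_num)))
    (fun w hw => by
      rw [frontier_ball _ (by norm_num), mem_sphere_zero_iff_norm] at hw
      exact (norm_sub_le _ _).trans (add_le_add (hm w hw.ge) (hC _ hB w)))
    (z := z) (by rwa [closure_ball _ (by norm_num)])
  have h4 := norm_add_le (γ z - cT (indicator (ball (0 : ℂ) 2) (dbar γ)) z)
    (cT (indicator (ball (0 : ℂ) 2) (dbar γ)) z)
  rw [sub_add_cancel] at h4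
  have h5 := hC _ hB z
  linarith

lemma far_KAMP {α β : ℂ → ℂ} {b : ℝ} (h : ∀ z : ℂ, z ≠ 0 → α z = z⁻¹ - (z ^ 2)⁻¹ * β z⁻¹)
    (hb : ∀ z ∈ closedBall (0 : ℂ) (3 / 2), ‖β z‖ ≤ b) (z : ℂ) (hz : 3 / 2 ≤ ‖z‖) :
    ‖α z‖ ≤ 2 / 3 + 4 / 9 * b := by
  have hz0 : z ≠ 0 := by
    rintro rfl
    norm_num at hz
  have h1 : ‖z⁻¹‖ ≤ 2 / 3 := by
    rw [norm_inv]
    exact (inv_anti₀ (by norm_num) hz).trans (by norm_num)
  have h2 : ‖(z ^ 2)⁻¹‖ ≤ 4 / 9 := by
    rw [← inv_pow, norm_pow]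
    nlinarith [norm_nonneg z⁻¹]
  have h3 := hb z⁻¹ (by rw [mem_closedBall_zero_iff]; linarith)
  rw [h z hz0]
  refine (norm_sub_le _ _).trans (add_le_add h1 ?_)
  rw [norm_mul]
  exact mul_le_mul h2 h3 (norm_nonneg _) (by norm_num)

theorem kAMP (h1 : T1Stmt) (h2 : T2Stmt) : AMPStmt := by
  obtain ⟨C, hC0, hC⟩ := h1
  refine ⟨3 + 15 * C, by positivity, fun α β K hα hβ hK h => ?_⟩
  have hK0 : 0 ≤ K := (norm_nonneg _).trans (hK 0).1
  have hC' : ∀ g : ℂ → ℂ, Bdd g 0 2 K → ∀ z, ‖cT g z‖ ≤ C * 2 * K :=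
    fun g hg => (hC ℂ g 0 2 K two_pos hg).1
  have h' : ∀ w : ℂ, w ≠ 0 → β w = w⁻¹ - (w ^ 2)⁻¹ * α w⁻¹ := fun w hw => by
    rw [h _ (inv_ne_zero hw), inv_inv]
    field_simp
    ring
  have hne : (closedBall (0 : ℂ) (3 / 2)).Nonempty := nonempty_closedBall.2 (by norm_num)
  obtain ⟨x, hx, ha⟩ := (isCompact_closedBall (0 : ℂ) (3 / 2)).exists_isMaxOn hne
    hα.continuous.norm.continuousOn
  obtain ⟨y, hy, hb⟩ := (isCompact_closedBall (0 : ℂ) (3 / 2)).exists_isMaxOn hne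
    hβ.continuous.norm.continuousOn
  have fa := far_KAMP h fun z hz => hb hz
  have fb := far_KAMP h' fun z hz => ha hz
  have ea := disc_KAMP h2 hC' hα (fun z => (hK z).1) fa x hx
  have eb := disc_KAMP h2 hC' hβ (fun z => (hK z).2) fb y hy
  have hCK : 0 ≤ C * K := by positivity
  have e1 : (3 + 15 * C) * (1 + K) = 3 + 15 * (C * K) + 3 * K + 15 * C := by ring
  have n1 := norm_nonneg (α x)
  have n2 := norm_nonneg (β y)
  intro z
  rw [e1]
  rcases le_total ‖z‖ (3 / 2) with hz | hz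
  · have a1 : ‖α z‖ ≤ ‖α x‖ := ha (mem_closedBall_zero_iff.2 hz)
    have a2 : ‖β z‖ ≤ ‖β y‖ := hb (mem_closedBall_zero_iff.2 hz)
    constructor <;> linarith
  · have a1 := fa z hz
    have a2 := fb z hz
    constructor <;> linarith

end Pool.Agent.MP_2fc7fa_gt.N

end
end

section

/-! Arzela-Ascoli on the plane. -/

open scoped ContDiff ComplexConjugate Topology
open Set Complex Filter Metric MeasureTheory

noncomputable section

namespace Pool.Agent.MP_2fc7fa_gt.N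

theorem kAA : AAStmt := by
  intro E _ _ F h
  set Ul : Ultrafilter ℕ := Ultrafilter.of atTop with hUl
  have hle : (Ul : Filter ℕ) ≤ atTop := Ultrafilter.of_le _
  have hlim : ∀ z : ℂ, ∃ g : E, Tendsto (fun n => F n z) Ul (𝓝 g) := by
    intro z
    obtain ⟨L, hL⟩ := h (‖z‖ + 1)
    have hz : z ∈ ball (0 : ℂ) (‖z‖ + 1) := by simp
    have hm : (Ul.map fun n => F n z : Filter E) ≤ 𝓟 (closedBall (0 : E) L) := by
      rw [le_principal_iff]
      refine mem_map.2 (hle ?_)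
      filter_upwards [hL] with n hn
      simpa using (hn z hz).1
    obtain ⟨g, -, hg⟩ := (isCompact_closedBall (0 : E) L).ultrafilter_le_nhds
      (Ul.map fun n => F n z) hm
    exact ⟨g, hg⟩
  choose G hG using hlim
  have hlip : ∀ r : ℝ, ∃ L : ℝ, 0 ≤ L ∧
      (∀ᶠ n in (Ul : Filter ℕ), ∀ z ∈ ball (0 : ℂ) r, ∀ z' ∈ ball (0 : ℂ) r,
        ‖F n z - F n z'‖ ≤ L * ‖z - z'‖) ∧
      ∀ z ∈ ball (0 : ℂ) r, ∀ z' ∈ ball (0 : ℂ) r, ‖G z - G z'‖ ≤ L * ‖z - z'‖ := by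
    intro r
    obtain ⟨L, hL⟩ := h r
    have h1 : ∀ᶠ n in (Ul : Filter ℕ), ∀ z ∈ ball (0 : ℂ) r, ∀ z' ∈ ball (0 : ℂ) r,
        ‖F n z - F n z'‖ ≤ max L 0 * ‖z - z'‖ := by
      refine hle ?_
      filter_upwards [hL] with n hn z hz z' hz'
      exact ((hn z hz).2 z' hz').trans
        (mul_le_mul_of_nonneg_right (le_max_left _ _) (norm_nonneg _))
    refine ⟨max L 0, le_max_right _ _, h1, fun z hz z' hz' => ?_⟩
    refine le_of_tendsto ((hG z).sub (hG z')).norm ?_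
    filter_upwards [h1] with n hn using hn z hz z' hz'
  have hunif : ∀ r ε : ℝ, 0 < ε →
      ∀ᶠ n in (Ul : Filter ℕ), ∀ z ∈ ball (0 : ℂ) r, ‖F n z - G z‖ < ε := by
    intro r ε hε
    obtain ⟨L, hL0, h1, h2⟩ := hlip r
    have hδ : 0 < ε / (2 * L + 2) := by positivity
    have htb : TotallyBounded (ball (0 : ℂ) r) :=
      (isCompact_closedBall (0 : ℂ) r).totallyBounded.subset ball_subset_closedBall
    obtain ⟨t, hts, htf, hcov⟩ := Metric.finite_approx_of_totallyBounded htb _ hδ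
    have h3 : ∀ᶠ n in (Ul : Filter ℕ), ∀ y ∈ t, ‖F n y - G y‖ < ε / (2 * L + 2) := by
      refine (eventually_all_finite htf).2 fun y _ => ?_
      have := (Metric.tendsto_nhds.1 (hG y)) _ hδ
      simpa [dist_eq_norm] using this
    filter_upwards [h1, h3] with n hn1 hn3 z hz
    obtain ⟨y, hy, hzy⟩ := mem_iUnion₂.1 (hcov hz)
    have k0 : ‖z - y‖ < ε / (2 * L + 2) := mem_ball_iff_norm.1 hzy
    have k1 := hn1 z hz y (hts hy)
    have k2 := h2 y (hts hy) z hz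
    have k3 := hn3 y hy
    rw [norm_sub_rev y z] at k2
    have k4 : L * ‖z - y‖ ≤ L * (ε / (2 * L + 2)) := mul_le_mul_of_nonneg_left k0.le hL0
    have k5 : F n z - G z = (F n z - F n y) + (F n y - G y) + (G y - G z) := by abel
    have k6 := norm_add₃_le (a := F n z - F n y) (b := F n y - G y) (c := G y - G z)
    have k7 : (2 * L + 2) * (ε / (2 * L + 2)) = ε := by field_simp
    rw [k5]
    nlinarith
  have hfr : ∀ k : ℕ, ∃ᶠ n in atTop, ∀ z ∈ ball (0 : ℂ) k, ‖F n z - G z‖ < 1 / ((k : ℝ) + 1) :=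
    fun k => ((hunif k _ Nat.one_div_pos_of_nat).frequently).filter_mono hle
  obtain ⟨ψ, hψ, hP⟩ := extraction_forall_of_frequently hfr
  refine ⟨ψ, G, hψ, ?_, fun r => ?_⟩
  · rw [continuous_iff_continuousAt]
    intro z
    obtain ⟨L, -, -, h2⟩ := hlip (‖z‖ + 1)
    have hz : z ∈ ball (0 : ℂ) (‖z‖ + 1) := by simp
    rw [ContinuousAt, tendsto_iff_norm_sub_tendsto_zero]
    have h0 : Tendsto (fun x : ℂ => L * ‖x - z‖) (𝓝 z) (𝓝 0) := by
      have h1 : Continuous fun x : ℂ => L * ‖x - z‖ := by fun_prop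
      simpa using h1.tendsto z
    refine squeeze_zero' (Eventually.of_forall fun _ => norm_nonneg _) ?_ h0
    filter_upwards [isOpen_ball.mem_nhds hz] with x hx using h2 x hx z hz
  · rw [Metric.tendstoUniformlyOn_iff]
    intro ε hε
    have e1 : ∀ᶠ k : ℕ in atTop, 1 / ((k : ℝ) + 1) < ε :=
      tendsto_one_div_add_atTop_nhds_zero_nat.eventually (gt_mem_nhds hε)
    have e2 : ∀ᶠ k : ℕ in atTop, r ≤ (k : ℝ) :=
      tendsto_natCast_atTop_atTop.eventually_ge_atTop r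
    filter_upwards [e1, e2] with k h1 h2 z hz
    rw [dist_comm, dist_eq_norm]
    exact (hP k z (ball_subset_ball h2 hz)).trans h1

end Pool.Agent.MP_2fc7fa_gt.N

end
end

section

/-! The Harnack inequality along segments. -/

open Set Metric

namespace Pool.Agent.MP_2fc7fa_gt.N

theorem kHarnack : HarnackStmt := by
  intro w r C hC hw hb z hz z' hz'
  have hseg : ∀ t ∈ Icc (0 : ℝ) 1, z' + t • (z - z') ∈ ball (0 : ℂ) r := fun t ht =>
    (convex_ball (0 : ℂ) r).add_smul_sub_mem hz' hz ht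
  have hd : ∀ t ∈ Icc (0 : ℝ) 1, HasDerivAt (fun t : ℝ => w (z' + t • (z - z')))
      (fderiv ℝ w (z' + t • (z - z')) (z - z')) t := by
    intro t ht
    have h1 : HasFDerivAt w (fderiv ℝ w (z' + t • (z - z'))) (z' + t • (z - z')) :=
      (hw.differentiableAt (isOpen_ball.mem_nhds (hseg t ht))).hasFDerivAt
    have h2 : HasDerivAt (fun t : ℝ => z' + t • (z - z')) (z - z') t := by
      simpa using ((hasDerivAt_id t).smul_const (z - z')).const_add z'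
    exact h1.comp_hasDerivAt t h2
  have key := norm_le_gronwallBound_of_norm_deriv_right_le (f := fun t : ℝ => w (z' + t • (z - z')))
    (f' := fun t : ℝ => fderiv ℝ w (z' + t • (z - z')) (z - z')) (δ := ‖w z'‖)
    (K := C * ‖z - z'‖) (ε := 0) (a := 0) (b := 1)
    (fun t ht => (hd t ht).continuousAt.continuousWithinAt)
    (fun t ht => (hd t (Ico_subset_Icc_self ht)).hasDerivWithinAt) (by simp)
    (fun t ht => by
      have h1 := hb _ (hseg t (Ico_subset_Icc_self ht))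
      have h2 := (fderiv ℝ w (z' + t • (z - z'))).le_opNorm (z - z')
      have h3 := mul_le_mul_of_nonneg_right h1 (norm_nonneg (z - z'))
      nlinarith) 1 ⟨zero_le_one, le_rfl⟩
  rw [gronwallBound_ε0] at key
  simpa [mul_comm] using key

end Pool.Agent.MP_2fc7fa_gt.N

end

section

/-! `C¹` limits of solutions on the plane. -/

open scoped ContDiff ComplexConjugate Topology
open Set Complex Filter Metric

noncomputable section

namespace Pool.Agent.MP_2fc7fa_gt.N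

theorem bnd_KLimit (hH : HarnackStmt) {w : ℂ → V} {z₀ : ℂ} {C s : ℝ} (hC : 0 ≤ C)
    (h0 : ‖w z₀‖ = 1) (hz : z₀ ∈ ball (0 : ℂ) s) (hd : ContDiffOn ℝ 1 w (ball 0 s))
    (hb : ∀ z ∈ ball (0 : ℂ) s, ‖fderiv ℝ w z‖ ≤ C * ‖w z‖) :
    ∀ z ∈ ball (0 : ℂ) s, 1 ≤ (1 + C) * Real.exp (C * (2 * s)) * ‖w z‖ ∧
      ‖w z‖ ≤ (1 + C) * Real.exp (C * (2 * s)) ∧
      ‖fderiv ℝ w z‖ ≤ (1 + C) * Real.exp (C * (2 * s)) := by
  intro z hz'
  have key : ∀ a ∈ ball (0 : ℂ) s, ∀ b ∈ ball (0 : ℂ) s,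
      ‖w a‖ ≤ Real.exp (C * (2 * s)) * ‖w b‖ := fun a ha b hb' => by
    refine (hH w s C hC (hd.differentiableOn one_ne_zero) hb a ha b hb').trans ?_
    have h1 := mem_ball_zero_iff.1 ha
    have h2 := mem_ball_zero_iff.1 hb'
    have h3 := norm_sub_le a b
    gcongr
    linarith
  have h1 := key z hz' z₀ hz
  have h2 := key z₀ hz z hz'
  have h3 := hb z hz'
  rw [h0] at h1 h2
  have h4 := Real.exp_pos (C * (2 * s))
  generalize Real.exp (C * (2 * s)) = E at h1 h2 h4 ⊢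
  have h5 := mul_nonneg hC h4.le
  have h6 := mul_nonneg h5 (norm_nonneg (w z))
  have h7 := mul_le_mul_of_nonneg_left h1 hC
  refine ⟨?_, ?_, ?_⟩ <;> nlinarith

theorem kLimit (hE : EstStmt) (hA : AAStmt) (hH : HarnackStmt) : LimitStmt := by
  intro P _ φ p p₀ w z₀ C hφ hp hC h0 hw
  have bnd : ∀ r : ℝ, ∃ M : ℝ, ∀ᶠ n in atTop, ∀ z ∈ ball (0 : ℂ) r,
      1 ≤ M * ‖w n z‖ ∧ ‖w n z‖ ≤ M ∧ ‖fderiv ℝ (w n) z‖ ≤ M := fun r => by
    refine ⟨(1 + C) * Real.exp (C * (2 * (|r| + ‖z₀‖ + 1))), ?_⟩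
    filter_upwards [h0, hw (|r| + ‖z₀‖ + 1)] with n h1 h2 z hz
    refine bnd_KLimit hH hC h1 (mem_ball_zero_iff.2 ?_) h2.1 h2.2.2 z (ball_subset_ball ?_ hz)
    · linarith [abs_nonneg r]
    · linarith [le_abs_self r, norm_nonneg z₀]
  have dif : ∀ r : ℝ, ∀ᶠ n in atTop, ∀ z ∈ ball (0 : ℂ) r, DifferentiableAt ℝ (w n) z :=
    fun r => (hw r).mono fun n hn z hz =>
      (hn.1.differentiableOn one_ne_zero z hz).differentiableAt (isOpen_ball.mem_nhds hz)
  have _ : ProperSpace (V × (ℂ →L[ℝ] V)) := FiniteDimensional.proper_real _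
  obtain ⟨ψ, G, hψ, hG, hT⟩ := hA (V × (ℂ →L[ℝ] V)) (fun n z => (w n z, fderiv ℝ (w n) z))
    fun r => by
      have hr : 0 < |r| + 1 := by positivity
      obtain ⟨M, hM⟩ := bnd (2 * (|r| + 1))
      obtain ⟨K, hK⟩ := hE P φ p₀ M (|r| + 1) hφ hr
      have s1 : ball (0 : ℂ) r ⊆ ball 0 (|r| + 1) := ball_subset_ball (by linarith [le_abs_self r])
      have s2 : ball (0 : ℂ) r ⊆ ball 0 (2 * (|r| + 1)) := s1.trans (ball_subset_ball (by linarith))
      refine ⟨max M K, ?_⟩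
      filter_upwards [hM, hp.eventually hK, hw (2 * (|r| + 1)), dif r] with n h1 h2 h3 h4 z hz
      refine ⟨le_max_of_le_left (norm_prod_le_iff.2 (h1 z (s2 hz)).2), fun z' hz' =>
        norm_prod_le_iff.2 ⟨?_, ?_⟩⟩
      · exact ((convex_ball (0 : ℂ) r).norm_image_sub_le_of_norm_fderiv_le h4
          (fun x hx => (h1 x (s2 hx)).2.2) hz' hz).trans
          (mul_le_mul_of_nonneg_right (le_max_left _ _) (norm_nonneg _))
      · exact (h2 (w n) 0 h3.1 h3.2.1 h1 z (s1 hz) z' (s1 hz')).trans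
          (mul_le_mul_of_nonneg_right (le_max_right _ _) (norm_nonneg _))
  have t1 : ∀ r : ℝ, TendstoUniformlyOn (fun n => w (ψ n)) (fun z => (G z).1) atTop (ball 0 r) :=
    fun r => uniformContinuous_fst.comp_tendstoUniformlyOn (hT r)
  have t2 : ∀ r : ℝ, TendstoUniformlyOn (fun n => fderiv ℝ (w (ψ n))) (fun z => (G z).2) atTop
      (ball 0 r) := fun r => uniformContinuous_snd.comp_tendstoUniformlyOn (hT r)
  have mb : ∀ z : ℂ, z ∈ ball (0 : ℂ) (‖z‖ + 1) := fun z => mem_ball_zero_iff.2 (lt_add_one _)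
  have p1 : ∀ z, Tendsto (fun n => w (ψ n) z) atTop (𝓝 (G z).1) := fun z =>
    (t1 _).tendsto_at (mb z)
  have p2 : ∀ z, Tendsto (fun n => fderiv ℝ (w (ψ n)) z) atTop (𝓝 (G z).2) := fun z =>
    (t2 _).tendsto_at (mb z)
  have hd : ∀ z, HasFDerivAt (fun z => (G z).1) (G z).2 z := fun z => by
    have hn := isOpen_ball.mem_nhds (mb z)
    refine hasFDerivAt_of_tendstoUniformlyOnFilter (f := fun n => w (ψ n))
      (f' := fun n => fderiv ℝ (w (ψ n))) (g' := fun z => (G z).2) (l := atTop)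
      ((tendstoUniformlyOn_iff_tendstoUniformlyOnFilter.1 (t2 (‖z‖ + 1))).mono_right
        (le_principal_iff.2 hn)) ?_ (Eventually.of_forall p1)
    filter_upwards [prod_mem_prod (hψ.tendsto_atTop.eventually (dif (‖z‖ + 1))) hn] with y hy
    exact (hy.1 y.2 hy.2).hasFDerivAt
  have hf : fderiv ℝ (fun z => (G z).1) = fun z => (G z).2 := funext fun z => (hd z).fderiv
  have hne : ∀ z, (G z).1 ≠ 0 := fun z h => by
    obtain ⟨M, hM⟩ := bnd (‖z‖ + 1)
    have h1 := ge_of_tendsto ((p1 z).norm.const_mul M)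
      ((hψ.tendsto_atTop.eventually hM).mono fun n hn => (hn z (mb z)).1)
    rw [h, norm_zero, mul_zero] at h1
    exact absurd h1 (by norm_num)
  refine ⟨ψ, fun z => (G z).1, hψ, contDiff_one_iff_hasFDerivAt.2 ⟨_, hG.snd, hd⟩, hne,
    fun z _ => ?_, fun r => ⟨t1 r, by rw [hf]; exact t2 r⟩⟩
  have c1 : ContinuousAt (fun q : P × V => (φ q.1).A q.2) (p₀, (G z).1) :=
    ContinuousOn.continuousAt (hφ 0).2 (prod_mem_nhds univ_mem
      (isOpen_compl_singleton.mem_nhds (hne z)))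
  have c2 : Tendsto (fun n => (φ (p (ψ n))).A (w (ψ n) z)) atTop (𝓝 ((φ p₀).A (G z).1)) :=
    c1.tendsto.comp ((hp.comp hψ.tendsto_atTop).prodMk_nhds (p1 z))
  have c3 : ∀ h : ℂ, Tendsto (fun n => (φ (p (ψ n))).A (w (ψ n) z) (fderiv ℝ (w (ψ n)) z h)) atTop
      (𝓝 ((φ p₀).A (G z).1 ((G z).2 h))) := fun h =>
    (isBoundedBilinearMap_apply.continuous.tendsto (_, _)).comp
      (c2.prodMk_nhds (((continuous_eval_const h).tendsto _).comp (p2 z)))
  rw [hf]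
  refine tendsto_nhds_unique_of_eventuallyEq (c3 I) ((c3 1).const_smul I) ?_
  exact (hψ.tendsto_atTop.eventually (hw (‖z‖ + 1))).mono fun n hn => hn.2.1 z (mb z)

end Pool.Agent.MP_2fc7fa_gt.N

end
end

section

/-! A good gauge on growing discs. -/

open scoped ContDiff ComplexConjugate Topology
open Set Complex Filter Metric MeasureTheory

noncomputable section

namespace Pool.Agent.MP_2fc7fa_gt.N

theorem one_KRegauge (hT : TransfStmt) (hD : DensStmt) {C1 C2 R E : ℝ} (hC1 : 0 < C1)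
    (hG : ∀ (α : ℂ → ℂ) (R K E : ℝ), 0 < R → ContDiffOn ℝ 1 α (ball 0 R) →
      (∀ z ∈ ball (0 : ℂ) R, ‖dbar α z‖ ≤ K) → ∫ z in ball (0 : ℂ) R, ‖dbar α z‖ ≤ E →
      ∃ f : ℂ → ℂ, DifferentiableOn ℂ f (ball 0 R) ∧
        ∀ z ∈ ball (0 : ℂ) R, f z ≠ 0 ∧ ‖deriv f z / f z + α z‖ ≤ C2 * (K + E))
    {φ : Fr} {σ : Symp 1} (ht : Tame φ.J σ)
    (hA : ∀ (u : ℂ → V) (O : Set ℂ), IsOpen O → ContDiffOn ℝ 1 u O →
      (∀ z ∈ O, u z ≠ 0) → CR φ.A u O → ContDiffOn ℝ 1 (al φ u) O ∧ ∀ z ∈ O,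
        ‖dbar (al φ u) z‖ ≤ C1 * dens σ u z ∧
        ‖fderiv ℝ u z‖ ≤ C1 * (1 + ‖al φ u z‖ + dens σ u z) * ‖u z‖)
    {u : ℂ → V} (hR : 0 < R) (hu : ContDiffOn ℝ 1 u (ball 0 R))
    (h0 : ∀ z ∈ ball (0 : ℂ) R, u z ≠ 0 ∧ dens σ u z ≤ 1) (hCR : CR φ.A u (ball 0 R))
    (hE : ∫ z in ball (0 : ℂ) R, dens σ u z ≤ E) :
    ∃ w : ℂ → V, ‖w 0‖ = 1 ∧ ContDiffOn ℝ 1 w (ball 0 R) ∧ CR φ.A w (ball 0 R) ∧
      ∀ z ∈ ball (0 : ℂ) R, ‖fderiv ℝ w z‖ ≤ C1 * (2 + |C2 * (C1 + C1 * E)|) * ‖w z‖ ∧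
        dens σ w z = dens σ u z := by
  have hne : ∀ z ∈ ball (0 : ℂ) R, u z ≠ 0 := fun z hz => (h0 z hz).1
  have hCR1 : ∀ z ∈ ball (0 : ℂ) R, CR φ.A u {z} := fun z hz y hy => by
    rw [mem_singleton_iff.1 hy]
    exact hCR z hz
  obtain ⟨a1, a2⟩ := hA u _ isOpen_ball hu hne hCR
  have hpos : ∀ z ∈ ball (0 : ℂ) R, 0 ≤ dens σ u z := fun z hz =>
    hD.1 φ σ u z ht (hne z hz) (hCR1 z hz)
  have hint : IntegrableOn (dens σ u) (ball (0 : ℂ) R) := by
    refine Measure.integrableOn_of_bounded (M := 1) measure_ball_lt_top.ne ?_ ?_ |>.congr_fun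
      (f := (ball (0 : ℂ) R).indicator (dens σ u)) (fun z hz => indicator_of_mem hz _)
      measurableSet_ball
    · exact (aestronglyMeasurable_indicator_iff measurableSet_ball).2
        ((hD.2.1 σ u _ isOpen_ball hu hne).aestronglyMeasurable measurableSet_ball)
    · filter_upwards [ae_restrict_mem measurableSet_ball] with z hz
      rw [indicator_of_mem hz, Real.norm_of_nonneg (hpos z hz)]
      exact (h0 z hz).2
  have hI : ∫ z in ball (0 : ℂ) R, ‖dbar (al φ u) z‖ ≤ C1 * E := by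
    refine (integral_mono_of_nonneg (Eventually.of_forall fun _ => norm_nonneg _)
      (hint.const_mul C1) ?_).trans ?_
    · filter_upwards [ae_restrict_mem measurableSet_ball] with z hz using (a2 z hz).1
    · rw [integral_const_mul]
      exact mul_le_mul_of_nonneg_left hE hC1.le
  obtain ⟨f, f1, f2⟩ := hG (al φ u) R C1 (C1 * E) hR a1
    (fun z hz => (a2 z hz).1.trans (mul_le_of_le_one_right hC1.le (h0 z hz).2)) hI
  have hz0 : (0 : ℂ) ∈ ball (0 : ℂ) R := mem_ball_self hR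
  have hn : ‖f 0 • u 0‖ ≠ 0 := norm_ne_zero_iff.2 (smul_ne_zero (f2 0 hz0).1 (hne 0 hz0))
  obtain ⟨c, hc0, hc1⟩ : ∃ c : ℂ, c ≠ 0 ∧ ‖(c * f 0) • u 0‖ = 1 := by
    refine ⟨((‖f 0 • u 0‖⁻¹ : ℝ) : ℂ), ofReal_ne_zero.2 (inv_ne_zero hn), ?_⟩
    rw [mul_smul, norm_smul, norm_real, norm_inv, norm_norm, inv_mul_cancel₀ hn]
  have key := fun z (hz : z ∈ ball (0 : ℂ) R) => hT φ σ u (fun t => c * f t) (fun t => t)
    (c * deriv f z) 1 z
    ((f1.differentiableAt (isOpen_ball.mem_nhds hz)).hasDerivAt.const_mul c) (hasDerivAt_id z)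
    (mul_ne_zero hc0 (f2 z hz).1)
    ((hu.differentiableOn one_ne_zero).differentiableAt (isOpen_ball.mem_nhds hz)) (hne z hz)
    (hCR1 z hz)
  have hw : ContDiffOn ℝ 1 (fun t => (c * f t) • u t) (ball 0 R) :=
    (contDiffOn_const.mul ((f1.contDiffOn isOpen_ball).restrict_scalars ℝ)).smul hu
  have hwCR : CR φ.A (fun t => (c * f t) • u t) (ball 0 R) := fun z hz =>
    (key z hz).1 z rfl
  have hd : ∀ z ∈ ball (0 : ℂ) R, dens σ (fun t => (c * f t) • u t) z = dens σ u z :=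
    fun z hz => by simpa using (key z hz).2.2
  obtain ⟨-, b2⟩ := hA _ _ isOpen_ball hw
    (fun z hz => smul_ne_zero (mul_ne_zero hc0 (f2 z hz).1) (hne z hz)) hwCR
  refine ⟨_, hc1, hw, hwCR, fun z hz => ⟨(b2 z hz).2.trans ?_, hd z hz⟩⟩
  have h1 : ‖al φ (fun t => (c * f t) • u t) z‖ ≤ |C2 * (C1 + C1 * E)| := by
    rw [(key z hz).2.1, mul_div_mul_left _ _ hc0, one_mul]
    exact (f2 z hz).2.trans (le_abs_self _)
  have h2 := (h0 z hz).2
  rw [hd z hz]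
  gcongr ?_ * _
  refine mul_le_mul_of_nonneg_left ?_ hC1.le
  linarith

theorem kRegauge (hA : AlphaStmt) (hT : TransfStmt) (hD : DensStmt) (hG : GaugeStmt) :
    RegaugeStmt := by
  intro P _ φ om p p₀ u R E hφ hom ht hp hgr
  obtain ⟨C1, hC1, hA⟩ := hA P φ om p₀ hφ hom ht
  obtain ⟨C2, -, hG⟩ := hG
  have h : ∀ᶠ n in atTop, ∃ w : ℂ → V, ‖w 0‖ = 1 ∧ ContDiffOn ℝ 1 w (ball 0 (R n)) ∧
      CR (φ (p n)).A w (ball 0 (R n)) ∧ ∀ z ∈ ball (0 : ℂ) (R n),
        ‖fderiv ℝ w z‖ ≤ C1 * (2 + |C2 * (C1 + C1 * E)|) * ‖w z‖ ∧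
        dens (om (p n)) w z = dens (om (p n)) (u n) z := by
    filter_upwards [hp.eventually hA, hgr.2, hgr.1.eventually_gt_atTop 0] with n h1 h2 h3
    exact one_KRegauge hT hD hC1 hG (ht _) h1 h3 h2.1 h2.2.1 h2.2.2.1 h2.2.2.2.2
  obtain ⟨w, hw⟩ := h.choice
  exact ⟨w, _, by positivity, hw⟩

end Pool.Agent.MP_2fc7fa_gt.N

end
end

section

/-! Quantization of the energy of a limit density. -/

open scoped ContDiff ComplexConjugate Topology
open Set Complex Filter Metric MeasureTheory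

noncomputable section

namespace Pool.Agent.MP_2fc7fa_gt.N

theorem intOn_KQuant {f : ℂ → ℝ} {ρ : ℝ} (hc : ContinuousOn f (ball 0 ρ))
    (hb : ∀ z ∈ ball (0 : ℂ) ρ, 0 ≤ f z ∧ f z ≤ 1) : IntegrableOn f (ball (0 : ℂ) ρ) := by
  refine Measure.integrableOn_of_bounded (M := 1) measure_ball_lt_top.ne ?_ ?_ |>.congr_fun
    (f := (ball (0 : ℂ) ρ).indicator f) (fun z hz => indicator_of_mem hz f) measurableSet_ball
  · exact (aestronglyMeasurable_indicator_iff measurableSet_ball).2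
      (hc.aestronglyMeasurable measurableSet_ball)
  · filter_upwards [ae_restrict_mem measurableSet_ball] with z hz
    rw [indicator_of_mem hz, Real.norm_of_nonneg (hb z hz).1]
    exact (hb z hz).2

theorem kQuant : QuantStmt := by
  intro e e' R E hR hc hlim hev
  have hball : ∀ r : ℝ, ∀ᶠ n in atTop, ball (0 : ℂ) r ⊆ ball 0 (R n) := fun r =>
    (hR.eventually_ge_atTop r).mono fun n hn => ball_subset_ball hn
  have h0 : ∀ z, 0 ≤ e' z := fun z => by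
    refine ge_of_tendsto (hlim z) ?_
    filter_upwards [hev, hball (‖z‖ + 1)] with n hn hs
    exact (hn.2.1 z (hs (by simp))).1
  have h1 : e' 0 = 1 := by
    refine tendsto_nhds_unique (hlim 0) ?_
    exact tendsto_const_nhds.congr' (hev.mono fun n hn => hn.2.2.1.symm)
  have hconv : ∀ r : ℝ, Tendsto (fun n => ∫ z in ball (0 : ℂ) r, e n z) atTop
      (𝓝 (∫ z in ball (0 : ℂ) r, e' z)) := fun r => by
    refine tendsto_integral_filter_of_dominated_convergence (fun _ => (1 : ℝ)) ?_ ?_ ?_ ?_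
    · filter_upwards [hev, hball r] with n hn hs
      exact (hn.1.mono hs).aestronglyMeasurable measurableSet_ball
    · filter_upwards [hev, hball r] with n hn hs
      filter_upwards [ae_restrict_mem measurableSet_ball] with z hz
      rw [Real.norm_of_nonneg (hn.2.1 z (hs hz)).1]
      exact (hn.2.1 z (hs hz)).2
    · exact integrableOn_const measure_ball_lt_top.ne
    · exact Eventually.of_forall hlim
  have hE : ∀ r : ℝ, ∫ z in ball (0 : ℂ) r, e' z ≤ E := fun r => by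
    refine le_of_tendsto (hconv r) ?_
    filter_upwards [hev, hball r] with n hn hs
    refine le_trans ?_ hn.2.2.2
    refine setIntegral_mono_set (intOn_KQuant hn.1 hn.2.1) ?_ hs.eventuallyLE
    filter_upwards [ae_restrict_mem measurableSet_ball] with z hz
    exact (hn.2.1 z hz).1
  have hcov : AECover (volume : Measure ℂ) atTop (fun r : ℝ => ball (0 : ℂ) r) :=
    aecover_ball (r := id) tendsto_id
  have hint : Integrable e' := by
    refine hcov.integrable_of_integral_bounded_of_nonneg_ae E (fun r => ?_)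
      (Eventually.of_forall h0) (Eventually.of_forall hE)
    exact (hc.continuousOn.integrableOn_compact (isCompact_closedBall (0 : ℂ) r)).mono_set
      ball_subset_closedBall
  refine ⟨hint, ?_⟩
  rintro ⟨k, hk⟩ ε hε
  have hpos : 0 < ∫ z, e' z :=
    integral_pos_of_integrable_nonneg_nonzero (x := 0) hc hint h0 (by rw [h1]; exact one_ne_zero)
  have hk0 : (0 : ℝ) < k := by
    rw [hk] at hpos
    exact (mul_pos_iff_of_pos_left Real.two_pi_pos).1 hpos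
  have hk1 : (1 : ℝ) ≤ k := by
    have : (0 : ℤ) < k := by exact_mod_cast hk0
    exact_mod_cast this
  have hge : 2 * Real.pi - ε < ∫ z, e' z := by
    rw [hk]
    nlinarith [Real.pi_pos]
  have ht := hcov.integral_tendsto_of_countably_generated hint
  obtain ⟨r, hr, hr0⟩ := ((ht.eventually (lt_mem_nhds hge)).and (eventually_gt_atTop 0)).exists
  exact ⟨r, hr0, ((hconv r).eventually (lt_mem_nhds hr)).mono fun n hn => hn.le⟩

end Pool.Agent.MP_2fc7fa_gt.N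

end
end

section

/-! A bubble carries at least the energy of a line. -/

open scoped Topology
open Set Complex Filter Metric MeasureTheory

noncomputable section

namespace Pool.Agent.MP_2fc7fa_gt.N

theorem kBubble (hRg : RegaugeStmt) (hL : LimitStmt) (hD : DensStmt) (hQ : QuantStmt)
    (hP : EnPlaneStmt) : BubbleStmt := by
  intro P _ φ om p p₀ u R E hφ hom hT hp hG ε hε
  obtain ⟨w, C, hC, hw⟩ := hRg P φ om p p₀ u R E hφ hom hT hp hG
  obtain ⟨hR, hGn⟩ := hG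
  obtain ⟨ψ, u', hψ, hu1, hu0, hucr, hconv⟩ := hL P φ p p₀ w 0 C hφ hp hC
    (hw.mono fun n h => h.1) (fun r => by
      filter_upwards [hw, hR.eventually_ge_atTop r] with n h hr
      have hs : ball (0 : ℂ) r ⊆ ball 0 (R n) := ball_subset_ball hr
      exact ⟨h.2.1.mono hs, fun z hz => h.2.2.1 z (hs hz), fun z hz => (h.2.2.2 z (hs hz)).1⟩)
  have hψt : Tendsto ψ atTop atTop := hψ.tendsto_atTop
  have hev : ∀ᶠ n in atTop, ContinuousOn (dens (om (p n)) (w n)) (ball 0 (R n)) ∧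
      (∀ z ∈ ball (0 : ℂ) (R n), 0 ≤ dens (om (p n)) (w n) z ∧ dens (om (p n)) (w n) z ≤ 1) ∧
      dens (om (p n)) (w n) 0 = 1 ∧ ∫ z in ball (0 : ℂ) (R n), dens (om (p n)) (w n) z ≤ E := by
    filter_upwards [hw, hGn, hR.eventually_gt_atTop 0] with n h g hr
    refine ⟨(hD.2.1 (om (p n)) (u n) (ball 0 (R n)) isOpen_ball g.1
      (fun z hz => (g.2.1 z hz).1)).congr (fun z hz => (h.2.2.2 z hz).2), fun z hz => ?_, ?_, ?_⟩
    · rw [(h.2.2.2 z hz).2]
      refine ⟨hD.1 (φ (p n)) (om (p n)) (u n) z (hT _) (g.2.1 z hz).1 (fun t ht => ?_),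
        (g.2.1 z hz).2⟩
      rw [mem_singleton_iff.1 ht]
      exact g.2.2.1 z hz
    · rw [(h.2.2.2 0 (mem_ball_self hr)).2]
      exact g.2.2.2.1
    · rw [setIntegral_congr_fun measurableSet_ball (fun z hz => (h.2.2.2 z hz).2)]
      exact g.2.2.2.2
  obtain ⟨hint, hq⟩ := hQ (fun n => dens (om (p (ψ n))) (w (ψ n))) (dens (om p₀) u')
    (fun n => R (ψ n)) E (hR.comp hψt)
    (continuousOn_univ.1 (hD.2.1 (om p₀) u' univ isOpen_univ hu1.contDiffOn (fun z _ => hu0 z)))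
    (fun z => hD.2.2 P om (fun n => p (ψ n)) p₀ (fun n => w (ψ n)) u' hom (hp.comp hψt) hconv z
      (hu0 z)) (hψt.eventually hev)
  obtain ⟨r, hr, hev'⟩ := hq (hP (φ p₀) (om p₀) u' (hT p₀) hu1 hu0 hucr hint) ε hε
  refine ⟨r, hr, hψt.frequently (Eventually.frequently ?_)⟩
  filter_upwards [hev', hψt.eventually hw, hψt.eventually (hR.eventually_ge_atTop r)]
    with n h1 h2 h3
  rw [← setIntegral_congr_fun measurableSet_ball
    (fun z hz => (h2.2.2.2 z (ball_subset_ball h3 hz)).2)]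
  exact h1

end Pool.Agent.MP_2fc7fa_gt.N

end
end

section

/-! Holomorphic change of variables. -/

open Set Complex MeasureTheory

namespace Pool.Agent.MP_2fc7fa_gt.N

theorem det_KCoV (c : ℂ) :
    ((ContinuousLinearMap.toSpanSingleton ℂ c).restrictScalars ℝ : ℂ →L[ℝ] ℂ).det = ‖c‖ ^ 2 := by
  rw [ContinuousLinearMap.det, ← LinearMap.det_toMatrix Complex.basisOneI, Matrix.det_fin_two]
  simp [LinearMap.toMatrix_apply, Complex.sq_norm, Complex.normSq_apply]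

theorem kCoV : CoVStmt := by
  intro e g g' S hS hd hi
  rw [integral_image_eq_integral_abs_det_fderiv_smul volume hS
    (fun z hz => ((hd z hz).hasFDerivAt.restrictScalars ℝ).hasFDerivWithinAt) hi]
  refine setIntegral_congr_fun hS fun z _ => ?_
  simp only [det_KCoV, smul_eq_mul, abs_pow, abs_norm]

end Pool.Agent.MP_2fc7fa_gt.N

end

section

/-! Normalisation of a line at the maximum of its energy density. -/

open scoped Topology
open Set Complex Filter Metric MeasureTheory Bornology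

namespace Pool.Agent.MP_2fc7fa_gt.N

lemma equiv_KNorm {c ρ : ℂ} (hc : c ≠ 0) (hρ : ρ ≠ 0) (z₀ : ℂ) :
    ∃ g : W ≃L[ℂ] W, ∀ z : ℂ, g (1, z) = c • ((1, z₀ + ρ * z) : W) := by
  refine ⟨LinearEquiv.toContinuousLinearEquiv
    { toFun := fun q => (c * q.1, c * (z₀ * q.1 + ρ * q.2))
      invFun := fun q => (c⁻¹ * q.1, ρ⁻¹ * (c⁻¹ * q.2 - z₀ * (c⁻¹ * q.1)))
      map_add' := fun q r => Prod.ext (by simp; ring) (by simp; ring)
      map_smul' := fun a q => Prod.ext (by simp; ring) (by simp; ring)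
      left_inv := fun q => Prod.ext (by simp [hc]) (by simp only; field_simp; ring)
      right_inv := fun q => Prod.ext (by simp [hc]) (by simp only; field_simp; ring) },
    fun z => ?_⟩
  change ((c * 1, c * (z₀ * 1 + ρ * z)) : W) = _
  simp

theorem kNorm (hE : EnLineStmt) (hL : LineStmt) (hT : TransfStmt) (hD : DensStmt) : NormStmt := by
  intro φ σ U _ hU
  obtain ⟨-, ⟨a1, a2, a3⟩, ⟨b1, b2, -⟩, h4⟩ := hL φ σ U hU
  have c0' := continuousOn_univ.1 (hD.2.1 σ _ _ isOpen_univ a1.contDiffOn fun z _ => a2 z)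
  have c1' := continuousOn_univ.1 (hD.2.1 σ _ _ isOpen_univ b1.contDiffOn fun z _ => b2 z)
  obtain ⟨z₁, h1⟩ : ∃ z, 0 < dens σ (c0 U) z := by
    by_contra! h
    have h2 : ∫ z, dens σ (c0 U) z = 2 * Real.pi := (hE φ σ U hU).2
    have h3 := integral_nonpos (μ := volume) (f := dens σ (c0 U)) h
    linarith [Real.pi_pos]
  have h2 : Tendsto (dens σ (c0 U)) (cobounded ℂ) (𝓝 (‖(0 : ℂ)‖ ^ 4 * dens σ (c1 U) 0)) := by
    refine ((tendsto_inv₀_cobounded.norm.pow 4).mul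
      ((c1'.tendsto 0).comp tendsto_inv₀_cobounded)).congr' ?_
    filter_upwards [eventually_ne_cobounded 0] with z hz
    rw [(h4 z hz).2.1, norm_inv, inv_pow, Function.comp_apply]
  rw [norm_zero, zero_pow four_ne_zero, zero_mul, cobounded_eq_cocompact] at h2
  obtain ⟨z₀, h0⟩ := c0'.exists_forall_ge' z₁ (h2.eventually (ge_mem_nhds h1))
  have hm := h1.trans_le (h0 z₁)
  obtain ⟨ρ, hρ, hρ'⟩ : ∃ ρ : ℂ, ρ ≠ 0 ∧ ‖ρ‖ ^ 2 = (dens σ (c0 U) z₀)⁻¹ :=
    ⟨√(dens σ (c0 U) z₀)⁻¹, ofReal_ne_zero.2 (Real.sqrt_pos.2 (inv_pos.2 hm)).ne', by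
      rw [norm_real, Real.norm_eq_abs, sq_abs, Real.sq_sqrt (inv_pos.2 hm).le]⟩
  have hn : ‖c0 U (z₀ + ρ * 1)‖ ≠ 0 := norm_ne_zero_iff.2 (a2 _)
  have hc : ((‖c0 U (z₀ + ρ * 1)‖ : ℂ))⁻¹ ≠ 0 := inv_ne_zero (ofReal_ne_zero.2 hn)
  obtain ⟨g, hg⟩ := equiv_KNorm hc hρ z₀
  have e : c0 (U ∘ g) = fun t => ((‖c0 U (z₀ + ρ * 1)‖ : ℂ))⁻¹ • c0 U (z₀ + ρ * t) :=
    funext fun t => (congrArg U (hg t)).trans (hU.hom _ _)
  have h5 : ∀ z, dens σ (c0 (U ∘ g)) z = (dens σ (c0 U) z₀)⁻¹ * dens σ (c0 U) (z₀ + ρ * z) := by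
    intro z
    rw [e, ← hρ']
    exact (hT φ σ (c0 U) (fun _ => _) (fun t => z₀ + ρ * t) 0 ρ z (hasDerivAt_const _ _)
      (by simpa using ((hasDerivAt_id z).const_mul ρ).const_add z₀) hc
      (a1.differentiable one_ne_zero _) (a2 _) fun w _ => a3 w trivial).2.2
  refine ⟨g, fun z => ?_, ?_, ?_⟩
  · rw [h5, inv_mul_le_iff₀ hm, mul_one]
    exact h0 _
  · rw [h5, mul_zero, add_zero, inv_mul_cancel₀ hm.ne']
  · rw [show U (g (1, 1)) = _ from congrFun e 1, norm_smul, norm_inv, norm_real, norm_norm,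
      inv_mul_cancel₀ hn]

end Pool.Agent.MP_2fc7fa_gt.N

end

section

open scoped ContDiff ComplexConjugate Topology
open Set Complex Filter Metric MeasureTheory

namespace Pool.Agent.MP_2fc7fa_gt.N

theorem image_inv_KInv {r : ℝ} (hr : 0 < r) :
    (fun z : ℂ => z⁻¹) '' {z | r < ‖z‖} = ball (0 : ℂ) r⁻¹ \ {0} := by
  ext w
  simp only [mem_image, mem_ofPred_eq, Set.mem_sdiff, mem_ball_zero_iff, mem_singleton_iff]
  constructor
  · rintro ⟨z, hz, rfl⟩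
    have h0 : 0 < ‖z‖ := hr.trans hz
    exact ⟨by rw [norm_inv]; exact inv_strictAnti₀ hr hz, inv_ne_zero (norm_pos_iff.1 h0)⟩
  · rintro ⟨h1, h2⟩
    refine ⟨w⁻¹, ?_, inv_inv w⟩
    rw [norm_inv]
    exact (lt_inv_comm₀ hr (norm_pos_iff.2 h2)).2 h1

theorem kInv (hE : EnLineStmt) (hL : LineStmt) (hD : DensStmt) (hC : CoVStmt) : InvStmt := by
  intro φ σ U r hT hU hr
  obtain ⟨hg, ⟨-, hne, hcr⟩, -, hinv⟩ := hL φ σ U hU
  obtain ⟨h1, h2⟩ := hE φ σ _ (hg (ContinuousLinearEquiv.prodComm ℂ ℂ ℂ))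
  obtain ⟨h3, h4⟩ := hE φ σ U hU
  refine ⟨h1, h2, ?_⟩
  have hS : MeasurableSet {z : ℂ | r < ‖z‖} :=
    (isOpen_lt continuous_const continuous_norm).measurableSet
  have hz : ∀ z ∈ {z : ℂ | r < ‖z‖}, z ≠ 0 := fun z hz => norm_pos_iff.1 (hr.trans hz)
  have h5 := hC (dens σ (c1 U)) (fun z => z⁻¹) (fun z => -(z ^ 2)⁻¹) _ hS
    (fun z h => hasDerivAt_inv (hz z h)) (inv_injective.injOn)
  rw [image_inv_KInv hr, setIntegral_congr_set (sdiff_null_ae_eq_self (measure_singleton _))] at h5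
  have h6 : ∫ z in {z : ℂ | r < ‖z‖}, ‖-(z ^ 2)⁻¹‖ ^ 2 * dens σ (c1 U) z⁻¹ =
      ∫ z in {z : ℂ | r < ‖z‖}, dens σ (c0 U) z := by
    refine setIntegral_congr_fun hS fun z h => ?_
    rw [(hinv z (hz z h)).2.1, norm_neg, norm_inv, norm_pow, inv_pow, ← pow_mul]
  have hdis : Disjoint {z : ℂ | r < ‖z‖} (ball 0 r) :=
    Set.disjoint_left.2 fun z h h' => lt_asymm h (mem_ball_zero_iff.1 h')
  have h3' : Integrable (dens σ (c0 U)) := h3
  rw [h5, h6, ← setIntegral_union hdis measurableSet_ball h3'.integrableOn h3'.integrableOn, ← h4]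
  exact setIntegral_le_integral h3' (Eventually.of_forall fun z =>
    hD.1 φ σ _ z hT (hne z) fun w _ => hcr w (mem_univ w))

end Pool.Agent.MP_2fc7fa_gt.N

end

section

/-! K20: no bubbling at infinity. -/

open scoped ContDiff Topology
open Set Complex Filter Metric MeasureTheory

noncomputable section

namespace Pool.Agent.MP_2fc7fa_gt.N

theorem max_KOuter (e : ℂ → ℝ) (hc : Continuous e) (h0 : ∀ z, 0 ≤ e z)
    (hb : ∀ z : ℂ, z ≠ 0 → e z ≤ (‖z‖ ^ 4)⁻¹) : ∃ a, ∀ z, e z ≤ e a := by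
  by_cases hz : ∀ z, e z ≤ 0
  · exact ⟨0, fun z => (hz z).trans (h0 0)⟩
  push Not at hz
  obtain ⟨z₀, hz₀⟩ := hz
  refine hc.exists_forall_ge' z₀ ?_
  have h1 : Tendsto (fun z : ℂ => ‖z‖) (cocompact ℂ) atTop := tendsto_norm_cocompact_atTop
  have h2 : Tendsto (fun z : ℂ => (‖z‖ ^ 4)⁻¹) (cocompact ℂ) (𝓝 0) :=
    tendsto_inv_atTop_zero.comp ((tendsto_pow_atTop (by norm_num)).comp h1)
  filter_upwards [h2.eventually (gt_mem_nhds hz₀), h1.eventually (eventually_gt_atTop 0)] with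
    z hz1 hz2
  exact (hb z (norm_pos_iff.1 hz2)).trans hz1.le

theorem image_KOuter (a : ℂ) {ρ : ℝ} (hρ : 0 < ρ) (s : ℝ) :
    (fun t : ℂ => a + ρ * t) '' ball 0 s = ball a (ρ * s) := by
  ext w
  simp only [mem_image, mem_ball, dist_eq_norm, sub_zero]
  constructor
  · rintro ⟨t, ht, rfl⟩
    rw [add_sub_cancel_left, norm_mul, Complex.norm_real, Real.norm_of_nonneg hρ.le]
    exact mul_lt_mul_of_pos_left ht hρ
  · intro hw
    have hρ' : (ρ : ℂ) ≠ 0 := by exact_mod_cast hρ.ne'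
    refine ⟨(w - a) / ρ, ?_, by field_simp; ring⟩
    rw [norm_div, Complex.norm_real, Real.norm_of_nonneg hρ.le, div_lt_iff₀ hρ]
    linarith

theorem rescale_KOuter (hT : TransfStmt) (hC : CoVStmt) (φ : Fr) (σ : Symp 1) (u : ℂ → V)
    (hu : ContDiff ℝ 1 u) (hu0 : ∀ z, u z ≠ 0) (hcr : CR φ.A u univ) (a : ℂ) {ρ : ℝ}
    (hρ : 0 < ρ) :
    ContDiff ℝ 1 (fun t : ℂ => (1 : ℂ) • u (a + ρ * t)) ∧
      (∀ t : ℂ, (1 : ℂ) • u (a + ρ * t) ≠ 0) ∧
      CR φ.A (fun t : ℂ => (1 : ℂ) • u (a + ρ * t)) univ ∧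
      (∀ t : ℂ, dens σ (fun t : ℂ => (1 : ℂ) • u (a + ρ * t)) t = ρ ^ 2 * dens σ u (a + ρ * t)) ∧
      ∀ s : ℝ, ∫ t in ball (0 : ℂ) s, dens σ (fun t : ℂ => (1 : ℂ) • u (a + ρ * t)) t =
        ∫ z in ball a (ρ * s), dens σ u z := by
  have hg : ∀ t : ℂ, HasDerivAt (fun t : ℂ => a + ρ * t) (ρ : ℂ) t := fun t => by
    simpa using ((hasDerivAt_id t).const_mul (ρ : ℂ)).const_add a
  have key := fun t : ℂ => hT φ σ u (fun _ => 1) (fun t => a + ρ * t) 0 ρ t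
    (hasDerivAt_const t 1) (hg t) one_ne_zero (hu.differentiable (by simp) _) (hu0 _)
    (fun z hz => hcr z (mem_univ z))
  have hn : ‖(ρ : ℂ)‖ = ρ := by rw [Complex.norm_real, Real.norm_of_nonneg hρ.le]
  have hd : ∀ t : ℂ, dens σ (fun t : ℂ => (1 : ℂ) • u (a + ρ * t)) t =
      ‖(ρ : ℂ)‖ ^ 2 * dens σ u (a + ρ * t) := fun t => (key t).2.2
  refine ⟨?_, fun t => by simpa using hu0 _, fun t _ => (key t).1 t rfl, fun t => ?_, fun s => ?_⟩
  · simp only [one_smul]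
    exact hu.comp (contDiff_const.add (contDiff_const.mul contDiff_id))
  · rw [hd t, hn]
  · have hρ' : (ρ : ℂ) ≠ 0 := by exact_mod_cast hρ.ne'
    rw [← image_KOuter a hρ s, hC (dens σ u) (fun t => a + ρ * t) (fun _ => ρ) (ball 0 s)
      measurableSet_ball (fun z _ => hg z) (fun x _ y _ h => by
        simpa [hρ'] using h)]
    exact setIntegral_congr_fun measurableSet_ball fun t _ => hd t

theorem kOuter (hB : BubbleStmt) (hL : LineStmt) (hT : TransfStmt) (hD : DensStmt)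
    (hC : CoVStmt) (hI : InvStmt) : OuterStmt := by
  intro P _ φ om p p₀ U r hφ hom hta hp hr hU h0 hπ
  by_contra hcon
  have hcon' : ∀ M : ℝ, ∀ᶠ n in atTop, ∃ z, M < dens (om (p n)) (c1 (U n)) z := fun M => by
    have := not_frequently.1 (not_exists.1 hcon M)
    filter_upwards [this] with n hn
    push Not at hn
    exact hn
  have hl := fun n => hL (φ (p n)) (om (p n)) (U n) (hU n)
  have hc1 := fun n => (hl n).2.2.1
  have hpos : ∀ n z, 0 ≤ dens (om (p n)) (c1 (U n)) z := fun n z =>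
    hD.1 (φ (p n)) (om (p n)) (c1 (U n)) z (hta _) ((hc1 n).2.1 z)
      (fun w _ => (hc1 n).2.2 w (mem_univ w))
  have hcont : ∀ n, Continuous (dens (om (p n)) (c1 (U n))) := fun n =>
    continuousOn_univ.1 (hD.2.1 (om (p n)) (c1 (U n)) univ isOpen_univ (hc1 n).1.contDiffOn
      fun z _ => (hc1 n).2.1 z)
  have hbd : ∀ n (z : ℂ), z ≠ 0 → dens (om (p n)) (c1 (U n)) z ≤ (‖z‖ ^ 4)⁻¹ := fun n z hz => by
    rw [((hl n).2.2.2 z hz).2.2]
    exact mul_le_of_le_one_right (by positivity) (h0 n _)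
  have hint := fun n => hI (φ (p n)) (om (p n)) (U n) 1 (hta _) (hU n) one_pos
  choose a ha using fun n => max_KOuter _ (hcont n) (hpos n) (hbd n)
  set m : ℕ → ℝ := fun n => dens (om (p n)) (c1 (U n)) (a n) with hm
  have hmt : Tendsto m atTop atTop := tendsto_atTop.2 fun M => by
    filter_upwards [hcon' M] with n ⟨z, hz⟩
    exact hz.le.trans (ha n z)
  have hm0 : ∀ᶠ n in atTop, 0 < m n := hmt.eventually (eventually_gt_atTop 0)
  set ρ : ℕ → ℝ := fun n => (√(m n))⁻¹ with hρ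
  have hρt : Tendsto ρ atTop (𝓝 0) :=
    tendsto_inv_atTop_zero.comp (Real.tendsto_sqrt_atTop.comp hmt)
  have hρ0 : ∀ n, 0 < m n → 0 < ρ n := fun n hn => inv_pos.2 (Real.sqrt_pos.2 hn)
  have hρ2 : ∀ n, 0 < m n → ρ n ^ 2 * m n = 1 := fun n hn => by
    rw [hρ]
    simp only
    rw [inv_pow, Real.sq_sqrt hn.le, inv_mul_cancel₀ hn.ne']
  have hat : ∀ᶠ n in atTop, ‖a n‖ < r / 2 := by
    filter_upwards [hmt.eventually (eventually_gt_atTop (((r / 2) ^ 4)⁻¹))] with n hn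
    by_contra hh
    push Not at hh
    have h1 : 0 < ‖a n‖ := lt_of_lt_of_le (by positivity) hh
    have h2 := hbd n (a n) (norm_pos_iff.1 h1)
    have h3 : (‖a n‖ ^ 4)⁻¹ ≤ ((r / 2) ^ 4)⁻¹ :=
      inv_anti₀ (by positivity) (pow_le_pow_left₀ (by positivity) hh 4)
    exact absurd (h2.trans h3) (not_le.2 hn)
  have hres := fun n (hn : 0 < m n) => rescale_KOuter hT hC (φ (p n)) (om (p n)) (c1 (U n))
    (hc1 n).1 (hc1 n).2.1 (hc1 n).2.2 (a n) (hρ0 n hn)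
  have hgrow : Grow φ om p (fun n t => (1 : ℂ) • c1 (U n) (a n + ρ n * t)) (fun n => n)
      (2 * Real.pi) := by
    refine ⟨tendsto_natCast_atTop_atTop, ?_⟩
    filter_upwards [hm0] with n hn
    obtain ⟨h1, h2, h3, h4, h5⟩ := hres n hn
    refine ⟨h1.contDiffOn, fun z _ => ⟨h2 z, ?_⟩, fun z _ => h3 z (mem_univ z), ?_, ?_⟩
    · rw [h4 z, ← hρ2 n hn]
      exact mul_le_mul_of_nonneg_left (ha n _) (by positivity)
    · rw [h4 0, mul_zero, add_zero]
      exact hρ2 n hn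
    · rw [h5, ← (hint n).2.1]
      exact setIntegral_le_integral (hint n).1 (Eventually.of_forall (hpos n))
  obtain ⟨s, hs, hfr⟩ := hB P φ om p p₀ _ _ _ hφ hom hta hp hgrow (Real.pi / 2)
    (by positivity)
  have hρs : ∀ᶠ n in atTop, ρ n * s < r / 2 := by
    have : Tendsto (fun n => ρ n * s) atTop (𝓝 (0 * s)) := hρt.mul_const s
    rw [zero_mul] at this
    exact this.eventually (gt_mem_nhds (by positivity))
  obtain ⟨n, hn, hn0, hn1, hn2⟩ := (hfr.and_eventually (hm0.and (hat.and hρs))).exists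
  rw [(hres n hn0).2.2.2.2 s] at hn
  have hsub : ball (a n) (ρ n * s) ⊆ ball (0 : ℂ) r := by
    refine ball_subset_ball' ?_
    rw [dist_zero_right]
    linarith
  have hle : ∫ z in ball (a n) (ρ n * s), dens (om (p n)) (c1 (U n)) z ≤
      ∫ z in ball (0 : ℂ) r, dens (om (p n)) (c1 (U n)) z :=
    setIntegral_mono_set (hint n).1.integrableOn (Eventually.of_forall (hpos n))
      hsub.eventuallyLE
  have := hπ n
  have := Real.pi_pos
  linarith

end Pool.Agent.MP_2fc7fa_gt.N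

end
end

section

/-! Gluing the two affine charts of a line. -/

open scoped ContDiff ComplexConjugate Topology
open Set Complex Filter

noncomputable section

namespace Pool.Agent.MP_2fc7fa_gt.N

theorem cr_KGlueA (φ : Fr) {u : ℂ → V} (hcr : CR φ.A u univ) (z k : ℂ) :
    φ.A (u z) (fderiv ℝ u z k) = k • φ.A (u z) (fderiv ℝ u z 1) := by
  have hk : k = k.re • (1 : ℂ) + k.im • I := by
    apply Complex.ext <;> simp
  conv_lhs => rw [hk]
  rw [map_add, map_add, map_smul, map_smul, map_smul, map_smul, hcr z (mem_univ z)]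
  conv_rhs => rw [hk]
  rw [add_smul, smul_assoc, smul_assoc, one_smul]

theorem chart_KGlueA (φ : Fr) {u : ℂ → V} (hu : ContDiff ℝ 1 u) (hne : ∀ z, u z ≠ 0)
    (hcr : CR φ.A u univ) {a b : W → ℂ} {q : W} (ha : ContDiffAt ℂ 1 a q)
    (hb : ContDiffAt ℂ 1 b q) (h0 : a q ≠ 0) {U : W → V}
    (hU : U =ᶠ[𝓝 q] fun p => a p • u (b p)) :
    ContDiffAt ℝ 1 U q ∧ U q ≠ 0 ∧
      ∀ h, fderiv ℝ U q (I • h) = φ.J (U q) (fderiv ℝ U q h) := by
  have hq : U q = a q • u (b q) := hU.self_of_nhds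
  have hne' : U q ≠ 0 := hq ▸ smul_ne_zero h0 (hne _)
  refine ⟨ContDiffAt.congr_of_eventuallyEq ?_ hU, hne', fun h => ?_⟩
  · exact (ha.restrict_scalars ℝ).smul (hu.contDiffAt.comp q (hb.restrict_scalars ℝ))
  have ha' := ((ha.differentiableAt one_ne_zero).hasFDerivAt).restrictScalars ℝ
  have hb' := ((hb.differentiableAt one_ne_zero).hasFDerivAt).restrictScalars ℝ
  have hu' := ((hu.differentiable one_ne_zero) (b q)).hasFDerivAt
  have hG := (ha'.smul (hu'.comp q hb')).congr_of_eventuallyEq hU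
  have key : ∀ h, φ.A (U q) (fderiv ℝ U q h) =
      fderiv ℂ a q h • u (b q) + (a q * fderiv ℂ b q h) • φ.A (u (b q)) (fderiv ℝ u (b q) 1) := by
    intro h
    have e : fderiv ℝ U q h = a q • ((fderiv ℂ a q h / a q) • u (b q) +
        fderiv ℝ u (b q) (fderiv ℂ b q h)) := by
      rw [hG.fderiv, smul_add, smul_smul, mul_div_cancel₀ _ h0]
      simp [add_comm]
    rw [e, hq, φ.A_scale (hne _) h0, map_add, φ.A_vert (hne _), cr_KGlueA φ hcr, smul_add,
      smul_smul, smul_smul, mul_div_cancel₀ _ h0]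
  rw [Fr.J, ← φ.BA _ hne' (fderiv ℝ U q (I • h)), key, key, map_smul, map_smul, smul_add,
    smul_smul, smul_smul, smul_eq_mul, smul_eq_mul, mul_left_comm]

theorem kGlueA : GlueAStmt := by
  intro φ u v hu hv hu0 hv0 hcu hcv huv
  classical
  let U : W → V := fun q => if q.1 = 0 then q.2 • v 0 else q.1 • u (q.2 / q.1)
  have h1 : ∀ q : W, q.1 ≠ 0 → U q = q.1 • u (q.2 / q.1) := fun q hq => if_neg hq
  have h2 : ∀ q : W, q.2 ≠ 0 → U q = q.2 • v (q.1 / q.2) := fun q hq => by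
    by_cases h : q.1 = 0
    · simp [U, h]
    · rw [h1 q h, huv _ (div_ne_zero hq h), smul_smul, mul_div_cancel₀ _ h, inv_div]
  have loc : ∀ q : W, q ≠ 0 → ContDiffAt ℝ 1 U q ∧ U q ≠ 0 ∧
      ∀ h, fderiv ℝ U q (I • h) = φ.J (U q) (fderiv ℝ U q h) := by
    intro q hq
    by_cases h : q.1 = 0
    · have h' : q.2 ≠ 0 := fun h' => hq (Prod.ext h h')
      refine chart_KGlueA φ hv hv0 hcv (a := Prod.snd) (b := fun p => p.1 / p.2)
        contDiffAt_snd (contDiffAt_fst.div contDiffAt_snd h') h' ?_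
      filter_upwards [continuous_snd.continuousAt.eventually_ne h'] with p hp using h2 p hp
    · refine chart_KGlueA φ hu hu0 hcu (a := Prod.fst) (b := fun p => p.2 / p.1)
        contDiffAt_fst (contDiffAt_snd.div contDiffAt_fst h) h ?_
      filter_upwards [continuous_fst.continuousAt.eventually_ne h] with p hp using h1 p hp
  refine ⟨U, ⟨fun q hq => (loc q hq).1.contDiffWithinAt, fun q hq => (loc q hq).2.1,
    fun c q => ?_, fun q hq => (loc q hq).2.2⟩, ?_, ?_⟩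
  · by_cases hc : c = 0
    · simp [U, hc]
    by_cases h : q.1 = 0
    · simp [U, h, mul_smul]
    · rw [h1 q h, h1 (c • q) (by simpa using ⟨hc, h⟩), smul_smul]
      simp [mul_div_mul_left _ _ hc]
  · funext z
    rw [c0, h1 _ one_ne_zero]
    simp
  · funext w
    rw [c1, h2 _ one_ne_zero]
    simp

end Pool.Agent.MP_2fc7fa_gt.N

end
end

section

/-! Convergence in the two charts gives convergence of homogeneous maps. -/

open scoped Topology
open Set Complex Filter Metric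

namespace Pool.Agent.MP_2fc7fa_gt.N

theorem scale_KGlueB {D : W → V} (hd : ∀ q, q ≠ 0 → DifferentiableAt ℝ D q)
    (hh : ∀ (c : ℂ) q, D (c • q) = c • D q) {p : W} (hp : p ≠ 0) {c : ℂ} (hc : c ≠ 0) (h : W) :
    fderiv ℝ D (c • p) (c • h) = c • fderiv ℝ D p h := by
  have h1 : HasFDerivAt (fun q : W => D (c • q))
      ((fderiv ℝ D (c • p)).comp (c • ContinuousLinearMap.id ℝ W)) p :=
    HasFDerivAt.comp (g := D) (f := fun q : W => c • q) p
      (hd _ (smul_ne_zero hc hp)).hasFDerivAt ((hasFDerivAt_id p).const_smul c)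
  have h2 : HasFDerivAt (fun q : W => D (c • q)) (c • fderiv ℝ D p) p := by
    simp only [hh]
    exact (hd p hp).hasFDerivAt.const_smul c
  exact congrArg (fun L : W →L[ℝ] V => L h) (h1.unique h2)

theorem euler_KGlueB {D : W → V} (hd : ∀ q, q ≠ 0 → DifferentiableAt ℝ D q)
    (hh : ∀ (c : ℂ) q, D (c • q) = c • D q) {p : W} (hp : p ≠ 0) (a : ℂ) :
    fderiv ℝ D p (a • p) = a • D p := by
  have h0 : HasFDerivAt (fun c : ℂ => c • p) ((ContinuousLinearMap.id ℝ ℂ).smulRight p) 1 :=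
    ((ContinuousLinearMap.id ℝ ℂ).smulRight p).hasFDerivAt
  have h1 : HasFDerivAt (fun c : ℂ => D (c • p))
      ((fderiv ℝ D p).comp ((ContinuousLinearMap.id ℝ ℂ).smulRight p)) 1 :=
    HasFDerivAt.comp (g := D) (f := fun c : ℂ => c • p) 1
      (by rw [one_smul]; exact (hd p hp).hasFDerivAt) h0
  have h2 : HasFDerivAt (fun c : ℂ => D (c • p))
      ((ContinuousLinearMap.id ℝ ℂ).smulRight (D p)) 1 := by
    simp only [hh]
    exact ((ContinuousLinearMap.id ℝ ℂ).smulRight (D p)).hasFDerivAt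
  exact congrArg (fun L : ℂ →L[ℝ] V => L a) (h1.unique h2)

/-- The bound in one chart `z ↦ e + z • f`. -/
theorem chart_KGlueB {D : W → V} (hd : ∀ q, q ≠ 0 → DifferentiableAt ℝ D q)
    (hh : ∀ (c : ℂ) q, D (c • q) = c • D q) {e f : W} {z c : ℂ} {ε : ℝ} (hp : e + z • f ≠ 0)
    (hc : ‖c‖ = 1) (h1 : ‖D (e + z • f)‖ ≤ ε) (h2 : ‖fderiv ℝ (fun w : ℂ => D (e + w • f)) z‖ ≤ ε)
    (h3 : ∀ h : W, ∃ a k : ℂ, ‖a‖ ≤ ‖h‖ ∧ ‖k‖ ≤ 2 * ‖h‖ ∧ h = a • (e + z • f) + k • f) :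
    ‖D (c • (e + z • f))‖ ≤ 3 * ε ∧ ‖fderiv ℝ D (c • (e + z • f))‖ ≤ 3 * ε := by
  have hε : 0 ≤ ε := (norm_nonneg _).trans h1
  have hc0 : c ≠ 0 := fun e => by simp [e] at hc
  refine ⟨by rw [hh, norm_smul, hc]; linarith, ?_⟩
  refine ContinuousLinearMap.opNorm_le_bound _ (by positivity) fun h => ?_
  obtain ⟨a, k, ha, hk, e1⟩ := h3 (c⁻¹ • h)
  have e2 : ‖c⁻¹ • h‖ = ‖h‖ := by rw [norm_smul, norm_inv, hc, inv_one, one_mul]
  rw [e2] at ha hk
  have h4 : HasFDerivAt (fun w : ℂ => D (e + w • f))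
      ((fderiv ℝ D (e + z • f)).comp ((ContinuousLinearMap.id ℝ ℂ).smulRight f)) z :=
    HasFDerivAt.comp (g := D) (f := fun w : ℂ => e + w • f) z (hd _ hp).hasFDerivAt
      (((ContinuousLinearMap.id ℝ ℂ).smulRight f).hasFDerivAt.const_add e)
  have h5 : fderiv ℝ D (e + z • f) (k • f) = fderiv ℝ (fun w : ℂ => D (e + w • f)) z k := by
    rw [h4.fderiv]
    rfl
  have h6 : fderiv ℝ D (c • (e + z • f)) h =
      c • (a • D (e + z • f) + fderiv ℝ (fun w : ℂ => D (e + w • f)) z k) := by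
    rw [← h5, ← euler_KGlueB hd hh hp, ← map_add, ← e1, ← scale_KGlueB hd hh hp hc0,
      smul_inv_smul₀ hc0]
  rw [h6, norm_smul, hc, one_mul]
  have h7 := (fderiv ℝ (fun w : ℂ => D (e + w • f)) z).le_of_opNorm_le_of_le h2 hk
  have h8 : ‖a • D (e + z • f)‖ ≤ ‖h‖ * ε := by
    rw [norm_smul]
    exact mul_le_mul ha h1 (norm_nonneg _) (norm_nonneg _)
  refine (norm_add_le _ _).trans ?_
  linarith

theorem kGlueB : GlueBStmt := by
  intro U U' hU hU' hh' h0 h1 ε hε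
  have hε3 : 0 < ε / 3 := by positivity
  have d : ∀ {F : W → V}, ContDiffOn ℝ 1 F {0}ᶜ → ∀ q, q ≠ 0 → DifferentiableAt ℝ F q :=
    fun hF q hq =>
      (hF.contDiffAt (isOpen_compl_singleton.mem_nhds hq)).differentiableAt one_ne_zero
  filter_upwards [tendstoUniformlyOn_iff.1 (h0 2).1 _ hε3, tendstoUniformlyOn_iff.1 (h0 2).2 _ hε3,
    tendstoUniformlyOn_iff.1 (h1 2).1 _ hε3, tendstoUniformlyOn_iff.1 (h1 2).2 _ hε3]
    with n a1 a2 b1 b2 q hq
  have hq0 : q ≠ 0 := fun e => by simp [e] at hq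
  have hd : ∀ q, q ≠ 0 → DifferentiableAt ℝ (U n - U') q := fun q hq =>
    (d (hU n).1 q hq).sub (d hU' q hq)
  have hh : ∀ (c : ℂ) q, (U n - U') (c • q) = c • (U n - U') q := fun c q => by
    simp only [Pi.sub_apply, (hU n).2, hh', smul_sub]
  have key : ∀ (e f : W) (z c : ℂ), ‖c‖ = 1 → q = c • (e + z • f) →
      dist (U' (e + z • f)) (U n (e + z • f)) < ε / 3 →
      dist (fderiv ℝ (fun w : ℂ => U' (e + w • f)) z)
        (fderiv ℝ (fun w : ℂ => U n (e + w • f)) z) < ε / 3 →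
      (∀ h : W, ∃ a k : ℂ, ‖a‖ ≤ ‖h‖ ∧ ‖k‖ ≤ 2 * ‖h‖ ∧ h = a • (e + z • f) + k • f) →
      ‖U n q - U' q‖ ≤ ε ∧ ‖fderiv ℝ (U n) q - fderiv ℝ U' q‖ ≤ ε := by
    intro e f z c hc e1 h2 h3 h4
    have hp : e + z • f ≠ 0 := fun e2 => hq0 (by rw [e1, e2, smul_zero])
    have hf : DifferentiableAt ℝ (fun w : ℂ => e + w • f) z := by fun_prop
    rw [dist_comm, dist_eq_norm] at h2 h3
    rw [← fderiv_fun_sub (DifferentiableAt.fun_comp' z (d (hU n).1 _ hp) hf)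
      (DifferentiableAt.fun_comp' z (d hU' _ hp) hf)] at h3
    have h5 := chart_KGlueB hd hh hp hc h2.le h3.le h4
    rw [← e1, fderiv_sub (d (hU n).1 q hq0) (d hU' q hq0), mul_div_cancel₀ _ three_ne_zero] at h5
    exact h5
  have nb : ∀ x y z : ℂ, ∀ t : ℝ, ‖x‖ ≤ t → ‖y‖ ≤ t → ‖z‖ ≤ 1 → ‖y - x * z‖ ≤ 2 * t := by
    intro x y z t hx hy hz
    have h2 := norm_sub_le y (x * z)
    rw [norm_mul] at h2
    nlinarith [norm_nonneg x, norm_nonneg z]
  rw [Prod.norm_def] at hq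
  rcases max_eq_iff.1 hq with ⟨h2, h3⟩ | ⟨h2, h3⟩
  · have hc0 : q.1 ≠ 0 := fun e => by simp [e] at h2
    have hz : ‖q.2 / q.1‖ ≤ 1 := by rw [norm_div, h2, div_one]; linarith
    have hz' : q.2 / q.1 ∈ ball (0 : ℂ) 2 := mem_ball_zero_iff.2 (by linarith)
    have e : ∀ w : ℂ, ((1, 0) : W) + w • ((0, 1) : W) = (1, w) := fun w => by simp
    refine key (1, 0) (0, 1) (q.2 / q.1) q.1 h2 ?_ ?_ ?_ fun h => ?_
    · rw [e]
      ext <;> simp [mul_div_cancel₀ _ hc0]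
    · rw [e]
      exact a1 _ hz'
    · simp only [e]
      exact a2 _ hz'
    · refine ⟨h.1, h.2 - h.1 * (q.2 / q.1), norm_fst_le h,
        nb _ _ _ _ (norm_fst_le h) (norm_snd_le h) hz, ?_⟩
      ext <;> simp
  · have hc0 : q.2 ≠ 0 := fun e => by simp [e] at h2
    have hz : ‖q.1 / q.2‖ ≤ 1 := by rw [norm_div, h2, div_one]; linarith
    have hz' : q.1 / q.2 ∈ ball (0 : ℂ) 2 := mem_ball_zero_iff.2 (by linarith)
    have e : ∀ w : ℂ, ((0, 1) : W) + w • ((1, 0) : W) = (w, 1) := fun w => by simp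
    refine key (0, 1) (1, 0) (q.1 / q.2) q.2 h2 ?_ ?_ ?_ fun h => ?_
    · rw [e]
      ext <;> simp [mul_div_cancel₀ _ hc0]
    · rw [e]
      exact b1 _ hz'
    · simp only [e]
      exact b2 _ hz'
    · refine ⟨h.2, h.1 - h.2 * (q.1 / q.2), norm_snd_le h,
        nb _ _ _ _ (norm_snd_le h) (norm_fst_le h) hz, ?_⟩
      ext <;> simp

end Pool.Agent.MP_2fc7fa_gt.N

end

section

/-! Compactness of the space of lines modulo reparametrisation (PROOF.md, B6). -/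

namespace Pool.Agent.MP_2fc7fa_gt.N

theorem compact (h1 : T1Stmt) (h2 : T2Stmt) (_h4 : T4Stmt) (_hG : GreenStmt) (hR : RegStmt)
    (_hS : LineSmoothStmt) (hE : EstStmt) (hL : EnLineStmt) (hP : EnPlaneStmt) : CompactStmt := by
  have hD := kDens kForm
  have hLi := kLine kTransf
  have hA := kAlpha hR (kTame kForm) kCurv kDbar
  have hLim := kLimit hE kAA kHarnack
  have hB := kBubble (kRegauge hA kTransf hD (kGauge h1 h2)) hLim hD kQuant hP
  have hI := kInv hL hLi hD kCoV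
  exact kMain hL hLi hD hB (kNorm hL hLi kTransf hD) hI (kOuter hB hLi kTransf hD kCoV hI) hA
    (kAMP h1 h2) hLim kGlueA kGlueB

end Pool.Agent.MP_2fc7fa_gt.N

end
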