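import Pool.Agent.MP_2fc7fa_gt.Defs
import Pool.Agent.MP_2fc7fa_gt.Sm

section

/-! Forms as (bi)linear maps, the action of `ℂˣ × SU(2)` and its infinitesimal generators. -/

open Set Filter Topology
open scoped ContDiff ComplexConjugate Matrix

namespace Pool.Agent.MP_2fc7fa_gt

/-- A one-form at a point as a linear map. -/
noncomputable def linL : (V [⋀^Fin 1]→L[ℝ] ℝ) →L[ℝ] V →L[ℝ] ℝ :=
  (ContinuousAlternatingMap.ofSubsingletonLIE (𝕜 := ℝ) (E := V) (F := ℝ)
    (0 : Fin 1)).symm.toContinuousLinearEquiv.toContinuousLinearMap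

/-- A two-form at a point as a bilinear map. -/
noncomputable def bilL : (V [⋀^Fin 2]→L[ℝ] ℝ) →L[ℝ] V →L[ℝ] V →L[ℝ] ℝ :=
  (ContinuousLinearMap.compL ℝ V _ _ linL) ∘L
    (ContinuousAlternatingMap.curryLeftLI (n := 1)).toContinuousLinearMap

lemma linL_apply (φ : V [⋀^Fin 1]→L[ℝ] ℝ) (u : V) : linL φ u = φ ![u] := by
  change φ (fun _ => u) = _
  congr 1
  ext1 i
  fin_cases i
  rfl

lemma bilL_apply (φ : V [⋀^Fin 2]→L[ℝ] ℝ) (u v : V) : bilL φ u v = φ ![u, v] := by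
  change linL (φ.curryLeft u) v = _
  rw [linL_apply]
  rfl

lemma eq_linL (φ : V [⋀^Fin 1]→L[ℝ] ℝ) (v : Fin 1 → V) : φ v = linL φ (v 0) := by
  rw [linL_apply]
  congr 1
  ext1 i
  fin_cases i
  rfl

lemma eq_bilL (φ : V [⋀^Fin 2]→L[ℝ] ℝ) (v : Fin 2 → V) : φ v = bilL φ (v 0) (v 1) := by
  rw [bilL_apply]
  congr 1
  ext1 i
  fin_cases i <;> rfl

lemma bilL_self (φ : V [⋀^Fin 2]→L[ℝ] ℝ) (u : V) : bilL φ u u = 0 := by
  rw [bilL_apply]
  exact φ.map_eq_zero_of_eq _ (i := 0) (j := 1) rfl (by decide)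

lemma bilL_skew (φ : V [⋀^Fin 2]→L[ℝ] ℝ) (u v : V) : bilL φ u v = -bilL φ v u := by
  have h := bilL_self φ (u + v)
  simp only [map_add, add_apply, bilL_self] at h
  linarith

lemma bilL_extDeriv (β : Form 1) (z u v : V) :
    bilL (extDeriv β z) u v = linL (fderiv ℝ β z u) v - linL (fderiv ℝ β z v) u := by
  rw [bilL_apply, extDeriv, ContinuousAlternatingMap.alternatizeUncurryFin_apply]
  simp [Fin.sum_univ_two, eq_linL, Fin.removeNth, sub_eq_add_neg]

lemma closed_apply {σ : Form 2} {z : V} (h : extDeriv σ z = 0) (u v w : V) :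
    bilL (fderiv ℝ σ z u) v w - bilL (fderiv ℝ σ z v) u w + bilL (fderiv ℝ σ z w) u v = 0 := by
  have h1 : extDeriv σ z ![u, v, w] = 0 := by rw [h]; rfl
  rw [extDeriv, ContinuousAlternatingMap.alternatizeUncurryFin_apply] at h1
  simpa [Fin.sum_univ_three, eq_bilL, Fin.removeNth, sub_eq_add_neg, Fin.succAbove] using h1

lemma clm_hasDerivAt {E F : Type} [NormedAddCommGroup E] [NormedSpace ℝ E] [NormedAddCommGroup F]
    [NormedSpace ℝ F] (L : E →L[ℝ] F) {f : ℝ → E} {f' : E} {t : ℝ} (h : HasDerivAt f f' t) :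
    HasDerivAt (fun t => L (f t)) (L f') t := L.hasFDerivAt.comp_hasDerivAt t h

lemma hasDerivAt_lin {β : Form 1} {z u : ℝ → V} {z' u' : V} {t : ℝ}
    (h : DifferentiableAt ℝ β (z t)) (hz : HasDerivAt z z' t) (hu : HasDerivAt u u' t) :
    HasDerivAt (fun t => linL (β (z t)) (u t))
      (linL (fderiv ℝ β (z t) z') (u t) + linL (β (z t)) u') t :=
  (linL.hasFDerivAt.comp_hasDerivAt t (h.hasFDerivAt.comp_hasDerivAt t hz)).clm_apply hu

lemma hasDerivAt_bil {σ : Form 2} {z u v : ℝ → V} {z' u' v' : V} {t : ℝ}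
    (h : DifferentiableAt ℝ σ (z t)) (hz : HasDerivAt z z' t) (hu : HasDerivAt u u' t)
    (hv : HasDerivAt v v' t) :
    HasDerivAt (fun t => bilL (σ (z t)) (u t) (v t))
      (bilL (fderiv ℝ σ (z t) z') (u t) (v t) + bilL (σ (z t)) u' (v t) +
        bilL (σ (z t)) (u t) v') t := by
  have h1 : HasDerivAt (fun t => bilL (σ (z t))) (bilL (fderiv ℝ σ (z t) z')) t :=
    clm_hasDerivAt (F := V →L[ℝ] V →L[ℝ] ℝ) bilL (h.hasFDerivAt.comp_hasDerivAt t hz)
  have h2 : HasDerivAt (fun t => bilL (σ (z t)) (u t))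
      (bilL (fderiv ℝ σ (z t) z') (u t) + bilL (σ (z t)) u') t := h1.clm_apply hu
  simpa only [add_apply] using h2.clm_apply hv

/-- The map `z ↦ (d z₀, a z₁ - conj b z₂, b z₁ + conj a' z₂)`. -/
noncomputable def lm (d a a' b b' : ℂ) : V →L[ℝ] V :=
  LinearMap.toContinuousLinearMap
    { toFun := fun z => ![d * z 0, a * z 1 - b' * z 2, b * z 1 + a' * z 2]
      map_add' := fun x y => by ext i; fin_cases i <;> simp <;> ring
      map_smul' := fun c x => by ext i; fin_cases i <;> simp <;> ring }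

lemma lm_apply (d a a' b b' : ℂ) (z : V) :
    lm d a a' b b' z = ![d * z 0, a * z 1 - b' * z 2, b * z 1 + a' * z 2] := rfl

/-- The action of `ℂˣ × SU(2)`. -/
noncomputable def act (c a b : ℂ) : V →L[ℝ] V := lm c (c * a) (c * conj a) (c * b) (c * conj b)

/-- Infinitesimal generators of `SU(2)`. -/
noncomputable def mat (a b : ℂ) : V →L[ℝ] V := lm 0 a (conj a) b (conj b)

/-- Invariance under `ℂˣ × SU(2)`. -/
def Inv {k : ℕ} (α : Form k) : Prop :=
  ∀ c a b : ℂ, c ≠ 0 → ‖a‖ ^ 2 + ‖b‖ ^ 2 = 1 → ∀ z,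
    (α (act c a b z)).compContinuousLinearMap (act c a b) = α z

lemma act_eq (c a b : ℂ) (z : V) :
    act c a b z = c • (!![1, 0, 0; 0, a, -conj b; 0, b, conj a] *ᵥ z) := by
  ext i
  fin_cases i <;> simp [act, lm_apply, dotProduct, Fin.sum_univ_three] <;> ring

lemma act_one (c : ℂ) (z : V) : act c 1 0 z = c • z := by
  ext i
  fin_cases i <;> simp [act, lm_apply]

lemma inv_iff {σ : Form 2} : Inv σ ↔
    (∀ c : ℂ, c ≠ 0 → ∀ z v, σ (c • z) (c • v) = σ z v) ∧ Invariant SU2 σ := by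
  constructor
  · refine fun h => ⟨fun c hc z v => ?_, ?_⟩
    · rw [← h c 1 0 hc (by simp) z]
      simp only [ContinuousAlternatingMap.compContinuousLinearMap_apply, Function.comp_def, act_one]
      rfl
    · rintro g ⟨a, b, hab, rfl⟩ z v
      rw [← h 1 a b one_ne_zero hab z]
      simp only [ContinuousAlternatingMap.compContinuousLinearMap_apply, Function.comp_def, act_eq,
        one_smul]
  · rintro ⟨h1, h2⟩ c a b hc hab z
    ext v
    rw [← h2 _ ⟨a, b, hab, rfl⟩ z v, ← h1 c hc]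
    simp only [ContinuousAlternatingMap.compContinuousLinearMap_apply, Function.comp_def, act_eq]
    rfl

lemma Inv.lin {β : Form 1} (h : Inv β) {c a b : ℂ} (hc : c ≠ 0) (hab : ‖a‖ ^ 2 + ‖b‖ ^ 2 = 1)
    (z u : V) : linL (β (act c a b z)) (act c a b u) = linL (β z) u := by
  rw [← h c a b hc hab z, linL_apply, linL_apply]
  simp only [ContinuousAlternatingMap.compContinuousLinearMap_apply]
  congr 1
  ext1 i
  fin_cases i
  rfl

lemma Inv.bil {σ : Form 2} (h : Inv σ) {c a b : ℂ} (hc : c ≠ 0) (hab : ‖a‖ ^ 2 + ‖b‖ ^ 2 = 1)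
    (z u v : V) : bilL (σ (act c a b z)) (act c a b u) (act c a b v) = bilL (σ z) u v := by
  rw [← h c a b hc hab z, bilL_apply, bilL_apply]
  simp only [ContinuousAlternatingMap.compContinuousLinearMap_apply]
  congr 1
  ext1 i
  fin_cases i <;> rfl

lemma act_ne {c a b : ℂ} (hc : c ≠ 0) (hab : ‖a‖ ^ 2 + ‖b‖ ^ 2 = 1) {z : V} (hz : z ≠ 0) :
    act c a b z ≠ 0 := by
  intro h
  have h0 := congrFun h 0
  have h1 := congrFun h 1
  have h2 := congrFun h 2
  have h3 : a * conj a + b * conj b = 1 := by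
    rw [Complex.mul_conj', Complex.mul_conj']
    exact_mod_cast hab
  change c * z 0 = 0 at h0
  change c * a * z 1 - c * conj b * z 2 = 0 at h1
  change c * b * z 1 + c * conj a * z 2 = 0 at h2
  refine hz (funext fun i => mul_left_cancel₀ hc ?_)
  fin_cases i
  · simpa using h0
  · change c * z 1 = c * 0
    linear_combination conj a * h1 + conj b * h2 - c * z 1 * h3
  · change c * z 2 = c * 0
    linear_combination a * h2 - b * h1 - c * z 2 * h3

lemma Inv.extDeriv {k : ℕ} {β : Form k} (h : Inv β) (hd : ∀ z, z ≠ 0 → DifferentiableAt ℝ β z)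
    {c a b : ℂ} (hc : c ≠ 0) (hab : ‖a‖ ^ 2 + ‖b‖ ^ 2 = 1) {z : V} (hz : z ≠ 0) :
    (extDeriv β (act c a b z)).compContinuousLinearMap (act c a b) = extDeriv β z := by
  have h1 := extDeriv_pullback (r := 2) (x := z) (f := act c a b) (hd _ (act_ne hc hab hz))
    (act c a b).contDiff.contDiffAt (by simp)
  simp only [ContinuousLinearMap.fderiv, h c a b hc hab] at h1
  exact h1.symm

/-- One-parameter subgroups of `SU(2)`. -/
lemma curve_su {a b : ℂ} (ha : a.re = 0) (hab : ‖a‖ ^ 2 + ‖b‖ ^ 2 = 1) :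
    ∃ p q : ℝ → ℂ, (∀ t, ‖p t‖ ^ 2 + ‖q t‖ ^ 2 = 1) ∧ (∀ z, act 1 (p 0) (q 0) z = z) ∧
      ∀ z, HasDerivAt (fun t => act 1 (p t) (q t) z) (mat a b z) 0 := by
  refine ⟨fun t => Real.cos t + Real.sin t * a, fun t => Real.sin t * b, fun t => ?_, fun z => ?_,
    fun z => ?_⟩
  · rw [Complex.sq_norm, Complex.sq_norm, Complex.normSq_apply, Complex.normSq_apply] at *
    simp only [Complex.add_re, Complex.ofReal_re, Complex.re_ofReal_mul, ha, Complex.add_im,
      Complex.ofReal_im, Complex.im_ofReal_mul] at *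
    have := Real.sin_sq_add_cos_sq t
    linear_combination Real.sin t ^ 2 * hab + this
  · simp [act_one]
  · have h1 : (fun t : ℝ => act 1 (Real.cos t + Real.sin t * a) (Real.sin t * b) z) =
        fun t => lm 1 0 0 0 0 z + Real.cos t • lm 0 1 1 0 0 z + Real.sin t • mat a b z := by
      ext t i
      fin_cases i <;> simp [act, mat, lm_apply, -Complex.ofReal_cos, -Complex.ofReal_sin] <;> ring
    rw [h1]
    simpa using (((Real.hasDerivAt_cos 0).smul_const (lm 0 1 1 0 0 z)).const_add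
      (lm 1 0 0 0 0 z)).fun_add ((Real.hasDerivAt_sin 0).smul_const (mat a b z))

lemma Inv.inf_lin {β : Form 1} (h : Inv β) {z : V} (hd : DifferentiableAt ℝ β z) {a b : ℂ}
    (ha : a.re = 0) (hab : ‖a‖ ^ 2 + ‖b‖ ^ 2 = 1) (u : V) :
    linL (fderiv ℝ β z (mat a b z)) u + linL (β z) (mat a b u) = 0 := by
  obtain ⟨p, q, h1, h2, h3⟩ := curve_su ha hab
  have h4 := hasDerivAt_lin (β := β) (by rwa [h2]) (h3 z) (h3 u)
  simp only [h.lin one_ne_zero (h1 _), h2] at h4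
  exact h4.unique (hasDerivAt_const _ _)

lemma Inv.inf_bil {σ : Form 2} (h : Inv σ) {z : V} (hd : DifferentiableAt ℝ σ z) {a b : ℂ}
    (ha : a.re = 0) (hab : ‖a‖ ^ 2 + ‖b‖ ^ 2 = 1) (u v : V) :
    bilL (fderiv ℝ σ z (mat a b z)) u v + bilL (σ z) (mat a b u) v + bilL (σ z) u (mat a b v) = 0 := by
  obtain ⟨p, q, h1, h2, h3⟩ := curve_su ha hab
  have h4 := hasDerivAt_bil (σ := σ) (by rwa [h2]) (h3 z) (h3 u) (h3 v)
  simp only [h.bil one_ne_zero (h1 _), h2] at h4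
  exact h4.unique (hasDerivAt_const _ _)

lemma Inv.inf_scale {β : Form 1} (h : Inv β) {z : V} (hd : DifferentiableAt ℝ β z) (c : ℂ) (u : V) :
    linL (fderiv ℝ β z (c • z)) u + linL (β z) (c • u) = 0 := by
  have h3 : ∀ z : V, HasDerivAt (fun t : ℝ => Complex.exp (t * c) • z) (c • z) 0 := fun z => by
    simpa using ((Complex.ofRealCLM.hasDerivAt (x := 0)).mul_const c).cexp.smul_const z
  have h4 := hasDerivAt_lin (β := β) (by simpa using hd) (h3 z) (h3 u)
  have h5 : ∀ t : ℝ, linL (β (Complex.exp (t * c) • z)) (Complex.exp (t * c) • u) = linL (β z) u :=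
    fun t => by simpa only [act_one] using h.lin (a := 1) (b := 0) (Complex.exp_ne_zero _) (by simp) z u
  simp only [h5] at h4
  simpa using h4.unique (hasDerivAt_const _ _)

end Pool.Agent.MP_2fc7fa_gt

end

section

/-! Invariant closed two-forms are determined by a curve in `ℝ³`. -/

open Set Filter Topology Complex
open scoped ContDiff ComplexConjugate Matrix InnerProductSpace

namespace Pool.Agent.MP_2fc7fa_gt

/-- Closed invariant horizontal two-forms. -/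
structure Good (σ : Form 2) : Prop where
  diff : ∀ z, z ≠ 0 → DifferentiableAt ℝ σ z
  closed : ∀ z, z ≠ 0 → extDeriv σ z = 0
  inv : Inv σ
  horiz : ∀ z (c : ℂ) u, bilL (σ z) (c • z) u = 0

lemma Good.moment {σ : Form 2} (h : Good σ) {z : ℝ → V} {z' : V} {t : ℝ} (h0 : z t ≠ 0)
    (hz : HasDerivAt z z' t) {a b a' b' : ℂ} (ha : a.re = 0) (hab : ‖a‖ ^ 2 + ‖b‖ ^ 2 = 1)
    (ha' : a'.re = 0) (hab' : ‖a'‖ ^ 2 + ‖b'‖ ^ 2 = 1) :
    HasDerivAt (fun t => bilL (σ (z t)) (mat a b (z t)) (mat a' b' (z t)))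
      (bilL (σ (z t)) (mat a b (mat a' b' (z t)) - mat a' b' (mat a b (z t))) z') t := by
  have hd := h.diff _ h0
  convert hasDerivAt_bil hd hz (clm_hasDerivAt (mat a b) hz) (clm_hasDerivAt (mat a' b') hz) using 1
  have h1 := closed_apply (h.closed _ h0) z' (mat a b (z t)) (mat a' b' (z t))
  have h2 := h.inv.inf_bil hd ha hab z' (mat a' b' (z t))
  have h3 := h.inv.inf_bil hd ha' hab' z' (mat a b (z t))
  rw [map_sub, sub_apply, bilL_skew _ _ z', bilL_skew _ (mat a' b' (mat a b (z t))),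
    bilL_skew _ (mat a b (z t)) (mat a' b' z')]
  linarith

/-- Euclidean three-space. -/
abbrev E3 : Type := EuclideanSpace ℝ (Fin 3)

/-- Points of a slice. -/
def pt (x y : ℝ) : V := ![x, y, 0]

/-- The slice, parametrised by `s ∈ [0, 1]`. -/
noncomputable def sl (s : ℝ) : V := pt √(1 - s) √s

/-- A frame of the horizontal space along the slice. -/
noncomputable def fr (s : ℝ) : Fin 4 → V :=
  ![![-√s, √(1 - s), 0], ![-√s * I, √(1 - s) * I, 0], ![0, 0, 1], ![0, 0, I]]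

/-- Three components of a two-form. -/
noncomputable def kk (φ : V [⋀^Fin 2]→L[ℝ] ℝ) : E3 :=
  !₂[bilL φ ![0, 0, I] ![0, I, 0], bilL φ ![0, I, 0] ![0, 0, 1], bilL φ ![0, 0, 1] ![0, 0, I]]

/-- The curve of a two-form. -/
noncomputable def hh (σ : Form 2) (s : ℝ) : E3 := kk (σ (sl s))

/-- The components along the slice. -/
noncomputable def cp (σ : Form 2) (s : ℝ) (i j : Fin 4) : ℝ := bilL (σ (sl s)) (fr s i) (fr s j)

lemma sq_sl {s : ℝ} (hs : s ∈ Icc (0 : ℝ) 1) : √(1 - s) ^ 2 + √s ^ 2 = 1 := by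
  rw [Real.sq_sqrt hs.1, Real.sq_sqrt (sub_nonneg.2 hs.2)]
  ring

lemma pt_ne {x y : ℝ} (h : x ≠ 0 ∨ y ≠ 0) : pt x y ≠ 0 := fun e =>
  h.elim (fun h => h (by simpa [pt] using congrFun e 0)) fun h => h (by simpa [pt] using congrFun e 1)

lemma sl_ne {s : ℝ} (hs : s ∈ Icc (0 : ℝ) 1) : sl s ≠ 0 := by
  refine pt_ne (not_and_or.1 fun h => ?_)
  have := sq_sl hs
  simp [h.1, h.2] at this

lemma continuous_sl : Continuous sl := by
  refine continuous_pi fun i => ?_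
  fin_cases i <;> simp [sl, pt] <;> fun_prop

lemma continuous_fr (i : Fin 4) : Continuous fun s => fr s i := by
  refine continuous_pi fun j => ?_
  fin_cases i <;> fin_cases j <;> simp [fr] <;> fun_prop

lemma Good.contOn {σ : Form 2} (h : Good σ) {u v : ℝ → V} (hu : Continuous u) (hv : Continuous v) :
    ContinuousOn (fun s => bilL (σ (sl s)) (u s) (v s)) (Icc 0 1) := by
  have h1 : ContinuousOn (fun s => σ (sl s)) (Icc 0 1) := fun s hs =>
    ((h.diff _ (sl_ne hs)).continuousAt.comp continuous_sl.continuousAt).continuousWithinAt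
  exact ((bilL.continuous.comp_continuousOn h1).clm_apply hu.continuousOn).clm_apply hv.continuousOn

/-- Coordinates with respect to the frame. -/
noncomputable def co (s : ℝ) (u : V) : Fin 4 → ℝ :=
  ![-√s * (u 0).re + √(1 - s) * (u 1).re, -√s * (u 0).im + √(1 - s) * (u 1).im, (u 2).re, (u 2).im]

lemma frame_eq {s : ℝ} (hs : s ∈ Icc (0 : ℝ) 1) (u : V) :
    u = (√(1 - s) * u 0 + √s * u 1 : ℂ) • sl s + (co s u 0 • fr s 0 + co s u 1 • fr s 1 +
      co s u 2 • fr s 2 + co s u 3 • fr s 3) := by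
  have h2 := sq_sl hs
  ext i
  fin_cases i <;> apply Complex.ext <;> simp [sl, pt, fr, co]
  · linear_combination -(u 0).re * h2
  · linear_combination -(u 0).im * h2
  · linear_combination -(u 1).re * h2
  · linear_combination -(u 1).im * h2

lemma Good.frame {σ : Form 2} (h : Good σ) {s : ℝ} (hs : s ∈ Icc (0 : ℝ) 1) (u v : V) :
    bilL (σ (sl s)) u v = (co s u 0 * co s v 1 - co s u 1 * co s v 0) * cp σ s 0 1 +
      (co s u 0 * co s v 2 - co s u 2 * co s v 0) * cp σ s 0 2 +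
      (co s u 0 * co s v 3 - co s u 3 * co s v 0) * cp σ s 0 3 +
      (co s u 1 * co s v 2 - co s u 2 * co s v 1) * cp σ s 1 2 +
      (co s u 1 * co s v 3 - co s u 3 * co s v 1) * cp σ s 1 3 +
      (co s u 2 * co s v 3 - co s u 3 * co s v 2) * cp σ s 2 3 := by
  have h1 : ∀ (c : ℂ) u, bilL (σ (sl s)) u (c • sl s) = 0 := fun c u => by
    rw [bilL_skew, h.horiz, neg_zero]
  conv_lhs => rw [frame_eq hs u, frame_eq hs v]
  simp only [map_add, map_smul, add_apply, smul_apply, smul_eq_mul, h.horiz, h1, bilL_self, cp,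
    bilL_skew _ (fr s 1) (fr s 0), bilL_skew _ (fr s 2) (fr s 0), bilL_skew _ (fr s 3) (fr s 0),
    bilL_skew _ (fr s 2) (fr s 1), bilL_skew _ (fr s 3) (fr s 1), bilL_skew _ (fr s 3) (fr s 2)]
  ring

lemma ie1 {s : ℝ} (hs : s ∈ Icc (0 : ℝ) 1) :
    (![0, I, 0] : V) = ((√s : ℝ) * I : ℂ) • sl s + √(1 - s) • fr s 1 := by
  have h2 : ((√(1 - s) : ℝ) : ℂ) ^ 2 + (√s : ℝ) ^ 2 = 1 := by exact_mod_cast sq_sl hs
  ext i
  fin_cases i <;> simp [sl, pt, fr]
  · ring
  · linear_combination -I * h2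

lemma Good.hh_eq {σ : Form 2} (h : Good σ) {s : ℝ} (hs : s ∈ Icc (0 : ℝ) 1) :
    hh σ s = !₂[-√(1 - s) * cp σ s 1 3, √(1 - s) * cp σ s 1 2, cp σ s 2 3] := by
  rw [hh, kk, bilL_skew _ _ ![0, I, 0], ie1 hs]
  simp only [map_add, map_smul, add_apply, smul_apply, h.horiz, zero_add, smul_eq_mul, neg_mul]
  rfl

lemma hasDerivAt_sl {s : ℝ} (hs : s ∈ Ioo (0 : ℝ) 1) :
    HasDerivAt sl ((1 / (2 * √(1 - s) * √s)) • fr s 0) s := by
  have h1 : sl = fun s => √(1 - s) • (![1, 0, 0] : V) + √s • ![0, 1, 0] := by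
    ext s i
    fin_cases i <;> simp [sl, pt]
  have hx : √(1 - s) ≠ 0 := (Real.sqrt_pos.2 (sub_pos.2 hs.2)).ne'
  have hy : √s ≠ 0 := (Real.sqrt_pos.2 hs.1).ne'
  have hx' : ((√(1 - s) : ℝ) : ℂ) ≠ 0 := by exact_mod_cast hx
  have hy' : ((√s : ℝ) : ℂ) ≠ 0 := by exact_mod_cast hy
  rw [h1]
  refine (((((hasDerivAt_id' s).const_sub 1).sqrt (sub_pos.2 hs.2).ne').smul_const (![1, 0, 0] : V)
    ).fun_add ((Real.hasDerivAt_sqrt hs.1.ne').smul_const (![0, 1, 0] : V))).congr_deriv ?_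
  ext i
  fin_cases i <;> simp [fr] <;> field_simp

lemma mat_sl1 (s : ℝ) : mat 0 1 (sl s) = √s • fr s 2 := by
  ext i
  fin_cases i <;> simp [mat, lm_apply, sl, pt, fr]

lemma mat_sl2 (s : ℝ) : mat 0 I (sl s) = √s • fr s 3 := by
  ext i
  fin_cases i <;> simp [mat, lm_apply, sl, pt, fr, mul_comm]

lemma mat_sl3 (s : ℝ) : mat I 0 (sl s) = √s • ![0, I, 0] := by
  ext i
  fin_cases i <;> simp [mat, lm_apply, sl, pt, mul_comm]

lemma comm12 (z : V) : mat 0 1 (mat 0 I z) - mat 0 I (mat 0 1 z) = (-2 : ℝ) • mat I 0 z := by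
  ext i
  fin_cases i <;> simp [mat, lm_apply] <;> ring

lemma comm23 (z : V) : mat 0 I (mat I 0 z) - mat I 0 (mat 0 I z) = (-2 : ℝ) • mat 0 1 z := by
  ext i
  fin_cases i <;> simp [mat, lm_apply, ← mul_assoc] <;> ring

lemma comm31 (z : V) : mat I 0 (mat 0 1 z) - mat 0 1 (mat I 0 z) = (-2 : ℝ) • mat 0 I z := by
  ext i
  fin_cases i <;> simp [mat, lm_apply] <;> ring

lemma mul_hh (σ : Form 2) {s : ℝ} (hs : 0 ≤ s) (i : Fin 3) : s * hh σ s i =
    ![bilL (σ (sl s)) (mat 0 I (sl s)) (mat I 0 (sl s)),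
      bilL (σ (sl s)) (mat I 0 (sl s)) (mat 0 1 (sl s)),
      bilL (σ (sl s)) (mat 0 1 (sl s)) (mat 0 I (sl s))] i := by
  simp only [mat_sl1, mat_sl2, mat_sl3, map_smul, smul_apply, smul_eq_mul, ← mul_assoc,
    Real.mul_self_sqrt hs]
  fin_cases i <;> rfl

lemma Good.hasDerivAt {σ : Form 2} (h : Good σ) {s : ℝ} (hs : s ∈ Ioo (0 : ℝ) 1) (i : Fin 3) :
    HasDerivAt (fun s => s * hh σ s i)
      (![cp σ s 0 2 / √(1 - s), cp σ s 0 3 / √(1 - s), cp σ s 0 1] i) s := by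
  have hs' := Ioo_subset_Icc_self hs
  have hx : √(1 - s) ≠ 0 := (Real.sqrt_pos.2 (sub_pos.2 hs.2)).ne'
  have hy : √s ≠ 0 := (Real.sqrt_pos.2 hs.1).ne'
  refine HasDerivAt.congr_of_eventuallyEq ?_
    (mem_of_superset (Ici_mem_nhds hs.1) fun t ht => mul_hh σ ht i)
  fin_cases i
  · refine (h.moment (sl_ne hs') (hasDerivAt_sl hs) (a := 0) (b := I) (a' := I) (b' := 0) rfl
      (by simp) (by simp) (by simp)).congr_deriv ?_
    rw [comm23, mat_sl1, bilL_skew]
    simp only [map_smul, smul_apply, smul_eq_mul]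
    change _ = bilL (σ (sl s)) (fr s 0) (fr s 2) / √(1 - s)
    field_simp
  · refine (h.moment (sl_ne hs') (hasDerivAt_sl hs) (a := I) (b := 0) (a' := 0) (b' := 1)
      (by simp) (by simp) (by simp) (by simp)).congr_deriv ?_
    rw [comm31, mat_sl2, bilL_skew]
    simp only [map_smul, smul_apply, smul_eq_mul]
    change _ = bilL (σ (sl s)) (fr s 0) (fr s 3) / √(1 - s)
    field_simp
  · refine (h.moment (sl_ne hs') (hasDerivAt_sl hs) (a := 0) (b := 1) (a' := 0) (b' := I)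
      (by simp) (by simp) (by simp) (by simp)).congr_deriv ?_
    rw [comm12, mat_sl3, ie1 hs']
    simp only [map_add, map_smul, add_apply, smul_apply, smul_eq_mul, h.horiz, zero_add]
    rw [bilL_skew]
    change _ = bilL (σ (sl s)) (fr s 0) (fr s 1)
    field_simp

lemma exists_act (z : V) (hz : z ≠ 0) : ∃ (c a b : ℂ) (s : ℝ), c ≠ 0 ∧ ‖a‖ ^ 2 + ‖b‖ ^ 2 = 1 ∧
    s ∈ Icc (0 : ℝ) 1 ∧ z = act c a b (sl s) := by
  obtain ⟨e, he, h0⟩ := Complex.exists_norm_mul_eq_self (z 0)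
  have he0 : e ≠ 0 := norm_pos_iff.1 (he ▸ one_pos)
  obtain ⟨a, b, r, hab, hr, h1, h2⟩ : ∃ (a b : ℂ) (r : ℝ), ‖a‖ ^ 2 + ‖b‖ ^ 2 = 1 ∧ 0 ≤ r ∧
      z 1 = e * a * r ∧ z 2 = e * b * r := by
    by_cases h : ‖z 1‖ ^ 2 + ‖z 2‖ ^ 2 = 0
    · obtain ⟨h1, h2⟩ := (add_eq_zero_iff_of_nonneg (sq_nonneg _) (sq_nonneg _)).1 h
      exact ⟨1, 0, 0, by simp, le_rfl, by simpa using h1, by simpa using h2⟩
    · have h1 : 0 < ‖z 1‖ ^ 2 + ‖z 2‖ ^ 2 := lt_of_le_of_ne (by positivity) (Ne.symm h)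
      have h2 := Real.sqrt_pos.2 h1
      have h3 : ((√(‖z 1‖ ^ 2 + ‖z 2‖ ^ 2) : ℝ) : ℂ) ≠ 0 := by exact_mod_cast h2.ne'
      refine ⟨z 1 / (e * √(‖z 1‖ ^ 2 + ‖z 2‖ ^ 2)), z 2 / (e * √(‖z 1‖ ^ 2 + ‖z 2‖ ^ 2)), _, ?_,
        h2.le, by field_simp, by field_simp⟩
      simp only [norm_div, norm_mul, he, one_mul, Complex.norm_real, Real.norm_eq_abs, div_pow, sq_abs,
        Real.sq_sqrt h1.le]
      field_simp
  have hN : 0 < ‖z 0‖ ^ 2 + r ^ 2 := by
    refine lt_of_le_of_ne (by positivity) fun h => hz (funext fun i => ?_)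
    obtain ⟨h3, h4⟩ := (add_eq_zero_iff_of_nonneg (sq_nonneg _) (sq_nonneg _)).1 h.symm
    rw [sq_eq_zero_iff] at h4
    fin_cases i
    · simpa using h3
    · simp [h1, h4]
    · simp [h2, h4]
  have hρ := Real.sqrt_pos.2 hN
  have h3 : √(r ^ 2 / (‖z 0‖ ^ 2 + r ^ 2)) = r / √(‖z 0‖ ^ 2 + r ^ 2) := by
    rw [Real.sqrt_div (sq_nonneg r), Real.sqrt_sq hr]
  have h4 : √(1 - r ^ 2 / (‖z 0‖ ^ 2 + r ^ 2)) = ‖z 0‖ / √(‖z 0‖ ^ 2 + r ^ 2) := by
    rw [show 1 - r ^ 2 / (‖z 0‖ ^ 2 + r ^ 2) = ‖z 0‖ ^ 2 / (‖z 0‖ ^ 2 + r ^ 2) by field_simp; ring,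
      Real.sqrt_div (sq_nonneg _), Real.sqrt_sq (norm_nonneg _)]
  have h5 : ((√(‖z 0‖ ^ 2 + r ^ 2) : ℝ) : ℂ) ≠ 0 := by exact_mod_cast hρ.ne'
  refine ⟨e * √(‖z 0‖ ^ 2 + r ^ 2), a, b, r ^ 2 / (‖z 0‖ ^ 2 + r ^ 2), mul_ne_zero he0 h5, hab,
    ⟨by positivity, (div_le_one hN).2 (by nlinarith [sq_nonneg ‖z 0‖])⟩, ?_⟩
  rw [sl, h3, h4]
  ext i
  fin_cases i <;> simp [act, lm_apply, pt, h1, h2] <;> field_simp
  exact h0.symm

lemma act_surj {c a b : ℂ} (hc : c ≠ 0) (hab : ‖a‖ ^ 2 + ‖b‖ ^ 2 = 1) :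
    Function.Surjective (act c a b) :=
  (LinearMap.injective_iff_surjective (f := (act c a b : V →ₗ[ℝ] V))).1
    ((injective_iff_map_eq_zero _).2 fun _ hz => by_contra fun h => act_ne hc hab h hz)

lemma Good.unique {σ σ' : Form 2} (h : Good σ) (h' : Good σ') (e : EqOn (hh σ) (hh σ') (Ioo 0 1))
    {z : V} (hz : z ≠ 0) : σ z = σ' z := by
  obtain ⟨c, a, b, s, hc, hab, hs, rfl⟩ := exists_act z hz
  ext v
  obtain ⟨u, hu⟩ := act_surj hc hab (v 0)
  obtain ⟨w, hw⟩ := act_surj hc hab (v 1)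
  rw [eq_bilL, eq_bilL, ← hu, ← hw, h.inv.bil hc hab, h'.inv.bil hc hab]
  refine EqOn.of_subset_closure (s := Ioo 0 1) (fun s hs => ?_) (h.contOn continuous_const
    continuous_const) (h'.contOn continuous_const continuous_const) Ioo_subset_Icc_self
    (closure_Ioo zero_ne_one).ge hs
  have hs' := Ioo_subset_Icc_self hs
  have hx : √(1 - s) ≠ 0 := (Real.sqrt_pos.2 (sub_pos.2 hs.2)).ne'
  have h1 := fun i => (h.hasDerivAt hs i).unique ((h'.hasDerivAt hs i).congr_of_eventuallyEq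
    (mem_of_superset (Ioo_mem_nhds hs.1 hs.2) fun t ht => congrArg (fun x : E3 => t * x i) (e ht)))
  have h2 := e hs
  rw [h.hh_eq hs', h'.hh_eq hs'] at h2
  have h3 := fun i => congrArg (fun x : E3 => x i) h2
  have a1 : cp σ s 0 2 = cp σ' s 0 2 := by simpa [hx] using h1 0
  have a2 : cp σ s 0 3 = cp σ' s 0 3 := by simpa [hx] using h1 1
  have a3 : cp σ s 0 1 = cp σ' s 0 1 := by simpa [hx] using h1 2
  have a4 : cp σ s 1 3 = cp σ' s 1 3 := by simpa [hx] using h3 0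
  have a5 : cp σ s 1 2 = cp σ' s 1 2 := by simpa [hx] using h3 1
  have a6 : cp σ s 2 3 = cp σ' s 2 3 := by simpa [hx] using h3 2
  simp only [h.frame hs', h'.frame hs', a1, a2, a3, a4, a5, a6]

lemma Good.nondeg {σ : Form 2} (h : Good σ) {h' : ℝ → E3}
    (hd : ∀ s ∈ Icc (0 : ℝ) 1, HasDerivWithinAt (hh σ) (h' s) (Icc 0 1) s)
    (hc : ContinuousOn h' (Icc 0 1)) :
    (∀ z, z ≠ 0 → ∃ a b c d, σ z ![a, b] * σ z ![c, d] - σ z ![a, c] * σ z ![b, d] +
      σ z ![a, d] * σ z ![b, c] ≠ 0) ↔ ∀ s ∈ Icc (0 : ℝ) 1, ⟪hh σ s, hh σ s + s • h' s⟫_ℝ ≠ 0 := by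
  have hcont : ContinuousOn (hh σ) (Icc 0 1) := fun s hs => (hd s hs).continuousWithinAt
  have key : EqOn (fun s => ⟪hh σ s, hh σ s + s • h' s⟫_ℝ) (fun s =>
      cp σ s 0 1 * cp σ s 2 3 - cp σ s 0 2 * cp σ s 1 3 + cp σ s 0 3 * cp σ s 1 2) (Icc 0 1) := by
    have c1 : ∀ i j, ContinuousOn (fun s => cp σ s i j) (Icc 0 1) := fun i j =>
      h.contOn (continuous_fr i) (continuous_fr j)
    refine EqOn.of_subset_closure (s := Ioo 0 1) (fun s hs => ?_)
      (ContinuousOn.inner (𝕜 := ℝ) hcont (hcont.add (continuousOn_id.smul hc)))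
      ((((c1 _ _).mul (c1 _ _)).sub ((c1 _ _).mul (c1 _ _))).add ((c1 _ _).mul (c1 _ _)))
      Ioo_subset_Icc_self (closure_Ioo zero_ne_one).ge
    have hs' := Ioo_subset_Icc_self hs
    have hx : √(1 - s) ≠ 0 := (Real.sqrt_pos.2 (sub_pos.2 hs.2)).ne'
    have h1 := fun i => (h.hasDerivAt hs i).unique ((hasDerivAt_id' s).fun_mul (clm_hasDerivAt
      (EuclideanSpace.proj i : E3 →L[ℝ] ℝ) ((hd s hs').hasDerivAt (Icc_mem_nhds hs.1 hs.2))))
    have h2 : hh σ s + s • h' s =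
        !₂[cp σ s 0 2 / √(1 - s), cp σ s 0 3 / √(1 - s), cp σ s 0 1] := by
      ext i
      simpa using (h1 i).symm
    beta_reduce
    rw [h2, h.hh_eq hs']
    simp [PiLp.inner_apply, Fin.sum_univ_three]
    field_simp
    ring
  simp only [← bilL_apply]
  refine ⟨fun H s hs e => ?_, fun H z hz => ?_⟩
  · obtain ⟨a, b, c, d, h1⟩ := H _ (sl_ne hs)
    have h2 := (key hs).symm.trans e
    simp only [h.frame hs] at h1
    refine h1 ?_
    linear_combination ((co s a 0 * co s b 1 - co s a 1 * co s b 0) *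
      (co s c 2 * co s d 3 - co s c 3 * co s d 2) - (co s a 0 * co s b 2 - co s a 2 * co s b 0) *
      (co s c 1 * co s d 3 - co s c 3 * co s d 1) + (co s a 0 * co s b 3 - co s a 3 * co s b 0) *
      (co s c 1 * co s d 2 - co s c 2 * co s d 1) + (co s a 1 * co s b 2 - co s a 2 * co s b 1) *
      (co s c 0 * co s d 3 - co s c 3 * co s d 0) - (co s a 1 * co s b 3 - co s a 3 * co s b 1) *
      (co s c 0 * co s d 2 - co s c 2 * co s d 0) + (co s a 2 * co s b 3 - co s a 3 * co s b 2) *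
      (co s c 0 * co s d 1 - co s c 1 * co s d 0)) * h2
  · obtain ⟨c, a, b, s, hc, hab, hs, rfl⟩ := exists_act z hz
    refine ⟨act c a b (fr s 0), act c a b (fr s 1), act c a b (fr s 2), act c a b (fr s 3), ?_⟩
    simp only [h.inv.bil hc hab]
    exact fun e => H s hs ((key hs).trans e)

end Pool.Agent.MP_2fc7fa_gt

end

section

/-! The curve of a smooth family of invariant forms; differentials of invariant one-forms. -/

open Set Filter Topology Complex
open scoped ContDiff ComplexConjugate Matrix InnerProductSpace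

namespace Pool.Agent.MP_2fc7fa_gt

lemma contDiff_kk : ContDiff ℝ ∞ kk := by
  have h : ∀ u v : V, ContDiff ℝ ∞ fun φ => bilL φ u v := fun u v => by
    simp only [bilL_apply]
    exact (ContinuousAlternatingMap.apply ℝ V ℝ ![u, v]).contDiff
  refine contDiff_euclidean.2 fun i => ?_
  fin_cases i <;> exact h _ _

lemma Inv.kk_act {σ : Form 2} (h : Inv σ) {c a : ℝ} (hc : c ≠ 0) (ha : a ^ 2 = 1) (x y : ℝ) :
    kk (σ (pt x y)) = c ^ 2 • kk (σ (pt (c * x) (c * a * y))) := by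
  have h1 : act c a 0 (pt x y) = pt (c * x) (c * a * y) := by
    ext i
    fin_cases i <;> simp [act, lm_apply, pt]
  have h2 : ∀ p q : ℂ, act c a 0 ![0, p, q] = (c * a) • ![0, p, q] := fun p q => by
    ext i
    fin_cases i <;> simp [act, lm_apply]
  have h3 : ∀ p q p' q' : ℂ, bilL (σ (pt x y)) ![0, p, q] ![0, p', q'] =
      c ^ 2 * bilL (σ (pt (c * x) (c * a * y))) ![0, p, q] ![0, p', q'] := fun p q p' q' => by
    rw [← h.bil (c := c) (a := a) (b := 0) (by exact_mod_cast hc) (by simpa using ha), h1, h2, h2]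
    simp only [map_smul, smul_apply, smul_eq_mul]
    linear_combination c ^ 2 * bilL (σ (pt (c * x) (c * a * y))) ![0, p, q] ![0, p', q'] * ha
  ext i
  fin_cases i <;> exact h3 _ _ _ _

lemma contDiff_pt : ContDiff ℝ ∞ fun q : ℝ × ℝ => pt q.1 q.2 := by
  refine contDiff_pi.2 fun i => ?_
  fin_cases i
  · exact Complex.ofRealCLM.contDiff.comp contDiff_fst
  · exact Complex.ofRealCLM.contDiff.comp contDiff_snd
  · exact contDiff_const

variable {P : Type} [TopologicalSpace P]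

lemma sm_hh {σ : P → Form 2} (hs : Sm {0}ᶜ σ) (hi : ∀ p, Inv (σ p)) :
    Sm (Icc 0 1) fun p => hh (σ p) := by
  have k1 : Sm (Ici 0) fun p r => kk (σ p (pt 1 √r)) :=
    Sm.whitney (F := fun p t => kk (σ p (pt 1 t))) ((hs.comp (sm_of_contDiff
      (contDiff_pt.comp (contDiff_const.prodMk contDiff_id))) fun _ _ _ =>
        pt_ne (.inl one_ne_zero)).post' contDiff_kk) fun p t => by
      simpa using ((hi p).kk_act (c := 1) (a := -1) one_ne_zero (by simp) 1 t).symm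
  have k2 : Sm (Ici 0) fun p r => kk (σ p (pt √r 1)) :=
    Sm.whitney (F := fun p t => kk (σ p (pt t 1))) ((hs.comp (sm_of_contDiff
      (contDiff_pt.comp (contDiff_id.prodMk contDiff_const))) fun _ _ _ =>
        pt_ne (.inr one_ne_zero)).post' contDiff_kk) fun p t => by
      simpa using ((hi p).kk_act (c := -1) (a := -1) (by simp) (by simp) t 1).symm
  refine sm_union (uniqueDiffOn_Icc one_pos) (isOpen_Iio (a := 1)) (isOpen_Ioi (a := 0))
    (fun s _ => by by_cases h : s < 1 <;> simp [h]; linarith) ?_ ?_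
  · have h1 : ContDiffOn ℝ ∞ (fun s : ℝ => (1 - s)⁻¹) (Iio 1) :=
      (contDiffOn_const.sub contDiffOn_id).inv fun s hs => (sub_pos.2 hs).ne'
    refine (((sm_of_contDiffOn isOpen_Iio.uniqueDiffOn h1).mono inter_subset_right).smul
      (k1.comp ((sm_of_contDiffOn isOpen_Iio.uniqueDiffOn (contDiffOn_id.mul h1)).mono
        inter_subset_right) fun _ s hs => mul_nonneg hs.1.1 (inv_pos.2 (sub_pos.2 hs.2)).le)).congr
      fun p s hs => ?_
    have hx : √(1 - s) ≠ 0 := (Real.sqrt_pos.2 (sub_pos.2 hs.2)).ne'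
    rw [hh, sl, (hi p).kk_act (c := (√(1 - s))⁻¹) (a := 1) (inv_ne_zero hx) (by simp), inv_pow,
      Real.sq_sqrt (sub_pos.2 hs.2).le, inv_mul_cancel₀ hx, id, Real.sqrt_mul hs.1.1, Real.sqrt_inv,
      mul_one, mul_comm]
  · have h1 : ContDiffOn ℝ ∞ (fun s : ℝ => s⁻¹) (Ioi 0) :=
      contDiffOn_id.inv fun s hs => ne_of_gt hs
    refine (((sm_of_contDiffOn isOpen_Ioi.uniqueDiffOn h1).mono inter_subset_right).smul
      (k2.comp ((sm_of_contDiffOn isOpen_Ioi.uniqueDiffOn ((contDiffOn_const.sub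
        contDiffOn_id).mul h1)).mono inter_subset_right) fun _ s hs =>
          mul_nonneg (sub_nonneg.2 hs.1.2) (inv_pos.2 hs.2).le)).congr fun p s hs => ?_
    have hx : √s ≠ 0 := (Real.sqrt_pos.2 hs.2).ne'
    rw [hh, sl, (hi p).kk_act (c := (√s)⁻¹) (a := 1) (inv_ne_zero hx) (by simp), inv_pow,
      Real.sq_sqrt hs.1.1, mul_one, inv_mul_cancel₀ hx, id, Real.sqrt_mul (sub_nonneg.2 hs.1.2),
      Real.sqrt_inv, mul_comm]

open Classical in
/-- The exterior derivative, normalised to `0` at the origin. -/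
noncomputable def dd (β : Form 1) : Form 2 := fun z => if z = 0 then 0 else extDeriv β z

lemma dd_of_ne (β : Form 1) {z : V} (hz : z ≠ 0) : dd β z = extDeriv β z := if_neg hz

lemma sm_dd {β : P → Form 1} (hs : Sm {0}ᶜ β) : Sm {0}ᶜ fun p => dd (β p) :=
  ((hs.fderiv isOpen_compl_singleton).clm
    (ContinuousAlternatingMap.alternatizeUncurryFinCLM ℝ V ℝ)).congr fun _ _ hz => dd_of_ne _ hz

lemma good_dd {β : Form 1} (hs : ContDiffOn ℝ ∞ β {0}ᶜ) (hi : Inv β)
    (hh : ∀ c : ℂ, ∃ κ, ∀ z, z ≠ 0 → linL (β z) (c • z) = κ) : Good (dd β) := by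
  have hc : ∀ z, z ≠ 0 → ContDiffAt ℝ ∞ β z := fun z hz =>
    hs.contDiffAt (isOpen_compl_singleton.mem_nhds hz)
  have hd : ∀ z, z ≠ 0 → DifferentiableAt ℝ β z := fun z hz => (hc z hz).differentiableAt (by simp)
  refine ⟨fun z hz => ?_, fun z hz => ?_, fun c a b hc hab z => ?_, fun z c u => ?_⟩
  · exact (((sm_dd (sm_of_contDiffOn (P := Unit) isOpen_compl_singleton.uniqueDiffOn hs)).contDiffOn
      isOpen_compl_singleton.uniqueDiffOn ()).contDiffAt
        (isOpen_compl_singleton.mem_nhds hz)).differentiableAt (by simp)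
  · rw [← extDeriv_extDeriv_apply ((hc z hz).of_le (m := 2) (WithTop.coe_le_coe.2 le_top)) (by simp)]
    exact EventuallyEq.extDeriv_eq
      (mem_of_superset (isOpen_compl_singleton.mem_nhds hz) fun y hy => dd_of_ne β hy)
  · rcases eq_or_ne z 0 with rfl | hz
    · ext v
      simp [dd]
    · rw [dd_of_ne _ hz, dd_of_ne _ (act_ne hc hab hz), hi.extDeriv hd hc hab hz]
  · rcases eq_or_ne z 0 with rfl | hz
    · simp
    · obtain ⟨κ, hκ⟩ := hh c
      have h1 : HasDerivAt (fun t : ℝ => z + t • u) u 0 := by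
        simpa using ((hasDerivAt_id' (0 : ℝ)).smul_const u).const_add z
      have h2 := hasDerivAt_lin (β := β) (by simpa using hd z hz) h1 (h1.fun_const_smul c)
      have h3 : (fun t : ℝ => linL (β (z + t • u)) (c • (z + t • u))) =ᶠ[𝓝 0] fun _ => κ :=
        (h1.continuousAt.eventually_ne (y := 0) (by simpa using hz)).mono fun t ht => hκ _ ht
      have h4 := h2.unique ((hasDerivAt_const _ κ).congr_of_eventuallyEq h3)
      have h5 := hi.inf_scale (hd z hz) c u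
      rw [dd_of_ne _ hz, bilL_extDeriv]
      simp only [zero_smul, add_zero] at h4
      linarith

lemma Inv.dd_mat {β : Form 1} (hi : Inv β) {z : V} (hz : z ≠ 0) (hd : DifferentiableAt ℝ β z)
    {a b a' b' : ℂ} (ha : a.re = 0) (hab : ‖a‖ ^ 2 + ‖b‖ ^ 2 = 1) (ha' : a'.re = 0)
    (hab' : ‖a'‖ ^ 2 + ‖b'‖ ^ 2 = 1) : bilL (dd β z) (mat a b z) (mat a' b' z) =
      -linL (β z) (mat a b (mat a' b' z) - mat a' b' (mat a b z)) := by
  have h1 := hi.inf_lin hd ha hab (mat a' b' z)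
  have h2 := hi.inf_lin hd ha' hab' (mat a b z)
  rw [dd_of_ne _ hz, bilL_extDeriv, map_sub]
  linarith

lemma Inv.mul_hh_dd {β : Form 1} (hi : Inv β) {s : ℝ} (hs : s ∈ Icc (0 : ℝ) 1)
    (hd : DifferentiableAt ℝ β (sl s)) (i : Fin 3) : s * hh (dd β) s i =
      2 * linL (β (sl s)) (![mat 0 1 (sl s), mat 0 I (sl s), mat I 0 (sl s)] i) := by
  rw [mul_hh _ hs.1]
  fin_cases i
  · refine (hi.dd_mat (sl_ne hs) hd rfl (by simp) (by simp) (by simp)).trans ?_
    simp [comm23]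
  · refine (hi.dd_mat (sl_ne hs) hd (by simp) (by simp) (by simp) (by simp)).trans ?_
    simp [comm31]
  · refine (hi.dd_mat (sl_ne hs) hd rfl (by simp) (by simp) (by simp)).trans ?_
    simp [comm12]

/-- The Hermitian product. -/
noncomputable def her (y u : V) : ℂ := ∑ j, conj (y j) * u j

lemma linL_cov (y u : V) : linL (cov y) u = (her y u).im := by
  simp [linL, cov, her]

lemma her_act {c a b : ℂ} (hab : ‖a‖ ^ 2 + ‖b‖ ^ 2 = 1) (y u : V) :
    her (act c a b y) (act c a b u) = (‖c‖ ^ 2 : ℝ) * her y u := by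
  have h3 : a * conj a + b * conj b = 1 := by
    rw [Complex.mul_conj', Complex.mul_conj']
    exact_mod_cast hab
  simp [her, Fin.sum_univ_three, act, lm_apply, ← Complex.mul_conj']
  linear_combination c * conj c * (conj (y 1) * u 1 + conj (y 2) * u 2) * h3

lemma her_smul (c : ℂ) (y u : V) : her (c • y) u = conj c * her y u := by
  simp [her, Finset.mul_sum, mul_assoc]

lemma her_smul' (c : ℂ) (y u : V) : her y (c • u) = c * her y u := by
  simp [her, Finset.mul_sum, mul_left_comm]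

lemma contDiff_cov : ContDiff ℝ ∞ cov :=
  (ContinuousAlternatingMap.ofSubsingletonLIE (𝕜 := ℝ) (E := V) (F := ℝ) (0 : Fin 1)).contDiff.comp
    (ContDiff.sum fun j _ => contDiff_const.clm_comp ((((ContinuousLinearMap.mul ℝ ℂ).contDiff.comp
      (Complex.conjCLE.contDiff.comp (contDiff_apply ℝ ℂ j)))).clm_comp contDiff_const))

lemma inv_cov {Y : V → V} (hY : ∀ c a b : ℂ, c ≠ 0 → ‖a‖ ^ 2 + ‖b‖ ^ 2 = 1 → ∀ z,
    Y (act c a b z) = (‖c‖ ^ 2)⁻¹ • act c a b (Y z)) : Inv fun z => cov (Y z) := by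
  intro c a b hc hab z
  ext v
  have h : (‖c‖ ^ 2 : ℝ) ≠ 0 := by simpa using hc
  rw [ContinuousAlternatingMap.compContinuousLinearMap_apply, eq_linL, eq_linL, linL_cov, linL_cov,
    hY c a b hc hab, ← Complex.coe_smul, her_smul, Function.comp_apply, her_act hab, conj_ofReal,
    ← mul_assoc, ← ofReal_mul, inv_mul_cancel₀ h, ofReal_one, one_mul]

/-- The squared norm. -/
noncomputable def nn (z : V) : ℝ := ∑ j, ‖z j‖ ^ 2

lemma her_self (z : V) : her z z = nn z := by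
  simp [her, nn, Complex.conj_mul']

lemma nn_act {c a b : ℂ} (hab : ‖a‖ ^ 2 + ‖b‖ ^ 2 = 1) (z : V) :
    nn (act c a b z) = ‖c‖ ^ 2 * nn z := by
  have h := her_act (c := c) hab z z
  rw [her_self, her_self] at h
  exact_mod_cast h

lemma nn_pos {z : V} (hz : z ≠ 0) : 0 < nn z := by
  obtain ⟨j, hj⟩ := Function.ne_iff.1 hz
  exact Finset.sum_pos' (fun _ _ => sq_nonneg _) ⟨j, Finset.mem_univ _, pow_pos (norm_pos_iff.2 hj) 2⟩

lemma nn_sl {s : ℝ} (hs : s ∈ Icc (0 : ℝ) 1) : nn (sl s) = 1 := by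
  simpa [nn, sl, pt, Fin.sum_univ_three] using sq_sl hs

lemma contDiff_sq (j : Fin 3) : ContDiff ℝ ∞ fun z : V => ‖z j‖ ^ 2 :=
  (contDiff_norm_sq ℝ).comp (contDiff_apply ℝ ℂ j)

lemma contDiffOn_inv_nn : ContDiffOn ℝ ∞ (fun z => (nn z)⁻¹) {0}ᶜ :=
  (ContDiff.sum fun j _ => contDiff_sq j).contDiffOn.inv fun _ hz => (nn_pos hz).ne'

lemma contDiffOn_theta : ContDiffOn ℝ ∞ theta {0}ᶜ :=
  contDiff_cov.comp_contDiffOn (contDiffOn_inv_nn.smul contDiffOn_id)

lemma inv_theta : Inv theta := inv_cov (Y := fun z => (nn z)⁻¹ • z) fun c a b _ hab z => by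
  rw [nn_act hab, map_smul, smul_smul, mul_inv]

lemma linL_theta (z u : V) : linL (theta z) u = (nn z)⁻¹ * (her z u).im := by
  rw [theta, linL_cov, ← Complex.coe_smul, her_smul, conj_ofReal, im_ofReal_mul]
  rfl

lemma theta_horiz (c : ℂ) {z : V} (hz : z ≠ 0) : linL (theta z) (c • z) = c.im := by
  rw [linL_theta, her_smul', her_self, im_mul_ofReal]
  field_simp [(nn_pos hz).ne']

lemma good_theta : Good (dd theta) :=
  good_dd contDiffOn_theta inv_theta fun c => ⟨c.im, fun _ => theta_horiz c⟩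

end Pool.Agent.MP_2fc7fa_gt

end
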