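import Pool.Agent.Mg.F2fc7fa.G9cb2cd
import Pool.Agent.Mg.F2fc7fa.Gd54744
import Pool.Agent.Mg.F2fc7fa.G157b90

section

/-! Interface statements inside part A (families of forms and of lines), see PROOF.md. -/

open scoped ContDiff ComplexConjugate Topology
open Set Complex Filter Metric

noncomputable section

namespace Pool.Agent.MP_2fc7fa_gt.N

abbrev Cb : Type := ℕ → UI

abbrev Bil : Type := V →L[ℝ] V →L[ℝ] ℝ

abbrev Op : Type := V →L[ℝ] V

/-- The base point. -/
def e0 : V := vec 1 0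

theorem e0_ne : e0 ≠ 0 := fun h => by simpa [e0, vec] using congrFun h 0

theorem rt_mul_neg (k : Zp) : rt k * rt (-k) = 1 := by rw [← rt_add, add_neg_cancel, rt_zero]

theorem rt_ne (k : Zp) : rt k ≠ 0 := left_ne_zero_of_mul_eq_one (rt_mul_neg k)

theorem hat_zero (x : V) : hat 0 x = x := funext fun a => by simp [hat, rt_zero]

theorem hat_add (k k' : Zp) (x : V) : hat (k + k') x = hat k (hat k' x) :=
  funext fun a => by simp only [hat, add_mul, rt_add, mul_assoc]

theorem hat_vec (k : Zp) (c : ℂ) (y : W) : hat k (vec c y) = vec c (rt k • y) := by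
  ext a
  fin_cases a <;> simp [hat, vec, wt, rt_zero]

theorem hat_e0 (k : Zp) : hat k e0 = e0 := by rw [e0, hat_vec, smul_zero]

/-- The action of `k` as a complex linear automorphism. -/
def hatL (k : Zp) : V ≃L[ℂ] V :=
  LinearEquiv.toContinuousLinearEquiv
    { toFun := hat k
      invFun := hat (-k)
      map_add' := fun x y => funext fun a => by simp [hat, mul_add]
      map_smul' := fun c x => funext fun a => by simp [hat, mul_left_comm]
      left_inv := fun x => by rw [← hat_add, neg_add_cancel, hat_zero]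
      right_inv := fun x => by rw [← hat_add, add_neg_cancel, hat_zero] }

theorem hatL_apply (k : Zp) (x : V) : hatL k x = hat k x := rfl

theorem hat_ne (k : Zp) {x : V} (hx : x ≠ 0) : hat k x ≠ 0 := (hatL k).map_ne_zero_iff.2 hx

theorem Symp.ext' {l : ℝ} {σ τ : Symp l}
    (h : ∀ x, x ≠ 0 → ∀ u v, σ.form x ![u, v] = τ.form x ![u, v]) : σ = τ := by
  obtain ⟨σ, c1, c2, c3, c4⟩ := σ
  obtain ⟨τ, d1, d2, d3, d4⟩ := τ
  obtain rfl : σ = τ := funext fun z => by
    rcases eq_or_ne z 0 with rfl | hz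
    · exact c1.zero.trans d1.zero.symm
    · ext v
      rw [eq_bilL, eq_bilL, bilL_apply, bilL_apply]
      exact h z hz _ _
  rfl

/-- Continuity in the `C^∞` topology. -/
theorem continuous_symp_iff {l : ℝ} {P : Type} [TopologicalSpace P] {om : P → Symp l} :
    Continuous om ↔ Sm {0}ᶜ fun p => (om p).form := by
  have hU : IsOpen ({0}ᶜ : Set V) := isOpen_compl_singleton
  have := hU.locallyCompactSpace
  constructor
  · intro h
    refine (sm_iff_iter hU).2 ⟨fun p => (om p).isForm.smooth, fun m => ?_⟩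
    rw [JC, continuousOn_iff_continuous_domRestrict]
    have h2 : Continuous fun σ : Symp l => σ.jet m :=
      continuous_iInf_dom (i := m) continuous_induced_dom
    exact continuous_eval.comp (f := fun q : (univ ×ˢ {0}ᶜ : Set (P × V)) =>
      ((om q.1.1).jet m, (⟨q.1.2, q.2.2⟩ : ({0}ᶜ : Set V)))) (by fun_prop)
  · intro h
    refine continuous_iInf_rng.2 fun m => continuous_induced_rng.2
      (ContinuousMap.continuous_of_continuous_uncurry _ ?_)
    exact (((sm_iff_iter hU).1 h).2 m).comp_continuous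
      (f := fun q : P × ({0}ᶜ : Set V) => (q.1, q.2.1)) (by fun_prop) fun q => ⟨mem_univ _, q.2.2⟩

/-! ### Homogeneous diffeomorphisms -/

/-- A homogeneous diffeomorphism of `ℂ³ ∖ 0` with its inverse. -/
structure HDiff (F F' : V → V) : Prop where
  smooth : ContDiffOn ℝ ∞ F {0}ᶜ
  smooth' : ContDiffOn ℝ ∞ F' {0}ᶜ
  left : ∀ x, F' (F x) = x
  right : ∀ x, F (F' x) = x
  hom : ∀ (c : ℂ) x, F (c • x) = c • F x

namespace HDiff

variable {F F' : V → V} (h : HDiff F F')

include h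

theorem symm : HDiff F' F :=
  ⟨h.smooth', h.smooth, h.right, h.left, fun c x => by
    conv_lhs => rw [← h.right x, ← h.hom, h.left]⟩

theorem zero : F 0 = 0 := by simpa using h.hom 0 0

theorem ne {x : V} (hx : x ≠ 0) : F x ≠ 0 := fun e =>
  hx (by rw [← h.left x, e, h.symm.zero])

theorem cdAt {x : V} (hx : x ≠ 0) : ContDiffAt ℝ ∞ F x :=
  h.smooth.contDiffAt (isOpen_compl_singleton.mem_nhds hx)

theorem dAt {x : V} (hx : x ≠ 0) : DifferentiableAt ℝ F x := (h.cdAt hx).differentiableAt (by simp)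

theorem chain {x : V} (hx : x ≠ 0) (v : V) : fderiv ℝ F' (F x) (fderiv ℝ F x v) = v := by
  have h1 := fderiv_comp x (h.symm.dAt (h.ne hx)) (h.dAt hx)
  have h2 : F' ∘ F = id := funext h.left
  rw [h2, fderiv_id] at h1
  exact (congrArg (fun L : Op => L v) h1).symm

theorem chain' {x : V} (hx : x ≠ 0) (v : V) : fderiv ℝ F x (fderiv ℝ F' (F x) v) = v := by
  simpa only [h.left] using h.symm.chain (h.ne hx) v

/-- The derivative of a map that commutes with a linear automorphism. -/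
theorem fderiv_comm (T : V ≃L[ℝ] V) (hT : ∀ x, F (T x) = T (F x)) {x : V} (hx : x ≠ 0) (v : V) :
    fderiv ℝ F (T x) (T v) = T (fderiv ℝ F x v) := by
  have h1 := (h.dAt (T.map_ne_zero_iff.2 hx)).hasFDerivAt.comp x T.hasFDerivAt
  have h2 := T.hasFDerivAt.comp x (h.dAt hx).hasFDerivAt
  exact congrArg (fun L : Op => L v) (h1.unique (h2.congr_of_eventuallyEq (.of_forall hT)))

theorem fderiv_scale {x : V} (hx : x ≠ 0) {c : ℂ} (hc : c ≠ 0) (v : V) :
    fderiv ℝ F (c • x) (c • v) = c • fderiv ℝ F x v :=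
  h.fderiv_comm (((LinearEquiv.smulOfNeZero ℂ V c hc).restrictScalars ℝ).toContinuousLinearEquiv)
    (h.hom c) hx v

theorem fderiv_vert {x : V} (hx : x ≠ 0) (c : ℂ) : fderiv ℝ F x (c • x) = c • F x := by
  have h1 : HasDerivAt (fun t : ℝ => (1 + t * c : ℂ)) c 0 := by
    simpa using ((Complex.ofRealCLM.hasDerivAt (x := (0 : ℝ))).mul_const c).const_add 1
  have h2 := HasFDerivAt.comp_hasDerivAt (l := F) (l' := fderiv ℝ F x) (0 : ℝ)
    (by simpa using (h.dAt hx).hasFDerivAt) (h1.smul_const x)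
  have h3 : F ∘ (fun t : ℝ => (1 + t * c : ℂ) • x) = fun t : ℝ => (1 + t * c : ℂ) • F x :=
    funext fun t => h.hom _ x
  rw [h3] at h2
  exact h2.unique (h1.smul_const (F x))

end HDiff

theorem hdiff_hat (k : Zp) : HDiff (hat k) (hat (-k)) :=
  ⟨((hatL k).contDiff.restrict_scalars ℝ).contDiffOn,
    ((hatL (-k)).contDiff.restrict_scalars ℝ).contDiffOn,
    (hatL k).left_inv, (hatL k).right_inv, (hatL k).map_smul⟩

theorem fderiv_hat (k : Zp) (x v : V) : fderiv ℝ (hat k) x v = hat k v :=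
  congrArg (fun L : Op => L v) ((hatL k).hasFDerivAt (x := x).restrictScalars ℝ).fderiv

/-- The lift to `ℂ³` of a diffeomorphism `f` of the affine chart. -/
structure Lf (f : W → W) (F F' : V → V) : Prop extends HDiff F F' where
  equiv : ∀ k x, F (hat k x) = hat k (F x)
  aff : ∀ y, F (vec 1 y) = vec 1 (f y)
  near : ∀ᶠ x in 𝓝 e0, F x = x
  near' : ∀ᶠ x in 𝓝 e0, F' x = x

/-- Job `Scale`. -/
def ScaleStmt : Prop :=
  ∀ l : ℝ, l ≠ 0 → ContractibleSpace (Symp l) → ContractibleSpace (Symp 1)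

/-- Job `LiftF`. -/
def LiftFStmt : Prop :=
  ∀ f f' : W → W, Sol f → ContDiff ℝ ∞ f → ContDiff ℝ ∞ f' → Function.LeftInverse f' f →
    Function.RightInverse f' f → ∃ F F', Lf f F F'

/-! ### Forms -/

/-- `τ` is the pull-back of `σ` by `F`. -/
def IsPull (F : V → V) (σ τ : Symp 1) : Prop :=
  ∀ x, x ≠ 0 → ∀ u v, τ.form x ![u, v] = σ.form (F x) ![fderiv ℝ F x u, fderiv ℝ F x v]

/-- Job `Pull`. -/
def PullStmt : Prop :=
  ∀ F F', HDiff F F' → ∃ pb : Symp 1 → Symp 1, Continuous pb ∧ ∀ σ, IsPull F σ (pb σ)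

/-- The real part of the Hermitian product. -/
def reB : Bil :=
  ∑ j : Fin 3, (innerSL ℝ : ℂ →L[ℝ] ℂ →L[ℝ] ℝ).bilinearComp
    (ContinuousLinearMap.proj j : V →L[ℝ] ℂ) (ContinuousLinearMap.proj j : V →L[ℝ] ℂ)

theorem reB_apply (u v : V) : reB u v = (her u v).re := by
  simp [reB, her, mul_comm]

/-- The standard metric. -/
def g1 (x : V) : Bil := (nn x)⁻¹ • reB

theorem g1_apply (x u v : V) : g1 x u v = (nn x)⁻¹ * (her u v).re := by
  simp [g1, reB_apply]

/-- The standard form attached to a metric and a vector. -/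
def omS (g : Bil) (x u v : V) : ℝ :=
  2 * (g (I • u) v - g (I • u) x * g v x - g (I • u) (I • x) * g v (I • x))

/-- Job `StdF`. -/
def StdFStmt : Prop :=
  ∃ om1 : Symp 1, ∀ x, x ≠ 0 → ∀ u v, om1.form x ![u, v] = omS (g1 x) x u v

/-- The group action on forms and the two invariant forms. -/
structure Forms (F' : V → V) (ac : Zp → Symp 1 → Symp 1) (om0 om1 : Symp 1) : Prop where
  cont : ∀ k, Continuous (ac k)
  zero : ∀ σ, ac 0 σ = σ
  add : ∀ k k' σ, ac (k + k') σ = ac k (ac k' σ)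
  fix0 : ∀ k, ac k om0 = om0
  fix1 : ∀ k, ac k om1 = om1
  spec : ∀ k σ x, x ≠ 0 → ∀ u v, (ac k σ).form (hat k x) ![hat k u, hat k v] = σ.form x ![u, v]
  std : ∀ x, x ≠ 0 → ∀ u v, om1.form x ![u, v] = omS (g1 x) x u v
  pull : IsPull F' om1 om0

/-- Job `Forms`. -/
def FormsStmt : Prop := ∀ f F F', Lf f F F' → ∃ ac om0 om1, Forms F' ac om0 om1

/-! ### Equivariant families over cubes -/

structure CubeFam {X : Type} [TopologicalSpace X] (ac : Zp → X → X) (x₀ x₁ : X)
    (Q : List Zp → Cb × UI → X) : Prop where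
  cont : ∀ σ, Continuous (Q σ)
  equiv : ∀ σ k a, σ ≠ [] → Q (σ.map (k + ·)) a = ac k (Q σ a)
  face1 : ∀ σ t s i, i + 1 < σ.length → t i = 1 → Q σ (t, s) = Q (σ.eraseIdx i) (skip i t, s)
  face0 : ∀ σ t s i, σ ≠ [] → t i = 0 → Q σ (t, s) = Q (σ.take (i + 1)) (t, s)
  dep : ∀ σ t t' s, (∀ i, i + 1 < σ.length → t i = t' i) → Q σ (t, s) = Q σ (t', s)
  start : ∀ σ t, Q σ (t, 0) = x₀
  stop : ∀ σ t, Q σ (t, 1) = x₁

/-- Job `Cube`. -/
def CubeStmt : Prop :=
  ∀ (X : Type) [TopologicalSpace X] [ContractibleSpace X] (ac : Zp → X → X) (x₀ x₁ : X),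
    (∀ k, Continuous (ac k)) → (∀ x, ac 0 x = x) → (∀ k k' x, ac (k + k') x = ac k (ac k' x)) →
    (∀ k, ac k x₀ = x₀) → (∀ k, ac k x₁ = x₁) → ∃ Q, CubeFam ac x₀ x₁ Q

/-! ### The almost complex structure of a metric and a form, at a point -/

/-- A metric, a form and two vectors. -/
abbrev D4 : Type := Bil × Bil × V × V

/-- The operator `A` with `g (A u) v = o u v`. -/
def Aop (d : D4) : Op := (ContinuousLinearMap.inverse d.1).comp d.2.1

def trc (A : Op) : ℝ := LinearMap.trace ℝ V (A : V →ₗ[ℝ] V)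

def sgm (A : Op) : ℝ := -trc (A ^ 2) / 2

def pf2 (A : Op) : ℝ := (sgm A ^ 2 - trc (A ^ 4) / 2) / 2

/-- The horizontal part. -/
def Jh (A : Op) : Op := (√(sgm A + 2 * √(pf2 A)))⁻¹ • (A + (√(pf2 A))⁻¹ • (A ^ 3 + sgm A • A))

/-- The almost complex structure. -/
def Jp (d : D4) : Op :=
  Jh (Aop d) + (d.1 d.2.2.1).smulRight d.2.2.2 - (d.1 d.2.2.2).smulRight d.2.2.1

/-- Admissible data. -/
structure Ok (g o : Bil) (x x' : V) : Prop where
  symm : ∀ u v, g u v = g v u
  pos : ∀ v, v ≠ 0 → 0 < g v v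
  skew : ∀ u v, o u v = -o v u
  ker : ∀ v, o x v = 0
  ker' : ∀ v, o x' v = 0
  xx : g x x = 1
  xx' : g x x' = 0
  x'x' : g x' x' = 1
  nondeg : ∃ a b c d, o a b * o c d - o a c * o b d + o a d * o b c ≠ 0

/-- Job `JInv`: the defining property of `Aop`, naturality, the standard case. -/
def JInvStmt : Prop :=
  (∀ g o x x', Ok g o x x' → g.IsInvertible ∧ ∀ u v, g (Aop (g, o, x, x') u) v = o u v) ∧
  (∀ (T : V ≃L[ℝ] V) g o x x' g' o', Ok g o x x' → (∀ u v, g' (T u) (T v) = g u v) →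
    (∀ u v, o' (T u) (T v) = o u v) → ∀ v, Jp (g', o', T x, T x') (T v) = T (Jp (g, o, x, x') v)) ∧
  ∀ (x : V) (o : Bil), x ≠ 0 → (∀ u v, o u v = omS (g1 x) x u v) →
    ∀ v, Jp (g1 x, o, x, I • x) v = I • v

/-- Job `JAlg`: linear algebra in dimension four. -/
def JAlgStmt : Prop :=
  ∀ g o x x', Ok g o x x' → (∀ u v, g (Aop (g, o, x, x') u) v = o u v) →
    0 < pf2 (Aop (g, o, x, x')) ∧ 0 ≤ sgm (Aop (g, o, x, x')) ∧
    (∀ v, Jp (g, o, x, x') (Jp (g, o, x, x') v) = -v) ∧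
    Jp (g, o, x, x') x = x' ∧ Jp (g, o, x, x') x' = -x ∧
    (∀ v, (∀ a b : ℝ, v ≠ a • x + b • x') → 0 < o v (Jp (g, o, x, x') v)) ∧
    ∀ v, g (Jp (g, o, x, x') v) x = -g v x' ∧ g (Jp (g, o, x, x') v) x' = g v x

/-- Job `JSm`: smoothness. -/
def JSmStmt : Prop :=
  IsOpen {d : D4 | d.1.IsInvertible ∧ 0 < pf2 (Aop d) ∧ 0 < sgm (Aop d) + 2 * √(pf2 (Aop d))} ∧
    ContDiffOn ℝ ∞ Jp
      {d : D4 | d.1.IsInvertible ∧ 0 < pf2 (Aop d) ∧ 0 < sgm (Aop d) + 2 * √(pf2 (Aop d))}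

/-- The path of metrics. -/
def gs (F' : V → V) (s : ℝ) (x : V) : Bil :=
  (1 - s) • (g1 (F' x)).bilinearComp (fderiv ℝ F' x) (fderiv ℝ F' x) + s • g1 x

/-- The path of metrics is smooth, vertical vectors have the standard length, and it is natural. -/
structure Gs (F F' : V → V) : Prop where
  sm : Sm {0}ᶜ fun (s : UI) x => gs F' s x
  ok : ∀ (σ : Symp 1) (s : UI) x, x ≠ 0 → Ok (gs F' s x) (bilL (σ.form x)) x (I • x)
  scale : ∀ (s : UI) x, x ≠ 0 → ∀ c : ℂ, c ≠ 0 → ∀ u v,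
    gs F' s (c • x) (c • u) (c • v) = gs F' s x u v
  equiv : ∀ (s : UI) k x, x ≠ 0 → ∀ u v, gs F' s (hat k x) (hat k u) (hat k v) = gs F' s x u v
  base : ∀ s : UI, gs F' s e0 = reB
  start : ∀ y, y ≠ 0 → ∀ u v, gs F' 0 (F y) (fderiv ℝ F y u) (fderiv ℝ F y v) = g1 y u v
  stop : ∀ x, gs F' 1 x = g1 x

/-- Job `Gs`. -/
def GsStmt : Prop := ∀ f F F', Lf f F F' → Gs F F'

/-- A natural choice of tamed almost complex structures. -/
structure JFam (F : V → V) (ac : Zp → Symp 1 → Symp 1) (om0 om1 : Symp 1)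
    (J : Symp 1 × UI → V → Op) : Prop where
  sm : Sm {0}ᶜ J
  sq : ∀ a x, x ≠ 0 → ∀ v, J a x (J a x v) = -v
  vert : ∀ a x, x ≠ 0 → ∀ c : ℂ, J a x (c • x) = I • c • x
  scale : ∀ a x, x ≠ 0 → ∀ c : ℂ, c ≠ 0 → ∀ v, J a (c • x) (c • v) = c • J a x v
  tame : ∀ a, Tame (fun x v => J a x v) a.1
  base : ∀ a v, J a e0 v 0 = I * v 0
  equiv : ∀ k σ s x, x ≠ 0 → ∀ v, J (ac k σ, s) (hat k x) (hat k v) = hat k (J (σ, s) x v)
  start : ∀ y, y ≠ 0 → ∀ v, J (om0, 0) (F y) (fderiv ℝ F y v) = fderiv ℝ F y (I • v)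
  stop : ∀ x, x ≠ 0 → ∀ v, J (om1, 1) x v = I • v

/-- Job `JFam`. -/
def JFamStmt : Prop :=
  ∀ f F F' ac om0 om1, Lf f F F' → Forms F' ac om0 om1 → ∃ J, JFam F ac om0 om1 J

/-- Job `Frame`: frames that depend naturally on the path of structures. -/
def FrameStmt : Prop :=
  ∀ (P : Type) [TopologicalSpace P] [CompactSpace P] (J : P × UI → V → Op), Sm {0}ᶜ J →
    (∀ a x, x ≠ 0 → ∀ v, J a x (J a x v) = -v) →
    (∀ a x, x ≠ 0 → ∀ c : ℂ, J a x (c • x) = I • c • x) →
    (∀ a x, x ≠ 0 → ∀ c : ℂ, c ≠ 0 → ∀ v, J a (c • x) (c • v) = c • J a x v) →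
    (∀ p x, x ≠ 0 → ∀ v, J (p, 1) x v = I • v) →
    ∃ φ : P × UI → Fr, FrFam φ ∧ (∀ a x, x ≠ 0 → ∀ v, (φ a).J x v = J a x v) ∧
      ∀ p p' x x' (T : Op), (∀ s v, J (p', s) x' (T v) = T (J (p, s) x v)) →
        ∀ s v, (φ (p', s)).B x' (T v) = T ((φ (p, s)).B x v)

/-! ### Lines through the base point -/

/-- Lines through the base point in the directions `C a (0, v)`. -/
structure Sys {P : Type} [TopologicalSpace P] (φ : P × UI → Fr) (C : P × UI → Op)
    (Y : P × UI → W → W → V) : Prop where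
  fr : FrFam φ
  std : ∀ p x, x ≠ 0 → ∀ v, (φ (p, 1)).J x v = I • v
  cJ : ∀ a v, C a (I • v) = (φ a).J e0 (C a v)
  c0 : ∀ p v, C (p, 0) v = v
  cb : ∀ a v, C a v 0 = v 0
  cinj : ∀ a, Function.Injective (C a)
  fam : Fam {0}ᶜ 1 V fun b : (P × UI) × ({0}ᶜ : Set W) => Y b.1 b.2
  line : ∀ a v, v ≠ 0 →
    IsLine (φ a).J (Y a v) ∧ IsEmb (Y a v) ∧ jet (Y a v) = (e0, C a (vec 0 v))

/-- Job `Key`: naturality of the lines, and the two ends. -/
def KeyStmt : Prop :=
  UniqStmt → LinStmt → ∀ (P : Type) [TopologicalSpace P] (φ : P × UI → Fr) (C : P × UI → Op)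
    (Y : P × UI → W → W → V), Sys φ C Y →
    (∀ (p p' : P) (T : V ≃L[ℂ] V) (c : ℂ) (v v' : W), T e0 = e0 →
      (∀ s x, x ≠ 0 → ∀ u, (φ (p', s)).J (T x) (T u) = T ((φ (p, s)).J x u)) →
      (∀ s u, C (p', s) (T u) = T (C (p, s) u)) → c ≠ 0 → v ≠ 0 →
      vec 0 v' = T (vec 0 (c • v)) → ∀ s q, Y (p', s) v' q = T (Y (p, s) v (q.1, c * q.2))) ∧
    (∀ p f F F', Lf f F F' →
      (∀ y, y ≠ 0 → ∀ u, (φ (p, 0)).J (F y) (fderiv ℝ F y u) = fderiv ℝ F y (I • u)) →
      ∀ v, v ≠ 0 → Y (p, 0) v (1, 1) = vec 1 (f v)) ∧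
    ∀ p, ∃ L : W →ₗ[ℂ] W, Function.Injective L ∧ ∀ v, v ≠ 0 → Y (p, 1) v (1, 1) = vec 1 (L v)

/-- A compact family of embedded homogeneous maps through the base point. -/
structure Ray {P : Type} [TopologicalSpace P] (Y : P → W → W → V) : Prop where
  fam : Fam {0}ᶜ 1 V fun b : P × ({0}ᶜ : Set W) => Y b.1 b.2
  emb : ∀ p v, v ≠ 0 → Hom1 (Y p v) ∧ IsEmb (Y p v) ∧ ∀ q, q ≠ 0 → Y p v q ≠ 0
  base : ∀ p v, v ≠ 0 → Y p v (1, 0) = e0
  par : ∀ p v (c : ℂ), v ≠ 0 → c ≠ 0 → Y p (c • v) (1, 1) = Y p v (1, c)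

/-- Job `Near0`. -/
def Near0Stmt : Prop :=
  ChordStmt → ∀ (P : Type) [TopologicalSpace P] [CompactSpace P] (Y : P → W → W → V), Ray Y →
    ∀ r : ℝ, 0 < r → ∃ τ : ℝ, 0 < τ ∧ ∀ p a x y (l : ℝ), a ≠ 0 → ‖a‖ ≤ τ → 1 < l →
      (∀ k, pr (Y p (rt k • a) (1, 1)) = pt (rt k • x)) →
      pr (Y p ((l : ℂ) • a) (1, 1)) = pt y → ‖x‖ ≤ r ∧ ∀ μ, Chord μ → y ≠ μ • x

/-- Job `NearInf`. -/
def NearInfStmt : Prop :=
  ChordStmt → ∀ (P : Type) [TopologicalSpace P] [CompactSpace P] (Y : P → W → W → V), Ray Y →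
    ∀ r : ℝ, ∃ R : ℝ, ∀ p b x y (l : ℝ), b ≠ 0 → R ≤ ‖b‖ → 0 < l → l < 1 →
      (∀ k, pr (Y p (rt k • b) (1, 1)) = pt (rt k • y)) →
      pr (Y p ((l : ℂ) • b) (1, 1)) = pt x → r ≤ ‖y‖ ∧ ∀ μ, Chord μ → y ≠ μ • x

theorem pr_smul {c : ℂ} (hc : c ≠ 0) (x : V) : pr (c • x) = pr x := by
  funext a b
  have h : ((∑ j, ‖(c • x) j‖ ^ 2 : ℝ) : ℂ) = c * conj c * ((∑ j, ‖x j‖ ^ 2 : ℝ) : ℂ) := by
    rw [Complex.mul_conj', ← ofReal_pow, ← ofReal_mul, Finset.mul_sum]
    simp [mul_pow]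
  have hc' : c * conj c ≠ 0 := mul_ne_zero hc (by simpa using hc)
  rw [pr, pr, h, ← mul_div_mul_left (x a * conj (x b)) _ hc']
  simp only [Pi.smul_apply, smul_eq_mul, map_mul]
  ring

theorem exists_smul_of_pr_eq {x y : V} (hx : x ≠ 0) (hy : y ≠ 0) (h : pr x = pr y) :
    ∃ c : ℂ, c ≠ 0 ∧ x = c • y := by
  obtain ⟨b, hb⟩ := Function.ne_iff.1 hx
  have hb' : conj (x b) ≠ 0 := by simpa using hb
  have h1 : ((∑ j, ‖x j‖ ^ 2 : ℝ) : ℂ) ≠ 0 := ofReal_ne_zero.2 (nn_pos hx).ne'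
  have h2 : ((∑ j, ‖y j‖ ^ 2 : ℝ) : ℂ) ≠ 0 := ofReal_ne_zero.2 (nn_pos hy).ne'
  have h3 : x = (conj (y b) / ((∑ j, ‖y j‖ ^ 2 : ℝ) : ℂ) * ((∑ j, ‖x j‖ ^ 2 : ℝ) : ℂ) /
      conj (x b)) • y := by
    funext a
    have h4 := congrFun (congrFun h a) b
    rw [pr, pr, div_eq_div_iff h1 h2] at h4
    rw [Pi.smul_apply, smul_eq_mul]
    field_simp
    linear_combination h4
  exact ⟨_, fun e => hx (by rw [h3, e, zero_smul]), h3⟩

/-- A point of a chord has real part at most `cos (2 π / 37)`. -/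
theorem Chord.re_le {μ : ℂ} (h : Chord μ) : μ.re ≤ Real.cos (2 * Real.pi / 37) := by
  have key : ∀ k : Zp, k ≠ 0 → (rt k).re ≤ Real.cos (2 * Real.pi / 37) := by
    intro k hk
    have h1 : rt k = exp ((2 * Real.pi * (k.val : ℝ) / 37 : ℝ) * I) := by
      rw [rt, ZMod.stdAddChar_apply, ZMod.toCircle_apply]
      congr 1
      push_cast
      ring
    have h2 : (1 : ℝ) ≤ k.val := by exact_mod_cast Nat.pos_of_ne_zero (by simpa using hk)
    have h3 : (k.val : ℝ) ≤ 36 := by exact_mod_cast Nat.lt_succ_iff.1 k.val_lt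
    have hp := Real.pi_pos
    rw [h1, exp_ofReal_mul_I_re]
    rcases le_total (2 * Real.pi * (k.val : ℝ) / 37) Real.pi with h4 | h4
    · exact Real.cos_le_cos_of_nonneg_of_le_pi (by positivity) h4 (by nlinarith)
    · rw [← Real.cos_two_pi_sub (2 * Real.pi * (k.val : ℝ) / 37)]
      exact Real.cos_le_cos_of_nonneg_of_le_pi (by positivity) (by linarith) (by nlinarith)
  obtain ⟨k₁, k₂, u, h1, h2, hu, rfl⟩ := h
  have e : ((1 - u) * rt k₁ + u * rt k₂ : ℂ).re = (1 - u) * (rt k₁).re + u * (rt k₂).re := by simp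
  rw [e]
  nlinarith [key k₁ h1, key k₂ h2, hu.1, hu.2]

theorem cos_lt_one_37 : Real.cos (2 * Real.pi / 37) < 1 := by
  rw [← Real.cos_zero]
  have hp := Real.pi_pos
  exact Real.cos_lt_cos_of_nonneg_of_le_pi le_rfl (by linarith) (by positivity)

end Pool.Agent.MP_2fc7fa_gt.N

end
end

section

/-! Assembly of part A from the interface statements. -/

open scoped ContDiff ComplexConjugate Topology
open Set Complex Filter Metric

noncomputable section

namespace Pool.Agent.MP_2fc7fa_gt.N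

theorem pr_hat_Glue (k : Zp) (x : V) : pr (hat k x) = actM k (pr x) := by
  funext a b
  have h : ∀ j, ‖hat k x j‖ = ‖x j‖ := fun j => by rw [hat, norm_mul, norm_rt, one_mul]
  simp only [pr, actM, h]
  rw [hat, hat, map_mul, conj_rt, mul_sub, sub_eq_add_neg, rt_add]
  ring

theorem vec_zero_ne_Glue {v : W} (hv : v ≠ 0) (c : ℂ) : vec 0 v ≠ c • e0 := fun h =>
  hv (Prod.ext (by simpa [vec, e0] using congrFun h 1) (by simpa [vec, e0] using congrFun h 2))

theorem continuous_vec_Glue : Continuous fun v : W => vec 0 v :=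
  continuous_pi fun a => by fin_cases a <;> simp [vec] <;> fun_prop

theorem continuousOn_pr_Glue : ContinuousOn pr {0}ᶜ := by
  refine continuousOn_pi.2 fun a => continuousOn_pi.2 fun b => ?_
  refine ContinuousOn.div (by fun_prop) (by fun_prop) fun x hx => ?_
  exact ofReal_ne_zero.2 (nn_pos hx).ne'

theorem sys_Glue (hG : GromovStmt) (hFr : FrameStmt) {f : W → W} {F F' : V → V} (hL : Lf f F F')
    {ac : Zp → Symp 1 → Symp 1} {om0 om1 : Symp 1} {J : Symp 1 × UI → V → Op}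
    (hJ : JFam F ac om0 om1 J) {P : Type} [TopologicalSpace P] [CompactSpace P]
    {om : P × UI → Symp 1} (hom : Continuous om) (h0 : ∀ p, om (p, 0) = om0)
    (h1 : ∀ p, om (p, 1) = om1) :
    ∃ (φ : P × UI → Fr) (C : P × UI → Op) (Y : P × UI → W → W → V), Sys φ C Y ∧
      (∀ a x, x ≠ 0 → ∀ v, (φ a).J x v = J (om a, a.2) x v) ∧
      ∀ p p' k, (∀ s, om (p', s) = ac k (om (p, s))) →
        ∀ s u, C (p', s) (hat k u) = hat k (C (p, s) u) := by
  obtain ⟨φ, hφ, hφJ, hnat⟩ := hFr P (fun a => J (om a, a.2))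
    (hJ.sm.param (hom.prodMk continuous_snd)) (fun a => hJ.sq _) (fun a => hJ.vert _)
    (fun a => hJ.scale _) (fun p x hx v => by simpa only [h1] using hJ.stop x hx v)
  have hstd : ∀ p x, x ≠ 0 → ∀ v, (φ (p, 1)).J x v = I • v := fun p x hx v => by
    rw [hφJ _ x hx]
    simpa only [h1] using hJ.stop x hx v
  obtain ⟨U, hU, hU'⟩ := hG P φ om hφ hom
    (fun a x hx v hv => by rw [hφJ a x hx]; exact hJ.tame (om a, a.2) x hx v hv) hstd
  let C : P × UI → Op := fun a => ((φ a).B e0).comp ((φ (a.1, 0)).A e0)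
  have hC : ∀ a v, C a v = (φ a).B e0 ((φ (a.1, 0)).A e0 v) := fun _ _ => rfl
  have hF0 : F e0 = e0 := hL.near.self_of_nhds
  have hdF : fderiv ℝ F e0 = ContinuousLinearMap.id ℝ V :=
    (EventuallyEq.fderiv_eq (f := id) hL.near).trans fderiv_id
  have hJ0 : ∀ p v, (φ (p, 0)).J e0 v = I • v := fun p v => by
    have := hJ.start e0 e0_ne v
    rw [hF0, hdF] at this
    rw [hφJ _ _ e0_ne, h0]
    exact this
  have hB0 : ∀ a v, (φ a).B e0 v 0 = v 0 := by
    rintro ⟨p, s⟩ v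
    have h := hnat p p e0 e0
      (((ContinuousLinearMap.proj 0 : V →L[ℂ] ℂ).smulRight e0).restrictScalars ℝ)
      (fun s v => by
        change J _ e0 (v 0 • e0) = J _ e0 v 0 • e0
        rw [hJ.vert _ _ e0_ne, hJ.base, mul_smul]) s v
    change (φ (p, s)).B e0 (v 0 • e0) = (φ (p, s)).B e0 v 0 • e0 at h
    rw [(φ (p, s)).vert _ e0_ne] at h
    simpa [e0, vec] using (congrFun h 0).symm
  have hCb : ∀ a v, C a v 0 = v 0 := fun a v => by
    rw [hC, hB0, ← hB0 (a.1, 0) ((φ (a.1, 0)).A e0 v), (φ (a.1, 0)).BA _ e0_ne]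
  have hCi : ∀ a, Function.Injective (C a) := fun a =>
    (Function.LeftInverse.injective ((φ a).AB _ e0_ne)).comp
      (Function.LeftInverse.injective ((φ (a.1, 0)).BA _ e0_ne))
  have hCv : ∀ a (c : ℂ), C a (c • e0) = c • e0 := fun a c => by
    rw [hC]
    conv_lhs => rw [← (φ (a.1, 0)).vert _ e0_ne c, (φ (a.1, 0)).AB _ e0_ne]
    exact (φ a).vert _ e0_ne c
  have hjet : ∀ a (v : W), v ≠ 0 → (e0, C a (vec 0 v)) ∈ Jet := fun a v hv =>
    ⟨e0_ne, fun c hc => vec_zero_ne_Glue hv c (hCi a (hc.trans (hCv a c).symm))⟩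
  have hCc : Continuous C := by
    have b1 : Continuous fun a => (φ a).B e0 :=
      (hφ 0).1.comp_continuous (f := fun a : P × UI => (a, e0)) (by fun_prop)
        fun _ => ⟨mem_univ _, e0_ne⟩
    have b2 : Continuous fun a => (φ a).A e0 :=
      (hφ 0).2.comp_continuous (f := fun a : P × UI => (a, e0)) (by fun_prop)
        fun _ => ⟨mem_univ _, e0_ne⟩
    exact b1.clm_comp (b2.comp (f := fun a : P × UI => (a.1, (0 : UI))) (by fun_prop))
  classical
  refine ⟨φ, C, fun a v => if h : v ≠ 0 then U (a, ⟨_, hjet a v h⟩) else 0,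
    ⟨hφ, hstd, fun a v => ?_, fun p v => (φ (p, 0)).BA _ e0_ne v, hCb, hCi, ?_, fun a v hv => ?_⟩,
    hφJ, fun p p' k h s u => ?_⟩
  · have e : (φ (a.1, 0)).A e0 (I • v) = I • (φ (a.1, 0)).A e0 v := by
      rw [← hJ0 a.1 v, Fr.J, (φ (a.1, 0)).AB _ e0_ne]
    rw [hC, hC, e, Fr.J, (φ a).AB _ e0_ne]
  · refine (hU.param (g := fun b : (P × UI) × ({0}ᶜ : Set W) => (b.1, ⟨_, hjet b.1 b.2 b.2.2⟩))
      (continuous_fst.prodMk (Continuous.subtype_mk (continuous_const.prodMk
        ((hCc.comp continuous_fst).clm_apply (continuous_vec_Glue.comp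
          (continuous_subtype_val.comp continuous_snd)))) _))).congr fun b x _ => ?_
    rw [dif_pos (show (b.2 : W) ≠ 0 from b.2.2)]
  · simp only [dif_pos hv]
    exact hU' (a, ⟨_, hjet a v hv⟩)
  · have hB := hnat p p' e0 e0 ((hatL k : V →L[ℂ] V).restrictScalars ℝ) fun s v => by
      change J (om (p', s), s) e0 (hat k v) = hat k (J (om (p, s), s) e0 v)
      rw [h, ← hJ.equiv k _ s e0 e0_ne v, hat_e0]
    change ∀ s v, (φ (p', s)).B e0 (hat k v) = hat k ((φ (p, s)).B e0 v) at hB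
    have hA : (φ (p', 0)).A e0 (hat k u) = hat k ((φ (p, 0)).A e0 u) := by
      conv_lhs => rw [← (φ (p, 0)).BA _ e0_ne u, ← hB, (φ (p', 0)).AB _ e0_ne]
    rw [hC, hC, hA, hB]

/-- Admissible lists, with the discrete topology. -/
def LN (N : ℕ) : Type := {σ : List Zp // σ ≠ [] ∧ σ.length ≤ N + 1}

instance (N : ℕ) : TopologicalSpace (LN N) := ⊥

instance (N : ℕ) : DiscreteTopology (LN N) := ⟨rfl⟩

instance (N : ℕ) : Finite (LN N) :=
  ((List.finite_length_le Zp (N + 1)).subset fun _ h => h.2).to_subtype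

/-- The projection onto the cube. -/
def cl (t : ℕ → ℝ) : Cb := fun i => projIcc 0 1 zero_le_one (t i)

theorem continuous_cl : Continuous cl :=
  continuous_pi fun i => continuous_projIcc.comp (continuous_apply i)

theorem cl_skip (i : ℕ) (t : ℕ → ℝ) : cl (skip i t) = skip i (cl t) := by
  funext j
  simp only [cl, skip]
  split_ifs <;> rfl

theorem family_Glue (hG : GromovStmt) (hU : UniqStmt) (hLin : LinStmt) (hFr : FrameStmt)
    (hK : KeyStmt) (hN : Near0Stmt) (hN' : NearInfStmt) (hC : ChordStmt)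
    {f : W → W} {F F' : V → V} (hL : Lf f F F')
    {ac : Zp → Symp 1 → Symp 1} {om0 om1 : Symp 1} {J : Symp 1 × UI → V → Op}
    (hac : ∀ σ, ac 0 σ = σ) (hJ : JFam F ac om0 om1 J) {Q : List Zp → Cb × UI → Symp 1}
    (hQ : CubeFam ac om0 om1 Q) (N : ℕ) : Nonempty (LineFamily N f) := by
  let om : (LN N × Cb) × UI → Symp 1 := fun a => Q a.1.1.1 (a.1.2, a.2)
  have hom : Continuous om :=
    (continuous_prod_of_discrete_left (f := fun a : LN N × (Cb × UI) => Q a.1.1 a.2).2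
      fun σ => hQ.cont σ.1).comp (Homeomorph.prodAssoc (LN N) Cb UI).continuous
  obtain ⟨φ, C, Y, hS, hφJ, hCn⟩ := sys_Glue hG hFr hL hJ hom (fun p => hQ.start _ _)
    fun p => hQ.stop _ _
  obtain ⟨k1, k2, k3⟩ := hK hU hLin _ φ C Y hS
  have tr : ∀ p p' k (c : ℂ) v, (∀ s, om (p', s) = ac k (om (p, s))) → c ≠ 0 → v ≠ 0 →
      ∀ s, Y (p', s) (rt k • c • v) (1, 1) = hat k (Y (p, s) v (1, c)) := by
    intro p p' k c v h hc hv s
    have := k1 p p' (hatL k) c v (rt k • c • v) (hat_e0 k) (fun s x hx u => by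
      simp only [hatL_apply]
      rw [hφJ _ _ (hat_ne k hx), hφJ _ _ hx, h]
      exact hJ.equiv k _ s x hx u) (hCn p p' k h) hc hv (hat_vec k 0 _).symm s (1, 1)
    simpa only [mul_one, hatL_apply] using this
  have tr0 : ∀ p p' v, (∀ s, om (p', s) = om (p, s)) → v ≠ 0 →
      ∀ s, Y (p', s) v (1, 1) = Y (p, s) v (1, 1) := by
    intro p p' v h hv s
    simpa only [rt_zero, one_smul, hat_zero] using
      tr p p' 0 1 v (fun s => by rw [hac, h]) one_ne_zero hv s
  have hR : Ray Y :=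
    ⟨hS.fam, fun a v hv => ⟨⟨(hS.line a v hv).1.c1, (hS.line a v hv).1.hom⟩, (hS.line a v hv).2.1,
      (hS.line a v hv).1.ne⟩, fun a v hv => congrArg Prod.fst (hS.line a v hv).2.2,
      fun a v c hv hc => by
        simpa only [rt_zero, one_smul, hat_zero] using
          tr a.1 a.1 0 c v (fun s => (hac _).symm) hc hv a.2⟩
  have h11 : ∀ c : ℂ, ((1, c) : W) ≠ 0 := fun c e => one_ne_zero (congrArg Prod.fst e)
  classical
  let H : List Zp → (ℕ → ℝ) → ℝ → W → Mat := fun σ t s v =>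
    if h : σ ≠ [] ∧ σ.length ≤ N + 1 then
      pr (Y ((⟨σ, h⟩, cl t), projIcc 0 1 zero_le_one s) v (1, 1)) else 0
  have hH : ∀ σ t s v (h : σ ≠ [] ∧ σ.length ≤ N + 1), H σ t s v =
      pr (Y ((⟨σ, h⟩, cl t), projIcc 0 1 zero_le_one s) v (1, 1)) := fun σ t s v h => dif_pos h
  refine ⟨{ H := H, mem := ?_, cont := ?_, inj := ?_, equiv := ?_, face1 := ?_, face0 := ?_
            dep := ?_, start := ?_, stop := ?_, near0 := ?_, nearInf := ?_ }⟩
  · intro σ t s v h hv
    exact ⟨_, (hR.emb _ v hv).2.2 _ (h11 1), hH σ t s v ⟨h.1, h.2.1⟩⟩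
  · intro σ h1 h2
    rw [continuousOn_iff_continuous_domRestrict]
    obtain ⟨σ', hσ'⟩ : ∃ σ' : LN N, σ' = ⟨σ, h1, h2⟩ := ⟨_, rfl⟩
    have c0 : Continuous fun q : (cube ×ˢ Icc (0 : ℝ) 1 ×ˢ ({0}ᶜ : Set W) :
        Set ((ℕ → ℝ) × ℝ × W)) => (((((σ', cl q.1.1), projIcc 0 1 zero_le_one q.1.2.1),
          ⟨q.1.2.2, q.2.2.2⟩), (1, 1)) : (((LN N × Cb) × UI) × ({0}ᶜ : Set W)) × W) :=
      (((continuous_const.prodMk (continuous_cl.comp (by fun_prop))).prodMk
        (continuous_projIcc.comp (by fun_prop))).prodMk (by fun_prop)).prodMk continuous_const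
    have c1 := hS.fam.jc.comp_continuous c0 fun _ => ⟨mem_univ _, h11 1⟩
    subst hσ'
    refine (continuousOn_pr_Glue.comp_continuous c1
      fun q => (hR.emb _ _ q.2.2.2).2.2 _ (h11 1)).congr fun q => ?_
    exact (hH σ _ _ _ ⟨h1, h2⟩).symm
  · intro σ t s v c c' h hv hc hc' e
    rw [hH σ t s _ ⟨h.1, h.2.1⟩, hH σ t s _ ⟨h.1, h.2.1⟩, hR.par _ v c hv hc,
      hR.par _ v c' hv hc'] at e
    obtain ⟨b1, b2, b3⟩ := hR.emb ((⟨σ, h.1, h.2.1⟩, cl t), projIcc 0 1 zero_le_one s) v hv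
    obtain ⟨d, hd, e⟩ := exists_smul_of_pr_eq (b3 _ (h11 c)) (b3 _ (h11 c')) e
    rw [← b1.2] at e
    have e' := b2.inj (h11 c) (smul_ne_zero hd (h11 c')) e
    have e1 : (1 : ℂ) = d * 1 := congrArg Prod.fst e'
    have e2 : c = d * c' := congrArg Prod.snd e'
    rw [e2, ← mul_one d, ← e1, one_mul]
  · intro σ t s v k h hv
    have h' : σ.map (k + ·) ≠ [] ∧ (σ.map (k + ·)).length ≤ N + 1 :=
      ⟨by simpa using h.1, by simpa using h.2.1⟩
    rw [hH _ t s _ h', hH σ t s _ ⟨h.1, h.2.1⟩, ← pr_hat_Glue,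
      ← tr (⟨σ, h.1, h.2.1⟩, cl t) (⟨_, h'⟩, cl t) k 1 v (fun s => hQ.equiv σ k _ h.1)
        one_ne_zero hv, one_smul]
  · intro σ t s v i h hv hi ht
    have h' : σ.eraseIdx i ≠ [] ∧ (σ.eraseIdx i).length ≤ N + 1 := by
      have e : (σ.eraseIdx i).length = σ.length - 1 := List.length_eraseIdx_of_lt (by omega)
      have := h.2.1
      exact ⟨List.length_pos_iff.1 (by omega), by omega⟩
    rw [hH _ _ s _ h', hH σ t s _ ⟨h.1, h.2.1⟩,
      tr0 (⟨_, h'⟩, cl (skip i t)) (⟨σ, h.1, h.2.1⟩, cl t) v (fun s => ?_) hv]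
    rw [cl_skip]
    exact hQ.face1 σ _ s i hi (by simp only [cl, ht, projIcc_right]; rfl)
  · intro σ t s v i h hv ht
    have h' : σ.take (i + 1) ≠ [] ∧ (σ.take (i + 1)).length ≤ N + 1 :=
      ⟨by simpa using h.1, (List.length_take_le' _ _).trans h.2.1⟩
    rw [hH _ _ s _ h', hH σ t s _ ⟨h.1, h.2.1⟩,
      tr0 (⟨_, h'⟩, cl t) (⟨σ, h.1, h.2.1⟩, cl t) v (fun s => ?_) hv]
    exact hQ.face0 σ _ s i h.1 (by simp only [cl, ht, projIcc_left]; rfl)
  · intro σ t t' s v h _ hv ht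
    rw [hH σ t' s _ ⟨h.1, h.2.1⟩, hH σ t s _ ⟨h.1, h.2.1⟩,
      tr0 (⟨σ, h.1, h.2.1⟩, cl t') (⟨σ, h.1, h.2.1⟩, cl t) v (fun s => ?_) hv]
    exact hQ.dep σ _ _ s fun i hi => by simp only [cl, ht i hi]
  · intro σ t v h hv
    rw [hH σ t 0 _ ⟨h.1, h.2.1⟩, projIcc_left]
    refine congrArg pr (k2 _ f F F' hL (fun y hy u => ?_) v hv)
    rw [hφJ _ _ (hL.ne hy)]
    have e : om (((⟨σ, h.1, h.2.1⟩ : LN N), cl t), 0) = om0 := hQ.start _ _
    rw [e]
    exact hJ.start y hy u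
  · intro σ t h
    obtain ⟨L, hL1, hL2⟩ := k3 (⟨σ, h.1, h.2.1⟩, cl t)
    refine ⟨L, hL1, fun v hv => ?_⟩
    rw [hH σ t 1 _ ⟨h.1, h.2.1⟩, projIcc_right]
    exact congrArg pr (hL2 v hv)
  · intro r hr
    obtain ⟨τ, hτ, h⟩ := hN hC _ Y hR r hr
    exact ⟨τ, hτ, fun σ t s a x y l hA ha h1 h2 h3 h4 => h _ a x y l ha h1 h2
      (fun k => (hH σ t s _ ⟨hA.1, hA.2.1⟩).symm.trans (h3 k))
      ((hH σ t s _ ⟨hA.1, hA.2.1⟩).symm.trans h4)⟩
  · intro r
    obtain ⟨R, h⟩ := hN' hC _ Y hR r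
    exact ⟨R, fun σ t s b x y l hA hb h1 h2 h2' h3 h4 => h _ b x y l hb h1 h2 h2'
      (fun k => (hH σ t s _ ⟨hA.1, hA.2.1⟩).symm.trans (h3 k))
      ((hH σ t s _ ⟨hA.1, hA.2.1⟩).symm.trans h4)⟩

theorem asm_Glue (h1 : ScaleStmt) (h2 : LiftFStmt) (h3 : FormsStmt) (h4 : CubeStmt)
    (h5 : JFamStmt) (h6 : FrameStmt) (h7 : KeyStmt) (h8 : Near0Stmt) (h9 : NearInfStmt)
    (hC : ChordStmt) : GlueStmt := by
  intro hCore hF hG hU hLin l hl hc
  have := h1 l hl hc
  obtain ⟨f, f', hs, s1, s2, s3, s4⟩ := hF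
  obtain ⟨F, F', hL⟩ := h2 f f' hs s1 s2 s3 s4
  obtain ⟨ac, om0, om1, hFo⟩ := h3 f F F' hL
  obtain ⟨Q, hQ⟩ := h4 (Symp 1) ac om0 om1 hFo.cont hFo.zero hFo.add hFo.fix0 hFo.fix1
  obtain ⟨J, hJ⟩ := h5 f F F' ac om0 om1 hL hFo
  exact hCore f hs (family_Glue hG hU hLin h6 h7 h8 h9 hC hL hFo.zero hJ hQ)

end Pool.Agent.MP_2fc7fa_gt.N

end
end

section

/-! Linear algebra in dimension four: the almost complex structure of a metric and a form. -/

open scoped ContDiff ComplexConjugate Topology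
open Set Complex Filter Metric

noncomputable section

namespace Pool.Agent.MP_2fc7fa_gt.N

theorem basis_AJAlg {E : Type} [AddCommGroup E] [Module ℝ E] [FiniteDimensional ℝ E]
    (hd : Module.finrank ℝ E = 6) (g : E →ₗ[ℝ] E →ₗ[ℝ] ℝ) (hs : ∀ u v, g u v = g v u)
    (hp : ∀ v, v ≠ 0 → 0 < g v v) {x x' : E} (h1 : g x x = 1) (h2 : g x x' = 0)
    (h3 : g x' x' = 1) :
    ∃ b : Module.Basis (Fin 6) ℝ E, b 0 = x ∧ b 1 = x' ∧ ∀ v i, b.repr v i = g (b i) v := by
  let c : InnerProductSpace.Core ℝ E :=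
    { inner := fun u v => g u v
      conj_inner_symm := fun u v => hs v u
      re_inner_nonneg := fun v => by
        by_cases h : v = 0
        · simp [h]
        · exact (hp v h).le
      add_left := fun u v w => by simp
      smul_left := fun u v r => by simp
      definite := fun v h => by_contra fun h' => (hp v h').ne' h }
  let : NormedAddCommGroup E := InnerProductSpace.Core.toNormedAddCommGroup (𝕜 := ℝ)
  let : InnerProductSpace ℝ E := InnerProductSpace.ofCore inferInstance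
  have hv : Orthonormal ℝ (({0, 1} : Set (Fin 6)).domRestrict ![x, x', 0, 0, 0, 0]) := by
    rw [orthonormal_iff_ite]
    rintro ⟨i, rfl | rfl⟩ ⟨j, rfl | rfl⟩
    exacts [h1, h2, (hs _ _).trans h2, h3]
  obtain ⟨b, hb⟩ := hv.exists_orthonormalBasis_extension_of_card_eq (by simpa using hd)
  exact ⟨b.toBasis, hb 0 (by simp), hb 1 (by simp), fun v i => b.repr_apply_apply v i⟩

/-- The general skew matrix with vanishing first two rows. -/
def mat_AJAlg (a b c d e f : ℝ) : Matrix (Fin 6) (Fin 6) ℝ :=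
  !![0, 0, 0, 0, 0, 0; 0, 0, 0, 0, 0, 0; 0, 0, 0, -a, -b, -c; 0, 0, a, 0, -d, -e;
    0, 0, b, d, 0, -f; 0, 0, c, e, f, 0]

theorem sq_AJAlg (a b c d e f : ℝ) : mat_AJAlg a b c d e f ^ 2 =
    !![0, 0, 0, 0, 0, 0; 0, 0, 0, 0, 0, 0;
      0, 0, -(a * a + b * b + c * c), -(b * d + c * e), a * d - c * f, a * e + b * f;
      0, 0, -(b * d + c * e), -(a * a + d * d + e * e), -(a * b + e * f), d * f - a * c;
      0, 0, a * d - c * f, -(a * b + e * f), -(b * b + d * d + f * f), -(b * c + d * e);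
      0, 0, a * e + b * f, d * f - a * c, -(b * c + d * e), -(c * c + e * e + f * f)] := by
  rw [sq]
  ext i j
  fin_cases i <;> fin_cases j <;> simp [mat_AJAlg, Matrix.mul_apply, Fin.sum_univ_six] <;> ring

theorem four_AJAlg (a b c d e f : ℝ) : mat_AJAlg a b c d e f ^ 4 =
    -((a * a + b * b + c * c + d * d + e * e + f * f) • mat_AJAlg a b c d e f ^ 2) -
      (a * f - b * e + c * d) ^ 2 • Matrix.diagonal ![0, 0, 1, 1, 1, 1] := by
  rw [show 4 = 2 * 2 from rfl, pow_mul, sq_AJAlg, sq]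
  ext i j
  fin_cases i <;> fin_cases j <;> simp [Matrix.mul_apply, Fin.sum_univ_six] <;> ring

theorem coord_AJAlg {g o : Bil} {x x' : V} (h : Ok g o x x') {A : Op}
    (hA : ∀ u v, g (A u) v = o u v) : 0 < pf2 A ∧ 0 ≤ sgm A ∧
      ∀ v, A (A (A (A v))) = -(sgm A • A (A v)) - pf2 A • (v - g x v • x - g x' v • x') := by
  obtain ⟨b, b0, b1, hb⟩ := basis_AJAlg (E := V) (by simp [Module.finrank_pi_fintype])
    g.toLinearMap₁₂ h.symm h.pos h.xx h.xx' h.x'x'
  replace hb : ∀ v i, b.repr v i = g (b i) v := hb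
  have hz : ∀ v, o v v = 0 := fun v => by linarith [h.skew v v]
  have k0 : ∀ v, o (b 0) v = 0 := b0 ▸ h.ker
  have k1 : ∀ v, o (b 1) v = 0 := b1 ▸ h.ker'
  have k0' : ∀ v, o v (b 0) = 0 := fun v => by rw [h.skew, k0, neg_zero]
  have k1' : ∀ v, o v (b 1) = 0 := fun v => by rw [h.skew, k1, neg_zero]
  have sk := fun i j => h.skew (b i) (b j)
  have hM : LinearMap.toMatrixAlgEquiv b (A : V →ₗ[ℝ] V) = mat_AJAlg (o (b 2) (b 3))
      (o (b 2) (b 4)) (o (b 2) (b 5)) (o (b 3) (b 4)) (o (b 3) (b 5)) (o (b 4) (b 5)) := by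
    ext i j
    rw [LinearMap.toMatrixAlgEquiv_apply, hb, h.symm, ContinuousLinearMap.coe_coe, hA]
    fin_cases i <;> fin_cases j <;> simp [mat_AJAlg, k0, k1, k0', k1', hz, sk 3 2, sk 4 2, sk 5 2,
      sk 4 3, sk 5 3, sk 5 4]
  have ho : ∀ u v, o u v = ∑ i, ∑ j, b.repr u i * b.repr v j * o (b i) (b j) := fun u v => by
    conv_lhs => rw [← b.sum_repr u, ← b.sum_repr v]
    simp only [map_sum, map_smul, sum_apply, smul_apply, smul_eq_mul, Finset.mul_sum, mul_assoc]
    rw [Finset.sum_comm]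
    simp only [mul_left_comm]
  have hP : o (b 2) (b 3) * o (b 4) (b 5) - o (b 2) (b 4) * o (b 3) (b 5) +
      o (b 2) (b 5) * o (b 3) (b 4) ≠ 0 := fun e => by
    obtain ⟨u, v, w, z, hn⟩ := h.nondeg
    apply hn
    rw [ho u v, ho w z, ho u w, ho v z, ho u z, ho v w]
    simp only [Fin.sum_univ_six, k0, k1, k0', k1', hz, sk 3 2, sk 4 2, sk 5 2, sk 4 3, sk 5 3,
      sk 5 4]
    generalize b.repr u = u, b.repr v = v, b.repr w = w, b.repr z = z
    linear_combination ((u 2 * v 3 - u 3 * v 2) * (w 4 * z 5 - w 5 * z 4) -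
      (u 2 * v 4 - u 4 * v 2) * (w 3 * z 5 - w 5 * z 3) +
      (u 2 * v 5 - u 5 * v 2) * (w 3 * z 4 - w 4 * z 3) +
      (u 3 * v 4 - u 4 * v 3) * (w 2 * z 5 - w 5 * z 2) -
      (u 3 * v 5 - u 5 * v 3) * (w 2 * z 4 - w 4 * z 2) +
      (u 4 * v 5 - u 5 * v 4) * (w 2 * z 3 - w 3 * z 2)) * e
  generalize o (b 2) (b 3) = p, o (b 2) (b 4) = q, o (b 2) (b 5) = r, o (b 3) (b 4) = s,
    o (b 3) (b 5) = t, o (b 4) (b 5) = w at hM hP
  have ht : ∀ n, trc (A ^ n) = (mat_AJAlg p q r s t w ^ n).trace := fun n => by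
    rw [trc, LinearMap.trace_eq_matrix_trace ℝ b, ← hM, ← map_pow,
      ContinuousLinearMap.toLinearMap_pow]
    rfl
  have h1 : sgm A = p * p + q * q + r * r + s * s + t * t + w * w := by
    rw [sgm, ht, sq_AJAlg]
    simp [Matrix.trace, Fin.sum_univ_six]
    ring
  have h2 : pf2 A = (p * w - q * t + r * s) ^ 2 := by
    rw [pf2, h1, ht, four_AJAlg, sq_AJAlg]
    simp [Matrix.trace, Fin.sum_univ_six]
    ring
  have h3 : LinearMap.toMatrixAlgEquiv b (1 - (g x : V →ₗ[ℝ] ℝ).smulRight x -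
      (g x' : V →ₗ[ℝ] ℝ).smulRight x') = Matrix.diagonal ![0, 0, 1, 1, 1, 1] := by
    ext i j
    rw [LinearMap.toMatrixAlgEquiv_apply, ← b0, ← b1]
    fin_cases i <;> fin_cases j <;> simp [← hb]
  refine ⟨by rw [h2]; positivity, by
    rw [h1]
    nlinarith [mul_self_nonneg p, mul_self_nonneg q, mul_self_nonneg r, mul_self_nonneg s,
      mul_self_nonneg t, mul_self_nonneg w], fun v => ?_⟩
  have h4 := four_AJAlg p q r s t w
  rw [← hM, ← h1, ← h2, ← h3, ← map_pow, ← map_pow, ← map_smul, ← map_smul, ← map_neg, ← map_sub,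
    EmbeddingLike.apply_eq_iff_eq] at h4
  simpa [pow_succ] using LinearMap.congr_fun h4 v

theorem jAlgS : JAlgStmt := by
  intro g o x x' h hA
  obtain ⟨h1, h2, h3⟩ := coord_AJAlg h hA
  have hJ : ∀ v, Jp (g, o, x, x') v = Jh (Aop (g, o, x, x')) v + g x v • x' - g x' v • x :=
    fun _ => rfl
  simp only [hJ]
  generalize Aop (g, o, x, x') = A at *
  have nd : ∀ u, (∀ v, g u v = 0) → u = 0 := fun u hu => by_contra fun h' => (h.pos u h').ne' (hu u)
  have a0 : A x = 0 := nd _ fun v => by rw [hA, h.ker]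
  have a1 : A x' = 0 := nd _ fun v => by rw [hA, h.ker']
  have o0 : ∀ v, o v x = 0 := fun v => by rw [h.skew, h.ker, neg_zero]
  have o1 : ∀ v, o v x' = 0 := fun v => by rw [h.skew, h.ker', neg_zero]
  have g0 : ∀ v, g x (A v) = 0 := fun v => by rw [h.symm, hA, o0]
  have g1 : ∀ v, g x' (A v) = 0 := fun v => by rw [h.symm, hA, o1]
  have x'x : g x' x = 0 := (h.symm _ _).trans h.xx'
  obtain ⟨P, hP, eP⟩ : ∃ P : ℝ, 0 < P ∧ √(pf2 A) = P := ⟨_, Real.sqrt_pos.2 h1, rfl⟩
  obtain ⟨c, hc, ec⟩ : ∃ c : ℝ, 0 < c ∧ √(sgm A + 2 * P) = c :=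
    ⟨_, Real.sqrt_pos.2 (by positivity), rfl⟩
  have hK : ∀ v, Jh A v = c⁻¹ • (A v + P⁻¹ • (A (A (A v)) + sgm A • A v)) := fun v => by
    simp [Jh, eP, ec, pow_succ]
  have e1 : pf2 A = P * P := by rw [← eP, Real.mul_self_sqrt h1.le]
  have e2 : sgm A = c * c - 2 * P := by
    rw [← ec, Real.mul_self_sqrt (by positivity)]
    ring
  have hAK : ∀ v, A (Jh A v) = c⁻¹ • (A (A v) - P • (v - g x v • x - g x' v • x')) := fun v => by
    simp only [hK, map_smul, map_add, h3, e1]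
    match_scalars <;> field_simp <;> ring
  have j0 : ∀ v, g x (Jh A v) = 0 := fun v => by simp [hK, g0]
  have j1 : ∀ v, g x' (Jh A v) = 0 := fun v => by simp [hK, g1]
  have jx : Jh A x = 0 := by simp [hK, a0]
  have jx' : Jh A x' = 0 := by simp [hK, a1]
  have jj : ∀ v, Jh A (Jh A v) = -(v - g x v • x - g x' v • x') := fun v => by
    rw [hK, hAK]
    simp only [map_smul, map_sub, h3, a0, a1, e1, e2, map_zero]
    match_scalars <;> field_simp <;> ring
  refine ⟨h1, h2, fun v => ?_, by simp [jx, h.xx, x'x], by simp [jx', h.xx', h.x'x'],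
    fun v hv => ?_, fun v => ?_⟩
  · simp only [map_add, map_sub, map_smul, jj, jx, jx', j0, j1, h.xx, h.xx', x'x, h.x'x',
      smul_eq_mul]
    module
  · have h4 := h.pos (v - g x v • x - g x' v • x') fun e => hv (g x v) (g x' v) (by
      rwa [sub_sub, sub_eq_zero] at e)
    have h5 : 0 ≤ g (A v) (A v) := by
      by_cases e : A v = 0
      · simp [e]
      · exact (h.pos _ e).le
    have h6 : g (A (A v)) v = -g (A v) (A v) := by rw [hA, h.skew, ← hA]
    rw [map_sub, map_add, map_smul, map_smul, o0, o1, h.skew, ← hA, hAK]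
    simp only [map_smul, map_sub, smul_apply, sub_apply,
      smul_eq_mul, h.xx, h.xx', x'x, h.x'x', h.symm v x, h.symm v x', h6] at h4 ⊢
    nlinarith [mul_nonneg (inv_pos.2 hc).le h5, mul_pos (inv_pos.2 hc) (mul_pos hP h4)]
  · rw [h.symm v x, h.symm v x', h.symm _ x, h.symm _ x']
    simp [j0, j1, h.xx, h.xx', x'x, h.x'x']

end Pool.Agent.MP_2fc7fa_gt.N

end
end

section

/-! Frames that depend naturally on a path of almost complex structures. -/

open scoped ContDiff ComplexConjugate Topology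
open Set Complex Filter Metric

noncomputable section

namespace Pool.Agent.MP_2fc7fa_gt.N

/-- The intertwiner of two close complex structures. -/
def pm_AFrame (J J' : Op) : Op := (1 / 2 : ℝ) • (1 - J * J')

theorem pm_apply_AFrame (J J' : Op) (v : V) :
    pm_AFrame J J' v = (1 / 2 : ℝ) • (v - J (J' v)) := rfl

theorem pm_inter_AFrame {J J' : Op} (h : ∀ v, J (J v) = -v) (h' : ∀ v, J' (J' v) = -v) (v : V) :
    J (pm_AFrame J J' v) = pm_AFrame J J' (J' v) := by
  rw [pm_apply_AFrame, pm_apply_AFrame, map_smul, map_sub, h, h', map_neg]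
  congr 1
  abel

theorem pm_unit_AFrame {J J' : Op} (h : ∀ v, J (J v) = -v) (hn : ‖J‖ * ‖J' - J‖ < 2) :
    IsUnit (pm_AFrame J J') := by
  have e : pm_AFrame J J' = 1 - (1 / 2 : ℝ) • (J * (J' - J)) := by
    ext1 v
    have : (1 - (1 / 2 : ℝ) • (J * (J' - J))) v = v - (1 / 2 : ℝ) • J (J' v - J v) := rfl
    rw [this, pm_apply_AFrame, map_sub, h]
    module
  have h1 : ‖(1 / 2 : ℝ) • (J * (J' - J))‖ < 1 := by
    rw [norm_smul, Real.norm_of_nonneg (by norm_num)]
    linarith [norm_mul_le J (J' - J)]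
  rw [e]
  exact (Units.oneSub _ h1).isUnit

/-- The product of the intertwiners along a chain. -/
def bp_AFrame (K : ℕ → Op) : ℕ → Op
  | 0 => 1
  | n + 1 => bp_AFrame K n * pm_AFrame (K n) (K (n + 1))

theorem bp_succ_AFrame (K : ℕ → Op) (n : ℕ) (v : V) :
    bp_AFrame K (n + 1) v = bp_AFrame K n (pm_AFrame (K n) (K (n + 1)) v) := rfl

theorem bp_inter_AFrame {K : ℕ → Op} (h : ∀ i v, K i (K i v) = -v) (n : ℕ) (v : V) :
    K 0 (bp_AFrame K n v) = bp_AFrame K n (K n v) := by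
  induction n generalizing v with
  | zero => rfl
  | succ n ih => rw [bp_succ_AFrame, bp_succ_AFrame, ih, pm_inter_AFrame (h n) (h (n + 1))]

theorem bp_unit_AFrame {K : ℕ → Op} (h : ∀ i v, K i (K i v) = -v)
    (hn : ∀ i, ‖K i‖ * ‖K (i + 1) - K i‖ < 2) (n : ℕ) : IsUnit (bp_AFrame K n) := by
  induction n with
  | zero => exact isUnit_one
  | succ n ih => exact ih.mul (pm_unit_AFrame (h n) (hn n))

theorem bp_nat_AFrame {K K' : ℕ → Op} {T : Op} (h : ∀ i v, K' i (T v) = T (K i v)) (n : ℕ) (v : V) :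
    bp_AFrame K' n (T v) = T (bp_AFrame K n v) := by
  induction n generalizing v with
  | zero => rfl
  | succ n ih =>
    rw [bp_succ_AFrame, bp_succ_AFrame, ← ih, pm_apply_AFrame, pm_apply_AFrame, h, h, map_smul T,
      map_sub T]

theorem bp_vert_AFrame {K : ℕ → Op} {x : V} (h : ∀ i (c : ℂ), K i (c • x) = I • c • x) (n : ℕ)
    (c : ℂ) : bp_AFrame K n (c • x) = c • x := by
  induction n with
  | zero => rfl
  | succ n ih =>
    have e : pm_AFrame (K n) (K (n + 1)) (c • x) = c • x := by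
      rw [pm_apply_AFrame, h, smul_smul, h, smul_smul, ← mul_assoc, I_mul_I, neg_mul, one_mul,
        neg_smul]
      module
    rw [bp_succ_AFrame, e, ih]

theorem bp_sm_AFrame {P : Type} [TopologicalSpace P] {U : Set V} {K : ℕ → P → V → Op}
    (h : ∀ i, Sm U (K i)) (n : ℕ) : Sm U fun p x => bp_AFrame (fun i => K i p x) n := by
  induction n with
  | zero => exact sm_const (c := fun _ => (1 : Op)) continuous_const
  | succ n ih =>
    have hg : ContDiff ℝ ∞ fun q : Op × Op × Op => q.1 * pm_AFrame q.2.1 q.2.2 := by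
      unfold pm_AFrame
      fun_prop
    exact (ih.prod ((h n).prod (h (n + 1)))).post' hg

/-- A uniform step size. -/
theorem step_AFrame {P : Type} [TopologicalSpace P] [CompactSpace P] {J : P × UI → V → Op}
    (hJ : JC {0}ᶜ J)
    (hs : ∀ a x, x ≠ 0 → ∀ c : ℂ, c ≠ 0 → ∀ v, J a (c • x) (c • v) = c • J a x v) :
    ∃ δ : ℝ, 0 < δ ∧ ∀ s s' : UI, dist s s' < δ → ∀ p x, x ≠ 0 →
      ‖J (p, s) x‖ * ‖J (p, s') x - J (p, s) x‖ < 2 := by
  have hne : ∀ y : sphere (0 : V) 1, (y : V) ≠ 0 := fun y => ne_zero_of_mem_unit_sphere y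
  have hc : Continuous fun q : (P × UI) × sphere (0 : V) 1 => J q.1 q.2 :=
    ContinuousOn.comp_continuous (f := fun q : (P × UI) × sphere (0 : V) 1 => (q.1, (q.2 : V))) hJ
      (by fun_prop) fun q => ⟨mem_univ _, hne _⟩
  have h1 : Continuous fun q : (UI × UI) × P × sphere (0 : V) 1 => J (q.2.1, q.1.1) q.2.2 :=
    hc.comp (f := fun q : (UI × UI) × P × sphere (0 : V) 1 => ((q.2.1, q.1.1), q.2.2)) (by fun_prop)
  have h2 : Continuous fun q : (UI × UI) × P × sphere (0 : V) 1 => J (q.2.1, q.1.2) q.2.2 :=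
    hc.comp (f := fun q : (UI × UI) × P × sphere (0 : V) 1 => ((q.2.1, q.1.2), q.2.2)) (by fun_prop)
  have h3 : IsClosed (Prod.fst '' {q : (UI × UI) × P × sphere (0 : V) 1 |
      2 ≤ ‖J (q.2.1, q.1.1) q.2.2‖ * ‖J (q.2.1, q.1.2) q.2.2 - J (q.2.1, q.1.1) q.2.2‖}) :=
    isClosedMap_fst_of_compactSpace _ (isClosed_le continuous_const (h1.norm.mul (h2.sub h1).norm))
  have h4 := h3.isOpen_compl.mem_nhdsSet.2 (show diagonal UI ⊆ _ from by
    rintro ⟨s, s'⟩ (rfl : s = s') ⟨⟨a, q⟩, hq, rfl⟩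
    norm_num at hq)
  rw [nhdsSet_diagonal_eq_uniformity, Metric.mem_uniformity_dist] at h4
  obtain ⟨δ, hδ, h5⟩ := h4
  refine ⟨δ, hδ, fun s s' hd p x hx => ?_⟩
  have hn : ‖x‖ ≠ 0 := norm_ne_zero_iff.2 hx
  have e : ∀ a, J a ((‖x‖⁻¹ : ℝ) • x) = J a x := fun a => by
    ext1 v
    have h6 := hs a x hx ((‖x‖⁻¹ : ℝ) : ℂ) (ofReal_ne_zero.2 (inv_ne_zero hn)) v
    rw [coe_smul, coe_smul, coe_smul, map_smul] at h6
    exact smul_right_injective V (inv_ne_zero hn) h6
  by_contra h7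
  refine h5 hd ⟨((s, s'), p, ⟨(‖x‖⁻¹ : ℝ) • x, by simp [norm_smul, hn]⟩), ?_, rfl⟩
  simpa only [mem_ofPred_eq, e] using not_lt.1 h7

theorem frameS : FrameStmt := by
  intro P _ _ J hJ hsq hv hs h1
  obtain ⟨δ, hδ, hstep⟩ := step_AFrame hJ.jc hs
  obtain ⟨m, hm⟩ := exists_nat_one_div_lt hδ
  have hm0 : (0 : ℝ) < (m : ℝ) + 1 := by positivity
  let t : ℕ → UI := fun i => projIcc 0 1 zero_le_one ((i : ℝ) / (m + 1))
  have t0 : t 0 = 0 := by
    simp only [t, Nat.cast_zero, zero_div]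
    exact projIcc_left _
  have t1 : t (m + 1) = 1 := by
    simp only [t, Nat.cast_succ, div_self hm0.ne']
    exact projIcc_right _
  have td : ∀ (s : UI) i, dist (max s (t i)) (max s (t (i + 1))) < δ := fun s i => by
    have h2 : |((t i : UI) : ℝ) - t (i + 1)| ≤ |(i : ℝ) / (m + 1) - ((i + 1 : ℕ) : ℝ) / (m + 1)| :=
      Set.abs_projIcc_sub_projIcc _
    have h3 : |(i : ℝ) / (m + 1) - ((i + 1 : ℕ) : ℝ) / (m + 1)| = 1 / (m + 1) := by
      rw [← sub_div, Nat.cast_succ, sub_add_cancel_left, abs_div, abs_neg, abs_one, abs_of_pos hm0]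
    have h4 : ∀ a b : UI, ((max a b : UI) : ℝ) = max (b : ℝ) a := fun a b => by
      rw [max_comm]
      exact Subtype.mono_coe _ |>.map_max
    rw [Subtype.dist_eq, Real.dist_eq, h4, h4]
    exact (abs_max_sub_max_le_abs _ _ _).trans_lt (h2.trans_lt (h3 ▸ hm))
  let K : ℕ → P × UI → V → Op := fun i a => J (a.1, max a.2 (t i))
  let B : P × UI → V → Op := fun a x => bp_AFrame (fun i => K i a x) (m + 1)
  have hB : Sm {0}ᶜ B := bp_sm_AFrame (fun i => hJ.param (by fun_prop)) _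
  have hu : ∀ a x, x ≠ 0 → IsUnit (B a x) := fun a x hx =>
    bp_unit_AFrame (fun i => hsq _ x hx) (fun i => hstep _ _ (td a.2 i) a.1 x hx) _
  have hA : Sm {0}ᶜ fun a x => Ring.inverse (B a x) :=
    hB.post (W := {u : Op | IsUnit u}) Units.isOpen
      (fun u hu => by
        obtain ⟨u, rfl⟩ := hu
        exact (contDiffAt_ringInverse ℝ u).contDiffWithinAt) fun a x hx => hu a x hx
  have hU : UniqueDiffOn ℝ ({0}ᶜ : Set V) := isOpen_compl_singleton.uniqueDiffOn
  have hBA : ∀ a x, x ≠ 0 → ∀ v, B a x (Ring.inverse (B a x) v) = v := fun a x hx v =>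
    congrArg (fun L : Op => L v) (Ring.mul_inverse_cancel _ (hu a x hx))
  refine ⟨fun a =>
    { B := B a
      A := fun x => Ring.inverse (B a x)
      smoothB := hB.contDiffOn hU a
      smoothA := hA.contDiffOn hU a
      AB := fun x hx v => congrArg (fun L : Op => L v) (Ring.inverse_mul_cancel _ (hu a x hx))
      BA := hBA a
      vert := fun x hx c => bp_vert_AFrame (fun i => hv _ x hx) _ c
      scale := fun x hx c hc v => bp_nat_AFrame
        (T := ((c • ContinuousLinearMap.id ℂ V).restrictScalars ℝ : Op))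
        (fun i => hs _ x hx c hc) _ v }, fun n => ⟨hB n, hA n⟩, fun a x hx v => ?_,
    fun p p' x x' T hT s v => bp_nat_AFrame (fun i => hT _) _ v⟩
  have h2 := bp_inter_AFrame (K := fun i => K i a x) (fun i => hsq _ x hx) (m + 1)
    (Ring.inverse (B a x) v)
  have h3 : K 0 a = J a := by simp only [K, t0, max_eq_left unitInterval.nonneg']
  have h4 : K (m + 1) a = J (a.1, 1) := by simp only [K, t1, max_eq_right unitInterval.le_one']
  simp only [h3, h4, h1 _ x hx] at h2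
  exact h2.symm.trans (congrArg _ (hBA a x hx v))

end Pool.Agent.MP_2fc7fa_gt.N

end
end

section

/-! Equivariant families of paths over cubes in a contractible space. -/

open scoped ContDiff ComplexConjugate Topology
open Set Complex Filter Metric

noncomputable section

namespace Pool.Agent.MP_2fc7fa_gt.N

/-- A contraction of the space of paths from `x₀` to `x₁`. -/
structure Con_ACube {X : Type} [TopologicalSpace X] (x₀ x₁ : X) (K : (UI → X) → UI → UI → X)
    (γ₀ : UI → X) : Prop where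
  cont0 : Continuous γ₀
  s0 : γ₀ 0 = x₀
  s1 : γ₀ 1 = x₁
  one : ∀ γ, K γ 1 = γ
  zero : ∀ γ, γ 0 = x₀ → γ 1 = x₁ → K γ 0 = γ₀
  k0 : ∀ γ τ, K γ τ 0 = γ 0
  k1 : ∀ γ τ, K γ τ 1 = γ 1
  cont : ∀ (Γ : Cb → UI → X) (τ : Cb → UI), Continuous (fun a : Cb × UI => Γ a.1 a.2) →
    Continuous τ → Continuous fun a : Cb × UI => K (Γ a.1) (τ a.1) a.2

theorem con_ACube {X : Type} [TopologicalSpace X] [ContractibleSpace X] (x₀ x₁ : X) :
    ∃ K γ₀, Con_ACube x₀ x₁ K γ₀ := by
  obtain ⟨y, ⟨H⟩⟩ := id_nullhomotopic X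
  let c := H.symm
  have c0 : ∀ x, c (0, x) = y := fun x => c.apply_zero x
  have c1 : ∀ x, c (1, x) = x := fun x => c.apply_one x
  let r : UI → UI → UI := fun τ s => projIcc 0 1 zero_le_one (τ * s + (1 - τ) * (3 * s - 1))
  let m : UI → UI → UI := fun τ s => projIcc 0 1 zero_le_one (max τ (max (1 - 3 * s) (3 * s - 2)))
  let K : (UI → X) → UI → UI → X := fun γ τ s => c (m τ s, γ (r τ s))
  have hr : Continuous fun a : UI × UI => r a.1 a.2 := continuous_projIcc.comp (by fun_prop)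
  have hm : Continuous fun a : UI × UI => m a.1 a.2 := continuous_projIcc.comp (by fun_prop)
  have k0 : ∀ γ τ, K γ τ 0 = γ 0 := by
    intro γ τ
    have a : m τ 0 = 1 := projIcc_of_right_le _ (le_max_of_le_right (le_max_of_le_left (by simp)))
    have b : r τ 0 = 0 := projIcc_of_le_left _ (by simpa using τ.2.2)
    simp only [K, a, b, c1]
  have k1 : ∀ γ τ, K γ τ 1 = γ 1 := by
    intro γ τ
    have a : m τ 1 = 1 :=
      projIcc_of_right_le _ (le_max_of_le_right (le_max_of_le_right (by norm_num)))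
    have b : r τ 1 = 1 := projIcc_of_right_le _ (by
      have := τ.2.2
      simp only [Icc.coe_one]
      linarith)
    simp only [K, a, b, c1]
  let γ₁ := PathConnectedSpace.somePath x₀ x₁
  refine ⟨K, K γ₁ 0, ?_, (k0 _ _).trans γ₁.source, (k1 _ _).trans γ₁.target, fun γ => ?_,
    fun γ h0 h1 => ?_, k0, k1, fun Γ τ hΓ hτ => ?_⟩
  · have e : Continuous fun s : UI => ((0 : UI), s) := by fun_prop
    exact c.continuous.comp ((hm.comp e).prodMk (γ₁.continuous.comp (hr.comp e)))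
  · funext s
    have a : m 1 s = 1 := projIcc_of_right_le _ (le_max_left _ _)
    have b : r 1 s = s := by simp [r]
    simp only [K, a, b, c1]
  · funext s
    rcases le_total (s : ℝ) (1 / 3) with h | h
    · have b : r 0 s = 0 := projIcc_of_le_left _ (by
        simp only [Icc.coe_zero]
        linarith)
      simp only [K, b, h0]
      rw [γ₁.source]
    rcases le_total (s : ℝ) (2 / 3) with h' | h'
    · have a : m 0 s = 0 :=
        projIcc_of_le_left _ (max_le le_rfl (max_le (by linarith) (by linarith)))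
      simp only [K, a, c0]
    · have b : r 0 s = 1 := projIcc_of_right_le _ (by
        simp only [Icc.coe_zero]
        linarith)
      simp only [K, b, h1]
      rw [γ₁.target]
  · have e : Continuous fun a : Cb × UI => (τ a.1, a.2) := by fun_prop
    exact c.continuous.comp ((hm.comp e).prodMk (hΓ.comp (continuous_fst.prodMk (hr.comp e))))

/-- The families of paths. -/
def Q_ACube {X : Type} (ac : Zp → X → X) (K : (UI → X) → UI → UI → X) (γ₀ : UI → X) :
    List Zp → Cb → UI → X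
  | [], _ => γ₀
  | [g], _ => ac g ∘ γ₀
  | g :: g' :: l, t => ac g ∘ K (ac (-g) ∘ Q_ACube ac K γ₀ (g' :: l) fun i => t (i + 1)) (t 0)

theorem Q_cons_ACube {X : Type} (ac : Zp → X → X) (K : (UI → X) → UI → UI → X) (γ₀ : UI → X)
    (g : Zp) {σ : List Zp} (h : σ ≠ []) (t : Cb) : Q_ACube ac K γ₀ (g :: σ) t =
      ac g ∘ K (ac (-g) ∘ Q_ACube ac K γ₀ σ fun i => t (i + 1)) (t 0) := by
  obtain ⟨g', l, rfl⟩ := List.exists_cons_of_ne_nil h
  rfl

theorem cubeS : CubeStmt := by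
  intro X _ _ ac x₀ x₁ hc h0 hadd f0 f1
  obtain ⟨K, γ₀, h⟩ := con_ACube x₀ x₁
  have start : ∀ σ t, Q_ACube ac K γ₀ σ t 0 = x₀ := by
    intro σ
    induction σ with
    | nil => exact fun _ => h.s0
    | cons g σ ih =>
      intro t
      rcases eq_or_ne σ [] with rfl | hσ
      · exact (congrArg (ac g) h.s0).trans (f0 g)
      · rw [Q_cons_ACube _ _ _ _ hσ, Function.comp_apply, h.k0, Function.comp_apply, ih, f0, f0]
  have stop : ∀ σ t, Q_ACube ac K γ₀ σ t 1 = x₁ := by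
    intro σ
    induction σ with
    | nil => exact fun _ => h.s1
    | cons g σ ih =>
      intro t
      rcases eq_or_ne σ [] with rfl | hσ
      · exact (congrArg (ac g) h.s1).trans (f1 g)
      · rw [Q_cons_ACube _ _ _ _ hσ, Function.comp_apply, h.k1, Function.comp_apply, ih, f1, f1]
  have cont : ∀ σ, Continuous fun a : Cb × UI => Q_ACube ac K γ₀ σ a.1 a.2 := by
    intro σ
    induction σ with
    | nil => exact h.cont0.comp continuous_snd
    | cons g σ ih =>
      rcases eq_or_ne σ [] with rfl | hσ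
      · exact (hc g).comp (h.cont0.comp continuous_snd)
      · simp only [Q_cons_ACube _ _ _ _ hσ]
        have e : Continuous fun a : Cb × UI => ((fun i => a.1 (i + 1) : Cb), a.2) := by fun_prop
        exact (hc g).comp (h.cont
          (fun t => ac (-g) ∘ Q_ACube ac K γ₀ σ fun i => t (i + 1)) (fun t => t 0)
          ((hc (-g)).comp (ih.comp e)) (continuous_apply 0))
  have equiv : ∀ k σ, σ ≠ [] → ∀ t,
      Q_ACube ac K γ₀ (σ.map (k + ·)) t = ac k ∘ Q_ACube ac K γ₀ σ t := by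
    intro k σ
    induction σ with
    | nil => exact fun h => absurd rfl h
    | cons g σ ih =>
      intro _ t
      rcases eq_or_ne σ [] with rfl | hσ
      · exact funext fun s => hadd k g _
      · rw [List.map_cons, Q_cons_ACube _ _ _ _ (mt List.map_eq_nil_iff.1 hσ),
          Q_cons_ACube _ _ _ _ hσ, ih hσ]
        have e : ∀ γ : UI → X, ac (-(k + g)) ∘ ac k ∘ γ = ac (-g) ∘ γ := fun γ =>
          funext fun s => by
            rw [Function.comp_apply, Function.comp_apply, ← hadd, neg_add_rev,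
              neg_add_cancel_right, Function.comp_apply]
        rw [e]
        exact funext fun s => hadd k g _
  have face1 : ∀ σ t i, i + 1 < σ.length → t i = 1 →
      Q_ACube ac K γ₀ σ t = Q_ACube ac K γ₀ (σ.eraseIdx i) (skip i t) := by
    intro σ
    induction σ with
    | nil => exact fun _ _ h => absurd h (by simp)
    | cons g σ ih =>
      intro t i hi ht
      rw [List.length_cons] at hi
      have hσ : σ ≠ [] := List.ne_nil_of_length_pos (by omega)
      rw [Q_cons_ACube _ _ _ _ hσ]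
      cases i with
      | zero =>
        rw [ht, h.one]
        funext s
        rw [Function.comp_apply, Function.comp_apply, ← hadd, add_neg_cancel, h0]
        rfl
      | succ j =>
        have hσ' : σ.eraseIdx j ≠ [] := List.ne_nil_of_length_pos (by
          rw [List.length_eraseIdx_of_lt (by omega)]
          omega)
        have e : (fun i => skip (j + 1) t (i + 1)) = skip j fun i => t (i + 1) := by
          funext i
          simp only [skip, Nat.add_lt_add_iff_right]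
        rw [List.eraseIdx_cons_succ, Q_cons_ACube _ _ _ _ hσ', e,
          ← ih (fun i => t (i + 1)) j (by omega) ht]
        rfl
  have face0 : ∀ σ t i, t i = 0 → Q_ACube ac K γ₀ σ t = Q_ACube ac K γ₀ (σ.take (i + 1)) t := by
    intro σ
    induction σ with
    | nil => exact fun _ _ _ => rfl
    | cons g σ ih =>
      intro t i ht
      rcases eq_or_ne σ [] with rfl | hσ
      · simp
      rw [Q_cons_ACube _ _ _ _ hσ, List.take_succ_cons]
      cases i with
      | zero =>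
        rw [ht, h.zero _ (by rw [Function.comp_apply, start, f0])
          (by rw [Function.comp_apply, stop, f1])]
        rfl
      | succ j =>
        have hσ' : σ.take (j + 1) ≠ [] := by simp [hσ]
        rw [Q_cons_ACube _ _ _ _ hσ', ← ih (fun i => t (i + 1)) j ht]
  have dep : ∀ σ t t', (∀ i, i + 1 < σ.length → t i = t' i) →
      Q_ACube ac K γ₀ σ t = Q_ACube ac K γ₀ σ t' := by
    intro σ
    induction σ with
    | nil => exact fun _ _ _ => rfl
    | cons g σ ih =>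
      intro t t' ht
      rcases eq_or_ne σ [] with rfl | hσ
      · rfl
      have hl := List.length_pos_of_ne_nil hσ
      rw [Q_cons_ACube _ _ _ _ hσ, Q_cons_ACube _ _ _ _ hσ,
        ht 0 (by rw [List.length_cons]; omega),
        ih (fun i => t (i + 1)) (fun i => t' (i + 1)) fun i hi =>
          ht (i + 1) (by rw [List.length_cons]; omega)]
  exact ⟨fun σ a => Q_ACube ac K γ₀ σ a.1 a.2, cont,
    fun σ k a hσ => congrFun (equiv k σ hσ a.1) a.2,
    fun σ t s i hi ht => congrFun (face1 σ t i hi ht) s,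
    fun σ t s i _ ht => congrFun (face0 σ t i ht) s,
    fun σ t t' s ht => congrFun (dep σ t t' ht) s, start, stop⟩

end Pool.Agent.MP_2fc7fa_gt.N

end
end

section

/-! Naturality of the lines through the base point, and the two ends. -/

open scoped ContDiff ComplexConjugate Topology
open Set Complex Filter Metric

noncomputable section

namespace Pool.Agent.MP_2fc7fa_gt.N

theorem dAt_AKey {J : V → V → V} {U : W → V} (hU : IsLine J U) {q : W} (hq : q ≠ 0) :
    DifferentiableAt ℝ U q :=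
  (hU.c1.contDiffAt (isOpen_compl_singleton.mem_nhds hq)).differentiableAt one_ne_zero

theorem fd_AKey {F F' : V → V} (h : HDiff F F') (g : W ≃L[ℂ] W) {J : V → V → V} {U : W → V}
    (hU : IsLine J U) {q : W} (hq : q ≠ 0) (k : W) :
    fderiv ℝ (fun q => F (U (g q))) q k = fderiv ℝ F (U (g q)) (fderiv ℝ U (g q) (g k)) := by
  have hg : g q ≠ 0 := g.map_ne_zero_iff.2 hq
  have h1 := (h.dAt (hU.ne _ hg)).hasFDerivAt.comp q
    ((dAt_AKey hU hg).hasFDerivAt.comp q (g.hasFDerivAt (x := q).restrictScalars ℝ))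
  exact congrArg (fun L : W →L[ℝ] V => L k) h1.fderiv

theorem line_AKey {F F' : V → V} (h : HDiff F F') (g : W ≃L[ℂ] W) {J J' : V → V → V} {U : W → V}
    (hU : IsLine J U)
    (hJ : ∀ x, x ≠ 0 → ∀ u, J' (F x) (fderiv ℝ F x u) = fderiv ℝ F x (J x u)) :
    IsLine J' fun q => F (U (g q)) where
  c1 := by
    have hg : MapsTo g ({0}ᶜ : Set W) {0}ᶜ := fun q hq => g.map_ne_zero_iff.2 hq
    exact (h.smooth.of_le (by exact_mod_cast le_top)).comp
      (hU.c1.comp (g.contDiff.restrict_scalars ℝ).contDiffOn hg) fun q hq => hU.ne _ (hg hq)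
  ne q hq := h.ne (hU.ne _ (g.map_ne_zero_iff.2 hq))
  hom c q := by rw [map_smul, hU.hom, h.hom]
  hol q hq k := by
    have hg : g q ≠ 0 := g.map_ne_zero_iff.2 hq
    rw [fd_AKey h g hU hq, fd_AKey h g hU hq, map_smul, hU.hol _ hg, hJ _ (hU.ne _ hg)]

theorem e1_AKey : ((1, 0) : W) ≠ 0 := by simp

theorem split_AKey {E : Type} [NormedAddCommGroup E] [NormedSpace ℂ E] (L : E →L[ℝ] V) (c : ℂ)
    (w : E) : L (c • w) = c.re • L w + c.im • L (I • w) := by
  rw [← map_smul, ← map_smul, ← map_add]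
  congr 1
  conv_lhs => rw [← re_add_im c, add_smul, mul_smul, Complex.coe_smul, Complex.coe_smul]

theorem hdiffL_AKey (T : V ≃L[ℂ] V) : HDiff T T.symm :=
  ⟨(T.contDiff.restrict_scalars ℝ).contDiffOn, (T.symm.contDiff.restrict_scalars ℝ).contDiffOn,
    T.symm_apply_apply, T.apply_symm_apply, T.map_smul⟩

theorem fderivL_AKey (T : V ≃L[ℂ] V) (x v : V) : fderiv ℝ T x v = T v :=
  congrArg (fun L : Op => L v) (T.hasFDerivAt (x := x).restrictScalars ℝ).fderiv

theorem vec_smul_AKey (c : ℂ) (v : W) : vec 0 (c • v) = c • vec 0 v := by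
  ext a
  fin_cases a <;> simp [vec]

theorem vec_add_AKey (v w : W) : vec 0 (v + w) = vec 0 v + vec 0 w := by
  ext a
  fin_cases a <;> simp [vec]

theorem vec_eq_zero_AKey {v : W} (h : vec 0 v = 0) : v = 0 :=
  Prod.ext (by simpa [vec] using congrFun h 1) (by simpa [vec] using congrFun h 2)

theorem keyS : KeyStmt := by
  intro hU hL P _ φ C Y hS
  refine ⟨fun p p' T c v v' hT hJ hC hc hv hvv s q => ?_, fun p f F F' hF hJ v hv => ?_,
    fun p => ?_⟩
  · have hv' : v' ≠ 0 := by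
      rintro rfl
      have h0 : vec 0 (0 : W) = 0 := by simpa using vec_smul_AKey 0 0
      rw [h0] at hvv
      exact smul_ne_zero hc hv (vec_eq_zero_AKey (T.map_eq_zero_iff.1 hvv.symm))
    let g : W ≃L[ℂ] W := (ContinuousLinearEquiv.refl ℂ ℂ).prodCongr
      (ContinuousLinearEquiv.unitsEquivAut ℂ (Units.mk0 c hc))
    have hg : ∀ q : W, g q = (q.1, c * q.2) := fun q => by
      obtain ⟨a, b⟩ := q
      simp [g, mul_comm]
    have hfam : ∀ (p : P) (v : W), v ≠ 0 → Fam {0}ᶜ 1 V fun s : UI => Y (p, s) v :=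
      fun p v hv => hS.fam.param
        (g := fun s : UI => (((p, s), ⟨v, hv⟩) : (P × UI) × ({0}ᶜ : Set W))) (by fun_prop)
    have hline : ∀ s, IsLine (φ (p', s)).J fun q => T (Y (p, s) v (g q)) := fun s =>
      line_AKey (hdiffL_AKey T) g (hS.line _ v hv).1 fun x hx u => by
        rw [fderivL_AKey, fderivL_AKey, hJ s x hx]
    have hjet : ∀ s, jet (Y (p', s) v') = jet fun q => T (Y (p, s) v (g q)) := by
      intro s
      obtain ⟨h1, -, h3⟩ := hS.line (p, s) v hv
      have a1 : Y (p, s) v (1, 0) = e0 := (Prod.ext_iff.1 h3).1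
      have a2 : fderiv ℝ (Y (p, s) v) (1, 0) (0, 1) = C (p, s) (vec 0 v) := (Prod.ext_iff.1 h3).2
      have g1 : g (1, 0) = (1, 0) := by simp [hg]
      have g2 : g (0, 1) = c • ((0, 1) : W) := by simp [hg]
      rw [(hS.line (p', s) v' hv').2.2, jet, fd_AKey (hdiffL_AKey T) g h1 e1_AKey, g1, g2, a1, hT,
        fderivL_AKey, hvv, hC, split_AKey, h1.hol _ e1_AKey, a1, a2, vec_smul_AKey, split_AKey,
        hS.cJ]
    have key := hU (fun s => φ (p', s)) (fun s => Y (p', s) v')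
      (fun s q => T (Y (p, s) v (g q)))
      (fun n => ⟨(hS.fr n).1.param (g := fun s : UI => (p', s)) (by fun_prop),
        (hS.fr n).2.param (g := fun s : UI => (p', s)) (by fun_prop)⟩)
      (hfam p' v' hv')
      (((hfam p v hv).comp (fam_id.clm ((g : W →L[ℂ] W).restrictScalars ℝ))
        fun _ q hq => g.map_ne_zero_iff.2 hq).clm ((T : V →L[ℂ] V).restrictScalars ℝ))
      (fun s => ⟨(hS.line _ v' hv').1, (hS.line _ v' hv').2.1, hline s, hjet s⟩)
      (funext fun q => by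
        rw [hL _ _ (hS.std p') (hS.line _ v' hv').1 q, hjet 1,
          ← hL _ _ (hS.std p') (hline 1) q])
    rw [← hg]
    exact congrFun (congrFun key s) q
  · obtain ⟨h1, -, h3⟩ := hS.line (p, 0) v hv
    have a1 : Y (p, 0) v (1, 0) = e0 := (Prod.ext_iff.1 h3).1
    have a2 : fderiv ℝ (Y (p, 0) v) (1, 0) (0, 1) = vec 0 v :=
      (Prod.ext_iff.1 h3).2.trans (hS.c0 p _)
    have hD := hF.toHDiff
    have h4 : IsLine (fun _ u => I • u)
        fun q => F' (Y (p, 0) v (ContinuousLinearEquiv.refl ℂ W q)) :=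
      line_AKey hD.symm _ h1 fun x hx u => by
        have hy := hD.symm.ne hx
        have := hJ _ hy (fderiv ℝ F' x u)
        rw [hD.right, hD.symm.chain hx] at this
        rw [this, hD.symm.chain' hx]
    have h5 := hL _ _ (fun _ _ _ => rfl) h4 (1, 1)
    have h6 : fderiv ℝ F' e0 = ContinuousLinearMap.id ℝ V := by
      rw [← fderiv_id (x := e0)]
      exact Filter.EventuallyEq.fderiv_eq hF.near'
    rw [jet, fd_AKey hD.symm _ h1 e1_AKey] at h5
    simp only [ContinuousLinearEquiv.refl_apply, a1, a2, h6, hF.near'.self_of_nhds, one_smul,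
      ContinuousLinearMap.id_apply] at h5
    rw [← hF.aff, ← hD.right (Y (p, 0) v (1, 1)), h5]
    congr 1
    ext a
    fin_cases a <;> simp [vec, e0]
  · have hc : ∀ (c : ℂ) u, C (p, 1) (c • u) = c • C (p, 1) u := fun c u => by
      rw [split_AKey, hS.cJ, hS.std p _ e0_ne]
      exact (split_AKey (ContinuousLinearMap.id ℝ V) c _).symm
    have hv : ∀ v, vec 0 (C (p, 1) (vec 0 v) 1, C (p, 1) (vec 0 v) 2) = C (p, 1) (vec 0 v) := by
      intro v
      ext a
      fin_cases a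
      · simp [vec, hS.cb]
      · simp [vec]
      · simp [vec]
    refine ⟨⟨⟨fun v => (C (p, 1) (vec 0 v) 1, C (p, 1) (vec 0 v) 2), fun v w => ?_⟩,
      fun c v => ?_⟩, ?_, fun v hv0 => ?_⟩
    · simp [vec_add_AKey]
    · simp [vec_smul_AKey, hc]
    · rw [injective_iff_map_eq_zero]
      intro v h0
      have h1 : (C (p, 1) (vec 0 v) 1, C (p, 1) (vec 0 v) 2) = 0 := h0
      have h2 := hv v
      have h3 : vec 0 (0 : W) = 0 := by simpa using vec_smul_AKey 0 0
      rw [h1, h3] at h2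
      exact vec_eq_zero_AKey (hS.cinj _ (h2.symm.trans (map_zero _).symm))
    · obtain ⟨h1, -, h3⟩ := hS.line (p, 1) v hv0
      rw [hL _ _ (hS.std p) h1 (1, 1), h3]
      ext a
      fin_cases a
      · simp [vec, e0, hS.cb]
      · simp [vec, e0]
      · simp [vec, e0]

end Pool.Agent.MP_2fc7fa_gt.N

end
end

section

/-! Behaviour of a compact family of lines near the base point. -/

open scoped ContDiff ComplexConjugate Topology
open Set Complex Filter Metric

noncomputable section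

namespace Pool.Agent.MP_2fc7fa_gt.N

theorem norm_ANear0 {X : V} {y : W} (hX : X ≠ 0) (h : pr X = pt y) :
    (X 0)⁻¹ • X = vec 1 y ∧ X = X 0 • vec 1 y := by
  have hv : vec 1 y ≠ 0 := fun e => by simpa [vec] using congrFun e 0
  obtain ⟨c, hc, rfl⟩ := exists_smul_of_pr_eq hX hv h
  have e : (c • vec 1 y) 0 = c := by simp [vec]
  rw [e, inv_smul_smul₀ hc]
  exact ⟨rfl, rfl⟩

theorem small_ANear0 {X : V} {x : W} {r : ℝ} (h : X = X 0 • vec 1 x)
    (h1 : ‖X - e0‖ < min (1 / 2) (r / 2)) : ‖x‖ ≤ r := by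
  have a0 : ‖X 0 - 1‖ < 1 / 2 := by
    have := (norm_le_pi_norm (X - e0) 0).trans_lt (h1.trans_le (min_le_left _ _))
    simpa [e0, vec] using this
  have b0 : 1 / 2 ≤ ‖X 0‖ := by
    have := norm_sub_norm_le (1 : ℂ) (X 0)
    rw [norm_sub_rev, norm_one] at this
    linarith
  have a1 : ‖X 0‖ * ‖x.1‖ < r / 2 := by
    have := (norm_le_pi_norm (X - e0) 1).trans_lt (h1.trans_le (min_le_right _ _))
    rw [Pi.sub_apply, congrFun h 1] at this
    simpa [e0, vec] using this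
  have a2 : ‖X 0‖ * ‖x.2‖ < r / 2 := by
    have := (norm_le_pi_norm (X - e0) 2).trans_lt (h1.trans_le (min_le_right _ _))
    rw [Pi.sub_apply, congrFun h 2] at this
    simpa [e0, vec] using this
  rw [Prod.norm_def]
  refine max_le ?_ ?_
  · nlinarith [norm_nonneg x.1]
  · nlinarith [norm_nonneg x.2]

theorem tube_ANear0 {P : Type} [TopologicalSpace P] [CompactSpace P] {U : P → W → V}
    (h : JC {0}ᶜ U) (h0 : ∀ p, U p (1, 0) = e0) {ε : ℝ} (hε : 0 < ε) :
    ∃ τ : ℝ, 0 < τ ∧ ∀ (z : ℂ) p, ‖z‖ ≤ τ → ‖U p (1, z) - e0‖ < ε := by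
  have hc : Continuous fun q : ℂ × P => U q.2 (1, q.1) :=
    ContinuousOn.comp_continuous (f := fun q : ℂ × P => (q.2, ((1 : ℂ), q.1))) h (by fun_prop)
      fun q => ⟨mem_univ _, fun e => one_ne_zero (congrArg Prod.fst e)⟩
  have h1 : ∀ᶠ z : ℂ in 𝓝 0, ∀ p ∈ (univ : Set P), ‖U p (1, z) - e0‖ < ε := by
    refine isCompact_univ.eventually_forall_of_forall_eventually fun p _ => ?_
    have h2 : Continuous fun q : ℂ × P => ‖U q.2 (1, q.1) - e0‖ := (hc.sub continuous_const).norm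
    refine h2.continuousAt.eventually_lt continuousAt_const ?_
    simpa [h0] using hε
  obtain ⟨τ, hτ, h2⟩ := Metric.eventually_nhds_iff.1 h1
  refine ⟨τ / 2, half_pos hτ, fun z p hz => h2 ?_ p (mem_univ _)⟩
  rw [dist_zero_right]
  linarith

theorem near0S : Near0Stmt := by
  intro hC P _ _ Y hY r hr
  have hs : ∀ u : sphere (0 : W) 1, (u : W) ≠ 0 := fun u => ne_zero_of_mem_unit_sphere u
  have hF : Fam {0}ᶜ 1 V fun b : P × sphere (0 : W) 1 => Y b.1 b.2 :=
    hY.fam.param (g := fun b : P × sphere (0 : W) 1 => (b.1, (⟨b.2, hs b.2⟩ : ({0}ᶜ : Set W))))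
      (by fun_prop)
  have hcos := cos_lt_one_37
  obtain ⟨δ, hδ, hch⟩ := hC (P × sphere (0 : W) 1) (fun b => Y b.1 b.2) (1, 0) (0, 1) hF
    (fun b => hY.emb b.1 b.2 (hs b.2)) (by simp [det2])
    ((1 - Real.cos (2 * Real.pi / 37)) / 4) (by linarith) 1 one_pos
  obtain ⟨τ, hτ, ht⟩ := tube_ANear0 hF.jc (fun b => hY.base b.1 b.2 (hs b.2))
    (lt_min one_half_pos (half_pos hr))
  refine ⟨min δ τ, lt_min hδ hτ, fun p a x y l ha haτ hl hk hy => ?_⟩
  have hρ : 0 < ‖a‖ := norm_pos_iff.2 ha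
  have hρ' : ((‖a‖ : ℝ) : ℂ) ≠ 0 := ofReal_ne_zero.2 hρ.ne'
  obtain ⟨u, hu⟩ : ∃ u : sphere (0 : W) 1, a = ((‖a‖ : ℝ) : ℂ) • (u : W) :=
    ⟨⟨((‖a‖ : ℝ) : ℂ)⁻¹ • a, by
      rw [mem_sphere_zero_iff_norm, norm_smul, norm_inv, norm_real, norm_norm,
        inv_mul_cancel₀ hρ.ne']⟩, (smul_inv_smul₀ hρ' a).symm⟩
  generalize ‖a‖ = ρ at haτ hρ hρ' hu
  subst hu
  have hpar : ∀ c : ℂ, c ≠ 0 → Y p (c • (ρ : ℂ) • (u : W)) (1, 1) = Y p u (1, c * ρ) :=
    fun c hc => by rw [smul_smul, hY.par p u _ (hs u) (mul_ne_zero hc hρ')]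
  have hne : ∀ z : ℂ, Y p u (1, z) ≠ 0 := fun z =>
    (hY.emb p u (hs u)).2.2 _ fun e => one_ne_zero (congrArg Prod.fst e)
  have hn : ∀ k, ‖rt k * (ρ : ℂ)‖ = ρ := fun k => by
    rw [norm_mul, norm_rt, one_mul, norm_real, Real.norm_of_nonneg hρ.le]
  have hk' := fun k => norm_ANear0 (hne (rt k * ρ)) ((congrArg pr (hpar _ (rt_ne k))).symm.trans (hk k))
  have hl0 : (l : ℂ) ≠ 0 := ofReal_ne_zero.2 (by linarith)
  have hy' := norm_ANear0 (hne (l * ρ)) ((congrArg pr (hpar _ hl0)).symm.trans hy)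
  refine ⟨?_, fun μ hμ e => ?_⟩
  · have h1 := small_ANear0 (hk' 0).2 (ht _ (p, u) ((hn 0).trans_le (haτ.trans (min_le_right _ _))))
    rwa [rt_zero, one_smul] at h1
  · have hre := hμ.re_le
    obtain ⟨k₁, k₂, s, -, -, hs', hμ⟩ := hμ
    have eq : ∀ z : ℂ, ((1, 0) : W) + z • ((0, 1) : W) = (1, z) := fun z => by simp
    have h1 := hch (p, u) (ContinuousLinearMap.proj 0) (l * ρ) (rt k₁ * ρ) (rt k₂ * ρ) s
      (ContinuousLinearMap.opNorm_le_bound _ zero_le_one fun v => by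
        simpa using norm_le_pi_norm v 0)
      (by simp [hY.base p u (hs u), e0, vec]) ((hn k₁).trans_le (haτ.trans (min_le_left _ _)))
      ((hn k₂).trans_le (haτ.trans (min_le_left _ _))) hs' ⟨(Y p u (1, l * ρ) 0)⁻¹, by
        simp only [eq, ContinuousLinearMap.proj_apply]
        rw [hy'.1, (hk' k₁).1, (hk' k₂).1, e, hμ]
        ext i
        fin_cases i <;> simp [vec] <;> ring⟩
    have e1 : (l : ℂ) * ρ - (((1 - s : ℝ) : ℂ) * (rt k₁ * ρ) + s * (rt k₂ * ρ)) = (l - μ) * ρ := by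
      rw [hμ]
      push_cast
      ring
    have h2 : ‖rt k₁ * (ρ : ℂ) - rt k₂ * ρ‖ ≤ 2 * ρ := by
      have := norm_sub_le (rt k₁ * (ρ : ℂ)) (rt k₂ * ρ)
      rw [hn, hn] at this
      linarith
    have h3 : l - μ.re ≤ ‖(l : ℂ) - μ‖ := by
      simpa using re_le_norm ((l : ℂ) - μ)
    rw [e1, norm_mul, norm_real, Real.norm_of_nonneg hρ.le] at h1
    have h4 := mul_le_mul_of_nonneg_left h2
      (by linarith : 0 ≤ (1 - Real.cos (2 * Real.pi / 37)) / 4)
    have h5 := mul_le_mul_of_nonneg_right h3 hρ.le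
    nlinarith

end Pool.Agent.MP_2fc7fa_gt.N

end
end

section

/-! The behaviour of a compact family of lines near infinity. -/

open scoped ContDiff ComplexConjugate Topology
open Set Complex Filter Metric

noncomputable section

namespace Pool.Agent.MP_2fc7fa_gt.N

theorem vec_ne_ANearInf (y : W) : vec 1 y ≠ 0 := fun h => by simpa [vec] using congrFun h 0

theorem ne_ANearInf (z : ℂ) : ((z, 1) : W) ≠ 0 := fun h => one_ne_zero (congrArg Prod.snd h)

theorem low_ANearInf {P : Type} [TopologicalSpace P] [CompactSpace P] {U : P → W → V}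
    (hc : JC {0}ᶜ U) (hU : ∀ p, Hom1 (U p) ∧ IsEmb (U p) ∧ ∀ q, q ≠ 0 → U p q ≠ 0)
    (hb : ∀ p, U p (1, 0) = e0) : ∃ m : ℝ, 0 < m ∧ ∀ p, ∃ (j : Fin 3) (π : W →L[ℂ] ℂ),
      (∀ c y, vec c y j = π y) ∧ (∀ y, ‖π y‖ ≤ ‖y‖) ∧ m ≤ ‖U p (0, 1) j‖ := by
  have h1 : Continuous fun p => U p (0, 1) :=
    ContinuousOn.comp_continuous hc (f := fun p => (p, ((0, 1) : W))) (by fun_prop)
      fun p => ⟨mem_univ _, ne_ANearInf 0⟩
  have h2 : Continuous fun p => max ‖U p (0, 1) 1‖ ‖U p (0, 1) 2‖ := by fun_prop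
  obtain ⟨m, hm, h3⟩ := isCompact_univ.exists_forall_le' h2.continuousOn (a := 0) fun p _ => by
    by_contra h
    rw [not_lt, max_le_iff, norm_le_zero_iff, norm_le_zero_iff] at h
    have h4 : U p (0, 1) = U p (U p (0, 1) 0 • ((1, 0) : W)) := by
      rw [(hU p).1.2, hb]
      funext i
      fin_cases i <;> simp [e0, vec, h.1, h.2]
    have h5 : U p (0, 1) 0 ≠ 0 := fun h0 => (hU p).2.2 _ (ne_ANearInf 0) (by
      funext i
      fin_cases i <;> simp [h0, h.1, h.2])
    have h6 := (hU p).2.1.inj (ne_ANearInf 0) (smul_ne_zero h5 (by simp)) h4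
    simpa using congrArg Prod.snd h6
  refine ⟨m, hm, fun p => ?_⟩
  rcases le_max_iff.1 (h3 p trivial) with h | h
  · exact ⟨1, ContinuousLinearMap.fst ℂ ℂ ℂ, fun _ _ => rfl, fun y => norm_fst_le y, h⟩
  · exact ⟨2, ContinuousLinearMap.snd ℂ ℂ ℂ, fun _ _ => rfl, fun y => norm_snd_le y, h⟩

theorem tube_ANearInf {P : Type} [TopologicalSpace P] [CompactSpace P] {U : P → W → V}
    (hc : JC {0}ᶜ U) {ε : ℝ} (hε : 0 < ε) :
    ∃ δ : ℝ, 0 < δ ∧ ∀ p (z : ℂ), ‖z‖ ≤ δ → ‖U p (z, 1) - U p (0, 1)‖ ≤ ε := by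
  have h1 : Continuous fun a : ℂ × P => U a.2 (a.1, 1) :=
    ContinuousOn.comp_continuous hc (f := fun a : ℂ × P => (a.2, ((a.1, 1) : W))) (by fun_prop)
      fun a => ⟨mem_univ _, ne_ANearInf _⟩
  have h2 : Continuous fun a : ℂ × P => U a.2 (0, 1) :=
    h1.comp (f := fun a : ℂ × P => ((0 : ℂ), a.2)) (by fun_prop)
  have h3 := isCompact_univ.eventually_forall_of_forall_eventually (x₀ := (0 : ℂ))
    (P := fun z p => ‖U p (z, 1) - U p (0, 1)‖ ≤ ε) fun p _ =>
      ((h1.sub h2).norm.tendsto (0, p)).eventually_le_const (by simpa using hε)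
  obtain ⟨δ, hδ, h4⟩ := Metric.nhds_basis_closedBall.eventually_iff.1 h3
  exact ⟨δ, hδ, fun p z hz => h4 (mem_closedBall_zero_iff.2 hz) p trivial⟩

theorem one_sub_rt_ANearInf : 0 < ‖1 - rt 1‖ := by
  refine norm_pos_iff.2 fun h => ?_
  have h1 : Chord (rt 1) := ⟨1, 1, 0, by decide, by decide, ⟨le_rfl, zero_le_one⟩, by simp⟩
  have h2 := h1.re_le.trans_lt cos_lt_one_37
  rw [← sub_eq_zero.1 h] at h2
  simp at h2

theorem nearInfS : NearInfStmt := by
  intro hC P _ _ Y hY r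
  have hne : ∀ u : sphere (0 : W) 1, (u : W) ≠ 0 := fun u => ne_zero_of_mem_unit_sphere u
  have hF : Fam {0}ᶜ 1 V fun a : P × sphere (0 : W) 1 => Y a.1 a.2 :=
    hY.fam.param (g := fun a : P × sphere (0 : W) 1 => (a.1, (⟨a.2, hne a.2⟩ : ({0}ᶜ : Set W))))
      (by fun_prop)
  have hU := fun a : P × sphere (0 : W) 1 => hY.emb a.1 a.2 (hne a.2)
  obtain ⟨m, hm, hlow⟩ := low_ANearInf hF.jc hU fun a => hY.base a.1 a.2 (hne a.2)
  have hs := one_sub_rt_ANearInf
  have hcos := cos_lt_one_37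
  obtain ⟨ε, hε, hεm, hεr⟩ : ∃ ε : ℝ, 0 < ε ∧ ε < m ∧ ε * (2 + 2 * |r|) < ‖1 - rt 1‖ * m := by
    have h1 : 0 < 2 + 2 * |r| := by positivity
    refine ⟨min (m / 2) (‖1 - rt 1‖ * m / 2 / (2 + 2 * |r|)), by positivity,
      (min_le_left _ _).trans_lt (half_lt_self hm), ?_⟩
    refine (mul_le_mul_of_nonneg_right (min_le_right _ _) h1.le).trans_lt ?_
    rw [div_mul_cancel₀ _ h1.ne']
    exact half_lt_self (by positivity)
  obtain ⟨δ₁, hδ₁, H₁⟩ := hC _ _ (0, 1) (1, 0) hF hU (by simp [det2])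
    ((1 - Real.cos (2 * Real.pi / 37)) / 4) (by linarith) m hm
  obtain ⟨δ₂, hδ₂, H₂⟩ := tube_ANearInf hF.jc hε
  refine ⟨(min δ₁ δ₂)⁻¹, fun p b x y l hb hR hl0 hl1 hk hx => ?_⟩
  have ht : 0 < ‖b‖ := norm_pos_iff.2 hb
  have htc : (‖b‖ : ℂ) ≠ 0 := ofReal_ne_zero.2 ht.ne'
  have hδ : ‖b‖⁻¹ ≤ min δ₁ δ₂ := inv_le_of_inv_le₀ (lt_min hδ₁ hδ₂) hR
  obtain ⟨u, hu⟩ : ∃ u : sphere (0 : W) 1, b = (‖b‖ : ℂ) • (u : W) :=
    ⟨⟨(‖b‖ : ℂ)⁻¹ • b, by
      rw [mem_sphere_zero_iff_norm, norm_smul, norm_inv, norm_real, norm_norm,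
        inv_mul_cancel₀ ht.ne']⟩, (smul_inv_smul₀ htc b).symm⟩
  generalize ‖b‖ = t at ht htc hδ hu
  subst hu
  have key : ∀ (c : ℂ) (v : W), c ≠ 0 → pr (Y p (c • (t : ℂ) • (u : W)) (1, 1)) = pt v →
      ∃ e : ℂ, e ≠ 0 ∧ Y p u ((c * t)⁻¹, 1) = e • vec 1 v := by
    intro c v hc h
    have hct := mul_ne_zero hc htc
    have e : ((1, c * t) : W) = (c * t) • (((c * t)⁻¹, 1) : W) := by
      rw [Prod.smul_mk, smul_eq_mul, smul_eq_mul, mul_inv_cancel₀ hct, mul_one]
    rw [smul_smul, hY.par p u _ (hne u) hct, e, (hU (p, u)).1.2, pr_smul hct] at h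
    exact exists_smul_of_pr_eq ((hU (p, u)).2.2 _ (ne_ANearInf _)) (vec_ne_ANearInf v) h
  choose e he hek using fun k => key (rt k) _ (rt_ne k) (hk k)
  obtain ⟨e', he', hex⟩ := key l x (ofReal_ne_zero.2 hl0.ne') hx
  obtain ⟨j, π, hj, hπ, hw⟩ := hlow (p, u)
  have hz : ∀ k, ‖(rt k * t)⁻¹‖ ≤ min δ₁ δ₂ := fun k => by
    rwa [norm_inv, norm_mul, norm_rt, one_mul, norm_real, Real.norm_of_nonneg ht.le]
  have hcl : ∀ k i, ‖e k * vec 1 (rt k • y) i - Y p u (0, 1) i‖ ≤ ε := fun k i => by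
    have := H₂ (p, u) _ ((hz k).trans (min_le_right _ _))
    rw [hek] at this
    exact (norm_le_pi_norm (e k • vec 1 (rt k • y) - Y p u (0, 1)) i).trans this
  have hc0 : ∀ k, ‖e k - Y p u (0, 1) 0‖ ≤ ε := fun k => by simpa [vec] using hcl k 0
  have hcj : ∀ k, ‖e k * (rt k * π y) - Y p u (0, 1) j‖ ≤ ε := fun k => by
    have := hcl k j
    rwa [hj, map_smul, smul_eq_mul] at this
  change m ≤ ‖Y p u (0, 1) j‖ at hw
  constructor
  · by_contra hr
    have h1 : ‖π y‖ ≤ |r| := (hπ y).trans ((not_le.1 hr).le.trans (le_abs_self r))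
    have h2 : (1 - rt 1) * Y p u (0, 1) j = rt 1 * (e 0 * (rt 0 * π y) - Y p u (0, 1) j) -
        (e 1 * (rt 1 * π y) - Y p u (0, 1) j) +
        rt 1 * ((e 1 - Y p u (0, 1) 0) - (e 0 - Y p u (0, 1) 0)) * π y := by
      rw [rt_zero]
      ring
    have h3 : ‖(1 - rt 1) * Y p u (0, 1) j‖ ≤ ε + ε + (ε + ε) * |r| := by
      rw [h2]
      refine norm_add_le_of_le (norm_sub_le_of_le ?_ (hcj 1)) ?_
      · rw [norm_mul, norm_rt, one_mul]
        exact hcj 0
      · rw [norm_mul, norm_mul, norm_rt, one_mul]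
        exact mul_le_mul (norm_sub_le_of_le (hc0 1) (hc0 0)) h1 (norm_nonneg _) (by positivity)
    rw [norm_mul] at h3
    have h4 := mul_le_mul_of_nonneg_left hw hs.le
    linarith
  · intro μ hμ hy
    have hre := hμ.re_le
    obtain ⟨k₁, k₂, v, -, -, hv, hμ⟩ := hμ
    have hπy : π y ≠ 0 := fun h0 => by
      have := hcj 0
      rw [h0, mul_zero, mul_zero, zero_sub, norm_neg] at this
      linarith
    have hq : ∀ z : ℂ, ((0, 1) : W) + z • ((1, 0) : W) = (z, 1) := fun z => by simp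
    have hn : ∀ k, ((ContinuousLinearMap.proj j : V →L[ℂ] ℂ) (Y p u ((rt (-k) * t)⁻¹, 1)))⁻¹ •
        Y p u ((rt (-k) * t)⁻¹, 1) = (π y)⁻¹ • vec (rt k) y := fun k => by
      have h1 : vec 1 (rt (-k) • y) = rt (-k) • vec (rt k) y := by
        funext i
        fin_cases i <;> simp [vec, mul_comm (rt (-k)) (rt k), rt_mul_neg]
      rw [hek, ContinuousLinearMap.proj_apply, Pi.smul_apply, hj, map_smul, h1, smul_smul,
        smul_smul, smul_eq_mul, smul_eq_mul]
      congr 1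
      have := he (-k)
      have := rt_ne (-k)
      field_simp
    have h1 := H₁ (p, u) (ContinuousLinearMap.proj j) (l * t)⁻¹ (rt (-k₁) * t)⁻¹ (rt (-k₂) * t)⁻¹ v
      (ContinuousLinearMap.opNorm_le_bound _ zero_le_one fun a => by
        rw [one_mul]
        exact norm_le_pi_norm a j) hw ((hz _).trans (min_le_left _ _))
      ((hz _).trans (min_le_left _ _)) hv ⟨(π y)⁻¹ * μ * e'⁻¹, by
        rw [hq, hq, hq]
        change _ • Y p u _ = _ • _ • Y p u _ + _ • _ • Y p u _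
        rw [hn, hn, hex, smul_smul, mul_assoc, inv_mul_cancel₀ he', mul_one, smul_comm _ (π y)⁻¹,
          smul_comm _ (π y)⁻¹, ← smul_add, mul_smul]
        congr 1
        rw [hy]
        funext i
        fin_cases i
        · simp [vec, hμ]
        · simp [vec]
          ring
        · simp [vec]
          ring⟩
    have hi : ∀ k, (rt (-k) * t)⁻¹ = rt k * (t : ℂ)⁻¹ := fun k => by
      rw [mul_inv, inv_eq_of_mul_eq_one_left (rt_mul_neg k)]
    have h2 : ((l : ℂ) * t)⁻¹ - (((1 - v : ℝ) : ℂ) * (rt k₁ * (t : ℂ)⁻¹) + v * (rt k₂ * (t : ℂ)⁻¹)) =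
        (((l⁻¹ : ℝ) : ℂ) - μ) * (t : ℂ)⁻¹ := by
      rw [hμ]
      push_cast
      ring
    rw [hi, hi, h2, ← sub_mul, norm_mul, norm_mul, ← mul_assoc] at h1
    have h3 := le_of_mul_le_mul_right h1 (norm_pos_iff.2 (inv_ne_zero htc))
    have h4 : ‖rt k₁ - rt k₂‖ ≤ 1 + 1 := norm_sub_le_of_le (norm_rt k₁).le (norm_rt k₂).le
    have h5 := re_le_norm (((l⁻¹ : ℝ) : ℂ) - μ)
    rw [sub_re, ofReal_re] at h5
    have h6 : 1 < l⁻¹ := (one_lt_inv₀ hl0).2 hl1
    have h7 := mul_le_mul_of_nonneg_left h4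
      (show 0 ≤ (1 - Real.cos (2 * Real.pi / 37)) / 4 by linarith)
    linarith

end Pool.Agent.MP_2fc7fa_gt.N

end
end

section

/-! The defining property of `Aop`, naturality of `Jp`, and the standard case. -/

open scoped ContDiff ComplexConjugate Topology
open Set Complex Filter Metric

noncomputable section

namespace Pool.Agent.MP_2fc7fa_gt.N

theorem inj_AJInv {g : Bil} (hg : ∀ v, v ≠ 0 → 0 < g v v) : Function.Injective g := by
  refine (injective_iff_map_eq_zero g).2 fun v hv => by_contra fun h => ?_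
  have := hg v h
  simp [hv] at this

theorem inv_AJInv {g : Bil} (hg : ∀ v, v ≠ 0 → 0 < g v v) : g.IsInvertible := by
  have hd : Module.finrank ℝ V = Module.finrank ℝ (V →L[ℝ] ℝ) := by
    rw [← (LinearMap.toContinuousLinearMap (𝕜 := ℝ) (E := V) (F' := ℝ)).finrank_eq]
    exact Subspace.dual_finrank_eq.symm
  have hi : Function.Injective (g : V →ₗ[ℝ] V →L[ℝ] ℝ) := inj_AJInv hg
  have hb : Function.Bijective (g : V →ₗ[ℝ] V →L[ℝ] ℝ) :=
    ⟨hi, (LinearMap.injective_iff_surjective_of_finrank_eq_finrank hd).1 hi⟩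
  exact ⟨(LinearEquiv.ofBijective _ hb).toContinuousLinearEquiv, by ext1; rfl⟩

theorem aop_AJInv {g : Bil} (hg : ∀ v, v ≠ 0 → 0 < g v v) (o : Bil) (x x' u : V) :
    g (Aop (g, o, x, x') u) = o u :=
  (inv_AJInv hg).self_apply_inverse _

theorem pow_AJInv (T : V ≃L[ℝ] V) {A A' : Op} (h : ∀ u, A' (T u) = T (A u)) (n : ℕ) (u : V) :
    (A' ^ n) (T u) = T ((A ^ n) u) := by
  induction n generalizing u with
  | zero => simp
  | succ n ih => rw [pow_succ, pow_succ, mul_apply_eq_comp,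
      mul_apply_eq_comp, h, ih]

theorem trc_AJInv (T : V ≃L[ℝ] V) {A A' : Op} (h : ∀ u, A' (T u) = T (A u)) : trc A' = trc A := by
  rw [trc, trc, ← LinearMap.trace_conj' (A : V →ₗ[ℝ] V) T.toLinearEquiv]
  congr 1
  refine LinearMap.ext fun u => ?_
  have := h (T.symm u)
  rw [T.apply_symm_apply] at this
  simpa [LinearEquiv.conj_apply] using this

theorem jh_AJInv (T : V ≃L[ℝ] V) {A A' : Op} (h : ∀ u, A' (T u) = T (A u)) (u : V) :
    Jh A' (T u) = T (Jh A u) := by
  have h1 : sgm A' = sgm A := by rw [sgm, sgm, trc_AJInv T (pow_AJInv T h 2)]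
  have h2 : pf2 A' = pf2 A := by rw [pf2, pf2, h1, trc_AJInv T (pow_AJInv T h 4)]
  simp only [Jh, h1, h2, smul_apply, add_apply, h,
    pow_AJInv T h, map_smul, map_add]

theorem smm_AJInv (a b : ℝ) (K L : Op) : (a • K) * (b • L) = (a * b) • (K * L) := by
  ext1 u
  simp only [mul_apply_eq_comp, smul_apply, map_smul, smul_smul, mul_comm]

theorem std_AJInv (g o : Bil) (R : Op) (x : V) (hs : ∀ u v, g u v = g v u)
    (hg : ∀ v, v ≠ 0 → 0 < g v v) (hR : ∀ u, R (R u) = -u) (hI : ∀ u v, g (R u) v = -g u (R v))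
    (hx : g x x = 1)
    (ho : ∀ u v, o u v = 2 * (g (R u) v - g (R u) x * g v x - g (R u) (R x) * g v (R x))) (v : V) :
    Jp (g, o, x, R x) v = R v := by
  have h0 : g x (R x) = 0 := by
    have := hI x x
    rw [hs (R x) x] at this
    linarith
  have h0' : g (R x) x = 0 := by rw [hs, h0]
  have hRR : ∀ u v, g (R u) (R v) = g u v := fun u v => by rw [hI, hR]; simp
  have h1 : g (R x) (R x) = 1 := by rw [hRR, hx]
  set Q : Op := 1 - (g x).smulRight x - (g (R x)).smulRight (R x) with hQ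
  have hQa : ∀ u, Q u = u - g x u • x - g (R x) u • R x := fun u => by simp [hQ]
  have hQR : R * Q = Q * R := by
    ext1 u
    simp only [mul_apply_eq_comp, hQa, map_sub, map_smul, hR, hRR]
    rw [hI x u]
    module
  have hQQ : Q * Q = Q := by
    ext1 u
    simp only [mul_apply_eq_comp, hQa, map_sub, map_smul, hx, h0, h0', h1, smul_eq_mul]
    module
  have hR2 : R * R = -1 := by
    ext1 u
    simp [hR]
  set K : Op := R * Q with hK
  have hK2 : K * K = -Q := by
    calc K * K = R * (Q * R) * Q := by simp only [hK, mul_assoc]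
      _ = (R * R) * (Q * Q) := by rw [← hQR, hK]; rfl
      _ = -Q := by
        rw [hR2, hQQ]
        ext1 u
        simp only [mul_apply_eq_comp, neg_apply, one_apply_eq_self]
  have hKQ : K * Q = K := by rw [hK, mul_assoc, hQQ]
  have hA : Aop (g, o, x, R x) = (2 : ℝ) • K := by
    ext1 u
    apply inj_AJInv hg
    rw [aop_AJInv hg]
    ext1 w
    simp only [ho, hK, smul_apply, mul_apply_eq_comp, hQa, map_sub,
      map_smul, hR, map_neg, sub_apply, neg_apply,
      smul_eq_mul, hRR]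
    rw [hI u x, hs (R x) u, hs x u, hs (R x) w, hs x w]
    ring
  have hA2 : ((2 : ℝ) • K) ^ 2 = (-4 : ℝ) • Q := by
    rw [sq, smm_AJInv, hK2]
    module
  have hA3 : ((2 : ℝ) • K) ^ 3 = (-8 : ℝ) • K := by
    rw [pow_succ', hA2, smm_AJInv, hKQ]
    module
  have hA4 : ((2 : ℝ) • K) ^ 4 = (16 : ℝ) • Q := by
    rw [show 4 = 2 + 2 from rfl, pow_add, hA2, smm_AJInv, hQQ]
    module
  have ht : trc Q = 4 := by
    have e : (Q : V →ₗ[ℝ] V) = LinearMap.id - (g x : V →ₗ[ℝ] ℝ).smulRight x -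
        (g (R x) : V →ₗ[ℝ] ℝ).smulRight (R x) := by
      refine LinearMap.ext fun u => ?_
      simp [hQa]
    rw [trc, e, map_sub, map_sub, LinearMap.trace_id, LinearMap.trace_smulRight,
      LinearMap.trace_smulRight]
    simp [hx, h1, Module.finrank_pi_fintype]
    norm_num
  have hts : ∀ c : ℝ, trc (c • Q) = c * 4 := fun c => by
    rw [← ht, trc, trc, ContinuousLinearMap.toLinearMap_smul, map_smul, smul_eq_mul]
  have hsg : sgm ((2 : ℝ) • K) = 8 := by
    rw [sgm, hA2, hts]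
    norm_num
  have hpf : pf2 ((2 : ℝ) • K) = 16 := by
    rw [pf2, hsg, hA4, hts]
    norm_num
  have h16 : √(16 : ℝ) = 4 := by
    rw [show (16 : ℝ) = 4 ^ 2 by norm_num, Real.sqrt_sq (by norm_num)]
  have hJ : Jh ((2 : ℝ) • K) = K := by
    rw [Jh, hsg, hpf, h16, show (8 : ℝ) + 2 * 4 = 16 by norm_num, h16, hA3]
    module
  rw [Jp, hA, hJ]
  simp only [hK, sub_apply, add_apply,
    mul_apply_eq_comp, hQa, map_sub, map_smul, hR, ContinuousLinearMap.smulRight_apply]
  module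

theorem jInvS : JInvStmt := by
  refine ⟨fun g o x x' h => ⟨inv_AJInv h.pos, fun u v => by rw [aop_AJInv h.pos]⟩,
    fun T g o x x' g' o' h hg ho v => ?_, fun x o hx ho v => ?_⟩
  · have hp : ∀ v, v ≠ 0 → 0 < g' v v := fun v hv => by
      rw [← T.apply_symm_apply v, hg]
      exact h.pos _ (T.symm.map_ne_zero_iff.2 hv)
    have hA : ∀ u, Aop (g', o', T x, T x') (T u) = T (Aop (g, o, x, x') u) := fun u => by
      apply inj_AJInv hp
      rw [aop_AJInv hp]
      ext1 w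
      rw [← T.apply_symm_apply w, ho, hg, aop_AJInv h.pos]
    simp only [Jp, sub_apply, add_apply,
      ContinuousLinearMap.smulRight_apply, jh_AJInv T hA, hg, map_sub, map_add, map_smul]
  · have hn := nn_pos hx
    refine std_AJInv (g1 x) o ((I • ContinuousLinearMap.id ℂ V).restrictScalars ℝ) x
      (fun u v => ?_) (fun v hv => ?_) (fun u => ?_) (fun u v => ?_) ?_ ho v
    · simp only [g1_apply, her, re_sum, mul_re, conj_re, conj_im]
      congr 1
      exact Finset.sum_congr rfl fun j _ => by ring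
    · rw [g1_apply, her_self, ofReal_re]
      exact mul_pos (inv_pos.2 hn) (nn_pos hv)
    · simp [smul_smul]
    · simp [g1_apply, her_smul, her_smul']
    · rw [g1_apply, her_self, ofReal_re, inv_mul_cancel₀ hn.ne']

end Pool.Agent.MP_2fc7fa_gt.N

end
end

section

open scoped ContDiff ComplexConjugate Topology
open Set Complex Filter Metric

namespace Pool.Agent.MP_2fc7fa_gt.N

lemma trc_AJSm : ContDiff ℝ ∞ trc :=
  (LinearMap.toContinuousLinearMap
    ((LinearMap.trace ℝ V).comp (ContinuousLinearMap.coeLM ℝ))).contDiff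

lemma sgm_AJSm : ContDiff ℝ ∞ sgm :=
  (trc_AJSm.comp (contDiff_id.pow 2)).neg.div_const 2

lemma pf2_AJSm : ContDiff ℝ ∞ pf2 :=
  ((sgm_AJSm.pow 2).sub ((trc_AJSm.comp (contDiff_id.pow 4)).div_const 2)).div_const 2

lemma jh_AJSm {A : Op} (h1 : 0 < pf2 A) (h2 : 0 < sgm A + 2 * √(pf2 A)) : ContDiffAt ℝ ∞ Jh A := by
  have a1 : ContDiffAt ℝ ∞ (fun A => √(pf2 A)) A := pf2_AJSm.contDiffAt.sqrt h1.ne'
  have a2 : ContDiffAt ℝ ∞ (fun A => √(sgm A + 2 * √(pf2 A))) A :=
    (sgm_AJSm.contDiffAt.add (contDiffAt_const.mul a1)).sqrt h2.ne'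
  exact (a2.inv (Real.sqrt_pos.2 h2).ne').smul (contDiffAt_id.add
    ((a1.inv (Real.sqrt_pos.2 h1).ne').smul
      ((contDiffAt_id.pow 3).add (sgm_AJSm.contDiffAt.smul contDiffAt_id))))

lemma aop_AJSm {d : D4} (h : d.1.IsInvertible) : ContDiffAt ℝ ∞ Aop d :=
  (ContDiffAt.comp (g := ContinuousLinearMap.inverse) (f := Prod.fst) d
    h.contDiffAt_map_inverse contDiffAt_fst).clm_comp contDiffAt_snd.fst

theorem jSmS : JSmStmt := by
  refine ⟨isOpen_iff_mem_nhds.2 fun d hd => ?_, fun d hd => ContDiffAt.contDiffWithinAt ?_⟩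
  · have h1 := (aop_AJSm hd.1).continuousAt
    have h2 := pf2_AJSm.continuous.continuousAt.comp h1
    have h3 := (sgm_AJSm.continuous.continuousAt.comp h1).add
      ((continuousAt_const (y := (2 : ℝ))).mul h2.sqrt)
    have h4 : {g : Bil | g.IsInvertible} ∈ 𝓝 d.1 :=
      (ContinuousLinearEquiv.isOpen (𝕜 := ℝ) (E := V) (F := V →L[ℝ] ℝ)).mem_nhds hd.1
    exact (continuousAt_fst.eventually h4).and ((continuousAt_const.eventually_lt h2 hd.2.1).and
      (continuousAt_const.eventually_lt h3 hd.2.2))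
  · have h1 : ContDiff ℝ ∞ fun d : D4 => d.2.2.1 := contDiff_snd.snd.fst
    have h2 : ContDiff ℝ ∞ fun d : D4 => d.2.2.2 := contDiff_snd.snd.snd
    exact (((jh_AJSm hd.2.1 hd.2.2).comp d (aop_AJSm hd.1)).add
      ((contDiff_fst.clm_apply h1).smulRight h2).contDiffAt).sub
      ((contDiff_fst.clm_apply h2).smulRight h1).contDiffAt

end Pool.Agent.MP_2fc7fa_gt.N

end

section

/-! The path of metrics: smoothness, admissibility and naturality. -/

open scoped ContDiff ComplexConjugate Topology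
open Set Complex Filter Metric

noncomputable section

namespace Pool.Agent.MP_2fc7fa_gt.N

theorem gs_apply_AGs (F' : V → V) (s : ℝ) (x u v : V) : gs F' s x u v =
    (1 - s) * g1 (F' x) (fderiv ℝ F' x u) (fderiv ℝ F' x v) + s * g1 x u v := by
  simp [gs]

theorem her_symm_AGs (u v : V) : (her u v).re = (her v u).re := by
  simp [her, mul_comm]

theorem g1_symm_AGs (x u v : V) : g1 x u v = g1 x v u := by
  rw [g1_apply, g1_apply, her_symm_AGs]

theorem g1_pos_AGs {x v : V} (hx : x ≠ 0) (hv : v ≠ 0) : 0 < g1 x v v := by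
  rw [g1_apply, her_self, ofReal_re]
  exact mul_pos (inv_pos.2 (nn_pos hx)) (nn_pos hv)

theorem g1_vert_AGs {x : V} (hx : x ≠ 0) (a b : ℂ) :
    g1 x (a • x) (b • x) = (conj a * b).re := by
  rw [g1_apply, her_smul, her_smul', her_self, ← mul_assoc, re_mul_ofReal]
  field_simp [(nn_pos hx).ne']

theorem her_scale_AGs (c : ℂ) (u v : V) : her (c • u) (c • v) = (‖c‖ ^ 2 : ℝ) * her u v := by
  rw [her_smul, her_smul', ← mul_assoc, Complex.conj_mul']
  push_cast
  ring

theorem nn_scale_AGs (c : ℂ) (x : V) : nn (c • x) = ‖c‖ ^ 2 * nn x := by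
  have h := her_scale_AGs c x x
  rw [her_self, her_self] at h
  exact_mod_cast h

theorem g1_scale_AGs {c : ℂ} (hc : c ≠ 0) (x u v : V) :
    g1 (c • x) (c • u) (c • v) = g1 x u v := by
  have h : (‖c‖ ^ 2 : ℝ) ≠ 0 := by simpa using hc
  rw [g1_apply, g1_apply, her_scale_AGs, nn_scale_AGs, re_ofReal_mul, mul_inv]
  field_simp

theorem her_hat_AGs (k : Zp) (u v : V) : her (hat k u) (hat k v) = her u v := by
  refine Finset.sum_congr rfl fun j _ => ?_
  rw [hat, hat, map_mul, conj_rt]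
  linear_combination (conj (u j) * v j) * rt_mul_neg (k * wt j)

theorem g1_hat_AGs (k : Zp) (x u v : V) : g1 (hat k x) (hat k u) (hat k v) = g1 x u v := by
  have h := her_hat_AGs k x x
  rw [her_self, her_self, ofReal_inj] at h
  rw [g1_apply, g1_apply, her_hat_AGs, h]

theorem cd_g1_AGs : ContDiffOn ℝ ∞ g1 {0}ᶜ := by
  refine contDiffOn_clm_apply.2 fun u => contDiffOn_clm_apply.2 fun v => ?_
  simp only [g1_apply]
  exact contDiffOn_inv_nn.mul contDiffOn_const

theorem cd_pull_AGs {F F' : V → V} (h : HDiff F F') : ContDiffOn ℝ ∞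
    (fun x => (g1 (F x)).bilinearComp (fderiv ℝ F x) (fderiv ℝ F x)) {0}ᶜ := by
  have h1 : ContDiffOn ℝ ∞ (fun x => g1 (F x)) {0}ᶜ :=
    cd_g1_AGs.comp h.smooth fun x hx => h.ne hx
  have h2 : ContDiffOn ℝ ∞ (fderiv ℝ F) {0}ᶜ :=
    h.smooth.fderiv_of_isOpen isOpen_compl_singleton (by simp)
  refine contDiffOn_clm_apply.2 fun u => contDiffOn_clm_apply.2 fun v => ?_
  simp only [ContinuousLinearMap.bilinearComp_apply]
  exact (h1.clm_apply (h2.clm_apply contDiffOn_const)).clm_apply (h2.clm_apply contDiffOn_const)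

theorem gs_vert_AGs {F F' : V → V} (h : HDiff F' F) (s : ℝ) {x : V} (hx : x ≠ 0) (a b : ℂ) :
    gs F' s x (a • x) (b • x) = (conj a * b).re := by
  rw [gs_apply_AGs, h.fderiv_vert hx, h.fderiv_vert hx, g1_vert_AGs (h.ne hx), g1_vert_AGs hx]
  ring

theorem gsS : GsStmt := by
  intro f F F' L
  have h : HDiff F F' := L.toHDiff
  have h' : HDiff F' F := h.symm
  have hU : UniqueDiffOn ℝ ({0}ᶜ : Set V) := isOpen_compl_singleton.uniqueDiffOn
  have hcomm : ∀ k x, F' (hat k x) = hat k (F' x) := fun k x => by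
    conv_lhs => rw [← h.right x, ← L.equiv, h.left]
  refine ⟨?_, fun σ s x hx => ?_, fun s x hx c hc u v => ?_, fun s k x hx u v => ?_, fun s => ?_,
    fun y hy u v => ?_, fun x => ?_⟩
  · exact ((sm_const (c := fun s : UI => 1 - (s : ℝ)) (by fun_prop)).smul
      (sm_of_contDiffOn hU (cd_pull_AGs h'))).add
      ((sm_const (c := fun s : UI => (s : ℝ)) (by fun_prop)).smul (sm_of_contDiffOn hU cd_g1_AGs))
  · refine ⟨fun u v => ?_, fun v hv => ?_, fun u v => bilL_skew _ u v, fun v => ?_, fun v => ?_,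
      ?_, ?_, ?_, ?_⟩
    · rw [gs_apply_AGs, gs_apply_AGs, g1_symm_AGs (F' x), g1_symm_AGs x]
    · have h1 : fderiv ℝ F' x v ≠ 0 := fun e => hv (by rw [← h'.chain hx v, e, map_zero])
      have h2 := g1_pos_AGs (h'.ne hx) h1
      have h3 := g1_pos_AGs hx hv
      rw [gs_apply_AGs]
      rcases s.2.1.eq_or_lt with e | e
      · rw [← e]
        simpa using h2
      · exact add_pos_of_nonneg_of_pos (mul_nonneg (sub_nonneg.2 s.2.2) h2.le) (mul_pos e h3)
    · rw [bilL_apply]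
      exact σ.isForm.horiz x _ 0 1 (by simp)
    · rw [bilL_apply]
      exact σ.isForm.horiz x _ 0 I (by simp)
    · simpa using gs_vert_AGs h' s hx 1 1
    · simpa using gs_vert_AGs h' s hx 1 I
    · simpa using gs_vert_AGs h' s hx I I
    · simpa only [bilL_apply] using σ.nondeg x hx
  · rw [gs_apply_AGs, gs_apply_AGs, h'.fderiv_scale hx hc, h'.fderiv_scale hx hc, h'.hom,
      g1_scale_AGs hc, g1_scale_AGs hc]
  · have e : ∀ w, fderiv ℝ F' (hat k x) (hat k w) = hat k (fderiv ℝ F' x w) := fun w =>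
      h'.fderiv_comm ((hatL k).restrictScalars ℝ) (hcomm k) hx w
    rw [gs_apply_AGs, gs_apply_AGs, e, e, hcomm, g1_hat_AGs, g1_hat_AGs]
  · have e1 : F' e0 = e0 := L.near'.self_of_nhds
    have e2 : fderiv ℝ F' e0 = ContinuousLinearMap.id ℝ V := by
      rw [EventuallyEq.fderiv_eq (f := id) L.near', fderiv_id]
    have e3 : nn e0 = 1 := by simp [nn, e0, vec, Fin.sum_univ_three]
    ext u v
    rw [gs_apply_AGs, e1, e2, g1_apply, g1_apply, e3, reB_apply]
    simp only [ContinuousLinearMap.id_apply]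
    ring
  · rw [gs_apply_AGs, h.chain hy, h.chain hy, h.left]
    ring
  · ext u v
    rw [gs_apply_AGs]
    ring

end Pool.Agent.MP_2fc7fa_gt.N

end
end

section

/-! The natural family of tamed almost complex structures. -/

open scoped ContDiff ComplexConjugate Topology
open Set Complex Filter Metric

noncomputable section

namespace Pool.Agent.MP_2fc7fa_gt.N

theorem split_AJFam (a b : ℝ) (x : V) : a • x + b • (I • x) = ((a : ℂ) + b * I) • x := by
  rw [add_smul, mul_smul, Complex.coe_smul, Complex.coe_smul]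

theorem reB_e0_AJFam (u : V) : reB u e0 = (u 0).re := by
  rw [reB_apply]
  simp [her, e0, vec, Fin.sum_univ_three]

theorem reB_Ie0_AJFam (u : V) : reB u (I • e0) = (u 0).im := by
  rw [reB_apply]
  simp [her, e0, vec, Fin.sum_univ_three]

theorem jFamS (hI : JInvStmt) (hA : JAlgStmt) (hS : JSmStmt) (hG : GsStmt) : JFamStmt := by
  intro f F F' ac om0 om1 hL hF
  have G := hG f F F' hL
  have alg := fun (σ : Symp 1) (s : UI) (x : V) (hx : x ≠ 0) =>
    hA _ _ _ _ (G.ok σ s x hx) (hI.1 _ _ _ _ (G.ok σ s x hx)).2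
  have hstop : ∀ x, x ≠ 0 → ∀ v, Jp (g1 x, bilL (om1.form x), x, I • x) v = I • v :=
    fun x hx => hI.2.2 x _ hx fun u v => by rw [bilL_apply]; exact hF.std x hx u v
  refine ⟨fun a x => Jp (gs F' a.2 x, bilL (a.1.form x), x, I • x), ?_, ?_, ?_, ?_, ?_, ?_, ?_,
    ?_, ?_⟩
  · have h1 : Sm {0}ᶜ fun (a : Symp 1 × UI) x => gs F' a.2 x := G.sm.param continuous_snd
    have h2 : Sm {0}ᶜ fun (a : Symp 1 × UI) x => bilL (a.1.form x) :=
      Sm.clm (G := V →L[ℝ] V →L[ℝ] ℝ) (continuous_symp_iff.1 continuous_fst) bilL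
    have h3 : Sm {0}ᶜ fun (_ : Symp 1 × UI) (x : V) => I • x :=
      sm_of_contDiff (contDiff_id.const_smul I)
    refine (h1.prod (h2.prod (sm_id.prod h3))).post hS.1 hS.2 fun a x hx => ?_
    obtain ⟨k1, k2, -⟩ := alg a.1 a.2 x hx
    refine ⟨(hI.1 _ _ _ _ (G.ok a.1 a.2 x hx)).1, k1, ?_⟩
    have := Real.sqrt_pos.2 k1
    linarith
  · exact fun a x hx => (alg a.1 a.2 x hx).2.2.1
  · intro a x hx c
    obtain ⟨-, -, -, k1, k2, -⟩ := alg a.1 a.2 x hx
    have e : c • x = c.re • x + c.im • (I • x) := by rw [split_AJFam, re_add_im]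
    have e' : I • c • x = (-c.im) • x + c.re • (I • x) := by
      rw [split_AJFam, smul_smul]
      congr 1
      apply Complex.ext <;> simp
    rw [e']
    conv_lhs => rw [e]
    rw [map_add, map_smul, map_smul, k1, k2, smul_neg, neg_smul, add_comm]
  · intro a x hx c hc v
    have key := hI.2.1
      (((LinearEquiv.smulOfNeZero ℂ V c hc).restrictScalars ℝ).toContinuousLinearEquiv)
      _ _ _ _ (gs F' a.2 (c • x)) (bilL (a.1.form (c • x))) (G.ok a.1 a.2 x hx)
      (fun u w => G.scale a.2 x hx c hc u w) (fun u w => by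
        rw [bilL_apply, bilL_apply, ← a.1.isForm.scale c hc x ![u, w]]
        congr 1
        ext1 i
        fin_cases i <;> rfl) v
    rw [smul_comm I c x]
    exact key
  · intro a x hx v hv
    have := (alg a.1 a.2 x hx).2.2.2.2.2.1 v fun p q => by rw [split_AJFam]; exact hv _
    rwa [bilL_apply] at this
  · intro a v
    obtain ⟨k1, k2⟩ := (alg a.1 a.2 e0 e0_ne).2.2.2.2.2.2 v
    generalize Jp (gs F' a.2 e0, bilL (a.1.form e0), e0, I • e0) v = w at k1 k2 ⊢
    rw [G.base, reB_e0_AJFam, reB_Ie0_AJFam] at k1 k2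
    apply Complex.ext
    · simpa using k1
    · simpa using k2
  · intro k σ s x hx v
    have key := hI.2.1 (((hatL k).toLinearEquiv.restrictScalars ℝ).toContinuousLinearEquiv)
      _ _ _ _ (gs F' s (hat k x)) (bilL ((ac k σ).form (hat k x))) (G.ok σ s x hx)
      (fun u w => G.equiv s k x hx u w) (fun u w => by
        rw [bilL_apply, bilL_apply]
        exact hF.spec k σ x hx u w) v
    have e : I • hat k x = hat k (I • x) := ((hatL k).map_smul I x).symm
    rw [e]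
    exact key
  · intro y hy v
    have hD := hL.toHDiff
    have ok := G.ok om1 1 y hy
    rw [show ((1 : UI) : ℝ) = 1 from rfl, G.stop] at ok
    have key := hI.2.1 (ContinuousLinearEquiv.equivOfInverse (fderiv ℝ F y) (fderiv ℝ F' (F y))
      (hD.chain hy) (hD.chain' hy)) _ _ _ _ (gs F' 0 (F y)) (bilL (om0.form (F y))) ok
      (fun u w => G.start y hy u w) (fun u w => by
        rw [bilL_apply, bilL_apply]
        refine (hF.pull (F y) (hD.ne hy) _ _).trans ?_
        rw [ContinuousLinearEquiv.equivOfInverse_apply, ContinuousLinearEquiv.equivOfInverse_apply,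
          hD.chain hy, hD.chain hy, hD.left]) v
    have e1 : fderiv ℝ F y y = F y := by simpa using hD.fderiv_vert hy 1
    simp only [ContinuousLinearEquiv.equivOfInverse_apply] at key
    rw [hstop y hy, e1, hD.fderiv_vert hy I] at key
    exact key
  · intro x hx v
    rw [← hstop x hx v, ← G.stop]
    rfl

end Pool.Agent.MP_2fc7fa_gt.N

end
end

section

/-! Pull-back of symplectic forms by a homogeneous diffeomorphism. -/

open scoped ContDiff ComplexConjugate Topology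
open Set Complex Filter Metric

noncomputable section

namespace Pool.Agent.MP_2fc7fa_gt.N

/-- A covector as a one-form. -/
def r1_APull : (V →L[ℝ] ℝ) →L[ℝ] V [⋀^Fin 1]→L[ℝ] ℝ :=
  (ContinuousAlternatingMap.ofSubsingletonLIE (𝕜 := ℝ) (E := V) (F := ℝ)
    (0 : Fin 1)).toContinuousLinearEquiv.toContinuousLinearMap

theorem r1_apply_APull (l : V →L[ℝ] ℝ) (v : Fin 1 → V) : r1_APull l v = l (v 0) := rfl

/-- The skew part of a bilinear map as a two-form. -/
def r2_APull : Bil →L[ℝ] V [⋀^Fin 2]→L[ℝ] ℝ :=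
  (1 / 2 : ℝ) • (ContinuousAlternatingMap.alternatizeUncurryFinCLM (n := 1) ℝ V ℝ).comp
    (ContinuousLinearMap.compL ℝ V _ _ r1_APull)

theorem r2_apply_APull (B : Bil) (v : Fin 2 → V) :
    r2_APull B v = (1 / 2 : ℝ) * (B (v 0) (v 1) - B (v 1) (v 0)) := by
  have : r2_APull B v = (1 / 2 : ℝ) *
      (ContinuousAlternatingMap.alternatizeUncurryFin (r1_APull.comp B)) v := rfl
  rw [this, ContinuousAlternatingMap.alternatizeUncurryFin_apply]
  simp [Fin.sum_univ_two, r1_apply_APull, Fin.removeNth, sub_eq_add_neg]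

theorem contDiff1_APull : ContDiff ℝ ∞
    fun q : (V [⋀^Fin 1]→L[ℝ] ℝ) × Op => q.1.compContinuousLinearMap q.2 := by
  have e : (fun q : (V [⋀^Fin 1]→L[ℝ] ℝ) × Op => q.1.compContinuousLinearMap q.2) =
      fun q => r1_APull ((linL q.1).comp q.2) := by
    funext q
    ext v
    rw [ContinuousAlternatingMap.compContinuousLinearMap_apply, eq_linL, r1_apply_APull]
    rfl
  rw [e]
  exact r1_APull.contDiff.comp ((linL.contDiff.comp contDiff_fst).clm_comp contDiff_snd)

/-- Exchange of the two arguments. -/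
def fl_APull : Bil →L[ℝ] Bil :=
  LinearMap.toContinuousLinearMap
    { toFun := fun B => B.flip
      map_add' := fun B C => ContinuousLinearMap.flip_add B C
      map_smul' := fun c B => ContinuousLinearMap.flip_smul c B }

theorem fl_apply_APull (B : Bil) (u v : V) : fl_APull B u v = B v u := rfl

theorem contDiff2_APull : ContDiff ℝ ∞
    fun q : (V [⋀^Fin 2]→L[ℝ] ℝ) × Op => q.1.compContinuousLinearMap q.2 := by
  have e : (fun q : (V [⋀^Fin 2]→L[ℝ] ℝ) × Op => q.1.compContinuousLinearMap q.2) =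
      fun q => r2_APull (fl_APull ((fl_APull ((bilL q.1).comp q.2)).comp q.2)) := by
    funext q
    ext v
    rw [ContinuousAlternatingMap.compContinuousLinearMap_apply, eq_bilL, r2_apply_APull]
    have := bilL_skew q.1 (q.2 (v 1)) (q.2 (v 0))
    simp only [fl_apply_APull, ContinuousLinearMap.comp_apply, Function.comp_apply]
    linarith
  rw [e]
  have hf : ContDiff ℝ ∞ fun B : Bil => fl_APull B :=
    ContinuousLinearMap.contDiff (𝕜 := ℝ) (E := Bil) (F := Bil) fl_APull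
  have hr : ContDiff ℝ ∞ fun B : Bil => r2_APull B :=
    ContinuousLinearMap.contDiff (𝕜 := ℝ) (E := Bil) (F := V [⋀^Fin 2]→L[ℝ] ℝ) r2_APull
  have h1 : ContDiff ℝ ∞ fun q : (V [⋀^Fin 2]→L[ℝ] ℝ) × Op => ((bilL q.1).comp q.2 : Bil) :=
    (bilL.contDiff.comp contDiff_fst).clm_comp contDiff_snd
  have h2 : ContDiff ℝ ∞ fun q : (V [⋀^Fin 2]→L[ℝ] ℝ) × Op =>
      ((fl_APull ((bilL q.1).comp q.2)).comp q.2 : Bil) := (hf.comp h1).clm_comp contDiff_snd
  exact hr.comp (hf.comp h2)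

open Classical in
/-- The pull-back of a form, normalised to `0` at the origin. -/
def pbk_APull {k : ℕ} (F : V → V) (α : Form k) : Form k := fun x =>
  if x = 0 then 0 else (α (F x)).compContinuousLinearMap (fderiv ℝ F x)

theorem pbk_ne_APull {k : ℕ} (F : V → V) (α : Form k) {x : V} (hx : x ≠ 0) :
    pbk_APull F α x = (α (F x)).compContinuousLinearMap (fderiv ℝ F x) := if_neg hx

theorem pbk_zero_APull {k : ℕ} (F : V → V) (α : Form k) : pbk_APull F α 0 = 0 := if_pos rfl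

theorem sm_pbk_APull {k : ℕ} {F F' : V → V} (h : HDiff F F')
    (hk : ContDiff ℝ ∞ fun q : (V [⋀^Fin k]→L[ℝ] ℝ) × Op => q.1.compContinuousLinearMap q.2)
    {P : Type} [TopologicalSpace P] {α : P → Form k} (hα : Sm {0}ᶜ α) :
    Sm {0}ᶜ fun p => pbk_APull F (α p) := by
  have hU : IsOpen ({0}ᶜ : Set V) := isOpen_compl_singleton
  have hF : Sm {0}ᶜ fun _ : P => F := sm_of_contDiffOn hU.uniqueDiffOn h.smooth
  exact (((hα.comp hF fun _ x hx => h.ne hx).prod (hF.fderiv hU)).post' hk).congr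
    fun p x hx => pbk_ne_APull F (α p) hx

theorem cdo_pbk_APull {k : ℕ} {F F' : V → V} (h : HDiff F F')
    (hk : ContDiff ℝ ∞ fun q : (V [⋀^Fin k]→L[ℝ] ℝ) × Op => q.1.compContinuousLinearMap q.2)
    {α : Form k} (hα : ContDiffOn ℝ ∞ α {0}ᶜ) : ContDiffOn ℝ ∞ (pbk_APull F α) {0}ᶜ :=
  (sm_pbk_APull h hk (sm_of_contDiffOn (P := Unit) isOpen_compl_singleton.uniqueDiffOn
    hα)).contDiffOn isOpen_compl_singleton.uniqueDiffOn ()

theorem scale_pbk_APull {k : ℕ} {F F' : V → V} (h : HDiff F F') {α : Form k}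
    (hα : ∀ c : ℂ, c ≠ 0 → ∀ z v, α (c • z) (c • v) = α z v) (c : ℂ) (hc : c ≠ 0) (z : V)
    (v : Fin k → V) : pbk_APull F α (c • z) (c • v) = pbk_APull F α z v := by
  rcases eq_or_ne z 0 with rfl | hz
  · simp [pbk_zero_APull]
  · rw [pbk_ne_APull F α hz, pbk_ne_APull F α (smul_ne_zero hc hz),
      ContinuousAlternatingMap.compContinuousLinearMap_apply,
      ContinuousAlternatingMap.compContinuousLinearMap_apply, h.hom, ← hα c hc (F z)]
    congr 1
    funext i
    exact h.fderiv_scale hz hc (v i)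

theorem isForm_pbk_APull {k : ℕ} {F F' : V → V} (h : HDiff F F')
    (hk : ContDiff ℝ ∞ fun q : (V [⋀^Fin k]→L[ℝ] ℝ) × Op => q.1.compContinuousLinearMap q.2)
    {α : Form k} (hα : IsForm α) : IsForm (pbk_APull F α) := by
  refine ⟨cdo_pbk_APull h hk hα.smooth, scale_pbk_APull h hα.scale, fun z v i c hv => ?_,
    pbk_zero_APull F α⟩
  rcases eq_or_ne z 0 with rfl | hz
  · simp [pbk_zero_APull]
  · rw [pbk_ne_APull F α hz, ContinuousAlternatingMap.compContinuousLinearMap_apply]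
    refine hα.horiz _ _ i c ?_
    rw [Function.comp_apply, hv, h.fderiv_vert hz]

theorem ext_pbk_APull {k : ℕ} {F F' : V → V} (h : HDiff F F') {α : Form k}
    (hα : ContDiffOn ℝ ∞ α {0}ᶜ) {z : V} (hz : z ≠ 0) :
    extDeriv (pbk_APull F α) z = (extDeriv α (F z)).compContinuousLinearMap (fderiv ℝ F z) := by
  have h1 : DifferentiableAt ℝ α (F z) :=
    (hα.contDiffAt (isOpen_compl_singleton.mem_nhds (h.ne hz))).differentiableAt (by simp)
  rw [← extDeriv_pullback h1 ((h.cdAt hz).of_le (m := 2) (WithTop.coe_le_coe.2 le_top)) (by simp)]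
  exact EventuallyEq.extDeriv_eq
    (mem_of_superset (isOpen_compl_singleton.mem_nhds hz) fun y hy => pbk_ne_APull F α hy)

theorem theta_scale_APull (c : ℂ) (hc : c ≠ 0) (z : V) (v : Fin 1 → V) :
    theta (c • z) (c • v) = theta z v := by
  have h := inv_theta.lin (c := c) (a := 1) (b := 0) hc (by simp) z (v 0)
  rw [act_one, act_one] at h
  rw [eq_linL, eq_linL]
  exact h

theorem theta_zero_APull : theta 0 = 0 := by
  ext v
  rw [eq_linL, linL_theta]
  simp [her]

/-- The difference between the connection form and its pull-back. -/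
theorem isForm_diff_APull {F F' : V → V} (h : HDiff F F') :
    IsForm (pbk_APull F theta - theta) := by
  refine ⟨(cdo_pbk_APull h contDiff1_APull contDiffOn_theta).sub contDiffOn_theta,
    fun c hc z v => ?_, fun z v i c hv => ?_, ?_⟩
  · simp only [Pi.sub_apply, ContinuousAlternatingMap.sub_apply]
    rw [scale_pbk_APull h theta_scale_APull c hc, theta_scale_APull c hc]
  · rcases eq_or_ne z 0 with rfl | hz
    · simp [pbk_zero_APull, theta_zero_APull]
    · obtain rfl : i = 0 := Subsingleton.elim _ _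
      simp only [Pi.sub_apply, ContinuousAlternatingMap.sub_apply]
      rw [pbk_ne_APull F theta hz, ContinuousAlternatingMap.compContinuousLinearMap_apply, eq_linL,
        eq_linL, Function.comp_apply, hv, h.fderiv_vert hz, theta_horiz c (h.ne hz),
        theta_horiz c hz, sub_self]
  · simp [pbk_zero_APull, theta_zero_APull]

theorem isForm_add_APull {α β : Form 1} (hα : IsForm α) (hβ : IsForm β) : IsForm (α + β) := by
  refine ⟨hα.smooth.add hβ.smooth, fun c hc z v => ?_, fun z v i c hv => ?_, ?_⟩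
  · simp only [Pi.add_apply, ContinuousAlternatingMap.add_apply]
    rw [hα.scale c hc, hβ.scale c hc]
  · simp only [Pi.add_apply, ContinuousAlternatingMap.add_apply]
    rw [hα.horiz z v i c hv, hβ.horiz z v i c hv, add_zero]
  · simp [hα.zero, hβ.zero]

/-- The pull-back of a symplectic form. -/
def pb_APull {F F' : V → V} (h : HDiff F F') (σ : Symp 1) : Symp 1 where
  form := pbk_APull F σ.form
  isForm := isForm_pbk_APull h contDiff2_APull σ.isForm
  closed := fun z hz => by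
    rw [ext_pbk_APull h σ.isForm.smooth hz, σ.closed _ (h.ne hz)]
    ext v
    simp
  nondeg := fun z hz => by
    obtain ⟨a, b, c, d, hn⟩ := σ.nondeg (F z) (h.ne hz)
    have key : ∀ u v : V, pbk_APull F σ.form z ![fderiv ℝ F' (F z) u, fderiv ℝ F' (F z) v] =
        σ.form (F z) ![u, v] := fun u v => by
      rw [pbk_ne_APull F _ hz, ContinuousAlternatingMap.compContinuousLinearMap_apply, eq_bilL,
        ← bilL_apply]
      simp only [Function.comp_apply, Matrix.cons_val_zero, Matrix.cons_val_one, h.chain' hz]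
    refine ⟨fderiv ℝ F' (F z) a, fderiv ℝ F' (F z) b, fderiv ℝ F' (F z) c, fderiv ℝ F' (F z) d, ?_⟩
    simpa only [key] using hn
  cls := by
    obtain ⟨α, hα, hc⟩ := σ.cls
    refine ⟨(pbk_APull F theta - theta) + pbk_APull F α,
      isForm_add_APull (isForm_diff_APull h) (isForm_pbk_APull h contDiff1_APull hα),
      fun z hz => ?_⟩
    have hd : ∀ {β : Form 1}, ContDiffOn ℝ ∞ β {0}ᶜ → DifferentiableAt ℝ β z := fun hβ =>
      (hβ.contDiffAt (isOpen_compl_singleton.mem_nhds hz)).differentiableAt (by simp)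
    have h1 := hd (isForm_diff_APull h).smooth
    have h2 := hd (isForm_pbk_APull h contDiff1_APull hα).smooth
    have h3 := extDeriv_add h1 (hd contDiffOn_theta)
    rw [sub_add_cancel, ext_pbk_APull h contDiffOn_theta hz] at h3
    rw [extDeriv_add h1 h2, ext_pbk_APull h hα.smooth hz, one_smul, ← add_assoc,
      add_comm (extDeriv theta z), ← h3, pbk_ne_APull F _ hz, hc _ (h.ne hz), one_smul]
    ext v
    simp

theorem pullS : PullStmt := by
  intro F F' h
  refine ⟨pb_APull h, continuous_symp_iff.2 (sm_pbk_APull h contDiff2_APull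
    (continuous_symp_iff.1 continuous_id)), fun σ x hx u v => ?_⟩
  change pbk_APull F σ.form x ![u, v] = _
  rw [pbk_ne_APull F _ hx, ContinuousAlternatingMap.compContinuousLinearMap_apply, eq_bilL,
    ← bilL_apply]
  rfl

end Pool.Agent.MP_2fc7fa_gt.N

end
end

section

/-! The standard form, and the scaling of the cohomology class. -/

open scoped ContDiff ComplexConjugate Topology
open Set Complex Filter Metric

noncomputable section

namespace Pool.Agent.MP_2fc7fa_gt.N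

lemma deriv_AStd {x : V} (hx : x ≠ 0) (u v : V) : linL (fderiv ℝ theta x u) v =
    (nn x)⁻¹ * (her u v).im - (nn x)⁻¹ ^ 2 * (2 * (her x u).re) * (her x v).im := by
  have h0 := (nn_pos hx).ne'
  have h1 : HasDerivAt (fun t : ℝ => x + t • u) u 0 := by
    simpa using ((hasDerivAt_id' (0 : ℝ)).smul_const u).const_add x
  have h2 := hasDerivAt_lin (β := theta) (by
    simpa using (contDiffOn_theta.contDiffAt
      (isOpen_compl_singleton.mem_nhds hx)).differentiableAt (by simp)) h1 (hasDerivAt_const 0 v)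
  have e : (fun t : ℝ => linL (theta (x + t • u)) v) = fun t =>
      (nn x + t * (2 * (her x u).re) + t * t * nn u)⁻¹ * ((her x v).im + t * (her u v).im) := by
    funext t
    rw [linL_theta]
    congr 1
    · congr 1
      simp [nn, her, Fin.sum_univ_three, Complex.sq_norm, normSq_apply]
      ring
    · simp [her, Fin.sum_univ_three]
      ring
  have h3 := (((((hasDerivAt_id' (0 : ℝ)).mul_const (2 * (her x u).re)).const_add (nn x)).fun_add
    (((hasDerivAt_id' (0 : ℝ)).fun_mul (hasDerivAt_id' 0)).mul_const (nn u))).fun_inv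
    (by simpa using h0)).fun_mul
    (((hasDerivAt_id' (0 : ℝ)).mul_const (her u v).im).const_add (her x v).im)
  rw [e] at h2
  have h4 := h2.unique h3
  simp only [zero_smul, add_zero, map_zero, zero_mul, mul_zero, one_mul] at h4
  rw [h4]
  field_simp
  ring

lemma form_AStd {x : V} (hx : x ≠ 0) (u v : V) : dd theta x ![u, v] = omS (g1 x) x u v := by
  rw [← bilL_apply, dd_of_ne _ hx, bilL_extDeriv, deriv_AStd hx, deriv_AStd hx, omS]
  simp only [g1_apply]
  simp [her, Fin.sum_univ_three]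
  ring

theorem stdFS : StdFStmt := by
  have hU : IsOpen ({0}ᶜ : Set V) := isOpen_compl_singleton
  refine ⟨⟨dd theta, ⟨(sm_dd (sm_of_contDiffOn (P := Unit) hU.uniqueDiffOn
    contDiffOn_theta)).contDiffOn hU.uniqueDiffOn (), (inv_iff.1 good_theta.inv).1,
    fun z v i c h => ?_, if_pos rfl⟩, good_theta.closed, fun x hx => ?_, 0,
    ⟨contDiffOn_const, fun _ _ _ _ => rfl, fun _ _ _ _ _ => rfl, rfl⟩, fun z hz => ?_⟩,
    fun x hx => form_AStd hx⟩
  · rw [eq_bilL]
    fin_cases i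
    · exact (congrArg (bilL _ · _) h).trans (good_theta.horiz z c _)
    · rw [bilL_skew, neg_eq_zero]
      exact (congrArg (bilL _ · _) h).trans (good_theta.horiz z c _)
  · by_contra! h
    have h0 := h ![1, 0, 0] ![I, 0, 0] ![0, 1, 0] ![0, I, 0]
    have h1 := h ![1, 0, 0] ![I, 0, 0] ![0, 0, 1] ![0, 0, I]
    have h2 := h ![0, 1, 0] ![0, I, 0] ![0, 0, 1] ![0, 0, I]
    have h3 := inv_mul_cancel₀ (nn_pos hx).ne'
    have h4 := inv_ne_zero (nn_pos hx).ne'
    simp only [form_AStd hx, omS, g1_apply] at h0 h1 h2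
    generalize hN : (nn x)⁻¹ = N at h0 h1 h2 h3 h4
    simp [her, Fin.sum_univ_three] at h0 h1 h2
    simp only [nn, Fin.sum_univ_three, Complex.sq_norm, normSq_apply] at h3
    exact pow_ne_zero 2 h4 (by linear_combination (h0 + h1 + h2) / 4 + 2 * N ^ 2 * h3)
  · rw [dd_of_ne _ hz, one_smul, ← zero_smul ℝ theta, extDeriv_smul, zero_smul, add_zero]

lemma isForm_AStd {k : ℕ} {α : Form k} (h : IsForm α) (c : ℝ) : IsForm (c • α) :=
  ⟨h.smooth.const_smul c, fun a ha z v => congrArg (c * ·) (h.scale a ha z v),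
    fun z v i a e => (congrArg (c * ·) (h.horiz z v i a e)).trans (mul_zero c),
    (congrArg (c • ·) h.zero).trans (smul_zero c)⟩

/-- Multiplication of a form by a constant. -/
def sc_AStd {l l' c : ℝ} (hc : c ≠ 0) (h : l' = c * l) (σ : Symp l) : Symp l' where
  form := c • σ.form
  isForm := isForm_AStd σ.isForm c
  closed := fun z hz => by rw [extDeriv_smul, σ.closed z hz, smul_zero]
  nondeg := fun z hz => by
    obtain ⟨a, b, d, e, h1⟩ := σ.nondeg z hz
    refine ⟨a, b, d, e, fun h2 => h1 (mul_left_cancel₀ (pow_ne_zero 2 hc) ?_)⟩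
    simp only [Pi.smul_apply, ContinuousAlternatingMap.smul_apply, smul_eq_mul] at h2
    linear_combination h2
  cls := by
    obtain ⟨α, h1, h2⟩ := σ.cls
    exact ⟨c • α, isForm_AStd h1 c, fun z hz => by
      rw [Pi.smul_apply, h2 z hz, extDeriv_smul, smul_add, smul_smul, h]⟩

lemma cont_AStd {l l' c : ℝ} (hc : c ≠ 0) (h : l' = c * l) : Continuous (sc_AStd hc h) :=
  continuous_symp_iff.2
    ((sm_const (c := fun _ => c) continuous_const).smul (continuous_symp_iff.1 continuous_id))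

theorem scaleS : ScaleStmt := by
  intro l hl _
  exact Homeomorph.contractibleSpace (Y := Symp l)
    { toFun := sc_AStd hl (mul_one l).symm
      invFun := sc_AStd (inv_ne_zero hl) (inv_mul_cancel₀ hl).symm
      left_inv := fun σ => Symp.ext' fun x _ u v => inv_mul_cancel_left₀ hl _
      right_inv := fun σ => Symp.ext' fun x _ u v => mul_inv_cancel_left₀ hl _
      continuous_toFun := cont_AStd _ _
      continuous_invFun := cont_AStd _ _ }

end Pool.Agent.MP_2fc7fa_gt.N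

end
end

section

/-! The lift to `ℂ³` of a diffeomorphism of the affine chart. -/

open scoped ContDiff ComplexConjugate Topology
open Set Complex Filter Metric

noncomputable section

namespace Pool.Agent.MP_2fc7fa_gt.N

/-- Affine coordinates. -/
def aff_ALift (x : V) : W := (x 0)⁻¹ • (x 1, x 2)

open Classical in
/-- The homogeneous lift. -/
def lift_ALift (g : W → W) (x : V) : V :=
  if x 0 = 0 then x else x 0 • vec 1 (g (aff_ALift x))

theorem vec_aff_ALift {x : V} (h : x 0 ≠ 0) : x 0 • vec 1 (aff_ALift x) = x := by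
  ext a
  fin_cases a <;> simp [vec, aff_ALift, h]

theorem lift_vec_ALift (g : W → W) {c : ℂ} (hc : c ≠ 0) (y : W) :
    lift_ALift g (c • vec 1 y) = c • vec 1 (g y) := by
  have h0 : (c • vec 1 y) 0 = c := by simp [vec]
  have h1 : aff_ALift (c • vec 1 y) = y := by
    ext <;> simp [aff_ALift, vec, hc]
  rw [lift_ALift, h0, if_neg hc, h1]

theorem lift_zero_ALift (g : W → W) {x : V} (h : x 0 = 0) : lift_ALift g x = x := if_pos h

theorem lift_fix_ALift {g : W → W} {x : V} (h : x 0 ≠ 0 → g (aff_ALift x) = aff_ALift x) :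
    lift_ALift g x = x := by
  by_cases h0 : x 0 = 0
  · exact lift_zero_ALift g h0
  · rw [lift_ALift, if_neg h0, h h0, vec_aff_ALift h0]

theorem cases_ALift (x : V) : x 0 = 0 ∨ ∃ (c : ℂ) (y : W), c ≠ 0 ∧ x = c • vec 1 y := by
  by_cases h0 : x 0 = 0
  · exact Or.inl h0
  · exact Or.inr ⟨_, _, h0, (vec_aff_ALift h0).symm⟩

theorem cd_aff_ALift {x : V} (h : x 0 ≠ 0) : ContDiffAt ℝ ∞ aff_ALift x := by
  unfold aff_ALift
  have h1 : ContDiffAt ℝ ∞ (fun y : V => (y 0)⁻¹) x := ContDiffAt.inv (by fun_prop) h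
  exact h1.smul (by fun_prop)

theorem smooth_ALift {g : W → W} (hg : ContDiff ℝ ∞ g) (hs : ∀ z, 1000 ≤ nsq z → g z = z) :
    ContDiffOn ℝ ∞ (lift_ALift g) {0}ᶜ := by
  intro x hx
  refine ContDiffAt.contDiffWithinAt ?_
  by_cases h0 : x 0 = 0
  · have h1 : 1000 * ‖x 0‖ ^ 2 < ‖x 1‖ ^ 2 + ‖x 2‖ ^ 2 := by
      have h2 := nn_pos (show x ≠ 0 from hx)
      simpa [nn, Fin.sum_univ_three, h0] using h2
    have h2 : ∀ᶠ y : V in 𝓝 x, 1000 * ‖y 0‖ ^ 2 < ‖y 1‖ ^ 2 + ‖y 2‖ ^ 2 :=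
      ContinuousAt.eventually_lt (Continuous.continuousAt (by fun_prop))
        (Continuous.continuousAt (by fun_prop)) h1
    refine contDiffAt_id.congr_of_eventuallyEq (h2.mono fun y hy => lift_fix_ALift fun h => ?_)
    refine hs _ ?_
    have h3 : 0 < ‖y 0‖ ^ 2 := by positivity
    have h4 : nsq (aff_ALift y) = (‖y 1‖ ^ 2 + ‖y 2‖ ^ 2) / ‖y 0‖ ^ 2 := by
      simp only [nsq, aff_ALift, Prod.smul_mk, smul_eq_mul, norm_mul, norm_inv]
      field_simp
    rw [h4, le_div_iff₀ h3]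
    exact hy.le
  · have h1 : ∀ᶠ y : V in 𝓝 x, y 0 ≠ 0 := (continuous_apply 0).continuousAt.eventually_ne h0
    have h2 : ContDiff ℝ ∞ (vec 1) := by
      refine contDiff_pi.2 fun a => ?_
      fin_cases a <;> simp only [vec] <;> simp <;> fun_prop
    have h3 : ContDiffAt ℝ ∞ (fun y : V => y 0 • vec 1 (g (aff_ALift y))) x :=
      (contDiffAt_apply ℝ ℂ (0 : Fin 3) x).smul ((h2.comp hg).contDiffAt.comp x (cd_aff_ALift h0))
    exact h3.congr_of_eventuallyEq (h1.mono fun y hy => if_neg hy)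

theorem near_ALift {g : W → W} (hs : ∀ z, nsq z ≤ 1 / 100 → g z = z) :
    ∀ᶠ x in 𝓝 e0, lift_ALift g x = x := by
  have h1 : ContinuousAt aff_ALift e0 := (cd_aff_ALift (by simp [e0, vec])).continuousAt
  have h2 : Continuous nsq := by unfold nsq; fun_prop
  have h3 : ∀ᶠ x in 𝓝 e0, nsq (aff_ALift x) < 1 / 100 :=
    (h2.continuousAt.comp h1).eventually_lt_const (by simp [nsq, aff_ALift, e0, vec])
  exact h3.mono fun x hx => lift_fix_ALift fun _ => hs _ hx.le

theorem inv_ALift {g g' : W → W} (h : Function.LeftInverse g' g) (x : V) :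
    lift_ALift g' (lift_ALift g x) = x := by
  rcases cases_ALift x with h0 | ⟨c, y, hc, rfl⟩
  · rw [lift_zero_ALift g h0, lift_zero_ALift g' h0]
  · rw [lift_vec_ALift g hc, lift_vec_ALift g' hc, h]

theorem liftFS : LiftFStmt := by
  intro f f' hf sf sf' hl hr
  have hs : ∀ z, nsq z ≤ 1 / 100 ∨ 1000 ≤ nsq z → f' z = z := fun z hz => by
    conv_lhs => rw [← hf.supp z hz, hl]
  refine ⟨lift_ALift f, lift_ALift f', ⟨smooth_ALift sf fun z hz => hf.supp z (Or.inr hz),
    smooth_ALift sf' fun z hz => hs z (Or.inr hz), inv_ALift hl, inv_ALift hr, fun c x => ?_⟩,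
    fun k x => ?_, fun y => ?_, near_ALift fun z hz => hf.supp z (Or.inl hz),
    near_ALift fun z hz => hs z (Or.inl hz)⟩
  · rcases cases_ALift x with h0 | ⟨c', y, hc', rfl⟩
    · rw [lift_zero_ALift f h0, lift_zero_ALift f (by simp [h0])]
    · rcases eq_or_ne c 0 with rfl | hc
      · rw [zero_smul, zero_smul, lift_zero_ALift f rfl]
      · rw [smul_smul, lift_vec_ALift f (mul_ne_zero hc hc'), lift_vec_ALift f hc', smul_smul]
  · rcases cases_ALift x with h0 | ⟨c, y, hc, rfl⟩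
    · rw [lift_zero_ALift f h0, lift_zero_ALift f (by simp [hat, h0])]
    · rw [lift_vec_ALift f hc, (hdiff_hat k).hom, (hdiff_hat k).hom, hat_vec, hat_vec,
        lift_vec_ALift f hc, hf.equiv]
  · simpa using lift_vec_ALift f one_ne_zero y

end Pool.Agent.MP_2fc7fa_gt.N

end
end

section

/-! The group action on forms and the two invariant forms. -/

open scoped ContDiff ComplexConjugate Topology
open Set Complex Filter Metric

noncomputable section

namespace Pool.Agent.MP_2fc7fa_gt.N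

theorem her_AForms (k : Zp) (u v : V) : her (hat k u) (hat k v) = her u v := by
  refine Finset.sum_congr rfl fun j _ => ?_
  simp only [hat, map_mul, conj_rt]
  linear_combination (conj (u j) * v j) * rt_mul_neg (k * wt j)

theorem nn_AForms (k : Zp) (x : V) : nn (hat k x) = nn x := by
  simp [nn, hat, norm_rt]

theorem omS_AForms (k : Zp) (x u v : V) :
    omS (g1 (hat k x)) (hat k x) (hat k u) (hat k v) = omS (g1 x) x u v := by
  have h : ∀ u, I • hat k u = hat k (I • u) := fun u => ((hatL k).map_smul I u).symm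
  simp only [omS, g1_apply, h, her_AForms, nn_AForms]

theorem formsS (hP : PullStmt) (hS : StdFStmt) : FormsStmt := by
  intro f F F' hL
  obtain ⟨om1, h1⟩ := hS
  choose ac hc hac using fun k => hP _ _ (hdiff_hat (-k))
  obtain ⟨pb, -, hpb⟩ := hP _ _ hL.toHDiff.symm
  have h2 : ∀ k σ x, x ≠ 0 → ∀ u v, (ac k σ).form x ![u, v] =
      σ.form (hat (-k) x) ![hat (-k) u, hat (-k) v] := fun k σ x hx u v => by
    rw [hac k σ x hx, fderiv_hat, fderiv_hat]
  have h3 : ∀ k x, hat (-k) (hat k x) = x := fun k => (hdiff_hat k).left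
  have h4 : ∀ k, ac k om1 = om1 := fun k => Symp.ext' fun x hx u v => by
    rw [h2 _ _ _ hx, h1 _ hx, h1 _ (hat_ne _ hx), omS_AForms]
  refine ⟨ac, pb om1, om1, hc, fun σ => Symp.ext' fun x hx u v => ?_,
    fun k k' σ => Symp.ext' fun x hx u v => ?_, fun k => Symp.ext' fun x hx u v => ?_, h4,
    fun k σ x hx u v => ?_, h1, hpb om1⟩
  · simp only [h2 _ _ _ hx, neg_zero, hat_zero]
  · simp only [h2 _ _ _ hx, h2 _ _ _ (hat_ne _ hx), ← hat_add, neg_add_rev]
  · have e1 : ∀ x, F' (hat (-k) x) = hat (-k) (F' x) := fun x => by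
      conv_lhs => rw [← hL.right x, ← hL.equiv, hL.left]
    have e2 : ∀ u, fderiv ℝ F' (hat (-k) x) (hat (-k) u) = hat (-k) (fderiv ℝ F' x u) :=
      hL.toHDiff.symm.fderiv_comm
        ((hatL (-k)).toLinearEquiv.restrictScalars ℝ).toContinuousLinearEquiv e1 hx
    rw [h2 _ _ _ hx, hpb _ _ hx, hpb _ _ (hat_ne _ hx), e1, e2, e2,
      ← h2 _ _ _ (hL.toHDiff.symm.ne hx), h4]
  · rw [h2 _ _ _ (hat_ne _ hx), h3, h3, h3]

end Pool.Agent.MP_2fc7fa_gt.N

end
end

section

/-! Part A. -/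

namespace Pool.Agent.MP_2fc7fa_gt.N

theorem glue (hC : ChordStmt) : GlueStmt :=
  asm_Glue scaleS liftFS (formsS pullS stdFS) cubeS (jFamS jInvS jAlgS jSmS gsS) frameS keyS
    near0S nearInfS hC

end Pool.Agent.MP_2fc7fa_gt.N

end
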