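import Pool.Agent.Mg.F2fc7fa.Gc5f32d

section

/-! Part F: assembly from the statements of the interface. -/

open Set

namespace Pool.Agent.MP_2fc7fa_gt.N.Fp

theorem asmF (hL : LamStmt) (hC : ClusStmt) (hB : BuildStmt) (hR : ReduceStmt) (hLoc : LocalStmt)
    (hEx : LimExStmt) (hCh : LimCharStmt) (hG : LimGoodStmt) (hJ : LimJacStmt) (hT : TopStmt)
    (hI : IftStmt) (hN : NondegStmt) : FStmt := by
  obtain ⟨c, hc, hcl⟩ := hC
  obtain ⟨⟨X₀, hX₀⟩, huq⟩ := hEx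
  set k : ℝ := min (c / 10) (1 / 160) with hk
  have hk0 : 0 < k := lt_min (by positivity) (by norm_num)
  have hk1 : k ≤ 1 / 160 := min_le_right _ _
  have hk2 : 10 * k ≤ c := by linarith [min_le_left (c / 10) (1 / 160)]
  obtain ⟨hz, hg⟩ := hG k X₀ hk0 hk1 hX₀
  obtain ⟨δ₀, hδ₀, hδ⟩ := hI (Red k) KK (Good k) X₀ (hT.2 k).2 hT.1 (hT.2 k).1 hg hz
    (fun X h1 h2 => huq _ _ (hCh k X h1 h2) hX₀) (hJ k X₀ hX₀)
  set δ : ℝ := min (δ₀ / 2) (1 / 400) with hd
  have hd0 : 0 < δ := lt_min (by positivity) (by norm_num)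
  have hd1 : δ ≤ 1 / 400 := min_le_right _ _
  have hd2 : |δ| < δ₀ := by
    rw [abs_of_pos hd0]; linarith [min_le_left (δ₀ / 2) (1 / 400)]
  obtain ⟨X, hXg, hXz, hXj, hXu⟩ := hδ δ hd2
  have hek : k * δ / k = δ := by field_simp
  have hp : Par k (k * δ) := ⟨by positivity, by nlinarith, hk1, fun u hu v hv h1 h2 =>
    hcl u hu v hv (h1.trans hk2) (h2.trans hk2)⟩
  obtain ⟨F, F', hF, hF', hl, hr, hs⟩ := hB k _ hp
  rw [← hek] at hXg hXz hXj hXu
  generalize k * δ = e at *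
  refine ⟨F, F', ⟨hF.smooth.continuous, hl.injective, hs, hF.equiv, ?_⟩, hF.smooth, hF', hl, hr⟩
  obtain ⟨l1, l2, l3⟩ := hLoc k e F X hp hF hXg
  have hnd := hN k e F X hp hF hXg hXz hXj
  obtain ⟨-, -, -, La, -, Le, Lr, -, Ln, -, -, Lz⟩ := hL
  obtain ⟨g1, g2, g3, g4, -, -, g7, g8, g9, g10, g11, g12, g13, g14⟩ := hXg
  have he := hp.pos
  have he' : e ≤ 1 / 64000 := by linarith [hp.le]
  have hke : k * (e / k) = e := by field_simp
  simp only at g1 g2 g3 g4 g7 g8 g9 g10 g11 g12 g13 g14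
  rw [hke] at g14
  have harg : Complex.arg (Lam (cA k e X)).1 = 2 * Real.pi * X.1 / 37 :=
    (La (cA k e X) (by show |X.1| < 37 / 2; rw [abs_lt]; constructor <;> linarith)).2.2
  have hpi := Real.pi_pos
  obtain ⟨z2, z3⟩ := Lz (cA k e X) (by show |X.1| ≤ 1 / 10; rw [abs_le]; constructor <;> linarith)
    (by
      show |1 + e * X.2.1 - 1| ≤ 1 / 100
      rw [add_sub_cancel_left, abs_mul, abs_of_pos he]; nlinarith [abs_nonneg X.2.1])
    (by
      show |e * X.2.2.1| ≤ 1 / 100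
      rw [abs_mul, abs_of_pos he]; nlinarith [abs_nonneg X.2.2.1])
  have eM : Real.exp (Xi k e X).2.1 • (Xi k e X).1 = Lam (cM k e X) := by
    show Real.exp _ • Lam (cA k e X) = _
    rw [Lr]; simp [cA, cM, Xi]
  have eB : Real.exp (Xi k e X).2.2 • (Xi k e X).1 = Lam (cB e X) := by
    show Real.exp _ • Lam (cA k e X) = _
    rw [Lr]; simp [cA, cB, Xi]
  have r1 := congrArg (fun y : E6 => y.1) hXz
  have r2 := congrArg (fun y : E6 => y.2.1) hXz
  have r3 := congrArg (fun y : E6 => y.2.2.1) hXz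
  have r4 := congrArg (fun y : E6 => y.2.2.2.1) hXz
  have r5 := congrArg (fun y : E6 => y.2.2.2.2.1) hXz
  have r6 := congrArg (fun y : E6 => y.2.2.2.2.2) hXz
  simp only [Red, Prod.fst_zero, Prod.snd_zero] at r1 r2 r3 r4 r5 r6
  rw [hke] at r6
  have r4' : k * (Fo (pB X)).2.1 = e * (Fo (pM (e / k) X)).2.1 := by
    rw [sub_eq_zero.1 r4, ← mul_assoc, hke]
  have r5' : k * (Fo (pB X)).2.2.1 = e * (Fo (pM (e / k) X)).2.2.1 := by
    rw [sub_eq_zero.1 r5, ← mul_assoc, hke]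
  refine ⟨(Xi k e X).1, (Xi k e X).2.1, (Xi k e X).2.2, Ln _, z2, ?_, ?_, z3, ?_, ?_,
    ⟨(tB k X).1 - (tA k e X).1, ?_, (tB k X).1 - (tM k e X).1, ?_, ?_, ?_⟩, ?_, hnd⟩
  · show Complex.arg (Lam (cA k e X)).1 ≠ 0
    rw [harg]; apply ne_of_lt; nlinarith
  · show |Complex.arg (Lam (cA k e X)).1| < Real.pi / 37
    rw [harg, abs_lt]; constructor <;> nlinarith
  · show 0 < k * X.2.2.2.2.1 - k * X.2.2.2.1
    nlinarith
  · show k * X.2.2.2.2.1 - k * X.2.2.2.1 < -X.1 + e * X.2.2.2.2.2 - k * X.2.2.2.1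
    linarith
  · simp only [tA, tB]; constructor <;> linarith
  · simp only [tM, tB]; constructor <;> linarith [(abs_lt.1 g11).1]
  · rw [eB, l3]
    show _ = ee _ • F (Lam (cA k e X))
    rw [l1, Le]
    congr 1
    simp only [tA, tB, sh, Prod.mk.injEq]
    refine ⟨by ring, ?_, ?_, ?_⟩
    · rw [sub_eq_zero.1 r1]
    · rw [sub_eq_zero.1 r2]
    · rw [sub_eq_zero.1 r3]
  · rw [eB, eM, l3, l2, Le]
    congr 1
    simp only [tM, tB, sh, Prod.mk.injEq]
    exact ⟨by ring, by rw [r4'], r5', by linarith⟩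
  · intro z α β h0 h1 h2 D₁ hD₁ D₂ hD₂ q1 q2
    obtain ⟨Y, j, y1, y2, y3, y4, y5⟩ := hR k e F hp hF z α β h0 h1 h2 D₁ hD₁ D₂ hD₂ q1 q2
    rw [hXu Y y1 y2] at y3 y4 y5
    exact ⟨j, y3, y4, y5⟩

end Pool.Agent.MP_2fc7fa_gt.N.Fp

end

section

/-! The Jacobian of the limit system is invertible. -/

open scoped ContDiff Topology
open Set Real

noncomputable section

namespace Pool.Agent.MP_2fc7fa_gt.N.Fp

theorem FoA0_FLimJac (t w : ℝ) : (Fo (t, 0, 0, w)).1 = 17 / 4 + (t - 17 / 4) *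
    (cos (phO ((t - 17 / 4) ^ 2)) ^ 2 + sin (phO ((t - 17 / 4) ^ 2)) ^ 2 * cos (th w)) := by
  simp [Fo, tw, sh, rX, rN, rP, qq]
  ring

theorem FoA1_FLimJac (t w : ℝ) : (Fo (t, 0, 0, w)).2.1 = (t - 17 / 4) *
    (cos (th w) * (sin (phO ((t - 17 / 4) ^ 2)) * cos (phO ((t - 17 / 4) ^ 2)) * (1 - cos (th w))) +
      sin (th w) * sin (th w) * sin (phO ((t - 17 / 4) ^ 2))) := by
  simp [Fo, tw, sh, rX, rN, rP, qq]
  ring

theorem FoA2_FLimJac (t w : ℝ) : (Fo (t, 0, 0, w)).2.2.1 = (t - 17 / 4) *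
    (sin (th w) * (sin (phO ((t - 17 / 4) ^ 2)) * cos (phO ((t - 17 / 4) ^ 2)) * (1 - cos (th w))) -
      cos (th w) * sin (th w) * sin (phO ((t - 17 / 4) ^ 2))) := by
  simp [Fo, tw, sh, rX, rN, rP, qq]
  ring

theorem th_zero_FLimJac (hS : StStmt) : th 0 = π := by
  rw [th, zero_add, hS.1]; ring

theorem FoB1_FLimJac (hS : StStmt) (x a b : ℝ) : (Fo (x, a, b, 0)).2.1 =
    cos (2 * phO ((x - 17 / 4) ^ 2 + a ^ 2 + b ^ 2)) * a -
      sin (2 * phO ((x - 17 / 4) ^ 2 + a ^ 2 + b ^ 2)) * (x - 17 / 4) := by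
  rw [cos_two_mul', sin_two_mul]
  simp [Fo, tw, sh, rX, rN, rP, qq, th_zero_FLimJac hS]
  ring

theorem FoB2_FLimJac (hS : StStmt) (x a b : ℝ) : (Fo (x, a, b, 0)).2.2.1 = b := by
  simp [Fo, tw, sh, rX, rN, rP, qq, th_zero_FLimJac hS]

theorem line_FLimJac (a b : ℝ) : HasDerivAt (fun τ : ℝ => a + τ * b) b 0 := by
  simpa using ((hasDerivAt_id (0 : ℝ)).mul_const b).const_add a

theorem proj_FLimJac {E : Type} [NormedAddCommGroup E] [NormedSpace ℝ E] {f : ℝ → ℝ × E}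
    (h : HasDerivAt f 0 0) :
    HasDerivAt (fun τ => (f τ).1) 0 0 ∧ HasDerivAt (fun τ => (f τ).2) 0 0 :=
  ⟨(hasFDerivAt_fst (𝕜 := ℝ) (p := f 0)).comp_hasDerivAt 0 h,
    (hasFDerivAt_snd (𝕜 := ℝ) (p := f 0)).comp_hasDerivAt 0 h⟩

theorem dphO_FLimJac (hS : StStmt) {q₀ : ℝ} (h : (q₀ - 1849 / 100) * (320 / 69) ∈ Ioo (0 : ℝ) 1) :
    ∃ d : ℝ, 0 < d ∧ HasDerivAt phO d q₀ := by
  obtain ⟨d, hd, h1⟩ := hS.2.2 _ h
  exact ⟨π * (d * (1 * (320 / 69))), by positivity,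
    (h1.comp q₀ (((hasDerivAt_id q₀).sub_const _).mul_const _)).const_mul π⟩

theorem dth_FLimJac (hS : StStmt) {w : ℝ} (h : w + 1 / 2 ∈ Ioo (0 : ℝ) 1) :
    ∃ d : ℝ, 0 < d ∧ HasDerivAt th d w := by
  obtain ⟨d, hd, h1⟩ := hS.2.2 _ h
  exact ⟨2 * π * (d * 1), by positivity,
    (h1.comp w ((hasDerivAt_id w).add_const _)).const_mul (2 * π)⟩

theorem phO_half_FLimJac (hS : StStmt) {q : ℝ} (h : q = 59513 / 3200) : phO q = π / 2 := by
  rw [phO, h, show ((59513 : ℝ) / 3200 - 1849 / 100) * (320 / 69) = 1 / 2 by norm_num, hS.1]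
  ring

theorem stepA_FLimJac (hS : StStmt) {t dt dw : ℝ} (ht : (t - 17 / 4) ^ 2 = 59513 / 3200)
    (h1 : HasDerivAt (fun τ : ℝ => (Fo (t + τ * dt, 0, 0, 0 + τ * dw)).2.1) 0 0)
    (h2 : HasDerivAt (fun τ : ℝ => (Fo (t + τ * dt, 0, 0, 0 + τ * dw)).2.2.1) 0 0) :
    dt = 0 ∧ dw = 0 := by
  obtain ⟨d, hd, hφ⟩ := dphO_FLimJac hS (q₀ := (t - 17 / 4) ^ 2) (by rw [ht]; norm_num)
  obtain ⟨d', hd', hθ⟩ := dth_FLimJac hS (w := 0) (by norm_num)
  have hs := (line_FLimJac t dt).sub_const (17 / 4)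
  have hφ' := hφ.comp_of_eq 0 (hs.pow 2) (by simp)
  have hθ' := hθ.comp_of_eq 0 (line_FLimJac 0 dw) (by simp)
  have hs0 : t - 17 / 4 ≠ 0 := fun h => by rw [h] at ht; norm_num at ht
  simp only [FoA1_FLimJac] at h1
  simp only [FoA2_FLimJac] at h2
  have e1 := h1.unique (hs.mul ((hθ'.cos.mul ((hφ'.sin.mul hφ'.cos).mul
    (hθ'.cos.const_sub 1))).add ((hθ'.sin.mul hθ'.sin).mul hφ'.sin)))
  have e2 := h2.unique (hs.mul ((hθ'.sin.mul ((hφ'.sin.mul hφ'.cos).mul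
    (hθ'.cos.const_sub 1))).sub ((hθ'.cos.mul hθ'.sin).mul hφ'.sin)))
  simp [phO_half_FLimJac hS ht, th_zero_FLimJac hS, hs0, hd.ne', hd'.ne'] at e1 e2
  exact ⟨e1, e2⟩

theorem stepB_FLimJac (hS : StStmt) {x a da r : ℝ} (hr : 43 / 10 < r) (hr' : r ^ 2 < 59513 / 3200)
    (hx0 : x - 17 / 4 < 0) (hx : r * cos (2 * phO (r ^ 2)) = x - 17 / 4)
    (ha : a = r * sin (2 * phO (r ^ 2)))
    (h1 : HasDerivAt (fun τ : ℝ => (Fo (x, a + τ * da, 0, 0)).2.1) 0 0) : da = 0 := by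
  have hq : (x - 17 / 4) ^ 2 + a ^ 2 = r ^ 2 := by
    rw [← hx, ha, mul_pow, mul_pow, ← mul_add, cos_sq_add_sin_sq, mul_one]
  have hy0 : 0 < (r ^ 2 - 1849 / 100) * (320 / 69) := by nlinarith
  have hy1 : (r ^ 2 - 1849 / 100) * (320 / 69) < 1 / 2 := by linarith
  obtain ⟨d, hd, hφ⟩ := dphO_FLimJac hS (q₀ := r ^ 2) ⟨hy0, by linarith⟩
  have hl := line_FLimJac a da
  have hφ' := (hφ.comp_of_eq 0 (((hl.pow 2).const_add ((x - 17 / 4) ^ 2)).add_const (0 ^ 2))
    (by simp [hq])).const_mul 2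
  simp only [FoB1_FLimJac hS] at h1
  have e1 := h1.unique ((hφ'.cos.mul hl).sub (hφ'.sin.mul_const (x - 17 / 4)))
  have hsin : 0 ≤ sin (2 * phO (r ^ 2)) := by
    have h2 := hS.2.1 ⟨hy0.le, by linarith⟩ ⟨by norm_num, by norm_num⟩ hy1
    have h3 : 0 ≤ St ((r ^ 2 - 1849 / 100) * (320 / 69)) := smoothTransition.nonneg _
    rw [hS.1] at h2
    refine sin_nonneg_of_nonneg_of_le_pi ?_ ?_ <;> unfold phO <;> nlinarith [pi_pos]
  have hr0 : 0 < r := by linarith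
  have hcos : cos (2 * phO (r ^ 2)) < 0 := by
    by_contra h
    nlinarith [mul_nonneg hr0.le (not_lt.1 h)]
  simp only [Function.comp_apply, Pi.pow_apply, zero_mul, add_zero, hq, ne_eq, OfNat.ofNat_ne_zero,
    not_false_eq_true, zero_pow, Nat.cast_ofNat, Nat.add_one_sub_one, pow_one] at e1
  have e2 : da * (cos (2 * phO (r ^ 2)) - 4 * d * r * a) = 0 := by
    rw [← hx] at e1
    have := sin_sq_add_cos_sq (2 * phO (r ^ 2))
    linear_combination (-1) * e1 + 4 * d * a * da * sin (2 * phO (r ^ 2)) * ha +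
      4 * d * r * a * da * this
  have ha0 : 0 ≤ a := ha ▸ mul_nonneg hr0.le hsin
  refine (mul_eq_zero.1 e2).resolve_right (ne_of_lt ?_)
  have : 0 ≤ 4 * d * r * a := by positivity
  linarith

theorem stepM_FLimJac (hS : StStmt) {t w dw : ℝ} (ht : (t - 17 / 4) ^ 2 = 59513 / 3200)
    (hw0 : 0 < w) (hw1 : w < 1 / 2) (hc : (17 / 4 - t) * cos (th w) = 15 / 4)
    (h1 : HasDerivAt (fun τ : ℝ => (Fo (t, 0, 0, w + τ * dw)).1) 0 0) : dw = 0 := by
  obtain ⟨d, hd, hθ⟩ := dth_FLimJac hS (w := w) ⟨by linarith, by linarith⟩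
  have hθ' := hθ.comp_of_eq 0 (line_FLimJac w dw) (by simp)
  simp only [FoA0_FLimJac, phO_half_FLimJac hS ht] at h1
  have e1 := h1.unique ((((hθ'.cos.const_mul _).const_add _).const_mul _).const_add _)
  have hs0 : t - 17 / 4 ≠ 0 := fun h => by rw [h] at ht; norm_num at ht
  have hsin : sin (th w) ≠ 0 := fun h => by
    have h2 := sin_sq_add_cos_sq (th w)
    rw [h] at h2
    have h3 : ((17 / 4 - t) * cos (th w)) ^ 2 = 59513 / 3200 := by
      linear_combination ht + (t - 17 / 4) ^ 2 * h2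
    rw [hc] at h3
    norm_num at h3
  simpa [hs0, hsin, hd.ne'] using e1

theorem limJacS (hS : StStmt) (hM : ModelStmt) : LimJacStmt := by
  rintro k ⟨t, z₁, z₂, wa, w, wb⟩ ⟨ht0, ht, hz₂, hwa, hwb, hw0, hw1, hc, r, hr, hr', hx, ha⟩
  dsimp only at ht0 ht hz₂ hwa hwb hw0 hw1 hc hr' hx ha
  subst hz₂ hwa hwb
  have hFo : Differentiable ℝ Fo := hM.2.2.2.2.1.differentiable (by simp)
  have hR : Differentiable ℝ fun Y => Red k (0, Y) := by
    unfold Red pA pM pB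
    generalize Fo = G at hFo ⊢
    fun_prop
  rw [injective_iff_map_eq_zero]
  rintro ⟨dt, dz₁, dz₂, dwa, dw, dwb⟩ hv
  have hl : HasDerivAt (fun τ : ℝ => ((t + τ * dt, z₁ + τ * dz₁, 0 + τ * dz₂, 0 + τ * dwa,
      w + τ * dw, 0 + τ * dwb) : E6)) (dt, dz₁, dz₂, dwa, dw, dwb) 0 :=
    (line_FLimJac _ _).prodMk ((line_FLimJac _ _).prodMk ((line_FLimJac _ _).prodMk
      ((line_FLimJac _ _).prodMk ((line_FLimJac _ _).prodMk (line_FLimJac _ _)))))
  have H := (hR (t, z₁, 0, 0, w, 0)).hasFDerivAt.comp_hasDerivAt_of_eq 0 hl (by simp)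
  rw [hv] at H
  obtain ⟨H1, H⟩ := proj_FLimJac H
  obtain ⟨H2, H⟩ := proj_FLimJac H
  obtain ⟨H3, H⟩ := proj_FLimJac H
  obtain ⟨H4, H⟩ := proj_FLimJac H
  obtain ⟨H5, H6⟩ := proj_FLimJac H
  have H7 := H4.sub H1
  have H8 := H5.sub H2
  simp only [Function.comp_apply, Red, pA, pM, pB, zero_mul, sub_zero, mul_zero,
    sub_sub_cancel, Pi.sub_def] at H3 H4 H5 H6 H7 H8
  obtain ⟨rfl, rfl⟩ := stepA_FLimJac hS ht H7 H8
  obtain rfl : 0 = dwb := by
    simpa using H3.unique ((line_FLimJac 0 dwb).sub (line_FLimJac 0 0))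
  simp only [mul_zero, add_zero, zero_add, FoB2_FLimJac hS] at H4 H5 H6
  obtain rfl : 0 = dz₂ := by simpa using H5.unique (hasDerivAt_mul_const dz₂)
  simp only [mul_zero] at H4
  obtain rfl := stepB_FLimJac hS hr (by nlinarith) (by linarith) (by linarith) ha H4
  obtain rfl := stepM_FLimJac hS ht hw0 hw1 hc (by simpa using H6.add_const (1 / 2))
  rfl

end Pool.Agent.MP_2fc7fa_gt.N.Fp

end
end

section

/-! The diffeomorphism at the three points of a good triple, and topological facts. -/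

open scoped ContDiff Topology
open Set

noncomputable section

namespace Pool.Agent.MP_2fc7fa_gt.N.Fp

theorem localS (hM : ModelStmt) (hP : ProfStmt) (hL : LamStmt) : LocalStmt := by
  intro k e F X hp hF hG
  obtain ⟨-, -, -, -, -, -, -, mO, -, mW, -⟩ := hM
  obtain ⟨-, kK, kE, d1, d2, r0, r2, r1, -⟩ := hP
  obtain ⟨-, -, -, -, -, lS, -, lR, -, -, lN, -⟩ := hL
  obtain ⟨g1, g2, -, -, g5, g6, g7, g8, -, -, g11, -⟩ := hG
  dsimp only at g1 g2 g5 g6 g7 g8 g11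
  have hk : 0 < k := by linarith [hp.pos, hp.le]
  have hke : ∀ x : ℝ, k * (e / k * x) = e * x := fun x => by field_simp
  have g11' := abs_lt.1 g11
  have low : ∀ p : P4, p.1 < 0 → io k e p = (p.1, 1 + k * p.2.1, k * p.2.2.1, k * p.2.2.2) := by
    intro p h
    rw [io, kK k e _ (Or.inl (by linarith)), (d1 _ (Or.inl (by linarith))).1,
      (d1 _ (Or.inl (by linarith))).2, r0 _ (Or.inl (by linarith)), zero_add, zero_add]
  have high : ∀ p : P4, 42 / 5 < p.1 →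
      io k e p = (p.1, 2 + k * p.2.1, k * p.2.2.1, k * p.2.2.2) := by
    intro p h
    rw [io, kK k e _ (Or.inr h.le), (d2 _ (Or.inr h.le)).1, (d2 _ (Or.inr h.le)).2,
      r0 _ (Or.inr (by linarith)), zero_add, zero_add]
  have mv : ∀ p : P4, 1849 / 100 < qq (17 / 4) p → p.1 < (Fo p).1 →
      F (Lam (io k e p)) = Lam (io k e (Fo p)) := by
    intro p h h'
    have h1 := mO p h.le
    rw [← h1] at h' ⊢
    exact hF.mv p fun h2 => by rw [h2] at h'; exact lt_irrefl _ h'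
  refine ⟨?_, ?_, ?_⟩
  · have h := mv (pA (e / k) X) g5 (by change X.1 < _; linarith)
    rw [low _ g2, high _ (g7.trans g8), mW] at h
    simp only [pA, hke] at h
    exact h
  · have h := mv (pM (e / k) X) g5 (by change X.1 < _; linarith)
    rw [low _ g2, io, kE k e _ (by linarith) (by linarith), (d2 _ (Or.inl g11.le)).1,
      (d2 _ (Or.inl g11.le)).2, r1 _ (by linarith), zero_add, mW] at h
    simp only [pM, hke] at h
    exact h
  · have h := mv (pB X) g6 (by change X.1 + 2 < _; linarith)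
    have hb : |(pB X).1 - 2| ≤ 1 / 10 := by
      change |X.1 + 2 - 2| ≤ _
      rw [abs_le]
      constructor <;> linarith
    rw [high _ g7, io, kE k e _ (by change _ ≤ X.1 + 2; linarith)
      (by change X.1 + 2 ≤ _; linarith), (d1 _ (Or.inr hb)).1, (d1 _ (Or.inr hb)).2,
      r2 _ (by linarith), zero_add, mW] at h
    have h2 : rt ((2 : ℤ) : Zp) = ee 2 := by simpa using lR 2
    have h3 : ee 2 ≠ 0 := norm_ne_zero_iff.1 (by rw [lN]; exact one_ne_zero)
    apply smul_right_injective W h3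
    change ee 2 • F (Lam (cB e X)) = ee 2 • Lam (tB k X)
    conv_lhs => rw [← h2, ← hF.equiv, h2]
    rw [lS, lS]
    simp only [sh, cB, tB, sub_add_cancel]
    simp only [pB, add_sub_cancel_right] at h
    exact h

theorem topS (hM : ModelStmt) : TopStmt := by
  obtain ⟨-, -, -, -, hF, -⟩ := hM
  have h1 : ContDiff ℝ 1 Fo := hF.of_le (by simp)
  obtain ⟨A, hA, eA⟩ : ∃ A : ℝ × E6 → P4, ContDiff ℝ 1 A ∧ ∀ y, Fo (pA y.1 y.2) = A y :=
    ⟨_, h1.comp (by unfold pA; fun_prop), fun _ => rfl⟩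
  obtain ⟨M, hMm, eM⟩ : ∃ A : ℝ × E6 → P4, ContDiff ℝ 1 A ∧ ∀ y, Fo (pM y.1 y.2) = A y :=
    ⟨_, h1.comp (by unfold pM; fun_prop), fun _ => rfl⟩
  obtain ⟨B, hB, eB⟩ : ∃ A : ℝ × E6 → P4, ContDiff ℝ 1 A ∧ ∀ y, Fo (pB y.2) = A y :=
    ⟨_, h1.comp (by unfold pB; fun_prop), fun _ => rfl⟩
  have cA := hA.continuous
  have cM := hMm.continuous
  have cB := hB.continuous
  refine ⟨Metric.isCompact_of_isClosed_isBounded ?_ ?_, fun k => ⟨?_, ?_⟩⟩
  · unfold KK
    simp only [eA, eB, ofPred_and, mem_Icc]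
    refine IsClosed.inter (IsClosed.inter ?_ ?_) (IsClosed.inter ?_ (IsClosed.inter ?_
      (IsClosed.inter ?_ (IsClosed.inter ?_ (IsClosed.inter ?_ (IsClosed.inter ?_
      (IsClosed.inter ?_ (IsClosed.inter ?_ ?_)))))))) <;>
    exact isClosed_le (by fun_prop) (by fun_prop)
  · refine (Metric.isBounded_closedBall (x := (0 : ℝ × E6)) (r := 5)).subset ?_
    rintro y ⟨⟨a0, a1⟩, a2, a3, a4, a5, a6, a7, -⟩
    simp only [mem_closedBall_zero_iff, norm_prod_le_iff, Real.norm_eq_abs]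
    exact ⟨by rw [abs_of_nonneg a0]; linarith, by linarith, a3, a4, by linarith, by linarith,
      by linarith⟩
  · have qA : Continuous fun y : ℝ × E6 => qq (17 / 4) (pA y.1 y.2) := by
      unfold qq pA; fun_prop
    have qB : Continuous fun y : ℝ × E6 => qq (17 / 4) (pB y.2) := by
      unfold qq pB; fun_prop
    unfold Good
    simp only [eA, eB, eM, ofPred_and]
    refine IsOpen.inter ?_ (IsOpen.inter ?_ (IsOpen.inter ?_ (IsOpen.inter ?_ (IsOpen.inter ?_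
      (IsOpen.inter ?_ (IsOpen.inter ?_ (IsOpen.inter ?_ (IsOpen.inter ?_ (IsOpen.inter ?_
      (IsOpen.inter ?_ (IsOpen.inter ?_ (IsOpen.inter ?_ ?_)))))))))))) <;>
    exact isOpen_lt (by fun_prop) (by fun_prop)
  · unfold Red
    simp only [eA, eB, eM]
    fun_prop

end Pool.Agent.MP_2fc7fa_gt.N.Fp

end
end

section

/-! The model barbell diffeomorphism: smoothness, inverse, support. -/

open scoped ContDiff Topology
open Set

noncomputable section

namespace Pool.Agent.MP_2fc7fa_gt.N.Fp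

theorem rX_rX_FModel (s t : ℝ) (p : P4) : rX s (rX t p) = rX (s + t) p := by
  simp only [rX, Real.cos_add, Real.sin_add]
  refine Prod.ext rfl (Prod.ext ?_ (Prod.ext ?_ rfl)) <;> simp only <;> ring

theorem rP_rP_FModel (s t : ℝ) (p : P4) : rP s (rP t p) = rP (s + t) p := by
  simp only [rP, Real.cos_add, Real.sin_add]
  refine Prod.ext ?_ (Prod.ext ?_ rfl) <;> simp only <;> ring

theorem rX_triv_FModel (t : ℝ) (hc : Real.cos t = 1) (hs : Real.sin t = 0) (p : P4) :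
    rX t p = p := by
  simp only [rX, hc, hs]
  refine Prod.ext rfl (Prod.ext ?_ (Prod.ext ?_ rfl)) <;> simp only <;> ring

theorem rX_zero_FModel (p : P4) : rX 0 p = p :=
  rX_triv_FModel 0 Real.cos_zero Real.sin_zero p

theorem rP_zero_FModel (p : P4) : rP 0 p = p := by
  simp only [rP, Real.cos_zero, Real.sin_zero]
  refine Prod.ext ?_ (Prod.ext ?_ rfl) <;> simp only <;> ring

theorem rN_triv_FModel (φ t : ℝ) (hc : Real.cos t = 1) (hs : Real.sin t = 0) (p : P4) :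
    rN φ t p = p := by
  rw [rN, rX_triv_FModel t hc hs, rP_rP_FModel, add_neg_cancel, rP_zero_FModel]

theorem rN_rN_FModel (φ s t : ℝ) (p : P4) : rN φ s (rN φ t p) = rN φ (s + t) p := by
  simp only [rN]
  rw [rP_rP_FModel, neg_add_cancel, rP_zero_FModel, rX_rX_FModel]

theorem rN_zero_FModel (t : ℝ) (p : P4) : rN 0 t p = rX t p := by
  rw [rN, neg_zero, rP_zero_FModel, rP_zero_FModel]

theorem rN_pi_FModel (t : ℝ) (p : P4) : rN Real.pi t p = rX (-t) p := by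
  simp only [rN, rP, rX, Real.cos_neg, Real.sin_neg, Real.cos_pi, Real.sin_pi]
  refine Prod.ext ?_ (Prod.ext ?_ (Prod.ext ?_ rfl)) <;> simp only <;> ring

theorem sh_sh_FModel (c d : ℝ) (p : P4) : sh c (sh d p) = sh (d + c) p := by
  simp only [sh]
  refine Prod.ext ?_ rfl
  simp only
  ring

theorem sh_zero_FModel (p : P4) : sh 0 p = p := by
  simp only [sh, add_zero]

theorem sh_rX_FModel (c t : ℝ) (p : P4) : sh c (rX t (sh (-c) p)) = rX t p := by
  simp only [sh, rX]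
  refine Prod.ext ?_ rfl
  simp only
  ring

theorem qq_rX_FModel (c t : ℝ) (p : P4) : qq c (rX t p) = qq c p := by
  simp only [qq, rX]
  have := Real.sin_sq_add_cos_sq t
  linear_combination (p.2.1 ^ 2 + p.2.2.1 ^ 2) * this

theorem qq_rP_FModel (t : ℝ) (p : P4) : qq 0 (rP t p) = qq 0 p := by
  simp only [qq, rP]
  have := Real.sin_sq_add_cos_sq t
  linear_combination (p.1 ^ 2 + p.2.1 ^ 2) * this

theorem qq_rN_FModel (φ t : ℝ) (p : P4) : qq 0 (rN φ t p) = qq 0 p := by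
  rw [rN, qq_rP_FModel, qq_rX_FModel, qq_rP_FModel]

theorem qq_sh_FModel (c : ℝ) (p : P4) : qq c (sh c p) = qq 0 p := by
  simp only [qq, sh]
  ring

theorem qq_sh_neg_FModel (c : ℝ) (p : P4) : qq 0 (sh (-c) p) = qq c p := by
  simp only [qq, sh]
  ring

theorem tw_w_FModel (c σ : ℝ) (φ : ℝ → ℝ) (p : P4) : (tw c σ φ p).2.2.2 = p.2.2.2 := rfl

theorem tw'_w_FModel (c σ : ℝ) (φ : ℝ → ℝ) (p : P4) : (tw' c σ φ p).2.2.2 = p.2.2.2 := rfl

theorem tw_qq_FModel (c σ : ℝ) (φ : ℝ → ℝ) (p : P4) : qq c (tw c σ φ p) = qq c p := by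
  rw [tw, qq_sh_FModel, qq_rX_FModel, qq_rN_FModel, qq_sh_neg_FModel]

theorem tw'_qq_FModel (c σ : ℝ) (φ : ℝ → ℝ) (p : P4) : qq c (tw' c σ φ p) = qq c p := by
  rw [tw', qq_sh_FModel, qq_rN_FModel, qq_rX_FModel, qq_sh_neg_FModel]

theorem tw'_tw_FModel (c σ : ℝ) (φ : ℝ → ℝ) (p : P4) : tw' c σ φ (tw c σ φ p) = p := by
  rw [tw', tw_qq_FModel, tw_w_FModel, tw, sh_sh_FModel, add_neg_cancel, sh_zero_FModel,
    rX_rX_FModel, neg_add_cancel, rX_zero_FModel, rN_rN_FModel, neg_add_cancel,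
    rN_triv_FModel _ 0 Real.cos_zero Real.sin_zero, sh_sh_FModel, neg_add_cancel, sh_zero_FModel]

theorem tw_tw'_FModel (c σ : ℝ) (φ : ℝ → ℝ) (p : P4) : tw c σ φ (tw' c σ φ p) = p := by
  rw [tw, tw'_qq_FModel, tw'_w_FModel, tw', sh_sh_FModel, add_neg_cancel, sh_zero_FModel,
    rN_rN_FModel, add_neg_cancel, rN_triv_FModel _ 0 Real.cos_zero Real.sin_zero,
    rX_rX_FModel, add_neg_cancel, rX_zero_FModel, sh_sh_FModel, neg_add_cancel, sh_zero_FModel]

theorem St_smooth_FModel : ContDiff ℝ ∞ St := Real.smoothTransition.contDiff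

theorem th_smooth_FModel : ContDiff ℝ ∞ th :=
  contDiff_const.mul (St_smooth_FModel.comp (contDiff_id.add contDiff_const))

theorem phO_smooth_FModel : ContDiff ℝ ∞ phO :=
  contDiff_const.mul (St_smooth_FModel.comp ((contDiff_id.sub contDiff_const).mul contDiff_const))

theorem phI_smooth_FModel : ContDiff ℝ ∞ phI :=
  contDiff_const.mul (contDiff_const.sub
    (St_smooth_FModel.comp ((contDiff_id.sub contDiff_const).mul contDiff_const)))

theorem rX_smooth_FModel {t : P4 → ℝ} {g : P4 → P4} (ht : ContDiff ℝ ∞ t) (hg : ContDiff ℝ ∞ g) :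
    ContDiff ℝ ∞ fun p => rX (t p) (g p) := by
  have hc : ContDiff ℝ ∞ fun p => Real.cos (t p) := Real.contDiff_cos.comp ht
  have hs : ContDiff ℝ ∞ fun p => Real.sin (t p) := Real.contDiff_sin.comp ht
  exact hg.fst.prodMk (((hc.mul hg.snd.fst).sub (hs.mul hg.snd.snd.fst)).prodMk
    (((hs.mul hg.snd.fst).add (hc.mul hg.snd.snd.fst)).prodMk hg.snd.snd.snd))

theorem rP_smooth_FModel {t : P4 → ℝ} {g : P4 → P4} (ht : ContDiff ℝ ∞ t) (hg : ContDiff ℝ ∞ g) :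
    ContDiff ℝ ∞ fun p => rP (t p) (g p) := by
  have hc : ContDiff ℝ ∞ fun p => Real.cos (t p) := Real.contDiff_cos.comp ht
  have hs : ContDiff ℝ ∞ fun p => Real.sin (t p) := Real.contDiff_sin.comp ht
  exact ((hc.mul hg.fst).sub (hs.mul hg.snd.fst)).prodMk
    (((hs.mul hg.fst).add (hc.mul hg.snd.fst)).prodMk (hg.snd.snd.fst.prodMk hg.snd.snd.snd))

theorem rN_smooth_FModel {a t : P4 → ℝ} {g : P4 → P4} (ha : ContDiff ℝ ∞ a)
    (ht : ContDiff ℝ ∞ t) (hg : ContDiff ℝ ∞ g) :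
    ContDiff ℝ ∞ fun p => rN (a p) (t p) (g p) :=
  rP_smooth_FModel ha (rX_smooth_FModel ht (rP_smooth_FModel ha.neg hg))

theorem sh_smooth_FModel (c : ℝ) {g : P4 → P4} (hg : ContDiff ℝ ∞ g) :
    ContDiff ℝ ∞ fun p => sh c (g p) :=
  (hg.fst.add contDiff_const).prodMk hg.snd

theorem qq_smooth_FModel (c : ℝ) : ContDiff ℝ ∞ (qq c) :=
  (((contDiff_fst.sub contDiff_const).pow 2).add (contDiff_snd.fst.pow 2)).add
    (contDiff_snd.snd.fst.pow 2)

theorem thw_smooth_FModel : ContDiff ℝ ∞ fun p : P4 => th p.2.2.2 :=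
  th_smooth_FModel.comp contDiff_snd.snd.snd

theorem tw_smooth_FModel (c σ : ℝ) {φ : ℝ → ℝ} (hφ : ContDiff ℝ ∞ φ) :
    ContDiff ℝ ∞ (tw c σ φ) :=
  sh_smooth_FModel c (rX_smooth_FModel (contDiff_const.mul thw_smooth_FModel)
    (rN_smooth_FModel (hφ.comp (qq_smooth_FModel c)) thw_smooth_FModel
      (sh_smooth_FModel (-c) contDiff_id)))

theorem tw'_smooth_FModel (c σ : ℝ) {φ : ℝ → ℝ} (hφ : ContDiff ℝ ∞ φ) :
    ContDiff ℝ ∞ (tw' c σ φ) :=
  sh_smooth_FModel c (rN_smooth_FModel (hφ.comp (qq_smooth_FModel c)) thw_smooth_FModel.neg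
    (rX_smooth_FModel (contDiff_const.mul thw_smooth_FModel).neg
      (sh_smooth_FModel (-c) contDiff_id)))

theorem th_triv_FModel (w : ℝ) (hw : 1 / 2 ≤ |w|) :
    Real.cos (th w) = 1 ∧ Real.sin (th w) = 0 := by
  rcases le_abs.mp hw with h | h
  · have : St (w + 1 / 2) = 1 := Real.smoothTransition.one_of_one_le (by linarith)
    rw [th, this, mul_one]
    exact ⟨Real.cos_two_pi, Real.sin_two_pi⟩
  · have : St (w + 1 / 2) = 0 := Real.smoothTransition.zero_of_nonpos (by linarith)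
    rw [th, this, mul_zero]
    exact ⟨Real.cos_zero, Real.sin_zero⟩

theorem tw_far_FModel (c σ : ℝ) (hσ : σ = 1 ∨ σ = -1) (φ : ℝ → ℝ) (p : P4)
    (hw : 1 / 2 ≤ |p.2.2.2|) : tw c σ φ p = p := by
  obtain ⟨hc, hs⟩ := th_triv_FModel _ hw
  have hc' : Real.cos (σ * th p.2.2.2) = 1 := by
    rcases hσ with h | h <;> simp [h, hc]
  have hs' : Real.sin (σ * th p.2.2.2) = 0 := by
    rcases hσ with h | h <;> simp [h, hs]
  rw [tw, rN_triv_FModel _ _ hc hs, rX_triv_FModel _ hc' hs', sh_sh_FModel, neg_add_cancel,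
    sh_zero_FModel]

theorem twI_out_FModel (c : ℝ) (p : P4) (h : 1 / 400 ≤ qq c p) : tw c (-1) phI p = p := by
  have h1 : St ((qq c p - 1 / 1600) * (1600 / 3)) = 1 :=
    Real.smoothTransition.one_of_one_le (by linarith)
  have h2 : phI (qq c p) = 0 := by rw [phI, h1, sub_self, mul_zero]
  rw [tw, h2, rN_zero_FModel, rX_rX_FModel, sh_rX_FModel, neg_one_mul, neg_add_cancel,
    rX_zero_FModel]

theorem twI_in_FModel (c : ℝ) (p : P4) (h : qq c p ≤ 1 / 1600) :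
    tw c (-1) phI p = rX (-(2 * th p.2.2.2)) p := by
  have h1 : St ((qq c p - 1 / 1600) * (1600 / 3)) = 0 :=
    Real.smoothTransition.zero_of_nonpos (by linarith)
  have h2 : phI (qq c p) = Real.pi := by rw [phI, h1, sub_zero, mul_one]
  rw [tw, h2, rN_pi_FModel, rX_rX_FModel, sh_rX_FModel]
  congr 1
  ring

theorem Fo_in_FModel (p : P4) (h : qq (17 / 4) p ≤ 1849 / 100) :
    Fo p = rX (2 * th p.2.2.2) p := by
  have h1 : St ((qq (17 / 4) p - 1849 / 100) * (320 / 69)) = 0 :=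
    Real.smoothTransition.zero_of_nonpos (by linarith)
  have h2 : phO (qq (17 / 4) p) = 0 := by rw [phO, h1, mul_zero]
  rw [Fo, tw, h2, rN_zero_FModel, rX_rX_FModel, sh_rX_FModel]
  congr 1
  ring

theorem Fo_out_FModel (p : P4) (h : (173 / 40) ^ 2 ≤ qq (17 / 4) p) : Fo p = p := by
  have h1 : St ((qq (17 / 4) p - 1849 / 100) * (320 / 69)) = 1 :=
    Real.smoothTransition.one_of_one_le (by linarith)
  have h2 : phO (qq (17 / 4) p) = Real.pi := by rw [phO, h1, mul_one]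
  rw [Fo, tw, h2, rN_pi_FModel, rX_rX_FModel, sh_rX_FModel, one_mul, add_neg_cancel,
    rX_zero_FModel]

theorem ball_FModel (c : ℝ) (p : P4) (h : qq c p ≤ 1 / 400) : |p.1 - c| ≤ 1 / 20 := by
  refine abs_le_of_sq_le_sq' ?_ (by norm_num) |> abs_le.mpr
  simp only [qq] at h
  nlinarith [sq_nonneg p.2.1, sq_nonneg p.2.2.1]

theorem geo_FModel (c : ℝ) (hc : c = 0 ∨ c = 17 / 2) (p : P4) (h : qq c p ≤ 1 / 400) :
    qq (17 / 4) p ≤ 1849 / 100 := by
  have hb := abs_le.mp (ball_FModel c p h)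
  simp only [qq] at h ⊢
  rcases hc with rfl | rfl <;> nlinarith [hb.1, hb.2]

theorem geo'_FModel (c : ℝ) (hc : c = 0 ∨ c = 17 / 2) (p : P4)
    (h : 1849 / 100 ≤ qq (17 / 4) p) : 1 / 400 ≤ qq c p := by
  simp only [qq] at h ⊢
  by_contra hlt
  push Not at hlt
  have h1 : (p.1 - c) ^ 2 < (1 / 20) ^ 2 := by nlinarith [sq_nonneg p.2.1, sq_nonneg p.2.2.1]
  have hb := abs_lt.mp (abs_lt_of_sq_lt_sq h1 (by norm_num))
  rcases hc with rfl | rfl <;> nlinarith [hb.1, hb.2]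

theorem other_FModel (c d : ℝ) (hcd : |c - d| = 17 / 2) (p : P4) (h : qq c p ≤ 1 / 400) :
    1 / 400 ≤ qq d p := by
  have hb := abs_le.mp (ball_FModel c p h)
  simp only [qq]
  rcases (abs_eq (by norm_num)).mp hcd with h1 | h1 <;>
    nlinarith [hb.1, hb.2, sq_nonneg p.2.1, sq_nonneg p.2.2.1]

theorem inner_move_FModel (c : ℝ) (hc : c = 0 ∨ c = 17 / 2) (p : P4)
    (h : qq (17 / 4) p ≤ 1849 / 100) :
    qq (17 / 4) (tw c (-1) phI p) ≤ 1849 / 100 ∧ |(tw c (-1) phI p).1 - p.1| ≤ 1 / 10 := by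
  rcases le_total (1 / 400) (qq c p) with h1 | h1
  · rw [twI_out_FModel c p h1]
    exact ⟨h, by norm_num⟩
  · have h2 : qq c (tw c (-1) phI p) ≤ 1 / 400 := by rwa [tw_qq_FModel]
    refine ⟨geo_FModel c hc _ h2, ?_⟩
    have ha := abs_le.mp (ball_FModel c p h1)
    have hb := abs_le.mp (ball_FModel c _ h2)
    exact abs_le.mpr ⟨by linarith [ha.1, ha.2, hb.1, hb.2], by linarith [ha.1, ha.2, hb.1, hb.2]⟩

theorem f0_out_FModel (p : P4) (h : 1849 / 100 ≤ qq (17 / 4) p) : f0 p = Fo p := by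
  rw [f0, twI_out_FModel _ p (geo'_FModel _ (Or.inr rfl) p h),
    twI_out_FModel _ p (geo'_FModel _ (Or.inl rfl) p h)]

theorem undo_FModel (p : P4) (h : qq (17 / 4) p ≤ 1849 / 100) :
    Fo (rX (-(2 * th p.2.2.2)) p) = p := by
  rw [Fo_in_FModel _ (by rwa [qq_rX_FModel]), rX_rX_FModel]
  have : (rX (-(2 * th p.2.2.2)) p).2.2.2 = p.2.2.2 := rfl
  rw [this, add_neg_cancel, rX_zero_FModel]

theorem supp_FModel (p : P4) (hp : f0 p ≠ p) : p ∈ S0 := by
  refine ⟨?_, ?_, ?_, ?_⟩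
  · by_contra h
    push Not at h
    refine hp ?_
    rw [f0_out_FModel p (by linarith), Fo_out_FModel p h.le]
  · by_contra h
    push Not at h
    refine hp ?_
    have h1 : qq 0 p ≤ 1 / 400 := by linarith
    rw [f0, twI_out_FModel _ p (other_FModel 0 (17 / 2) (by norm_num) p h1),
      twI_in_FModel 0 p h.le, undo_FModel p (geo_FModel 0 (Or.inl rfl) p h1)]
  · by_contra h
    push Not at h
    refine hp ?_
    have h1 : qq (17 / 2) p ≤ 1 / 400 := by linarith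
    have h2 : 1 / 400 ≤ qq 0 (rX (-(2 * th p.2.2.2)) p) := by
      rw [qq_rX_FModel]
      exact other_FModel (17 / 2) 0 (by norm_num) p h1
    rw [f0, twI_in_FModel _ p h.le, twI_out_FModel 0 _ h2,
      undo_FModel p (geo_FModel _ (Or.inr rfl) p h1)]
  · by_contra h
    push Not at h
    refine hp ?_
    rw [f0, tw_far_FModel _ _ (Or.inr rfl) _ p h.le, tw_far_FModel _ _ (Or.inr rfl) _ p h.le, Fo,
      tw_far_FModel _ _ (Or.inl rfl) _ p h.le]

theorem move_FModel (p : P4) (h : qq (17 / 4) p ≤ 1849 / 100) : |(f0 p).1 - p.1| ≤ 1 / 5 := by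
  obtain ⟨h1, h2⟩ := inner_move_FModel (17 / 2) (Or.inr rfl) p h
  obtain ⟨h3, h4⟩ := inner_move_FModel 0 (Or.inl rfl) _ h1
  have h5 : (f0 p).1 = (tw 0 (-1) phI (tw (17 / 2) (-1) phI p)).1 := by
    rw [f0, Fo_in_FModel _ h3]
    rfl
  rw [h5]
  have ha := abs_le.mp h2
  have hb := abs_le.mp h4
  exact abs_le.mpr ⟨by linarith [ha.1, hb.1], by linarith [ha.2, hb.2]⟩

theorem modelS : ModelStmt := by
  have hFo : ContDiff ℝ ∞ Fo := tw_smooth_FModel _ _ phO_smooth_FModel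
  refine ⟨?_, ?_, ?_, ?_, hFo, supp_FModel, fun _ => rfl, f0_out_FModel, move_FModel,
    fun _ => rfl, fun p => tw_qq_FModel _ _ _ p⟩
  · exact hFo.comp ((tw_smooth_FModel 0 (-1) phI_smooth_FModel).comp
      (tw_smooth_FModel (17 / 2) (-1) phI_smooth_FModel))
  · exact (tw'_smooth_FModel (17 / 2) (-1) phI_smooth_FModel).comp
      ((tw'_smooth_FModel 0 (-1) phI_smooth_FModel).comp
        (tw'_smooth_FModel (17 / 4) 1 phO_smooth_FModel))
  · intro p
    rw [f0', f0, Fo, tw'_tw_FModel, tw'_tw_FModel, tw'_tw_FModel]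
  · intro p
    rw [f0', f0, Fo, tw_tw'_FModel, tw_tw'_FModel, tw_tw'_FModel]

end Pool.Agent.MP_2fc7fa_gt.N.Fp

end
end

section

/-! The smooth transition function is strictly increasing with positive derivative. -/

open Set

namespace Pool.Agent.MP_2fc7fa_gt.N.Fp

theorem glue_FSt (x : ℝ) : HasDerivAt expNegInvGlue (x⁻¹ ^ 2 * expNegInvGlue x) x := by
  simpa using expNegInvGlue.hasDerivAt_polynomial_eval_inv_mul 1 x

theorem der_FSt (x : ℝ) (hx : x ∈ Ioo (0 : ℝ) 1) : ∃ d : ℝ, 0 < d ∧ HasDerivAt St d x := by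
  have h1 := glue_FSt x
  have h2 : HasDerivAt (fun y => expNegInvGlue (1 - y))
      ((1 - x)⁻¹ ^ 2 * expNegInvGlue (1 - x) * -1) x :=
    (glue_FSt (1 - x)).comp x ((hasDerivAt_id x).const_sub 1)
  have hd := Real.smoothTransition.pos_denom x
  refine ⟨_, ?_, h1.div (h1.add h2) hd.ne'⟩
  have a := expNegInvGlue.pos_of_pos hx.1
  have b := expNegInvGlue.pos_of_pos (sub_pos.2 hx.2)
  have c : 0 < x⁻¹ ^ 2 := pow_pos (inv_pos.2 hx.1) 2
  have d : 0 < (1 - x)⁻¹ ^ 2 := pow_pos (inv_pos.2 (sub_pos.2 hx.2)) 2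
  refine div_pos ?_ (pow_pos hd 2)
  have e := mul_pos (mul_pos a b) (add_pos c d)
  linarith

theorem stS : StStmt := by
  refine ⟨?_, ?_, der_FSt⟩
  · have a := expNegInvGlue.pos_of_pos (x := 1 / 2) (by norm_num)
    rw [St, Real.smoothTransition, show (1 : ℝ) - 1 / 2 = 1 / 2 by norm_num]
    field_simp
    norm_num
  · refine strictMonoOn_of_deriv_pos (convex_Icc 0 1)
      Real.smoothTransition.continuous.continuousOn fun x hx => ?_
    rw [interior_Icc] at hx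
    obtain ⟨d, hd, h⟩ := der_FSt x hx
    rwa [h.deriv]

end Pool.Agent.MP_2fc7fa_gt.N.Fp

end

section

/-! Transplanting a compactly supported diffeomorphism through the chart. -/

open scoped ContDiff Topology
open Set

noncomputable section

namespace Pool.Agent.MP_2fc7fa_gt.N.Fp

open Classical in
/-- The transplant of `h`. -/
def tr_FTrans (h : P4 → P4) (z : W) : W :=
  if z.1 ∈ Complex.slitPlane then Lam (h (Lam' z)) else z

theorem tr_pos_FTrans (h : P4 → P4) {z : W} (hz : z.1 ∈ Complex.slitPlane) :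
    tr_FTrans h z = Lam (h (Lam' z)) := by
  unfold tr_FTrans
  rw [if_pos hz]

theorem tr_neg_FTrans (h : P4 → P4) {z : W} (hz : z.1 ∉ Complex.slitPlane) :
    tr_FTrans h z = z := by
  unfold tr_FTrans
  rw [if_neg hz]

theorem fst_lt_FTrans {p : P4} (hp : ‖p‖ ≤ 10) : |p.1| < 37 / 2 := by
  have h1 : ‖p.1‖ ≤ ‖p‖ := norm_fst_le p
  rw [Real.norm_eq_abs] at h1
  linarith

theorem moved_FTrans (hL : LamStmt) (h : P4 → P4) (z : W) (hz : tr_FTrans h z ≠ z) :
    ∃ p, h p ≠ p ∧ z = Lam p := by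
  by_cases hs : z.1 ∈ Complex.slitPlane
  · have h0 : z.1 ≠ 0 := Complex.slitPlane_ne_zero hs
    have h1 : Lam (Lam' z) = z := hL.2.2.1 z h0
    refine ⟨Lam' z, ?_, h1.symm⟩
    intro he
    apply hz
    rw [tr_pos_FTrans h hs, he, h1]
  · exact absurd (tr_neg_FTrans h hs) hz

theorem act_FTrans (hL : LamStmt) (h : P4 → P4) (hi : Function.Injective h)
    (hb : ∀ p, h p ≠ p → ‖p‖ ≤ 10) (p : P4) (hp : h p ≠ p) :
    tr_FTrans h (Lam p) = Lam (h p) ∧ tr_FTrans h (Lam p) ≠ Lam p := by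
  have h1 := hL.2.2.2.1 p (fst_lt_FTrans (hb p hp))
  have hp' : h (h p) ≠ h p := fun he => hp (hi he)
  have h2 := hL.2.2.2.1 (h p) (fst_lt_FTrans (hb _ hp'))
  have h3 : tr_FTrans h (Lam p) = Lam (h p) := by
    rw [tr_pos_FTrans h h1.2.1, h1.1]
  refine ⟨h3, ?_⟩
  rw [h3]
  intro he
  apply hp
  rw [← h2.1, he, h1.1]

theorem inv_FTrans (hL : LamStmt) (h h' : P4 → P4) (hl : Function.LeftInverse h' h)
    (hr : Function.RightInverse h' h) (hb : ∀ p, h p ≠ p → ‖p‖ ≤ 10)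
    (hb' : ∀ p, h' p ≠ p → ‖p‖ ≤ 10) :
    Function.LeftInverse (tr_FTrans h') (tr_FTrans h) := by
  intro z
  by_cases hz : tr_FTrans h z = z
  · rw [hz]
    by_contra hne
    obtain ⟨p, hp, rfl⟩ := moved_FTrans hL h' z hne
    have hp' : h p ≠ p := by
      intro he
      apply hp
      have := hl p
      rwa [he] at this
    exact (act_FTrans hL h hl.injective hb p hp').2 hz
  · obtain ⟨p, hp, rfl⟩ := moved_FTrans hL h z hz
    have h1 : h' (h p) ≠ h p := by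
      rw [hl p]
      exact fun he => hp he.symm
    rw [(act_FTrans hL h hl.injective hb p hp).1,
      (act_FTrans hL h' hr.injective hb' (h p) h1).1, hl p]

theorem smooth_FTrans (hL : LamStmt) (h : P4 → P4) (hs : ContDiff ℝ ∞ h)
    (hb : ∀ p, h p ≠ p → ‖p‖ ≤ 10) : ContDiff ℝ ∞ (tr_FTrans h) := by
  rw [contDiff_iff_contDiffAt]
  intro z
  have hU : IsOpen {z : W | z.1 ∈ Complex.slitPlane} :=
    Complex.isOpen_slitPlane.preimage continuous_fst
  by_cases hz : z.1 ∈ Complex.slitPlane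
  · have hn : {z : W | z.1 ∈ Complex.slitPlane} ∈ 𝓝 z := hU.mem_nhds hz
    have h1 : ContDiffAt ℝ ∞ Lam' z := hL.2.1.contDiffAt hn
    have h2 : ContDiffAt ℝ ∞ (fun w => Lam (h (Lam' w))) z :=
      hL.1.contDiffAt.comp z (hs.contDiffAt.comp z h1)
    refine h2.congr_of_eventuallyEq ?_
    filter_upwards [hn] with w hw
    exact tr_pos_FTrans h hw
  · have hK : IsCompact (Lam '' Metric.closedBall (0 : P4) 10) :=
      (isCompact_closedBall (0 : P4) 10).image hL.1.continuous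
    have hzK : z ∈ (Lam '' Metric.closedBall (0 : P4) 10)ᶜ := by
      rintro ⟨p, hp, rfl⟩
      rw [mem_closedBall_zero_iff] at hp
      exact hz (hL.2.2.2.1 p (fst_lt_FTrans hp)).2.1
    have hn : (Lam '' Metric.closedBall (0 : P4) 10)ᶜ ∈ 𝓝 z :=
      hK.isClosed.isOpen_compl.mem_nhds hzK
    refine (contDiffAt_id (𝕜 := ℝ) (n := ∞) (x := z)).congr_of_eventuallyEq ?_
    filter_upwards [hn] with w hw
    by_contra hne
    obtain ⟨p, hp, rfl⟩ := moved_FTrans hL h w hne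
    exact hw ⟨p, mem_closedBall_zero_iff.2 (hb p hp), rfl⟩

theorem transS (hL : LamStmt) : TransStmt := by
  intro h h' hs hs' hl hr hb
  have hb' : ∀ p, h' p ≠ p → ‖p‖ ≤ 10 := by
    intro p hp
    apply hb
    intro he
    apply hp
    have := hl p
    rwa [he] at this
  exact ⟨tr_FTrans h, tr_FTrans h', smooth_FTrans hL h hs hb, smooth_FTrans hL h' hs' hb',
    inv_FTrans hL h h' hl hr hb hb', inv_FTrans hL h' h hr hl hb' hb, moved_FTrans hL h,
    act_FTrans hL h hl.injective hb⟩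

end Pool.Agent.MP_2fc7fa_gt.N.Fp

end
end

section

/-! Part F: the explicit equivariant diffeomorphism. -/

namespace Pool.Agent.MP_2fc7fa_gt.N

open Fp

theorem fS : FStmt :=
  asmF lamS (clusS stS profS) (buildS modelS profS lamS (transS lamS) eqvS (disjS profS))
    (reduceS modelS profS lamS (coarseS modelS profS (holeS profS) (nearS profS)))
    (localS modelS profS lamS) (limExS stS) (limCharS stS modelS) (limGoodS stS modelS)
    (limJacS stS modelS) (topS modelS) iftS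
    (nondegS modelS profS lamS (localS modelS profS lamS) (topS modelS) (pairS lamS))

end Pool.Agent.MP_2fc7fa_gt.N

end
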