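import Mathlib
import Pool.Agent.MP_2fc7fa_gt.Sm

section

namespace Pool.Agent.MP_2fc7fa_gt.Tor

open Set Complex

/-- The unit vector of angle `-W y`. -/
noncomputable def ee (W : ℂ → ℝ) (y : ℂ) : ℂ := Complex.exp (-(W y : ℂ) * I)

/-- Curves that move forward with speed at least `c` in the direction of angle `W y` as long as
they stay `ρ`-close to `y`. -/
def Adm (W : ℂ → ℝ) (ρ c : ℝ) (γ : ℝ → ℂ) (T : ℝ) : Prop :=
  ∀ s t y, 0 ≤ s → s ≤ t → t ≤ T → (∀ r ∈ Icc s t, ‖γ r - y‖ ≤ ρ) →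
    c * (t - s) ≤ ((γ t - γ s) * ee W y).re

/-- Concatenation of curves. -/
noncomputable def cat (γ₁ γ₂ : ℝ → ℂ) (T : ℝ) (t : ℝ) : ℂ :=
  γ₁ (min t T) + γ₂ (max (t - T) 0) - γ₂ 0

theorem cat_left (γ₁ γ₂ : ℝ → ℂ) {T t : ℝ} (h : t ≤ T) : cat γ₁ γ₂ T t = γ₁ t := by
  simp [cat, min_eq_left h, max_eq_right (sub_nonpos.2 h)]

theorem cat_right {γ₁ γ₂ : ℝ → ℂ} {T t : ℝ} (he : γ₁ T = γ₂ 0) (h : T ≤ t) :
    cat γ₁ γ₂ T t = γ₂ (t - T) := by
  simp [cat, min_eq_right h, max_eq_left (sub_nonneg.2 h), he]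

theorem cat_continuous {γ₁ γ₂ : ℝ → ℂ} (h₁ : Continuous γ₁) (h₂ : Continuous γ₂) (T : ℝ) :
    Continuous (cat γ₁ γ₂ T) := by
  unfold cat; fun_prop

theorem Adm.cat {W : ℂ → ℝ} {ρ c : ℝ} {γ₁ γ₂ : ℝ → ℂ} {T₁ T₂ : ℝ} (h₁ : Adm W ρ c γ₁ T₁)
    (h₂ : Adm W ρ c γ₂ T₂) (he : γ₁ T₁ = γ₂ 0) :
    Adm W ρ c (cat γ₁ γ₂ T₁) (T₁ + T₂) := by
  intro s t y hs hst ht hr
  rcases le_total t T₁ with h | h
  · rw [cat_left _ _ h, cat_left _ _ (hst.trans h)]
    refine h₁ s t y hs hst h fun r hr' => ?_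
    rw [← cat_left γ₁ γ₂ (hr'.2.trans h)]; exact hr r hr'
  rcases le_total T₁ s with h' | h'
  · rw [cat_right he h, cat_right he h']
    have := h₂ (s - T₁) (t - T₁) y (by linarith) (by linarith) (by linarith) fun r hr' => by
      have := hr (r + T₁) ⟨by linarith [hr'.1], by linarith [hr'.2]⟩
      rwa [cat_right he (by linarith [hr'.1]), add_sub_cancel_right] at this
    convert this using 2; ring
  · rw [cat_right he h, cat_left _ _ h']
    have a := h₁ s T₁ y hs h' le_rfl fun r hr' => by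
      rw [← cat_left γ₁ γ₂ hr'.2]; exact hr r ⟨hr'.1, hr'.2.trans h⟩
    have b := h₂ 0 (t - T₁) y le_rfl (by linarith) (by linarith) fun r hr' => by
      have := hr (r + T₁) ⟨by linarith [hr'.1], by linarith [hr'.2]⟩
      rwa [cat_right he (by linarith [hr'.1]), add_sub_cancel_right] at this
    rw [he] at a
    have e : (γ₂ (t - T₁) - γ₁ s) * ee W y
        = (γ₂ (t - T₁) - γ₂ 0) * ee W y + (γ₂ 0 - γ₁ s) * ee W y := by ring
    rw [e, add_re]; linarith

theorem Adm.shift {W : ℂ → ℝ} {ρ c : ℝ} {γ : ℝ → ℂ} {T a l : ℝ} (h : Adm W ρ c γ T)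
    (ha : 0 ≤ a) (hl : a + l ≤ T) : Adm W ρ c (fun t => γ (a + t)) l := by
  intro s t y hs hst ht hr
  have := h (a + s) (a + t) y (by linarith) (by linarith) (by linarith) fun r hr' => by
    have := hr (r - a) ⟨by linarith [hr'.1], by linarith [hr'.2]⟩
    simpa using this
  convert this using 2; ring

theorem Adm.mono {W : ℂ → ℝ} {ρ ρ' c c' : ℝ} {γ : ℝ → ℂ} {T : ℝ} (h : Adm W ρ c γ T)
    (hρ : ρ' ≤ ρ) (hc : c' ≤ c) : Adm W ρ' c' γ T := by
  intro s t y hs hst ht hr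
  have := h s t y hs hst ht fun r hr' => (hr r hr').trans hρ
  nlinarith

theorem exists_delta {γ : ℝ → ℂ} (hγ : Continuous γ) (T : ℝ) {ρ : ℝ} (hρ : 0 < ρ) :
    ∃ δ > 0, ∀ s ∈ Icc 0 T, ∀ t ∈ Icc 0 T, |s - t| ≤ δ → ‖γ s - γ t‖ ≤ ρ := by
  have := (isCompact_Icc (a := (0 : ℝ)) (b := T)).uniformContinuousOn_of_continuous hγ.continuousOn
  obtain ⟨δ, hδ, h⟩ := Metric.uniformContinuousOn_iff_le.1 this ρ hρ
  exact ⟨δ, hδ, fun s hs t ht hst => by
    simpa [dist_eq_norm] using h s hs t ht (by simpa [Real.dist_eq] using hst)⟩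

theorem const_of_exp {f : ℝ → ℂ} (hf : Continuous f) (h : ∀ a b, exp (f a) = exp (f b))
    (a b : ℝ) : f a = f b :=
  isCoveringMap_exp.const_of_comp hf (fun a b => Subtype.ext (h a b)) a b

/-- Hopf parity argument for a simple loop run twice. -/
theorem hopf_simple {W : ℂ → ℝ} (hW : Continuous W) {ρ c l : ℝ} (hρ : 0 < ρ) (hc : 0 < c)
    (hl : 0 < l) {g : ℝ → ℂ} (hg : Continuous g) (ha : Adm W ρ c g (l + l))
    (hper : ∀ s ∈ Icc 0 l, g (l + s) = g s)
    (hinj : ∀ s ∈ Icc 0 l, ∀ d, 0 < d → d < l → g (s + d) ≠ g s) : False := by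
  obtain ⟨δ, hδ, hδ'⟩ := exists_delta hg (l + l) hρ
  set d₀ := min δ (l / 2) with hd₀
  have hd0 : 0 < d₀ := lt_min hδ (by linarith)
  have hd1 : d₀ ≤ l / 2 := min_le_right _ _
  have hd2 : d₀ ≤ δ := min_le_left _ _
  let cs : ℝ → ℝ := fun s => max 0 (min s l)
  let cd : ℝ → ℝ := fun d => max d₀ (min d (l / 2))
  have cs_mem : ∀ s, cs s ∈ Icc 0 l := fun s =>
    ⟨le_max_left _ _, max_le hl.le (min_le_right _ _)⟩
  have cs_eq : ∀ s ∈ Icc 0 l, cs s = s := fun s hs => by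
    simp [cs, min_eq_left hs.2, max_eq_right hs.1]
  have cd_mem : ∀ d, cd d ∈ Icc d₀ (l / 2) := fun d =>
    ⟨le_max_left _ _, max_le hd1 (min_le_right _ _)⟩
  have cd_eq : ∀ d ∈ Icc d₀ (l / 2), cd d = d := fun d hd => by
    simp [cd, min_eq_left hd.2, max_eq_right hd.1]
  let F : ℝ × ℝ → ℂ := fun p => g (cs p.1 + cd p.2) - g (cs p.1)
  have hF : Continuous F := by
    simp only [F, cs, cd]; fun_prop
  have hF0 : ∀ p, F p ≠ 0 := fun p => sub_ne_zero.2
    (hinj _ (cs_mem _) _ (hd0.trans_le (cd_mem _).1) (by linarith [(cd_mem p.2).2]))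
  obtain ⟨Θ, ⟨-, hΘ⟩, -⟩ := isCoveringMap_exp.existsUnique_continuousMap_lifts
    (⟨fun p => ⟨F p, hF0 p⟩, by fun_prop⟩ : C(ℝ × ℝ, {z : ℂ // z ≠ 0})) (0, 0)
    (Complex.log (F (0, 0))) (Subtype.ext (exp_log (hF0 _)))
  have hΘ' : ∀ p, exp (Θ p) = F p := fun p => congrArg Subtype.val (congrFun hΘ p)
  have hc0 := cs_eq 0 ⟨le_rfl, hl.le⟩
  have hcl := cs_eq l ⟨hl.le, le_rfl⟩
  have g0 : g l = g 0 := by simpa using hper 0 ⟨le_rfl, hl.le⟩
  have FF : ∀ d, F (l, d) = F (0, d) := fun d => by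
    simp only [F, hc0, hcl, zero_add, g0]
    rw [hper _ ⟨hd0.le.trans (cd_mem d).1, by linarith [(cd_mem d).2]⟩]
  -- the winding number is constant in `d`
  have n_const : Θ (l, d₀) - Θ (0, d₀) = Θ (l, l / 2) - Θ (0, l / 2) := by
    refine const_of_exp (f := fun d => Θ (l, d) - Θ (0, d)) (by fun_prop) (fun a b => ?_) _ _
    simp only [exp_sub, hΘ', FF, div_self (hF0 _)]
  -- it is odd at half period
  have odd : Θ (l, l / 2) - Θ (0, l / 2) ≠ 0 := by
    let ch : ℝ → ℝ := fun s => max 0 (min s (l / 2))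
    have ch_mem : ∀ s, ch s ∈ Icc 0 (l / 2) := fun s =>
      ⟨le_max_left _ _, max_le (by linarith) (min_le_right _ _)⟩
    have key : ∀ s, exp (Θ (ch s + l / 2, l / 2) - Θ (ch s, l / 2)) = -1 := fun s => by
      have h := ch_mem s
      rw [exp_sub, hΘ', hΘ', div_eq_iff (hF0 _)]
      simp only [F]
      rw [cs_eq _ ⟨by linarith [h.1], by linarith [h.2]⟩, cs_eq _ ⟨h.1, by linarith [h.2]⟩,
        cd_eq _ ⟨hd1, le_rfl⟩, show ch s + l / 2 + l / 2 = l + ch s by ring,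
        hper _ ⟨h.1, by linarith [h.2]⟩]
      ring
    have m := const_of_exp (f := fun s => Θ (ch s + l / 2, l / 2) - Θ (ch s, l / 2))
      (by simp only [ch]; fun_prop) (fun a b => by rw [key, key]) 0 (l / 2)
    have k0 := key 0
    have e0 : ch 0 = 0 := by simp [ch, min_eq_left (show (0 : ℝ) ≤ l / 2 by linarith)]
    have e1 : ch (l / 2) = l / 2 := by simp [ch, max_eq_right (show (0 : ℝ) ≤ l / 2 by linarith)]
    simp only [e0, e1, zero_add, add_halves] at m k0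
    intro h
    have : Θ (l / 2, l / 2) - Θ (0, l / 2) = 0 := by linear_combination (1 / 2) * h + (1 / 2) * m
    rw [this, exp_zero] at k0
    norm_num at k0
  -- it vanishes for short secants
  have pos : ∀ s, 0 < (F (s, d₀) * ee W (g (cs s))).re := fun s => by
    have h := cs_mem s
    have := ha (cs s) (cs s + d₀) (g (cs s)) h.1 (by linarith) (by linarith [h.2]) fun r hr =>
      hδ' r ⟨h.1.trans hr.1, by linarith [hr.2, h.2]⟩ _ ⟨h.1, by linarith [h.2]⟩
        (abs_le.2 ⟨by linarith [hr.1], by linarith [hr.2]⟩)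
    simp only [F, cd_eq _ ⟨le_rfl, hd1⟩]
    nlinarith
  have k := const_of_exp (f := fun s => Θ (s, d₀) + -(W (g (cs s)) : ℂ) * I
      - Complex.log (F (s, d₀) * ee W (g (cs s))))
    (by
      refine Continuous.sub (by simp only [cs]; fun_prop) ?_
      refine Continuous.clog (by simp only [ee, cs]; fun_prop) fun s => Or.inl (pos s))
    (fun a b => by
      have : ∀ s, exp (Θ (s, d₀) + -(W (g (cs s)) : ℂ) * I
          - Complex.log (F (s, d₀) * ee W (g (cs s)))) = 1 := fun s => by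
        have h0 : F (s, d₀) * ee W (g (cs s)) ≠ 0 := fun h => by simpa [h] using pos s
        rw [exp_sub, exp_add, hΘ', exp_log h0]; exact div_self h0
      rw [this, this]) l 0
  simp only [FF, hc0, hcl, g0] at k
  exact odd (by rw [← n_const]; linear_combination k)

/-- No closed admissible curve. -/
theorem no_loop {W : ℂ → ℝ} (hW : Continuous W) {ρ c T : ℝ} (hρ : 0 < ρ) (hc : 0 < c)
    (hT : 0 < T) {γ : ℝ → ℂ} (hγ : Continuous γ) (ha : Adm W ρ c γ T) (hcl : γ T = γ 0) :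
    False := by
  obtain ⟨δ, hδ, hδ'⟩ := exists_delta hγ T hρ
  have short : ∀ s t, 0 ≤ s → s < t → t ≤ T → t - s ≤ δ → γ t ≠ γ s := fun s t hs hst ht hd h => by
    have := ha s t (γ s) hs hst.le ht fun r hr =>
      hδ' r ⟨hs.trans hr.1, hr.2.trans ht⟩ _ ⟨hs, hst.le.trans ht⟩
        (abs_le.2 ⟨by linarith [hr.1], by linarith [hr.2]⟩)
    rw [h] at this
    simp at this
    nlinarith
  set δ' := min δ T
  have hδ0 : 0 < δ' := lt_min hδ hT
  let E : Set (ℝ × ℝ) := (Icc 0 T ×ˢ Icc 0 T) ∩ {p | p.1 + δ' ≤ p.2 ∧ γ p.2 = γ p.1}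
  have hE : IsCompact E := (isCompact_Icc.prod isCompact_Icc).inter_right
    ((isClosed_le (f := fun p : ℝ × ℝ => p.1 + δ') (g := fun p => p.2) (by fun_prop)
      (by fun_prop)).inter (isClosed_eq (f := fun p : ℝ × ℝ => γ p.2) (g := fun p => γ p.1)
      (by fun_prop) (by fun_prop)))
  have hne : E.Nonempty := ⟨(0, T), ⟨⟨le_rfl, hT.le⟩, ⟨hT.le, le_rfl⟩⟩,
    by rw [zero_add]; exact min_le_right δ T, hcl⟩
  obtain ⟨⟨a, b⟩, ⟨⟨ha1, hb1⟩, hab, hγab⟩, hmin⟩ :=
    hE.exists_isMinOn hne (f := fun p => p.2 - p.1) (by fun_prop)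
  simp only [mem_Icc] at ha1 hb1 hab hγab
  set l := b - a with hl
  have hl0 : 0 < l := by linarith
  let g₁ : ℝ → ℂ := fun t => γ (a + t)
  have hg₁ : Continuous g₁ := by fun_prop
  have hA : Adm W ρ c g₁ l := ha.shift ha1.1 (by linarith [hb1.2])
  have he : g₁ l = g₁ 0 := by simp [g₁, hl, hγab]
  have inj : ∀ s t, 0 ≤ s → s < t → t ≤ l → t - s < l → g₁ t ≠ g₁ s := fun s t hs hst ht hd h => by
    by_cases h' : t - s ≤ δ
    · exact short (a + s) (a + t) (by linarith) (by linarith) (by linarith [hb1.2])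
        (by linarith) h
    · have hm : (a + s, a + t) ∈ E := ⟨⟨⟨by linarith, by linarith [hb1.2]⟩,
        ⟨by linarith, by linarith [hb1.2]⟩⟩, by
          have := min_le_left δ T
          show a + s + δ' ≤ a + t
          linarith, h⟩
      have := hmin hm
      have : b - a ≤ a + t - (a + s) := this
      linarith
  refine hopf_simple hW hρ hc hl0 (cat_continuous hg₁ hg₁ l) (hA.cat hA he)
    (fun s hs => ?_) fun s hs d hd hdl => ?_
  · rw [cat_right he (by linarith [hs.1]), cat_left _ _ hs.2, add_sub_cancel_left]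
  · rw [cat_left _ _ hs.2]
    rcases le_total (s + d) l with h | h
    · rw [cat_left _ _ h]
      exact inj s (s + d) hs.1 (by linarith) h (by linarith)
    · rw [cat_right he h]
      exact (inj (s + d - l) s (by linarith) (by linarith) hs.2 (by linarith)).symm

end Pool.Agent.MP_2fc7fa_gt.Tor

end

section

namespace Pool.Agent.MP_2fc7fa_gt.Tor

open Set Complex MeasureTheory Filter Topology
open scoped ContDiff

theorem norm_ee (W : ℂ → ℝ) (y : ℂ) : ‖ee W y‖ = 1 := by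
  have : -(W y : ℂ) * I = ((-W y : ℝ) : ℂ) * I := by push_cast; ring
  rw [ee, this, norm_exp_ofReal_mul_I]

theorem ee_sub (W : ℂ → ℝ) (y y' : ℂ) : ‖ee W y - ee W y'‖ ≤ |W y - W y'| := by
  have h := (lipschitzWith_circleMap 0 1).dist_le_mul (-W y) (-W y')
  simp only [circleMap, dist_eq_norm] at h
  simpa [ee, abs_sub_comm, Real.norm_eq_abs, neg_add_eq_sub] using h

theorem re_ge (a e e' : ℂ) : (a * e).re - ‖a‖ * ‖e - e'‖ ≤ (a * e').re := by
  have : (a * (e - e')).re ≤ ‖a‖ * ‖e - e'‖ := by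
    rw [← norm_mul]; exact re_le_norm _
  rw [mul_sub, sub_re] at this
  linarith

/-- Lipschitz bound on `[0,T]`. -/
def Lip (C : ℝ) (γ : ℝ → ℂ) (T : ℝ) : Prop :=
  ∀ s t, 0 ≤ s → s ≤ t → t ≤ T → ‖γ t - γ s‖ ≤ C * (t - s)

theorem Lip.cat {C : ℝ} {γ₁ γ₂ : ℝ → ℂ} {T₁ T₂ : ℝ} (h₁ : Lip C γ₁ T₁) (h₂ : Lip C γ₂ T₂)
    (he : γ₁ T₁ = γ₂ 0) : Lip C (cat γ₁ γ₂ T₁) (T₁ + T₂) := by
  intro s t hs hst ht
  rcases le_total t T₁ with h | h
  · rw [cat_left _ _ h, cat_left _ _ (hst.trans h)]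
    exact h₁ s t hs hst h
  rcases le_total T₁ s with h' | h'
  · rw [cat_right he h, cat_right he h']
    have := h₂ (s - T₁) (t - T₁) (by linarith) (by linarith) (by linarith)
    convert this using 2; ring
  · rw [cat_right he h, cat_left _ _ h']
    have a := h₁ s T₁ hs h' le_rfl
    have b := h₂ 0 (t - T₁) le_rfl (by linarith) (by linarith)
    rw [he] at a
    have := norm_sub_le_norm_sub_add_norm_sub (γ₂ (t - T₁)) (γ₂ 0) (γ₁ s)
    linarith

theorem adm_seg {W : ℂ → ℝ} {ρ c T : ℝ} {a ζ : ℂ}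
    (h : ∀ r ∈ Icc 0 T, ∀ y, ‖a + r * ζ - y‖ ≤ ρ → c ≤ (ζ * ee W y).re) :
    Adm W ρ c (fun r : ℝ => a + r * ζ) T := by
  intro s t y hs hst ht hr
  have := h s ⟨hs, hst.trans ht⟩ y (hr s ⟨le_rfl, hst⟩)
  have e : (a + t * ζ - (a + s * ζ)) * ee W y = ((t - s : ℝ) : ℂ) * (ζ * ee W y) := by
    push_cast; ring
  rw [e, re_ofReal_mul]
  nlinarith

theorem time_bound {W : ℂ → ℝ} (hW : Continuous W) {ρ c C : ℝ} (hρ : 0 < ρ) (hc : 0 < c)
    (hC : 0 < C) (R : ℝ) : ∃ M, ∀ γ T, Continuous γ → Lip C γ T → Adm W ρ c γ T →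
      (∀ t ∈ Icc 0 T, ‖γ t‖ ≤ R) → T ≤ M := by
  classical
  set τ := ρ / (4 * C) with hτ
  have hτ0 : 0 < τ := by positivity
  have hCτ : C * τ = ρ / 4 := by rw [hτ]; field_simp
  set r₀ := min (c * τ / 2) (ρ / 4) with hr₀
  have hr0 : 0 < r₀ := lt_min (by positivity) (by positivity)
  obtain ⟨S, -, hSf, hS⟩ := finite_cover_balls_of_compact (isCompact_closedBall (0 : ℂ) R)
    (half_pos hr0)
  refine ⟨2 * hSf.toFinset.card * τ, fun γ T hγ hL hA hR => ?_⟩
  by_contra hT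
  push Not at hT
  set N := hSf.toFinset.card
  have hin : ∀ k ∈ Finset.range (N + 1), 2 * k * τ ∈ Icc 0 T := fun k hk => by
    have : (k : ℝ) ≤ N := by exact_mod_cast Nat.lt_succ_iff.1 (Finset.mem_range.1 hk)
    exact ⟨by positivity, by nlinarith⟩
  have hex : ∀ k : ℕ, ∃ x, k ∈ Finset.range (N + 1) → x ∈ hSf.toFinset ∧
      dist (γ (2 * k * τ)) x < r₀ / 2 := fun k => by
    by_cases hk : k ∈ Finset.range (N + 1)
    · have := hS (mem_closedBall_zero_iff.2 (hR _ (hin k hk)))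
      simp only [mem_iUnion, Metric.mem_ball] at this
      obtain ⟨x, hx, h⟩ := this
      exact ⟨x, fun _ => ⟨by simpa using hx, h⟩⟩
    · exact ⟨0, fun h => absurd h hk⟩
  choose f hf using hex
  obtain ⟨k, hk, k', hk', hne, hff⟩ := Finset.exists_ne_map_eq_of_card_lt_of_maps_to
    (s := Finset.range (N + 1)) (t := hSf.toFinset) (f := f) (by simp [N]) fun k hk => (hf k hk).1
  wlog hlt : k < k' generalizing k k'
  · exact this k' hk' k hk hne.symm hff.symm (by omega)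
  set t := 2 * k * τ with ht
  set t' := 2 * k' * τ with ht'
  have h1 := hin k hk
  have h2 := hin k' hk'
  have htt : t + 2 * τ ≤ t' := by
    have : (k : ℝ) + 1 ≤ k' := by exact_mod_cast hlt
    nlinarith
  have hd : ‖γ t' - γ t‖ ≤ r₀ := by
    have a := (hf k hk).2
    have b := (hf k' hk').2
    rw [← hff] at b
    have := dist_triangle_right (γ t') (γ t) (f k)
    rw [dist_eq_norm] at this
    linarith
  set ζ := γ (t + τ) - γ t' with hζ
  have hnear : ∀ r ∈ Icc t (t + τ), ‖γ r - γ t‖ ≤ ρ / 4 := fun r hr =>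
    (hL t r h1.1 hr.1 (by linarith [hr.2, h2.2])).trans (by nlinarith [hr.2])
  have hseg : Adm W (ρ / 8) (min c (c * τ / 2)) (fun r : ℝ => γ t' + r * ζ) 1 := by
    refine adm_seg fun r hr y hy => (min_le_right _ _).trans ?_
    have a : ‖γ t' + r * ζ - γ t‖ ≤ ρ / 4 := by
      have e : γ t' + r * ζ - γ t
          = ((1 - r : ℝ) : ℂ) * (γ t' - γ t) + (r : ℂ) * (γ (t + τ) - γ t) := by
        rw [hζ]; push_cast; ring
      rw [e]
      refine (norm_add_le _ _).trans ?_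
      rw [norm_mul, norm_mul, norm_real, norm_real, Real.norm_of_nonneg hr.1,
        Real.norm_of_nonneg (by linarith [hr.2])]
      have b := hnear (t + τ) ⟨by linarith, le_rfl⟩
      have b' : ‖γ t' - γ t‖ ≤ ρ / 4 := hd.trans (min_le_right _ _)
      nlinarith [hr.1, hr.2]
    have b := hA t (t + τ) y h1.1 (by linarith) (by linarith [h2.2]) fun r' hr' => by
      have := hnear r' hr'
      have e : γ r' - y = (γ r' - γ t) - (γ t' + r * ζ - γ t) + (γ t' + r * ζ - y) := by ring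
      rw [e]
      refine (norm_add_le _ _).trans ?_
      have := norm_sub_le (γ r' - γ t) (γ t' + r * ζ - γ t)
      linarith
    have e : ζ * ee W y = (γ (t + τ) - γ t) * ee W y - (γ t' - γ t) * ee W y := by
      rw [hζ]; ring
    have b' : ((γ t' - γ t) * ee W y).re ≤ c * τ / 2 := by
      refine (re_le_norm _).trans ?_
      rw [norm_mul, norm_ee, mul_one]
      exact hd.trans (min_le_left _ _)
    rw [e, sub_re]
    have : c * (t + τ - t) = c * τ := by ring
    linarith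
  have harc : Adm W (ρ / 8) (min c (c * τ / 2)) (fun r => γ (t + τ + r)) (t' - (t + τ)) :=
    (hA.shift (by linarith [h1.1]) (by linarith [h2.2])).mono (by linarith) (min_le_left _ _)
  have he : (fun r => γ (t + τ + r)) (t' - (t + τ)) = (fun r : ℝ => γ t' + r * ζ) 0 := by simp
  refine no_loop hW (by positivity) (lt_min hc (by positivity)) (by linarith)
    (cat_continuous (by fun_prop) (by fun_prop) _) (harc.cat hseg he) ?_
  rw [cat_right he (by linarith), cat_left _ _ (by linarith)]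
  simp [hζ]

/-- Lyapunov functions for compact sets of directions in the half-planes of an angle field. -/
theorem lyapunov {W : ℂ → ℝ} (hW : UniformContinuous W) {Ξ : Set (ℂ × ℂ)} (hΞ : IsCompact Ξ)
    (hpos : ∀ p ∈ Ξ, 0 < (p.2 * ee W p.1).re) :
    ∃ L : ℂ → ℝ, ContDiff ℝ ∞ L ∧ ∀ p ∈ Ξ, 1 ≤ fderiv ℝ L p.1 p.2 := by
  rcases Ξ.eq_empty_or_nonempty with rfl | hne
  · exact ⟨0, contDiff_const, by simp⟩
  have hWc := hW.continuous
  obtain ⟨p₀, hp₀, hmin⟩ := hΞ.exists_isMinOn hne (f := fun p => (p.2 * ee W p.1).re)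
    (by unfold ee; fun_prop)
  set m := (p₀.2 * ee W p₀.1).re / 3 with hm
  have hm0 : 0 < m := by have := hpos p₀ hp₀; positivity
  have hm3 : ∀ p ∈ Ξ, 3 * m ≤ (p.2 * ee W p.1).re := fun p hp => by
    have : (p₀.2 * ee W p₀.1).re ≤ (p.2 * ee W p.1).re := hmin hp
    linarith
  obtain ⟨R₀, hR₀⟩ := hΞ.isBounded.exists_norm_le
  set R := max R₀ 1
  have hR0 : 0 < R := lt_max_of_lt_right one_pos
  have hR1 : ∀ p ∈ Ξ, ‖p.1‖ ≤ R := fun p hp =>
    (norm_fst_le p).trans ((hR₀ p hp).trans (le_max_left _ _))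
  have hR2 : ∀ p ∈ Ξ, ‖p.2‖ ≤ R := fun p hp =>
    (norm_snd_le p).trans ((hR₀ p hp).trans (le_max_left _ _))
  have unif : ∀ ε > 0, ∃ δ > 0, ∀ y y', ‖y - y'‖ ≤ δ → ‖ee W y - ee W y'‖ ≤ ε := fun ε hε => by
    obtain ⟨δ, hδ, h⟩ := Metric.uniformContinuous_iff_le.1 hW ε hε
    exact ⟨δ, hδ, fun y y' hy => (ee_sub W y y').trans
      (by simpa [Real.dist_eq] using h (by simpa [dist_eq_norm] using hy))⟩
  obtain ⟨δ, hδ, hδ'⟩ := unif (m / R) (by positivity)
  set ρ := min (δ / 3) (1 / 2) with hρ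
  have hρ0 : 0 < ρ := lt_min (by positivity) (by norm_num)
  have hρ1 : ρ ≤ δ / 3 := min_le_left _ _
  have hρ2 : ρ ≤ 1 / 2 := min_le_right _ _
  have dir : ∀ p ∈ Ξ, ∀ y, ‖p.1 - y‖ ≤ 3 * ρ → 2 * m ≤ (p.2 * ee W y).re := fun p hp y hy => by
    have a := re_ge p.2 (ee W p.1) (ee W y)
    have b := hδ' p.1 y (by linarith)
    have c : ‖p.2‖ * ‖ee W p.1 - ee W y‖ ≤ R * (m / R) :=
      mul_le_mul (hR2 p hp) b (norm_nonneg _) hR0.le
    rw [mul_div_cancel₀ _ hR0.ne'] at c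
    linarith [hm3 p hp]
  let 𝒯 : ℂ → Set ℝ := fun y => {T | 0 ≤ T ∧ ∃ γ c, m < c ∧ Continuous γ ∧ Lip R γ T ∧
    Adm W ρ c γ T ∧ γ 0 = y ∧ ∀ t ∈ Icc 0 T, ‖γ t‖ < R + 2}
  obtain ⟨M, hM⟩ := time_bound hWc hρ0 hm0 hR0 (R + 2)
  have hTM : ∀ y, ∀ T ∈ 𝒯 y, T ≤ M := fun y T ⟨_, γ, c, hc, hγ, hL, hA, _, hU⟩ =>
    hM γ T hγ hL (hA.mono le_rfl hc.le) fun t ht => (hU t ht).le
  have bdd : ∀ y, BddAbove (𝒯 y) := fun y => ⟨M, hTM y⟩
  have zero : ∀ y, ‖y‖ < R + 2 → (0 : ℝ) ∈ 𝒯 y := fun y hy =>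
    ⟨le_rfl, fun _ => y, m + 1, by linarith, continuous_const,
      fun s t _ hst _ => by simp; nlinarith,
      fun s t _ hs hst ht _ => by
        have : t = s := by linarith
        simp [this], rfl, fun _ _ => hy⟩
  let Tm : ℂ → ℝ := fun y => sSup (𝒯 y)
  have Tm0 : ∀ y, 0 ≤ Tm y := fun y => Real.sSup_nonneg fun T hT => hT.1
  have TmM : ∀ y, Tm y ≤ max M 0 := fun y =>
    Real.sSup_le (fun T hT => (hTM y T hT).trans (le_max_left _ _)) (le_max_right _ _)
  have lsc : LowerSemicontinuous Tm := by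
    intro y a ha
    rcases lt_or_ge a 0 with h | h
    · exact Eventually.of_forall fun y' => h.trans_le (Tm0 y')
    have hne : (𝒯 y).Nonempty := by
      by_contra hn
      rw [not_nonempty_iff_eq_empty] at hn
      simp only [Tm, hn, Real.sSup_empty] at ha
      linarith
    obtain ⟨T, ⟨hT, γ, c, hc, hγ, hL, hA, h0, hU⟩, haT⟩ := exists_lt_of_lt_csSup hne ha
    obtain ⟨t₀, ht₀, hmax⟩ := (isCompact_Icc (a := (0 : ℝ)) (b := T)).exists_isMaxOn
      ⟨0, le_rfl, hT⟩ (f := fun t => ‖γ t‖) (by fun_prop)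
    obtain ⟨η, hη, hη'⟩ := unif ((c - m) / 2 / R) (by
      have : 0 < c - m := by linarith
      positivity)
    have hball : Metric.ball y (min η (R + 2 - ‖γ t₀‖)) ∈ 𝓝 y :=
      Metric.ball_mem_nhds _ (lt_min hη (by linarith [hU t₀ ht₀]))
    filter_upwards [hball] with y' hy'
    rw [Metric.mem_ball, dist_eq_norm, lt_min_iff] at hy'
    refine haT.trans_le (le_csSup (bdd y') ⟨hT, fun t => γ t + (y' - y), (c + m) / 2,
      by linarith, by fun_prop, fun s t hs hst ht => by simpa using hL s t hs hst ht,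
      fun s t u hs hst ht hr => ?_, by simp [h0], fun t ht => ?_⟩)
    · have a := hA s t (u - (y' - y)) hs hst ht fun r hr' => by
        have := hr r hr'
        convert this using 2; ring
      have b := re_ge (γ t - γ s) (ee W (u - (y' - y))) (ee W u)
      have d := hη' (u - (y' - y)) u (by
        rw [show u - (y' - y) - u = -(y' - y) by ring, norm_neg]; exact hy'.1.le)
      have f : ‖γ t - γ s‖ * ‖ee W (u - (y' - y)) - ee W u‖ ≤ R * (t - s) * ((c - m) / 2 / R) :=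
        mul_le_mul (hL s t hs hst ht) d (norm_nonneg _) (by nlinarith)
      have g : R * (t - s) * ((c - m) / 2 / R) = (c - m) / 2 * (t - s) := by field_simp
      rw [show γ t + (y' - y) - (γ s + (y' - y)) = γ t - γ s by ring]
      nlinarith
    · have a : ‖γ t‖ ≤ ‖γ t₀‖ := hmax ht
      have := norm_add_le (γ t) (y' - y)
      linarith [hy'.2]
  have step : ∀ p ∈ Ξ, ∀ s : ℝ, 0 < s → s ≤ ρ / R → ∀ u : ℂ, ‖u‖ ≤ ρ →
      s + Tm (p.1 + s * p.2 - u) ≤ Tm (p.1 - u) := fun p hp s hs hsR u hu => by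
    have small : ∀ r ∈ Icc 0 s, ‖(r : ℂ) * p.2‖ ≤ ρ := fun r hr => by
      rw [norm_mul, norm_real, Real.norm_of_nonneg hr.1]
      calc r * ‖p.2‖ ≤ ρ / R * R :=
            mul_le_mul (hr.2.trans hsR) (hR2 p hp) (norm_nonneg _) (by positivity)
        _ = ρ := div_mul_cancel₀ _ hR0.ne'
    have inU : ∀ r ∈ Icc 0 s, ‖p.1 - u + r * p.2‖ < R + 2 := fun r hr => by
      have a := norm_add_le (p.1 - u) (r * p.2)
      have b := norm_sub_le p.1 u
      linarith [small r hr, hR1 p hp]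
    have hz := zero (p.1 + s * p.2 - u) (by
      have := inU s ⟨hs.le, le_rfl⟩
      rwa [show p.1 - u + s * p.2 = p.1 + s * p.2 - u by ring] at this)
    rw [← le_sub_iff_add_le']
    refine csSup_le ⟨0, hz⟩ fun T ⟨hT, γ, c, hc, hγ, hL, hA, h0, hU⟩ => ?_
    rw [le_sub_iff_add_le']
    have he : (fun r : ℝ => p.1 - u + r * p.2) s = γ 0 := by rw [h0]; ring
    have hseg : Adm W ρ (min c (2 * m)) (fun r : ℝ => p.1 - u + r * p.2) s :=
      adm_seg fun r hr y hy => (min_le_right _ _).trans (dir p hp y (by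
        have e : p.1 - y = (p.1 - u + r * p.2 - y) + u - r * p.2 := by ring
        rw [e]
        have a := norm_sub_le (p.1 - u + r * p.2 - y + u) (r * p.2)
        have b := norm_add_le (p.1 - u + r * p.2 - y) u
        linarith [small r hr]))
    have hlip : Lip R (fun r : ℝ => p.1 - u + r * p.2) s := fun a b _ hab _ => by
      rw [show p.1 - u + b * p.2 - (p.1 - u + a * p.2) = ((b - a : ℝ) : ℂ) * p.2 by
        push_cast; ring, norm_mul, norm_real, Real.norm_of_nonneg (by linarith), mul_comm]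
      exact mul_le_mul_of_nonneg_right (hR2 p hp) (by linarith)
    refine le_csSup (bdd _) ⟨by linarith, cat (fun r : ℝ => p.1 - u + r * p.2) γ s,
      min c (2 * m), lt_min hc (by linarith), cat_continuous (by fun_prop) hγ _,
      hlip.cat hL he, hseg.cat (hA.mono le_rfl (min_le_left _ _)) he,
      by rw [cat_left _ _ hs.le]; simp, fun t ht => ?_⟩
    rcases le_total t s with h | h
    · rw [cat_left _ _ h]; exact inU t ⟨ht.1, h⟩
    · rw [cat_right (γ₁ := fun r : ℝ => p.1 - u + r * p.2) he h]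
      exact hU _ ⟨by linarith, by linarith [ht.2]⟩
  have meas : Measurable Tm := lsc.measurable
  let φ : ContDiffBump (0 : ℂ) := ⟨ρ / 2, ρ, by positivity, by linarith⟩
  have hloc : LocallyIntegrable (fun y => -Tm y) volume := by
    refine (locallyIntegrable_const (max M 0)).mono meas.neg.aestronglyMeasurable
      (Eventually.of_forall fun y => ?_)
    rw [norm_neg, Real.norm_of_nonneg (Tm0 y), Real.norm_of_nonneg (le_max_right _ _)]
    exact TmM y
  let L : ℂ → ℝ := convolution (φ.normed volume) (fun y => -Tm y) (ContinuousLinearMap.lsmul ℝ ℝ)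
    volume
  have hL : ContDiff ℝ ∞ L :=
    φ.hasCompactSupport_normed.contDiff_convolution_left _ φ.contDiff_normed hloc
  have hint : ∀ x, Integrable fun u => φ.normed volume u • (-Tm (x - u)) := fun x =>
    (φ.hasCompactSupport_normed.convolutionExists_left (ContinuousLinearMap.lsmul ℝ ℝ)
      φ.continuous_normed hloc x)
  refine ⟨L, hL, fun p hp => ?_⟩
  have incr : ∀ s : ℝ, 0 < s → s ≤ ρ / R → s ≤ L (p.1 + s * p.2) - L p.1 := fun s hs hsR => by
    simp only [L, convolution_lsmul]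
    rw [← integral_sub (hint _) (hint _)]
    calc s = ∫ u, φ.normed volume u * s := by
          rw [integral_mul_const, φ.integral_normed, one_mul]
      _ ≤ _ := by
          refine integral_mono (φ.integrable_normed.mul_const s) ((hint _).sub (hint _))
            fun u => ?_
          by_cases hu : ‖u‖ ≤ ρ
          · have := step p hp s hs hsR u hu
            have h0 := φ.nonneg_normed (μ := volume) u
            simp only [smul_eq_mul]
            nlinarith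
          · have : φ.normed volume u = 0 := by
              by_contra h
              have : u ∈ Function.support (φ.normed volume) := h
              rw [φ.support_normed_eq, mem_ball_zero_iff] at this
              exact hu this.le
            simp [this]
  have hd : HasDerivAt (fun s : ℝ => L (p.1 + s * p.2)) (fderiv ℝ L p.1 p.2) 0 := by
    have h1 : HasDerivAt (fun s : ℝ => p.1 + (s : ℂ) * p.2) p.2 0 := by
      simpa using ((ofRealCLM.hasDerivAt (x := (0 : ℝ))).mul_const p.2).const_add p.1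
    have h2 := (hL.differentiable (by simp) (p.1 + ((0 : ℝ) : ℂ) * p.2)).hasFDerivAt
    have h3 := h2.comp_hasDerivAt (0 : ℝ) h1
    simp only [ofReal_zero, zero_mul, add_zero] at h3
    exact h3
  have ht := hd.tendsto_slope_zero_right
  refine ge_of_tendsto ht ?_
  filter_upwards [Ioc_mem_nhdsGT (show (0 : ℝ) < ρ / R by positivity)] with s hs
  have := incr s hs.1 hs.2
  simp only [zero_add, ofReal_zero, zero_mul, add_zero, smul_eq_mul]
  rw [le_inv_mul_iff₀ hs.1]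
  linarith

end Pool.Agent.MP_2fc7fa_gt.Tor

end

section

namespace Pool.Agent.MP_2fc7fa_gt.Tor

open Set Complex Filter Topology
open scoped ContDiff

/-- The standard triangle. -/
def Tri : Set ℂ := {x | 0 ≤ x.re ∧ 0 ≤ x.im ∧ x.re + x.im ≤ 1}

theorem tri_closed : IsClosed Tri :=
  (isClosed_le continuous_const continuous_re).inter ((isClosed_le continuous_const
    continuous_im).inter (isClosed_le (continuous_re.add continuous_im) continuous_const))

theorem tri_norm {x : ℂ} (h : x ∈ Tri) : ‖x‖ ≤ 1 := by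
  have := norm_le_abs_re_add_abs_im x
  rw [abs_of_nonneg h.1, abs_of_nonneg h.2.1] at this
  linarith [h.2.2]

theorem tri_compact : IsCompact Tri :=
  (isCompact_closedBall (0 : ℂ) 1).of_isClosed_subset tri_closed fun _ h =>
    mem_closedBall_zero_iff.2 (tri_norm h)

instance : CompactSpace Tri := isCompact_iff_compactSpace.1 tri_compact

theorem tri_convex : Convex ℝ Tri := by
  intro x hx y hy a b ha hb hab
  obtain ⟨h1, h2, h3⟩ := hx
  obtain ⟨h4, h5, h6⟩ := hy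
  refine ⟨?_, ?_, ?_⟩ <;> simp only [add_re, add_im, smul_re, smul_im, smul_eq_mul] <;> nlinarith

/-- The open triangle. -/
def TriO : Set ℂ := {x | 0 < x.re ∧ 0 < x.im ∧ x.re + x.im < 1}

theorem triO_open : IsOpen TriO :=
  (isOpen_lt continuous_const continuous_re).inter ((isOpen_lt continuous_const
    continuous_im).inter (isOpen_lt (continuous_re.add continuous_im) continuous_const))

theorem triO_sub : TriO ⊆ Tri := fun _ h => ⟨h.1.le, h.2.1.le, h.2.2.le⟩

theorem tri_uniq : UniqueDiffOn ℝ Tri :=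
  uniqueDiffOn_convex tri_convex ⟨⟨1 / 3, 1 / 3⟩, interior_maximal triO_sub triO_open
    ⟨by norm_num, by norm_num, by norm_num⟩⟩

theorem zero_mem_tri : (0 : ℂ) ∈ Tri := by simp [Tri]
theorem one_mem_tri : (1 : ℂ) ∈ Tri := by simp [Tri]
theorem I_mem_tri : I ∈ Tri := by simp [Tri]

/-- The linear form with gradient `n`. -/
noncomputable def dot (n : ℂ) : ℂ →L[ℝ] ℝ := n.re • reCLM + n.im • imCLM

@[simp] theorem dot_apply (n v : ℂ) : dot n v = n.re * v.re + n.im * v.im := by simp [dot]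

/-- `F` has the continuous gradient `N` on the triangle. -/
def HG (F : ℂ → ℝ) (N : C(Tri, ℂ)) : Prop := ∀ x : Tri, HasFDerivWithinAt F (dot (N x)) Tri x

theorem HG.unique {F : ℂ → ℝ} {N N' : C(Tri, ℂ)} (h : HG F N) (h' : HG F N') : N = N' := by
  ext1 x
  have := (tri_uniq x x.2).eq (h x) (h' x)
  have a := congrArg (fun L => L 1) this
  have b := congrArg (fun L => L I) this
  simp at a b
  exact Complex.ext a b

theorem HG.cont {F : ℂ → ℝ} {N : C(Tri, ℂ)} (h : HG F N) : ContinuousOn F Tri :=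
  fun x hx => (h ⟨x, hx⟩).continuousWithinAt

theorem HG.add {F F' : ℂ → ℝ} {N N' : C(Tri, ℂ)} (h : HG F N) (h' : HG F' N') :
    HG (fun x => F x + F' x) (N + N') := fun x =>
  ((h x).fun_add (h' x)).congr_fderiv (by ext1 v; simp; ring)

theorem HG.smul {F : ℂ → ℝ} {N : C(Tri, ℂ)} (h : HG F N) (c : ℝ) :
    HG (fun x => c * F x) (c • N) := fun x =>
  ((h x).const_mul c).congr_fderiv (by ext1 v; simp; ring)

theorem HG.congr {F F' : ℂ → ℝ} {N : C(Tri, ℂ)} (h : HG F N) (e : ∀ x ∈ Tri, F' x = F x) :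
    HG F' N := fun x => (h x).congr e (e x x.2)

theorem line_deriv {F : ℂ → ℝ} {D : ℂ →L[ℝ] ℝ} {x w : ℂ} {t : ℝ} {S : Set ℝ}
    (h : HasFDerivWithinAt F D Tri (x + t * w)) (hS : ∀ s ∈ S, x + s * w ∈ Tri) :
    HasDerivWithinAt (fun s : ℝ => F (x + s * w)) (D w) S t := by
  have h1 : HasDerivAt (fun s : ℝ => x + (s : ℂ) * w) w t := by
    simpa using ((ofRealCLM.hasDerivAt (x := t)).mul_const w).const_add x
  exact h.comp_hasDerivWithinAt t h1.hasDerivWithinAt hS

theorem dir_nonneg {F : ℂ → ℝ} {D : ℂ →L[ℝ] ℝ} {x w : ℂ} {ε : ℝ} (hε : 0 < ε)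
    (h : HasFDerivWithinAt F D Tri x)
    (hS : ∀ s ∈ Icc 0 ε, x + s * w ∈ Tri ∧ F x ≤ F (x + s * w)) : 0 ≤ D w := by
  have h1 := line_deriv (x := x) (w := w) (t := 0) (S := Ioc 0 ε) (by simpa using h)
    fun s hs => (hS s ⟨hs.1.le, hs.2⟩).1
  rw [hasDerivWithinAt_iff_tendsto_slope' (by simp)] at h1
  have : (𝓝[Ioc 0 ε] (0 : ℝ)).NeBot := by
    rw [nhdsWithin_Ioc_eq_nhdsGT hε]; infer_instance
  refine ge_of_tendsto h1 ?_
  filter_upwards [self_mem_nhdsWithin] with s hs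
  have := (hS s ⟨hs.1.le, hs.2⟩).2
  rw [slope_def_field]
  simp only [ofReal_zero, zero_mul, add_zero, sub_zero]
  exact div_nonneg (by linarith) hs.1.le

theorem dir_zero {F : ℂ → ℝ} {D : ℂ →L[ℝ] ℝ} {x w : ℂ} {ε : ℝ} (hε : 0 < ε)
    (h : HasFDerivWithinAt F D Tri x)
    (hS : ∀ s ∈ Icc 0 ε, x + s * w ∈ Tri ∧ F (x + s * w) = F x) : D w = 0 := by
  have a := dir_nonneg hε h fun s hs => ⟨(hS s hs).1, (hS s hs).2.ge⟩
  have b := dir_nonneg hε h.neg fun s hs => ⟨(hS s hs).1, by simp [(hS s hs).2]⟩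
  simp at b
  linarith

theorem edgeA {F : ℂ → ℝ} {N : C(Tri, ℂ)} (h : HG F N) {c : ℝ}
    (hc : ∀ x ∈ Tri, x.im = 0 → F x = c) (x : Tri) (hx : x.1.im = 0) : (N x).re = 0 := by
  obtain ⟨h1, h2, h3⟩ := x.2
  rcases le_total x.1.re (1 / 2) with k | k
  · have := dir_zero (w := 1) (ε := 1 / 2) (by norm_num) (h x) fun s hs => by
      have m : x.1 + s * 1 ∈ Tri := by
        refine ⟨?_, ?_, ?_⟩ <;> simp <;> linarith [hs.1, hs.2]
      exact ⟨m, by rw [hc _ m (by simp [hx]), hc _ x.2 hx]⟩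
    simpa using this
  · have := dir_zero (w := -1) (ε := 1 / 2) (by norm_num) (h x) fun s hs => by
      have m : x.1 + s * (-1) ∈ Tri := by
        refine ⟨?_, ?_, ?_⟩ <;> simp <;> linarith [hs.1, hs.2]
      exact ⟨m, by rw [hc _ m (by simp [hx]), hc _ x.2 hx]⟩
    simpa using this

theorem edgeB {F : ℂ → ℝ} {N : C(Tri, ℂ)} (h : HG F N) {c : ℝ}
    (hc : ∀ x ∈ Tri, x.re = 0 → F x = c) (x : Tri) (hx : x.1.re = 0) : (N x).im = 0 := by
  obtain ⟨h1, h2, h3⟩ := x.2
  rcases le_total x.1.im (1 / 2) with k | k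
  · have := dir_zero (w := I) (ε := 1 / 2) (by norm_num) (h x) fun s hs => by
      have m : x.1 + s * I ∈ Tri := by
        refine ⟨?_, ?_, ?_⟩ <;> simp <;> linarith [hs.1, hs.2]
      exact ⟨m, by rw [hc _ m (by simp [hx]), hc _ x.2 hx]⟩
    simpa using this
  · have := dir_zero (w := -I) (ε := 1 / 2) (by norm_num) (h x) fun s hs => by
      have m : x.1 + s * (-I) ∈ Tri := by
        refine ⟨?_, ?_, ?_⟩ <;> simp <;> linarith [hs.1, hs.2]
      exact ⟨m, by rw [hc _ m (by simp [hx]), hc _ x.2 hx]⟩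
    simpa using this

theorem edgeH {F : ℂ → ℝ} {N : C(Tri, ℂ)} (h : HG F N) {c : ℝ}
    (hc : ∀ x ∈ Tri, x.re + x.im = 1 → F x = c) (x : Tri) (hx : x.1.re + x.1.im = 1) :
    (N x).re = (N x).im := by
  obtain ⟨h1, h2, h3⟩ := x.2
  rcases le_total x.1.re (1 / 2) with k | k
  · have := dir_zero (w := 1 - I) (ε := 1 / 2) (by norm_num) (h x) fun s hs => by
      have m : x.1 + s * (1 - I) ∈ Tri := by
        refine ⟨?_, ?_, ?_⟩ <;> simp <;> linarith [hs.1, hs.2]
      exact ⟨m, by rw [hc _ m (by simp; linarith), hc _ x.2 hx]⟩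
    simp at this; linarith
  · have := dir_zero (w := I - 1) (ε := 1 / 2) (by norm_num) (h x) fun s hs => by
      have m : x.1 + s * (I - 1) ∈ Tri := by
        refine ⟨?_, ?_, ?_⟩ <;> simp <;> linarith [hs.1, hs.2]
      exact ⟨m, by rw [hc _ m (by simp; linarith), hc _ x.2 hx]⟩
    simp at this; linarith

theorem pos_of_conn {X : Type*} [TopologicalSpace X] {S : Set X} (hS : IsPreconnected S)
    {f : X → ℝ} (hf : Continuous f) (h0 : ∀ x ∈ S, f x ≠ 0) {a : X} (ha : a ∈ S) (hfa : 0 < f a) :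
    ∀ x ∈ S, 0 < f x := fun x hx => by
  by_contra h
  obtain ⟨y, hy, hy0⟩ := hS.intermediate_value hx ha hf.continuousOn
    (show (0 : ℝ) ∈ Icc (f x) (f a) from ⟨not_lt.1 h, hfa.le⟩)
  exact h0 y hy hy0

theorem conn_of_convex {S : Set ℂ} (hS : Convex ℝ S) :
    IsPreconnected {x : Tri | x.1 ∈ S} := by
  rw [← IsInducing.subtypeVal.isPreconnected_image]
  have : Subtype.val '' {x : Tri | x.1 ∈ S} = Tri ∩ S := by
    ext x; simp [and_comm]
  rw [this]
  exact (tri_convex.inter hS).isPreconnected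

theorem connA : IsPreconnected {x : Tri | x.1.im = 0} :=
  conn_of_convex (S := {x | x.im = 0}) fun x hx y hy a b _ _ _ => by
    have hx : x.im = 0 := hx
    have hy : y.im = 0 := hy
    show (a • x + b • y).im = 0
    simp [hx, hy]

theorem connB : IsPreconnected {x : Tri | x.1.re = 0} :=
  conn_of_convex (S := {x | x.re = 0}) fun x hx y hy a b _ _ _ => by
    have hx : x.re = 0 := hx
    have hy : y.re = 0 := hy
    show (a • x + b • y).re = 0
    simp [hx, hy]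

theorem connH : IsPreconnected {x : Tri | x.1.re + x.1.im = 1} :=
  conn_of_convex (S := {x | x.re + x.im = 1}) fun x hx y hy a b _ _ hab => by
    have hx : x.re + x.im = 1 := hx
    have hy : y.re + y.im = 1 := hy
    show (a • x + b • y).re + (a • x + b • y).im = 1
    simp only [add_re, add_im, smul_re, smul_im, smul_eq_mul]
    linear_combination a * hx + b * hy + hab

theorem connT : IsPreconnected (univ : Set Tri) := by
  simpa using conn_of_convex (S := univ) convex_univ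

/-- The determinant of two plane vectors. -/
def det (a b : ℂ) : ℝ := a.re * b.im - a.im * b.re

/-- Gradient fields of admissible height functions. -/
def Hc (N : C(Tri, ℂ)) : Prop :=
  ∀ x : Tri, N x ≠ 0 ∧ (x.1.im = 0 ∨ x.1.re + x.1.im = 1 → 0 < (N x).re) ∧
    (x.1.re = 0 ∨ x.1.re + x.1.im = 1 → 0 < (N x).im)

theorem mvt_edge {F : ℂ → ℝ} {N : C(Tri, ℂ)} (h : HG F N) {w : ℂ}
    (hw : ∀ s ∈ Icc (0 : ℝ) 1, (s : ℂ) * w ∈ Tri) (hF : F 0 < F w) :
    ∃ s, ∃ hs : s ∈ Icc (0 : ℝ) 1, 0 < dot (N ⟨s * w, hw s hs⟩) w := by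
  classical
  have hd : ∀ s (hs : s ∈ Icc (0 : ℝ) 1), HasDerivWithinAt (fun s : ℝ => F (0 + s * w))
      (dot (N ⟨s * w, hw s hs⟩) w) (Icc 0 1) s := fun s hs =>
    line_deriv (by simpa using h ⟨s * w, hw s hs⟩) (by simpa using hw)
  obtain ⟨c, hc, hc'⟩ := exists_hasDerivAt_eq_slope (fun s : ℝ => F (0 + s * w))
    (fun s => if hs : s ∈ Icc (0 : ℝ) 1 then dot (N ⟨s * w, hw s hs⟩) w else 0) one_pos
    (fun s hs => (hd s hs).continuousWithinAt) fun s hs => by
      rw [dif_pos (Ioo_subset_Icc_self hs)]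
      exact (hd s (Ioo_subset_Icc_self hs)).hasDerivAt (Icc_mem_nhds hs.1 hs.2)
  rw [dif_pos (Ioo_subset_Icc_self hc)] at hc'
  refine ⟨c, Ioo_subset_Icc_self hc, ?_⟩
  rw [hc']
  simpa using hF

/-- Boundary conditions of a moment map of total mass `l`. -/
def Bd (l : ℝ) (F₁ F₂ : ℂ → ℝ) : Prop :=
  ∀ x ∈ Tri, (x.re = 0 → F₁ x = 0) ∧ (x.im = 0 → F₂ x = 0) ∧ (x.re + x.im = 1 → F₁ x + F₂ x = l)

theorem signs {l : ℝ} (hl : 0 < l) {F₁ F₂ : ℂ → ℝ} {P Q : C(Tri, ℂ)} (h₁ : HG F₁ P)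
    (h₂ : HG F₂ Q) (hb : Bd l F₁ F₂) (hd : ∀ x, det (P x) (Q x) ≠ 0) :
    (∀ x, 0 < det (P x) (Q x)) ∧ Hc (P + Q) := by
  have eA := edgeA h₂ fun x hx => (hb x hx).2.1
  have eB := edgeB h₁ fun x hx => (hb x hx).1
  have eH := edgeH (h₁.add h₂) fun x hx => (hb x hx).2.2
  have pA : ∀ x : Tri, x.1.im = 0 → 0 < (P x).re := by
    obtain ⟨s, hs, h⟩ := mvt_edge h₁ (w := 1)
      (fun s hs => ⟨by simpa using hs.1, by simp, by simpa using hs.2⟩) (by
        have a := (hb 0 zero_mem_tri).1 rfl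
        have b := (hb 1 one_mem_tri).2.1 rfl
        have c := (hb 1 one_mem_tri).2.2 (by simp)
        linarith)
    refine pos_of_conn connA (f := fun x => (P x).re) (by fun_prop) (fun x hx h0 => hd x ?_)
      (a := ⟨s * 1, by simpa using hs.1, by simp, by simpa using hs.2⟩) (by simp) (by simpa using h)
    simp [det, h0, eA x hx]
  have pB : ∀ x : Tri, x.1.re = 0 → 0 < (Q x).im := by
    obtain ⟨s, hs, h⟩ := mvt_edge h₂ (w := I)
      (fun s hs => ⟨by simp, by simpa using hs.1, by simpa using hs.2⟩) (by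
        have a := (hb 0 zero_mem_tri).2.1 rfl
        have b := (hb I I_mem_tri).1 rfl
        have c := (hb I I_mem_tri).2.2 (by simp)
        linarith)
    refine pos_of_conn connB (f := fun x => (Q x).im) (by fun_prop) (fun x hx h0 => hd x ?_)
      (a := ⟨s * I, by simp, by simpa using hs.1, by simpa using hs.2⟩) (by simp) (by simpa using h)
    simp [det, h0, eB x hx]
  have pT : ∀ x, 0 < det (P x) (Q x) := fun x =>
    pos_of_conn connT (f := fun x => det (P x) (Q x)) (by unfold det; fun_prop)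
      (fun x _ => hd x) (a := ⟨0, zero_mem_tri⟩) trivial (by
        have := mul_pos (pA ⟨0, zero_mem_tri⟩ rfl) (pB ⟨0, zero_mem_tri⟩ rfl)
        simpa [det, eB ⟨0, zero_mem_tri⟩ rfl] using this) x trivial
  have ne : ∀ x, (P + Q) x ≠ 0 := fun x h => hd x (by
    have : Q x = -P x := by simpa [add_eq_zero_iff_eq_neg'] using h
    simp [det, this]; ring)
  have qA : ∀ x : Tri, x.1.im = 0 → 0 < ((P + Q) x).re := fun x hx => by
    simpa [eA x hx] using pA x hx
  have pH : ∀ x : Tri, x.1.re + x.1.im = 1 → 0 < ((P + Q) x).re :=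
    pos_of_conn connH (f := fun x => ((P + Q) x).re) (by fun_prop)
      (fun x hx h0 => ne x (Complex.ext h0 (by rw [← eH x hx]; exact h0)))
      (a := ⟨1, one_mem_tri⟩) (by simp) (qA _ rfl)
  refine ⟨pT, fun x => ⟨ne x, fun h => h.elim (qA x) (pH x), fun h => h.elim (fun hx => ?_)
    fun hx => by rw [← eH x hx]; exact pH x hx⟩⟩
  simpa [eB x hx] using pB x hx

theorem min_at_zero {F : ℂ → ℝ} {N : C(Tri, ℂ)} (h : HG F N) (hc : Hc N) {x : ℂ} (hx : x ∈ Tri)
    (h0 : x ≠ 0) : F 0 < F x := by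
  have key : ∀ y ∈ Tri, IsMinOn F Tri y → y = 0 := fun y hy hmin => by
    obtain ⟨k0, kA, kB⟩ := hc ⟨y, hy⟩
    obtain ⟨h1, h2, h3⟩ := id hy
    have left : 0 < y.re → (N ⟨y, hy⟩).re ≤ 0 := fun hp => by
      have := dir_nonneg (w := -1) hp (h ⟨y, hy⟩) fun s hs => by
        have m : y + s * (-1) ∈ Tri := by
          refine ⟨?_, ?_, ?_⟩ <;> simp <;> linarith [hs.1, hs.2]
        exact ⟨m, hmin m⟩
      simpa using this
    have down : 0 < y.im → (N ⟨y, hy⟩).im ≤ 0 := fun hp => by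
      have := dir_nonneg (w := -I) hp (h ⟨y, hy⟩) fun s hs => by
        have m : y + s * (-I) ∈ Tri := by
          refine ⟨?_, ?_, ?_⟩ <;> simp <;> linarith [hs.1, hs.2]
        exact ⟨m, hmin m⟩
      simpa using this
    have up : y.re + y.im < 1 → 0 ≤ (N ⟨y, hy⟩).re ∧ 0 ≤ (N ⟨y, hy⟩).im := fun hp => by
      have a := dir_nonneg (w := 1) (sub_pos.2 hp) (h ⟨y, hy⟩) fun s hs => by
        have m : y + s * 1 ∈ Tri := by
          refine ⟨?_, ?_, ?_⟩ <;> simp <;> linarith [hs.1, hs.2]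
        exact ⟨m, hmin m⟩
      have b := dir_nonneg (w := I) (sub_pos.2 hp) (h ⟨y, hy⟩) fun s hs => by
        have m : y + s * I ∈ Tri := by
          refine ⟨?_, ?_, ?_⟩ <;> simp <;> linarith [hs.1, hs.2]
        exact ⟨m, hmin m⟩
      exact ⟨by simpa using a, by simpa using b⟩
    rcases h1.eq_or_lt with a | a <;> rcases h2.eq_or_lt with b | b
    · exact Complex.ext a.symm b.symm
    · linarith [down b, kB (Or.inl a.symm)]
    · linarith [left a, kA (Or.inl b.symm)]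
    · rcases h3.eq_or_lt with c | c
      · linarith [left a, kA (Or.inr c)]
      · exact absurd (Complex.ext (le_antisymm (left a) (up c).1) (le_antisymm (down b) (up c).2))
          k0
  obtain ⟨y, hy, hmin⟩ := tri_compact.exists_isMinOn ⟨0, zero_mem_tri⟩ h.cont
  obtain rfl := key y hy hmin
  by_contra hlt
  exact h0 (key x hx fun z hz => (not_lt.1 hlt).trans (hmin hz))

theorem large_M {X : Type*} [TopologicalSpace X] {K : Set X} (hK : IsCompact K) {a b : X → ℝ}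
    (ha : Continuous a) (hb : Continuous b) (h0 : ∀ p ∈ K, 0 ≤ b p)
    (h : ∀ p ∈ K, b p = 0 → 0 < a p) : ∃ M ≥ 0, ∀ p ∈ K, 0 < a p + M * b p := by
  obtain ⟨t, ht⟩ := hK.elim_directed_cover (fun n : ℕ => {p | 0 < a p + n * b p ∨ b p < 0})
    (fun n => (isOpen_lt (g := fun p => a p + n * b p) continuous_const (by fun_prop)).union
      (isOpen_lt (g := fun _ => (0 : ℝ)) hb continuous_const))
    (fun p hp => by
      rcases (h0 p hp).eq_or_lt with e | e
      · exact mem_iUnion.2 ⟨0, Or.inl (by simpa using h p hp e.symm)⟩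
      · obtain ⟨n, hn⟩ := exists_nat_gt (-a p / b p)
        rw [div_lt_iff₀ e] at hn
        exact mem_iUnion.2 ⟨n, Or.inl (by linarith)⟩)
    (directed_of_isDirected_le fun m n hmn p hp => by
      have : (m : ℝ) ≤ n := by exact_mod_cast hmn
      rcases lt_or_ge (b p) 0 with e | e
      · exact Or.inr e
      · exact Or.inl (by nlinarith [hp.resolve_right (not_lt.2 e)]))
  exact ⟨t, t.cast_nonneg, fun p hp => (ht hp).resolve_right (not_lt.2 (h0 p hp))⟩

end Pool.Agent.MP_2fc7fa_gt.Tor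

end

section

/-! Angle functions of admissible gradient fields. -/

namespace Pool.Agent.MP_2fc7fa_gt.Tor

open Set Complex Filter Topology
open scoped ContDiff Real

theorem lyap_tri (θ : C(Tri, ℝ)) {K : Set (Tri × ℂ)} (hK : IsCompact K)
    (h : ∀ p ∈ K, 0 < (p.2 * exp (-(θ p.1 : ℂ) * I)).re) :
    ∃ L : ℂ → ℝ, ContDiff ℝ ∞ L ∧ ∀ p ∈ K, 1 ≤ fderiv ℝ L p.1 p.2 := by
  obtain ⟨g, hg⟩ := θ.exists_restrict_eq tri_closed
  obtain ⟨f, f1, -, f2, -⟩ := exists_continuous_one_zero_of_isCompact tri_compact isClosed_empty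
    (disjoint_empty _)
  obtain ⟨L, hL, h1⟩ := lyapunov (W := fun x => f x * g x)
    ((f2.mul_right (f' := g)).uniformContinuous_of_continuous (by fun_prop))
    (hK.image (f := fun p => (p.1.1, p.2)) (by fun_prop)) (by
      rintro _ ⟨p, hp, rfl⟩
      have : g p.1 = θ p.1 := by rw [← hg]; rfl
      simpa [ee, f1 p.1.2, this] using h p hp)
  exact ⟨L, hL, fun p hp => h1 _ ⟨p, hp, rfl⟩⟩

/-- The two boundary arcs. -/
def AH (x : Tri) : Prop := x.1.im = 0 ∨ x.1.re + x.1.im = 1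

/-- The two boundary arcs. -/
def BH (x : Tri) : Prop := x.1.re = 0 ∨ x.1.re + x.1.im = 1

/-- Admissible angle functions. -/
def Win (θ : C(Tri, ℝ)) : Prop :=
  ∀ x, (AH x → -(π / 2) < θ x ∧ θ x < π / 2) ∧ (BH x → 0 < θ x ∧ θ x < π)

/-- Fields in the half-planes of an angle function. -/
def Rel (θ : C(Tri, ℝ)) (N : C(Tri, ℂ)) : Prop :=
  ∀ x, 0 < (N x * exp (-(θ x : ℂ) * I)).re ∧ (AH x → 0 < (N x).re) ∧ (BH x → 0 < (N x).im)

theorem Rel.hc {θ : C(Tri, ℝ)} {N : C(Tri, ℂ)} (h : Rel θ N) : Hc N := fun x =>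
  ⟨fun e => by simpa [e] using (h x).1, (h x).2⟩

theorem connAH : IsPreconnected {x | AH x} :=
  connA.union ⟨1, one_mem_tri⟩ rfl (add_zero (1 : ℝ)) connH

theorem connBH : IsPreconnected {x | BH x} :=
  connB.union ⟨I, I_mem_tri⟩ rfl (zero_add (1 : ℝ)) connH

theorem angle : ∃ θ : C({N // Hc N}, C(Tri, ℝ)), ∀ N, Win (θ N) ∧ Rel (θ N) N.1 := by
  have m : ∀ (t : unitInterval) (x : Tri), 1 + (t : ℝ) • (x.1 - 1) ∈ Tri := fun t x =>
    tri_convex.add_smul_sub_mem one_mem_tri x.2 t.2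
  let e : Tri := ⟨1, one_mem_tri⟩
  have he : ∀ N : {N // Hc N}, 0 < (N.1 e).re := fun N => (N.2 e).2.1 (Or.inl rfl)
  let H : C(unitInterval × ({N // Hc N} × Tri), {z : ℂ // z ≠ 0}) :=
    ⟨fun q => ⟨q.2.1.1 ⟨_, m q.1 q.2.2⟩, (q.2.1.2 _).1⟩, by fun_prop⟩
  let f : C({N // Hc N} × Tri, ℂ) := ⟨fun q => log (q.1.1 e), Continuous.clog (by fun_prop)
    fun q => Or.inl (he q.1)⟩
  have h0 : ∀ a, H (0, a) = ⟨exp (f a), exp_ne_zero _⟩ := fun a => by
    simp [H, f, e, exp_log (a.1.2 e).1]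
  let G := isCoveringMap_exp.liftHomotopy H f h0
  have h1 : ∀ q, exp (G q) = H q := fun q =>
    congrArg Subtype.val (congrFun (isCoveringMap_exp.liftHomotopy_lifts H f h0) q)
  have h2 : ∀ N x, exp (G (1, N, x)) = N.1 x := fun N x => by simp [h1, H]
  have h3 : ∀ N, G (1, N, e) = log (N.1 e) := fun N =>
    (isCoveringMap_exp.const_of_comp (g := fun t => G (t, N, e)) (by fun_prop)
      (fun a b => Subtype.ext (by simp [h1, H, e])) 1 0).trans
      (isCoveringMap_exp.liftHomotopy_zero H f h0 _)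
  refine ⟨ContinuousMap.curry ⟨fun q => (G (1, q)).im, by fun_prop⟩, fun N => ?_⟩
  have k : ∀ x, (N.1 x).re = rexp (G (1, N, x)).re * Real.cos (G (1, N, x)).im ∧
      (N.1 x).im = rexp (G (1, N, x)).re * Real.sin (G (1, N, x)).im := fun x => by
    rw [← h2, exp_re, exp_im]; exact ⟨rfl, rfl⟩
  have k1 : |(G (1, N, e)).im| < π / 2 := by
    rw [h3, log_im]; exact abs_arg_lt_pi_div_two_iff.2 (Or.inl (he N))
  have c : Continuous fun x => (G (1, N, x)).im := by fun_prop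
  have kA : ∀ x, AH x → Real.cos (G (1, N, x)).im ≠ 0 := fun x hx h => by
    simpa [(k x).1, h] using (N.2 x).2.1 hx
  have kB : ∀ x, BH x → Real.sin (G (1, N, x)).im ≠ 0 := fun x hx h => by
    simpa [(k x).2, h] using (N.2 x).2.2 hx
  have eB : BH e := Or.inr (by simp [e])
  have k2 : 0 < (G (1, N, e)).im := by
    have := (N.2 e).2.2 eB
    rw [(k e).2] at this
    by_contra hn
    have := Real.sin_nonpos_of_nonpos_of_neg_pi_le (not_lt.1 hn)
      (by linarith [(abs_lt.1 k1).1, Real.pi_pos])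
    nlinarith [Real.exp_pos (G (1, N, e)).re]
  refine ⟨fun x => ⟨fun hx => ⟨?_, ?_⟩, fun hx => ⟨?_, ?_⟩⟩, fun x => ⟨?_, (N.2 x).2⟩⟩
  · refine sub_pos.1 (pos_of_conn connAH (c.sub continuous_const) (fun y hy h => kA y hy ?_)
      (a := e) (Or.inl rfl) (sub_pos.2 (abs_lt.1 k1).1) x hx)
    simp [sub_eq_zero.1 h]
  · refine sub_pos.1 (pos_of_conn connAH (continuous_const.sub c) (fun y hy h => kA y hy ?_)
      (a := e) (Or.inl rfl) (sub_pos.2 (abs_lt.1 k1).2) x hx)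
    simp [← sub_eq_zero.1 h]
  · exact pos_of_conn connBH c (fun y hy h => kB y hy (by simp [h])) (a := e) eB k2 x hx
  · refine sub_pos.1 (pos_of_conn connBH (continuous_const.sub c) (fun y hy h => kB y hy ?_)
      (a := e) eB (sub_pos.2 (by linarith [(abs_lt.1 k1).2, Real.pi_pos])) x hx)
    simp [← sub_eq_zero.1 h]
  · rw [← h2, ← exp_add, exp_re]
    simp [Real.exp_pos]

end Pool.Agent.MP_2fc7fa_gt.Tor

end

section

/-! Construction of height functions and of second coordinates on the triangle. -/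

namespace Pool.Agent.MP_2fc7fa_gt.Tor

open Set Complex Filter Topology
open scoped ContDiff Real

theorem hadamard {h : ℂ → ℝ} (hh : ContDiff ℝ ∞ h) : ∃ A B : ℂ → ℝ, ContDiff ℝ ∞ A ∧
    ContDiff ℝ ∞ B ∧ ∀ x, h x = h 0 + x.re * A x + x.im * B x := by
  have h1 : ContDiff ℝ ∞ (fderiv ℝ h) := (contDiff_infty_iff_fderiv.1 hh).2
  have h2 : ContDiff ℝ ∞ fun x : ℂ => ∫ t in (0 : ℝ)..1, fderiv ℝ h (t • x) :=
    contDiffOn_univ.1 (Sm.contDiffOn (P := Unit) (fun n => Fam.integral convex_univ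
      (((sm_const continuous_snd).smul sm_id).post' h1 n)) uniqueDiffOn_univ ())
  refine ⟨_, _, h2.clm_apply (contDiff_const (c := 1)), h2.clm_apply (contDiff_const (c := I)),
    fun x => ?_⟩
  have c : Continuous fun t : ℝ => fderiv ℝ h (t • x) := h1.continuous.comp (by fun_prop)
  have h3 := intervalIntegral.integral_eq_sub_of_hasDerivAt (f := fun t : ℝ => h (t • x))
    (f' := fun t => fderiv ℝ h (t • x) x) (a := 0) (b := 1) (fun t _ => by
      simpa only [one_smul, Function.comp_def] using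
        (hh.differentiable (by simp) (t • x)).hasFDerivAt.comp_hasDerivAt t
        ((hasDerivAt_id' t).smul_const x)) ((c.clm_apply continuous_const).intervalIntegrable _ _)
  rw [← ContinuousLinearMap.intervalIntegral_apply (c.intervalIntegrable _ _)] at h3
  rw [add_assoc, ← smul_eq_mul, ← smul_eq_mul, ← map_smul, ← map_smul, ← map_add]
  simp only [real_smul, mul_one, re_add_im, one_smul, zero_smul] at h3 ⊢
  linarith

theorem height {l : ℝ} (hl : 0 < l) {θ : C(Tri, ℝ)} (hθ : Win θ) : ∃ A B C : ℂ → ℝ,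
    ContDiff ℝ ∞ A ∧ ContDiff ℝ ∞ B ∧ ContDiff ℝ ∞ C ∧
    (∀ x, (1 - x.re - x.im) * C x + x.re * A x + x.im * B x = l) ∧
    ∀ N, HG (fun x => x.re * A x + x.im * B x) N → Rel θ N := by
  have cA : ∀ x, AH x → 0 < Real.cos (θ x) := fun x hx => Real.cos_pos_of_mem_Ioo ((hθ x).1 hx)
  have cB : ∀ x, BH x → 0 < Real.sin (θ x) := fun x hx =>
    Real.sin_pos_of_mem_Ioo ((hθ x).2 hx)
  have kH : IsClosed {x : Tri | x.1.re + x.1.im = 1} := isClosed_eq (by fun_prop) continuous_const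
  have kA : IsClosed {x | AH x} := (isClosed_eq (by fun_prop) continuous_const).union kH
  have kB : IsClosed {x | BH x} := (isClosed_eq (by fun_prop) continuous_const).union kH
  obtain ⟨L, hL, h1⟩ := lyap_tri θ (((isCompact_range (f := fun x : Tri => (x, exp (θ x * I)))
    (by fun_prop)).union (kA.isCompact.prod (isCompact_singleton (x := 1)))).union
    (kB.isCompact.prod (isCompact_singleton (x := I)))) (by
      rintro ⟨x, v⟩ ((⟨y, ⟨⟩⟩ | ⟨hx, ⟨⟩⟩) | ⟨hx, ⟨⟩⟩)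
      · simp [← exp_add]
      · simpa [exp_re] using cA x hx
      · simpa [exp_im] using cB x hx)
  have c : Continuous (fderiv ℝ L) := hL.continuous_fderiv (by simp)
  have l0 : ∀ x : Tri, 0 ≤ 1 - x.1.re - x.1.im := fun x => by linarith [x.2.2.2]
  have l1 : ∀ x : Tri, 1 ≤ fderiv ℝ L x (exp (θ x * I)) := fun x => h1 (x, _) (.inl (.inl ⟨x, rfl⟩))
  obtain ⟨M, hM, h2⟩ := large_M (K := univ) isCompact_univ
    (a := fun x : Tri => Real.cos (θ x) + Real.sin (θ x))
    (b := fun x => (1 - x.1.re - x.1.im) * fderiv ℝ L x (exp (θ x * I))) (by fun_prop) (by fun_prop)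
    (fun x _ => mul_nonneg (l0 x) (zero_le_one.trans (l1 x))) fun x _ h => by
      have : x.1.re + x.1.im = 1 := by
        linarith [(mul_eq_zero.1 h).resolve_right (by linarith [l1 x])]
      exact add_pos (cA x (.inr this)) (cB x (.inr this))
  have hC : ContDiff ℝ ∞ fun x => l * rexp (M * (L 0 - L x)) := by fun_prop
  obtain ⟨A, B, hA, hB, h3⟩ := hadamard (h := fun x => l - (1 - x.re - x.im) *
    (l * rexp (M * (L 0 - L x)))) (contDiff_const.sub (((contDiff_const.sub reCLM.contDiff).sub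
      imCLM.contDiff).mul hC))
  replace h3 : ∀ x, x.re * A x + x.im * B x = l - (1 - x.re - x.im) *
      (l * rexp (M * (L 0 - L x))) := fun x => by simpa using (h3 x).symm
  refine ⟨A, B, _, hA, hB, hC, fun x => by linarith [h3 x], fun N hN x => ?_⟩
  simp only [h3] at hN
  have d := (tri_uniq x x.2).eq (hN x) ((((((reCLM.hasFDerivAt (x := x.1)).const_sub 1).sub
    imCLM.hasFDerivAt).mul (((((hL.differentiable (by simp) x).hasFDerivAt.const_sub
      (L 0)).const_mul M).exp).const_mul l)).const_sub l).hasFDerivWithinAt)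
  have e : ∀ v, dot (N x) v = l * rexp (M * (L 0 - L x)) *
      (v.re + v.im + M * ((1 - x.1.re - x.1.im) * fderiv ℝ L x v)) := fun v => by
    rw [d]; simp; ring
  have p : 0 < l * rexp (M * (L 0 - L x)) := by positivity
  refine ⟨?_, fun hx => ?_, fun hx => ?_⟩
  · have := mul_pos p (h2 x trivial)
    rw [← exp_ofReal_mul_I_re, ← exp_ofReal_mul_I_im, ← e] at this
    simpa [exp_re, exp_im] using this
  · have := h1 (x, 1) (.inl (.inr ⟨hx, rfl⟩))
    have := mul_pos p (add_pos_of_pos_of_nonneg (show 0 < (1 : ℂ).re + (1 : ℂ).im by simp)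
      (mul_nonneg hM (mul_nonneg (l0 x) (zero_le_one.trans this))))
    rw [← e] at this
    simpa using this
  · have := h1 (x, I) (.inr ⟨hx, rfl⟩)
    have := mul_pos p (add_pos_of_pos_of_nonneg (show 0 < I.re + I.im by simp)
      (mul_nonneg hM (mul_nonneg (l0 x) (zero_le_one.trans this))))
    rw [← e] at this
    simpa using this

theorem den_pos {x : ℂ} (hx : x ∈ Tri) (h0 : x ≠ 0) {a b : ℝ} (ha : 0 < a) (hb : 0 < b) :
    0 < x.re * a + x.im * b := by
  rcases hx.1.eq_or_lt with e | e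
  · have : 0 < x.im := hx.2.1.lt_of_ne fun e' => h0 (Complex.ext e.symm e'.symm)
    simpa [← e] using mul_pos this hb
  · exact add_pos_of_pos_of_nonneg (mul_pos e ha) (mul_nonneg hx.2.1 hb.le)

theorem second {l : ℝ} {F₁ F₂ : ℂ → ℝ} {P Q : C(Tri, ℂ)} (h₁ : HG F₁ P) (h₂ : HG F₂ Q)
    (hb : Bd l F₁ F₂) (hc : Hc (P + Q)) : ∃ (δ : ℝ) (ν : ℝ → ℝ) (a b : ℂ → ℝ), 0 < δ ∧
    ContDiff ℝ ∞ ν ∧ (∀ t < δ, ν t = 0) ∧ ContDiff ℝ ∞ a ∧ ContDiff ℝ ∞ b ∧ (∀ x, 0 < a x) ∧
    (∀ x, 0 < b x) ∧ ∀ P', HG (fun x => (1 - ν (F₁ x + F₂ x)) * F₁ x + ν (F₁ x + F₂ x) *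
      (F₁ x + F₂ x) * (x.re * a x * (x.re * a x + x.im * b x)⁻¹)) P' →
      ∀ x, 0 < det (P' x) ((P + Q) x) := by
  have hh := h₁.add h₂
  have d0 : 0 < det (P ⟨0, zero_mem_tri⟩) ((P + Q) ⟨0, zero_mem_tri⟩) := by
    have a := edgeA h₂ (fun x hx => (hb x hx).2.1) ⟨0, zero_mem_tri⟩ rfl
    have b := edgeB h₁ (fun x hx => (hb x hx).1) ⟨0, zero_mem_tri⟩ rfl
    simpa [det, a, b] using mul_pos ((hc ⟨0, zero_mem_tri⟩).2.1 (.inl rfl))
      ((hc ⟨0, zero_mem_tri⟩).2.2 (.inl rfl))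
  generalize P + Q = N at *
  generalize hF : (fun x => F₁ x + F₂ x) = F at hh
  have hF' : ∀ x, F₁ x + F₂ x = F x := congrFun hF
  simp only [hF']
  have F0 : F 0 = 0 := by simp [← hF', (hb 0 zero_mem_tri).1 rfl, (hb 0 zero_mem_tri).2.1 rfl]
  have cF : Continuous fun x : Tri => F x := hh.cont.domRestrict
  obtain ⟨θ, hθ⟩ := angle
  obtain ⟨L, hL, h1⟩ := lyap_tri (θ ⟨N, hc⟩ + .const _ (π / 2))
    (isCompact_range (f := fun x : Tri => (x, I * N x)) (by fun_prop)) (by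
      rintro _ ⟨x, rfl⟩
      have : exp (-((θ ⟨N, hc⟩ x + π / 2 : ℝ) : ℂ) * I) = -I * exp (-(θ ⟨N, hc⟩ x : ℂ) * I) := by
        rw [← exp_neg_pi_div_two_mul_I, ← exp_add]; congr 1; push_cast; ring
      simp only [ContinuousMap.add_apply, ContinuousMap.const_apply, this]
      convert ((hθ ⟨N, hc⟩).2 x).1 using 2
      linear_combination (-N x * exp (-(θ ⟨N, hc⟩ x : ℂ) * I)) * I_mul_I)
  have l1 : ∀ x : Tri, 1 ≤ fderiv ℝ L x (I * N x) := fun x => h1 (x, _) ⟨x, rfl⟩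
  have c : Continuous (fderiv ℝ L) := hL.continuous_fderiv (by simp)
  obtain ⟨ε, hε, h2⟩ := (isClosed_le (f := fun x => det (P x) (N x)) (g := fun _ => 0)
    (by unfold det; fun_prop) continuous_const).isCompact.exists_forall_le' cF.continuousOn (a := 0)
    fun x hx => F0 ▸ min_at_zero hh hc x.2 fun e => by
      obtain rfl : x = ⟨0, zero_mem_tri⟩ := Subtype.ext e
      exact d0.not_ge hx
  obtain ⟨M, hM, h3⟩ := large_M (isClosed_le (f := fun _ => ε / 2) continuous_const cF).isCompact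
    (a := fun x : Tri => x.1.re * (N x).re + x.1.im * (N x).im)
    (b := fun x => 2 * x.1.re * x.1.im * fderiv ℝ L x (I * N x)) (by fun_prop) (by fun_prop)
    (fun x _ => mul_nonneg (mul_nonneg (mul_nonneg zero_le_two x.2.1) x.2.2.1)
      (zero_le_one.trans (l1 x))) fun x hx h => by
      have h0 : x.1 ≠ 0 := fun e => by
        simp only [mem_ofPred_eq, e, F0] at hx
        linarith
      have : x.1.re = 0 ∨ x.1.im = 0 := by
        simpa using (mul_eq_zero.1 h).resolve_right (by linarith [l1 x])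
      rcases this with e | e
      · simpa [e] using den_pos x.2 h0 one_pos ((hc x).2.2 (.inl e))
      · simpa [e] using den_pos x.2 h0 ((hc x).2.1 (.inl e)) one_pos
  obtain ⟨ν, hν, ν0, ν1, ν2⟩ : ∃ ν : ℝ → ℝ, ContDiff ℝ ∞ ν ∧ (∀ t < ε / 2, ν t = 0) ∧
      (∀ t ≥ ε, ν t = 1) ∧ ∀ t, 0 ≤ ν t ∧ ν t ≤ 1 :=
    ⟨fun t => Real.smoothTransition ((t - ε / 2) / (ε / 2)),
      Real.smoothTransition.contDiff.comp (by fun_prop), fun t ht =>
      Real.smoothTransition.zero_of_nonpos (div_nonpos_of_nonpos_of_nonneg (by linarith)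
        (by linarith)), fun t ht =>
      Real.smoothTransition.one_of_one_le ((one_le_div (by linarith)).2 (by linarith)),
      fun t => ⟨Real.smoothTransition.nonneg _, Real.smoothTransition.le_one _⟩⟩
  refine ⟨ε / 2, ν, fun x => rexp (-M * L x), fun x => rexp (M * L x), half_pos hε, hν, ν0,
    by fun_prop, by fun_prop, fun _ => Real.exp_pos _, fun _ => Real.exp_pos _, fun P' hP x => ?_⟩
  have dp : F x < ε → 0 < det (P x) (N x) := fun h => not_le.1 fun k => h.not_ge (h2 x k)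
  have dd : ∀ n, det n (N x) = -dot n (I * N x) := fun n => by simp [det]; ring
  rcases lt_or_ge (F x) (ε / 2) with k | k
  · have := (tri_uniq x x.2).eq (hP x) ((h₁ x).congr_of_eventuallyEq
      (((hh.cont x x.2).eventually (gt_mem_nhds k)).mono fun y hy => by simp [ν0 _ hy])
      (by simp [ν0 _ k]))
    rw [dd, this, ← dd]
    exact dp (by linarith)
  have h0 : x.1 ≠ 0 := fun e => by
    rw [e, F0] at k
    linarith
  have den := den_pos x.2 h0 (Real.exp_pos (-M * L x)) (Real.exp_pos (M * L x))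
  have dL := (hL.differentiable (by simp) x).hasFDerivAt
  have dν := (hν.differentiable (by simp) (F x)).hasDerivAt.comp_hasFDerivWithinAt x.1 (hh x)
  have dp' := (reCLM.hasFDerivAt (x := x.1)).mul (dL.const_mul (-M)).exp
  have dq' := (imCLM.hasFDerivAt (x := x.1)).mul (dL.const_mul M).exp
  have d := (tri_uniq x x.2).eq (hP x) (((dν.const_sub 1).mul (h₁ x)).add ((dν.mul (hh x)).mul
    (dp'.mul ((hasDerivAt_inv den.ne').comp_hasFDerivAt x.1 (dp'.add dq'))).hasFDerivWithinAt))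
  have z : dot (N x) (I * N x) = 0 := by simp; ring
  have e : det (P' x) (N x) = (1 - ν (F x)) * det (P x) (N x) + ν (F x) * (F x *
      (x.1.re * (N x).re + x.1.im * (N x).im + M * (2 * x.1.re * x.1.im * fderiv ℝ L x (I * N x))) /
      (x.1.re * rexp (-M * L x) + x.1.im * rexp (M * L x)) ^ 2) := by
    have : rexp (-M * L x) * rexp (M * L x) = 1 := by rw [← Real.exp_add]; simp
    rw [dd, dd, d]
    simp only [add_apply, smul_apply, z, neg_apply, Function.comp_apply, Pi.add_apply, Pi.mul_apply, smul_eq_mul, reCLM_apply,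
      imCLM_apply, I_mul_re, I_mul_im]
    generalize rexp (-M * L x) = a at *
    generalize rexp (M * L x) = b at *
    field_simp
    linear_combination ν (F x) * F x * (x.1.re * (N x).re + x.1.im * (N x).im + M *
      (2 * x.1.re * x.1.im * fderiv ℝ L x (I * N x))) * this
  have p := div_pos (mul_pos ((half_pos hε).trans_le k) (h3 x k)) (pow_pos den 2)
  rw [e]
  rcases lt_or_ge (F x) ε with k' | k'
  · have := dp k'
    rcases (ν2 (F x)).1.eq_or_lt with r | r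
    · simpa [← r] using this
    · exact add_pos_of_nonneg_of_pos (mul_nonneg (sub_nonneg.2 (ν2 _).2) this.le) (mul_pos r p)
  · simpa [ν1 _ k'] using p

end Pool.Agent.MP_2fc7fa_gt.Tor

end

section

/-! The abstract contraction argument. -/

namespace Pool.Agent.MP_2fc7fa_gt.Tor

open Set Complex Filter Topology ContinuousMap
open scoped Real

theorem ev_pos {X : Type*} [TopologicalSpace X] {f : X → Tri → ℝ}
    (hf : Continuous fun q : X × Tri => f q.1 q.2) {x : X} (h : ∀ y, 0 < f x y) :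
    ∀ᶠ x' in 𝓝 x, ∀ y, 0 < f x' y :=
  (isCompact_univ.eventually_forall_of_forall_eventually (P := fun x y => 0 < f x y) fun y _ =>
    hf.continuousAt.eventually (lt_mem_nhds (h y))).mono fun _ h y => h y trivial

theorem comb_pos {a b x y : ℝ} (ha : 0 ≤ a) (hb : 0 ≤ b) (hab : a + b = 1) (hx : 0 < x)
    (hy : 0 < y) : 0 < a * x + b * y := by
  rcases ha.eq_or_lt with e | e
  · rw [← e, zero_add] at hab; simpa [← e, hab]
  · exact add_pos_of_pos_of_nonneg (mul_pos e hx) (mul_nonneg hb hy.le)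

theorem rel_convex (θ : C(Tri, ℝ)) : Convex ℝ {N | Rel θ N} := fun N hN N' hN' a b ha hb hab x =>
  ⟨by simpa [add_mul, mul_assoc, -mul_re, re_ofReal_mul] using
    comb_pos ha hb hab (hN x).1 (hN' x).1,
    fun h => by simpa using comb_pos ha hb hab ((hN x).2.1 h) ((hN' x).2.1 h),
    fun h => by simpa using comb_pos ha hb hab ((hN x).2.2 h) ((hN' x).2.2 h)⟩

theorem win_convex : Convex ℝ {θ | Win θ} := fun _ h _ h' _ _ ha hb hab x =>
  ⟨fun k => convex_Ioo _ _ ((h x).1 k) ((h' x).1 k) ha hb hab,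
    fun k => convex_Ioo _ _ ((h x).2 k) ((h' x).2 k) ha hb hab⟩

variable {E : Type*} [AddCommGroup E] [Module ℝ E] [TopologicalSpace E] [ContinuousAdd E]
  [ContinuousSMul ℝ E]

theorem seg_homotopic {X : Type*} [TopologicalSpace X] {S : E → Prop} {f g : C(X, {e // S e})}
    (h : ∀ x (a b : ℝ), 0 ≤ a → 0 ≤ b → a + b = 1 → S (a • (f x).1 + b • (g x).1)) : f.Homotopic g :=
  ⟨⟨⟨fun q => ⟨(1 - q.1 : ℝ) • (f q.2).1 + (q.1 : ℝ) • (g q.2).1,
    h _ _ _ (sub_nonneg.2 q.1.2.2) q.1.2.1 (by ring)⟩, by fun_prop⟩, by simp, by simp⟩⟩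

theorem assembly {l : ℝ} {C : ℝ → E → Prop} (P N : E →L[ℝ] C(Tri, ℂ))
    (lin : ∀ {a b ω ω'} (s t : ℝ), C a ω → C b ω' → C (s * a + t * b) (s • ω + t • ω'))
    (H1 : ∀ ω, C l ω → (∀ x, det (P ω x) (N ω x) ≠ 0) → (∀ x, 0 < det (P ω x) (N ω x)) ∧ Hc (N ω))
    (H3 : ∀ θ, Win θ → ∃ ω, C l ω ∧ Rel θ (N ω))
    (H4 : ∀ ω, C l ω → Hc (N ω) → ∃ ω', C l ω' ∧ N ω' = N ω ∧ ∀ x, 0 < det (P ω' x) (N ω x)) :
    ContractibleSpace {ω // C l ω ∧ ∀ x, det (P ω x) (N ω x) ≠ 0} := by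
  have cv : ∀ {c ω ω'} {a b : ℝ}, a + b = 1 → C c ω → C c ω' → C c (a • ω + b • ω') :=
    fun {c _ _ a b} hab h h' => by simpa [← add_mul, hab] using lin a b h h'
  obtain ⟨θ, hθ⟩ := angle
  obtain ⟨σ, hσ⟩ := exists_continuous_forall_mem_convex_of_local_const
    (t := fun θ : {θ | Win θ} => {ω | C l ω ∧ Rel θ (N ω)})
    (fun θ ω h ω' h' a b ha hb hab => ⟨cv hab h.1 h'.1, by
      simpa using rel_convex θ h.2 h'.2 ha hb hab⟩) fun θ => by
      obtain ⟨ω, h1, h2⟩ := H3 θ θ.2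
      exact ⟨ω, (ev_pos (f := fun (θ : {θ | Win θ}) x => (N ω x * exp (-(θ.1 x : ℂ) * I)).re)
        (by fun_prop) fun x => (h2 x).1).mono fun θ' h => ⟨h1, fun x => ⟨h x, (h2 x).2⟩⟩⟩
  obtain ⟨τ, hτ⟩ := exists_continuous_forall_mem_convex_of_local_const
    (t := fun q : {q : C(Tri, ℂ) × C(Tri, ℂ) // ∃ ω, C l ω ∧ Hc (N ω) ∧ q = (P ω, N ω)} =>
      {η | C 0 η ∧ N η = 0 ∧ ∀ x, 0 < det (q.1.1 x + P η x) (q.1.2 x)})
    (fun q ω h ω' h' a b ha hb hab => ⟨cv hab h.1 h'.1, by simp [h.2.1, h'.2.1], fun x => by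
      convert comb_pos ha hb hab (h.2.2 x) (h'.2.2 x) using 1
      simp [det]
      linear_combination ((q.1.1 x).im * (q.1.2 x).re - (q.1.1 x).re * (q.1.2 x).im) * hab⟩)
    fun q => by
      obtain ⟨_, ω, h1, h2, rfl⟩ := q
      obtain ⟨ω', h3, h4, h5⟩ := H4 ω h1 h2
      refine ⟨(1 : ℝ) • ω' + (-1 : ℝ) • ω, (ev_pos (f := fun (q : {q : C(Tri, ℂ) × C(Tri, ℂ) //
        ∃ ω, C l ω ∧ Hc (N ω) ∧ q = (P ω, N ω)}) x => det (q.1.1 x + P ((1 : ℝ) • ω' +
          (-1 : ℝ) • ω) x) (q.1.2 x)) (by unfold det; fun_prop) fun x => by simpa using h5 x).mono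
        fun q h => ⟨by simpa using lin 1 (-1) h3 h1, by simp [h4], h⟩⟩
  have := win_convex.contractibleSpace ⟨.const _ (π / 4), fun x => by
    have := Real.pi_pos
    refine ⟨fun _ => ⟨?_, ?_⟩, fun _ => ⟨?_, ?_⟩⟩ <;> simp <;> linarith⟩
  let a : C({ω // C l ω ∧ Hc (N ω)}, {θ | Win θ}) :=
    ⟨fun ω => ⟨θ ⟨N ω, ω.2.2⟩, (hθ _).1⟩, by fun_prop⟩
  let b : C({θ | Win θ}, {ω // C l ω ∧ Hc (N ω)}) :=
    ⟨fun θ => ⟨σ θ, (hσ θ).1, (hσ θ).2.hc⟩, by fun_prop⟩
  have k1 : (ContinuousMap.id _).Homotopic (b.comp a) := seg_homotopic fun ω s t hs ht hst =>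
    ⟨cv hst ω.2.1 (hσ _).1, Rel.hc (by
      simpa [b] using rel_convex _ (hθ ⟨N ω, ω.2.2⟩).2 (hσ (a ω)).2 hs ht hst)⟩
  obtain ⟨y, hy⟩ := ((id_nullhomotopic _).comp_right b).comp_left a
  let i : C({ω // C l ω ∧ ∀ x, det (P ω x) (N ω x) ≠ 0}, {ω // C l ω ∧ Hc (N ω)}) :=
    ⟨fun ω => ⟨ω, ω.2.1, (H1 _ ω.2.1 ω.2.2).2⟩, by fun_prop⟩
  let d : C({ω // C l ω ∧ Hc (N ω)}, E) :=
    ⟨fun ω => τ ⟨(P ω, N ω), ω, ω.2.1, ω.2.2, rfl⟩, by fun_prop⟩
  have hd : ∀ ω, C 0 (d ω) ∧ N (d ω) = 0 ∧ ∀ x, 0 < det (P ω x + P (d ω) x) (N ω x) :=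
    fun ω => hτ _
  let T : C({ω // C l ω ∧ Hc (N ω)}, {ω // C l ω ∧ ∀ x, det (P ω x) (N ω x) ≠ 0}) :=
    ⟨fun ω => ⟨ω + d ω, by simpa using lin 1 1 ω.2.1 (hd ω).1, fun x => by
      simpa [(hd ω).2.1] using ((hd ω).2.2 x).ne'⟩, by fun_prop⟩
  have k2 : (ContinuousMap.id _).Homotopic (T.comp i) := seg_homotopic fun ω s t hs ht hst =>
    ⟨cv hst ω.2.1 (T (i ω)).2.1, fun x => ne_of_gt (by
      refine (comb_pos hs ht hst ((H1 _ ω.2.1 ω.2.2).1 x) ((hd (i ω)).2.2 x)).trans_eq (.symm ?_)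
      obtain rfl : s = 1 - t := by linarith
      change det (P ((1 - t) • ω.1 + t • (ω.1 + d (i ω))) x)
        (N ((1 - t) • ω.1 + t • (ω.1 + d (i ω))) x) = _ * _ + _ * det (P ω x + _) (N ω x)
      simp [(hd _).2.1, det]
      ring)⟩
  obtain ⟨z, hz⟩ := (Nullhomotopic.comp_right ⟨y, k1.trans hy⟩ T).comp_left i
  exact (contractible_iff_id_nullhomotopic _).2 ⟨z, k2.trans hz⟩

end Pool.Agent.MP_2fc7fa_gt.Tor

end
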