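import Pool.Agent.Mg.F2fc7fa.G157b90
import Pool.Agent.Mg.F2fc7fa.Gb7014c
import Pool.Agent.MP_2fc7fa_gt.TDefs

section

/-! Torus-invariant connection forms, their differentials and moment maps. -/

namespace Pool.Agent.MP_2fc7fa_gt.Tor

open Set Complex Filter Topology
open scoped ContDiff ComplexConjugate

/-- One-forms as families of linear maps. -/
abbrev L1 : Type := V → V →L[ℝ] ℝ

/-- The one-form of a family of linear maps. -/
noncomputable def mk1 (b : L1) : Form 1 := fun z =>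
  ContinuousAlternatingMap.ofSubsingletonLIE (𝕜 := ℝ) (E := V) (F := ℝ) (0 : Fin 1) (b z)

theorem linL_mk1 (b : L1) (z : V) : linL (mk1 b z) = b z := by simp [linL, mk1]

theorem smooth_mk1 {b : L1} (h : ContDiffOn ℝ ∞ b {0}ᶜ) : ContDiffOn ℝ ∞ (mk1 b) {0}ᶜ :=
  (ContinuousAlternatingMap.ofSubsingletonLIE (𝕜 := ℝ) (E := V) (F := ℝ)
    (0 : Fin 1)).contDiff.comp_contDiffOn h

theorem bil_dd (b : L1) {z : V} (hz : z ≠ 0) (u v : V) :
    bilL (dd (mk1 b) z) u v = fderiv ℝ b z u v - fderiv ℝ b z v u := by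
  have : fderiv ℝ (mk1 b) z = _ := (ContinuousAlternatingMap.ofSubsingletonLIE (𝕜 := ℝ) (E := V)
    (F := ℝ) (0 : Fin 1)).comp_fderiv (f := b) (x := z)
  rw [dd_of_ne _ hz, bilL_extDeriv, this]
  simp [linL]

theorem smooth_dd {β : Form 1} (h : ContDiffOn ℝ ∞ β {0}ᶜ) : ContDiffOn ℝ ∞ (dd β) {0}ᶜ :=
  (sm_dd (sm_of_contDiffOn (P := Unit) isOpen_compl_singleton.uniqueDiffOn h)).contDiffOn
    isOpen_compl_singleton.uniqueDiffOn ()

theorem dAt {E : Type} [NormedAddCommGroup E] [NormedSpace ℝ E] {b : V → E}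
    (h : ContDiffOn ℝ ∞ b {0}ᶜ) {z : V} (hz : z ≠ 0) : DifferentiableAt ℝ b z :=
  (h.contDiffAt (isOpen_compl_singleton.mem_nhds hz)).differentiableAt (by simp)

theorem line (z u : V) : HasDerivAt (fun t : ℝ => z + t • u) u 0 := by
  simpa using ((hasDerivAt_id' (0 : ℝ)).smul_const u).const_add z

theorem line_ne {z : V} (hz : z ≠ 0) (u : V) : ∀ᶠ t : ℝ in 𝓝 0, z + t • u ≠ 0 :=
  (line z u).continuousAt.eventually_ne (by simpa using hz)

theorem dmul (a : V) {z : ℝ → V} {z' : V} {t : ℝ} (h : HasDerivAt z z' t) :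
    HasDerivAt (fun t => a * z t) (a * z') t := h.const_mul a

theorem dlin {b : L1} {z u : ℝ → V} {z' u' : V} {t : ℝ} (h : DifferentiableAt ℝ b (z t))
    (hz : HasDerivAt z z' t) (hu : HasDerivAt u u' t) :
    HasDerivAt (fun t => b (z t) (u t)) (fderiv ℝ b (z t) z' (u t) + b (z t) u') t :=
  (h.hasFDerivAt.comp_hasDerivAt t hz).clm_apply hu

/-- The torus together with the scalars. -/
def TG (g : V) : Prop := g 0 ≠ 0 ∧ ∀ j, ‖g j‖ = ‖g 0‖

/-- Its Lie algebra. -/
def LA (a : V) : Prop := ∀ j, (a j).re = (a 0).re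

theorem TG.ne {g z : V} (h : TG g) (hz : z ≠ 0) : g * z ≠ 0 := fun e => hz (funext fun j =>
  (mul_eq_zero.1 (congrFun e j)).resolve_left fun k => h.1 (by simpa [k] using (h.2 j).symm))

theorem LA.curve {a : V} (h : LA a) : ∃ g : ℝ → V, (∀ t, TG (g t)) ∧ g 0 = 1 ∧
    ∀ z, HasDerivAt (fun t => g t * z) (a * z) 0 :=
  ⟨fun t j => exp (t * a j), fun t => ⟨exp_ne_zero _, fun j => by simp [norm_exp, h j]⟩,
    by ext; simp, fun z => hasDerivAt_pi.2 fun j => by
      simpa using ((ofRealCLM.hasDerivAt (x := 0)).mul_const (a j)).cexp.mul_const (z j)⟩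

/-- Invariant one-forms. -/
structure Pre (b : L1) : Prop where
  smooth : ContDiffOn ℝ ∞ b {0}ᶜ
  inv : ∀ g, TG g → ∀ z ≠ 0, ∀ v, b (g * z) (g * v) = b z v

/-- Invariant connection forms. -/
structure Conn (l : ℝ) (b : L1) : Prop extends Pre b where
  horiz : ∀ z ≠ 0, ∀ c : ℂ, b z (c • z) = l * c.im

theorem fderiv_inv {b : L1} (h : ContDiffOn ℝ ∞ b {0}ᶜ) {g : V} (hg : TG g)
    (hi : ∀ z ≠ 0, ∀ v, b (g * z) (g * v) = b z v) {z : V} (hz : z ≠ 0) (u v : V) :
    fderiv ℝ b (g * z) (g * u) (g * v) = fderiv ℝ b z u v := by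
  have h1 := dlin (b := b) (by simpa using dAt h (hg.ne hz)) (dmul g (line z u))
    (hasDerivAt_const 0 (g * v))
  have h2 := dlin (b := b) (by simpa using dAt h hz) (line z u) (hasDerivAt_const 0 v)
  simpa using h1.unique (h2.congr_of_eventuallyEq ((line_ne hz u).mono fun t ht => hi _ ht v))

theorem Pre.inf {b : L1} (h : Pre b) {a : V} (ha : LA a) {z : V} (hz : z ≠ 0) (u : V) :
    fderiv ℝ b z (a * z) u + b z (a * u) = 0 := by
  obtain ⟨g, h1, h2, h3⟩ := ha.curve
  have h4 := dlin (b := b) (by simpa [h2] using dAt h.smooth hz) (h3 z) (h3 u)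
  simp only [h.inv _ (h1 _) z hz, h2, one_mul] at h4
  exact h4.unique (hasDerivAt_const _ _)

theorem Pre.moment {b : L1} (h : Pre b) {a : V} (ha : LA a) {z : V} (hz : z ≠ 0) :
    HasFDerivAt (fun z => b z (a * z)) ((bilL (dd (mk1 b) z)).flip (a * z)) z := by
  refine ((dAt h.smooth hz).hasFDerivAt.clm_apply ((hasFDerivAt_id z).const_mul a)).congr_fderiv ?_
  ext v
  have := h.inf ha hz v
  simp [bil_dd b hz]
  linarith

theorem Pre.mom_inv {b : L1} (h : Pre b) (a : V) {g z : V} (hg : TG g) (hz : z ≠ 0) :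
    b (g * z) (a * (g * z)) = b z (a * z) := by rw [mul_left_comm, h.inv g hg z hz]

/-- Invariant horizontal two-forms with isotropic orbits. -/
structure G2 (σ : Form 2) : Prop where
  smooth : ContDiffOn ℝ ∞ σ {0}ᶜ
  inv : ∀ g, TG g → ∀ z ≠ 0, ∀ u v, bilL (σ (g * z)) (g * u) (g * v) = bilL (σ z) u v
  horiz : ∀ z ≠ 0, ∀ (c : ℂ) u, bilL (σ z) u (c • z) = 0
  lag : ∀ a a', LA a → LA a' → ∀ z ≠ 0, bilL (σ z) (a * z) (a' * z) = 0

theorem Conn.g2 {l : ℝ} {b : L1} (h : Conn l b) : G2 (dd (mk1 b)) := by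
  refine ⟨smooth_dd (smooth_mk1 h.smooth), fun g hg z hz u v => ?_, fun z hz c u => ?_,
    fun a a' ha ha' z hz => ?_⟩
  · rw [bil_dd b hz, bil_dd b (hg.ne hz), fderiv_inv h.smooth hg (h.inv g hg) hz,
      fderiv_inv h.smooth hg (h.inv g hg) hz]
  · have := (h.moment (a := fun _ => c) (fun _ => rfl) hz).unique
      ((hasFDerivAt_const (l * c.im) z).congr_of_eventuallyEq
      (mem_of_superset (isOpen_compl_singleton.mem_nhds hz) fun y hy => h.horiz y hy c))
    exact congrArg (fun L => L u) this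
  · have h1 := h.inf ha hz (a' * z)
    have h2 := h.inf ha' hz (a * z)
    rw [mul_left_comm] at h1
    rw [bil_dd b hz]
    linarith

/-- Real coordinate vectors. -/
noncomputable def er (k : Fin 3) : V := Pi.single k 1

/-- Imaginary coordinate vectors, and generators of the torus. -/
noncomputable def ei (k : Fin 3) : V := Pi.single k I

theorem la_ei (k : Fin 3) : LA (ei k) := fun j => by
  simp [ei, Pi.single_apply, apply_ite Complex.re]

theorem ei_mul (k : Fin 3) {z : V} (h : (z k).im = 0) : ei k * z = (z k).re • ei k := by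
  ext j
  rcases eq_or_ne j k with rfl | e
  · apply Complex.ext <;> simp [ei, h]
  · simp [ei, e]

theorem ei_ei (k : Fin 3) : ei k * ei k = -er k := by
  ext j
  rcases eq_or_ne j k with rfl | e
  · simp [ei, er]
  · simp [ei, er, e]

/-- Twice the derivative of a moment map with respect to `|z k|²`. -/
noncomputable def gg (σ : Form 2) (a : V) (k : Fin 3) (z : V) : ℝ :=
  bilL (fderiv ℝ σ z (ei k)) (ei k) (a * z) + bilL (σ z) (ei k) (a * ei k)

theorem G2.rad {σ : Form 2} (h : G2 σ) {a : V} (ha : LA a) {z : V} (hz : z ≠ 0) {k : Fin 3}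
    (hk : (z k).im = 0) : bilL (σ z) (er k) (a * z) = (z k).re * gg σ a k z := by
  have h1 := (hasDerivAt_bil (σ := σ) (by simpa using dAt h.smooth hz) (line z (ei k))
    (dmul (ei k) (line z (ei k))) (dmul a (line z (ei k)))).unique
    ((hasDerivAt_const 0 0).congr_of_eventuallyEq ((line_ne hz _).mono fun t ht =>
      h.lag _ _ (la_ei k) ha _ ht))
  simp [ei_mul k hk, ei_ei] at h1
  rw [gg]
  linarith

/-- Barycentric coordinates. -/
def xs (x : ℂ) : Fin 3 → ℝ := ![1 - x.re - x.im, x.re, x.im]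

/-- The real slice. -/
noncomputable def sc (x : ℂ) : V := fun j => √(xs x j)

theorem xs_nonneg {x : ℂ} (h : x ∈ Tri) (j : Fin 3) : 0 ≤ xs x j := by
  fin_cases j <;> simp [xs] <;> linarith [h.1, h.2.1, h.2.2]

theorem xs_pos {x : ℂ} (h : x ∈ TriO) (j : Fin 3) : 0 < xs x j := by
  fin_cases j <;> simp [xs] <;> linarith [h.1, h.2.1, h.2.2]

theorem nn_sc {x : ℂ} (h : x ∈ Tri) : nn (sc x) = 1 := by
  simp [nn, sc, Real.sq_sqrt (xs_nonneg h _), Fin.sum_univ_three]
  simp [xs]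
  ring

theorem sc_ne {x : ℂ} (h : x ∈ Tri) : sc x ≠ 0 := fun e => by simpa [e, nn] using nn_sc h

theorem cont_sc : Continuous sc := continuous_pi fun j => by
  fin_cases j <;> simp [sc, xs] <;> fun_prop

theorem tri_closure : closure TriO = Tri := by
  refine (closure_minimal triO_sub tri_closed).antisymm fun x hx => ?_
  have : Tendsto (fun t : ℝ => x + t * (⟨1 / 3, 1 / 3⟩ - x)) (𝓝[>] 0) (𝓝 x) :=
    tendsto_nhdsWithin_of_tendsto_nhds (Continuous.tendsto' (by fun_prop) _ _ (by simp))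
  refine mem_closure_of_tendsto this (mem_of_superset (Ioo_mem_nhdsGT one_pos) fun t ht => ?_)
  obtain ⟨h1, h2, h3⟩ := hx
  refine ⟨?_, ?_, ?_⟩ <;> simp <;> nlinarith [ht.1, ht.2]

theorem triO_convex : Convex ℝ TriO := fun x hx y hy a b ha hb hab => by
  have k := fun {u v : ℝ} (hu : 0 < u) (hv : 0 < v) => convex_Ioi (0 : ℝ) hu hv ha hb hab
  have := k (sub_pos.2 hx.2.2) (sub_pos.2 hy.2.2)
  refine ⟨by simpa using k hx.1 hy.1, by simpa using k hx.2.1 hy.2.1, ?_⟩
  simp at this ⊢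
  nlinarith

/-- The gradient of a moment map on the triangle. -/
noncomputable def grad (σ : Form 2) (a : V) (x : ℂ) : ℂ :=
  ⟨(gg σ a 1 (sc x) - gg σ a 0 (sc x)) / 2, (gg σ a 2 (sc x) - gg σ a 0 (sc x)) / 2⟩

theorem Conn.hg {l : ℝ} {b : L1} (h : Conn l b) {a : V} (ha : LA a) {N : C(Tri, ℂ)}
    (hN : ∀ x, N x = grad (dd (mk1 b)) a x) : HG (fun x => b (sc x) (a * sc x)) N := by
  have d : ∀ x ∈ TriO, HasFDerivAt (fun x => b (sc x) (a * sc x))
      (dot (grad (dd (mk1 b)) a x)) x := fun x hx => by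
    have h1 : ∀ j, HasFDerivAt (fun x => xs x j) (![-reCLM - imCLM, reCLM, imCLM] j) x := fun j => by
      fin_cases j
      exacts [(reCLM.hasFDerivAt.const_sub 1).sub imCLM.hasFDerivAt, reCLM.hasFDerivAt,
        imCLM.hasFDerivAt]
    have h2 : sc = fun x => ∑ j, √(xs x j) • er j := by
      ext x j
      simp [sc, er, Pi.single_apply]
    have h3 := HasFDerivAt.fun_sum (u := Finset.univ) fun j _ =>
      ((h1 j).sqrt (xs_pos hx j).ne').smul_const (er j)
    rw [← h2] at h3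
    refine ((h.moment ha (sc_ne (triO_sub hx))).comp x h3).congr_fderiv ?_
    ext1 v
    have h4 : ∀ j, bilL (dd (mk1 b) (sc x)) (er j) (a * sc x) = √(xs x j) * _ := fun j =>
      h.g2.rad ha (sc_ne (triO_sub hx)) (k := j) rfl
    have h5 := fun j => (Real.sqrt_pos.2 (xs_pos hx j)).ne'
    simp [Fin.sum_univ_three, h4, grad]
    field_simp [h5]
    ring
  intro x
  have c : ContinuousOn (fun x => dot (grad (dd (mk1 b)) a x)) Tri :=
    (show Continuous dot by unfold dot; fun_prop).comp_continuousOn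
      (continuousOn_iff_continuous_domRestrict.2 (N.continuous.congr hN))
  refine (hasFDerivWithinAt_closure_of_tendsto_fderiv
    (fun y hy => (d y hy).differentiableAt.differentiableWithinAt) triO_convex triO_open
    (fun y hy => ?_) ?_).mono tri_closure.ge
  · rw [tri_closure] at hy
    exact ((h.moment ha (sc_ne hy)).continuousAt.comp cont_sc.continuousAt).continuousWithinAt
  · rw [hN]
    exact ((c x x.2).mono triO_sub).tendsto.congr'
      (mem_of_superset self_mem_nhdsWithin fun y hy => (d y hy).fderiv.symm)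

theorem Conn.bd {l : ℝ} {b : L1} (h : Conn l b) :
    Bd l (fun x => b (sc x) (ei 1 * sc x)) (fun x => b (sc x) (ei 2 * sc x)) := fun x hx => by
  refine ⟨fun e => ?_, fun e => ?_, fun e => ?_⟩
  · simp [ei_mul 1 (z := sc x) rfl, sc, xs, e]
  · simp [ei_mul 2 (z := sc x) rfl, sc, xs, e]
  · have : ei 1 * sc x + ei 2 * sc x = I • sc x := by
      ext j
      fin_cases j <;> simp [ei, sc, xs, sub_sub, e]
    simp only
    rw [← map_add, this, h.horiz _ (sc_ne hx)]
    simp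

end Pool.Agent.MP_2fc7fa_gt.Tor

end

section

/-! The orbit map, and nondegeneracy in terms of the Jacobian of the moment map. -/

namespace Pool.Agent.MP_2fc7fa_gt.Tor

open Set Complex Filter Topology
open scoped ContDiff ComplexConjugate

/-- The standard moment map. -/
noncomputable def mu (z : V) : ℂ := ⟨‖z 1‖ ^ 2 * (nn z)⁻¹, ‖z 2‖ ^ 2 * (nn z)⁻¹⟩

theorem xs_mu {z : V} (hz : z ≠ 0) (j : Fin 3) : xs (mu z) j = ‖z j‖ ^ 2 * (nn z)⁻¹ := by
  have := (nn_pos hz).ne'
  fin_cases j <;> simp [xs, mu]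
  field_simp
  simp [nn, Fin.sum_univ_three]
  ring

theorem mu_mem {z : V} (hz : z ≠ 0) : mu z ∈ Tri := by
  have h : ∀ j, 0 ≤ xs (mu z) j := fun j => by
    rw [xs_mu hz]
    exact mul_nonneg (sq_nonneg _) (inv_pos.2 (nn_pos hz)).le
  exact ⟨h 1, h 2, by have := h 0; simp [xs] at this; linarith⟩

theorem transport {z : V} (hz : z ≠ 0) : ∃ g, TG g ∧ z = g * sc (mu z) := by
  have h := Real.sqrt_pos.2 (nn_pos hz)
  refine ⟨fun j => √(nn z) * exp (arg (z j) * I), ⟨by simpa using h.ne', fun j => by simp⟩,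
    funext fun j => ?_⟩
  rw [Pi.mul_apply, sc, xs_mu hz, Real.sqrt_mul (sq_nonneg _), Real.sqrt_sq (norm_nonneg _),
    Real.sqrt_inv]
  have : (√(nn z) : ℂ) ≠ 0 := by exact_mod_cast h.ne'
  conv_lhs => rw [← norm_mul_exp_arg_mul_I (z j)]
  push_cast
  field_simp

theorem mu_sc {x : ℂ} (h : x ∈ Tri) : mu (sc x) = x := by
  simp [mu, nn_sc h, sc, Real.sq_sqrt (xs_nonneg h _)]
  rfl

theorem TG.nn {g : V} (h : TG g) (z : V) : nn (g * z) = ‖g 0‖ ^ 2 * nn z := by
  simp [MP_2fc7fa_gt.nn, h.2, mul_pow, Finset.mul_sum]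

theorem TG.mu {g : V} (h : TG g) (z : V) : mu (g * z) = mu z := by
  have : ‖g 0‖ ≠ 0 := by simpa using h.1
  simp only [Tor.mu, h.nn, Pi.mul_apply, norm_mul, h.2, mul_pow, mul_inv]
  congr 1 <;> field_simp

theorem smooth_mu : ContDiffOn ℝ ∞ mu {0}ᶜ :=
  equivRealProdCLM.symm.contDiff.comp_contDiffOn
    (((contDiff_sq 1).contDiffOn.mul contDiffOn_inv_nn).prodMk
      ((contDiff_sq 2).contDiffOn.mul contDiffOn_inv_nn))

/-- The Pfaffian of a two-form on four vectors. -/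
noncomputable def Pf (φ : V [⋀^Fin 2]→L[ℝ] ℝ) (a b c d : V) : ℝ :=
  bilL φ a b * bilL φ c d - bilL φ a c * bilL φ b d + bilL φ a d * bilL φ b c

theorem pf_zero {φ : V [⋀^Fin 2]→L[ℝ] ℝ} {z : V} (hφ : ∀ (c : ℂ) u, bilL φ u (c • z) = 0)
    {i j k : Fin 3} (hij : i ≠ j) (hik : i ≠ k) (hjk : j ≠ k) (hm : ∀ m, m = i ∨ m = j ∨ m = k)
    (hz : z k ≠ 0) (h : Pf φ (er i) (ei i) (er j) (ei j) = 0) (a b c d : V) : Pf φ a b c d = 0 := by
  have key : ∀ v : V, ∃ (c : ℂ) (p q r s : ℝ),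
      v = c • z + (p • er i + q • ei i + r • er j + s • ei j) := fun v => by
    refine ⟨v k / z k, (v i - v k / z k * z i).re, (v i - v k / z k * z i).im,
      (v j - v k / z k * z j).re, (v j - v k / z k * z j).im, funext fun m => ?_⟩
    rcases hm m with rfl | rfl | rfl <;>
      simp [er, ei, hij, hij.symm, hik.symm, hjk.symm, hz, -sub_re, -sub_im]
  have h' : ∀ (c : ℂ) u, bilL φ (c • z) u = 0 := fun c u => by rw [bilL_skew, hφ, neg_zero]
  obtain ⟨_, a1, a2, a3, a4, rfl⟩ := key a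
  obtain ⟨_, b1, b2, b3, b4, rfl⟩ := key b
  obtain ⟨_, c1, c2, c3, c4, rfl⟩ := key c
  obtain ⟨_, d1, d2, d3, d4, rfl⟩ := key d
  simp only [Pf, map_add, map_smul, add_apply, smul_apply, smul_eq_mul, hφ, h', bilL_self,
    bilL_skew φ (ei i) (er i), bilL_skew φ (er j) (er i), bilL_skew φ (ei j) (er i),
    bilL_skew φ (er j) (ei i), bilL_skew φ (ei j) (ei i), bilL_skew φ (ei j) (er j)] at h ⊢
  linear_combination (a1 * (b2 * (c3 * d4 - c4 * d3) - b3 * (c2 * d4 - c4 * d2) +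
    b4 * (c2 * d3 - c3 * d2)) - a2 * (b1 * (c3 * d4 - c4 * d3) - b3 * (c1 * d4 - c4 * d1) +
    b4 * (c1 * d3 - c3 * d1)) + a3 * (b1 * (c2 * d4 - c4 * d2) - b2 * (c1 * d4 - c4 * d1) +
    b4 * (c1 * d2 - c2 * d1)) - a4 * (b1 * (c2 * d3 - c3 * d2) - b2 * (c1 * d3 - c3 * d1) +
    b3 * (c1 * d2 - c2 * d1))) * h

theorem alg3 {z : Fin 3 → ℝ} {B g : Fin 3 → Fin 3 → ℝ} (hz : ∀ j, z j ≠ 0)
    (hs : z 0 ^ 2 + z 1 ^ 2 + z 2 ^ 2 = 1) (h1 : ∀ k, z 0 * B k 0 + z 1 * B k 1 + z 2 * B k 2 = 0)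
    (h2 : ∀ j, z 0 * B 0 j + z 1 * B 1 j + z 2 * B 2 j = 0) (h3 : ∀ j k, z j * B k j = z k * g j k) :
    let D := (g 1 1 - g 1 0) * (g 2 2 - g 2 0) - (g 1 2 - g 1 0) * (g 2 1 - g 2 0)
    B 1 1 * B 2 2 - B 1 2 * B 2 1 = z 0 ^ 2 * D ∧ B 0 0 * B 2 2 - B 0 2 * B 2 0 = z 1 ^ 2 * D ∧
      B 0 0 * B 1 1 - B 0 1 * B 1 0 = z 2 ^ 2 * D := by
  have e : ∀ j k, g j k = z j * B k j / z k := fun j k => by
    rw [h3]; field_simp [hz k]
  have e1 : ∀ k, B k 0 = -(z 1 * B k 1 + z 2 * B k 2) / z 0 := fun k => by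
    field_simp [hz 0]; linarith [h1 k]
  have e2 : ∀ k, B 0 k = -(z 1 * B 1 k + z 2 * B 2 k) / z 0 := fun k => by
    field_simp [hz 0]; linarith [h2 k]
  have := hz 0
  have := hz 1
  have := hz 2
  simp only [e, e1, e2 1, e2 2]
  refine ⟨?_, ?_, ?_⟩ <;> field_simp
  · linear_combination z 0 ^ 2 * (B 1 2 * B 2 1 - B 1 1 * B 2 2) * hs
  · linear_combination z 0 ^ 2 * z 1 ^ 2 * (B 1 2 * B 2 1 - B 1 1 * B 2 2) * hs
  · linear_combination z 0 ^ 2 * z 2 ^ 2 * (B 1 2 * B 2 1 - B 1 1 * B 2 2) * hs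

theorem cont_gg {σ : Form 2} (h : ContDiffOn ℝ ∞ σ {0}ᶜ) (a : V) (k : Fin 3) :
    ContinuousOn (fun x => gg σ a k (sc x)) Tri := by
  have h1 : ContinuousOn (fun x => σ (sc x)) Tri :=
    h.continuousOn.comp cont_sc.continuousOn fun x hx => sc_ne hx
  have h2 : ContinuousOn (fun x => fderiv ℝ σ (sc x)) Tri :=
    (h.continuousOn_fderiv_of_isOpen isOpen_compl_singleton (by simp)).comp cont_sc.continuousOn
      fun x hx => sc_ne hx
  exact (((bilL.continuous.comp_continuousOn (h2.clm_apply continuousOn_const)).clm_apply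
    continuousOn_const).clm_apply (continuous_const.mul cont_sc).continuousOn).add
    (((bilL.continuous.comp_continuousOn h1).clm_apply continuousOn_const).clm_apply
      continuousOn_const)

theorem G2.pf {σ : Form 2} (h : G2 σ) {x : ℂ} (hx : x ∈ Tri) :
    let D := 4 * det (grad σ (ei 1) x) (grad σ (ei 2) x)
    Pf (σ (sc x)) (er 1) (ei 1) (er 2) (ei 2) = xs x 0 * D ∧
    Pf (σ (sc x)) (er 0) (ei 0) (er 2) (ei 2) = xs x 1 * D ∧
    Pf (σ (sc x)) (er 0) (ei 0) (er 1) (ei 1) = xs x 2 * D := by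
  have key : ∀ x ∈ TriO, let D := 4 * det (grad σ (ei 1) x) (grad σ (ei 2) x)
      Pf (σ (sc x)) (er 1) (ei 1) (er 2) (ei 2) = xs x 0 * D ∧
      Pf (σ (sc x)) (er 0) (ei 0) (er 2) (ei 2) = xs x 1 * D ∧
      Pf (σ (sc x)) (er 0) (ei 0) (er 1) (ei 1) = xs x 2 * D := fun x hx => by
    have hz := sc_ne (triO_sub hx)
    have h0 := fun j => (Real.sqrt_pos.2 (xs_pos hx j)).ne'
    have m : ∀ j, ei j * sc x = √(xs x j) • ei j := fun j => ei_mul j rfl
    have sq := fun j => Real.sq_sqrt (xs_pos hx j).le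
    have c : ∀ i j, bilL (σ (sc x)) (ei i) (ei j) = 0 := fun i j => by
      simpa [m, h0] using h.lag _ _ (la_ei i) (la_ei j) _ hz
    have := alg3 (z := fun j => √(xs x j)) (B := fun k j => bilL (σ (sc x)) (er k) (ei j))
      (g := fun j k => gg σ (ei j) k (sc x)) h0 (by simp only [sq]; simp [xs]; ring)
      (fun k => by
        have : I • sc x = √(xs x 0) • ei 0 + √(xs x 1) • ei 1 + √(xs x 2) • ei 2 := by
          ext j; fin_cases j <;> simp [sc, ei, mul_comm]
        simpa [this] using h.horiz _ hz I (er k))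
      (fun k => by
        have : (1 : ℂ) • sc x = √(xs x 0) • er 0 + √(xs x 1) • er 1 + √(xs x 2) • er 2 := by
          ext j; fin_cases j <;> simp [sc, er]
        have h1 := h.horiz _ hz 1 (ei k)
        rw [bilL_skew, neg_eq_zero] at h1
        simpa only [this, map_add, map_smul, add_apply, smul_apply, smul_eq_mul] using h1)
      fun j k => by simpa [m, sc] using h.rad (la_ei j) hz (k := k) rfl
    simp only [sq] at this
    simp only [Pf, c, bilL_skew _ (ei _) (er _), det, grad]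
    refine ⟨?_, ?_, ?_⟩
    · linear_combination this.1
    · linear_combination this.2.1
    · linear_combination this.2.2
  have h1 : ∀ a b, ContinuousOn (fun x => bilL (σ (sc x)) a b) Tri := fun a b =>
    ((bilL.continuous.comp_continuousOn (h.smooth.continuousOn.comp cont_sc.continuousOn
      fun x hx => sc_ne hx)).clm_apply continuousOn_const).clm_apply continuousOn_const
  have h2 := cont_gg h.smooth
  have h3 : ∀ j, Continuous fun x => xs x j := fun j => by fin_cases j <;> simp [xs] <;> fun_prop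
  have e : ∀ (a b c d : V) (j : Fin 3), (∀ x ∈ TriO, Pf (σ (sc x)) a b c d = xs x j *
      (4 * det (grad σ (ei 1) x) (grad σ (ei 2) x))) → Pf (σ (sc x)) a b c d = xs x j *
      (4 * det (grad σ (ei 1) x) (grad σ (ei 2) x)) := fun a b c d j k =>
    EqOn.of_subset_closure k ((((h1 _ _).mul (h1 _ _)).sub ((h1 _ _).mul (h1 _ _))).add
      ((h1 _ _).mul (h1 _ _))) (by unfold det grad; fun_prop) triO_sub
      tri_closure.ge hx
  exact ⟨e _ _ _ _ _ fun x hx => (key x hx).1, e _ _ _ _ _ fun x hx => (key x hx).2.1,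
    e _ _ _ _ _ fun x hx => (key x hx).2.2⟩

theorem G2.nondeg {σ : Form 2} (h : G2 σ) : (∀ z, z ≠ 0 → ∃ a b c d, Pf (σ z) a b c d ≠ 0) ↔
    ∀ x ∈ Tri, det (grad σ (ei 1) x) (grad σ (ei 2) x) ≠ 0 := by
  have k : ∀ x, xs x 0 ≠ 0 ∨ xs x 1 ≠ 0 ∨ xs x 2 ≠ 0 := fun x => by
    by_contra! h
    simp [xs] at h
    simp [h.2.1, h.2.2] at h
  refine ⟨fun H x hx e => ?_, fun H z hz => ?_⟩
  · obtain ⟨a, b, c, d, H⟩ := H _ (sc_ne hx)
    have := h.pf hx
    simp only [e, mul_zero] at this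
    have s : ∀ j, xs x j ≠ 0 → sc x j ≠ 0 := fun j hj => by
      simpa [sc, Real.sqrt_eq_zero (xs_nonneg hx j)] using hj
    rcases k x with k | k | k
    · exact H (pf_zero (h.horiz _ (sc_ne hx)) (by decide) (by decide) (by decide) (by decide)
        (s _ k) this.1 ..)
    · exact H (pf_zero (h.horiz _ (sc_ne hx)) (by decide) (by decide) (by decide) (by decide)
        (s _ k) this.2.1 ..)
    · exact H (pf_zero (h.horiz _ (sc_ne hx)) (by decide) (by decide) (by decide) (by decide)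
        (s _ k) this.2.2 ..)
  · obtain ⟨g, hg, e⟩ := transport hz
    have hx := mu_mem hz
    have t : ∀ a b c d, Pf (σ z) (g * a) (g * b) (g * c) (g * d) = Pf (σ (sc (mu z))) a b c d :=
      fun a b c d => by
        conv_lhs => rw [e]
        simp only [Pf, h.inv g hg _ (sc_ne hx)]
    have := h.pf hx
    have d := mul_ne_zero four_ne_zero (H _ hx)
    rcases k (mu z) with k | k | k
    · exact ⟨_, _, _, _, by rw [t, this.1]; exact mul_ne_zero k d⟩
    · exact ⟨_, _, _, _, by rw [t, this.2.1]; exact mul_ne_zero k d⟩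
    · exact ⟨_, _, _, _, by rw [t, this.2.2]; exact mul_ne_zero k d⟩

end Pool.Agent.MP_2fc7fa_gt.Tor

end

section

/-! Averaging primitives over the torus. -/

namespace Pool.Agent.MP_2fc7fa_gt.Tor

open Set Complex Filter Topology
open scoped ContDiff ComplexConjugate Real

/-- Primitives of `σ` invariant under `S`. -/
structure Prim (l : ℝ) (σ : Form 2) (S : Set V) (b : L1) : Prop where
  smooth : ContDiffOn ℝ ∞ b {0}ᶜ
  inv : ∀ g ∈ S, ∀ z ≠ 0, ∀ v, b (g * z) (g * v) = b z v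
  horiz : ∀ z ≠ 0, ∀ c : ℂ, b z (c • z) = l * c.im
  d : ∀ z ≠ 0, ∀ u v, fderiv ℝ b z u v - fderiv ℝ b z v u = bilL (σ z) u v

/-- Rotations of one coordinate. -/
noncomputable def rot (a : V) (t : ℝ) : V := fun j => exp (t * a j)

theorem rot_add (a : V) (s t : ℝ) : rot a (s + t) = rot a s * rot a t := by
  ext j; simp [rot, add_mul, exp_add]

theorem Prim.avg {l : ℝ} {σ : Form 2} {S : Set V} {b : L1} (h : Prim l σ S b)
    (hS : ∀ g ∈ S, TG g) (hσ : ∀ g, TG g → ∀ z ≠ 0, ∀ u v, bilL (σ (g * z)) (g * u) (g * v) = bilL (σ z) u v)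
    {a : V} (ha : ∀ t, TG (rot a t)) (h1 : rot a 1 = 1) :
    ∃ b', Prim l σ (S ∪ range (rot a)) b' := by
  have hU : IsOpen ({0}ᶜ : Set V) := isOpen_compl_singleton
  have c : Continuous fun q : Unit × ℝ => rot a q.2 := by unfold rot; fun_prop
  let F : Unit × ℝ → L1 := fun q z =>
    (b (rot a q.2 * z)).comp (ContinuousLinearMap.mul ℝ V (rot a q.2))
  have hF : Sm {0}ᶜ F := ((sm_of_contDiffOn hU.uniqueDiffOn h.smooth).comp
    ((sm_const c).bilin sm_id (ContinuousLinearMap.mul ℝ V)) fun q z hz => (ha _).ne hz).bilin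
    (sm_const ((ContinuousLinearMap.mul ℝ V).continuous.comp c)) (ContinuousLinearMap.compL ℝ V V ℝ)
  have hF' := hF.fderiv hU
  have ev : ∀ z ≠ 0, ∀ v, (∫ t in (0 : ℝ)..1, F ((), t) z) v =
      ∫ t in (0 : ℝ)..1, b (rot a t * z) (rot a t * v) := fun z hz v =>
    ContinuousLinearMap.intervalIntegral_apply ((hF.jc.slice () hz).intervalIntegrable _ _) v
  have loc : ∀ z ≠ 0, ∃ O : Set V, IsOpen O ∧ z ∈ O ∧ Convex ℝ O ∧ O ⊆ {0}ᶜ := fun z hz => by
    obtain ⟨ε, hε, h⟩ := Metric.isOpen_iff.1 hU z hz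
    exact ⟨_, Metric.isOpen_ball, Metric.mem_ball_self hε, convex_ball _ _, h⟩
  refine ⟨fun z => ∫ t in (0 : ℝ)..1, F ((), t) z, contDiffOn_of_locally_contDiffOn fun z hz => ?_,
    ?_, fun z hz c => ?_, fun z hz u v => ?_⟩
  · obtain ⟨O, o1, o2, o3, o4⟩ := loc z hz
    exact ⟨O, o1, o2, (Sm.contDiffOn (fun n => Fam.integral o3 (hF.mono o4 n)) o1.uniqueDiffOn
      ()).mono inter_subset_right⟩
  · rintro g (hg | ⟨s, rfl⟩) z hz v
    · rw [ev _ ((hS g hg).ne hz), ev _ hz]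
      simp only [mul_left_comm _ g, h.inv g hg _ ((ha _).ne hz)]
    · rw [ev _ ((ha s).ne hz), ev _ hz]
      simp only [← mul_assoc, ← rot_add]
      rw [intervalIntegral.integral_comp_add_right (fun t => b (rot a t * z) (rot a t * v))]
      simpa [add_comm] using Function.Periodic.intervalIntegral_add_eq (T := 1)
        (f := fun t => b (rot a t * z) (rot a t * v)) (fun t => by simp [rot_add, h1]) s 0
  · rw [ev _ hz]
    simp [h.horiz _ ((ha _).ne hz)]
  · obtain ⟨O, o1, o2, o3, o4⟩ := loc z hz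
    have d := fun q y (hy : y ≠ 0) => dAt (hF.contDiffOn hU.uniqueDiffOn q) hy
    have i := (hF'.jc.slice () hz).intervalIntegrable (μ := MeasureTheory.volume) 0 1
    have e : ∀ u v, (∫ t in (0 : ℝ)..1, fderiv ℝ (F ((), t)) z) u v =
        ∫ t in (0 : ℝ)..1, fderiv ℝ b (rot a t * z) (rot a t * u) (rot a t * v) := fun u v => by
      rw [ContinuousLinearMap.intervalIntegral_apply i, ContinuousLinearMap.intervalIntegral_apply
        (((hF'.jc.slice () hz).clm_apply continuous_const).intervalIntegrable _ _)]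
      congr 1
      ext t
      simpa using (dlin (b := F ((), t)) (by simpa using d _ z hz) (line z u)
        (hasDerivAt_const 0 v)).unique (dlin (b := b) (by simpa using dAt h.smooth ((ha t).ne hz))
          (dmul (rot a t) (line z u)) (hasDerivAt_const 0 (rot a t * v)))
    have c2 : ∀ u v, Continuous fun t => fderiv ℝ b (rot a t * z) (rot a t * u) (rot a t * v) :=
      fun u v => by
      have : Continuous (rot a) := by unfold rot; fun_prop
      exact (((h.smooth.continuousOn_fderiv_of_isOpen hU (by simp)).comp_continuous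
        (this.mul continuous_const) fun t => (ha t).ne hz).clm_apply
        (this.mul continuous_const)).clm_apply (this.mul continuous_const)
    rw [((hasFDerivWithinAt_integral o3 (hF.mono o4).jc (fun q y hy =>
      (d q y (o4 hy)).hasFDerivAt.hasFDerivWithinAt) (hF'.mono o4).jc () o2).hasFDerivAt
      (o1.mem_nhds o2)).fderiv, e, e, ← intervalIntegral.integral_sub
      ((c2 _ _).intervalIntegrable _ _) ((c2 _ _).intervalIntegrable _ _)]
    simp [h.d _ ((ha _).ne hz), hσ _ (ha _) z hz]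

theorem Prim.conn {l : ℝ} {σ : Form 2} {b : L1} (h : Prim l σ {g | ∃ c ≠ 0, g = fun _ => c} b)
    (hσ : ∀ g, TG g → ∀ z ≠ 0, ∀ u v, bilL (σ (g * z)) (g * u) (g * v) = bilL (σ z) u v) :
    ∃ b', Conn l b' ∧ ∀ z ≠ 0, σ z = dd (mk1 b') z := by
  have t : ∀ k t, TG (rot (Pi.single k (2 * π * I)) t) := fun k t => ⟨exp_ne_zero _, fun j => by
    simp [rot, norm_exp, Pi.single_apply, apply_ite Complex.re]⟩
  have p : ∀ k, rot (Pi.single k (2 * π * I)) 1 = 1 := fun k => funext fun j => by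
    by_cases e : j = k <;> simp [rot, e]
  have s : ∀ g ∈ {g : V | ∃ c ≠ 0, g = fun _ => c}, TG g := by
    rintro _ ⟨c, hc, rfl⟩
    exact ⟨hc, fun _ => rfl⟩
  obtain ⟨b₁, h₁⟩ := h.avg s hσ (t 1) (p 1)
  obtain ⟨b₂, h₂⟩ := h₁.avg (by
    rintro g (hg | ⟨s, rfl⟩)
    exacts [s g hg, t _ _]) hσ (t 2) (p 2)
  refine ⟨b₂, ⟨⟨h₂.smooth, fun g hg z hz v => ?_⟩, h₂.horiz⟩, fun z hz => ?_⟩
  · have k : ∀ j, g j = g 0 * exp (↑(arg (g j / g 0) / (2 * π)) * (2 * π * I)) := fun j => by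
      have e := norm_mul_exp_arg_mul_I (g j / g 0)
      rw [norm_div, hg.2, div_self (norm_ne_zero_iff.2 hg.1), ofReal_one, one_mul] at e
      have : (π : ℂ) ≠ 0 := ofReal_ne_zero.2 Real.pi_ne_zero
      rw [show ↑(arg (g j / g 0) / (2 * π)) * (2 * π * I) = arg (g j / g 0) * I by
        push_cast; field_simp, e, mul_div_cancel₀ _ hg.1]
    have e : g = (fun _ => g 0) * (rot (Pi.single 1 (2 * π * I)) (arg (g 1 / g 0) / (2 * π)) *
        rot (Pi.single 2 (2 * π * I)) (arg (g 2 / g 0) / (2 * π))) := by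
      ext j
      fin_cases j
      · simp [rot]
      · simpa [rot] using k 1
      · simpa [rot] using k 2
    rw [e, mul_assoc _ _ z, mul_assoc _ _ v, mul_assoc _ _ z, mul_assoc _ _ v, h₂.inv _ (.inl (.inl ⟨_, hg.1, rfl⟩)) _ ((t _ _).ne ((t _ _).ne hz)),
      h₂.inv _ (.inl (.inr ⟨_, rfl⟩)) _ ((t _ _).ne hz), h₂.inv _ (.inr ⟨_, rfl⟩) _ hz]
  · ext v
    rw [eq_bilL, eq_bilL, bil_dd _ hz, h₂.d _ hz]

/-- The standard invariant one-forms. -/
noncomputable def aj (a : V) : L1 := fun z => (nn z)⁻¹ • linL (cov (a * z))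

theorem aj_apply (a z v : V) : aj a z v = (nn z)⁻¹ * (her (a * z) v).im := by
  simp [aj, linL_cov]

theorem pre_aj (a : V) : Pre (aj a) := by
  refine ⟨contDiffOn_inv_nn.smul (linL.contDiff.comp (contDiff_cov.comp
    (contDiff_const.mul contDiff_id))).contDiffOn, fun g hg z hz v => ?_⟩
  have h : her (a * (g * z)) (g * v) = (‖g 0‖ ^ 2 : ℝ) * her (a * z) v := by
    simp only [her, Finset.mul_sum, Pi.mul_apply, map_mul]
    refine Finset.sum_congr rfl fun j _ => ?_
    rw [← hg.2 j, ofReal_pow, ← conj_mul']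
    ring
  have : ‖g 0‖ ≠ 0 := by simpa using hg.1
  rw [aj_apply, aj_apply, h, hg.nn, im_ofReal_mul]
  field_simp

theorem aj_ei (k j : Fin 3) {z : V} (hz : z ≠ 0) :
    aj (er k) z (ei j * z) = if j = k then xs (mu z) k else 0 := by
  rw [aj_apply, xs_mu hz]
  fin_cases k <;> fin_cases j <;>
    simp [her, er, ei, Fin.sum_univ_three, Complex.sq_norm, normSq_apply] <;> ring

theorem Pre.add {b b' : L1} (h : Pre b) (h' : Pre b') : Pre fun z => b z + b' z :=
  ⟨h.smooth.add h'.smooth, fun g hg z hz v => by simp [h.inv g hg z hz, h'.inv g hg z hz]⟩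

theorem Pre.smul {b : L1} (h : Pre b) {f : V → ℝ} (hf : ContDiffOn ℝ ∞ f {0}ᶜ)
    (hi : ∀ g, TG g → ∀ z ≠ 0, f (g * z) = f z) : Pre fun z => f z • b z :=
  ⟨hf.smul h.smooth, fun g hg z hz v => by simp [h.inv g hg z hz, hi g hg z hz]⟩

theorem Pre.comp {b : L1} (h : Pre b) (a : V) :
    Pre fun z => (b z).comp (ContinuousLinearMap.mul ℝ V a) :=
  ⟨h.smooth.clm_comp contDiffOn_const, fun g hg z hz v => by
    simp [mul_left_comm a, h.inv g hg z hz]⟩

theorem Pre.smooth_mom {b : L1} (h : Pre b) (a : V) : ContDiffOn ℝ ∞ (fun z => b z (a * z)) {0}ᶜ :=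
  h.smooth.clm_apply (contDiff_const.mul contDiff_id).contDiffOn

theorem I_smul (z : V) : I • z = ei 0 * z + ei 1 * z + ei 2 * z := by
  ext j
  fin_cases j <;> simp [ei]

theorem Pre.conn {l : ℝ} {b : L1} (h : Pre b)
    (hl : ∀ z ≠ 0, b z (ei 0 * z) + b z (ei 1 * z) + b z (ei 2 * z) = l) :
    ∃ b', Conn l b' ∧ ∀ k z, b' z (ei k * z) = b z (ei k * z) := by
  refine ⟨_, ⟨h.add ((pre_aj fun _ => I).smul (h.smooth_mom 1) fun g hg z hz => h.mom_inv 1 hg hz),
    fun z hz c => ?_⟩, fun k z => ?_⟩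
  · have e : c • z = c.re • z + c.im • I • z := by
      ext j
      apply Complex.ext <;> simp
      ring
    have e' : aj (fun _ => I) z (c • z) = -c.re := by
      rw [aj_apply, show (fun _ => I) * z = I • z from rfl, her_smul, her_smul', her_self]
      simp
      field_simp [(nn_pos hz).ne']
    rw [add_apply, smul_apply, e', e, map_add, map_smul, map_smul, I_smul, map_add, map_add, hl z hz]
    simp
    ring
  · have : (her ((fun _ => I) * z) (ei k * z)).im = 0 := by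
      fin_cases k <;> simp [her, ei, Fin.sum_univ_three] <;> ring
    simp [aj_apply, this]

end Pool.Agent.MP_2fc7fa_gt.Tor

end

section

/-! Realisation of prescribed moment maps. -/

namespace Pool.Agent.MP_2fc7fa_gt.Tor

open Set Complex Filter Topology
open scoped ContDiff

/-- The components of the moment map on the triangle. -/
noncomputable def mom (b : L1) (k : Fin 3) (x : ℂ) : ℝ := b (sc x) (ei k * sc x)

theorem real3 {l : ℝ} (hl : 0 < l) {θ : C(Tri, ℝ)} (hθ : Win θ) : ∃ b, Conn l b ∧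
    ∀ N, HG (fun x => mom b 1 x + mom b 2 x) N → Rel θ N := by
  obtain ⟨A, B, C, hA, hB, hC, h1, h2⟩ := height hl hθ
  have k : ∀ {A : ℂ → ℝ}, ContDiff ℝ ∞ A → ∀ j, Pre fun z => A (mu z) • aj (er j) z := fun hA j =>
    (pre_aj _).smul (hA.comp_contDiffOn smooth_mu) fun g hg z _ => by rw [hg.mu]
  obtain ⟨b, h3, h4⟩ := (((k hC 0).add (k hA 1)).add (k hB 2)).conn (l := l) fun z hz => by
    simp [aj_ei _ _ hz, xs]
    linarith [h1 (mu z)]
  refine ⟨b, h3, fun N hN => h2 N (hN.congr fun x hx => ?_)⟩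
  simp [mom, h4, aj_ei _ _ (sc_ne hx), xs, mu_sc hx, mul_comm]

theorem real4 {l : ℝ} {b : L1} (h : Conn l b) {P Q : C(Tri, ℂ)} (h₁ : HG (mom b 1) P)
    (h₂ : HG (mom b 2) Q) (hc : Hc (P + Q)) : ∃ b', Conn l b' ∧
    (∀ x ∈ Tri, mom b' 1 x + mom b' 2 x = mom b 1 x + mom b 2 x) ∧
    ∀ P', HG (mom b' 1) P' → ∀ x, 0 < det (P' x) ((P + Q) x) := by
  obtain ⟨δ, ν, p, q, hδ, hν, ν0, hp, hq, p0, q0, key⟩ := second h₁ h₂ h.bd hc
  have hU : IsOpen ({0}ᶜ : Set V) := isOpen_compl_singleton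
  set f : V → ℝ := fun z => b z (ei 1 * z) + b z (ei 2 * z) with hf
  have f1 : ContDiffOn ℝ ∞ f {0}ᶜ := (h.smooth_mom _).add (h.smooth_mom _)
  have f2 : ∀ g, TG g → ∀ z ≠ 0, f (g * z) = f z := fun g hg z hz => by
    simp only [hf, h.mom_inv _ hg hz]
  have f3 : ∀ z ≠ 0, mu z = 0 → f z = 0 := fun z hz e => by
    obtain ⟨g, hg, e'⟩ := transport hz
    rw [e', e, f2 g hg _ (sc_ne zero_mem_tri)]
    exact (congrArg₂ (· + ·) ((h.bd 0 zero_mem_tri).1 rfl) ((h.bd 0 zero_mem_tri).2.1 rfl)).trans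
      (add_zero _)
  have n1 := hν.comp_contDiffOn f1
  have k : ∀ {c : ℂ → ℝ}, ContDiff ℝ ∞ c → ∀ j, Pre fun z => (ν (f z) * f z * (c (mu z) *
      ((mu z).re * p (mu z) + (mu z).im * q (mu z))⁻¹)) • aj (er j) z := fun {c} hc j =>
    (pre_aj _).smul (fun z hz => by
      by_cases e : mu z = 0
      · refine (contDiffWithinAt_const (c := 0)).congr_of_eventuallyEq_of_mem ?_ hz
        exact ((f1.continuousOn z hz).eventually (gt_mem_nhds ((f3 z hz e).trans_lt hδ))).mono
          fun y hy => by simp [ν0 _ hy]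
      · exact ((n1 z hz).mul (f1 z hz)).mul ((hc.contDiffAt.mul (((reCLM.contDiff.mul hp).add
          (imCLM.contDiff.mul hq)).contDiffAt.inv
          (den_pos (mu_mem hz) e (p0 _) (q0 _)).ne')).comp_contDiffWithinAt z (smooth_mu z hz)))
      fun g hg z hz => by rw [hg.mu, f2 g hg z hz]
  have s : ∀ z ≠ 0, ν (f z) * f z * (p (mu z) * ((mu z).re * p (mu z) + (mu z).im * q (mu z))⁻¹) *
      (mu z).re + ν (f z) * f z * (q (mu z) * ((mu z).re * p (mu z) + (mu z).im * q (mu z))⁻¹) *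
      (mu z).im = ν (f z) * f z := fun z hz => by
    by_cases e : mu z = 0
    · simp [f3 z hz e]
    · linear_combination ν (f z) * f z *
        mul_inv_cancel₀ (den_pos (mu_mem hz) e (p0 (mu z)) (q0 (mu z))).ne'
  have e : ∀ j z, er 0 * (ei j * z) = if j = 0 then ei 0 * z else 0 := fun j z => by
    ext i
    fin_cases j <;> fin_cases i <;> simp [er, ei]
  obtain ⟨b', h3, h4⟩ := ((((h.smul ((contDiffOn_const (c := 1)).sub n1) fun g hg z hz => by
    simp only [Function.comp, f2 g hg z hz]).add ((h.comp (er 0)).smul n1 fun g hg z hz => by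
    simp only [Function.comp, f2 g hg z hz])).add (k hp 1)).add (k hq 2)).conn (l := l)
    fun z hz => by
      have := h.horiz z hz I
      rw [I_smul, map_add, map_add] at this
      simp [aj_ei _ _ hz, xs, e] at this ⊢
      linear_combination this + s z hz
  refine ⟨b', h3, fun x hx => ?_, fun P' hP => key P' (hP.congr fun x hx => ?_)⟩
  · have := s _ (sc_ne hx)
    simp [mom, h4, aj_ei _ _ (sc_ne hx), xs, e]
    linear_combination this
  · simp [mom, h4, aj_ei _ _ (sc_ne hx), xs, e, mu_sc hx, hf]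
    ring

end Pool.Agent.MP_2fc7fa_gt.Tor

end

section

/-! The space of torus-invariant symplectic forms is contractible. -/

namespace Pool.Agent.MP_2fc7fa_gt.Tor

open Set Complex Filter Topology
open scoped ContDiff Matrix

/-- Smooth two-forms. -/
def SFs : Submodule ℝ (Form 2) where
  carrier := {σ | ContDiffOn ℝ ∞ σ {0}ᶜ}
  add_mem' := ContDiffOn.add
  zero_mem' := contDiffOn_const
  smul_mem' := fun c _ h => h.const_smul c

/-- Smooth two-forms, to be given the `C^∞` topology. -/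
def SF : Type := SFs

noncomputable instance : AddCommGroup SF := inferInstanceAs (AddCommGroup SFs)

noncomputable instance : Module ℝ SF := inferInstanceAs (Module ℝ SFs)

/-- The underlying form. -/
def SF.form (σ : SF) : Form 2 := Subtype.val σ

theorem SF.smooth (σ : SF) : ContDiffOn ℝ ∞ σ.form {0}ᶜ := Subtype.property σ

theorem SF.at (σ : SF) {z : V} (hz : z ≠ 0) (n : ℕ) : ContDiffAt ℝ n σ.form z :=
  (σ.smooth.contDiffAt (isOpen_compl_singleton.mem_nhds hz)).of_le (mod_cast le_top)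

instance (n : ℕ) : ContinuousAdd (V [×n]→L[ℝ] V [⋀^Fin 2]→L[ℝ] ℝ) :=
  (inferInstance : IsTopologicalAddGroup (V [×n]→L[ℝ] V [⋀^Fin 2]→L[ℝ] ℝ)).toContinuousAdd

/-- The jets. -/
noncomputable def jetL (n : ℕ) :
    SF →ₗ[ℝ] C(({0}ᶜ : Set V), V [×n]→L[ℝ] V [⋀^Fin 2]→L[ℝ] ℝ) where
  toFun σ := ⟨fun z => iteratedFDeriv ℝ n σ.form z, continuous_iff_continuousAt.2 fun z =>
    ((σ.at z.2 n).continuousAt_iteratedFDeriv le_rfl).comp continuousAt_subtype_val⟩
  map_add' σ σ' := ContinuousMap.ext fun z => iteratedFDeriv_add_apply (σ.at z.2 n) (σ'.at z.2 n)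
  map_smul' _ σ := ContinuousMap.ext fun z => iteratedFDeriv_const_smul_apply (σ.at z.2 n)

noncomputable instance : TopologicalSpace SF :=
  ⨅ n, TopologicalSpace.induced (jetL n) inferInstance

instance : LocallyCompactSpace ({0}ᶜ : Set V) := isOpen_compl_singleton.locallyCompactSpace

instance : ContinuousAdd SF := continuousAdd_iInf fun n => continuousAdd_induced (jetL n)

instance : ContinuousSMul ℝ SF := continuousSMul_iInf fun n => continuousSMul_induced (jetL n)

theorem sm_form : Sm {0}ᶜ SF.form := by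
  refine (sm_iff_iter isOpen_compl_singleton).2 ⟨SF.smooth, fun m => ?_⟩
  rw [JC, continuousOn_iff_continuous_domRestrict]
  have h2 : Continuous (jetL m) := continuous_iInf_dom (i := m) continuous_induced_dom
  exact continuous_eval.comp (f := fun q : (univ ×ˢ {0}ᶜ : Set (SF × V)) =>
    (jetL m q.1.1, (⟨q.1.2, q.2.2⟩ : ({0}ᶜ : Set V)))) (by fun_prop)

theorem cont_grad (a : V) : Continuous fun q : SF × Tri => grad q.1.form a q.2 := by
  have c : Continuous fun q : SF × Tri => sc q.2 := cont_sc.comp (by fun_prop)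
  have h : ∀ k, Continuous fun q : SF × Tri => gg q.1.form a k (sc q.2) := fun k =>
    (((bilL.continuous.comp ((ContinuousOn.comp_continuous (sm_form.fderiv
      isOpen_compl_singleton).jc (continuous_fst.prodMk c) fun q => ⟨trivial, sc_ne q.2.2⟩).clm_apply
      continuous_const)).clm_apply continuous_const).clm_apply (continuous_const.mul c)).add
      (((bilL.continuous.comp (ContinuousOn.comp_continuous sm_form.jc (continuous_fst.prodMk c)
        fun q => ⟨trivial, sc_ne q.2.2⟩)).clm_apply continuous_const).clm_apply continuous_const)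
  exact equivRealProdCLM.symm.continuous.comp
    ((((h 1).sub (h 0)).div_const 2).prodMk (((h 2).sub (h 0)).div_const 2))

theorem grad_add (a : V) (σ σ' : SF) (x : Tri) :
    grad (σ + σ').form a x = grad σ.form a x + grad σ'.form a x := by
  have : fderiv ℝ (σ + σ').form (sc x) = fderiv ℝ σ.form (sc x) + fderiv ℝ σ'.form (sc x) :=
    fderiv_add (dAt σ.smooth (sc_ne x.2)) (dAt σ'.smooth (sc_ne x.2))
  have e : (σ + σ').form (sc x) = σ.form (sc x) + σ'.form (sc x) := rfl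
  apply Complex.ext <;> simp [grad, gg, this, e] <;> ring

theorem grad_smul (a : V) (c : ℝ) (σ : SF) (x : Tri) :
    grad (c • σ).form a x = c • grad σ.form a x := by
  have : fderiv ℝ (c • σ).form (sc x) = _ := fderiv_const_smul (dAt σ.smooth (sc_ne x.2)) c
  have e : (c • σ).form (sc x) = c • σ.form (sc x) := rfl
  apply Complex.ext <;> simp [grad, gg, this, e] <;> ring

/-- The gradient of the moment map as a function of the form. -/
noncomputable def gradL (a : V) : SF →L[ℝ] C(Tri, ℂ) where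
  toFun := ContinuousMap.curry ⟨_, cont_grad a⟩
  map_add' σ σ' := ContinuousMap.ext (grad_add a σ σ')
  map_smul' c σ := ContinuousMap.ext (grad_smul a c σ)
  cont := map_continuous _

/-- Curvature forms of invariant connections. -/
def Cl (l : ℝ) (σ : SF) : Prop := ∃ b, Conn l b ∧ σ.form = dd (mk1 b)

theorem Cl.lin {a b : ℝ} {σ σ' : SF} (s t : ℝ) (h : Cl a σ) (h' : Cl b σ') :
    Cl (s * a + t * b) (s • σ + t • σ') := by
  obtain ⟨β, h, e⟩ := h
  obtain ⟨β', h', e'⟩ := h'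
  refine ⟨_, ⟨(h.smul (contDiffOn_const (c := s)) fun _ _ _ _ => rfl).add
    (h'.smul (contDiffOn_const (c := t)) fun _ _ _ _ => rfl), fun z hz c => ?_⟩, funext fun z => ?_⟩
  · simp [h.horiz z hz, h'.horiz z hz]
    ring
  · change s • σ.form z + t • σ'.form z = _
    rw [e, e']
    rcases eq_or_ne z 0 with rfl | hz
    · simp [dd]
    · ext v
      rw [eq_bilL, eq_bilL, bil_dd _ hz, (((dAt h.smooth hz).hasFDerivAt.fun_const_smul s).fun_add
        ((dAt h'.smooth hz).hasFDerivAt.fun_const_smul t)).fderiv]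
      simp [bil_dd _ hz]
      ring

theorem Conn.hg' {l : ℝ} {b : L1} (h : Conn l b) {σ : SF} (e : σ.form = dd (mk1 b)) (k : Fin 3) :
    HG (mom b k) (gradL (ei k) σ) := h.hg (la_ei k) fun x => by rw [← e]; rfl

theorem det_add (a b : ℂ) : det a (a + b) = det a b := by simp [det]; ring

/-- The model of the space of invariant symplectic forms. -/
abbrev Mod (l : ℝ) : Type :=
  {σ // Cl l σ ∧ ∀ x, det (gradL (ei 1) σ x) ((gradL (ei 1) + gradL (ei 2)) σ x) ≠ 0}

theorem contr_pos {l : ℝ} (hl : 0 < l) : ContractibleSpace (Mod l) := by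
  refine assembly _ _ Cl.lin ?_ (fun θ hθ => ?_) ?_
  · rintro σ ⟨b, h, e⟩ hd
    simp only [add_apply, ContinuousMap.add_apply, det_add] at hd ⊢
    exact signs hl (h.hg' e 1) (h.hg' e 2) h.bd hd
  · obtain ⟨b, h, h1⟩ := real3 hl hθ
    exact ⟨⟨_, h.g2.smooth⟩, ⟨b, h, rfl⟩, h1 _ ((h.hg' rfl 1).add (h.hg' rfl 2))⟩
  · rintro σ ⟨b, h, e⟩ hc
    obtain ⟨b', h', h1, h2⟩ := real4 h (h.hg' e 1) (h.hg' e 2) hc
    exact ⟨⟨_, h'.g2.smooth⟩, ⟨b', h', rfl⟩, ((h'.hg' rfl 1).add (h'.hg' rfl 2)).unique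
      (((h.hg' e 1).add (h.hg' e 2)).congr h1), h2 _ (h'.hg' rfl 1)⟩

theorem neg_mem {l l' : ℝ} (e : l' = -l) (σ : Mod l) : Cl l' ((-1 : ℝ) • σ.1) ∧ ∀ x,
    det (gradL (ei 1) ((-1 : ℝ) • σ.1) x) ((gradL (ei 1) + gradL (ei 2)) ((-1 : ℝ) • σ.1) x) ≠ 0 :=
  ⟨by simpa [e] using σ.2.1.lin (-1) 0 σ.2.1, fun x h => σ.2.2 x (by
    rw [map_smul, map_smul] at h
    simp [det] at h ⊢
    linarith)⟩

theorem contr {l : ℝ} (hl : l ≠ 0) : ContractibleSpace (Mod l) := by
  rcases hl.lt_or_gt with h | h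
  · have := contr_pos (neg_pos.2 h)
    exact Homeomorph.contractibleSpace (Y := Mod (-l))
      ⟨⟨fun σ => ⟨_, neg_mem rfl σ⟩, fun σ => ⟨_, neg_mem (neg_neg l).symm σ⟩,
        fun σ => by simp, fun σ => by simp⟩, by fun_prop, by fun_prop⟩
  · exact contr_pos h

theorem symp_cl {l : ℝ} (σ : Symp l) (h : Invariant Torus σ.form) :
    ∃ b, Conn l b ∧ σ.form = dd (mk1 b) := by
  obtain ⟨α, hα, e⟩ := σ.cls
  have d1 := fun z (hz : z ≠ 0) => dAt hα.smooth hz
  have d2 := fun z (hz : z ≠ 0) => dAt contDiffOn_theta hz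
  obtain ⟨b, h1, h2⟩ := Prim.conn (l := l) (σ := σ.form)
    (b := fun z => l • linL (theta z) + linL (α z)) ⟨((linL.contDiff.comp_contDiffOn
      contDiffOn_theta).const_smul l).add (linL.contDiff.comp_contDiffOn hα.smooth), by
      rintro _ ⟨c, hc, rfl⟩ z hz v
      have h1 := inv_theta.lin (a := 1) (b := 0) hc (by simp) z v
      have h2 := hα.scale c hc z fun _ => v
      rw [act_one, act_one] at h1
      rw [eq_linL, eq_linL] at h2
      exact congrArg₂ (l * · + ·) h1 h2, fun z hz c => by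
      have := hα.horiz z (fun _ => c • z) 0 c rfl
      rw [eq_linL] at this
      simp [theta_horiz c hz, this], fun z hz u v => by
      have : fderiv ℝ (fun z => l • linL (theta z) + linL (α z)) z = _ :=
        (((linL.hasFDerivAt.comp z (d2 z hz).hasFDerivAt).fun_const_smul l).fun_add
        (linL.hasFDerivAt.comp z (d1 z hz).hasFDerivAt)).fderiv
      rw [e z hz, this]
      simp [bilL_extDeriv]
      ring⟩ fun g hg z hz u v => by
      have h0 : g 0 ≠ 0 := hg.1
      have h1 := h _ ⟨(g 0)⁻¹ • g, fun j => by simp [hg.2, h0], rfl⟩ z ![u, v]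
      have m : ∀ z : V, g 0 • (Matrix.diagonal ((g 0)⁻¹ • g) *ᵥ z) = g * z := fun z => by
        ext j
        simp [Matrix.mulVec_diagonal, h0, -Matrix.diagonal_smul, mul_assoc]
      rw [← σ.isForm.scale _ h0, eq_bilL, eq_bilL] at h1
      simpa [m, -Matrix.diagonal_smul] using h1
  refine ⟨b, h1, funext fun z => ?_⟩
  rcases eq_or_ne z 0 with rfl | hz
  · simp [dd, σ.isForm.zero]
  · exact h2 z hz

open Classical in
theorem Conn.symp {l : ℝ} {b : L1} (h : Conn l b) : IsForm (dd (mk1 b)) ∧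
    (∀ z, z ≠ 0 → extDeriv (dd (mk1 b)) z = 0) ∧ (∃ α : Form 1, IsForm α ∧ ∀ z, z ≠ 0 →
      dd (mk1 b) z = l • extDeriv theta z + extDeriv α z) ∧ Invariant Torus (dd (mk1 b)) := by
  have hU : IsOpen ({0}ᶜ : Set V) := isOpen_compl_singleton
  have s := smooth_mk1 h.smooth
  have s' := s.sub (contDiffOn_theta.const_smul l)
  refine ⟨⟨h.g2.smooth, fun c hc z v => ?_, fun z v i c e => ?_, if_pos rfl⟩, fun z hz => ?_,
    ⟨fun z => if z = 0 then 0 else mk1 b z - l • theta z, ⟨s'.congr fun z hz => if_neg hz,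
      fun c hc z v => ?_, fun z v i c e => ?_, if_pos rfl⟩, fun z hz => ?_⟩, ?_⟩
  · rcases eq_or_ne z 0 with rfl | hz
    · simp [dd]
    · rw [eq_bilL, eq_bilL]
      exact h.g2.inv (fun _ => c) ⟨hc, fun _ => rfl⟩ z hz _ _
  · rcases eq_or_ne z 0 with rfl | hz
    · simp [dd]
    · rw [eq_bilL]
      fin_cases i
      · rw [bilL_skew, neg_eq_zero]
        exact (congrArg (bilL _ _) e).trans (h.g2.horiz z hz c _)
      · exact (congrArg (bilL _ _) e).trans (h.g2.horiz z hz c _)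
  · rw [← extDeriv_extDeriv_apply ((s.contDiffAt (hU.mem_nhds hz)).of_le (m := 2)
      (WithTop.coe_le_coe.2 le_top)) (by simp)]
    exact EventuallyEq.extDeriv_eq (mem_of_superset (hU.mem_nhds hz) fun y hy => dd_of_ne _ hy)
  · rcases eq_or_ne z 0 with rfl | hz
    · simp
    · have h1 := inv_theta.lin (a := 1) (b := 0) hc (by simp) z (v 0)
      have h2 : b (c • z) (c • v 0) = _ := h.inv (fun _ => c) ⟨hc, fun _ => rfl⟩ z hz (v 0)
      rw [act_one, act_one] at h1
      simp [hz, hc, eq_linL, linL_mk1, h1, h2]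
  · rcases eq_or_ne z 0 with rfl | hz
    · simp
    · rw [Subsingleton.elim i 0] at e
      simp [hz, eq_linL, linL_mk1, e, h.horiz z hz, theta_horiz c hz]
  · rw [EventuallyEq.extDeriv_eq (ω₁ := fun z => if z = 0 then 0 else mk1 b z - l • theta z)
      (ω₂ := fun z => mk1 b z - l • theta z) (mem_of_superset (hU.mem_nhds hz) fun y hy => if_neg hy), dd_of_ne _ hz, ← extDeriv_smul,
      ← extDeriv_add ((dAt contDiffOn_theta hz).const_smul l) (dAt s' hz)]
    congr 1
    ext1 y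
    simp
  · rintro _ ⟨g, hg, rfl⟩ z v
    have m : ∀ z : V, Matrix.diagonal g *ᵥ z = g * z := fun z => by
      ext j
      simp [Matrix.mulVec_diagonal]
    rcases eq_or_ne z 0 with rfl | hz
    · simp [dd]
    · rw [eq_bilL, eq_bilL, m, m, m]
      exact h.g2.inv g ⟨by simp [← norm_pos_iff, hg], fun j => by rw [hg, hg]⟩ z hz _ _

theorem Cl.nondeg {l : ℝ} {σ : SF} (h : Cl l σ) : (∀ z, z ≠ 0 → ∃ a b c d,
    σ.form z ![a, b] * σ.form z ![c, d] - σ.form z ![a, c] * σ.form z ![b, d] +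
      σ.form z ![a, d] * σ.form z ![b, c] ≠ 0) ↔
    ∀ x, det (gradL (ei 1) σ x) ((gradL (ei 1) + gradL (ei 2)) σ x) ≠ 0 := by
  obtain ⟨b, h, e⟩ := h
  have := (e ▸ h.g2).nondeg
  simp only [Pf, bilL_apply] at this
  simp only [this, add_apply, ContinuousMap.add_apply, det_add, Subtype.forall]
  rfl

theorem Cl.symp {l : ℝ} {σ : SF} (h : Cl l σ) : IsForm σ.form ∧
    (∀ z, z ≠ 0 → extDeriv σ.form z = 0) ∧ (∃ α : Form 1, IsForm α ∧ ∀ z, z ≠ 0 →
      σ.form z = l • extDeriv theta z + extDeriv α z) ∧ Invariant Torus σ.form := by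
  obtain ⟨b, h, e⟩ := h
  exact e ▸ h.symp

theorem contractible (l : ℝ) (hl : l ≠ 0) :
    ContractibleSpace {σ : Symp l // Invariant Torus σ.form} := by
  have := contr hl
  have k : ∀ σ : {σ : Symp l // Invariant Torus σ.form}, Cl l ⟨σ.1.form, σ.1.isForm.smooth⟩ :=
    fun σ => symp_cl σ.1 σ.2
  refine Homeomorph.contractibleSpace (Y := Mod l)
    ⟨⟨fun σ => ⟨_, k σ, (k σ).nondeg.1 σ.1.nondeg⟩, fun σ => ⟨⟨σ.1.form, σ.2.1.symp.1,
      σ.2.1.symp.2.1, σ.2.1.nondeg.2 σ.2.2, σ.2.1.symp.2.2.1⟩, σ.2.1.symp.2.2.2⟩,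
      fun σ => rfl, fun σ => rfl⟩, ?_, ?_⟩
  · refine Continuous.subtype_mk (continuous_iInf_rng.2 fun n => continuous_induced_rng.2 ?_) _
    exact (continuous_iInf_dom (i := n) continuous_induced_dom :
      Continuous fun σ : Symp l => σ.jet n).comp continuous_subtype_val
  · refine Continuous.subtype_mk (continuous_iInf_rng.2 fun n => continuous_induced_rng.2 ?_) _
    exact (continuous_iInf_dom (i := n) continuous_induced_dom :
      Continuous (jetL n)).comp continuous_subtype_val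

end Pool.Agent.MP_2fc7fa_gt.Tor

end
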