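import Pool.Agent.Mg.F2fc7fa.G157b90

section

/-! The cohomology class determines the end point of the curve (Green's formula on a line). -/

open Set Filter Topology Complex
open scoped ContDiff ComplexConjugate Matrix InnerProductSpace Real

namespace Pool.Agent.MP_2fc7fa_gt

lemma Good.line {σ : Form 2} (h : Good σ) {e : ℂ} {x y : ℝ} (he : ‖e‖ = 1) (hxy : x ^ 2 + y ^ 2 = 1) :
    bilL (σ ![0, e * x, conj e * y]) (mat I 0 ![0, e * x, conj e * y])
      ![0, e * (-y : ℝ), conj e * x] = 2 * hh σ 1 2 * (y * x) := by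
  have h1 : e * conj e = 1 := by simp [Complex.mul_conj', he]
  have h2 : (x : ℂ) ^ 2 + y ^ 2 = 1 := by exact_mod_cast hxy
  have e1 : (![0, e * x, conj e * y] : V) = act 1 (e * x) (conj e * y) (sl 1) := by
    ext i
    fin_cases i <;> simp [act, lm_apply, sl, pt]
  have e2 : (![0, e * (-y : ℝ), conj e * x] : V) = act 1 (e * x) (conj e * y) ![0, 0, 1] := by
    ext i
    fin_cases i <;> simp [act, lm_apply]
  have e3 : mat I 0 ![0, e * x, conj e * y] = act 1 (e * x) (conj e * y)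
      ((I * (x ^ 2 - y ^ 2) : ℂ) • sl 1 + (-2 * (y * x)) • ![0, 0, I]) := by
    ext i
    fin_cases i <;> simp [act, mat, lm_apply, sl, pt]
    · linear_combination -I * e * x * h2
    · linear_combination I * conj e * y * h2
  rw [e3, e2, e1, h.inv.bil one_ne_zero (by simpa [he] using hxy), map_add, add_apply, h.horiz,
    map_smul, smul_apply, bilL_skew]
  change _ = 2 * bilL (σ (sl 1)) ![0, 0, 1] ![0, 0, I] * (y * x)
  simp only [smul_eq_mul]
  ring

/-- A parametrisation of a projective line. -/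
noncomputable def gam (θ t : ℝ) : V :=
  ![0, exp (θ * I) * Real.cos t, conj (exp (θ * I)) * Real.sin t]

lemma gam_eq (θ t : ℝ) : gam θ t = (Real.cos θ * Real.cos t) • ![0, 1, 0] +
    (Real.sin θ * Real.cos t) • ![0, I, 0] + (Real.cos θ * Real.sin t) • ![0, 0, 1] -
    (Real.sin θ * Real.sin t) • ![0, 0, I] := by
  ext i
  fin_cases i <;> simp [gam, exp_mul_I, ← Complex.ofReal_cos, ← Complex.ofReal_sin] <;> ring

lemma gam_ne (θ t : ℝ) : gam θ t ≠ 0 := fun h => by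
  have h1 : Real.cos t = 0 := by simpa [gam, -Complex.ofReal_cos] using congrFun h 1
  have h2 : Real.sin t = 0 := by simpa [gam, -Complex.ofReal_sin] using congrFun h 2
  simpa [h1, h2] using Real.sin_sq_add_cos_sq t

lemma gam_fst (θ t : ℝ) : HasDerivAt (fun θ => gam θ t) (mat I 0 (gam θ t)) θ := by
  simp only [gam_eq]
  refine ((((((Real.hasDerivAt_cos θ).mul_const _).smul_const _).fun_add
    (((Real.hasDerivAt_sin θ).mul_const _).smul_const _)).fun_add
    (((Real.hasDerivAt_cos θ).mul_const _).smul_const _)).fun_sub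
    (((Real.hasDerivAt_sin θ).mul_const _).smul_const _)).congr_deriv ?_
  ext i
  fin_cases i <;> simp [mat, lm_apply, mul_add, mul_sub] <;> ring_nf <;> simp

lemma gam_snd (θ t : ℝ) : HasDerivAt (fun t => gam θ t) (gam θ (t + π / 2)) t := by
  simp only [gam_eq, Real.cos_add_pi_div_two, Real.sin_add_pi_div_two]
  exact (((((Real.hasDerivAt_cos t).const_mul _).smul_const _).fun_add
    (((Real.hasDerivAt_cos t).const_mul _).smul_const _)).fun_add
    (((Real.hasDerivAt_sin t).const_mul _).smul_const _)).fun_sub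
    (((Real.hasDerivAt_sin t).const_mul _).smul_const _)

lemma green {α : Form 1} (hα : IsForm α) {κ : ℝ} (h : ∀ θ t, bilL (extDeriv α (gam θ t))
    (mat I 0 (gam θ t)) (gam θ (t + π / 2)) = κ * (Real.sin t * Real.cos t)) : κ = 0 := by
  have hd : ∀ θ t, DifferentiableAt ℝ α (gam θ t) := fun θ t =>
    (hα.smooth.contDiffAt (isOpen_compl_singleton.mem_nhds (gam_ne θ t))).differentiableAt (by simp)
  have hG : Differentiable ℝ fun q : ℝ × ℝ => gam q.1 q.2 := by
    simp only [gam_eq]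
    fun_prop
  have h0 : Differentiable ℝ fun q : ℝ × ℝ => linL (α (gam q.1 q.2)) := fun q =>
    linL.differentiableAt.comp q ((hd _ _).comp q (hG q))
  have hf : Differentiable ℝ fun q : ℝ × ℝ => linL (α (gam q.1 q.2)) (gam q.1 (q.2 + π / 2)) :=
    h0.clm_apply (hG.comp (f := fun q : ℝ × ℝ => (q.1, q.2 + π / 2)) (by fun_prop))
  have hg : Differentiable ℝ fun q : ℝ × ℝ => -linL (α (gam q.1 q.2)) (mat I 0 (gam q.1 q.2)) :=
    (h0.clm_apply ((mat I 0).differentiable.comp hG)).neg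
  have hdiv : ∀ q : ℝ × ℝ,
      fderiv ℝ (fun q : ℝ × ℝ => linL (α (gam q.1 q.2)) (gam q.1 (q.2 + π / 2))) q (1, 0) +
      fderiv ℝ (fun q : ℝ × ℝ => -linL (α (gam q.1 q.2)) (mat I 0 (gam q.1 q.2))) q (0, 1) =
        κ * (Real.sin q.2 * Real.cos q.2) := by
    rintro ⟨θ, t⟩
    have h1 := ((hf (θ, t)).hasFDerivAt.comp_hasDerivAt θ
      ((hasDerivAt_id' θ).prodMk (hasDerivAt_const θ t))).unique
      (hasDerivAt_lin (z := fun θ => gam θ t) (hd θ t) (gam_fst θ t) (gam_fst θ (t + π / 2)))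
    have h2 := ((hg (θ, t)).hasFDerivAt.comp_hasDerivAt t
      ((hasDerivAt_const t θ).prodMk (hasDerivAt_id' t))).unique
      (hasDerivAt_lin (hd θ t) (gam_snd θ t) (clm_hasDerivAt (mat I 0) (gam_snd θ t))).neg
    rw [h1, h2, ← h θ t, bilL_extDeriv]
    ring
  have hz : ∀ z (c : ℂ), linL (α z) (c • z) = 0 := fun z c => by
    rw [linL_apply]
    exact hα.horiz z _ 0 c rfl
  have key := MeasureTheory.integral2_divergence_prod_of_hasFDerivAt _ _ _ _ 0 0 (2 * π) (π / 2)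
    hf.continuous.continuousOn hg.continuous.continuousOn (fun q _ => (hf q).hasFDerivAt)
    (fun q _ => (hg q).hasFDerivAt) (by
      simp only [hdiv]
      exact ContinuousOn.integrableOn_compact (isCompact_uIcc.prod isCompact_uIcc) (by fun_prop))
  have e1 : ∀ θ, mat I 0 (gam θ (π / 2)) = (-I) • gam θ (π / 2) := fun θ => by
    ext i
    fin_cases i <;> simp [gam, mat, lm_apply]
  have e2 : ∀ θ, mat I 0 (gam θ 0) = I • gam θ 0 := fun θ => by
    ext i
    fin_cases i <;> simp [gam, mat, lm_apply]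
  have e3 : gam (2 * π) = gam 0 := by
    ext t
    simp [gam_eq]
  simp only [hdiv, e1, e2, e3, hz, intervalIntegral.integral_const_mul, integral_sin_mul_cos₁] at key
  simpa using key

lemma hh_theta {s : ℝ} (hs : s ∈ Icc (0 : ℝ) 1) (i : Fin 3) :
    s * hh (dd theta) s i = s * ![0, 0, 2] i := by
  rw [inv_theta.mul_hh_dd hs ((contDiffOn_theta.contDiffAt
    (isOpen_compl_singleton.mem_nhds (sl_ne hs))).differentiableAt (by simp)), linL_theta, nn_sl hs]
  fin_cases i <;> simp [her, Fin.sum_univ_three, mat, lm_apply, sl, pt, Real.mul_self_sqrt hs.1,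
    mul_comm]

lemma Symp.good {l : ℝ} (σ : Symp l) (h : Invariant SU2 σ.form) : Good σ.form :=
  ⟨fun _ hz => (σ.isForm.smooth.contDiffAt (isOpen_compl_singleton.mem_nhds hz)).differentiableAt
    (by simp), σ.closed, inv_iff.2 ⟨σ.isForm.scale, h⟩, fun z c u => by
      rw [bilL_apply]
      exact σ.isForm.horiz z _ 0 c rfl⟩

lemma Symp.hh_one {l : ℝ} (σ : Symp l) (h : Invariant SU2 σ.form) :
    hh σ.form 1 = !₂[0, 0, 2 * l] := by
  obtain ⟨α, hα, h1⟩ := σ.cls
  have h2 : hh (dd theta) 1 2 = 2 := by simpa using hh_theta ⟨zero_le_one, le_rfl⟩ 2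
  have h3 : 2 * hh σ.form 1 2 - l * 4 = 0 := green hα fun θ t => by
    have h4 := (σ.good h).line (norm_exp_ofReal_mul_I θ) (Real.cos_sq_add_sin_sq t)
    have h5 := good_theta.line (norm_exp_ofReal_mul_I θ) (Real.cos_sq_add_sin_sq t)
    rw [← Real.cos_add_pi_div_two t] at h4 h5
    conv_lhs at h4 => arg 2; rw [← Real.sin_add_pi_div_two t]
    conv_lhs at h5 => arg 2; rw [← Real.sin_add_pi_div_two t]
    change bilL (σ.form (gam θ t)) (mat I 0 (gam θ t)) (gam θ (t + π / 2)) = _ at h4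
    change bilL (dd theta (gam θ t)) (mat I 0 (gam θ t)) (gam θ (t + π / 2)) = _ at h5
    rw [h1 _ (gam_ne θ t), ← dd_of_ne _ (gam_ne θ t)] at h4
    simp only [map_add, map_smul, add_apply, smul_apply, smul_eq_mul, h5, h2] at h4
    linarith
  rw [(σ.good h).hh_eq ⟨zero_le_one, le_rfl⟩] at h3 ⊢
  ext i
  fin_cases i <;> simp at h3 ⊢
  linarith

end Pool.Agent.MP_2fc7fa_gt

end

section

/-! Reconstruction of an invariant symplectic form from its curve. -/

open Set Filter Topology Complex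
open scoped ContDiff ComplexConjugate Matrix InnerProductSpace

namespace Pool.Agent.MP_2fc7fa_gt

/-- An equivariant horizontal vector field. -/
noncomputable def yy (g : E3) (z : V) : V :=
  ![-g 2 * (z 1 * conj (z 1) + z 2 * conj (z 2)) * z 0,
    g 2 * (z 0 * conj (z 0)) * z 1 - (g 1 - I * g 0) * z 0 ^ 2 * conj (z 2),
    g 2 * (z 0 * conj (z 0)) * z 2 + (g 1 - I * g 0) * z 0 ^ 2 * conj (z 1)]

/-- The orbit parameter. -/
noncomputable def sq (z : V) : ℝ := 1 - (nn z)⁻¹ * ‖z 0‖ ^ 2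

/-- The invariant one-form with coefficients `g`. -/
noncomputable def al (g : ℝ → E3) : Form 1 := fun z => cov ((nn z)⁻¹ ^ 2 • yy (g (sq z)) z)

lemma contDiff_yy : ContDiff ℝ ∞ fun q : E3 × V => yy q.1 q.2 := by
  have h1 : ∀ i, ContDiff ℝ ∞ fun q : E3 × V => (q.1 i : ℂ) := fun i =>
    Complex.ofRealCLM.contDiff.comp ((EuclideanSpace.proj i : E3 →L[ℝ] ℝ).contDiff.comp contDiff_fst)
  have h2 : ∀ i, ContDiff ℝ ∞ fun q : E3 × V => q.2 i := fun i =>
    (contDiff_apply ℝ ℂ i).comp contDiff_snd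
  have h3 : ∀ i, ContDiff ℝ ∞ fun q : E3 × V => conj (q.2 i) := fun i =>
    Complex.conjCLE.contDiff.comp (h2 i)
  have h4 := ((h1 1).sub (contDiff_const (c := I).mul (h1 0))).mul ((h2 0).pow 2)
  have h5 := (h1 2).mul ((h2 0).mul (h3 0))
  refine contDiff_pi.2 fun i => ?_
  fin_cases i
  · exact ((h1 2).neg.mul (((h2 1).mul (h3 1)).add ((h2 2).mul (h3 2)))).mul (h2 0)
  · exact (h5.mul (h2 1)).sub (h4.mul (h3 2))
  · exact (h5.mul (h2 2)).add (h4.mul (h3 1))

lemma yy_act {c a b : ℂ} (hab : ‖a‖ ^ 2 + ‖b‖ ^ 2 = 1) (g : E3) (z : V) :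
    yy g (act c a b z) = ‖c‖ ^ 2 • act c a b (yy g z) := by
  have h3 : a * conj a + b * conj b = 1 := by
    rw [Complex.mul_conj', Complex.mul_conj']
    exact_mod_cast hab
  ext i
  fin_cases i <;> simp [yy, act, lm_apply, ← Complex.mul_conj']
  · linear_combination g 2 * c ^ 2 * conj c * z 0 * (z 1 * conj (z 1) + z 2 * conj (z 2)) * h3
  · ring
  · ring

lemma her_yy (g : E3) (z : V) : her (yy g z) z = 0 := by
  simp [her, yy, Fin.sum_univ_three]
  ring

lemma sq_act {c a b : ℂ} (hc : c ≠ 0) (hab : ‖a‖ ^ 2 + ‖b‖ ^ 2 = 1) (z : V) :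
    sq (act c a b z) = sq z := by
  have h : ‖c‖ ≠ 0 := by simpa using hc
  rw [sq, sq, nn_act hab]
  change 1 - _ * ‖c * z 0‖ ^ 2 = _
  rw [norm_mul]
  field_simp

lemma sq_mem {z : V} (hz : z ≠ 0) : sq z ∈ Icc (0 : ℝ) 1 := by
  have h := nn_pos hz
  refine ⟨sub_nonneg.2 ((inv_mul_le_one₀ h).2 ?_), sub_le_self _ (by positivity)⟩
  exact Finset.single_le_sum (f := fun j => ‖z j‖ ^ 2) (fun _ _ => sq_nonneg _) (Finset.mem_univ 0)

lemma sq_sl' {s : ℝ} (hs : s ∈ Icc (0 : ℝ) 1) : sq (sl s) = s := by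
  rw [sq, nn_sl hs]
  simp [sl, pt, Real.sq_sqrt (sub_nonneg.2 hs.2)]

lemma inv_al (g : ℝ → E3) : Inv (al g) :=
  inv_cov (Y := fun z => (nn z)⁻¹ ^ 2 • yy (g (sq z)) z) fun c a b hc hab z => by
    have h : ‖c‖ ≠ 0 := by simpa using hc
    rw [nn_act hab, sq_act hc hab, yy_act hab, map_smul, smul_smul, smul_smul]
    congr 1
    field_simp

lemma linL_al (g : ℝ → E3) (z u : V) :
    linL (al g z) u = (nn z)⁻¹ ^ 2 * (her (yy (g (sq z)) z) u).im := by
  rw [al, linL_cov, ← Complex.coe_smul, her_smul, conj_ofReal, im_ofReal_mul]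

lemma al_horiz (g : ℝ → E3) (z : V) (c : ℂ) : linL (al g z) (c • z) = 0 := by
  simp [linL_al, her_smul', her_yy]

lemma al_sl (g : ℝ → E3) {s : ℝ} (hs : s ∈ Icc (0 : ℝ) 1) (i : Fin 3) :
    linL (al g (sl s)) (![mat 0 1 (sl s), mat 0 I (sl s), mat I 0 (sl s)] i) =
      s * (1 - s) * g s i := by
  rw [linL_al, nn_sl hs, sq_sl' hs]
  have h1 := Real.mul_self_sqrt hs.1
  have h2 := Real.mul_self_sqrt (sub_nonneg.2 hs.2)
  fin_cases i <;> simp [her, yy, Fin.sum_univ_three, mat, lm_apply, sl, pt, pow_two] <;> rw [h2]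
  · linear_combination (1 - s) * g s 0 * h1
  · linear_combination (1 - s) * g s 1 * h1
  · linear_combination (1 - s) * g s 2 * h1

variable {P : Type} [TopologicalSpace P]

lemma sm_al {g : P → ℝ → E3} (hg : Sm (Icc 0 1) g) : Sm {0}ᶜ fun p => al (g p) := by
  have hU : UniqueDiffOn ℝ ({0}ᶜ : Set V) := isOpen_compl_singleton.uniqueDiffOn
  have h1 : Sm {0}ᶜ fun p z => g p (sq z) := hg.comp (sm_of_contDiffOn hU (contDiffOn_const.sub
    (contDiffOn_inv_nn.mul (contDiff_sq 0).contDiffOn))) fun _ _ hz => sq_mem hz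
  exact ((sm_of_contDiffOn hU (contDiffOn_inv_nn.pow 2)).smul
    ((h1.prod sm_id).post' contDiff_yy)).post' contDiff_cov

lemma isForm_al {g : ℝ → E3} (hg : ContDiffOn ℝ ∞ (al g) {0}ᶜ) : IsForm (al g) := by
  refine ⟨hg, fun c hc z v => ?_, fun z v i c h => ?_, ?_⟩
  · rw [eq_linL, eq_linL, ← (inv_al g).lin (a := 1) (b := 0) hc (by simp) z, act_one, act_one]
    rfl
  · rw [eq_linL, ← al_horiz g z c, ← h, Subsingleton.elim i 0]
  · ext v
    simp [eq_linL, linL_al, nn]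

lemma build {l : ℝ} {H : P → ℝ → E3} (hH : Sm (Icc 0 1) H) (h1 : ∀ p, H p 1 = !₂[0, 0, 2 * l])
    (hQ : ∀ p, ∀ s ∈ Icc (0 : ℝ) 1, ⟪H p s, H p s + s • derivWithin (H p) (Icc 0 1) s⟫_ℝ ≠ 0) :
    ∃ Φ : P → {σ : Symp l // Invariant SU2 σ.form}, Continuous Φ ∧
      ∀ p, EqOn (hh (Φ p).1.form) (H p) (Icc 0 1) := by
  have hU : IsOpen ({0}ᶜ : Set V) := isOpen_compl_singleton
  obtain ⟨G, hG, hGe⟩ := hH.hadamard (convex_Icc 0 1) (uniqueDiffOn_Icc one_pos)
    ⟨zero_le_one, le_rfl⟩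
  have a1 := sm_al ((sm_const (c := fun _ => (-1 / 2 : ℝ)) continuous_const).smul hG)
  set α : P → Form 1 := fun p => al fun s => (-1 / 2 : ℝ) • G p s with hα
  have a2 : Sm {0}ᶜ fun p z => l • theta z + α p z :=
    ((sm_const continuous_const).smul (sm_of_contDiffOn hU.uniqueDiffOn contDiffOn_theta)).add a1
  have a3 : ∀ p, Inv fun z => l • theta z + α p z := fun p c a b hc hab z => by
    ext v
    simp only [ContinuousAlternatingMap.compContinuousLinearMap_apply, eq_linL, map_add, map_smul,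
      add_apply, smul_apply, Function.comp_apply, inv_theta.lin hc hab, hα, (inv_al _).lin hc hab]
  have a4 : ∀ p, Good (dd fun z => l • theta z + α p z) := fun p =>
    good_dd (a2.contDiffOn hU.uniqueDiffOn p) (a3 p) fun c => ⟨l * c.im, fun z hz => by
      simp only [map_add, map_smul, add_apply, smul_apply, theta_horiz c hz, hα, al_horiz, add_zero,
        smul_eq_mul]⟩
  have a5 := sm_dd a2
  have a6 : ∀ p z, z ≠ 0 → DifferentiableAt ℝ (α p) z := fun p z hz =>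
    ((a1.contDiffOn hU.uniqueDiffOn p).contDiffAt (hU.mem_nhds hz)).differentiableAt (by simp)
  have a7 : ∀ z, z ≠ 0 → DifferentiableAt ℝ theta z := fun z hz =>
    (contDiffOn_theta.contDiffAt (hU.mem_nhds hz)).differentiableAt (by simp)
  have a8 : ∀ p, EqOn (hh (dd fun z => l • theta z + α p z)) (H p) (Icc 0 1) := fun p => by
    refine EqOn.of_subset_closure (s := Ioo 0 1) (fun s hs => ?_)
      ((sm_hh a5 fun p => (a4 p).inv).jc.at p) (hH.jc.at p) Ioo_subset_Icc_self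
      (closure_Ioo zero_ne_one).ge
    have hs' := Ioo_subset_Icc_self hs
    ext i
    have b1 := (a3 p).mul_hh_dd hs' (((a7 _ (sl_ne hs')).const_smul l).add (a6 p _ (sl_ne hs'))) i
    have b2 := (inv_theta.mul_hh_dd hs' (a7 _ (sl_ne hs')) i).symm.trans (hh_theta hs' i)
    simp only [map_add, map_smul, add_apply, smul_apply, hα, al_sl _ hs', smul_eq_mul,
      PiLp.smul_apply] at b1
    refine mul_left_cancel₀ hs.1.ne' ?_
    rw [b1, hGe p s hs', h1]
    have b3 : (!₂[0, 0, 2 * l] : E3) i = l * ![0, 0, 2] i := by fin_cases i <;> simp [mul_comm]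
    rw [PiLp.add_apply, b3, PiLp.smul_apply, smul_eq_mul]
    linear_combination l * b2
  refine ⟨fun p => ⟨⟨dd fun z => l • theta z + α p z, ⟨a5.contDiffOn hU.uniqueDiffOn p,
    (inv_iff.1 (a4 p).inv).1, fun z v i c h => ?_, if_pos rfl⟩, (a4 p).closed, ?_, α p,
    isForm_al (a1.contDiffOn hU.uniqueDiffOn p), fun z hz => ?_⟩, (inv_iff.1 (a4 p).inv).2⟩,
    ?_, a8⟩
  · rw [eq_bilL]
    fin_cases i
    · exact (congrArg (bilL _ · _) h).trans ((a4 p).horiz z c _)
    · rw [bilL_skew, neg_eq_zero]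
      exact (congrArg (bilL _ · _) h).trans ((a4 p).horiz z c _)
  · refine ((a4 p).nondeg (h' := derivWithin (H p) (Icc 0 1)) (fun s hs =>
      (hH.hasDerivWithinAt p hs).congr (a8 p) (a8 p hs))
      ((hH.derivWithin (uniqueDiffOn_Icc one_pos)).jc.at p)).2 fun s hs => ?_
    rw [a8 p hs]
    exact hQ p s hs
  · rw [dd_of_ne _ hz, ← extDeriv_smul, ← extDeriv_add ((a7 z hz).const_smul l) (a6 p z hz)]
    rfl
  · refine Continuous.subtype_mk (continuous_iInf_rng.2 fun n => continuous_induced_rng.2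
      (ContinuousMap.continuous_of_continuous_uncurry _ ?_)) _
    exact ContinuousOn.comp_continuous (f := fun q : P × ({0}ᶜ : Set V) => (q.1, q.2.1))
      (((sm_iff_iter hU).1 a5).2 n) (by fun_prop) fun q => ⟨mem_univ _, q.2.2⟩

end Pool.Agent.MP_2fc7fa_gt

end

section

/-! Contraction of the space of curves. -/

open Set Filter Topology
open scoped ContDiff InnerProductSpace

namespace Pool.Agent.MP_2fc7fa_gt

lemma inner_deriv {F : ℝ → E3} {μ : ℝ → ℝ} {F' : E3} {μ' s : ℝ} (hs : s ∈ Icc (0 : ℝ) 1)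
    (hF : HasDerivWithinAt F F' (Icc 0 1) s) (hμ : HasDerivWithinAt μ μ' (Icc 0 1) s)
    (e : ∀ t ∈ Icc (0 : ℝ) 1, ‖F t‖ = μ t) : ⟪F s, F s + s • F'⟫_ℝ = μ s * (μ s + s * μ') := by
  have h1 := (uniqueDiffOn_Icc one_pos s hs).eq_deriv _ hF.norm_sq
    ((hμ.fun_pow 2).congr (fun t ht => by rw [e t ht]) (by rw [e s hs]))
  rw [inner_add_right, inner_smul_right, real_inner_self_eq_norm_sq, e s hs]
  simp only [Nat.cast_ofNat, Nat.add_one_sub_one, pow_one] at h1
  linear_combination s / 2 * h1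

variable {P : Type} [TopologicalSpace P]

lemma contract {h : P → ℝ → E3} {c : E3} (hc : c ≠ 0) (hh : Sm (Icc 0 1) h) (h1 : ∀ p, h p 1 = c)
    (hQ : ∀ p, ∀ s ∈ Icc (0 : ℝ) 1, ⟪h p s, h p s + s • derivWithin (h p) (Icc 0 1) s⟫_ℝ ≠ 0) :
    ∃ H : unitInterval × P → ℝ → E3, Sm (Icc 0 1) H ∧ (∀ q, H q 1 = c) ∧
      (∀ q, ∀ s ∈ Icc (0 : ℝ) 1, ⟪H q s, H q s + s • derivWithin (H q) (Icc 0 1) s⟫_ℝ ≠ 0) ∧
      (∀ p, ∀ s ∈ Icc (0 : ℝ) 1, H (0, p) s = h p s) ∧ ∀ p s, H (1, p) s = c := by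
  have hU := uniqueDiffOn_Icc (one_pos (α := ℝ))
  have h0 : ∀ p, ∀ s ∈ Icc (0 : ℝ) 1, h p s ≠ 0 := fun p s hs e => hQ p s hs (by simp [e])
  have h0' : ∀ p, ∀ s ∈ Icc (0 : ℝ) 1, 0 < ‖h p s‖ := fun p s hs => norm_pos_iff.2 (h0 p s hs)
  have hc' : 0 < ‖c‖ := norm_pos_iff.2 hc
  have hν : Sm (Icc 0 1) fun p s => ‖h p s‖ :=
    hh.post isOpen_compl_singleton (contDiffOn_id.norm ℝ fun _ hx => hx) h0
  have hu : Sm (Icc 0 1) fun p s => ‖h p s‖⁻¹ • h p s :=
    (hν.post isOpen_compl_singleton (contDiffOn_id.inv fun _ hx => hx)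
      fun p s hs => (h0' p s hs).ne').smul hh
  have hpos : ∀ p, ∀ s ∈ Icc (0 : ℝ) 1,
      0 < ‖h p s‖ + s * derivWithin (fun s => ‖h p s‖) (Icc 0 1) s := fun p s hs => by
    by_contra hn
    have c1 : ContinuousOn (fun s => ‖h p s‖ + s * derivWithin (fun s => ‖h p s‖) (Icc 0 1) s)
        (Icc 0 s) := ((hν.jc.at p).add (continuousOn_id.mul ((hν.derivWithin hU).jc.at p))).mono
      (Icc_subset_Icc_right hs.2)
    obtain ⟨t, ht, e⟩ := intermediate_value_Icc' hs.1 c1 ⟨not_lt.1 hn, by simp⟩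
    have ht' := Icc_subset_Icc_right hs.2 ht
    refine hQ p t ht' ?_
    rw [inner_deriv ht' (hh.hasDerivWithinAt p ht') (hν.hasDerivWithinAt p ht') fun _ _ => rfl]
    exact mul_eq_zero_of_right _ e
  have hm : ∀ τ : unitInterval, ∀ s ∈ Icc (0 : ℝ) 1, τ + (1 - τ) * s ∈ Icc (0 : ℝ) 1 := fun τ s hs => by
    have := τ.2.1
    have := τ.2.2
    constructor <;> nlinarith [hs.1, hs.2]
  have hτ : ∀ (τ : unitInterval) (x : ℝ), 0 < x → 0 < (1 - τ) * x + τ * ‖c‖ := fun τ x hx => by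
    rcases eq_or_lt_of_le τ.2.1 with e | e
    · simpa [← e] using hx
    · exact add_pos_of_nonneg_of_pos (mul_nonneg (sub_nonneg.2 τ.2.2) hx.le) (mul_pos e hc')
  have hH : Sm (Icc 0 1) fun (q : unitInterval × P) s => ((1 - q.1) * ‖h q.2 s‖ + q.1 * ‖c‖) •
      ‖h q.2 (q.1 + (1 - q.1) * s)‖⁻¹ • h q.2 (q.1 + (1 - q.1) * s) :=
    (((sm_const (by fun_prop)).smul (hν.param continuous_snd)).add (sm_const (by fun_prop))).smul
      ((hu.param continuous_snd).comp ((sm_const (by fun_prop)).add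
        ((sm_const (by fun_prop)).smul sm_id)) fun q => hm q.1)
  refine ⟨_, hH, fun q => ?_, fun q s hs => ?_, fun p s hs => ?_, fun p s => ?_⟩
  · simp only [mul_one, add_sub_cancel, h1, smul_smul]
    rw [show ((1 - q.1) * ‖c‖ + q.1 * ‖c‖) * ‖c‖⁻¹ = 1 by field_simp; ring, one_smul]
  · rw [inner_deriv hs (hH.hasDerivWithinAt q hs)
      (((hν.hasDerivWithinAt q.2 hs).const_mul (1 - q.1 : ℝ)).add_const (q.1 * ‖c‖)) fun t ht => by
        rw [norm_smul, norm_smul, norm_inv, norm_norm, inv_mul_cancel₀ (h0' _ _ (hm _ t ht)).ne',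
          mul_one, Real.norm_of_nonneg (hτ _ _ (h0' _ t ht)).le]]
    refine mul_ne_zero (hτ _ _ (h0' _ s hs)).ne' (ne_of_gt ?_)
    have := hτ q.1 _ (hpos q.2 s hs)
    linarith
  · simp [smul_smul, (h0' p s hs).ne']
  · simp [smul_smul, h1, hc'.ne']

theorem contractible (l : ℝ) (hl : l ≠ 0) :
    ContractibleSpace {σ : Symp l // Invariant SU2 σ.form} := by
  have hU : IsOpen ({0}ᶜ : Set V) := isOpen_compl_singleton
  have hc : (!₂[0, 0, 2 * l] : E3) ≠ 0 := fun e => hl (by simpa using congrArg (fun x : E3 => x 2) e)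
  have h1 : Sm {0}ᶜ fun σ : {σ : Symp l // Invariant SU2 σ.form} => σ.1.form := by
    have := hU.locallyCompactSpace
    refine (sm_iff_iter hU).2 ⟨fun σ => σ.1.isForm.smooth, fun m => ?_⟩
    rw [JC, continuousOn_iff_continuous_domRestrict]
    have h2 : Continuous fun σ : Symp l => σ.jet m :=
      continuous_iInf_dom (i := m) continuous_induced_dom
    exact continuous_eval.comp (f := fun q : (univ ×ˢ {0}ᶜ : Set ({σ : Symp l //
      Invariant SU2 σ.form} × V)) => (q.1.1.1.jet m, (⟨q.1.2, q.2.2⟩ : ({0}ᶜ : Set V))))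
      (by fun_prop)
  have h2 := sm_hh h1 fun σ => (σ.1.good σ.2).inv
  obtain ⟨H, a1, a2, a3, a4, a5⟩ := contract hc h2 (fun σ => σ.1.hh_one σ.2) fun σ =>
    ((σ.1.good σ.2).nondeg (fun s hs => h2.hasDerivWithinAt σ hs)
      ((h2.derivWithin (uniqueDiffOn_Icc one_pos)).jc.at σ)).1 σ.1.nondeg
  obtain ⟨Φ, b1, b2⟩ := build a1 a2 a3
  obtain ⟨Ψ, -, b3⟩ := build (P := Unit) (l := l) (sm_const continuous_const) (fun _ => rfl)
    fun _ s _ => by simpa using hc
  have key : ∀ σ σ' : {σ : Symp l // Invariant SU2 σ.form},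
      EqOn (hh σ.1.form) (hh σ'.1.form) (Icc 0 1) → σ = σ' := by
    rintro ⟨⟨σ, c1, c2, c3, c4⟩, c5⟩ ⟨⟨σ', d1, d2, d3, d4⟩, d5⟩ e
    obtain rfl : σ = σ' := funext fun z => by
      rcases eq_or_ne z 0 with rfl | hz
      · exact c1.zero.trans d1.zero.symm
      · exact (Symp.good ⟨σ, c1, c2, c3, c4⟩ c5).unique (Symp.good ⟨σ', d1, d2, d3, d4⟩ d5)
          (e.mono Ioo_subset_Icc_self) hz
    rfl
  exact (contractible_iff_id_nullhomotopic _).2 ⟨Ψ (), ⟨⟨⟨Φ, b1⟩,
    fun σ => key _ _ fun s hs => (b2 _ hs).trans (a4 σ s hs),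
    fun σ => key _ _ fun s hs => (b2 _ hs).trans ((a5 σ s).trans (b3 () hs).symm)⟩⟩⟩

end Pool.Agent.MP_2fc7fa_gt

end
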