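import Pool.Agent.Mg.F2fc7fa.G9cb2cd
import Pool.Agent.Mg.F2fc7fa.G86da98

section

/-! Sup norm and Hoelder bounds of the Cauchy transform of a bounded function. -/

open scoped Topology
open Set Complex Filter Metric MeasureTheory

noncomputable section

namespace Pool.Agent.MP_2fc7fa_gt.N

/-- The truncated power kernel. -/
def ker_T1 (s : ℝ) (w : ℂ) : ℝ := (ball (0 : ℂ) 1).indicator (fun w => ‖w‖ ^ (-s)) w

theorem ker_nonneg_T1 (s : ℝ) (w : ℂ) : 0 ≤ ker_T1 s w :=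
  indicator_nonneg (fun w _ => Real.rpow_nonneg (norm_nonneg w) _) w

theorem ker_int_T1 {s : ℝ} (hs : s < 2) : Integrable (ker_T1 s) := by
  unfold ker_T1
  rw [integrable_indicator_iff measurableSet_ball]
  refine integrableOn_ball_of_norm_le_rpow (C := 1) (α := s) ?_ ?_ ?_ ?_
  · rw [Complex.finrank_real_complex]; norm_num
  · rw [Complex.finrank_real_complex]; exact_mod_cast hs
  · refine Eventually.of_forall fun w => ?_
    rw [Real.norm_eq_abs, abs_of_nonneg (Real.rpow_nonneg (norm_nonneg w) _), one_mul]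
  · exact (measurable_norm.pow_const _).aestronglyMeasurable

theorem scal_T1 {f : ℂ → ℝ} (hf : Integrable f) (z : ℂ) {R : ℝ} (hR : 0 < R) :
    Integrable (fun ζ => f (R⁻¹ • (z - ζ))) ∧ ∫ ζ, f (R⁻¹ • (z - ζ)) = R ^ 2 * ∫ w, f w := by
  refine ⟨(hf.comp_smul (inv_ne_zero hR.ne')).comp_sub_left z, ?_⟩
  rw [integral_sub_left_eq_self (fun w => f (R⁻¹ • w)) volume z,
    Measure.integral_comp_inv_smul_of_nonneg volume f hR.le, Complex.finrank_real_complex,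
    smul_eq_mul]

theorem maj_T1 {s : ℝ} (h0 : 0 ≤ s) (hs : s < 2) : ∃ A : ℝ, 0 ≤ A ∧ ∀ (z c : ℂ) (R : ℝ), 0 < R →
    ∃ g : ℂ → ℝ, Integrable g ∧ (∀ ζ, 0 ≤ g ζ) ∧
      (∀ ζ, ‖ζ - c‖ < R → ‖z - ζ‖ ^ (-s) ≤ g ζ) ∧ ∫ ζ, g ζ = A * R ^ (2 - s) := by
  refine ⟨(∫ w, ker_T1 s w) + ∫ w, ker_T1 0 w,
    add_nonneg (integral_nonneg (ker_nonneg_T1 s)) (integral_nonneg (ker_nonneg_T1 0)), ?_⟩
  intro z c R hR
  obtain ⟨i1, e1⟩ := scal_T1 (ker_int_T1 hs) z hR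
  obtain ⟨i2, e2⟩ := scal_T1 (ker_int_T1 (s := 0) (by norm_num)) c hR
  have hRs : 0 < R ^ (-s) := Real.rpow_pos_of_pos hR _
  refine ⟨fun ζ => R ^ (-s) * (ker_T1 s (R⁻¹ • (z - ζ)) + ker_T1 0 (R⁻¹ • (c - ζ))),
    (i1.add i2).const_mul _,
    fun ζ => mul_nonneg hRs.le (add_nonneg (ker_nonneg_T1 _ _) (ker_nonneg_T1 _ _)), ?_, ?_⟩
  · intro ζ hζ
    have hn : ∀ a : ℂ, ‖R⁻¹ • a‖ = R⁻¹ * ‖a‖ := fun a => by
      rw [norm_smul, Real.norm_eq_abs, abs_of_pos (inv_pos.2 hR)]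
    have hk0 : ker_T1 0 (R⁻¹ • (c - ζ)) = 1 := by
      unfold ker_T1
      rw [indicator_of_mem, neg_zero, Real.rpow_zero]
      rw [mem_ball_zero_iff, hn, norm_sub_rev, inv_mul_lt_iff₀ hR, mul_one]
      exact hζ
    beta_reduce
    rw [hk0]
    by_cases hz : ‖z - ζ‖ < R
    · have hk : ker_T1 s (R⁻¹ • (z - ζ)) = (R⁻¹ * ‖z - ζ‖) ^ (-s) := by
        unfold ker_T1
        rw [indicator_of_mem, hn]
        rw [mem_ball_zero_iff, hn, inv_mul_lt_iff₀ hR, mul_one]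
        exact hz
      have : R ^ (-s) * (R⁻¹ * ‖z - ζ‖) ^ (-s) = ‖z - ζ‖ ^ (-s) := by
        rw [← Real.mul_rpow hR.le (mul_nonneg (inv_pos.2 hR).le (norm_nonneg _)),
          mul_inv_cancel_left₀ hR.ne']
      rw [hk, mul_add, this]
      linarith
    · have h1 : ‖z - ζ‖ ^ (-s) ≤ R ^ (-s) :=
        Real.rpow_le_rpow_of_nonpos hR (not_lt.1 hz) (neg_nonpos.2 h0)
      have h2 := mul_nonneg hRs.le (ker_nonneg_T1 s (R⁻¹ • (z - ζ)))
      rw [mul_add]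
      linarith
  · rw [integral_const_mul, integral_add i1 i2, e1, e2, sub_eq_add_neg, Real.rpow_add hR,
      Real.rpow_two]
    ring

theorem inv_sub_T1 {a b : ℂ} (ha : a ≠ 0) (hb : b ≠ 0) :
    ‖a⁻¹ - b⁻¹‖ ≤ √‖a - b‖ * (‖a‖ ^ (-(3 / 2 : ℝ)) + ‖b‖ ^ (-(3 / 2 : ℝ))) := by
  have hp : ∀ x : ℝ, 0 < x → x ^ (-(3 / 2 : ℝ)) = (√x)⁻¹ ^ 3 := by
    intro x hx
    rw [Real.sqrt_eq_rpow, ← Real.rpow_neg hx.le, ← Real.rpow_natCast, ← Real.rpow_mul hx.le]
    norm_num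
  have hx : 0 < ‖a‖ := norm_pos_iff.2 ha
  have hy : 0 < ‖b‖ := norm_pos_iff.2 hb
  have e : ‖a⁻¹ - b⁻¹‖ = ‖a - b‖ * (‖a‖⁻¹ * ‖b‖⁻¹) := by
    rw [inv_sub_inv ha hb, norm_div, norm_mul, norm_sub_rev, div_eq_mul_inv, mul_inv]
  have hd : ‖a - b‖ ≤ ‖a‖ + ‖b‖ := norm_sub_le a b
  rw [e, hp _ hx, hp _ hy]
  obtain ⟨u, hu, hu2⟩ : ∃ u : ℝ, 0 < u ∧ ‖a‖ = u ^ 2 :=
    ⟨√‖a‖, Real.sqrt_pos.2 hx, (Real.sq_sqrt hx.le).symm⟩
  obtain ⟨v, hv, hv2⟩ : ∃ v : ℝ, 0 < v ∧ ‖b‖ = v ^ 2 :=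
    ⟨√‖b‖, Real.sqrt_pos.2 hy, (Real.sq_sqrt hy.le).symm⟩
  obtain ⟨d, hd0, hd2⟩ : ∃ d : ℝ, 0 ≤ d ∧ ‖a - b‖ = d ^ 2 :=
    ⟨√‖a - b‖, Real.sqrt_nonneg _, (Real.sq_sqrt (norm_nonneg _)).symm⟩
  rw [hu2, hv2, hd2] at hd
  rw [hu2, hv2, hd2, Real.sqrt_sq hu.le, Real.sqrt_sq hv.le, Real.sqrt_sq hd0]
  have hduv : d ≤ u + v := by
    by_contra hc
    have hc := not_le.1 hc
    nlinarith [mul_pos hu hv]
  obtain ⟨p, hp0, hpu⟩ : ∃ p : ℝ, 0 < p ∧ p * u = 1 := ⟨u⁻¹, inv_pos.2 hu, inv_mul_cancel₀ hu.ne'⟩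
  obtain ⟨q, hq0, hqv⟩ : ∃ q : ℝ, 0 < q ∧ q * v = 1 := ⟨v⁻¹, inv_pos.2 hv, inv_mul_cancel₀ hv.ne'⟩
  have eu : u⁻¹ = p := inv_eq_of_mul_eq_one_left hpu
  have ev : v⁻¹ = q := inv_eq_of_mul_eq_one_left hqv
  rw [← inv_pow, ← inv_pow, eu, ev]
  have h1 : d * (p ^ 2 * q ^ 2) ≤ (u + v) * (p ^ 2 * q ^ 2) :=
    mul_le_mul_of_nonneg_right hduv (by positivity)
  have h2 : (u + v) * (p ^ 2 * q ^ 2) = p * q ^ 2 + p ^ 2 * q := by
    have : (u + v) * (p ^ 2 * q ^ 2) = (p * u) * (p * q ^ 2) + (q * v) * (p ^ 2 * q) := by ring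
    rw [this, hpu, hqv]; ring
  have h3 : p * q ^ 2 + p ^ 2 * q ≤ p ^ 3 + q ^ 3 := by
    nlinarith [mul_nonneg (add_pos hp0 hq0).le (sq_nonneg (p - q))]
  have h4 : d * (p ^ 2 * q ^ 2) ≤ p ^ 3 + q ^ 3 := by linarith
  calc d ^ 2 * (p ^ 2 * q ^ 2) = d * (d * (p ^ 2 * q ^ 2)) := by ring
    _ ≤ d * (p ^ 3 + q ^ 3) := mul_le_mul_of_nonneg_left h4 hd0

theorem pi_inv_T1 (a : ℂ) : ‖(Real.pi : ℂ)⁻¹ * a‖ ≤ ‖a‖ := by
  rw [norm_mul, norm_inv, Complex.norm_real, Real.norm_eq_abs, abs_of_pos Real.pi_pos]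
  refine mul_le_of_le_one_left (norm_nonneg a) (inv_le_one_of_one_le₀ ?_)
  linarith [Real.pi_gt_three]

section
variable {E : Type} [NormedAddCommGroup E] [NormedSpace ℂ E]

theorem bound_T1 {h : ℂ → E} {c : ℂ} {R M : ℝ} (hb : Bdd h c R M) {k : ℂ} {t : ℝ} {ζ : ℂ}
    (ht : 0 ≤ t) (hk : ‖ζ - c‖ < R → ‖k‖ ≤ t) : ‖k • h ζ‖ ≤ t * M := by
  have hM : 0 ≤ M := (norm_nonneg _).trans (hb.2.1 0)
  by_cases hζ : ‖ζ - c‖ < R
  · rw [norm_smul]
    exact mul_le_mul (hk hζ) (hb.2.1 ζ) (norm_nonneg _) ht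
  · rw [hb.2.2 ζ (not_lt.1 hζ), smul_zero, norm_zero]
    exact mul_nonneg ht hM

theorem ker_le_T1 {h : ℂ → E} {c : ℂ} {R M : ℝ} (hb : Bdd h c R M) {z : ℂ} {g : ℂ → ℝ}
    (h0 : ∀ ζ, 0 ≤ g ζ) (hg : ∀ ζ, ‖ζ - c‖ < R → ‖z - ζ‖ ^ (-(1 : ℝ)) ≤ g ζ) (ζ : ℂ) :
    ‖((Real.pi : ℂ) * (z - ζ))⁻¹ • h ζ‖ ≤ g ζ * M := by
  refine bound_T1 hb (h0 ζ) fun hζ => ?_
  rw [mul_inv]
  refine (pi_inv_T1 _).trans ?_
  rw [norm_inv, ← Real.rpow_neg_one]
  exact hg ζ hζ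

theorem cT_int_T1 {h : ℂ → E} {c : ℂ} {R M : ℝ} (hR : 0 < R) (hb : Bdd h c R M) (z : ℂ) :
    Integrable (fun ζ : ℂ => ((Real.pi : ℂ) * (z - ζ))⁻¹ • h ζ) := by
  obtain ⟨A, -, hA⟩ := maj_T1 (s := 1) (by norm_num) (by norm_num)
  obtain ⟨g, gi, g0, gk, -⟩ := hA z c R hR
  refine Integrable.mono' (gi.mul_const M) ?_ (Eventually.of_forall (ker_le_T1 hb g0 gk))
  refine AEStronglyMeasurable.smul ?_ hb.1
  exact ((measurable_const.mul (measurable_const.sub measurable_id)).inv).aestronglyMeasurable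

end

theorem t1 : T1Stmt := by
  obtain ⟨A, hA0, hA⟩ := maj_T1 (s := 1) (by norm_num) (by norm_num)
  obtain ⟨B, hB0, hB⟩ := maj_T1 (s := 3 / 2) (by norm_num) (by norm_num)
  refine ⟨A + 2 * B + 1, by positivity, ?_⟩
  intro E _ _ _ h c R M hR hb
  have hM : 0 ≤ M := (norm_nonneg _).trans (hb.2.1 0)
  refine ⟨fun z => ?_, fun z _ z' _ => ?_⟩
  · obtain ⟨g, gi, g0, gk, ge⟩ := hA z c R hR
    refine (norm_integral_le_of_norm_le (gi.mul_const M)
      (Eventually.of_forall (ker_le_T1 hb g0 gk))).trans ?_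
    rw [integral_mul_const, ge, show (2 : ℝ) - 1 = 1 by norm_num, Real.rpow_one]
    refine mul_le_mul_of_nonneg_right (mul_le_mul_of_nonneg_right ?_ hR.le) hM
    linarith
  · obtain ⟨g, gi, g0, gk, ge⟩ := hB z c R hR
    obtain ⟨g', gi', g0', gk', ge'⟩ := hB z' c R hR
    have hs : R ^ ((2 : ℝ) - 3 / 2) = √R := by
      rw [Real.sqrt_eq_rpow]; norm_num
    unfold cT
    rw [← integral_sub (cT_int_T1 hR hb z) (cT_int_T1 hR hb z')]
    have hae : ∀ᵐ ζ : ℂ, ζ ≠ z ∧ ζ ≠ z' :=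
      (Measure.ae_ne volume z).and (Measure.ae_ne volume z')
    refine (norm_integral_le_of_norm_le
      (g := fun ζ => (√‖z - z'‖ * (g ζ + g' ζ)) * M)
      (((gi.add gi').const_mul _).mul_const M) ?_).trans ?_
    · filter_upwards [hae] with ζ hζ
      rw [← sub_smul]
      refine bound_T1 hb (mul_nonneg (Real.sqrt_nonneg _) (add_nonneg (g0 ζ) (g0' ζ)))
        fun hc => ?_
      rw [mul_inv, mul_inv, ← mul_sub]
      refine (pi_inv_T1 _).trans ?_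
      refine (inv_sub_T1 (sub_ne_zero.2 hζ.1.symm) (sub_ne_zero.2 hζ.2.symm)).trans ?_
      rw [sub_sub_sub_cancel_right]
      exact mul_le_mul_of_nonneg_left (add_le_add (gk ζ hc) (gk' ζ hc)) (Real.sqrt_nonneg _)
    · rw [integral_mul_const, integral_const_mul, integral_add gi gi', ge, ge', hs]
      have h1 : 0 ≤ (A + 1) * (√R * M * √‖z - z'‖) := by positivity
      nlinarith [h1]

end Pool.Agent.MP_2fc7fa_gt.N

end
end

section

/-! The Banach space of bounded Hoelder functions of exponent one half on the plane. -/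

open scoped BoundedContinuousFunction Topology
open Set Filter Metric

noncomputable section

namespace Pool.Agent.MP_2fc7fa_gt.N

/-- `f` is bounded by `M` and Hoelder with constant `M` on `S`. -/
def HB {E : Type} [NormedAddCommGroup E] (M : ℝ) (f : ℂ → E) (S : Set ℂ) : Prop :=
  (∀ z ∈ S, ‖f z‖ ≤ M) ∧ Hol M f S

variable {E : Type} [NormedAddCommGroup E] [NormedSpace ℝ E]

/-- Pairs of distinct points. -/
abbrev OffD : Type := {p : ℂ × ℂ // p.1 ≠ p.2}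

/-- Graph of the difference quotient. -/
def HoS (E : Type) [NormedAddCommGroup E] [NormedSpace ℝ E] :
    Submodule ℝ ((ℂ →ᵇ E) × (OffD →ᵇ E)) where
  carrier := {a | ∀ p : OffD, a.2 p = (√‖p.1.1 - p.1.2‖)⁻¹ • (a.1 p.1.1 - a.1 p.1.2)}
  add_mem' := by
    intro a b ha hb p
    simp only [Prod.snd_add, Prod.fst_add, BoundedContinuousFunction.add_apply, ha p, hb p,
      ← smul_add]
    congr 1; abel
  zero_mem' := by intro p; simp
  smul_mem' := by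
    intro c a ha p
    simp only [Prod.smul_snd, Prod.smul_fst, BoundedContinuousFunction.smul_apply, ha p,
      ← smul_sub]
    rw [smul_comm]

/-- Bounded Hoelder functions. -/
abbrev Ho (E : Type) [NormedAddCommGroup E] [NormedSpace ℝ E] : Type := HoS E

lemma isClosed_HoS : IsClosed (HoS E : Set ((ℂ →ᵇ E) × (OffD →ᵇ E))) := by
  have : (HoS E : Set ((ℂ →ᵇ E) × (OffD →ᵇ E))) = ⋂ p : OffD,
      {a | a.2 p = (√‖p.1.1 - p.1.2‖)⁻¹ • (a.1 p.1.1 - a.1 p.1.2)} := by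
    ext a; simp [HoS]
  rw [this]
  refine isClosed_iInter fun p => isClosed_eq (by fun_prop) (by fun_prop)

instance completeHo [CompleteSpace E] : CompleteSpace (Ho E) := isClosed_HoS.completeSpace_coe

/-- The underlying function. -/
def Ho.fn (f : Ho E) : ℂ → E := f.1.1

lemma Ho.fn_add (f g : Ho E) : (f + g).fn = f.fn + g.fn := rfl
lemma Ho.fn_sub (f g : Ho E) : (f - g).fn = f.fn - g.fn := rfl
lemma Ho.fn_neg (f : Ho E) : (-f).fn = -f.fn := rfl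
lemma Ho.fn_smul (c : ℝ) (f : Ho E) : (c • f).fn = c • f.fn := rfl
lemma Ho.fn_zero : (0 : Ho E).fn = 0 := rfl

lemma Ho.continuous_fn (f : Ho E) : Continuous f.fn := f.1.1.continuous

lemma Ho.ext_fn {f g : Ho E} (h : f.fn = g.fn) : f = g := by
  have h1 : f.1.1 = g.1.1 := by ext z; exact congrFun h z
  refine Subtype.ext (Prod.ext h1 ?_)
  ext p
  rw [f.2 p, g.2 p, h1]

lemma sqrt_pos_OffD (p : OffD) : 0 < √‖p.1.1 - p.1.2‖ :=
  Real.sqrt_pos.2 (norm_pos_iff.2 (sub_ne_zero.2 p.2))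

lemma Ho.hb (f : Ho E) : HB ‖f‖ f.fn univ := by
  refine ⟨fun z _ => (f.1.1.norm_coe_le_norm z).trans (norm_fst_le f.1), fun z _ z' _ => ?_⟩
  by_cases h : z = z'
  · simp [h]
  · have h1 := (f.1.2.norm_coe_le_norm ⟨(z, z'), h⟩).trans (norm_snd_le f.1)
    have h2 := sqrt_pos_OffD ⟨(z, z'), h⟩
    rw [f.2 ⟨(z, z'), h⟩, norm_smul, norm_inv, Real.norm_of_nonneg h2.le,
      inv_mul_le_iff₀ h2, mul_comm] at h1
    exact h1

lemma Ho.norm_le {f : Ho E} {M : ℝ} (h : HB M f.fn univ) : ‖f‖ ≤ M := by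
  have hM : 0 ≤ M := (norm_nonneg _).trans (h.1 0 trivial)
  change ‖f.1‖ ≤ M
  rw [Prod.norm_def, max_le_iff]
  refine ⟨(BoundedContinuousFunction.norm_le hM).2 fun z => h.1 z trivial,
    (BoundedContinuousFunction.norm_le hM).2 fun p => ?_⟩
  have h2 := sqrt_pos_OffD p
  rw [f.2 p, norm_smul, norm_inv, Real.norm_of_nonneg h2.le, inv_mul_le_iff₀ h2, mul_comm]
  exact h.2 _ trivial _ trivial

omit [NormedSpace ℝ E] in
lemma HB.continuous {f : ℂ → E} {M : ℝ} (h : HB M f univ) : Continuous f := by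
  refine continuous_iff_continuousAt.2 fun z => ?_
  rw [ContinuousAt, tendsto_iff_norm_sub_tendsto_zero]
  refine squeeze_zero (fun _ => norm_nonneg _) (fun z' => h.2 z' trivial z trivial) ?_
  have : Continuous fun z' : ℂ => M * √‖z' - z‖ := by fun_prop
  simpa using this.tendsto z

lemma HB.exists_ho {f : ℂ → E} {M : ℝ} (h : HB M f univ) : ∃ g : Ho E, g.fn = f := by
  have hc := h.continuous
  refine ⟨⟨(BoundedContinuousFunction.ofNormedAddCommGroup f hc M fun z => h.1 z trivial,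
    BoundedContinuousFunction.ofNormedAddCommGroup
      (fun p : OffD => (√‖p.1.1 - p.1.2‖)⁻¹ • (f p.1.1 - f p.1.2)) ?_ M fun p => ?_),
    fun p => rfl⟩, rfl⟩
  · exact (Continuous.inv₀ (by fun_prop) fun p => (sqrt_pos_OffD p).ne').smul (by fun_prop)
  · have h2 := sqrt_pos_OffD p
    rw [norm_smul, norm_inv, Real.norm_of_nonneg h2.le, inv_mul_le_iff₀ h2, mul_comm]
    exact h.2 _ trivial _ trivial

open Classical in
/-- The element of `Ho E` with a given underlying function, or `0` if there is none. -/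
def Ho.of (f : ℂ → E) : Ho E := if h : ∃ g : Ho E, g.fn = f then h.choose else 0

lemma HB.fn_of {f : ℂ → E} {M : ℝ} (h : HB M f univ) : (Ho.of f).fn = f := by
  rw [Ho.of, dif_pos h.exists_ho]; exact h.exists_ho.choose_spec

lemma HB.norm_of {f : ℂ → E} {M : ℝ} (h : HB M f univ) : ‖Ho.of f‖ ≤ M :=
  Ho.norm_le (by rw [h.fn_of]; exact h)

end Pool.Agent.MP_2fc7fa_gt.N

end
end

section

/-! Interface statements inside the implicit function theorem for lines (PROOF.md, B4). -/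

open scoped ContDiff ComplexConjugate Topology NNReal
open Set Complex Filter Metric

noncomputable section

namespace Pool.Agent.MP_2fc7fa_gt.N

/-- Abstract implicit function theorem for compact perturbations of the identity. -/
def AbsStmt : Prop :=
  ∀ (X : Type) [NormedAddCommGroup X] [NormedSpace ℝ X] [CompleteSpace X] (P : Type)
    [TopologicalSpace P] (F : P → X → X) (K : X →L[ℝ] X) (p₀ : P), IsCompactOperator K →
    (∀ x, x + K x = 0 → x = 0) → F p₀ 0 = 0 →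
    (∀ c : ℝ, 0 < c → ∃ δ : ℝ, 0 < δ ∧ ∀ᶠ p in 𝓝 p₀, ∀ x ∈ ball (0 : X) δ, ∀ x' ∈ ball (0 : X) δ,
      ‖F p x - F p x' - ((x - x') + K (x - x'))‖ ≤ c * ‖x - x'‖) →
    (∃ δ : ℝ, 0 < δ ∧ ∀ᶠ p in 𝓝 p₀, ∀ x ∈ ball (0 : X) δ, ContinuousAt (fun p' => F p' x) p) →
    ∀ δ₁ : ℝ, 0 < δ₁ → ∃ δ : ℝ, 0 < δ ∧ δ ≤ δ₁ ∧ ∃ N ∈ 𝓝 p₀, ∃ s : P → X, ContinuousOn s N ∧ s p₀ = 0 ∧
      ∀ p ∈ N, s p ∈ ball (0 : X) δ ∧ F p (s p) = 0 ∧ ∀ x ∈ ball (0 : X) δ, F p x = 0 → x = s p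

/-- Cut-off functions adapted to the two charts of the sphere. -/
structure Bumps where
  χ : ℂ → ℝ
  ρ : ℂ → ℝ
  sχ : ContDiff ℝ ∞ χ
  sρ : ContDiff ℝ ∞ ρ
  sum : ∀ z, z ≠ 0 → χ z + χ z⁻¹ = 1
  one : ∀ z, ‖z‖ ≤ 1 / 2 → χ z = 1
  zero : ∀ z, 2 ≤ ‖z‖ → χ z = 0
  one' : ∀ z, ‖z‖ ≤ 2 → ρ z = 1
  zero' : ∀ z, 3 ≤ ‖z‖ → ρ z = 0

def BumpStmt : Prop := Nonempty Bumps

/-- The two charts of the projective line. -/
def cc (i : Bool) (z : ℂ) : W := if i then (z, 1) else (1, z)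

/-- Transition rule for `(0,1)`-forms with values in `O(1)`. -/
def tr (g : ℂ → V) (z : ℂ) : V := -(z / conj z ^ 2) • g z⁻¹

/-- The right inverse of `∂̄` on sections of `O(1)³`. -/
def raw (κ : Bumps) (h : Bool → ℂ → V) (q : W) : V :=
  q.1 • cT (fun z => κ.ρ z • h false z) (q.2 / q.1) + q.2 • cT (fun z => κ.ρ z • h true z) (q.1 / q.2)

/-- The complex linear map with the given values on the basis. -/
def linM (m : V × V) (q : W) : V := q.1 • m.1 + q.2 • m.2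

/-- The section with `∂̄` data `h` and constraint `m`. -/
def sec1 (κ : Bumps) (b : Bool) (h : Bool → ℂ → V) (m : V × V) (q : W) : V :=
  raw κ h q + linM (m - con b (raw κ h)) q

/-- The 1-jet of a homogeneous map in the chart `i`. -/
def jc (η : W → V) (i : Bool) (z : ℂ) : V × (ℂ →L[ℝ] V) := (η (cc i z), fderiv ℝ (η ∘ cc i) z)

/-- Properties of the right inverse. -/
def SStmt : Prop :=
  ∀ (κ : Bumps) (b : Bool), ∃ C : ℝ, 0 < C ∧
    (∀ (h : Bool → ℂ → V) (m : V × V) (M : ℝ), (∀ i, HB M (h i) univ) → ‖m‖ ≤ M →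
      Hom1 (sec1 κ b h m) ∧ con b (sec1 κ b h m) = m ∧
      (∀ i, HB (C * M) (jc (sec1 κ b h m) i) (ball 0 3)) ∧
      (∀ q : W, ‖q‖ = 1 → ‖sec1 κ b h m q‖ ≤ C * M ∧ ‖fderiv ℝ (sec1 κ b h m) q‖ ≤ C * M) ∧
      ∀ i z, dbar (sec1 κ b h m ∘ cc i) z =
        κ.ρ z • h i z + tr (fun w => κ.ρ w • h (!i) w) z) ∧
    (∀ (h h' : Bool → ℂ → V) (m m' : V × V) (M : ℝ) (c : ℝ), (∀ i, HB M (h i) univ) →
      (∀ i, HB M (h' i) univ) →
      sec1 κ b (h + h') (m + m') = sec1 κ b h m + sec1 κ b h' m' ∧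
        sec1 κ b (c • h) (c • m) = c • sec1 κ b h m)

/-- A homogeneous `C¹` map that is holomorphic in both charts and has zero constraint vanishes. -/
def LiouStmt : Prop :=
  ∀ (η : W → V) (b : Bool), Hom1 η → (∀ i z, dbar (η ∘ cc i) z = 0) → con b η = 0 → η = 0

/-- Chart covariance of expressions that are antilinear in the direction. -/
def CovStmt : Prop :=
  ∀ e : W → W → V, (∀ q, q ≠ 0 → ∀ h h', e q (h + h') = e q h + e q h') →
    (∀ q, q ≠ 0 → ∀ (c : ℂ) h, e q (c • h) = conj c • e q h) → (∀ q, q ≠ 0 → e q q = 0) →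
    (∀ q, q ≠ 0 → ∀ c : ℂ, c ≠ 0 → ∀ h, e (c • q) (c • h) = c • e q h) →
    (∀ i z, z ≠ 0 → e (cc i z) (cc i 1 - cc i 0) =
      tr (fun w => e (cc (!i) w) (cc (!i) 1 - cc (!i) 0)) z) ∧
    ((∀ i z, e (cc i z) (cc i 1 - cc i 0) = 0) → ∀ q, q ≠ 0 → ∀ h, e q h = 0)

/-- The map `U₀ + B₀ η`. -/
def pert (φ₀ : Fr) (U₀ η : W → V) (q : W) : V := U₀ q + φ₀.B (U₀ q) (η q)

/-- The nonlinear part of the Cauchy-Riemann operator of `φ` at `U₀ + B₀ η`, as a function of the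
point `a.1` of the chart `i` and of the jet `a.2` of `η`. -/
def Nl (φ φ₀ : Fr) (U₀ : W → V) (i : Bool) (a : ℂ × V × (ℂ →L[ℝ] V)) : V :=
  (1 / 2 : ℂ) • (φ.A (U₀ (cc i a.1) + φ₀.B (U₀ (cc i a.1)) a.2.1)
      (fderiv ℝ (U₀ ∘ cc i) a.1 1 + fderiv ℝ (fun z => φ₀.B (U₀ (cc i z))) a.1 1 a.2.1 +
        φ₀.B (U₀ (cc i a.1)) (a.2.2 1)) +
    I • φ.A (U₀ (cc i a.1) + φ₀.B (U₀ (cc i a.1)) a.2.1)
      (fderiv ℝ (U₀ ∘ cc i) a.1 I + fderiv ℝ (fun z => φ₀.B (U₀ (cc i z))) a.1 I a.2.1 +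
        φ₀.B (U₀ (cc i a.1)) (a.2.2 I))) -
  (1 / 2 : ℂ) • (a.2.2 1 + I • a.2.2 I)

/-- The domain of smoothness of `Nl`. -/
def NlDom (φ₀ : Fr) (U₀ : W → V) (i : Bool) : Set (ℂ × V × (ℂ →L[ℝ] V)) :=
  {a | U₀ (cc i a.1) + φ₀.B (U₀ (cc i a.1)) a.2.1 ≠ 0}

/-- `Nl` is a smooth family, vanishes at the reference solution, and its derivative there does
not depend on the derivative of `η`. -/
def NlStmt : Prop :=
  ∀ (P : Type) [TopologicalSpace P] (φ : P → Fr) (φ₀ : Fr) (U₀ : W → V) (i : Bool), FrFam φ →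
    IsLine φ₀.J U₀ → IsOpen (NlDom φ₀ U₀ i) ∧
      (∀ n, Fam (NlDom φ₀ U₀ i) n V fun p => Nl (φ p) φ₀ U₀ i) ∧
      (∀ z, Nl φ₀ φ₀ U₀ i (z, 0) = 0) ∧
      ∀ z (y : V) (d : ℂ →L[ℝ] V), fderiv ℝ (Nl φ₀ φ₀ U₀ i) (z, 0) (0, y, d) =
        fderiv ℝ (Nl φ₀ φ₀ U₀ i) (z, 0) (0, y, 0)

/-- The constraint of `η` in terms of the constraint `a` of `U₀ + B₀ η`. -/
def mOf (φ₀ : Fr) (U₀ : W → V) (b : Bool) (a : V × V) : V × V :=
  (φ₀.A (U₀ (1, 0)) (a.1 - U₀ (1, 0)),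
    if b then φ₀.A (U₀ (0, 1)) (a.2 - U₀ (0, 1)) else
      φ₀.A (U₀ (1, 0)) (a.2 - fderiv ℝ U₀ (1, 0) (0, 1) -
        fderiv ℝ (fun q => φ₀.B (U₀ q)) (1, 0) (0, 1) (φ₀.A (U₀ (1, 0)) (a.1 - U₀ (1, 0)))))

/-- Solutions of the cut-off equation are lines. -/
def ToLineStmt : Prop :=
  ∀ (κ : Bumps) (φ φ₀ : Fr) (U₀ : W → V) (b : Bool) (h : Bool → ℂ → V) (a : V × V) (M : ℝ),
    IsLine φ₀.J U₀ → (∀ i, HB M (h i) univ) →
    (∀ q, q ≠ 0 → pert φ₀ U₀ (sec1 κ b h (mOf φ₀ U₀ b a)) q ≠ 0) →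
    (∀ i z, h i z + κ.χ z • Nl φ φ₀ U₀ i (z, jc (sec1 κ b h (mOf φ₀ U₀ b a)) i z) = 0) →
    IsLine φ.J (pert φ₀ U₀ (sec1 κ b h (mOf φ₀ U₀ b a))) ∧
      con b (pert φ₀ U₀ (sec1 κ b h (mOf φ₀ U₀ b a))) = a

/-- The section `η` with `U = U₀ + B₀ η`. -/
def etaOf (φ₀ : Fr) (U₀ U : W → V) (q : W) : V := φ₀.A (U₀ q) (U q - U₀ q)

/-- The `∂̄` data of a line `U`. -/
def hOf (κ : Bumps) (φ φ₀ : Fr) (U₀ U : W → V) (i : Bool) (z : ℂ) : V :=
  -(κ.χ z • Nl φ φ₀ U₀ i (z, jc (etaOf φ₀ U₀ U) i z))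

/-- Lines come from solutions of the cut-off equation. -/
def FromLineStmt : Prop :=
  ∀ (κ : Bumps) (φ φ₀ : Fr) (U₀ U : W → V) (b : Bool) (M : ℝ), IsLine φ₀.J U₀ → IsLine φ.J U →
    (∀ i, HB M (hOf κ φ φ₀ U₀ U i) univ) →
    etaOf φ₀ U₀ U = sec1 κ b (hOf κ φ φ₀ U₀ U) (mOf φ₀ U₀ b (con b U)) ∧
      pert φ₀ U₀ (etaOf φ₀ U₀ U) = U

/-- A line that is `C¹` close to `U₀` has a small Hoelder jet. -/
def SmallStmt : Prop :=
  ∀ (P : Type) [TopologicalSpace P] (φ : P → Fr) (p₀ : P) (U₀ : W → V), FrFam φ →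
    IsLine (φ p₀).J U₀ → ∀ δ : ℝ, 0 < δ → ∃ ε : ℝ, 0 < ε ∧ ∀ᶠ p in 𝓝 p₀, ∀ U,
      IsLine (φ p).J U → Near ε U U₀ → ∀ i, HB δ (jc (etaOf (φ p₀) U₀ U) i) (ball 0 3)

/-- Estimates for superposition operators on Hoelder functions. -/
def NemStmt : Prop :=
  ∀ (E F : Type) [NormedAddCommGroup E] [NormedSpace ℝ E] [FiniteDimensional ℝ E]
    [NormedAddCommGroup F] [NormedSpace ℝ F] (P : Type) [TopologicalSpace P]
    (G : P → ℂ × E → F) (Ω : Set (ℂ × E)) (χ : ℂ → ℝ) (p₀ : P), IsOpen Ω → Fam Ω 2 F G →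
    (∀ z : ℂ, (z, 0) ∈ Ω) → ContDiff ℝ 1 χ → (∀ z, 2 ≤ ‖z‖ → χ z = 0) →
    (∀ c : ℝ, 0 < c → ∃ δ : ℝ, 0 < δ ∧ ∀ᶠ p in 𝓝 p₀, ∀ (y y' : ℂ → E) (M : ℝ),
      HB δ y (ball 0 3) → HB δ y' (ball 0 3) → HB M (y - y') (ball 0 3) →
      HB (c * M) (fun z => χ z • (G p (z, y z) - G p (z, y' z) -
        fderiv ℝ (G p₀) (z, 0) (0, y z - y' z))) univ) ∧
    (∃ C : ℝ, 0 < C ∧ ∀ (y : ℂ → E) (M : ℝ), HB M y (ball 0 3) →
      HB (C * M) (fun z => χ z • fderiv ℝ (G p₀) (z, 0) (0, y z)) univ) ∧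
    ∃ δ : ℝ, 0 < δ ∧ ∀ (p : P) (y : ℂ → E), HB δ y (ball 0 3) →
      (∃ M, HB M (fun z => χ z • G p (z, y z)) univ) ∧
      ∀ c : ℝ, 0 < c → ∀ᶠ p' in 𝓝 p, HB c (fun z => χ z • (G p' (z, y z) - G p (z, y z))) univ

/-- A compactness criterion for operators into Hoelder functions. -/
def CptStmt : Prop :=
  ∀ (X E : Type) [NormedAddCommGroup X] [NormedSpace ℝ X] [NormedAddCommGroup E]
    [NormedSpace ℝ E] [FiniteDimensional ℝ E] (K : X →L[ℝ] Ho E) (C : ℝ),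
    (∀ x z, 2 ≤ ‖z‖ → (K x).fn z = 0) →
    (∀ x z z', ‖(K x).fn z - (K x).fn z'‖ ≤ C * ‖x‖ * ‖z - z'‖) → IsCompactOperator K

/-- The linearised cut-off equation has only the zero solution. -/
def LinInjStmt : Prop :=
  ∀ (κ : Bumps) (φ₀ : Fr) (U₀ : W → V) (b : Bool) (h : Bool → ℂ → V) (M : ℝ),
    IsLine φ₀.J U₀ → IsEmb U₀ → (∀ i, HB M (h i) univ) →
    (∀ i z, h i z + κ.χ z • fderiv ℝ (Nl φ₀ φ₀ U₀ i) (z, 0) (0, jc (sec1 κ b h 0) i z) = 0) →
    h = 0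

/-- The linear part as a compact operator. -/
def KopStmt : Prop :=
  ∀ (κ : Bumps) (φ₀ : Fr) (U₀ : W → V) (b : Bool), IsLine φ₀.J U₀ →
    ∃ K : (Bool → Ho V) →L[ℝ] (Bool → Ho V), IsCompactOperator K ∧ ∀ h i z,
      (K h i).fn z =
        κ.χ z • fderiv ℝ (Nl φ₀ φ₀ U₀ i) (z, 0) (0, jc (sec1 κ b (fun i => (h i).fn) 0) i z)

/-- Solving the cut-off equation. -/
def SolveStmt : Prop :=
  ∀ (κ : Bumps) (P : Type) [TopologicalSpace P] (φ : P → Fr) (p₀ : P) (U₀ : W → V) (b : Bool),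
    FrFam φ → IsLine (φ p₀).J U₀ → IsEmb U₀ → ∀ δ₁ : ℝ, 0 < δ₁ →
    ∃ δ : ℝ, 0 < δ ∧ δ ≤ δ₁ ∧ ∃ N ∈ 𝓝 (p₀, con b U₀), ∃ s : P × (V × V) → Bool → Ho V,
      ContinuousOn s N ∧ s (p₀, con b U₀) = 0 ∧ ∀ a ∈ N, ‖s a‖ < δ ∧
        ∀ h : Bool → Ho V, ‖h‖ < δ → (h = s a ↔ ∀ i z, (h i).fn z + κ.χ z •
          Nl (φ a.1) (φ p₀) U₀ i
            (z, jc (sec1 κ b (fun i => (h i).fn) (mOf (φ p₀) U₀ b a.2)) i z) = 0)

end Pool.Agent.MP_2fc7fa_gt.N

end
end

section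

/-! The abstract implicit function theorem, the cut-off functions and chart covariance. -/

open scoped ContDiff ComplexConjugate Topology NNReal
open Set Filter Metric

namespace Pool.Agent.MP_2fc7fa_gt.N

theorem absS : AbsStmt := by
  intro X _ _ _ P _ F K p₀ hK hinj h0 happ ⟨δ', hδ', hcont⟩ δ₁ hδ₁
  obtain ⟨u, hu⟩ : IsUnit (algebraMap ℝ (X →L[ℝ] X) (-1) - K) := by
    refine (hK.hasEigenvalue_or_mem_resolventSet (μ := -1) (by norm_num)).resolve_left fun h => ?_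
    obtain ⟨x, hx⟩ := h.exists_hasEigenvector
    refine hx.2 (hinj x ?_)
    have h1 : K x = (-1 : ℝ) • x := hx.apply_eq_smul
    rw [h1, neg_one_smul, add_neg_cancel]
  have hL : (1 + K : X →L[ℝ] X) = -u := by
    rw [hu, map_neg, map_one]
    abel
  obtain ⟨R, hR1, hR2⟩ : ∃ R : X →L[ℝ] X, (1 + K) * R = 1 ∧ R * (1 + K) = 1 :=
    ⟨-(u⁻¹ : (X →L[ℝ] X)ˣ), by simp [hL], by simp [hL]⟩
  obtain ⟨C, hC, hb⟩ : ∃ C : ℝ≥0, 0 < C ∧ ∀ y, ‖R y‖ ≤ C * ‖y‖ :=
    ⟨‖R‖₊ + 1, by positivity, fun y => (R.le_opNorm y).trans (by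
      push_cast
      nlinarith [norm_nonneg y])⟩
  have hC' : (0 : ℝ) < C := hC
  obtain ⟨δ₀, hδ₀, hA⟩ := happ ((C : ℝ)⁻¹ / 2) (by positivity)
  obtain ⟨δ, hδ, d0, d1, d2⟩ : ∃ δ : ℝ, 0 < δ ∧ δ ≤ δ₀ ∧ δ ≤ δ' ∧ δ ≤ δ₁ :=
    ⟨min δ₀ (min δ' δ₁), by positivity, min_le_left _ _,
      (min_le_right _ _).trans (min_le_left _ _), (min_le_right _ _).trans (min_le_right _ _)⟩
  have hS : ∀ᶠ p in 𝓝 p₀, ‖F p 0‖ < (C : ℝ)⁻¹ / 2 * (δ / 2) :=
    (hcont.self_of_nhds 0 (mem_ball_self hδ')).norm.eventually_lt continuousAt_const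
      (by rw [h0, norm_zero]; positivity)
  obtain ⟨N, hN, hN'⟩ := (hA.and (hcont.and hS)).exists_mem
  have low : ∀ p ∈ N, ∀ x ∈ ball (0 : X) δ, ∀ x' ∈ ball (0 : X) δ,
      ‖x - x'‖ ≤ 2 * C * ‖F p x - F p x'‖ := fun p hp x hx x' hx' => by
    have h1 := (hN' p hp).1 x (ball_subset_ball d0 hx) x' (ball_subset_ball d0 hx')
    have h2 : R (x - x' + K (x - x')) = x - x' := congrArg (fun T : X →L[ℝ] X => T (x - x')) hR2
    have h3 := hb (x - x' + K (x - x'))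
    have h4 := norm_sub_norm_le (x - x' + K (x - x')) (F p x - F p x')
    rw [h2] at h3
    rw [norm_sub_rev] at h1
    have h5 := mul_le_mul_of_nonneg_left (h4.trans h1) hC'.le
    rw [← mul_assoc, ← mul_div_assoc, mul_inv_cancel₀ hC'.ne'] at h5
    linarith
  have ex : ∀ p, ∃ x, p ∈ N → x ∈ ball (0 : X) δ ∧ F p x = 0 := fun p => by
    by_cases hp : p ∈ N
    · have h1 : ApproximatesLinearOn (F p) (1 + K) (ball 0 δ₀) (C⁻¹ / 2) := fun x hx y hy => by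
        simpa using (hN' p hp).1 x hx y hy
      obtain ⟨x, hx, e⟩ := h1.surjOn_closedBall_of_nonlinearRightInverse
        ⟨R, C, hb, fun y => congrArg (fun T : X →L[ℝ] X => T y) hR1⟩ (ε := δ / 2) (b := 0)
        (by positivity) (closedBall_subset_ball (by linarith)) (a := 0) (by
          rw [mem_closedBall, dist_zero_left]
          refine (hN' p hp).2.2.le.trans (le_of_eq ?_)
          push_cast
          ring)
      exact ⟨x, fun _ => ⟨closedBall_subset_ball (by linarith) hx, e⟩⟩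
    · exact ⟨0, fun h => (hp h).elim⟩
  choose s hs using ex
  have un : ∀ p ∈ N, ∀ x ∈ ball (0 : X) δ, F p x = 0 → x = s p := fun p hp x hx e => by
    have h1 := low p hp x hx _ (hs p hp).1
    rw [e, (hs p hp).2, sub_self, norm_zero, mul_zero] at h1
    exact sub_eq_zero.1 (norm_le_zero_iff.1 h1)
  refine ⟨δ, hδ, d2, N, hN, s, fun p hp => ?_,
    (un p₀ (mem_of_mem_nhds hN) 0 (mem_ball_self hδ) h0).symm,
    fun p hp => ⟨(hs p hp).1, (hs p hp).2, un p hp⟩⟩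
  refine tendsto_iff_norm_sub_tendsto_zero.2 (squeeze_zero' (g := fun p' => 2 * C * ‖F p' (s p)‖)
    (Eventually.of_forall fun _ => norm_nonneg _) (eventually_nhdsWithin_of_forall fun p' hp' => ?_)
    ?_)
  · have h1 := low p' hp' _ (hs p' hp').1 _ (hs p hp).1
    rwa [(hs p' hp').2, zero_sub, norm_neg] at h1
  · have h1 := (((hN' p hp).2.1 (s p) (ball_subset_ball d1 (hs p hp).1)).norm.const_mul
      (2 * C : ℝ)).tendsto.mono_left (nhdsWithin_le_nhds (s := N))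
    simpa [(hs p hp).2] using h1

theorem bumpS : BumpStmt := by
  have hn : ContDiff ℝ ∞ fun z : ℂ => ‖z‖ ^ 2 := contDiff_norm_sq ℝ
  refine ⟨⟨fun z => Real.smoothTransition (2 / (‖z‖ ^ 2 + 1) - 1 / 2),
    fun z => Real.smoothTransition ((9 - ‖z‖ ^ 2) / 5), Real.smoothTransition.contDiff.comp
      ((contDiff_const.div (hn.add contDiff_const) fun z => by positivity).sub contDiff_const),
    Real.smoothTransition.contDiff.comp ((contDiff_const.sub hn).div_const _), fun z hz => ?_,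
    fun z hz => Real.smoothTransition.one_of_one_le ?_,
    fun z hz => Real.smoothTransition.zero_of_nonpos ?_,
    fun z hz => Real.smoothTransition.one_of_one_le ?_,
    fun z hz => Real.smoothTransition.zero_of_nonpos ?_⟩⟩
  · have h0 : ‖z‖ ≠ 0 := norm_ne_zero_iff.2 hz
    have h1 : 2 / (‖z⁻¹‖ ^ 2 + 1) - 1 / 2 = 1 - (2 / (‖z‖ ^ 2 + 1) - 1 / 2) := by
      rw [norm_inv]
      field_simp
      ring
    rw [h1]
    generalize 2 / (‖z‖ ^ 2 + 1) - 1 / 2 = x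
    have h2 := (Real.smoothTransition.pos_denom x).ne'
    rw [Real.smoothTransition, Real.smoothTransition, sub_sub_cancel, add_comm _ (expNegInvGlue x),
      ← add_div, div_self h2]
  · rw [le_sub_iff_add_le, le_div_iff₀ (by positivity)]
    nlinarith [norm_nonneg z]
  · rw [sub_nonpos, div_le_iff₀ (by positivity)]
    nlinarith
  · nlinarith [norm_nonneg z]
  · nlinarith

theorem cc_ne_Abs (i : Bool) (z : ℂ) : cc i z ≠ 0 := by
  cases i <;> simp [cc]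

theorem covS : CovStmt := by
  intro e ha hs h0 hh
  have key : ∀ i z (c a b : ℂ), c ≠ 0 →
      e (c • cc i z) (c • (a • cc i z + b • (cc i 1 - cc i 0))) =
        (c * conj b) • e (cc i z) (cc i 1 - cc i 0) := fun i z c a b hc => by
    have h := cc_ne_Abs i z
    rw [hh _ h c hc, ha _ h, hs _ h, hs _ h, h0 _ h, smul_zero, zero_add, smul_smul]
  refine ⟨fun i z hz => ?_, fun h q hq v => ?_⟩
  · have h1 : cc i z = z • cc (!i) z⁻¹ := by cases i <;> simp [cc, hz]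
    have h2 : cc i 1 - cc i 0 =
        z • (z⁻¹ • cc (!i) z⁻¹ + (-(z⁻¹ ^ 2)) • (cc (!i) 1 - cc (!i) 0)) := by
      cases i <;> simp [cc, hz, sq]
    rw [h1, h2, key _ _ _ _ _ hz, tr]
    simp [div_eq_mul_inv]
  · by_cases h1 : q.1 = 0
    · have h2 : q.2 ≠ 0 := fun h2 => hq (Prod.ext h1 h2)
      have h3 := key true 0 q.2 (v.2 / q.2) (v.1 / q.2) h2
      rw [h, smul_zero] at h3
      rw [← h3]
      congr 1 <;> ext <;> simp [cc, h1, mul_div_cancel₀, h2]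
    · have h3 := key false (q.2 / q.1) q.1 (v.1 / q.1) (v.2 / q.1 - v.1 / q.1 * (q.2 / q.1)) h1
      rw [h, smul_zero] at h3
      rw [← h3]
      congr 1 <;> ext <;> simp [cc, mul_div_cancel₀, h1]

end Pool.Agent.MP_2fc7fa_gt.N

end

section

/-! Homogeneous maps given by their charts, and the Cauchy transform of a family. -/

open scoped ContDiff ComplexConjugate Topology
open Set Complex Filter Metric MeasureTheory

noncomputable section

namespace Pool.Agent.MP_2fc7fa_gt.N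

variable {T E : Type} [NormedAddCommGroup E] [NormedSpace ℂ E]

theorem c1_at_SOp (a b : W →L[ℝ] ℂ) {v : ℂ → E} (hv : ContDiff ℝ 1 v) {q : W} (hq : a q ≠ 0) :
    ContDiffAt ℝ 1 (fun p => a p • v (b p / a p)) q := by
  simp only [div_eq_mul_inv]
  exact a.contDiff.contDiffAt.smul (hv.contDiffAt.comp q
    (b.contDiff.contDiffAt.mul (a.contDiff.contDiffAt.inv hq)))

theorem c1_hom_SOp (a b : W →L[ℝ] ℂ) {v : ℂ → E} (hv : ContDiff ℝ 1 v)
    (hv' : ContDiff ℝ 1 (inv1_SOp v)) {q : W} (hq : a q ≠ 0 ∨ b q ≠ 0) :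
    ContDiffAt ℝ 1 (fun p => a p • v (b p / a p)) q := by
  rcases hq with hq | hq
  · exact c1_at_SOp a b hv hq
  · refine (c1_at_SOp b a hv' hq).congr_of_eventuallyEq
      ((b.continuous.continuousAt.eventually_ne hq).mono fun p hp => ?_)
    beta_reduce
    rw [inv1_SOp, inv_div, smul_smul, mul_div_cancel₀ _ hp]

theorem sph1_SOp (a b : W →L[ℝ] ℂ) (ha : ∀ p, ‖a p‖ ≤ ‖p‖) (hb : ∀ p, ‖b p‖ ≤ ‖p‖) {u : ℂ → E}
    {q : W} (hq : ‖a q‖ = 1) (hq' : ‖q‖ = 1) (hu : DifferentiableAt ℝ u (b q / a q)) {K : ℝ}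
    (h1 : ‖u (b q / a q)‖ ≤ K) (h2 : ‖fderiv ℝ u (b q / a q)‖ ≤ K) :
    ‖fderiv ℝ (fun p => a p • u (b p / a p)) q‖ ≤ 3 * K := by
  have h0 : a q ≠ 0 := norm_pos_iff.1 (by linarith)
  have k : 0 ≤ K := (norm_nonneg _).trans h1
  simp only [div_eq_mul_inv] at hu h1 h2 ⊢
  have d1 := b.hasFDerivAt.mul
    (((hasDerivAt_inv h0).hasFDerivAt.restrictScalars ℝ).comp q a.hasFDerivAt)
  have d2 := a.hasFDerivAt.smul (hu.hasFDerivAt.comp q d1)
  rw [show fderiv ℝ (fun p => a p • u (b p * (a p)⁻¹)) q = _ from d2.fderiv]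
  refine ContinuousLinearMap.opNorm_le_bound _ (by positivity) fun h => ?_
  show ‖a q • fderiv ℝ u (b q * (a q)⁻¹) (b q • (a h • -(a q ^ 2)⁻¹) + (a q)⁻¹ • b h) +
    a h • u (b q * (a q)⁻¹)‖ ≤ _
  have e1 : ‖b q • (a h • -(a q ^ 2)⁻¹) + (a q)⁻¹ • b h‖ ≤ 2 * ‖h‖ := by
    refine (norm_add_le _ _).trans ?_
    rw [norm_smul, norm_smul, norm_smul, norm_neg, norm_inv, norm_inv, norm_pow, hq]
    have := hb q
    have := ha h
    have := hb h
    have := norm_nonneg (a h)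
    norm_num
    nlinarith
  have e2 := (fderiv ℝ u (b q * (a q)⁻¹)).le_of_opNorm_le_of_le h2 e1
  have e3 := mul_le_mul (ha h) h1 (norm_nonneg _) (norm_nonneg _)
  refine (norm_add_le _ _).trans ?_
  rw [norm_smul, norm_smul, hq]
  linarith

theorem sph_SOp {η : W → E} (hh : ∀ (c : ℂ) q, η (c • q) = c • η q)
    (hd : ∀ i, Differentiable ℝ (η ∘ cc i)) {K : ℝ}
    (hK : ∀ i, ∀ z ∈ ball (0 : ℂ) 3, ‖η (cc i z)‖ ≤ K ∧ ‖fderiv ℝ (η ∘ cc i) z‖ ≤ K) {q : W}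
    (hq : ‖q‖ = 1) : ‖η q‖ ≤ 3 * K ∧ ‖fderiv ℝ η q‖ ≤ 3 * K := by
  have key : ∀ (i : Bool) (a b : W →L[ℝ] ℂ), (∀ p, ‖a p‖ ≤ ‖p‖) → (∀ p, ‖b p‖ ≤ ‖p‖) →
      (∀ p, a p ≠ 0 → p = a p • cc i (b p / a p)) → ‖a q‖ = 1 →
      ‖η q‖ ≤ 3 * K ∧ ‖fderiv ℝ η q‖ ≤ 3 * K := by
    intro i a b ha hb e h1
    have h0 : a q ≠ 0 := norm_pos_iff.1 (by linarith)
    have hz := hK i (b q / a q) (mem_ball_zero_iff.2 (by
      rw [norm_div, h1]
      linarith [hb q]))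
    have e' : ∀ p, a p ≠ 0 → η p = a p • (η ∘ cc i) (b p / a p) := fun p hp =>
      (congrArg η (e p hp)).trans (hh _ _)
    refine ⟨?_, ?_⟩
    · rw [e' q h0, norm_smul, h1, Function.comp_apply]
      linarith [hz.1, norm_nonneg (η (cc i (b q / a q)))]
    · rw [EventuallyEq.fderiv_eq ((a.continuous.continuousAt.eventually_ne h0).mono e')]
      exact sph1_SOp a b ha hb h1 hq (hd i _) hz.1 hz.2
  rcases max_choice ‖q.1‖ ‖q.2‖ with h | h
  · refine key false (ContinuousLinearMap.fst ℝ ℂ ℂ) (ContinuousLinearMap.snd ℝ ℂ ℂ) norm_fst_le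
      norm_snd_le (fun p hp => ?_) (h.symm.trans hq)
    exact Prod.ext (mul_one _).symm (mul_div_cancel₀ _ hp).symm
  · refine key true (ContinuousLinearMap.snd ℝ ℂ ℂ) (ContinuousLinearMap.fst ℝ ℂ ℂ) norm_snd_le
      norm_fst_le (fun p hp => ?_) (h.symm.trans hq)
    exact Prod.ext (mul_div_cancel₀ _ hp).symm (mul_one _).symm

omit [NormedSpace ℂ E] in
theorem bdd_SOp {g : ℂ → E} {K : ℝ} (h : HB K g univ) (h0 : ∀ z, 3 ≤ ‖z‖ → g z = 0) :
    Bdd g 0 3 K :=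
  ⟨h.continuous.aestronglyMeasurable, fun z => h.1 z trivial, fun z hz => h0 z (by simpa using hz)⟩

theorem cT_add_SOp {g g' : ℂ → E} {K K' : ℝ} (h : Bdd g 0 3 K) (h' : Bdd g' 0 3 K') (z : ℂ) :
    cT (fun z => g z + g' z) z = cT g z + cT g' z := by
  simp only [cT, smul_add]
  exact integral_add (cT_int_T1 (by norm_num) h z) (cT_int_T1 (by norm_num) h' z)

theorem cT_smul_SOp (c : ℝ) (g : ℂ → E) (z : ℂ) : cT (fun z => c • g z) z = c • cT g z := by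
  simp only [cT, smul_comm _ c]
  exact integral_smul c _

theorem rho_SOp (κ : Bumps) {h : T → ℂ → E} (hh : UB_Est Real.sqrt (fun _ => univ) h) :
    UB_Est Real.sqrt (fun _ => univ) fun t z => κ.ρ z • h t z := by
  have hs : HasCompactSupport κ.ρ := HasCompactSupport.intro (isCompact_closedBall 0 3)
    fun z hz => κ.zero' z (not_le.1 (mt mem_closedBall_zero_iff.2 hz)).le
  obtain ⟨K, hK⟩ := κ.sρ.continuous.bounded_above_of_compact_support hs
  obtain ⟨L, hL⟩ := κ.sρ.lipschitzWith_of_hasCompactSupport hs (by simp)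
  have h1 : UB_Est id (fun _ : T => univ) fun _ z => κ.ρ z :=
    ub_mk_Est (fun _ hd => hd) K L ((norm_nonneg _).trans (hK 0)) L.2 (fun _ z _ => hK z)
      fun _ z _ z' _ => hL.norm_sub_le z z'
  exact (h1.sqrt.clm (ContinuousLinearMap.lsmul ℝ ℝ : ℝ →L[ℝ] E →L[ℝ] E)).app hh
    fun d _ => Real.sqrt_nonneg d

theorem cT_SOp [CompleteSpace E] (h1 : T1Stmt) (h3 : T3Stmt) {g : T → ℂ → E}
    (hg : UB_Est Real.sqrt (fun _ => univ) g) (h0 : ∀ t z, 3 ≤ ‖z‖ → g t z = 0) :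
    (∀ t, ContDiff ℝ 1 (cT (g t)) ∧ ∀ z, dbar (cT (g t)) z = g t z) ∧
      (UB_Est Real.sqrt (fun _ => univ) fun t => cT (g t)) ∧
      UB_Est Real.sqrt (fun _ => univ) fun t => fderiv ℝ (cT (g t)) := by
  obtain ⟨K, k, hK⟩ := hg
  obtain ⟨C, c, h1⟩ := h1
  obtain ⟨C', c', h3⟩ := h3 3 (by norm_num)
  have a1 := fun t => h1 E (g t) 0 3 K (by norm_num) (bdd_SOp (hK t) (h0 t))
  have a3 := fun t => h3 E (g t) 0 K K (bdd_SOp (hK t) (h0 t)) k (hK t).2
  exact ⟨fun t => ⟨(a3 t).1, (a3 t).2.1⟩,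
    ub_mk_Est (fun d _ => Real.sqrt_nonneg d) _ _ (by positivity) (by positivity)
      (fun t z _ => (a1 t).1 z) fun t => (a1 t).2,
    ub_mk_Est (fun d _ => Real.sqrt_nonneg d) _ _ (by positivity) (by positivity)
      (fun t z _ => (a3 t).2.2.1 z) fun t => (a3 t).2.2.2⟩

theorem dbar_add_SOp {u v : ℂ → E} {z : ℂ} (hu : DifferentiableAt ℝ u z)
    (hv : DifferentiableAt ℝ v z) : dbar (fun y => u y + v y) z = dbar u z + dbar v z := by
  rw [dbar, dbar, dbar, fderiv_fun_add hu hv, add_apply, add_apply]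
  module

theorem ub_fd_add_SOp {S : T → Set ℂ} {u v : T → ℂ → E} (hu : ∀ t, Differentiable ℝ (u t))
    (hv : ∀ t, Differentiable ℝ (v t)) (h : UB_Est Real.sqrt S fun t => fderiv ℝ (u t))
    (h' : UB_Est Real.sqrt S fun t => fderiv ℝ (v t)) :
    UB_Est Real.sqrt S fun t => fderiv ℝ fun y => u t y + v t y :=
  (h.add h').congr fun t z _ => fderiv_fun_add (hu t z) (hv t z)

end Pool.Agent.MP_2fc7fa_gt.N

end
end

section

/-! The right inverse of the Cauchy-Riemann operator on sections of `O(1)³`. -/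

open scoped ContDiff ComplexConjugate Topology
open Set Complex Filter Metric MeasureTheory

noncomputable section

namespace Pool.Agent.MP_2fc7fa_gt.N

variable {T : Type}

theorem chart_SOp (κ : Bumps) (h : Bool → ℂ → V) (i : Bool) : raw κ h ∘ cc i =
    fun z => cT (fun w => κ.ρ w • h i w) z + inv1_SOp (cT fun w => κ.ρ w • h (!i) w) z := by
  funext z
  cases i <;> simp [raw, cc, inv1_SOp, add_comm]

theorem flip_SOp {E : Type} [NormedAddCommGroup E] {S : Set ℂ} {f : T × Bool → ℂ → E}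
    (h : UB_Est Real.sqrt (fun _ => S) f) :
    UB_Est Real.sqrt (fun _ => S) fun p : T × Bool => f (p.1, !p.2) :=
  h.imp fun _ hK => ⟨hK.1, fun _ => hK.2 _⟩

theorem raw_SOp (h1 : T1Stmt) (h3 : T3Stmt) (κ : Bumps) {h : T → Bool → ℂ → V}
    (hh : UB_Est Real.sqrt (fun _ => univ) fun p : T × Bool => h p.1 p.2) :
    (∀ t, Hom1 (raw κ (h t)) ∧ (∀ i, Differentiable ℝ (raw κ (h t) ∘ cc i)) ∧
      ∀ i z, dbar (raw κ (h t) ∘ cc i) z =
        κ.ρ z • h t i z + tr (fun w => κ.ρ w • h t (!i) w) z) ∧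
    (UB_Est Real.sqrt (fun _ => ball 0 3) fun p : T × Bool => raw κ (h p.1) ∘ cc p.2) ∧
    UB_Est Real.sqrt (fun _ => ball 0 3)
      fun p : T × Bool => fderiv ℝ (raw κ (h p.1) ∘ cc p.2) := by
  have h0 : ∀ (p : T × Bool) z, 3 ≤ ‖z‖ → κ.ρ z • h p.1 p.2 z = 0 := fun p z hz => by
    rw [κ.zero' z hz, zero_smul]
  obtain ⟨a1, a2, a3⟩ := cT_SOp h1 h3 (rho_SOp κ hh) h0
  have d1 := fun p => (a1 p).1.differentiable one_ne_zero
  have z1 := fun p z hz => ((a1 p).2 z).trans (h0 p z hz)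
  obtain ⟨b2, b3⟩ := ub_inv1_SOp d1 z1 a2 a3
  obtain ⟨K, -, hK⟩ := id a2
  have c1 := fun p => c1_inv_SOp (a1 p).1 (fun z => (hK p).1 z trivial) (z1 p)
  have d2 := fun p => (c1 p).differentiable one_ne_zero
  simp only [chart_SOp]
  refine ⟨fun t => ⟨⟨fun q hq => ?_, fun c q => ?_⟩, fun i => (d1 (t, i)).add (d2 (t, !i)),
    fun i z => ?_⟩, (a2.mono fun _ => subset_univ _).add (flip_SOp b2),
    ub_fd_add_SOp d1 (fun p => d2 (p.1, !p.2)) (a3.mono fun _ => subset_univ _) (flip_SOp b3)⟩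
  · have hq' : q.1 ≠ 0 ∨ q.2 ≠ 0 := not_and_or.1 fun h => hq (Prod.ext h.1 h.2)
    exact ((c1_hom_SOp (ContinuousLinearMap.fst ℝ ℂ ℂ) (ContinuousLinearMap.snd ℝ ℂ ℂ)
      (a1 (t, false)).1 (c1 (t, false)) hq').add
      (c1_hom_SOp (ContinuousLinearMap.snd ℝ ℂ ℂ) (ContinuousLinearMap.fst ℝ ℂ ℂ)
        (a1 (t, true)).1 (c1 (t, true)) hq'.symm)).contDiffWithinAt
  · by_cases hc : c = 0
    · simp [hc, raw]
    · simp only [raw, Prod.smul_fst, Prod.smul_snd, smul_eq_mul, mul_div_mul_left _ _ hc, smul_add,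
        mul_smul]
  · rw [dbar_add_SOp (d1 (t, i) z) (d2 (t, !i) z), (a1 (t, i)).2]
    congr 1
    by_cases hz : z = 0
    · rw [hz, dbar_zero_SOp ((hol_inv_SOp (d1 (t, !i)) (fun z => (hK _).1 z trivial)
        (z1 _)).differentiableAt (ball_mem_nhds _ (by norm_num)))]
      simp [tr]
    · rw [dbar_inv_SOp hz (d1 (t, !i) _), (a1 (t, !i)).2]
      rfl

theorem diff_SOp {U : W → V} (h : Hom1 U) : DifferentiableAt ℝ U (1, 0) :=
  (h.1.contDiffAt (isOpen_compl_singleton.mem_nhds (by simp))).differentiableAt one_ne_zero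

theorem con_add_SOp (b : Bool) {U U' : W → V} (h : Hom1 U) (h' : Hom1 U') :
    con b (U + U') = con b U + con b U' := by
  cases b
  · simp only [con, jet, fderiv_add (diff_SOp h) (diff_SOp h')]
    rfl
  · rfl

theorem con_smul_SOp (b : Bool) (c : ℝ) (U : W → V) : con b (c • U) = c • con b U := by
  cases b
  · simp only [con, jet, fderiv_const_smul_field]
    rfl
  · rfl

theorem linM_hom_SOp (m : V × V) : Hom1 (linM m) :=
  ⟨(by unfold linM; fun_prop : ContDiff ℝ 1 (linM m)).contDiffOn, fun c q => by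
    simp only [linM, Prod.smul_fst, Prod.smul_snd, smul_eq_mul, smul_add, mul_smul]⟩

theorem con_linM_SOp (b : Bool) (m : V × V) : con b (linM m) = m := by
  have h : HasFDerivAt (linM m) _ ((1 : ℂ), (0 : ℂ)) :=
    (hasFDerivAt_fst (𝕜 := ℝ).smul_const m.1).add (hasFDerivAt_snd.smul_const m.2)
  cases b <;> simp [con, jet, h.fderiv, linM]

theorem linM_chart_SOp (m : V × V) (i : Bool) :
    linM m ∘ cc i = fun z => z • (if i then m.1 else m.2) + if i then m.2 else m.1 := by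
  funext z
  cases i <;> simp [linM, cc, add_comm]

theorem aff_SOp (x y : V) (z : ℂ) : HasDerivAt (fun z : ℂ => z • x + y) x z := by
  simpa using ((hasDerivAt_id z).smul_const x).add_const y

theorem sec_SOp (h1 : T1Stmt) (h3 : T3Stmt) (κ : Bumps) (b : Bool) {h : T → Bool → ℂ → V}
    {m : T → V × V} {M : ℝ} (hM : 0 ≤ M) (hh : ∀ t i, HB M (h t i) univ) (hm : ∀ t, ‖m t‖ ≤ M) :
    (∀ t, Hom1 (sec1 κ b (h t) (m t)) ∧ con b (sec1 κ b (h t) (m t)) = m t ∧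
      ∀ i z, dbar (sec1 κ b (h t) (m t) ∘ cc i) z =
        κ.ρ z • h t i z + tr (fun w => κ.ρ w • h t (!i) w) z) ∧
    ∃ C : ℝ, 0 < C ∧ ∀ t, (∀ i, HB C (jc (sec1 κ b (h t) (m t)) i) (ball 0 3)) ∧
      ∀ q : W, ‖q‖ = 1 → ‖sec1 κ b (h t) (m t) q‖ ≤ C ∧ ‖fderiv ℝ (sec1 κ b (h t) (m t)) q‖ ≤ C := by
  obtain ⟨a1, a2, a3⟩ := raw_SOp h1 h3 κ (h := h) ⟨M, hM, fun p => hh p.1 p.2⟩
  obtain ⟨L, l, hL⟩ : ∃ L : ℝ, 0 ≤ L ∧ ∀ t, ‖m t - con b (raw κ (h t))‖ ≤ L := by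
    obtain ⟨K, k, hK⟩ := a2
    obtain ⟨K', k', hK'⟩ := a3
    refine ⟨M + 3 * (K + K'), by positivity, fun t =>
      (norm_sub_le _ _).trans (add_le_add (hm t) ?_)⟩
    have s := fun q => sph_SOp (K := K + K') (q := q) (a1 t).1.2 (a1 t).2.1 fun i z hz =>
      ⟨((hK (t, i)).1 z hz).trans (le_add_of_nonneg_right k'),
        ((hK' (t, i)).1 z hz).trans (le_add_of_nonneg_left k)⟩
    have n1 : ‖((1, 0) : W)‖ = 1 := by simp
    have n2 : ‖((0, 1) : W)‖ = 1 := by simp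
    cases b
    · exact norm_prod_le_iff.2 ⟨(s _ n1).1,
        (ContinuousLinearMap.le_of_opNorm_le_of_le _ (s _ n1).2 n2.le).trans_eq (mul_one _)⟩
    · exact norm_prod_le_iff.2 ⟨(s _ n1).1, (s _ n2).1⟩
  have hx : ∀ (p : T × Bool) (i : Bool), ‖if i then (m p.1 - con b (raw κ (h p.1))).1 else
      (m p.1 - con b (raw κ (h p.1))).2‖ ≤ L := fun p i => by
    cases i
    · exact (norm_snd_le _).trans (hL _)
    · exact (norm_fst_le _).trans (hL _)
  have e : ∀ t i, sec1 κ b (h t) (m t) ∘ cc i =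
      fun z => (raw κ (h t) ∘ cc i) z + (linM (m t - con b (raw κ (h t))) ∘ cc i) z :=
    fun _ _ => rfl
  have dC : ∀ (x : V × V) i, Differentiable ℂ (linM x ∘ cc i) := fun x i z => by
    rw [linM_chart_SOp]
    exact (aff_SOp _ _ z).differentiableAt
  have dR := fun x i => (dC x i).restrictScalars ℝ
  have hom : ∀ t, Hom1 (sec1 κ b (h t) (m t)) := fun t =>
    ⟨(a1 t).1.1.add (linM_hom_SOp _).1, fun c q => by
      simp only [sec1, (a1 t).1.2, (linM_hom_SOp _).2, smul_add]⟩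
  have b2 : UB_Est Real.sqrt (fun _ => ball 0 3)
      fun p : T × Bool => sec1 κ b (h p.1) (m p.1) ∘ cc p.2 := by
    refine a2.add (((ub_smul_SOp ub_id_SOp (ub_const_SOp l fun p => hx p p.2)).add
      (ub_const_SOp l fun p => hx p (!p.2))).congr fun p z _ => ?_)
    refine (congrFun (linM_chart_SOp _ p.2) z).trans ?_
    cases p.2 <;> rfl
  have b3 : UB_Est Real.sqrt (fun _ => ball 0 3)
      fun p : T × Bool => fderiv ℝ (sec1 κ b (h p.1) (m p.1) ∘ cc p.2) := by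
    refine ub_fd_add_SOp (fun p => (a1 p.1).2.1 p.2) (fun p => dR _ p.2) a3 (ub_clm_SOp fun x =>
      (ub_smul_SOp (ub_const_SOp (norm_nonneg x) fun _ => le_rfl)
        (ub_const_SOp l fun p => hx p p.2)).congr fun p z _ => ?_)
    refine (real_SOp (dC _ p.2 z) x).trans ?_
    rw [linM_chart_SOp, (aff_SOp _ _ z).deriv]
  obtain ⟨K, k, hK⟩ := (b2.clm (ContinuousLinearMap.inl ℝ V (ℂ →L[ℝ] V))).add
    (b3.clm (ContinuousLinearMap.inr ℝ V (ℂ →L[ℝ] V)))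
  have hj : ∀ t i, HB K (jc (sec1 κ b (h t) (m t)) i) (ball 0 3) := fun t i => by
    simpa [HB, Hol, jc] using hK (t, i)
  refine ⟨fun t => ⟨hom t, ?_, fun i z => ?_⟩, 3 * K + 1, by positivity, fun t =>
    ⟨fun i => ⟨fun z hz => ((hj t i).1 z hz).trans (by linarith), fun z hz z' hz' =>
      ((hj t i).2 z hz z' hz').trans
        (mul_le_mul_of_nonneg_right (by linarith) (Real.sqrt_nonneg _))⟩, fun q hq => ?_⟩⟩
  · rw [show sec1 κ b (h t) (m t) = raw κ (h t) + linM (m t - con b (raw κ (h t))) from rfl,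
      con_add_SOp b (a1 t).1 (linM_hom_SOp _), con_linM_SOp, add_sub_cancel]
  · rw [e, dbar_add_SOp ((a1 t).2.1 i z) (dR _ i z), dbar_zero_SOp (dC _ i z), add_zero,
      (a1 t).2.2]
  · have s := sph_SOp (hom t).2 (fun i => ((a1 t).2.1 i).add (dR _ i))
      (fun i z hz => norm_prod_le_iff.1 ((hj t i).1 z hz)) hq
    exact ⟨s.1.trans (by linarith), s.2.trans (by linarith)⟩

theorem smul_SOp (κ : Bumps) (b : Bool) (c : ℝ) (h : Bool → ℂ → V) (m : V × V) :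
    sec1 κ b (c • h) (c • m) = c • sec1 κ b h m := by
  have e : raw κ (c • h) = c • raw κ h := by
    funext q
    simp only [raw, Pi.smul_apply, smul_comm (κ.ρ _) c, cT_smul_SOp, smul_add, smul_comm _ c]
  funext q
  simp only [sec1, e, con_smul_SOp, ← smul_sub, linM, Pi.smul_apply, smul_add, Prod.smul_fst,
    Prod.smul_snd, smul_comm _ c]

theorem add_SOp (h1 : T1Stmt) (h3 : T3Stmt) (κ : Bumps) (b : Bool) {h h' : Bool → ℂ → V}
    (m m' : V × V) {M : ℝ} (hh : ∀ i, HB M (h i) univ) (hh' : ∀ i, HB M (h' i) univ) :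
    sec1 κ b (h + h') (m + m') = sec1 κ b h m + sec1 κ b h' m' := by
  have hM : 0 ≤ M := (norm_nonneg _).trans ((hh true).1 0 trivial)
  have key : ∀ h : Bool → ℂ → V, (∀ i, HB M (h i) univ) →
      Hom1 (raw κ h) ∧ ∃ K, ∀ i, Bdd (fun z => κ.ρ z • h i z) 0 3 K := fun h hh => by
    obtain ⟨K, -, hK⟩ := rho_SOp κ (h := h) ⟨M, hM, hh⟩
    exact ⟨((raw_SOp h1 h3 κ (h := fun _ : Unit => h) ⟨M, hM, fun p => hh p.2⟩).1 ()).1, K,
      fun i => bdd_SOp (hK i) fun z hz => by rw [κ.zero' z hz, zero_smul]⟩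
  obtain ⟨a, K, hK⟩ := key h hh
  obtain ⟨a', K', hK'⟩ := key h' hh'
  have e : raw κ (h + h') = raw κ h + raw κ h' := by
    funext q
    simp only [raw, Pi.add_apply, smul_add, cT_add_SOp (hK _) (hK' _)]
    abel
  funext q
  simp only [sec1, e, con_add_SOp b a a', linM, Pi.add_apply, Prod.fst_sub, Prod.snd_sub,
    Prod.fst_add, Prod.snd_add]
  module

theorem hb_smul_SOp {E : Type} [NormedAddCommGroup E] [NormedSpace ℝ E] {f : ℂ → E} {S : Set ℂ}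
    {K c : ℝ} (hc : 0 ≤ c) (h : HB K f S) : HB (K * c) (c • f) S := by
  refine ⟨fun z hz => ?_, fun z hz z' hz' => ?_⟩
  · rw [Pi.smul_apply, norm_smul, Real.norm_of_nonneg hc, mul_comm]
    exact mul_le_mul_of_nonneg_right (h.1 z hz) hc
  · rw [Pi.smul_apply, Pi.smul_apply, ← smul_sub, norm_smul, Real.norm_of_nonneg hc, mul_comm,
      mul_right_comm]
    exact mul_le_mul_of_nonneg_right (h.2 z hz z' hz') hc

theorem sS (h1 : T1Stmt) (h3 : T3Stmt) : SStmt := by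
  intro κ b
  obtain ⟨C, c, hC⟩ := (sec_SOp h1 h3 κ b
    (T := {p : (Bool → ℂ → V) × (V × V) // (∀ i, HB 1 (p.1 i) univ) ∧ ‖p.2‖ ≤ 1})
    (h := fun t => t.1.1) (m := fun t => t.1.2) zero_le_one (fun t => t.2.1) fun t => t.2.2).2
  refine ⟨C, c, fun h m M hh hm => ?_, fun h h' m m' M c hh hh' =>
    ⟨add_SOp h1 h3 κ b m m' hh hh', smul_SOp κ b c h m⟩⟩
  have hM : 0 ≤ M := (norm_nonneg _).trans hm
  obtain ⟨a1, a2, a3⟩ := (sec_SOp h1 h3 κ b (h := fun _ : Unit => h) (m := fun _ => m) hM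
    (fun _ => hh) fun _ => hm).1 ()
  obtain ⟨h', m', hh', hm', e, e'⟩ : ∃ (h' : Bool → ℂ → V) (m' : V × V),
      (∀ i, HB 1 (h' i) univ) ∧ ‖m'‖ ≤ 1 ∧ h = M • h' ∧ m = M • m' := by
    rcases hM.eq_or_lt with rfl | hM'
    · refine ⟨0, 0, fun i => ⟨by simp, fun z _ z' _ => by simp⟩, by simp, ?_, ?_⟩
      · funext i z
        simpa using (hh i).1 z trivial
      · simpa using hm
    · refine ⟨M⁻¹ • h, M⁻¹ • m, fun i => ?_, ?_, (smul_inv_smul₀ hM'.ne' h).symm,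
        (smul_inv_smul₀ hM'.ne' m).symm⟩
      · simpa [mul_inv_cancel₀ hM'.ne'] using hb_smul_SOp (inv_nonneg.2 hM) (hh i)
      · rw [norm_smul, norm_inv, Real.norm_of_nonneg hM, inv_mul_le_iff₀ hM', mul_one]
        exact hm
  obtain ⟨b1, b2⟩ := hC ⟨(h', m'), hh', hm'⟩
  refine ⟨a1, a2, ?_, ?_, a3⟩ <;> rw [e, e', smul_SOp]
  · intro i
    have e2 : jc (M • sec1 κ b h' m') i = M • jc (sec1 κ b h' m') i := by
      funext z
      exact Prod.ext rfl (congrFun (fderiv_const_smul_field (f := sec1 κ b h' m' ∘ cc i) M) z)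
    rw [e2]
    exact hb_smul_SOp hM (b1 i)
  · intro q hq
    rw [fderiv_const_smul_field, Pi.smul_apply, Pi.smul_apply, norm_smul, norm_smul,
      Real.norm_of_nonneg hM, mul_comm C]
    exact ⟨mul_le_mul_of_nonneg_left (b2 q hq).1 hM, mul_le_mul_of_nonneg_left (b2 q hq).2 hM⟩

end Pool.Agent.MP_2fc7fa_gt.N

end
end

section

/-! Holomorphic sections of `O(1)` are linear, and a compactness criterion. -/

open scoped Topology
open Set Complex Filter Metric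

namespace Pool.Agent.MP_2fc7fa_gt.N

theorem liou : LiouStmt := by
  rintro U b ⟨hU, hh⟩ hb hc
  have hd : ∀ q, q ≠ 0 → DifferentiableAt ℝ U q := fun q hq =>
    (hU.contDiffAt (isOpen_compl_singleton.mem_nhds hq)).differentiableAt one_ne_zero
  have h1 : ∀ z : ℂ, ((1, z) : W) ≠ 0 := fun z h => one_ne_zero (congrArg Prod.fst h)
  have h2 : ∀ z : ℂ, HasDerivAt (fun z => U (1, z)) (fderiv ℝ U (1, z) (0, 1)) z := fun z => by
    have h3 : HasFDerivAt (fun z : ℂ => U (1, z))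
        ((fderiv ℝ U (1, z)).comp (ContinuousLinearMap.inr ℝ ℂ ℂ)) z :=
      HasFDerivAt.comp (g := U) (f := fun z : ℂ => ((1 : ℂ), z)) z (hd _ (h1 z)).hasFDerivAt
        (hasFDerivAt_prodMk_right 1 z)
    have h4 : dbar (fun z : ℂ => U (1, z)) z = 0 := hb false z
    rw [dbar, h3.fderiv, smul_eq_zero_iff_right (by simp)] at h4
    have h5 : fderiv ℝ U (1, z) (0, I) = I • fderiv ℝ U (1, z) (0, 1) := by
      rw [show fderiv ℝ U (1, z) (0, 1) = -(I • fderiv ℝ U (1, z) (0, I)) from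
        eq_neg_of_add_eq_zero_left h4, smul_neg, smul_smul, I_mul_I, neg_smul, one_smul, neg_neg]
    refine hasFDerivAt_of_restrictScalars ℝ h3 (ContinuousLinearMap.ext fun w => ?_)
    have e : ((0, w) : W) = w.re • ((0, 1) : W) + w.im • ((0, I) : W) := by simp
    change w • fderiv ℝ U (1, z) (0, 1) = fderiv ℝ U (1, z) (0, w)
    rw [e, map_add, map_smul, map_smul, h5, ← Complex.coe_smul, ← Complex.coe_smul, smul_smul,
      ← add_smul, re_add_im]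
  obtain ⟨C, hC⟩ := (isCompact_sphere (0 : W) 1).exists_bound_of_continuousOn
    (hU.continuousOn.mono fun q hq (h : q = 0) => by simp [h] at hq)
  have h3 : ∀ z : ℂ, ‖U (1, z)‖ ≤ C * (1 + ‖z‖) := by
    intro z
    have h4 : ‖((1, z) : W)‖ ≠ 0 := norm_ne_zero_iff.2 (h1 z)
    have h5 := hC (((‖((1, z) : W)‖ : ℂ))⁻¹ • (1, z)) (by
      rw [mem_sphere_zero_iff_norm, norm_smul, norm_inv, norm_real, norm_norm, inv_mul_cancel₀ h4])
    have hC0 := (norm_nonneg _).trans h5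
    rw [hh, norm_smul, norm_inv, norm_real, norm_norm,
      inv_mul_le_iff₀ (norm_pos_iff.2 (h1 z)), mul_comm] at h5
    refine h5.trans (mul_le_mul_of_nonneg_left ?_ hC0)
    rw [Prod.norm_def, norm_one]
    exact max_le (by linarith [norm_nonneg z]) (by simp)
  have h4 : ∀ z : ℂ, U (1, z) = (jet U).1 + z • (jet U).2 := fun z => by
    have := liou_Lin (fun z => (h2 z).differentiableAt) h3 z
    rwa [(h2 0).deriv] at this
  have h5 : ∀ a b : ℂ, a ≠ 0 → U (a, b) = a • (jet U).1 + b • (jet U).2 := fun a b ha => by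
    have e : ((a, b) : W) = a • ((1, a⁻¹ * b) : W) := by simp [ha]
    rw [e, hh, h4, smul_add, smul_smul, mul_inv_cancel_left₀ ha]
  have h6 : U (0, 1) = (jet U).2 := by
    have h6 : ContinuousAt (fun t : ℂ => U (t, 1)) 0 :=
      ContinuousAt.comp (g := U) (f := fun t : ℂ => (t, (1 : ℂ)))
        (hd _ fun h => one_ne_zero (congrArg Prod.snd h)).continuousAt (by fun_prop)
    have h7 : ContinuousAt (fun t : ℂ => t • (jet U).1 + (1 : ℂ) • (jet U).2) 0 := by fun_prop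
    simpa using tendsto_nhds_unique_of_eventuallyEq (l := 𝓝[≠] (0 : ℂ))
      (h6.mono_left nhdsWithin_le_nhds) (h7.mono_left nhdsWithin_le_nhds)
      (eventually_nhdsWithin_of_forall fun t ht => h5 t 1 ht)
  have h7 : jet U = 0 := by
    cases b
    · exact hc
    · exact Prod.ext (congrArg Prod.fst hc :) (h6.symm.trans (congrArg Prod.snd hc))
  funext ⟨x, y⟩
  by_cases hx : x = 0
  · rw [show ((x, y) : W) = y • ((0, 1) : W) by simp [hx], hh, h6, h7]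
    simp
  · rw [h5 x y hx, h7]
    simp

lemma interp_Liou {E : Type} [NormedAddCommGroup E] {f : ℂ → E} {e L η : ℝ}
    (h1 : ∀ z, ‖f z‖ ≤ e) (h2 : ∀ z z', ‖f z - f z'‖ ≤ L * ‖z - z'‖) (h3 : e ≤ η)
    (h4 : 2 * e * L ≤ η ^ 2) : HB η f univ := by
  have he := (norm_nonneg _).trans (h1 0)
  refine ⟨fun z _ => (h1 z).trans h3, fun z _ z' _ => (sq_le_sq₀ (norm_nonneg _)
    (mul_nonneg (he.trans h3) (Real.sqrt_nonneg _))).1 ?_⟩
  rw [mul_pow, Real.sq_sqrt (norm_nonneg _), sq]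
  calc _ ≤ 2 * e * (L * ‖z - z'‖) := mul_le_mul
        ((norm_sub_le _ _).trans (by linarith [h1 z, h1 z'])) (h2 z z') (norm_nonneg _)
        (by positivity)
    _ ≤ _ := by rw [← mul_assoc]; exact mul_le_mul_of_nonneg_right h4 (norm_nonneg _)

theorem cptS : CptStmt := by
  intro X E _ _ _ _ _ K C h0 hL
  have := FiniteDimensional.complete ℝ E
  have := FiniteDimensional.proper ℝ E
  refine ⟨closure (K '' closedBall 0 1), (TotallyBounded.closure ?_).isCompact_of_isClosed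
    isClosed_closure, mem_of_superset (closedBall_mem_nhds 0 one_pos)
      fun x hx => subset_closure ⟨x, hx, rfl⟩⟩
  obtain ⟨L, hL0, hL'⟩ : ∃ L, 0 ≤ L ∧ ∀ f ∈ K '' closedBall 0 1, ∀ z z',
      ‖f.fn z - f.fn z'‖ ≤ L * ‖z - z'‖ := by
    refine ⟨|C|, abs_nonneg C, ?_⟩
    rintro _ ⟨x, hx, rfl⟩ z z'
    refine (hL x z z').trans (mul_le_mul_of_nonneg_right ?_ (norm_nonneg _))
    exact (mul_le_mul_of_nonneg_right (le_abs_self C) (norm_nonneg _)).trans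
      (mul_le_of_le_one_right (abs_nonneg C) (mem_closedBall_zero_iff.1 hx))
  refine totallyBounded_of_finite_discretization fun ε hε => ?_
  obtain ⟨δ, hδ, hδ'⟩ := exists_pos_mul_lt (lt_min (half_pos hε) (sq_pos_of_pos (half_pos hε)))
    (8 * (1 + L) ^ 2)
  rw [lt_min_iff] at hδ'
  obtain ⟨T, -, hT, hT'⟩ := finite_cover_balls_of_compact (isCompact_closedBall (0 : ℂ) 2) hδ
  obtain ⟨S, -, hS, hS'⟩ := finite_cover_balls_of_compact (isCompact_closedBall (0 : E) ‖K‖) hδ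
  have h1 : ∀ (f : K '' closedBall 0 1) (t : T), ∃ s : S, f.1.fn t ∈ ball s.1 δ := by
    rintro ⟨_, x, hx, rfl⟩ t
    have : (K x).fn t ∈ closedBall (0 : E) ‖K‖ := mem_closedBall_zero_iff.2
      (((K x).hb.1 t trivial).trans (K.unit_le_opNorm x (mem_closedBall_zero_iff.1 hx)))
    simpa using hS' this
  choose F hF using h1
  have := hT.to_subtype
  have := hS.to_subtype
  refine ⟨T → S, Fintype.ofFinite _, F, fun f g h => ?_⟩
  rw [dist_eq_norm]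
  refine (Ho.norm_le (interp_Liou (e := 2 * δ * (1 + L)) (L := 2 * L) (fun z => ?_)
    (fun z z' => ?_) ?_ ?_)).trans_lt (half_lt_self hε)
  · change ‖f.1.fn z - g.1.fn z‖ ≤ _
    by_cases hz : 2 ≤ ‖z‖
    · obtain ⟨_, x, -, rfl⟩ := f
      obtain ⟨_, y, -, rfl⟩ := g
      rw [h0 x z hz, h0 y z hz, sub_zero, norm_zero]
      positivity
    · obtain ⟨t, ht, hz'⟩ := mem_iUnion₂.1 (hT' (mem_closedBall_zero_iff.2 (not_le.1 hz).le))
      have a1 := hF f ⟨t, ht⟩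
      have a2 := hF g ⟨t, ht⟩
      rw [h] at a1
      have a3 := hL' _ f.2 z t
      have a4 := hL' _ g.2 z t
      rw [mem_ball, dist_eq_norm] at hz'
      rw [← dist_eq_norm] at a3 a4 ⊢
      have a5 := dist_triangle4_right (f.1.fn z) (g.1.fn z) (f.1.fn t) (g.1.fn t)
      have a6 := dist_triangle_right (f.1.fn t) (g.1.fn t) (F g ⟨t, ht⟩).1
      have a7 := mul_le_mul_of_nonneg_left hz'.le hL0
      rw [mem_ball] at a1 a2
      linarith
  · change ‖f.1.fn z - g.1.fn z - (f.1.fn z' - g.1.fn z')‖ ≤ _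
    rw [sub_sub_sub_comm]
    linarith [norm_sub_le (f.1.fn z - f.1.fn z') (g.1.fn z - g.1.fn z'), hL' _ f.2 z z',
      hL' _ g.2 z z']
  · nlinarith [hδ'.1, mul_nonneg hδ.le hL0, mul_nonneg hδ.le (mul_nonneg hL0 hL0)]
  · nlinarith [hδ'.2, mul_nonneg hδ.le hL0, mul_nonneg hδ.le (mul_nonneg hL0 hL0)]

end Pool.Agent.MP_2fc7fa_gt.N

end

section

/-! Smoothness and first order properties of the nonlinear part `Nl`. -/

open scoped ContDiff Topology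
open Set Complex

noncomputable section

namespace Pool.Agent.MP_2fc7fa_gt.N

lemma cc_ne_NlS (i : Bool) (z : ℂ) : cc i z ≠ 0 := by
  cases i <;> simp [cc, Prod.ext_iff]

/-- The derivative of a chart. -/
def dc_NlS (i : Bool) : ℂ →L[ℝ] W :=
  if i then ContinuousLinearMap.inl ℝ ℂ ℂ else ContinuousLinearMap.inr ℝ ℂ ℂ

lemma cc_eq_NlS (i : Bool) : cc i = fun z => dc_NlS i z + cc i 0 := by
  funext z
  cases i <;> simp [cc, dc_NlS]

lemma dc_I_NlS (i : Bool) : dc_NlS i I = I • dc_NlS i 1 := by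
  cases i <;> simp [dc_NlS]

lemma cc_smooth_NlS (i : Bool) : ContDiff ℝ ∞ (cc i) := by
  rw [cc_eq_NlS]
  exact (dc_NlS i).contDiff.add contDiff_const

lemma cc_deriv_NlS (i : Bool) (z : ℂ) : HasFDerivAt (cc i) (dc_NlS i) z := by
  rw [cc_eq_NlS]
  exact (dc_NlS i).hasFDerivAt.add_const _

section

variable {φ₀ : Fr} {U₀ : W → V} (hU : IsLine φ₀.J U₀) (hs : ContDiffOn ℝ ∞ U₀ {0}ᶜ) (i : Bool)

include hs in
lemma u_smooth_NlS : ContDiff ℝ ∞ (U₀ ∘ cc i) :=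
  hs.comp_contDiff (cc_smooth_NlS i) fun z => cc_ne_NlS i z

include hU hs

lemma B_smooth_NlS : ContDiff ℝ ∞ fun z => φ₀.B (U₀ (cc i z)) :=
  φ₀.smoothB.comp_contDiff (u_smooth_NlS hs i) fun z => hU.ne _ (cc_ne_NlS i z)

lemma x_smooth_NlS : ContDiff ℝ ∞ fun a : ℂ × V × (ℂ →L[ℝ] V) =>
    U₀ (cc i a.1) + φ₀.B (U₀ (cc i a.1)) a.2.1 :=
  ((u_smooth_NlS hs i).comp contDiff_fst).add
    (((B_smooth_NlS hU hs i).comp contDiff_fst).clm_apply contDiff_snd.fst)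

lemma w_smooth_NlS (e : ℂ) : ContDiff ℝ ∞ fun a : ℂ × V × (ℂ →L[ℝ] V) =>
    fderiv ℝ (U₀ ∘ cc i) a.1 e + fderiv ℝ (fun z => φ₀.B (U₀ (cc i z))) a.1 e a.2.1 +
      φ₀.B (U₀ (cc i a.1)) (a.2.2 e) := by
  have h1 := (contDiff_infty_iff_fderiv.1 (u_smooth_NlS hs i)).2
  have h2 := (contDiff_infty_iff_fderiv.1 (B_smooth_NlS hU hs i)).2
  exact (((h1.comp contDiff_fst).clm_apply contDiff_const).add
    (((h2.comp contDiff_fst).clm_apply contDiff_const).clm_apply contDiff_snd.fst)).add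
    (((B_smooth_NlS hU hs i).comp contDiff_fst).clm_apply
      (contDiff_snd.snd.clm_apply contDiff_const))

lemma open_NlS : IsOpen (NlDom φ₀ U₀ i) :=
  isOpen_ne_fun (x_smooth_NlS hU hs i).continuous continuous_const

lemma fam_NlS {P : Type} [TopologicalSpace P] {φ : P → Fr} (hφ : FrFam φ) (n : ℕ) :
    Fam (NlDom φ₀ U₀ i) n V fun p => Nl (φ p) φ₀ U₀ i := by
  have ho := (open_NlS hU hs i).uniqueDiffOn (𝕜 := ℝ)
  have hA := (hφ n).2.comp (fam_of_contDiffOn ho (x_smooth_NlS hU hs i).contDiffOn)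
    fun _ a ha => ha
  have h1 := fun e => hA.bilin (fam_of_contDiffOn ho (w_smooth_NlS hU hs i e).contDiffOn)
    (ContinuousLinearMap.id ℝ (V →L[ℝ] V))
  have hc : ∀ c : ℂ, ∃ L : V →L[ℝ] V, ∀ v, L v = c • v := fun c =>
    ⟨(c • ContinuousLinearMap.id ℂ V).restrictScalars ℝ, fun _ => rfl⟩
  obtain ⟨L, hL⟩ := hc (1 / 2)
  obtain ⟨M, hM⟩ := hc I
  have h2 : ContDiff ℝ ∞ fun a : ℂ × V × (ℂ →L[ℝ] V) => -L (a.2.2 1 + M (a.2.2 I)) :=
    (L.contDiff.comp ((contDiff_snd.snd.clm_apply contDiff_const).add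
      (M.contDiff.comp (contDiff_snd.snd.clm_apply contDiff_const)))).neg
  refine ((((h1 1).add ((h1 I).clm M)).clm L).add (fam_of_contDiffOn ho h2.contDiffOn)).congr
    fun p a _ => ?_
  simp only [Nl, hL, hM, ContinuousLinearMap.id_apply, sub_eq_add_neg]

omit hs in
lemma zero_NlS (z : ℂ) (d : ℂ →L[ℝ] V) : Nl φ₀ φ₀ U₀ i (z, 0, d) = 0 := by
  have hq := cc_ne_NlS i z
  have hx := hU.ne _ hq
  have hd : DifferentiableAt ℝ U₀ (cc i z) :=
    (hU.c1.contDiffAt (isOpen_compl_singleton.mem_nhds hq)).differentiableAt one_ne_zero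
  have h1 : fderiv ℝ (U₀ ∘ cc i) z = (fderiv ℝ U₀ (cc i z)).comp (dc_NlS i) :=
    (hd.hasFDerivAt.comp z (cc_deriv_NlS i z)).fderiv
  have h2 : φ₀.A (U₀ (cc i z)) (fderiv ℝ (U₀ ∘ cc i) z I) =
      I • φ₀.A (U₀ (cc i z)) (fderiv ℝ (U₀ ∘ cc i) z 1) := by
    rw [h1, ContinuousLinearMap.comp_apply, ContinuousLinearMap.comp_apply, dc_I_NlS,
      hU.hol _ hq, Fr.J, φ₀.AB _ hx]
  simp only [Nl, map_zero, add_zero, map_add, φ₀.AB _ hx, h2, smul_add, smul_smul, I_mul_I]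
  module

end

theorem nlS (hS : LineSmoothStmt) : NlStmt := by
  intro P _ φ φ₀ U₀ i hφ hU
  have hs := hS φ₀ U₀ hU
  refine ⟨open_NlS hU hs i, fam_NlS hU hs i hφ, fun z => zero_NlS hU i z 0, fun z y d => ?_⟩
  have hc : FrFam fun _ : Unit => φ₀ := fun n =>
    ⟨fam_of_contDiffOn isOpen_compl_singleton.uniqueDiffOn φ₀.smoothB,
      fam_of_contDiffOn isOpen_compl_singleton.uniqueDiffOn φ₀.smoothA⟩
  have hm : ((z, 0) : ℂ × V × (ℂ →L[ℝ] V)) ∈ NlDom φ₀ U₀ i := by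
    simpa [NlDom] using hU.ne _ (cc_ne_NlS i z)
  have hd : DifferentiableAt ℝ (Nl φ₀ φ₀ U₀ i) (z, 0) :=
    ((fam_NlS hU hs i hc 1).diffOn () _ hm).differentiableAt ((open_NlS hU hs i).mem_nhds hm)
  have h1 : HasFDerivAt (fun t : ℝ => ((z, 0) : ℂ × V × (ℂ →L[ℝ] V)) + t • (0, 0, d))
      (ContinuousLinearMap.toSpanSingleton ℝ ((0, 0, d) : ℂ × V × (ℂ →L[ℝ] V))) 0 :=
    (ContinuousLinearMap.toSpanSingleton ℝ
      ((0, 0, d) : ℂ × V × (ℂ →L[ℝ] V))).hasFDerivAt.const_add _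
  have h0 : HasFDerivAt (Nl φ₀ φ₀ U₀ i) (fderiv ℝ (Nl φ₀ φ₀ U₀ i) (z, 0))
      (((z, 0) : ℂ × V × (ℂ →L[ℝ] V)) + (0 : ℝ) • (0, 0, d)) := by
    rw [show ((z, 0) : ℂ × V × (ℂ →L[ℝ] V)) + (0 : ℝ) • (0, 0, d) = (z, 0) by
      ext <;> simp]
    exact hd.hasFDerivAt
  have h2 := HasFDerivAt.comp (0 : ℝ) h0 h1
  have h3 : (Nl φ₀ φ₀ U₀ i ∘ fun t : ℝ => ((z, 0) : ℂ × V × (ℂ →L[ℝ] V)) + t • (0, 0, d)) =
      fun _ => 0 := funext fun t => by simpa using zero_NlS hU i z (t • d)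
  rw [h3] at h2
  have h4 := congrArg (fun L : ℝ →L[ℝ] V => L 1) (h2.unique (hasFDerivAt_const 0 0))
  simp only [ContinuousLinearMap.comp_apply, ContinuousLinearMap.toSpanSingleton_apply, one_smul,
    zero_apply] at h4
  have h5 : ((0, y, d) : ℂ × V × (ℂ →L[ℝ] V)) = (0, y, 0) + (0, 0, d) := by simp
  rw [h5, map_add, h4, add_zero]

end Pool.Agent.MP_2fc7fa_gt.N

end
end

section

/-! Solutions of the cut-off equation are lines, and conversely. -/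

open scoped ContDiff ComplexConjugate Topology
open Set Complex

namespace Pool.Agent.MP_2fc7fa_gt.N

theorem diff_ToLine {U : W → V} (h : Hom1 U) {q : W} (hq : q ≠ 0) :
    HasFDerivAt U (fderiv ℝ U q) q :=
  ((h.1.contDiffAt (isOpen_compl_singleton.mem_nhds hq)).differentiableAt
    one_ne_zero).hasFDerivAt

theorem zero_ToLine {U : W → V} (h : Hom1 U) : U 0 = 0 := by
  simpa using h.2 0 0

theorem fd_smul_ToLine {U : W → V} (h : Hom1 U) {c : ℂ} (hc : c ≠ 0) {q : W}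
    (hq : q ≠ 0) (k : W) : fderiv ℝ U (c • q) (c • k) = c • fderiv ℝ U q k := by
  let G : W →L[ℝ] W := (c • ContinuousLinearMap.id ℂ W).restrictScalars ℝ
  have h1 : HasFDerivAt (U ∘ G) ((fderiv ℝ U (c • q)).comp G) q :=
    HasFDerivAt.comp q (diff_ToLine h (smul_ne_zero hc hq)) G.hasFDerivAt
  have h2 : U ∘ G = c • U := funext fun x => h.2 c x
  rw [h2] at h1
  exact congrArg (fun T : W →L[ℝ] V => T k) (h1.unique ((diff_ToLine h hq).const_smul c))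

theorem fd_rad_ToLine {U : W → V} (h : Hom1 U) {q : W} (hq : q ≠ 0) (a : ℂ) :
    fderiv ℝ U q (a • q) = a • U q := by
  let L : ℂ →L[ℝ] W := (ContinuousLinearMap.toSpanSingleton ℂ q).restrictScalars ℝ
  let M : ℂ →L[ℝ] V := (ContinuousLinearMap.toSpanSingleton ℂ (U q)).restrictScalars ℝ
  have e : L 1 = q := one_smul ℂ q
  have h1 : HasFDerivAt (U ∘ L) ((fderiv ℝ U q).comp L) 1 :=
    HasFDerivAt.comp 1 (by rw [e]; exact diff_ToLine h hq) L.hasFDerivAt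
  have h2 : U ∘ L = M := funext fun z => h.2 z q
  rw [h2] at h1
  exact congrArg (fun T : ℂ →L[ℝ] V => T a) (h1.unique M.hasFDerivAt)

theorem A_scale_ToLine (φ : Fr) {x : V} (hx : x ≠ 0) {c : ℂ} (hc : c ≠ 0) (v : V) :
    φ.A (c • x) (c • v) = c • φ.A x v := by
  conv_lhs => rw [← φ.BA x hx v, ← φ.scale x hx c hc, φ.AB _ (smul_ne_zero hc hx)]

theorem A_vert_ToLine (φ : Fr) {x : V} (hx : x ≠ 0) (c : ℂ) : φ.A x (c • x) = c • x := by
  conv_lhs => rw [← φ.vert x hx c, φ.AB x hx]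

theorem hom_of_ToLine {U : W → V} (h1 : ContDiffOn ℝ 1 U {0}ᶜ) (h0 : U 0 = 0)
    (h2 : ∀ c : ℂ, c ≠ 0 → ∀ q, q ≠ 0 → U (c • q) = c • U q) : Hom1 U := by
  refine ⟨h1, fun c q => ?_⟩
  by_cases hc : c = 0
  · rw [hc, zero_smul, zero_smul, h0]
  by_cases hq : q = 0
  · rw [hq, smul_zero, h0, smul_zero]
  exact h2 c hc q hq

theorem cc_ne_ToLine (i : Bool) (z : ℂ) : cc i z ≠ 0 := by
  cases i <;> simp [cc]

theorem cc_der_ToLine (i : Bool) (z : ℂ) : HasFDerivAt (cc i)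
    ((ContinuousLinearMap.toSpanSingleton ℂ (cc i 1 - cc i 0)).restrictScalars ℝ) z := by
  have h : cc i = fun w => cc i 0 +
      ((ContinuousLinearMap.toSpanSingleton ℂ (cc i 1 - cc i 0)).restrictScalars ℝ) w := by
    funext w
    cases i <;> simp [cc]
  have h2 := ((ContinuousLinearMap.toSpanSingleton ℂ (cc i 1 - cc i 0)).restrictScalars
    ℝ).hasFDerivAt.const_add (x := z) (cc i 0)
  rwa [← h] at h2

theorem fd_cc_ToLine {E : Type} [NormedAddCommGroup E] [NormedSpace ℝ E] {F : W → E}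
    {L : W →L[ℝ] E} {i : Bool} {z : ℂ} (h : HasFDerivAt F L (cc i z)) (w : ℂ) :
    fderiv ℝ (F ∘ cc i) z w = L (w • (cc i 1 - cc i 0)) :=
  congrArg (fun T : ℂ →L[ℝ] E => T w) (h.comp z (cc_der_ToLine i z)).fderiv

/-- The antilinear part. -/
noncomputable def al_ToLine (L : W → W →L[ℝ] V) (q k : W) : V := L q k + I • L q (I • k)

theorem cov_ToLine (hC : CovStmt) (L : W → W →L[ℝ] V) (y : W → V)
    (h1 : ∀ q, q ≠ 0 → ∀ c : ℂ, L q (c • q) = c • y q)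
    (h2 : ∀ q, q ≠ 0 → ∀ c : ℂ, c ≠ 0 → ∀ k, L (c • q) (c • k) = c • L q k) :
    (∀ i z, z ≠ 0 → al_ToLine L (cc i z) (cc i 1 - cc i 0) =
      tr (fun w => al_ToLine L (cc (!i) w) (cc (!i) 1 - cc (!i) 0)) z) ∧
    ((∀ i z, al_ToLine L (cc i z) (cc i 1 - cc i 0) = 0) →
      ∀ q, q ≠ 0 → ∀ h, al_ToLine L q h = 0) := by
  refine hC _ (fun q _ h h' => ?_) (fun q _ c h => ?_) (fun q hq => ?_) fun q hq c hc h => ?_
  · simp only [al_ToLine, smul_add, map_add]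
    abel
  · have e1 : c • h = c.re • h + c.im • (I • h) := by
      rw [← coe_smul, ← coe_smul, smul_smul, ← add_smul, re_add_im]
    have e2 : I • c • h = c.re • (I • h) - c.im • h := by
      rw [← coe_smul, ← coe_smul, smul_smul, smul_smul, ← sub_smul]
      congr 1
      apply Complex.ext <;> simp
    have e3 : conj c = c.re - c.im * I := by
      apply Complex.ext <;> simp
    have f1 : L q (c • h) = (c.re : ℂ) • L q h + (c.im : ℂ) • L q (I • h) := by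
      rw [e1, map_add, map_smul, map_smul, coe_smul, coe_smul]
    have f2 : L q (I • c • h) = (c.re : ℂ) • L q (I • h) - (c.im : ℂ) • L q h := by
      rw [e2, map_sub, map_smul _ c.re, map_smul _ c.im, coe_smul, coe_smul]
    rw [al_ToLine, al_ToLine, f1, f2, e3]
    generalize L q h = x
    generalize L q (I • h) = y
    match_scalars
    · ring
    · linear_combination (c.im : ℂ) * I_mul_I
  · have := h1 q hq 1
    rw [one_smul, one_smul] at this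
    rw [al_ToLine, this, h1 q hq, smul_smul, I_mul_I, neg_one_smul, add_neg_cancel]
  · rw [al_ToLine, al_ToLine, smul_comm I c h, h2 q hq c hc, h2 q hq c hc, smul_add,
      smul_comm I c]

theorem dbar_ToLine {η : W → V} (h : Hom1 η) (i : Bool) (z : ℂ) : dbar (η ∘ cc i) z =
    (1 / 2 : ℂ) • al_ToLine (fderiv ℝ η) (cc i z) (cc i 1 - cc i 0) := by
  rw [dbar, fd_cc_ToLine (diff_ToLine h (cc_ne_ToLine i z)),
    fd_cc_ToLine (diff_ToLine h (cc_ne_ToLine i z)), one_smul, al_ToLine]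

variable {φ φ₀ : Fr} {U₀ η : W → V}

theorem BU_ToLine (h0 : IsLine φ₀.J U₀) : ContDiffOn ℝ 1 (fun q => φ₀.B (U₀ q)) {0}ᶜ :=
  (φ₀.smoothB.of_le (mod_cast le_top)).comp h0.c1 fun q hq => h0.ne q hq

theorem hom_pert_ToLine (h0 : IsLine φ₀.J U₀) (h : Hom1 η) : Hom1 (pert φ₀ U₀ η) := by
  refine hom_of_ToLine (h0.c1.add ((BU_ToLine h0).clm_apply h.1)) ?_ fun c hc q hq => ?_
  · rw [pert, zero_ToLine h, zero_ToLine ⟨h0.c1, h0.hom⟩, map_zero, add_zero]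
  · rw [pert, pert, h0.hom, h.2, φ₀.scale _ (h0.ne q hq) c hc, smul_add]

theorem fd_pert_ToLine (h0 : IsLine φ₀.J U₀) (h : Hom1 η) {q : W} (hq : q ≠ 0) (k : W) :
    fderiv ℝ (pert φ₀ U₀ η) q k = fderiv ℝ U₀ q k +
      fderiv ℝ (fun q => φ₀.B (U₀ q)) q k (η q) + φ₀.B (U₀ q) (fderiv ℝ η q k) := by
  have hB := (((BU_ToLine h0).contDiffAt (isOpen_compl_singleton.mem_nhds hq)).differentiableAt
    one_ne_zero).hasFDerivAt
  have h1 : HasFDerivAt (pert φ₀ U₀ η) _ q :=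
    (diff_ToLine ⟨h0.c1, h0.hom⟩ hq).add (hB.clm_apply (diff_ToLine h hq))
  rw [h1.fderiv]
  simp only [add_apply, ContinuousLinearMap.comp_apply,
    ContinuousLinearMap.flip_apply]
  abel

/-- The derivative read in the frame. -/
noncomputable def AD_ToLine (φ : Fr) (U : W → V) (q : W) : W →L[ℝ] V :=
  (φ.A (U q)).comp (fderiv ℝ U q)

theorem Nl_ToLine (h0 : IsLine φ₀.J U₀) (h : Hom1 η) (i : Bool) (z : ℂ) :
    Nl φ φ₀ U₀ i (z, jc η i z) =
      (1 / 2 : ℂ) • al_ToLine (AD_ToLine φ (pert φ₀ U₀ η)) (cc i z) (cc i 1 - cc i 0) -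
        dbar (η ∘ cc i) z := by
  have hq := cc_ne_ToLine i z
  have hB := (((BU_ToLine h0).contDiffAt (isOpen_compl_singleton.mem_nhds hq)).differentiableAt
    one_ne_zero).hasFDerivAt
  have e : ∀ w : ℂ, fderiv ℝ (U₀ ∘ cc i) z w +
      fderiv ℝ (fun z => φ₀.B (U₀ (cc i z))) z w (η (cc i z)) +
      φ₀.B (U₀ (cc i z)) (fderiv ℝ (η ∘ cc i) z w) =
      fderiv ℝ (pert φ₀ U₀ η) (cc i z) (w • (cc i 1 - cc i 0)) := by
    intro w
    rw [fd_pert_ToLine h0 h hq, ← fd_cc_ToLine hB w,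
      fd_cc_ToLine (diff_ToLine ⟨h0.c1, h0.hom⟩ hq), fd_cc_ToLine (diff_ToLine h hq)]
    rfl
  simp only [Nl, jc, e, one_smul]
  rfl

theorem covA_ToLine (hC : CovStmt) (φ : Fr) {U : W → V} (h : Hom1 U)
    (hne : ∀ q, q ≠ 0 → U q ≠ 0) :
    (∀ i z, z ≠ 0 → al_ToLine (AD_ToLine φ U) (cc i z) (cc i 1 - cc i 0) =
      tr (fun w => al_ToLine (AD_ToLine φ U) (cc (!i) w) (cc (!i) 1 - cc (!i) 0)) z) ∧
    ((∀ i z, al_ToLine (AD_ToLine φ U) (cc i z) (cc i 1 - cc i 0) = 0) →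
      ∀ q, q ≠ 0 → ∀ h, al_ToLine (AD_ToLine φ U) q h = 0) := by
  refine cov_ToLine hC _ U (fun q hq c => ?_) fun q hq c hc k => ?_
  · rw [AD_ToLine, ContinuousLinearMap.comp_apply, fd_rad_ToLine h hq,
      A_vert_ToLine φ (hne q hq)]
  · rw [AD_ToLine, AD_ToLine, ContinuousLinearMap.comp_apply, ContinuousLinearMap.comp_apply,
      fd_smul_ToLine h hc hq, h.2, A_scale_ToLine φ (hne q hq) hc]

theorem Nl_tr_ToLine (hC : CovStmt) (h0 : IsLine φ₀.J U₀) (h : Hom1 η)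
    (hne : ∀ q, q ≠ 0 → pert φ₀ U₀ η q ≠ 0) (i : Bool) (z : ℂ) (hz : z ≠ 0) :
    Nl φ φ₀ U₀ i (z, jc η i z) = tr (fun w => Nl φ φ₀ U₀ (!i) (w, jc η (!i) w)) z := by
  have h1 := (covA_ToLine hC φ (hom_pert_ToLine h0 h) hne).1 i z hz
  have h2 := (cov_ToLine hC (fderiv ℝ η) η (fun q hq c => fd_rad_ToLine h hq c)
    fun q hq c hc k => fd_smul_ToLine h hc hq k).1 i z hz
  rw [Nl_ToLine h0 h, dbar_ToLine h, h1, h2, tr, tr, tr, Nl_ToLine h0 h, dbar_ToLine h, smul_sub,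
    smul_comm (1 / 2 : ℂ), smul_comm (1 / 2 : ℂ)]

theorem glue_ToLine (κ : Bumps) (N h : Bool → ℂ → V) (hN : ∀ i z, z ≠ 0 → N i z = tr (N (!i)) z)
    (hh : ∀ i z, h i z = -(κ.χ z • N i z)) (i : Bool) (z : ℂ) :
    κ.ρ z • h i z + tr (fun w => κ.ρ w • h (!i) w) z = -N i z := by
  have e : ∀ i z, κ.ρ z • h i z = -(κ.χ z • N i z) := by
    intro i z
    rw [hh]
    rcases le_total ‖z‖ 2 with hz | hz
    · rw [κ.one' z hz, one_smul]
    · rw [κ.zero z hz, zero_smul, neg_zero, smul_zero]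
  rw [tr, e, e]
  by_cases hz : z = 0
  · subst hz
    rw [κ.one 0 (by simp), zero_div, neg_zero, zero_smul, add_zero, one_smul]
  · have h1 := hN i z hz
    rw [tr] at h1
    rw [smul_neg, smul_comm, ← h1, ← neg_add, ← add_smul, κ.sum z hz, one_smul]

theorem con_pert_ToLine (h0 : IsLine φ₀.J U₀) (h : Hom1 η) (b : Bool) :
    mOf φ₀ U₀ b (con b (pert φ₀ U₀ η)) = con b η := by
  have e1 : ((1, 0) : W) ≠ 0 := by simp
  have e2 : ((0, 1) : W) ≠ 0 := by simp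
  have k : ∀ q : W, q ≠ 0 → φ₀.A (U₀ q) (pert φ₀ U₀ η q - U₀ q) = η q := fun q hq => by
    rw [pert, add_sub_cancel_left, φ₀.AB _ (h0.ne q hq)]
  cases b
  · simp only [mOf, con, jet, Bool.false_eq_true, if_false, k _ e1, fd_pert_ToLine h0 h e1]
    rw [add_assoc, add_sub_cancel_left, add_sub_cancel_left, φ₀.AB _ (h0.ne _ e1)]
  · simp only [mOf, con, if_true, k _ e1, k _ e2]

theorem mOf_inj_ToLine (h0 : IsLine φ₀.J U₀) (b : Bool) {a a' : V × V}
    (h : mOf φ₀ U₀ b a = mOf φ₀ U₀ b a') : a = a' := by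
  have e1 : ((1, 0) : W) ≠ 0 := by simp
  have e2 : ((0, 1) : W) ≠ 0 := by simp
  have k : ∀ q : W, q ≠ 0 → Function.Injective (φ₀.A (U₀ q)) := fun q hq =>
    Function.LeftInverse.injective (φ₀.BA _ (h0.ne q hq))
  have h1 : a.1 = a'.1 := sub_left_injective (k _ e1 (congrArg Prod.fst h))
  have h2 := congrArg Prod.snd h
  refine Prod.ext h1 ?_
  cases b
  · simp only [mOf, Bool.false_eq_true, if_false, h1] at h2
    exact sub_left_injective (sub_left_injective (k _ e1 h2))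
  · simp only [mOf, if_true] at h2
    exact sub_left_injective (k _ e2 h2)

theorem sec_ToLine (hS : SStmt) (κ : Bumps) (b : Bool) {h : Bool → ℂ → V} {M : ℝ}
    (hM : ∀ i, HB M (h i) univ) (m : V × V) :
    Hom1 (sec1 κ b h m) ∧ con b (sec1 κ b h m) = m ∧ ∀ i z, dbar (sec1 κ b h m ∘ cc i) z =
      κ.ρ z • h i z + tr (fun w => κ.ρ w • h (!i) w) z := by
  obtain ⟨C, -, h1, -⟩ := hS κ b
  obtain ⟨a1, a2, -, -, a3⟩ := h1 h m (max M ‖m‖) (fun i =>
    ⟨fun z hz => ((hM i).1 z hz).trans (le_max_left _ _), fun z hz z' hz' =>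
      ((hM i).2 z hz z' hz').trans
        (mul_le_mul_of_nonneg_right (le_max_left _ _) (Real.sqrt_nonneg _))⟩) (le_max_right _ _)
  exact ⟨a1, a2, a3⟩

theorem toLine (hS : SStmt) (hC : CovStmt) : ToLineStmt := by
  intro κ φ φ₀ U₀ b h a M h0 hM hne heq
  obtain ⟨h1, h2, h3⟩ := sec_ToLine hS κ b hM (mOf φ₀ U₀ b a)
  generalize sec1 κ b h (mOf φ₀ U₀ b a) = η at hne heq h1 h2 h3 ⊢
  have hU := hom_pert_ToLine h0 h1
  refine ⟨⟨hU.1, hne, hU.2, fun q hq k => ?_⟩,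
    mOf_inj_ToLine h0 b ((con_pert_ToLine h0 h1 b).trans h2)⟩
  have h4 := (covA_ToLine hC φ hU hne).2 (fun i z => by
    have e := (h3 i z).trans (glue_ToLine κ (fun i z => Nl φ φ₀ U₀ i (z, jc η i z)) h
      (Nl_tr_ToLine hC h0 h1 hne) (fun i z => eq_neg_of_add_eq_zero_left (heq i z)) i z)
    rw [Nl_ToLine h0 h1, neg_sub, eq_sub_iff_add_eq, add_eq_left, smul_eq_zero] at e
    exact e.resolve_left (by norm_num)) q hq k
  have h5 : AD_ToLine φ (pert φ₀ U₀ η) q (I • k) = I • AD_ToLine φ (pert φ₀ U₀ η) q k := by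
    rw [eq_neg_of_add_eq_zero_left h4, smul_neg, smul_smul, I_mul_I, neg_one_smul, neg_neg]
  rw [← φ.BA _ (hne q hq) (fderiv ℝ (pert φ₀ U₀ η) q (I • k))]
  exact congrArg (φ.B _) h5

theorem fromLine (hS : SStmt) (hC : CovStmt) (hL : LiouStmt) : FromLineStmt := by
  intro κ φ φ₀ U₀ U b M h0 hU hM
  have h1 : Hom1 (etaOf φ₀ U₀ U) := by
    refine hom_of_ToLine (((φ₀.smoothA.of_le (mod_cast le_top)).comp h0.c1
      fun q hq => h0.ne q hq).clm_apply (hU.c1.sub h0.c1)) ?_ fun c hc q hq => ?_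
    · rw [etaOf, zero_ToLine ⟨hU.c1, hU.hom⟩, zero_ToLine ⟨h0.c1, h0.hom⟩, sub_zero, map_zero]
    · rw [etaOf, etaOf, hU.hom, h0.hom, ← smul_sub, A_scale_ToLine φ₀ (h0.ne q hq) hc]
  have hp : pert φ₀ U₀ (etaOf φ₀ U₀ U) = U := by
    funext q
    by_cases hq : q = 0
    · rw [hq, zero_ToLine (hom_pert_ToLine h0 h1), zero_ToLine ⟨hU.c1, hU.hom⟩]
    · rw [pert, etaOf, φ₀.BA _ (h0.ne q hq), add_sub_cancel]
  refine ⟨?_, hp⟩
  obtain ⟨a1, a2, a3⟩ := sec_ToLine hS κ b hM (mOf φ₀ U₀ b (con b U))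
  have hg := glue_ToLine κ (fun i z => Nl φ φ₀ U₀ i (z, jc (etaOf φ₀ U₀ U) i z))
    (hOf κ φ φ₀ U₀ U) (Nl_tr_ToLine hC h0 h1 (by rw [hp]; exact hU.ne)) fun _ _ => rfl
  have hc := con_pert_ToLine h0 h1 b
  have hN := Nl_ToLine (φ := φ) h0 h1
  rw [hp] at hc hN
  generalize sec1 κ b (hOf κ φ φ₀ U₀ U) (mOf φ₀ U₀ b (con b U)) = η' at a1 a2 a3 ⊢
  generalize etaOf φ₀ U₀ U = η at h1 hg hc hN ⊢
  have hd : Hom1 (η - η') := ⟨h1.1.sub a1.1, fun c q => by
    rw [Pi.sub_apply, Pi.sub_apply, h1.2, a1.2, smul_sub]⟩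
  have hfd : ∀ q, q ≠ 0 → fderiv ℝ (η - η') q = fderiv ℝ η q - fderiv ℝ η' q := fun q hq =>
    ((diff_ToLine h1 hq).sub (diff_ToLine a1 hq)).fderiv
  refine sub_eq_zero.1 (hL _ b hd (fun i z => ?_) ?_)
  · have hq := cc_ne_ToLine i z
    have e0 : al_ToLine (AD_ToLine φ U) (cc i z) (cc i 1 - cc i 0) = 0 := by
      simp only [al_ToLine, AD_ToLine, ContinuousLinearMap.comp_apply]
      rw [hU.hol _ hq, Fr.J, φ.AB _ (hU.ne _ hq), smul_smul, I_mul_I, neg_one_smul,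
        add_neg_cancel]
    have e1 : dbar (η' ∘ cc i) z = dbar (η ∘ cc i) z := by
      rw [a3, hg, hN, e0, smul_zero, zero_sub, neg_neg]
    rw [dbar_ToLine h1, dbar_ToLine a1] at e1
    rw [dbar_ToLine hd, ← sub_self ((1 / 2 : ℂ) • al_ToLine (fderiv ℝ η) (cc i z) _)]
    nth_rewrite 2 [← e1]
    simp only [al_ToLine, hfd _ hq, sub_apply, smul_sub, smul_add]
    abel
  · have e1 : ((1, 0) : W) ≠ 0 := by simp
    have e : con b (η - η') = con b η - con b η' := by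
      cases b
      · simp only [con, jet, Bool.false_eq_true, if_false, hfd _ e1]
        rfl
      · rfl
    rw [e, a2, hc, sub_self]

end Pool.Agent.MP_2fc7fa_gt.N

end

section

/-! A line that is close to a given line has a small Hoelder jet. -/

open scoped ContDiff ComplexConjugate Topology NNReal
open Set Complex Filter Metric

noncomputable section

namespace Pool.Agent.MP_2fc7fa_gt.N

/-- Bounded by `s` and Lipschitz with constant `L` on the ball of radius three. -/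
def BL_Small {E : Type} [NormedAddCommGroup E] (s L : ℝ) (f : ℂ → E) : Prop :=
  (∀ z ∈ ball (0 : ℂ) 3, ‖f z‖ ≤ s) ∧
    ∀ z ∈ ball (0 : ℂ) 3, ∀ z' ∈ ball (0 : ℂ) 3, ‖f z - f z'‖ ≤ L * ‖z - z'‖

section
variable {E F G : Type} [NormedAddCommGroup E] [NormedAddCommGroup F] [NormedAddCommGroup G]

theorem nonneg_Small {s L : ℝ} {f : ℂ → E} (h : BL_Small s L f) : 0 ≤ s :=
  (norm_nonneg _).trans (h.1 0 (mem_ball_self (by norm_num)))

theorem bil_Small (B : E → F → G) (h1 : ∀ x y, ‖B x y‖ ≤ ‖x‖ * ‖y‖)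
    (h2 : ∀ x x' y y', B x y - B x' y' = B x (y - y') + B (x - x') y') {s L s' L' : ℝ}
    {f : ℂ → E} {g : ℂ → F} (hf : BL_Small s L f) (hg : BL_Small s' L' g) :
    BL_Small (s * s') (s * L' + L * s') fun z => B (f z) (g z) := by
  have p := nonneg_Small hf
  refine ⟨fun z hz => (h1 _ _).trans (mul_le_mul (hf.1 z hz) (hg.1 z hz) (norm_nonneg _) p),
    fun z hz z' hz' => ?_⟩
  have a := (h1 (f z) (g z - g z')).trans
    (mul_le_mul (hf.1 z hz) (hg.2 z hz z' hz') (norm_nonneg _) p)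
  have b := (h1 (f z - f z') (g z')).trans
    (mul_le_mul (hf.2 z hz z' hz') (hg.1 z' hz') (norm_nonneg _)
      ((norm_nonneg _).trans (hf.2 z hz z' hz')))
  simp only
  rw [h2]
  refine (norm_add_le _ _).trans ?_
  linarith

theorem add_Small {s L s' L' : ℝ} {f g : ℂ → E} (hf : BL_Small s L f) (hg : BL_Small s' L' g) :
    BL_Small (s + s') (L + L') fun z => f z + g z := by
  refine ⟨fun z hz => (norm_add_le _ _).trans (add_le_add (hf.1 z hz) (hg.1 z hz)),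
    fun z hz z' hz' => ?_⟩
  simp only
  rw [add_sub_add_comm, add_mul]
  exact (norm_add_le _ _).trans (add_le_add (hf.2 z hz z' hz') (hg.2 z hz z' hz'))

theorem prod_Small {s L s' L' : ℝ} {f : ℂ → E} {g : ℂ → F} (hf : BL_Small s L f)
    (hg : BL_Small s' L' g) : BL_Small (s + s') (L + L') fun z => (f z, g z) := by
  refine ⟨fun z hz => ?_, fun z hz z' hz' => ?_⟩
  · have a := hf.1 z hz
    have b := hg.1 z hz
    rw [Prod.norm_def, max_le_iff]
    constructor <;> linarith [nonneg_Small hf, nonneg_Small hg]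
  · have a := hf.2 z hz z' hz'
    have b := hg.2 z hz z' hz'
    simp only
    rw [Prod.mk_sub_mk, Prod.norm_def, max_le_iff, add_mul]
    constructor <;> linarith [norm_nonneg (f z - f z'), norm_nonneg (g z - g z')]

theorem mono_Small {s L s' L' : ℝ} {f : ℂ → E} (hf : BL_Small s L f) (h1 : s ≤ s') (h2 : L ≤ L') :
    BL_Small s' L' f :=
  ⟨fun z hz => (hf.1 z hz).trans h1, fun z hz z' hz' =>
    (hf.2 z hz z' hz').trans (mul_le_mul_of_nonneg_right h2 (norm_nonneg _))⟩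

theorem hb_Small {s L δ : ℝ} {f : ℂ → E} (hf : BL_Small s L f) (hδ : 0 < δ) (h1 : s ≤ δ)
    (h2 : 2 * s * L ≤ δ ^ 2) : HB δ f (ball 0 3) := by
  refine ⟨fun z hz => (hf.1 z hz).trans h1, fun z hz z' hz' => ?_⟩
  have a := hf.2 z hz z' hz'
  have b : ‖f z - f z'‖ ≤ 2 * s := by
    linarith [norm_sub_le (f z) (f z'), hf.1 z hz, hf.1 z' hz']
  have c : ‖f z - f z'‖ * ‖f z - f z'‖ ≤ 2 * s * (L * ‖z - z'‖) :=
    mul_le_mul b a (norm_nonneg _) ((norm_nonneg _).trans b)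
  apply (sq_le_sq₀ (norm_nonneg _) (by positivity)).1
  rw [mul_pow, Real.sq_sqrt (norm_nonneg _)]
  nlinarith [mul_le_mul_of_nonneg_right h2 (norm_nonneg (z - z'))]

theorem smooth_Small [NormedSpace ℝ E] {f : ℂ → E} (hf : ContDiff ℝ 1 f) :
    ∃ M : ℝ, 0 ≤ M ∧ BL_Small M M f := by
  obtain ⟨K, hK⟩ := (hf.contDiffOn (s := closedBall (0 : ℂ) 3)).exists_lipschitzOnWith one_ne_zero
    (convex_closedBall _ _) (isCompact_closedBall _ _)
  obtain ⟨C, hC⟩ := (isCompact_closedBall (0 : ℂ) 3).exists_bound_of_continuousOn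
    hf.continuous.continuousOn
  have p : 0 ≤ C := (norm_nonneg _).trans (hC 0 (mem_closedBall_self (by norm_num)))
  have q : (0 : ℝ) ≤ K := K.2
  refine ⟨C + K, by positivity, fun z hz => ?_, fun z hz z' hz' => ?_⟩
  · linarith [hC z (ball_subset_closedBall hz)]
  · have := hK.dist_le_mul z (ball_subset_closedBall hz) z' (ball_subset_closedBall hz')
    rw [dist_eq_norm, dist_eq_norm] at this
    exact this.trans (mul_le_mul_of_nonneg_right (by linarith) (norm_nonneg _))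

end

/-- The derivative of the chart. -/
def dc_Small (i : Bool) : ℂ →L[ℝ] W :=
  if i then ContinuousLinearMap.inl ℝ ℂ ℂ else ContinuousLinearMap.inr ℝ ℂ ℂ

theorem cc_smooth_Small (i : Bool) : ContDiff ℝ ∞ (cc i) := by
  cases i
  · exact contDiff_const.prodMk contDiff_id
  · exact contDiff_id.prodMk contDiff_const

theorem cc_der_Small (i : Bool) (z : ℂ) : HasFDerivAt (cc i) (dc_Small i) z := by
  cases i
  · exact hasFDerivAt_prodMk_right (1 : ℂ) z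
  · exact hasFDerivAt_prodMk_left z (1 : ℂ)

theorem cc_ne_Small (i : Bool) (z : ℂ) : cc i z ≠ 0 := by
  cases i
  · exact fun h => one_ne_zero (congrArg Prod.fst h)
  · exact fun h => one_ne_zero (congrArg Prod.snd h)

theorem cc_norm_Small (i : Bool) {z : ℂ} (hz : ‖z‖ ≤ 6) : ‖cc i z‖ ≤ 6 := by
  cases i <;> simp [cc, Prod.norm_def, hz]

theorem dc_norm_Small (i : Bool) (h : ℂ) : ‖dc_Small i h‖ = ‖h‖ := by
  cases i <;> simp [dc_Small, Prod.norm_def]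

theorem dc_I_Small (i : Bool) : dc_Small i I = I • dc_Small i 1 := by
  cases i <;> simp [dc_Small]

theorem der_Small {J : V → V → V} {U : W → V} (h : IsLine J U) (i : Bool) (z : ℂ) :
    HasFDerivAt (U ∘ cc i) ((fderiv ℝ U (cc i z)).comp (dc_Small i)) z :=
  ((h.c1.contDiffAt (isOpen_compl_singleton.mem_nhds (cc_ne_Small i z))).differentiableAt
    one_ne_zero).hasFDerivAt.comp z (cc_der_Small i z)

theorem one_Small (hS : LineSmoothStmt) (hE : EstStmt) (P : Type) [TopologicalSpace P]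
    (φ : P → Fr) (p₀ : P) (U₀ : W → V) (hφ : FrFam φ) (h₀ : IsLine (φ p₀).J U₀) (δ : ℝ)
    (hδ : 0 < δ) (i : Bool) : ∃ ε : ℝ, 0 < ε ∧ ∀ᶠ p in 𝓝 p₀, ∀ U,
      IsLine (φ p).J U → Near ε U U₀ → HB δ (jc (etaOf (φ p₀) U₀ U) i) (ball 0 3) := by
  have s0 : ContDiff ℝ ∞ (U₀ ∘ cc i) :=
    (hS _ _ h₀).comp_contDiff (cc_smooth_Small i) (cc_ne_Small i)
  have n0 : ∀ z, (U₀ ∘ cc i) z ≠ 0 := fun z => h₀.ne _ (cc_ne_Small i z)
  let a : ℂ → V →L[ℝ] V := fun z => (φ p₀).A (U₀ (cc i z))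
  have sa : ContDiff ℝ ∞ a := (φ p₀).smoothA.comp_contDiff s0 n0
  have sd0 : ContDiff ℝ 1 (fderiv ℝ (U₀ ∘ cc i)) := ((contDiff_infty_iff_fderiv.1 s0).2).of_le
    (mod_cast le_top)
  obtain ⟨A1, pA1, hA1⟩ := smooth_Small (f := a) (sa.of_le (mod_cast le_top))
  obtain ⟨A2, pA2, hA2⟩ := smooth_Small (f := fderiv ℝ a)
    (((contDiff_infty_iff_fderiv.1 sa).2).of_le (mod_cast le_top))
  obtain ⟨A3, pA3, hA3⟩ := smooth_Small sd0
  have K6 := isCompact_closedBall (0 : ℂ) 6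
  obtain ⟨z₀, -, hz₀⟩ := K6.exists_isMinOn ⟨0, mem_closedBall_self (by norm_num)⟩
    s0.continuous.norm.continuousOn
  have hm : 0 < ‖(U₀ ∘ cc i) z₀‖ := norm_pos_iff.2 (n0 z₀)
  set m := ‖(U₀ ∘ cc i) z₀‖ with hmdef
  obtain ⟨B1, hB1⟩ := K6.exists_bound_of_continuousOn s0.continuous.continuousOn
  obtain ⟨B2, hB2⟩ := K6.exists_bound_of_continuousOn sd0.continuous.continuousOn
  have pB1 : 0 ≤ B1 := (norm_nonneg _).trans (hB1 0 (mem_closedBall_self (by norm_num)))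
  have pB2 : 0 ≤ B2 := (norm_nonneg _).trans (hB2 0 (mem_closedBall_self (by norm_num)))
  obtain ⟨C, hC⟩ := hE P φ p₀ (2 / m + B1 + B2 + 6) 3 hφ (by norm_num)
  set S := 7 * A1 + 6 * A2 + 1 with hSdef
  set L := 8 * A1 + A1 * (|C| + A3) + 7 * A2 + 1 with hLdef
  have pS : 0 < S := by positivity
  have pL : 0 < L := by positivity
  refine ⟨min (min 1 (m / 12)) (min (δ / S) (δ ^ 2 / (2 * S * L))), by positivity, ?_⟩
  set ε := min (min 1 (m / 12)) (min (δ / S) (δ ^ 2 / (2 * S * L))) with hε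
  have e0 : 0 < ε := by positivity
  have e1 : ε ≤ 1 := (min_le_left _ _).trans (min_le_left _ _)
  have e2 : ε ≤ m / 12 := (min_le_left _ _).trans (min_le_right _ _)
  have e3 : ε ≤ δ / S := (min_le_right _ _).trans (min_le_left _ _)
  have e4 : ε ≤ δ ^ 2 / (2 * S * L) := (min_le_right _ _).trans (min_le_right _ _)
  clear_value ε
  filter_upwards [hC] with p hp U hU hn
  have H0 : Hom1 U₀ := ⟨h₀.c1, h₀.hom⟩
  have H1 : Hom1 U := ⟨hU.c1, hU.hom⟩
  have v1 : ∀ z : ℂ, ‖z‖ ≤ 6 → ‖(U ∘ cc i) z - (U₀ ∘ cc i) z‖ ≤ 6 * ε := by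
    intro z hz
    have := val_Trans H0 H1 hn (cc i z)
    have := mul_le_mul_of_nonneg_left (cc_norm_Small i hz) e0.le
    simp only [Function.comp_apply]
    linarith
  have v2 : ∀ z, ‖fderiv ℝ (U ∘ cc i) z - fderiv ℝ (U₀ ∘ cc i) z‖ ≤ ε := by
    intro z
    rw [(der_Small hU i z).fderiv, (der_Small h₀ i z).fderiv, ← ContinuousLinearMap.sub_comp]
    refine ContinuousLinearMap.opNorm_le_bound _ e0.le fun h => ?_
    rw [ContinuousLinearMap.comp_apply, ← dc_norm_Small i h]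
    exact ContinuousLinearMap.le_of_opNorm_le _ (der_Trans H0 H1 hn (cc_ne_Small i z)) _
  have su : ContDiff ℝ 1 (U ∘ cc i) :=
    hU.c1.comp_contDiff ((cc_smooth_Small i).of_le (mod_cast le_top)) (cc_ne_Small i)
  have lip := hp (U ∘ cc i) 0 su.contDiffOn (by
      intro z _
      rw [(der_Small hU i z).fderiv, ContinuousLinearMap.comp_apply,
        ContinuousLinearMap.comp_apply, dc_I_Small, hU.hol _ (cc_ne_Small i z), Fr.J]
      exact (φ p).AB _ (hU.ne _ (cc_ne_Small i z)) _) (by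
      intro z hz
      have hz' : ‖z‖ ≤ 6 := by
        have : ‖z‖ < 2 * 3 := mem_ball_zero_iff.1 hz
        linarith
      have hz6 : z ∈ closedBall (0 : ℂ) 6 := mem_closedBall_zero_iff.2 hz'
      have a1 := v1 z hz'
      have a2 := v2 z
      have a3 : m ≤ ‖(U₀ ∘ cc i) z‖ := hz₀ hz6
      have a4 := hB1 z hz6
      have a5 := hB2 z hz6
      have b1 := norm_sub_norm_le ((U ∘ cc i) z) ((U₀ ∘ cc i) z)
      have b2 := norm_sub_norm_le ((U₀ ∘ cc i) z) ((U ∘ cc i) z)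
      have b3 := norm_sub_norm_le (fderiv ℝ (U ∘ cc i) z) (fderiv ℝ (U₀ ∘ cc i) z)
      rw [norm_sub_rev] at b2
      have c0 : 0 < 2 / m := by positivity
      refine ⟨?_, by linarith, by linarith⟩
      have c1 : m / 2 ≤ ‖(U ∘ cc i) z‖ := by linarith
      have c2 : 2 / m * (m / 2) = 1 := by field_simp
      nlinarith [mul_le_mul_of_nonneg_left c1 c0.le, norm_nonneg ((U ∘ cc i) z)])
  let w : ℂ → V := fun z => (U ∘ cc i) z - (U₀ ∘ cc i) z
  let d : ℂ → ℂ →L[ℝ] V := fun z => fderiv ℝ (U ∘ cc i) z - fderiv ℝ (U₀ ∘ cc i) z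
  have hw : ∀ z, HasFDerivAt w (d z) z := fun z =>
    (der_Small hU i z).differentiableAt.hasFDerivAt.sub
      (der_Small h₀ i z).differentiableAt.hasFDerivAt
  have bw : BL_Small (6 * ε) 1 w := by
    refine ⟨fun z hz => v1 z ?_, fun z hz z' hz' => ?_⟩
    · have : ‖z‖ < 3 := mem_ball_zero_iff.1 hz
      linarith
    · exact (convex_ball (0 : ℂ) 3).norm_image_sub_le_of_norm_hasFDerivWithin_le
        (fun x _ => (hw x).hasFDerivWithinAt) (fun x _ => (v2 x).trans e1) hz' hz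
  have bd : BL_Small ε (|C| + A3) d := by
    refine ⟨fun z _ => v2 z, fun z hz z' hz' => ?_⟩
    have a1 := (lip z hz z' hz').trans (mul_le_mul_of_nonneg_right (le_abs_self C) (norm_nonneg _))
    have a2 := hA3.2 z hz z' hz'
    simp only [d]
    rw [sub_sub_sub_comm, add_mul]
    exact (norm_sub_le _ _).trans (add_le_add a1 a2)
  have t1 := bil_Small (fun (x : V →L[ℝ] V) (y : V) => x y) (fun x y => x.le_opNorm y)
    (fun x x' y y' => by simp) hA1 bw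
  have t2 := bil_Small (fun (x : V →L[ℝ] V) (y : ℂ →L[ℝ] V) => x.comp y)
    (fun x y => x.opNorm_comp_le y)
    (fun x x' y y' => by rw [ContinuousLinearMap.comp_sub, ContinuousLinearMap.sub_comp]; abel)
    hA1 bd
  have t3 := bil_Small (fun (x : ℂ →L[ℝ] V →L[ℝ] V) (y : V) => x.flip y)
    (fun x y => by
      rw [← x.opNorm_flip]
      exact x.flip.le_opNorm y)
    (fun x x' y y' => by
      apply ContinuousLinearMap.ext
      intro h
      simp) hA2 bw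
  have t4 := prod_Small t1 (add_Small t2 t3)
  have e : jc (etaOf (φ p₀) U₀ U) i =
      fun z => (a z (w z), (a z).comp (d z) + (fderiv ℝ a z).flip (w z)) := by
    funext z
    refine Prod.ext rfl ?_
    exact ((sa.differentiable (by simp) z).hasFDerivAt.clm_apply (hw z)).fderiv
  rw [e]
  have t5 := mono_Small t4 (s' := S * ε) (L' := L) (by rw [hSdef]; nlinarith) (by
    rw [hLdef]
    nlinarith [mul_le_mul_of_nonneg_left e1 pA1, mul_le_mul_of_nonneg_left e1 pA2])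
  refine hb_Small t5 hδ ?_ ?_
  · rw [le_div_iff₀ pS] at e3
    linarith
  · rw [le_div_iff₀ (by positivity)] at e4
    linarith

theorem small (hS : LineSmoothStmt) (hE : EstStmt) : SmallStmt := by
  intro P _ φ p₀ U₀ hφ h₀ δ hδ
  obtain ⟨ε₀, p0, H0⟩ := one_Small hS hE P φ p₀ U₀ hφ h₀ δ hδ false
  obtain ⟨ε₁, p1, H1⟩ := one_Small hS hE P φ p₀ U₀ hφ h₀ δ hδ true
  refine ⟨min ε₀ ε₁, lt_min p0 p1, ?_⟩
  filter_upwards [H0, H1] with p a b U hU hn i
  cases i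
  · exact a U hU fun q hq =>
      ⟨(hn q hq).1.trans (min_le_left _ _), (hn q hq).2.trans (min_le_left _ _)⟩
  · exact b U hU fun q hq =>
      ⟨(hn q hq).1.trans (min_le_right _ _), (hn q hq).2.trans (min_le_right _ _)⟩

end Pool.Agent.MP_2fc7fa_gt.N

end
end

section

/-! Estimates for superposition operators on Hoelder functions. -/

open scoped ContDiff ComplexConjugate Topology NNReal
open Set Complex Filter Metric

noncomputable section

namespace Pool.Agent.MP_2fc7fa_gt.N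

variable {E F : Type} [NormedAddCommGroup E] [NormedAddCommGroup F]

theorem mono_Nem {A A' : ℝ} {f : ℂ → F} {S : Set ℂ} (h : HB A f S) (hA : A ≤ A') : HB A' f S :=
  ⟨fun z hz => (h.1 z hz).trans hA, fun z hz z' hz' =>
    (h.2 z hz z' hz').trans (mul_le_mul_of_nonneg_right hA (Real.sqrt_nonneg _))⟩

theorem congr_Nem {A : ℝ} {f g : ℂ → F} {S : Set ℂ} (h : HB A f S) (e : ∀ z ∈ S, g z = f z) :
    HB A g S :=
  ⟨fun z hz => by rw [e z hz]; exact h.1 z hz, fun z hz z' hz' => by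
    rw [e z hz, e z' hz']; exact h.2 z hz z' hz'⟩

theorem nonneg_Nem {A : ℝ} {f : ℂ → F} (h : HB A f (ball 0 3)) : 0 ≤ A :=
  (norm_nonneg _).trans (h.1 0 (mem_ball_self (by norm_num)))

theorem dist_Nem {z z' : ℂ} (hz : z ∈ ball (0 : ℂ) 3) (hz' : z' ∈ ball (0 : ℂ) 3) :
    ‖z - z'‖ ≤ 3 * √‖z - z'‖ := by
  rw [mem_ball_zero_iff] at hz hz'
  have h1 : √‖z - z'‖ ≤ 3 := Real.sqrt_le_iff.2 ⟨by norm_num, by linarith [norm_sub_le z z']⟩
  conv_lhs => rw [← Real.mul_self_sqrt (norm_nonneg (z - z'))]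
  exact mul_le_mul_of_nonneg_right h1 (Real.sqrt_nonneg _)

theorem chi_Nem {χ : ℂ → ℝ} (h1 : ContDiff ℝ 1 χ) (h2 : ∀ z, 2 ≤ ‖z‖ → χ z = 0) :
    ∃ L : ℝ, 0 < L ∧ HB L χ univ := by
  have hs : HasCompactSupport χ := HasCompactSupport.intro (isCompact_closedBall (0 : ℂ) 2)
    fun z hz => h2 z (by rw [mem_closedBall_zero_iff, not_le] at hz; exact hz.le)
  obtain ⟨L₀, hL₀⟩ := h1.continuous.bounded_above_of_compact_support hs
  obtain ⟨L₁, hL₁⟩ := h1.lipschitzWith_of_hasCompactSupport hs one_ne_zero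
  have h0 : 0 ≤ L₀ := (norm_nonneg _).trans (hL₀ 0)
  have h0' : (0 : ℝ) ≤ L₁ := L₁.2
  refine ⟨2 * L₀ + L₁ + 1, by positivity, fun z _ => by linarith [hL₀ z], fun z _ z' _ => ?_⟩
  have h3 := Real.sqrt_nonneg ‖z - z'‖
  rcases le_total ‖z - z'‖ 1 with h | h
  · have h4 := hL₁.dist_le_mul z z'
    rw [dist_eq_norm, dist_eq_norm] at h4
    have h5 : ‖z - z'‖ ≤ √‖z - z'‖ := Real.le_sqrt_of_sq_le (by nlinarith [norm_nonneg (z - z')])
    nlinarith
  · have h4 : 1 ≤ √‖z - z'‖ := Real.one_le_sqrt.2 h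
    nlinarith [norm_sub_le (χ z) (χ z'), hL₀ z, hL₀ z']

theorem unif_Nem {Q X : Type} [TopologicalSpace Q] [TopologicalSpace X] (H : Q → X → F)
    {K : Set X} (hK : IsCompact K) {q₀ : Q}
    (h : ∀ x ∈ K, ContinuousAt (fun r : Q × X => H r.1 r.2) (q₀, x)) {c : ℝ} (hc : 0 < c) :
    ∀ᶠ q in 𝓝 q₀, ∀ x ∈ K, ‖H q x - H q₀ x‖ < c := by
  refine hK.eventually_forall_of_forall_eventually fun x hx => ?_
  have h1 : ContinuousAt (fun r : Q × X => H q₀ r.2) (q₀, x) :=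
    ContinuousAt.comp (g := fun r : Q × X => H r.1 r.2) (f := fun r : Q × X => (q₀, r.2))
      (h x hx) (by fun_prop)
  exact ((h x hx).sub h1).norm.eventually_lt_const (by simpa using hc)

theorem comp_Nem {g : ℂ × E → F} {A δ : ℝ} {y : ℂ → E} (hy : HB δ y (ball 0 3)) (hA : 0 ≤ A)
    (h1 : ∀ a ∈ closedBall (0 : ℂ) 3 ×ˢ closedBall (0 : E) δ, ‖g a‖ ≤ A)
    (h2 : ∀ a ∈ closedBall (0 : ℂ) 3 ×ˢ closedBall (0 : E) δ,
      ∀ a' ∈ closedBall (0 : ℂ) 3 ×ˢ closedBall (0 : E) δ, ‖g a - g a'‖ ≤ A * ‖a - a'‖) :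
    HB (A * (3 + δ)) (fun z => g (z, y z)) (ball 0 3) := by
  have hδ := nonneg_Nem hy
  have hm : ∀ z ∈ ball (0 : ℂ) 3, (z, y z) ∈ closedBall (0 : ℂ) 3 ×ˢ closedBall (0 : E) δ :=
    fun z hz => ⟨ball_subset_closedBall hz, mem_closedBall_zero_iff.2 (hy.1 z hz)⟩
  refine ⟨fun z hz => (h1 _ (hm z hz)).trans (by nlinarith), fun z hz z' hz' =>
    (h2 _ (hm z hz) _ (hm z' hz')).trans ?_⟩
  rw [mul_assoc]
  refine mul_le_mul_of_nonneg_left ?_ hA
  have h3 := Real.sqrt_nonneg ‖z - z'‖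
  rw [Prod.mk_sub_mk, Prod.norm_mk, max_le_iff]
  exact ⟨by nlinarith [dist_Nem hz hz'], by nlinarith [hy.2 z hz z' hz']⟩

variable [NormedSpace ℝ E] [NormedSpace ℝ F]

theorem cut_Nem {χ : ℂ → ℝ} {L A : ℝ} {f : ℂ → F} (hχ : HB L χ univ)
    (h2 : ∀ z, 2 ≤ ‖z‖ → χ z = 0) (hf : HB A f (ball 0 3)) :
    HB (2 * L * A) (fun z => χ z • f z) univ := by
  have hA := nonneg_Nem hf
  have hL : 0 ≤ L := (norm_nonneg _).trans (hχ.1 0 trivial)
  have h0 : ∀ z, z ∉ ball (0 : ℂ) 3 → χ z = 0 := fun z hz =>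
    h2 z (by rw [mem_ball_zero_iff, not_lt] at hz; linarith)
  have h3 : ∀ z z', z ∉ ball (0 : ℂ) 3 → ‖χ z • f z - χ z' • f z'‖ ≤ 2 * L * A * √‖z - z'‖ := by
    intro z z' hz
    have h4 := Real.sqrt_nonneg ‖z - z'‖
    by_cases hz' : z' ∈ ball (0 : ℂ) 3
    · have h5 := hχ.2 z trivial z' trivial
      rw [h0 z hz, zero_sub, norm_neg] at h5
      rw [h0 z hz, zero_smul, zero_sub, norm_neg, norm_smul]
      have h6 := mul_le_mul h5 (hf.1 z' hz') (norm_nonneg _) (by positivity)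
      nlinarith [mul_nonneg (mul_nonneg hL hA) h4]
    · rw [h0 z hz, h0 z' hz', zero_smul, zero_smul, sub_zero, norm_zero]
      positivity
  refine ⟨fun z _ => ?_, fun z _ z' _ => ?_⟩
  · by_cases hz : z ∈ ball (0 : ℂ) 3
    · rw [norm_smul]
      have h6 := mul_le_mul (hχ.1 z trivial) (hf.1 z hz) (norm_nonneg _) hL
      nlinarith [mul_nonneg hL hA]
    · change ‖χ z • f z‖ ≤ _
      rw [h0 z hz, zero_smul, norm_zero]
      positivity
  · by_cases hz : z ∈ ball (0 : ℂ) 3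
    · by_cases hz' : z' ∈ ball (0 : ℂ) 3
      · have e : χ z • f z - χ z' • f z' = (χ z - χ z') • f z + χ z' • (f z - f z') := by
          rw [sub_smul, smul_sub]; abel
        change ‖χ z • f z - χ z' • f z'‖ ≤ _
        rw [e]
        refine (norm_add_le _ _).trans ?_
        rw [norm_smul, norm_smul]
        have h5 := mul_le_mul (hχ.2 z trivial z' trivial) (hf.1 z hz) (norm_nonneg _)
          (by positivity)
        have h6 := mul_le_mul (hχ.1 z' trivial) (hf.2 z hz z' hz') (norm_nonneg _) hL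
        linarith
      · rw [norm_sub_rev, norm_sub_rev z]
        exact h3 z' z hz'
    · exact h3 z z' hz

theorem bil_Nem {K : ℂ → ℂ × E →L[ℝ] F} {v : ℂ → E} {A M : ℝ} (hK : HB A K (ball 0 3))
    (hv : HB M v (ball 0 3)) : HB (2 * A * M) (fun z => K z (0, v z)) (ball 0 3) := by
  have hA := nonneg_Nem hK
  have hM := nonneg_Nem hv
  have h1 : ∀ (T : ℂ × E →L[ℝ] F) (w : E), ‖T (0, w)‖ ≤ ‖T‖ * ‖w‖ := fun T w => by
    simpa using T.le_opNorm (0, w)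
  refine ⟨fun z hz => (h1 _ _).trans ?_, fun z hz z' hz' => ?_⟩
  · have h6 := mul_le_mul (hK.1 z hz) (hv.1 z hz) (norm_nonneg _) hA
    nlinarith [mul_nonneg hA hM]
  · have e : K z (0, v z) - K z' (0, v z') = (K z - K z') (0, v z) + K z' (0, v z - v z') := by
      have e1 : ((0 : ℂ), v z - v z') = (0, v z) - (0, v z') := by simp
      rw [e1, map_sub, sub_apply]; abel
    change ‖K z (0, v z) - K z' (0, v z')‖ ≤ _
    rw [e]
    refine (norm_add_le _ _).trans ((add_le_add (h1 _ _) (h1 _ _)).trans ?_)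
    have h5 := mul_le_mul (hK.2 z hz z' hz') (hv.1 z hz) (norm_nonneg _) (by positivity)
    have h6 := mul_le_mul (hK.1 z' hz') (hv.2 z hz z' hz') (norm_nonneg _) hA
    linarith

theorem mean_Nem {f f' : ℝ → ℂ → F} {A : ℝ} {S : Set ℂ}
    (h : ∀ z ∈ S, ∀ t ∈ Icc (0 : ℝ) 1, HasDerivAt (fun t => f t z) (f' t z) t)
    (hb : ∀ t ∈ Icc (0 : ℝ) 1, HB A (f' t) S) : HB A (fun z => f 1 z - f 0 z) S := by
  refine ⟨fun z hz => norm_image_sub_le_of_norm_deriv_le_segment_01' (f := fun t => f t z)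
    (fun t ht => (h z hz t ht).hasDerivWithinAt)
    fun t ht => (hb t (Ico_subset_Icc_self ht)).1 z hz, fun z hz z' hz' => ?_⟩
  have h1 := norm_image_sub_le_of_norm_deriv_le_segment_01' (f := fun t => f t z - f t z')
    (fun t ht => ((h z hz t ht).sub (h z' hz' t ht)).hasDerivWithinAt)
    fun t ht => (hb t (Ico_subset_Icc_self ht)).2 z hz z' hz'
  rwa [sub_sub_sub_comm] at h1

theorem conv_Nem {y y' : ℂ → E} {δ : ℝ} {S : Set ℂ} (hy : HB δ y S) (hy' : HB δ y' S) {t : ℝ}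
    (ht : t ∈ Icc (0 : ℝ) 1) : HB δ (fun z => y' z + t • (y z - y' z)) S := by
  have key : ∀ (a a' : E) (r : ℝ), ‖a‖ ≤ r → ‖a'‖ ≤ r → ‖a' + t • (a - a')‖ ≤ r :=
    fun a a' r ha ha' => mem_closedBall_zero_iff.1 ((convex_closedBall (0 : E) r).add_smul_sub_mem
      (mem_closedBall_zero_iff.2 ha') (mem_closedBall_zero_iff.2 ha) ht)
  refine ⟨fun z hz => key _ _ _ (hy.1 z hz) (hy'.1 z hz), fun z hz z' hz' => ?_⟩
  have h1 := key _ _ _ (hy.2 z hz z' hz') (hy'.2 z hz z' hz')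
  have e : y' z + t • (y z - y' z) - (y' z' + t • (y z' - y' z')) =
      y' z - y' z' + t • (y z - y z' - (y' z - y' z')) := by module
  change ‖y' z + t • (y z - y' z) - (y' z' + t • (y z' - y' z'))‖ ≤ _
  rwa [e]

theorem ker_Nem {g g₀ : ℂ × E → F} {g' g₀' : ℂ × E → ℂ × E →L[ℝ] F} {δ c C : ℝ} {w : ℂ → E}
    (hw : HB δ w (ball 0 3))
    (d1 : ∀ z ∈ ball (0 : ℂ) 3, ∀ a ∈ closedBall (0 : E) δ, HasFDerivAt g (g' (z, a)) (z, a))
    (d2 : ∀ z : ℂ, HasFDerivAt g₀ (g₀' (z, 0)) (z, 0))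
    (h1 : ∀ z ∈ ball (0 : ℂ) 3, ∀ a ∈ closedBall (0 : E) δ, ‖g (z, a) - g₀ (z, 0)‖ ≤ c)
    (h2 : ∀ z ∈ ball (0 : ℂ) 3, ∀ a ∈ closedBall (0 : E) δ, ‖g' (z, a) - g₀' (z, 0)‖ ≤ c)
    (h3 : ∀ z ∈ ball (0 : ℂ) 3, ‖g₀' (z, 0)‖ ≤ C) (h4 : (C + c) * δ ≤ c) :
    HB (4 * c) (fun z => g (z, w z) - g₀ (z, 0)) (ball 0 3) := by
  have hm : ∀ z ∈ ball (0 : ℂ) 3, w z ∈ closedBall (0 : E) δ :=
    fun z hz => mem_closedBall_zero_iff.2 (hw.1 z hz)
  have hc : 0 ≤ c := (norm_nonneg _).trans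
    (h1 0 (mem_ball_self (by norm_num)) _ (hm 0 (mem_ball_self (by norm_num))))
  have hC : 0 ≤ C := (norm_nonneg _).trans (h3 0 (mem_ball_self (by norm_num)))
  refine ⟨fun z hz => (h1 z hz _ (hm z hz)).trans (by linarith), fun z hz z' hz' => ?_⟩
  have e1 : ‖(g (z, w z) - g₀ (z, 0)) - (g (z', w z) - g₀ (z', 0))‖ ≤ c * ‖z - z'‖ := by
    refine Convex.norm_image_sub_le_of_norm_hasFDerivWithin_le (𝕜 := ℝ)
      (f := fun u => g (u, w z) - g₀ (u, 0))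
      (f' := fun u => (g' (u, w z) - g₀' (u, 0)).comp (ContinuousLinearMap.inl ℝ ℂ E))
      (fun u hu => ?_) (fun u hu => ?_) (convex_ball 0 3) hz' hz
    · rw [ContinuousLinearMap.sub_comp]
      exact (((d1 u hu _ (hm z hz)).comp u (hasFDerivAt_prodMk_left u (w z))).sub
        ((d2 u).comp u (hasFDerivAt_prodMk_left u (0 : E)))).hasFDerivWithinAt
    · refine ContinuousLinearMap.opNorm_le_bound _ hc fun v => ?_
      have h5 := (g' (u, w z) - g₀' (u, 0)).le_of_opNorm_le (h2 u hu _ (hm z hz)) (v, 0)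
      simpa using h5
  have e2 : ‖g (z', w z) - g (z', w z')‖ ≤ (C + c) * ‖w z - w z'‖ := by
    refine Convex.norm_image_sub_le_of_norm_hasFDerivWithin_le (𝕜 := ℝ)
      (f := fun a => g (z', a))
      (f' := fun a => (g' (z', a)).comp (ContinuousLinearMap.inr ℝ ℂ E))
      (fun a ha => ?_) (fun a ha => ?_) (convex_closedBall 0 δ) (hm z' hz') (hm z hz)
    · exact ((d1 z' hz' a ha).comp a (hasFDerivAt_prodMk_right z' a)).hasFDerivWithinAt
    · refine ContinuousLinearMap.opNorm_le_bound _ (by positivity) fun v => ?_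
      have h5 : ‖g' (z', a)‖ ≤ C + c := by
        linarith [norm_le_norm_add_norm_sub' (g' (z', a)) (g₀' (z', 0)), h2 z' hz' a ha, h3 z' hz']
      simpa using (g' (z', a)).le_of_opNorm_le h5 (0, v)
  have e : (g (z, w z) - g₀ (z, 0)) - (g (z', w z') - g₀ (z', 0)) =
      ((g (z, w z) - g₀ (z, 0)) - (g (z', w z) - g₀ (z', 0))) + (g (z', w z) - g (z', w z')) := by
    abel
  change ‖(g (z, w z) - g₀ (z, 0)) - (g (z', w z') - g₀ (z', 0))‖ ≤ _
  rw [e]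
  refine (norm_add_le _ _).trans ((add_le_add e1 e2).trans ?_)
  have h5 := mul_le_mul_of_nonneg_left (dist_Nem hz hz') hc
  have h6 := mul_le_mul_of_nonneg_left (hw.2 z hz z' hz') (add_nonneg hC hc)
  have h7 := mul_le_mul_of_nonneg_right h4 (Real.sqrt_nonneg ‖z - z'‖)
  linarith

theorem nem : NemStmt := by
  intro E F _ _ _ _ _ P _ G Ω χ p₀ hΩ hG h0 hχ hχ0
  obtain ⟨j0, G', d0, j1, G'', d1, j2⟩ := hG
  obtain ⟨L, hL, hχL⟩ := chi_Nem hχ hχ0
  have D0 : ∀ p, ∀ x ∈ Ω, HasFDerivAt (G p) (G' p x) x := fun p x hx =>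
    (d0 p x hx).hasFDerivAt (hΩ.mem_nhds hx)
  have D1 : ∀ p, ∀ x ∈ Ω, HasFDerivAt (G' p) (G'' p x) x := fun p x hx =>
    (d1 p x hx).hasFDerivAt (hΩ.mem_nhds hx)
  have ca : ∀ {Y : Type} [TopologicalSpace Y] {H : P → ℂ × E → Y}, JC Ω H → ∀ p, ∀ x ∈ Ω,
      ContinuousAt (fun r : P × ℂ × E => H r.1 r.2) (p, x) := fun h p x hx =>
    h.continuousAt ((isOpen_univ.prod hΩ).mem_nhds ⟨trivial, hx⟩)
  have cb : ∀ {Y : Type} [TopologicalSpace Y] {H : P → ℂ × E → Y}, JC Ω H → ∀ z : ℂ,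
      ContinuousAt (fun r : (P × E) × ℂ => H r.1.1 (r.2, r.1.2)) ((p₀, 0), z) := fun h z =>
    ContinuousAt.comp_of_eq (f := fun r : (P × E) × ℂ => (r.1.1, (r.2, r.1.2)))
      (ca h p₀ _ (h0 z)) (Continuous.continuousAt (by fun_prop)) rfl
  obtain ⟨ε, hε, hT⟩ : ∃ ε : ℝ, 0 < ε ∧ closedBall (0 : ℂ) 3 ×ˢ closedBall (0 : E) ε ⊆ Ω := by
    have h1 : ∀ᶠ a in 𝓝 (0 : E), ∀ z ∈ closedBall (0 : ℂ) 3, (z, a) ∈ Ω :=
      (isCompact_closedBall (0 : ℂ) 3).eventually_forall_of_forall_eventually fun z _ =>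
        continuous_swap.continuousAt.eventually (hΩ.mem_nhds (h0 z))
    obtain ⟨ε, hε, h2⟩ := nhds_basis_closedBall.eventually_iff.1 h1
    exact ⟨ε, hε, fun x hx => h2 hx.2 x.1 hx.1⟩
  have cT : IsCompact (closedBall (0 : ℂ) 3 ×ˢ closedBall (0 : E) ε) :=
    have := FiniteDimensional.proper_real E
    (isCompact_closedBall _ _).prod (isCompact_closedBall _ _)
  have vT : Convex ℝ (closedBall (0 : ℂ) 3 ×ˢ closedBall (0 : E) ε) :=
    (convex_closedBall _ _).prod (convex_closedBall _ _)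
  have lip : ∀ {Y : Type} [NormedAddCommGroup Y] [NormedSpace ℝ Y] {H : P → ℂ × E → Y}
      {H' : P → ℂ × E → ℂ × E →L[ℝ] Y}, JC Ω H → JC Ω H' →
      (∀ p, ∀ x ∈ Ω, HasFDerivAt (H p) (H' p x) x) → ∀ (p : P) (y : ℂ → E), HB ε y (ball 0 3) →
      ∃ M, HB M (fun z => H p (z, y z)) (ball 0 3) := by
    intro Y _ _ H H' h h' hd p y hy
    obtain ⟨A, hA⟩ := cT.exists_bound_of_continuousOn ((h.at p).mono hT)
    obtain ⟨A', hA'⟩ := cT.exists_bound_of_continuousOn ((h'.at p).mono hT)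
    refine ⟨_, comp_Nem (A := max (max A A') 0) hy (le_max_right _ _)
      (fun a ha => (hA a ha).trans ((le_max_left _ _).trans (le_max_left _ _)))
      fun a ha a' ha' => ?_⟩
    exact vT.norm_image_sub_le_of_norm_hasFDerivWithin_le
      (fun x hx => (hd p x (hT hx)).hasFDerivWithinAt)
      (fun x hx => (hA' x hx).trans ((le_max_right _ _).trans (le_max_left _ _))) ha' ha
  refine ⟨fun c hc => ?_, ?_, ε, hε, fun p y hy => ⟨?_, fun c hc => ?_⟩⟩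
  · obtain ⟨C, hC⟩ := cT.exists_bound_of_continuousOn ((JC.at j2 p₀).mono hT)
    have hC' : ∀ z ∈ ball (0 : ℂ) 3, ‖G'' p₀ (z, 0)‖ ≤ C := fun z hz =>
      hC _ ⟨ball_subset_closedBall hz, mem_closedBall_self hε.le⟩
    have hC0 : 0 ≤ C := (norm_nonneg _).trans (hC' 0 (mem_ball_self (by norm_num)))
    have hc' : 0 < c / (16 * L) := by positivity
    have u1 := unif_Nem (fun (q : P × E) (z : ℂ) => G' q.1 (z, q.2))
      (isCompact_closedBall (0 : ℂ) 3) (fun z _ => cb j1 z) hc'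
    have u2 := unif_Nem (fun (q : P × E) (z : ℂ) => G'' q.1 (z, q.2))
      (isCompact_closedBall (0 : ℂ) 3) (fun z _ => cb j2 z) hc'
    have u3 := u1.and u2
    rw [nhds_prod_eq, Metric.eventually_prod_nhds_iff] at u3
    obtain ⟨pa, hpa, η, hη, u3⟩ := u3
    refine ⟨min (min ε (η / 2)) (c / (16 * L) / (C + c / (16 * L))), by positivity,
      hpa.mono fun p hp y y' M hy hy' hv => ?_⟩
    set δ := min (min ε (η / 2)) (c / (16 * L) / (C + c / (16 * L))) with hδ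
    have hδ1 : δ ≤ ε := (min_le_left _ _).trans (min_le_left _ _)
    have hδ2 : δ ≤ η / 2 := (min_le_left _ _).trans (min_le_right _ _)
    have hδ3 : (C + c / (16 * L)) * δ ≤ c / (16 * L) :=
      (le_div_iff₀' (by positivity)).1 (min_le_right _ _)
    have hin : ∀ z ∈ ball (0 : ℂ) 3, ∀ a ∈ closedBall (0 : E) δ, (z, a) ∈ Ω := fun z hz a ha =>
      hT ⟨ball_subset_closedBall hz, closedBall_subset_closedBall hδ1 ha⟩
    have hd : ∀ a ∈ closedBall (0 : E) δ, dist a 0 < η := fun a ha =>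
      (mem_closedBall.1 ha).trans_lt (by linarith)
    have h1 := mean_Nem (S := ball 0 3) (A := 2 * (4 * (c / (16 * L))) * M)
      (f := fun t z => G p (z, y' z + t • (y z - y' z)) - t • G' p₀ (z, 0) (0, y z - y' z))
      (f' := fun t z => (G' p (z, y' z + t • (y z - y' z)) - G' p₀ (z, 0)) (0, y z - y' z))
      (fun z hz t ht => ?_) fun t ht => bil_Nem (v := y - y') (ker_Nem (conv_Nem hy hy' ht)
        (fun z hz a ha => D1 p _ (hin z hz a ha)) (fun z => D1 p₀ _ (h0 z))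
        (fun z hz a ha => ((u3 hp (hd a ha)).1 z (ball_subset_closedBall hz)).le)
        (fun z hz a ha => ((u3 hp (hd a ha)).2 z (ball_subset_closedBall hz)).le) hC' hδ3) hv
    · refine mono_Nem (cut_Nem hχL hχ0 (congr_Nem h1 fun z _ => ?_)) (le_of_eq ?_)
      · rw [(D0 p₀ _ (h0 z)).fderiv]
        simp only [one_smul, zero_smul, add_sub_cancel, add_zero, sub_zero]
        abel
      · field_simp
        norm_num
    · have h2 : HasDerivAt (fun t : ℝ => (z, y' z + t • (y z - y' z))) (0, y z - y' z) t := by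
        simpa using (hasDerivAt_const t z).prodMk
          (((hasDerivAt_id t).smul_const (y z - y' z)).const_add (y' z))
      have h3 := (D0 p _ (hin z hz _
        (mem_closedBall_zero_iff.2 ((conv_Nem hy hy' ht).1 z hz)))).comp_hasDerivAt t h2
      have h4 := h3.sub ((hasDerivAt_id t).smul_const (G' p₀ (z, 0) (0, y z - y' z)))
      rw [one_smul] at h4
      exact h4
  · obtain ⟨A, hA⟩ := lip j1 j2 D1 p₀ (fun _ => 0)
      ⟨fun z _ => by simpa using hε.le, fun z _ z' _ => by simp; positivity⟩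
    refine ⟨2 * L * (2 * (A + 1)), by linarith [mul_nonneg hL.le (nonneg_Nem hA)],
      fun y M hy => ?_⟩
    rw [mul_assoc]
    refine cut_Nem hχL hχ0 (congr_Nem (bil_Nem (mono_Nem hA (by linarith)) hy) fun z _ => ?_)
    rw [(D0 p₀ _ (h0 z)).fderiv]
  · obtain ⟨A, hA⟩ := lip j0 j1 D0 p y hy
    exact ⟨_, cut_Nem hχL hχ0 hA⟩
  · have hc' : 0 < c / (2 * L * (3 + ε)) := by positivity
    filter_upwards [unif_Nem G cT (fun x hx => ca j0 p x (hT hx)) hc',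
      unif_Nem G' cT (fun x hx => ca j1 p x (hT hx)) hc'] with p' u1 u2
    refine mono_Nem (cut_Nem hχL hχ0 (comp_Nem (g := fun a => G p' a - G p a) hy hc'.le
      (fun a ha => (u1 a ha).le) fun a ha a' ha' => ?_)) (le_of_eq ?_)
    · exact vT.norm_image_sub_le_of_norm_hasFDerivWithin_le (f := fun a => G p' a - G p a)
        (fun x hx => ((D0 p' x (hT hx)).sub (D0 p x (hT hx))).hasFDerivWithinAt)
        (fun x hx => (u2 x hx).le) ha' ha
    · field_simp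

end Pool.Agent.MP_2fc7fa_gt.N

end
end

section

/-! The linearised cut-off equation has only the zero solution. -/

open scoped ContDiff ComplexConjugate Topology
open Set Complex Filter Metric

noncomputable section

namespace Pool.Agent.MP_2fc7fa_gt.N

theorem diff_LinInj {U : W → V} (h : Hom1 U) {q : W} (hq : q ≠ 0) :
    HasFDerivAt U (fderiv ℝ U q) q :=
  ((h.1.contDiffAt (isOpen_compl_singleton.mem_nhds hq)).differentiableAt
    one_ne_zero).hasFDerivAt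

theorem fd_smul_LinInj {U : W → V} (h : Hom1 U) {c : ℂ} (hc : c ≠ 0) {q : W}
    (hq : q ≠ 0) (k : W) : fderiv ℝ U (c • q) (c • k) = c • fderiv ℝ U q k := by
  have h1 := (diff_LinInj h (smul_ne_zero hc hq)).comp q ((hasFDerivAt_id q).const_smul c)
  have h2 := (diff_LinInj h hq).const_smul c
  have e : U ∘ HSMul.hSMul c = c • U := funext fun y => h.2 c y
  have h3 : HasFDerivAt (c • U) _ q := e ▸ h1
  exact congrArg (fun L : W →L[ℝ] V => L k) (h3.unique h2)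

theorem fd_rad_LinInj {U : W → V} (h : Hom1 U) {q : W} (hq : q ≠ 0) (a : ℂ) :
    fderiv ℝ U q (a • q) = a • U q := by
  let L : ℂ →L[ℝ] W := (ContinuousLinearMap.toSpanSingleton ℂ q).restrictScalars ℝ
  let M : ℂ →L[ℝ] V := (ContinuousLinearMap.toSpanSingleton ℂ (U q)).restrictScalars ℝ
  have e : L 1 = q := one_smul ℂ q
  have h1 : HasFDerivAt (U ∘ L) ((fderiv ℝ U q).comp L) 1 :=
    HasFDerivAt.comp 1 (by rw [e]; exact diff_LinInj h hq) L.hasFDerivAt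
  have h2 : U ∘ L = M := funext fun z => h.2 z q
  rw [h2] at h1
  exact congrArg (fun T : ℂ →L[ℝ] V => T a) (h1.unique M.hasFDerivAt)

theorem dA_LinInj (φ : Fr) {x : V} (hx : x ≠ 0) : HasFDerivAt φ.A (fderiv ℝ φ.A x) x :=
  ((φ.smoothA.contDiffAt (isOpen_compl_singleton.mem_nhds hx)).differentiableAt
    (by simp)).hasFDerivAt

theorem dB_LinInj (φ : Fr) {x : V} (hx : x ≠ 0) : HasFDerivAt φ.B (fderiv ℝ φ.B x) x :=
  ((φ.smoothB.contDiffAt (isOpen_compl_singleton.mem_nhds hx)).differentiableAt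
    (by simp)).hasFDerivAt

theorem A_smul_LinInj (φ : Fr) {x : V} (hx : x ≠ 0) {c : ℂ} (hc : c ≠ 0) (v : V) :
    φ.A (c • x) (c • v) = c • φ.A x v := by
  have h := φ.scale x hx c hc (φ.A x v)
  rw [φ.BA x hx] at h
  rw [← h, φ.AB _ (smul_ne_zero hc hx)]

theorem dA_vert_LinInj (φ : Fr) {x : V} (hx : x ≠ 0) (a : ℂ) (ξ : V) :
    fderiv ℝ φ.A x ξ (a • x) + φ.A x (a • ξ) = a • ξ := by
  have h0 := (hasFDerivAt_id (𝕜 := ℝ) x).const_smul a
  have h1 := (dA_LinInj φ hx).clm_apply h0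
  have h2 : (fun y => φ.A y ((a • id : V → V) y)) =ᶠ[𝓝 x] (a • id : V → V) :=
    (eventually_ne_nhds hx).mono fun y hy => by
      have := φ.AB y hy (a • y)
      rwa [φ.vert y hy] at this
  have h3 := congrArg (fun L : V →L[ℝ] V => L ξ) ((h1.congr_of_eventuallyEq h2.symm).unique h0)
  rw [add_comm]
  exact h3

theorem dA_smul_LinInj (φ : Fr) {x : V} (hx : x ≠ 0) {c : ℂ} (hc : c ≠ 0) (ξ v : V) :
    fderiv ℝ φ.A (c • x) (c • ξ) (c • v) = c • fderiv ℝ φ.A x ξ v := by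
  have h1 := ((dA_LinInj φ (smul_ne_zero hc hx)).comp x
    ((hasFDerivAt_id x).const_smul c)).clm_apply (hasFDerivAt_const (c • v) x)
  have h2 := ((dA_LinInj φ hx).clm_apply (hasFDerivAt_const v x)).const_smul c
  have h3 := (h1.congr_of_eventuallyEq ((eventually_ne_nhds hx).mono fun y hy =>
    (A_smul_LinInj φ hy hc v).symm)).unique h2
  simpa using congrArg (fun L : V →L[ℝ] V => L ξ) h3

/-- The linearised coframe applied to the derivative. -/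
def T_LinInj (φ : Fr) (U ξ : W → V) (q : W) : W →L[ℝ] V :=
  (fderiv ℝ φ.A (U q) (ξ q)).comp (fderiv ℝ U q) + (φ.A (U q)).comp (fderiv ℝ ξ q)

theorem T_apply_LinInj (φ : Fr) (U ξ : W → V) (q k : W) : T_LinInj φ U ξ q k =
    fderiv ℝ φ.A (U q) (ξ q) (fderiv ℝ U q k) + φ.A (U q) (fderiv ℝ ξ q k) := rfl

/-- The linearised Cauchy-Riemann operator. -/
def e_LinInj (φ : Fr) (U ξ : W → V) (q k : W) : V :=
  T_LinInj φ U ξ q k + I • T_LinInj φ U ξ q (I • k)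

theorem anti_LinInj (T : W →L[ℝ] V) (c : ℂ) (k : W) :
    T (c • k) + I • T (I • c • k) = conj c • (T k + I • T (I • k)) := by
  have e1 : c • k = c.re • k + c.im • (I • k) := by
    conv_lhs => rw [← re_add_im c]
    rw [add_smul, mul_smul, coe_smul, coe_smul]
  have e2 : I • c • k = c.re • (I • k) - c.im • k := by
    rw [e1, smul_add, smul_comm I c.re, smul_comm I c.im, smul_smul I I, I_mul_I, neg_smul,
      one_smul, smul_neg, sub_eq_add_neg]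
  have e3 : conj c = c.re - c.im * I := by
    apply Complex.ext <;> simp
  rw [e2, e1, T.map_add, T.map_sub, T.map_smul, T.map_smul, T.map_smul, T.map_smul, e3]
  generalize T k = a
  generalize T (I • k) = b
  simp only [← coe_smul]
  have := I_mul_I
  match_scalars
  · ring
  · linear_combination (c.im : ℂ) * this

theorem cov_LinInj (hC : CovStmt) (φ : Fr) {U ξ : W → V} (hU : Hom1 U)
    (hn : ∀ q, q ≠ 0 → U q ≠ 0) (hξ : Hom1 ξ) :
    (∀ i z, z ≠ 0 → e_LinInj φ U ξ (cc i z) (cc i 1 - cc i 0) =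
      tr (fun w => e_LinInj φ U ξ (cc (!i) w) (cc (!i) 1 - cc (!i) 0)) z) ∧
    ((∀ i z, e_LinInj φ U ξ (cc i z) (cc i 1 - cc i 0) = 0) →
      ∀ q, q ≠ 0 → ∀ h, e_LinInj φ U ξ q h = 0) := by
  refine hC _ (fun q _ h h' => ?_) (fun q _ c h => anti_LinInj _ c h) (fun q hq => ?_)
    fun q hq c hc h => ?_
  · simp only [e_LinInj, smul_add, map_add]
    abel
  · have key : ∀ a : ℂ, T_LinInj φ U ξ q (a • q) = a • ξ q := fun a => by
      rw [T_apply_LinInj, fd_rad_LinInj hU hq, fd_rad_LinInj hξ hq, dA_vert_LinInj φ (hn q hq)]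
    have h1 := key 1
    rw [one_smul, one_smul] at h1
    rw [e_LinInj, h1, key, smul_smul, I_mul_I, neg_smul, one_smul, add_neg_cancel]
  · have key : ∀ k, T_LinInj φ U ξ (c • q) (c • k) = c • T_LinInj φ U ξ q k := fun k => by
      rw [T_apply_LinInj, T_apply_LinInj, fd_smul_LinInj hU hc hq, fd_smul_LinInj hξ hc hq, hU.2,
        hξ.2, dA_smul_LinInj φ (hn q hq) hc, A_smul_LinInj φ (hn q hq) hc, smul_add]
    rw [e_LinInj, e_LinInj, smul_comm I c h, key, key, smul_add, smul_comm I c]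

theorem cc_ne_LinInj (i : Bool) (z : ℂ) : cc i z ≠ 0 := by
  cases i <;> simp [cc]

theorem cc_deriv_LinInj (i : Bool) (z : ℂ) : HasFDerivAt (cc i)
    ((ContinuousLinearMap.toSpanSingleton ℂ (cc i 1 - cc i 0)).restrictScalars ℝ) z := by
  have e : cc i = fun w => cc i 0 +
      (ContinuousLinearMap.toSpanSingleton ℂ (cc i 1 - cc i 0)).restrictScalars ℝ w := by
    funext w
    cases i <;> simp [cc]
  have := (((ContinuousLinearMap.toSpanSingleton ℂ (cc i 1 - cc i 0)).restrictScalars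
    ℝ).hasFDerivAt (x := z)).const_add (cc i 0)
  rwa [← e] at this

theorem fd_cc_LinInj {U : W → V} (hU : Hom1 U) (i : Bool) (z w : ℂ) :
    fderiv ℝ (U ∘ cc i) z w = fderiv ℝ U (cc i z) (w • (cc i 1 - cc i 0)) := by
  rw [((diff_LinInj hU (cc_ne_LinInj i z)).comp z (cc_deriv_LinInj i z)).fderiv]
  rfl

theorem line_LinInj (φ : Fr) {x : V} (hx : x ≠ 0) (ξ u v : V) :
    HasDerivAt (fun t : ℝ => φ.A (x + t • ξ) (u + t • v)) (fderiv ℝ φ.A x ξ u + φ.A x v) 0 := by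
  have h1 : HasDerivAt (fun t : ℝ => x + t • ξ) ξ 0 := by
    simpa using ((hasDerivAt_id (0 : ℝ)).smul_const ξ).const_add x
  have h2 : HasDerivAt (fun t : ℝ => u + t • v) v 0 := by
    simpa using ((hasDerivAt_id (0 : ℝ)).smul_const v).const_add u
  have h3 := (dA_LinInj φ hx).comp_hasDerivAt_of_eq (0 : ℝ) h1 (by simp)
  simpa using h3.clm_apply h2

theorem dNl_LinInj (hN : NlStmt) (φ : Fr) {U : W → V} (hU : IsLine φ.J U) (i : Bool) (z : ℂ)
    (y : V) (d : ℂ →L[ℝ] V) :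
    fderiv ℝ (Nl φ φ U i) (z, 0) (0, y, d) =
      (1 / 2 : ℂ) • (fderiv ℝ φ.A (U (cc i z)) (φ.B (U (cc i z)) y) (fderiv ℝ (U ∘ cc i) z 1) +
        φ.A (U (cc i z)) (fderiv ℝ (fun z => φ.B (U (cc i z))) z 1 y + φ.B (U (cc i z)) (d 1)) +
        I • (fderiv ℝ φ.A (U (cc i z)) (φ.B (U (cc i z)) y) (fderiv ℝ (U ∘ cc i) z I) +
        φ.A (U (cc i z)) (fderiv ℝ (fun z => φ.B (U (cc i z))) z I y + φ.B (U (cc i z)) (d I)))) -
      (1 / 2 : ℂ) • (d 1 + I • d I) := by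
  have hx := hU.ne _ (cc_ne_LinInj i z)
  obtain ⟨ho, hf, -, -⟩ := hN Unit (fun _ => φ) φ U i
    (fun n => ⟨fam_of_contDiffOn isOpen_compl_singleton.uniqueDiffOn φ.smoothB,
      fam_of_contDiffOn isOpen_compl_singleton.uniqueDiffOn φ.smoothA⟩) hU
  have hm : ((z, 0) : ℂ × V × (ℂ →L[ℝ] V)) ∈ NlDom φ U i := by
    simpa [NlDom] using hx
  have hd : DifferentiableAt ℝ (Nl φ φ U i) (z, 0) :=
    ((hf 1).diffOn () _ hm).differentiableAt (ho.mem_nhds hm)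
  have h1 : HasDerivAt (fun t : ℝ => Nl φ φ U i ((z, 0) + t • (0, y, d))) _ 0 :=
    hd.hasFDerivAt.hasLineDerivAt (0, y, d)
  refine h1.unique ?_
  have h2 := line_LinInj φ hx (φ.B (U (cc i z)) y) (fderiv ℝ (U ∘ cc i) z 1)
    (fderiv ℝ (fun z => φ.B (U (cc i z))) z 1 y + φ.B (U (cc i z)) (d 1))
  have h3 := line_LinInj φ hx (φ.B (U (cc i z)) y) (fderiv ℝ (U ∘ cc i) z I)
    (fderiv ℝ (fun z => φ.B (U (cc i z))) z I y + φ.B (U (cc i z)) (d I))
  have h4 : HasDerivAt (fun t : ℝ => t • ((1 / 2 : ℂ) • (d 1 + I • d I)))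
      ((1 / 2 : ℂ) • (d 1 + I • d I)) 0 := by
    simpa using (hasDerivAt_id (0 : ℝ)).smul_const ((1 / 2 : ℂ) • (d 1 + I • d I))
  have h5 := ((h2.fun_add (h3.fun_const_smul I)).fun_const_smul (1 / 2 : ℂ)).fun_sub h4
  refine h5.congr_of_eventuallyEq (Eventually.of_forall fun t => ?_)
  have e : ((z, 0) : ℂ × V × (ℂ →L[ℝ] V)) + t • (0, y, d) = (z, t • y, t • d) := by simp
  simp only [e, Nl, map_smul, smul_apply, smul_add, add_assoc,
    smul_comm t (1 / 2 : ℂ), smul_comm t I]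

theorem tr_tr_LinInj (g : ℂ → V) {z : ℂ} (hz : z ≠ 0) : tr (tr g) z = g z := by
  have hc : conj z ≠ 0 := (map_ne_zero _).2 hz
  rw [tr, tr, inv_inv, smul_smul, map_inv₀]
  have : -(z / conj z ^ 2) * -(z⁻¹ / (conj z)⁻¹ ^ 2) = 1 := by
    field_simp
  rw [this, one_smul]

theorem linInj (hS : SStmt) (hC : CovStmt) (hK : KerStmt) (hL : LineSmoothStmt) (hN : NlStmt) :
    LinInjStmt := by
  intro κ φ U b h M hU hE hh heq
  have _ := hL
  obtain ⟨C, -, hS1, -⟩ := hS κ b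
  have hM : ‖(0 : V × V)‖ ≤ M := by
    rw [norm_zero]
    exact (norm_nonneg _).trans ((hh true).1 0 trivial)
  obtain ⟨hη, hcon, -, -, hdb⟩ := hS1 h 0 M hh hM
  generalize sec1 κ b h 0 = η at hη hcon hdb heq
  have hU1 : Hom1 U := ⟨hU.c1, hU.hom⟩
  have hη0 : η 0 = 0 := by simpa using hη.2 0 0
  obtain ⟨ξ, hξd⟩ : ∃ ξ : W → V, ξ = fun q => φ.B (U q) (η q) := ⟨_, rfl⟩
  have hξq : ∀ q, ξ q = φ.B (U q) (η q) := fun q => by rw [hξd]
  have hξ : Hom1 ξ := by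
    refine ⟨?_, fun c q => ?_⟩
    · rw [hξd]
      exact ((φ.smoothB.of_le (by exact_mod_cast le_top)).comp hU.c1
        fun q hq => hU.ne q hq).clm_apply hη.1
    · rw [hξq, hξq]
      by_cases hc : c = 0
      · rw [hc, zero_smul, zero_smul, hη0, map_zero]
      by_cases hq : q = 0
      · rw [hq, smul_zero, hη0, map_zero, smul_zero]
      rw [hU.hom, hη.2, φ.scale _ (hU.ne q hq) c hc]
  obtain ⟨hcov, hzero⟩ := cov_LinInj hC φ hU1 hU.ne hξ
  have hN1 : ∀ i z, fderiv ℝ (Nl φ φ U i) (z, 0) (0, jc η i z) =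
      (1 / 2 : ℂ) • e_LinInj φ U ξ (cc i z) (cc i 1 - cc i 0) - dbar (η ∘ cc i) z := by
    intro i z
    have hB : HasFDerivAt (fun z => φ.B (U (cc i z))) _ z :=
      (dB_LinInj φ (hU.ne _ (cc_ne_LinInj i z))).comp z
        ((diff_LinInj hU1 (cc_ne_LinInj i z)).comp z (cc_deriv_LinInj i z))
    have hη' : HasFDerivAt (η ∘ cc i) _ z :=
      (diff_LinInj hη (cc_ne_LinInj i z)).comp z (cc_deriv_LinInj i z)
    have h1 : ∀ w, fderiv ℝ (fun z => φ.B (U (cc i z))) z w (η (cc i z)) +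
        φ.B (U (cc i z)) (fderiv ℝ (η ∘ cc i) z w) =
          fderiv ℝ ξ (cc i z) (w • (cc i 1 - cc i 0)) := by
      intro w
      have h2 := (hB.differentiableAt.hasFDerivAt.clm_apply
        hη'.differentiableAt.hasFDerivAt).fderiv
      have h3 : ξ ∘ cc i = fun y => φ.B (U (cc i y)) ((η ∘ cc i) y) := funext fun y => hξq _
      rw [← fd_cc_LinInj hξ, h3, h2, add_comm]
      rfl
    rw [jc, dNl_LinInj hN φ hU, h1, h1, ← hξq, fd_cc_LinInj hU1, fd_cc_LinInj hU1, one_smul, dbar,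
      e_LinInj, T_apply_LinInj, T_apply_LinInj]
  have hρ : ∀ i z, κ.ρ z • h i z = h i z := fun i z => by
    rcases le_total ‖z‖ 2 with hz | hz
    · rw [κ.one' z hz, one_smul]
    · have := heq i z
      rw [κ.zero z hz, zero_smul, add_zero] at this
      rw [this, smul_zero]
  simp only [hρ] at hdb
  have hE0 : ∀ i z, e_LinInj φ U ξ (cc i z) (cc i 1 - cc i 0) = 0 := by
    intro i z
    have h1 := heq i z
    rw [hN1, hdb] at h1
    have h5 : (1 / 2 : ℂ) • e_LinInj φ U ξ (cc i z) (cc i 1 - cc i 0) = 0 := by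
      by_cases hz : z = 0
      · subst hz
        rw [κ.one 0 (by simp), one_smul, tr] at h1
        simpa using h1
      · have h2 := heq (!i) z⁻¹
        rw [hN1, hdb, Bool.not_not] at h2
        have h3 := congrArg (fun v : V => -(z / conj z ^ 2) • v) h2
        have h4 := tr_tr_LinInj (fun w => h i w) hz
        rw [tr] at h4
        have h6 := hcov i z hz
        rw [tr] at h6
        simp only [smul_add, smul_zero, smul_sub, smul_comm (-(z / conj z ^ 2)) (κ.χ z⁻¹),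
          smul_comm (-(z / conj z ^ 2)) (1 / 2 : ℂ), h4, ← h6] at h3
        rw [tr] at h1
        have h7 := κ.sum z hz
        generalize (1 / 2 : ℂ) • e_LinInj φ U ξ (cc i z) (cc i 1 - cc i 0) = E at h1 h3 ⊢
        generalize -(z / conj z ^ 2) • h (!i) z⁻¹ = g at h1 h3
        rw [eq_sub_of_add_eq h7] at h1
        linear_combination (norm := module) h1 + h3
    exact (smul_eq_zero.1 h5).resolve_left (by norm_num)
  have hcon' : con b ξ = 0 := by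
    have h10 : ((1, 0) : W) ≠ 0 := by simp
    cases b
    · have h1 : η (1, 0) = 0 := congrArg Prod.fst hcon
      have h2 : fderiv ℝ η (1, 0) (0, 1) = 0 := congrArg Prod.snd hcon
      have h3 := (((dB_LinInj φ (hU.ne _ h10)).comp _ (diff_LinInj hU1 h10)).clm_apply
        (diff_LinInj hη h10)).fderiv
      have h4 : ξ = fun y => (φ.B ∘ U) y (η y) := hξd
      refine Prod.ext ?_ ?_
      · change ξ (1, 0) = 0
        rw [hξq, h1, map_zero]
      · change fderiv ℝ ξ (1, 0) (0, 1) = 0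
        rw [h4, h3]
        simp [h1, h2]
    · have h1 : η (1, 0) = 0 := congrArg Prod.fst hcon
      have h2 : η (0, 1) = 0 := congrArg Prod.snd hcon
      refine Prod.ext ?_ ?_
      · change ξ (1, 0) = 0
        rw [hξq, h1, map_zero]
      · change ξ (0, 1) = 0
        rw [hξq, h2, map_zero]
  have hξ0 := hK φ U ξ b hU hE hξ.1 hξ.2 (fun q hq k => by
    have h1 := hzero hE0 q hq k
    rw [e_LinInj] at h1
    rw [← T_apply_LinInj, ← T_apply_LinInj, eq_neg_of_add_eq_zero_left h1, smul_neg, smul_smul,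
      I_mul_I, neg_smul, one_smul, neg_neg]) hcon'
  have hη1 : η = 0 := funext fun q => by
    by_cases hq : q = 0
    · rw [hq, hη0]
      rfl
    · rw [← φ.AB _ (hU.ne q hq) (η q), ← hξq, hξ0, map_zero]
      rfl
  funext i z
  have h1 := heq i z
  have h2 : ((0, jc η i z) : ℂ × V × (ℂ →L[ℝ] V)) = 0 := by
    rw [hη1]
    simp [jc]
  rw [h2, map_zero, smul_zero, add_zero] at h1
  exact h1

end Pool.Agent.MP_2fc7fa_gt.N

end
end

section

open scoped ContDiff Topology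
open Set Complex Filter Metric

namespace Pool.Agent.MP_2fc7fa_gt.N

lemma mono_Kop {E : Type} [NormedAddCommGroup E] {f : ℂ → E} {S : Set ℂ} {M M' : ℝ}
    (h : HB M f S) (hM : M ≤ M') : HB M' f S :=
  ⟨fun z hz => (h.1 z hz).trans hM, fun z hz z' hz' =>
    (h.2 z hz z' hz').trans (mul_le_mul_of_nonneg_right hM (Real.sqrt_nonneg _))⟩

lemma lip_Kop {E F : Type} [NormedAddCommGroup E] [NormedSpace ℝ E] [NormedAddCommGroup F]
    [NormedSpace ℝ F] {R : ℂ → E →L[ℝ] F} (hR : ContDiff ℝ 1 R) (h0 : ∀ z, 2 ≤ ‖z‖ → R z = 0) :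
    ∃ C : ℝ, ∀ (η : ℂ → E) (M : ℝ), Differentiable ℝ η →
      (∀ z ∈ ball (0 : ℂ) 3, ‖η z‖ ≤ M ∧ ‖fderiv ℝ η z‖ ≤ M) →
      ∀ z z', ‖R z (η z) - R z' (η z')‖ ≤ C * M * ‖z - z'‖ := by
  obtain ⟨A, hA⟩ := (isCompact_closedBall (0 : ℂ) 3).exists_bound_of_continuousOn
    hR.continuous.continuousOn
  obtain ⟨B, hB⟩ := (isCompact_closedBall (0 : ℂ) 3).exists_bound_of_continuousOn
    (hR.continuous_fderiv one_ne_zero).continuousOn
  have hz0 : (0 : ℂ) ∈ ball (0 : ℂ) 3 := mem_ball_self (by norm_num)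
  have hA0 : 0 ≤ A := (norm_nonneg _).trans (hA 0 (ball_subset_closedBall hz0))
  have hB0 : 0 ≤ B := (norm_nonneg _).trans (hB 0 (ball_subset_closedBall hz0))
  refine ⟨A + B, fun η M hη hM z z' => ?_⟩
  have hM0 : 0 ≤ M := (norm_nonneg _).trans (hM 0 hz0).1
  have hd := fun w => ((hR.differentiable one_ne_zero w).hasFDerivAt.clm_apply (hη w).hasFDerivAt)
  refine convex_univ.norm_image_sub_le_of_norm_fderiv_le (𝕜 := ℝ) (f := fun w => R w (η w))
    (fun w _ => (hd w).differentiableAt) (fun w _ => ?_) (mem_univ z') (mem_univ z)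
  by_cases hw : w ∈ ball (0 : ℂ) 3
  · rw [(hd w).fderiv, add_mul]
    refine (norm_add_le _ _).trans (add_le_add ((ContinuousLinearMap.opNorm_comp_le _ _).trans
      (mul_le_mul (hA w (ball_subset_closedBall hw)) (hM w hw).2 (norm_nonneg _) hA0)) ?_)
    refine ContinuousLinearMap.le_of_opNorm_le_of_le _ ?_ (hM w hw).1
    rw [ContinuousLinearMap.opNorm_flip]
    exact hB w (ball_subset_closedBall hw)
  · have h1 : (fun w => R w (η w)) =ᶠ[𝓝 w] fun _ => 0 := by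
      rw [mem_ball_zero_iff, not_lt] at hw
      filter_upwards [(isOpen_lt continuous_const continuous_norm).mem_nhds
        (show (2 : ℝ) < ‖w‖ by linarith)] with t ht
      rw [h0 t (le_of_lt ht)]
      rfl
    rw [h1.fderiv_eq, fderiv_fun_const, Pi.zero_apply, norm_zero]
    positivity

lemma ne_Kop (i : Bool) (z : ℂ) : cc i z ≠ 0 := by
  cases i <;> simp [cc]

lemma diff_Kop {η : W → V} (h : Hom1 η) (i : Bool) : Differentiable ℝ (η ∘ cc i) := fun z => by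
  refine DifferentiableAt.comp z ((h.1.differentiableOn one_ne_zero).differentiableAt
    (isOpen_compl_singleton.mem_nhds (ne_Kop i z))) ?_
  unfold cc
  cases i
  · exact (differentiableAt_const _).prodMk differentiableAt_id
  · exact differentiableAt_id.prodMk (differentiableAt_const _)

lemma add_Kop {η η' : W → V} (h : Hom1 η) (h' : Hom1 η') (i : Bool) (z : ℂ) :
    jc (η + η') i z = jc η i z + jc η' i z :=
  Prod.ext rfl (fderiv_add (diff_Kop h i z) (diff_Kop h' i z))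

lemma smul_Kop {η : W → V} (h : Hom1 η) (c : ℝ) (i : Bool) (z : ℂ) :
    jc (c • η) i z = c • jc η i z :=
  Prod.ext rfl (fderiv_const_smul (diff_Kop h i z) c)

lemma one_Kop (hS : SStmt) (hN : NlStmt) (hM : NemStmt) (hC : CptStmt) (κ : Bumps) (φ₀ : Fr)
    (U₀ : W → V) (b : Bool) (hL : IsLine φ₀.J U₀) (i : Bool) :
    ∃ K : (Bool → Ho V) →L[ℝ] Ho V, IsCompactOperator K ∧ ∀ h z, (K h).fn z =
      κ.χ z • fderiv ℝ (Nl φ₀ φ₀ U₀ i) (z, 0) (0, jc (sec1 κ b (fun i => (h i).fn) 0) i z) := by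
  obtain ⟨C, hC0, hS1, hS2⟩ := hS κ b
  obtain ⟨hO, hF, -, hI⟩ := hN Unit (fun _ => φ₀) φ₀ U₀ i (fun n =>
    ⟨fam_of_contDiffOn isOpen_compl_singleton.uniqueDiffOn φ₀.smoothB,
      fam_of_contDiffOn isOpen_compl_singleton.uniqueDiffOn φ₀.smoothA⟩) hL
  have hz : ∀ z : ℂ, (z, 0) ∈ NlDom φ₀ U₀ i := fun z => by
    simpa [NlDom] using hL.ne _ (ne_Kop i z)
  have hχ : ContDiff ℝ 1 κ.χ := κ.sχ.of_le (by exact_mod_cast le_top)
  obtain ⟨-, ⟨C', -, hM2⟩, -⟩ := hM _ V Unit _ _ κ.χ () hO (hF 2) hz hχ κ.zero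
  have hG := (hF 2).contDiffOn hO.uniqueDiffOn ()
  generalize Nl φ₀ φ₀ U₀ i = G at hI hM2 hG
  have hD : ContDiff ℝ 1 fun z : ℂ => fderiv ℝ G (z, 0) := contDiff_iff_contDiffAt.2 fun z =>
    ((hG.contDiffAt (hO.mem_nhds (hz z))).fderiv_right (m := 1) (by norm_num)).comp z
      (contDiffAt_id.prodMk contDiffAt_const)
  obtain ⟨C'', hlip⟩ := lip_Kop (R := fun z => κ.χ z • (fderiv ℝ G (z, 0)).comp
    ((ContinuousLinearMap.inr ℝ ℂ _).comp (ContinuousLinearMap.inl ℝ V (ℂ →L[ℝ] V))))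
    (hχ.smul (hD.clm_comp contDiff_const)) fun z hz => by
      ext v
      simp [κ.zero z hz]
  have hb : ∀ (h : Bool → Ho V) (M : ℝ), ‖h‖ ≤ M → ∀ i, HB M (h i).fn univ := fun h M hM i =>
    mono_Kop (h i).hb ((norm_le_pi_norm h i).trans hM)
  have h1 := fun h : Bool → Ho V => hS1 (fun i => (h i).fn) 0 ‖h‖ (hb h _ le_rfl) (by simp)
  have h2 := fun h : Bool → Ho V => hM2 _ _ ((h1 h).2.2.1 i)
  have h3 := fun (h h' : Bool → Ho V) (c : ℝ) => hS2 (fun i => (h i).fn) (fun i => (h' i).fn) 0 0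
    (max ‖h‖ ‖h'‖) c (hb h _ (le_max_left _ _)) (hb h' _ (le_max_right _ _))
  simp only [add_zero, smul_zero] at h3
  let L : (Bool → Ho V) →ₗ[ℝ] Ho V :=
    { toFun := fun h => Ho.of fun z =>
        κ.χ z • fderiv ℝ G (z, 0) (0, jc (sec1 κ b (fun i => (h i).fn) 0) i z)
      map_add' := fun h h' => Ho.ext_fn (by
        rw [Ho.fn_add, (h2 h).fn_of, (h2 h').fn_of, (h2 (h + h')).fn_of]
        funext z
        rw [Pi.add_apply, ← smul_add, ← map_add, Prod.mk_add_mk, add_zero,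
          ← add_Kop (h1 h).1 (h1 h').1, ← (h3 h h' 0).1]
        rfl)
      map_smul' := fun c h => Ho.ext_fn (by
        rw [RingHom.id_apply, Ho.fn_smul, (h2 h).fn_of, (h2 (c • h)).fn_of]
        funext z
        rw [Pi.smul_apply, smul_comm c, ← map_smul _ c, Prod.smul_mk, smul_zero,
          ← smul_Kop (h1 h).1, ← (h3 h h c).2]
        rfl) }
  have hK : ∀ h z, (L.mkContinuous (C' * C) (fun h => (h2 h).norm_of.trans_eq (mul_assoc _ _ _).symm)
      h).fn z = κ.χ z • fderiv ℝ G (z, 0) (0, jc (sec1 κ b (fun i => (h i).fn) 0) i z) :=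
    fun h z => congrFun (h2 h).fn_of z
  refine ⟨_, hC _ V _ (C'' * C) (fun h z hz => ?_) fun h z z' => ?_, hK⟩
  · rw [hK, κ.zero z hz, zero_smul]
  · rw [hK, hK, jc, jc, hI z, hI z', mul_assoc C'']
    refine hlip _ _ (diff_Kop (h1 h).1 i) (fun w hw => ?_) z z'
    have h4 := ((h1 h).2.2.1 i).1 w hw
    exact ⟨(norm_fst_le _).trans h4, (norm_snd_le _).trans h4⟩

lemma pi_Kop {X Y : Type} [NormedAddCommGroup X] [NormedSpace ℝ X] [NormedAddCommGroup Y]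
    [NormedSpace ℝ Y] (K : Bool → X →L[ℝ] Y) (h : ∀ i, IsCompactOperator (K i)) :
    IsCompactOperator (ContinuousLinearMap.pi K) := by
  have e : ⇑(ContinuousLinearMap.pi K) =
      ContinuousLinearMap.single ℝ (fun _ : Bool => Y) false ∘ K false +
        ContinuousLinearMap.single ℝ (fun _ : Bool => Y) true ∘ K true := by
    funext x i
    cases i <;> simp
  rw [e]
  exact ((h false).clm_comp _).add ((h true).clm_comp _)

theorem kop (hS : SStmt) (hN : NlStmt) (hM : NemStmt) (hC : CptStmt) : KopStmt := by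
  intro κ φ₀ U₀ b hL
  choose K h1 h2 using one_Kop hS hN hM hC κ φ₀ U₀ b hL
  exact ⟨ContinuousLinearMap.pi K, pi_Kop K h1, fun h i z => h2 i h z⟩

end Pool.Agent.MP_2fc7fa_gt.N

end

section

/-! Solving the cut-off equation. -/

open scoped ContDiff ComplexConjugate Topology NNReal
open Set Complex Filter Metric

noncomputable section

namespace Pool.Agent.MP_2fc7fa_gt.N

section
variable {E : Type} [NormedAddCommGroup E] {M M' : ℝ} {f g : ℂ → E} {S : Set ℂ}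

theorem HB.mono_Solve (h : HB M f S) (hM : M ≤ M') : HB M' f S :=
  ⟨fun z hz => (h.1 z hz).trans hM, fun z hz z' hz' =>
    (h.2 z hz z' hz').trans (mul_le_mul_of_nonneg_right hM (Real.sqrt_nonneg _))⟩

theorem HB.add_Solve (h : HB M f S) (h' : HB M' g S) : HB (M + M') (fun z => f z + g z) S :=
  ⟨fun z hz => (norm_add_le _ _).trans (add_le_add (h.1 z hz) (h'.1 z hz)), fun z hz z' hz' => by
    rw [add_sub_add_comm, add_mul]
    exact (norm_add_le _ _).trans (add_le_add (h.2 z hz z' hz') (h'.2 z hz z' hz'))⟩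

end

theorem hb_pi_Solve {x : Bool → Ho V} {M : ℝ} (h : ‖x‖ ≤ M) (i : Bool) : HB M (x i).fn univ :=
  (x i).hb.mono_Solve ((norm_le_pi_norm x i).trans h)

theorem both_Solve {C : ℝ} (hC : 0 < C) {R : Bool → ℝ → Prop}
    (h : ∀ i, ∃ δ, 0 < δ ∧ R i δ) : ∃ δ, 0 < δ ∧ ∀ i, ∃ δ', C * δ ≤ δ' ∧ R i δ' := by
  choose d hd hR using h
  refine ⟨min (d false) (d true) / C, div_pos (lt_min (hd _) (hd _)) hC, fun i => ⟨d i, ?_, hR i⟩⟩
  rw [mul_div_cancel₀ _ hC.ne']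
  cases i
  exacts [min_le_left _ _, min_le_right _ _]

theorem abs_Solve (hA : AbsStmt) {E : Type} [NormedAddCommGroup E] {Q : Type}
    [TopologicalSpace Q] (G : Bool → Q → ℂ × E → V) (L : Bool → ℂ → E → V) (χ : ℂ → ℝ) (q₀ : Q)
    (μ : Q → V × V) (hμ : Continuous μ) (hμ0 : μ q₀ = 0)
    (Y : (Bool → Ho V) → V × V → Bool → ℂ → E) {C : ℝ} (hC : 0 < C)
    (Y1 : ∀ x m M i, ‖x‖ ≤ M → ‖m‖ ≤ M → HB (C * M) (Y x m i) (ball 0 3))
    (Y2 : ∀ x x' m m' i, Y x m i - Y x' m' i = Y (x - x') (m - m') i)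
    (G0 : ∀ i z, G i q₀ (z, 0) = 0)
    (N1 : ∀ i (c : ℝ), 0 < c → ∃ δ : ℝ, 0 < δ ∧ ∀ᶠ p in 𝓝 q₀, ∀ (y y' : ℂ → E) (M : ℝ),
      HB δ y (ball 0 3) → HB δ y' (ball 0 3) → HB M (y - y') (ball 0 3) →
      HB (c * M) (fun z => χ z • (G i p (z, y z) - G i p (z, y' z) - L i z (y z - y' z))) univ)
    (N2 : ∀ i, ∃ C : ℝ, 0 < C ∧ ∀ (y : ℂ → E) (M : ℝ), HB M y (ball 0 3) →
      HB (C * M) (fun z => χ z • L i z (y z)) univ)
    (N3 : ∀ i, ∃ δ : ℝ, 0 < δ ∧ ∀ (p : Q) (y : ℂ → E), HB δ y (ball 0 3) →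
      (∃ M, HB M (fun z => χ z • G i p (z, y z)) univ) ∧
      ∀ c : ℝ, 0 < c → ∀ᶠ p' in 𝓝 p,
        HB c (fun z => χ z • (G i p' (z, y z) - G i p (z, y z))) univ)
    (K : (Bool → Ho V) →L[ℝ] (Bool → Ho V)) (hK : IsCompactOperator K)
    (hK' : ∀ h i z, (K h i).fn z = χ z • L i z (Y h 0 i z))
    (hI : ∀ x, x + K x = 0 → x = 0) {δ₁ : ℝ} (hδ₁ : 0 < δ₁) :
    ∃ δ : ℝ, 0 < δ ∧ δ ≤ δ₁ ∧ ∃ N ∈ 𝓝 q₀, ∃ s : Q → Bool → Ho V,
      ContinuousOn s N ∧ s q₀ = 0 ∧ ∀ a ∈ N, ‖s a‖ < δ ∧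
        ∀ h : Bool → Ho V, ‖h‖ < δ →
          (h = s a ↔ ∀ i z, (h i).fn z + χ z • G i a (z, Y h (μ a) i z) = 0) := by
  obtain ⟨δ₃, hδ₃, h3⟩ := both_Solve hC N3
  let F : Q → (Bool → Ho V) → Bool → Ho V := fun a x i =>
    x i + Ho.of fun z => χ z • G i a (z, Y x (μ a) i z)
  have hF : ∀ a x i, ‖x‖ ≤ δ₃ → ‖μ a‖ ≤ δ₃ → ∀ z,
      (F a x i).fn z = (x i).fn z + χ z • G i a (z, Y x (μ a) i z) := by
    intro a x i hx ha z
    obtain ⟨d, hd, h⟩ := h3 i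
    obtain ⟨M, hM⟩ := (h a _ ((Y1 x (μ a) δ₃ i hx ha).mono_Solve hd)).1
    simp only [F, Ho.fn_add, hM.fn_of, Pi.add_apply]
  have hsmall : ∀ δ : ℝ, 0 < δ → ∀ᶠ a in 𝓝 q₀, ‖μ a‖ ≤ δ := fun δ hδ =>
    (hμ.norm.tendsto q₀).eventually (ge_mem_nhds (by rwa [hμ0, norm_zero]))
  have happ : ∀ c : ℝ, 0 < c → ∃ δ : ℝ, 0 < δ ∧ δ ≤ δ₃ ∧ ∀ᶠ p in 𝓝 q₀, ‖μ p‖ ≤ δ ∧
      ∀ i x x' m m' M, ‖x‖ ≤ δ → ‖x'‖ ≤ δ → ‖m‖ ≤ δ → ‖m'‖ ≤ δ → ‖x - x'‖ ≤ M → ‖m - m'‖ ≤ M →
      HB (c * M) (fun z => χ z • (G i p (z, Y x m i z) - G i p (z, Y x' m' i z) -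
        L i z (Y (x - x') (m - m') i z))) univ := by
    intro c hc
    obtain ⟨δ, hδ, h1⟩ := both_Solve hC fun i => N1 i (c / C) (div_pos hc hC)
    choose d hd h1 using h1
    refine ⟨min δ δ₃, lt_min hδ hδ₃, min_le_right _ _, ?_⟩
    filter_upwards [hsmall _ (lt_min hδ hδ₃), eventually_all.2 h1] with p hp hp'
    refine ⟨hp, fun i x x' m m' M hx hx' hm hm' hM hM' => ?_⟩
    have e := min_le_left δ δ₃
    have := hp' i _ _ _ ((Y1 x m δ i (hx.trans e) (hm.trans e)).mono_Solve (hd i))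
      ((Y1 x' m' δ i (hx'.trans e) (hm'.trans e)).mono_Solve (hd i))
      (by rw [Y2]; exact Y1 _ _ M i hM hM')
    rw [← mul_assoc, div_mul_cancel₀ _ hC.ne'] at this
    rw [← Y2]
    exact this
  refine (hA _ Q F K q₀ hK hI ?_ ?_ ?_ (min δ₁ δ₃) (lt_min hδ₁ hδ₃)).elim ?_
  rotate_right
  · rintro δ ⟨hδ, hle, N, hN, s, hs, hs0, hs'⟩
    refine ⟨δ, hδ, hle.trans (min_le_left _ _), N ∩ {a | ‖μ a‖ ≤ δ₃},
      inter_mem hN (hsmall _ hδ₃), s, hs.mono inter_subset_left, hs0, fun a ha => ?_⟩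
    obtain ⟨h1, h2, h4⟩ := hs' a ha.1
    refine ⟨mem_ball_zero_iff.1 h1, fun h hh => ?_⟩
    have h5 := fun i => hF a h i (hh.le.trans (hle.trans (min_le_right _ _))) ha.2
    refine ⟨fun e i z => ?_, fun e => h4 h (mem_ball_zero_iff.2 hh) ?_⟩
    · rw [← h5, e, h2]; rfl
    · exact funext fun i => Ho.ext_fn (funext fun z => (h5 i z).trans (e i z))
  · refine funext fun i => Ho.ext_fn (funext fun z => ?_)
    have h0 : Y 0 0 i = 0 := by simpa using (Y2 0 0 0 0 i).symm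
    rw [hF q₀ 0 i (by simpa using hδ₃.le) (by simpa [hμ0] using hδ₃.le), hμ0, h0, Pi.zero_apply,
      Pi.zero_apply, G0, smul_zero, add_zero]
  · intro c hc
    obtain ⟨δ, hδ, hle, h⟩ := happ c hc
    refine ⟨δ, hδ, h.mono fun p hp x hx x' hx' => ?_⟩
    rw [mem_ball_zero_iff] at hx hx'
    refine (pi_norm_le_iff_of_nonneg (by positivity)).2 fun i => Ho.norm_le ?_
    have := hp.2 i x x' (μ p) (μ p) _ hx.le hx'.le hp.1 hp.1 le_rfl (by simp)
    convert this using 2 with z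
    simp only [Pi.sub_apply, Pi.add_apply, Ho.fn_sub, Ho.fn_add, hK', sub_self, smul_sub,
      hF p x i (hx.le.trans hle) (hp.1.trans hle), hF p x' i (hx'.le.trans hle) (hp.1.trans hle)]
    abel
  · obtain ⟨δ, hδ, hle, h⟩ := happ 1 one_pos
    refine ⟨δ, hδ, h.eventually_nhds.mono fun p hp x hx => ?_⟩
    rw [mem_ball_zero_iff] at hx
    have hp0 := hp.self_of_nhds.1
    refine continuousAt_pi.2 fun i => ?_
    obtain ⟨C₂, hC₂, h2⟩ := N2 i
    obtain ⟨d, hd, h4⟩ := h3 i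
    rw [ContinuousAt, Metric.tendsto_nhds]
    intro ε hε
    have hη : 0 < ε / 4 / (1 + C₂ * C) := by positivity
    have h5 : ∀ᶠ p' in 𝓝 p, ‖μ p' - μ p‖ ≤ ε / 4 / (1 + C₂ * C) :=
      ((hμ.sub continuous_const).norm.tendsto p).eventually
        (ge_mem_nhds (by simpa only [Pi.sub_apply, sub_self, norm_zero] using hη))
    filter_upwards [hp, h5, (h4 p _ ((Y1 x (μ p) δ₃ i (hx.le.trans hle)
      (hp0.trans hle)).mono_Solve hd)).2 (ε / 4) (by positivity)] with p' hp' h6 h7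
    have h8 : ‖x - x‖ ≤ ε / 4 / (1 + C₂ * C) := by simpa using hη.le
    have h9 := ((hp'.2 i x x (μ p') (μ p) _ hx.le hx.le hp'.1 hp0 h8 h6).add_Solve
      (h2 _ _ (Y1 _ _ _ i h8 h6))).add_Solve h7
    rw [dist_eq_norm]
    refine lt_of_le_of_lt (Ho.norm_le (M := ε / 2) ?_) (half_lt_self hε)
    convert h9 using 1
    · field_simp
      ring
    · funext z
      simp only [Pi.sub_apply, Ho.fn_sub, smul_sub, hF p' x i (hx.le.trans hle) (hp'.1.trans hle),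
        hF p x i (hx.le.trans hle) (hp0.trans hle)]
      abel

theorem cc_ne_Solve (i : Bool) (z : ℂ) : cc i z ≠ 0 := by
  cases i <;> simp [cc]

theorem jc_add_Solve {η η' : W → V} (h : Hom1 η) (h' : Hom1 η') (i : Bool) :
    jc (η + η') i = jc η i + jc η' i := by
  have key : ∀ {η : W → V}, Hom1 η → ∀ z, DifferentiableAt ℝ (η ∘ cc i) z := fun h z => by
    refine DifferentiableAt.comp z ((h.1.contDiffAt
      (isOpen_compl_singleton.mem_nhds (cc_ne_Solve i z))).differentiableAt one_ne_zero) ?_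
    cases i
    · exact (differentiableAt_const _).prodMk differentiableAt_id
    · exact differentiableAt_id.prodMk (differentiableAt_const _)
  funext z
  exact Prod.ext rfl (fderiv_add (key h z) (key h' z))

theorem solve (hA : AbsStmt) (hS : SStmt) (hN : NlStmt) (hM : NemStmt) (hK : KopStmt)
    (hI : LinInjStmt) : SolveStmt := by
  intro κ P _ φ p₀ U₀ b hφ hU hE δ₁ hδ₁
  obtain ⟨C, hC, hS1, hS2⟩ := hS κ b
  obtain ⟨K, hK1, hK2⟩ := hK κ (φ p₀) U₀ b hU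
  have hm := fun i => hM _ V (P × (V × V)) (fun a => Nl (φ a.1) (φ p₀) U₀ i) _ κ.χ
    (p₀, con b U₀) (hN P φ (φ p₀) U₀ i hφ hU).1
    (((hN P φ (φ p₀) U₀ i hφ hU).2.1 2).param continuous_fst)
    (fun z => by simpa [NlDom] using hU.ne _ (cc_ne_Solve i z))
    (κ.sχ.of_le (mod_cast le_top)) κ.zero
  refine abs_Solve hA (fun i (a : P × (V × V)) => Nl (φ a.1) (φ p₀) U₀ i)
    (fun i z y => fderiv ℝ (Nl (φ p₀) (φ p₀) U₀ i) (z, 0) (0, y)) κ.χ (p₀, con b U₀)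
    (fun a => mOf (φ p₀) U₀ b a.2) ?_ ?_ (fun h m => jc (sec1 κ b (fun i => (h i).fn) m)) hC
    (fun x m M i hx hm => (hS1 _ m M (hb_pi_Solve hx) hm).2.2.1 i) ?_
    (fun i => (hN P φ (φ p₀) U₀ i hφ hU).2.2.1) (fun i => (hm i).1) (fun i => (hm i).2.1)
    (fun i => (hm i).2.2) K hK1 hK2 ?_ hδ₁
  · unfold mOf
    cases b
    · simp only [Bool.false_eq_true, if_false]
      fun_prop
    · simp only [if_true]
      fun_prop
  · cases b <;> simp [mOf, con, jet]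
  · intro x x' m m' i
    have h1 := hS1 _ (m - m') _ (hb_pi_Solve (le_max_left ‖x - x'‖ ‖m - m'‖)) (le_max_right _ _)
    have h2 := hS1 _ m' _ (hb_pi_Solve (le_max_left ‖x'‖ ‖m'‖)) (le_max_right _ _)
    have h3 := (hS2 _ _ (m - m') m' _ 0 (hb_pi_Solve (le_max_left ‖x - x'‖ ‖x'‖))
      (hb_pi_Solve (le_max_right _ _))).1
    have h4 : ((fun i => ((x - x') i).fn) + fun i => (x' i).fn) = fun i => (x i).fn :=
      funext fun i => by simp [Ho.fn_sub]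
    rw [h4, sub_add_cancel] at h3
    rw [h3, jc_add_Solve h1.1 h2.1, add_sub_cancel_right]
  · intro x hx
    have := hI κ (φ p₀) U₀ b (fun i => (x i).fn) _ hU hE (hb_pi_Solve le_rfl) fun i z => by
      rw [← hK2]
      exact congrFun (congrArg Ho.fn (congrFun hx i)) z
    exact funext fun i => Ho.ext_fn (congrFun this i)

end Pool.Agent.MP_2fc7fa_gt.N

end
end

section

/-! The implicit function theorem for embedded lines: final assembly. -/

open scoped ContDiff ComplexConjugate Topology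
open Set Complex Filter Metric

noncomputable section

namespace Pool.Agent.MP_2fc7fa_gt.N

section
variable {E : Type} [NormedAddCommGroup E] {f g : ℂ → E} {S : Set ℂ} {M M' : ℝ}

theorem hbMono_IFT2 (h : HB M f S) (hM : M ≤ M') : HB M' f S :=
  ⟨fun z hz => (h.1 z hz).trans hM, fun z hz z' hz' => (h.2 z hz z' hz').trans
    (mul_le_mul_of_nonneg_right hM (Real.sqrt_nonneg _))⟩

theorem hbAdd_IFT2 (h : HB M f S) (h' : HB M' g S) : HB (M + M') (fun z => f z + g z) S :=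
  ⟨fun z hz => (norm_add_le _ _).trans (add_le_add (h.1 z hz) (h'.1 z hz)), fun z hz z' hz' => by
    rw [add_sub_add_comm, add_mul]
    exact (norm_add_le _ _).trans (add_le_add (h.2 z hz z' hz') (h'.2 z hz z' hz'))⟩

theorem hbNeg_IFT2 (h : HB M f S) : HB M (fun z => -f z) S :=
  ⟨fun z hz => by rw [norm_neg]; exact h.1 z hz, fun z hz z' hz' => by
    rw [neg_sub_neg, norm_sub_rev]
    exact h.2 z hz z' hz'⟩

theorem hbZero_IFT2 (hM : 0 ≤ M) : HB M (0 : ℂ → E) S :=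
  ⟨fun z _ => by simpa using hM, fun z _ z' _ => by
    simpa using mul_nonneg hM (Real.sqrt_nonneg _)⟩

end

theorem jcNear_IFT2 {Q E : Type} [TopologicalSpace Q] [NormedAddCommGroup E] (G : Q → W → E)
    (w : W → ℝ) (hw : Continuous w) (hc : ∀ a, ContinuousOn (G a) {0}ᶜ)
    (hn : ∀ a₀, ∀ ε : ℝ, 0 < ε → ∀ᶠ a in 𝓝 a₀, ∀ q, q ≠ 0 → ‖G a q - G a₀ q‖ ≤ ε * w q) :
    JC {0}ᶜ G := by
  rintro ⟨a₀, q₀⟩ ⟨-, hq₀⟩
  have hO : ({0}ᶜ : Set W) ∈ 𝓝 q₀ := isOpen_compl_singleton.mem_nhds hq₀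
  have h1 : ContinuousAt (fun z : Q × W => G a₀ z.2) (a₀, q₀) :=
    ContinuousAt.comp (g := G a₀) (f := Prod.snd) ((hc a₀).continuousAt hO) continuousAt_snd
  have h2 : Tendsto (fun z : Q × W => G z.1 z.2 - G a₀ z.2) (𝓝 (a₀, q₀)) (𝓝 0) := by
    refine NormedAddGroup.tendsto_nhds_zero.2 fun ε hε => ?_
    have h3 : 0 < |w q₀| + 1 := by positivity
    have h4 : ∀ᶠ q in 𝓝 q₀, w q < |w q₀| + 1 :=
      hw.continuousAt.eventually_lt continuousAt_const (by linarith [le_abs_self (w q₀)])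
    filter_upwards [(hn a₀ _ (div_pos hε h3)).prod_nhds (h4.and hO)] with z hz
    refine (hz.1 z.2 hz.2.2).trans_lt ?_
    calc ε / (|w q₀| + 1) * w z.2 < ε / (|w q₀| + 1) * (|w q₀| + 1) :=
          mul_lt_mul_of_pos_left hz.2.1 (div_pos hε h3)
      _ = ε := div_mul_cancel₀ _ h3.ne'
  refine ContinuousAt.continuousWithinAt ?_
  simpa [ContinuousAt] using h2.add h1

theorem diff_IFT2 {U : W → V} (h : Hom1 U) {q : W} (hq : q ≠ 0) :
    HasFDerivAt U (fderiv ℝ U q) q :=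
  ((h.1.contDiffAt (isOpen_compl_singleton.mem_nhds hq)).differentiableAt
    one_ne_zero).hasFDerivAt

theorem famNear_IFT2 {Q : Type} [TopologicalSpace Q] {F : Q → W → V} (h : ∀ a, Hom1 (F a))
    (hn : ∀ a₀, ∀ ε : ℝ, 0 < ε → ∀ᶠ a in 𝓝 a₀, Near ε (F a) (F a₀)) : Fam {0}ᶜ 1 V F :=
  ⟨jcNear_IFT2 F (fun q => ‖q‖) continuous_norm (fun a => (h a).1.continuousOn) fun a₀ ε hε =>
      (hn a₀ ε hε).mono fun a ha q _ => val_Trans (h a₀) (h a) ha q,
    fun a => fderiv ℝ (F a), fun a _ hq => (diff_IFT2 (h a) hq).hasFDerivWithinAt,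
    jcNear_IFT2 _ (fun _ => 1) continuous_const
      (fun a => (h a).1.continuousOn_fderiv_of_isOpen isOpen_compl_singleton le_rfl)
      fun a₀ ε hε => (hn a₀ ε hε).mono fun a ha q hq => by
        rw [mul_one]
        exact der_Trans (h a₀) (h a) ha hq⟩

theorem nearMono_IFT2 {ε ε' : ℝ} {U U' : W → V} (h : Near ε U U') (he : ε ≤ ε') : Near ε' U U' :=
  fun q hq => ⟨(h q hq).1.trans he, (h q hq).2.trans he⟩

theorem ne_IFT2 {q : W} (hq : ‖q‖ = 1) : q ≠ 0 := by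
  rintro rfl
  simp at hq

theorem beta_IFT2 {φ₀ : Fr} {U₀ : W → V} (h : IsLine φ₀.J U₀) :
    ContDiffOn ℝ 1 (fun q => φ₀.B (U₀ q)) {0}ᶜ :=
  (φ₀.smoothB.of_le (by exact_mod_cast le_top)).comp h.c1 fun q hq => h.ne q hq

theorem pertHom_IFT2 {φ₀ : Fr} {U₀ η : W → V} (h : IsLine φ₀.J U₀) (hη : Hom1 η) :
    Hom1 (pert φ₀ U₀ η) := by
  have z : pert φ₀ U₀ η 0 = 0 := by
    rw [pert, zero_Trans hη, map_zero, add_zero, zero_Trans ⟨h.c1, h.hom⟩]
  refine ⟨h.c1.add ((beta_IFT2 h).clm_apply hη.1), fun c q => ?_⟩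
  rcases eq_or_ne c 0 with rfl | hc
  · rw [zero_smul, zero_smul, z]
  rcases eq_or_ne q 0 with rfl | hq
  · rw [smul_zero, z, smul_zero]
  rw [pert, pert, h.hom, hη.2, φ₀.scale _ (h.ne q hq) c hc, smul_add]

theorem pertNear_IFT2 {φ₀ : Fr} {U₀ : W → V} (h : IsLine φ₀.J U₀) :
    ∃ K : ℝ, 0 < K ∧ ∀ (η η' : W → V) (M : ℝ), Hom1 η → Hom1 η' → Near M η η' →
      Near (K * M) (pert φ₀ U₀ η) (pert φ₀ U₀ η') := by
  have hb := beta_IFT2 h
  have hs : sphere (0 : W) 1 ⊆ {0}ᶜ := fun q hq => ne_IFT2 (mem_sphere_zero_iff_norm.1 hq)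
  obtain ⟨K₁, h1⟩ := (isCompact_sphere (0 : W) 1).exists_bound_of_continuousOn
    (hb.continuousOn.mono hs)
  obtain ⟨K₂, h2⟩ := (isCompact_sphere (0 : W) 1).exists_bound_of_continuousOn
    ((hb.continuousOn_fderiv_of_isOpen isOpen_compl_singleton le_rfl).mono hs)
  refine ⟨|K₁| + |K₂| + 1, by positivity, fun η η' M hη hη' hn q hq => ?_⟩
  have q0 := ne_IFT2 hq
  have a1 := (h1 q (mem_sphere_zero_iff_norm.2 hq)).trans (le_abs_self K₁)
  have a2 := (h2 q (mem_sphere_zero_iff_norm.2 hq)).trans (le_abs_self K₂)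
  obtain ⟨a3, a4⟩ := hn q hq
  have M0 : 0 ≤ M := (norm_nonneg _).trans a3
  have hd : HasFDerivAt (fun q => φ₀.B (U₀ q)) (fderiv ℝ (fun q => φ₀.B (U₀ q)) q) q :=
    ((hb.contDiffAt (isOpen_compl_singleton.mem_nhds q0)).differentiableAt
      one_ne_zero).hasFDerivAt
  have hp : ∀ ξ : W → V, Hom1 ξ → fderiv ℝ (pert φ₀ U₀ ξ) q = fderiv ℝ U₀ q +
      ((φ₀.B (U₀ q)).comp (fderiv ℝ ξ q) + (fderiv ℝ (fun q => φ₀.B (U₀ q)) q).flip (ξ q)) :=
    fun ξ hξ => ((diff_IFT2 ⟨h.c1, h.hom⟩ q0).add (hd.clm_apply (diff_IFT2 hξ q0))).fderiv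
  have k1 := abs_nonneg K₁
  have k2 := abs_nonneg K₂
  constructor
  · rw [pert, pert, add_sub_add_left_eq_sub, ← map_sub]
    refine ((φ₀.B (U₀ q)).le_opNorm _).trans ?_
    refine (mul_le_mul a1 a3 (norm_nonneg _) k1).trans ?_
    nlinarith
  · rw [hp η hη, hp η' hη', add_sub_add_left_eq_sub, add_sub_add_comm,
      ← ContinuousLinearMap.comp_sub, ← map_sub]
    refine (norm_add_le _ _).trans ?_
    have b1 := (ContinuousLinearMap.opNorm_comp_le (φ₀.B (U₀ q)) _).trans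
      (mul_le_mul a1 a4 (norm_nonneg _) k1)
    have b2 := ((fderiv ℝ (fun q => φ₀.B (U₀ q)) q).flip.le_opNorm (η q - η' q))
    rw [ContinuousLinearMap.opNorm_flip] at b2
    have b3 := b2.trans (mul_le_mul a2 a3 (norm_nonneg _) k2)
    nlinarith

theorem nonvan_IFT2 {U₀ : W → V} (h : Hom1 U₀) (hne : ∀ q, q ≠ 0 → U₀ q ≠ 0) :
    ∃ ε : ℝ, 0 < ε ∧ ∀ U, Hom1 U → Near ε U U₀ → ∀ q, q ≠ 0 → U q ≠ 0 := by
  obtain ⟨m, hm, H⟩ := (isCompact_sphere (0 : W) 1).exists_forall_le'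
    (f := fun q => ‖U₀ q‖) (a := 0) (cont_Trans h).norm.continuousOn fun q hq =>
      norm_pos_iff.2 (hne q (ne_IFT2 (mem_sphere_zero_iff_norm.1 hq)))
  refine ⟨m / 2, half_pos hm, fun U hU hn q hq e => ?_⟩
  obtain ⟨t, u, ht, -, hu, rfl⟩ := unit_Trans hq
  rw [rsmul_Trans hU, smul_eq_zero_iff_right ht.ne'] at e
  have h1 := (hn u hu).1
  have h2 := H u (mem_sphere_zero_iff_norm.2 hu)
  rw [e, zero_sub, norm_neg] at h1
  linarith

theorem mOfCont_IFT2 (φ₀ : Fr) (U₀ : W → V) (b : Bool) : Continuous (mOf φ₀ U₀ b) := by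
  unfold mOf
  cases b
  · simp only [Bool.false_eq_true, if_false]
    fun_prop
  · simp only [if_true]
    fun_prop

theorem mOfZero_IFT2 (φ₀ : Fr) (U₀ : W → V) (b : Bool) : mOf φ₀ U₀ b (con b U₀) = 0 := by
  cases b <;> simp [mOf, con, jet]

/-- The section attached to Hoelder data and a constraint. -/
def eta_IFT2 (κ : Bumps) (b : Bool) (x : (Bool → Ho V) × (V × V)) : W → V :=
  sec1 κ b (fun i => (x.1 i).fn) x.2

theorem hbX_IFT2 (x : (Bool → Ho V) × (V × V)) (i : Bool) : HB ‖x‖ (x.1 i).fn univ :=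
  hbMono_IFT2 (x.1 i).hb ((norm_le_pi_norm x.1 i).trans (norm_fst_le x))

theorem etaNear_IFT2 (hS : SStmt) (κ : Bumps) (b : Bool) : ∃ C : ℝ, 0 < C ∧
    eta_IFT2 κ b 0 = 0 ∧ (∀ x, Hom1 (eta_IFT2 κ b x)) ∧
    ∀ x x', Near (C * ‖x - x'‖) (eta_IFT2 κ b x) (eta_IFT2 κ b x') := by
  obtain ⟨C, hC, h1, h2⟩ := hS κ b
  have hh : ∀ x, Hom1 (eta_IFT2 κ b x) := fun x => (h1 _ _ ‖x‖ (hbX_IFT2 x) (norm_snd_le x)).1
  refine ⟨C, hC, ?_, hh, fun x x' q hq => ?_⟩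
  · have := (h2 0 0 0 0 0 0 (fun _ => hbZero_IFT2 le_rfl) fun _ => hbZero_IFT2 le_rfl).2
    rw [zero_smul, zero_smul, zero_smul] at this
    exact this
  have e : eta_IFT2 κ b x = eta_IFT2 κ b (x - x') + eta_IFT2 κ b x' := by
    have := (h2 _ _ (x - x').2 x'.2 (max ‖x - x'‖ ‖x'‖) 0
      (fun i => hbMono_IFT2 (hbX_IFT2 (x - x') i) (le_max_left _ _))
      fun i => hbMono_IFT2 (hbX_IFT2 x' i) (le_max_right _ _)).1
    refine Eq.trans ?_ this
    unfold eta_IFT2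
    congr 1
    · funext i
      simp [Ho.fn_sub]
    · simp
  have q0 := ne_IFT2 hq
  have h3 := (h1 _ _ ‖x - x'‖ (hbX_IFT2 (x - x')) (norm_snd_le (x - x'))).2.2.2.1 q hq
  rw [e, ((diff_IFT2 (hh _) q0).add (diff_IFT2 (hh _) q0)).fderiv, Pi.add_apply,
    add_sub_cancel_right, add_sub_cancel_right]
  exact h3

theorem cc_ne_IFT2 (i : Bool) (z : ℂ) : cc i z ≠ 0 := by
  cases i <;> simp [cc]

theorem hOfSmall_IFT2 (hN : NlStmt) (hM : NemStmt) (hm : SmallStmt) (κ : Bumps) {P : Type}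
    [TopologicalSpace P] {φ : P → Fr} {p₀ : P} {U₀ : W → V} (hφ : FrFam φ)
    (h : IsLine (φ p₀).J U₀) (i : Bool) {δ : ℝ} (hδ : 0 < δ) :
    ∃ ε : ℝ, 0 < ε ∧ ∀ᶠ p in 𝓝 p₀, ∀ U, IsLine (φ p).J U → Near ε U U₀ →
      HB δ (hOf κ (φ p) (φ p₀) U₀ U i) univ := by
  obtain ⟨n1, n2, n3, -⟩ := hN P φ (φ p₀) U₀ i hφ h
  obtain ⟨m1, ⟨C, hC, m2⟩, δ₃, h3, m3⟩ := hM (V × (ℂ →L[ℝ] V)) V P
    (fun p => Nl (φ p) (φ p₀) U₀ i) (NlDom (φ p₀) U₀ i) κ.χ p₀ n1 (n2 2)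
    (fun z => by simpa [NlDom] using h.ne _ (cc_ne_IFT2 i z))
    (κ.sχ.of_le (by exact_mod_cast le_top)) κ.zero
  obtain ⟨δ₁, h1, m1⟩ := m1 1 one_pos
  have h4 : 0 < δ / 2 / (1 + C) := by positivity
  obtain ⟨ε, hε, m4⟩ := hm P φ p₀ U₀ hφ h _ (lt_min h1 h4)
  refine ⟨ε, hε, ?_⟩
  filter_upwards [m1, (m3 p₀ 0 (hbZero_IFT2 h3.le)).2 _ (half_pos hδ), m4] with p a1 a3 a4 U hU hn
  have y0 := a4 U hU hn i
  have y1 := hbMono_IFT2 y0 (min_le_left _ _)
  have y2 := hbMono_IFT2 y0 (min_le_right _ _)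
  have b1 := a1 _ 0 _ y1 (hbZero_IFT2 h1.le) (by rw [sub_zero]; exact y2)
  have b2 := m2 _ _ y2
  have b3 := hbNeg_IFT2 (hbAdd_IFT2 (hbAdd_IFT2 b1 b2) a3)
  have e : 1 * (δ / 2 / (1 + C)) + C * (δ / 2 / (1 + C)) + δ / 2 = δ := by
    field_simp
    ring
  rw [e] at b3
  convert b3 using 1
  funext z
  simp only [hOf, Pi.zero_apply, sub_zero, n3 z, ← smul_add]
  congr 2
  abel

theorem ift (hB : BumpStmt) (hS : SStmt) (hN : NlStmt) (hM : NemStmt) (hV : SolveStmt) (hT : ToLineStmt) (hF : FromLineStmt) (hm : SmallStmt) (hO : EmbOpenStmt) (hL : LineSmoothStmt) : IFTStmt := by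
  intro P _ φ p₀ U₀ b hφ h hE
  obtain ⟨κ⟩ := hB
  obtain ⟨C, hC, e0, eh, en⟩ := etaNear_IFT2 hS κ b
  obtain ⟨K, hK, pn⟩ := pertNear_IFT2 h
  obtain ⟨ε₀, h0, em⟩ := hO U₀ h.c1 h.hom h.ne hE
  obtain ⟨ε₁, h1, nv⟩ := nonvan_IFT2 ⟨h.c1, h.hom⟩ h.ne
  have h2 : 0 < min ε₀ ε₁ / (K * C) := div_pos (lt_min h0 h1) (mul_pos hK hC)
  obtain ⟨δ, hδ, hδ', N, hN', s, sc, s0, hs⟩ := hV κ P φ p₀ U₀ b hφ h hE _ h2
  choose ε hε sm using fun i => hOfSmall_IFT2 hN hM hm κ hφ h i (half_pos hδ)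
  have mc : Continuous fun a : P × (V × V) => mOf (φ p₀) U₀ b a.2 :=
    (mOfCont_IFT2 _ _ _).comp continuous_snd
  have m1 : ∀ᶠ a : P × (V × V) in 𝓝 (p₀, con b U₀),
      ‖mOf (φ p₀) U₀ b a.2‖ < min ε₀ ε₁ / (K * C) :=
    mc.norm.continuousAt.eventually_lt continuousAt_const (by rwa [mOfZero_IFT2, norm_zero])
  have m2 := (continuous_fst.tendsto (p₀, con b U₀)).eventually (eventually_all.2 sm)
  let T : (Bool → Ho V) × (V × V) → W → V := fun x => pert (φ p₀) U₀ (eta_IFT2 κ b x)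
  have T0 : T 0 = U₀ := by
    funext q
    simp only [T, e0, pert, Pi.zero_apply, map_zero, add_zero]
  have Th : ∀ x, Hom1 (T x) := fun x => pertHom_IFT2 h (eh x)
  have Tn : ∀ x x', Near (K * C * ‖x - x'‖) (T x) (T x') := fun x x' => by
    rw [mul_assoc]
    exact pn _ _ _ (eh x) (eh x') (en x x')
  let X : P × (V × V) → (Bool → Ho V) × (V × V) := fun a => (s a, mOf (φ p₀) U₀ b a.2)
  refine ⟨_, inter_mem hN' (m1.and m2), min (ε false) (ε true), lt_min (hε _) (hε _),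
    fun a => T (X a), ?_, ?_, fun a ha => ?_, fun a ha U hU hc hn => ?_⟩
  · have xc := (continuousOn_iff_continuous_domRestrict.1
      ((sc.mono (inter_subset_left (t := {a | ‖mOf (φ p₀) U₀ b a.2‖ < min ε₀ ε₁ / (K * C) ∧
        ∀ i U, IsLine (φ a.1).J U → Near (ε i) U U₀ →
          HB (δ / 2) (hOf κ (φ a.1) (φ p₀) U₀ U i) univ}))).prodMk mc.continuousOn))
    refine famNear_IFT2 (fun a => Th _) fun a₀ e he => ?_
    have h3 := ((xc.tendsto a₀).sub_const (X a₀)).norm.const_mul (K * C)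
    have h4 : K * C * ‖X a₀ - X a₀‖ < e := by rwa [sub_self, norm_zero, mul_zero]
    exact (h3.eventually_lt_const h4).mono fun a ha => nearMono_IFT2 (Tn _ _) ha.le
  · have h3 : X (p₀, con b U₀) = 0 := Prod.ext s0 (mOfZero_IFT2 _ _ _)
    exact (congrArg T h3).trans T0
  · have h3 : ‖X a‖ ≤ min ε₀ ε₁ / (K * C) :=
      max_le ((hs a ha.1).1.le.trans hδ') ha.2.1.le
    have h4 : Near (min ε₀ ε₁) (T (X a)) U₀ := by
      have h5 := Tn (X a) 0
      rw [T0, sub_zero] at h5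
      refine nearMono_IFT2 h5 ?_
      rwa [le_div_iff₀ (mul_pos hK hC), mul_comm] at h3
    have h5 := hT κ (φ a.1) (φ p₀) U₀ b _ a.2 _ h (hbX_IFT2 (X a))
      (nv _ (Th _) (nearMono_IFT2 h4 (min_le_right _ _)))
      (((hs a ha.1).2 _ (hs a ha.1).1).1 rfl)
    exact ⟨h5.1, em _ (Th _).1 (Th _).2 (nearMono_IFT2 h4 (min_le_left _ _)), h5.2⟩
  · have h3 : ∀ i, HB (δ / 2) (hOf κ (φ a.1) (φ p₀) U₀ U i) univ := fun i =>
      ha.2.2 i U hU (nearMono_IFT2 hn (by cases i; exacts [min_le_left _ _, min_le_right _ _]))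
    obtain ⟨h4, h5⟩ := hF κ (φ a.1) (φ p₀) U₀ U b _ h hU h3
    rw [hc] at h4
    have h6 : (fun i => (Ho.of (hOf κ (φ a.1) (φ p₀) U₀ U i)).fn) = hOf κ (φ a.1) (φ p₀) U₀ U :=
      funext fun i => (h3 i).fn_of
    have h7 : (fun i => Ho.of (hOf κ (φ a.1) (φ p₀) U₀ U i)) = s a := by
      refine ((hs a ha.1).2 _ (((pi_norm_le_iff_of_nonneg (half_pos hδ).le).2
        fun i => (h3 i).norm_of).trans_lt (half_lt_self hδ))).2 fun i z => ?_
      rw [h6, ← h4, (h3 i).fn_of, hOf, neg_add_cancel]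
    rw [← h5, h4]
    simp only [T, X, eta_IFT2, ← h7, h6]

end Pool.Agent.MP_2fc7fa_gt.N

end
end
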