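import Pool.Agent.Mg.F2fc7fa.Gd54744

section

/-! Interface of part F: the explicit equivariant diffeomorphism of `ℂ²`. -/

open scoped ContDiff Topology
open Set

noncomputable section

namespace Pool.Agent.MP_2fc7fa_gt.N.Fp

/-- Model coordinates `(ξ, a, b, w)`, and chart coordinates `(θ, re η, im η, ρ)`. -/
abbrev P4 : Type := ℝ × ℝ × ℝ × ℝ

/-- Unknowns `(t, ζ₁, ζ₂, w', w, wb)` of the reduced system. -/
abbrev E6 : Type := ℝ × ℝ × ℝ × ℝ × ℝ × ℝ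

def St (x : ℝ) : ℝ := Real.smoothTransition x

/-- Rotation about the first axis. -/
def rX (t : ℝ) (p : P4) : P4 :=
  (p.1, Real.cos t * p.2.1 - Real.sin t * p.2.2.1, Real.sin t * p.2.1 + Real.cos t * p.2.2.1,
    p.2.2.2)

/-- Rotation of the plane of the first two coordinates. -/
def rP (t : ℝ) (p : P4) : P4 :=
  (Real.cos t * p.1 - Real.sin t * p.2.1, Real.sin t * p.1 + Real.cos t * p.2.1, p.2.2.1, p.2.2.2)

/-- Rotation by `t` about the axis `(cos φ, sin φ, 0)`. -/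
def rN (φ t : ℝ) (p : P4) : P4 := rP φ (rX t (rP (-φ) p))

def sh (c : ℝ) (p : P4) : P4 := (p.1 + c, p.2)

def qq (c : ℝ) (p : P4) : ℝ := (p.1 - c) ^ 2 + p.2.1 ^ 2 + p.2.2.1 ^ 2

def th (w : ℝ) : ℝ := 2 * Real.pi * St (w + 1 / 2)

def tw (c σ : ℝ) (φ : ℝ → ℝ) (p : P4) : P4 :=
  sh c (rX (σ * th p.2.2.2) (rN (φ (qq c p)) (th p.2.2.2) (sh (-c) p)))

def tw' (c σ : ℝ) (φ : ℝ → ℝ) (p : P4) : P4 :=
  sh c (rN (φ (qq c p)) (-th p.2.2.2) (rX (-(σ * th p.2.2.2)) (sh (-c) p)))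

def phO (q : ℝ) : ℝ := Real.pi * St ((q - 1849 / 100) * (320 / 69))

def phI (q : ℝ) : ℝ := Real.pi * (1 - St ((q - 1 / 1600) * (1600 / 3)))

/-- The outer belt trick. -/
def Fo (p : P4) : P4 := tw (17 / 4) 1 phO p

/-- The barbell diffeomorphism of the model. -/
def f0 (p : P4) : P4 := Fo (tw 0 (-1) phI (tw (17 / 2) (-1) phI p))

def f0' (p : P4) : P4 := tw' (17 / 2) (-1) phI (tw' 0 (-1) phI (tw' (17 / 4) 1 phO p))

/-- The support of the barbell diffeomorphism. -/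
def S0 : Set P4 :=
  {p | qq (17 / 4) p ≤ (173 / 40) ^ 2 ∧ 1 / 1600 ≤ qq 0 p ∧ 1 / 1600 ≤ qq (17 / 2) p ∧
    |p.2.2.2| ≤ 1 / 2}

def s1 (u : ℝ) : ℝ := St ((u - 1 / 10) * (10 / 3))

def s2 (u : ℝ) : ℝ := St ((u - 3 / 5) * (10 / 13))

def s3 (u : ℝ) : ℝ := St ((u - 21 / 10) * (10 / 63))

def dX (u : ℝ) : ℝ := 1 + s1 u - s2 u + s3 u

def dY (u : ℝ) : ℝ := s2 u * (1 - s2 u) - s3 u * (1 - s3 u)

def kap (k e u : ℝ) : ℝ :=
  e + (k - e) * (1 - St ((u - 1 / 10) * (20 / 3)) + St ((u - 33 / 4) * (20 / 3)))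

def chi (x : ℝ) : ℝ := St ((1 / 16 - x ^ 2) * (64 / 3))

def rh (u : ℝ) : ℝ := -(u - 2) * chi (u - 2) - (u - 1 / 2) * chi (u - 1 / 2)

/-- The embedding of the model into chart coordinates. -/
def io (k e : ℝ) (p : P4) : P4 :=
  (p.1, dX p.1 + kap k e p.1 * p.2.1, dY p.1 + kap k e p.1 * p.2.2.1,
    rh p.1 + kap k e p.1 * p.2.2.2)

def io' (k e : ℝ) (p : P4) : P4 :=
  (p.1, (p.2.1 - dX p.1) / kap k e p.1, (p.2.2.1 - dY p.1) / kap k e p.1,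
    (p.2.2.2 - rh p.1) / kap k e p.1)

/-- The chart. -/
def Lam (p : P4) : W :=
  ((Real.exp p.2.2.2 : ℂ) * ee p.1,
    (Real.exp p.2.2.2 : ℂ) * ee p.1 * ((p.2.1 : ℂ) + (p.2.2.1 : ℂ) * Complex.I))

def Lam' (z : W) : P4 :=
  (37 / (2 * Real.pi) * Complex.arg z.1, (z.2 / z.1).re, (z.2 / z.1).im, Real.log ‖z.1‖)

def NA (u : ℝ) : Prop := |u| < 1 / 8 ∨ |u - 2| < 1 / 8

def NB (u : ℝ) : Prop := |u - 1 / 2| < 1 / 8 ∨ |u - 17 / 2| < 1 / 8

def Cl (u v : ℝ) : Prop := |u - v| < 1 / 8 ∨ (NA u ∧ NA v) ∨ (NB u ∧ NB v)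

/-- The cluster property at scale `c`. -/
def Clus (c : ℝ) : Prop :=
  ∀ u ∈ Icc (-1 / 10 : ℝ) (43 / 5), ∀ v ∈ Icc (-1 / 10 : ℝ) (43 / 5),
    |dX u - dX v| ≤ c → |dY u - dY v| ≤ c → Cl u v

/-- Admissible parameters. -/
structure Par (k e : ℝ) : Prop where
  pos : 0 < e
  le : e ≤ k / 400
  small : k ≤ 1 / 160
  clus : Clus (10 * k)

/-- The properties of the diffeomorphism of `ℂ²` that the count uses. -/
structure IsF (k e : ℝ) (F : W → W) : Prop where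
  smooth : ContDiff ℝ ∞ F
  equiv : ∀ j z, F (rt j • z) = rt j • F z
  mv : ∀ p, f0 p ≠ p → F (Lam (io k e p)) = Lam (io k e (f0 p))
  fix : ∀ z, F z = z ∨ ∃ j p, f0 p ≠ p ∧ rt j • z = Lam (io k e p)

/-- `y` is the image of `x` in chart coordinates. -/
def Lf (k e : ℝ) (x y : P4) : Prop :=
  y = x ∨ ∃ (p : P4) (n : ℤ), f0 p ≠ p ∧ io k e p = sh n x ∧ io k e (f0 p) = sh n y

def pA (δ : ℝ) (X : E6) : P4 := (X.1, δ * X.2.1, δ * X.2.2.1, X.2.2.2.1)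

def pM (δ : ℝ) (X : E6) : P4 := (X.1, δ * X.2.1, δ * X.2.2.1, X.2.2.2.2.1)

def pB (X : E6) : P4 := (X.1 + 2, X.2.1, X.2.2.1, X.2.2.2.2.2)

/-- The reduced system. -/
def Red (k : ℝ) (y : ℝ × E6) : E6 :=
  ((Fo (pB y.2)).2.1 - (Fo (pA y.1 y.2)).2.1, (Fo (pB y.2)).2.2.1 - (Fo (pA y.1 y.2)).2.2.1,
    y.2.2.2.2.2.2 - y.2.2.2.2.1,
    (Fo (pB y.2)).2.1 - y.1 * (Fo (pM y.1 y.2)).2.1,
    (Fo (pB y.2)).2.2.1 - y.1 * (Fo (pM y.1 y.2)).2.2.1,
    k * y.2.2.2.2.2.2 + ((Fo (pM y.1 y.2)).1 - 1 / 2) - k * y.1 * y.2.2.2.2.2.1)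

/-- Closed constraints. -/
def KK : Set (ℝ × E6) :=
  {y | y.1 ∈ Icc (0 : ℝ) 1 ∧ |y.2.1| ≤ 1 / 10 ∧ |y.2.2.1| ≤ 5 ∧ |y.2.2.2.1| ≤ 5 ∧
    |y.2.2.2.2.1| ≤ 1 / 2 ∧ |y.2.2.2.2.2.1| ≤ 1 / 2 ∧ |y.2.2.2.2.2.2| ≤ 1 / 2 ∧
    y.2.2.2.2.1 ≤ y.2.2.2.2.2.1 ∧ 8 ≤ (Fo (pB y.2)).1 ∧ (Fo (pB y.2)).1 ≤ (Fo (pA y.1 y.2)).1}

/-- Open conditions. -/
def Good (k : ℝ) : Set (ℝ × E6) :=
  {y | -1 / 10 < y.2.1 ∧ y.2.1 < 0 ∧ |y.2.2.1| < 5 ∧ |y.2.2.2.1| < 5 ∧
    1849 / 100 < qq (17 / 4) (pA y.1 y.2) ∧ 1849 / 100 < qq (17 / 4) (pB y.2) ∧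
    42 / 5 < (Fo (pB y.2)).1 ∧ (Fo (pB y.2)).1 < (Fo (pA y.1 y.2)).1 ∧
    (Fo (pA y.1 y.2)).1 < (Fo (pB y.2)).1 + 1 ∧ (Fo (pB y.2)).1 < 9 ∧
    |(Fo (pM y.1 y.2)).1 - 1 / 2| < 1 / 10 ∧ 8 < (Fo (pB y.2)).1 - (Fo (pM y.1 y.2)).1 ∧
    y.2.2.2.2.1 < y.2.2.2.2.2.1 ∧ k * y.2.2.2.2.2.1 < -y.2.1 + k * y.1 * y.2.2.2.2.2.2}

/-- The solution of the limit system. -/
def LimSol (X : E6) : Prop :=
  X.1 < 0 ∧ (X.1 - 17 / 4) ^ 2 = 59513 / 3200 ∧ X.2.2.1 = 0 ∧ X.2.2.2.1 = 0 ∧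
    X.2.2.2.2.2 = 0 ∧ 0 < X.2.2.2.2.1 ∧ X.2.2.2.2.1 < 1 / 2 ∧
    (17 / 4 - X.1) * Real.cos (th X.2.2.2.2.1) = 15 / 4 ∧
    ∃ r : ℝ, 43 / 10 < r ∧ r < 17 / 4 - X.1 ∧ r * Real.cos (2 * phO (r ^ 2)) = X.1 - 9 / 4 ∧
      X.2.1 = r * Real.sin (2 * phO (r ^ 2))

/-- Chart coordinates of the three points and of their images. -/
def cA (k e : ℝ) (X : E6) : P4 := (X.1, 1 + e * X.2.1, e * X.2.2.1, k * X.2.2.2.1)

def cM (k e : ℝ) (X : E6) : P4 := (X.1, 1 + e * X.2.1, e * X.2.2.1, k * X.2.2.2.2.1)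

def cB (e : ℝ) (X : E6) : P4 := (X.1, 1 + e * X.2.1, e * X.2.2.1, -X.1 + e * X.2.2.2.2.2)

def tA (k e : ℝ) (X : E6) : P4 :=
  ((Fo (pA (e / k) X)).1, 2 + k * (Fo (pA (e / k) X)).2.1, k * (Fo (pA (e / k) X)).2.2.1,
    k * X.2.2.2.1)

def tM (k e : ℝ) (X : E6) : P4 :=
  ((Fo (pM (e / k) X)).1, 2 + e * (Fo (pM (e / k) X)).2.1, e * (Fo (pM (e / k) X)).2.2.1,
    -((Fo (pM (e / k) X)).1 - 1 / 2) + e * X.2.2.2.2.1)

def tB (k : ℝ) (X : E6) : P4 :=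
  ((Fo (pB X)).1 - 2, 2 + k * (Fo (pB X)).2.1, k * (Fo (pB X)).2.2.1, k * X.2.2.2.2.2)

/-- The triple `(z, α, β)` with reduced coordinates `X`. -/
def Xi (k e : ℝ) (X : E6) : W × ℝ × ℝ :=
  (Lam (cA k e X), k * X.2.2.2.2.1 - k * X.2.2.2.1, -X.1 + e * X.2.2.2.2.2 - k * X.2.2.2.1)

/-! ### Statements -/

def StStmt : Prop :=
  St (1 / 2) = 1 / 2 ∧ StrictMonoOn St (Icc 0 1) ∧
    ∀ x ∈ Ioo (0 : ℝ) 1, ∃ d : ℝ, 0 < d ∧ HasDerivAt St d x

def ModelStmt : Prop :=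
  ContDiff ℝ ∞ f0 ∧ ContDiff ℝ ∞ f0' ∧ Function.LeftInverse f0' f0 ∧
    Function.RightInverse f0' f0 ∧ ContDiff ℝ ∞ Fo ∧
    (∀ p, f0 p ≠ p → p ∈ S0) ∧ (∀ p, (f0 p).2.2.2 = p.2.2.2) ∧
    (∀ p, 1849 / 100 ≤ qq (17 / 4) p → f0 p = Fo p) ∧
    (∀ p, qq (17 / 4) p ≤ 1849 / 100 → |(f0 p).1 - p.1| ≤ 1 / 5) ∧
    (∀ p, (Fo p).2.2.2 = p.2.2.2) ∧ (∀ p, qq (17 / 4) (Fo p) = qq (17 / 4) p)

def ProfStmt : Prop :=
  (∀ k e u : ℝ, e ≤ k → e ≤ kap k e u ∧ kap k e u ≤ k) ∧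
    (∀ k e u : ℝ, u ≤ 1 / 10 ∨ 42 / 5 ≤ u → kap k e u = k) ∧
    (∀ k e u : ℝ, 1 / 4 ≤ u → u ≤ 33 / 4 → kap k e u = e) ∧
    (∀ u : ℝ, u ≤ 1 / 10 ∨ |u - 2| ≤ 1 / 10 → dX u = 1 ∧ dY u = 0) ∧
    (∀ u : ℝ, |u - 1 / 2| ≤ 1 / 10 ∨ 42 / 5 ≤ u → dX u = 2 ∧ dY u = 0) ∧
    (∀ u : ℝ, u ≤ 1 / 8 ∨ 67 / 8 ≤ u → rh u = 0) ∧
    (∀ u : ℝ, |u - 2| ≤ 1 / 8 → rh u = -(u - 2)) ∧
    (∀ u : ℝ, |u - 1 / 2| ≤ 1 / 8 → rh u = -(u - 1 / 2)) ∧
    (∀ u : ℝ, |rh u| ≤ 1 / 2 ∧ |dX u| ≤ 3 ∧ |dY u| ≤ 1) ∧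
    ∀ k e : ℝ, 0 < e → e ≤ k → ContDiff ℝ ∞ (io k e) ∧ ContDiff ℝ ∞ (io' k e) ∧
      Function.LeftInverse (io' k e) (io k e) ∧ Function.RightInverse (io' k e) (io k e)

def ClusStmt : Prop := ∃ c : ℝ, 0 < c ∧ Clus c

def LamStmt : Prop :=
  ContDiff ℝ ∞ Lam ∧ ContDiffOn ℝ ∞ Lam' {z | z.1 ∈ Complex.slitPlane} ∧
    (∀ z : W, z.1 ≠ 0 → Lam (Lam' z) = z) ∧
    (∀ p : P4, |p.1| < 37 / 2 → Lam' (Lam p) = p ∧ (Lam p).1 ∈ Complex.slitPlane ∧
      Complex.arg (Lam p).1 = 2 * Real.pi * p.1 / 37) ∧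
    (∀ p p' : P4, Lam p = Lam p' → p.2 = p'.2 ∧ ∃ n : ℤ, p'.1 = p.1 + 37 * n) ∧
    (∀ (D : ℝ) (p : P4), ee D • Lam p = Lam (sh D p)) ∧
    (∀ (a : ℝ) (p : P4), Real.exp a • Lam p = Lam (p.1, p.2.1, p.2.2.1, p.2.2.2 + a)) ∧
    (∀ n : ℤ, rt (n : Zp) = ee n) ∧ (∀ p : P4, (Lam p).1 ≠ 0) ∧
    (∀ p : P4, nsq (Lam p) = Real.exp (2 * p.2.2.2) * (1 + p.2.1 ^ 2 + p.2.2.1 ^ 2)) ∧
    (∀ D : ℝ, ‖ee D‖ = 1) ∧
    ∀ p : P4, |p.1| ≤ 1 / 10 → |p.2.1 - 1| ≤ 1 / 100 → |p.2.2.1| ≤ 1 / 100 →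
      (Lam p).2 ≠ 0 ∧ |Complex.arg (Lam p).2| < Real.pi / 37

/-- Transplanting a compactly supported diffeomorphism through the chart. -/
def TransStmt : Prop :=
  ∀ h h' : P4 → P4, ContDiff ℝ ∞ h → ContDiff ℝ ∞ h' → Function.LeftInverse h' h →
    Function.RightInverse h' h → (∀ p, h p ≠ p → ‖p‖ ≤ 10) →
    ∃ g g' : W → W, ContDiff ℝ ∞ g ∧ ContDiff ℝ ∞ g' ∧ Function.LeftInverse g' g ∧
      Function.RightInverse g' g ∧ (∀ z, g z ≠ z → ∃ p, h p ≠ p ∧ z = Lam p) ∧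
      ∀ p, h p ≠ p → g (Lam p) = Lam (h p) ∧ g (Lam p) ≠ Lam p

/-- Making a diffeomorphism equivariant. -/
def EqvStmt : Prop :=
  ∀ g g' : W → W, ContDiff ℝ ∞ g → ContDiff ℝ ∞ g' → Function.LeftInverse g' g →
    Function.RightInverse g' g →
    (∀ (z : W) (j : Zp), g z ≠ z → g (rt j • z) ≠ rt j • z → j = 0) →
    ∃ F F' : W → W, ContDiff ℝ ∞ F ∧ ContDiff ℝ ∞ F' ∧ Function.LeftInverse F' F ∧
      Function.RightInverse F' F ∧ (∀ j z, F (rt j • z) = rt j • F z) ∧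
      (∀ z, g z ≠ z → F z = g z) ∧ ∀ z, F z = z ∨ ∃ j : Zp, g (rt j • z) ≠ rt j • z

def HoleStmt : Prop :=
  ∀ (k e : ℝ) (p p' : P4), Par k e → p ∈ S0 → p' ∈ S0 →
    ((p'.1 = p.1 + 2 ∧ |p.1| < 1 / 8) ∨ (p'.1 = p.1 - 8 ∧ |p.1 - 17 / 2| < 1 / 8)) →
    (io k e p).2.1 = (io k e p').2.1 → (io k e p).2.2.1 = (io k e p').2.2.1 →
    |(io k e p).2.2.2 - (io k e p').2.2.2| ≤ e → False

/-- Points of the support whose images have the same transverse coordinate. -/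
def NearStmt : Prop :=
  ∀ (k e : ℝ) (p p' : P4), Par k e → p ∈ S0 → p' ∈ S0 →
    (io k e p).2.1 = (io k e p').2.1 → (io k e p).2.2.1 = (io k e p').2.2.1 → Cl p.1 p'.1

def DisjStmt : Prop :=
  ∀ (k e : ℝ) (p p' : P4) (n : ℤ), Par k e → p ∈ S0 → p' ∈ S0 → p'.1 = p.1 + n →
    (io k e p).2 = (io k e p').2 → n = 0

def BuildStmt : Prop :=
  ∀ k e : ℝ, Par k e → ∃ F F' : W → W, IsF k e F ∧ ContDiff ℝ ∞ F' ∧
    Function.LeftInverse F' F ∧ Function.RightInverse F' F ∧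
    ∀ z, nsq z ≤ 1 / 100 ∨ 1000 ≤ nsq z → F z = z

/-- Reduction of the real problem to the reduced system. -/
def CoarseStmt : Prop :=
  ∀ (k e θ a b ρ₁ ρ₂ ρ₃ : ℝ) (y₁ y₂ y₃ : P4), Par k e → ρ₁ ≤ ρ₂ → ρ₂ < ρ₃ →
    Lf k e (θ, a, b, ρ₁) y₁ → Lf k e (θ, a, b, ρ₂) y₂ → Lf k e (θ, a, b, ρ₃) y₃ →
    y₁.2 = y₃.2 → y₂.2 = y₃.2 → y₃.1 - y₁.1 ∈ Icc (-3 : ℝ) (-2) → y₃.1 - y₂.1 ∈ Icc (6 : ℝ) 7 →
    ∃ (X : E6) (n : ℤ), (e / k, X) ∈ KK ∧ Red k (e / k, X) = 0 ∧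
      (θ, a, b, ρ₁) = sh n (cA k e X) ∧ ρ₂ = (cM k e X).2.2.2 ∧ ρ₃ = (cB e X).2.2.2

/-- Reduction of the counting problem to the reduced system. -/
def ReduceStmt : Prop :=
  ∀ (k e : ℝ) (F : W → W), Par k e → IsF k e F →
    ∀ (z : W) (α β : ℝ), z ≠ 0 → 0 ≤ α → α < β →
      ∀ D₁ ∈ Icc (-3 : ℝ) (-2), ∀ D₂ ∈ Icc (6 : ℝ) 7,
      F (Real.exp β • z) = ee D₁ • F z → F (Real.exp β • z) = ee D₂ • F (Real.exp α • z) →
      ∃ (X : E6) (j : Zp), (e / k, X) ∈ KK ∧ Red k (e / k, X) = 0 ∧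
        z = rt j • (Xi k e X).1 ∧ α = (Xi k e X).2.1 ∧ β = (Xi k e X).2.2

def LocalStmt : Prop :=
  ∀ (k e : ℝ) (F : W → W) (X : E6), Par k e → IsF k e F → (e / k, X) ∈ Good k →
    F (Lam (cA k e X)) = Lam (tA k e X) ∧ F (Lam (cM k e X)) = Lam (tM k e X) ∧
      F (Lam (cB e X)) = Lam (tB k X)

def LimExStmt : Prop := (∃ X, LimSol X) ∧ ∀ X X', LimSol X → LimSol X' → X = X'

def LimCharStmt : Prop := ∀ (k : ℝ) (X : E6), (0, X) ∈ KK → Red k (0, X) = 0 → LimSol X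

def LimGoodStmt : Prop :=
  ∀ (k : ℝ) (X : E6), 0 < k → k ≤ 1 / 160 → LimSol X → Red k (0, X) = 0 ∧ (0, X) ∈ Good k

def LimJacStmt : Prop :=
  ∀ (k : ℝ) (X : E6), LimSol X → Function.Injective (fderiv ℝ (fun Y => Red k (0, Y)) X)

def TopStmt : Prop :=
  IsCompact KK ∧ ∀ k : ℝ, IsOpen (Good k) ∧ ContDiff ℝ 1 (Red k)

/-- Persistence of a unique nondegenerate zero. -/
def IftStmt : Prop :=
  ∀ (Φ : ℝ × E6 → E6) (K U : Set (ℝ × E6)) (X₀ : E6), ContDiff ℝ 1 Φ → IsCompact K → IsOpen U →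
    (0, X₀) ∈ U → Φ (0, X₀) = 0 → (∀ X, (0, X) ∈ K → Φ (0, X) = 0 → X = X₀) →
    Function.Injective (fderiv ℝ (fun Y => Φ (0, Y)) X₀) →
    ∃ δ₀ : ℝ, 0 < δ₀ ∧ ∀ δ : ℝ, |δ| < δ₀ → ∃ X, (δ, X) ∈ U ∧ Φ (δ, X) = 0 ∧
      Function.Injective (fderiv ℝ (fun Y => Φ (δ, Y)) X) ∧
      ∀ Y, (δ, Y) ∈ K → Φ (δ, Y) = 0 → Y = X

/-- Two curves in the chart: vanishing of the derivative of the equations. -/
def PairStmt : Prop :=
  ∀ (c c' : ℝ → P4) (v v' : P4), HasDerivAt c v 0 → HasDerivAt c' v' 0 → (c 0).2 = (c' 0).2 →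
    HasDerivAt (fun τ => det2 (Lam (c τ)) (Lam (c' τ))) 0 0 →
    HasDerivAt (fun τ => nsq (Lam (c' τ)) - nsq (Lam (c τ))) 0 0 → v.2 = v'.2

/-- Transfer of transversality. -/
def NondegStmt : Prop :=
  ∀ (k e : ℝ) (F : W → W) (X : E6), Par k e → IsF k e F → (e / k, X) ∈ Good k →
    Red k (e / k, X) = 0 → Function.Injective (fderiv ℝ (fun Y => Red k (e / k, Y)) X) →
    ∃ L : W × ℝ × ℝ →L[ℝ] ℂ × ℝ × ℂ × ℝ,
      HasFDerivAt (Phi F) L (Xi k e X) ∧ Function.Injective L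

end Pool.Agent.MP_2fc7fa_gt.N.Fp

end
end

section

/-! Construction of the equivariant diffeomorphism from the model. -/

open scoped ContDiff Topology
open Set

namespace Pool.Agent.MP_2fc7fa_gt.N.Fp

theorem bound_FBuild (hP : ProfStmt) {k e : ℝ} (h : Par k e) {p : P4} (hp : p ∈ S0) :
    |(io k e p).1| ≤ 10 ∧ |(io k e p).2.1| ≤ 4 ∧ |(io k e p).2.2.1| ≤ 2 ∧
      |(io k e p).2.2.2| ≤ 1 := by
  obtain ⟨h1, -, -, h4⟩ := hp
  have he := h.pos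
  have hk := h.small
  have hek : e ≤ k := by linarith [h.le]
  obtain ⟨k1, k2⟩ := hP.1 k e p.1 hek
  obtain ⟨r1, r2, r3⟩ := hP.2.2.2.2.2.2.2.2.1 p.1
  unfold qq at h1
  have a0 : |p.1 - 17 / 4| ≤ 5 := by
    apply abs_le_of_sq_le_sq _ (by norm_num)
    nlinarith [sq_nonneg p.2.1, sq_nonneg p.2.2.1]
  have a1 : |p.2.1| ≤ 5 := by
    apply abs_le_of_sq_le_sq _ (by norm_num)
    nlinarith [sq_nonneg (p.1 - 17 / 4), sq_nonneg p.2.2.1]
  have a2 : |p.2.2.1| ≤ 5 := by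
    apply abs_le_of_sq_le_sq _ (by norm_num)
    nlinarith [sq_nonneg (p.1 - 17 / 4), sq_nonneg p.2.1]
  have key : ∀ x : ℝ, |x| ≤ 5 → |kap k e p.1 * x| ≤ 1 / 2 := by
    intro x hx
    rw [abs_mul, abs_of_pos (by linarith : 0 < kap k e p.1)]
    nlinarith [abs_nonneg x]
  have b1 := key _ a1
  have b2 := key _ a2
  have b3 := key p.2.2.2 (by linarith)
  simp only [io]
  refine ⟨?_, (abs_add_le _ _).trans (by linarith), (abs_add_le _ _).trans (by linarith),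
    (abs_add_le _ _).trans (by linarith)⟩
  rw [abs_le] at a0 ⊢
  constructor <;> linarith [a0.1, a0.2]

theorem nsq_FBuild (c : ℂ) (hc : ‖c‖ = 1) (z : W) : nsq (c • z) = nsq z := by
  simp [nsq, hc]

theorem buildS (hM : ModelStmt) (hP : ProfStmt) (hL : LamStmt) (hT : TransStmt) (hE : EqvStmt)
    (hD : DisjStmt) : BuildStmt := by
  intro k e h
  have hek : e ≤ k := by linarith [h.le, h.pos]
  obtain ⟨i1, i2, i3, i4⟩ := hP.2.2.2.2.2.2.2.2.2 k e h.pos hek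
  obtain ⟨m1, m2, m3, m4, -, m6, -⟩ := hM
  obtain ⟨-, -, -, -, l5, l6, -, l8, -, l10, l11, -⟩ := hL
  have hrt : ∀ j : Zp, rt j = ee ((j.val : ℤ) : ℝ) := fun j => by
    rw [← l8]
    simp
  have hmv : ∀ q, (io k e ∘ f0 ∘ io' k e) q ≠ q → ∃ p, f0 p ≠ p ∧ q = io k e p := by
    intro q hq
    refine ⟨io' k e q, fun h0 => hq ?_, (i4 q).symm⟩
    simp only [Function.comp_apply, h0]
    exact i4 q
  obtain ⟨g, g', g1, g2, g3, g4, g5, g6⟩ := hT (io k e ∘ f0 ∘ io' k e) (io k e ∘ f0' ∘ io' k e)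
    (i1.comp (m1.comp i2)) (i1.comp (m2.comp i2))
    (fun q => by simp only [Function.comp_apply]; rw [i3, m3, i4])
    (fun q => by simp only [Function.comp_apply]; rw [i3, m4, i4])
    (fun q hq => by
      obtain ⟨p, hp, rfl⟩ := hmv q hq
      obtain ⟨b1, b2, b3, b4⟩ := bound_FBuild hP h (m6 p hp)
      simp only [Prod.norm_def, Real.norm_eq_abs, max_le_iff]
      exact ⟨b1, by linarith, by linarith, by linarith⟩)
  have g7 : ∀ z, g z ≠ z → ∃ p, f0 p ≠ p ∧ z = Lam (io k e p) := by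
    intro z hz
    obtain ⟨q, hq, rfl⟩ := g5 z hz
    obtain ⟨p, hp, rfl⟩ := hmv q hq
    exact ⟨p, hp, rfl⟩
  obtain ⟨F, F', f1, f2, f3, f4, f5, f6, f7⟩ := hE g g' g1 g2 g3 g4 (by
    intro z j hz hj
    obtain ⟨p, hp, rfl⟩ := g7 z hz
    obtain ⟨p', hp', e'⟩ := g7 _ hj
    rw [hrt, l6] at e'
    obtain ⟨e1, n, e2⟩ := l5 _ _ e'
    have h0 := hD k e p p' ((j.val : ℤ) + 37 * n) h (m6 p hp) (m6 p' hp') (by
      simp only [sh, io] at e2
      rw [e2]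
      push_cast
      ring) e1
    have h1 : (((j.val : ℤ) + 37 * n : ℤ) : Zp) = 0 := by rw [h0]; simp
    have h37 : (37 : Zp) = 0 := by decide
    push_cast at h1
    rw [h37] at h1
    simpa using h1)
  have fx : ∀ z, F z = z ∨ ∃ j p, f0 p ≠ p ∧ rt j • z = Lam (io k e p) := by
    intro z
    rcases f7 z with h0 | ⟨j, hj⟩
    · exact .inl h0
    · obtain ⟨p, hp, e'⟩ := g7 _ hj
      exact .inr ⟨j, p, hp, e'⟩
  refine ⟨F, F', ⟨f1, f5, fun p hp => ?_, fx⟩, f2, f3, f4, fun z hz => ?_⟩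
  · have e1 : (io k e ∘ f0 ∘ io' k e) (io k e p) = io k e (f0 p) := by
      simp only [Function.comp_apply]
      rw [i3]
    obtain ⟨a1, a2⟩ := g6 (io k e p) (by rw [e1]; exact fun h0 => hp (i3.injective h0))
    rw [f6 _ a2, a1, e1]
  · rcases fx z with h0 | ⟨j, p, hp, e'⟩
    · exact h0
    exfalso
    have n1 : nsq z = nsq (Lam (io k e p)) := by
      rw [← e', nsq_FBuild _ (by rw [hrt, l11])]
    rw [l10] at n1
    obtain ⟨-, b2, b3, b4⟩ := bound_FBuild hP h (m6 p hp)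
    set a := (io k e p).2.1
    set b := (io k e p).2.2.1
    set r := (io k e p).2.2.2
    have c2 : a ^ 2 ≤ 16 := by nlinarith [abs_nonneg a, sq_abs a]
    have c3 : b ^ 2 ≤ 4 := by nlinarith [abs_nonneg b, sq_abs b]
    have x2 : Real.exp 2 < 9 := by
      have := Real.exp_one_lt_d9
      have h2 : Real.exp 2 = Real.exp 1 * Real.exp 1 := by rw [← Real.exp_add]; norm_num
      nlinarith [Real.exp_pos 1]
    rw [abs_le] at b4
    have x3 : Real.exp (2 * r) < 9 :=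
      (Real.exp_le_exp.2 (by linarith [b4.2])).trans_lt x2
    have x4 : 1 / 9 < Real.exp (2 * r) := by
      have h3 : Real.exp (-(2 * r)) < 9 := (Real.exp_le_exp.2 (by linarith [b4.1])).trans_lt x2
      have h4 : Real.exp (2 * r) * Real.exp (-(2 * r)) = 1 := by
        rw [← Real.exp_add]; simp
      nlinarith [Real.exp_pos (2 * r), Real.exp_pos (-(2 * r))]
    rcases hz with hz | hz
    · nlinarith [sq_nonneg a, sq_nonneg b]
    · nlinarith [sq_nonneg a, sq_nonneg b]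

end Pool.Agent.MP_2fc7fa_gt.N.Fp

end

section

/-! The cluster lemma for the planar theta graph. -/

open scoped Topology
open Set

namespace Pool.Agent.MP_2fc7fa_gt.N.Fp

theorem zero_FClus {x : ℝ} (h : x ≤ 0) : St x = 0 := Real.smoothTransition.zero_of_nonpos h

theorem one_FClus {x : ℝ} (h : 1 ≤ x) : St x = 1 := Real.smoothTransition.one_of_one_le h

theorem cls_FClus (hP : ProfStmt) {u : ℝ} (hu : u ∈ Icc (-1 / 10 : ℝ) (43 / 5)) :
    (NA u ∧ dX u = 1) ∨ (NB u ∧ dX u = 2) ∨ ∃ x ∈ Icc (0 : ℝ) 1, 0 < St x ∧ St x < 1 ∧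
      ((u = 1 / 10 + 3 / 10 * x ∧ dX u = 1 + St x ∧ dY u = 0) ∨
        (u = 3 / 5 + 13 / 10 * x ∧ dX u = 2 - St x ∧ 0 < dY u) ∨
        (u = 21 / 10 + 63 / 10 * x ∧ dX u = 1 + St x ∧ dY u < 0)) := by
  obtain ⟨-, -, -, hA, hB, -⟩ := hP
  obtain ⟨h0, h1⟩ := hu
  have key : ∀ x : ℝ, 0 < x → x < 1 → x ∈ Icc (0 : ℝ) 1 ∧ 0 < St x ∧ St x < 1 := fun x a b =>
    ⟨⟨a.le, b.le⟩, Real.smoothTransition.pos_of_pos a, Real.smoothTransition.lt_one_of_lt_one b⟩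
  rcases le_or_gt u (1 / 10) with a | a
  · exact .inl ⟨.inl (abs_lt.2 ⟨by linarith, by linarith⟩), (hA u (.inl a)).1⟩
  rcases lt_or_ge u (2 / 5) with b | b
  · obtain ⟨k1, k2, k3⟩ := key ((u - 1 / 10) * (10 / 3)) (by linarith) (by linarith)
    have e2 : s2 u = 0 := zero_FClus (by linarith)
    have e3 : s3 u = 0 := zero_FClus (by linarith)
    exact .inr (.inr ⟨_, k1, k2, k3, .inl ⟨by ring, by rw [dX, e2, e3, s1]; ring,
      by rw [dY, e2, e3]; ring⟩⟩)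
  rcases le_or_gt u (3 / 5) with c | c
  · exact .inr (.inl ⟨.inl (abs_lt.2 ⟨by linarith, by linarith⟩),
      (hB u (.inl (abs_le.2 ⟨by linarith, by linarith⟩))).1⟩)
  have e1 : s1 u = 1 := one_FClus (by linarith)
  rcases lt_or_ge u (19 / 10) with d | d
  · obtain ⟨k1, k2, k3⟩ := key ((u - 3 / 5) * (10 / 13)) (by linarith) (by linarith)
    have e3 : s3 u = 0 := zero_FClus (by linarith)
    exact .inr (.inr ⟨_, k1, k2, k3, .inr (.inl ⟨by ring, by rw [dX, e1, e3, s2]; ring,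
      by rw [dY, e3, s2, zero_mul, sub_zero]; exact mul_pos k2 (sub_pos.2 k3)⟩)⟩)
  rcases le_or_gt u (21 / 10) with e | e
  · exact .inl ⟨.inr (abs_lt.2 ⟨by linarith, by linarith⟩),
      (hA u (.inr (abs_le.2 ⟨by linarith, by linarith⟩))).1⟩
  have e2 : s2 u = 1 := one_FClus (by linarith)
  rcases lt_or_ge u (42 / 5) with f | f
  · obtain ⟨k1, k2, k3⟩ := key ((u - 21 / 10) * (10 / 63)) (by linarith) (by linarith)
    exact .inr (.inr ⟨_, k1, k2, k3, .inr (.inr ⟨by ring, by rw [dX, e1, e2, s3]; ring, by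
      rw [dY, e2, s3, sub_self, mul_zero, zero_sub, neg_lt_zero]
      exact mul_pos k2 (sub_pos.2 k3)⟩)⟩)
  · exact .inr (.inl ⟨.inr (abs_lt.2 ⟨by linarith, by linarith⟩), (hB u (.inr f)).1⟩)

theorem eq_FClus (hS : StStmt) (hP : ProfStmt) {u v : ℝ} (hu : u ∈ Icc (-1 / 10 : ℝ) (43 / 5))
    (hv : v ∈ Icc (-1 / 10 : ℝ) (43 / 5)) (hX : dX u = dX v) (hY : dY u = dY v) : Cl u v := by
  rcases cls_FClus hP hu with ⟨a, b⟩ | ⟨a, b⟩ | ⟨x, hx, x0, x1, a⟩ <;>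
    rcases cls_FClus hP hv with ⟨c, d⟩ | ⟨c, d⟩ | ⟨y, hy, y0, y1, c⟩
  · exact .inr (.inl ⟨a, c⟩)
  · exfalso; linarith
  · exfalso; rcases c with ⟨-, c, -⟩ | ⟨-, c, -⟩ | ⟨-, c, -⟩ <;> linarith
  · exfalso; linarith
  · exact .inr (.inr ⟨a, c⟩)
  · exfalso; rcases c with ⟨-, c, -⟩ | ⟨-, c, -⟩ | ⟨-, c, -⟩ <;> linarith
  · exfalso; rcases a with ⟨-, a, -⟩ | ⟨-, a, -⟩ | ⟨-, a, -⟩ <;> linarith
  · exfalso; rcases a with ⟨-, a, -⟩ | ⟨-, a, -⟩ | ⟨-, a, -⟩ <;> linarith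
  · have key : St x = St y → x = y := hS.2.1.injOn hx hy
    refine .inl ?_
    rcases a with ⟨a1, a2, a3⟩ | ⟨a1, a2, a3⟩ | ⟨a1, a2, a3⟩ <;>
      rcases c with ⟨c1, c2, c3⟩ | ⟨c1, c2, c3⟩ | ⟨c1, c2, c3⟩ <;>
      first
        | (exfalso; linarith)
        | (rw [a1, c1, key (by linarith), sub_self, abs_zero]; norm_num)

theorem clusS (hS : StStmt) (hP : ProfStmt) : ClusStmt := by
  have hSt : Continuous St := Real.smoothTransition.continuous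
  have hX : Continuous dX := by
    unfold dX s1 s2 s3
    fun_prop
  have hY : Continuous dY := by
    unfold dY s2 s3
    fun_prop
  have ho : IsOpen {p : ℝ × ℝ | Cl p.1 p.2} := by
    unfold Cl NA NB
    simp only [ofPred_or, ofPred_and]
    refine IsOpen.union ?_ (IsOpen.union (IsOpen.inter (IsOpen.union ?_ ?_) (IsOpen.union ?_ ?_))
      (IsOpen.inter (IsOpen.union ?_ ?_) (IsOpen.union ?_ ?_))) <;>
      exact isOpen_lt (by fun_prop) continuous_const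
  have hK := ((isCompact_Icc (a := (-1 / 10 : ℝ)) (b := 43 / 5)).prod
    (isCompact_Icc (a := (-1 / 10 : ℝ)) (b := 43 / 5))).inter_right ho.isClosed_compl
  obtain ⟨c, hc, h⟩ := hK.exists_forall_le' (a := 0)
    (f := fun p : ℝ × ℝ => |dX p.1 - dX p.2| + |dY p.1 - dY p.2|) (by fun_prop) fun p hp => by
      by_contra h
      have h1 := abs_nonneg (dX p.1 - dX p.2)
      have h2 := abs_nonneg (dY p.1 - dY p.2)
      exact hp.2 (eq_FClus hS hP hp.1.1 hp.1.2 (sub_eq_zero.1 (abs_eq_zero.1 (by linarith)))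
        (sub_eq_zero.1 (abs_eq_zero.1 (by linarith))))
  refine ⟨c / 3, by positivity, fun u hu v hv h1 h2 => ?_⟩
  by_contra h3
  have := h (u, v) ⟨⟨hu, hv⟩, h3⟩
  linarith

end Pool.Agent.MP_2fc7fa_gt.N.Fp

end

section

/-! Part F: reduction of the real counting problem to the reduced system. -/

open Set

namespace Pool.Agent.MP_2fc7fa_gt.N.Fp

lemma cl5_FC {u v : ℝ} (h : Cl u v) :
    (-1 / 4 < v - u ∧ v - u < 1 / 4) ∨
    ((-1 / 8 < u ∧ u < 1 / 8) ∧ (15 / 8 < v ∧ v < 17 / 8)) ∨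
    ((15 / 8 < u ∧ u < 17 / 8) ∧ (-1 / 8 < v ∧ v < 1 / 8)) ∨
    ((3 / 8 < u ∧ u < 5 / 8) ∧ (67 / 8 < v ∧ v < 69 / 8)) ∨
    ((67 / 8 < u ∧ u < 69 / 8) ∧ (3 / 8 < v ∧ v < 5 / 8)) := by
  simp only [Cl, NA, NB, abs_lt] at h
  rcases h with h | ⟨h1 | h1, h2 | h2⟩ | ⟨h1 | h1, h2 | h2⟩
  · exact Or.inl ⟨by linarith [h.2], by linarith [h.1]⟩
  · exact Or.inl ⟨by linarith [h1.2, h2.1], by linarith [h1.1, h2.2]⟩
  · exact Or.inr (Or.inl ⟨⟨by linarith [h1.1], h1.2⟩, by linarith [h2.1], by linarith [h2.2]⟩)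
  · exact Or.inr (Or.inr (Or.inl
      ⟨⟨by linarith [h1.1], by linarith [h1.2]⟩, by linarith [h2.1], h2.2⟩))
  · exact Or.inl ⟨by linarith [h1.2, h2.1], by linarith [h1.1, h2.2]⟩
  · exact Or.inl ⟨by linarith [h1.2, h2.1], by linarith [h1.1, h2.2]⟩
  · exact Or.inr (Or.inr (Or.inr (Or.inl
      ⟨⟨by linarith [h1.1], by linarith [h1.2]⟩, by linarith [h2.1], by linarith [h2.2]⟩)))
  · exact Or.inr (Or.inr (Or.inr (Or.inr
      ⟨⟨by linarith [h1.1], by linarith [h1.2]⟩, by linarith [h2.1], by linarith [h2.2]⟩)))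
  · exact Or.inl ⟨by linarith [h1.2, h2.1], by linarith [h1.1, h2.2]⟩

lemma int_FC {m : ℤ} (c : ℤ) (h1 : (c : ℝ) - 1 < m) (h2 : (m : ℝ) < c + 1) : (m : ℝ) = c := by
  have a1 : c - 1 < m := by exact_mod_cast h1
  have a2 : m < c + 1 := by exact_mod_cast h2
  have : m = c := by omega
  exact_mod_cast this

lemma clInt_FC {u v : ℝ} {m : ℤ} (h : Cl u v) (hm : v - u = m) :
    v = u ∨ (v = u + 2 ∧ -1 / 8 < u ∧ u < 1 / 8) ∨ (v = u - 2 ∧ 15 / 8 < u ∧ u < 17 / 8) ∨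
    (v = u + 8 ∧ 3 / 8 < u ∧ u < 5 / 8) ∨ (v = u - 8 ∧ 67 / 8 < u ∧ u < 69 / 8) := by
  rcases cl5_FC h with ⟨a, b⟩ | ⟨⟨a, b⟩, c, d⟩ | ⟨⟨a, b⟩, c, d⟩ | ⟨⟨a, b⟩, c, d⟩ | ⟨⟨a, b⟩, c, d⟩
  · have := int_FC (m := m) 0 (by push_cast; linarith) (by push_cast; linarith)
    push_cast at this
    exact Or.inl (by linarith)
  · have := int_FC (m := m) 2 (by push_cast; linarith) (by push_cast; linarith)
    push_cast at this
    exact Or.inr (Or.inl ⟨by linarith, a, b⟩)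
  · have := int_FC (m := m) (-2) (by push_cast; linarith) (by push_cast; linarith)
    push_cast at this
    exact Or.inr (Or.inr (Or.inl ⟨by linarith, a, b⟩))
  · have := int_FC (m := m) 8 (by push_cast; linarith) (by push_cast; linarith)
    push_cast at this
    exact Or.inr (Or.inr (Or.inr (Or.inl ⟨by linarith, a, b⟩)))
  · have := int_FC (m := m) (-8) (by push_cast; linarith) (by push_cast; linarith)
    push_cast at this
    exact Or.inr (Or.inr (Or.inr (Or.inr ⟨by linarith, a, b⟩)))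

lemma unmoved_FC (T : ℝ → Prop) (hT : ∀ u v, T u → T v → Cl u v) {μ ν : ℝ}
    (hμ : μ = 0 ∨ ∃ u v, T u ∧ T v ∧ μ = v - u) (hν : ν = 0 ∨ ∃ u v, T u ∧ T v ∧ ν = v - u)
    (h1 : 6 ≤ ν - μ) (h2 : ν - μ ≤ 7) : False := by
  rcases hμ with hμ | ⟨u, v, tu, tv, hμ⟩ <;> rcases hν with hν | ⟨u', v', tu', tv', hν⟩
  · linarith
  · rcases cl5_FC (hT _ _ tu' tv') with
      ⟨a, b⟩ | ⟨⟨a, b⟩, c, d⟩ | ⟨⟨a, b⟩, c, d⟩ | ⟨⟨a, b⟩, c, d⟩ | ⟨⟨a, b⟩, c, d⟩ <;> linarith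
  · rcases cl5_FC (hT _ _ tu tv) with
      ⟨a, b⟩ | ⟨⟨a, b⟩, c, d⟩ | ⟨⟨a, b⟩, c, d⟩ | ⟨⟨a, b⟩, c, d⟩ | ⟨⟨a, b⟩, c, d⟩ <;> linarith
  · rcases cl5_FC (hT _ _ tu tv) with
      ⟨a, b⟩ | ⟨⟨a, b⟩, c, d⟩ | ⟨⟨a, b⟩, c, d⟩ | ⟨⟨a, b⟩, c, d⟩ | ⟨⟨a, b⟩, c, d⟩ <;>
    rcases cl5_FC (hT _ _ tu' tv') with
      ⟨a', b'⟩ | ⟨⟨a', b'⟩, c', d'⟩ | ⟨⟨a', b'⟩, c', d'⟩ | ⟨⟨a', b'⟩, c', d'⟩ |
        ⟨⟨a', b'⟩, c', d'⟩ <;>
    first
    | linarith
    | (rcases cl5_FC (hT _ _ tu tu') with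
        ⟨x, y⟩ | ⟨⟨x, y⟩, z, w⟩ | ⟨⟨x, y⟩, z, w⟩ | ⟨⟨x, y⟩, z, w⟩ | ⟨⟨x, y⟩, z, w⟩ <;> linarith)

lemma cases_FC {u₁ u₂ u₃ v₁ v₂ v₃ : ℝ} {m m' : ℤ} (c23 : Cl u₂ u₃) (c13 : Cl u₁ u₃)
    (d23 : Cl v₂ v₃) (d13 : Cl v₁ v₃) (hm : u₃ - u₂ = m) (hm' : u₃ - u₁ = m')
    (h1 : -3 ≤ (v₃ - v₁) - (u₃ - u₁)) (h2 : (v₃ - v₁) - (u₃ - u₁) ≤ -2)
    (h3 : 6 ≤ (v₃ - v₂) - (u₃ - u₂)) (h4 : (v₃ - v₂) - (u₃ - u₂) ≤ 7) :
    (u₁ = u₂ ∧ u₃ = u₂ + 2 ∧ -1 / 8 < u₂ ∧ u₂ < 1 / 8 ∧ 3 / 8 < v₂ ∧ v₂ < 5 / 8 ∧ 67 / 8 < v₃) ∨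
    (u₁ = u₃ ∧ u₃ = u₂ - 8 ∧ 67 / 8 < u₂ ∧ u₂ < 69 / 8) := by
  have A : (u₃ = u₂ + 2 ∧ -1 / 8 < u₂ ∧ u₂ < 1 / 8 ∧ 3 / 8 < v₂ ∧ v₂ < 5 / 8 ∧ 67 / 8 < v₃) ∨
      (u₃ = u₂ - 8 ∧ 67 / 8 < u₂ ∧ u₂ < 69 / 8 ∧ v₃ < 1 / 8) := by
    rcases clInt_FC c23 hm with e | ⟨e, a, b⟩ | ⟨e, a, b⟩ | ⟨e, a, b⟩ | ⟨e, a, b⟩ <;>
    rcases cl5_FC d23 with
      ⟨a', b'⟩ | ⟨⟨a', b'⟩, c', d'⟩ | ⟨⟨a', b'⟩, c', d'⟩ | ⟨⟨a', b'⟩, c', d'⟩ |
        ⟨⟨a', b'⟩, c', d'⟩ <;>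
    first
    | (exfalso; linarith)
    | exact Or.inl ⟨e, a, b, a', b', c'⟩
    | exact Or.inr ⟨e, a, b, d'⟩
  have B : (u₃ = u₁ + 2 ∧ -1 / 8 < u₁) ∨ (u₃ = u₁ ∧ v₃ < 1 / 8) := by
    rcases clInt_FC c13 hm' with e | ⟨e, a, b⟩ | ⟨e, a, b⟩ | ⟨e, a, b⟩ | ⟨e, a, b⟩ <;>
    rcases cl5_FC d13 with
      ⟨a', b'⟩ | ⟨⟨a', b'⟩, c', d'⟩ | ⟨⟨a', b'⟩, c', d'⟩ | ⟨⟨a', b'⟩, c', d'⟩ |
        ⟨⟨a', b'⟩, c', d'⟩ <;>
    first
    | (exfalso; linarith)
    | exact Or.inl ⟨e, a⟩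
    | exact Or.inr ⟨e, d'⟩
  rcases A with ⟨e, a, b, c, d, f⟩ | ⟨e, a, b, c⟩ <;> rcases B with ⟨e', g⟩ | ⟨e', g⟩
  · exact Or.inl ⟨by linarith, e, a, b, c, d, f⟩
  · exfalso; linarith
  · exfalso; linarith
  · exact Or.inr ⟨e'.symm, e, a, b⟩

lemma s0_FC {p : P4} (h : p ∈ S0) :
    -3 / 40 ≤ p.1 ∧ |p.2.1| ≤ 5 ∧ |p.2.2.1| ≤ 5 ∧ |p.2.2.2| ≤ 1 / 2 := by
  obtain ⟨h1, -, -, h4⟩ := h
  unfold qq at h1
  refine ⟨?_, ?_, ?_, h4⟩
  · nlinarith [sq_nonneg p.2.1, sq_nonneg p.2.2.1]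
  · rw [abs_le]; constructor <;> nlinarith [sq_nonneg (p.1 - 17 / 4), sq_nonneg p.2.2.1]
  · rw [abs_le]; constructor <;> nlinarith [sq_nonneg (p.1 - 17 / 4), sq_nonneg p.2.1]

lemma half_FC {c k w : ℝ} (h0 : 0 ≤ c) (h : c ≤ k) (hw : |w| ≤ 1 / 2) :
    -(k / 2) ≤ c * w ∧ c * w ≤ k / 2 := by
  obtain ⟨a, b⟩ := abs_le.1 hw
  constructor <;> nlinarith

lemma caseI_FC (hM : ModelStmt) (hP : ProfStmt) {k e : ℝ} {p₁ p₂ p₃ : P4} (hp : Par k e)
    (s₁ : p₁ ∈ S0) (s₂ : p₂ ∈ S0) (s₃ : p₃ ∈ S0) (t₂ : f0 p₂ ∈ S0) (t₃ : f0 p₃ ∈ S0)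
    (e12 : p₁.1 = p₂.1) (e32 : p₃.1 = p₂.1 + 2) (a1 : -1 / 8 < p₂.1) (a2 : p₂.1 < 1 / 8)
    (b1 : 3 / 8 < (f0 p₂).1) (b2 : (f0 p₂).1 < 5 / 8) (b3 : 67 / 8 < (f0 p₃).1)
    (ha1 : (io k e p₁).2.1 = (io k e p₃).2.1) (hb1 : (io k e p₁).2.2.1 = (io k e p₃).2.2.1)
    (ha2 : (io k e p₂).2.1 = (io k e p₃).2.1) (hb2 : (io k e p₂).2.2.1 = (io k e p₃).2.2.1)
    (r12 : (io k e p₁).2.2.2 ≤ (io k e p₂).2.2.2) (r23 : (io k e p₂).2.2.2 < (io k e p₃).2.2.2)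
    (g1 : (io k e (f0 p₁)).2 = (io k e (f0 p₃)).2) (g2 : (io k e (f0 p₂)).2 = (io k e (f0 p₃)).2)
    (D1 : (f0 p₃).1 ≤ (f0 p₁).1) (D2 : 8 ≤ (f0 p₃).1 - (f0 p₂).1) :
    ∃ X : E6, (e / k, X) ∈ KK ∧ Red k (e / k, X) = 0 ∧ io k e p₁ = cA k e X ∧
      (io k e p₂).2.2.2 = (cM k e X).2.2.2 ∧ (io k e p₃).2.2.2 = (cB e X).2.2.2 := by
  obtain ⟨-, -, -, -, -, -, mw, mF, mI, -, -⟩ := hM
  obtain ⟨kb, kk, ke, dA, dB, r0, r2, rH, -, -⟩ := hP
  have he := hp.pos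
  have hek := hp.le
  have hk := hp.small
  have hk0 : 0 < k := by linarith
  have hle : e ≤ k := by linarith
  obtain ⟨u1, -, -, w1⟩ := s0_FC s₁
  obtain ⟨u2, -, -, w2⟩ := s0_FC s₂
  obtain ⟨-, z3, z3', w3⟩ := s0_FC s₃
  obtain ⟨u₁, a₁, b₁, w₁⟩ := p₁
  obtain ⟨t, a₂, b₂, w₂⟩ := p₂
  obtain ⟨u₃, a₃, b₃, w₃⟩ := p₃
  simp only at e12 e32 a1 a2 u1 u2 w1 w2 w3 z3 z3'
  subst e12 e32
  have kB : kap k e (u₁ + 2) = e := ke k e _ (by linarith) (by linarith)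
  have rB : rh (u₁ + 2) = -u₁ := by
    rw [r2 _ (by rw [abs_le]; constructor <;> linarith)]; ring
  have rA : rh u₁ = 0 := r0 _ (Or.inl a2.le)
  obtain ⟨kA1, kA2⟩ := kb k e u₁ hle
  simp only [io, kB, rB, rA] at r23
  have tk : u₁ ≤ k := by
    linarith [(half_FC (he.le.trans kA1) kA2 w2).1, (half_FC he.le hle w3).2]
  have kA : kap k e u₁ = k := kk k e _ (Or.inl (by linarith))
  obtain ⟨xA, yA⟩ := dA u₁ (Or.inl (by linarith))
  obtain ⟨xB, yB⟩ := dA (u₁ + 2) (Or.inr (by rw [abs_le]; constructor <;> linarith))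
  simp only [io, kB, rB, rA, kA, xA, yA, xB, yB] at ha1 hb1 ha2 hb2 r12
  have hδ : k * (e / k) = e := by field_simp
  have ea1 : a₁ = e / k * a₃ := by field_simp; linarith
  have eb1 : b₁ = e / k * b₃ := by field_simp; linarith
  have ea2 : a₂ = e / k * a₃ := by field_simp; linarith
  have eb2 : b₂ = e / k * b₃ := by field_simp; linarith
  subst ea1 eb1
  subst ea2 eb2
  set P₁ : P4 := (u₁, e / k * a₃, e / k * b₃, w₁) with hP₁
  set P₂ : P4 := (u₁, e / k * a₃, e / k * b₃, w₂) with hP₂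
  set P₃ : P4 := (u₁ + 2, a₃, b₃, w₃) with hP₃
  have m1 : (f0 P₁).2.2.2 = w₁ := mw P₁
  have m2 : (f0 P₂).2.2.2 = w₂ := mw P₂
  have m3 : (f0 P₃).2.2.2 = w₃ := mw P₃
  have kM : kap k e (f0 P₂).1 = e := ke k e _ (by linarith) (by linarith)
  have rM : rh (f0 P₂).1 = -((f0 P₂).1 - 1 / 2) :=
    rH _ (by rw [abs_le]; constructor <;> linarith)
  have rT : rh (f0 P₃).1 = 0 := r0 _ (Or.inr b3.le)
  obtain ⟨kT1, kT2⟩ := kb k e (f0 P₃).1 hle
  have h2 : (io k e (f0 P₂)).2.2.2 = (io k e (f0 P₃)).2.2.2 := by rw [g2]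
  simp only [io, kM, rM, rT, m2, m3] at h2
  have vM1 : 1 / 2 - k ≤ (f0 P₂).1 := by
    linarith [(half_FC (he.le.trans kT1) kT2 w3).2, (half_FC he.le hle w2).1]
  have vM2 : (f0 P₂).1 ≤ 1 / 2 + k := by
    linarith [(half_FC (he.le.trans kT1) kT2 w3).1, (half_FC he.le hle w2).2]
  have kT : kap k e (f0 P₃).1 = k := kk k e _ (Or.inr (by linarith))
  have kS : kap k e (f0 P₁).1 = k := kk k e _ (Or.inr (by linarith))
  have rS : rh (f0 P₁).1 = 0 := r0 _ (Or.inr (by linarith))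
  obtain ⟨xM, yM⟩ := dB (f0 P₂).1 (Or.inl (by rw [abs_le]; constructor <;> linarith))
  obtain ⟨xT, yT⟩ := dB (f0 P₃).1 (Or.inr (by linarith))
  obtain ⟨xS, yS⟩ := dB (f0 P₁).1 (Or.inr (by linarith))
  simp only [io, kM, rM, rT, m1, m2, m3, kT, kS, rS, xM, yM, xT, yT, xS, yS,
    Prod.mk.injEq] at g1 g2
  obtain ⟨g11, g12, g13⟩ := g1
  obtain ⟨g21, g22, g23⟩ := g2
  have far : ∀ p : P4, 1 / 5 < (f0 p).1 - p.1 → f0 p = Fo p := fun p h => by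
    rcases le_total (1849 / 100) (qq (17 / 4) p) with h' | h'
    · exact mF p h'
    · exact absurd (abs_le.1 (mI p h')).2 (not_le.2 h)
  have F1 : f0 P₁ = Fo P₁ := far P₁ (by show 1 / 5 < (f0 P₁).1 - u₁; linarith)
  have F2 : f0 P₂ = Fo P₂ := far P₂ (by show 1 / 5 < (f0 P₂).1 - u₁; linarith)
  have F3 : f0 P₃ = Fo P₃ := far P₃ (by show 1 / 5 < (f0 P₃).1 - (u₁ + 2); linarith)
  rw [F1] at g11 g12 D1
  rw [F2] at g21 g22 g23
  rw [F3] at g11 g12 g21 g22 D1 b3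
  refine ⟨(u₁, a₃, b₃, w₁, w₂, w₃), ?_, ?_, ?_, ?_, ?_⟩
  · refine ⟨⟨by positivity, (div_le_one hk0).2 hle⟩, ?_, z3, z3', w1, w2, w3, ?_, ?_, D1⟩
    · show |u₁| ≤ 1 / 10
      rw [abs_le]; constructor <;> linarith
    · show w₁ ≤ w₂
      exact le_of_mul_le_mul_left (by linarith) hk0
    · show 8 ≤ (Fo P₃).1
      linarith
  · have q1 : (Fo P₃).2.1 - (Fo P₁).2.1 = 0 := by
      apply mul_left_cancel₀ hk0.ne'; linarith
    have q2 : (Fo P₃).2.2.1 - (Fo P₁).2.2.1 = 0 := by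
      apply mul_left_cancel₀ hk0.ne'; linarith
    have q3 : w₃ - w₁ = 0 := by
      apply mul_left_cancel₀ hk0.ne'; linarith
    have q4 : (Fo P₃).2.1 - e / k * (Fo P₂).2.1 = 0 := by
      apply mul_left_cancel₀ hk0.ne'
      rw [mul_sub, ← mul_assoc, hδ]; linarith
    have q5 : (Fo P₃).2.2.1 - e / k * (Fo P₂).2.2.1 = 0 := by
      apply mul_left_cancel₀ hk0.ne'
      rw [mul_sub, ← mul_assoc, hδ]; linarith
    have q6 : k * w₃ + ((Fo P₂).1 - 1 / 2) - k * (e / k) * w₂ = 0 := by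
      rw [hδ]; linarith
    exact Prod.ext q1 (Prod.ext q2 (Prod.ext q3 (Prod.ext q4 (Prod.ext q5 q6))))
  · simp only [io, cA, hP₁, kA, xA, yA, rA, ← mul_assoc, hδ, zero_add]
  · simp only [io, cM, hP₂, kA, rA, zero_add]
  · simp only [io, cB, hP₃, kB, rB]

theorem coarseS (hM : ModelStmt) (hP : ProfStmt) (hH : HoleStmt) (hN : NearStmt) :
    CoarseStmt := by
  intro k e θ a b ρ₁ ρ₂ ρ₃ y₁ y₂ y₃ hp r12 r23 L1 L2 L3 e13 e23 D1 D2
  have hinj : Function.Injective f0 := hM.2.2.1.injective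
  have hS : ∀ p, f0 p ≠ p → p ∈ S0 := hM.2.2.2.2.2.1
  have hS' : ∀ p, f0 p ≠ p → f0 p ∈ S0 := fun p h => hS _ fun h' => h (hinj h')
  have un : y₃.2.1 = a → y₃.2.2.1 = b → False := fun ha hb => by
    have key : ∀ (ρ : ℝ) (y : P4), Lf k e (θ, a, b, ρ) y → y.2 = y₃.2 →
        y.1 - θ = 0 ∨ ∃ u v, (∃ p ∈ S0, p.1 = u ∧ (io k e p).2.1 = a ∧ (io k e p).2.2.1 = b) ∧
          (∃ p ∈ S0, p.1 = v ∧ (io k e p).2.1 = a ∧ (io k e p).2.2.1 = b) ∧ y.1 - θ = v - u := by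
      rintro ρ y (h | ⟨p, n, hm, h1, h2⟩) hy
      · left; rw [h]; simp
      · right
        refine ⟨p.1, (f0 p).1, ⟨p, hS p hm, rfl, by rw [h1]; rfl, by rw [h1]; rfl⟩,
          ⟨f0 p, hS' p hm, rfl, ?_, ?_⟩, ?_⟩
        · rw [h2, ← ha, ← hy]; rfl
        · rw [h2, ← hb, ← hy]; rfl
        · have x1 : p.1 = θ + n := congrArg Prod.fst h1
          have x2 : (f0 p).1 = y.1 + n := congrArg Prod.fst h2
          linarith
    refine unmoved_FC _ ?_ (key ρ₂ y₂ L2 e23) (key ρ₃ y₃ L3 rfl) (by linarith [D2.1])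
      (by linarith [D2.2])
    rintro u v ⟨p, sp, rfl, pa, pb⟩ ⟨p', sp', rfl, pa', pb'⟩
    exact hN k e p p' hp sp sp' (pa.trans pa'.symm) (pb.trans pb'.symm)
  rcases L1 with h | ⟨p₁, n₁, m₁, i₁, j₁⟩
  · exact (un (by rw [← e13, h]) (by rw [← e13, h])).elim
  rcases L2 with h | ⟨p₂, n₂, m₂, i₂, j₂⟩
  · exact (un (by rw [← e23, h]) (by rw [← e23, h])).elim
  rcases L3 with h | ⟨p₃, n₃, m₃, i₃, j₃⟩
  · exact (un (by rw [h]) (by rw [h])).elim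
  clear un
  have x1 : p₁.1 = θ + n₁ := congrArg Prod.fst i₁
  have x2 : p₂.1 = θ + n₂ := congrArg Prod.fst i₂
  have x3 : p₃.1 = θ + n₃ := congrArg Prod.fst i₃
  have v1 : (f0 p₁).1 = y₁.1 + n₁ := congrArg Prod.fst j₁
  have v2 : (f0 p₂).1 = y₂.1 + n₂ := congrArg Prod.fst j₂
  have v3 : (f0 p₃).1 = y₃.1 + n₃ := congrArg Prod.fst j₃
  have ha1 : (io k e p₁).2.1 = (io k e p₃).2.1 := by rw [i₁, i₃]; rfl
  have hb1 : (io k e p₁).2.2.1 = (io k e p₃).2.2.1 := by rw [i₁, i₃]; rfl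
  have ha2 : (io k e p₂).2.1 = (io k e p₃).2.1 := by rw [i₂, i₃]; rfl
  have hb2 : (io k e p₂).2.2.1 = (io k e p₃).2.2.1 := by rw [i₂, i₃]; rfl
  have h1 : (io k e p₁).2.2.2 = ρ₁ := by rw [i₁]; rfl
  have h2 : (io k e p₂).2.2.2 = ρ₂ := by rw [i₂]; rfl
  have h3 : (io k e p₃).2.2.2 = ρ₃ := by rw [i₃]; rfl
  have g1 : (io k e (f0 p₁)).2 = (io k e (f0 p₃)).2 := by rw [j₁, j₃]; exact e13
  have g2 : (io k e (f0 p₂)).2 = (io k e (f0 p₃)).2 := by rw [j₂, j₃]; exact e23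
  have c13 := hN k e p₁ p₃ hp (hS _ m₁) (hS _ m₃) ha1 hb1
  have c23 := hN k e p₂ p₃ hp (hS _ m₂) (hS _ m₃) ha2 hb2
  have d13 := hN k e _ _ hp (hS' _ m₁) (hS' _ m₃) (by rw [g1]) (by rw [g1])
  have d23 := hN k e _ _ hp (hS' _ m₂) (hS' _ m₃) (by rw [g2]) (by rw [g2])
  rcases cases_FC (m := n₃ - n₂) (m' := n₃ - n₁) c23 c13 d23 d13 (by push_cast; linarith)
    (by push_cast; linarith) (by linarith [D1.1]) (by linarith [D1.2]) (by linarith [D2.1])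
    (by linarith [D2.2]) with ⟨e12, e32, a1, a2, b1, b2, b3⟩ | ⟨e1, e32, a1, a2⟩
  · obtain ⟨X, hX, hR, hA, hB, hC⟩ := caseI_FC hM hP hp (hS _ m₁) (hS _ m₂) (hS _ m₃) (hS' _ m₂)
      (hS' _ m₃) e12 e32 a1 a2 b1 b2 b3 ha1 hb1 ha2 hb2 (by linarith) (by linarith) g1 g2
      (by linarith [D1.2]) (by linarith [D2.1])
    refine ⟨X, -n₁, hX, hR, ?_, by linarith, by linarith⟩
    rw [← hA, i₁]
    simp [sh]
  · exfalso
    obtain ⟨-, -, ke, -⟩ := hP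
    have kB : kap k e p₃.1 = e := ke k e _ (by linarith) (by linarith)
    have he := hp.pos
    have w1 := half_FC he.le le_rfl (s0_FC (hS _ m₁)).2.2.2
    have w3 := half_FC he.le le_rfl (s0_FC (hS _ m₃)).2.2.2
    refine hH k e p₂ p₃ hp (hS _ m₂) (hS _ m₃)
      (Or.inr ⟨e32, by rw [abs_lt]; constructor <;> linarith⟩) ha2 hb2 ?_
    rw [h2, h3, abs_le]
    simp only [io, e1, kB] at h1 h3
    constructor <;> linarith [w1.1, w1.2, w3.1, w3.2]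

end Pool.Agent.MP_2fc7fa_gt.N.Fp

end

section

/-! Making a diffeomorphism equivariant. -/

open scoped ContDiff

namespace Pool.Agent.MP_2fc7fa_gt.N.Fp

/-- The equivariant version of `g`. -/
noncomputable def av_FEqv (g : W → W) (z : W) : W := z + ∑ j : Zp, (rt (-j) • g (rt j • z) - z)

theorem add_FEqv (j k : Zp) (z : W) : rt j • rt k • z = rt (j + k) • z := by
  rw [smul_smul, rt, rt, rt, AddChar.map_add_eq_mul]

theorem zero_FEqv (z : W) : rt 0 • z = z := by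
  rw [rt, AddChar.map_zero_eq_one, one_smul]

theorem none_FEqv {g : W → W} {z : W} (h : ∀ j, g (rt j • z) = rt j • z) : av_FEqv g z = z := by
  simp [av_FEqv, h, add_FEqv, zero_FEqv]

theorem one_FEqv {g : W → W}
    (hd : ∀ (z : W) (j : Zp), g z ≠ z → g (rt j • z) ≠ rt j • z → j = 0) {z : W} {j : Zp}
    (h : g (rt j • z) ≠ rt j • z) : av_FEqv g z = rt (-j) • g (rt j • z) := by
  rw [av_FEqv, Finset.sum_eq_single j (fun k _ hk => ?_) (by simp), add_sub_cancel]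
  have h1 : g (rt k • z) = rt k • z := by
    by_contra h1
    exact hk (sub_eq_zero.1 (hd _ (k - j) h (by rwa [add_FEqv, sub_add_cancel])))
  rw [h1, add_FEqv, neg_add_cancel, zero_FEqv, sub_self]

theorem inv_FEqv {g g' : W → W} (h1 : Function.LeftInverse g' g)
    (hd : ∀ (z : W) (j : Zp), g z ≠ z → g (rt j • z) ≠ rt j • z → j = 0)
    (hd' : ∀ (z : W) (j : Zp), g' z ≠ z → g' (rt j • z) ≠ rt j • z → j = 0) :
    Function.LeftInverse (av_FEqv g') (av_FEqv g) := fun z => by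
  by_cases h : ∀ j, g (rt j • z) = rt j • z
  · rw [none_FEqv h, none_FEqv fun j => by rw [← h j, h1, h j]]
  · obtain ⟨j, hj⟩ := not_forall.1 h
    have e : rt j • rt (-j) • g (rt j • z) = g (rt j • z) := by
      rw [add_FEqv, add_neg_cancel, zero_FEqv]
    rw [one_FEqv hd hj, one_FEqv hd' (j := j) (by rw [e, h1]; exact Ne.symm hj), e, h1, add_FEqv,
      neg_add_cancel, zero_FEqv]

theorem smooth_FEqv {g : W → W} (h : ContDiff ℝ ∞ g) : ContDiff ℝ ∞ (av_FEqv g) :=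
  contDiff_id.add (ContDiff.sum fun j _ =>
    ((h.comp (contDiff_id.const_smul (rt j))).const_smul (rt (-j))).sub contDiff_id)

theorem eqvS : EqvStmt := by
  intro g g' hg hg' h1 h2 hd
  have hm : ∀ z, g' z ≠ z → g z ≠ z := fun z h e => h (by rw [← e, h1, e])
  have hd' : ∀ (z : W) (j : Zp), g' z ≠ z → g' (rt j • z) ≠ rt j • z → j = 0 := fun z j a b =>
    hd z j (hm _ a) (hm _ b)
  refine ⟨av_FEqv g, av_FEqv g', smooth_FEqv hg, smooth_FEqv hg', inv_FEqv h1 hd hd',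
    inv_FEqv h2 hd' hd, fun j z => ?_, fun z h => ?_, fun z => ?_⟩
  · rw [av_FEqv, av_FEqv, smul_add, Finset.smul_sum, ← Equiv.sum_comp (Equiv.subRight j)]
    simp only [Equiv.subRight_apply, add_FEqv, smul_sub, sub_add_cancel, neg_sub, sub_eq_add_neg j]
  · rw [one_FEqv hd (j := 0) (by rwa [zero_FEqv]), neg_zero, zero_FEqv, zero_FEqv]
  · by_cases h : ∀ j, g (rt j • z) = rt j • z
    · exact Or.inl (none_FEqv h)
    · exact Or.inr (not_forall.1 h)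

end Pool.Agent.MP_2fc7fa_gt.N.Fp

end

section

/-! The translates of the support of the model diffeomorphism are disjoint. -/

open Set

namespace Pool.Agent.MP_2fc7fa_gt.N.Fp

theorem bd_FHole {p : P4} (h : p ∈ S0) : p.1 ∈ Icc (-1 / 10 : ℝ) (43 / 5) ∧
    |p.2.1| ≤ 173 / 40 ∧ |p.2.2.1| ≤ 173 / 40 ∧ |p.2.2.2| ≤ 1 / 2 := by
  obtain ⟨h1, -, -, h4⟩ := h
  unfold qq at h1
  have a1 := sq_nonneg (p.1 - 17 / 4)
  have a2 := sq_nonneg p.2.1
  have a3 := sq_nonneg p.2.2.1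
  have b1 : |p.1 - 17 / 4| ≤ 173 / 40 := abs_le_of_sq_le_sq (by linarith) (by norm_num)
  obtain ⟨b2, b3⟩ := abs_le.1 b1
  exact ⟨⟨by linarith, by linarith⟩, abs_le_of_sq_le_sq (by linarith) (by norm_num),
    abs_le_of_sq_le_sq (by linarith) (by norm_num), h4⟩

theorem mul_FHole {κ k a M : ℝ} (h0 : 0 ≤ κ) (h1 : κ ≤ k) (h : |a| ≤ M) : |κ * a| ≤ k * M := by
  rw [abs_mul, abs_of_nonneg h0]
  exact mul_le_mul h1 h (abs_nonneg a) (h0.trans h1)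

theorem diff_FHole {k κ κ' x x' a a' : ℝ} (h0 : 0 ≤ κ) (h1 : κ ≤ k) (h0' : 0 ≤ κ') (h1' : κ' ≤ k)
    (ha : |a| ≤ 173 / 40) (ha' : |a'| ≤ 173 / 40) (e : x + κ * a = x' + κ' * a') :
    |x - x'| ≤ 10 * k := by
  obtain ⟨b1, b2⟩ := abs_le.1 (mul_FHole h0 h1 ha)
  obtain ⟨b3, b4⟩ := abs_le.1 (mul_FHole h0' h1' ha')
  exact abs_le.2 ⟨by linarith, by linarith⟩

theorem small_FHole {k e κ v w w' : ℝ} (h : Par k e) (h0 : e ≤ κ) (h1 : κ ≤ k) (hw : |w| ≤ 1 / 2)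
    (hw' : |w'| ≤ 1 / 2) (hv : |0 + κ * w - (-v + e * w')| ≤ e) : |v| ≤ 1 / 160 := by
  have h2 := h.pos
  have h3 := h.le
  have h4 := h.small
  obtain ⟨b1, b2⟩ := abs_le.1 (mul_FHole (h2.le.trans h0) h1 hw)
  obtain ⟨b3, b4⟩ := abs_le.1 (mul_FHole h2.le le_rfl hw')
  obtain ⟨b5, b6⟩ := abs_le.1 hv
  exact abs_le.2 ⟨by linarith, by linarith⟩

theorem tiny_FHole {k e c a a' : ℝ} (h : Par k e) (ha' : |a'| ≤ 173 / 40)
    (hv : c + k * a = c + e * a') : a ^ 2 ≤ (173 / 16000) ^ 2 := by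
  have h2 := h.pos
  have h3 := h.le
  have hk : 0 < k := by linarith
  have h4 := mul_FHole h2.le h3 ha'
  rw [← add_left_cancel hv, abs_mul, abs_of_pos hk] at h4
  have h5 : |a| ≤ 173 / 16000 := le_of_mul_le_mul_left (by linarith) hk
  exact sq_le_sq' (abs_le.1 h5).1 (abs_le.1 h5).2

theorem holeS (hP : ProfStmt) : HoleStmt := by
  obtain ⟨P1, P2, P3, P4, P5, P6, P7, P8, -⟩ := hP
  intro k e p p' h hp hp' hc h1 h2 h3
  obtain ⟨-, -, -, b4⟩ := bd_FHole hp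
  obtain ⟨-, c2, c3, c4⟩ := bd_FHole hp'
  have hek : e ≤ k := by linarith [h.pos, h.le]
  obtain ⟨k1, k2⟩ := P1 k e p.1 hek
  simp only [io] at h1 h2 h3
  rcases hc with ⟨hu, hv⟩ | ⟨hu, hv⟩
  · obtain ⟨v1, v2⟩ := abs_lt.1 hv
    have e1 : p'.1 - 2 = p.1 := by linarith
    have e2 : kap k e p'.1 = e := P3 k e _ (by linarith) (by linarith)
    rw [P6 _ (Or.inl v2.le), P7 p'.1 (by rw [e1]; exact hv.le), e1, e2] at h3
    have h4 := small_FHole h k1 k2 b4 c4 h3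
    obtain ⟨u1, u2⟩ := abs_le.1 h4
    have e3 := P4 p.1 (Or.inl (by linarith))
    have e4 := P4 p'.1 (Or.inr (by rw [e1]; linarith))
    have e5 := P2 k e p.1 (Or.inl (by linarith))
    rw [e3.1, e4.1, e5, e2] at h1
    rw [e3.2, e4.2, e5, e2] at h2
    have t1 := tiny_FHole h c2 h1
    have t2 := tiny_FHole h c3 h2
    have t3 : (p.1 - 0) ^ 2 ≤ (1 / 160) ^ 2 := sq_le_sq' (by linarith) (by linarith)
    have t4 := hp.2.1
    unfold qq at t4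
    linarith
  · obtain ⟨v1, v2⟩ := abs_lt.1 hv
    have e1 : p'.1 - 1 / 2 = p.1 - 17 / 2 := by linarith
    have e2 : kap k e p'.1 = e := P3 k e _ (by linarith) (by linarith)
    rw [P6 _ (Or.inr (by linarith)), P8 p'.1 (by rw [e1]; exact hv.le), e1, e2] at h3
    have h4 := small_FHole h k1 k2 b4 c4 h3
    obtain ⟨u1, u2⟩ := abs_le.1 h4
    have e3 := P5 p.1 (Or.inr (by linarith))
    have e4 := P5 p'.1 (Or.inl (by rw [e1]; linarith))
    have e5 := P2 k e p.1 (Or.inr (by linarith))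
    rw [e3.1, e4.1, e5, e2] at h1
    rw [e3.2, e4.2, e5, e2] at h2
    have t1 := tiny_FHole h c2 h1
    have t2 := tiny_FHole h c3 h2
    have t3 : (p.1 - 17 / 2) ^ 2 ≤ (1 / 160) ^ 2 := sq_le_sq' (by linarith) (by linarith)
    have t4 := hp.2.2.1
    unfold qq at t4
    linarith

theorem nearS (hP : ProfStmt) : NearStmt := by
  intro k e p p' h hp hp' h1 h2
  obtain ⟨b1, b2, b3, -⟩ := bd_FHole hp
  obtain ⟨c1, c2, c3, -⟩ := bd_FHole hp'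
  have hek : e ≤ k := by linarith [h.pos, h.le]
  obtain ⟨k1, k2⟩ := hP.1 k e p.1 hek
  obtain ⟨k3, k4⟩ := hP.1 k e p'.1 hek
  exact h.clus _ b1 _ c1 (diff_FHole (h.pos.le.trans k1) k2 (h.pos.le.trans k3) k4 b2 c2 h1)
    (diff_FHole (h.pos.le.trans k1) k2 (h.pos.le.trans k3) k4 b3 c3 h2)

theorem int_FHole {n m : ℤ} (h1 : (m : ℝ) - 1 < n) (h2 : (n : ℝ) < m + 1) : n = m := by
  have a1 : m - 1 < n := by exact_mod_cast h1
  have a2 : n < m + 1 := by exact_mod_cast h2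
  omega

theorem disjS (hP : ProfStmt) : DisjStmt := by
  intro k e p p' n h hp hp' hn he
  have h1 : (io k e p).2.1 = (io k e p').2.1 := by rw [he]
  have h2 : (io k e p).2.2.1 = (io k e p').2.2.1 := by rw [he]
  have h3 : |(io k e p).2.2.2 - (io k e p').2.2.2| ≤ e := by
    rw [he, sub_self, abs_zero]
    exact h.pos.le
  have h4 : |(io k e p').2.2.2 - (io k e p).2.2.2| ≤ e := by rwa [abs_sub_comm]
  have H := fun hc => holeS hP k e p p' h hp hp' hc h1 h2 h3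
  have H' := fun hc => holeS hP k e p' p h hp' hp hc h1.symm h2.symm h4
  rcases nearS hP k e p p' h hp hp' h1 h2 with c | ⟨c | c, d | d⟩ | ⟨c | c, d | d⟩
  · obtain ⟨c1, c2⟩ := abs_lt.1 c
    exact int_FHole (by push_cast; linarith) (by push_cast; linarith)
  all_goals
    obtain ⟨c1, c2⟩ := abs_lt.1 c
    obtain ⟨d1, d2⟩ := abs_lt.1 d
  · exact int_FHole (by push_cast; linarith) (by push_cast; linarith)
  · obtain rfl : n = 2 := int_FHole (by push_cast; linarith) (by push_cast; linarith)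
    exact (H (Or.inl ⟨by push_cast at hn; linarith, c⟩)).elim
  · obtain rfl : n = -2 := int_FHole (by push_cast; linarith) (by push_cast; linarith)
    exact (H' (Or.inl ⟨by push_cast at hn; linarith, d⟩)).elim
  · exact int_FHole (by push_cast; linarith) (by push_cast; linarith)
  · exact int_FHole (by push_cast; linarith) (by push_cast; linarith)
  · obtain rfl : n = 8 := int_FHole (by push_cast; linarith) (by push_cast; linarith)
    exact (H' (Or.inr ⟨by push_cast at hn; linarith, d⟩)).elim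
  · obtain rfl : n = -8 := int_FHole (by push_cast; linarith) (by push_cast; linarith)
    exact (H (Or.inr ⟨by push_cast at hn; linarith, c⟩)).elim
  · exact int_FHole (by push_cast; linarith) (by push_cast; linarith)

end Pool.Agent.MP_2fc7fa_gt.N.Fp

end

section

/-! Persistence of a unique nondegenerate zero. -/

open scoped ContDiff Topology
open Set Filter

noncomputable section

namespace Pool.Agent.MP_2fc7fa_gt.N.Fp

theorem slice_FIft {E : Type} [NormedAddCommGroup E] [NormedSpace ℝ E] (Φ : ℝ × E → E)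
    (hΦ : ContDiff ℝ 1 Φ) (δ : ℝ) (X : E) :
    fderiv ℝ (fun Y => Φ (δ, Y)) X =
      (fderiv ℝ Φ (δ, X)).comp (ContinuousLinearMap.inr ℝ ℝ E) := by
  have h1 : HasFDerivAt Φ (fderiv ℝ Φ (δ, X)) (δ, X) :=
    (hΦ.differentiable one_ne_zero (δ, X)).hasFDerivAt
  exact (h1.comp X (hasFDerivAt_prodMk_right δ X)).fderiv

theorem gen_FIft {E : Type} [NormedAddCommGroup E] [NormedSpace ℝ E] [FiniteDimensional ℝ E]
    (Φ : ℝ × E → E) (K U : Set (ℝ × E)) (X₀ : E) (hΦ : ContDiff ℝ 1 Φ) (hK : IsCompact K)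
    (hU : IsOpen U) (h0 : (0, X₀) ∈ U) (hz : Φ (0, X₀) = 0)
    (huniq : ∀ X, (0, X) ∈ K → Φ (0, X) = 0 → X = X₀)
    (hinj : Function.Injective (fderiv ℝ (fun Y => Φ (0, Y)) X₀)) :
    ∃ δ₀ : ℝ, 0 < δ₀ ∧ ∀ δ : ℝ, |δ| < δ₀ → ∃ X, (δ, X) ∈ U ∧ Φ (δ, X) = 0 ∧
      Function.Injective (fderiv ℝ (fun Y => Φ (δ, Y)) X) ∧
      ∀ Y, (δ, Y) ∈ K → Φ (δ, Y) = 0 → Y = X := by
  have : CompleteSpace E := FiniteDimensional.complete ℝ E
  set G : ℝ × E → ℝ × E := fun p => (p.1, Φ p) with hG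
  set D : (ℝ × E) →L[ℝ] (ℝ × E) :=
    (ContinuousLinearMap.fst ℝ ℝ E).prod (fderiv ℝ Φ (0, X₀)) with hD
  have hGD : HasStrictFDerivAt G D (0, X₀) :=
    hasStrictFDerivAt_fst.prodMk (hΦ.contDiffAt.hasStrictFDerivAt one_ne_zero)
  have hDinj : Function.Injective D := by
    rw [injective_iff_map_eq_zero]
    rintro ⟨a, v⟩ h
    have h1 : a = 0 := congrArg Prod.fst h
    have h2 : fderiv ℝ Φ (0, X₀) (a, v) = 0 := congrArg Prod.snd h
    subst h1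
    have h3 : fderiv ℝ (fun Y => Φ (0, Y)) X₀ v = 0 := by
      rw [slice_FIft Φ hΦ]; exact h2
    have h4 : v = 0 := (injective_iff_map_eq_zero _).1 hinj v h3
    rw [h4]; rfl
  set e : (ℝ × E) ≃L[ℝ] (ℝ × E) :=
    (LinearEquiv.ofInjectiveEndo (D : (ℝ × E) →ₗ[ℝ] (ℝ × E)) hDinj).toContinuousLinearEquiv with he
  have heD : (e : (ℝ × E) →L[ℝ] (ℝ × E)) = D := by
    ext x <;> rfl
  have hGe : HasStrictFDerivAt G (e : (ℝ × E) →L[ℝ] (ℝ × E)) (0, X₀) := heD ▸ hGD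
  have hc : Continuous fun p : ℝ × E =>
      (fderiv ℝ Φ p).comp (ContinuousLinearMap.inr ℝ ℝ E) :=
    (hΦ.continuous_fderiv one_ne_zero).clm_comp continuous_const
  have hI : ∀ᶠ p in 𝓝 ((0, X₀) : ℝ × E),
      Function.Injective ((fderiv ℝ Φ p).comp (ContinuousLinearMap.inr ℝ ℝ E)) := by
    refine (ContinuousLinearMap.isOpen_injective.preimage hc).mem_nhds ?_
    have := hinj
    rw [slice_FIft Φ hΦ] at this
    exact this
  obtain ⟨V, hV, hVo, hV0⟩ := eventually_nhds_iff.1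
    ((hGe.eventually_left_inverse.and hI).and (hU.mem_nhds h0))
  have hG0 : G (0, X₀) = (0, 0) := by simp [hG, hz]
  have him : G '' V ∈ 𝓝 ((0, 0) : ℝ × E) := by
    rw [← hG0, ← hGe.map_nhds_eq_of_equiv]
    exact image_mem_map (hVo.mem_nhds hV0)
  have h1 : ∀ᶠ δ : ℝ in 𝓝 0, ((δ, 0) : ℝ × E) ∈ G '' V :=
    (Continuous.prodMk_left (0 : E)).continuousAt.preimage_mem_nhds him
  have hZ : IsCompact ((K \ V) ∩ Φ ⁻¹' {0}) :=
    (hK.diff hVo).inter_right (isClosed_singleton.preimage hΦ.continuous)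
  have h2 : ∀ᶠ δ : ℝ in 𝓝 0, δ ∉ Prod.fst '' ((K \ V) ∩ Φ ⁻¹' {0}) := by
    refine (hZ.image continuous_fst).isClosed.isOpen_compl.mem_nhds ?_
    rintro ⟨⟨a, Y⟩, ⟨⟨hk, hv⟩, hp⟩, ha⟩
    have ha' : a = 0 := ha
    subst ha'
    have := huniq Y hk hp
    subst this
    exact hv hV0
  obtain ⟨δ₀, hδ₀, hh⟩ := Metric.eventually_nhds_iff.1 (h1.and h2)
  refine ⟨δ₀, hδ₀, fun δ hδ => ?_⟩
  obtain ⟨⟨⟨a, X⟩, hX, hGX⟩, hn⟩ := hh (y := δ) (by simpa [Real.dist_eq] using hδ)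
  have ha : a = δ := congrArg Prod.fst hGX
  subst ha
  have hb : Φ (a, X) = 0 := congrArg Prod.snd hGX
  refine ⟨X, (hV _ hX).2, hb, ?_, fun Y hY hY0 => ?_⟩
  · rw [slice_FIft Φ hΦ]; exact (hV _ hX).1.2
  · have hYV : (a, Y) ∈ V := by
      by_contra hc'
      exact hn ⟨(a, Y), ⟨⟨hY, hc'⟩, hY0⟩, rfl⟩
    have e1 := (hV _ hYV).1.1
    have e2 := (hV _ hX).1.1
    have e3 : G (a, Y) = G (a, X) := by simp [hG, hY0, hb]
    rw [e3, e2] at e1
    exact (congrArg Prod.snd e1).symm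

theorem iftS : IftStmt := fun Φ K U X₀ hΦ hK hU h0 hz hu hi =>
  gen_FIft Φ K U X₀ hΦ hK hU h0 hz hu hi

end Pool.Agent.MP_2fc7fa_gt.N.Fp

end
end

section

/-! Properties of the chart `Lam`. -/

open scoped ContDiff Topology
open Set

noncomputable section

namespace Pool.Agent.MP_2fc7fa_gt.N.Fp

theorem ee_eq_FLam (u : ℝ) : ee u = Complex.exp ((2 * Real.pi * u / 37 : ℝ) * Complex.I) := by
  unfold ee
  congr 1
  push_cast
  ring

theorem ee_norm_FLam (u : ℝ) : ‖ee u‖ = 1 := by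
  rw [ee_eq_FLam, Complex.norm_exp_ofReal_mul_I]

theorem ee_add_FLam (u v : ℝ) : ee (u + v) = ee u * ee v := by
  unfold ee
  rw [← Complex.exp_add]
  congr 1
  push_cast
  ring

theorem ne_FLam (p : P4) : (Lam p).1 ≠ 0 :=
  mul_ne_zero (Complex.ofReal_ne_zero.2 (Real.exp_ne_zero _)) (Complex.exp_ne_zero _)

theorem norm_FLam (p : P4) : ‖(Lam p).1‖ = Real.exp p.2.2.2 := by
  show ‖(Real.exp p.2.2.2 : ℂ) * ee p.1‖ = _
  rw [norm_mul, ee_norm_FLam, mul_one, Complex.norm_real, Real.norm_of_nonneg (Real.exp_pos _).le]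

theorem quot_FLam (p : P4) :
    (Lam p).2 / (Lam p).1 = (p.2.1 : ℂ) + (p.2.2.1 : ℂ) * Complex.I :=
  mul_div_cancel_left₀ _ (ne_FLam p)

theorem arg_FLam (p : P4) (hp : |p.1| < 37 / 2) :
    Complex.arg (Lam p).1 = 2 * Real.pi * p.1 / 37 := by
  show Complex.arg ((Real.exp p.2.2.2 : ℂ) * ee p.1) = _
  have hπ := Real.pi_pos
  obtain ⟨h1, h2⟩ := abs_lt.1 hp
  rw [ee_eq_FLam, Complex.exp_mul_I]
  apply Complex.arg_mul_cos_add_sin_mul_I (Real.exp_pos _)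
  constructor <;> nlinarith

theorem smooth_FLam : ContDiff ℝ ∞ Lam := by
  have h0 : ContDiff ℝ ∞ fun p : P4 => Real.exp p.2.2.2 := by fun_prop
  have h1 : ContDiff ℝ ∞ fun p : P4 => (Real.exp p.2.2.2 : ℂ) :=
    Complex.ofRealCLM.contDiff.comp h0
  have h2 : ContDiff ℝ ∞ fun p : P4 => ee p.1 := by
    have a : ContDiff ℝ ∞ fun p : P4 => (p.1 : ℂ) := Complex.ofRealCLM.contDiff.comp contDiff_fst
    exact Complex.contDiff_exp.comp ((contDiff_const.mul a).div_const _)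
  have h3 : ContDiff ℝ ∞ fun p : P4 => (p.2.1 : ℂ) := Complex.ofRealCLM.contDiff.comp (by fun_prop)
  have h4 : ContDiff ℝ ∞ fun p : P4 => (p.2.2.1 : ℂ) :=
    Complex.ofRealCLM.contDiff.comp (by fun_prop)
  exact (h1.mul h2).prodMk ((h1.mul h2).mul (h3.add (h4.mul contDiff_const)))

theorem smooth'_FLam : ContDiffOn ℝ ∞ Lam' {z | z.1 ∈ Complex.slitPlane} := by
  intro z hz
  apply ContDiffAt.contDiffWithinAt
  have hl : ContDiffAt ℝ ∞ (fun z : W => Complex.log z.1) z :=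
    ((Complex.contDiffAt_log hz).restrict_scalars ℝ).comp z contDiffAt_fst
  have hq : ContDiffAt ℝ ∞ (fun z : W => z.2 / z.1) z :=
    (ContDiffAt.div (𝕜 := ℂ) contDiffAt_snd contDiffAt_fst
      (Complex.slitPlane_ne_zero hz)).restrict_scalars ℝ
  have e : Lam' = fun z : W => (37 / (2 * Real.pi) * (Complex.log z.1).im, (z.2 / z.1).re,
      (z.2 / z.1).im, (Complex.log z.1).re) := by
    funext z
    rw [Complex.log_im, Complex.log_re]
    rfl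
  rw [e]
  exact (contDiffAt_const.mul (Complex.imCLM.contDiff.contDiffAt.comp z hl)).prodMk
    ((Complex.reCLM.contDiff.contDiffAt.comp z hq).prodMk
      ((Complex.imCLM.contDiff.contDiffAt.comp z hq).prodMk
        (Complex.reCLM.contDiff.contDiffAt.comp z hl)))

theorem right_FLam (z : W) (hz : z.1 ≠ 0) : Lam (Lam' z) = z := by
  have h1 : (Lam (Lam' z)).1 = z.1 := by
    show ((Real.exp (Real.log ‖z.1‖) : ℝ) : ℂ) * ee (37 / (2 * Real.pi) * Complex.arg z.1) = z.1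
    have : 2 * Real.pi * (37 / (2 * Real.pi) * Complex.arg z.1) / 37 = Complex.arg z.1 := by
      field_simp
    rw [Real.exp_log (norm_pos_iff.2 hz), ee_eq_FLam, this, Complex.norm_mul_exp_arg_mul_I]
  refine Prod.ext h1 ?_
  show (Lam (Lam' z)).1 * (((z.2 / z.1).re : ℂ) + ((z.2 / z.1).im : ℂ) * Complex.I) = z.2
  rw [h1, Complex.re_add_im, mul_div_cancel₀ _ hz]

theorem left_FLam (p : P4) (hp : |p.1| < 37 / 2) : Lam' (Lam p) = p := by
  unfold Lam'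
  rw [arg_FLam p hp, quot_FLam, norm_FLam, Real.log_exp]
  refine Prod.ext ?_ (Prod.ext ?_ (Prod.ext ?_ rfl))
  · simp only
    field_simp
  · simp
  · simp

theorem inj_FLam (p p' : P4) (h : Lam p = Lam p') : p.2 = p'.2 ∧ ∃ n : ℤ, p'.1 = p.1 + 37 * n := by
  have h1 : p.2.2.2 = p'.2.2.2 := by
    apply Real.exp_injective
    rw [← norm_FLam, h, norm_FLam]
  have h2 := quot_FLam p
  rw [h, quot_FLam] at h2
  have h3 : p.2.1 = p'.2.1 := by simpa using (congrArg Complex.re h2).symm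
  have h4 : p.2.2.1 = p'.2.2.1 := by simpa using (congrArg Complex.im h2).symm
  refine ⟨Prod.ext h3 (Prod.ext h4 h1), ?_⟩
  have h5 : (Real.exp p.2.2.2 : ℂ) * ee p.1 = (Real.exp p'.2.2.2 : ℂ) * ee p'.1 :=
    congrArg Prod.fst h
  rw [h1] at h5
  have h6 := mul_left_cancel₀ (Complex.ofReal_ne_zero.2 (Real.exp_ne_zero _)) h5
  rw [ee_eq_FLam, ee_eq_FLam, eq_comm, Complex.exp_eq_exp_iff_exists_int] at h6
  obtain ⟨n, hn⟩ := h6
  refine ⟨n, ?_⟩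
  have h7 : 2 * Real.pi * p'.1 / 37 = 2 * Real.pi * p.1 / 37 + n * (2 * Real.pi) := by
    simpa using congrArg Complex.im hn
  have hπ := Real.pi_pos
  apply mul_left_cancel₀ (show 2 * Real.pi / 37 ≠ 0 by positivity)
  linarith

theorem last_FLam (p : P4) (h1 : |p.1| ≤ 1 / 10) (h2 : |p.2.1 - 1| ≤ 1 / 100)
    (h3 : |p.2.2.1| ≤ 1 / 100) : (Lam p).2 ≠ 0 ∧ |Complex.arg (Lam p).2| < Real.pi / 37 := by
  have hπ := Real.pi_pos
  set w : ℂ := (p.2.1 : ℂ) + (p.2.2.1 : ℂ) * Complex.I with hw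
  have re : w.re = p.2.1 := by simp [hw]
  have im : w.im = p.2.2.1 := by simp [hw]
  have r1 : 99 / 100 ≤ w.re := by
    rw [re]
    linarith [(abs_le.1 h2).1]
  have n1 : 99 / 100 ≤ ‖w‖ := r1.trans (Complex.re_le_norm w)
  have w0 : w ≠ 0 := norm_pos_iff.1 (by linarith)
  have a1 : |Complex.arg w| ≤ Real.pi / 2 := Complex.abs_arg_le_pi_div_two_iff.2 (by linarith)
  have a2 := Real.mul_abs_le_abs_sin a1
  rw [Complex.sin_arg, abs_div, abs_norm, im] at a2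
  have a3 : |p.2.2.1| / ‖w‖ ≤ 1 / 99 := by
    rw [div_le_iff₀ (by linarith)]
    linarith
  have a4 : |Complex.arg w| ≤ Real.pi / 198 := by
    have := a2.trans a3
    rw [div_mul_eq_mul_div, div_le_iff₀ hπ] at this
    linarith
  have b1 := arg_FLam p (by linarith)
  obtain ⟨c1, c2⟩ := abs_le.1 h1
  obtain ⟨c3, c4⟩ := abs_le.1 a4
  have b2 : 2 * Real.pi * p.1 / 37 ≤ Real.pi / 185 := by nlinarith
  have b3 : -(Real.pi / 185) ≤ 2 * Real.pi * p.1 / 37 := by nlinarith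
  have e : (Lam p).2 = (Lam p).1 * w := rfl
  refine ⟨e ▸ mul_ne_zero (ne_FLam p) w0, ?_⟩
  rw [e, (Complex.arg_mul_eq_add_arg_iff (ne_FLam p) w0).2 (by
    rw [b1]
    constructor <;> linarith), b1, abs_lt]
  constructor <;> linarith

theorem lamS : LamStmt := by
  refine ⟨smooth_FLam, smooth'_FLam, right_FLam, fun p hp => ⟨left_FLam p hp, ?_, arg_FLam p hp⟩,
    inj_FLam, fun D p => ?_, fun a p => ?_, fun n => ?_, ne_FLam, fun p => ?_, ee_norm_FLam,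
    last_FLam⟩
  · refine Complex.mem_slitPlane_iff_arg.2 ⟨?_, ne_FLam p⟩
    rw [arg_FLam p hp]
    have hπ := Real.pi_pos
    apply ne_of_lt
    nlinarith [(abs_lt.1 hp).2]
  · simp only [Lam, sh, ee_add_FLam, Prod.smul_mk, smul_eq_mul]
    refine Prod.ext ?_ ?_ <;> simp only <;> ring
  · simp only [Lam, Real.exp_add, Prod.smul_mk, Complex.real_smul, Complex.ofReal_mul]
    refine Prod.ext ?_ ?_ <;> simp only <;> ring
  · unfold rt ee
    rw [ZMod.stdAddChar_coe]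
    simp
  · have e : (Lam p).2 = (Lam p).1 * ((p.2.1 : ℂ) + (p.2.2.1 : ℂ) * Complex.I) := rfl
    unfold nsq
    rw [e, norm_mul, norm_FLam, mul_pow, Complex.sq_norm, Complex.normSq_add_mul_I, two_mul,
      Real.exp_add]
    ring

end Pool.Agent.MP_2fc7fa_gt.N.Fp

end
end

section

/-! Characterisation of the solutions of the limit system. -/

open scoped ContDiff Topology
open Set

noncomputable section

namespace Pool.Agent.MP_2fc7fa_gt.N.Fp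

theorem half_FLimChar (hS : StStmt) {x : ℝ} (h : Real.cos (Real.pi * St x) = 0) : x = 1 / 2 := by
  have h0 : 0 ≤ St x := Real.smoothTransition.nonneg x
  have h1 : St x ≤ 1 := Real.smoothTransition.le_one x
  have hp := Real.pi_pos
  have h2 : Real.pi * St x = Real.pi / 2 :=
    Real.injOn_cos ⟨by positivity, by nlinarith⟩ ⟨by positivity, by linarith⟩
      (by rw [h, Real.cos_pi_div_two])
  have h3 : St x = 1 / 2 := mul_left_cancel₀ hp.ne' (by rw [h2]; ring)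
  rcases le_total x 0 with a | a
  · have : St x = 0 := Real.smoothTransition.zero_of_nonpos a
    linarith
  rcases le_total 1 x with b | b
  · have : St x = 1 := Real.smoothTransition.one_of_one_le b
    linarith
  exact hS.2.1.injOn ⟨a, b⟩ ⟨by norm_num, by norm_num⟩ (h3.trans hS.1.symm)

theorem axis_FLimChar (t w : ℝ) : (Fo (t, 0, 0, w)).1 = 17 / 4 + (t - 17 / 4) *
    (Real.cos (phO ((t - 17 / 4) ^ 2)) ^ 2 +
      Real.sin (phO ((t - 17 / 4) ^ 2)) ^ 2 * Real.cos (th w)) := by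
  have e : qq (17 / 4) (t, 0, 0, w) = (t - 17 / 4) ^ 2 := by simp [qq]
  simp only [Fo, tw, e, sh, rX, rN, rP, Real.cos_neg, Real.sin_neg]
  ring

theorem th0_FLimChar (hS : StStmt) : th 0 = Real.pi := by
  rw [th, zero_add, hS.1]; ring

theorem flat_FLimChar (hS : StStmt) (x a b : ℝ) : Fo (x, a, b, 0) =
    (17 / 4 + (Real.cos (2 * phO (qq (17 / 4) (x, a, b, 0))) * (x - 17 / 4) +
        Real.sin (2 * phO (qq (17 / 4) (x, a, b, 0))) * a),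
      Real.cos (2 * phO (qq (17 / 4) (x, a, b, 0))) * a -
        Real.sin (2 * phO (qq (17 / 4) (x, a, b, 0))) * (x - 17 / 4), b, 0) := by
  simp only [Fo, tw, sh, rX, rN, rP, Real.cos_neg, Real.sin_neg, th0_FLimChar hS, one_mul,
    Real.cos_pi, Real.sin_pi, Real.cos_two_mul', Real.sin_two_mul]
  refine Prod.ext ?_ (Prod.ext ?_ (Prod.ext ?_ rfl)) <;> simp only <;> ring

theorem sq_FLimChar {r : ℝ} (h0 : 0 < r) (h : r ≤ 43 / 10) :
    (r ^ 2 - 1849 / 100) * (320 / 69) ≤ 0 := by nlinarith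

theorem neg_FLimChar {t : ℝ} (h0 : t ≤ 1 / 10) (h : (t - 17 / 4) ^ 2 = 59513 / 3200) : t < 0 := by
  nlinarith

theorem trig_FLimChar {c n C : ℝ} (h0 : n ^ 2 + c ^ 2 = 1) (h1 : c ^ 2 + n ^ 2 * C = -1)
    (h2 : -1 ≤ C) : c ^ 2 = 0 := by
  nlinarith [mul_nonneg (sq_nonneg n) (sub_nonneg.2 h2), sq_nonneg c]

theorem limCharS (hS : StStmt) (hM : ModelStmt) : LimCharStmt := by
  rintro k ⟨t, z1, z2, wa, w, wb⟩ ⟨-, ht, -, -, -, hw, -, hle, h8, hBA⟩ hR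
  simp only [Red, pA, pM, pB, zero_mul, mul_zero, sub_zero, Prod.mk_eq_zero] at hR h8 hBA ht hw hle
  obtain ⟨r1, r2, r3, r4, r5, r6⟩ := hR
  obtain ⟨t1, t2⟩ := abs_le.1 ht
  obtain ⟨-, w2⟩ := abs_le.1 hw
  have hq := hM.2.2.2.2.2.2.2.2.2.2 (t, 0, 0, wa)
  have a2 : (Fo (t, 0, 0, wa)).2.1 = 0 := by linarith
  have a3 : (Fo (t, 0, 0, wa)).2.2.1 = 0 := by linarith
  simp only [qq, a2, a3] at hq
  have a1 : (Fo (t, 0, 0, wa)).1 = 17 / 4 - (t - 17 / 4) := by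
    have : ((Fo (t, 0, 0, wa)).1 - 17 / 4 - (t - 17 / 4)) *
        ((Fo (t, 0, 0, wa)).1 - 17 / 4 + (t - 17 / 4)) = 0 := by linarith
    rcases mul_eq_zero.1 this with h | h <;> linarith
  have a4 := axis_FLimChar t wa
  have a5 := axis_FLimChar t w
  set φ := phO ((t - 17 / 4) ^ 2) with hφ
  have b0 := Real.sin_sq_add_cos_sq φ
  have b1 : Real.cos φ ^ 2 + Real.sin φ ^ 2 * Real.cos (th wa) = -1 :=
    mul_left_cancel₀ (a := t - 17 / 4) (by linarith) (by linarith)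
  have b2 := Real.neg_one_le_cos (th wa)
  have b3 : Real.cos φ ^ 2 = 0 := trig_FLimChar b0 b1 b2
  have b4 : Real.sin φ ^ 2 = 1 := by linarith
  have b5 : Real.cos (th wa) = -1 := by rw [b3, b4] at b1; linarith
  have b6 : wa = 0 := by
    have h1 : Real.cos (Real.pi * St (wa + 1 / 2)) ^ 2 = 0 := by
      rw [th, mul_assoc, Real.cos_two_mul] at b5
      linarith
    have := half_FLimChar hS (pow_eq_zero_iff two_ne_zero |>.1 h1)
    linarith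
  have b7 : (t - 17 / 4) ^ 2 = 59513 / 3200 := by
    have := half_FLimChar hS (x := ((t - 17 / 4) ^ 2 - 1849 / 100) * (320 / 69))
      (pow_eq_zero_iff two_ne_zero |>.1 b3)
    linarith
  have b8 : wb = 0 := by linarith
  subst b6 b8
  rw [b3, b4] at a5
  have c1 : (17 / 4 - t) * Real.cos (th w) = 15 / 4 := by linarith
  rw [flat_FLimChar hS] at h8 hBA r4 r5
  simp only at h8 hBA r4 r5
  subst r5
  set ψ := 2 * phO (qq (17 / 4) (t + 2, z1, 0, 0)) with hψ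
  have d0 := Real.sin_sq_add_cos_sq ψ
  set r := Real.cos ψ * (t + 2 - 17 / 4) + Real.sin ψ * z1 with hr
  have d1 : r * Real.cos ψ = t - 9 / 4 := by
    rw [hr]; linear_combination (t - 9 / 4) * d0 + Real.sin ψ * r4
  have d2 : z1 = r * Real.sin ψ := by
    rw [hr]; linear_combination (-z1) * d0 + Real.cos ψ * r4
  have d3 : qq (17 / 4) (t + 2, z1, 0, 0) = r ^ 2 := by
    have : t + 2 - 17 / 4 = r * Real.cos ψ := by linarith
    simp only [qq]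
    rw [this]
    nth_rewrite 1 [d2]
    linear_combination r ^ 2 * d0
  clear_value r ψ φ
  rw [d3] at hψ
  have d4 : 0 < r := by linarith
  refine ⟨neg_FLimChar t2 b7, b7, rfl, rfl, rfl, lt_of_le_of_ne hle ?_, lt_of_le_of_ne w2 ?_, c1,
    r, ?_, lt_of_le_of_ne (by linarith) ?_, by rw [← hψ]; exact d1, by rw [← hψ]; exact d2⟩
  · intro h
    have h : 0 = w := h
    rw [← h, th0_FLimChar hS, Real.cos_pi] at c1
    linarith
  · intro h
    have h : w = 1 / 2 := h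
    have e : St (1 / 2 + 1 / 2) = 1 := Real.smoothTransition.one_of_one_le (by norm_num)
    rw [h, th, e, mul_one, Real.cos_two_pi] at c1
    linarith
  · by_contra h
    have e : St ((r ^ 2 - 1849 / 100) * (320 / 69)) = 0 :=
      Real.smoothTransition.zero_of_nonpos (sq_FLimChar d4 (not_lt.1 h))
    rw [hψ, phO, e, mul_zero, mul_zero, Real.cos_zero] at d1
    linarith
  · intro h
    have h : r = 17 / 4 - t := h
    have e : r ^ 2 = (t - 17 / 4) ^ 2 := by rw [h]; ring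
    rw [hψ, e, ← hφ, Real.cos_two_mul, b3] at d1
    linarith

end Pool.Agent.MP_2fc7fa_gt.N.Fp

end
end

section

/-! Existence and uniqueness of the solution of the limit system. -/

open Set

noncomputable section

namespace Pool.Agent.MP_2fc7fa_gt.N.Fp

theorem cont_St_FLimEx : Continuous St := Real.smoothTransition.continuous

theorem St0_FLimEx : St 0 = 0 := Real.smoothTransition.zero

theorem St1_FLimEx : St 1 = 1 := Real.smoothTransition.one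

theorem cont_phO_FLimEx : Continuous phO := by
  unfold phO
  exact continuous_const.mul (cont_St_FLimEx.comp (by fun_prop))

theorem cont_th_FLimEx : Continuous th := by
  unfold th
  exact continuous_const.mul (cont_St_FLimEx.comp (by fun_prop))

theorem ex_FLimEx (hS : StStmt) : ∃ X, LimSol X := by
  obtain ⟨ra, hra0, hra⟩ : ∃ ra : ℝ, 0 ≤ ra ∧ ra ^ 2 = 59513 / 3200 :=
    ⟨Real.sqrt (59513 / 3200), Real.sqrt_nonneg _, Real.sq_sqrt (by norm_num)⟩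
  have h1 : 43 / 10 < ra := by nlinarith
  have hg : Continuous fun r : ℝ => r * Real.cos (2 * phO (r ^ 2)) :=
    continuous_id.mul (Real.continuous_cos.comp
      (continuous_const.mul (cont_phO_FLimEx.comp (by fun_prop))))
  have e1 : phO ((43 / 10 : ℝ) ^ 2) = 0 := by
    unfold phO
    rw [show ((43 / 10 : ℝ) ^ 2 - 1849 / 100) * (320 / 69) = 0 by norm_num, St0_FLimEx, mul_zero]
  have e2 : phO (ra ^ 2) = Real.pi / 2 := by
    unfold phO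
    rw [hra, show ((59513 / 3200 : ℝ) - 1849 / 100) * (320 / 69) = 1 / 2 by norm_num, hS.1]
    ring
  obtain ⟨r, hr, hr'⟩ := intermediate_value_Ioo' h1.le hg.continuousOn
    (show 2 - ra ∈ Ioo (ra * Real.cos (2 * phO (ra ^ 2)))
      ((43 / 10 : ℝ) * Real.cos (2 * phO ((43 / 10 : ℝ) ^ 2))) by
      rw [e1, e2, mul_zero, Real.cos_zero, show 2 * (Real.pi / 2) = Real.pi by ring, Real.cos_pi]
      constructor <;> linarith)
  have hh : Continuous fun w : ℝ => ra * Real.cos (th w) :=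
    continuous_const.mul (Real.continuous_cos.comp cont_th_FLimEx)
  have e3 : th 0 = Real.pi := by
    unfold th
    rw [zero_add, hS.1]
    ring
  have e4 : th (1 / 2) = 2 * Real.pi := by
    unfold th
    rw [show (1 / 2 : ℝ) + 1 / 2 = 1 by norm_num, St1_FLimEx, mul_one]
  obtain ⟨w, hw, hw'⟩ := intermediate_value_Ioo (show (0 : ℝ) ≤ 1 / 2 by norm_num) hh.continuousOn
    (show (15 / 4 : ℝ) ∈ Ioo (ra * Real.cos (th 0)) (ra * Real.cos (th (1 / 2))) by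
      rw [e3, e4, Real.cos_pi, Real.cos_two_pi]
      constructor <;> linarith)
  refine ⟨(17 / 4 - ra, r * Real.sin (2 * phO (r ^ 2)), 0, 0, w, 0), ?_, ?_, rfl, rfl, rfl, hw.1,
    hw.2, ?_, r, hr.1, ?_, ?_, rfl⟩
  · show 17 / 4 - ra < 0
    linarith
  · show (17 / 4 - ra - 17 / 4) ^ 2 = 59513 / 3200
    rw [← hra]
    ring
  · show (17 / 4 - (17 / 4 - ra)) * Real.cos (th w) = 15 / 4
    rw [sub_sub_cancel]
    exact hw'
  · show r < 17 / 4 - (17 / 4 - ra)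
    rw [sub_sub_cancel]
    exact hr.2
  · show r * Real.cos (2 * phO (r ^ 2)) = 17 / 4 - ra - 9 / 4
    have h : r * Real.cos (2 * phO (r ^ 2)) = 2 - ra := hr'
    linarith

theorem r_lt_FLimEx (hS : StStmt) {ra r r' c : ℝ} (hra : ra ^ 2 = 59513 / 3200) (hc : c < 0)
    (h1 : 43 / 10 < r) (h2 : r < r') (h3 : r' < ra) (e : r * Real.cos (2 * phO (r ^ 2)) = c)
    (e' : r' * Real.cos (2 * phO (r' ^ 2)) = c) : False := by
  have hpi := Real.pi_pos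
  have a1 : (0 : ℝ) ≤ (r ^ 2 - 1849 / 100) * (320 / 69) := by nlinarith
  have a2 : (r ^ 2 - 1849 / 100) * (320 / 69) ≤ (r' ^ 2 - 1849 / 100) * (320 / 69) := by nlinarith
  have a3 : (r' ^ 2 - 1849 / 100) * (320 / 69) ≤ 1 / 2 := by nlinarith
  have m := hS.2.1.monotoneOn
  have b1 : St ((r ^ 2 - 1849 / 100) * (320 / 69)) ≤ St ((r' ^ 2 - 1849 / 100) * (320 / 69)) :=
    m ⟨a1, by linarith⟩ ⟨by linarith, by linarith⟩ a2
  have b2 : St ((r' ^ 2 - 1849 / 100) * (320 / 69)) ≤ St (1 / 2) :=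
    m ⟨by linarith, by linarith⟩ ⟨by norm_num, by norm_num⟩ a3
  have b0 : 0 ≤ St ((r ^ 2 - 1849 / 100) * (320 / 69)) := Real.smoothTransition.nonneg _
  rw [hS.1] at b2
  have c1 : Real.cos (2 * phO (r' ^ 2)) ≤ Real.cos (2 * phO (r ^ 2)) := by
    unfold phO
    apply Real.cos_le_cos_of_nonneg_of_le_pi <;> nlinarith
  have c2 : Real.cos (2 * phO (r ^ 2)) < 0 := by
    by_contra h
    have := mul_nonneg (show 0 ≤ r by linarith) (not_lt.1 h)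
    linarith
  nlinarith

theorem w_eq_FLimEx (hS : StStmt) {w w' : ℝ} (h1 : 0 < w) (h2 : w < 1 / 2) (h1' : 0 < w')
    (h2' : w' < 1 / 2) (e : Real.cos (th w) = Real.cos (th w')) : w = w' := by
  have hpi := Real.pi_pos
  have key : ∀ x : ℝ, 0 < x → x < 1 / 2 → 2 * Real.pi - th x ∈ Icc 0 Real.pi := fun x a b => by
    have b1 : St (1 / 2) ≤ St (x + 1 / 2) :=
      hS.2.1.monotoneOn ⟨by norm_num, by norm_num⟩ ⟨by linarith, by linarith⟩ (by linarith)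
    have b2 : St (x + 1 / 2) ≤ 1 := Real.smoothTransition.le_one _
    rw [hS.1] at b1
    unfold th
    constructor <;> nlinarith
  have e1 : 2 * Real.pi - th w = 2 * Real.pi - th w' :=
    Real.injOn_cos (key w h1 h2) (key w' h1' h2') (by
      rw [Real.cos_two_pi_sub, Real.cos_two_pi_sub, e])
  have e2 : St (w + 1 / 2) = St (w' + 1 / 2) := by
    unfold th at e1
    have : 2 * Real.pi * St (w + 1 / 2) = 2 * Real.pi * St (w' + 1 / 2) := by linarith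
    exact mul_left_cancel₀ (by positivity) this
  have e3 := hS.2.1.injOn (show w + 1 / 2 ∈ Icc (0 : ℝ) 1 from ⟨by linarith, by linarith⟩)
    (show w' + 1 / 2 ∈ Icc (0 : ℝ) 1 from ⟨by linarith, by linarith⟩) e2
  linarith

theorem limExS (hS : StStmt) : LimExStmt := by
  refine ⟨ex_FLimEx hS, ?_⟩
  rintro ⟨t, z1, z2, u, w, b⟩ ⟨t', z1', z2', u', w', b'⟩
    ⟨h1, h2, h3, h4, h5, h6, h7, h8, r, h9, h10, h11, h12⟩
    ⟨g1, g2, g3, g4, g5, g6, g7, g8, r', g9, g10, g11, g12⟩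
  dsimp only at h1 h2 h3 h4 h5 h6 h7 h8 h10 h11 h12 g1 g2 g3 g4 g5 g6 g7 g8 g10 g11 g12
  have et : t = t' := by
    have : (t - t') * (t + t' - 17 / 2) = 0 := by linarith
    rcases mul_eq_zero.1 this with h | h <;> linarith
  subst et
  have hra : (17 / 4 - t) ^ 2 = 59513 / 3200 := by linarith
  have er : r = r' := by
    rcases lt_trichotomy r r' with h | h | h
    · exact (r_lt_FLimEx hS hra (by linarith) h9 h g10 h11 g11).elim
    · exact h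
    · exact (r_lt_FLimEx hS hra (by linarith) g9 h h10 g11 h11).elim
  subst er
  have ew : w = w' := w_eq_FLimEx hS h6 h7 g6 g7
    (mul_left_cancel₀ (show (17 / 4 - t) ≠ 0 by linarith) (h8.trans g8.symm))
  rw [h3, h4, h5, h12, g3, g4, g5, g12, ew]

end Pool.Agent.MP_2fc7fa_gt.N.Fp

end
end

section

/-! The limit solution solves the reduced system and satisfies the open conditions. -/

open Set

noncomputable section

namespace Pool.Agent.MP_2fc7fa_gt.N.Fp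

lemma th0_FLimGood (hS : StStmt) : th 0 = Real.pi := by
  unfold th
  rw [zero_add, hS.1]; ring

lemma ph_FLimGood (hS : StStmt) : phO (59513 / 3200) = Real.pi / 2 := by
  unfold phO
  have h : ((59513 / 3200 : ℝ) - 1849 / 100) * (320 / 69) = 1 / 2 := by norm_num
  rw [h, hS.1]; ring

lemma axis_FLimGood (hS : StStmt) (t w : ℝ) (h : (t - 17 / 4) ^ 2 = 59513 / 3200) :
    Fo (t, 0, 0, w) = ((t - 17 / 4) * Real.cos (th w) + 17 / 4,
      (t - 17 / 4) * Real.sin (th w) ^ 2,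
      -((t - 17 / 4) * Real.sin (th w) * Real.cos (th w)), w) := by
  have hq : qq (17 / 4) ((t, 0, 0, w) : P4) = 59513 / 3200 := by
    simp only [qq]; rw [h]; ring
  unfold Fo tw
  rw [hq, ph_FLimGood hS]
  simp only [sh, rX, rN, rP, one_mul, Real.cos_neg, Real.sin_neg, Real.cos_pi_div_two,
    Real.sin_pi_div_two, Prod.mk.injEq, and_true]
  refine ⟨by ring, by ring, by ring⟩

lemma refl_FLimGood (hS : StStmt) (u z r : ℝ)
    (h1 : r * Real.cos (2 * phO (r ^ 2)) = u - 17 / 4) (h2 : z = r * Real.sin (2 * phO (r ^ 2))) :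
    qq (17 / 4) ((u, z, 0, 0) : P4) = r ^ 2 ∧ Fo (u, z, 0, 0) = (r + 17 / 4, 0, 0, 0) := by
  have hq : qq (17 / 4) ((u, z, 0, 0) : P4) = r ^ 2 := by
    simp only [qq]
    rw [← h1, h2]
    linear_combination r ^ 2 * Real.cos_sq_add_sin_sq (2 * phO (r ^ 2))
  refine ⟨hq, ?_⟩
  unfold Fo tw
  rw [hq]
  have hu : u + -(17 / 4) = r * Real.cos (2 * phO (r ^ 2)) := by rw [h1]; ring
  simp only [sh, rX, rN, rP, one_mul, Real.cos_neg, Real.sin_neg, th0_FLimGood hS, Real.cos_pi,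
    Real.sin_pi, Prod.mk.injEq, and_true, hu]
  rw [h2, Real.cos_two_mul', Real.sin_two_mul]
  have hc := Real.cos_sq_add_sin_sq (phO (r ^ 2))
  generalize Real.cos (phO (r ^ 2)) = c at hc ⊢
  generalize Real.sin (phO (r ^ 2)) = n at hc ⊢
  refine ⟨?_, ?_, ?_⟩
  · linear_combination r * (c ^ 2 + n ^ 2 + 1) * hc
  · ring
  · ring

theorem limGoodS (hS : StStmt) (hM : ModelStmt) : LimGoodStmt := by
  rintro k ⟨t, z1, z2, w', w, wb⟩ hk hk' ⟨ht, hs, h2, h3, h4, hw, hw', hc, r, hr, hr', hr1, hr2⟩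
  simp only at ht hs h2 h3 h4 hw hw' hc hr' hr1 hr2
  subst h2 h3 h4
  have hA : pA 0 ((t, z1, 0, 0, w, 0) : E6) = (t, 0, 0, 0) := by simp [pA]
  have hMm : pM 0 ((t, z1, 0, 0, w, 0) : E6) = (t, 0, 0, w) := by simp [pM]
  have hB : pB ((t, z1, 0, 0, w, 0) : E6) = (t + 2, z1, 0, 0) := by simp [pB]
  have eA := axis_FLimGood hS t 0 hs
  rw [th0_FLimGood hS, Real.cos_pi, Real.sin_pi] at eA
  have eM := axis_FLimGood hS t w hs
  obtain ⟨qB, eB⟩ := refl_FLimGood hS (t + 2) z1 r (by rw [hr1]; ring) hr2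
  have qA : qq (17 / 4) ((t, 0, 0, 0) : P4) = 59513 / 3200 := by
    simp only [qq]; rw [hs]; ring
  have ht1 : -7 / 100 < t := by nlinarith
  have ht2 : t < -6 / 100 := by nlinarith
  have hz : |z1| < 5 := by
    rw [hr2, abs_mul, abs_of_pos (by linarith : (0 : ℝ) < r)]
    have := Real.abs_sin_le_one (2 * phO (r ^ 2))
    nlinarith
  have hm : (t - 17 / 4) * Real.cos (th w) + 17 / 4 = 1 / 2 := by linarith
  constructor
  · simp only [Red, hA, hMm, hB, eA, eM, eB, hm, Prod.mk_eq_zero]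
    refine ⟨by ring, by ring, by ring, by ring, by ring, by ring⟩
  · simp only [Good, mem_setOf_eq, hA, hMm, hB, eA, eM, eB, hm, qA, qB]
    refine ⟨by linarith, ht, hz, by norm_num, by norm_num, by nlinarith, by linarith, by linarith,
      by linarith, by linarith, by norm_num, by linarith, hw, by nlinarith⟩

end Pool.Agent.MP_2fc7fa_gt.N.Fp

end
end

section

/-! Transfer of transversality from the reduced system to the counting problem. -/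

open scoped ContDiff Topology
open Set Filter

noncomputable section

namespace Pool.Agent.MP_2fc7fa_gt.N.Fp

theorem fst_FNondeg {A B : Type} [NormedAddCommGroup A] [NormedSpace ℝ A] [NormedAddCommGroup B]
    [NormedSpace ℝ B] {f : ℝ → A × B} {v : A × B} (h : HasDerivAt f v 0) :
    HasDerivAt (fun τ => (f τ).1) v.1 0 :=
  (ContinuousLinearMap.fst ℝ A B).hasFDerivAt.comp_hasDerivAt 0 h

theorem snd_FNondeg {A B : Type} [NormedAddCommGroup A] [NormedSpace ℝ A] [NormedAddCommGroup B]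
    [NormedSpace ℝ B] {f : ℝ → A × B} {v : A × B} (h : HasDerivAt f v 0) :
    HasDerivAt (fun τ => (f τ).2) v.2 0 :=
  (ContinuousLinearMap.snd ℝ A B).hasFDerivAt.comp_hasDerivAt 0 h

theorem nsq_FNondeg : Differentiable ℝ nsq := fun _ =>
  (differentiableAt_fst.norm_sq ℂ).add (differentiableAt_snd.norm_sq ℂ)

theorem phi_FNondeg {F : W → W} (hF : Differentiable ℝ F) : Differentiable ℝ (Phi F) := by
  have hn := nsq_FNondeg
  unfold Phi det2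
  fun_prop

/-- The inverse of the parametrisation of triples. -/
def Ups_FNondeg (k e : ℝ) (y : W × ℝ × ℝ) : E6 :=
  ((Lam' y.1).1, ((Lam' y.1).2.1 - 1) / e, (Lam' y.1).2.2.1 / e, (Lam' y.1).2.2.2 / k,
    ((Lam' y.1).2.2.2 + y.2.1) / k, ((Lam' y.1).2.2.2 + y.2.2 + (Lam' y.1).1) / e)

theorem xi_ups_FNondeg (hL : LamStmt) {k e : ℝ} (hk : k ≠ 0) (he : e ≠ 0) (y : W × ℝ × ℝ)
    (hy : y.1.1 ≠ 0) : Xi k e (Ups_FNondeg k e y) = y := by
  have h1 : cA k e (Ups_FNondeg k e y) = Lam' y.1 := by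
    simp only [cA, Ups_FNondeg]
    ext <;> simp only <;> field_simp
    ring
  unfold Xi
  rw [h1, hL.2.2.1 _ hy]
  simp only [Ups_FNondeg]
  refine Prod.ext rfl (Prod.ext ?_ ?_) <;> simp only <;> field_simp <;> ring

theorem ups_xi_FNondeg (hL : LamStmt) {k e : ℝ} (hk : k ≠ 0) (he : e ≠ 0) (X : E6)
    (hX : |X.1| < 37 / 2) : Ups_FNondeg k e (Xi k e X) = X := by
  have h1 : Lam' (Xi k e X).1 = cA k e X := (hL.2.2.2.1 (cA k e X) hX).1
  unfold Ups_FNondeg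
  rw [h1]
  simp only [cA, Xi]
  ext <;> simp only <;> field_simp <;> ring

theorem ups_diff_FNondeg (hL : LamStmt) (k e : ℝ) (y : W × ℝ × ℝ)
    (hy : y.1.1 ∈ Complex.slitPlane) : DifferentiableAt ℝ (Ups_FNondeg k e) y := by
  have ho : IsOpen {z : W | z.1 ∈ Complex.slitPlane} :=
    Complex.isOpen_slitPlane.preimage continuous_fst
  have h1 : DifferentiableAt ℝ Lam' y.1 :=
    (hL.2.1.contDiffAt (ho.mem_nhds hy)).differentiableAt (by simp)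
  unfold Ups_FNondeg
  generalize Lam' = G at h1 ⊢
  fun_prop

theorem phi_xi_FNondeg (hL : LamStmt) (hLoc : LocalStmt) {k e : ℝ} {F : W → W} (hp : Par k e)
    (hF : IsF k e F) (Y : E6) (hY : (e / k, Y) ∈ Good k) :
    Phi F (Xi k e Y) = (det2 (Lam (tA k e Y)) (Lam (tB k Y)),
      nsq (Lam (tB k Y)) - nsq (Lam (tA k e Y)), det2 (Lam (tB k Y)) (Lam (tM k e Y)),
      nsq (Lam (tM k e Y)) - nsq (Lam (tB k Y))) := by
  obtain ⟨h1, h2, h3⟩ := hLoc k e F Y hp hF hY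
  have a1 : Real.exp (Xi k e Y).2.1 • (Xi k e Y).1 = Lam (cM k e Y) := by
    simp only [Xi]
    rw [hL.2.2.2.2.2.2.1]
    simp only [cA, cM, add_sub_cancel]
  have a2 : Real.exp (Xi k e Y).2.2 • (Xi k e Y).1 = Lam (cB e Y) := by
    simp only [Xi]
    rw [hL.2.2.2.2.2.2.1]
    simp only [cA, cB, add_sub_cancel]
  have a3 : (Xi k e Y).1 = Lam (cA k e Y) := rfl
  unfold Phi
  rw [a1, a2, a3, h1, h2, h3]

theorem red_FNondeg {k : ℝ} (hk : k ≠ 0) (e : ℝ) (Y : E6) :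
    Red k (e / k, Y) = (((tB k Y).2 - (tA k e Y).2).1 / k, ((tB k Y).2 - (tA k e Y).2).2.1 / k,
      ((tB k Y).2 - (tA k e Y).2).2.2 / k, ((tB k Y).2 - (tM k e Y).2).1 / k,
      ((tB k Y).2 - (tM k e Y).2).2.1 / k, ((tB k Y).2 - (tM k e Y).2).2.2) := by
  simp only [Red, tA, tB, tM, Prod.fst_sub, Prod.snd_sub]
  ext <;> simp only <;> field_simp <;> ring

theorem nondegS (hM : ModelStmt) (hP : ProfStmt) (hL : LamStmt) (hLoc : LocalStmt)
    (hTop : TopStmt) (hPair : PairStmt) : NondegStmt := by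
  intro k e F X hp hF hG hR hinj
  have he : e ≠ 0 := hp.pos.ne'
  have hk : k ≠ 0 := by
    have := hp.pos
    have := hp.le
    exact ne_of_gt (by linarith)
  have hX : |X.1| < 37 / 2 := by
    have h1 : -1 / 10 < X.1 := hG.1
    have h2 : X.1 < 0 := hG.2.1
    rw [abs_lt]
    constructor <;> linarith
  have hPhi := (phi_FNondeg (hF.smooth.differentiable (by simp)) (Xi k e X)).hasFDerivAt
  refine ⟨_, hPhi, (injective_iff_map_eq_zero _).2 fun v hv => ?_⟩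
  let γ : ℝ → W × ℝ × ℝ := fun τ => Xi k e X + τ • v
  have hγ0 : γ 0 = Xi k e X := by simp [γ]
  have hγ : HasDerivAt γ v 0 := by
    have := ((hasDerivAt_id (0 : ℝ)).smul_const v).const_add (Xi k e X)
    rwa [one_smul] at this
  have hU : DifferentiableAt ℝ (Ups_FNondeg k e) (γ 0) :=
    ups_diff_FNondeg hL k e _ (by rw [hγ0]; exact (hL.2.2.2.1 (cA k e X) hX).2.1)
  let Y : ℝ → E6 := fun τ => Ups_FNondeg k e (γ τ)
  have hY0 : Y 0 = X := by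
    simp only [Y]
    rw [hγ0, ups_xi_FNondeg hL hk he X hX]
  have hYd : DifferentiableAt ℝ Y 0 := hU.comp 0 hγ.differentiableAt
  have e1 : ∀ᶠ τ in 𝓝 (0 : ℝ), Xi k e (Y τ) = γ τ := by
    have hc : ContinuousAt (fun τ => (γ τ).1.1) 0 := hγ.continuousAt.fst.fst
    refine (hc.eventually_ne (y := 0) ?_).mono fun τ hτ => xi_ups_FNondeg hL hk he _ hτ
    rw [hγ0]
    exact hL.2.2.2.2.2.2.2.2.1 _
  have e2 : ∀ᶠ τ in 𝓝 (0 : ℝ), (e / k, Y τ) ∈ Good k := by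
    have hc : ContinuousAt (fun τ => (e / k, Y τ)) 0 :=
      continuousAt_const.prodMk hYd.continuousAt
    exact hc.eventually_mem ((hTop.2 k).1.mem_nhds (by rw [hY0]; exact hG))
  have d1 : HasDerivAt (fun τ => Phi F (γ τ)) 0 0 := by
    have := HasFDerivAt.comp_hasDerivAt (0 : ℝ) (hγ0.symm ▸ hPhi) hγ
    rwa [hγ0, hv] at this
  have d2 : HasDerivAt (fun τ => (det2 (Lam (tA k e (Y τ))) (Lam (tB k (Y τ))),
      nsq (Lam (tB k (Y τ))) - nsq (Lam (tA k e (Y τ))),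
      det2 (Lam (tB k (Y τ))) (Lam (tM k e (Y τ))),
      nsq (Lam (tM k e (Y τ))) - nsq (Lam (tB k (Y τ))))) 0 0 := by
    refine d1.congr_of_eventuallyEq ?_
    filter_upwards [e1, e2] with τ h1 h2
    rw [← h1, phi_xi_FNondeg hL hLoc hp hF _ h2]
  have hFo : Differentiable ℝ Fo := hM.2.2.2.2.1.differentiable (by simp)
  have dA : DifferentiableAt ℝ (fun τ => tA k e (Y τ)) 0 := by
    unfold tA pA
    generalize Fo = G at hFo ⊢
    fun_prop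
  have dM : DifferentiableAt ℝ (fun τ => tM k e (Y τ)) 0 := by
    unfold tM pM
    generalize Fo = G at hFo ⊢
    fun_prop
  have dB : DifferentiableAt ℝ (fun τ => tB k (Y τ)) 0 := by
    unfold tB pB
    generalize Fo = G at hFo ⊢
    fun_prop
  rw [red_FNondeg hk] at hR
  simp only [Prod.mk_eq_zero, div_eq_zero_iff, hk, or_false] at hR
  have z1 : (tA k e (Y 0)).2 = (tB k (Y 0)).2 := by
    rw [hY0]
    exact (sub_eq_zero.1 (Prod.ext hR.1 (Prod.ext hR.2.1 hR.2.2.1))).symm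
  have z2 : (tB k (Y 0)).2 = (tM k e (Y 0)).2 := by
    rw [hY0]
    exact sub_eq_zero.1 (Prod.ext hR.2.2.2.1 (Prod.ext hR.2.2.2.2.1 hR.2.2.2.2.2))
  have p1 := hPair _ _ _ _ dA.hasDerivAt dB.hasDerivAt z1 (fst_FNondeg d2)
    (fst_FNondeg (snd_FNondeg d2))
  have p2 := hPair _ _ _ _ dB.hasDerivAt dM.hasDerivAt z2
    (fst_FNondeg (snd_FNondeg (snd_FNondeg d2))) (snd_FNondeg (snd_FNondeg (snd_FNondeg d2)))
  have q1 : HasDerivAt (fun τ => (tB k (Y τ)).2 - (tA k e (Y τ)).2) 0 0 := by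
    have := (snd_FNondeg dB.hasDerivAt).sub (snd_FNondeg dA.hasDerivAt)
    rwa [p1, sub_self] at this
  have q2 : HasDerivAt (fun τ => (tB k (Y τ)).2 - (tM k e (Y τ)).2) 0 0 := by
    have := (snd_FNondeg dB.hasDerivAt).sub (snd_FNondeg dM.hasDerivAt)
    rwa [p2, sub_self] at this
  have r1 : HasDerivAt (fun τ => Red k (e / k, Y τ)) 0 0 := by
    simp only [red_FNondeg hk]
    have := ((fst_FNondeg q1).div_const k).prodMk
      (((fst_FNondeg (snd_FNondeg q1)).div_const k).prodMk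
      (((snd_FNondeg (snd_FNondeg q1)).div_const k).prodMk
      (((fst_FNondeg q2).div_const k).prodMk
      (((fst_FNondeg (snd_FNondeg q2)).div_const k).prodMk (snd_FNondeg (snd_FNondeg q2))))))
    simp only [Prod.fst_zero, Prod.snd_zero, zero_div] at this
    exact this
  have hRd : DifferentiableAt ℝ (fun Y => Red k (e / k, Y)) (Y 0) :=
    (((hTop.2 k).2.differentiable one_ne_zero) _).comp _
      ((differentiableAt_const _).prodMk differentiableAt_id)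
  have r2 := (hRd.hasFDerivAt.comp_hasDerivAt (0 : ℝ) hYd.hasDerivAt).unique r1
  rw [hY0] at r2
  have hu : deriv Y 0 = 0 := hinj (r2.trans (map_zero _).symm)
  have hLam : Differentiable ℝ Lam := hL.1.differentiable (by simp)
  have hXi : DifferentiableAt ℝ (Xi k e) (Y 0) := by
    unfold Xi cA
    fun_prop
  have r3 := hXi.hasFDerivAt.comp_hasDerivAt (0 : ℝ) hYd.hasDerivAt
  rw [hu, map_zero] at r3
  exact (hγ.congr_of_eventuallyEq e1).unique r3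

end Pool.Agent.MP_2fc7fa_gt.N.Fp

end
end

section

/-! Two curves in the chart with the same first order equations. -/

open scoped ContDiff Topology
open Set

noncomputable section

namespace Pool.Agent.MP_2fc7fa_gt.N.Fp

lemma comp_FPair {c : ℝ → P4} {v : P4} (h : HasDerivAt c v 0) :
    HasDerivAt (fun τ => (c τ).2.1) v.2.1 0 ∧ HasDerivAt (fun τ => (c τ).2.2.1) v.2.2.1 0 ∧
      HasDerivAt (fun τ => (c τ).2.2.2) v.2.2.2 0 :=
  ⟨h.snd.fst, h.snd.snd.fst, h.snd.snd.snd⟩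

lemma nsq_FPair (hL : LamStmt) {c : ℝ → P4} {v : P4} (h : HasDerivAt c v 0) :
    HasDerivAt (fun τ => nsq (Lam (c τ)))
      (Real.exp (2 * (c 0).2.2.2) * (2 * v.2.2.2) * (1 + (c 0).2.1 ^ 2 + (c 0).2.2.1 ^ 2) +
        Real.exp (2 * (c 0).2.2.2) * (2 * (c 0).2.1 * v.2.1 + 2 * (c 0).2.2.1 * v.2.2.1)) 0 := by
  obtain ⟨h1, h2, h3⟩ := comp_FPair h
  simp only [hL.2.2.2.2.2.2.2.2.2.1]
  refine ((h3.const_mul 2).exp.mul (((h1.pow 2).const_add 1).add (h2.pow 2))).congr_deriv ?_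
  simp

theorem pairS (hL : LamStmt) : PairStmt := by
  intro c c' v v' hc hc' e hd hn
  obtain ⟨h1, h2, h3⟩ := comp_FPair hc
  obtain ⟨h1', h2', h3'⟩ := comp_FPair hc'
  have hz : ∀ {c : ℝ → P4} {v : P4}, HasDerivAt c v 0 →
      DifferentiableAt ℝ (fun τ => (Lam (c τ)).1) 0 := fun h =>
    ((hL.1.differentiable (by simp) _).comp 0 h.differentiableAt).fst
  have h4 := ((hz hc).hasDerivAt.mul (hz hc').hasDerivAt).mul
    ((h1'.ofReal_comp.add (h2'.ofReal_comp.mul_const Complex.I)).sub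
      (h1.ofReal_comp.add (h2.ofReal_comp.mul_const Complex.I)))
  have h5 := hd.unique (h4.congr_of_eventuallyEq (Filter.Eventually.of_forall fun τ => by
    simp only [det2, Lam, Pi.mul_apply, Pi.sub_apply, Pi.add_apply]
    ring))
  simp only [Pi.mul_apply, Pi.sub_apply, Pi.add_apply, e, sub_self, mul_zero, zero_add] at h5
  have h6 := (mul_eq_zero.1 h5.symm).resolve_left
    (mul_ne_zero (hL.2.2.2.2.2.2.2.2.1 _) (hL.2.2.2.2.2.2.2.2.1 _))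
  have e1 : v.2.1 = v'.2.1 := by
    have := congrArg Complex.re h6
    simp at this
    linarith
  have e2 : v.2.2.1 = v'.2.2.1 := by
    have := congrArg Complex.im h6
    simp at this
    linarith
  have h7 := hn.unique ((nsq_FPair hL hc').sub (nsq_FPair hL hc))
  rw [e, e1, e2] at h7
  have hp : 0 < Real.exp (2 * (c' 0).2.2.2) * (1 + (c' 0).2.1 ^ 2 + (c' 0).2.2.1 ^ 2) := by
    positivity
  have e3 : v.2.2.2 = v'.2.2.2 := mul_left_cancel₀ hp.ne' (by linarith)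
  exact Prod.ext e1 (Prod.ext e2 e3)

end Pool.Agent.MP_2fc7fa_gt.N.Fp

end
end

section

/-! The profile functions of part F. -/

open scoped ContDiff Topology
open Set

noncomputable section

namespace Pool.Agent.MP_2fc7fa_gt.N.Fp

lemma st0_FProf {x : ℝ} (h : x ≤ 0) : St x = 0 := Real.smoothTransition.zero_of_nonpos h

lemma st1_FProf {x : ℝ} (h : 1 ≤ x) : St x = 1 := Real.smoothTransition.one_of_one_le h

lemma stn_FProf (x : ℝ) : 0 ≤ St x := Real.smoothTransition.nonneg x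

lemma stl_FProf (x : ℝ) : St x ≤ 1 := Real.smoothTransition.le_one x

lemma stm_FProf {x y : ℝ} (h : x ≤ y) : St x ≤ St y := Real.smoothTransition.monotone h

lemma stc_FProf {f : P4 → ℝ} (h : ContDiff ℝ ∞ f) : ContDiff ℝ ∞ fun p => St (f p) :=
  Real.smoothTransition.contDiff.comp h

lemma chi0_FProf {x : ℝ} (h : 1 / 4 ≤ x ∨ x ≤ -1 / 4) : chi x = 0 := by
  refine st0_FProf ?_
  rcases h with h | h <;> nlinarith

lemma chi1_FProf {x : ℝ} (h : |x| ≤ 1 / 8) : chi x = 1 := by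
  refine st1_FProf ?_
  have := abs_le.1 h
  nlinarith

lemma chib_FProf (x : ℝ) : |x * chi x| ≤ 1 / 4 := by
  by_cases h : 1 / 4 ≤ x ∨ x ≤ -1 / 4
  · rw [chi0_FProf h]; norm_num
  · rw [not_or, not_le, not_le] at h
    have h1 : 0 ≤ chi x := stn_FProf _
    have h2 : chi x ≤ 1 := stl_FProf _
    rw [abs_le]
    constructor <;> nlinarith [h.1, h.2]

lemma kap_FProf (k e u : ℝ) (h : e ≤ k) : e ≤ kap k e u ∧ kap k e u ≤ k := by
  have h1 := stn_FProf ((u - 33 / 4) * (20 / 3))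
  have h2 := stl_FProf ((u - 1 / 10) * (20 / 3))
  have h3 : St ((u - 33 / 4) * (20 / 3)) ≤ St ((u - 1 / 10) * (20 / 3)) := stm_FProf (by linarith)
  unfold kap
  constructor <;> nlinarith

lemma cdX_FProf : ContDiff ℝ ∞ fun p : P4 => dX p.1 := by
  unfold dX s1 s2 s3
  exact ((contDiff_const.add (stc_FProf (by fun_prop))).sub (stc_FProf (by fun_prop))).add
    (stc_FProf (by fun_prop))

lemma cdY_FProf : ContDiff ℝ ∞ fun p : P4 => dY p.1 := by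
  have h2 : ContDiff ℝ ∞ fun p : P4 => s2 p.1 := stc_FProf (by fun_prop)
  have h3 : ContDiff ℝ ∞ fun p : P4 => s3 p.1 := stc_FProf (by fun_prop)
  unfold dY
  exact (h2.mul (contDiff_const.sub h2)).sub (h3.mul (contDiff_const.sub h3))

lemma crh_FProf : ContDiff ℝ ∞ fun p : P4 => rh p.1 := by
  have h2 : ContDiff ℝ ∞ fun p : P4 => chi (p.1 - 2) := stc_FProf (by fun_prop)
  have h3 : ContDiff ℝ ∞ fun p : P4 => chi (p.1 - 1 / 2) := stc_FProf (by fun_prop)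
  unfold rh
  exact (ContDiff.mul (by fun_prop) h2).sub (ContDiff.mul (by fun_prop) h3)

lemma ckap_FProf (k e : ℝ) : ContDiff ℝ ∞ fun p : P4 => kap k e p.1 := by
  unfold kap
  exact contDiff_const.add (contDiff_const.mul
    ((contDiff_const.sub (stc_FProf (by fun_prop))).add (stc_FProf (by fun_prop))))

theorem profS : ProfStmt := by
  refine ⟨kap_FProf, ?_, ?_, ?_, ?_, ?_, ?_, ?_, ?_, ?_⟩
  · rintro k e u (h | h)
    · rw [kap, st0_FProf (by linarith), st0_FProf (by linarith)]; ring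
    · rw [kap, st1_FProf (by linarith), st1_FProf (by linarith)]; ring
  · intro k e u h h'
    rw [kap, st1_FProf (by linarith), st0_FProf (by linarith)]; ring
  · rintro u (h | h)
    · have h1 : s1 u = 0 := st0_FProf (by linarith)
      have h2 : s2 u = 0 := st0_FProf (by linarith)
      have h3 : s3 u = 0 := st0_FProf (by linarith)
      rw [dX, dY, h1, h2, h3]; norm_num
    · have h' := abs_le.1 h
      have h1 : s1 u = 1 := st1_FProf (by linarith [h'.1])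
      have h2 : s2 u = 1 := st1_FProf (by linarith [h'.1])
      have h3 : s3 u = 0 := st0_FProf (by linarith [h'.2])
      rw [dX, dY, h1, h2, h3]; norm_num
  · rintro u (h | h)
    · have h' := abs_le.1 h
      have h1 : s1 u = 1 := st1_FProf (by linarith [h'.1])
      have h2 : s2 u = 0 := st0_FProf (by linarith [h'.2])
      have h3 : s3 u = 0 := st0_FProf (by linarith [h'.2])
      rw [dX, dY, h1, h2, h3]; norm_num
    · have h1 : s1 u = 1 := st1_FProf (by linarith)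
      have h2 : s2 u = 1 := st1_FProf (by linarith)
      have h3 : s3 u = 1 := st1_FProf (by linarith)
      rw [dX, dY, h1, h2, h3]; norm_num
  · rintro u (h | h)
    · rw [rh, chi0_FProf (Or.inr (by linarith)), chi0_FProf (Or.inr (by linarith))]; ring
    · rw [rh, chi0_FProf (Or.inl (by linarith)), chi0_FProf (Or.inl (by linarith))]; ring
  · intro u h
    have h' := abs_le.1 h
    rw [rh, chi1_FProf h, chi0_FProf (Or.inl (by linarith [h'.1]))]; ring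
  · intro u h
    have h' := abs_le.1 h
    rw [rh, chi1_FProf h, chi0_FProf (Or.inr (by linarith [h'.2]))]; ring
  · intro u
    have a1 := abs_le.1 (chib_FProf (u - 2))
    have a2 := abs_le.1 (chib_FProf (u - 1 / 2))
    have b1 : 0 ≤ s1 u := stn_FProf _
    have b2 : 0 ≤ s2 u := stn_FProf _
    have b3 : 0 ≤ s3 u := stn_FProf _
    have c1 : s1 u ≤ 1 := stl_FProf _
    have c2 : s2 u ≤ 1 := stl_FProf _
    have c3 : s3 u ≤ 1 := stl_FProf _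
    refine ⟨?_, ?_, ?_⟩
    · rw [rh, abs_le]
      constructor <;> linarith [a1.1, a1.2, a2.1, a2.2]
    · rw [dX, abs_le]
      constructor <;> linarith
    · rw [dY, abs_le]
      constructor <;> nlinarith
  · intro k e he hk
    have hne : ∀ u, kap k e u ≠ 0 := fun u => (he.trans_le (kap_FProf k e u hk).1).ne'
    have hk' := ckap_FProf k e
    refine ⟨?_, ?_, fun p => ?_, fun p => ?_⟩
    · unfold io
      exact contDiff_fst.prodMk ((cdX_FProf.add (hk'.mul (by fun_prop))).prodMk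
        ((cdY_FProf.add (hk'.mul (by fun_prop))).prodMk (crh_FProf.add (hk'.mul (by fun_prop)))))
    · unfold io'
      exact contDiff_fst.prodMk
        (((ContDiff.sub (by fun_prop) cdX_FProf).div hk' fun p => hne _).prodMk
        (((ContDiff.sub (by fun_prop) cdY_FProf).div hk' fun p => hne _).prodMk
          ((ContDiff.sub (by fun_prop) crh_FProf).div hk' fun p => hne _)))
    · have := hne p.1
      simp only [io, io']
      refine Prod.ext rfl (Prod.ext ?_ (Prod.ext ?_ ?_)) <;> simp only <;> field_simp <;> ring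
    · have := hne p.1
      simp only [io, io']
      refine Prod.ext rfl (Prod.ext ?_ (Prod.ext ?_ ?_)) <;> simp only <;> field_simp <;> ring

end Pool.Agent.MP_2fc7fa_gt.N.Fp

end
end

section

/-! Reduction of the counting problem to the reduced system. -/

open Set

namespace Pool.Agent.MP_2fc7fa_gt.N.Fp

lemma lift_FReduce (hM : ModelStmt) (hL : LamStmt) {k e : ℝ} {F : W → W} (hF : IsF k e F)
    (x : P4) : ∃ y, Lf k e x y ∧ F (Lam x) = Lam y ∧ |y.1 - x.1| ≤ 9 := by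
  obtain ⟨-, -, hl, -, -, hS, -⟩ := hM
  obtain ⟨-, -, -, -, l5, l6, -, l8, -, -, l11, -⟩ := hL
  rcases hF.fix (Lam x) with h | ⟨j, p, hp, h⟩
  · exact ⟨x, Or.inl rfl, h, by simp⟩
  have hj : rt j = ee ((j.val : ℤ) : ℝ) := by rw [← l8]; simp
  have h' := h
  rw [hj, l6] at h'
  obtain ⟨a1, n, a2⟩ := l5 _ _ h'
  have a3 : io k e p = sh ((j.val + 37 * n : ℤ) : ℝ) x := by
    refine Prod.ext ?_ a1.symm
    rw [a2]
    simp only [sh]
    push_cast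
    ring
  have a4 : io k e (f0 p) =
      sh ((j.val + 37 * n : ℤ) : ℝ) (sh (-((j.val + 37 * n : ℤ) : ℝ)) (io k e (f0 p))) :=
    Prod.ext (neg_add_cancel_right _ _).symm rfl
  have a5 : rt j = ee ((j.val + 37 * n : ℤ) : ℝ) := by
    rw [← l8]
    have : (37 : Zp) = 0 := rfl
    simp [this]
  have a6 : rt j ≠ 0 := by
    rw [hj, ← norm_ne_zero_iff, l11]
    exact one_ne_zero
  refine ⟨_, Or.inr ⟨p, _, hp, a3, a4⟩, smul_right_injective W a6 ?_, ?_⟩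
  · change rt j • F (Lam x) = rt j • Lam _
    rw [← hF.equiv, h, hF.mv p hp, a5, l6, ← a4]
  · have b1 := (hS p hp).1
    have b2 := (hS (f0 p) fun h => hp (hl.injective h)).1
    have b3 : p.1 = x.1 + ((j.val + 37 * n : ℤ) : ℝ) := congrArg Prod.fst a3
    have b4 : ∀ q : P4, qq (17 / 4) q ≤ (173 / 40) ^ 2 → |q.1 - 17 / 4| ≤ 173 / 40 := fun q hq =>
      abs_le_of_sq_le_sq (by unfold qq at hq; nlinarith [sq_nonneg q.2.1, sq_nonneg q.2.2.1])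
        (by norm_num)
    have b5 := abs_le.1 (b4 _ b1)
    have b6 := abs_le.1 (b4 _ b2)
    change |(f0 p).1 + -((j.val + 37 * n : ℤ) : ℝ) - x.1| ≤ 9
    rw [abs_le]
    constructor <;> linarith [b5.1, b5.2, b6.1, b6.2]

lemma cmp_FReduce (hL : LamStmt) {y y' : P4} {t D : ℝ} (h1 : |y.1 - t| ≤ 9) (h2 : |y'.1 - t| ≤ 9)
    (hD : |D| ≤ 7) (h : Lam y' = ee D • Lam y) : y.2 = y'.2 ∧ y'.1 - y.1 = D := by
  obtain ⟨-, -, -, -, l5, l6, -⟩ := hL
  rw [l6] at h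
  obtain ⟨a1, n, a2⟩ := l5 _ _ h.symm
  change y'.1 = y.1 + D + 37 * n at a2
  rw [abs_le] at h1 h2 hD
  have b1 : (n : ℝ) < 1 := by linarith [h1.1, h2.2, hD.1]
  have b2 : (-1 : ℝ) < n := by linarith [h1.2, h2.1, hD.2]
  have b3 : n = 0 := by
    have c1 : n < 1 := by exact_mod_cast b1
    have c2 : -1 < n := by exact_mod_cast b2
    omega
  rw [b3] at a2
  exact ⟨a1, by rw [a2]; simp⟩

theorem reduceS (hM : ModelStmt) (hP : ProfStmt) (hL : LamStmt) (hC : CoarseStmt) :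
    ReduceStmt := by
  intro k e F hk hF z α β hz hα hβ D₁ hD₁ D₂ hD₂ e1 e2
  obtain ⟨-, -, l3, -, -, l6, l7, l8, l9, -, l11, -⟩ := id hL
  by_cases h0 : z.1 = 0
  · exfalso
    have hfix : ∀ w : W, w.1 = 0 → F w = w := fun w hw => (hF.fix w).resolve_right (by
      rintro ⟨j, p, -, h⟩
      refine l9 (io k e p) ?_
      rw [← h, Prod.smul_fst, hw, smul_zero])
    rw [hfix z h0, hfix _ (by rw [Prod.smul_fst, h0, smul_zero])] at e1
    have := congrArg norm e1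
    rw [norm_smul, norm_smul, l11, Real.norm_eq_abs, abs_of_pos (Real.exp_pos β)] at this
    have h1 := mul_right_cancel₀ (norm_ne_zero_iff.2 hz) this
    rw [Real.exp_eq_one_iff] at h1
    linarith
  obtain ⟨⟨θ, a, b, ρ⟩, rfl⟩ : ∃ x, Lam x = z := ⟨_, l3 z h0⟩
  rw [l7] at e1 e2
  rw [l7] at e2
  obtain ⟨y₁, a1, a2, a3⟩ := lift_FReduce hM hL hF (θ, a, b, ρ)
  obtain ⟨y₂, b1, b2, b3⟩ := lift_FReduce hM hL hF (θ, a, b, ρ + α)
  obtain ⟨y₃, c1, c2, c3⟩ := lift_FReduce hM hL hF (θ, a, b, ρ + β)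
  obtain ⟨d1, d2⟩ := cmp_FReduce hL a3 c3 (abs_le.2 ⟨by linarith [hD₁.1], by linarith [hD₁.2]⟩)
    (c2.symm.trans (e1.trans (congrArg _ a2)))
  obtain ⟨d3, d4⟩ := cmp_FReduce hL b3 c3 (abs_le.2 ⟨by linarith [hD₂.1], hD₂.2⟩)
    (c2.symm.trans (e2.trans (congrArg _ b2)))
  obtain ⟨X, n, x1, x2, x3, x4, x5⟩ := hC k e θ a b ρ (ρ + α) (ρ + β) y₁ y₂ y₃ hk (by linarith)
    (by linarith) a1 b1 c1 d1 d3 (d2 ▸ hD₁) (d4 ▸ hD₂)
  have x6 : ρ = k * X.2.2.2.1 := congrArg (fun p : P4 => p.2.2.2) x3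
  refine ⟨X, n, x1, x2, ?_, ?_, ?_⟩
  · rw [x3, ← l6, l8]
    rfl
  · change α = k * X.2.2.2.2.1 - k * X.2.2.2.1
    change _ = k * X.2.2.2.2.1 at x4
    linarith
  · change β = -X.1 + e * X.2.2.2.2.2 - k * X.2.2.2.1
    change _ = -X.1 + e * X.2.2.2.2.2 at x5
    linarith

end Pool.Agent.MP_2fc7fa_gt.N.Fp

end
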