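import Pool.Agent.Mg.F2fc7fa.Gd54744

section

/-! Definitions for part C (cochains, lattice evaluation, the counting cochain). -/

open scoped ComplexConjugate Topology
open Set Complex Filter

noncomputable section

namespace Pool.Agent.MP_2fc7fa_gt.N

/-- Cochains: functions of sequences. -/
abbrev Co (D R : Type) : Type := (ℕ → D) → R

abbrev Pt : Type := ℕ → ℝ

/-- Put `a` in front of a sequence. -/
def cons {α : Type} (a : α) (x : ℕ → α) : ℕ → α
  | 0 => a
  | j + 1 => x j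

/-- Insert `a` at the place `i`. -/
def ins {α : Type} (i : ℕ) (a : α) (x : ℕ → α) : ℕ → α :=
  fun j => if j < i then x j else if j = i then a else x (j - 1)

/-- Drop the first `m` entries. -/
def shift {α : Type} (m : ℕ) (x : ℕ → α) : ℕ → α := fun j => x (j + m)

section
variable {D D' R : Type} [CommRing R]

/-- The coboundary, of degree `n`, of a cochain of degree `n - 1`. -/
def dd (n : ℕ) (c : Co D R) : Co D R :=
  fun x => ∑ i ∈ Finset.range (n + 1), (-1) ^ i * c (skip i x)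

/-- The cup product; `a` has degree `n`. -/
def cup (n : ℕ) (a b : Co D R) : Co D R := fun x => a x * b (shift n x)

/-- Pull-back. -/
def pb (φ : D' → D) (c : Co D R) : Co D' R := fun x => c fun j => φ (x j)

/-- `c` has degree `n`. -/
def Dg (n : ℕ) (c : Co D R) : Prop := ∀ x y, (∀ j, j ≤ n → x j = y j) → c x = c y

/-- `c` is normalised. -/
def Nm (n : ℕ) (c : Co D R) : Prop := ∀ x j, j < n → x j = x (j + 1) → c x = 0

/-- `c` is locally zero. -/
def LZ (c : Co D R) (F : Filter D) : Prop := ∃ U ∈ F, ∀ x, (∀ j, x j ∈ U) → c x = 0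

def prism (α β : D → D') (j : ℕ) (x : ℕ → D) : ℕ → D' :=
  fun i => if i ≤ j then α (x i) else β (x (i - 1))

/-- The prism operator on cochains of degree `n`. -/
def pris (α β : D → D') (n : ℕ) (c : Co D' R) : Co D R :=
  fun x => ∑ j ∈ Finset.range n, (-1) ^ j * c (prism α β j x)

/-- Integration of a cochain of degree `n` along the first coordinate, with mesh `1 / M`. -/
def PP (M n : ℕ) (c : Co Pt R) : Co Pt R :=
  fun x => ∑ k ∈ Finset.range M, pris (cons ((k : ℝ) / M)) (cons (((k : ℝ) + 1) / M)) n c x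

/-- Evaluation of a cochain of degree `n` on the triangulated cube of dimension `n`. -/
def II (M : ℕ) : ℕ → Co Pt R → R
  | 0, c => c fun _ _ => 0
  | n + 1, c => II M n (PP M (n + 1) c)

end

/-- All entries lie in the cube. -/
def InC (x : ℕ → Pt) : Prop := ∀ j, x j ∈ cube

/-- The first `m` coordinates. -/
def res (m : ℕ) (q : Pt) : Fin m → ℝ := fun j => q j

def cubeF (m : ℕ) : Set (Fin m → ℝ) := {x | ∀ j, x j ∈ Icc (0 : ℝ) 1}

/-- A Thom cochain of degree `m`. -/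
structure Thom {E : Type} [TopologicalSpace E] [Zero E] (m : ℕ) (ω : Co E ℤ) : Prop where
  dg : Dg m ω
  closed : dd (m + 1) ω = 0
  lz : ∀ e, e ≠ 0 → LZ ω (𝓝 e)

/-- The value of a Thom cochain on the image of the centred cube under `A`. -/
def ldeg {E : Type} (m : ℕ) (ω : Co E ℤ) (A : (Fin m → ℝ) → E) (M : ℕ) : ℤ :=
  II M m (pb (fun q => A (res m q - fun _ => 1 / 2)) ω)

/-- The jump cocycle on the line. -/
def dH : Co ℝ ℤ := fun x => (if 0 < x 1 then 1 else 0) - if 0 < x 0 then 1 else 0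

/-- The number of the sector that contains `z`. -/
def sec (z : ℂ) : Zp := ((⌊37 * arg z / (2 * Real.pi)⌋ : ℤ) : Zp)

/-- The integral cocycle of degree two on `ZMod 37`. -/
def tc : Co Zp ℤ := fun x =>
  ((x 1 - x 0).valMinAbs + (x 2 - x 1).valMinAbs - (x 2 - x 0).valMinAbs) / 37

/-- The cup product of the cocycles of a list of functions. -/
def cups {D : Type} : List (D → Zp) → Co D ℤ
  | [] => fun _ => 1
  | φ :: l => cup 2 (pb φ tc) (cups l)

/-- Evaluation on the cycle `∑ [1|i₁|1|i₂|...]`. -/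
def cyc : ℕ → Co Zp Zp → Zp
  | 0, a => a 0
  | n + 1, a => cyc n fun σ => ∑ i : Zp, a (cons 0 (cons 1 fun j => 1 + i + σ j))

/-- The first index `i < n` with `t i ≤ 1 / 2`, or `n`. -/
def idx : ℕ → Pt → ℕ
  | 0, _ => 0
  | n + 1, t => if t 0 ≤ 1 / 2 then 0 else idx n (shift 1 t) + 1

/-- The Thom cochain on `ℂ × ℝ`. -/
def th3 : Co (ℂ × ℝ) ℤ := cup 2 (pb (fun e => sec e.1) tc) (pb Prod.snd dH)

/-- The Thom cochain on `ℂ × ℝ × ℂ × ℝ`. -/
def th6 : Co (ℂ × ℝ × ℂ × ℝ) ℤ :=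
  cup 3 (pb (fun e => (e.1, e.2.1)) th3) (pb (fun e => e.2.2) th3)

/-! ### Pairs of points -/

/-- The coefficient of the orthogonal projection of `e.2` on the line through `e.1`. -/
def lam (e : W × W) : ℂ := (e.2.1 * conj e.1.1 + e.2.2 * conj e.1.2) / (nsq e.1 : ℂ)

/-- `l = sa m l * ee m + sb m l * ee (m + 1)`. -/
def sa (m : ℤ) (l : ℂ) : ℝ := -(l * conj (ee (m + 1))).im / Real.sin (2 * Real.pi / 37)

def sb (m : ℤ) (l : ℂ) : ℝ := (l * conj (ee m)).im / Real.sin (2 * Real.pi / 37)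

/-- The function that cuts out the arc (`κ = 1`) or the chord (`κ = 0`). -/
def FF (κ : W × W → ℝ) (m : ℤ) (e : W × W) : ℝ :=
  κ e * (nsq e.2 - nsq e.1) + (1 - κ e) * (sa m (lam e) + sb m (lam e) - 1)

def inS (m : ℤ) (e : W × W) : Prop := 0 < sa m (lam e) ∧ 0 < sb m (lam e)

open Classical in
def eta (κ : W × W → ℝ) (m : ℤ) : Co (W × W) ℤ :=
  fun x => if inS m (x 0) ∧ inS m (x 1) then pb (FF κ m) dH x else 0

def phm (e : (W × W) × Zp) : Zp := if det2 e.1.1 e.1.2 = 0 then 2 * e.2 else sec (det2 e.1.1 e.1.2)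

/-- The cochain of degree three dual to an arc. -/
def yy (κ : W × W → ℝ) (m : ℤ) : Co ((W × W) × Zp) ℤ :=
  cup 2 (pb phm tc) (pb Prod.fst (eta κ m))

/-- The support of `yy`. -/
def CC (κ : W × W → ℝ) (m : ℤ) (e : W × W) : Prop :=
  ∃ a b : ℝ, 0 ≤ a ∧ 0 ≤ b ∧ e.2 = (a * ee m + b * ee (m + 1)) • e.1 ∧
    κ e * (nsq e.2 - nsq e.1) + (1 - κ e) * (a + b - 1) = 0

def k1 (e : W × W) : ℝ := max 0 (min 1 (10000 * nsq e.1 - 1))

def k2 (e : W × W) : ℝ := max 0 (min 1 (2 - nsq e.2 / 10000))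

/-- The cochain of degree six on triples. -/
def y6 : Co ((Fin 3 → W) × Zp) ℤ :=
  cup 3 (pb (fun e => ((e.1 0, e.1 2), e.2)) (yy k1 (-3)))
    (pb (fun e => ((e.1 1, e.1 2), e.2)) (yy k2 6))

/-! ### The data space -/

abbrev Zz : Type := Fin 3 → Zp → Mat

abbrev Dt : Type := Zz × Zp × Zp

abbrev Jx : Type := (Fin 3 × Fin 3 × Fin 3) × {n : Zp // n ≠ 0}

def act2 (k l : Zp) (d : Dt) : Dt :=
  (fun i g => actM k (d.1 i (g - k + l)), d.2.1 + k, d.2.2 + l)

/-- Fourier coordinates. -/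
def xi (j : Jx) (z : Zz) : ℂ :=
  ∑ g : Zp, rt (-(g * (wt j.1.2.1 - wt j.1.2.2 + j.2))) * z j.1.1 g j.1.2.1 j.1.2.2

def ph (j : Jx) (d : Dt) : Zp :=
  if xi j d.1 = 0 then -(j.2 * d.2.1) + (wt j.1.2.1 - wt j.1.2.2 + j.2) * d.2.2 else sec (xi j d.1)

def jl : List Jx := Finset.univ.toList

/-- The degree of the Euler cochain. -/
def NN : ℕ := 2 * jl.length

def EE : Co Dt ℤ := cups (jl.map ph)

def aff (P : Mat) : W := (P 1 0 / P 0 0, P 2 0 / P 0 0)

def rho (d : Dt) : (Fin 3 → W) × Zp :=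
  (fun i => aff (actM (-(d.2.1 - d.2.2)) (d.1 i (d.2.1 - d.2.2))), d.2.2)

/-- The counting cochain, of degree `NN + 6`. -/
def WW : Co Dt ℤ := cup 6 (pb rho y6) EE

/-- The three families are orbits of the points `x i` of the affine chart. -/
def Orb (z : Zz) (x : Fin 3 → W) : Prop := ∀ i g, z i g = pt (rt g • x i)

/-! ### The parameter cubes -/

def vv (z₀ : W) (k : Zp) (p : Fin 6 → ℝ) : W :=
  ((2 * (1 - p 0) : ℝ) * ee (p 1 - 1 / 2) * z₀.1, (2 * p 0 : ℝ) * rt k * ee (p 2 - 1 / 2) * z₀.2)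

/-- The three heights. -/
def hh (T δ : ℝ) (p : Fin 6 → ℝ) : Fin 3 → ℝ :=
  ![-T + 2 * T * p 3, -T + 2 * T * p 3 + 2 * T * p 4,
    -T + 2 * T * p 3 + 2 * T * p 4 + δ + 2 * T * p 5]

def aa (z₀ : W) (T δ : ℝ) (k : Zp) (p : Fin 6 → ℝ) (i : Fin 3) : W :=
  Real.exp (hh T δ p i) • vv z₀ k p

def bb (k : Zp) (p : Fin 6 → ℝ) : Zp :=
  if p 0 = 1 then k + (if p 2 = 1 then 1 else 0) else if p 1 = 1 then 1 else 0

/-- The list of the first `n + 1` entries. -/
def lst (n : ℕ) (σ : ℕ → Zp) : List Zp := (List.range (n + 1)).map σ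

/-- The map from the big cube to the data space. Coordinate `0` is the time, the next six are the
parameters of the triple, the others belong to the simplex. -/
def Psi {N : ℕ} {f : W → W} (L : LineFamily N f) (z₀ : W) (T δ : ℝ) (n : ℕ) (σ : ℕ → Zp) (k : Zp)
    (q : Pt) : Dt :=
  (fun i g => L.H (lst n σ) (shift 7 q) (q 0) (rt g • aa z₀ T δ k (res 6 (shift 1 q)) i),
    σ (idx n (shift 7 q)), bb k (res 6 (shift 1 q)))

/-- The support of the counting cochain. -/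
def Hit (z : Zz) : Prop :=
  ∃ x : Fin 3 → W, Orb z x ∧ (∀ i, x i ≠ 0) ∧ CC k1 (-3) (x 0, x 2) ∧ CC k2 6 (x 1, x 2)

/-- Properties of data that come from maps that are injective on complex lines. -/
def Rg (z : Zz) : Prop :=
  (∀ i g, ∃ x : V, x ≠ 0 ∧ z i g = pr x) ∧ (∀ i, z i 1 ≠ z i 0) ∧
    ∀ g, z 2 0 ≠ z 0 g ∧ z 2 0 ≠ z 1 g

/-- The cochain on the six-dimensional cube at time `0`. -/
def omq (f : W → W) (z₀ : W) (T δ : ℝ) (k : Zp) : Co (Fin 6 → ℝ) ℤ :=
  pb (fun p => (fun i => f (aa z₀ T δ k p i), bb k p)) y6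

/-- The Euler cochain on the group. -/
def E0 : Co Zp ℤ := cups (jl.map fun j γ => -(j.2 * γ))

end Pool.Agent.MP_2fc7fa_gt.N

end
end

section

/-! Algebra of cochains. -/

open scoped ComplexConjugate Topology
open Set Complex Filter

noncomputable section

namespace Pool.Agent.MP_2fc7fa_gt.N

variable {D D' D'' R : Type} [CommRing R]

theorem skip_comp {α β : Type} (φ : α → β) (i : ℕ) (x : ℕ → α) :
    (fun j => φ (skip i x j)) = skip i fun j => φ (x j) := by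
  funext j; unfold skip; split_ifs <;> rfl

theorem pb_dd (φ : D' → D) (n : ℕ) (c : Co D R) : pb φ (dd n c) = dd n (pb φ c) := by
  funext x; simp only [pb, dd, skip_comp]

theorem pb_cup (φ : D' → D) (n : ℕ) (a b : Co D R) :
    pb φ (cup n a b) = cup n (pb φ a) (pb φ b) := rfl

omit [CommRing R] in
theorem pb_pb (ψ : D'' → D') (φ : D' → D) (c : Co D R) :
    pb ψ (pb φ c) = pb (fun x => φ (ψ x)) c := rfl

theorem dd_add (n : ℕ) (a b : Co D R) : dd n (a + b) = dd n a + dd n b := by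
  funext x; simp [dd, mul_add, Finset.sum_add_distrib]

theorem dd_sub (n : ℕ) (a b : Co D R) : dd n (a - b) = dd n a - dd n b := by
  funext x; simp [dd, mul_sub, Finset.sum_sub_distrib]

theorem dd_zero (n : ℕ) : dd n (0 : Co D R) = 0 := by
  funext x; simp [dd]

theorem dd_cup {n : ℕ} (m : ℕ) {a : Co D R} (b : Co D R) (ha : Dg n a) (x : ℕ → D) :
    dd (n + m + 1) (cup n a b) x =
      cup (n + 1) (dd (n + 1) a) b x + (-1) ^ n * cup n a (dd (m + 1) b) x := by
  have e1 : ∀ i, i ≤ n → shift n (skip i x) = shift (n + 1) x := by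
    intro i hi; funext j
    simp only [shift, skip]
    rw [if_neg (by omega)]; rfl
  have e2 : ∀ i, shift n (skip (n + i) x) = skip i (shift n x) := by
    intro i; funext j
    simp only [shift, skip]
    by_cases h : j < i
    · rw [if_pos h, if_pos (by omega)]
    · rw [if_neg h, if_neg (by omega)]; congr 1; omega
  have e3 : ∀ i, a (skip (n + 1 + i) x) = a x := by
    intro i; apply ha; intro j hj
    simp only [skip]; rw [if_pos (by omega)]
  have e4 : skip 0 (shift n x) = shift (n + 1) x := by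
    funext j; simp only [shift, skip]; rw [if_neg (by omega)]; congr 1; omega
  simp only [dd, cup]
  rw [show n + m + 1 + 1 = (n + 1) + (m + 1) by omega, Finset.sum_range_add,
    Finset.sum_range_succ (n := n + 1), Finset.sum_range_succ' (n := m + 1), add_mul,
    Finset.sum_mul, e4]
  have e5 := e3 0
  rw [add_zero] at e5
  rw [e5]
  have s1 : ∑ i ∈ Finset.range (n + 1), (-1 : R) ^ i * (a (skip i x) * b (shift n (skip i x))) =
      ∑ i ∈ Finset.range (n + 1), (-1 : R) ^ i * a (skip i x) * b (shift (n + 1) x) := by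
    refine Finset.sum_congr rfl fun i hi => ?_
    rw [e1 i (by simpa [Nat.lt_succ_iff] using hi), mul_assoc]
  have s2 : ∑ i ∈ Finset.range (m + 1),
      (-1 : R) ^ (n + 1 + i) * (a (skip (n + 1 + i) x) * b (shift n (skip (n + 1 + i) x))) =
      (-1) ^ n * (a x * ∑ i ∈ Finset.range (m + 1), (-1 : R) ^ (i + 1) *
        b (skip (i + 1) (shift n x))) := by
    rw [Finset.mul_sum, Finset.mul_sum]
    refine Finset.sum_congr rfl fun i _ => ?_
    rw [e3, show n + 1 + i = n + (i + 1) by omega, e2]; ring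
  rw [s1, s2]; ring

theorem dd_cup_zero {n m : ℕ} {a b : Co D R} (ha : Dg n a) (ha' : dd (n + 1) a = 0)
    (hb : dd (m + 1) b = 0) : dd (n + m + 1) (cup n a b) = 0 := by
  funext x; rw [dd_cup m b ha, ha', hb]; simp [cup]

omit [CommRing R] in
theorem Dg.pb {n : ℕ} {c : Co D R} (h : Dg n c) (φ : D' → D) : Dg n (pb φ c) :=
  fun _ _ hxy => h _ _ fun j hj => by rw [hxy j hj]

theorem Nm.pb {n : ℕ} {c : Co D R} (h : Nm n c) (φ : D' → D) : Nm n (pb φ c) :=
  fun _ j hj hx => h _ j hj (by simp only [hx])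

theorem Dg.cup {n m : ℕ} {a b : Co D R} (ha : Dg n a) (hb : Dg m b) :
    Dg (n + m) (cup n a b) := by
  intro x y h
  simp only [N.cup]
  rw [ha x y fun j hj => h j (by omega), hb (shift n x) (shift n y) fun j hj => h _ (by omega)]

theorem Nm.cup {n m : ℕ} {a b : Co D R} (ha : Nm n a) (hb : Nm m b) :
    Nm (n + m) (cup n a b) := by
  intro x j hj hx
  simp only [N.cup]
  by_cases h : j < n
  · rw [ha x j h hx, zero_mul]
  · rw [hb (shift n x) (j - n) (by omega) ?_, mul_zero]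
    simp only [shift]
    rw [show j - n + n = j by omega, show j - n + 1 + n = j + 1 by omega, hx]

theorem Dg.dd {n : ℕ} {c : Co D R} (h : Dg n c) : Dg (n + 1) (dd (n + 1) c) := by
  intro x y hxy
  simp only [N.dd]
  refine Finset.sum_congr rfl fun i _ => ?_
  rw [h (skip i x) (skip i y) fun j hj => ?_]
  simp only [skip]; split_ifs
  · exact hxy j (by omega)
  · exact hxy _ (by omega)

theorem LZ.zero (F : Filter D) : LZ (0 : Co D R) F := ⟨univ, univ_mem, fun _ _ => rfl⟩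

theorem LZ.mono {c : Co D R} {F F' : Filter D} (h : LZ c F) (hF : F' ≤ F) : LZ c F' := by
  obtain ⟨U, hU, h⟩ := h; exact ⟨U, hF hU, h⟩

theorem LZ.pb {c : Co D R} {F : Filter D} {F' : Filter D'} {φ : D' → D} (h : LZ c F)
    (hφ : Tendsto φ F' F) : LZ (pb φ c) F' := by
  obtain ⟨U, hU, h⟩ := h; exact ⟨φ ⁻¹' U, hφ hU, fun _ hx => h _ hx⟩

theorem LZ.cup_left {a : Co D R} {F : Filter D} (h : LZ a F) (n : ℕ) (b : Co D R) :
    LZ (cup n a b) F := by
  obtain ⟨U, hU, h⟩ := h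
  exact ⟨U, hU, fun x hx => by simp only [cup]; rw [h x hx, zero_mul]⟩

theorem LZ.cup_right {b : Co D R} {F : Filter D} (h : LZ b F) (n : ℕ) (a : Co D R) :
    LZ (cup n a b) F := by
  obtain ⟨U, hU, h⟩ := h
  exact ⟨U, hU, fun x hx => by simp only [cup]; rw [h (shift n x) fun j => hx _, mul_zero]⟩

theorem skip_mem {α : Type} {U : Set α} {x : ℕ → α} (hx : ∀ j, x j ∈ U) (i j : ℕ) :
    skip i x j ∈ U := by
  unfold skip; split_ifs <;> exact hx _

theorem LZ.dd {c : Co D R} {F : Filter D} (h : LZ c F) (n : ℕ) : LZ (dd n c) F := by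
  obtain ⟨U, hU, h⟩ := h
  refine ⟨U, hU, fun x hx => ?_⟩
  simp only [N.dd]
  exact Finset.sum_eq_zero fun i _ => by rw [h _ (skip_mem hx i), mul_zero]

theorem LZ.add {a b : Co D R} {F : Filter D} (ha : LZ a F) (hb : LZ b F) : LZ (a + b) F := by
  obtain ⟨U, hU, h⟩ := ha; obtain ⟨U', hU', h'⟩ := hb
  refine ⟨U ∩ U', inter_mem hU hU', fun x hx => ?_⟩
  rw [Pi.add_apply, h x fun j => (hx j).1, h' x fun j => (hx j).2, add_zero]

theorem LZ.sub {a b : Co D R} {F : Filter D} (ha : LZ a F) (hb : LZ b F) : LZ (a - b) F := by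
  obtain ⟨U, hU, h⟩ := ha; obtain ⟨U', hU', h'⟩ := hb
  refine ⟨U ∩ U', inter_mem hU hU', fun x hx => ?_⟩
  rw [Pi.sub_apply, h x fun j => (hx j).1, h' x fun j => (hx j).2, sub_zero]

theorem LZ.of_sub {a b : Co D R} {F : Filter D} (h : LZ (a - b) F) (hb : LZ b F) : LZ a F := by
  simpa using h.add hb

/-- Two pull-backs along maps that agree near a point agree near the point. -/
theorem LZ.pb_congr (c : Co D R) {F : Filter D'} {φ ψ : D' → D} (h : φ =ᶠ[F] ψ) :
    LZ (N.pb φ c - N.pb ψ c) F := by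
  refine ⟨{x | φ x = ψ x}, h, fun x hx => ?_⟩
  have : (fun j => φ (x j)) = fun j => ψ (x j) := funext hx
  simp only [Pi.sub_apply, N.pb, this, sub_self]

theorem LZ.cup_sub {a a' b b' : Co D R} {F : Filter D} (ha : LZ (a - a') F) (hb : LZ (b - b') F)
    (n : ℕ) : LZ (cup n a b - cup n a' b') F := by
  have : cup n a b - cup n a' b' = cup n (a - a') b + cup n a' (b - b') := by
    funext x; simp only [cup, Pi.sub_apply, Pi.add_apply]; ring
  rw [this]; exact (ha.cup_left n b).add (hb.cup_right n a')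

theorem LZ.dd_cup {n m : ℕ} {a b : Co D R} {F : Filter D} (ha : Dg n a)
    (ha' : LZ (N.dd (n + 1) a) F) (hb : LZ (N.dd (m + 1) b) F) :
    LZ (N.dd (n + m + 1) (cup n a b)) F := by
  obtain ⟨U, hU, h⟩ := ha'.cup_left (n + 1) b
  obtain ⟨U', hU', h'⟩ := hb.cup_right n a
  refine ⟨U ∩ U', inter_mem hU hU', fun x hx => ?_⟩
  rw [N.dd_cup m b ha, h x fun j => (hx j).1, h' x fun j => (hx j).2]; simp

theorem dH_dg : Dg 1 dH := by
  intro x y h; simp only [dH, h 0 (by omega), h 1 le_rfl]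

theorem dH_nm : Nm 1 dH := by
  intro x j hj hx
  obtain rfl : j = 0 := by omega
  simp only [dH, hx, zero_add, sub_self]

theorem dH_dd : dd 2 dH = 0 := by
  funext x; simp [dd, dH, skip, Finset.sum_range_succ]

theorem dH_lz {e : ℝ} (he : e ≠ 0) : LZ dH (𝓝 e) := by
  rcases he.lt_or_gt with h | h
  · refine ⟨Iio 0, Iio_mem_nhds h, fun x hx => ?_⟩
    simp only [dH]
    rw [if_neg (not_lt.2 (le_of_lt (hx 1))), if_neg (not_lt.2 (le_of_lt (hx 0))), sub_self]
  · refine ⟨Ioi 0, Ioi_mem_nhds h, fun x hx => ?_⟩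
    simp only [dH]
    rw [if_pos (show 0 < x 1 from hx 1), if_pos (show 0 < x 0 from hx 0), sub_self]

theorem cons_mem_cube {a : ℝ} {q : Pt} (ha : a ∈ Icc (0 : ℝ) 1) (hq : q ∈ cube) :
    cons a q ∈ cube := by
  intro j; cases j with
  | zero => exact ha
  | succ j => exact hq j

theorem ins_mem_cube (i : ℕ) {a : ℝ} {q : Pt} (ha : a ∈ Icc (0 : ℝ) 1) (hq : q ∈ cube) :
    ins i a q ∈ cube := by
  intro j; unfold ins; split_ifs
  exacts [hq _, ha, hq _]

theorem shift_mem_cube (m : ℕ) {q : Pt} (hq : q ∈ cube) : shift m q ∈ cube := fun _ => hq _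

theorem res_mem_cubeF (m : ℕ) {q : Pt} (hq : q ∈ cube) : res m q ∈ cubeF m := fun _ => hq _

theorem ins_zero {α : Type} (a : α) : ins 0 a = cons a := by
  funext x j; cases j with
  | zero => simp [ins, cons]
  | succ j => simp [ins, cons]

theorem skip_ins {α : Type} (i : ℕ) (a : α) (x : ℕ → α) : skip i (ins i a x) = x := by
  funext j; simp only [skip, ins]
  by_cases h : j < i
  · simp [h]
  · rw [if_neg h, if_neg (by omega), if_neg (by omega)]; rfl

theorem continuous_ins (i : ℕ) (a : ℝ) : Continuous (ins i a : Pt → Pt) := by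
  refine continuous_pi fun j => ?_
  unfold ins; split_ifs
  exacts [continuous_apply _, continuous_const, continuous_apply _]

theorem continuous_shift (m : ℕ) : Continuous (shift m : Pt → Pt) :=
  continuous_pi fun _ => continuous_apply _

theorem continuous_res (m : ℕ) : Continuous (res m) := continuous_pi fun _ => continuous_apply _

theorem tendsto_ins (i : ℕ) {a : ℝ} (ha : a ∈ Icc (0 : ℝ) 1) (q : Pt) :
    Tendsto (ins i a) (𝓝[cube] q) (𝓝[cube] (ins i a q)) :=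
  (continuous_ins i a).continuousWithinAt.tendsto_nhdsWithin fun _ hq => ins_mem_cube i ha hq

theorem tendsto_res (m : ℕ) (q : Pt) :
    Tendsto (res m) (𝓝[cube] q) (𝓝[cubeF m] (res m q)) :=
  (continuous_res m).continuousWithinAt.tendsto_nhdsWithin fun _ hq => res_mem_cubeF m hq

end Pool.Agent.MP_2fc7fa_gt.N

end
end

section

/-! Roots of unity, sectors and the cocycle `tc`. -/

open scoped ComplexConjugate Topology
open Set Complex Filter

noncomputable section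

namespace Pool.Agent.MP_2fc7fa_gt.N

theorem ee_eq_CSec (u : ℝ) : ee u = exp ((2 * Real.pi * u / 37 : ℝ) * I) := by
  rw [ee]
  congr 1
  push_cast
  ring

theorem rt_ne_zero (k : Zp) : rt k ≠ 0 := by
  intro h
  have h1 := norm_rt k
  rw [h, norm_zero] at h1
  exact zero_ne_one h1

theorem rt_injective : Function.Injective rt := ZMod.injective_stdAddChar

theorem rt_intCast (j : ℤ) : rt (j : Zp) = ee j := by
  rw [rt, ZMod.stdAddChar_coe, ee]
  simp

theorem ee_add (u v : ℝ) : ee (u + v) = ee u * ee v := by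
  rw [ee, ee, ee, ← Complex.exp_add]
  congr 1
  push_cast
  ring

theorem ee_zero : ee 0 = 1 := by simp [ee]

theorem norm_ee (u : ℝ) : ‖ee u‖ = 1 := by
  rw [ee_eq_CSec, Complex.norm_exp_ofReal_mul_I]

theorem ee_ne_zero (u : ℝ) : ee u ≠ 0 := Complex.exp_ne_zero _

theorem conj_ee (u : ℝ) : conj (ee u) = ee (-u) := by
  apply mul_left_cancel₀ (ee_ne_zero u)
  rw [← ee_add, add_neg_cancel, ee_zero, Complex.mul_conj', norm_ee]
  simp

theorem ee_re (u : ℝ) : (ee u).re = Real.cos (2 * Real.pi * u / 37) := by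
  rw [ee_eq_CSec, Complex.exp_ofReal_mul_I_re]

theorem ee_im (u : ℝ) : (ee u).im = Real.sin (2 * Real.pi * u / 37) := by
  rw [ee_eq_CSec, Complex.exp_ofReal_mul_I_im]

theorem continuous_ee : Continuous ee := by
  unfold ee
  fun_prop

theorem hasDerivAt_ee (u : ℝ) : HasDerivAt ee (2 * Real.pi * I / 37 * ee u) u := by
  have h1 : HasDerivAt (fun v : ℝ => (v : ℂ)) 1 u := Complex.ofRealCLM.hasDerivAt
  have h2 := ((h1.const_mul (2 * Real.pi * I : ℂ)).div_const 37).cexp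
  have h3 : 2 * Real.pi * I / 37 * ee u =
      exp (2 * Real.pi * I * u / 37) * (2 * Real.pi * I * 1 / 37) := by
    rw [ee]
    ring
  rw [h3]
  exact h2

/-- A number of modulus less than one that gives a root of unity is zero. -/
theorem ee_eq_rt {u : ℝ} {k : Zp} (hu : |u| < 1) (h : ee u = rt k) : u = 0 ∧ k = 0 := by
  obtain ⟨j, rfl⟩ := ZMod.intCast_surjective k
  have h' := h
  rw [rt_intCast, ee, ee, Complex.exp_eq_exp_iff_exists_int] at h'
  obtain ⟨n, hn⟩ := h'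
  have h2 : (2 * Real.pi * I : ℂ) ≠ 0 := Complex.two_pi_I_ne_zero
  have h3 : (u : ℂ) = ((j + 37 * n : ℤ) : ℂ) := by
    apply mul_left_cancel₀ h2
    push_cast at hn ⊢
    linear_combination 37 * hn
  have h4 : u = ((j + 37 * n : ℤ) : ℝ) := by exact_mod_cast h3
  have h5 : j + 37 * n = 0 := by
    rw [h4] at hu
    exact Int.abs_lt_one_iff.1 (by exact_mod_cast hu)
  have h6 : u = 0 := by rw [h4, h5, Int.cast_zero]
  refine ⟨h6, rt_injective ?_⟩
  rw [← h, h6, ee_zero, rt_zero]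

theorem nsq_smul (c : ℂ) (x : W) : nsq (c • x) = ‖c‖ ^ 2 * nsq x := by
  simp only [nsq, Prod.smul_fst, Prod.smul_snd, norm_smul]
  ring

theorem nsq_pos {x : W} (hx : x ≠ 0) : 0 < nsq x := by
  unfold nsq
  by_cases h : x.1 = 0
  · have h2 : x.2 ≠ 0 := fun h2 => hx (Prod.ext h h2)
    positivity
  · positivity

theorem nsq_nonneg (x : W) : 0 ≤ nsq x := by
  unfold nsq
  positivity

theorem continuous_nsq : Continuous nsq := by
  unfold nsq
  fun_prop

theorem sec_zero : sec 0 = 0 := by simp [sec]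

/-- Write `z = r * ee u`; `arg` differs from `2 π u / 37` by an integer multiple of `2 π`. -/
theorem sec_ee {r : ℝ} (hr : 0 < r) (u : ℝ) : sec (r * ee u) = ((⌊u⌋ : ℤ) : Zp) := by
  have hpi : (2 * Real.pi) ≠ 0 := by positivity
  obtain ⟨n, hn⟩ : ∃ n : ℤ, arg (r * ee u) = 2 * Real.pi * u / 37 + 2 * Real.pi * n := by
    refine ⟨⌊(Real.pi - 2 * Real.pi * u / 37) / (2 * Real.pi)⌋, ?_⟩
    rw [ee_eq_CSec, Complex.exp_mul_I, ← Complex.arg_mul_cos_add_sin_mul_I_sub hr]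
    ring
  have h1 : 37 * arg (r * ee u) / (2 * Real.pi) = u + ((37 * n : ℤ) : ℝ) := by
    rw [hn]
    push_cast
    field_simp
  rw [sec, h1, Int.floor_add_intCast, Int.cast_add, Int.cast_mul]
  have h2 : ((37 : ℤ) : Zp) = 0 := rfl
  rw [h2, zero_mul, add_zero]

theorem polar_CSec (z : ℂ) : z = (‖z‖ : ℝ) * ee (37 * arg z / (2 * Real.pi)) := by
  have hpi : (2 * Real.pi) ≠ 0 := by positivity
  have h1 : 2 * Real.pi * (37 * arg z / (2 * Real.pi)) / 37 = arg z := by field_simp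
  rw [ee_eq_CSec, h1, Complex.norm_mul_exp_arg_mul_I]

theorem sec_rt_mul (k : Zp) {z : ℂ} (hz : z ≠ 0) : sec (rt k * z) = sec z + k := by
  obtain ⟨j, rfl⟩ := ZMod.intCast_surjective k
  have h1 : rt (j : Zp) * z = (‖z‖ : ℝ) * ee (37 * arg z / (2 * Real.pi) + j) := by
    rw [ee_add, ← mul_assoc, ← polar_CSec, rt_intCast, mul_comm]
  rw [h1, sec_ee (norm_pos_iff.2 hz), Int.floor_add_intCast, Int.cast_add, sec]

/-- The numerator of `tc` is divisible by `37`. -/
theorem tc_mul (x : ℕ → Zp) : 37 * tc x =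
    (x 1 - x 0).valMinAbs + (x 2 - x 1).valMinAbs - (x 2 - x 0).valMinAbs := by
  apply Int.mul_ediv_cancel'
  apply (ZMod.intCast_zmod_eq_zero_iff_dvd _ 37).1
  push_cast
  ring

theorem tc_dg : Dg 2 tc := by
  intro x y h
  simp only [tc, h 0 (by norm_num), h 1 (by norm_num), h 2 le_rfl]

theorem tc_nm : Nm 2 tc := by
  intro x j hj h
  obtain rfl | rfl : j = 0 ∨ j = 1 := by omega
  · have h' : x 0 = x 1 := h
    simp [tc, h']
  · have h' : x 1 = x 2 := h
    simp [tc, h']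

theorem tc_dd : dd 3 tc = 0 := by
  funext x
  have h0 := tc_mul (skip 0 x)
  have h1 := tc_mul (skip 1 x)
  have h2 := tc_mul (skip 2 x)
  have h3 := tc_mul (skip 3 x)
  have e0 : skip 0 x 0 = x 1 ∧ skip 0 x 1 = x 2 ∧ skip 0 x 2 = x 3 := ⟨rfl, rfl, rfl⟩
  have e1 : skip 1 x 0 = x 0 ∧ skip 1 x 1 = x 2 ∧ skip 1 x 2 = x 3 := ⟨rfl, rfl, rfl⟩
  have e2 : skip 2 x 0 = x 0 ∧ skip 2 x 1 = x 1 ∧ skip 2 x 2 = x 3 := ⟨rfl, rfl, rfl⟩
  have e3 : skip 3 x 0 = x 0 ∧ skip 3 x 1 = x 1 ∧ skip 3 x 2 = x 2 := ⟨rfl, rfl, rfl⟩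
  rw [e0.1, e0.2.1, e0.2.2] at h0
  rw [e1.1, e1.2.1, e1.2.2] at h1
  rw [e2.1, e2.2.1, e2.2.2] at h2
  rw [e3.1, e3.2.1, e3.2.2] at h3
  simp only [dd, Finset.sum_range_succ, Finset.sum_range_zero, Pi.zero_apply]
  linarith

theorem tc_add (x : ℕ → Zp) (k : Zp) : tc (fun j => x j + k) = tc x := by
  simp only [tc, add_sub_add_right_eq_sub]

theorem tc_two_CSec (k : Zp) (x : ℕ → Zp) (h : ∀ j, x j = k ∨ x j = k + 1) : tc x = 0 := by
  have v0 : (0 : Zp).valMinAbs = 0 := by decide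
  have v1 : (1 : Zp).valMinAbs = 1 := by decide
  have v2 : (-1 : Zp).valMinAbs = -1 := by decide
  have s1 : k + 1 - k = 1 := by ring
  have s2 : k - (k + 1) = -1 := by ring
  have h1 := tc_mul x
  rcases h 0 with a | a <;> rcases h 1 with b | b <;> rcases h 2 with c | c <;>
    rw [a, b, c] at h1 <;> simp only [sub_self, s1, s2, v0, v1, v2] at h1 <;> omega

/-- Near `z ≠ 0` the function `sec` takes two adjacent values `k`, `k + 1`. -/
theorem sec_lz {z : ℂ} (hz : z ≠ 0) : LZ (pb sec tc) (𝓝 z) := by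
  have hc : ContinuousAt (fun w : ℂ => 37 * arg (w / z) / (2 * Real.pi)) z := by
    have h1 : ContinuousAt (fun w : ℂ => arg (w / z)) z := by
      refine ContinuousAt.comp (g := arg) (f := fun w : ℂ => w / z) ?_ (by fun_prop)
      apply Complex.continuousAt_arg
      rw [div_self hz]
      exact Complex.one_mem_slitPlane
    exact (h1.const_mul 37).div_const _
  have h0 : 37 * arg (z / z) / (2 * Real.pi) = 0 := by simp [div_self hz]
  have hU : ∀ᶠ w in 𝓝 z, 37 * arg (w / z) / (2 * Real.pi) ∈ Ioo (-(1 / 2) : ℝ) (1 / 2) := by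
    apply hc.eventually_mem
    rw [h0]
    exact Ioo_mem_nhds (by norm_num) (by norm_num)
  refine ⟨_, hU.and (eventually_ne_nhds hz), fun x hx => ?_⟩
  set u := 37 * arg z / (2 * Real.pi) with hu
  refine tc_two_CSec ((⌊u - 1 / 2⌋ : ℤ) : Zp) _ fun j => ?_
  obtain ⟨⟨ha, hb⟩, hw⟩ := hx j
  set v := 37 * arg (x j / z) / (2 * Real.pi) with hv
  have h1 : x j = ((‖z‖ * ‖x j / z‖ : ℝ) : ℂ) * ee (u + v) := by
    rw [ee_add, Complex.ofReal_mul, mul_mul_mul_comm, ← polar_CSec, ← polar_CSec]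
    field_simp
  have h2 : sec (x j) = ((⌊u + v⌋ : ℤ) : Zp) := by
    rw [← sec_ee (mul_pos (norm_pos_iff.2 hz) (norm_pos_iff.2 (div_ne_zero hw hz))), ← h1]
  have h3 : ⌊u - 1 / 2⌋ ≤ ⌊u + v⌋ := Int.floor_le_floor (by linarith)
  have h4 : ⌊u + v⌋ ≤ ⌊u - 1 / 2⌋ + 1 := by
    rw [← Int.floor_add_one]
    exact Int.floor_le_floor (by linarith)
  rw [h2]
  obtain h5 | h5 : ⌊u + v⌋ = ⌊u - 1 / 2⌋ ∨ ⌊u + v⌋ = ⌊u - 1 / 2⌋ + 1 := by omega
  · left
    rw [h5]
  · right
    rw [h5, Int.cast_add, Int.cast_one]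

/-- `∑ i, (s n + s (n * i') - s (n + n * i')) = 37 * s n` in `ℤ` for `s = valMinAbs`. -/
theorem tc_sum (n : Zp) (σ : ℕ → Zp) :
    ∑ i : Zp, ((tc fun j => n * cons 0 (cons 1 fun a => 1 + i + σ a) j : ℤ) : Zp) = n := by
  have h1 : ∀ i : Zp, 37 * (tc fun j => n * cons 0 (cons 1 fun a => 1 + i + σ a) j) =
      n.valMinAbs + (n * (i + σ 0)).valMinAbs - (n * (i + 1 + σ 0)).valMinAbs := by
    intro i
    rw [tc_mul]
    have e1 : n * 1 - n * 0 = n := by ring
    have e2 : n * (1 + i + σ 0) - n * 1 = n * (i + σ 0) := by ring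
    have e3 : n * (1 + i + σ 0) - n * 0 = n * (i + 1 + σ 0) := by ring
    simp only [cons]
    rw [e1, e2, e3]
  have h2 : ∑ i : Zp, (n * (i + 1 + σ 0)).valMinAbs = ∑ i : Zp, (n * (i + σ 0)).valMinAbs :=
    Equiv.sum_comp (Equiv.addRight (1 : Zp)) fun i => (n * (i + σ 0)).valMinAbs
  have h3 : ∑ i : Zp, (tc fun j => n * cons 0 (cons 1 fun a => 1 + i + σ a) j) = n.valMinAbs := by
    apply mul_left_cancel₀ (show (37 : ℤ) ≠ 0 by norm_num)
    rw [Finset.mul_sum, Finset.sum_congr rfl fun i _ => h1 i, Finset.sum_sub_distrib,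
      Finset.sum_add_distrib, h2, Finset.sum_const, Finset.card_univ, ZMod.card]
    simp
  rw [← Int.cast_sum, h3, ZMod.coe_valMinAbs]

theorem cups_dg {D : Type} (l : List (D → Zp)) : Dg (2 * l.length) (cups l) := by
  induction l with
  | nil => exact fun _ _ _ => rfl
  | cons φ l ih =>
    have e : 2 * (φ :: l).length = 2 + 2 * l.length := by rw [List.length_cons]; ring
    rw [e]
    exact (tc_dg.pb φ).cup ih

theorem cups_nm {D : Type} (l : List (D → Zp)) : Nm (2 * l.length) (cups l) := by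
  induction l with
  | nil => exact fun _ j hj _ => absurd hj (Nat.not_lt_zero j)
  | cons φ l ih =>
    have e : 2 * (φ :: l).length = 2 + 2 * l.length := by rw [List.length_cons]; ring
    rw [e]
    exact (tc_nm.pb φ).cup ih

theorem cups_dd {D : Type} (l : List (D → Zp)) : dd (2 * l.length + 1) (cups l) = 0 := by
  induction l with
  | nil =>
    funext x
    simp [dd, cups, Finset.sum_range_succ]
  | cons φ l ih =>
    have e : 2 * (φ :: l).length = 2 + 2 * l.length := by rw [List.length_cons]; ring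
    rw [e]
    refine dd_cup_zero (tc_dg.pb φ) ?_ ih
    rw [← pb_dd, tc_dd]
    rfl

theorem cups_lz {D : Type} {l : List (D → Zp)} {φ : D → Zp} (h : φ ∈ l) {F : Filter D}
    (hφ : LZ (pb φ tc) F) : LZ (cups l) F := by
  induction l with
  | nil => exact absurd h List.not_mem_nil
  | cons ψ l ih =>
    rcases List.mem_cons.1 h with rfl | h'
    · exact hφ.cup_left 2 _
    · exact (ih h').cup_right 2 _

/-- The value only depends on the functions up to constants. -/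
theorem cups_congr {D D' ι : Type} (l : List ι) (φ : ι → D → Zp) (ψ : ι → D' → Zp) (x : ℕ → D)
    (y : ℕ → D') (h : ∀ j ∈ l, ∃ k, ∀ a, φ j (x a) = ψ j (y a) + k) :
    cups (l.map φ) x = cups (l.map ψ) y := by
  induction l generalizing x y with
  | nil => rfl
  | cons j l ih =>
    obtain ⟨k, hk⟩ := h j List.mem_cons_self
    have h1 : tc (fun a => φ j (x a)) = tc fun a => ψ j (y a) := by
      rw [← tc_add (fun a => ψ j (y a)) k]
      congr 1
      funext a
      exact hk a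
    have h2 := ih (shift 2 x) (shift 2 y) fun i hi => by
      obtain ⟨k', hk'⟩ := h i (List.mem_cons_of_mem _ hi)
      exact ⟨k', fun a => hk' (a + 2)⟩
    change tc (fun a => φ j (x a)) * cups (l.map φ) (shift 2 x) =
      tc (fun a => ψ j (y a)) * cups (l.map ψ) (shift 2 y)
    rw [h1, h2]

end Pool.Agent.MP_2fc7fa_gt.N

end
end

section

/-! Geometry of sectors, arcs and chords. -/

open scoped ComplexConjugate Topology
open Set Complex Filter

noncomputable section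

namespace Pool.Agent.MP_2fc7fa_gt.N

theorem sin_pos_CGeo {u : ℝ} (h0 : 0 < u) (h1 : u < 37 / 2) :
    0 < Real.sin (2 * Real.pi * u / 37) := by
  have hpi := Real.pi_pos
  apply Real.sin_pos_of_pos_of_lt_pi
  · positivity
  · have h2 := mul_lt_mul_of_pos_left h1 hpi
    linarith

theorem s_pos_CGeo : 0 < Real.sin (2 * Real.pi / 37) := by
  have h := sin_pos_CGeo (u := 1) one_pos (by norm_num)
  rwa [mul_one] at h

theorem im_pos_CGeo {u : ℝ} (h0 : 0 < u) (h1 : u < 37 / 2) : 0 < (ee u).im := by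
  rw [ee_im]
  exact sin_pos_CGeo h0 h1

theorem im_neg_CGeo (u : ℝ) : (ee (-u)).im = -(ee u).im := by
  rw [← conj_ee, Complex.conj_im]

theorem im_one_CGeo : (ee 1).im = Real.sin (2 * Real.pi / 37) := by
  rw [ee_im, mul_one]

theorem mul_conj_CGeo (u v : ℝ) : ee u * conj (ee v) = ee (u - v) := by
  rw [conj_ee, ← ee_add, sub_eq_add_neg]

theorem nsq_cast_CGeo (x : W) : (nsq x : ℂ) = x.1 * conj x.1 + x.2 * conj x.2 := by
  rw [Complex.mul_conj', Complex.mul_conj', nsq]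
  push_cast
  ring

theorem im_comb_CGeo (a b u v : ℝ) :
    ((a : ℂ) * ee u + b * ee v).im = a * (ee u).im + b * (ee v).im := by
  rw [Complex.add_im, Complex.im_ofReal_mul, Complex.im_ofReal_mul]

theorem nsq_rt_CGeo (k : Zp) (x : W) : nsq (rt k • x) = nsq x := by
  rw [nsq_smul, norm_rt, one_pow, one_mul]

theorem sa_sb (m : ℤ) (l : ℂ) : l = sa m l * ee m + sb m l * ee (m + 1) := by
  have hs := s_pos_CGeo.ne'
  have h1 : conj (ee m) * ee m = 1 := by
    rw [mul_comm, mul_conj_CGeo, sub_self, ee_zero]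
  have h2 : ∀ w : ℂ, w = ((-(w * conj (ee 1)).im / Real.sin (2 * Real.pi / 37) : ℝ) : ℂ) +
      ((w.im / Real.sin (2 * Real.pi / 37) : ℝ) : ℂ) * ee 1 := by
    intro w
    apply Complex.ext
    · rw [Complex.add_re, Complex.ofReal_re, Complex.re_ofReal_mul, Complex.mul_im,
        Complex.conj_im, Complex.conj_re, im_one_CGeo]
      field_simp
      ring
    · rw [Complex.add_im, Complex.ofReal_im, Complex.im_ofReal_mul, im_one_CGeo]
      field_simp
      ring
  have h3 := h2 (l * conj (ee m))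
  rw [sa, sb, ee_add, map_mul, ← mul_assoc l]
  linear_combination ee m * h3 - l * h1

theorem sa_comb (m : ℤ) (a b : ℝ) : sa m (a * ee m + b * ee (m + 1)) = a := by
  have hs := s_pos_CGeo.ne'
  have h1 : (m : ℝ) - (m + 1) = -1 := by ring
  rw [sa, add_mul, mul_assoc, mul_assoc, mul_conj_CGeo, mul_conj_CGeo, im_comb_CGeo, sub_self,
    ee_zero, h1, im_neg_CGeo, im_one_CGeo, Complex.one_im]
  field_simp
  ring

theorem sb_comb (m : ℤ) (a b : ℝ) : sb m (a * ee m + b * ee (m + 1)) = b := by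
  have hs := s_pos_CGeo.ne'
  have h1 : (m : ℝ) + 1 - m = 1 := by ring
  rw [sb, add_mul, mul_assoc, mul_assoc, mul_conj_CGeo, mul_conj_CGeo, im_comb_CGeo, sub_self,
    ee_zero, h1, im_one_CGeo, Complex.one_im]
  field_simp
  ring

theorem continuous_sa (m : ℤ) : Continuous (sa m) := by
  unfold sa
  fun_prop

theorem continuous_sb (m : ℤ) : Continuous (sb m) := by
  unfold sb
  fun_prop

theorem sa_sb_pos {m : ℤ} {D : ℝ} (hD : D ∈ Ioo (m : ℝ) (m + 1)) :
    0 < sa m (ee D) ∧ 0 < sb m (ee D) := by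
  obtain ⟨h1, h2⟩ := hD
  have h3 : D - (m + 1) = -(m + 1 - D) := by ring
  rw [sa, sb, mul_conj_CGeo, mul_conj_CGeo, h3, im_neg_CGeo, neg_neg]
  exact ⟨div_pos (im_pos_CGeo (by linarith) (by linarith)) s_pos_CGeo,
    div_pos (im_pos_CGeo (by linarith) (by linarith)) s_pos_CGeo⟩

theorem lam_smul {x : W} (hx : x ≠ 0) (l : ℂ) : lam (x, l • x) = l := by
  have h1 : (nsq x : ℂ) ≠ 0 := Complex.ofReal_ne_zero.2 (nsq_pos hx).ne'
  rw [lam, div_eq_iff h1, nsq_cast_CGeo]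
  simp only [Prod.smul_fst, Prod.smul_snd, smul_eq_mul]
  ring

theorem eq_lam {e : W × W} (hx : e.1 ≠ 0) (h : det2 e.1 e.2 = 0) : e.2 = lam e • e.1 := by
  have h1 : (nsq e.1 : ℂ) ≠ 0 := Complex.ofReal_ne_zero.2 (nsq_pos hx).ne'
  rw [det2] at h
  apply Prod.ext
  · rw [Prod.smul_fst, smul_eq_mul, lam, div_mul_eq_mul_div, eq_div_iff h1, nsq_cast_CGeo]
    linear_combination (-conj e.1.2) * h
  · rw [Prod.smul_snd, smul_eq_mul, lam, div_mul_eq_mul_div, eq_div_iff h1, nsq_cast_CGeo]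
    linear_combination conj e.1.1 * h

theorem lam_rt (k : Zp) (e : W × W) : lam (rt k • e) = lam e := by
  have h1 : rt k * conj (rt k) = 1 := by rw [conj_rt, ← rt_add, add_neg_cancel, rt_zero]
  rw [lam, lam, Prod.smul_fst, nsq_rt_CGeo]
  congr 1
  simp only [Prod.smul_fst, Prod.smul_snd, smul_eq_mul, map_mul]
  linear_combination (e.2.1 * conj e.1.1 + e.2.2 * conj e.1.2) * h1

theorem continuousAt_lam {e : W × W} (hx : e.1 ≠ 0) : ContinuousAt lam e := by
  have h1 : (nsq e.1 : ℂ) ≠ 0 := Complex.ofReal_ne_zero.2 (nsq_pos hx).ne'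
  have h2 : Continuous fun e : W × W => (nsq e.1 : ℂ) :=
    Complex.continuous_ofReal.comp (continuous_nsq.comp continuous_fst)
  have h3 : Continuous fun e : W × W => e.2.1 * conj e.1.1 + e.2.2 * conj e.1.2 := by fun_prop
  exact h3.continuousAt.div h2.continuousAt h1

theorem det2_smul (c d : ℂ) (x y : W) : det2 (c • x) (d • y) = c * d * det2 x y := by
  simp only [det2, Prod.smul_fst, Prod.smul_snd, smul_eq_mul]
  ring

theorem det2_self (x : W) : det2 x x = 0 := by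
  rw [det2]
  ring

theorem continuous_det2 : Continuous fun e : W × W => det2 e.1 e.2 := by
  unfold det2
  fun_prop

theorem CC_le {κ : W × W → ℝ} {m : ℤ} {e : W × W} (hκ : κ e ∈ Icc (0 : ℝ) 1) (h : CC κ m e) :
    nsq e.2 ≤ nsq e.1 := by
  obtain ⟨a, b, ha, hb, h1, h2⟩ := h
  by_contra hc
  rw [not_le] at hc
  have h3 : ‖(a : ℂ) * ee m + b * ee (m + 1)‖ ≤ a + b := by
    refine (norm_add_le _ _).trans (le_of_eq ?_)
    rw [norm_mul, norm_mul, norm_ee, norm_ee, mul_one, mul_one, Complex.norm_real,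
      Complex.norm_real, Real.norm_of_nonneg ha, Real.norm_of_nonneg hb]
  have h4 : 1 < a + b := by
    by_contra h5
    rw [not_lt] at h5
    have h6 : ‖(a : ℂ) * ee m + b * ee (m + 1)‖ ^ 2 ≤ 1 :=
      pow_le_one₀ (norm_nonneg _) (h3.trans h5)
    have h7 := mul_le_mul_of_nonneg_right h6 (nsq_nonneg e.1)
    rw [← nsq_smul, ← h1] at h7
    linarith
  have h8 : 0 ≤ κ e * (nsq e.2 - nsq e.1) := mul_nonneg hκ.1 (by linarith)
  have h9 : 0 ≤ (1 - κ e) * (a + b - 1) := mul_nonneg (by linarith [hκ.2]) (by linarith)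
  have h10 : κ e = 0 := by
    rcases mul_eq_zero.1 (show κ e * (nsq e.2 - nsq e.1) = 0 by linarith) with h | h
    · exact h
    · linarith
  rw [h10] at h2
  linarith

theorem CC_chord {κ : W × W → ℝ} {m : ℤ} {e : W × W} (hκ : κ e = 0) (hm : m = -3 ∨ m = 6)
    (h : CC κ m e) : ∃ μ, Chord μ ∧ e.2 = μ • e.1 := by
  obtain ⟨a, b, ha, hb, h1, h2⟩ := h
  rw [hκ] at h2
  refine ⟨_, ⟨(m : Zp), ((m + 1 : ℤ) : Zp), b, ?_, ?_, ⟨hb, by linarith⟩, ?_⟩, h1⟩
  · rcases hm with rfl | rfl <;> decide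
  · rcases hm with rfl | rfl <;> decide
  · have h3 : a = 1 - b := by linarith
    rw [rt_intCast, rt_intCast, h3]
    push_cast
    rfl

theorem CC_arc {κ : W × W → ℝ} {m : ℤ} {e : W × W} (hκ : κ e = 1) (hx : e.1 ≠ 0) (h : CC κ m e) :
    ∃ D ∈ Icc (m : ℝ) (m + 1), e.2 = ee D • e.1 := by
  obtain ⟨a, b, ha, hb, h1, h2⟩ := h
  rw [hκ] at h2
  have hpi := Real.pi_pos
  set w : ℂ := a * ee 0 + b * ee 1 with hw
  have h3 : (a : ℂ) * ee m + b * ee (m + 1) = ee m * w := by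
    rw [hw, ee_zero, ee_add]
    ring
  rw [h3] at h1
  have h4 : ‖w‖ = 1 := by
    have h5 : nsq e.2 = ‖w‖ ^ 2 * nsq e.1 := by
      rw [h1, nsq_smul, norm_mul, norm_ee, one_mul]
    have h6 : ‖w‖ ^ 2 = 1 := by
      apply mul_right_cancel₀ (nsq_pos hx).ne'
      linarith
    exact (pow_eq_one_iff_of_nonneg (norm_nonneg _) two_ne_zero).1 h6
  have h7 := polar_CSec w
  rw [h4, Complex.ofReal_one, one_mul] at h7
  set u : ℝ := 37 * arg w / (2 * Real.pi) with hu
  have h8 : 0 ≤ u := by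
    have h9 : 0 ≤ arg w := by
      rw [Complex.arg_nonneg_iff, hw, im_comb_CGeo, ee_zero, Complex.one_im, mul_zero, zero_add,
        im_one_CGeo]
      exact mul_nonneg hb s_pos_CGeo.le
    positivity
  have h10 : u ≤ 37 / 2 := by
    have h11 := Complex.arg_le_pi w
    rw [hu, div_le_iff₀ (by positivity)]
    linarith
  have h12 : u ≤ 1 := by
    by_contra h13
    rw [not_le] at h13
    have h14 : 0 < (ee (u - 1)).im := im_pos_CGeo (by linarith) (by linarith)
    rw [← mul_conj_CGeo, ← h7, hw, add_mul, mul_assoc, mul_assoc, mul_conj_CGeo, mul_conj_CGeo,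
      im_comb_CGeo, sub_self, zero_sub, im_neg_CGeo, ee_zero, Complex.one_im, im_one_CGeo] at h14
    have h15 := mul_nonneg ha s_pos_CGeo.le
    linarith
  refine ⟨m + u, ⟨by linarith, by linarith⟩, ?_⟩
  rw [ee_add, ← h7]
  exact h1

theorem neg3_CGeo {a b : ℝ} (ha : 0 ≤ a) (hb : 0 ≤ b)
    (h : 0 ≤ ((a : ℂ) * ee ((-3 : ℤ) : ℝ) + b * ee (((-3 : ℤ) : ℝ) + 1)).im) :
    (a : ℂ) * ee ((-3 : ℤ) : ℝ) + b * ee (((-3 : ℤ) : ℝ) + 1) = 0 := by
  have e1 : ((-3 : ℤ) : ℝ) + 1 = -2 := by norm_num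
  have e2 : ((-3 : ℤ) : ℝ) = -3 := by norm_num
  have p2 : 0 < (ee 2).im := im_pos_CGeo (by norm_num) (by norm_num)
  have p3 : 0 < (ee 3).im := im_pos_CGeo (by norm_num) (by norm_num)
  rw [e1, e2, im_comb_CGeo, im_neg_CGeo, im_neg_CGeo] at h
  have h1 := mul_nonneg ha p3.le
  have h2 := mul_nonneg hb p2.le
  have h3 : a = 0 := (mul_eq_zero.1 (show a * (ee 3).im = 0 by linarith)).resolve_right p3.ne'
  have h4 : b = 0 := (mul_eq_zero.1 (show b * (ee 2).im = 0 by linarith)).resolve_right p2.ne'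
  rw [h3, h4, Complex.ofReal_zero, zero_mul, zero_mul, add_zero]

theorem pos6_CGeo {a b : ℝ} (ha : 0 ≤ a) (hb : 0 ≤ b) :
    0 ≤ ((a : ℂ) * ee ((6 : ℤ) : ℝ) + b * ee (((6 : ℤ) : ℝ) + 1)).im ∧
      (((a : ℂ) * ee ((6 : ℤ) : ℝ) + b * ee (((6 : ℤ) : ℝ) + 1)).im = 0 →
        (a : ℂ) * ee ((6 : ℤ) : ℝ) + b * ee (((6 : ℤ) : ℝ) + 1) = 0) := by
  have p6 : 0 < (ee ((6 : ℤ) : ℝ)).im := im_pos_CGeo (by norm_num) (by norm_num)
  have p7 : 0 < (ee (((6 : ℤ) : ℝ) + 1)).im := im_pos_CGeo (by norm_num) (by norm_num)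
  have h1 := mul_nonneg ha p6.le
  have h2 := mul_nonneg hb p7.le
  rw [im_comb_CGeo]
  refine ⟨add_nonneg h1 h2, fun h => ?_⟩
  have h3 : a = 0 :=
    (mul_eq_zero.1 (show a * (ee ((6 : ℤ) : ℝ)).im = 0 by linarith)).resolve_right p6.ne'
  have h4 : b = 0 :=
    (mul_eq_zero.1 (show b * (ee (((6 : ℤ) : ℝ) + 1)).im = 0 by linarith)).resolve_right p7.ne'
  rw [h3, h4, Complex.ofReal_zero, zero_mul, zero_mul, add_zero]

theorem CC_real {κ : W × W → ℝ} {m : ℤ} (hm : m = -3 ∨ m = 6) {x : W} (hx : x ≠ 0) {l : ℝ}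
    (hl : 0 < l) : ¬ CC κ m (x, (l : ℂ) • x) := by
  rintro ⟨a, b, ha, hb, h1, -⟩
  have h2 : (l : ℂ) = a * ee m + b * ee (m + 1) := smul_left_injective ℂ hx h1
  have h3 : ((a : ℂ) * ee m + b * ee (m + 1)).im = 0 := by rw [← h2, Complex.ofReal_im]
  have h4 : (a : ℂ) * ee m + b * ee (m + 1) = 0 := by
    rcases hm with rfl | rfl
    · exact neg3_CGeo ha hb h3.ge
    · exact (pos6_CGeo ha hb).2 h3
  rw [h4] at h2
  exact hl.ne' (Complex.ofReal_eq_zero.1 h2)

theorem CC_disj {κ κ' : W × W → ℝ} {x y : W} (hy : y ≠ 0) (h : CC κ (-3) (x, y))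
    (h' : CC κ' 6 (x, y)) : False := by
  obtain ⟨a, b, ha, hb, h1, -⟩ := h
  obtain ⟨a', b', ha', hb', h2, -⟩ := h'
  dsimp only at h1 h2
  have hx : x ≠ 0 := by
    rintro rfl
    exact hy (h1.trans (smul_zero _))
  have h3 := smul_left_injective ℂ hx (h1.symm.trans h2)
  have h4 := (pos6_CGeo ha' hb').1
  rw [← h3] at h4
  rw [neg3_CGeo ha hb h4, zero_smul] at h1
  exact hy h1

theorem CC_diag (κ : W × W → ℝ) {x : W} (hx : x ≠ 0) : ∀ᶠ e in 𝓝 (x, x), ¬ CC κ 6 e := by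
  have h1 : ContinuousAt (fun e => sb 6 (lam e)) (x, x) :=
    (continuous_sb 6).continuousAt.comp (continuousAt_lam hx)
  have h2 : lam (x, x) = 1 := by
    have h := lam_smul hx 1
    rwa [one_smul] at h
  have h3 : sb 6 (lam (x, x)) < 0 := by
    rw [h2, sb, one_mul, Complex.conj_im]
    exact div_neg_of_neg_of_pos (neg_lt_zero.2 (im_pos_CGeo (by norm_num) (by norm_num)))
      s_pos_CGeo
  have h4 : ∀ᶠ e : W × W in 𝓝 (x, x), e.1 ≠ 0 :=
    continuous_fst.continuousAt.eventually_ne hx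
  filter_upwards [h1.eventually_lt continuousAt_const h3, h4] with e he he1
  rintro ⟨a, b, -, hb, h5, -⟩
  have h6 : lam e = a * ee ((6 : ℤ) : ℝ) + b * ee (((6 : ℤ) : ℝ) + 1) := by
    rw [← lam_smul he1 (a * ee ((6 : ℤ) : ℝ) + b * ee (((6 : ℤ) : ℝ) + 1)), ← h5]
  rw [h6, sb_comb] at he
  linarith

theorem k1_mem (e : W × W) : k1 e ∈ Icc (0 : ℝ) 1 :=
  ⟨le_max_left _ _, max_le zero_le_one (min_le_left _ _)⟩

theorem k2_mem (e : W × W) : k2 e ∈ Icc (0 : ℝ) 1 :=
  ⟨le_max_left _ _, max_le zero_le_one (min_le_left _ _)⟩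

theorem continuous_k1 : Continuous k1 := by
  have h := continuous_nsq
  unfold k1
  fun_prop

theorem continuous_k2 : Continuous k2 := by
  have h := continuous_nsq
  unfold k2
  fun_prop

theorem k1_rt (k : Zp) (e : W × W) : k1 (rt k • e) = k1 e := by
  rw [k1, k1, Prod.smul_fst, nsq_rt_CGeo]

theorem k2_rt (k : Zp) (e : W × W) : k2 (rt k • e) = k2 e := by
  rw [k2, k2, Prod.smul_snd, nsq_rt_CGeo]

theorem k1_zero {e : W × W} (h : ‖e.1‖ ≤ 1 / 200) : k1 e = 0 := by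
  have h1 := pow_le_pow_left₀ (norm_nonneg _) ((norm_fst_le e.1).trans h) 2
  have h2 := pow_le_pow_left₀ (norm_nonneg _) ((norm_snd_le e.1).trans h) 2
  refine max_eq_left (min_le_of_right_le ?_)
  rw [nsq]
  linarith

theorem k1_one {e : W × W} (h : 1 / 5000 ≤ nsq e.1) : k1 e = 1 := by
  rw [k1, min_eq_left (by linarith), max_eq_right zero_le_one]

theorem k2_zero {e : W × W} (h : 200 ≤ ‖e.2‖) : k2 e = 0 := by
  refine max_eq_left (min_le_of_right_le ?_)
  rw [nsq]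
  have h1 := sq_nonneg ‖e.2.1‖
  have h2 := sq_nonneg ‖e.2.2‖
  rw [Prod.norm_def] at h
  rcases le_max_iff.1 h with h3 | h3
  · have h4 := pow_le_pow_left₀ (by norm_num) h3 2
    linarith
  · have h4 := pow_le_pow_left₀ (by norm_num) h3 2
    linarith

theorem k2_one {e : W × W} (h : nsq e.2 ≤ 10000) : k2 e = 1 := by
  rw [k2, min_eq_left (by linarith), max_eq_right zero_le_one]

end Pool.Agent.MP_2fc7fa_gt.N

end
end

section

/-! The cochains dual to arcs. -/

open scoped ComplexConjugate Topology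
open Set Complex Filter

noncomputable section

namespace Pool.Agent.MP_2fc7fa_gt.N

theorem eta_dg_CPair (κ : W × W → ℝ) (m : ℤ) : Dg 1 (eta κ m) := by
  intro x y h
  simp only [eta]
  rw [h 0 (by omega), h 1 le_rfl, dH_dg.pb (FF κ m) x y h]

theorem eta_nm_CPair (κ : W × W → ℝ) (m : ℤ) : Nm 1 (eta κ m) := by
  intro x j hj hx
  simp only [eta]
  rw [dH_nm.pb (FF κ m) x j hj hx, ite_self]

theorem phm_rt_CPair (k : Zp) (e : (W × W) × Zp) :
    phm (rt k • e.1, e.2 + k) = phm e + (k + k) := by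
  have h : det2 (rt k • e.1).1 (rt k • e.1).2 = rt (k + k) * det2 e.1.1 e.1.2 := by
    rw [rt_add]
    exact det2_smul _ _ _ _
  simp only [phm]
  rw [h]
  by_cases h0 : det2 e.1.1 e.1.2 = 0
  · rw [if_pos h0, if_pos (by rw [h0, mul_zero])]
    ring
  · rw [if_neg h0, if_neg (mul_ne_zero (rt_ne_zero _) h0), sec_rt_mul _ h0]

theorem FF_rt_CPair {κ : W × W → ℝ} (hκ : ∀ k e, κ (rt k • e) = κ e) (m : ℤ) (k : Zp)
    (e : W × W) : FF κ m (rt k • e) = FF κ m e := by
  simp only [FF, hκ, lam_rt, Prod.smul_fst, Prod.smul_snd, nsq_smul, norm_rt, one_pow, one_mul]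

theorem eta_rt_CPair {κ : W × W → ℝ} (hκ : ∀ k e, κ (rt k • e) = κ e) (m : ℤ) (k : Zp)
    (x : ℕ → W × W) : eta κ m (fun j => rt k • x j) = eta κ m x := by
  have h : ∀ e, inS m (rt k • e) ↔ inS m e := fun e => by simp only [inS, lam_rt]
  simp only [eta, pb, FF_rt_CPair hκ]
  by_cases h0 : inS m (x 0) ∧ inS m (x 1)
  · rw [if_pos h0, if_pos ⟨(h _).2 h0.1, (h _).2 h0.2⟩]
  · rw [if_neg h0, if_neg fun h' => h0 ⟨(h _).1 h'.1, (h _).1 h'.2⟩]

theorem FF_cont_CPair {κ : W × W → ℝ} (hκ : Continuous κ) (m : ℤ) {e : W × W} (hx : e.1 ≠ 0) :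
    ContinuousAt (FF κ m) e := by
  have h1 := (continuous_sa m).continuousAt.comp (continuousAt_lam hx)
  have h2 := (continuous_sb m).continuousAt.comp (continuousAt_lam hx)
  have h3 : Continuous fun e : W × W => nsq e.2 - nsq e.1 :=
    (continuous_nsq.comp continuous_snd).sub (continuous_nsq.comp continuous_fst)
  exact (hκ.continuousAt.mul h3.continuousAt).add
    ((continuousAt_const.sub hκ.continuousAt).mul ((h1.add h2).sub continuousAt_const))

theorem eta_out_CPair (κ : W × W → ℝ) {m : ℤ} {e : W × W} (hx : e.1 ≠ 0)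
    (h : sa m (lam e) < 0 ∨ sb m (lam e) < 0) : LZ (eta κ m) (𝓝 e) := by
  refine ⟨{e' | ¬ inS m e'}, ?_, fun x hx' => if_neg fun h' => hx' 0 h'.1⟩
  rcases h with h | h
  · have h1 := (continuous_sa m).continuousAt.comp (continuousAt_lam hx)
    filter_upwards [h1.eventually (gt_mem_nhds h)] with e' he' h'
    exact lt_asymm he' h'.1
  · have h1 := (continuous_sb m).continuousAt.comp (continuousAt_lam hx)
    filter_upwards [h1.eventually (gt_mem_nhds h)] with e' he' h'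
    exact lt_asymm he' h'.2

theorem eta_in_CPair (κ : W × W → ℝ) {m : ℤ} {e : W × W} (hx : e.1 ≠ 0) (h : inS m e) :
    LZ (eta κ m - pb (FF κ m) dH) (𝓝 e) := by
  have h1 := (continuous_sa m).continuousAt.comp (continuousAt_lam hx)
  have h2 := (continuous_sb m).continuousAt.comp (continuousAt_lam hx)
  refine ⟨{e' | inS m e'}, ?_, fun x hx' => ?_⟩
  · filter_upwards [h1.eventually (lt_mem_nhds h.1), h2.eventually (lt_mem_nhds h.2)]
      with e' a b
    exact ⟨a, b⟩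
  · simp only [Pi.sub_apply, eta]
    rw [if_pos ⟨hx' 0, hx' 1⟩, sub_self]

theorem phm_lz_CPair {e : W × W} (h : det2 e.1 e.2 ≠ 0) :
    LZ (pb phm tc) (comap Prod.fst (𝓝 e)) := by
  have t : Tendsto (fun d : (W × W) × Zp => det2 d.1.1 d.1.2) (comap Prod.fst (𝓝 e))
      (𝓝 (det2 e.1 e.2)) := (continuous_det2.tendsto e).comp tendsto_comap
  have h1 : LZ (pb (fun d : (W × W) × Zp => sec (det2 d.1.1 d.1.2)) tc)
      (comap Prod.fst (𝓝 e)) := by
    have := (sec_lz h).pb t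
    rwa [pb_pb] at this
  have h2 : LZ (pb phm tc - pb (fun d : (W × W) × Zp => sec (det2 d.1.1 d.1.2)) tc)
      (comap Prod.fst (𝓝 e)) := by
    refine LZ.pb_congr tc ?_
    filter_upwards [t.eventually_ne h] with d hd
    simp only [phm]
    exact if_neg hd
  exact h2.of_sub h1

theorem one_CPair {κ b N : ℝ} (hκ : κ ∈ Icc (0 : ℝ) 1) (hb : 0 ≤ b) (hN : 0 < N)
    (h : κ * (b ^ 2 * N - N) + (1 - κ) * (b - 1) = 0) : b = 1 := by
  have h1 : (b - 1) * (κ * ((b + 1) * N) + (1 - κ)) = 0 := by rw [← h]; ring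
  have h2 : 0 < (b + 1) * N := by positivity
  have h3 : 0 < κ * ((b + 1) * N) + (1 - κ) := by
    rcases hκ.1.eq_or_lt with h0 | h0
    · rw [← h0]; norm_num
    · have := mul_pos h0 h2
      linarith [hκ.2]
  have := (mul_eq_zero.1 h1).resolve_right h3.ne'
  linarith

theorem ray_CPair {κ b : ℝ} (hκ : κ ∈ Icc (0 : ℝ) 1) (hb : 0 ≤ b) {x y : W} (hx : x ≠ 0) (n : ℤ)
    (h1 : y = ((b : ℂ) * ee n) • x) (h : κ * (nsq y - nsq x) + (1 - κ) * (b - 1) = 0) :
    y = rt (n : Zp) • x := by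
  have h2 : nsq y = b ^ 2 * nsq x := by
    rw [h1, nsq_smul, norm_mul, norm_ee, mul_one, Complex.norm_real, Real.norm_eq_abs, sq_abs]
  rw [h2] at h
  rw [h1, one_CPair hκ hb (nsq_pos hx) h, rt_intCast]
  simp

theorem tend_CPair (x : Fin 3 → W) (i : Fin 3) :
    Tendsto (fun x' : Fin 3 → W => (x' i, x' 2)) (𝓝 x) (𝓝 (x i, x 2)) :=
  ((continuous_apply i).prodMk (continuous_apply 2)).tendsto x

theorem tend_CPair' (x : Fin 3 → W) (i : Fin 3) :
    Tendsto (fun e : (Fin 3 → W) × Zp => ((e.1 i, e.1 2), e.2)) (comap Prod.fst (𝓝 x))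
      (comap Prod.fst (𝓝 (x i, x 2))) :=
  tendsto_comap_iff.2 ((tend_CPair x i).comp tendsto_comap)

theorem yy_dg (κ : W × W → ℝ) (m : ℤ) : Dg 3 (yy κ m) :=
  (tc_dg.pb phm).cup ((eta_dg_CPair κ m).pb Prod.fst)

theorem yy_nm (κ : W × W → ℝ) (m : ℤ) : Nm 3 (yy κ m) :=
  (tc_nm.pb phm).cup ((eta_nm_CPair κ m).pb Prod.fst)

theorem yy_inv {κ : W × W → ℝ} (hκ : ∀ k e, κ (rt k • e) = κ e) (m : ℤ) (k : Zp) :
    pb (fun e : (W × W) × Zp => (rt k • e.1, e.2 + k)) (yy κ m) = yy κ m := by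
  funext x
  have h1 : tc (fun j => phm (rt k • (x j).1, (x j).2 + k)) = tc fun j => phm (x j) := by
    simp only [phm_rt_CPair]
    exact tc_add _ _
  have h2 := eta_rt_CPair hκ m k fun j => (shift 2 x j).1
  exact congrArg₂ (· * ·) h1 h2

/-- If `det2 ≠ 0` the factor `pb phm tc` is locally zero (`sec_lz`). Otherwise `e.2 = lam e • e.1`;
either `sa` or `sb` is negative, so `inS` fails near `e`, or `FF ≠ 0` and `dH_lz` applies. -/
theorem yy_lz {κ : W × W → ℝ} (hκ : Continuous κ) {m : ℤ} {e : W × W} (hx : e.1 ≠ 0)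
    (h : ¬ CC κ m e) : LZ (yy κ m) (comap Prod.fst (𝓝 e)) := by
  by_cases h0 : det2 e.1 e.2 = 0
  swap
  · exact (phm_lz_CPair h0).cup_left _ _
  refine LZ.cup_right (LZ.pb ?_ tendsto_comap) _ _
  by_cases h1 : sa m (lam e) < 0 ∨ sb m (lam e) < 0
  · exact eta_out_CPair κ hx h1
  rw [not_or, not_lt, not_lt] at h1
  have h2 : FF κ m e ≠ 0 := fun h2 =>
    h ⟨_, _, h1.1, h1.2, by rw [← sa_sb]; exact eq_lam hx h0, h2⟩
  obtain ⟨U, hU, h3⟩ := (dH_lz h2).pb (FF_cont_CPair hκ m hx)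
  refine ⟨U, hU, fun x hx' => ?_⟩
  simp only [eta]
  rw [h3 x hx', ite_self]

/-- If `CC` holds with `a, b > 0` then `eta` is `pb (FF κ m) dH` near `e`, which is closed. If `a = 0`
then `FF = (b - 1) (κ (b + 1) nsq x + 1 - κ)`, so `b = 1` and `e.2 = rt (m + 1) • e.1`. -/
theorem yy_dd {κ : W × W → ℝ} (hκ : Continuous κ) (hκ' : ∀ e, κ e ∈ Icc (0 : ℝ) 1) {m : ℤ}
    {e : W × W} (hx : e.1 ≠ 0) (h : ∀ k, e.2 ≠ rt k • e.1) :
    LZ (dd 4 (yy κ m)) (comap Prod.fst (𝓝 e)) := by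
  by_cases hc : CC κ m e
  swap
  · exact (yy_lz hκ hx hc).dd 4
  obtain ⟨a, b, ha, hb, h1, h2⟩ := hc
  rcases ha.eq_or_lt with rfl | ha'
  · refine absurd (ray_CPair (hκ' e) hb hx (m + 1) ?_ (by simpa using h2)) (h _)
    rw [h1]
    simp
  rcases hb.eq_or_lt with rfl | hb'
  · refine absurd (ray_CPair (hκ' e) ha hx m ?_ (by simpa using h2)) (h _)
    rw [h1]
    simp
  have h3 : lam e = a * ee m + b * ee (m + 1) := by
    rw [← lam_smul hx (a * ee m + b * ee (m + 1)), ← h1]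
  have h4 : inS m e := ⟨by rw [h3, sa_comb]; exact ha', by rw [h3, sb_comb]; exact hb'⟩
  have h5 : LZ (dd 2 (eta κ m)) (𝓝 e) := by
    have := (eta_in_CPair κ hx h4).dd 2
    rw [dd_sub, ← pb_dd, dH_dd] at this
    exact this.of_sub (LZ.zero _)
  refine LZ.dd_cup (n := 2) (m := 1) (tc_dg.pb phm) ?_ ?_
  · rw [← pb_dd, tc_dd]
    exact LZ.zero _
  · rw [← pb_dd]
    exact h5.pb tendsto_comap

theorem yy_near {κ : W × W → ℝ} {m : ℤ} {e : W × W} (hx : e.1 ≠ 0) {D : ℝ}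
    (hD : D ∈ Ioo (m : ℝ) (m + 1)) (h : e.2 = ee D • e.1) (hκ : ∀ᶠ e' in 𝓝 e, κ e' = 1) :
    LZ (pb (fun e' => (e', 0)) (yy κ m) -
      pb (fun e' : W × W => (det2 e'.1 e'.2, nsq e'.2 - nsq e'.1)) th3) (𝓝 e) := by
  have h3 : lam e = ee D := by rw [← lam_smul hx (ee D), ← h]
  have h4 : inS m e := by
    unfold inS
    rw [h3]
    exact sa_sb_pos hD
  have h5 : LZ (pb (FF κ m) dH - pb (fun e' : W × W => nsq e'.2 - nsq e'.1) dH) (𝓝 e) := by
    refine LZ.pb_congr dH ?_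
    filter_upwards [hκ] with e' he'
    simp [FF, he']
  have h6 : LZ (eta κ m - pb (fun e' : W × W => nsq e'.2 - nsq e'.1) dH) (𝓝 e) := by
    simpa using (eta_in_CPair κ hx h4).add h5
  have h7 : LZ (pb (fun e' : W × W => phm (e', 0)) tc -
      pb (fun e' : W × W => sec (det2 e'.1 e'.2)) tc) (𝓝 e) := by
    refine LZ.pb_congr tc (Eventually.of_forall fun e' => ?_)
    simp only [phm]
    split_ifs with h0
    · rw [h0, sec_zero, mul_zero]
    · rfl
  exact LZ.cup_sub h7 h6 2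

theorem y6_dg : Dg 6 y6 :=
  ((yy_dg _ _).pb _).cup ((yy_dg _ _).pb _)

theorem y6_nm : Nm 6 y6 :=
  ((yy_nm _ _).pb _).cup ((yy_nm _ _).pb _)

theorem y6_inv (k : Zp) :
    pb (fun e : (Fin 3 → W) × Zp => (fun i => rt k • e.1 i, e.2 + k)) y6 = y6 := by
  funext x
  exact congrArg₂ (· * ·)
    (congrFun (yy_inv k1_rt (-3) k) fun j => (((x j).1 0, (x j).1 2), (x j).2))
    (congrFun (yy_inv k2_rt 6 k) fun j =>
      (((shift 3 x j).1 1, (shift 3 x j).1 2), (shift 3 x j).2))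

theorem y6_lz {x : Fin 3 → W} (hx : ∀ i, x i ≠ 0)
    (h : ¬ (CC k1 (-3) (x 0, x 2) ∧ CC k2 6 (x 1, x 2))) : LZ y6 (comap Prod.fst (𝓝 x)) := by
  rcases not_and_or.1 h with h | h
  · exact ((yy_lz continuous_k1 (hx 0) h).pb (tend_CPair' x 0)).cup_left _ _
  · exact ((yy_lz continuous_k2 (hx 1) h).pb (tend_CPair' x 1)).cup_right _ _

theorem y6_dd {x : Fin 3 → W} (hx : ∀ i, x i ≠ 0) (h : ∀ k, x 2 ≠ rt k • x 0 ∧ x 2 ≠ rt k • x 1) :
    LZ (dd 7 y6) (comap Prod.fst (𝓝 x)) := by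
  refine LZ.dd_cup (n := 3) (m := 3) ((yy_dg _ _).pb _) ?_ ?_
  · rw [← pb_dd]
    exact (yy_dd continuous_k1 k1_mem (e := (x 0, x 2)) (hx 0) fun k => (h k).1).pb
      (tend_CPair' x 0)
  · rw [← pb_dd]
    exact (yy_dd continuous_k2 k2_mem (e := (x 1, x 2)) (hx 1) fun k => (h k).2).pb
      (tend_CPair' x 1)

theorem y6_near {x : Fin 3 → W} (h0 : 1 / 5000 < nsq (x 0)) (h2 : nsq (x 2) < 10000)
    (h1 : x 1 ≠ 0) {D₁ D₂ : ℝ} (hD₁ : D₁ ∈ Ioo (-3 : ℝ) (-2)) (hD₂ : D₂ ∈ Ioo (6 : ℝ) 7)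
    (e₁ : x 2 = ee D₁ • x 0) (e₂ : x 2 = ee D₂ • x 1) :
    LZ (pb (fun x' => (x', 0)) y6 - pb (fun x' : Fin 3 → W =>
      (det2 (x' 0) (x' 2), nsq (x' 2) - nsq (x' 0), det2 (x' 1) (x' 2), nsq (x' 2) - nsq (x' 1)))
      th6) (𝓝 x) := by
  have hx0 : x 0 ≠ 0 := by
    intro h
    rw [h] at h0
    simp only [nsq, Prod.fst_zero, Prod.snd_zero, norm_zero] at h0
    norm_num at h0
  have c1 : ∀ᶠ e' in 𝓝 (x 0, x 2), k1 e' = 1 := by
    filter_upwards [((continuous_nsq.comp continuous_fst).tendsto (x 0, x 2)).eventually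
      (lt_mem_nhds h0)] with e' he'
    exact k1_one he'.le
  have c2 : ∀ᶠ e' in 𝓝 (x 1, x 2), k2 e' = 1 := by
    filter_upwards [((continuous_nsq.comp continuous_snd).tendsto (x 1, x 2)).eventually
      (gt_mem_nhds h2)] with e' he'
    exact k2_one he'.le
  have a1 := (yy_near (m := -3) (e := (x 0, x 2)) hx0 (D := D₁)
    ⟨by simpa using hD₁.1, by push_cast; linarith [hD₁.2]⟩ e₁ c1).pb (tend_CPair x 0)
  have a2 := (yy_near (m := 6) (e := (x 1, x 2)) h1 (D := D₂)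
    ⟨by simpa using hD₂.1, by push_cast; linarith [hD₂.2]⟩ e₂ c2).pb (tend_CPair x 1)
  exact LZ.cup_sub (a := pb (fun x' : Fin 3 → W => ((x' 0, x' 2), (0 : Zp))) (yy k1 (-3)))
    (a' := pb (fun x' : Fin 3 → W => (det2 (x' 0) (x' 2), nsq (x' 2) - nsq (x' 0))) th3)
    (b := pb (fun x' : Fin 3 → W => ((x' 1, x' 2), (0 : Zp))) (yy k2 6))
    (b' := pb (fun x' : Fin 3 → W => (det2 (x' 1) (x' 2), nsq (x' 2) - nsq (x' 1))) th3) a1 a2 3

end Pool.Agent.MP_2fc7fa_gt.N

end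
end

section

/-! The counting cochain on the data space. -/

open scoped ComplexConjugate Topology
open Set Complex Filter

noncomputable section

namespace Pool.Agent.MP_2fc7fa_gt.N

lemma sum_ne_CData (y : W) : ((∑ j, ‖vec 1 y j‖ ^ 2 : ℝ) : ℂ) ≠ 0 := by
  refine ofReal_ne_zero.2 (ne_of_gt ?_)
  rw [Fin.sum_univ_three, show vec 1 y 0 = 1 from rfl, norm_one]
  positivity

lemma pr_smul_CData {c : ℂ} (hc : c ≠ 0) (x : V) : pr (c • x) = pr x := by
  funext a b
  simp only [pr, Pi.smul_apply, smul_eq_mul, norm_mul, mul_pow, ← Finset.mul_sum, map_mul,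
    ofReal_mul, ofReal_pow]
  rw [mul_mul_mul_comm, mul_conj', mul_div_mul_left _ _
    (pow_ne_zero 2 (ofReal_ne_zero.2 (norm_ne_zero_iff.2 hc)))]

lemma cont_CData (j : Jx) : Continuous (xi j) := by
  unfold xi
  fun_prop

lemma four_CData {z : Zz} (h : ∀ j, xi j z = 0) (i : Fin 3) (g : Zp) (a b : Fin 3) :
    z i g a b = actM g (z i 0) a b := by
  obtain ⟨u, hu⟩ : ∃ u : Zp → ℂ, ∀ g, u g = rt (-(g * (wt a - wt b))) * z i g a b :=
    ⟨_, fun _ => rfl⟩
  have h1 : ∀ n, n ≠ 0 → ZMod.dft u n = 0 := fun n hn => by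
    rw [← h ((i, a, b), ⟨n, hn⟩), ZMod.dft_apply, xi]
    refine Finset.sum_congr rfl fun g _ => ?_
    rw [hu, mul_add, neg_add, rt_add, smul_eq_mul, mul_left_comm, mul_assoc]
    rfl
  have h2 : ∀ g, u g = ((37 : ℕ) : ℂ)⁻¹ • ZMod.dft u 0 := fun g => by
    rw [← congrFun (ZMod.dft.symm_apply_apply u) g, ZMod.invDFT_apply,
      Finset.sum_eq_single 0 (fun n _ hn => by rw [h1 n hn, smul_zero]) (by simp), zero_mul,
      AddChar.map_zero_eq_one, one_smul]
  have h3 := (h2 g).trans (h2 0).symm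
  rw [hu, hu, zero_mul, neg_zero, rt_zero, one_mul] at h3
  rw [actM, ← h3, ← mul_assoc, ← rt_add, add_neg_cancel, rt_zero, one_mul]

lemma xi_act_CData (j : Jx) (k l : Zp) (d : Dt) : xi j (act2 k l d).1 =
    rt (-(j.2 * k) + (wt j.1.2.1 - wt j.1.2.2 + j.2) * l) * xi j d.1 := by
  rw [xi, xi, Finset.mul_sum, ← Equiv.sum_comp (Equiv.addRight (k - l))]
  refine Finset.sum_congr rfl fun g _ => ?_
  simp only [act2, actM, Equiv.coe_addRight]
  rw [← mul_assoc, ← mul_assoc, ← rt_add, ← rt_add, show g + (k - l) - k + l = g by ring]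
  congr 2
  ring

theorem actM_add (k l : Zp) (P : Mat) : actM (k + l) P = actM k (actM l P) := by
  funext a b
  simp only [actM, add_mul, rt_add, mul_assoc]

theorem actM_zero (P : Mat) : actM 0 P = P := by
  funext a b
  simp only [actM, zero_mul, rt_zero, one_mul]

theorem actM_pt (k : Zp) (y : W) : actM k (pt y) = pt (rt k • y) := by
  have h : ∀ a, vec 1 (rt k • y) a = rt (k * wt a) * vec 1 y a := fun a => by
    fin_cases a <;> simp [vec, wt, rt_zero]
  funext a b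
  simp only [actM, pt, pr, h, norm_mul, norm_rt, one_mul, map_mul, conj_rt, mul_sub,
    sub_eq_add_neg (k * wt a), rt_add]
  ring

theorem aff_pt (y : W) : aff (pt y) = y := by
  have h := sum_ne_CData y
  refine Prod.ext ?_ ?_ <;> simp only [aff, pt, pr] <;> rw [div_div_div_cancel_right₀ h] <;>
    simp [vec]

theorem aff_actM (k : Zp) (P : Mat) : aff (actM k P) = rt k • aff P := by
  refine Prod.ext ?_ ?_ <;> simp [aff, actM, wt, rt_zero, mul_div_assoc]

theorem pt_injective : Function.Injective pt := Function.LeftInverse.injective aff_pt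

theorem continuousAt_aff (y : W) : ContinuousAt aff (pt y) := by
  have h : pt y 0 0 ≠ 0 := div_ne_zero (by simp [vec]) (sum_ne_CData y)
  have hc : ∀ a b, ContinuousAt (fun P : Mat => P a b) (pt y) := fun a b =>
    (continuous_apply_apply a b).continuousAt
  exact ((hc 1 0).div (hc 0 0) h).prodMk ((hc 2 0).div (hc 0 0) h)

/-- A point that is not fixed lies in the affine chart and is not the origin. -/
theorem exists_pt {x : V} (hx : x ≠ 0) (h : actM 1 (pr x) ≠ pr x) : ∃ y, y ≠ 0 ∧ pr x = pt y := by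
  have h0 : x 0 ≠ 0 := fun h0 => h (by
    funext a b
    fin_cases a <;> fin_cases b <;> simp [actM, pr, wt, rt_zero, h0])
  have h1 : pr x = pt (x 1 / x 0, x 2 / x 0) := by
    rw [pt, ← pr_smul_CData h0 (vec 1 _)]
    congr 1
    funext a
    fin_cases a <;> simp [vec, mul_div_cancel₀ _ h0]
  refine ⟨_, fun e => h ?_, h1⟩
  rw [h1, e, actM_pt, smul_zero]

/-- Fourier inversion (`ZMod.dft`, or orthogonality of characters): if all `xi j z` vanish then
`g ↦ rt (-(g * w)) * z i g a b` is constant. -/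
theorem EE_lz {z : Zz} (h : ¬ ∀ i g, z i g = actM g (z i 0)) : LZ EE (comap Prod.fst (𝓝 z)) := by
  obtain ⟨j, hj⟩ : ∃ j, xi j z ≠ 0 := by
    by_contra! h0
    exact h fun i g => funext fun a => funext fun b => four_CData h0 i g a b
  have ht : Tendsto (fun d : Dt => xi j d.1) (comap Prod.fst (𝓝 z)) (𝓝 (xi j z)) :=
    ((cont_CData j).tendsto z).comp tendsto_comap
  have h1 : ph j =ᶠ[comap Prod.fst (𝓝 z)] fun d => sec (xi j d.1) := by
    filter_upwards [ht.eventually_ne hj] with d hd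
    rw [ph, if_neg hd]
  have h2 := (sec_lz hj).pb ht
  rw [pb_pb] at h2
  have h3 : j ∈ jl := Finset.mem_toList.2 (Finset.mem_univ j)
  rw [EE]
  exact cups_lz (List.mem_map_of_mem h3) ((LZ.pb_congr tc h1).of_sub h2)

/-- `xi j (act2 k l d).1 = rt c * xi j d.1` and `ph j (act2 k l d) = ph j d + c` for
`c = -(n * k) + (w + n) * l`. -/
theorem EE_inv (k l : Zp) : pb (act2 k l) EE = EE := by
  funext x
  refine cups_congr jl ph ph _ x fun j _ =>
    ⟨-(j.2 * k) + (wt j.1.2.1 - wt j.1.2.2 + j.2) * l, fun a => ?_⟩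
  rw [ph, ph, xi_act_CData]
  by_cases h : xi j (x a).1 = 0
  · rw [if_pos h, if_pos (by rw [h, mul_zero])]
    simp only [act2]
    ring
  · rw [if_neg h, if_neg (mul_ne_zero (rt_ne_zero _) h), sec_rt_mul _ h]

theorem EE_orb {x : ℕ → Dt} (h : ∀ a, ∃ y, Orb (x a).1 y) (h0 : ∀ a, (x a).2.2 = 0) :
    EE x = E0 fun a => (x a).2.1 := by
  refine cups_congr jl ph (fun j γ => -(j.2 * γ)) x _ fun j _ => ⟨0, fun a => ?_⟩
  obtain ⟨y, hy⟩ := h a
  have h1 : (act2 1 0 (x a)).1 = (x a).1 := by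
    funext i g
    simp only [act2]
    rw [hy, hy, actM_pt, smul_smul, ← rt_add, add_zero, add_sub_cancel]
  have h2 := xi_act_CData j 1 0 (x a)
  rw [h1, mul_zero, add_zero, mul_one, ← sub_eq_zero, ← one_sub_mul, mul_eq_zero,
    or_iff_right fun e => j.2.2 (neg_eq_zero.1 (rt_injective
      ((sub_eq_zero.1 e).symm.trans rt_zero.symm)))] at h2
  rw [ph, if_pos h2, h0, mul_zero]

theorem rho_act (k l : Zp) (d : Dt) :
    rho (act2 k l d) = (fun i => rt l • (rho d).1 i, (rho d).2 + l) := by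
  refine Prod.ext (funext fun i => ?_) rfl
  simp only [rho, act2]
  rw [← actM_add, ← aff_actM, ← actM_add,
    show d.2.1 + k - (d.2.2 + l) - k + l = d.2.1 - d.2.2 by ring,
    show -(d.2.1 + k - (d.2.2 + l)) + k = l + -(d.2.1 - d.2.2) by ring]

theorem rho_orb {d : Dt} {x : Fin 3 → W} (h : Orb d.1 x) : rho d = (x, d.2.2) := by
  refine Prod.ext (funext fun i => ?_) rfl
  simp only [rho]
  rw [h, actM_pt, smul_smul, ← rt_add, neg_add_cancel, rt_zero, one_smul, aff_pt]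

theorem rho_tendsto {z : Zz} {x : Fin 3 → W} (h : Orb z x) :
    Tendsto rho (comap Prod.fst (𝓝 z)) (comap Prod.fst (𝓝 x)) := by
  rw [tendsto_comap_iff, tendsto_pi_nhds]
  intro i U hU
  have h1 : ∀ g : Zp, Tendsto (fun z' : Zz => aff (actM (-g) (z' i g))) (𝓝 z) (𝓝 (x i)) :=
    fun g => by
      have h2 : Continuous fun z' : Zz => actM (-g) (z' i g) := by
        unfold actM
        fun_prop
      have h3 := h2.tendsto z
      rw [h, actM_pt, smul_smul, ← rt_add, neg_add_cancel, rt_zero, one_smul] at h3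
      have h4 := (continuousAt_aff (x i)).tendsto.comp h3
      rwa [aff_pt] at h4
  have h5 : ∀ᶠ z' in 𝓝 z, ∀ g : Zp, aff (actM (-g) (z' i g)) ∈ U :=
    eventually_all.2 fun g => h1 g hU
  exact mem_map.2 ((tendsto_comap.eventually h5).mono fun d hd => hd _)

theorem E0_dg : Dg NN E0 := by
  have h := cups_dg (jl.map fun (j : Jx) (γ : Zp) => -(j.2 * γ))
  rwa [List.length_map] at h

theorem E0_nm : Nm NN E0 := by
  have h := cups_nm (jl.map fun (j : Jx) (γ : Zp) => -(j.2 * γ))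
  rwa [List.length_map] at h

theorem WW_dg : Dg (NN + 6) WW := by
  have h := cups_dg (jl.map ph)
  rw [List.length_map] at h
  rw [add_comm]
  exact (y6_dg.pb rho).cup h

theorem WW_nm : Nm (NN + 6) WW := by
  have h := cups_nm (jl.map ph)
  rw [List.length_map] at h
  rw [add_comm]
  exact (y6_nm.pb rho).cup h

theorem WW_inv (k l : Zp) : pb (act2 k l) WW = WW := by
  rw [WW, pb_cup, EE_inv, pb_pb, funext (rho_act k l)]
  exact congrArg (fun c => cup 6 (pb rho c) EE) (y6_inv l)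

lemma orb_CData {z : Zz} (h : Rg z) :
    (¬ ∀ i g, z i g = actM g (z i 0)) ∨ ∃ x, Orb z x ∧ ∀ i, x i ≠ 0 := by
  refine or_iff_not_imp_left.2 fun h1 => ?_
  rw [not_not] at h1
  have h2 : ∀ i, ∃ y, y ≠ 0 ∧ z i 0 = pt y := fun i => by
    obtain ⟨x, hx, e⟩ := h.1 i 0
    rw [e]
    exact exists_pt hx (by rw [← e, ← h1]; exact h.2.1 i)
  choose y h3 h4 using h2
  exact ⟨y, fun i g => by rw [h1, h4, actM_pt], h3⟩

theorem WW_dd {z : Zz} (h : Rg z) : LZ (dd (NN + 6 + 1) WW) (comap Prod.fst (𝓝 z)) := by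
  rcases orb_CData h with h1 | ⟨x, h1, h2⟩
  · exact ((EE_lz h1).cup_right _ _).dd _
  · have h3 := (y6_dd h2 fun k => ⟨fun e => (h.2.2 k).1 (by rw [h1, h1, rt_zero, one_smul, e]),
      fun e => (h.2.2 k).2 (by rw [h1, h1, rt_zero, one_smul, e])⟩).pb (rho_tendsto h1)
    have h4 := cups_dd (jl.map ph)
    rw [List.length_map] at h4
    rw [pb_dd] at h3
    rw [add_comm NN]
    exact LZ.dd_cup (y6_dg.pb rho) h3 ((congrArg (LZ · _) h4).mpr (LZ.zero _))

theorem WW_lz {z : Zz} (h : Rg z) (h' : ¬ Hit z) : LZ WW (comap Prod.fst (𝓝 z)) := by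
  rcases orb_CData h with h1 | ⟨x, h1, h2⟩
  · exact (EE_lz h1).cup_right _ _
  · exact ((y6_lz h2 fun e => h' ⟨x, h1, h2, e⟩).pb (rho_tendsto h1)).cup_left _ _

end Pool.Agent.MP_2fc7fa_gt.N

end
end

section

/-! Evaluation of cochains on cubes. -/

open scoped ComplexConjugate Topology Uniformity
open Set Complex Filter

noncomputable section

namespace Pool.Agent.MP_2fc7fa_gt.N

variable {R R' : Type} [CommRing R] [CommRing R']

section
variable {D D' : Type}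

theorem skip_zero_CoB (x : ℕ → D) : skip 0 x = shift 1 x := by
  funext j; simp [skip, shift]

theorem skip_succ_CoB (i : ℕ) (x : ℕ → D) : skip (i + 1) x = cons (x 0) (skip i (shift 1 x)) := by
  funext j; cases j with
  | zero => simp [skip, cons]
  | succ j => simp [skip, cons, shift]

theorem dd_succ_CoB (n : ℕ) (c : Co D R) (x : ℕ → D) :
    dd (n + 1) c x = c (shift 1 x) - dd n (fun y => c (cons (x 0) y)) (shift 1 x) := by
  simp only [dd]
  rw [Finset.sum_range_succ', skip_zero_CoB]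
  simp only [skip_succ_CoB, pow_succ, mul_neg, mul_one, neg_mul, Finset.sum_neg_distrib]
  ring

theorem prism_zero_CoB (α β : D → D') (x : ℕ → D) :
    prism α β 0 x = cons (α (x 0)) fun j => β (x j) := by
  funext j; cases j with
  | zero => simp [prism, cons]
  | succ j => simp [prism, cons]

theorem prism_succ_CoB (α β : D → D') (i : ℕ) (x : ℕ → D) :
    prism α β (i + 1) x = cons (α (x 0)) (prism α β i (shift 1 x)) := by
  funext j; cases j with
  | zero => simp [prism, cons]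
  | succ j =>
    simp only [prism, cons, shift, add_le_add_iff_right, add_tsub_cancel_right]
    split_ifs with h
    · rfl
    · congr 2; omega

theorem pris_succ_CoB (α β : D → D') (n : ℕ) (c : Co D' R) (x : ℕ → D) :
    pris α β (n + 1) c x = c (cons (α (x 0)) fun j => β (x j)) -
      pris α β n (fun y => c (cons (α (x 0)) y)) (shift 1 x) := by
  simp only [pris]
  rw [Finset.sum_range_succ', prism_zero_CoB]
  simp only [prism_succ_CoB, pow_succ, mul_neg, mul_one, neg_mul, Finset.sum_neg_distrib]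
  ring

theorem pris_sub_CoB (α β : D → D') (n : ℕ) (a b : Co D' R) (x : ℕ → D) :
    pris α β n (fun y => a y - b y) x = pris α β n a x - pris α β n b x := by
  simp [pris, mul_sub, Finset.sum_sub_distrib]

theorem cons_shift_CoB (x : ℕ → D) : cons (x 0) (shift 1 x) = x := by
  funext j; cases j <;> rfl

theorem prism_id_CoB (α β : D → D') (n : ℕ) : ∀ (c : Co D' R), Dg n c → ∀ x,
    dd n (pris α β n c) x + pris α β (n + 1) (dd (n + 1) c) x =
      c (fun j => β (x j)) - c fun j => α (x j) := by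
  induction n with
  | zero =>
    intro c hc x
    rw [pris_succ_CoB, dd_succ_CoB]
    simp only [dd, pris, Finset.range_zero, Finset.sum_empty, mul_zero, Finset.sum_const_zero,
      zero_add, sub_zero, Finset.sum_range_one, pow_zero, one_mul]
    congr 1
    apply hc; intro j hj
    obtain rfl : j = 0 := by omega
    rfl
  | succ n ih =>
    intro c hc x
    have hc' : Dg n fun y => c (cons (α (x 0)) y) := by
      intro y z h; apply hc; intro j hj
      cases j with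
      | zero => rfl
      | succ j => exact h j (by omega)
    have h1 := ih _ hc' (shift 1 x)
    have e1 : (fun y => pris α β (n + 1) c (cons (x 0) y)) =
        pb β (fun y => c (cons (α (x 0)) (cons (β (x 0)) y))) -
          pris α β n fun y => c (cons (α (x 0)) y) := by
      funext y
      rw [pris_succ_CoB]
      simp only [Pi.sub_apply, pb]
      congr 3
      funext j; cases j <;> rfl
    have e2 : (fun y => dd (n + 1 + 1) c (cons (α (x 0)) y)) =
        fun y => c y - dd (n + 1) (fun y => c (cons (α (x 0)) y)) y := by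
      funext y; rw [dd_succ_CoB]; rfl
    rw [dd_succ_CoB, e1, dd_sub, pris_succ_CoB _ _ (n + 1), e2, pris_sub_CoB, dd_succ_CoB (n + 1),
      ← pb_dd]
    have e3 : dd (n + 1) (fun y => c (cons (cons (α (x 0)) (fun j => β (x j)) 0) y))
        (shift 1 (cons (α (x 0)) fun j => β (x j))) =
        c (cons (α (x 0)) fun j => β (shift 1 x j)) -
          pb β (dd n fun y => c (cons (α (x 0)) (cons (β (x 0)) y))) (shift 1 x) := by
      rw [dd_succ_CoB]; rfl
    have e4 : c (cons (α (x 0)) fun j => α (shift 1 x j)) = c fun j => α (x j) := by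
      congr 1; funext j; cases j <;> rfl
    have e5 : c (shift 1 (cons (α (x 0)) fun j => β (x j))) = c fun j => β (x j) := rfl
    rw [e3, e5, ← e4, Pi.sub_apply]
    linear_combination h1

end

theorem PP_zero_CoB (M n : ℕ) : PP M n (0 : Co Pt R) = 0 := by
  funext x; simp [PP, pris]

theorem II_zero (M n : ℕ) : II M n (0 : Co Pt R) = 0 := by
  induction n with
  | zero => rfl
  | succ n ih => rw [II, PP_zero_CoB, ih]

theorem II_add (M n : ℕ) (a b : Co Pt R) : II M n (a + b) = II M n a + II M n b := by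
  induction n generalizing a b with
  | zero => rfl
  | succ n ih =>
    rw [II, II, II, ← ih]; congr 1
    funext x; simp [PP, pris, mul_add, Finset.sum_add_distrib]

theorem II_sub (M n : ℕ) (a b : Co Pt R) : II M n (a - b) = II M n a - II M n b := by
  rw [eq_sub_iff_add_eq, ← II_add, sub_add_cancel]

theorem II_mul (M n : ℕ) (r : R) (c : Co Pt R) :
    II M n (fun x => r * c x) = r * II M n c := by
  induction n generalizing c with
  | zero => rfl
  | succ n ih =>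
    rw [II, II, ← ih]; congr 1
    funext x; simp only [PP, pris, Finset.mul_sum]
    exact Finset.sum_congr rfl fun _ _ => Finset.sum_congr rfl fun _ _ => by ring

theorem II_sum {ι : Type} (M n : ℕ) (s : Finset ι) (c : ι → Co Pt R) :
    II M n (∑ i ∈ s, c i) = ∑ i ∈ s, II M n (c i) := by
  classical
  induction s using Finset.induction_on with
  | empty => simp [II_zero]
  | insert a s ha ih => rw [Finset.sum_insert ha, Finset.sum_insert ha, II_add, ih]

theorem II_map (M n : ℕ) (φ : R →+* R') (c : Co Pt R) :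
    II M n (fun x => φ (c x)) = φ (II M n c) := by
  induction n generalizing c with
  | zero => rfl
  | succ n ih =>
    rw [II, II, ← ih]; congr 1
    funext x; simp [PP, pris]

theorem mesh_CoB {M k : ℕ} (hk : k ∈ Finset.range M) :
    (k : ℝ) / M ∈ Icc (0 : ℝ) 1 ∧ ((k : ℝ) + 1) / M ∈ Icc (0 : ℝ) 1 := by
  have h : (k : ℝ) + 1 ≤ M := by exact_mod_cast Finset.mem_range.1 hk
  have h0 : (0 : ℝ) ≤ k := Nat.cast_nonneg k
  have hM : (0 : ℝ) < M := by linarith
  refine ⟨⟨by positivity, ?_⟩, by positivity, ?_⟩ <;> rw [div_le_one hM] <;> linarith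

theorem prism_InC_CoB {a b : ℝ} (ha : a ∈ Icc (0 : ℝ) 1) (hb : b ∈ Icc (0 : ℝ) 1) (j : ℕ)
    {x : ℕ → Pt} (hx : InC x) : InC (prism (cons a) (cons b) j x) := by
  intro i; unfold prism; split_ifs
  exacts [cons_mem_cube ha (hx _), cons_mem_cube hb (hx _)]

theorem II_congr (M n : ℕ) {c c' : Co Pt R} (h : ∀ x, InC x → c x = c' x) :
    II M n c = II M n c' := by
  induction n generalizing c c' with
  | zero => exact h _ fun _ _ => ⟨le_rfl, zero_le_one⟩
  | succ n ih =>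
    refine ih fun x hx => Finset.sum_congr rfl fun k hk => Finset.sum_congr rfl fun j _ => ?_
    rw [h _ (prism_InC_CoB (mesh_CoB hk).1 (mesh_CoB hk).2 j hx)]

theorem PP_dd_CoB {M : ℕ} (hM : 0 < M) (n : ℕ) {c : Co Pt R} (hc : Dg n c) :
    PP M (n + 1) (dd (n + 1) c) = pb (cons 1) c - pb (cons 0) c - dd n (PP M n c) := by
  funext x
  have h1 : dd n (PP M n c) x = ∑ k ∈ Finset.range M,
      dd n (pris (cons ((k : ℝ) / M)) (cons (((k : ℝ) + 1) / M)) n c) x := by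
    simp only [dd, PP, Finset.mul_sum]; exact Finset.sum_comm
  have h2 := Finset.sum_range_sub (fun k : ℕ => c fun j => cons ((k : ℝ) / M) (x j)) M
  have hM' : (M : ℝ) ≠ 0 := by positivity
  rw [div_self hM', Nat.cast_zero, zero_div] at h2
  simp only [Pi.sub_apply, pb]
  rw [h1, ← h2, PP, ← Finset.sum_sub_distrib]
  refine Finset.sum_congr rfl fun k _ => ?_
  have := prism_id_CoB (cons ((k : ℝ) / M)) (cons (((k : ℝ) + 1) / M)) n c hc x
  push_cast
  linear_combination this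

theorem PP_dg_CoB (M : ℕ) {n : ℕ} {c : Co Pt R} (hc : Dg (n + 1) c) : Dg n (PP M (n + 1) c) := by
  intro x y h
  refine Finset.sum_congr rfl fun k _ => Finset.sum_congr rfl fun j hj => ?_
  rw [hc _ (prism _ _ j y) fun i hi => ?_]
  have := Finset.mem_range.1 hj
  unfold prism; split_ifs
  · rw [h i (by omega)]
  · rw [h _ (by omega)]

theorem ins_cons_CoB (i : ℕ) (a b : ℝ) (q : Pt) : ins (i + 1) a (cons b q) = cons b (ins i a q) := by
  funext j; cases j with
  | zero => simp [ins, cons]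
  | succ j =>
    simp only [ins, cons, add_lt_add_iff_right, add_left_inj, add_tsub_cancel_right]
    split_ifs with h1 h2
    · rfl
    · rfl
    · obtain ⟨j, rfl⟩ : ∃ l, j = l + 1 := ⟨j - 1, by omega⟩
      rfl

theorem pb_PP_CoB (M n i : ℕ) (a : ℝ) (c : Co Pt R) :
    pb (ins i a) (PP M n c) = PP M n (pb (ins (i + 1) a) c) := by
  funext x
  simp only [pb, PP, pris]
  refine Finset.sum_congr rfl fun k _ => Finset.sum_congr rfl fun j _ => ?_
  congr 2
  funext l; unfold prism; split_ifs <;> rw [ins_cons_CoB]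

theorem stokes {M : ℕ} (hM : 0 < M) (n : ℕ) {c : Co Pt R} (hc : Dg n c) :
    II M (n + 1) (dd (n + 1) c) = ∑ i ∈ Finset.range (n + 1),
      (-1) ^ i * (II M n (pb (ins i 1) c) - II M n (pb (ins i 0) c)) := by
  induction n generalizing c with
  | zero =>
    rw [II, PP_dd_CoB hM 0 hc, II_sub, II_sub]
    have : PP M 0 c = 0 := by funext x; simp [PP, pris]
    simp [this, dd_zero, II_zero, ins_zero]
  | succ n ih =>
    rw [II, PP_dd_CoB hM _ hc, II_sub, II_sub, ih (PP_dg_CoB M hc)]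
    conv_rhs => rw [Finset.sum_range_succ']
    simp only [pb_PP_CoB, ins_zero, II, pow_succ, mul_neg, mul_one, neg_mul, Finset.sum_neg_distrib]
    ring

theorem II_small_CoB (M n : ℕ) {c : Co Pt R} (h : ∀ x, InC x →
    (∀ a b j, |x a j - x b j| ≤ 1 / M) → c x = 0) : II M n c = 0 := by
  induction n generalizing c with
  | zero => exact h _ (fun _ _ => ⟨le_rfl, zero_le_one⟩) fun _ _ _ => by simp
  | succ n ih =>
    refine ih fun x hx hs => Finset.sum_eq_zero fun k hk => Finset.sum_eq_zero fun j _ => ?_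
    rw [h _ (prism_InC_CoB (mesh_CoB hk).1 (mesh_CoB hk).2 j hx) fun a b l => ?_, mul_zero]
    have e : ((k : ℝ) + 1) / M - k / M = 1 / M := by ring
    have e0 : (0 : ℝ) ≤ 1 / M := by positivity
    cases l with
    | zero =>
      unfold prism; split_ifs <;> simp only [cons]
      · simp
      · rw [abs_sub_comm, e, abs_of_nonneg e0]
      · rw [e, abs_of_nonneg e0]
      · simp
    | succ l => unfold prism; split_ifs <;> exact hs _ _ _

theorem II_lz (n : ℕ) {c : Co Pt R} (h : ∀ q ∈ cube, LZ c (𝓝[cube] q)) :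
    ∀ᶠ M in atTop, II M n c = 0 := by
  choose! U hU hc using h
  choose! V hV hVU using fun q hq => mem_nhdsWithin_iff_exists_mem_nhds_inter.1 (hU q hq)
  have hK : IsCompact cube := by
    have : cube = Set.pi univ fun _ : ℕ => Icc (0 : ℝ) 1 := by
      ext x; exact ⟨fun h i _ => h i, fun h i => h i trivial⟩
    rw [this]; exact isCompact_univ_pi fun _ => isCompact_Icc
  obtain ⟨E, hE, hE'⟩ := lebesgue_number_lemma_nhds' hK (U := fun q _ => V q) hV
  obtain ⟨δ, hδ, hδE⟩ : ∃ δ : ℝ, 0 < δ ∧ ∀ x y : Pt, (∀ j, |x j - y j| ≤ δ) → (x, y) ∈ E := by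
    rw [Pi.uniformity] at hE
    clear hE'
    refine iInf_sets_induct (p := fun E => ∃ δ : ℝ, 0 < δ ∧ ∀ x y : Pt,
      (∀ j, |x j - y j| ≤ δ) → (x, y) ∈ E) hE ⟨1, one_pos, fun _ _ _ => trivial⟩ ?_
    · rintro j s t hs ⟨δ, hδ, ht⟩
      obtain ⟨u, hu, hus⟩ := mem_comap.1 hs
      obtain ⟨ε, hε, hεu⟩ := Metric.mem_uniformity_dist.1 hu
      exact ⟨min δ (ε / 2), by positivity, fun x y h => ⟨hus (hεu (lt_of_le_of_lt
        ((h j).trans (min_le_right _ _)) (half_lt_self hε))),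
        ht x y fun l => (h l).trans (min_le_left _ _)⟩⟩
  filter_upwards [(tendsto_const_div_atTop_nhds_zero_nat (1 : ℝ)).eventually (ge_mem_nhds hδ)]
    with M hM
  refine II_small_CoB M n fun x hx hs => ?_
  obtain ⟨⟨q, hq⟩, hb⟩ := hE' (x 0) (hx 0)
  exact hc q hq x fun j => hVU q hq ⟨hb (hδE _ _ fun l => (hs 0 j l).trans hM), hx j⟩

theorem PP_nm_CoB (M : ℕ) {n : ℕ} {c : Co Pt R} (hc : Nm (n + 1) c) : Nm n (PP M (n + 1) c) := by
  intro x i hi hx
  refine Finset.sum_eq_zero fun k _ => Finset.sum_eq_zero fun j _ => ?_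
  by_cases h : i + 1 ≤ j
  · rw [hc _ i (by omega) ?_, mul_zero]
    simp only [prism]; rw [if_pos (by omega), if_pos h, hx]
  · rw [hc _ (i + 1) (by omega) ?_, mul_zero]
    simp only [prism]; rw [if_neg h, if_neg (by omega)]
    simp [hx]

theorem II_indep (M : ℕ) {n i : ℕ} {c : Co Pt R} (hc : Nm n c) (hi : i < n)
    (h : ∀ x y, InC x → InC y → (∀ a j, j ≠ i → x a j = y a j) → c x = c y) :
    II M n c = 0 := by
  induction n generalizing c i with
  | zero => omega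
  | succ n ih =>
    cases i with
    | zero =>
      rw [II, II_congr M n (c' := 0), II_zero]
      intro x hx
      refine Finset.sum_eq_zero fun k hk => Finset.sum_eq_zero fun j hj => ?_
      have hk := mesh_CoB hk
      rw [h _ _ (prism_InC_CoB hk.1 hk.2 j hx) (prism_InC_CoB hk.1 hk.1 j hx),
        hc _ j (Finset.mem_range.1 hj), mul_zero]
      · simp [prism]
      · intro a l hl
        obtain ⟨l, rfl⟩ : ∃ m, l = m + 1 := ⟨l - 1, by omega⟩
        unfold prism; split_ifs <;> rfl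
    | succ i =>
      refine ih (PP_nm_CoB M hc) (i := i) (by omega) fun x y hx hy hxy => ?_
      refine Finset.sum_congr rfl fun k hk => Finset.sum_congr rfl fun j _ => ?_
      have hk := mesh_CoB hk
      rw [h _ _ (prism_InC_CoB hk.1 hk.2 j hx) (prism_InC_CoB hk.1 hk.2 j hy)]
      intro a l hl
      cases l with
      | zero => unfold prism; split_ifs <;> rfl
      | succ l => unfold prism; split_ifs <;> exact hxy _ l (by omega)

theorem II_prod (M : ℕ) {m n : ℕ} {a b : Co Pt R} (ha : Dg m a) (hb : Nm n b)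
    (h : ∀ x y, InC x → InC y → (∀ i j, j < m → x i j = y i j) → a x = a y) :
    II M (n + m) (cup m a (pb (shift m) b)) = II M m a * II M n b := by
  induction m generalizing a with
  | zero =>
    rw [← II_mul]
    refine II_congr M n fun x hx => ?_
    simp only [cup, II]
    rw [h x _ hx (fun _ _ => ⟨le_rfl, zero_le_one⟩) fun _ _ hj => by omega]
    rfl
  | succ m ih =>
    have e : PP M (n + m + 1) (cup (m + 1) a (pb (shift (m + 1)) b)) =
        cup m (PP M (m + 1) a) (pb (shift m) b) := by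
      funext x
      simp only [PP, cup, Finset.sum_mul]
      refine Finset.sum_congr rfl fun k _ => ?_
      simp only [pris, Finset.sum_mul]
      rw [show n + m + 1 = m + 1 + n by omega, Finset.sum_range_add,
        Finset.sum_eq_zero (s := Finset.range n), add_zero]
      · refine Finset.sum_congr rfl fun j hj => ?_
        have := Finset.mem_range.1 hj
        simp only [cup, pb, mul_assoc]
        congr 3
        funext l
        simp only [shift, prism]
        rw [if_neg (by omega)]; rfl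
      · intro j hj
        simp only [cup, pb]
        rw [hb _ j (Finset.mem_range.1 hj), mul_zero, mul_zero]
        simp only [shift, prism]
        rw [if_pos (by omega), if_neg (by omega), show j + 1 + (m + 1) - 1 = j + (m + 1) by omega]
        rfl
    rw [← add_assoc, II, e, II]
    refine ih (PP_dg_CoB M ha) fun x y hx hy hxy => ?_
    refine Finset.sum_congr rfl fun k hk => Finset.sum_congr rfl fun j _ => ?_
    have hk := mesh_CoB hk
    rw [h _ _ (prism_InC_CoB hk.1 hk.2 j hx) (prism_InC_CoB hk.1 hk.2 j hy)]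
    intro i l hl
    cases l with
    | zero => unfold prism; split_ifs <;> rfl
    | succ l => unfold prism; split_ifs <;> exact hxy _ l (by omega)

/-- Homotopy invariance; coordinate `0` is the time. -/
theorem II_homot (m : ℕ) {c : Co Pt R} (hc : Dg m c)
    (h1 : ∀ q ∈ cube, LZ (dd (m + 1) c) (𝓝[cube] q))
    (h2 : ∀ q ∈ cube, ∀ j, j < m → q (j + 1) = 0 ∨ q (j + 1) = 1 → LZ c (𝓝[cube] q)) :
    ∀ᶠ M in atTop, II M m (pb (cons 1) c) = II M m (pb (cons 0) c) := by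
  have key : ∀ j ∈ Finset.range m, ∀ᶠ M in atTop,
      II M m (pb (ins (j + 1) 1) c) = 0 ∧ II M m (pb (ins (j + 1) 0) c) = 0 := by
    intro j hj
    have o : (1 : ℝ) ∈ Icc (0 : ℝ) 1 := ⟨zero_le_one, le_rfl⟩
    have z : (0 : ℝ) ∈ Icc (0 : ℝ) 1 := ⟨le_rfl, zero_le_one⟩
    refine (II_lz m fun q hq => ?_).and (II_lz m fun q hq => ?_)
    · exact (h2 _ (ins_mem_cube _ o hq) j (Finset.mem_range.1 hj) (Or.inr (by simp [ins]))).pb
        (tendsto_ins _ o q)
    · exact (h2 _ (ins_mem_cube _ z hq) j (Finset.mem_range.1 hj) (Or.inl (by simp [ins]))).pb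
        (tendsto_ins _ z q)
  filter_upwards [II_lz (m + 1) h1, (Finset.eventually_all _).2 key, eventually_gt_atTop 0]
    with M e1 e2 hM
  rw [stokes hM m hc, Finset.sum_range_succ', Finset.sum_eq_zero fun j hj => by
    rw [(e2 j hj).1, (e2 j hj).2, sub_self, mul_zero]] at e1
  simpa [ins_zero, sub_eq_zero] using e1

end Pool.Agent.MP_2fc7fa_gt.N

end
end

section

/-! The cycle on the group and the simplex inside the cube. -/

open scoped ComplexConjugate Topology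
open Set Complex Filter

noncomputable section

namespace Pool.Agent.MP_2fc7fa_gt.N

/-- One step of the evaluation on the cycle. -/
def T_CCyc (a : Co Zp Zp) : Co Zp Zp := fun σ => ∑ i : Zp, a (cons 0 (cons 1 fun j => 1 + i + σ j))

theorem cyc_succ_CCyc (n : ℕ) (a : Co Zp Zp) : cyc (n + 1) a = cyc n (T_CCyc a) := rfl

theorem T_inv_CCyc (a : Co Zp Zp) (k : Zp) (σ : ℕ → Zp) :
    T_CCyc a (fun j => k + σ j) = T_CCyc a σ :=
  Fintype.sum_equiv (Equiv.addRight k) _ _ fun i => by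
    simp only [Equiv.coe_addRight, add_assoc]

theorem T_dg_CCyc {n : ℕ} {a : Co Zp Zp} (ha : Dg (n + 2) a) : Dg n (T_CCyc a) := by
  intro x y h
  refine Finset.sum_congr rfl fun i _ => ha _ _ fun j hj => ?_
  match j, hj with
  | 0, _ => rfl
  | 1, _ => rfl
  | j + 2, hj => exact congrArg (1 + i + ·) (h j (by omega))

theorem skip_cons_CCyc {α : Type} (r : ℕ) (a : α) (x : ℕ → α) :
    skip (r + 1) (cons a x) = cons a (skip r x) := by
  funext j
  rcases j with _ | j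
  · simp [skip, cons]
  · simp only [skip, cons, Nat.add_lt_add_iff_right]

theorem skip_zero_CCyc {α : Type} (a : α) (x : ℕ → α) : skip 0 (cons a x) = x := by
  funext j
  simp [skip, cons]

theorem T_dd_CCyc (m : ℕ) {A : Co Zp Zp} (hinv : ∀ k σ, A (fun j => k + σ j) = A σ) :
    T_CCyc (dd (m + 2) A) = dd m (T_CCyc A) := by
  funext σ
  have e : ∀ i : Zp, dd (m + 2) A (cons 0 (cons 1 fun j => 1 + i + σ j)) =
      ∑ r ∈ Finset.range (m + 1), (-1) ^ r * A (cons 0 (cons 1 fun j => 1 + i + skip r σ j)) +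
        (A (cons 0 fun j => i + σ j) - A (cons 0 fun j => 1 + i + σ j)) := by
    intro i
    unfold dd
    rw [Finset.sum_range_succ', Finset.sum_range_succ', skip_zero_CCyc, zero_add, skip_cons_CCyc,
      skip_zero_CCyc, ← hinv 1 (cons 0 fun j => i + σ j)]
    have e1 : (fun j => 1 + cons 0 (fun j => i + σ j) j) = cons 1 fun j => 1 + i + σ j := by
      funext j
      rcases j with _ | j
      · simp [cons]
      · simp [cons, add_assoc]
    have e2 : ∀ r, skip r (fun j => 1 + i + σ j) = fun j => 1 + i + skip r σ j := by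
      intro r
      funext j
      simp only [skip]
      split_ifs <;> rfl
    simp only [skip_cons_CCyc, e1, e2, pow_succ]
    ring_nf
  have e3 : ∑ i : Zp, A (cons 0 fun j => 1 + i + σ j) = ∑ i : Zp, A (cons 0 fun j => i + σ j) :=
    Fintype.sum_equiv (Equiv.addLeft 1) _ _ fun i => rfl
  unfold T_CCyc
  simp only [e, Finset.sum_add_distrib, Finset.sum_sub_distrib, e3, sub_self, add_zero]
  rw [Finset.sum_comm]
  simp only [dd, Finset.mul_sum]

theorem shift_cons_CCyc {α : Type} (a : α) (x : ℕ → α) : shift 1 (cons a x) = x := rfl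

theorem idx_cons_CCyc (n : ℕ) (s : ℝ) (t : Pt) :
    idx (n + 1) (cons s t) = if s ≤ 1 / 2 then 0 else idx n t + 1 := rfl

theorem shift_ins_CCyc {α : Type} (i : ℕ) (a : α) (x : ℕ → α) :
    shift 1 (ins (i + 1) a x) = ins i a (shift 1 x) := by
  funext j
  simp only [shift, ins, Nat.add_lt_add_iff_right, Nat.add_right_cancel_iff, Nat.add_sub_cancel]
  split_ifs with h1 h2
  · rfl
  · rfl
  · rw [Nat.sub_add_cancel (by omega)]

theorem idx_ins_CCyc (i n : ℕ) (a : ℝ) (t : Pt) : idx (n + 1) (ins (i + 1) a t) =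
    if t 0 ≤ 1 / 2 then 0 else idx n (ins i a (shift 1 t)) + 1 := by
  rw [← shift_ins_CCyc]
  rfl

theorem PP_CCyc {M : ℕ} (hM : 0 < M) (n : ℕ) (σ : ℕ → Zp) {a : Co Zp ℤ} (ha' : Nm (n + 1) a) :
    PP M (n + 1) (pb (fun t => σ (idx (n + 1) t)) a) =
      pb (fun t => shift 1 σ (idx n t)) fun y => a (cons (σ 0) y) := by
  funext x
  have hM' : (0 : ℝ) < M := by exact_mod_cast hM
  have c1 : ∀ k : ℕ, (k : ℝ) / M ≤ 1 / 2 ↔ 2 * k ≤ M := by
    intro k
    rw [div_le_div_iff₀ hM' two_pos, one_mul, mul_comm]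
    exact_mod_cast Iff.rfl
  have c2 : ∀ k : ℕ, ((k : ℝ) + 1) / M ≤ 1 / 2 ↔ 2 * (k + 1) ≤ M := fun k => by
    rw [← c1]
    push_cast
    rfl
  unfold PP pris
  rw [Finset.sum_eq_single (M / 2), Finset.sum_eq_single 0]
  · rw [pow_zero, one_mul]
    refine congrArg a (funext fun i => ?_)
    rcases i with _ | i
    · simp only [prism, le_refl, if_true, idx_cons_CCyc, c1]
      rw [if_pos (by omega)]
      rfl
    · simp only [prism]
      rw [if_neg (by omega), idx_cons_CCyc, if_neg (by rw [c2]; omega)]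
      rfl
  · intro j hj hj0
    refine mul_eq_zero_of_right _ (ha' _ 0 (by omega) ?_)
    simp only [prism]
    rw [if_pos (by omega), if_pos (by omega), idx_cons_CCyc, idx_cons_CCyc,
      if_pos (by rw [c1]; omega), if_pos (by rw [c1]; omega)]
  · simp
  · intro k _ hk
    refine Finset.sum_eq_zero fun j hj => mul_eq_zero_of_right _
      (ha' _ j (Finset.mem_range.1 hj) ?_)
    simp only [prism]
    rw [if_pos le_rfl, if_neg (show ¬ j + 1 ≤ j by omega), idx_cons_CCyc, idx_cons_CCyc,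
      Nat.add_sub_cancel]
    by_cases h : 2 * k ≤ M
    · rw [if_pos ((c1 k).2 h), if_pos (by rw [c2]; omega)]
    · rw [if_neg (mt (c1 k).1 h), if_neg (by rw [c2]; omega)]
  · intro h
    exact absurd (Finset.mem_range.2 (by omega)) h

theorem cyc_ev {ι : Type} {F : Filter ι} (n : ℕ) {X Y : ι → Co Zp Zp}
    (h : ∀ σ, ∀ᶠ M in F, X M σ = Y M σ) : ∀ᶠ M in F, cyc n (X M) = cyc n (Y M) := by
  induction n generalizing X Y with
  | zero => exact h 0
  | succ n ih =>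
    refine ih (X := fun M => T_CCyc (X M)) (Y := fun M => T_CCyc (Y M)) fun σ => ?_
    exact (eventually_all.2 fun i : Zp => h (cons 0 (cons 1 fun j => 1 + i + σ j))).mono
      fun M hM => Finset.sum_congr rfl fun i _ => hM i

theorem cyc_add (n : ℕ) (a b : Co Zp Zp) : cyc n (a + b) = cyc n a + cyc n b := by
  induction n generalizing a b with
  | zero => rfl
  | succ n ih =>
    rw [cyc_succ_CCyc, cyc_succ_CCyc, cyc_succ_CCyc, ← ih]
    exact congrArg _ (funext fun σ => Finset.sum_add_distrib)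

theorem cyc_mul (n : ℕ) (r : Zp) (a : Co Zp Zp) : cyc n (fun σ => r * a σ) = r * cyc n a := by
  induction n generalizing a with
  | zero => rfl
  | succ n ih =>
    rw [cyc_succ_CCyc, cyc_succ_CCyc, ← ih]
    exact congrArg _ (funext fun σ => (Finset.mul_sum _ _ _).symm)

/-- With `T a σ = ∑ i, a (0, 1, 1 + i + σ)`: `T a` is invariant, `T (dd (n + 2) A) = dd n (T A)` for
invariant `A`, and `T A = 37 * A (0, 1) = 0` if `A` has degree one. -/
theorem cyc_dd (n : ℕ) {A : Co Zp Zp} (hA : Dg (2 * n + 1) A)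
    (hinv : ∀ k σ, A (fun j => k + σ j) = A σ) : cyc (n + 1) (dd (2 * n + 2) A) = 0 := by
  induction n generalizing A with
  | zero =>
    rw [cyc_succ_CCyc, T_dd_CCyc _ hinv]
    have e : ∀ (i : Zp) (σ : ℕ → Zp), A (cons 0 (cons 1 fun j => 1 + i + σ j)) =
        A (cons 0 fun _ => 1) := fun i σ => hA _ _ fun j hj => by
      match j, hj with
      | 0, _ => rfl
      | 1, _ => rfl
    simp only [cyc, dd, T_CCyc, e, Finset.sum_const, Finset.card_univ, ZMod.card, nsmul_eq_mul,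
      CharP.cast_eq_zero, zero_mul, mul_zero, smul_zero]
  | succ n ih =>
    rw [cyc_succ_CCyc, T_dd_CCyc _ hinv]
    exact ih (T_dg_CCyc hA) (T_inv_CCyc A)

theorem cyc_cups (l : List Zp) :
    cyc l.length (fun σ => ((cups (l.map fun n γ => n * γ) σ : ℤ) : Zp)) = l.prod := by
  induction l with
  | nil => simp [cyc, cups]
  | cons n l ih =>
    rw [List.length_cons, cyc_succ_CCyc, List.prod_cons, ← ih, ← cyc_mul]
    refine congrArg _ (funext fun σ => ?_)
    conv_rhs => rw [← tc_sum n σ, Finset.sum_mul]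
    refine Finset.sum_congr rfl fun i _ => ?_
    rw [← Int.cast_mul, ← cups_congr l (fun n γ => n * γ) (fun n γ => n * γ)
      (fun j => 1 + i + σ j) σ fun m _ => ⟨m * (1 + i), fun a => by ring⟩]
    rfl

theorem cyc_E0 : cyc jl.length (fun σ => ((E0 σ : ℤ) : Zp)) ≠ 0 := by
  have : Fact (Nat.Prime 37) := ⟨by norm_num⟩
  have h := cyc_cups (jl.map fun j => -(j.2 : Zp))
  rw [List.length_map, List.map_map] at h
  have e : E0 = cups (jl.map ((fun n γ => n * γ) ∘ fun j => -(j.2 : Zp))) := by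
    unfold E0
    congr 2
    funext j γ
    exact (neg_mul _ _).symm
  rw [e, h]
  refine List.prod_ne_zero fun h0 => ?_
  obtain ⟨j, -, hj⟩ := List.mem_map.1 h0
  exact j.2.2 (neg_eq_zero.1 hj)

theorem jl_pos : 0 < jl.length :=
  List.length_pos_of_mem (a := ((0, 0, 0), ⟨1, by decide⟩))
    (Finset.mem_toList.2 (Finset.mem_univ _))

/-- Induction on `n`, for all `σ` and `a`: `PP M (n + 1)` of the pull-back is the pull-back of
`fun y => a (cons (σ 0) y)` for `shift 1 σ`; only `k` with `k / M ≤ 1 / 2 < (k + 1) / M` and `j = 0`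
contribute. -/
theorem II_simplex {M : ℕ} (hM : 0 < M) (n : ℕ) (σ : ℕ → Zp) {a : Co Zp ℤ} (ha : Dg n a)
    (ha' : Nm n a) : II M n (pb (fun t => σ (idx n t)) a) = a σ := by
  induction n generalizing σ a with
  | zero => exact ha _ _ fun j hj => by rw [Nat.le_zero.1 hj]; rfl
  | succ n ih =>
    rw [II, PP_CCyc hM n σ ha', ih]
    · exact congrArg a (funext fun j => by cases j <;> rfl)
    · intro x y h
      refine ha _ _ fun j hj => ?_
      rcases j with _ | j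
      · rfl
      · exact h j (by omega)
    · exact fun x j hj h => ha' _ (j + 1) (by omega) h

theorem idx_le (n : ℕ) (t : Pt) : idx n t ≤ n := by
  induction n generalizing t with
  | zero => exact le_rfl
  | succ n ih =>
    rw [idx]
    split_ifs
    · omega
    · exact Nat.succ_le_succ (ih _)

theorem idx_ins_one {i n : ℕ} (hi : i ≤ n) (σ : ℕ → Zp) (t : Pt) :
    σ (idx (n + 1) (ins i 1 t)) = skip i σ (idx n t) := by
  induction i generalizing n σ t with
  | zero =>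
    rw [ins_zero, idx_cons_CCyc, if_neg (by norm_num)]
    rfl
  | succ i ih =>
    obtain ⟨n, rfl⟩ : ∃ m, n = m + 1 := ⟨n - 1, by omega⟩
    rw [idx_ins_CCyc, idx.eq_2 t n]
    split_ifs
    · simp [skip]
    · have := ih (n := n) (by omega) (shift 1 σ) (shift 1 t)
      simp only [skip, Nat.add_lt_add_iff_right] at this ⊢
      exact this

theorem idx_ins_last (n : ℕ) (t : Pt) : idx (n + 1) (ins n 0 t) = idx n t := by
  induction n generalizing t with
  | zero => rw [ins_zero, idx_cons_CCyc, if_pos (by norm_num), idx]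
  | succ n ih => rw [idx_ins_CCyc, ih, idx]

theorem idx_ins_zero {i n : ℕ} (hi : i ≤ n) {t t' : Pt} (h : ∀ j, j < i → t j = t' j) :
    idx (n + 1) (ins i 0 t) = idx (n + 1) (ins i 0 t') := by
  induction i generalizing n t t' with
  | zero =>
    rw [ins_zero, idx_cons_CCyc, idx_cons_CCyc, if_pos (by norm_num), if_pos (by norm_num)]
  | succ i ih =>
    obtain ⟨n, rfl⟩ : ∃ m, n = m + 1 := ⟨n - 1, by omega⟩
    rw [idx_ins_CCyc, idx_ins_CCyc, h 0 (by omega),
      ih (t := shift 1 t) (t' := shift 1 t') (by omega) fun j hj => h (j + 1) (by omega)]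

theorem lst_length (n : ℕ) (σ : ℕ → Zp) : (lst n σ).length = n + 1 := by
  simp [lst]

theorem lst_eraseIdx {i n : ℕ} (hi : i ≤ n + 1) (σ : ℕ → Zp) :
    (lst (n + 1) σ).eraseIdx i = lst n (skip i σ) := by
  refine List.ext_getElem ?_ fun j h1 h2 => ?_
  · rw [List.length_eraseIdx_of_lt (by rw [lst_length]; omega), lst_length, lst_length]
    rfl
  · rw [List.getElem_eraseIdx]
    simp only [lst, List.getElem_map, List.getElem_range, skip]
    split_ifs <;> rfl

theorem lst_take {i n : ℕ} (hi : i ≤ n) (σ : ℕ → Zp) : (lst n σ).take (i + 1) = lst i σ := by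
  rw [lst, lst, ← List.map_take, List.take_range, min_eq_left (by omega)]

theorem lst_map (n : ℕ) (σ : ℕ → Zp) (k : Zp) :
    lst n (fun j => k + σ j) = (lst n σ).map (k + ·) := by
  rw [lst, lst, List.map_map]
  rfl

theorem lst_congr {n : ℕ} {σ σ' : ℕ → Zp} (h : ∀ j, j ≤ n → σ j = σ' j) : lst n σ = lst n σ' :=
  List.map_congr_left fun j hj => h j (Nat.lt_succ_iff.1 (List.mem_range.1 hj))

end Pool.Agent.MP_2fc7fa_gt.N

end
end

section

/-! The counting cochain has no support on the boundary faces. -/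

open scoped ComplexConjugate Topology
open Set Complex Filter

noncomputable section

namespace Pool.Agent.MP_2fc7fa_gt.N

variable {N : ℕ} {f : W → W} (L : LineFamily N f) {z₀ : W}

theorem adm_CHit {n : ℕ} (hn : n ≤ N) (σ : ℕ → Zp) {t : Pt} {s : ℝ} (ht : t ∈ cube)
    (hs : s ∈ Icc (0 : ℝ) 1) : Adm N (lst n σ) t s :=
  ⟨List.ne_nil_of_length_pos (by rw [lst_length]; omega), by rw [lst_length]; omega, ht, hs⟩

theorem aa_shift_CHit (T δ : ℝ) (k : Zp) (p : Fin 6 → ℝ) (i j : Fin 3) :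
    ((Real.exp (hh T δ p j - hh T δ p i) : ℝ) : ℂ) • aa z₀ T δ k p i = aa z₀ T δ k p j := by
  rw [Complex.coe_smul, aa, aa, smul_smul, ← Real.exp_add, sub_add_cancel]

theorem norm_aa_CHit (T δ : ℝ) (k : Zp) (p : Fin 6 → ℝ) (i : Fin 3) :
    ‖aa z₀ T δ k p i‖ = Real.exp (hh T δ p i) * ‖vv z₀ k p‖ := by
  rw [aa, norm_smul, Real.norm_of_nonneg (Real.exp_pos _).le]

theorem norm_vv_CHit (k : Zp) {p : Fin 6 → ℝ} (hp : p 0 ∈ Icc (0 : ℝ) 1) :
    min ‖z₀.1‖ ‖z₀.2‖ ≤ ‖vv z₀ k p‖ ∧ ‖vv z₀ k p‖ ≤ 2 * ‖z₀‖ := by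
  have e : ‖vv z₀ k p‖ = max (2 * (1 - p 0) * ‖z₀.1‖) (2 * p 0 * ‖z₀.2‖) := by
    rw [vv, Prod.norm_mk]
    simp only [norm_mul, norm_ee, norm_rt, mul_one, Complex.norm_real]
    rw [Real.norm_of_nonneg (sub_nonneg.2 hp.2), Real.norm_of_nonneg hp.1, Real.norm_ofNat]
  have n1 := norm_nonneg z₀.1
  have n2 := norm_nonneg z₀.2
  rw [e]
  constructor
  · rcases le_total (p 0) (1 / 2) with h | h
    · exact (min_le_left _ _).trans (le_trans (by nlinarith) (le_max_left _ _))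
    · exact (min_le_right _ _).trans (le_trans (by nlinarith) (le_max_right _ _))
  · exact max_le (by nlinarith [norm_fst_le z₀, hp.1, hp.2])
      (by nlinarith [norm_snd_le z₀, hp.1, hp.2])

theorem hh_lt_CHit {T δ : ℝ} (hT : 0 ≤ T) (hδ : 0 < δ) {p : Fin 6 → ℝ} (hp : p ∈ cubeF 6) :
    -T ≤ hh T δ p 0 ∧ hh T δ p 0 ≤ hh T δ p 1 ∧ hh T δ p 1 < hh T δ p 2 := by
  have h3 := mul_nonneg hT (hp 3).1
  have h4 := mul_nonneg hT (hp 4).1
  have h5 := mul_nonneg hT (hp 5).1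
  simp only [hh, Matrix.cons_val]
  exact ⟨by linarith, by linarith, by linarith⟩

theorem vv_ne_zero (h1 : z₀.1 ≠ 0) (h2 : z₀.2 ≠ 0) (k : Zp) (p : Fin 6 → ℝ) : vv z₀ k p ≠ 0 := by
  intro h
  have e1 := congrArg Prod.fst h
  have e2 := congrArg Prod.snd h
  simp only [vv, Prod.fst_zero, Prod.snd_zero, mul_eq_zero, ee_ne_zero, rt_ne_zero, h1, h2,
    or_false, ofReal_eq_zero, OfNat.ofNat_ne_zero, false_or] at e1 e2
  linarith

theorem aa_ne_zero (h1 : z₀.1 ≠ 0) (h2 : z₀.2 ≠ 0) (T δ : ℝ) (k : Zp) (p : Fin 6 → ℝ) (i : Fin 3) :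
    aa z₀ T δ k p i ≠ 0 := smul_ne_zero (Real.exp_ne_zero _) (vv_ne_zero h1 h2 k p)

theorem continuous_aa (T δ : ℝ) (k : Zp) (i : Fin 3) : Continuous fun p => aa z₀ T δ k p i := by
  have h1 := continuous_ee
  have h2 : Continuous fun p => hh T δ p i := by
    fin_cases i <;> simp only [hh, Fin.zero_eta, Fin.mk_one, Fin.reduceFinMk, Matrix.cons_val] <;>
      fun_prop
  have h3 : Continuous (vv z₀ k) := by
    unfold vv
    fun_prop
  exact (Real.continuous_exp.comp h2).smul h3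

theorem Psi_rg (h1 : z₀.1 ≠ 0) (h2 : z₀.2 ≠ 0) {T δ : ℝ} (hT : 0 ≤ T) (hδ : 0 < δ) {n : ℕ}
    (hn : n ≤ N) (σ : ℕ → Zp) (k : Zp) {q : Pt} (hq : q ∈ cube) :
    Rg (Psi L z₀ T δ n σ k q).1 := by
  have hA := adm_CHit hn σ (shift_mem_cube 7 hq) (hq 0)
  have ha := aa_ne_zero h1 h2 T δ k (res 6 (shift 1 q))
  obtain ⟨-, l1, l2⟩ := hh_lt_CHit hT hδ (res_mem_cubeF 6 (shift_mem_cube 1 hq))
  have key : ∀ (i : Fin 3) (g : Zp), hh T δ (res 6 (shift 1 q)) i < hh T δ (res 6 (shift 1 q)) 2 →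
      (Psi L z₀ T δ n σ k q).1 2 0 ≠ (Psi L z₀ T δ n σ k q).1 i g := by
    intro i g hi h
    simp only [Psi] at h
    rw [← aa_shift_CHit T δ k _ i 2, smul_smul] at h
    have h3 := congrArg norm (L.inj _ _ _ _ _ _ hA (ha i)
      (mul_ne_zero (rt_ne_zero 0) (ofReal_ne_zero.2 (Real.exp_ne_zero _))) (rt_ne_zero g) h)
    rw [norm_mul, norm_rt, norm_rt, one_mul, Complex.norm_real,
      Real.norm_of_nonneg (Real.exp_pos _).le, Real.exp_eq_one_iff] at h3
    linarith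
  refine ⟨fun i g => L.mem _ _ _ _ hA (smul_ne_zero (rt_ne_zero g) (ha i)), fun i h => ?_,
    fun g => ⟨key 0 g (l1.trans_lt l2), key 1 g l2⟩⟩
  exact absurd (rt_injective (L.inj _ _ _ _ _ _ hA (ha i) (rt_ne_zero 1) (rt_ne_zero 0) h))
    (by decide)

theorem Psi_tendsto (h1 : z₀.1 ≠ 0) (h2 : z₀.2 ≠ 0) (T δ : ℝ) {n : ℕ} (hn : n ≤ N) (σ : ℕ → Zp)
    (k : Zp) {q : Pt} (hq : q ∈ cube) :
    Tendsto (Psi L z₀ T δ n σ k) (𝓝[cube] q) (comap Prod.fst (𝓝 (Psi L z₀ T δ n σ k q).1)) := by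
  have hA := adm_CHit hn σ hq (hq 0)
  rw [tendsto_comap_iff]
  refine tendsto_pi_nhds.2 fun i => tendsto_pi_nhds.2 fun g => ?_
  have hc : Continuous fun q : Pt =>
      (shift 7 q, q 0, rt g • aa z₀ T δ k (res 6 (shift 1 q)) i) :=
    (continuous_shift 7).prodMk ((continuous_apply 0).prodMk
      (((continuous_aa (z₀ := z₀) T δ k i).comp
        ((continuous_res 6).comp (continuous_shift 1))).const_smul (rt g)))
  exact ((L.cont _ hA.1 hA.2.1).comp hc.continuousOn fun q hq =>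
    ⟨shift_mem_cube 7 hq, hq 0, smul_ne_zero (rt_ne_zero g) (aa_ne_zero h1 h2 T δ k _ i)⟩) q hq

/-- Compactness: there are finitely many lists of length `N + 1`; at a point `(t, s, a)` of the
compact set and `δ = 0`, either the orbit of `a` is not mapped to an orbit (an open condition), or
`H a = pt x₀` with `x₀ ≠ 0` and `CC_diag`, `continuousAt_aff` apply. Then the tube lemma
(`IsCompact.eventually_forall_of_forall_eventually`). -/
theorem no_close (r R : ℝ) (hr : 0 < r) : ∃ δ₀ : ℝ, 0 < δ₀ ∧ ∀ δ : ℝ, 0 < δ → δ ≤ δ₀ →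
    ∀ (σ : ℕ → Zp) (t : Pt) (s : ℝ) (a x y : W), t ∈ cube → s ∈ Icc (0 : ℝ) 1 → r ≤ ‖a‖ →
      ‖a‖ ≤ R → (∀ g, L.H (lst N σ) t s (rt g • a) = pt (rt g • x)) →
      L.H (lst N σ) t s (Real.exp δ • a) = pt y → ¬ CC k2 6 (x, y) := by
  set K : Set (Pt × ℝ × W) := cube ×ˢ Icc 0 1 ×ˢ (Metric.closedBall 0 R ∩ {a | r ≤ ‖a‖}) with hK
  have cK : IsCompact K := (isCompact_pi_infinite fun _ => isCompact_Icc).prod (isCompact_Icc.prod
    ((isCompact_closedBall _ _).inter_right (isClosed_le continuous_const continuous_norm)))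
  have hne : ∀ w ∈ K, w.2.2 ≠ 0 := fun w hw => norm_pos_iff.1 (hr.trans_le hw.2.2.2)
  have key : ∀ l ∈ {l : List Zp | l.length = N + 1}, ∀ᶠ δ in 𝓝 (0 : ℝ), ∀ w ∈ K, w ∈ K →
      ∀ x y : W, (∀ g, L.H l w.1 w.2.1 (rt g • w.2.2) = pt (rt g • x)) →
        L.H l w.1 w.2.1 (Real.exp δ • w.2.2) = pt y → ¬ CC k2 6 (x, y) := by
    intro l hl
    have hl1 : l ≠ [] := List.ne_nil_of_length_pos (by rw [hl]; omega)
    refine cK.eventually_forall_of_forall_eventually fun w hw => ?_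
    have hA : Adm N l w.1 w.2.1 := ⟨hl1, le_of_eq hl, hw.1, hw.2.1⟩
    have cont : ∀ c : ℝ → ℂ, Continuous c → (∀ δ, c δ ≠ 0) →
        ContinuousWithinAt (fun z : ℝ × Pt × ℝ × W => L.H l z.2.1 z.2.2.1 (c z.1 • z.2.2.2))
          {z | z.2 ∈ K} (0, w) := fun c hc hc0 =>
      ((L.cont l hl1 (le_of_eq hl)).comp
        (f := fun z : ℝ × Pt × ℝ × W => (z.2.1, z.2.2.1, c z.1 • z.2.2.2))
        (Continuous.continuousOn (by fun_prop))
        fun z hz => ⟨hz.1, hz.2.1, smul_ne_zero (hc0 _) (hne _ hz)⟩) (0, w) hw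
    have c0 := cont (fun _ => rt 0) continuous_const fun _ => rt_ne_zero 0
    have c1 := cont (fun _ => rt 1) continuous_const fun _ => rt_ne_zero 1
    have c2 := cont (fun δ => (Real.exp δ : ℝ)) (by fun_prop)
      fun _ => ofReal_ne_zero.2 (Real.exp_ne_zero _)
    refine (eventually_nhdsWithin_iff (s := {z : ℝ × Pt × ℝ × W | z.2 ∈ K})).1 ?_
    by_cases h : L.H l w.1 w.2.1 (rt 1 • w.2.2) = actM 1 (L.H l w.1 w.2.1 (rt 0 • w.2.2))
    · obtain ⟨x₀, hx₀, e₀⟩ := L.mem _ _ _ _ hA (smul_ne_zero (rt_ne_zero 0) (hne w hw))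
      obtain ⟨y₀, hy₀, e₁⟩ := exists_pt hx₀ fun h' => absurd (rt_injective (L.inj _ _ _ _ _ _ hA
        (hne w hw) (rt_ne_zero 1) (rt_ne_zero 0) (by rw [h, e₀, h']))) (by decide)
      have t0 : Tendsto aff (𝓝 (pt y₀)) (𝓝 y₀) := by
        simpa only [aff_pt] using (continuousAt_aff y₀).tendsto
      have t1 := c0.tendsto
      have t2 := c2.tendsto
      simp only [Real.exp_zero, ofReal_one] at t2
      rw [← rt_zero] at t2
      simp only [e₀, e₁] at t1 t2
      filter_upwards [((t0.comp t1).prodMk_nhds (t0.comp t2)).eventually (CC_diag k2 hy₀)]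
        with z hz x y h1 h2
      rwa [Function.comp_apply, Function.comp_apply, h1 0, Complex.coe_smul, h2, aff_pt, aff_pt,
        rt_zero, one_smul] at hz
    · have ca : Continuous (actM 1) := by
        unfold actM
        fun_prop
      filter_upwards [(c1.sub (ca.continuousAt.comp_continuousWithinAt c0)).tendsto.eventually_ne
        (sub_ne_zero.2 h)] with z hz x y h1 _
      refine absurd ?_ hz
      rw [Pi.sub_apply, Function.comp_apply, h1 0, h1 1, actM_pt, rt_zero, one_smul, sub_self]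
  obtain ⟨ε, hε, h⟩ := Metric.nhds_basis_closedBall.eventually_iff.1
    ((eventually_all_finite (List.finite_length_eq Zp (N + 1))).2 key)
  refine ⟨ε, hε, fun δ h0 h1 σ t s a x y ht hs ha ha' => ?_⟩
  have hw : (t, s, a) ∈ K := ⟨ht, hs, mem_closedBall_zero_iff.2 ha', ha⟩
  exact h (mem_closedBall_zero_iff.2 (by rwa [Real.norm_of_nonneg h0.le])) _ (lst_length N σ) _
    hw hw x y

/-- `q 0 = 1`: `L.stop`, `CC_real`. `q 4 = 0`: `L.near0` with `r = 1 / 200`, `CC_chord`. Last height at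
least `T`: `L.nearInf` with `r = 200`. `q 5 = 0`: `CC_disj`. `q 6 = 0`: `no_close`. The norm of `vv`
lies between `min ‖z₀.1‖ ‖z₀.2‖` and `2 ‖z₀‖` on the cube. -/
theorem no_hit (h1 : z₀.1 ≠ 0) (h2 : z₀.2 ≠ 0) : ∃ T₀ : ℝ, ∀ T, T₀ ≤ T → ∃ δ₀ : ℝ, 0 < δ₀ ∧
    ∀ δ : ℝ, 0 < δ → δ ≤ δ₀ → ∀ (σ : ℕ → Zp) (k : Zp), ∀ q ∈ cube,
      (q 0 = 1 ∨ q 4 = 0 ∨ q 4 = 1 ∨ q 5 = 0 ∨ q 5 = 1 ∨ q 6 = 0 ∨ q 6 = 1) →
      ¬ Hit (Psi L z₀ T δ N σ k q).1 := by
  obtain ⟨τ, hτ, n0⟩ := L.near0 (1 / 200) (by norm_num)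
  obtain ⟨R, nI⟩ := L.nearInf 200
  have hm : 0 < min ‖z₀.1‖ ‖z₀.2‖ := lt_min (norm_pos_iff.2 h1) (norm_pos_iff.2 h2)
  have e1 : ∀ᶠ T in atTop, Real.exp (-T) * (2 * ‖z₀‖) ≤ τ :=
    (Real.tendsto_exp_neg_atTop_nhds_zero.mul_const _).eventually_le_const (by simpa using hτ)
  have e2 : ∀ᶠ T in atTop, R ≤ Real.exp T * min ‖z₀.1‖ ‖z₀.2‖ :=
    (Real.tendsto_exp_atTop.atTop_mul_const hm).eventually_ge_atTop R
  obtain ⟨T₀, hT₀⟩ := eventually_atTop.1 (e1.and (e2.and (eventually_ge_atTop 0)))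
  refine ⟨T₀, fun T hT => ?_⟩
  obtain ⟨a1, a2, hT0⟩ := hT₀ T hT
  obtain ⟨δ₀, hδ₀, nc⟩ := no_close L (Real.exp (-T) * min ‖z₀.1‖ ‖z₀.2‖)
    (Real.exp T * (2 * ‖z₀‖)) (by positivity)
  refine ⟨δ₀, hδ₀, fun δ hδ hδ' σ k q hq hb => ?_⟩
  rintro ⟨x, ho, hx, c1, c2⟩
  have hA := adm_CHit (le_refl N) σ (shift_mem_cube 7 hq) (hq 0)
  have hp := res_mem_cubeF 6 (shift_mem_cube 1 hq)
  have p3 : res 6 (shift 1 q) 3 = q 4 := rfl
  have p4 : res 6 (shift 1 q) 4 = q 5 := rfl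
  have p5 : res 6 (shift 1 q) 5 = q 6 := rfl
  simp only [Orb, Psi] at ho
  generalize res 6 (shift 1 q) = p at *
  have ha := aa_ne_zero h1 h2 T δ k p
  obtain ⟨l0, l1, l2⟩ := hh_lt_CHit hT0 hδ hp
  obtain ⟨v1, v2⟩ := norm_vv_CHit (z₀ := z₀) k (hp 0)
  have ho' : ∀ i, L.H (lst N σ) (shift 7 q) (q 0) (aa z₀ T δ k p i) = pt (x i) := fun i => by
    simpa only [rt_zero, one_smul] using ho i 0
  have g0 : hh T δ p 0 = -T + 2 * T * q 4 := by rw [← p3]; rfl
  have g1 : hh T δ p 1 = hh T δ p 0 + 2 * T * q 5 := by rw [← p4]; rfl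
  have g2 : hh T δ p 2 = hh T δ p 1 + δ + 2 * T * q 6 := by rw [← p5]; rfl
  rcases le_or_gt T (hh T δ p 2) with hi | hi
  · obtain ⟨b1, b2⟩ := nI _ _ _ _ (x 1) (x 2) _ hA (ha 2)
      (a2.trans (by rw [norm_aa_CHit]; gcongr)) (Real.exp_pos _)
      (Real.exp_lt_one_iff.2 (sub_neg.2 l2)) (ho 2) (by rw [aa_shift_CHit, ho'])
    obtain ⟨μ, b3, b4⟩ := CC_chord (k2_zero b1) (Or.inr rfl) c2
    exact b2 μ b3 b4
  rcases hb with hb | hb | hb | hb | hb | hb | hb
  · rw [hb] at hA ho'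
    obtain ⟨Li, -, hL⟩ := L.stop _ _ hA
    have b1 : ∀ i, x i = Li (aa z₀ T δ k p i) := fun i =>
      pt_injective ((ho' i).symm.trans (hL _ (ha i)))
    rw [b1 2, ← aa_shift_CHit T δ k p 0 2, map_smul, ← b1 0] at c1
    exact CC_real (Or.inl rfl) (hx 0) (Real.exp_pos _) c1
  · obtain ⟨b1, b2⟩ := n0 _ _ _ _ (x 0) (x 2) _ hA (ha 0)
      (le_trans (by rw [norm_aa_CHit, g0, hb, mul_zero, add_zero]; gcongr) a1)
      (Real.one_lt_exp_iff.2 (sub_pos.2 (l1.trans_lt l2))) (ho 0) (by rw [aa_shift_CHit, ho'])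
    obtain ⟨μ, b3, b4⟩ := CC_chord (k1_zero b1) (Or.inl rfl) c1
    exact b2 μ b3 b4
  · rw [hb] at g0
    linarith
  · rw [hb, mul_zero, add_zero] at g1
    have b1 : x 1 = x 0 := pt_injective (by rw [← ho', ← ho', aa, aa, g1])
    rw [b1] at c2
    exact CC_disj (hx 2) c1 c2
  · rw [hb] at g1
    linarith
  · refine nc δ hδ hδ' σ _ _ _ _ _ hA.2.2.1 hA.2.2.2 ?_ ?_ (ho 1) ?_ c2
    · rw [norm_aa_CHit]
      gcongr
      linarith
    · rw [norm_aa_CHit]
      gcongr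
      linarith
    · rw [← ho', ← aa_shift_CHit T δ k p 1 2, Complex.coe_smul, g2, hb, mul_zero, add_zero,
        add_sub_cancel_left]
  · rw [hb] at g2
    linarith

end Pool.Agent.MP_2fc7fa_gt.N

end
end

section

/-! Cancellation of faces. -/

open scoped ComplexConjugate Topology
open Set Complex Filter

noncomputable section

namespace Pool.Agent.MP_2fc7fa_gt.N

variable {f : W → W} (L : LineFamily NN f) {z₀ : W} (h1 : z₀.1 ≠ 0) (h2 : z₀.2 ≠ 0) (T δ : ℝ)
  (M : ℕ)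

theorem adm_CFace {n : ℕ} (hn : n ≤ NN) (σ : ℕ → Zp) {t : Pt} {s : ℝ} (ht : t ∈ cube)
    (hs : s ∈ Icc (0 : ℝ) 1) : Adm NN (lst n σ) t s :=
  ⟨List.ne_nil_of_length_pos (by rw [lst_length]; omega), by rw [lst_length]; omega, ht, hs⟩

theorem sh7_CFace {i : ℕ} (hi : i ≤ 6) (a : ℝ) (q : Pt) : shift 7 (ins i a q) = shift 6 q := by
  funext j
  simp only [shift, ins]
  rw [if_neg (by omega), if_neg (by omega)]
  rfl

theorem sh7'_CFace (i : ℕ) (a : ℝ) (q : Pt) : shift 7 (ins (7 + i) a q) = ins i a (shift 7 q) := by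
  funext j
  simp only [shift, ins]
  by_cases h : j < i
  · rw [if_pos (by omega), if_pos h]
  · rw [if_neg (by omega), if_neg h]
    by_cases h' : j = i
    · rw [if_pos (by omega), if_pos h']
    · rw [if_neg (by omega), if_neg h']
      congr 1
      omega

theorem res_CFace (i : ℕ) (a : ℝ) (q : Pt) :
    res 6 (shift 1 (ins (7 + i) a q)) = res 6 (shift 1 q) := by
  funext j
  simp only [res, shift, ins]
  rw [if_pos (by omega)]

theorem ins0_CFace {i : ℕ} (hi : 0 < i) (a : ℝ) (q : Pt) : ins i a q 0 = q 0 := if_pos hi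

theorem congr_CFace {φ ψ : Pt → Dt} (h : ∀ q ∈ cube, φ q = ψ q) :
    II M (NN + 6) (pb φ WW) = II M (NN + 6) (pb ψ WW) :=
  II_congr M _ fun _ hx => congrArg WW (funext fun j => h _ (hx j))

theorem congr_act_CFace {φ ψ : Pt → Dt} (k l : Zp) (h : ∀ q ∈ cube, φ q = act2 k l (ψ q)) :
    II M (NN + 6) (pb φ WW) = II M (NN + 6) (pb ψ WW) := by
  rw [congr_CFace M h, ← pb_pb ψ (act2 k l) WW, WW_inv]

theorem indep_CFace {φ : Pt → Dt} {i : ℕ} (hi : i < NN + 6)
    (h : ∀ q ∈ cube, ∀ q' ∈ cube, (∀ j, j ≠ i → q j = q' j) → φ q = φ q') :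
    II M (NN + 6) (pb φ WW) = 0 :=
  II_indep M (WW_nm.pb φ) hi fun _ _ hx hy hxy =>
    congrArg WW (funext fun a => h _ (hx a) _ (hy a) (hxy a))

theorem aa_CFace {k k' : Zp} {p p' : Fin 6 → ℝ} {c : ℂ} (h : vv z₀ k p = c • vv z₀ k' p')
    (h3 : p 3 = p' 3) (h4 : p 4 = p' 4) (h5 : p 5 = p' 5) (i : Fin 3) :
    aa z₀ T δ k p i = c • aa z₀ T δ k' p' i := by
  rw [aa, aa, h, hh, hh, h3, h4, h5, smul_comm]

theorem rt_one_CFace : rt 1 = ee 1 := by simpa using rt_intCast 1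

theorem ee_half_CFace : ee (1 - 1 / 2) = rt 1 * ee (0 - 1 / 2) := by
  rw [rt_one_CFace, ← ee_add]
  norm_num

include h1 h2

/-- On `r = 0` nothing depends on the second angle (coordinate `2` of the face), on `r = 1` nothing
depends on the first angle (coordinate `1` of the face): `II_indep`. -/
theorem face_r (σ : ℕ → Zp) (k : Zp) {a : ℝ} (ha : a = 0 ∨ a = 1) :
    II M (NN + 6) (pb (ins 1 a) (pb (Psi L z₀ T δ NN σ k) WW)) = 0 := by
  rw [pb_pb]
  rcases ha with rfl | rfl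
  · refine indep_CFace M (i := 2) (by omega) fun q _ q' _ h => ?_
    have e7 : shift 6 q = shift 6 q' := funext fun j => h _ (by omega)
    have ea : ∀ i, aa z₀ T δ k (res 6 (shift 1 (ins 1 0 q))) i =
        aa z₀ T δ k (res 6 (shift 1 (ins 1 0 q'))) i := fun i => by
      rw [aa_CFace T δ (c := 1) (k' := k) (p' := res 6 (shift 1 (ins 1 0 q'))), one_smul] <;>
        simp [vv, res, shift, ins, h]
    simp only [Psi, sh7_CFace (i := 1) (by omega), ins0_CFace (i := 1) (by omega), ea, e7,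
      h 0 (by omega)]
    simp [bb, res, shift, ins, h]
  · refine indep_CFace M (i := 1) (by omega) fun q _ q' _ h => ?_
    have e7 : shift 6 q = shift 6 q' := funext fun j => h _ (by omega)
    have ea : ∀ i, aa z₀ T δ k (res 6 (shift 1 (ins 1 1 q))) i =
        aa z₀ T δ k (res 6 (shift 1 (ins 1 1 q'))) i := fun i => by
      rw [aa_CFace T δ (c := 1) (k' := k) (p' := res 6 (shift 1 (ins 1 1 q'))), one_smul] <;>
        simp [vv, res, shift, ins, h]
    simp only [Psi, sh7_CFace (i := 1) (by omega), ins0_CFace (i := 1) (by omega), ea, e7,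
      h 0 (by omega)]
    simp [bb, res, shift, ins, h]

/-- `Psi σ (k + 1) (ins 2 1 q) = act2 0 1 (Psi σ k (ins 2 0 q))`, and `WW_inv`. -/
theorem face_th1 (σ : ℕ → Zp) (k : Zp) :
    II M (NN + 6) (pb (ins 2 1) (pb (Psi L z₀ T δ NN σ (k + 1)) WW)) =
      II M (NN + 6) (pb (ins 2 0) (pb (Psi L z₀ T δ NN σ k) WW)) := by
  rw [pb_pb, pb_pb]
  refine congr_act_CFace M 0 1 fun q _ => ?_
  have ea : ∀ i, aa z₀ T δ (k + 1) (res 6 (shift 1 (ins 2 1 q))) i =
      rt 1 • aa z₀ T δ k (res 6 (shift 1 (ins 2 0 q))) i := fun i => by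
    apply aa_CFace
    · have := ee_half_CFace
      refine Prod.ext ?_ ?_
      · simp only [vv, res, shift, ins, Prod.smul_fst, smul_eq_mul]
        simp only [Fin.val_one, Fin.val_zero, Nat.reduceAdd, lt_self_iff_false, if_false,
          if_true, this, Nat.reduceLT]
        ring
      · simp only [vv, res, shift, ins, Prod.smul_snd, smul_eq_mul, rt_add]
        simp
        ring
    all_goals simp [res, shift, ins]
  simp only [Psi, act2, sh7_CFace (i := 2) (by omega), ins0_CFace (i := 2) (by omega), ea,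
    actM_zero, sub_zero, add_zero, rt_add, mul_smul]
  refine Prod.ext rfl (Prod.ext rfl ?_)
  simp only [bb, res, shift, ins]
  simp
  split_ifs <;> ring

/-- `Psi σ k (ins 3 1 q) = Psi σ (k + 1) (ins 3 0 q)`. -/
theorem face_th2 (σ : ℕ → Zp) (k : Zp) :
    II M (NN + 6) (pb (ins 3 1) (pb (Psi L z₀ T δ NN σ k) WW)) =
      II M (NN + 6) (pb (ins 3 0) (pb (Psi L z₀ T δ NN σ (k + 1)) WW)) := by
  rw [pb_pb, pb_pb]
  refine congr_CFace M fun q _ => ?_
  have ea : ∀ i, aa z₀ T δ k (res 6 (shift 1 (ins 3 1 q))) i =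
      aa z₀ T δ (k + 1) (res 6 (shift 1 (ins 3 0 q))) i := fun i => by
    rw [aa_CFace T δ (c := 1) (k' := k + 1) (p' := res 6 (shift 1 (ins 3 0 q))), one_smul]
    · have := ee_half_CFace
      rw [one_smul]
      refine Prod.ext ?_ ?_
      · simp [vv, res, shift, ins]
      · simp only [vv, res, shift, ins, rt_add]
        simp only [Fin.val_two, Fin.val_zero, Nat.reduceAdd, lt_self_iff_false, if_false,
          if_true, this, Nat.reduceLT]
        ring
    all_goals simp [res, shift, ins]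
  simp only [Psi, sh7_CFace (i := 3) (by omega), ins0_CFace (i := 3) (by omega), ea]
  refine Prod.ext rfl (Prod.ext rfl ?_)
  simp [bb, res, shift, ins]

/-- `L.face1`, `lst_eraseIdx`, `idx_ins_one`, `II_congr`. -/
theorem face_t1 {n i : ℕ} (hn : NN = n + 1) (hi : i ≤ n) (σ : ℕ → Zp) (k : Zp) :
    II M (NN + 6) (pb (ins (7 + i) 1) (pb (Psi L z₀ T δ NN σ k) WW)) =
      II M (NN + 6) (pb (Psi L z₀ T δ n (skip i σ) k) WW) := by
  rw [pb_pb]
  refine congr_CFace M fun q hq => ?_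
  have ht := shift_mem_cube 7 hq
  simp only [Psi, sh7'_CFace, res_CFace, ins0_CFace (i := 7 + i) (by omega)]
  refine Prod.ext (funext fun a => funext fun g => ?_) (Prod.ext ?_ rfl)
  · have := L.face1 _ _ _ _ i (adm_CFace le_rfl σ (ins_mem_cube i ⟨zero_le_one, le_rfl⟩ ht) (hq 0))
      (smul_ne_zero (rt_ne_zero g) (aa_ne_zero h1 h2 T δ k (res 6 (shift 1 q)) a))
      (by rw [lst_length]; omega) (by simp [ins])
    rw [skip_ins] at this
    have e : (lst NN σ).eraseIdx i = lst n (skip i σ) := by rw [hn, lst_eraseIdx (by omega)]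
    rwa [e] at this
  · simp only
    rw [hn]
    exact idx_ins_one hi σ _

/-- `L.face0`, `L.dep`, `idx_ins_zero`, `II_indep` for the coordinate `7 + i`. -/
theorem face_t0 {n i : ℕ} (hn : NN = n + 1) (hi : i < n) (σ : ℕ → Zp) (k : Zp) :
    II M (NN + 6) (pb (ins (7 + i) 0) (pb (Psi L z₀ T δ NN σ k) WW)) = 0 := by
  rw [pb_pb]
  refine indep_CFace M (i := 7 + i) (by omega) fun q hq q' hq' h => ?_
  have ht := ins_mem_cube i ⟨le_rfl, zero_le_one⟩ (shift_mem_cube 7 hq)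
  have ht' := ins_mem_cube i ⟨le_rfl, zero_le_one⟩ (shift_mem_cube 7 hq')
  have e0 : q 0 = q' 0 := h 0 (by omega)
  have e1 : res 6 (shift 1 q) = res 6 (shift 1 q') := funext fun j => h _ (by omega)
  have e2 : ∀ j, j < i → shift 7 q j = shift 7 q' j := fun j hj => h _ (by omega)
  simp only [Psi, sh7'_CFace, res_CFace, ins0_CFace (i := 7 + i) (by omega), e0, e1]
  refine Prod.ext (funext fun a => funext fun g => ?_) (Prod.ext ?_ rfl)
  · have hv := smul_ne_zero (rt_ne_zero g) (aa_ne_zero h1 h2 T δ k (res 6 (shift 1 q')) a)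
    have hi' : i ≤ NN := by omega
    simp only
    rw [L.face0 _ _ _ _ i (adm_CFace le_rfl σ ht (hq' 0)) hv (by simp [ins]),
      L.face0 _ _ _ _ i (adm_CFace le_rfl σ ht' (hq' 0)) hv (by simp [ins]), lst_take hi']
    refine L.dep _ _ _ _ _ (adm_CFace hi' σ ht (hq' 0)) ht' hv fun j hj => ?_
    rw [lst_length] at hj
    have hj' : j < i := by omega
    simp only [ins, if_pos hj', e2 j hj']
  · simp only
    rw [hn, idx_ins_zero hi.le e2]

/-- `L.face0`, `L.dep`, `idx_ins_last`. -/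
theorem face_last {n : ℕ} (hn : NN = n + 1) (σ : ℕ → Zp) (k : Zp) :
    II M (NN + 6) (pb (ins (7 + n) 0) (pb (Psi L z₀ T δ NN σ k) WW)) =
      II M (NN + 6) (pb (Psi L z₀ T δ n σ k) WW) := by
  rw [pb_pb]
  refine congr_CFace M fun q hq => ?_
  have ht' := shift_mem_cube 7 hq
  have ht := ins_mem_cube n ⟨le_rfl, zero_le_one⟩ ht'
  simp only [Psi, sh7'_CFace, res_CFace, ins0_CFace (i := 7 + n) (by omega)]
  refine Prod.ext (funext fun a => funext fun g => ?_) (Prod.ext ?_ rfl)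
  · have hv := smul_ne_zero (rt_ne_zero g) (aa_ne_zero h1 h2 T δ k (res 6 (shift 1 q)) a)
    have hi' : n ≤ NN := by omega
    simp only
    rw [L.face0 _ _ _ _ n (adm_CFace le_rfl σ ht (hq 0)) hv (by simp [ins]), lst_take hi']
    refine L.dep _ _ _ _ _ (adm_CFace hi' σ ht (hq 0)) ht' hv fun j hj => ?_
    rw [lst_length] at hj
    have hj' : j < n := by omega
    simp only [ins, if_pos hj']
  · simp only
    rw [hn, idx_ins_last]

/-- `Psi (l + σ) k q = act2 l 0 (Psi σ k q)` on the cube by `L.equiv`. -/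
theorem face_inv {n : ℕ} (hn : n ≤ NN) (σ : ℕ → Zp) (k l : Zp) :
    II M (NN + 6) (pb (Psi L z₀ T δ n (fun j => l + σ j) k) WW) =
      II M (NN + 6) (pb (Psi L z₀ T δ n σ k) WW) := by
  refine congr_act_CFace M l 0 fun q hq => ?_
  simp only [Psi, act2, add_zero]
  refine Prod.ext (funext fun a => funext fun g => ?_) (Prod.ext (add_comm _ _) rfl)
  have hv := smul_ne_zero (rt_ne_zero (g - l)) (aa_ne_zero h1 h2 T δ k (res 6 (shift 1 q)) a)
  simp only
  rw [← L.equiv _ _ _ _ l (adm_CFace hn σ (shift_mem_cube 7 hq) (hq 0)) hv, lst_map, smul_smul,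
    ← rt_add, add_sub_cancel]

omit h1 h2 in
theorem Psi_congr {n : ℕ} {σ σ' : ℕ → Zp} (h : ∀ j, j ≤ n → σ j = σ' j) (k : Zp) :
    Psi L z₀ T δ n σ k = Psi L z₀ T δ n σ' k := by
  funext q
  simp only [Psi, lst_congr h, h _ (idx_le n _)]

end Pool.Agent.MP_2fc7fa_gt.N

end
end

section

/-! The winding number of a square. -/

open scoped ComplexConjugate Topology
open Set Complex Filter

noncomputable section

namespace Pool.Agent.MP_2fc7fa_gt.N

/-- The cochain of degree one whose coboundary is `37 * tc`. -/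
def sv_CWind : Co Zp ℤ := fun x => (x 1 - x 0).valMinAbs

theorem sv_dg_CWind : Dg 1 sv_CWind := fun x y h => by
  simp only [sv_CWind, h 0 (by omega), h 1 le_rfl]

theorem dd_sv_CWind (x : ℕ → Zp) : dd 2 sv_CWind x = 37 * tc x := by
  rw [tc_mul]
  simp [dd, Finset.sum_range_succ, sv_CWind, skip]
  ring

theorem lift_CWind {z : Pt → ℂ} {r u : ℝ → ℝ} (hu : Continuous u) (hr : ∀ t, 0 < r t)
    (hz : ∀ q, z q = r (q 0) * ee (u (q 0))) :
    ∀ᶠ M in atTop, II M 1 (pb (fun q => sec (z q)) sv_CWind) = ⌊u 1⌋ - ⌊u 0⌋ := by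
  let g : Co Pt ℤ := fun x => ⌊u (x 0 0)⌋
  have hg : Dg 0 g := fun x y h => by simp only [g, h 0 le_rfl]
  have hl : ∀ q ∈ cube, LZ (pb (fun q => sec (z q)) sv_CWind - dd 1 g) (𝓝[cube] q) := by
    intro q _
    have hc : Continuous fun p : Pt => u (p 0) := hu.comp (continuous_apply 0)
    refine ⟨{p | u (p 0) ∈ Ioo (u (q 0) - 1) (u (q 0) + 1)},
      mem_nhdsWithin_of_mem_nhds (hc.continuousAt.preimage_mem_nhds
        (Ioo_mem_nhds (by linarith) (by linarith))), fun x hx => ?_⟩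
    have e : dd 1 g x = ⌊u (x 1 0)⌋ - ⌊u (x 0 0)⌋ := by
      simp [dd, Finset.sum_range_succ, g, skip, sub_eq_add_neg]
    rw [Pi.sub_apply, e, sub_eq_zero]
    simp only [pb, sv_CWind, hz, sec_ee (hr _)]
    rw [ZMod.valMinAbs_spec]
    obtain ⟨a1, a2⟩ := hx 0
    obtain ⟨b1, b2⟩ := hx 1
    have c1 := Int.floor_le (u (x 0 0))
    have c2 := Int.lt_floor_add_one (u (x 0 0))
    have d1 := Int.floor_le (u (x 1 0))
    have d2 := Int.lt_floor_add_one (u (x 1 0))
    have f1 : ((⌊u (x 1 0)⌋ - ⌊u (x 0 0)⌋ : ℤ) : ℝ) < (3 : ℤ) := by push_cast; linarith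
    have f2 : ((-3 : ℤ) : ℝ) < (⌊u (x 1 0)⌋ - ⌊u (x 0 0)⌋ : ℤ) := by push_cast; linarith
    rw [Int.cast_lt] at f1 f2
    refine ⟨by push_cast; rfl, ?_, ?_⟩ <;> omega
  filter_upwards [II_lz 1 hl, eventually_gt_atTop 0] with M h1 hM
  rw [II_sub, sub_eq_zero] at h1
  rw [h1, stokes hM 0 hg]
  simp [II, pb, g, ins]

theorem polar_CWind (s : ℝ) :
    1 + (s : ℂ) * I = (√(1 + s ^ 2) : ℝ) * ee (37 * Real.arctan s / (2 * Real.pi)) := by
  have e : 2 * Real.pi * (37 * Real.arctan s / (2 * Real.pi)) / 37 = Real.arctan s := by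
    field_simp
  have h : √(1 + s ^ 2) ≠ 0 := by positivity
  apply Complex.ext
  · rw [re_ofReal_mul, ee_re, e, Real.cos_arctan]
    simp [h]
  · rw [im_ofReal_mul, ee_im, e, Real.sin_arctan]
    simp [mul_div_cancel₀ _ h]

theorem edge_CWind {z : Pt → ℂ} (a : ℝ) {ε : ℝ} (hε : ε = 1 ∨ ε = -1)
    (hz : ∀ q, z q = ee a * (1 + (ε * (2 * q 0 - 1) : ℝ) * I) / 2) :
    ∀ᶠ M in atTop, II M 1 (pb (fun q => sec (z q)) sv_CWind) =
      ⌊a + ε * (37 / 8)⌋ - ⌊a - ε * (37 / 8)⌋ := by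
  have h := lift_CWind (z := z) (r := fun t => √(1 + (ε * (2 * t - 1)) ^ 2) / 2)
    (u := fun t => a + 37 * Real.arctan (ε * (2 * t - 1)) / (2 * Real.pi)) (by fun_prop)
    (fun t => by positivity) fun q => by
      rw [hz, polar_CWind, ee_add]
      push_cast
      ring
  have hp := Real.pi_ne_zero
  have e1 : a + 37 * Real.arctan (ε * (2 * 1 - 1)) / (2 * Real.pi) = a + ε * (37 / 8) := by
    rcases hε with rfl | rfl <;> norm_num [Real.arctan_neg, Real.arctan_one] <;> field_simp <;>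
      norm_num
  have e0 : a + 37 * Real.arctan (ε * (2 * 0 - 1)) / (2 * Real.pi) = a - ε * (37 / 8) := by
    rw [sub_eq_add_neg a]
    rcases hε with rfl | rfl <;> norm_num [Real.arctan_neg, Real.arctan_one] <;> field_simp <;>
      norm_num
  simpa only [e1, e0] using h

theorem ee_quarter_CWind : ee (37 / 4) = I := by
  have e : 2 * Real.pi * (37 / 4) / 37 = Real.pi / 2 := by ring
  apply Complex.ext
  · rw [ee_re, e, Real.cos_pi_div_two, I_re]
  · rw [ee_im, e, Real.sin_pi_div_two, I_im]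

theorem ee_sign_CWind {e : ℝ} (h : e = 1 ∨ e = -1) : ee (37 * (1 - e) / 4) = e := by
  rcases h with rfl | rfl
  · simp [ee_zero]
  · rw [show (37 * (1 - -1) / 4 : ℝ) = 37 / 4 + 37 / 4 by ring, ee_add, ee_quarter_CWind]
    simp

/-- `37 * tc` is the coboundary `dd 2` of `s x = (x 1 - x 0).valMinAbs` (up to sign), so by `stokes`
and `II_mul` the value times `37` is a signed sum of four values `II M 1` on the edges. On an edge
`z t = r t * ee (u t)` with `u` continuous, and `s (sec ∘ z)` agrees locally with the coboundary of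
the integer function `⌊u t⌋` (`sec_ee`, `II_lz`), so the value is `⌊u 1⌋ - ⌊u 0⌋` by `stokes` with
`n = 0`. On each edge `u` is an explicit `arctan` plus a constant, or `arg` of a rotated point. -/
theorem wind (e₁ e₂ : ℝ) (h₁ : e₁ = 1 ∨ e₁ = -1) (h₂ : e₂ = 1 ∨ e₂ = -1) :
    ∃ s : ℤ, (s = 1 ∨ s = -1) ∧ ∀ᶠ M in atTop,
      II M 2 (pb (fun q : Pt => sec ((e₁ * (q 0 - 1 / 2) : ℝ) + (e₂ * (q 1 - 1 / 2) : ℝ) * I)) tc) =
        s := by
  have n₁ : -e₁ = 1 ∨ -e₁ = -1 := by rcases h₁ with rfl | rfl <;> simp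
  have n₂ : -e₂ = 1 ∨ -e₂ = -1 := by rcases h₂ with rfl | rfl <;> simp
  have hε : e₁ * e₂ = 1 ∨ e₁ * e₂ = -1 := by
    rcases h₁ with rfl | rfl <;> rcases h₂ with rfl | rfl <;> simp
  have nε : -(e₁ * e₂) = 1 ∨ -(e₁ * e₂) = -1 := by rcases hε with h | h <;> simp [h]
  have s₁ : (e₁ : ℂ) * e₁ = 1 := by rcases h₁ with rfl | rfl <;> simp
  have s₂ : (e₂ : ℂ) * e₂ = 1 := by rcases h₂ with rfl | rfl <;> simp
  let Z : Pt → ℂ := fun q => (e₁ * (q 0 - 1 / 2) : ℝ) + (e₂ * (q 1 - 1 / 2) : ℝ) * I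
  have a1 := edge_CWind (z := fun q => Z (ins 0 1 q)) (37 * (1 - e₁) / 4) hε fun q => by
    rw [ee_sign_CWind h₁]
    simp [Z, ins]
    linear_combination (-(e₂ : ℂ) * (q 0 - 1 / 2) * I) * s₁
  have a0 := edge_CWind (z := fun q => Z (ins 0 0 q)) (37 * (1 - -e₁) / 4) nε fun q => by
    rw [ee_sign_CWind n₁]
    simp [Z, ins]
    linear_combination (-(e₂ : ℂ) * (q 0 - 1 / 2) * I) * s₁
  have b1 := edge_CWind (z := fun q => Z (ins 1 1 q)) (37 / 4 + 37 * (1 - e₂) / 4) nε fun q => by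
    rw [ee_add, ee_quarter_CWind, ee_sign_CWind h₂]
    simp [Z, ins]
    linear_combination (-(e₁ : ℂ) * (q 0 - 1 / 2)) * s₂ +
      ((e₁ : ℂ) * e₂ * e₂ * (q 0 - 1 / 2)) * I_mul_I
  have b0 := edge_CWind (z := fun q => Z (ins 1 0 q)) (37 / 4 + 37 * (1 - -e₂) / 4) hε fun q => by
    rw [ee_add, ee_quarter_CWind, ee_sign_CWind n₂]
    simp [Z, ins]
    linear_combination (-(e₁ : ℂ) * (q 0 - 1 / 2)) * s₂ +
      ((e₁ : ℂ) * e₂ * e₂ * (q 0 - 1 / 2)) * I_mul_I
  obtain ⟨s, hs, hsum⟩ : ∃ s : ℤ, (s = 1 ∨ s = -1) ∧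
      (⌊37 * (1 - e₁) / 4 + e₁ * e₂ * (37 / 8)⌋ - ⌊37 * (1 - e₁) / 4 - e₁ * e₂ * (37 / 8)⌋ -
        (⌊37 * (1 - -e₁) / 4 + -(e₁ * e₂) * (37 / 8)⌋ -
          ⌊37 * (1 - -e₁) / 4 - -(e₁ * e₂) * (37 / 8)⌋)) -
      (⌊37 / 4 + 37 * (1 - e₂) / 4 + -(e₁ * e₂) * (37 / 8)⌋ -
          ⌊37 / 4 + 37 * (1 - e₂) / 4 - -(e₁ * e₂) * (37 / 8)⌋ -
        (⌊37 / 4 + 37 * (1 - -e₂) / 4 + e₁ * e₂ * (37 / 8)⌋ -
          ⌊37 / 4 + 37 * (1 - -e₂) / 4 - e₁ * e₂ * (37 / 8)⌋)) = 37 * s := by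
    rcases h₁ with rfl | rfl <;> rcases h₂ with rfl | rfl
    · exact ⟨1, by simp, by norm_num⟩
    · exact ⟨-1, by simp, by norm_num⟩
    · exact ⟨-1, by simp, by norm_num⟩
    · exact ⟨1, by simp, by norm_num⟩
  refine ⟨s, hs, ?_⟩
  filter_upwards [a1, a0, b1, b0, eventually_gt_atTop 0] with M a1 a0 b1 b0 hM
  have h := stokes hM 1 (sv_dg_CWind.pb fun q => sec (Z q))
  have e : dd (1 + 1) (pb (fun q => sec (Z q)) sv_CWind) =
      fun x => 37 * pb (fun q => sec (Z q)) tc x := by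
    rw [← pb_dd]
    exact funext fun x => dd_sv_CWind _
  rw [e, II_mul, Finset.sum_range_succ, Finset.sum_range_one, pb_pb, pb_pb, pb_pb, pb_pb,
    a1, a0, b1, b0] at h
  refine mul_left_cancel₀ (by norm_num : (37 : ℤ) ≠ 0) (h.trans ?_)
  rw [← hsum]
  ring

end Pool.Agent.MP_2fc7fa_gt.N

end
end

section

/-! The local degree. -/

open scoped ComplexConjugate Topology
open Set Complex Filter

noncomputable section

namespace Pool.Agent.MP_2fc7fa_gt.N

variable {E : Type} [NormedAddCommGroup E] [NormedSpace ℝ E]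

theorem hom_CLoc {D : Type} [TopologicalSpace D] {m : ℕ} {c : Co D ℤ} (hc : Dg m c) (S : Set D)
    (G : ℝ → (Fin m → ℝ) → D) (hG : ContinuousOn (Function.uncurry G) (Icc 0 1 ×ˢ cubeF m))
    (h : ∀ u ∈ Icc (0 : ℝ) 1, ∀ x ∈ cubeF m, G u x ∈ S ∧ LZ (dd (m + 1) c) (𝓝[S] (G u x)) ∧
      ∀ j, x j = 0 ∨ x j = 1 → LZ c (𝓝[S] (G u x))) :
    ∀ᶠ M in atTop, II M m (pb (fun q => G 0 (res m q)) c) = II M m (pb (fun q => G 1 (res m q)) c) := by
  have h1 : ∀ q ∈ cube, res m (shift 1 q) ∈ cubeF m := fun q hq =>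
    res_mem_cubeF m (shift_mem_cube 1 hq)
  have h2 : ∀ q ∈ cube, Tendsto (fun q : Pt => G (q 0) (res m (shift 1 q))) (𝓝[cube] q)
      (𝓝[S] (G (q 0) (res m (shift 1 q)))) := fun q hq =>
    ((hG.comp (s := cube) (f := fun q : Pt => (q 0, res m (shift 1 q))) ((continuous_apply 0).prodMk
      ((continuous_res m).comp (continuous_shift 1))).continuousOn fun q hq => ⟨hq 0, h1 q hq⟩)
      q hq).tendsto_nhdsWithin fun q hq => (h _ (hq 0) _ (h1 q hq)).1
  exact (II_homot m (hc.pb fun q : Pt => G (q 0) (res m (shift 1 q)))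
    (fun q hq => pb_dd _ _ c ▸ (h _ (hq 0) _ (h1 q hq)).2.1.pb (h2 q hq))
    fun q hq j hj e => ((h _ (hq 0) _ (h1 q hq)).2.2 ⟨j, hj⟩ e).pb (h2 q hq)).mono fun M e => e.symm

theorem le_CLoc {m : ℕ} {x : Fin m → ℝ} (hx : x ∈ cubeF m) : ‖x - fun _ => 1 / 2‖ ≤ 1 / 2 :=
  (pi_norm_le_iff_of_nonneg (by norm_num)).2 fun j =>
    abs_le.2 ⟨by simp; linarith [(hx j).1], by simp; linarith [(hx j).2]⟩

theorem eq_CLoc {m : ℕ} {x : Fin m → ℝ} (hx : x ∈ cubeF m) {j : Fin m} (h : x j = 0 ∨ x j = 1) :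
    ‖x - fun _ => 1 / 2‖ = 1 / 2 := by
  refine (le_CLoc hx).antisymm (le_trans ?_ (norm_le_pi_norm _ j))
  rcases h with h | h <;> norm_num [h]

theorem thom_CLoc {m : ℕ} {ω : Co E ℤ} (hω : Thom m ω) (G : ℝ → (Fin m → ℝ) → E)
    (hG : ContinuousOn (Function.uncurry G) (Icc 0 1 ×ˢ cubeF m))
    (h : ∀ u ∈ Icc (0 : ℝ) 1, ∀ x ∈ cubeF m, ‖x - fun _ => 1 / 2‖ = 1 / 2 → G u x ≠ 0) :
    ∀ᶠ M in atTop, II M m (pb (fun q => G 0 (res m q)) ω) = II M m (pb (fun q => G 1 (res m q)) ω) :=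
  hom_CLoc hω.dg univ G hG fun u hu x hx => ⟨trivial, hω.closed ▸ LZ.zero _, fun _ e =>
    (hω.lz _ (h u hu x hx (eq_CLoc hx e))).mono nhdsWithin_le_nhds⟩

/-- Homotopy invariance of the local degree. -/
theorem ldeg_path {m : ℕ} {ω : Co E ℤ} (hω : Thom m ω) (A : ℝ → (Fin m → ℝ) → E)
    (hA : Continuous (Function.uncurry A))
    (h0 : ∀ u ∈ Icc (0 : ℝ) 1, ∀ y, ‖y‖ = 1 / 2 → A u y ≠ 0) :
    ∀ᶠ M in atTop, ldeg m ω (A 0) M = ldeg m ω (A 1) M :=
  thom_CLoc hω (fun u x => A u (x - fun _ => 1 / 2))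
    (hA.comp (f := fun p : ℝ × (Fin m → ℝ) => (p.1, p.2 - fun _ => 1 / 2))
      (by fun_prop)).continuousOn fun u hu _ _ => h0 u hu _

/-- Shrink the cube to the point `z`, then deform `Φ` to its derivative. -/
theorem local_deg {m : ℕ} {ω : Co E ℤ} (hω : Thom m ω) {c : Co (Fin m → ℝ) ℤ} (hc : Dg m c)
    {z : Fin m → ℝ} (hz : ∀ j, z j ∈ Ioo (0 : ℝ) 1)
    (hd : ∀ x ∈ cubeF m, LZ (dd (m + 1) c) (𝓝[cubeF m] x))
    (h0 : ∀ x ∈ cubeF m, x ≠ z → LZ c (𝓝[cubeF m] x))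
    {Φ : (Fin m → ℝ) → E} {A : (Fin m → ℝ) →L[ℝ] E} (hΦ : HasFDerivAt Φ A z)
    (hcont : ∀ᶠ x in 𝓝 z, ContinuousAt Φ x) (hz0 : Φ z = 0) (hA : Function.Injective A)
    (hcz : LZ (c - pb Φ ω) (𝓝 z)) :
    ∀ᶠ M in atTop, II M m (pb (res m) c) = ldeg m ω A M := by
  obtain ⟨K, hK, hK'⟩ := (A : (Fin m → ℝ) →ₗ[ℝ] E).exists_antilipschitzWith
    (LinearMap.ker_eq_bot.2 hA)
  have hK0 : (0 : ℝ) < K := hK
  obtain ⟨U, hU, hU'⟩ := hcz
  have h1 : ∀ᶠ x in 𝓝 z, x ∈ cubeF m := eventually_all.2 fun j =>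
    (continuous_apply j).continuousAt.eventually (Icc_mem_nhds (hz j).1 (hz j).2)
  obtain ⟨ε, hε, h2⟩ := Metric.eventually_nhds_iff_ball.1 ((h1.and hU).and
    (hcont.and (hΦ.isLittleO.def (show 0 < (2 * K : ℝ)⁻¹ by positivity))))
  have h3 := fun x (hx : x ∈ cubeF m) => h2 (z + ε • (x - fun _ => 1 / 2)) (by
    rw [mem_ball_iff_norm, add_sub_cancel_left, norm_smul, Real.norm_of_nonneg hε.le]
    nlinarith [le_CLoc hx])
  have h4 := hom_CLoc hc (cubeF m) (fun u x => (1 - u) • x + u • (z + ε • (x - fun _ => 1 / 2)))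
    (by unfold Function.uncurry; fun_prop) fun u hu x hx => by
      have e1 : (1 - u) • x + u • (z + ε • (x - fun _ => 1 / 2)) ∈ cubeF m := fun j =>
        convex_Icc 0 1 (hx j) ((h3 x hx).1.1 j) (sub_nonneg.2 hu.2) hu.1 (sub_add_cancel _ _)
      refine ⟨e1, hd _ e1, fun j e => h0 _ e1 fun e2 => ?_⟩
      have e3 := (h3 x hx).1.1 j
      have e4 := congrFun e2 j
      simp only [Pi.add_apply, Pi.smul_apply, Pi.sub_apply, smul_eq_mul] at e3 e4
      rcases e with e | e <;> rw [e] at e3 e4 <;> nlinarith [hu.1, hu.2, e3.1, e3.2]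
  have h5 := thom_CLoc hω
    (fun u x => (1 - u) • Φ (z + ε • (x - fun _ => 1 / 2)) + u • A (x - fun _ => 1 / 2))
    (fun p hp => ContinuousAt.continuousWithinAt (by
      have e : ContinuousAt (fun p : ℝ × (Fin m → ℝ) => Φ (z + ε • (p.2 - fun _ => 1 / 2))) p :=
        ContinuousAt.comp (g := Φ) (h3 p.2 hp.2).2.1 (by fun_prop)
      exact ((continuousAt_const.sub continuousAt_fst).smul e).add
        (continuousAt_fst.smul (by fun_prop)))) fun u hu x hx e e1 => by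
      have e2 := (h3 x hx).2.2
      generalize x - (fun _ => 1 / 2) = y at e e1 e2
      have e3 : ‖y‖ ≤ K * ‖A y‖ := ZeroHomClass.bound_of_antilipschitz _ hK' y
      rw [hz0, sub_zero, add_sub_cancel_left, map_smul, norm_smul, Real.norm_of_nonneg hε.le] at e2
      have e4 : ((1 - u) * ε + u) • A y = -((1 - u) • (Φ (z + ε • y) - ε • A y)) := by
        linear_combination (norm := module) e1
      have e5 := congrArg norm e4
      have hu1 := sub_nonneg.2 hu.2
      have hu0 := hu.1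
      rw [norm_neg, norm_smul, norm_smul, Real.norm_of_nonneg hu1,
        Real.norm_of_nonneg (by positivity)] at e5
      have e6 : (2 * K : ℝ)⁻¹ * (ε * ‖y‖) ≤ ε * ‖A y‖ / 2 := by
        rw [inv_mul_le_iff₀ (by positivity)]
        nlinarith
      have e7 : 0 < ‖A y‖ := (mul_pos_iff_of_pos_left hK0).1 ((e ▸ one_half_pos).trans_le e3)
      have e8 : (1 - u) * ε / 2 + u ≤ 0 := le_of_mul_le_mul_right (by
        nlinarith [mul_le_mul_of_nonneg_left (e2.trans e6) hu1]) e7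
      obtain rfl : u = 0 := by nlinarith [mul_nonneg hu1 hε.le]
      linarith
  filter_upwards [h4, h5] with M e1 e2
  simp only [sub_zero, one_smul, zero_smul, add_zero, sub_self, zero_add] at e1 e2
  exact (e1.trans (II_congr M m fun x hx => sub_eq_zero.1
    (hU' _ fun j => (h3 _ (res_mem_cubeF m (hx j))).1.2))).trans e2

end Pool.Agent.MP_2fc7fa_gt.N

end
end

section

/-! Paths of invertible linear maps. -/

open scoped ComplexConjugate Topology
open Set Complex Filter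

noncomputable section

namespace Pool.Agent.MP_2fc7fa_gt.N

theorem mat_CGL (m : ℕ) (M : Matrix (Fin m) (Fin m) ℝ) (hM : M.det ≠ 0) :
    ∃ (e : Fin m → ℝ) (Q : ℝ → Matrix (Fin m) (Fin m) ℝ), (∀ j, e j = 1 ∨ e j = -1) ∧
      Continuous Q ∧ (∀ u ∈ Icc (0 : ℝ) 1, (Q u).det ≠ 0) ∧ Q 0 = M ∧ Q 1 = Matrix.diagonal e := by
  refine Matrix.diagonal_transvection_induction_of_det_ne_zero (fun M => ∃ (e : Fin m → ℝ)
    (Q : ℝ → Matrix (Fin m) (Fin m) ℝ), (∀ j, e j = 1 ∨ e j = -1) ∧ Continuous Q ∧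
      (∀ u ∈ Icc (0 : ℝ) 1, (Q u).det ≠ 0) ∧ Q 0 = M ∧ Q 1 = Matrix.diagonal e) M hM
    (fun D hD => ?_) (fun t => ?_) ?_
  · rw [Matrix.det_diagonal, Finset.prod_ne_zero_iff] at hD
    refine ⟨fun j => if 0 < D j then 1 else -1,
      fun u => Matrix.diagonal fun j => (1 - u) * D j + u * if 0 < D j then 1 else -1,
      fun j => ?_, Continuous.matrix_diagonal (by fun_prop), fun u hu => ?_, by simp, by simp⟩
    · by_cases h : 0 < D j
      · exact .inl (if_pos h)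
      · exact .inr (if_neg h)
    · rw [Matrix.det_diagonal, Finset.prod_ne_zero_iff]
      intro j hj
      obtain ⟨h0, h1⟩ := hu
      split_ifs with h
      · rcases h0.eq_or_lt with rfl | h0
        · simpa using h.ne'
        · exact ne_of_gt (by nlinarith [mul_nonneg (sub_nonneg.2 h1) h.le])
      · have h2 : D j < 0 := lt_of_le_of_ne (not_lt.1 h) (hD j hj)
        rcases h0.eq_or_lt with rfl | h0
        · simpa using h2.ne
        · exact ne_of_lt (by nlinarith [mul_nonneg (sub_nonneg.2 h1) (neg_pos.2 h2).le])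
  · refine ⟨1, fun u => Matrix.transvection t.i t.j ((1 - u) * t.c), fun _ => .inl rfl, ?_,
      fun u _ => ?_, by simp [Matrix.TransvectionStruct.toMatrix], by simp⟩
    · refine continuous_const.add (continuous_matrix fun a b => ?_)
      simp only [Matrix.single, Matrix.of_apply]
      split_ifs <;> fun_prop
    · rw [Matrix.det_transvection_of_ne _ _ t.hij]
      exact one_ne_zero
  · rintro A B - - ⟨e, Q, a1, a2, a3, a4, a5⟩ ⟨e', Q', b1, b2, b3, b4, b5⟩
    refine ⟨fun j => e j * e' j, fun u => Q u * Q' u, fun j => ?_, a2.matrix_mul b2,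
      fun u hu => ?_, by simp only [a4, b4], by simp only [a5, b5, Matrix.diagonal_mul_diagonal]⟩
    · rcases a1 j with h | h <;> rcases b1 j with h' | h' <;> simp [h, h']
    · rw [Matrix.det_mul]
      exact mul_ne_zero (a3 u hu) (b3 u hu)

/-- Use `Matrix.Pivot.exists_list_transvec_mul_diagonal_mul_list_transvec`; scale the coefficients
of the transvections to zero and move the diagonal entries to their signs. -/
theorem gl_real (m : ℕ) (A : (Fin m → ℝ) →L[ℝ] (Fin m → ℝ)) (hA : Function.Injective A) :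
    ∃ (e : Fin m → ℝ) (P : ℝ → (Fin m → ℝ) → Fin m → ℝ), (∀ j, e j = 1 ∨ e j = -1) ∧
      Continuous (Function.uncurry P) ∧ (∀ u ∈ Icc (0 : ℝ) 1, ∀ y, y ≠ 0 → P u y ≠ 0) ∧
      P 0 = A ∧ P 1 = fun y j => e j * y j := by
  have h0 : ∀ y, (LinearMap.toMatrix' (A : (Fin m → ℝ) →ₗ[ℝ] Fin m → ℝ)).mulVec y = A y :=
    fun y => by rw [← Matrix.toLin'_apply, Matrix.toLin'_toMatrix']; rfl
  obtain ⟨e, Q, h1, h2, h3, h4, h5⟩ := mat_CGL m
    (LinearMap.toMatrix' (A : (Fin m → ℝ) →ₗ[ℝ] Fin m → ℝ)) fun h => by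
      obtain ⟨y, hy, e⟩ := Matrix.exists_mulVec_eq_zero_iff.2 h
      exact hy (hA (by rw [← h0, e, map_zero]))
  refine ⟨e, fun u y => (Q u).mulVec y, h1, (h2.comp continuous_fst).matrix_mulVec continuous_snd,
    fun u hu y hy h => h3 u hu (Matrix.exists_mulVec_eq_zero_iff.1 ⟨y, hy, h⟩),
    funext fun y => ?_, funext fun y => funext fun j => ?_⟩
  · beta_reduce
    rw [h4, h0]
  · beta_reduce
    rw [h5, Matrix.mulVec_diagonal]

/-- The set of `t : ℂ` such that `A + t (1 - A)` is not injective is finite (eigenvalues), and the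
complement of a countable set in `ℂ` is path connected. -/
theorem gl_complex (E : Type) [NormedAddCommGroup E] [NormedSpace ℂ E] [FiniteDimensional ℂ E]
    (A : E ≃L[ℂ] E) : ∃ P : ℝ → E → E, Continuous (Function.uncurry P) ∧
      (∀ u ∈ Icc (0 : ℝ) 1, ∀ y, y ≠ 0 → P u y ≠ 0) ∧ P 0 = A ∧ P 1 = id := by
  have hf : {t : ℂ | ∃ y, y ≠ 0 ∧ (1 - t) • A y + t • y = 0}.Finite := by
    refine ((Module.End.finite_hasEigenvalue (A : E →ₗ[ℂ] E)).image fun μ => μ / (μ - 1)).subset ?_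
    rintro t ⟨y, hy, h⟩
    have h1 : 1 - t ≠ 0 := fun e => hy (by
      rwa [e, zero_smul, zero_add, ← sub_eq_zero.1 e, one_smul] at h)
    refine ⟨-t / (1 - t), Module.End.hasEigenvalue_of_hasEigenvector (x := y)
      ⟨Module.End.mem_eigenspace_iff.2 ?_, hy⟩, ?_⟩
    · change A y = _
      rw [div_eq_inv_mul, mul_smul, eq_inv_smul_iff₀ h1, neg_smul, eq_neg_iff_add_eq_zero, h]
    · beta_reduce
      rw [div_sub_one h1, div_div_div_cancel_right₀ h1, show -t - (1 - t) = -1 by ring,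
        neg_div_neg_eq, div_one]
  obtain ⟨γ, hγ⟩ := (hf.countable.isPathConnected_compl_of_one_lt_rank
    (by rw [rank_real_complex]; exact Nat.one_lt_ofNat)).joinedIn 0
      (fun ⟨y, hy, h⟩ => hy (by simpa using h)) 1 fun ⟨y, hy, h⟩ => hy (by simpa using h)
  refine ⟨fun u y => (1 - γ.extend u) • A y + γ.extend u • y, ?_,
    fun u hu y hy h => hγ ⟨u, hu⟩ ⟨y, hy, by rwa [← γ.extend_apply hu]⟩,
    funext fun y => by simp, funext fun y => by simp⟩
  have hc : Continuous fun p : ℝ × E => γ.extend p.1 := γ.continuous_extend.comp continuous_fst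
  exact ((continuous_const.sub hc).smul (A.continuous.comp continuous_snd)).add
    (hc.smul continuous_snd)

end Pool.Agent.MP_2fc7fa_gt.N

end
end

section

/-! The Thom cochain on `ℂ × ℝ × ℂ × ℝ`. -/

open scoped ComplexConjugate Topology
open Set Complex Filter

noncomputable section

namespace Pool.Agent.MP_2fc7fa_gt.N

theorem th3_dg : Dg 3 th3 := (tc_dg.pb _).cup (dH_dg.pb _)

theorem th3_nm : Nm 3 th3 := (tc_nm.pb _).cup (dH_nm.pb _)

theorem closed_CTh {D D' : Type} {n : ℕ} {c : Co D ℤ} (h : dd n c = 0) (φ : D' → D) :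
    dd n (pb φ c) = 0 := by
  rw [← pb_dd, h]
  rfl

theorem th3_dd_CTh : dd 4 th3 = 0 :=
  dd_cup_zero (n := 2) (m := 1) (tc_dg.pb _) (closed_CTh tc_dd _) (closed_CTh dH_dd _)

theorem th3_lz_CTh {e : ℂ × ℝ} (he : e ≠ 0) : LZ th3 (𝓝 e) := by
  by_cases h : e.1 = 0
  · have h2 : e.2 ≠ 0 := fun h2 => he (Prod.ext h h2)
    exact ((dH_lz h2).pb continuousAt_snd).cup_right 2 _
  · exact ((sec_lz h).pb (φ := Prod.fst) continuousAt_fst).cup_left 2 _

theorem thom_th6 : Thom 6 th6 := by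
  refine ⟨(th3_dg.pb _).cup (th3_dg.pb _), dd_cup_zero (n := 3) (m := 3) (th3_dg.pb _)
    (closed_CTh th3_dd_CTh _) (closed_CTh th3_dd_CTh _), fun e he => ?_⟩
  by_cases h : e.2.2 = 0
  · have h2 : (e.1, e.2.1) ≠ 0 := fun h2 =>
      he (Prod.ext (Prod.ext_iff.1 h2).1 (Prod.ext (Prod.ext_iff.1 h2).2 h))
    have hc : Continuous fun e : ℂ × ℝ × ℂ × ℝ => (e.1, e.2.1) := by fun_prop
    exact ((th3_lz_CTh h2).pb hc.continuousAt).cup_left 3 _
  · have hc : Continuous fun e : ℂ × ℝ × ℂ × ℝ => e.2.2 := by fun_prop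
    exact ((th3_lz_CTh h).pb hc.continuousAt).cup_right 3 _

theorem line_CTh {c : ℝ} (hc : c = 1 ∨ c = -1) : ∃ s : ℤ, (s = 1 ∨ s = -1) ∧
    ∀ M, 0 < M → II M 1 (pb (fun q : Pt => c * (q 0 - 1 / 2)) dH) = s := by
  have e : dH = dd 1 fun x : ℕ → ℝ => if 0 < x 0 then (1 : ℤ) else 0 := by
    funext x
    simp only [dH, dd, skip, Finset.sum_range_succ, Finset.sum_range_zero, lt_self_iff_false,
      if_false, zero_lt_one, if_true]
    ring
  have hd : Dg 0 (pb (fun q : Pt => c * (q 0 - 1 / 2))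
      fun x : ℕ → ℝ => if 0 < x 0 then (1 : ℤ) else 0) := fun x y h => by
    simp only [pb, h 0 le_rfl]
  have key : ∀ M, 0 < M → II M 1 (pb (fun q : Pt => c * (q 0 - 1 / 2)) dH) =
      (if 0 < c * (1 - 1 / 2) then (1 : ℤ) else 0) - if 0 < c * (0 - 1 / 2) then 1 else 0 := by
    intro M hM
    rw [e, pb_dd, stokes hM 0 hd]
    simp only [zero_add, Finset.sum_range_one, pow_zero, one_mul, II, pb, ins, lt_self_iff_false,
      if_false, if_true]
  rcases hc with rfl | rfl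
  · exact ⟨1, Or.inl rfl, fun M hM => by rw [key M hM]; norm_num⟩
  · exact ⟨-1, Or.inr rfl, fun M hM => by rw [key M hM]; norm_num⟩

/-- A diagonal map from the cube of dimension three. -/
def diag_CTh (a b c : ℝ) (q : Pt) : ℂ × ℝ :=
  ((a * (q 0 - 1 / 2) : ℝ) + (b * (q 1 - 1 / 2) : ℝ) * I, c * (q 2 - 1 / 2))

theorem sign_CTh {s t : ℤ} (hs : s = 1 ∨ s = -1) (ht : t = 1 ∨ t = -1) :
    s * t = 1 ∨ s * t = -1 := by
  rcases hs with rfl | rfl <;> rcases ht with rfl | rfl <;> norm_num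

theorem three_CTh {a b c : ℝ} (ha : a = 1 ∨ a = -1) (hb : b = 1 ∨ b = -1) (hc : c = 1 ∨ c = -1) :
    ∃ s : ℤ, (s = 1 ∨ s = -1) ∧ ∀ᶠ M in atTop, II M 3 (pb (diag_CTh a b c) th3) = s := by
  obtain ⟨s, hs, h1⟩ := wind a b ha hb
  obtain ⟨t, ht, h2⟩ := line_CTh hc
  refine ⟨s * t, sign_CTh hs ht, ?_⟩
  filter_upwards [h1, eventually_gt_atTop 0] with M h1 hM
  have e : pb (diag_CTh a b c) th3 = cup 2
      (pb (fun q : Pt => sec ((a * (q 0 - 1 / 2) : ℝ) + (b * (q 1 - 1 / 2) : ℝ) * I)) tc)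
      (pb (shift 2) (pb (fun q : Pt => c * (q 0 - 1 / 2)) dH)) := rfl
  rw [e, II_prod M (m := 2) (n := 1) (tc_dg.pb _) (dH_nm.pb _) fun x y _ _ h => by
    simp only [pb, h _ 0 (by norm_num), h _ 1 (by norm_num)], h1, h2 M hM]

/-- Real coordinates on the target. -/
def co_CTh : (ℂ × ℝ × ℂ × ℝ) →L[ℝ] Fin 6 → ℝ :=
  LinearMap.toContinuousLinearMap
    { toFun := fun e => ![e.1.re, e.1.im, e.2.1, e.2.2.1.re, e.2.2.1.im, e.2.2.2]
      map_add' := fun x y => by
        funext j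
        fin_cases j <;> simp
      map_smul' := fun c x => by
        funext j
        fin_cases j <;> simp }

/-- The inverse of the coordinates. -/
def inv_CTh (y : Fin 6 → ℝ) : ℂ × ℝ × ℂ × ℝ :=
  ((y 0 : ℝ) + (y 1 : ℝ) * I, y 2, (y 3 : ℝ) + (y 4 : ℝ) * I, y 5)

theorem inv_co_CTh (e : ℂ × ℝ × ℂ × ℝ) : inv_CTh (co_CTh e) = e :=
  Prod.ext (re_add_im _) (Prod.ext rfl (Prod.ext (re_add_im _) rfl))

theorem co_inv_CTh (y : Fin 6 → ℝ) : co_CTh (inv_CTh y) = y := by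
  funext j
  fin_cases j <;> simp [co_CTh, inv_CTh]

/-- Identify the target with `Fin 6 → ℝ` (so `A` is bijective), deform `A` to a diagonal matrix of
signs (`gl_real`, `ldeg_path`), then `II_prod` three times, `wind`, and `stokes` for `dH`. -/
theorem ldeg_th6 (A : (Fin 6 → ℝ) →L[ℝ] ℂ × ℝ × ℂ × ℝ) (hA : Function.Injective A) :
    ∃ s : ℤ, (s = 1 ∨ s = -1) ∧ ∀ᶠ M in atTop, ldeg 6 th6 A M = s := by
  obtain ⟨e, P, he, hP, h0, hP0, hP1⟩ := gl_real 6 (co_CTh.comp A)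
    ((Function.LeftInverse.injective inv_co_CTh).comp hA)
  have hi : Continuous inv_CTh := by
    unfold inv_CTh
    fun_prop
  have h1 := ldeg_path thom_th6 (fun u y => inv_CTh (P u y)) (hi.comp hP) fun u hu y hy hz => by
    refine h0 u hu y (fun h => ?_) ?_
    · rw [h, norm_zero] at hy
      norm_num at hy
    · rw [← co_inv_CTh (P u y), hz, map_zero]
  obtain ⟨s, hs, h2⟩ := three_CTh (he 0) (he 1) (he 2)
  obtain ⟨t, ht, h3⟩ := three_CTh (he 3) (he 4) (he 5)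
  refine ⟨s * t, sign_CTh hs ht, ?_⟩
  filter_upwards [h1, h2, h3] with M h1 h2 h3
  have e0 : (fun y => inv_CTh (P 0 y)) = A := by
    funext y
    rw [hP0]
    exact inv_co_CTh _
  rw [e0, hP1] at h1
  have e1 : pb (fun q : Pt => inv_CTh fun j => e j * (res 6 q - fun _ => 1 / 2 : Fin 6 → ℝ) j) th6 =
      cup 3 (pb (diag_CTh (e 0) (e 1) (e 2)) th3)
        (pb (shift 3) (pb (diag_CTh (e 3) (e 4) (e 5)) th3)) := rfl
  rw [h1, ldeg, e1, II_prod M (m := 3) (n := 3) (th3_dg.pb _) (th3_nm.pb _) fun x y _ _ h => by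
    simp only [pb, diag_CTh, h _ 0 (by norm_num), h _ 1 (by norm_num), h _ 2 (by norm_num)],
    h2, h3]

end Pool.Agent.MP_2fc7fa_gt.N

end
end

section

/-! The count at time zero. -/

open scoped ComplexConjugate Topology
open Set Complex Filter

noncomputable section

namespace Pool.Agent.MP_2fc7fa_gt.N

theorem nsq_exp_CSt (a : ℝ) (z : W) : nsq (Real.exp a • z) = Real.exp a ^ 2 * nsq z := by
  rw [← coe_smul, nsq_smul, norm_real, Real.norm_of_nonneg (Real.exp_pos a).le]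

theorem nsq_lt_CSt {a b : ℝ} (h : a < b) {z : W} (hz : z ≠ 0) :
    nsq (Real.exp a • z) < nsq (Real.exp b • z) := by
  rw [nsq_exp_CSt, nsq_exp_CSt]
  exact mul_lt_mul_of_pos_right
    (pow_lt_pow_left₀ (Real.exp_lt_exp.2 h) (Real.exp_pos a).le two_ne_zero) (nsq_pos hz)

theorem bounds_CSt {f : W → W} (hf : Sol f) {z : W} (hz : z ≠ 0) {α β : ℝ} (h0 : 0 ≤ α)
    (h1 : α < β) (h2 : nsq (f (Real.exp β • z)) ≤ nsq (f z))
    (h3 : nsq (f (Real.exp β • z)) ≤ nsq (f (Real.exp α • z))) :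
    1 / 100 < nsq (f z) ∧ nsq (f (Real.exp β • z)) < 1000 := by
  have key : ∀ x, nsq (f x) ≤ 1 / 100 ∨ 1000 ≤ nsq (f x) → f x = x := fun x hx =>
    hf.inj (hf.supp _ hx)
  constructor
  · by_contra h
    rw [not_lt] at h
    rw [key _ (Or.inl (h2.trans h)), key _ (Or.inl h)] at h2
    have := nsq_lt_CSt (h0.trans_lt h1) hz
    rw [Real.exp_zero, one_smul] at this
    exact absurd h2 this.not_ge
  · by_contra h
    rw [not_lt] at h
    rw [key _ (Or.inr (h.trans h3)), key _ (Or.inr h)] at h3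
    exact absurd h3 (nsq_lt_CSt h1 hz).not_ge

theorem aa_one_CSt (z₀ : W) (T δ : ℝ) (k : Zp) (p : Fin 6 → ℝ) :
    aa z₀ T δ k p 1 = Real.exp (2 * T * p 4) • aa z₀ T δ k p 0 := by
  rw [aa, aa, smul_smul, ← Real.exp_add, add_comm]
  rfl

theorem aa_two_CSt (z₀ : W) (T δ : ℝ) (k : Zp) (p : Fin 6 → ℝ) :
    aa z₀ T δ k p 2 = Real.exp (2 * T * p 4 + δ + 2 * T * p 5) • aa z₀ T δ k p 0 := by
  rw [aa, aa, smul_smul, ← Real.exp_add]
  congr 2
  change -T + 2 * T * p 3 + 2 * T * p 4 + δ + 2 * T * p 5 = _ + (-T + 2 * T * p 3)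
  ring

theorem aa_half_CSt (z₀ : W) (T δ : ℝ) {p : Fin 6 → ℝ}
    (h : p 0 = 1 / 2 ∧ p 1 = 1 / 2 ∧ p 2 = 1 / 2 ∧ p 3 = 1 / 2) : aa z₀ T δ 0 p 0 = z₀ := by
  have e : hh T δ p 0 = 0 := by
    change -T + 2 * T * p 3 = 0
    rw [h.2.2.2]
    ring
  rw [aa, e, Real.exp_zero, one_smul, vv, h.1, h.2.1, h.2.2.1, sub_self, ee_zero, rt_zero]
  norm_num

theorem aa_eq_CSt {z₀ : W} (h1 : z₀.1 ≠ 0) (h2 : z₀.2 ≠ 0) {T : ℝ} (hT : 0 < T) (δ : ℝ)
    {k k' : Zp} {p : Fin 6 → ℝ} (hp : p ∈ cubeF 6) (h : aa z₀ T δ k p 0 = rt k' • z₀) :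
    k = 0 ∧ p 0 = 1 / 2 ∧ p 1 = 1 / 2 ∧ p 2 = 1 / 2 ∧ p 3 = 1 / 2 := by
  have e0 : hh T δ p 0 = -T + 2 * T * p 3 := rfl
  rw [aa, e0] at h
  have hE := Real.exp_pos (-T + 2 * T * p 3)
  have hE' : Real.exp (-T + 2 * T * p 3) = 1 → p 3 = 1 / 2 := fun h => by
    have := (Real.exp_eq_one_iff _).1 h
    have h3 : T * (2 * p 3 - 1) = 0 := by linarith
    have := (mul_eq_zero.1 h3).resolve_left hT.ne'
    linarith
  generalize Real.exp (-T + 2 * T * p 3) = E at h hE hE'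
  have a1 : ((E * (2 * (1 - p 0)) : ℝ) : ℂ) * ee (p 1 - 1 / 2) = rt k' := by
    refine mul_right_cancel₀ h1 ?_
    have := congrArg Prod.fst h
    simp only [vv, Prod.smul_fst, smul_eq_mul, real_smul] at this
    rw [← this, ofReal_mul E]
    ring
  have a2 : ((E * (2 * p 0) : ℝ) : ℂ) * (rt k * ee (p 2 - 1 / 2)) = rt k' := by
    refine mul_right_cancel₀ h2 ?_
    have := congrArg Prod.snd h
    simp only [vv, Prod.smul_snd, smul_eq_mul, real_smul] at this
    rw [← this, ofReal_mul E]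
    ring
  have b1 : E * (2 * (1 - p 0)) = 1 := by
    have := congrArg norm a1
    rwa [norm_mul, norm_ee, norm_rt, mul_one, norm_real,
      Real.norm_of_nonneg (mul_nonneg hE.le (by linarith [(hp 0).2]))] at this
  have b2 : E * (2 * p 0) = 1 := by
    have := congrArg norm a2
    rwa [norm_mul, norm_mul, norm_ee, norm_rt, norm_rt, mul_one, mul_one, norm_real,
      Real.norm_of_nonneg (mul_nonneg hE.le (by linarith [(hp 0).1]))] at this
  rw [b1, ofReal_one, one_mul] at a1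
  rw [b2, ofReal_one, one_mul] at a2
  have hab : ∀ j, |p j - 1 / 2| < 1 := fun j => by
    rw [abs_lt]
    constructor <;> linarith [(hp j).1, (hp j).2]
  obtain ⟨c1, rfl⟩ := ee_eq_rt (hab 1) a1
  have a3 : ee (p 2 - 1 / 2) = rt (-k) :=
    mul_left_cancel₀ (rt_ne_zero k) (by rw [a2, ← rt_add, add_neg_cancel])
  obtain ⟨c2, c3⟩ := ee_eq_rt (hab 2) a3
  have hE1 : E = 1 := by linarith
  rw [hE1] at b2
  exact ⟨neg_eq_zero.1 c3, by linarith, by linarith, by linarith, hE' hE1⟩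

/-- The derivative of the parametrisation `p ↦ (a', α, β)` at a point with `p 0 = p 1 = p 2 = p 3 =
1 / 2` is injective. -/
theorem param_deriv {z₀ : W} (h1 : z₀.1 ≠ 0) (h2 : z₀.2 ≠ 0) {T : ℝ} (hT : 0 < T) (δ : ℝ)
    {p₀ : Fin 6 → ℝ} (h : p₀ 0 = 1 / 2 ∧ p₀ 1 = 1 / 2 ∧ p₀ 2 = 1 / 2 ∧ p₀ 3 = 1 / 2) :
    ∃ B : (Fin 6 → ℝ) →L[ℝ] W × ℝ × ℝ, Function.Injective B ∧ HasFDerivAt
      (fun p => (aa z₀ T δ 0 p 0, 2 * T * p 4, 2 * T * p 4 + δ + 2 * T * p 5)) B p₀ := by
  obtain ⟨e0, e1, e2, e3⟩ := h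
  have d : ∀ i, HasFDerivAt (fun p : Fin 6 → ℝ => p i)
      (ContinuousLinearMap.proj (R := ℝ) (φ := fun _ => ℝ) i) p₀ := fun i => hasFDerivAt_apply i p₀
  have dE := (((d 3).const_mul (2 * T)).const_add (-T)).exp
  have x0 : -T + 2 * T * p₀ 3 = 0 := by
    rw [e3]
    ring
  have a1 := ofRealCLM.hasFDerivAt.comp p₀ (((d 0).const_sub 1).const_mul 2)
  have a2 := ofRealCLM.hasFDerivAt.comp p₀ ((d 0).const_mul 2)
  have b1 := (hasDerivAt_ee _).hasFDerivAt.comp p₀ ((d 1).sub_const (1 / 2))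
  have b2 := (hasDerivAt_ee _).hasFDerivAt.comp p₀ ((d 2).sub_const (1 / 2))
  have hv := ((a1.mul b1).mul_const z₀.1).prodMk (((a2.mul_const (rt 0)).mul b2).mul_const z₀.2)
  have hw := (dE.smul hv).prodMk (((d 4).const_mul (2 * T)).prodMk
    ((((d 4).const_mul (2 * T)).add_const δ).add ((d 5).const_mul (2 * T))))
  refine ⟨_, (injective_iff_map_eq_zero _).2 fun v hv => ?_, hw⟩
  simp only [Prod.ext_iff, x0, Real.exp_zero] at hv
  obtain ⟨⟨u1, u2⟩, u3, u4⟩ := hv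
  have w1 : ((2 * T * v 3 - 2 * v 0 : ℝ) + (2 * Real.pi / 37 * v 1 : ℝ) * I) * z₀.1 = 0 := by
    simp [e0, e1, ee_zero] at u1
    push_cast
    linear_combination u1
  have w2 : ((2 * T * v 3 + 2 * v 0 : ℝ) + (2 * Real.pi / 37 * v 2 : ℝ) * I) * z₀.2 = 0 := by
    simp [e0, e2, ee_zero, rt_zero] at u2
    push_cast
    linear_combination u2
  have key : ∀ a b : ℝ, (a : ℂ) + (2 * Real.pi / 37 * b : ℝ) * I = 0 → a = 0 ∧ b = 0 := by
    intro a b h
    have h1 := congrArg re h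
    have h2 := congrArg im h
    simp only [add_re, ofReal_re, mul_re, I_re, mul_zero, ofReal_im, I_im, mul_one, sub_self,
      add_zero, zero_re, add_im, mul_im, zero_add, zero_im] at h1 h2
    exact ⟨h1, (mul_eq_zero.1 h2).resolve_left (by positivity)⟩
  obtain ⟨y1, y2⟩ := key _ _ ((mul_eq_zero.1 w1).resolve_right h1)
  obtain ⟨y3, y4⟩ := key _ _ ((mul_eq_zero.1 w2).resolve_right h2)
  have z4 : 2 * T * v 4 = 0 := u3
  have z5 : 2 * T * v 4 + 2 * T * v 5 = 0 := u4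
  have hT' : 2 * T ≠ 0 := by positivity
  have z3 : v 3 = 0 := (mul_eq_zero.1 (show 2 * T * v 3 = 0 by linarith)).resolve_left hT'
  have z5' : v 5 = 0 := (mul_eq_zero.1 (show 2 * T * v 5 = 0 by linarith)).resolve_left hT'
  funext j
  fin_cases j
  · show v 0 = 0
    linarith
  · exact y2
  · exact y4
  · exact z3
  · exact (mul_eq_zero.1 z4).resolve_left hT'
  · exact z5'

/-- `p₀ = (1/2, 1/2, 1/2, 1/2, α₀ / (2 T), (β₀ - α₀ - δ) / (2 T))`, `T₁ = β₀`, `δ₁ = (β₀ - α₀) / 2`. If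
both `CC` hold at `p` then `CC_le`, `hf.supp`, `hf.inj` give `nsq (x 0) > 1 / 100` and
`nsq (x 2) < 1000`, so `k1 = k2 = 1`, `CC_arc` and the uniqueness clause of `hf.sol` apply; compare
moduli and use `ee_eq_rt`. Then `local_deg` with `Φ` = (`Phi f` after the parametrisation, with the
signs of the last two components reversed), `y6_near`, `bb 0 p = 0` near `p₀`, `ldeg_th6`. -/
theorem start_loc {f : W → W} (hf : Sol f) : ∃ z₀ : W, z₀.1 ≠ 0 ∧ z₀.2 ≠ 0 ∧ ∃ T₁ δ₁ : ℝ, 0 < T₁ ∧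
    0 < δ₁ ∧ ∀ T δ : ℝ, T₁ ≤ T → 0 < δ → δ ≤ δ₁ → ∃ (p₀ : Fin 6 → ℝ) (s : ℤ), (s = 1 ∨ s = -1) ∧
      (∀ j, p₀ j ∈ Ioo (0 : ℝ) 1) ∧
      (∀ k, ∀ p ∈ cubeF 6, k ≠ 0 ∨ p ≠ p₀ → LZ (omq f z₀ T δ k) (𝓝[cubeF 6] p)) ∧
      ∀ᶠ M in atTop, II M 6 (pb (res 6) (omq f z₀ T δ 0)) = s := by
  obtain ⟨z₀, α₀, β₀, h1, h2, -, -, -, hα, hβ, ⟨D₁, hD₁, D₂, hD₂, e₁, e₂⟩, huniq, L, hL, hLi⟩ :=
    hf.sol
  refine ⟨z₀, h1, h2, β₀, (β₀ - α₀) / 2, by linarith, by linarith, fun T δ hT hδ hδ' => ?_⟩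
  have hT0 : 0 < T := by linarith
  have hT2 : 0 < 2 * T := by linarith
  have hz₀ : z₀ ≠ 0 := fun h => h1 (by rw [h]; rfl)
  obtain ⟨p₀, q0, q1, q2, q3, q4, q5⟩ : ∃ p₀ : Fin 6 → ℝ, p₀ 0 = 1 / 2 ∧ p₀ 1 = 1 / 2 ∧
      p₀ 2 = 1 / 2 ∧ p₀ 3 = 1 / 2 ∧ 2 * T * p₀ 4 = α₀ ∧ 2 * T * p₀ 5 = β₀ - α₀ - δ :=
    ⟨![1 / 2, 1 / 2, 1 / 2, 1 / 2, α₀ / (2 * T), (β₀ - α₀ - δ) / (2 * T)], rfl, rfl, rfl, rfl,
      mul_div_cancel₀ _ hT2.ne', mul_div_cancel₀ _ hT2.ne'⟩
  have hp₀ : ∀ j, p₀ j ∈ Ioo (0 : ℝ) 1 := by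
    have k : ∀ x y : ℝ, 2 * T * x = y → 0 < y → y < 2 * T → x ∈ Ioo (0 : ℝ) 1 := fun x y e a b =>
      ⟨pos_of_mul_pos_left (show 0 < x * (2 * T) by linarith) hT2.le,
        lt_of_mul_lt_mul_left (by linarith) hT2.le⟩
    intro j
    fin_cases j
    · exact (show p₀ 0 ∈ Ioo (0 : ℝ) 1 by rw [q0]; norm_num)
    · exact (show p₀ 1 ∈ Ioo (0 : ℝ) 1 by rw [q1]; norm_num)
    · exact (show p₀ 2 ∈ Ioo (0 : ℝ) 1 by rw [q2]; norm_num)
    · exact (show p₀ 3 ∈ Ioo (0 : ℝ) 1 by rw [q3]; norm_num)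
    · exact k _ _ q4 hα (by linarith)
    · exact k _ _ q5 (by linarith) (by linarith)
  have hf0 : ∀ x, x ≠ 0 → f x ≠ 0 := fun x hx h =>
    hx (hf.inj (h.trans (hf.supp 0 (Or.inl (by norm_num [nsq]))).symm))
  have hX : ∀ k, Continuous fun p i => f (aa z₀ T δ k p i) := fun k =>
    continuous_pi fun i => hf.cont.comp (continuous_aa T δ k i)
  have hlz : ∀ k, ∀ p ∈ cubeF 6, k ≠ 0 ∨ p ≠ p₀ → LZ (omq f z₀ T δ k) (𝓝[cubeF 6] p) := by
    intro k p hp hne
    have ha := aa_ne_zero h1 h2 T δ k p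
    refine (y6_lz (x := fun i => f (aa z₀ T δ k p i)) (fun i => hf0 _ (ha i)) ?_).pb
      (tendsto_comap_iff.2 (((hX k).tendsto p).mono_left nhdsWithin_le_nhds))
    rintro ⟨c1, c2⟩
    simp only [aa_one_CSt, aa_two_CSt] at c1 c2
    have g0 : 0 ≤ 2 * T * p 4 := mul_nonneg hT2.le (hp 4).1
    have g1 : 2 * T * p 4 < 2 * T * p 4 + δ + 2 * T * p 5 := by
      have := mul_nonneg hT2.le (hp 5).1
      linarith
    obtain ⟨b1, b2⟩ := bounds_CSt hf (ha 0) g0 g1 (CC_le (k1_mem _) c1) (CC_le (k2_mem _) c2)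
    obtain ⟨E₁, hE₁, r1⟩ := CC_arc (k1_one (by dsimp only; linarith)) (hf0 _ (ha 0)) c1
    obtain ⟨E₂, hE₂, r2⟩ := CC_arc (k2_one (by dsimp only; linarith))
      (hf0 _ (smul_ne_zero (Real.exp_pos _).ne' (ha 0))) c2
    obtain ⟨k', s1, s2, s3⟩ := huniq _ _ _ (ha 0) g0 g1 E₁ (by norm_num at hE₁ ⊢; exact hE₁) E₂
      (by norm_num at hE₂ ⊢; exact hE₂) r1 r2
    obtain ⟨t0, t1, t2, t3, t4⟩ := aa_eq_CSt h1 h2 hT0 δ hp s1
    refine hne.elim (fun h => h t0) fun h => h (funext fun j => ?_)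
    fin_cases j
    · exact t1.trans q0.symm
    · exact t2.trans q1.symm
    · exact t3.trans q2.symm
    · exact t4.trans q3.symm
    · exact mul_left_cancel₀ hT2.ne' (s2.trans q4.symm)
    · exact mul_left_cancel₀ hT2.ne' (show 2 * T * p 5 = 2 * T * p₀ 5 by linarith)
  obtain ⟨B, hBi, hB⟩ := param_deriv h1 h2 hT0 δ ⟨q0, q1, q2, q3⟩
  have x0 : aa z₀ T δ 0 p₀ 0 = z₀ := aa_half_CSt z₀ T δ ⟨q0, q1, q2, q3⟩
  have y5 : 2 * T * p₀ 4 + δ + 2 * T * p₀ 5 = β₀ := by linarith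
  have x1 : aa z₀ T δ 0 p₀ 1 = Real.exp α₀ • z₀ := by rw [aa_one_CSt, x0, q4]
  have x2 : aa z₀ T δ 0 p₀ 2 = Real.exp β₀ • z₀ := by rw [aa_two_CSt, x0, y5]
  let S : ℂ × ℝ × ℂ × ℝ →L[ℝ] ℂ × ℝ × ℂ × ℝ := (ContinuousLinearMap.id ℝ ℂ).prodMap
    ((ContinuousLinearMap.id ℝ ℝ).prodMap (-ContinuousLinearMap.id ℝ (ℂ × ℝ)))
  have hS : ∀ e, S e = (e.1, e.2.1, -e.2.2) := fun _ => rfl
  have hSi : Function.Injective S := fun a b h => by
    simp only [hS, Prod.mk.injEq, neg_inj] at h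
    exact Prod.ext h.1 (Prod.ext h.2.1 h.2.2)
  let Ψ : (Fin 3 → W) → ℂ × ℝ × ℂ × ℝ := fun x' =>
    (det2 (x' 0) (x' 2), nsq (x' 2) - nsq (x' 0), det2 (x' 1) (x' 2), nsq (x' 2) - nsq (x' 1))
  have hΨ : Continuous Ψ := by
    have a : ∀ i j, Continuous fun x' : Fin 3 → W => det2 (x' i) (x' j) := fun i j =>
      continuous_det2.comp (f := fun x' : Fin 3 → W => (x' i, x' j))
        ((continuous_apply i).prodMk (continuous_apply j))
    have b : ∀ i, Continuous fun x' : Fin 3 → W => nsq (x' i) := fun i =>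
      continuous_nsq.comp (continuous_apply i)
    exact (a 0 2).prodMk (((b 2).sub (b 0)).prodMk ((a 1 2).prodMk ((b 2).sub (b 1))))
  have hΦ : HasFDerivAt (fun p => Ψ fun i => f (aa z₀ T δ 0 p i)) (S.comp (L.comp B)) p₀ := by
    have hL' : HasFDerivAt (Phi f) L
        (aa z₀ T δ 0 p₀ 0, 2 * T * p₀ 4, 2 * T * p₀ 4 + δ + 2 * T * p₀ 5) := by
      rwa [x0, y5, q4]
    refine (S.hasFDerivAt.comp p₀ (hL'.comp p₀ hB)).congr_of_eventuallyEq
      (Eventually.of_forall fun p => ?_)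
    simp only [Ψ, Function.comp, hS, Phi, aa_one_CSt, aa_two_CSt, Prod.neg_mk, neg_sub, det2,
      Prod.mk.injEq, true_and, and_true]
    ring
  have n1 : nsq (f (Real.exp β₀ • z₀)) = nsq (f z₀) := by
    rw [e₁, nsq_smul, norm_ee, one_pow, one_mul]
  have n2 : nsq (f (Real.exp β₀ • z₀)) = nsq (f (Real.exp α₀ • z₀)) := by
    rw [e₂, nsq_smul, norm_ee, one_pow, one_mul]
  have hdet : ∀ (c : ℂ) (x : W), det2 x (c • x) = 0 := fun c x => by
    rw [← one_smul ℂ x, smul_smul, det2_smul, det2_self, mul_zero]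
  have hΦ0 : (Ψ fun i => f (aa z₀ T δ 0 p₀ i)) = 0 := by
    simp only [Ψ, x0, x1, x2, Prod.mk_eq_zero]
    exact ⟨by rw [e₁, hdet], sub_eq_zero.2 n1, by rw [e₂, hdet], sub_eq_zero.2 n2⟩
  obtain ⟨b1, b2⟩ := bounds_CSt hf hz₀ hα.le hβ n1.le n2.le
  have hn := (y6_near (x := fun i => f (aa z₀ T δ 0 p₀ i)) (by simp only [x0]; linarith)
    (by simp only [x2]; linarith) (hf0 _ (aa_ne_zero h1 h2 T δ 0 p₀ 1)) hD₁ hD₂
    (by simp only [x0, x2]; exact e₁) (by simp only [x1, x2]; exact e₂)).pb ((hX 0).tendsto p₀)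
  have hb : (fun p => (fun i => f (aa z₀ T δ 0 p i), bb 0 p)) =ᶠ[𝓝 p₀]
      fun p => (fun i => f (aa z₀ T δ 0 p i), (0 : Zp)) := by
    have k : ∀ j, ∀ᶠ p : Fin 6 → ℝ in 𝓝 p₀, p j ≠ 1 := fun j =>
      (continuous_apply j).continuousAt.eventually_ne (hp₀ j).2.ne
    filter_upwards [k 0, k 1] with p a b
    rw [bb, if_neg a, if_neg b]
  have hcz : LZ (omq f z₀ T δ 0 - pb (fun p => Ψ fun i => f (aa z₀ T δ 0 p i)) th6) (𝓝 p₀) := by
    have := (LZ.pb_congr y6 hb).add hn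
    rw [← sub_add_sub_cancel _ (pb (fun p => (fun i => f (aa z₀ T δ 0 p i), (0 : Zp))) y6)]
    exact this
  have hAi : Function.Injective (S.comp (L.comp B)) := hSi.comp (hLi.comp hBi)
  obtain ⟨s, hs, hM⟩ := ldeg_th6 _ hAi
  refine ⟨p₀, s, hs, hp₀, hlz, ?_⟩
  have hloc := local_deg thom_th6 (c := omq f z₀ T δ 0) (y6_dg.pb _) hp₀ (fun x hx => ?_)
    (fun x hx h => hlz 0 x hx (Or.inr h)) hΦ
    (Eventually.of_forall fun x => (hΨ.comp (hX 0)).continuousAt) hΦ0 hAi hcz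
  · filter_upwards [hloc, hM] with M a b
    exact a.trans b
  · rcases eq_or_ne x p₀ with rfl | h
    · have := hcz.dd (6 + 1)
      rw [dd_sub, ← pb_dd, thom_th6.closed] at this
      exact (this.of_sub (LZ.zero _)).mono nhdsWithin_le_nhds
    · exact (hlz 0 x hx (Or.inr h)).dd _

end Pool.Agent.MP_2fc7fa_gt.N

end
end

section

/-! The core count. -/

open scoped ComplexConjugate Topology
open Set Complex Filter

noncomputable section

namespace Pool.Agent.MP_2fc7fa_gt.N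

theorem orb_Core {f : W → W} (hf : Sol f) (L : LineFamily NN f) {z₀ : W} (h1 : z₀.1 ≠ 0)
    (h2 : z₀.2 ≠ 0) (T δ : ℝ) (σ : ℕ → Zp) (k : Zp) {q : Pt} (hq : q ∈ cube) :
    Orb (Psi L z₀ T δ NN σ k (cons 0 q)).1 fun i => f (aa z₀ T δ k (res 6 q) i) := by
  intro i g
  rw [← hf.equiv]
  refine L.start _ _ _ ⟨?_, (lst_length _ _).le, shift_mem_cube 6 hq, le_rfl, zero_le_one⟩
    (smul_ne_zero (rt_ne_zero g) (aa_ne_zero h1 h2 T δ k _ i))
  intro h
  have := lst_length NN σ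
  rw [h] at this
  simp at this

theorem start_Core {f : W → W} (hf : Sol f) (L : LineFamily NN f) : ∃ z₀ : W, z₀.1 ≠ 0 ∧ z₀.2 ≠ 0 ∧
    ∃ T₁ δ₁ : ℝ, 0 < T₁ ∧ 0 < δ₁ ∧ ∀ T δ : ℝ, T₁ ≤ T → 0 < δ → δ ≤ δ₁ → ∃ s : ℤ,
      (s = 1 ∨ s = -1) ∧ ∀ σ, ∀ᶠ M in atTop, ∑ k : Zp,
        II M (NN + 6) (pb (ins 0 0) (pb (Psi L z₀ T δ NN σ k) WW)) = s * E0 σ := by
  obtain ⟨z₀, h1, h2, T₁, δ₁, hT₁, hδ₁, H⟩ := start_loc hf
  refine ⟨z₀, h1, h2, T₁, δ₁, hT₁, hδ₁, fun T δ hT hδ hδ' => ?_⟩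
  obtain ⟨p₀, s, hs, hp₀, hlz, hval⟩ := H T δ hT hδ hδ'
  refine ⟨s, hs, fun σ => ?_⟩
  have e1 : ∀ k M, II M (NN + 6) (pb (ins 0 0) (pb (Psi L z₀ T δ NN σ k) WW)) =
      II M (NN + 6) (cup 6 (pb (res 6) (omq f z₀ T δ k))
        (pb (fun q => Psi L z₀ T δ NN σ k (cons 0 q)) EE)) := by
    intro k M
    refine II_congr M _ fun x hx => ?_
    simp only [WW, ins_zero, pb, cup, omq]
    congr 2
    funext j
    exact rho_orb (orb_Core hf L h1 h2 T δ σ k (hx j))
  have e2 : ∀ k ∈ (Finset.univ : Finset Zp).erase 0, ∀ᶠ M in atTop,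
      II M (NN + 6) (pb (ins 0 0) (pb (Psi L z₀ T δ NN σ k) WW)) = 0 := by
    intro k hk
    simp only [e1]
    exact II_lz _ fun q hq => ((hlz k _ (res_mem_cubeF 6 hq)
      (Or.inl (Finset.ne_of_mem_erase hk))).pb (tendsto_res 6 q)).cup_left _ _
  have e3 : ∀ᶠ M in atTop, II M (NN + 6) (cup 6 (pb (res 6) (omq f z₀ T δ 0))
      (pb (fun q => Psi L z₀ T δ NN σ 0 (cons 0 q)) EE) - cup 6 (pb (res 6) (omq f z₀ T δ 0))
      (pb (shift 6) (pb (fun t => σ (idx NN t)) E0))) = 0 := by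
    refine II_lz _ fun q hq => ?_
    by_cases h : res 6 q = p₀
    · refine LZ.cup_sub (by rw [sub_self]; exact LZ.zero _) ?_ 6
      have o : ∀ j : Fin 6, {q' : Pt | res 6 q' j < 1} ∈ 𝓝 q := fun j =>
        (isOpen_lt ((continuous_apply j).comp (continuous_res 6)) continuous_const).mem_nhds
          (show res 6 q j < 1 by rw [h]; exact (hp₀ j).2)
      refine ⟨_, inter_mem_nhdsWithin cube (inter_mem (o 0) (o 1)), fun x hx => ?_⟩
      rw [Pi.sub_apply, sub_eq_zero]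
      refine EE_orb (fun a => ⟨_, orb_Core hf L h1 h2 T δ σ 0 (hx a).1⟩) fun a => ?_
      exact (if_neg (hx a).2.1.ne).trans (if_neg (hx a).2.2.ne)
    · have := (hlz 0 _ (res_mem_cubeF 6 hq) (Or.inr h)).pb (tendsto_res 6 q)
      exact (this.cup_left _ _).sub (this.cup_left _ _)
  filter_upwards [(Finset.eventually_all _).2 e2, e3, hval, eventually_gt_atTop 0]
    with M a2 a3 a4 hM
  rw [← Finset.add_sum_erase _ _ (Finset.mem_univ (0 : Zp)), Finset.sum_eq_zero a2, add_zero, e1]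
  rw [II_sub, sub_eq_zero] at a3
  have hdg : Dg 6 (pb (res 6) (omq f z₀ T δ 0)) := (y6_dg.pb _).pb _
  rw [a3, II_prod M hdg (E0_nm.pb _), a4, II_simplex hM NN σ E0_dg E0_nm]
  intro x y _ _ hxy
  simp only [pb]
  congr 1
  funext i j
  exact hxy i j j.2

theorem core : CoreStmt := by
  intro f hf hL
  obtain ⟨L⟩ := hL NN
  obtain ⟨z₀, h1, h2, T₁, δ₁, hT₁, hδ₁, Hs⟩ := start_Core hf L
  obtain ⟨T₀, HT⟩ := no_hit L h1 h2
  obtain ⟨δ₀, hδ₀, Hn⟩ := HT (max T₀ T₁) (le_max_left _ _)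
  set T := max T₀ T₁ with hT
  set δ := min δ₀ δ₁ with hδ
  have δpos : 0 < δ := lt_min hδ₀ hδ₁
  have Tpos : 0 ≤ T := hT₁.le.trans (le_max_right _ _)
  obtain ⟨s, hs, Hv⟩ := Hs T δ (le_max_right _ _) δpos (min_le_right _ _)
  replace Hn := Hn δ δpos (min_le_left _ _)
  obtain ⟨d, hd⟩ : ∃ d, jl.length = d + 1 := ⟨jl.length - 1, by have := jl_pos; omega⟩
  have hN : NN = (2 * d + 1) + 1 := by rw [NN, hd]; ring
  set c : (ℕ → Zp) → Zp → Co Pt ℤ := fun σ k => pb (Psi L z₀ T δ NN σ k) WW with hc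
  set A : ℕ → Co Zp ℤ := fun M σ => ∑ k : Zp,
    II M (NN + 6) (pb (Psi L z₀ T δ (2 * d + 1) σ k) WW) with hA
  have o : (1 : ℝ) ∈ Icc (0 : ℝ) 1 := ⟨zero_le_one, le_rfl⟩
  have z : (0 : ℝ) ∈ Icc (0 : ℝ) 1 := ⟨le_rfl, zero_le_one⟩
  have face : ∀ σ k i a, a ∈ Icc (0 : ℝ) 1 → (∀ q : Pt, q i = a →
      q 0 = 1 ∨ q 4 = 0 ∨ q 4 = 1 ∨ q 5 = 0 ∨ q 5 = 1 ∨ q 6 = 0 ∨ q 6 = 1) →
      ∀ᶠ M in atTop, II M (NN + 6) (pb (ins i a) (c σ k)) = 0 := by
    intro σ k i a ha h
    refine II_lz _ fun q hq => LZ.pb ?_ (tendsto_ins i ha q)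
    have hq' := ins_mem_cube i ha hq
    exact (WW_lz (Psi_rg L h1 h2 Tpos δpos le_rfl σ k hq')
      (Hn σ k _ hq' (h _ (by simp [ins])))).pb (Psi_tendsto L h1 h2 T δ le_rfl σ k hq')
  have key : ∀ σ, ∀ᶠ M in atTop, s * E0 σ = -dd (2 * d + 2) (A M) σ := by
    intro σ
    have b0 : ∀ k, ∀ᶠ M in atTop, II M (NN + 6 + 1) (dd (NN + 6 + 1) (c σ k)) = 0 := by
      intro k
      refine II_lz _ fun q hq => ?_
      rw [hc, ← pb_dd]
      exact (WW_dd (Psi_rg L h1 h2 Tpos δpos le_rfl σ k hq)).pb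
        (Psi_tendsto L h1 h2 T δ le_rfl σ k hq)
    filter_upwards [eventually_all.2 b0, Hv σ, eventually_gt_atTop 0,
      eventually_all.2 fun k => face σ k 0 1 o (by tauto),
      eventually_all.2 fun k => face σ k 4 0 z (by tauto),
      eventually_all.2 fun k => face σ k 4 1 o (by tauto),
      eventually_all.2 fun k => face σ k 5 0 z (by tauto),
      eventually_all.2 fun k => face σ k 5 1 o (by tauto),
      eventually_all.2 fun k => face σ k 6 0 z (by tauto),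
      eventually_all.2 fun k => face σ k 6 1 o (by tauto)]
      with M a0 av hM a01 a40 a41 a50 a51 a60 a61
    have st : ∀ k, (0 : ℤ) = -II M (NN + 6) (pb (ins 0 0) (c σ k)) +
        (II M (NN + 6) (pb (ins 2 1) (c σ k)) - II M (NN + 6) (pb (ins 2 0) (c σ k))) -
        (II M (NN + 6) (pb (ins 3 1) (c σ k)) - II M (NN + 6) (pb (ins 3 0) (c σ k))) -
        ∑ i ∈ Finset.range (2 * d + 2 + 1), (-1) ^ i *
          II M (NN + 6) (pb (Psi L z₀ T δ (2 * d + 1) (skip i σ) k) WW) := by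
      intro k
      have hdg : Dg (NN + 6) (c σ k) := WW_dg.pb _
      rw [← a0 k, stokes hM _ hdg, show NN + 6 + 1 = 7 + (2 * d + 1 + 1) by omega,
        Finset.sum_range_add, Finset.sum_range_succ _ (2 * d + 1),
        Finset.sum_range_succ _ (2 * d + 2), Finset.sum_range_succ _ (2 * d + 1)]
      have r0 := face_r L h1 h2 T δ M σ k (Or.inl rfl)
      have r1 := face_r L h1 h2 T δ M σ k (Or.inr rfl)
      have t1 : ∑ i ∈ Finset.range (2 * d + 1), (-1 : ℤ) ^ (7 + i) *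
          (II M (NN + 6) (pb (ins (7 + i) 1) (c σ k)) - II M (NN + 6) (pb (ins (7 + i) 0) (c σ k))) =
          -∑ i ∈ Finset.range (2 * d + 1), (-1) ^ i *
            II M (NN + 6) (pb (Psi L z₀ T δ (2 * d + 1) (skip i σ) k) WW) := by
        rw [← Finset.sum_neg_distrib]
        refine Finset.sum_congr rfl fun i hi => ?_
        have hi := Finset.mem_range.1 hi
        rw [hc, face_t1 L h1 h2 T δ M hN hi.le, face_t0 L h1 h2 T δ M hN hi]
        ring
      have t2 := face_t1 L h1 h2 T δ M hN le_rfl σ k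
      have t3 := face_last L h1 h2 T δ M hN σ k
      have t4 : Psi L z₀ T δ (2 * d + 1) (skip (2 * d + 2) σ) k = Psi L z₀ T δ (2 * d + 1) σ k :=
        Psi_congr L T δ (fun j hj => if_pos (by omega)) k
      rw [t1, t4]
      simp only [Finset.sum_range_succ, Finset.sum_range_zero, a01, a40, a41, a50, a51, a60, a61]
      simp only [hc, r0, r1, t2, t3]
      ring
    have s2 : ∑ k : Zp, II M (NN + 6) (pb (ins 2 1) (c σ k)) =
        ∑ k : Zp, II M (NN + 6) (pb (ins 2 0) (c σ k)) := by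
      rw [← Equiv.sum_comp (Equiv.addRight 1)]
      exact Finset.sum_congr rfl fun k _ => face_th1 L h1 h2 T δ M σ k
    have s3 : ∑ k : Zp, II M (NN + 6) (pb (ins 3 1) (c σ k)) =
        ∑ k : Zp, II M (NN + 6) (pb (ins 3 0) (c σ k)) := by
      rw [← Equiv.sum_comp (Equiv.addRight 1) fun k => II M (NN + 6) (pb (ins 3 0) (c σ k))]
      exact Finset.sum_congr rfl fun k _ => face_th2 L h1 h2 T δ M σ k
    have tot := Finset.sum_congr (rfl : (Finset.univ : Finset Zp) = _) fun k _ => st k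
    simp only [Finset.sum_sub_distrib, Finset.sum_add_distrib, Finset.sum_neg_distrib, s2, s3,
      Finset.sum_const_zero] at tot
    rw [Finset.sum_comm] at tot
    rw [← av]
    simp only [dd, hA, Finset.mul_sum]
    linear_combination tot
  obtain ⟨M, hM⟩ := (cyc_ev (d + 1) (X := fun _ σ => (s : Zp) * ((E0 σ : ℤ) : Zp))
    (Y := fun M σ => (-1) * dd (2 * d + 2) (fun τ => ((A M τ : ℤ) : Zp)) σ) fun σ => by
      filter_upwards [key σ] with M hM
      have := congrArg (Int.cast : ℤ → Zp) hM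
      simp only [dd] at this ⊢
      push_cast at this ⊢
      linear_combination this).exists
  rw [cyc_mul, cyc_mul, cyc_dd, mul_zero, ← hd] at hM
  · refine cyc_E0 ?_
    rcases hs with rfl | rfl <;> simpa using hM
  · intro x y h
    simp only [hA, Psi_congr L T δ h]
  · intro k σ
    simp only [hA, face_inv L h1 h2 T δ M (show 2 * d + 1 ≤ NN by omega)]

end Pool.Agent.MP_2fc7fa_gt.N

end
end
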